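import Mathlib
import Pool.Agent.MP_14ad9d_nt.Full.ED3

namespace Pool.Agent.MP_f68ac8_nt.Nd

open NumberField NumberField.InfinitePlace NumberField.mixedEmbedding NumberField.Units
  NumberField.Units.dirichletUnitTheorem MeasureTheory
open MP_14ad9d_nt.Full MP_14ad9d_nt.Full.EDAux MP_d64882_nt
open scoped Classical

/-! ### Part A: continuation of the Dedekind zeta function, uniformly in the field -/

section
variable (E : Type) [Field E] [NumberField E]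

/-- the degree -/
noncomputable abbrev dE : ℕ := Module.finrank ℚ E

/-- twice the absolute discriminant -/
noncomputable def Bd : ℝ := 2 * |(discr E : ℝ)|

/-- the fundamental domain of the unit lattice -/
noncomputable def FD : Set (logSpace E) :=
  ZSpan.fundamentalDomain ((basisUnitLattice E).ofZLatticeBasis ℝ (unitLattice E))

/-- smoothed sum over all nonzero ideals -/
noncomputable def Sm (Φ : ℝ → ℂ) (k : ℝ) : ℂ :=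
  ∑ᶠ I : Ideal (𝓞 E), triv E I * Φ (Real.log (Ideal.absNorm I) - k)

/-- the Dedekind zeta function -/
noncomputable def ZE (s : ℂ) : ℂ := ∑' I : Ideal (𝓞 E), triv E I * (Ideal.absNorm I : ℂ) ^ (-s)

/-- the continuation of `(1 - exp (1 - s)) * ZE s` -/
noncomputable def FE (s : ℂ) : ℂ :=
  PP (triv E) 0 s + ∑' k : ℕ, (PP (triv E) (k + 1) s - Complex.exp (1 - s) * PP (triv E) k s)

/-- no zero within `ρ` of one -/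
def Good (ρ : ℝ) : Prop := ∀ s : ℂ, ‖s - 1‖ ≤ ρ → FE E s ≠ 0

variable {E}

/-- the embedding of the integers in the mixed space -/
noncomputable def em (α : 𝓞 E) : mixedSpace E := mixedEmbedding E (α : E)

/-- norm of a weight vector -/
noncomputable def nt (t : InfinitePlace E → ℝ) : ℝ := ∏ w, t w ^ mult w

/-- the box of size `R` for the weights `t` -/
def InB (t : InfinitePlace E → ℝ) (R : ℝ) (x : mixedSpace E) : Prop :=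
  ∀ w, t w * normAtPlace w x ≤ R

/-- Lipschitz for the weights `t` -/
def Lp (t : InfinitePlace E → ℝ) (Λ : ℝ) (f : mixedSpace E → ℂ) : Prop :=
  ∀ x y R, InB t R (x - y) → ‖f x - f y‖ ≤ Λ * R

/-- smoothed sum over one ideal class -/
noncomputable def Sc (J : Ideal (𝓞 E)) (Φ : ℝ → ℂ) (k : ℝ) : ℂ :=
  ∑ᶠ I : Ideal (𝓞 E),
    if (I * J).IsPrincipal then triv E I * Φ (Real.log (Ideal.absNorm I) - k) else 0

/-- a bump of integral one on the log space -/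
noncomputable def psi (v : logSpace E) : ℝ := ∏ w, tent (v w)

/-- the test function on the mixed space -/
noncomputable def fv (Φ : ℝ → ℂ) (c : ℝ) (v : logSpace E) (x : mixedSpace E) : ℂ :=
  if mixedEmbedding.norm x = 0 then 0
  else Φ (Real.log (mixedEmbedding.norm x) - c) * (psi (v + logMap x) : ℝ)

/-- the weights adapted to `fv Φ c v` -/
noncomputable def tv (c : ℝ) (v : logSpace E) (w : InfinitePlace E) : ℝ :=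
  Real.exp ((if h : w = w₀ then -∑ u, v u else v ⟨w, h⟩) / mult w - c / dE E)

/-- the lattice sum -/
noncomputable def Gs (J : Ideal (𝓞 E)) (Φ : ℝ → ℂ) (c : ℝ) (v : logSpace E) : ℂ :=
  ∑ᶠ α : J, fv Φ c v (em (α : 𝓞 E))

end

/-- admissible profile -/
def Ts (Φ : ℝ → ℂ) (Λ : ℝ) : Prop :=
  (∀ u v, ‖Φ u - Φ v‖ ≤ Λ * |u - v|) ∧ ∀ u, 2 ≤ |u| → Φ u = 0

/-- the twisted difference of a profile -/
noncomputable def dP (Φ : ℝ → ℂ) (u : ℝ) : ℂ := Φ (u - 1) - (Real.exp 1 : ℝ) * Φ u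

def PackStmt : Prop :=
  ∀ (E : Type) [Field E] [NumberField E] (t : InfinitePlace E → ℝ) (a R : ℝ), (∀ w, 0 < t w) →
    0 < a → 0 ≤ R → a ^ dE E ≤ nt t →
    {α : 𝓞 E | InB t R (em α)}.Finite ∧
      ({α : 𝓞 E | InB t R (em α)}.ncard : ℝ) ≤ (4 * R / a + 2) ^ dE E

def CovStmt : Prop :=
  ∀ N : ℕ, ∃ C : ℕ, ∀ (E : Type) [Field E] [NumberField E], dE E ≤ N →
    ∀ (J : Ideal (𝓞 E)) (t : InfinitePlace E → ℝ) (a : ℝ), J ≠ ⊥ → (∀ w, 0 < t w) → 0 < a →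
      Ideal.absNorm J * nt t ≤ a ^ dE E →
      ∀ x : mixedSpace E, ∃ α ∈ J, InB t (Bd E ^ C * a) (x - em α)

def IntStmt : Prop :=
  ∀ (E : Type) [Field E] [NumberField E] (t : InfinitePlace E → ℝ) (Λ C : ℝ)
    (f : mixedSpace E → ℂ), (∀ w, 0 < t w) → Lp t Λ f → (∀ x, f x ≠ 0 → InB t C x) →
    Integrable f

def RiemStmt : Prop :=
  ∀ (E : Type) [Field E] [NumberField E] (J : Ideal (𝓞 E)) (t : InfinitePlace E → ℝ)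
    (Λ C δ M : ℝ) (f : mixedSpace E → ℂ), J ≠ ⊥ → (∀ w, 0 < t w) → Lp t Λ f → 0 ≤ Λ →
    (∀ x, f x ≠ 0 → InB t C x) → (∀ x : mixedSpace E, ∃ α ∈ J, InB t δ (x - em α)) →
    {α : 𝓞 E | InB t (C + δ) (em α)}.Finite →
    ({α : 𝓞 E | InB t (C + δ) (em α)}.ncard : ℝ) ≤ M → ∫ x, f x = 0 →
    ‖∑ᶠ α : J, f (em (α : 𝓞 E))‖ ≤ Λ * δ * M

def TestStmt : Prop :=
  ∀ N : ℕ, ∃ C : ℝ, 1 ≤ C ∧ ∀ (E : Type) [Field E] [NumberField E], dE E ≤ N →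
    ∀ (c : ℝ) (v : logSpace E), (∀ w, 0 < tv c v w) ∧ nt (tv c v) = Real.exp (-c) ∧
      (∃ x₀, fv (fun u => (tent u : ℂ)) c v x₀ = 1) ∧
      ∀ (Φ : ℝ → ℂ) (Λ : ℝ), Ts Φ Λ → Lp (tv c v) (C * Λ) (fv Φ c v) ∧
        ∀ x, fv Φ c v x ≠ 0 → InB (tv c v) C x

def ScaleStmt : Prop :=
  ∀ (E : Type) [Field E] [NumberField E] (Φ : ℝ → ℂ) (Λ c : ℝ) (v : logSpace E), Ts Φ Λ →
    (∀ u, 1 ≤ |u| → Φ u = 0) → ∫ x, fv (dP Φ) c v x = 0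

def PsiStmt : Prop :=
  ∀ (E : Type) [Field E] [NumberField E], MeasurableSet (FD E) ∧ volume (FD E) < ⊤ ∧
    ∀ y : logSpace E,
      (∀ v : logSpace E, {l : unitLattice E | psi (v + (l : logSpace E) + y) ≠ 0}.Finite) ∧
      IntegrableOn (fun v => ∑ᶠ l : unitLattice E, psi (v + (l : logSpace E) + y)) (FD E) ∧
      ∫ v in FD E, ∑ᶠ l : unitLattice E, psi (v + (l : logSpace E) + y) = 1

def UnfStmt : Prop :=
  ∀ (E : Type) [Field E] [NumberField E] (J : Ideal (𝓞 E)) (Φ : ℝ → ℂ) (Λ k : ℝ), J ≠ ⊥ →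
    Ts Φ Λ → IntegrableOn (Gs J Φ (Real.log (Ideal.absNorm J) + k)) (FD E) ∧
      (torsionOrder E : ℂ) * Sc J Φ k = ∫ v in FD E, Gs J Φ (Real.log (Ideal.absNorm J) + k) v

def CntStmt : Prop :=
  ∀ N : ℕ, ∃ C : ℕ, ∀ (E : Type) [Field E] [NumberField E], dE E ≤ N →
    (∀ x : ℕ, {I : Ideal (𝓞 E) | Ideal.absNorm I ≤ x}.ncard ≤ (x + 2) ^ C) ∧
    ∃ T : Finset (Ideal (𝓞 E)), (T.card : ℝ) ≤ Bd E ^ C ∧
      (∀ J ∈ T, J ≠ ⊥ ∧ (Ideal.absNorm J : ℝ) ≤ Bd E ^ C) ∧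
      ∀ I : Ideal (𝓞 E), I ≠ ⊥ → ∃! J, J ∈ T ∧ (I * J).IsPrincipal

def RegStmt : Prop :=
  ∀ N : ℕ, ∃ C : ℕ, ∀ (E : Type) [Field E] [NumberField E], dE E ≤ N →
    (volume (FD E)).toReal ≤ Bd E ^ C * torsionOrder E

def DiffStmt : Prop :=
  ∀ N : ℕ, ∃ C : ℕ, ∀ (E : Type) [Field E] [NumberField E], dE E ≤ N →
    ∀ (Φ : ℝ → ℂ) (Λ : ℝ) (k : ℕ), Ts Φ Λ → (∀ (c : ℝ) (v : logSpace E), ∫ x, fv Φ c v x = 0) →
      ‖Sm E Φ k‖ ≤ Bd E ^ C * Λ * Real.exp (k * (1 - 1 / N))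

def ContStmt : Prop :=
  ∀ N : ℕ, ∃ C : ℕ, ∀ (E : Type) [Field E] [NumberField E], dE E ≤ N →
    DifferentiableOn ℂ (FE E) {s | 1 - 1 / (N : ℝ) < s.re} ∧
    (∀ s : ℂ, 1 - 1 / (2 * N : ℝ) ≤ s.re → ‖s‖ ≤ 2 → ‖FE E s‖ ≤ Bd E ^ C) ∧
    (∀ s : ℂ, 1 < s.re → FE E s = (1 - Complex.exp (1 - s)) * ZE E s) ∧ FE E 1 ≠ 0

/-! ### Part B: zeros and prime sums -/

/-- `l ^ (-s)` on primes -/
noncomputable def pw (s : ℂ) (l : ℕ) : ℂ := if l.Prime then (l : ℂ) ^ (-s) else 0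

/-- the weight of a large prime -/
noncomputable def wl (s h : ℝ) (k l : ℕ) : ℝ :=
  if l.Prime then (l : ℝ) ^ (-s) * (1 - (l : ℝ) ^ (-h)) ^ (k + 1) else 0

/-- `l ^ (i τ)` -/
noncomputable def tw (τ : ℝ) (l : ℕ) : ℂ := Complex.exp (Complex.I * τ * Real.log l)

section
variable (E : Type) [Field E] [NumberField E]

/-- sum over the primes of degree one -/
noncomputable def P0 (s : ℂ) : ℂ := ∑' l : ℕ, (cnt E l : ℂ) * pw s l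

/-- sum over the primes of degree one, with logarithms -/
noncomputable def P1 (s : ℂ) : ℂ := ∑' l : ℕ, (cnt E l : ℂ) * (Real.log l : ℝ) * pw s l

/-- minus the logarithmic derivative of zeta -/
noncomputable def LE (s : ℂ) : ℂ := -logDeriv (ZE E) s

end

def EulStmt : Prop :=
  ∀ N : ℕ, ∃ C : ℝ, 0 < C ∧ ∀ (E : Type) [Field E] [NumberField E], dE E ≤ N →
    (∀ s : ℂ, 1 < s.re → ZE E s ≠ 0 ∧ DifferentiableAt ℂ (ZE E) s) ∧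
    (∀ σ : ℝ, 1 < σ → 1 ≤ ‖ZE E σ‖ ∧ 0 ≤ (LE E σ).re ∧ ∀ t : ℝ,
      0 ≤ 3 * (LE E σ).re + 4 * (LE E (σ + t * Complex.I)).re +
        (LE E (σ + 2 * t * Complex.I)).re) ∧
    ∃ R : ℂ → ℂ, DifferentiableOn ℂ R {s | 3 / 4 < s.re} ∧ (∀ s : ℂ, 3 / 4 < s.re → ‖R s‖ ≤ C) ∧
      ∀ s : ℂ, 1 < s.re → LE E s = P1 E s + R s

def PsumStmt : Prop :=
  (∀ s : ℂ, 1 < s.re → Summable (fun l : ℕ => ‖pw s l‖) ∧
    Summable fun l : ℕ => Real.log l * ‖pw s l‖) ∧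
  (∀ (s h : ℝ) (k l : ℕ), 0 ≤ h → 0 ≤ wl s h k l ∧ wl s h k l ≤ ‖pw s l‖) ∧
  ∀ (E : Type) [Field E] [NumberField E], (∀ l : ℕ, l.Prime → cnt E l ≤ dE E) ∧
    (∀ l : ℕ, l.Prime → dE E = 1 → cnt E l = 1) ∧
    ∀ s : ℂ, 1 < s.re → HasDerivAt (P0 E) (-P1 E s) s

def LandauStmt : Prop :=
  ∃ C : ℝ, 0 < C ∧ ∀ (f : ℂ → ℂ) (s₀ : ℂ) (R M : ℝ), 0 < R → 1 ≤ M →
    DifferentiableOn ℂ f (Metric.ball s₀ R) → f s₀ ≠ 0 →
    (∀ s ∈ Metric.ball s₀ R, ‖f s‖ ≤ Real.exp M * ‖f s₀‖) →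
    ∃ Z : Multiset ℂ, (Multiset.card Z : ℝ) ≤ C * M ∧ (∀ z ∈ Z, f z = 0) ∧
      ∀ s ∈ Metric.ball s₀ (R / 8), (f s = 0 → s ∈ Z) ∧
        (f s ≠ 0 → ‖logDeriv f s - (Z.map fun z => 1 / (s - z)).sum‖ ≤ C * M / R)

def FdStmt : Prop :=
  ∀ (g : ℂ → ℂ) (z : ℂ) (r h M : ℝ) (k : ℕ), 0 < h → 4 * (k + 1) * h ≤ r →
    DifferentiableOn ℂ g (Metric.ball z r) → (∀ s ∈ Metric.ball z r, ‖deriv g s‖ ≤ M) →
    ‖(fwdDiff (h : ℂ))^[k + 1] g z‖ ≤ M * h * (4 * (k + 1) * h / r) ^ k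

def LocStmt : Prop :=
  ∀ N : ℕ, ∃ r C : ℝ, 0 < r ∧ r ≤ 1 / 8 ∧ 0 < C ∧ ∀ (E : Type) [Field E] [NumberField E],
    dE E ≤ N → ∀ M : ℝ, 1 ≤ M → Real.log (Bd E) ≤ M →
    DifferentiableOn ℂ (FE E) (Metric.ball 1 r) ∧
    ∃ Z : Multiset ℂ, (Multiset.card Z : ℝ) ≤ C * M ∧ (∀ z ∈ Z, FE E z = 0 ∧ z.re ≤ 1) ∧
      ∀ s ∈ Metric.ball (1 : ℂ) r, (FE E s = 0 → s ∈ Z) ∧
        (FE E s ≠ 0 → ‖logDeriv (FE E) s - (Z.map fun z => 1 / (s - z)).sum‖ ≤ C * M) ∧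
        (1 < s.re → ‖LE E s - 1 / (s - 1) + (Z.map fun z => 1 / (s - z)).sum‖ ≤ C * M)

def OneStmt : Prop :=
  ∀ N : ℕ, ∃ c C : ℝ, 0 < c ∧ 0 < C ∧ ∀ (E : Type) [Field E] [NumberField E],
    dE E ≤ N → ∀ M : ℝ, 1 ≤ M → Real.log (Bd E) ≤ M →
    ∃ z : ℂ, z.re ≤ 1 ∧ (z = 0 ∨ FE E z = 0) ∧
      (∀ s : ℂ, ‖s - 1‖ ≤ c / M → FE E s = 0 → s = z) ∧
      ∀ σ : ℝ, 1 < σ → σ ≤ 1 + c →
        ‖(σ - 1) * P1 E σ - 1 + (σ - 1) / (σ - z)‖ ≤ C * (σ - 1) * M ^ 2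

def FreeStmt : Prop :=
  ∀ N : ℕ, ∃ c C : ℝ, 0 < c ∧ c ≤ 1 / 8 ∧ 0 < C ∧ ∀ (E : Type) [Field E] [NumberField E],
    dE E ≤ N → ∀ M ρ : ℝ, 1 ≤ M → Real.log (Bd E) ≤ M → 0 < ρ → ρ ≤ c / M → Good E ρ →
    ∀ τ : ℝ, |τ| ≤ c → DifferentiableOn ℂ (FE E) (Metric.ball (1 + τ * Complex.I) (c * ρ)) ∧
      ∀ s ∈ Metric.ball (1 + τ * Complex.I) (c * ρ),
        FE E s ≠ 0 ∧ ‖logDeriv (FE E) s‖ ≤ C * M / ρ

def WinStmt : Prop :=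
  ∀ N : ℕ, ∃ c : ℝ, 0 < c ∧ ∀ k : ℕ, ∃ C : ℝ, 0 < C ∧
    ∀ (E E' : Type) [Field E] [NumberField E] [Field E'] [NumberField E'], dE E ≤ N → dE E' ≤ N →
    ∀ M ρ h s τ : ℝ, 1 ≤ M → Real.log (Bd E) ≤ M → Real.log (Bd E') ≤ M → 0 < ρ → ρ ≤ c / M →
      Good E ρ → Good E' ρ → 0 < h → C * h ≤ ρ → 1 < s → s ≤ 1 + h → |τ| ≤ c →
      ‖∑' l : ℕ, ((cnt E l : ℂ) - cnt E' l) * (wl s h k l : ℝ) * tw τ l‖ ≤
        C * M * (h / ρ) ^ (k + 1)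

end Pool.Agent.MP_f68ac8_nt.Nd
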