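import Mathlib
import Pool.Agent.MP_f68ac8_nt.NaAux
namespace Pool.Agent.MP_f68ac8_nt.Nd
open NumberField NumberField.InfinitePlace NumberField.mixedEmbedding NumberField.Units
  NumberField.Units.dirichletUnitTheorem MeasureTheory
open MP_14ad9d_nt.Full MP_14ad9d_nt.Full.EDAux MP_d64882_nt
open scoped Classical

lemma pw_le_NaPsum {s : ℂ} {σ : ℝ} (hs : σ ≤ s.re) (l : ℕ) : ‖pw s l‖ ≤ (l : ℝ) ^ (-σ) := by
  unfold pw
  split_ifs with hl
  · rw [Complex.norm_natCast_cpow_of_pos hl.pos, Complex.neg_re]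
    exact Real.rpow_le_rpow_of_exponent_le (by exact_mod_cast hl.one_lt.le) (by linarith)
  · rw [norm_zero]
    positivity

lemma sum1_NaPsum {σ : ℝ} (hσ : 1 < σ) : Summable fun l : ℕ => (l : ℝ) ^ (-σ) :=
  Real.summable_nat_rpow.2 (by linarith)

lemma sum2_NaPsum {σ : ℝ} (hσ : 1 < σ) :
    Summable fun l : ℕ => Real.log l * (l : ℝ) ^ (-σ) := by
  obtain ⟨ε, hε0, hε⟩ : ∃ ε : ℝ, 0 < ε ∧ 1 < σ - ε := ⟨(σ - 1) / 2, by linarith, by linarith⟩
  refine Summable.of_nonneg_of_le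
    (fun l => mul_nonneg (Real.log_natCast_nonneg l) (by positivity)) (fun l => ?_)
    ((sum1_NaPsum hε).mul_left ε⁻¹)
  rcases Nat.eq_zero_or_pos l with rfl | hl
  · simp only [Nat.cast_zero, Real.log_zero, zero_mul]
    positivity
  · have h1 : (0 : ℝ) < l := by exact_mod_cast hl
    calc Real.log l * (l : ℝ) ^ (-σ) ≤ (l : ℝ) ^ ε / ε * (l : ℝ) ^ (-σ) :=
          mul_le_mul_of_nonneg_right (Real.log_le_rpow_div h1.le hε0) (by positivity)
      _ = ε⁻¹ * (l : ℝ) ^ (-(σ - ε)) := by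
          rw [show -(σ - ε) = ε + -σ by ring, Real.rpow_add h1]
          ring

lemma wl_NaPsum (s h : ℝ) (k l : ℕ) (hh : 0 ≤ h) :
    0 ≤ wl s h k l ∧ wl s h k l ≤ ‖pw s l‖ := by
  unfold wl pw
  split_ifs with hl
  · have h1 : (1 : ℝ) ≤ l := by exact_mod_cast hl.one_lt.le
    have h2 : (l : ℝ) ^ (-h) ≤ 1 := Real.rpow_le_one_of_one_le_of_nonpos h1 (by linarith)
    have h3 : 0 ≤ (l : ℝ) ^ (-h) := by positivity
    have h4 : 0 ≤ (l : ℝ) ^ (-s) := by positivity
    have h5 : 0 ≤ 1 - (l : ℝ) ^ (-h) := by linarith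
    refine ⟨mul_nonneg h4 (pow_nonneg h5 _), ?_⟩
    rw [Complex.norm_natCast_cpow_of_pos hl.pos, Complex.neg_re, Complex.ofReal_re]
    exact mul_le_of_le_one_right h4 (pow_le_one₀ h5 (by linarith))
  · simp

section
variable (E : Type) [Field E] [NumberField E]

lemma cnt_le_NaPsum (l : ℕ) (hl : l.Prime) : cnt E l ≤ dE E := by
  have hfin := Ideal.finite_setOfPred_absNorm_eq (S := 𝓞 E) l
  have := Fact.mk hl
  have h1 : cnt E l = hfin.toFinset.card := by
    rw [← Nat.card_eq_card_finite_toFinset]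
    rfl
  rw [h1, dE, ← RingOfIntegers.rank]
  refine card_primesOver_le E (Ideal.span {(l : ℤ)}) _ fun I hI => ?_
  have hI' : Ideal.absNorm I = l := by simpa using hI
  have h2 : I.IsPrime := Ideal.isPrime_of_irreducible_absNorm (hI' ▸ hl)
  refine ⟨h2, ⟨Ideal.IsMaximal.eq_of_le inferInstance (Ideal.IsPrime.ne_top inferInstance) ?_⟩⟩
  rw [Ideal.span_singleton_le_iff_mem, Ideal.under_def, Ideal.mem_comap, ← hI']
  simpa using Ideal.absNorm_mem I

lemma cnt_one_NaPsum (l : ℕ) (hl : l.Prime) (hE : dE E = 1) : cnt E l = 1 := by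
  have h1 := cnt_le_NaPsum E l hl
  have hfin : Finite {I : Ideal (𝓞 E) // Ideal.absNorm I = l} :=
    (Ideal.finite_setOfPred_absNorm_eq (S := 𝓞 E) l).to_subtype
  have hne : Nonempty {I : Ideal (𝓞 E) // Ideal.absNorm I = l} := by
    refine ⟨⟨Ideal.span {(l : 𝓞 E)}, ?_⟩⟩
    rw [Ideal.absNorm_span_natCast, RingOfIntegers.rank]
    change l ^ dE E = l
    rw [hE, pow_one]
  have h2 : 0 < cnt E l := Nat.card_pos
  omega

lemma cw_NaPsum (l : ℕ) {s : ℂ} {σ : ℝ} (hs : σ ≤ s.re) :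
    ‖(cnt E l : ℂ)‖ * ‖pw s l‖ ≤ dE E * (l : ℝ) ^ (-σ) := by
  by_cases hl : l.Prime
  · rw [Complex.norm_natCast]
    have h1 : (cnt E l : ℝ) ≤ dE E := by exact_mod_cast cnt_le_NaPsum E l hl
    exact mul_le_mul h1 (pw_le_NaPsum hs l) (norm_nonneg _) (Nat.cast_nonneg _)
  · rw [pw, if_neg hl, norm_zero, mul_zero]
    positivity

lemma term_NaPsum (l : ℕ) (s : ℂ) : HasDerivAt (fun y => (cnt E l : ℂ) * pw y l)
    (-((cnt E l : ℂ) * (Real.log l : ℝ) * pw s l)) s := by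
  unfold pw
  split_ifs with hl
  · have h0 : (l : ℂ) ≠ 0 := by exact_mod_cast hl.ne_zero
    have h1 := (((hasDerivAt_id s).neg).const_cpow (c := (l : ℂ)) (Or.inl h0)).const_mul
      (cnt E l : ℂ)
    refine HasDerivAt.congr_deriv (f := fun y => (cnt E l : ℂ) * (l : ℂ) ^ (-y)) h1 ?_
    rw [Complex.natCast_log]
    simp only [Pi.neg_apply, id]
    ring
  · simp only [mul_zero, neg_zero]
    exact hasDerivAt_const s 0

lemma der_NaPsum (s : ℂ) (hs : 1 < s.re) : HasDerivAt (P0 E) (-P1 E s) s := by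
  obtain ⟨σ, hσ1, hσ2⟩ := exists_between hs
  have hb : ∀ (l : ℕ) (y : ℂ), y ∈ {y : ℂ | σ < y.re} →
      ‖-((cnt E l : ℂ) * (Real.log l : ℝ) * pw y l)‖ ≤ dE E * (Real.log l * (l : ℝ) ^ (-σ)) := by
    intro l y hy
    have hy' : σ < y.re := hy
    have h1 := mul_le_mul_of_nonneg_left (cw_NaPsum E l hy'.le) (Real.log_natCast_nonneg l)
    rw [norm_neg, norm_mul, norm_mul, Complex.norm_real, Real.norm_eq_abs,
      abs_of_nonneg (Real.log_natCast_nonneg l)]
    linarith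
  have h0 : Summable fun l : ℕ => (cnt E l : ℂ) * pw s l := by
    refine Summable.of_norm_bounded ((sum1_NaPsum hσ1).mul_left (dE E : ℝ)) fun l => ?_
    rw [norm_mul]
    exact cw_NaPsum E l hσ2.le
  have h1 := hasDerivAt_tsum_of_isPreconnected ((sum2_NaPsum hσ1).mul_left (dE E : ℝ))
    (isOpen_lt continuous_const Complex.continuous_re) (convex_halfSpace_re_gt σ).isPreconnected
    (fun l y _ => term_NaPsum E l y) hb hσ2 h0 hσ2
  rw [tsum_neg] at h1
  exact h1

end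

theorem psum_stmt : PsumStmt := by
  refine ⟨fun s hs => ⟨?_, ?_⟩, wl_NaPsum, fun E _ _ =>
    ⟨cnt_le_NaPsum E, cnt_one_NaPsum E, der_NaPsum E⟩⟩
  · exact Summable.of_nonneg_of_le (fun l => norm_nonneg _) (pw_le_NaPsum le_rfl)
      (sum1_NaPsum hs)
  · exact Summable.of_nonneg_of_le
      (fun l => mul_nonneg (Real.log_natCast_nonneg l) (norm_nonneg _))
      (fun l => mul_le_mul_of_nonneg_left (pw_le_NaPsum le_rfl l) (Real.log_natCast_nonneg l))
      (sum2_NaPsum hs)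

lemma fd1_NaPsum {g : ℂ → ℂ} {z : ℂ} {r h M : ℝ} (hh : 0 < h)
    (hg : DifferentiableOn ℂ g (Metric.ball z r)) (hM : ∀ s ∈ Metric.ball z r, ‖deriv g s‖ ≤ M) :
    DifferentiableOn ℂ (fwdDiff (h : ℂ) g) (Metric.ball z (r - h)) ∧
      ∀ s ∈ Metric.ball z (r - h), ‖fwdDiff (h : ℂ) g s‖ ≤ M * h := by
  have hn : ‖(h : ℂ)‖ = h := by rw [Complex.norm_real, Real.norm_eq_abs, abs_of_pos hh]
  have h1 : ∀ s ∈ Metric.ball z (r - h), s ∈ Metric.ball z r := fun s hs =>
    Metric.ball_subset_ball (by linarith) hs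
  have h2 : ∀ s ∈ Metric.ball z (r - h), s + h ∈ Metric.ball z r := by
    intro s hs
    rw [Metric.mem_ball, dist_eq_norm] at hs ⊢
    have := norm_add_le (s - z) (h : ℂ)
    rw [show s + h - z = s - z + h by ring]
    linarith
  have h3 : ∀ s ∈ Metric.ball z r, DifferentiableAt ℂ g s := fun s hs =>
    hg.differentiableAt (Metric.isOpen_ball.mem_nhds hs)
  refine ⟨fun s hs => ?_, fun s hs => ?_⟩
  · have h4 : DifferentiableAt ℂ (fun y : ℂ => g (y + h)) s :=
      DifferentiableAt.comp s (g := g) (f := fun y : ℂ => y + h) (h3 _ (h2 s hs)) (by fun_prop)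
    exact (h4.sub (h3 s (h1 s hs))).differentiableWithinAt
  · have h4 := (convex_ball z r).norm_image_sub_le_of_norm_deriv_le h3 hM (h1 s hs) (h2 s hs)
    rw [add_sub_cancel_left, hn] at h4
    exact h4

lemma fd2_NaPsum {g : ℂ → ℂ} {z : ℂ} {r e B : ℝ} (he : 0 < e)
    (hg : DifferentiableOn ℂ g (Metric.ball z r)) (hB : ∀ s ∈ Metric.ball z r, ‖g s‖ ≤ B) :
    ∀ s ∈ Metric.ball z (r - e), ‖deriv g s‖ ≤ B / e := by
  intro s hs
  have h1 : Metric.closedBall s e ⊆ Metric.ball z r := by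
    refine Metric.closedBall_subset_ball' ?_
    rw [Metric.mem_ball] at hs
    linarith
  refine Complex.norm_deriv_le_of_forall_mem_sphere_norm_le he ?_
    fun y hy => hB y (h1 (Metric.sphere_subset_closedBall hy))
  exact hg.diffContOnCl_ball h1

theorem fd_stmt : FdStmt := by
  intro g z r h M k hh hr hg hM
  have hk : (0 : ℝ) < k + 1 := by positivity
  have hr0 : 0 < r := lt_of_lt_of_le (by positivity) hr
  obtain ⟨e, he⟩ : ∃ e : ℝ, e = r / (4 * (k + 1)) := ⟨_, rfl⟩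
  have he0 : 0 < e := by rw [he]; positivity
  have hhe : h ≤ e := by rw [he, le_div_iff₀ (by positivity)]; linarith
  have her : 4 * (k + 1) * e = r := by rw [he]; field_simp
  have key : ∀ j : ℕ,
      DifferentiableOn ℂ ((fwdDiff (h : ℂ))^[j + 1] g) (Metric.ball z (r - h - 2 * j * e)) ∧
      ∀ s ∈ Metric.ball z (r - h - 2 * j * e),
        ‖(fwdDiff (h : ℂ))^[j + 1] g s‖ ≤ M * h * (h / e) ^ j := by
    intro j
    induction j with
    | zero => simpa using fd1_NaPsum hh hg hM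
    | succ j ih =>
      rw [Function.iterate_succ_apply']
      have h1 := fd1_NaPsum hh (ih.1.mono (Metric.ball_subset_ball (by linarith)))
        (fd2_NaPsum he0 ih.1 ih.2)
      have h2 : Metric.ball z (r - h - 2 * (j + 1 : ℕ) * e) ⊆
          Metric.ball z (r - h - 2 * j * e - e - h) :=
        Metric.ball_subset_ball (by push_cast; linarith)
      refine ⟨h1.1.mono h2, fun s hs => (h1.2 s (h2 hs)).trans (le_of_eq ?_)⟩
      rw [pow_succ]
      ring
  have h1 := (key k).2 z (Metric.mem_ball_self (by nlinarith [Nat.cast_nonneg (α := ℝ) k]))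
  have h2 : h / e = 4 * (k + 1) * h / r := by rw [he]; field_simp
  rwa [h2] at h1

end Pool.Agent.MP_f68ac8_nt.Nd
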