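import Mathlib
import Pool.Agent.MP_f68ac8_nt.NaAux

namespace Pool.Agent.MP_f68ac8_nt.Nd

open NumberField NumberField.InfinitePlace NumberField.mixedEmbedding NumberField.Units
  NumberField.Units.dirichletUnitTheorem MeasureTheory
open MP_14ad9d_nt.Full MP_14ad9d_nt.Full.EDAux MP_d64882_nt
open scoped Classical

/-- at most `n ^ d` ideals have norm `n` -/
theorem eq_NaCnt (E : Type) [Field E] [NumberField E] (n : ℕ) (hn : n ≠ 0) :
    {I : Ideal (𝓞 E) | Ideal.absNorm I = n}.ncard ≤ n ^ dE E := by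
  have hc : Nat.card (𝓞 E ⧸ Ideal.span {(n : 𝓞 E)}) = n ^ dE E := by
    have h := Ideal.absNorm_span_natCast (S := 𝓞 E) n
    rw [Ideal.absNorm_apply, Submodule.cardQuot_apply, RingOfIntegers.rank] at h
    exact h
  have hfin : Finite (𝓞 E ⧸ Ideal.span {(n : 𝓞 E)}) :=
    Nat.finite_of_card_ne_zero (by rw [hc]; exact pow_ne_zero _ hn)
  let g : (𝓞 E ⧸ Ideal.span {(n : 𝓞 E)}) → Ideal (𝓞 E) := fun q =>
    Ideal.comap (Ideal.Quotient.mk _) (Ideal.span {q})
  have hsub : {I : Ideal (𝓞 E) | Ideal.absNorm I = n} ⊆ g '' Set.univ := by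
    intro I hI
    have hmem : (n : 𝓞 E) ∈ I := by
      have := Ideal.absNorm_mem I
      rwa [show Ideal.absNorm I = n from hI] at this
    obtain ⟨y, hy⟩ := IsDedekindDomain.exists_eq_span_pair hmem (by exact_mod_cast hn)
    refine ⟨Ideal.Quotient.mk _ y, Set.mem_univ _, ?_⟩
    have h1 : Ideal.span {Ideal.Quotient.mk (Ideal.span {(n : 𝓞 E)}) y} =
        Ideal.map (Ideal.Quotient.mk _) (Ideal.span {y}) := by
      rw [Ideal.map_span, Set.image_singleton]
    show Ideal.comap _ _ = I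
    rw [h1, Ideal.comap_map_of_surjective' _ Ideal.Quotient.mk_surjective, Ideal.mk_ker, hy,
      Ideal.span_insert, sup_comm]
  calc _ ≤ (g '' Set.univ).ncard := Set.ncard_le_ncard hsub (Set.finite_univ.image g)
    _ ≤ (Set.univ : Set (𝓞 E ⧸ Ideal.span {(n : 𝓞 E)})).ncard :=
        Set.ncard_image_le Set.finite_univ
    _ = n ^ dE E := by rw [Set.ncard_univ, hc]

theorem le_NaCnt (E : Type) [Field E] [NumberField E] (x : ℕ) :
    {I : Ideal (𝓞 E) | Ideal.absNorm I ≤ x}.ncard ≤ (x + 2) ^ (dE E + 1) := by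
  induction x with
  | zero =>
    have : {I : Ideal (𝓞 E) | Ideal.absNorm I ≤ 0} = {⊥} := by
      ext I
      simp [Ideal.absNorm_eq_zero_iff]
    rw [this, Set.ncard_singleton]
    exact Nat.one_le_pow _ _ (by norm_num)
  | succ x ih =>
    have : {I : Ideal (𝓞 E) | Ideal.absNorm I ≤ x + 1} =
        {I : Ideal (𝓞 E) | Ideal.absNorm I ≤ x} ∪ {I : Ideal (𝓞 E) | Ideal.absNorm I = x + 1} := by
      ext I
      simp only [Set.mem_ofPred_eq, Set.mem_union]
      omega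
    rw [this]
    have h1 := eq_NaCnt E (x + 1) (by omega)
    have h2 : (x + 1) ^ dE E ≤ (x + 1 + 2) ^ dE E := Nat.pow_le_pow_left (by omega) _
    have h3 : (x + 2) ^ dE E ≤ (x + 1 + 2) ^ dE E := Nat.pow_le_pow_left (by omega) _
    calc _ ≤ _ := Set.ncard_union_le _ _
      _ ≤ (x + 2) ^ (dE E + 1) + (x + 1) ^ dE E := add_le_add ih h1
      _ ≤ (x + 1 + 2) ^ dE E * (x + 2) + (x + 1 + 2) ^ dE E := by
          rw [pow_succ]
          exact add_le_add (Nat.mul_le_mul_right _ h3) h2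
      _ = (x + 1 + 2) ^ (dE E + 1) := by ring

theorem two_le_NaCnt (E : Type) [Field E] [NumberField E] : 2 ≤ Bd E := by
  have h : (1 : ℤ) ≤ |discr E| := Int.one_le_abs (discr_ne_zero E)
  have h' : (1 : ℝ) ≤ |(discr E : ℝ)| := by exact_mod_cast h
  unfold Bd
  linarith

theorem cls_NaCnt (E : Type) [Field E] [NumberField E] (c : ClassGroup (𝓞 E)) :
    ∃ I : nonZeroDivisors (Ideal (𝓞 E)), ClassGroup.mk0 I = c ∧
      (Ideal.absNorm (I : Ideal (𝓞 E)) : ℝ) ≤ Bd E ^ (dE E + 1) := by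
  obtain ⟨I, h1, h2⟩ := exists_ideal_in_class_of_norm_le c
  refine ⟨I, h1, h2.trans ?_⟩
  have hB := two_le_NaCnt E
  have h : (1 : ℤ) ≤ |discr E| := Int.one_le_abs (discr_ne_zero E)
  have h' : (1 : ℝ) ≤ |(discr E : ℝ)| := by exact_mod_cast h
  have hr : nrComplexPlaces E ≤ dE E := by
    have := card_add_two_mul_card_eq_rank E
    unfold dE
    omega
  have hp : 4 / Real.pi ≤ Bd E := by
    rw [div_le_iff₀ Real.pi_pos]
    nlinarith [Real.pi_gt_three]
  have ha : (4 / Real.pi) ^ nrComplexPlaces E ≤ Bd E ^ dE E :=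
    (pow_le_pow_left₀ (by positivity) hp _).trans (pow_le_pow_right₀ (by linarith) hr)
  have hb : (((dE E).factorial : ℝ)) / (dE E : ℝ) ^ dE E ≤ 1 := by
    apply div_le_one_of_le₀ _ (by positivity)
    exact_mod_cast Nat.factorial_le_pow _
  have hc : Real.sqrt |(discr E : ℝ)| ≤ Bd E := by
    rw [Real.sqrt_le_iff]
    unfold Bd
    constructor <;> nlinarith
  rw [pow_succ]
  refine mul_le_mul ha ?_ (by positivity) (by positivity)
  calc _ ≤ 1 * Bd E := mul_le_mul hb hc (by positivity) zero_le_one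
    _ = _ := one_mul _

theorem cnt_stmt : CntStmt := by
  intro N
  refine ⟨(N + 2) * (N + 1), fun E _ _ hN => ⟨fun x => ?_, ?_⟩⟩
  · exact (le_NaCnt E x).trans (Nat.pow_le_pow_right (by omega) (by nlinarith))
  choose r hr1 hr2 using cls_NaCnt E
  have hB := two_le_NaCnt E
  have hB1 : 1 ≤ Bd E := by linarith
  refine ⟨Finset.univ.image fun c => (r c : Ideal (𝓞 E)), ?_, ?_, ?_⟩
  · set x : ℕ := ⌊Bd E ^ (dE E + 1)⌋₊ with hx
    have hsub : ((Finset.univ.image fun c => (r c : Ideal (𝓞 E)) : Finset _) : Set _) ⊆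
        {I : Ideal (𝓞 E) | Ideal.absNorm I ≤ x} := by
      intro J hJ
      obtain ⟨c, -, rfl⟩ := Finset.mem_image.1 (Finset.mem_coe.1 hJ)
      exact Nat.le_floor (hr2 c)
    have h1 := (Set.ncard_le_ncard hsub (Ideal.finite_setOfPred_absNorm_le x)).trans (le_NaCnt E x)
    rw [Set.ncard_coe_finset] at h1
    have h2 : (x : ℝ) ≤ Bd E ^ (dE E + 1) := Nat.floor_le (by positivity)
    have h3 : Bd E ≤ Bd E ^ (dE E + 1) := le_self_pow₀ hB1 (by omega)
    have h4 : (x : ℝ) + 2 ≤ Bd E ^ (N + 2) := by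
      have h5 : Bd E ^ (dE E + 2) ≤ Bd E ^ (N + 2) := pow_le_pow_right₀ hB1 (by omega)
      rw [pow_succ] at h5
      nlinarith
    calc _ ≤ (((x + 2) ^ (dE E + 1) : ℕ) : ℝ) := by exact_mod_cast h1
      _ = ((x : ℝ) + 2) ^ (dE E + 1) := by push_cast; rfl
      _ ≤ (Bd E ^ (N + 2)) ^ (dE E + 1) := pow_le_pow_left₀ (by positivity) h4 _
      _ ≤ (Bd E ^ (N + 2)) ^ (N + 1) := pow_le_pow_right₀ (one_le_pow₀ hB1) (by omega)
      _ = _ := by rw [← pow_mul]
  · intro J hJ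
    obtain ⟨c, -, rfl⟩ := Finset.mem_image.1 hJ
    exact ⟨nonZeroDivisors.ne_zero (r c).2,
      (hr2 c).trans (pow_le_pow_right₀ hB1 (by nlinarith))⟩
  · intro I hI
    let I' : nonZeroDivisors (Ideal (𝓞 E)) := ⟨I, mem_nonZeroDivisors_iff_ne_zero.2 hI⟩
    have key : ∀ c, (I * (r c : Ideal (𝓞 E))).IsPrincipal ↔ c = (ClassGroup.mk0 I')⁻¹ := by
      intro c
      have h := ClassGroup.mk0_eq_one_iff (I' * r c).2
      have h' : ClassGroup.mk0 (I' * r c) = ClassGroup.mk0 I' * c := by rw [map_mul, hr1]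
      refine Iff.trans h.symm ?_
      rw [show ClassGroup.mk0 (⟨(I' * r c).1, (I' * r c).2⟩ : nonZeroDivisors (Ideal (𝓞 E))) =
        ClassGroup.mk0 I' * c from h', mul_eq_one_iff_eq_inv']
    refine ⟨r (ClassGroup.mk0 I')⁻¹, ⟨Finset.mem_image_of_mem _ (Finset.mem_univ _),
      (key _).2 rfl⟩, ?_⟩
    rintro J ⟨hJ, hp⟩
    obtain ⟨c, -, rfl⟩ := Finset.mem_image.1 hJ
    rw [(key c).1 hp]

end Pool.Agent.MP_f68ac8_nt.Nd
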