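import Mathlib
import Pool.Agent.MP_f68ac8_nt.NaAux

namespace Pool.Agent.MP_f68ac8_nt.Nd

open NumberField NumberField.InfinitePlace NumberField.mixedEmbedding NumberField.Units
  NumberField.Units.dirichletUnitTheorem MeasureTheory
open MP_14ad9d_nt.Full MP_14ad9d_nt.Full.EDAux MP_d64882_nt
open scoped Classical

theorem Phi_zero_NaCont (s : ℂ) (u : ℝ) (hu : 1 ≤ |u|) : Phi s u = 0 := by
  simp [Phi, tent_eq_zero hu]

theorem Phi_le_NaCont {B : ℝ} {s : ℂ} (hs : ‖s‖ ≤ B) (u v : ℝ) :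
    ‖Phi s u - Phi s v‖ ≤ (1 + B) * Real.exp B * |u - v| := by
  have hB : 0 ≤ B := (norm_nonneg s).trans hs
  have h := (Phi_lip hs).dist_le_mul u v
  rwa [Real.coe_toNNReal _ (by positivity), dist_eq_norm, Real.dist_eq] at h

theorem Ts_Phi_NaCont {B : ℝ} {s : ℂ} (hs : ‖s‖ ≤ B) : Ts (Phi s) ((1 + B) * Real.exp B) :=
  ⟨Phi_le_NaCont hs, fun u hu => Phi_zero_NaCont s u (by linarith)⟩

theorem Ts_dP_NaCont {B : ℝ} {s : ℂ} (hs : ‖s‖ ≤ B) :
    Ts (dP (Phi s)) ((1 + Real.exp 1) * ((1 + B) * Real.exp B)) := by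
  refine ⟨fun u v => ?_, fun u hu => ?_⟩
  · have h1 := Phi_le_NaCont hs (u - 1) (v - 1)
    have h2 := Phi_le_NaCont hs u v
    rw [show u - 1 - (v - 1) = u - v by ring] at h1
    have e : dP (Phi s) u - dP (Phi s) v =
        (Phi s (u - 1) - Phi s (v - 1)) - (Real.exp 1 : ℝ) * (Phi s u - Phi s v) := by
      unfold dP
      ring
    rw [e]
    refine (norm_sub_le _ _).trans ?_
    rw [norm_mul, Complex.norm_real, Real.norm_eq_abs, abs_of_pos (Real.exp_pos 1)]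
    have h3 := mul_le_mul_of_nonneg_left h2 (Real.exp_pos 1).le
    linarith
  · unfold dP
    have h1 : 1 ≤ |u - 1| := by
      have := abs_sub_abs_le_abs_sub u 1
      rw [abs_one] at this
      linarith
    rw [Phi_zero_NaCont s _ h1, Phi_zero_NaCont s u (by linarith)]
    simp

section
variable {E : Type} [Field E] [NumberField E]

theorem two_le_Bd_NaCont : 2 ≤ Bd E := by
  have h : (1 : ℝ) ≤ |(discr E : ℝ)| := by
    exact_mod_cast Int.one_le_abs (discr_ne_zero E)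
  unfold Bd
  linarith

theorem fin_NaCont (s : ℂ) (k : ℕ) :
    (Function.support fun I : Ideal (𝓞 E) =>
      triv E I * Phi s (Real.log (Ideal.absNorm I) - (k : ℝ))).Finite := by
  refine (TT E k).finite_toSet.subset fun I hI => ?_
  by_contra h
  apply hI
  simp only [Phi, tent_of_notMem h, Complex.ofReal_zero, mul_zero]

theorem term_eq_NaCont (s : ℂ) (k : ℕ) :
    PP (triv E) (k + 1) s - Complex.exp (1 - s) * PP (triv E) k s =
      Complex.exp (-s * ((k : ℂ) + 1)) * Sm E (dP (Phi s)) k := by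
  have h1 : Sm E (dP (Phi s)) k =
      (∑ᶠ I : Ideal (𝓞 E), triv E I * Phi s (Real.log (Ideal.absNorm I) - ((k + 1 : ℕ) : ℝ))) -
        (Real.exp 1 : ℝ) *
          ∑ᶠ I : Ideal (𝓞 E), triv E I * Phi s (Real.log (Ideal.absNorm I) - (k : ℝ)) := by
    rw [mul_finsum' _ _ (fin_NaCont s k), ← finsum_sub_distrib (fin_NaCont s (k + 1))]
    · unfold Sm dP
      refine finsum_congr fun I => ?_
      rw [show Real.log (Ideal.absNorm I) - ((k + 1 : ℕ) : ℝ) =
        Real.log (Ideal.absNorm I) - (k : ℝ) - 1 by push_cast; ring]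
      ring
    · refine (fin_NaCont (E := E) s k).subset fun I hI h => hI ?_
      simp only [h, mul_zero]
  rw [h1, PP_eq, PP_eq, mul_sub, ← mul_assoc, ← mul_assoc, Complex.ofReal_exp, ← Complex.exp_add,
    ← Complex.exp_add]
  push_cast
  congr 3
  ring

theorem PP_zero_le_NaCont {s : ℂ} (hs : 0 ≤ s.re) : ‖PP (triv E) 0 s‖ ≤ (TT E 0).card := by
  unfold PP
  refine (norm_sum_le _ _).trans ?_
  rw [Finset.card_eq_sum_ones, Nat.cast_sum]
  refine Finset.sum_le_sum fun I _ => ?_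
  rw [norm_mul, norm_mul, Complex.norm_real, Real.norm_eq_abs, abs_of_nonneg (tent_nonneg _),
    Complex.norm_exp, Nat.cast_one]
  have h1 : Real.exp ((-s * (Real.log (Ideal.absNorm I) : ℝ)).re) ≤ 1 := by
    rw [Real.exp_le_one_iff]
    have h2 : (-s * (Real.log (Ideal.absNorm I) : ℝ)).re =
        -(s.re * Real.log (Ideal.absNorm I)) := by
      rw [Complex.re_mul_ofReal, Complex.neg_re, neg_mul]
    rw [h2]
    exact neg_nonpos.mpr (mul_nonneg hs (Real.log_natCast_nonneg _))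
  exact mul_le_one₀ (mul_le_one₀ (triv_le I) (Real.exp_pos _).le h1) (tent_nonneg _)
    (tent_le_one _)

theorem eq_zeta_NaCont (s : ℂ) (hs : 1 < s.re) :
    FE E s = (1 - Complex.exp (1 - s)) * ZE E s := by
  have h1 : HasSum (fun k => PP (triv E) k s) (ZE E s) := hasSum_PP (triv E) triv_le triv_bot s hs
  have h2 := (hasSum_nat_add_iff' 1).mpr h1
  have h3 := h2.sub (h1.mul_left (Complex.exp (1 - s)))
  unfold FE
  rw [h3.tsum_eq, Finset.sum_range_one]
  ring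

theorem ZE_real_NaCont {σ : ℝ} (hσ : 1 < σ) : ZE E σ = (Z E σ : ℝ) := by
  have h1 := Complex.hasSum_ofReal.mpr (hasSum_w E σ hσ)
  rw [← h1.tsum_eq]
  unfold ZE
  refine tsum_congr fun I => ?_
  unfold w
  by_cases hI : I = ⊥
  · rw [hI, triv_bot, Ideal.absNorm_bot, Nat.cast_zero (R := ℝ), Real.zero_rpow (by linarith)]
    simp
  · rw [triv_ne hI, one_mul, Complex.ofReal_cpow (Nat.cast_nonneg _)]
    push_cast
    rfl

theorem ne_zero_NaCont (hc : ContinuousAt (FE E) 1) : FE E 1 ≠ 0 := by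
  have h1 : Filter.Tendsto (fun σ : ℝ => FE E σ) (nhdsWithin 1 (Set.Ioi 1)) (nhds (FE E 1)) := by
    have a1 : Filter.Tendsto (fun σ : ℝ => (σ : ℂ)) (nhds 1) (nhds ((1 : ℝ) : ℂ)) :=
      Complex.continuous_ofReal.tendsto 1
    rw [Complex.ofReal_one] at a1
    exact (hc.tendsto.comp a1).mono_left nhdsWithin_le_nhds
  have h2 : HasDerivAt (fun x : ℝ => -Real.exp (1 - x)) 1 1 := by
    have := (((hasDerivAt_id (1 : ℝ)).const_sub 1).exp).neg
    refine HasDerivAt.congr_deriv (f := fun x : ℝ => -Real.exp (1 - x)) this ?_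
    simp
  have h3 := (hasDerivAt_iff_tendsto_slope.mp h2).mono_left
    (nhdsWithin_mono (1 : ℝ) (fun x (hx : x ∈ Set.Ioi (1 : ℝ)) => ne_of_gt hx))
  have h4 := h3.mul (Z_tendsto E)
  rw [one_mul] at h4
  have h5 := (Complex.continuous_ofReal.tendsto _).comp h4
  have h6 : Filter.Tendsto (fun σ : ℝ => FE E σ) (nhdsWithin 1 (Set.Ioi 1))
      (nhds ((dedekindZeta_residue E : ℝ) : ℂ)) := by
    refine h5.congr' ?_
    filter_upwards [self_mem_nhdsWithin] with σ hσ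
    have hσ' : 1 < σ := hσ
    have hne : σ - 1 ≠ 0 := by linarith
    have e : slope (fun x : ℝ => -Real.exp (1 - x)) 1 σ * ((σ - 1) * Z E σ) =
        (1 - Real.exp (1 - σ)) * Z E σ := by
      rw [slope_def_field]
      field_simp
      simp
      ring_nf
    rw [Function.comp_apply, e, eq_zeta_NaCont _ (by simpa using hσ'), ZE_real_NaCont hσ']
    push_cast
    rfl
  rw [tendsto_nhds_unique h1 h6]
  exact_mod_cast (dedekindZeta_residue_pos E).ne'

theorem term_le_NaCont {K σ δ B : ℝ} (hS : ScaleStmt) (hK : 0 ≤ K) (hσ : 0 ≤ σ) (hδ : 0 < δ)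
    (hD : ∀ (Φ : ℝ → ℂ) (Λ : ℝ) (k : ℕ), Ts Φ Λ →
      (∀ (c : ℝ) (v : logSpace E), ∫ x, fv Φ c v x = 0) →
      ‖Sm E Φ k‖ ≤ K * Λ * Real.exp (k * σ))
    (k : ℕ) {s : ℂ} (h1 : σ + δ ≤ s.re) (h2 : ‖s‖ ≤ B) :
    ‖PP (triv E) (k + 1) s - Complex.exp (1 - s) * PP (triv E) k s‖ ≤
      K * ((1 + Real.exp 1) * ((1 + B) * Real.exp B)) * Real.exp (-δ) ^ k := by
  have hB : 0 ≤ B := (norm_nonneg s).trans h2
  have h3 := hD _ _ k (Ts_dP_NaCont h2) fun c v =>
    hS E _ _ c v (Ts_Phi_NaCont h2) (Phi_zero_NaCont s)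
  rw [term_eq_NaCont, norm_mul, Complex.norm_exp]
  have h4 : (-s * ((k : ℂ) + 1)).re = -(s.re * (k + 1)) := by
    simp [mul_add, add_comm]
  rw [h4]
  set A : ℝ := K * ((1 + Real.exp 1) * ((1 + B) * Real.exp B)) with hA
  have hA0 : 0 ≤ A := by positivity
  calc _ ≤ Real.exp (-(s.re * (k + 1))) * (A * Real.exp (k * σ)) :=
        mul_le_mul_of_nonneg_left h3 (Real.exp_pos _).le
    _ = A * Real.exp (-(s.re * (k + 1)) + k * σ) := by
        rw [Real.exp_add]; ring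
    _ ≤ A * Real.exp (-δ) ^ k := by
        rw [← Real.exp_nat_mul]
        refine mul_le_mul_of_nonneg_left (Real.exp_le_exp.mpr ?_) hA0
        have : (0 : ℝ) ≤ k := Nat.cast_nonneg k
        nlinarith

theorem diff_NaCont {K σ : ℝ} (hS : ScaleStmt) (hK : 0 ≤ K) (hσ : 0 ≤ σ)
    (hD : ∀ (Φ : ℝ → ℂ) (Λ : ℝ) (k : ℕ), Ts Φ Λ →
      (∀ (c : ℝ) (v : logSpace E), ∫ x, fv Φ c v x = 0) →
      ‖Sm E Φ k‖ ≤ K * Λ * Real.exp (k * σ)) :
    DifferentiableOn ℂ (FE E) {s | σ < s.re} := by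
  intro s₀ hs₀
  have hs₀' : σ < s₀.re := hs₀
  set δ : ℝ := (s₀.re - σ) / 2 with hδ
  have hδ0 : 0 < δ := by rw [hδ]; linarith
  set B : ℝ := ‖s₀‖ + 1 with hB
  set U : Set ℂ := {s | σ + δ < s.re} ∩ {s | ‖s‖ < B} with hU
  have hUo : IsOpen U := (isOpen_lt continuous_const Complex.continuous_re).inter
    (isOpen_lt continuous_norm continuous_const)
  have hmem : s₀ ∈ U := ⟨show σ + δ < s₀.re by rw [hδ]; linarith,
    show ‖s₀‖ < B by rw [hB]; linarith⟩
  have hsum : Summable fun k : ℕ =>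
      K * ((1 + Real.exp 1) * ((1 + B) * Real.exp B)) * Real.exp (-δ) ^ k :=
    (summable_geometric_of_lt_one (Real.exp_pos _).le
      (Real.exp_lt_one_iff.mpr (by linarith))).mul_left _
  have hd := Complex.differentiableOn_tsum_of_summable_norm
    (F := fun k s => PP (triv E) (k + 1) s - Complex.exp (1 - s) * PP (triv E) k s) hsum
    (fun k => ((PP_diff _ _).sub (Differentiable.mul (by fun_prop)
      (PP_diff _ _))).differentiableOn) hUo
    (fun k s hs => term_le_NaCont hS hK hσ hδ0 hD k (le_of_lt hs.1) (le_of_lt hs.2))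
  exact ((PP_diff (triv E) 0 s₀).add
    (hd.differentiableAt (hUo.mem_nhds hmem))).differentiableWithinAt

end

theorem cont_stmt (hS : ScaleStmt) (hN : CntStmt) (hD : DiffStmt) : ContStmt := by
  intro N
  obtain ⟨C₁, h₁⟩ := hN N
  obtain ⟨C₂, h₂⟩ := hD N
  set δ : ℝ := 1 / (2 * N) with hδ
  set Λ : ℝ := (1 + Real.exp 1) * ((1 + 2) * Real.exp 2) with hΛ
  obtain ⟨m, hm⟩ := pow_unbounded_of_one_lt
    (((⌊Real.exp ((0 : ℕ) + 1)⌋₊ + 2) ^ C₁ : ℕ) + Λ * (1 - Real.exp (-δ))⁻¹ : ℝ) one_lt_two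
  refine ⟨C₂ + m, fun E _ _ hE => ?_⟩
  have hN1 : (1 : ℝ) ≤ N := by
    exact_mod_cast (Module.finrank_pos (R := ℚ) (M := E)).trans_le hE
  have hB := two_le_Bd_NaCont (E := E)
  have hK : 1 ≤ Bd E ^ C₂ := one_le_pow₀ (by linarith)
  have hq : 1 / (N : ℝ) ≤ 1 := (div_le_one (by linarith)).mpr hN1
  have hq0 : 0 < 1 / (N : ℝ) := by positivity
  have hσ : 0 ≤ 1 - 1 / (N : ℝ) := by linarith
  have hd := diff_NaCont hS (zero_le_one.trans hK) hσ (h₂ E hE)
  refine ⟨hd, fun s hs1 hs2 => ?_, eq_zeta_NaCont, ne_zero_NaCont ?_⟩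
  · have hδ0 : 0 < δ := by positivity
    have hδ1 : 1 - 1 / (N : ℝ) + δ = 1 - δ := by
      rw [hδ]
      field_simp
      ring
    have hs3 : 1 - 1 / (N : ℝ) + δ ≤ s.re := by rw [hδ1]; exact hs1
    have hr : Real.exp (-δ) < 1 := Real.exp_lt_one_iff.mpr (by linarith)
    have hsum := (hasSum_geometric_of_lt_one (Real.exp_pos (-δ)).le hr).mul_left (Bd E ^ C₂ * Λ)
    have h3 := tsum_of_norm_bounded hsum fun k =>
      term_le_NaCont hS (zero_le_one.trans hK) hσ hδ0 (h₂ E hE) k hs3 hs2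
    have h4 := PP_zero_le_NaCont (E := E) (s := s) (by linarith)
    have h5 : ((TT E 0).card : ℝ) ≤ ((⌊Real.exp ((0 : ℕ) + 1)⌋₊ + 2) ^ C₁ : ℕ) := by
      have := (h₁ E hE).1 ⌊Real.exp ((0 : ℕ) + 1)⌋₊
      rw [Set.ncard_eq_toFinset_card _ (Ideal.finite_setOfPred_absNorm_le _)] at this
      exact Nat.cast_le.mpr this
    have h6 : (2 : ℝ) ^ m ≤ Bd E ^ m := pow_le_pow_left₀ zero_le_two hB m
    have h7 : (0 : ℝ) ≤ ((⌊Real.exp ((0 : ℕ) + 1)⌋₊ + 2) ^ C₁ : ℕ) := Nat.cast_nonneg _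
    unfold FE
    refine (norm_add_le _ _).trans ?_
    rw [pow_add]
    have h8 := mul_le_mul_of_nonneg_left (hm.le.trans h6) (zero_le_one.trans hK)
    have h9 := mul_le_mul_of_nonneg_right hK h7
    rw [mul_add, ← mul_assoc] at h8
    rw [one_mul] at h9
    exact (add_le_add (h4.trans (h5.trans h9)) h3).trans h8
  · refine (hd.differentiableAt ((isOpen_lt continuous_const Complex.continuous_re).mem_nhds
      ?_)).continuousAt
    show 1 - 1 / (N : ℝ) < (1 : ℂ).re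
    rw [Complex.one_re]
    linarith

end Pool.Agent.MP_f68ac8_nt.Nd
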