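import Mathlib
import Pool.Agent.MP_f68ac8_nt.NaAux

namespace Pool.Agent.MP_f68ac8_nt.Nd

open NumberField NumberField.InfinitePlace NumberField.mixedEmbedding NumberField.Units
  NumberField.Units.dirichletUnitTheorem MeasureTheory
open MP_14ad9d_nt.Full MP_14ad9d_nt.Full.EDAux MP_d64882_nt
open scoped Classical

section
open scoped nonZeroDivisors IntermediateField NNReal ENNReal

variable (E : Type) [Field E] [NumberField E]

lemma two_le_Bd_NaCov : 2 ≤ Bd E := by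
  have h : (1 : ℤ) ≤ |discr E| := Int.one_le_abs (discr_ne_zero E)
  have h' : (1 : ℝ) ≤ |(discr E : ℝ)| := by exact_mod_cast h
  unfold Bd
  linarith

lemma mink_le_NaCov (I : (FractionalIdeal (𝓞 E)⁰ E)ˣ) :
    minkowskiBound E I ≤
      ENNReal.ofReal ((FractionalIdeal.absNorm I.1 : ℝ) * (Bd E / 2) * 2 ^ dE E) := by
  have h : (1 : ℤ) ≤ |discr E| := Int.one_le_abs (discr_ne_zero E)
  have h' : (1 : ℝ) ≤ |(discr E : ℝ)| := by exact_mod_cast h
  have hI : (0 : ℝ) ≤ (FractionalIdeal.absNorm I.1 : ℝ) :=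
    Rat.cast_nonneg.mpr (FractionalIdeal.absNorm_nonneg I.1)
  have hB : Bd E / 2 = |(discr E : ℝ)| := by unfold Bd; ring
  rw [minkowskiBound, volume_fundamentalDomain_fractionalIdealLatticeBasis,
    volume_fundamentalDomain_latticeBasis, mixedEmbedding.finrank, hB,
    ENNReal.ofReal_mul (by positivity), ENNReal.ofReal_mul hI,
    ENNReal.ofReal_pow (by norm_num), ENNReal.ofReal_ofNat]
  refine mul_le_mul_left (mul_le_mul_right ?_ _) _
  have h1 : (2 : ℝ≥0∞)⁻¹ ^ nrComplexPlaces E ≤ 1 := pow_le_one₀ (by positivity) (by simp)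
  have h2 : ((NNReal.sqrt ‖discr E‖₊ : ℝ≥0) : ℝ≥0∞) ≤ ENNReal.ofReal |(discr E : ℝ)| := by
    rw [← ENNReal.ofReal_coe_nnreal]
    refine ENNReal.ofReal_le_ofReal ?_
    rw [Real.coe_sqrt, coe_nnnorm, Int.norm_eq_abs]
    refine Real.sqrt_le_iff.mpr ⟨by positivity, ?_⟩
    nlinarith
  calc _ ≤ 1 * ENNReal.ofReal |(discr E : ℝ)| := mul_le_mul' h1 h2
    _ = _ := one_mul _

lemma mink_lt_NaCov (I : (FractionalIdeal (𝓞 E)⁰ E)ˣ) (c B : ℝ≥0) (hc : 1 ≤ c)
    (h : (FractionalIdeal.absNorm I.1 : ℝ) * (Bd E / 2) * 2 ^ dE E < B) :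
    minkowskiBound E I < (c : ℝ≥0∞) * B := by
  have hI : (0 : ℝ) ≤ (FractionalIdeal.absNorm I.1 : ℝ) :=
    Rat.cast_nonneg.mpr (FractionalIdeal.absNorm_nonneg I.1)
  have hB := two_le_Bd_NaCov E
  have h0 : (0 : ℝ) ≤ (FractionalIdeal.absNorm I.1 : ℝ) * (Bd E / 2) * 2 ^ dE E := by positivity
  refine lt_of_le_of_lt (mink_le_NaCov E I) ?_
  calc _ < ENNReal.ofReal (B : ℝ) := (ENNReal.ofReal_lt_ofReal_iff (lt_of_le_of_lt h0 h)).mpr h
    _ = 1 * (B : ℝ≥0∞) := by rw [ENNReal.ofReal_coe_nnreal, one_mul]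
    _ ≤ _ := mul_le_mul_left (by exact_mod_cast hc) _

lemma exists_beta_NaCov (J : Ideal (𝓞 E)) (t : InfinitePlace E → ℝ) (a : ℝ) (hJ : J ≠ ⊥)
    (ht : ∀ w, 0 < t w) (ha : 0 < a) (h : Ideal.absNorm J * nt t ≤ a ^ dE E) :
    ∃ β ∈ J, β ≠ 0 ∧ ∀ w : InfinitePlace E, t w * w (β : E) ≤ 2 * Bd E * a := by
  have hB := two_le_Bd_NaCov E
  have hd : 0 < dE E := Module.finrank_pos
  have hJ0 : (J : FractionalIdeal (𝓞 E)⁰ E) ≠ 0 := FractionalIdeal.coeIdeal_ne_zero.mpr hJ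
  have hnt : 0 < nt t := Finset.prod_pos fun w _ => pow_pos (ht w) _
  have hN : (0 : ℝ) < Ideal.absNorm J := by
    have : Ideal.absNorm J ≠ 0 := by rwa [Ne, Ideal.absNorm_eq_zero_iff]
    positivity
  let f : InfinitePlace E → ℝ≥0 := fun w =>
    ⟨2 * Bd E * a / t w, by have := ht w; positivity⟩
  have hf : ∀ w, (f w : ℝ) = 2 * Bd E * a / t w := fun w => rfl
  have hprod : ((∏ w, (f w) ^ (mult w) : ℝ≥0) : ℝ) = (2 * Bd E * a) ^ dE E / nt t := by
    rw [NNReal.coe_prod]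
    simp_rw [NNReal.coe_pow, hf, div_pow]
    rw [Finset.prod_div_distrib, Finset.prod_pow_eq_pow_sum, sum_mult_eq]
    rfl
  have hlt : minkowskiBound E (Units.mk0 _ hJ0) < volume (convexBodyLT E f) := by
    rw [convexBodyLT_volume]
    refine mink_lt_NaCov E _ _ _ (one_le_convexBodyLTFactor E) ?_
    rw [hprod, Units.val_mk0, FractionalIdeal.coeIdeal_absNorm, Rat.cast_natCast,
      lt_div_iff₀ hnt, mul_pow, mul_pow]
    have h1 : Bd E ≤ Bd E ^ dE E := le_self_pow₀ (by linarith) hd.ne'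
    have h2 : (0 : ℝ) < 2 ^ dE E := by positivity
    have h3 : (0 : ℝ) < a ^ dE E := by positivity
    calc (Ideal.absNorm J : ℝ) * (Bd E / 2) * 2 ^ dE E * nt t
        = (Bd E / 2) * 2 ^ dE E * (Ideal.absNorm J * nt t) := by ring
      _ ≤ (Bd E / 2) * 2 ^ dE E * a ^ dE E := by gcongr
      _ < Bd E ^ dE E * 2 ^ dE E * a ^ dE E := by gcongr; linarith
      _ = _ := by ring
  obtain ⟨x, hx, hx0, hxw⟩ := exists_ne_zero_mem_ideal_lt E _ hlt
  rw [Units.val_mk0, FractionalIdeal.mem_coeIdeal] at hx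
  obtain ⟨β, hβ, rfl⟩ := hx
  refine ⟨β, hβ, ?_, fun w => ?_⟩
  · rintro rfl
    exact hx0 (map_zero _)
  · have := hxw w
    rw [hf, lt_div_iff₀ (ht w)] at this
    rw [mul_comm]
    exact this.le

lemma exists_theta_NaCov :
    ∃ θ : 𝓞 E, ℚ⟮(θ : E)⟯ = ⊤ ∧ ∀ w : InfinitePlace E, w (θ : E) ≤ Bd E ^ (dE E + 2) := by
  have hB := two_le_Bd_NaCov E
  let B : ℝ≥0 := ⟨Bd E * 2 ^ dE E, by positivity⟩
  have hBv : (B : ℝ) = Bd E * 2 ^ dE E := rfl
  have h2 : (1 : ℝ) ≤ 2 ^ dE E := one_le_pow₀ (by norm_num)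
  have h3 : (2 : ℝ) ^ dE E ≤ Bd E ^ dE E := pow_le_pow_left₀ (by norm_num) hB _
  have hB1 : (1 : ℝ) ≤ B := by rw [hBv]; nlinarith
  have hfin : 2 * (B : ℝ) ≤ Bd E ^ (dE E + 2) := by
    rw [hBv, pow_add]
    calc 2 * (Bd E * 2 ^ dE E) ≤ Bd E * (Bd E * Bd E ^ dE E) := by gcongr
      _ = _ := by ring
  have key : ∀ c : ℝ≥0, 1 ≤ c → minkowskiBound E 1 < (c : ℝ≥0∞) * B := by
    intro c hc
    refine mink_lt_NaCov E 1 c B hc ?_
    rw [Units.val_one, FractionalIdeal.absNorm_one, Rat.cast_one, one_mul, hBv]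
    have : (0 : ℝ) < 2 ^ dE E := by positivity
    nlinarith
  obtain ⟨w₁⟩ : Nonempty (InfinitePlace E) := inferInstance
  rcases isReal_or_isComplex w₁ with hw | hw
  · obtain ⟨θ, h1, h4⟩ := exists_primitive_element_lt_of_isReal E hw
      (key _ (one_le_convexBodyLTFactor E))
    refine ⟨θ, h1, fun w => ?_⟩
    have := h4 w
    rw [NNReal.coe_max, NNReal.coe_one, max_eq_left hB1] at this
    linarith
  · obtain ⟨θ, h1, h4⟩ := exists_primitive_element_lt_of_isComplex E hw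
      (key _ (one_le_convexBodyLT'Factor E))
    refine ⟨θ, h1, fun w => ?_⟩
    have h5 := h4 w
    have h6 : Real.sqrt (1 + (B : ℝ) ^ 2) ≤ 2 * B :=
      Real.sqrt_le_iff.mpr ⟨by positivity, by nlinarith⟩
    linarith

lemma span_NaCov (β θ : 𝓞 E) (hβ : β ≠ 0) (hθ : ℚ⟮(θ : E)⟯ = ⊤) :
    ∃ m ≤ dE E, ∀ x : mixedSpace E, ∃ c : Fin m → ℝ,
      ∑ i, c i • em (β * θ ^ (i : ℕ)) = x := by
  have hint : IsIntegral ℚ (θ : E) := Algebra.IsIntegral.isIntegral _
  refine ⟨(minpoly ℚ (θ : E)).natDegree, minpoly.natDegree_le _, fun x => ?_⟩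
  rw [← Submodule.mem_span_range_iff_exists_fun]
  have hβ' : (β : E) ≠ 0 := by
    intro h0
    exact hβ (RingOfIntegers.coe_eq_zero_iff.mp h0)
  have hall : ∀ y : E, mixedEmbedding E y ∈ Submodule.span ℝ
      (Set.range fun i : Fin (minpoly ℚ (θ : E)).natDegree => em (β * θ ^ (i : ℕ))) := by
    intro y
    have h1 : y / β ∈ (ℚ⟮(θ : E)⟯).toSubalgebra := by
      rw [hθ]; exact IntermediateField.mem_top
    rw [IntermediateField.adjoin_simple_toSubalgebra_of_isAlgebraic hint.isAlgebraic,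
      Algebra.adjoin_singleton_eq_range_aeval] at h1
    obtain ⟨p, hp⟩ := h1
    have h2 := hint.mem_span_pow (y := y / β) ⟨p, hp.symm⟩
    rw [Submodule.mem_span_range_iff_exists_fun] at h2
    obtain ⟨q, hq⟩ := h2
    have h3 : y = ∑ i, q i • ((β : E) * (θ : E) ^ (i : ℕ)) := by
      have : y = (β : E) * (y / β) := by field_simp
      rw [this, ← hq, Finset.mul_sum]
      refine Finset.sum_congr rfl fun i _ => ?_
      rw [mul_smul_comm]
    rw [h3, map_sum]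
    refine Submodule.sum_mem _ fun i _ => ?_
    rw [map_rat_smul, ← Rat.cast_smul_eq_qsmul ℝ]
    refine Submodule.smul_mem _ _ (Submodule.subset_span ⟨i, ?_⟩)
    simp only [em]
    push_cast
    rfl
  have htop : Submodule.span ℝ (Set.range (latticeBasis E)) ≤ Submodule.span ℝ
      (Set.range fun i : Fin (minpoly ℚ (θ : E)).natDegree => em (β * θ ^ (i : ℕ))) := by
    rw [Submodule.span_le]
    rintro _ ⟨i, rfl⟩
    rw [latticeBasis_apply]
    exact hall _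
  rw [(latticeBasis E).span_eq] at htop
  exact htop Submodule.mem_top

end

theorem cov_stmt : CovStmt := by
  intro N
  refine ⟨N + 2 + (N + 2) * N, ?_⟩
  intro E _ _ hN J t a hJ ht ha h x
  have hB := two_le_Bd_NaCov E
  have hB1 : 1 ≤ Bd E := by linarith
  obtain ⟨β, hβJ, hβ0, hβ⟩ := exists_beta_NaCov E J t a hJ ht ha h
  obtain ⟨θ, hθ, hθw⟩ := exists_theta_NaCov E
  obtain ⟨m, hm, hspan⟩ := span_NaCov E β θ hβ0 hθ
  obtain ⟨c, hc⟩ := hspan x
  refine ⟨∑ i : Fin m, (⌊c i⌋ : ℤ) • (β * θ ^ (i : ℕ)), ?_, fun w => ?_⟩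
  · exact Submodule.sum_mem _ fun i _ => zsmul_mem (J.mul_mem_right _ hβJ) _
  · have hem : em (∑ i : Fin m, (⌊c i⌋ : ℤ) • (β * θ ^ (i : ℕ))) =
        ∑ i : Fin m, ((⌊c i⌋ : ℤ) : ℝ) • em (β * θ ^ (i : ℕ)) := by
      have h1 : ∀ z : 𝓞 E, em z = ((mixedEmbedding E).comp (algebraMap (𝓞 E) E)) z :=
        fun z => rfl
      simp only [h1]
      rw [map_sum]
      refine Finset.sum_congr rfl fun i _ => ?_
      rw [map_zsmul, Int.cast_smul_eq_zsmul]
    have hsub : x - em (∑ i : Fin m, (⌊c i⌋ : ℤ) • (β * θ ^ (i : ℕ))) =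
        ∑ i : Fin m, Int.fract (c i) • em (β * θ ^ (i : ℕ)) := by
      rw [hem, ← hc, ← Finset.sum_sub_distrib]
      refine Finset.sum_congr rfl fun i _ => ?_
      rw [← sub_smul]
      rfl
    have hΘ : ∀ i : Fin m, w (θ : E) ^ (i : ℕ) ≤ Bd E ^ ((N + 2) * N) := by
      intro i
      have hi : (i : ℕ) ≤ N := by have := i.2; omega
      calc w (θ : E) ^ (i : ℕ) ≤ (Bd E ^ (dE E + 2)) ^ (i : ℕ) :=
            pow_le_pow_left₀ (apply_nonneg _ _) (hθw w) _
        _ = Bd E ^ ((dE E + 2) * (i : ℕ)) := by rw [← pow_mul]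
        _ ≤ _ := pow_le_pow_right₀ hB1 (Nat.mul_le_mul (by omega) hi)
    have hterm : ∀ i : Fin m, t w * normAtPlace w (Int.fract (c i) • em (β * θ ^ (i : ℕ))) ≤
        2 * Bd E * a * Bd E ^ ((N + 2) * N) := by
      intro i
      have h1 : normAtPlace w (em (β * θ ^ (i : ℕ))) = w (β : E) * w (θ : E) ^ (i : ℕ) := by
        simp only [em]
        rw [normAtPlace_apply]
        push_cast
        rw [map_mul, map_pow]
      have h2 : |Int.fract (c i)| ≤ 1 := by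
        rw [abs_of_nonneg (Int.fract_nonneg _)]
        exact (Int.fract_lt_one _).le
      have h3 : 0 ≤ w (β : E) := apply_nonneg _ _
      have h4 : 0 ≤ w (θ : E) ^ (i : ℕ) := pow_nonneg (apply_nonneg _ _) _
      have h5 := ht w
      rw [normAtPlace_smul, h1]
      calc t w * (|Int.fract (c i)| * (w (β : E) * w (θ : E) ^ (i : ℕ)))
          ≤ t w * (1 * (w (β : E) * w (θ : E) ^ (i : ℕ))) := by gcongr
        _ = (t w * w (β : E)) * w (θ : E) ^ (i : ℕ) := by ring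
        _ ≤ _ := mul_le_mul (hβ w) (hΘ i) h4 (by positivity)
    have hsum : normAtPlace w (∑ i : Fin m, Int.fract (c i) • em (β * θ ^ (i : ℕ))) ≤
        ∑ i : Fin m, normAtPlace w (Int.fract (c i) • em (β * θ ^ (i : ℕ))) :=
      Finset.le_sum_of_subadditive (normAtPlace w) (map_zero _).le (normAtPlace_add_le w) _ _
    have hmB : (m : ℝ) ≤ Bd E ^ N := by
      have h1 : m ≤ 2 ^ N := (hm.trans hN).trans (Nat.lt_two_pow_self).le
      have h2 : (m : ℝ) ≤ 2 ^ N := by exact_mod_cast h1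
      exact h2.trans (pow_le_pow_left₀ (by norm_num) hB _)
    rw [hsub]
    calc t w * normAtPlace w (∑ i : Fin m, Int.fract (c i) • em (β * θ ^ (i : ℕ)))
        ≤ t w * ∑ i : Fin m, normAtPlace w (Int.fract (c i) • em (β * θ ^ (i : ℕ))) :=
          mul_le_mul_of_nonneg_left hsum (ht w).le
      _ = ∑ i : Fin m, t w * normAtPlace w (Int.fract (c i) • em (β * θ ^ (i : ℕ))) :=
          Finset.mul_sum _ _ _
      _ ≤ ∑ _i : Fin m, 2 * Bd E * a * Bd E ^ ((N + 2) * N) :=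
          Finset.sum_le_sum fun i _ => hterm i
      _ = m * (2 * Bd E * a * Bd E ^ ((N + 2) * N)) := by
          rw [Finset.sum_const, Finset.card_univ, Fintype.card_fin, nsmul_eq_mul]
      _ ≤ Bd E ^ N * (Bd E * Bd E * a * Bd E ^ ((N + 2) * N)) := by gcongr
      _ = _ := by rw [pow_add, pow_add]; ring

end Pool.Agent.MP_f68ac8_nt.Nd
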