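import Mathlib
import Pool.Agent.MP_f68ac8_nt.NaAux
namespace Pool.Agent.MP_f68ac8_nt.Nd
open NumberField NumberField.InfinitePlace NumberField.mixedEmbedding NumberField.Units
  NumberField.Units.dirichletUnitTheorem MeasureTheory
open MP_14ad9d_nt.Full MP_14ad9d_nt.Full.EDAux MP_d64882_nt
open scoped Classical

theorem two_le_Bd_NaDiff (E : Type) [Field E] [NumberField E] : 2 ≤ Bd E := by
  have h : (1 : ℤ) ≤ |discr E| := Int.one_le_abs (discr_ne_zero E)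
  have h' : (1 : ℝ) ≤ |(discr E : ℝ)| := by exact_mod_cast h
  unfold Bd
  linarith

theorem lam_nonneg_NaDiff {Φ : ℝ → ℂ} {Λ : ℝ} (h : Ts Φ Λ) : 0 ≤ Λ := by
  have h1 := h.1 1 0
  rw [sub_zero, abs_one, mul_one] at h1
  exact (norm_nonneg _).trans h1

theorem split_NaDiff {E : Type} [Field E] [NumberField E] {Φ : ℝ → ℂ} {Λ : ℝ} (h : Ts Φ Λ)
    (k : ℝ) (T : Finset (Ideal (𝓞 E)))
    (hT : ∀ I : Ideal (𝓞 E), I ≠ ⊥ → ∃! J, J ∈ T ∧ (I * J).IsPrincipal) :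
    Sm E Φ k = ∑ J ∈ T, Sc J Φ k := by
  have hfin := Ideal.finite_setOfPred_absNorm_le (S := 𝓞 E) ⌈Real.exp (k + 2)⌉₊
  have hsup : ∀ I : Ideal (𝓞 E), triv E I * Φ (Real.log (Ideal.absNorm I) - k) ≠ 0 →
      I ∈ hfin.toFinset := by
    intro I hI
    rw [Set.Finite.mem_toFinset]
    have h1 : Φ (Real.log (Ideal.absNorm I) - k) ≠ 0 := right_ne_zero_of_mul hI
    have h2 : |Real.log (Ideal.absNorm I) - k| < 2 := lt_of_not_ge fun hh => h1 (h.2 _ hh)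
    have h3 : Real.log (Ideal.absNorm I) ≤ k + 2 := by linarith [(abs_lt.1 h2).2]
    have h4 : (Ideal.absNorm I : ℝ) ≤ Real.exp (k + 2) := Real.le_exp_of_log_le h3
    have h5 : (Ideal.absNorm I : ℝ) ≤ (⌈Real.exp (k + 2)⌉₊ : ℕ) := h4.trans (Nat.le_ceil _)
    exact_mod_cast h5
  have h1 : Sm E Φ k = ∑ I ∈ hfin.toFinset, triv E I * Φ (Real.log (Ideal.absNorm I) - k) :=
    finsum_eq_sum_of_support_subset _ fun I hI => hsup I hI
  have h2 : ∀ J : Ideal (𝓞 E), Sc J Φ k = ∑ I ∈ hfin.toFinset,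
      if (I * J).IsPrincipal then triv E I * Φ (Real.log (Ideal.absNorm I) - k) else 0 := by
    intro J
    refine finsum_eq_sum_of_support_subset _ fun I hI => hsup I fun h0 => hI ?_
    simp only [h0, ite_self]
  rw [h1, Finset.sum_congr rfl fun J _ => h2 J, Finset.sum_comm]
  refine Finset.sum_congr rfl fun I _ => ?_
  by_cases hI : I = ⊥
  · have h0 : triv E I * Φ (Real.log (Ideal.absNorm I) - k) = 0 := by
      rw [hI, triv_bot, zero_mul]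
    simp only [h0, ite_self, Finset.sum_const_zero]
  · obtain ⟨J, ⟨hJ, hp⟩, hu⟩ := hT I hI
    rw [Finset.sum_eq_single J, if_pos hp]
    · intro J' hJ' hne
      exact if_neg fun hp' => hne (hu J' ⟨hJ', hp'⟩)
    · intro hh
      exact absurd hJ hh

theorem const_NaDiff {B C₂ : ℝ} {m C₁ C₃ : ℕ} (hB : 2 ≤ B) (hm : C₂ ≤ B ^ m) :
    4 * (C₂ + B ^ C₁) * B ^ C₃ + 2 ≤ B ^ (m + C₁ + C₃ + 4) := by
  have hB1 : 1 ≤ B := by linarith
  have h1 : B ^ m ≤ B ^ (m + C₁) := pow_le_pow_right₀ hB1 (by omega)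
  have h2 : B ^ C₁ ≤ B ^ (m + C₁) := pow_le_pow_right₀ hB1 (by omega)
  have h3 : 0 ≤ B ^ C₃ := by positivity
  have h4 : (C₂ + B ^ C₁) * B ^ C₃ ≤ (2 * B ^ (m + C₁)) * B ^ C₃ :=
    mul_le_mul_of_nonneg_right (by linarith) h3
  have h5 : 1 ≤ B ^ (m + C₁ + C₃) := one_le_pow₀ hB1
  have h6 : (2 : ℝ) ^ 4 ≤ B ^ 4 := pow_le_pow_left₀ (by norm_num) hB 4
  have h7 : B ^ (m + C₁ + C₃) = B ^ (m + C₁) * B ^ C₃ := pow_add _ _ _
  rw [pow_add B (m + C₁ + C₃) 4]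
  nlinarith

theorem gs_NaDiff (hP : PackStmt) (hR : RiemStmt) {N C₁ : ℕ} {C₂ K : ℝ} (hC₂ : 1 ≤ C₂)
    {E : Type} [Field E] [NumberField E] (hd : dE E ≤ N)
    (hC : ∀ (J : Ideal (𝓞 E)) (t : InfinitePlace E → ℝ) (a : ℝ), J ≠ ⊥ → (∀ w, 0 < t w) →
      0 < a → Ideal.absNorm J * nt t ≤ a ^ dE E →
      ∀ x : mixedSpace E, ∃ α ∈ J, InB t (Bd E ^ C₁ * a) (x - em α))
    {Φ : ℝ → ℂ} {Λ : ℝ} (hΛ : 0 ≤ Λ) (k : ℕ) {J : Ideal (𝓞 E)} (hJ : J ≠ ⊥)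
    (hK : 4 * (C₂ + Bd E ^ C₁) * Ideal.absNorm J + 2 ≤ K) (v : logSpace E)
    (ht : ∀ w, 0 < tv (Real.log (Ideal.absNorm J) + k) v w)
    (hnt : nt (tv (Real.log (Ideal.absNorm J) + k) v) =
      Real.exp (-(Real.log (Ideal.absNorm J) + k)))
    (hL : Lp (tv (Real.log (Ideal.absNorm J) + k) v) (C₂ * Λ)
      (fv Φ (Real.log (Ideal.absNorm J) + k) v))
    (hs : ∀ x, fv Φ (Real.log (Ideal.absNorm J) + k) v x ≠ 0 →
      InB (tv (Real.log (Ideal.absNorm J) + k) v) C₂ x)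
    (h0 : ∫ x, fv Φ (Real.log (Ideal.absNorm J) + k) v x = 0) :
    ‖Gs J Φ (Real.log (Ideal.absNorm J) + k) v‖ ≤
      C₂ * Bd E ^ C₁ * K ^ N * (Λ * Real.exp (k * (1 - 1 / N))) := by
  have hB := two_le_Bd_NaDiff E
  have hd1 : 1 ≤ dE E := Module.finrank_pos
  have hdR : (0 : ℝ) < dE E := by exact_mod_cast hd1
  have hn1 : (1 : ℝ) ≤ Ideal.absNorm J := by
    have : Ideal.absNorm J ≠ 0 := fun h => hJ (Ideal.absNorm_eq_zero_iff.1 h)
    exact_mod_cast Nat.one_le_iff_ne_zero.2 this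
  generalize hn : (Ideal.absNorm J : ℝ) = n at *
  have hn0 : 0 < n := by linarith
  set a : ℝ := Real.exp (-(k / dE E)) with ha
  have ha0 : 0 < a := Real.exp_pos _
  have ha1 : a ≤ 1 := Real.exp_le_one_iff.2 (neg_nonpos.2 (by positivity))
  have had : a ^ dE E = Real.exp (-k) := by
    rw [ha, ← Real.exp_nat_mul]
    congr 1
    field_simp
  have hnt' : nt (tv (Real.log n + k) v) = a ^ dE E / n := by
    rw [hnt, had, neg_add, Real.exp_add, Real.exp_neg (Real.log n), Real.exp_log hn0]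
    ring
  have hBC : 0 < Bd E ^ C₁ := by positivity
  have hcov := hC J _ a hJ ht ha0 (by rw [hn, hnt', mul_div_cancel₀ _ hn0.ne'])
  have hR0 : 0 ≤ C₂ + Bd E ^ C₁ * a := by positivity
  obtain ⟨hfin, hcard⟩ := hP E _ (a / n) (C₂ + Bd E ^ C₁ * a) ht (by positivity) hR0 (by
    rw [hnt', div_pow]
    exact div_le_div_of_nonneg_left (by positivity) hn0 (le_self_pow₀ hn1 (by omega)))
  have hK1 : 1 ≤ K := by
    have : 0 ≤ 4 * (C₂ + Bd E ^ C₁) * n := by positivity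
    linarith
  have hM : (4 * (C₂ + Bd E ^ C₁ * a) / (a / n) + 2) ^ dE E ≤ K ^ N * Real.exp k := by
    have h1 : 4 * (C₂ + Bd E ^ C₁ * a) / (a / n) + 2 ≤ K / a := by
      rw [le_div_iff₀ ha0, add_mul, div_div_eq_mul_div, div_mul_cancel₀ _ ha0.ne']
      have h2 : Bd E ^ C₁ * a ≤ Bd E ^ C₁ := mul_le_of_le_one_right hBC.le ha1
      have h3 : 4 * (C₂ + Bd E ^ C₁ * a) * n ≤ 4 * (C₂ + Bd E ^ C₁) * n :=
        mul_le_mul_of_nonneg_right (by linarith) hn0.le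
      linarith
    calc _ ≤ (K / a) ^ dE E := pow_le_pow_left₀ (by positivity) h1 _
      _ = K ^ dE E * Real.exp k := by
        rw [div_pow, had, Real.exp_neg, div_inv_eq_mul]
      _ ≤ K ^ N * Real.exp k :=
        mul_le_mul_of_nonneg_right (pow_le_pow_right₀ hK1 hd) (Real.exp_pos _).le
  have h1 := hR E J _ (C₂ * Λ) C₂ (Bd E ^ C₁ * a) (K ^ N * Real.exp k) _ hJ ht hL
    (by positivity) hs hcov hfin (hcard.trans hM) h0
  have h2 : a * Real.exp k ≤ Real.exp (k * (1 - 1 / N)) := by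
    rw [ha, ← Real.exp_add]
    apply Real.exp_le_exp.2
    have h3 : (1 : ℝ) / N ≤ 1 / dE E :=
      one_div_le_one_div_of_le hdR (by exact_mod_cast hd)
    have h4 : (k : ℝ) * (1 / N) ≤ k * (1 / dE E) :=
      mul_le_mul_of_nonneg_left h3 (Nat.cast_nonneg k)
    rw [mul_one_div (k : ℝ) (dE E : ℝ)] at h4
    linarith
  have h3 : 0 ≤ C₂ * Bd E ^ C₁ * K ^ N * Λ := by positivity
  calc _ ≤ C₂ * Λ * (Bd E ^ C₁ * a) * (K ^ N * Real.exp k) := h1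
    _ = C₂ * Bd E ^ C₁ * K ^ N * Λ * (a * Real.exp k) := by ring
    _ ≤ C₂ * Bd E ^ C₁ * K ^ N * Λ * Real.exp (k * (1 - 1 / N)) :=
      mul_le_mul_of_nonneg_left h2 h3
    _ = _ := by ring

theorem diff_stmt (hP : PackStmt) (hC : CovStmt) (hR : RiemStmt) (hT : TestStmt) (hS : PsiStmt)
    (hU : UnfStmt) (hN : CntStmt) (hG : RegStmt) : DiffStmt := by
  intro N
  obtain ⟨C₁, hC⟩ := hC N
  obtain ⟨C₂, hC₂, hT⟩ := hT N
  obtain ⟨C₃, hN⟩ := hN N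
  obtain ⟨C₄, hG⟩ := hG N
  obtain ⟨m, hm⟩ := pow_unbounded_of_one_lt C₂ (one_lt_two (α := ℝ))
  refine ⟨C₃ + (m + C₁ + (m + C₁ + C₃ + 4) * N + C₄), fun E _ _ hd Φ Λ k hΦ h0 => ?_⟩
  have hB := two_le_Bd_NaDiff E
  have hΛ := lam_nonneg_NaDiff hΦ
  have hm' : C₂ ≤ Bd E ^ m := hm.le.trans (pow_le_pow_left₀ (by norm_num) hB m)
  obtain ⟨T, hcard, hTJ, hTu⟩ := (hN E hd).2
  have hX : 0 ≤ Λ * Real.exp (k * (1 - 1 / N)) := by positivity
  have hSc : ∀ J ∈ T, ‖Sc J Φ k‖ ≤ Bd E ^ (m + C₁ + (m + C₁ + C₃ + 4) * N + C₄) *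
      (Λ * Real.exp (k * (1 - 1 / N))) := by
    intro J hJ
    obtain ⟨hJ0, hJn⟩ := hTJ J hJ
    have hK : 4 * (C₂ + Bd E ^ C₁) * Ideal.absNorm J + 2 ≤ Bd E ^ (m + C₁ + C₃ + 4) := by
      refine le_trans ?_ (const_NaDiff hB hm')
      have : 4 * (C₂ + Bd E ^ C₁) * Ideal.absNorm J ≤ 4 * (C₂ + Bd E ^ C₁) * Bd E ^ C₃ :=
        mul_le_mul_of_nonneg_left hJn (by positivity)
      linarith
    have hGs : ∀ v ∈ FD E, ‖Gs J Φ (Real.log (Ideal.absNorm J) + k) v‖ ≤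
        Bd E ^ (m + C₁ + (m + C₁ + C₃ + 4) * N) * (Λ * Real.exp (k * (1 - 1 / N))) := by
      intro v _
      obtain ⟨ht, hnt, -, hL⟩ := hT E hd (Real.log (Ideal.absNorm J) + k) v
      refine (gs_NaDiff hP hR hC₂ hd (hC E hd) hΛ k hJ0 hK v ht hnt (hL Φ Λ hΦ).1 (hL Φ Λ hΦ).2
        (h0 _ v)).trans (mul_le_mul_of_nonneg_right ?_ hX)
      rw [pow_add _ (m + C₁) (_ * N), pow_mul, pow_add _ m C₁]
      exact mul_le_mul_of_nonneg_right (mul_le_mul_of_nonneg_right hm' (by positivity))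
        (by positivity)
    have h1 := norm_setIntegral_le_of_norm_le_const (hS E).2.1 hGs
    rw [← (hU E J Φ Λ k hJ0 hΦ).2, norm_mul, Complex.norm_natCast] at h1
    have hw : (0 : ℝ) < torsionOrder E := by exact_mod_cast torsionOrder_pos E
    have h2 : Bd E ^ (m + C₁ + (m + C₁ + C₃ + 4) * N) * (Λ * Real.exp (k * (1 - 1 / N))) *
        volume.real (FD E) ≤
        Bd E ^ (m + C₁ + (m + C₁ + C₃ + 4) * N) * (Λ * Real.exp (k * (1 - 1 / N))) *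
          (Bd E ^ C₄ * torsionOrder E) :=
      mul_le_mul_of_nonneg_left (hG E hd) (by positivity)
    refine le_of_mul_le_mul_left ((h1.trans h2).trans (le_of_eq ?_)) hw
    rw [pow_add _ _ C₄]
    ring
  rw [split_NaDiff hΦ k T hTu]
  refine (norm_sum_le _ _).trans ((Finset.sum_le_card_nsmul _ _ _ hSc).trans ?_)
  rw [nsmul_eq_mul, pow_add _ C₃, mul_assoc, mul_assoc]
  exact mul_le_mul_of_nonneg_right hcard (by positivity)

end Pool.Agent.MP_f68ac8_nt.Nd
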