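import Mathlib
import Pool.Agent.MP_f68ac8_nt.NaAux
namespace Pool.Agent.MP_f68ac8_nt.Nd
open NumberField NumberField.InfinitePlace NumberField.mixedEmbedding NumberField.Units
  NumberField.Units.dirichletUnitTheorem MeasureTheory
open MP_14ad9d_nt.Full MP_14ad9d_nt.Full.EDAux MP_d64882_nt
open scoped Classical

section
variable {E : Type} [Field E] [NumberField E]

lemma diff_NaEulB {s : ℂ} (hs : 1 < s.re) : DifferentiableAt ℂ (ZE E) s := by
  set σ : ℝ := (1 + s.re) / 2 with hσ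
  have hσ1 : 1 < σ := by rw [hσ]; linarith
  have hσ2 : σ < s.re := by rw [hσ]; linarith
  have hU : IsOpen {y : ℂ | σ < y.re} := isOpen_lt continuous_const Complex.continuous_re
  have h := Complex.differentiableOn_tsum_of_summable_norm (U := {y : ℂ | σ < y.re})
    (F := fun (I : Ideal (𝓞 E)) (y : ℂ) => triv E I * (Ideal.absNorm I : ℂ) ^ (-y))
    (hasSum_w E σ hσ1).summable (fun I => ?_) hU (fun I y hy => ?_)
  · exact h.differentiableAt (hU.mem_nhds hσ2)
  · by_cases hI : I = ⊥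
    · simp only [hI, triv_bot, zero_mul]
      exact differentiableOn_const _
    · have h1 : (Ideal.absNorm I : ℂ) ≠ 0 := by
        rw [Nat.cast_ne_zero, Ne, Ideal.absNorm_eq_zero_iff]
        exact hI
      exact ((differentiable_id.neg.const_cpow (Or.inl h1)).const_mul _).differentiableOn
  · have hy' : σ < y.re := hy
    refine (EulerAux.norm_tw_le (triv E) triv_le triv_bot y I).trans ?_
    unfold w
    rcases Nat.eq_zero_or_pos (Ideal.absNorm I) with h0 | h0
    · rw [h0, Nat.cast_zero, Real.zero_rpow (by linarith), Real.zero_rpow (by linarith)]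
    · exact Real.rpow_le_rpow_of_exponent_le (by exact_mod_cast h0) (by linarith)

lemma one_le_NaEulB {σ : ℝ} (hσ : 1 < σ) : 1 ≤ ‖ZE E σ‖ := by
  have h1 : ∀ I : Ideal (𝓞 E), triv E I * (Ideal.absNorm I : ℂ) ^ (-(σ : ℂ)) =
      ((w E σ I : ℝ) : ℂ) := by
    intro I
    unfold w
    rw [Complex.ofReal_cpow (Nat.cast_nonneg _)]
    by_cases hI : I = ⊥
    · rw [hI, triv_bot, zero_mul, Ideal.absNorm_bot, Nat.cast_zero, Complex.ofReal_zero,
        Complex.zero_cpow]
      rw [Complex.ofReal_ne_zero]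
      linarith
    · rw [triv_ne hI, one_mul]
      push_cast
      rfl
  have h2 : ZE E σ = ((Z E σ : ℝ) : ℂ) := by
    unfold ZE
    simp only [h1]
    exact (Complex.hasSum_ofReal.2 (hasSum_w E σ hσ)).tsum_eq
  have h3 := le_hasSum (hasSum_w E σ hσ) ⊤ fun I _ => w_nonneg E σ I
  have h4 : w E σ ⊤ = 1 := by simp [w]
  rw [h2, Complex.norm_real, Real.norm_eq_abs]
  exact (h4 ▸ h3).trans (le_abs_self _)

lemma hasSum_LE_NaEulB {s : ℂ} (hs : 1 < s.re) :
    HasSum (fun v : Pr E => lam v * aa (triv E) v s / (1 - aa (triv E) v s)) (LE E s) := by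
  unfold LE
  rw [logDeriv_apply]
  exact hasSum_logderiv (triv E) triv_le triv_bot (ZE E) (fun _ _ => rfl) s hs

lemma geo_NaEulB {r : ℝ} (h0 : 0 ≤ r) (h1 : r < 1) {z : ℂ} (hz : ‖z‖ = 1) :
    HasSum (fun n : ℕ => r ^ (n + 1) * (z ^ (n + 1)).re) ((r * z / (1 - r * z)).re) := by
  have h2 : ‖(r : ℂ) * z‖ < 1 := by
    rw [norm_mul, hz, mul_one, Complex.norm_real, Real.norm_eq_abs, abs_of_nonneg h0]
    exact h1
  have h3 := Complex.hasSum_re ((hasSum_geometric_of_norm_lt_one h2).mul_left ((r : ℂ) * z))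
  rw [div_eq_mul_inv]
  have h4 : (fun n : ℕ => r ^ (n + 1) * (z ^ (n + 1)).re) =
      fun n : ℕ => ((r : ℂ) * z * (r * z) ^ n).re := by
    funext n
    rw [← pow_succ', mul_pow, ← Complex.ofReal_pow, Complex.re_ofReal_mul]
  rw [h4]
  exact h3

lemma comb_NaEulB {r : ℝ} (h0 : 0 ≤ r) (h1 : r < 1) {z : ℂ} (hz : ‖z‖ = 1) :
    0 ≤ 3 * ((r : ℂ) * 1 / (1 - r * 1)).re + 4 * (r * z / (1 - r * z)).re +
      (r * z ^ 2 / (1 - r * z ^ 2)).re := by
  have a := geo_NaEulB h0 h1 (z := 1) norm_one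
  have b := geo_NaEulB h0 h1 hz
  have c := geo_NaEulB h0 h1 (z := z ^ 2) (by rw [norm_pow, hz, one_pow])
  refine (((a.mul_left 3).add (b.mul_left 4)).add c).nonneg fun n => ?_
  have h2 : ‖z ^ (n + 1)‖ ^ 2 = 1 := by rw [norm_pow, hz, one_pow, one_pow]
  rw [Complex.sq_norm, Complex.normSq_apply] at h2
  rw [one_pow, Complex.one_re, ← pow_mul, mul_comm 2, pow_mul, sq, Complex.mul_re]
  have h3 : 0 ≤ r ^ (n + 1) := by positivity
  have h4 : 0 ≤ 3 + 4 * (z ^ (n + 1)).re + ((z ^ (n + 1)).re * (z ^ (n + 1)).re -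
      (z ^ (n + 1)).im * (z ^ (n + 1)).im) := by nlinarith [sq_nonneg ((z ^ (n + 1)).re + 1)]
  nlinarith [mul_nonneg h3 h4]

lemma aa_eq_NaEulB (v : Pr E) (σ : ℝ) (c : ℂ) :
    aa (triv E) v (σ + c) = (Real.exp (-σ * lam v) : ℝ) * Complex.exp (-c * lam v) := by
  unfold aa
  rw [triv_ne v.ne_bot, one_mul, Complex.ofReal_exp, ← Complex.exp_add]
  congr 1
  push_cast
  ring

lemma pos_NaEulB {σ : ℝ} (hσ : 1 < σ) (t : ℝ) :
    0 ≤ 3 * (LE E σ).re + 4 * (LE E (σ + t * Complex.I)).re +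
      (LE E (σ + 2 * t * Complex.I)).re := by
  have a := Complex.hasSum_re (hasSum_LE_NaEulB (E := E) (s := σ) (by simpa using hσ))
  have b := Complex.hasSum_re (hasSum_LE_NaEulB (E := E) (s := σ + t * Complex.I)
    (by simpa using hσ))
  have c := Complex.hasSum_re (hasSum_LE_NaEulB (E := E) (s := σ + 2 * t * Complex.I)
    (by simpa using hσ))
  refine (((a.mul_left 3).add (b.mul_left 4)).add c).nonneg fun v => ?_
  have ha : Real.exp (-σ * lam v) < 1 := Real.exp_lt_one_iff.mpr (by nlinarith [lam_pos v])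
  have hz : ‖Complex.exp (-(t * Complex.I) * lam v)‖ = 1 := by
    rw [Complex.norm_exp]
    simp
  have h := comb_NaEulB (Real.exp_pos (-σ * lam v)).le ha hz
  have e1 : aa (triv E) v σ = (Real.exp (-σ * lam v) : ℝ) * 1 := by
    have := aa_eq_NaEulB v σ 0
    rwa [add_zero, neg_zero, zero_mul, Complex.exp_zero] at this
  have e3 : aa (triv E) v (σ + 2 * t * Complex.I) = (Real.exp (-σ * lam v) : ℝ) *
      Complex.exp (-(t * Complex.I) * lam v) ^ 2 := by
    rw [aa_eq_NaEulB, ← Complex.exp_nat_mul]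
    congr 2
    push_cast
    ring
  rw [e1, e3, aa_eq_NaEulB, mul_div_assoc, mul_div_assoc (lam v : ℂ), mul_div_assoc (lam v : ℂ),
    Complex.re_ofReal_mul, Complex.re_ofReal_mul, Complex.re_ofReal_mul]
  nlinarith [mul_nonneg (lam_pos v).le h]

lemma norm_aa_NaEulB (v : Pr E) {s : ℂ} (hs : 3 / 4 < s.re) :
    ‖aa (triv E) v s‖ ≤ Real.exp (-(3 / 4) * lam v) ∧ 1 / 3 ≤ ‖1 - aa (triv E) v s‖ := by
  have h1 := norm_aa (X := triv E) triv_le v hs.le
  refine ⟨h1, ?_⟩
  have h2 : Real.log 2 ≤ lam v := Real.log_le_log two_pos (by exact_mod_cast two_le_N v)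
  have h3 := Real.log_two_gt_d9
  have h4 : Real.exp (-(3 / 4) * lam v) ≤ 2 / 3 := by
    rw [neg_mul, Real.exp_neg, inv_le_comm₀ (Real.exp_pos _) (by norm_num)]
    have := Real.add_one_le_exp (3 / 4 * lam v)
    norm_num at h3 ⊢
    linarith
  have h5 := norm_sub_norm_le (1 : ℂ) (aa (triv E) v s)
  rw [norm_one] at h5
  linarith

lemma rr_le_NaEulB (v : Pr E) {s : ℂ} (hs : 3 / 4 < s.re) :
    ‖rr (triv E) v s‖ ≤ 24 * (EulerAux.below v : ℝ) ^ (-(5 / 4) : ℝ) := by
  obtain ⟨h1, h2⟩ := norm_aa_NaEulB v hs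
  have h3 := lam_pos v
  have hb : (0 : ℝ) < EulerAux.below v := by exact_mod_cast (EulerAux.below_prime v).pos
  have h4 : lam v ≤ 8 * Real.exp (lam v / 8) := by linarith [Real.add_one_le_exp (lam v / 8)]
  have h5 : ∀ b : ℂ, ‖b / (1 - aa (triv E) v s)‖ ≤ 3 * ‖b‖ := fun b => by
    rw [norm_div, div_le_iff₀ (by linarith)]
    nlinarith [norm_nonneg b]
  rw [Real.rpow_def_of_pos hb]
  unfold rr
  by_cases h : Deg1 v
  · rw [if_pos h]
    have e : lam v * aa (triv E) v s / (1 - aa (triv E) v s) - lam v * aa (triv E) v s =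
        lam v * aa (triv E) v s ^ 2 / (1 - aa (triv E) v s) := by
      have : 1 - aa (triv E) v s ≠ 0 := fun h0 => by
        rw [h0, norm_zero] at h2
        linarith
      field_simp
      ring
    rw [e]
    refine (h5 _).trans ?_
    rw [norm_mul, Complex.norm_real, Real.norm_eq_abs, abs_of_pos h3, norm_pow,
      EulerAux.below_eq h]
    change _ ≤ 24 * Real.exp (lam v * _)
    calc 3 * (lam v * ‖aa (triv E) v s‖ ^ 2)
        ≤ 3 * (8 * Real.exp (lam v / 8) * Real.exp (-(3 / 4) * lam v) ^ 2) := by gcongr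
      _ = 24 * Real.exp (lam v / 8 + (2 : ℕ) * (-(3 / 4) * lam v)) := by
          rw [Real.exp_add, Real.exp_nat_mul]
          ring
      _ ≤ _ := by
          gcongr
          push_cast
          linarith
  · rw [if_neg h, sub_zero]
    refine (h5 _).trans ?_
    rw [norm_mul, Complex.norm_real, Real.norm_eq_abs, abs_of_pos h3]
    have h6 : 2 * Real.log (EulerAux.below v) ≤ lam v := by
      have h7 : ((EulerAux.below v : ℝ)) ^ 2 ≤ Ideal.absNorm v.asIdeal := by
        exact_mod_cast EulerAux.below_sq_le h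
      have h8 := Real.log_le_log (by positivity) h7
      rw [Real.log_pow] at h8
      exact_mod_cast h8
    calc 3 * (lam v * ‖aa (triv E) v s‖)
        ≤ 3 * (8 * Real.exp (lam v / 8) * Real.exp (-(3 / 4) * lam v)) := by gcongr
      _ = 24 * Real.exp (lam v / 8 + -(3 / 4) * lam v) := by
          rw [Real.exp_add]
          ring
      _ ≤ _ := by
          gcongr
          linarith

lemma rr_diff_NaEulB (v : Pr E) : DifferentiableOn ℂ (rr (triv E) v) {s | 3 / 4 < s.re} := by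
  have h1 : Differentiable ℂ (aa (triv E) v) := by
    unfold aa
    fun_prop
  refine DifferentiableOn.sub (DifferentiableOn.div (by fun_prop) (by fun_prop)
    fun s hs h0 => ?_) ?_
  · have := (norm_aa_NaEulB v hs).2
    rw [h0, norm_zero] at this
    linarith
  · split_ifs
    · fun_prop
    · fun_prop

lemma sum_le_NaEulB (T : Finset (Pr E)) :
    ∑ v ∈ T, 24 * (EulerAux.below v : ℝ) ^ (-(5 / 4) : ℝ) ≤
      dE E * ∑' n : ℕ, 24 * (n : ℝ) ^ (-(5 / 4) : ℝ) := by
  have hsum : Summable fun n : ℕ => 24 * (n : ℝ) ^ (-(5 / 4) : ℝ) :=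
    (Real.summable_nat_rpow.2 (by norm_num)).mul_left 24
  have h2 := EulerAux.sum_below_le T (fun n => 24 * (n : ℝ) ^ (-(5 / 4) : ℝ))
    (fun n => by positivity) (T.image EulerAux.below) (fun v hv => Finset.mem_image_of_mem _ hv)
  rw [RingOfIntegers.rank] at h2
  refine h2.trans (mul_le_mul_of_nonneg_left ?_ (Nat.cast_nonneg _))
  exact hsum.sum_le_tsum _ fun n _ => by positivity

lemma P1_NaEulB {s a : ℂ}
    (h : HasSum (fun v : Pr E => if Deg1 v then lam v * aa (triv E) v s else 0) a) :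
    P1 E s = a := by
  set g : ℕ → ℂ := fun n => (Real.log n : ℝ) * pw s n with hg
  have h1 : (fun v : Pr E => if Deg1 v then lam v * aa (triv E) v s else 0) =
      (fun I : Ideal (𝓞 E) => g (Ideal.absNorm I)) ∘ fun v : Pr E => v.asIdeal := by
    funext v
    simp only [hg, pw, Function.comp_apply]
    by_cases hv : Deg1 v
    · rw [if_pos hv, if_pos (show (Ideal.absNorm v.asIdeal).Prime from hv), cpow_lam, aa,
        triv_ne v.ne_bot, one_mul]
      rfl
    · rw [if_neg hv, if_neg (show ¬ (Ideal.absNorm v.asIdeal).Prime from hv), mul_zero]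
  rw [h1, EulerAux.inj.hasSum_iff] at h
  · have hfin : ∀ n, Finite {I : Ideal (𝓞 E) // Ideal.absNorm I = n} := fun n =>
      (Ideal.finite_setOfPred_absNorm_eq (S := 𝓞 E) n).to_subtype
    have h2 : ∀ n, HasSum (fun I : {I : Ideal (𝓞 E) // Ideal.absNorm I = n} =>
        g (Ideal.absNorm I.1)) ((cnt E n : ℂ) * g n) := by
      intro n
      have := Fintype.ofFinite {I : Ideal (𝓞 E) // Ideal.absNorm I = n}
      have h3 := hasSum_fintype (fun I : {I : Ideal (𝓞 E) // Ideal.absNorm I = n} =>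
        g (Ideal.absNorm I.1))
      rw [Finset.sum_congr rfl (fun I _ => by rw [I.2]), Finset.sum_const, nsmul_eq_mul,
        Finset.card_univ, ← Nat.card_eq_fintype_card] at h3
      exact h3
    rw [← (Equiv.sigmaFiberEquiv (fun I : Ideal (𝓞 E) => Ideal.absNorm I)).hasSum_iff] at h
    have h4 := (h.sigma h2).tsum_eq
    rw [← h4]
    exact tsum_congr fun n => mul_assoc _ _ _
  · intro I hI
    simp only [hg, pw]
    rw [if_neg, mul_zero]
    intro hp
    have h5 : Prime I := UniqueFactorizationMonoid.irreducible_iff_prime.mp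
      (Ideal.irreducible_of_irreducible_absNorm hp)
    exact hI ⟨⟨I, Ideal.isPrime_of_prime h5, h5.ne_zero⟩, rfl⟩

end

theorem eul_stmtB : EulStmt := by
  intro N
  have h0 : 0 ≤ ∑' n : ℕ, 24 * (n : ℝ) ^ (-(5 / 4) : ℝ) := tsum_nonneg fun n => by positivity
  refine ⟨N * (∑' n : ℕ, 24 * (n : ℝ) ^ (-(5 / 4) : ℝ)) + 1, by positivity, fun E _ _ hN =>
    ⟨fun s hs => ⟨?_, diff_NaEulB hs⟩, fun σ hσ => ⟨one_le_NaEulB hσ, ?_, pos_NaEulB hσ⟩, ?_⟩⟩
  · unfold ZE
    rw [← (euler (triv E) triv_le triv_bot s hs).2.2]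
    exact Complex.exp_ne_zero _
  · have := pos_NaEulB (E := E) hσ 0
    simp only [Complex.ofReal_zero, zero_mul, mul_zero, add_zero] at this
    linarith
  · have hu : Summable fun v : Pr E => 24 * (EulerAux.below v : ℝ) ^ (-(5 / 4) : ℝ) :=
      summable_of_sum_le (fun v => by positivity) sum_le_NaEulB
    refine ⟨fun s => ∑' v : Pr E, rr (triv E) v s, Complex.differentiableOn_tsum_of_summable_norm
      hu rr_diff_NaEulB (isOpen_lt continuous_const Complex.continuous_re)
      (fun v s hs => rr_le_NaEulB v hs), fun s hs => ?_, fun s hs => ?_⟩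
    · refine (tsum_of_norm_bounded hu.hasSum fun v => rr_le_NaEulB v hs).trans ?_
      refine (hu.tsum_le_of_sum_le sum_le_NaEulB).trans ?_
      have h1 : (dE E : ℝ) ≤ N := by exact_mod_cast hN
      nlinarith
    · have h1 := (Summable.of_norm_bounded hu fun v => rr_le_NaEulB v
        (s := s) (by linarith)).hasSum
      have h2 := (hasSum_LE_NaEulB (E := E) hs).sub h1
      simp only [rr, sub_sub_cancel] at h2
      rw [P1_NaEulB h2]
      simp only [rr]
      ring

end Pool.Agent.MP_f68ac8_nt.Nd
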