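import Mathlib
import Pool.Agent.MP_f68ac8_nt.NaAux

/-! Counting integers in a box by a packing argument. -/

namespace Pool.Agent.MP_f68ac8_nt.Nd

open NumberField NumberField.InfinitePlace NumberField.mixedEmbedding NumberField.Units
  NumberField.Units.dirichletUnitTheorem MeasureTheory
open MP_14ad9d_nt.Full MP_14ad9d_nt.Full.EDAux MP_d64882_nt
open scoped Classical Pointwise

section
variable {E : Type} [Field E] [NumberField E]

/-- the open box -/
def box_NaPack (t : InfinitePlace E → ℝ) (r : ℝ) : Set (mixedSpace E) :=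
  {x | ∀ w, t w * normAtPlace w x < r}

theorem open_NaPack (t : InfinitePlace E → ℝ) (r : ℝ) : IsOpen (box_NaPack t r) := by
  have : box_NaPack t r = ⋂ w, {x | t w * normAtPlace w x < r} := by
    ext x
    simp [box_NaPack]
  rw [this]
  exact isOpen_iInter_of_finite fun w =>
    isOpen_lt (continuous_const.mul (continuous_normAtPlace w)) continuous_const

omit [NumberField E] in
theorem smul_NaPack (t : InfinitePlace E → ℝ) {r : ℝ} (hr : 0 < r) :
    box_NaPack t r = r • box_NaPack t 1 := by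
  ext x
  rw [Set.mem_smul_set_iff_inv_smul_mem₀ hr.ne']
  refine forall_congr' fun w => ?_
  rw [normAtPlace_smul, abs_of_pos (inv_pos.2 hr), mul_left_comm, inv_mul_lt_iff₀ hr, mul_one]

theorem vol_NaPack (t : InfinitePlace E → ℝ) {r : ℝ} (hr : 0 < r) :
    volume (box_NaPack t r) = ENNReal.ofReal (r ^ dE E) * volume (box_NaPack t 1) := by
  rw [smul_NaPack t hr, Measure.addHaar_smul_of_nonneg _ hr.le, mixedEmbedding.finrank]

theorem pos_NaPack (t : InfinitePlace E → ℝ) : volume (box_NaPack t 1) ≠ 0 :=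
  ((open_NaPack t 1).measure_pos volume ⟨0, fun w => by simp⟩).ne'

theorem top_NaPack {t : InfinitePlace E → ℝ} (ht : ∀ w, 0 < t w) :
    volume (box_NaPack t 1) ≠ ⊤ := by
  have h : box_NaPack t 1 ⊆ convexBodyLT E fun w => ⟨(t w)⁻¹, (inv_pos.2 (ht w)).le⟩ := by
    intro x hx
    have h1 : ∀ w, normAtPlace w x < (t w)⁻¹ := fun w => by
      rw [← mul_one (t w)⁻¹, lt_inv_mul_iff₀ (ht w)]
      exact hx w
    refine ⟨fun w _ => mem_ball_zero_iff.2 ?_, fun w _ => mem_ball_zero_iff.2 ?_⟩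
    · exact (normAtPlace_apply_of_isReal w.2 x).symm.trans_lt (h1 w.1)
    · exact (normAtPlace_apply_of_isComplex w.2 x).symm.trans_lt (h1 w.1)
  refine ne_top_of_le_ne_top ?_ (measure_mono h)
  rw [convexBodyLT_volume]
  exact ENNReal.mul_ne_top ENNReal.coe_ne_top ENNReal.coe_ne_top

theorem sep_NaPack {t : InfinitePlace E → ℝ} (ht : ∀ w, 0 < t w) {a : ℝ}
    (h : a ^ dE E ≤ nt t) {β : 𝓞 E} (hβ : β ≠ 0) : ∃ w, a ≤ t w * w (β : E) := by
  by_contra hc
  push Not at hc
  have h0 : (β : E) ≠ 0 := RingOfIntegers.coe_ne_zero_iff.2 hβ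
  have h1 : ∏ w : InfinitePlace E, (t w * w (β : E)) ^ mult w < ∏ w : InfinitePlace E, a ^ mult w :=
    Finset.prod_lt_prod_of_nonempty (fun w _ => pow_pos (mul_pos (ht w) (pos_iff.2 h0)) _)
      (fun w _ => pow_lt_pow_left₀ (hc w) (mul_pos (ht w) (pos_iff.2 h0)).le mult_ne_zero)
      Finset.univ_nonempty
  rw [Finset.prod_pow_eq_pow_sum, sum_mult_eq] at h1
  simp only [mul_pow] at h1
  rw [Finset.prod_mul_distrib, prod_eq_abs_norm] at h1
  have h2 : (1 : ℝ) ≤ ((|Algebra.norm ℚ (β : E)| : ℚ) : ℝ) := by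
    rw [← Algebra.coe_norm_int, ← Int.cast_abs, Rat.cast_intCast]
    exact_mod_cast Int.one_le_abs (Algebra.norm_ne_zero_iff.2 hβ)
  have h3 : 0 ≤ nt t := Finset.prod_nonneg fun w _ => (pow_pos (ht w) _).le
  have h4 := mul_le_mul_of_nonneg_left h2 h3
  unfold nt at h h4
  linarith

theorem card_NaPack {t : InfinitePlace E → ℝ} (ht : ∀ w, 0 < t w) {a R : ℝ} (ha : 0 < a)
    (hR : 0 ≤ R) (h : a ^ dE E ≤ nt t) (S : Finset (𝓞 E)) (hS : ∀ α ∈ S, InB t R (em α)) :
    (S.card : ℝ) ≤ (4 * R / a + 2) ^ dE E := by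
  have ha2 : 0 < a / 2 := half_pos ha
  have h1 : (S : Set (𝓞 E)).PairwiseDisjoint
      fun α => (fun x => x - em α) ⁻¹' box_NaPack t (a / 2) := by
    intro α _ β _ hne
    refine Set.disjoint_left.2 fun x hx hy => ?_
    obtain ⟨w, hw⟩ := sep_NaPack ht h (sub_ne_zero.2 hne)
    have e : mixedEmbedding E ((α - β : 𝓞 E) : E) = x - em β + -(x - em α) := by
      rw [RingOfIntegers.coe_eq_algebraMap, map_sub, map_sub]
      unfold em
      abel
    have h2 := normAtPlace_add_le w (x - em β) (-(x - em α))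
    rw [← e, normAtPlace_apply, normAtPlace_neg] at h2
    have h3 := mul_le_mul_of_nonneg_left h2 (ht w).le
    have h4 : t w * normAtPlace w (x - em α) < a / 2 := hx w
    have h5 : t w * normAtPlace w (x - em β) < a / 2 := hy w
    linarith
  have h2 : ⋃ α ∈ S, (fun x => x - em α) ⁻¹' box_NaPack t (a / 2) ⊆ box_NaPack t (R + a / 2) := by
    refine Set.iUnion₂_subset fun α hα x hx w => ?_
    have h3 := normAtPlace_add_le w (x - em α) (em α)
    rw [sub_add_cancel] at h3
    have h4 := mul_le_mul_of_nonneg_left h3 (ht w).le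
    have h5 : t w * normAtPlace w (x - em α) < a / 2 := hx w
    have h6 := hS α hα w
    linarith
  have h3 := measure_mono (μ := volume) h2
  rw [measure_biUnion_finset h1 fun α _ =>
    ((open_NaPack t _).preimage (by fun_prop)).measurableSet] at h3
  simp only [sub_eq_add_neg, measure_preimage_add_right] at h3
  rw [Finset.sum_const, nsmul_eq_mul, vol_NaPack t ha2,
    vol_NaPack t (show 0 < R + a / 2 by positivity), ← mul_assoc,
    ENNReal.mul_le_mul_iff_left (pos_NaPack t) (top_NaPack ht), ← ENNReal.ofReal_natCast,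
    ← ENNReal.ofReal_mul (Nat.cast_nonneg _),
    ENNReal.ofReal_le_ofReal_iff (by positivity), ← le_div_iff₀ (by positivity), ← div_pow] at h3
  refine h3.trans (pow_le_pow_left₀ (by positivity) ?_ _)
  rw [div_le_iff₀ ha2]
  have e : (4 * R / a + 2) * (a / 2) = 2 * R + a := by field_simp; ring
  rw [e]
  linarith

end

theorem pack_stmt : PackStmt := by
  intro E _ _ t a R ht ha hR h
  have hf : {α : 𝓞 E | InB t R (em α)}.Finite := by
    by_contra hi
    obtain ⟨S, h1, h2⟩ := Set.Infinite.exists_subset_card_eq hi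
      (⌊(4 * R / a + 2) ^ dE E⌋₊ + 1)
    have h3 := card_NaPack ht ha hR h S fun α hα => h1 hα
    rw [h2] at h3
    push_cast at h3
    linarith [Nat.lt_floor_add_one ((4 * R / a + 2) ^ dE E)]
  refine ⟨hf, ?_⟩
  rw [Set.ncard_eq_toFinset_card _ hf]
  exact card_NaPack ht ha hR h _ fun α hα => hf.mem_toFinset.1 hα

end Pool.Agent.MP_f68ac8_nt.Nd
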