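import Mathlib
import Pool.Agent.MP_f68ac8_nt.NaAux

namespace Pool.Agent.MP_f68ac8_nt.Nd

open NumberField NumberField.InfinitePlace NumberField.mixedEmbedding NumberField.Units
  NumberField.Units.dirichletUnitTheorem MeasureTheory
open MP_14ad9d_nt.Full MP_14ad9d_nt.Full.EDAux MP_d64882_nt
open scoped Classical

theorem ts_NaReg : Ts (fun u => (tent u : ℂ)) 1 :=
  ⟨fun u v => by
    rw [← Complex.ofReal_sub, Complex.norm_real, Real.norm_eq_abs, one_mul]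
    exact tent_lip u v,
  fun u hu => by
    change (tent u : ℂ) = 0
    rw [tent_eq_zero (by linarith), Complex.ofReal_zero]⟩

theorem single_NaReg {ι : Type} {f : ι → ℂ} {S : Set ι} (hS : S.Finite)
    (h : ∀ j, f j ≠ 0 → j ∈ S) (h0 : ∀ j, 0 ≤ (f j).re) (i : ι) : (f i).re ≤ (∑ᶠ j, f j).re := by
  rw [finsum_eq_sum_of_support_subset (s := insert i hS.toFinset) _ fun j hj =>
    Finset.mem_coe.2 (Finset.mem_insert_of_mem (hS.mem_toFinset.2 (h j hj))), Complex.re_sum]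
  exact Finset.single_le_sum (f := fun j => (f j).re) (fun j _ => h0 j) (Finset.mem_insert_self _ _)

variable {E : Type} [Field E] [NumberField E]

theorem bd_NaReg : 2 ≤ Bd E := by
  have h : (1 : ℝ) ≤ |(discr E : ℝ)| := by
    exact_mod_cast Int.one_le_abs (discr_ne_zero E)
  unfold Bd
  linarith

theorem fv_NaReg (c : ℝ) (v : logSpace E) (x : mixedSpace E) :
    0 ≤ (fv (fun u => (tent u : ℂ)) c v x).re := by
  unfold fv
  split_ifs
  · exact le_rfl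
  · rw [← Complex.ofReal_mul, Complex.ofReal_re]
    exact mul_nonneg (EDAux.tent_nonneg _) (Finset.prod_nonneg fun _ _ => EDAux.tent_nonneg _)

theorem gs_NaReg {c R : ℝ} {v : logSpace E} {t : InfinitePlace E → ℝ}
    (hf : {α : 𝓞 E | InB t R (em α)}.Finite)
    (hs : ∀ x, fv (fun u => (tent u : ℂ)) c v x ≠ 0 → InB t R x) (α : 𝓞 E) :
    (fv (fun u => (tent u : ℂ)) c v (em α)).re ≤ (Gs ⊤ (fun u => (tent u : ℂ)) c v).re := by
  have h1 : (Subtype.val ⁻¹' {α : 𝓞 E | InB t R (em α)} : Set (⊤ : Ideal (𝓞 E))).Finite :=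
    hf.preimage Subtype.val_injective.injOn
  unfold Gs
  generalize hg : fv (fun u => (tent u : ℂ)) c v = g at hs
  exact single_NaReg (f := fun β : (⊤ : Ideal (𝓞 E)) => g (em (β : 𝓞 E))) h1
    (fun β hβ => hs _ hβ) (fun β => hg ▸ fv_NaReg c v _) ⟨α, Submodule.mem_top⟩

theorem sc_NaReg (k : ℝ) : (Sc (⊤ : Ideal (𝓞 E)) (fun u => (tent u : ℂ)) k).re ≤
    {I : Ideal (𝓞 E) | Ideal.absNorm I ≤ ⌈Real.exp (k + 1)⌉₊}.ncard := by
  have h1 := Ideal.finite_setOfPred_absNorm_le (S := 𝓞 E) ⌈Real.exp (k + 1)⌉₊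
  rw [Sc, finsum_eq_sum_of_support_subset (s := h1.toFinset), Complex.re_sum,
    Set.ncard_eq_toFinset_card _ h1, Finset.card_eq_sum_ones, Nat.cast_sum]
  · refine Finset.sum_le_sum fun I _ => (Complex.re_le_norm _).trans ?_
    rw [Nat.cast_one]
    split_ifs
    · rw [norm_mul, Complex.norm_real, Real.norm_of_nonneg (EDAux.tent_nonneg _)]
      exact mul_le_one₀ (triv_le I) (EDAux.tent_nonneg _) (tent_le_one _)
    · rw [norm_zero]
      exact zero_le_one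
  · intro I hI
    rw [Set.Finite.coe_toFinset]
    by_contra hn
    have h2 : Real.exp (k + 1) ≤ Ideal.absNorm I :=
      (Nat.le_ceil _).trans (Nat.cast_le.2 (not_le.1 hn).le)
    have h3 := (Real.le_log_iff_exp_le ((Real.exp_pos _).trans_le h2)).2 h2
    refine hI ?_
    simp only [tent_eq_zero (le_abs.2 (Or.inl (le_sub_iff_add_le'.2 h3))), Complex.ofReal_zero,
      mul_zero, ite_self]

theorem reg_stmt (hP : PackStmt) (hC : CovStmt) (hT : TestStmt) (hS : PsiStmt) (hU : UnfStmt) (hN : CntStmt) : RegStmt := by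
  intro N
  obtain ⟨C₁, h1⟩ := hC N
  obtain ⟨C₂, c2, h2⟩ := hT N
  obtain ⟨C₃, h3⟩ := hN N
  obtain ⟨c, hc⟩ := pow_unbounded_of_one_lt C₂ (one_lt_two (α := ℝ))
  refine ⟨1 + (3 + (1 + c + C₁) * N) * C₃, fun E _ _ hE => ?_⟩
  have hB : 2 ≤ Bd E := bd_NaReg
  have hB1 : 1 ≤ Bd E := one_le_two.trans hB
  have hp : 1 ≤ Bd E ^ C₁ := one_le_pow₀ hB1
  obtain ⟨b, hb⟩ : ∃ b, b = 2 * C₂ * Bd E ^ C₁ := ⟨_, rfl⟩
  have b1 : 1 ≤ b := by rw [hb]; nlinarith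
  have b0 : 0 < b := one_pos.trans_le b1
  obtain ⟨k, hk⟩ : ∃ k, Real.exp k = b ^ dE E := ⟨_, Real.exp_log (pow_pos b0 _)⟩
  have hv : ∀ v : logSpace E, 1 / 2 ≤ RCLike.re (Gs ⊤ (fun u => (tent u : ℂ)) k v) := fun v => by
    obtain ⟨t0, tn, ⟨x₀, hx⟩, hl⟩ := h2 E hE k v
    obtain ⟨l1, l2⟩ := hl _ 1 ts_NaReg
    rw [Real.exp_neg, hk, ← inv_pow] at tn
    obtain ⟨α, -, hα⟩ := h1 E hE ⊤ _ b⁻¹ top_ne_bot t0 (inv_pos.2 b0)
      (by rw [Ideal.absNorm_top, Nat.cast_one, one_mul, tn]) x₀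
    have l3 := l1 _ _ _ hα
    have e : C₂ * 1 * (Bd E ^ C₁ * b⁻¹) = 1 / 2 := by
      rw [hb]
      field_simp
    rw [hx, e] at l3
    have l4 := (Complex.re_le_norm _).trans l3
    rw [Complex.sub_re, Complex.one_re] at l4
    have l5 := gs_NaReg (hP E _ b⁻¹ C₂ t0 (inv_pos.2 b0) (by linarith) tn.ge).1 l2 α
    rw [RCLike.re_to_complex]
    linarith
  obtain ⟨m1, m2, -⟩ := hS E
  obtain ⟨u1, u2⟩ := hU E ⊤ _ 1 k top_ne_bot ts_NaReg
  rw [Ideal.absNorm_top, Nat.cast_one, Real.log_one, zero_add] at u1 u2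
  have i1 := setIntegral_ge_of_const_le_real m1 m2.ne (fun v _ => hv v) u1.re
  rw [integral_re u1, ← u2, RCLike.re_to_complex, ← Complex.ofReal_natCast, Complex.re_ofReal_mul,
    measureReal_def] at i1
  have i2 : (({I : Ideal (𝓞 E) | Ideal.absNorm I ≤ ⌈Real.exp (k + 1)⌉₊}.ncard : ℕ) : ℝ) ≤
      ((⌈Real.exp (k + 1)⌉₊ : ℝ) + 2) ^ C₃ := by
    exact_mod_cast (h3 E hE).1 _
  have j1 : b ≤ Bd E ^ (1 + c + C₁) := by
    rw [hb, pow_add, pow_add, pow_one]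
    have : C₂ ≤ Bd E ^ c := hc.le.trans (pow_le_pow_left₀ zero_le_two hB c)
    gcongr
  have j2 : b ^ dE E ≤ Bd E ^ ((1 + c + C₁) * N) := by
    rw [pow_mul]
    exact (pow_le_pow_right₀ b1 hE).trans (pow_le_pow_left₀ b0.le j1 N)
  have j3 : (⌈Real.exp (k + 1)⌉₊ : ℝ) + 2 ≤ Bd E ^ (3 + (1 + c + C₁) * N) := by
    have k1 := Nat.ceil_lt_add_one (Real.exp_pos (k + 1)).le
    have k2 := Real.exp_one_lt_d9
    have k3 : 1 ≤ b ^ dE E := one_le_pow₀ b1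
    have k4 : (2 : ℝ) ^ 3 ≤ Bd E ^ 3 := pow_le_pow_left₀ zero_le_two hB 3
    have k5 : Real.exp (k + 1) = b ^ dE E * Real.exp 1 := by rw [Real.exp_add, hk]
    rw [pow_add]
    nlinarith
  have j4 : ((⌈Real.exp (k + 1)⌉₊ : ℝ) + 2) ^ C₃ ≤ Bd E ^ ((3 + (1 + c + C₁) * N) * C₃) := by
    rw [pow_mul]
    exact pow_le_pow_left₀ (by positivity) j3 _
  have i3 := mul_le_mul_of_nonneg_left ((sc_NaReg k).trans (i2.trans j4))
    (Nat.cast_nonneg (α := ℝ) (torsionOrder E))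
  have i4 : 0 ≤ (torsionOrder E : ℝ) * Bd E ^ ((3 + (1 + c + C₁) * N) * C₃) := by positivity
  rw [pow_add, pow_one]
  nlinarith

end Pool.Agent.MP_f68ac8_nt.Nd
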