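import Mathlib
import Pool.Agent.MP_f68ac8_nt.NaAux

namespace Pool.Agent.MP_f68ac8_nt.Nd
open NumberField NumberField.InfinitePlace NumberField.mixedEmbedding NumberField.Units
  NumberField.Units.dirichletUnitTheorem MeasureTheory
open MP_14ad9d_nt.Full MP_14ad9d_nt.Full.EDAux MP_d64882_nt
open scoped Classical

section
variable {E : Type} [Field E] [NumberField E]

lemma le_norm_NaRiem (w : InfinitePlace E) (x : mixedSpace E) : normAtPlace w x ≤ ‖x‖ := by
  rw [norm_eq_sup'_normAtPlace]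
  exact Finset.le_sup' (fun w => normAtPlace w x) (Finset.mem_univ w)

lemma inB_norm_NaRiem (t : InfinitePlace E → ℝ) (ht : ∀ w, 0 < t w) (z : mixedSpace E) :
    InB t ((∑ w, t w) * ‖z‖) z := by
  intro w
  have h1 : t w ≤ ∑ w, t w :=
    Finset.single_le_sum (f := t) (fun u _ => (ht u).le) (Finset.mem_univ w)
  exact mul_le_mul h1 (le_norm_NaRiem w z) (normAtPlace_nonneg w z) ((ht w).le.trans h1)

lemma bdd_NaRiem (t : InfinitePlace E → ℝ) (ht : ∀ w, 0 < t w) (C : ℝ) :
    ∃ R : ℝ, ∀ x : mixedSpace E, InB t C x → ‖x‖ ≤ R := by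
  refine ⟨∑ w, |C| / t w, fun x hx => ?_⟩
  rw [norm_eq_sup'_normAtPlace]
  refine Finset.sup'_le _ _ fun w _ => ?_
  have h1 : normAtPlace w x ≤ |C| / t w := by
    rw [le_div_iff₀ (ht w), mul_comm]
    exact (hx w).trans (le_abs_self C)
  exact h1.trans (Finset.single_le_sum (f := fun w => |C| / t w)
    (fun u _ => div_nonneg (abs_nonneg C) (ht u).le) (Finset.mem_univ w))

lemma cont_NaRiem (t : InfinitePlace E → ℝ) (ht : ∀ w, 0 < t w) (Λ : ℝ) (f : mixedSpace E → ℂ)
    (hf : Lp t Λ f) : Continuous f := by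
  have hT : 0 ≤ ∑ w, t w := Finset.sum_nonneg fun u _ => (ht u).le
  have : LipschitzWith (Real.toNNReal (|Λ| * ∑ w, t w)) f := by
    refine LipschitzWith.of_dist_le' fun x y => ?_
    rw [dist_eq_norm, dist_eq_norm]
    refine (hf x y _ (inB_norm_NaRiem t ht (x - y))).trans ?_
    rw [mul_assoc]
    exact mul_le_mul_of_nonneg_right (le_abs_self Λ) (mul_nonneg hT (norm_nonneg _))
  exact this.continuous

/-- averaging over a fundamental domain -/
lemma avg_NaRiem {ι : Type*} [Fintype ι] (b : Module.Basis ι ℝ (mixedSpace E))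
    (f : mixedSpace E → ℂ) (hf : Integrable f) (R : ℝ) (hR : ∀ x, f x ≠ 0 → ‖x‖ ≤ R)
    (h0 : ∫ x, f x = 0) (c : ℂ) (K : ℝ)
    (hK : ∀ x, ‖∑' g : Submodule.span ℤ (Set.range b), f ((g : mixedSpace E) + x) - c‖ ≤ K) :
    ‖c‖ ≤ K := by
  have hfd := ZSpan.isAddFundamentalDomain b (volume : Measure (mixedSpace E))
  have hmeas := ZSpan.fundamentalDomain_measurableSet b
  have hbd := ZSpan.fundamentalDomain_isBounded b
  have hne := ZSpan.measure_fundamentalDomain_ne_zero b (μ := (volume : Measure (mixedSpace E)))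
  have hlt : volume (ZSpan.fundamentalDomain b) < ⊤ := hbd.measure_lt_top
  obtain ⟨R', hR'⟩ := hbd.exists_norm_le
  have hfin : {g : Submodule.span ℤ (Set.range b) | ‖(g : mixedSpace E)‖ ≤ R + R'}.Finite := by
    have h1 := ZSpan.setFinite_inter b (Metric.isBounded_closedBall (x := 0) (r := R + R'))
    refine Set.Finite.of_finite_image (f := Subtype.val) (h1.subset ?_) Subtype.val_injective.injOn
    rintro _ ⟨g, hg, rfl⟩
    exact ⟨mem_closedBall_zero_iff.2 hg, g.2⟩
  have hz : ∀ x ∈ ZSpan.fundamentalDomain b, ∀ g ∉ hfin.toFinset,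
      f ((g : mixedSpace E) + x) = 0 := by
    intro x hx g hg
    by_contra hne
    apply hg
    rw [Set.Finite.mem_toFinset]
    have h1 := hR _ hne
    have h2 := hR' x hx
    have h3 : ‖(g : mixedSpace E)‖ ≤ ‖(g : mixedSpace E) + x‖ + ‖x‖ := by
      simpa using norm_sub_le ((g : mixedSpace E) + x) x
    show ‖(g : mixedSpace E)‖ ≤ R + R'
    linarith
  have hint : ∀ g : Submodule.span ℤ (Set.range b),
      IntegrableOn (fun x => f ((g : mixedSpace E) + x)) (ZSpan.fundamentalDomain b) := fun g =>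
    (hf.comp_add_left (g : mixedSpace E)).integrableOn
  have h1 : ∫ x in ZSpan.fundamentalDomain b,
      ∑ g ∈ hfin.toFinset, f ((g : mixedSpace E) + x) = 0 := by
    have : VAddInvariantMeasure (Submodule.span ℤ (Set.range b)) (mixedSpace E) volume :=
      ⟨fun c s _ => measure_preimage_add volume (c : mixedSpace E) s⟩
    rw [integral_finsetSum _ (fun g _ => hint g), ← h0, hfd.integral_eq_tsum'' f hf]
    symm
    refine tsum_eq_sum fun g hg => ?_
    exact setIntegral_eq_zero_of_forall_eq_zero fun x hx => hz x hx g hg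
  have h2 : ‖∫ x in ZSpan.fundamentalDomain b,
      (∑ g ∈ hfin.toFinset, f ((g : mixedSpace E) + x) - c)‖ ≤
      K * volume.real (ZSpan.fundamentalDomain b) := by
    refine norm_setIntegral_le_of_norm_le_const hlt fun x hx => ?_
    have h3 := hK x
    rwa [tsum_eq_sum (hz x hx)] at h3
  rw [integral_sub (integrable_finsetSum _ fun g _ => hint g) (integrableOn_const hlt.ne), h1,
    setIntegral_const, zero_sub, norm_neg, _root_.norm_smul, Real.norm_of_nonneg measureReal_nonneg,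
    mul_comm] at h2
  have hpos : 0 < volume.real (ZSpan.fundamentalDomain b) := ENNReal.toReal_pos hne hlt.ne
  exact le_of_mul_le_mul_right h2 hpos

omit [NumberField E] in
lemma em_add_NaRiem (α β : 𝓞 E) : em (α + β) = em α + em β := by
  simp [em]

lemma em_inj_NaRiem : Function.Injective (em (E := E)) := by
  intro α β h
  have h1 := mixedEmbedding_injective E h
  exact RingOfIntegers.ext h1

lemma lat_NaRiem (J : Ideal (𝓞 E)) (hJ : J ≠ ⊥) :
    ∃ (ι : Type) (_ : Fintype ι) (b : Module.Basis ι ℝ (mixedSpace E))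
      (e : J ≃ Submodule.span ℤ (Set.range b)), ∀ α : J, (e α : mixedSpace E) = em (α : 𝓞 E) := by
  let I : (FractionalIdeal (nonZeroDivisors (𝓞 E)) E)ˣ :=
    FractionalIdeal.mk0 E ⟨J, mem_nonZeroDivisors_of_ne_zero hJ⟩
  have hmem : ∀ x : mixedSpace E,
      x ∈ Submodule.span ℤ (Set.range (fractionalIdealLatticeBasis E I)) ↔
        ∃ α ∈ J, em α = x := by
    intro x
    rw [span_idealLatticeBasis, mem_idealLattice]
    constructor
    · rintro ⟨y, hy, rfl⟩
      have hy' : y ∈ (J : FractionalIdeal (nonZeroDivisors (𝓞 E)) E) := hy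
      obtain ⟨α, hα, rfl⟩ := (FractionalIdeal.mem_coeIdeal _).1 hy'
      exact ⟨α, hα, rfl⟩
    · rintro ⟨α, hα, rfl⟩
      refine ⟨(α : E), ?_, rfl⟩
      have : (α : E) ∈ (J : FractionalIdeal (nonZeroDivisors (𝓞 E)) E) :=
        (FractionalIdeal.mem_coeIdeal _).2 ⟨α, hα, rfl⟩
      exact this
  refine ⟨_, inferInstance, fractionalIdealLatticeBasis E I,
    Equiv.ofBijective (fun α : J => ⟨em (α : 𝓞 E), (hmem _).2 ⟨α, α.2, rfl⟩⟩) ⟨?_, ?_⟩,
    fun _ => rfl⟩
  · intro α β h
    exact Subtype.ext (em_inj_NaRiem (congrArg Subtype.val h))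
  · rintro ⟨x, hx⟩
    obtain ⟨α, hα, rfl⟩ := (hmem x).1 hx
    exact ⟨⟨α, hα⟩, rfl⟩

end

theorem int_stmt : IntStmt := by
  intro E _ _ t Λ C f ht hf hC
  obtain ⟨R, hR⟩ := bdd_NaRiem t ht C
  refine (cont_NaRiem t ht Λ f hf).integrable_of_hasCompactSupport ?_
  refine HasCompactSupport.intro (isCompact_closedBall 0 R) fun x hx => ?_
  by_contra hne
  exact hx (mem_closedBall_zero_iff.2 (hR x (hC x hne)))

theorem riem_stmt (hI : IntStmt) : RiemStmt := by
  intro E _ _ J t Λ C δ M f hJ ht hf hΛ hC hcov hfin hM h0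
  have hint := hI E t Λ C f ht hf hC
  obtain ⟨R, hR⟩ := bdd_NaRiem t ht C
  obtain ⟨ι, _, b, e, he⟩ := lat_NaRiem J hJ
  have hδ : 0 ≤ δ := by
    obtain ⟨α, _, hα⟩ := hcov 0
    have w : InfinitePlace E := Classical.arbitrary _
    exact (mul_nonneg (ht w).le (normAtPlace_nonneg w _)).trans (hα w)
  have hfinJ : {α : J | InB t (C + δ) (em (α : 𝓞 E))}.Finite :=
    Set.Finite.preimage (f := Subtype.val) Subtype.val_injective.injOn hfin
  have hcard : (hfinJ.toFinset.card : ℝ) ≤ M := by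
    refine le_trans ?_ hM
    rw [← Set.ncard_eq_toFinset_card _ hfinJ]
    exact_mod_cast Set.ncard_le_ncard_of_injOn Subtype.val (fun α hα => hα)
      Subtype.val_injective.injOn hfin
  have hz : ∀ y, InB t δ y → ∀ α ∉ hfinJ.toFinset, f (em (α : 𝓞 E) + y) = 0 := by
    intro y hy α hα
    by_contra hne
    apply hα
    rw [Set.Finite.mem_toFinset]
    intro w
    have h1 := hC _ hne w
    have h2 := hy w
    have h3 : normAtPlace w (em (α : 𝓞 E)) ≤
        normAtPlace w (em (α : 𝓞 E) + y) + normAtPlace w y := by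
      have := normAtPlace_add_le w (em (α : 𝓞 E) + y) (-y)
      rwa [add_neg_cancel_right, normAtPlace_neg] at this
    have h4 := mul_le_mul_of_nonneg_left h3 (ht w).le
    linarith
  have hz0 : ∀ α ∉ hfinJ.toFinset, f (em (α : 𝓞 E)) = 0 := by
    intro α hα
    have := hz 0 (fun w => by simpa using hδ) α hα
    rwa [add_zero] at this
  have hfs : ∑ᶠ α : J, f (em (α : 𝓞 E)) = ∑ α ∈ hfinJ.toFinset, f (em (α : 𝓞 E)) := by
    refine finsum_eq_sum_of_support_subset _ fun α hα => ?_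
    by_contra hn
    exact hα (hz0 α hn)
  refine avg_NaRiem b f hint R (fun x hx => hR x (hC x hx)) h0 _ _ fun x => ?_
  obtain ⟨β, hβ, hy⟩ := hcov x
  have h1 : ∑' g : Submodule.span ℤ (Set.range b), f ((g : mixedSpace E) + x) =
      ∑' α : J, f (em (α : 𝓞 E) + (x - em β)) := by
    rw [← e.tsum_eq, ← (Equiv.subRight (⟨β, hβ⟩ : J)).tsum_eq]
    refine tsum_congr fun α => ?_
    rw [he]
    have h2 : em ((α : 𝓞 E) - β) + em β = em (α : 𝓞 E) := by
      rw [← em_add_NaRiem, sub_add_cancel]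
    have h3 : (((Equiv.subRight (⟨β, hβ⟩ : J)) α : J) : 𝓞 E) = (α : 𝓞 E) - β := rfl
    rw [h3, ← h2]
    congr 1
    rw [h2, ← h2]
    abel
  rw [h1, tsum_eq_sum (hz _ hy), hfs, ← Finset.sum_sub_distrib]
  refine (norm_sum_le _ _).trans ?_
  have h4 : ∀ α ∈ hfinJ.toFinset,
      ‖f (em (α : 𝓞 E) + (x - em β)) - f (em (α : 𝓞 E))‖ ≤ Λ * δ := by
    intro α _
    refine hf _ _ δ ?_
    rwa [add_sub_cancel_left]
  refine (Finset.sum_le_card_nsmul _ _ _ h4).trans ?_
  rw [nsmul_eq_mul, mul_comm]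
  exact mul_le_mul_of_nonneg_left hcard (mul_nonneg hΛ hδ)

end Pool.Agent.MP_f68ac8_nt.Nd
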