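import Mathlib
import Pool.Agent.MP_f68ac8_nt.NaAux

namespace Pool.Agent.MP_f68ac8_nt.Nd

open NumberField NumberField.InfinitePlace NumberField.mixedEmbedding NumberField.Units
  NumberField.Units.dirichletUnitTheorem MeasureTheory
open MP_14ad9d_nt.Full MP_14ad9d_nt.Full.EDAux MP_d64882_nt
open scoped Classical

theorem scale_stmt (hT : TestStmt) (hI : IntStmt) : ScaleStmt := by
  intro E _ _ Φ Λ c v hΦ h1
  obtain ⟨C, -, hC⟩ := hT (dE E)
  obtain ⟨t0, -, -, h⟩ := hC E le_rfl c v
  have hΦ' : Ts (fun u => Φ (u - 1)) Λ := ⟨fun u w => by simpa using hΦ.1 (u - 1) (w - 1),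
    fun u hu => h1 _ (by linarith [abs_sub_abs_le_abs_sub u 1, abs_one (α := ℝ)])⟩
  have e1 : fv (dP Φ) c v = fun x => fv (fun u => Φ (u - 1)) c v x -
      (Real.exp 1 : ℝ) * fv Φ c v x := by
    funext x
    unfold fv dP
    split_ifs
    · simp
    · ring
  have ha : Real.exp (1 / dE E) ^ dE E = Real.exp 1 := by
    rw [← Real.exp_nat_mul, mul_one_div_cancel (Nat.cast_ne_zero.2 Module.finrank_pos.ne')]
  have e2 : fv Φ c v = fun x => fv (fun u => Φ (u - 1)) c v (Real.exp (1 / dE E) • x) := by
    funext x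
    unfold fv
    rw [mixedEmbedding.norm_smul, abs_of_pos (Real.exp_pos _), ha]
    by_cases hx : mixedEmbedding.norm x = 0
    · simp [hx]
    · rw [if_neg hx, if_neg (mul_ne_zero (Real.exp_ne_zero 1) hx),
        logMap_real_smul hx (Real.exp_ne_zero _), Real.log_mul (Real.exp_ne_zero 1) hx,
        Real.log_exp]
      congr 2
      ring
  rw [e1, integral_sub (hI E _ _ _ _ t0 (h _ _ hΦ').1 (h _ _ hΦ').2)
    ((hI E _ _ _ _ t0 (h _ _ hΦ).1 (h _ _ hΦ).2).const_mul _), integral_const_mul, e2,
    Measure.integral_comp_smul, mixedEmbedding.finrank, ha, abs_of_pos (by positivity),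
    Complex.real_smul, ← mul_assoc, ← Complex.ofReal_mul, mul_inv_cancel₀ (Real.exp_ne_zero 1),
    Complex.ofReal_one, one_mul, sub_self]

theorem cont_NaScale : Continuous tent := by
  unfold tent
  fun_prop

theorem int_NaScale : ∫ u, tent u = 1 := by
  have h1 : ∫ u in (-1 : ℝ)..0, tent u = ∫ u in (-1 : ℝ)..0, (1 + u) :=
    intervalIntegral.integral_congr fun u hu => by
      rw [Set.uIcc_of_le (by norm_num)] at hu
      rw [tent, abs_of_nonpos hu.2, sub_neg_eq_add, max_eq_right (by linarith [hu.1])]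
  have h2 : ∫ u in (0 : ℝ)..1, tent u = ∫ u in (0 : ℝ)..1, (1 - u) :=
    intervalIntegral.integral_congr fun u hu => by
      rw [Set.uIcc_of_le (by norm_num)] at hu
      rw [tent, abs_of_nonneg hu.1, max_eq_right (by linarith [hu.2])]
  rw [← intervalIntegral.integral_eq_integral_of_support_subset (a := -1) (b := 1) fun u hu => by
      have := abs_lt.1 (not_le.1 fun h => hu (EDAux.tent_eq_zero h))
      exact ⟨this.1, this.2.le⟩,
    ← intervalIntegral.integral_add_adjacent_intervals (b := 0)
      (cont_NaScale.intervalIntegrable _ _) (cont_NaScale.intervalIntegrable _ _), h1, h2,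
    intervalIntegral.integral_add (by simp) (by simp),
    intervalIntegral.integral_sub (by simp) (by simp)]
  norm_num

theorem psi_stmt : PsiStmt := by
  intro E _ _
  have hb : Bornology.IsBounded (FD E) := ZSpan.fundamentalDomain_isBounded _
  have hm : MeasurableSet (FD E) := ZSpan.fundamentalDomain_measurableSet _
  refine ⟨hm, hb.measure_lt_top, fun y => ?_⟩
  have hn : ∀ z : logSpace E, psi z ≠ 0 → ‖z‖ ≤ 1 := fun z hz =>
    (pi_norm_le_iff_of_nonneg zero_le_one).2 fun w => le_of_not_ge fun h =>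
      Finset.prod_ne_zero_iff.1 hz w (Finset.mem_univ w) (EDAux.tent_eq_zero h)
  have hf : ∀ r : ℝ, {l : unitLattice E | ‖(l : logSpace E)‖ ≤ r}.Finite := fun r =>
    ((unitLattice_inter_ball_finite E r).preimage Subtype.val_injective.injOn).subset
      fun l hl => ⟨l.2, mem_closedBall_zero_iff.2 hl⟩
  have hs : ∀ (R : ℝ) (v : logSpace E), ‖v‖ ≤ R → ∀ l : unitLattice E,
      psi (v + (l : logSpace E) + y) ≠ 0 → ‖(l : logSpace E)‖ ≤ 1 + R + ‖y‖ := by
    intro R v hv l hl
    have h1 := norm_sub_le (v + l + y - v) y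
    have h2 := norm_sub_le (v + l + y) v
    rw [show v + l + y - v - y = l by abel] at h1
    linarith [hn _ hl]
  have hc : Continuous (psi : logSpace E → ℝ) :=
    continuous_finsetProd _ fun w _ => cont_NaScale.comp (continuous_apply w)
  have hi : Integrable (psi : logSpace E → ℝ) := hc.integrable_of_hasCompactSupport
    (HasCompactSupport.intro (isCompact_closedBall 0 1) fun z hz =>
      by_contra fun h => hz (mem_closedBall_zero_iff.2 (hn z h)))
  obtain ⟨R, hR⟩ := isBounded_iff_forall_norm_le.1 hb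
  obtain ⟨T, hT⟩ : ∃ T : Finset (unitLattice E), ∀ v ∈ FD E, ∀ l : unitLattice E,
      psi (v + (l : logSpace E) + y) ≠ 0 → l ∈ T :=
    ⟨(hf _).toFinset, fun v hv l hl => (hf _).mem_toFinset.2 (hs R v (hR v hv) l hl)⟩
  have e : ∀ v ∈ FD E, ∑ l ∈ T, psi (v + (l : logSpace E) + y) =
      ∑ᶠ l : unitLattice E, psi (v + (l : logSpace E) + y) := fun v hv =>
    (finsum_eq_sum_of_support_subset _ fun l hl => hT v hv l hl).symm
  have hl : ∀ l : unitLattice E, IntegrableOn (fun v => psi (v + (l : logSpace E) + y)) (FD E) :=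
    fun l => ((hi.comp_add_right y).comp_add_right (l : logSpace E)).integrableOn
  refine ⟨fun v => (hf _).subset fun l hl => hs _ v le_rfl l hl,
    (integrable_finsetSum _ fun l _ => hl l).congr ((ae_restrict_mem hm).mono e), ?_⟩
  have : VAddInvariantMeasure (unitLattice E) (logSpace E) volume :=
    inferInstanceAs (VAddInvariantMeasure (unitLattice E).toAddSubgroup (logSpace E) volume)
  have : MeasurableConstVAdd (unitLattice E) (logSpace E) :=
    inferInstanceAs (MeasurableConstVAdd (unitLattice E).toAddSubgroup (logSpace E))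
  have h1 := (ZLattice.isAddFundamentalDomain (basisUnitLattice E) volume).integral_eq_tsum''
    _ (hi.comp_add_right y)
  have h2 : ∫ v : logSpace E, psi v = 1 := by
    unfold psi
    rw [integral_fintype_prod_volume_eq_prod (fun _ => tent), int_NaScale, Finset.prod_const_one]
  rw [integral_add_right_eq_self, h2] at h1
  rw [← setIntegral_congr_fun hm e, integral_finsetSum _ fun l _ => hl l, h1,
    tsum_eq_sum (s := T) fun l hl' => ?_]
  · exact Finset.sum_congr rfl fun l _ => setIntegral_congr_fun hm fun v _ => by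
      rw [add_comm v]
      rfl
  · exact setIntegral_eq_zero_of_forall_eq_zero fun v hv => by_contra fun h =>
      hl' (hT v hv l (by rwa [add_comm v]))

end Pool.Agent.MP_f68ac8_nt.Nd
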