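import Mathlib
import Pool.Agent.MP_f68ac8_nt.NaAux

namespace Pool.Agent.MP_f68ac8_nt.Nd

open NumberField NumberField.InfinitePlace NumberField.mixedEmbedding NumberField.Units
  NumberField.Units.dirichletUnitTheorem MeasureTheory
open MP_14ad9d_nt.Full MP_14ad9d_nt.Full.EDAux MP_d64882_nt
open scoped Classical

theorem prod_lip_NaTest {ι : Type*} (s : Finset ι) (a b : ι → ℝ) :
    |∏ i ∈ s, tent (a i) - ∏ i ∈ s, tent (b i)| ≤ ∑ i ∈ s, |a i - b i| := by
  induction s using Finset.induction_on with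
  | empty => simp
  | insert i s hi ih =>
    rw [Finset.prod_insert hi, Finset.prod_insert hi, Finset.sum_insert hi]
    have h0 : 0 ≤ ∏ j ∈ s, tent (b j) := Finset.prod_nonneg fun j _ => tent_nonneg _
    have h1 : ∏ j ∈ s, tent (b j) ≤ 1 :=
      Finset.prod_le_one (fun j _ => tent_nonneg _) fun j _ => tent_le_one _
    have e : tent (a i) * ∏ j ∈ s, tent (a j) - tent (b i) * ∏ j ∈ s, tent (b j) =
        tent (a i) * (∏ j ∈ s, tent (a j) - ∏ j ∈ s, tent (b j)) +
          (tent (a i) - tent (b i)) * ∏ j ∈ s, tent (b j) := by ring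
    rw [e]
    refine (abs_add_le _ _).trans ?_
    rw [abs_mul, abs_mul, abs_of_nonneg (tent_nonneg _), abs_of_nonneg h0]
    have h2 := mul_le_mul (tent_le_one (a i)) ih (abs_nonneg _) zero_le_one
    have h3 := mul_le_mul (tent_lip (a i) (b i)) h1 h0 (abs_nonneg _)
    linarith

theorem log_lip_NaTest {e a b : ℝ} (he : 0 < e) (ha : e ≤ a) (hb : e ≤ b) :
    Real.log a - Real.log b ≤ e⁻¹ * |a - b| := by
  have ha0 : 0 < a := he.trans_le ha
  have hb0 : 0 < b := he.trans_le hb
  rw [← Real.log_div ha0.ne' hb0.ne']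
  refine (Real.log_le_sub_one_of_pos (div_pos ha0 hb0)).trans ?_
  have h1 : a / b - 1 = b⁻¹ * (a - b) := by field_simp
  rw [h1]
  calc b⁻¹ * (a - b) ≤ b⁻¹ * |a - b| :=
        mul_le_mul_of_nonneg_left (le_abs_self _) (inv_nonneg.2 hb0.le)
    _ ≤ e⁻¹ * |a - b| := mul_le_mul_of_nonneg_right (inv_anti₀ he hb) (abs_nonneg _)

theorem clamp_lip_NaTest (K a b : ℝ) :
    |Real.log (max a (Real.exp (-K))) - Real.log (max b (Real.exp (-K)))| ≤
      Real.exp K * |a - b| := by
  have he := Real.exp_pos (-K)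
  have h1 := log_lip_NaTest he (le_max_right a _) (le_max_right b _)
  have h2 := log_lip_NaTest he (le_max_right b _) (le_max_right a _)
  rw [abs_sub_comm] at h2
  rw [← Real.exp_neg, neg_neg] at h1 h2
  have h3 := mul_le_mul_of_nonneg_left (abs_max_sub_max_le_abs a b (Real.exp (-K)))
    (Real.exp_pos K).le
  rw [abs_le]
  constructor <;> linarith

theorem ts_nonneg_NaTest {Φ : ℝ → ℂ} {Λ : ℝ} (h : Ts Φ Λ) : 0 ≤ Λ := by
  have := h.1 1 0
  rw [sub_zero, abs_one, mul_one] at this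
  exact (norm_nonneg _).trans this

theorem ts_bound_NaTest {Φ : ℝ → ℂ} {Λ : ℝ} (h : Ts Φ Λ) (u : ℝ) : ‖Φ u‖ ≤ 4 * Λ := by
  have h0 := ts_nonneg_NaTest h
  by_cases hu : 2 ≤ |u|
  · rw [h.2 u hu, norm_zero]; linarith
  · have h1 := h.1 u 2
    rw [h.2 2 (by norm_num), sub_zero] at h1
    have h2 : |u - 2| ≤ 4 := by
      have := abs_lt.1 (not_le.1 hu)
      rw [abs_le]; constructor <;> linarith
    nlinarith

section
variable {E : Type} [Field E] [NumberField E]

/-- the weighted sum of logarithmic coordinates -/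
noncomputable def L_NaTest (u : InfinitePlace E → ℝ) : ℝ := ∑ w, (mult w : ℝ) * u w

/-- the test function in logarithmic coordinates -/
noncomputable def G_NaTest (Φ : ℝ → ℂ) (u : InfinitePlace E → ℝ) : ℂ :=
  Φ (L_NaTest u) * (psi (fun w => mult w.1 * (u w.1 - L_NaTest u / dE E)) : ℝ)

theorem summ_NaTest : ∑ w : InfinitePlace E, (mult w : ℝ) = dE E := by
  rw [← Nat.cast_sum, sum_mult_eq]

theorem d_pos_NaTest : (1 : ℝ) ≤ dE E := by
  exact_mod_cast Module.finrank_pos (R := ℚ) (M := E)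

theorem m_pos_NaTest (w : InfinitePlace E) : (1 : ℝ) ≤ mult w := one_le_mult

theorem summ_ne_NaTest : ∑ w : {w : InfinitePlace E // w ≠ w₀}, (mult w.1 : ℝ) ≤ dE E := by
  rw [← summ_NaTest, Fintype.sum_eq_add_sum_subtype_ne _ w₀]
  have := m_pos_NaTest (w₀ : InfinitePlace E)
  linarith

theorem G_supp_NaTest {Φ : ℝ → ℂ} {Λ : ℝ} (h : Ts Φ Λ) {u : InfinitePlace E → ℝ}
    (hG : G_NaTest Φ u ≠ 0) (w : InfinitePlace E) : |u w| < 3 + 3 * dE E := by
  have hd := d_pos_NaTest (E := E)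
  have h1 : |L_NaTest u| < 2 := by
    by_contra hh
    exact hG (by rw [G_NaTest, h.2 _ (not_lt.1 hh), zero_mul])
  have h2 : |L_NaTest u / dE E| < 2 := by
    rw [abs_div, abs_of_pos (by linarith : (0 : ℝ) < dE E), div_lt_iff₀ (by linarith)]
    linarith
  have h3 : ∀ w : {w : InfinitePlace E // w ≠ w₀}, |u w.1| < 3 := by
    intro w
    have h4 : |mult w.1 * (u w.1 - L_NaTest u / dE E)| < 1 := by
      by_contra hh
      refine hG ?_
      rw [G_NaTest, psi, Finset.prod_eq_zero (Finset.mem_univ w) (tent_eq_zero (not_lt.1 hh))]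
      simp
    have h5 := m_pos_NaTest w.1
    rw [abs_mul, abs_of_pos (by linarith : (0 : ℝ) < mult w.1)] at h4
    have h6 : |u w.1 - L_NaTest u / dE E| < 1 := by
      nlinarith [abs_nonneg (u w.1 - L_NaTest u / dE E)]
    have h7 := abs_lt.1 h2
    have h8 := abs_lt.1 h6
    rw [abs_lt]
    constructor <;> linarith
  by_cases hw : w = w₀
  · subst hw
    have h4 : L_NaTest u = mult (w₀ : InfinitePlace E) * u w₀ +
        ∑ w : {w : InfinitePlace E // w ≠ w₀}, (mult w.1 : ℝ) * u w.1 :=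
      Fintype.sum_eq_add_sum_subtype_ne _ w₀
    have h5 : |∑ w : {w : InfinitePlace E // w ≠ w₀}, (mult w.1 : ℝ) * u w.1| ≤ 3 * dE E := by
      refine (Finset.abs_sum_le_sum_abs _ _).trans ?_
      refine le_trans ?_ (mul_le_mul_of_nonneg_left summ_ne_NaTest (by norm_num : (0 : ℝ) ≤ 3))
      rw [Finset.mul_sum]
      refine Finset.sum_le_sum fun w _ => ?_
      have h6 := m_pos_NaTest w.1
      rw [abs_mul, abs_of_pos (by linarith : (0 : ℝ) < mult w.1)]
      nlinarith [h3 w]
    have h6 := m_pos_NaTest (w₀ : InfinitePlace E)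
    have h7 : |(mult (w₀ : InfinitePlace E) : ℝ) * u w₀| < 2 + 3 * dE E := by
      have h8 := abs_lt.1 h1
      have h9 := abs_le.1 h5
      rw [abs_lt]
      constructor <;> linarith
    rw [abs_mul, abs_of_pos (by linarith : (0 : ℝ) < mult (w₀ : InfinitePlace E))] at h7
    nlinarith [abs_nonneg (u w₀)]
  · have := h3 ⟨w, hw⟩
    linarith

theorem G_lip_NaTest {Φ : ℝ → ℂ} {Λ δ : ℝ} (h : Ts Φ Λ) {u u' : InfinitePlace E → ℝ}
    (hδ : 0 ≤ δ) (hu : ∀ w, |u w - u' w| ≤ δ) :
    ‖G_NaTest Φ u - G_NaTest Φ u'‖ ≤ 9 * dE E * Λ * δ := by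
  have hd := d_pos_NaTest (E := E)
  have hΛ := ts_nonneg_NaTest h
  have h1 : |L_NaTest u - L_NaTest u'| ≤ dE E * δ := by
    rw [L_NaTest, L_NaTest, ← Finset.sum_sub_distrib, ← summ_NaTest, Finset.sum_mul]
    refine (Finset.abs_sum_le_sum_abs _ _).trans (Finset.sum_le_sum fun w _ => ?_)
    have h2 := m_pos_NaTest w
    rw [← mul_sub, abs_mul, abs_of_pos (by linarith : (0 : ℝ) < mult w)]
    exact mul_le_mul_of_nonneg_left (hu w) (by linarith)
  have h2 : |L_NaTest u / dE E - L_NaTest u' / dE E| ≤ δ := by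
    rw [← sub_div, abs_div, abs_of_pos (by linarith : (0 : ℝ) < dE E), div_le_iff₀ (by linarith)]
    linarith
  set p := psi (fun w : {w : InfinitePlace E // w ≠ w₀} =>
    mult w.1 * (u w.1 - L_NaTest u / dE E)) with hp
  set p' := psi (fun w : {w : InfinitePlace E // w ≠ w₀} =>
    mult w.1 * (u' w.1 - L_NaTest u' / dE E)) with hp'
  have h3 : |p - p'| ≤ 2 * δ * dE E := by
    refine (prod_lip_NaTest _ _ _).trans ?_
    refine le_trans ?_ (mul_le_mul_of_nonneg_left summ_ne_NaTest (by linarith : 0 ≤ 2 * δ))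
    rw [Finset.mul_sum]
    refine Finset.sum_le_sum fun w _ => ?_
    have h4 := m_pos_NaTest w.1
    rw [← mul_sub, abs_mul, abs_of_pos (by linarith : (0 : ℝ) < mult w.1), mul_comm]
    refine mul_le_mul_of_nonneg_right ?_ (by linarith)
    have h5 := abs_le.1 (hu w.1)
    have h6 := abs_le.1 h2
    rw [abs_le]
    constructor <;> linarith
  have h4 : 0 ≤ p := Finset.prod_nonneg fun j _ => tent_nonneg _
  have h5 : p ≤ 1 := Finset.prod_le_one (fun j _ => tent_nonneg _) fun j _ => tent_le_one _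
  have e : G_NaTest Φ u - G_NaTest Φ u' =
      (Φ (L_NaTest u) - Φ (L_NaTest u')) * (p : ℝ) + Φ (L_NaTest u') * ((p - p' : ℝ) : ℂ) := by
    rw [G_NaTest, G_NaTest, ← hp, ← hp']
    push_cast
    ring
  rw [e]
  refine (norm_add_le _ _).trans ?_
  rw [norm_mul, norm_mul, Complex.norm_real, Complex.norm_real, Real.norm_eq_abs,
    Real.norm_eq_abs, abs_of_nonneg h4]
  have h6 := (h.1 (L_NaTest u) (L_NaTest u')).trans (mul_le_mul_of_nonneg_left h1 hΛ)
  have h7 := mul_le_mul h6 h5 h4 (by positivity)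
  have h8 := mul_le_mul (ts_bound_NaTest h (L_NaTest u')) h3 (abs_nonneg _) (by linarith)
  linarith

theorem tv_pos_NaTest (c : ℝ) (v : logSpace E) (w : InfinitePlace E) : 0 < tv c v w :=
  Real.exp_pos _

theorem L_tv_NaTest (c : ℝ) (v : logSpace E) :
    L_NaTest (fun w => Real.log (tv c v w)) = -c := by
  have hd := d_pos_NaTest (E := E)
  have h1 : ∀ w : InfinitePlace E, (mult w : ℝ) * Real.log (tv c v w) =
      (if h : w = w₀ then -∑ u, v u else v ⟨w, h⟩) - mult w * (c / dE E) := by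
    intro w
    have h2 := m_pos_NaTest w
    rw [tv, Real.log_exp]
    field_simp
  rw [L_NaTest, Finset.sum_congr rfl fun w _ => h1 w, Finset.sum_sub_distrib, ← Finset.sum_mul,
    summ_NaTest, Fintype.sum_eq_add_sum_subtype_ne _ w₀, dif_pos rfl,
    Finset.sum_congr rfl fun (w : {w : InfinitePlace E // w ≠ w₀}) _ => dif_neg w.2]
  field_simp
  simp

theorem log_prod_NaTest {t : InfinitePlace E → ℝ} (ht : ∀ w, t w ≠ 0) :
    Real.log (∏ w, t w ^ mult w) = L_NaTest fun w => Real.log (t w) := by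
  rw [Real.log_prod fun w _ => pow_ne_zero _ (ht w)]
  exact Finset.sum_congr rfl fun w _ => Real.log_pow _ _

theorem nt_tv_NaTest (c : ℝ) (v : logSpace E) : nt (tv c v) = Real.exp (-c) := by
  have h : 0 < nt (tv c v) := Finset.prod_pos fun w _ => pow_pos (tv_pos_NaTest c v w) _
  rw [← Real.exp_log h, nt, log_prod_NaTest fun w => (tv_pos_NaTest c v w).ne', L_tv_NaTest]

theorem fv_eq_NaTest (Φ : ℝ → ℂ) (c : ℝ) (v : logSpace E) {x : mixedSpace E}
    (hx : ∀ w, normAtPlace w x ≠ 0) :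
    fv Φ c v x = G_NaTest Φ fun w => Real.log (tv c v w * normAtPlace w x) := by
  have hd := d_pos_NaTest (E := E)
  have h1 : L_NaTest (fun w => Real.log (tv c v w * normAtPlace w x)) =
      Real.log (mixedEmbedding.norm x) - c := by
    rw [mixedEmbedding.norm_apply, log_prod_NaTest hx, sub_eq_neg_add, ← L_tv_NaTest c v,
      L_NaTest, L_NaTest, L_NaTest, ← Finset.sum_add_distrib]
    refine Finset.sum_congr rfl fun w _ => ?_
    rw [Real.log_mul (tv_pos_NaTest c v w).ne' (hx w), mul_add]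
  rw [fv, if_neg (mixedEmbedding.norm_ne_zero_iff.2 hx), G_NaTest, h1]
  have h2 : v + logMap x = fun w : {w : InfinitePlace E // w ≠ w₀} =>
      mult w.1 * (Real.log (tv c v w.1 * normAtPlace w.1 x) -
        (Real.log (mixedEmbedding.norm x) - c) / dE E) := by
    funext w
    have h3 := m_pos_NaTest w.1
    rw [Pi.add_apply, logMap_apply, Real.log_mul (tv_pos_NaTest c v w.1).ne' (hx w.1), tv,
      Real.log_exp, dif_neg w.2]
    field_simp
    ring
  rw [h2]

theorem fv_clamp_NaTest {Φ : ℝ → ℂ} {Λ K : ℝ} (h : Ts Φ Λ) (hK : 3 + 3 * (dE E : ℝ) ≤ K)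
    (c : ℝ) (v : logSpace E) (x : mixedSpace E) :
    fv Φ c v x =
      G_NaTest Φ fun w => Real.log (max (tv c v w * normAtPlace w x) (Real.exp (-K))) := by
  by_cases hy : ∀ w, Real.exp (-K) < tv c v w * normAtPlace w x
  · rw [fv_eq_NaTest Φ c v fun w hw => by
      have := hy w
      rw [hw, mul_zero] at this
      exact absurd this (Real.exp_pos _).not_gt]
    congr 1
    funext w
    rw [max_eq_left (hy w).le]
  · push Not at hy
    obtain ⟨w, hw⟩ := hy
    have hd := d_pos_NaTest (E := E)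
    have h1 : (G_NaTest Φ fun w => Real.log (max (tv c v w * normAtPlace w x)
        (Real.exp (-K)))) = 0 := by
      by_contra hne
      have := G_supp_NaTest h hne w
      rw [max_eq_right hw, Real.log_exp, abs_neg, abs_of_pos (by linarith)] at this
      linarith
    rw [h1]
    by_cases hx : ∀ w, normAtPlace w x ≠ 0
    · rw [fv_eq_NaTest Φ c v hx]
      by_contra hne
      have h2 := abs_lt.1 (G_supp_NaTest h hne w)
      have h3 : 0 < tv c v w * normAtPlace w x :=
        mul_pos (tv_pos_NaTest c v w) ((normAtPlace_nonneg w x).lt_of_ne' (hx w))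
      have h4 := Real.log_le_log h3 hw
      rw [Real.log_exp] at h4
      linarith [h2.1]
    · rw [fv, if_pos]
      by_contra hne
      exact hx (mixedEmbedding.norm_ne_zero_iff.1 hne)

theorem nap_sub_NaTest (w : InfinitePlace E) (x y : mixedSpace E) :
    |normAtPlace w x - normAtPlace w y| ≤ normAtPlace w (x - y) := by
  have h1 := normAtPlace_add_le w (x - y) y
  have h2 := normAtPlace_add_le w (-(x - y)) x
  rw [sub_add_cancel] at h1
  rw [normAtPlace_neg, neg_sub, sub_add_cancel] at h2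
  rw [abs_le]
  constructor <;> linarith

end

theorem test_stmt : TestStmt := by
  intro N
  have hN : (0 : ℝ) ≤ N := Nat.cast_nonneg N
  have hK : 1 ≤ Real.exp (3 + 3 * N) := Real.one_le_exp (by linarith)
  refine ⟨Real.exp (3 + 3 * N) * (1 + 9 * N), by nlinarith, fun E _ _ hE c v =>
    ⟨tv_pos_NaTest c v, nt_tv_NaTest c v, ?_, fun Φ Λ h => ⟨fun x y R hR => ?_, fun x hx w => ?_⟩⟩⟩
  · have h1 : ∀ w, normAtPlace w (mixedSpaceOfRealSpace fun w => (tv c v w)⁻¹) = (tv c v w)⁻¹ :=
      fun w => normAtPlace_mixedSpaceOfRealSpace (inv_nonneg.2 (tv_pos_NaTest c v w).le)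
    refine ⟨mixedSpaceOfRealSpace fun w => (tv c v w)⁻¹, ?_⟩
    rw [fv_eq_NaTest _ c v fun w => by rw [h1]; exact inv_ne_zero (tv_pos_NaTest c v w).ne']
    have h2 : (fun w => Real.log (tv c v w *
        normAtPlace w (mixedSpaceOfRealSpace fun w => (tv c v w)⁻¹))) = fun _ => 0 := by
      funext w
      rw [h1, mul_inv_cancel₀ (tv_pos_NaTest c v w).ne', Real.log_one]
    rw [h2]
    simp [G_NaTest, L_NaTest, psi, tent]
  · have hd : (dE E : ℝ) ≤ N := by exact_mod_cast hE
    have hΛ := ts_nonneg_NaTest h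
    have hR0 : 0 ≤ R :=
      (mul_nonneg (tv_pos_NaTest c v w₀).le (normAtPlace_nonneg _ _)).trans (hR w₀)
    rw [fv_clamp_NaTest h (K := 3 + 3 * N) (by linarith),
      fv_clamp_NaTest h (K := 3 + 3 * N) (by linarith)]
    refine (G_lip_NaTest h (δ := Real.exp (3 + 3 * N) * R) (by positivity) fun w => ?_).trans ?_
    · refine (clamp_lip_NaTest _ _ _).trans (mul_le_mul_of_nonneg_left ?_ (Real.exp_pos _).le)
      rw [← mul_sub, abs_mul, abs_of_pos (tv_pos_NaTest c v w)]
      exact (mul_le_mul_of_nonneg_left (nap_sub_NaTest w x y) (tv_pos_NaTest c v w).le).trans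
        (hR w)
    · have h1 : 0 ≤ Real.exp (3 + 3 * N) * Λ * R := by positivity
      nlinarith
  · have hd : (dE E : ℝ) ≤ N := by exact_mod_cast hE
    rw [fv_clamp_NaTest h (K := 3 + 3 * N) (by linarith)] at hx
    have h1 := (abs_lt.1 (G_supp_NaTest h hx w)).2
    have h2 : 0 < max (tv c v w * normAtPlace w x) (Real.exp (-(3 + 3 * N))) :=
      lt_max_of_lt_right (Real.exp_pos _)
    have h3 := (Real.log_lt_iff_lt_exp h2).1 h1
    have h4 : Real.exp (3 + 3 * dE E) ≤ Real.exp (3 + 3 * N) := Real.exp_le_exp.2 (by linarith)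
    have h5 := le_max_left (tv c v w * normAtPlace w x) (Real.exp (-(3 + 3 * N)))
    nlinarith

end Pool.Agent.MP_f68ac8_nt.Nd
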