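import Mathlib
import Pool.Agent.MP_f68ac8_nt.NaAux
namespace Pool.Agent.MP_f68ac8_nt.Nd
open NumberField NumberField.InfinitePlace NumberField.mixedEmbedding NumberField.Units
  NumberField.Units.dirichletUnitTheorem MeasureTheory
open MP_14ad9d_nt.Full MP_14ad9d_nt.Full.EDAux MP_d64882_nt
open scoped Classical

section
variable {E : Type} [Field E] [NumberField E]

theorem norm_em_NaUnf (α : 𝓞 E) :
    mixedEmbedding.norm (em α) = (Ideal.absNorm (Ideal.span {α}) : ℝ) := by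
  unfold em
  rw [norm_eq_norm, Ideal.absNorm_span_singleton, ← Algebra.coe_norm_int, ← Int.cast_abs,
    Rat.cast_intCast, Nat.cast_natAbs]

theorem em_unit_NaUnf (u : (𝓞 E)ˣ) (g : 𝓞 E) : em ((u : 𝓞 E) * g) = u • em g :=
  (unit_smul_eq_iff_mul_eq.mpr rfl).symm

theorem sec_NaUnf (E : Type) [Field E] [NumberField E] :
    ∃ s : unitLattice E → (𝓞 E)ˣ, ∀ l, logEmbedding E (Additive.ofMul (s l)) = l := by
  have h : ∀ l : unitLattice E, ∃ u : (𝓞 E)ˣ, logEmbedding E (Additive.ofMul u) = l := by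
    rintro ⟨_, u, -, rfl⟩
    exact ⟨Additive.toMul u, rfl⟩
  choose s hs using h
  exact ⟨s, hs⟩

theorem logE_mul_NaUnf (u v : (𝓞 E)ˣ) : logEmbedding E (Additive.ofMul (u * v)) =
    logEmbedding E (Additive.ofMul u) + logEmbedding E (Additive.ofMul v) := by
  rw [ofMul_mul, map_add]

theorem fv_val_NaUnf {I J : Ideal (𝓞 E)} (hI : I ≠ ⊥) (hJ : J ≠ ⊥) {α : 𝓞 E}
    (h : Ideal.span {α} = I * J) (Φ : ℝ → ℂ) (k : ℝ) (v : logSpace E) :
    mixedEmbedding.norm (em α) ≠ 0 ∧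
    fv Φ (Real.log (Ideal.absNorm J) + k) v (em α) =
      Φ (Real.log (Ideal.absNorm I) - k) * (psi (v + logMap (em α)) : ℝ) := by
  have h1 : (Ideal.absNorm I : ℝ) ≠ 0 := by
    exact_mod_cast fun h0 => hI (Ideal.absNorm_eq_zero_iff.mp h0)
  have h2 : (Ideal.absNorm J : ℝ) ≠ 0 := by
    exact_mod_cast fun h0 => hJ (Ideal.absNorm_eq_zero_iff.mp h0)
  have h3 : mixedEmbedding.norm (em α) = (Ideal.absNorm I : ℝ) * Ideal.absNorm J := by
    rw [norm_em_NaUnf, h, map_mul, Nat.cast_mul]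
  have h4 : mixedEmbedding.norm (em α) ≠ 0 := by
    rw [h3]
    exact mul_ne_zero h1 h2
  refine ⟨h4, ?_⟩
  unfold fv
  rw [if_neg h4, h3, Real.log_mul h1 h2]
  congr 2
  ring

theorem gs_NaUnf (J : Ideal (𝓞 E)) (hJ : J ≠ ⊥) (Φ : ℝ → ℂ) (k : ℝ)
    (T : Finset (Ideal (𝓞 E)))
    (hT : ∀ I, I ∈ T ↔ I ≠ ⊥ ∧ (I * J).IsPrincipal ∧ Φ (Real.log (Ideal.absNorm I) - k) ≠ 0)
    (g : T → 𝓞 E) (hg : ∀ I : T, Ideal.span {g I} = I.1 * J) (v : logSpace E)
    (hfin : ∀ y : logSpace E,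
      {l : unitLattice E | psi (v + (l : logSpace E) + y) ≠ 0}.Finite) :
    Gs J Φ (Real.log (Ideal.absNorm J) + k) v =
      ∑ I : T, (torsionOrder E : ℂ) * Φ (Real.log (Ideal.absNorm I.1) - k) *
        ((∑ᶠ l : unitLattice E, psi (v + (l : logSpace E) + logMap (em (g I))) : ℝ) : ℂ) := by
  obtain ⟨s, hs⟩ := sec_NaUnf E
  let _ : Fintype (torsion E) := Fintype.ofFinite _
  have hsp : ∀ (I : T) (u : (𝓞 E)ˣ), Ideal.span {(u : 𝓞 E) * g I} = I.1 * J := fun I u => by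
    rw [Ideal.span_singleton_mul_left_unit u.isUnit, hg]
  have hmem : ∀ (I : T) (u : (𝓞 E)ˣ), (u : 𝓞 E) * g I ∈ J := fun I u => by
    have h1 : (u : 𝓞 E) * g I ∈ I.1 * J := by
      rw [← hsp I u]
      exact Ideal.mem_span_singleton_self _
    exact Ideal.mul_le_right h1
  have hg0 : ∀ I : T, g I ≠ 0 := fun I h0 => by
    have h1 := hg I
    rw [h0, Ideal.span_singleton_zero] at h1
    exact mul_ne_zero ((hT I.1).mp I.2).1 hJ h1.symm
  have hlog : ∀ (ζ : torsion E) (l : unitLattice E),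
      logEmbedding E (Additive.ofMul ((ζ : (𝓞 E)ˣ) * s l)) = l := fun ζ l => by
    rw [logE_mul_NaUnf, logEmbedding_eq_zero_iff.mpr ζ.2, zero_add, hs]
  let ι : (T × torsion E) × unitLattice E → J := fun x =>
    ⟨(((x.1.2 : (𝓞 E)ˣ) * s x.2 : (𝓞 E)ˣ) : 𝓞 E) * g x.1.1, hmem _ _⟩
  have hinj : Function.Injective ι := by
    rintro ⟨⟨I, ζ⟩, l⟩ ⟨⟨I', ζ'⟩, l'⟩ h
    have h1 : (((ζ : (𝓞 E)ˣ) * s l : (𝓞 E)ˣ) : 𝓞 E) * g I =
        (((ζ' : (𝓞 E)ˣ) * s l' : (𝓞 E)ˣ) : 𝓞 E) * g I' := congrArg Subtype.val h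
    have h2 : I = I' := by
      apply Subtype.ext
      apply mul_right_cancel₀ hJ
      rw [← hsp I ((ζ : (𝓞 E)ˣ) * s l), h1, hsp]
    subst h2
    have h3 : (ζ : (𝓞 E)ˣ) * s l = (ζ' : (𝓞 E)ˣ) * s l' :=
      Units.ext (mul_right_cancel₀ (hg0 I) h1)
    have h4 : l = l' := by
      apply Subtype.ext
      rw [← hlog ζ l, h3, hlog]
    subst h4
    have h5 : ζ = ζ' := Subtype.ext (mul_right_cancel h3)
    rw [h5]
  have hval : ∀ x : (T × torsion E) × unitLattice E,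
      fv Φ (Real.log (Ideal.absNorm J) + k) v (em (ι x : 𝓞 E)) =
        Φ (Real.log (Ideal.absNorm x.1.1.1) - k) *
          (psi (v + (x.2 : logSpace E) + logMap (em (g x.1.1))) : ℝ) := by
    rintro ⟨⟨I, ζ⟩, l⟩
    have hI := ((hT I.1).mp I.2).1
    have h1 := (fv_val_NaUnf hI hJ (hsp I ((ζ : (𝓞 E)ˣ) * s l)) Φ k v).2
    have h2 := (fv_val_NaUnf hI hJ (hg I) Φ k v).1
    refine h1.trans ?_
    rw [em_unit_NaUnf, logMap_unit_smul _ h2, hlog, add_assoc]
  have hsup : Function.support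
      (fun α : J => fv Φ (Real.log (Ideal.absNorm J) + k) v (em (α : 𝓞 E))) ⊆ Set.range ι := by
    rintro ⟨α, hα⟩ h
    have h : fv Φ (Real.log (Ideal.absNorm J) + k) v (em α) ≠ 0 := h
    have hα0 : α ≠ 0 := by
      rintro rfl
      apply h
      unfold fv
      rw [if_pos]
      rw [norm_em_NaUnf]
      simp
    obtain ⟨I, hI⟩ : J ∣ Ideal.span {α} :=
      Ideal.dvd_iff_le.mpr ((Ideal.span_singleton_le_iff_mem _).mpr hα)
    rw [mul_comm] at hI
    have hI0 : I ≠ ⊥ := by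
      rintro rfl
      rw [Ideal.bot_mul, Ideal.span_singleton_eq_bot] at hI
      exact hα0 hI
    have hIT : I ∈ T := by
      refine (hT I).mpr ⟨hI0, ⟨α, hI.symm⟩, fun h0 => h ?_⟩
      rw [(fv_val_NaUnf hI0 hJ hI Φ k v).2, h0, zero_mul]
    obtain ⟨u, hu⟩ : Associated (g ⟨I, hIT⟩) α :=
      Ideal.span_singleton_eq_span_singleton.mp ((hg ⟨I, hIT⟩).trans hI.symm)
    let l : unitLattice E := ⟨logEmbedding E (Additive.ofMul u), Additive.ofMul u, trivial, rfl⟩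
    have hζ : u * (s l)⁻¹ ∈ torsion E := by
      rw [← logEmbedding_eq_zero_iff]
      have h1 := logE_mul_NaUnf (u * (s l)⁻¹) (s l)
      rw [inv_mul_cancel_right, hs] at h1
      exact (add_eq_right.mp h1.symm)
    refine ⟨((⟨I, hIT⟩, ⟨_, hζ⟩), l), Subtype.ext ?_⟩
    show ((u * (s l)⁻¹ * s l : (𝓞 E)ˣ) : 𝓞 E) * g ⟨I, hIT⟩ = α
    rw [inv_mul_cancel_right, mul_comm, hu]
  have hfs : Function.HasFiniteSupport fun x : (T × torsion E) × unitLattice E =>
      Φ (Real.log (Ideal.absNorm x.1.1.1) - k) *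
        ((psi (v + (x.2 : logSpace E) + logMap (em (g x.1.1))) : ℝ) : ℂ) := by
    refine ((Set.finite_univ (α := T × torsion E)).prod
      (Set.finite_iUnion fun I : T => hfin (logMap (em (g I))))).subset ?_
    rintro ⟨⟨I, ζ⟩, l⟩ h
    refine ⟨trivial, Set.mem_iUnion.mpr ⟨I, fun h0 => h ?_⟩⟩
    show _ * ((psi (v + (l : logSpace E) + logMap (em (g I))) : ℝ) : ℂ) = 0
    rw [h0, Complex.ofReal_zero, mul_zero]
  unfold Gs
  rw [← Set.indicator_eq_self.mpr hsup, ← finsum_mem_def, finsum_mem_range hinj,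
    finsum_congr hval, finsum_curry _ hfs, finsum_eq_sum_of_fintype, Fintype.sum_prod_type]
  refine Finset.sum_congr rfl fun I _ => ?_
  have h1 := map_finsum ((AddMonoidHom.mulLeft (Φ (Real.log (Ideal.absNorm I.1) - k))).comp
    Complex.ofRealHom.toAddMonoidHom)
    (f := fun l : unitLattice E => psi (v + (l : logSpace E) + logMap (em (g I))))
    (hfin (logMap (em (g I))))
  have h2 : ∑ᶠ l : unitLattice E, Φ (Real.log (Ideal.absNorm I.1) - k) *
      ((psi (v + (l : logSpace E) + logMap (em (g I))) : ℝ) : ℂ) =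
      Φ (Real.log (Ideal.absNorm I.1) - k) *
        ((∑ᶠ l : unitLattice E, psi (v + (l : logSpace E) + logMap (em (g I))) : ℝ) : ℂ) :=
    h1.symm
  rw [Finset.sum_congr rfl fun ζ _ => h2, Finset.sum_const, Finset.card_univ, nsmul_eq_mul,
    torsionOrder, Nat.card_eq_fintype_card, mul_assoc]

end

theorem unf_stmt (hP : PsiStmt) : UnfStmt := by
  intro E _ _ J Φ Λ k hJ hΦ
  obtain ⟨-, -, hy⟩ := hP E
  have hfin : {I : Ideal (𝓞 E) | I ≠ ⊥ ∧ (I * J).IsPrincipal ∧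
      Φ (Real.log (Ideal.absNorm I) - k) ≠ 0}.Finite := by
    refine (Ideal.finite_setOfPred_absNorm_le (S := 𝓞 E) ⌊Real.exp (k + 2)⌋₊).subset ?_
    rintro I ⟨-, -, h⟩
    by_contra hc
    apply h
    apply hΦ.2
    have hc' : ⌊Real.exp (k + 2)⌋₊ < Ideal.absNorm I := not_le.mp hc
    have h1 : Real.exp (k + 2) < Ideal.absNorm I := (Nat.floor_lt (Real.exp_pos _).le).mp hc'
    have h2 : k + 2 ≤ Real.log (Ideal.absNorm I) :=
      (Real.le_log_iff_exp_le ((Real.exp_pos _).trans h1)).mpr h1.le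
    exact le_trans (by linarith) (le_abs_self _)
  have hT : ∀ I, I ∈ hfin.toFinset ↔ I ≠ ⊥ ∧ (I * J).IsPrincipal ∧
      Φ (Real.log (Ideal.absNorm I) - k) ≠ 0 := fun I => hfin.mem_toFinset
  have hex : ∀ I : hfin.toFinset, ∃ g : 𝓞 E, Ideal.span {g} = I.1 * J := fun I => by
    obtain ⟨g, hg⟩ := ((hT I.1).mp I.2).2.1
    exact ⟨g, hg.symm⟩
  choose g hg using hex
  have hG : Gs J Φ (Real.log (Ideal.absNorm J) + k) = fun v =>
      ∑ I : hfin.toFinset, (torsionOrder E : ℂ) * Φ (Real.log (Ideal.absNorm I.1) - k) *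
        ((∑ᶠ l : unitLattice E, psi (v + (l : logSpace E) + logMap (em (g I))) : ℝ) : ℂ) :=
    funext fun v => gs_NaUnf J hJ Φ k _ hT g hg v fun y => (hy y).1 v
  have hint : ∀ I : hfin.toFinset, Integrable (fun v =>
      (torsionOrder E : ℂ) * Φ (Real.log (Ideal.absNorm I.1) - k) *
        ((∑ᶠ l : unitLattice E, psi (v + (l : logSpace E) + logMap (em (g I))) : ℝ) : ℂ))
      (volume.restrict (FD E)) := fun I =>
    (Integrable.ofReal (hy (logMap (em (g I)))).2.1).const_mul _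
  rw [hG]
  refine ⟨integrable_finsetSum _ fun I _ => hint I, ?_⟩
  rw [integral_finsetSum _ fun I _ => hint I]
  have hS : Sc J Φ k = ∑ I : hfin.toFinset, Φ (Real.log (Ideal.absNorm I.1) - k) := by
    unfold Sc
    rw [finsum_eq_sum_of_support_subset (s := hfin.toFinset), ← Finset.sum_coe_sort]
    · refine Finset.sum_congr rfl fun I _ => ?_
      have h := (hT I.1).mp I.2
      rw [if_pos h.2.1]
      show (if I.1 = ⊥ then 0 else 1) * _ = _
      rw [if_neg h.1, one_mul]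
    · intro I h
      refine Finset.mem_coe.mpr ((hT I).mpr ?_)
      by_cases h1 : (I * J).IsPrincipal
      · have h2 : triv E I * Φ (Real.log (Ideal.absNorm I) - k) ≠ 0 := by
          have h3 := Function.mem_support.mp h
          rwa [if_pos h1] at h3
        refine ⟨fun h0 => left_ne_zero_of_mul h2 ?_, h1, right_ne_zero_of_mul h2⟩
        show (if I = ⊥ then 0 else 1) = (0 : ℂ)
        rw [if_pos h0]
      · exact absurd (if_neg h1) (Function.mem_support.mp h)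
  rw [hS, Finset.mul_sum]
  refine Finset.sum_congr rfl fun I _ => ?_
  rw [integral_const_mul, integral_complex_ofReal, (hy (logMap (em (g I)))).2.2,
    Complex.ofReal_one, mul_one]

end Pool.Agent.MP_f68ac8_nt.Nd
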