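import Mathlib

/-! The tame character of an inertia group acting on a Dedekind domain. -/

namespace Pool.Agent.MP_f68ac8_nt

open scoped Pointwise

section
variable {A Γ : Type*} [CommRing A] [Group Γ] [MulSemiringAction Γ A] (Q : Ideal A)

/-- `h` acts on `Q / Q ^ 2` as multiplication by `θ` -/
def TW (h : Γ) (θ : A) : Prop := ∀ x ∈ Q, h • x - θ * x ∈ Q ^ 2

variable {Q}

lemma smul_mem_of_inertia {h : Γ} (hh : h ∈ Q.inertia Γ) {x : A} (hx : x ∈ Q) : h • x ∈ Q := by
  have := Q.add_mem (hh x) hx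
  simpa using this

lemma smul_mem_pow {h : Γ} (hh : ∀ x ∈ Q, h • x ∈ Q) (n : ℕ) {x : A} (hx : x ∈ Q ^ n) :
    h • x ∈ Q ^ n := by
  induction n generalizing x with
  | zero => simp
  | succ n ih =>
    rw [pow_succ] at hx ⊢
    refine Submodule.mul_induction_on hx (fun a ha b hb => ?_) (fun a b ha hb => ?_)
    · rw [smul_mul']
      exact Ideal.mul_mem_mul (ih ha) (hh b hb)
    · rw [smul_add]
      exact add_mem ha hb

lemma TW.mul {h h' : Γ} {θ θ' : A} (hh : h ∈ Q.inertia Γ) (h1 : TW Q h θ) (h2 : TW Q h' θ') :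
    TW Q (h * h') (θ * θ') := by
  intro x hx
  have e : (h * h') • x - θ * θ' * x =
      h • (h' • x - θ' * x) + (h • θ' - θ') * h • x + θ' * (h • x - θ * x) := by
    simp only [mul_smul, smul_sub, smul_mul']
    ring
  rw [e]
  refine add_mem (add_mem ?_ ?_) (Ideal.mul_mem_left _ _ (h1 x hx))
  · exact smul_mem_pow (fun y hy => smul_mem_of_inertia hh hy) 2 (h2 x hx)
  · rw [pow_two]
    exact Ideal.mul_mem_mul (hh θ') (smul_mem_of_inertia hh hx)

lemma TW.congr {h : Γ} {θ θ' : A} (h1 : TW Q h θ) (e : θ - θ' ∈ Q) : TW Q h θ' := by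
  intro x hx
  have : h • x - θ' * x = (h • x - θ * x) + (θ - θ') * x := by ring
  rw [this]
  refine add_mem (h1 x hx) ?_
  rw [pow_two]
  exact Ideal.mul_mem_mul e hx

lemma TW.one : TW Q (1 : Γ) (1 : A) := by
  intro x _
  simp

lemma TW.conj {σ h : Γ} {θ : A} (hσ : ∀ x ∈ Q, σ • x ∈ Q) (hσ' : ∀ x ∈ Q, σ⁻¹ • x ∈ Q)
    (h1 : TW Q h θ) : TW Q (σ * h * σ⁻¹) (σ • θ) := by
  intro x hx
  have := smul_mem_pow hσ 2 (h1 _ (hσ' x hx))
  simpa [mul_smul, smul_sub, smul_mul'] using this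

lemma TW.step {h : Γ} (hh : h ∈ Q.inertia Γ) (h1 : TW Q h 1) (n : ℕ) {x : A} (hx : x ∈ Q ^ n) :
    h • x - x ∈ Q ^ (n + 1) := by
  induction n generalizing x with
  | zero => simpa using hh x
  | succ n ih =>
    rw [pow_succ] at hx
    refine Submodule.mul_induction_on hx (fun a ha b hb => ?_) (fun a b ha hb => ?_)
    · have e : h • (a * b) - a * b = (h • a - a) * h • b + a * (h • b - 1 * b) := by
        rw [smul_mul']; ring
      rw [e]
      refine add_mem ?_ ?_
      · rw [pow_succ _ (n + 1)]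
        exact Ideal.mul_mem_mul (ih ha) (smul_mem_of_inertia hh hb)
      · rw [show n + 1 + 1 = n + 2 from rfl, pow_add]
        exact Ideal.mul_mem_mul ha (h1 b hb)
    · have e : h • (a + b) - (a + b) = (h • a - a) + (h • b - b) := by
        rw [smul_add]; ring
      rw [e]
      exact add_mem ha hb

lemma TW.wild [IsNoetherianRing A] [IsDomain A] [hQ : Q.IsMaximal] {h : Γ}
    (hh : h ∈ Q.inertia Γ) (h1 : TW Q h 1) {n : ℕ} (hn : (n : A) ∉ Q) (hhn : h ^ n = 1) (a : A) :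
    h • a = a := by
  obtain ⟨u, c, hc, huc⟩ := hQ.exists_inv hn
  have key : ∀ j : ℕ, ∀ a : A, h • a - a ∈ Q ^ j := by
    intro j
    induction j with
    | zero => simp
    | succ j ih =>
      intro a
      have hb := ih a
      have h3 : ∀ i : ℕ, h ^ i • a - a - i * (h • a - a) ∈ Q ^ (j + 1) := by
        intro i
        induction i with
        | zero => simp
        | succ i ih2 =>
          have e : h ^ (i + 1) • a - a - ((i + 1 : ℕ) : A) * (h • a - a) =
              h • (h ^ i • a - a - i * (h • a - a)) + i * (h • (h • a - a) - (h • a - a)) := by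
            have : h • (i : A) = i := map_natCast (MulSemiringAction.toRingHom Γ A h) i
            simp only [pow_succ', mul_smul, smul_sub, smul_mul', this]
            push_cast
            ring
          rw [e]
          exact add_mem (smul_mem_pow (fun y hy => smul_mem_of_inertia hh hy) _ ih2)
            (Ideal.mul_mem_left _ _ (h1.step hh j hb))
      have h4 := h3 n
      rw [hhn, one_smul, sub_self, zero_sub, neg_mem_iff] at h4
      have e : h • a - a = u * (n * (h • a - a)) + (h • a - a) * c := by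
        linear_combination (-(h • a - a)) * huc
      rw [e]
      refine add_mem (Ideal.mul_mem_left _ _ h4) ?_
      rw [pow_succ]
      exact Ideal.mul_mem_mul hb hc
  have hb : h • a - a ∈ (⨅ j : ℕ, Q ^ j) := Ideal.mem_iInf.mpr fun j => key j a
  rw [Ideal.iInf_pow_eq_bot_of_isDomain Q hQ.ne_top] at hb
  exact sub_eq_zero.mp hb

variable [IsDedekindDomain A] [hQ : Q.IsMaximal]

lemma exists_unif (h0 : Q ≠ ⊥) : ∃ π ∈ Q, π ∉ Q ^ 2 ∧ ∀ x ∈ Q, ∃ a, x - a * π ∈ Q ^ 2 := by
  have hlt : Q ^ 2 < Q ^ 1 := Ideal.pow_succ_lt_pow h0 1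
  obtain ⟨π, h1, h2⟩ := SetLike.exists_of_lt hlt
  rw [pow_one] at h1
  refine ⟨π, h1, h2, fun x hx => ?_⟩
  have h3 : Q ^ 2 ⊔ Ideal.span {π} = Q ^ 1 := by
    apply Ideal.eq_prime_pow_of_succ_lt_of_le h0
    · refine lt_of_le_of_ne le_sup_left fun e => h2 ?_
      rw [e]
      exact Ideal.mem_sup_right (Ideal.mem_span_singleton_self π)
    · refine sup_le hlt.le ?_
      rw [pow_one, Ideal.span_singleton_le_iff_mem]
      exact h1
  rw [pow_one] at h3
  rw [← h3] at hx
  obtain ⟨y, hy, z, hz, rfl⟩ := Submodule.mem_sup.mp hx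
  obtain ⟨a, rfl⟩ := Ideal.mem_span_singleton'.mp hz
  exact ⟨a, by simpa using hy⟩

lemma exists_TW (h0 : Q ≠ ⊥) {h : Γ} (hh : h ∈ Q.inertia Γ) : ∃ θ, TW Q h θ := by
  obtain ⟨π, h1, -, h3⟩ := exists_unif h0
  obtain ⟨θ, hθ⟩ := h3 _ (smul_mem_of_inertia hh h1)
  refine ⟨θ, fun x hx => ?_⟩
  obtain ⟨a, ha⟩ := h3 x hx
  have e : h • x - θ * x = h • (x - a * π) - θ * (x - a * π) + (h • a - a) * h • π
      + a * (h • π - θ * π) := by
    simp only [smul_sub, smul_mul']
    ring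
  rw [e]
  refine add_mem (add_mem (sub_mem ?_ (Ideal.mul_mem_left _ _ ha)) ?_) (Ideal.mul_mem_left _ _ hθ)
  · exact smul_mem_pow (fun y hy => smul_mem_of_inertia hh hy) 2 ha
  · rw [pow_two]
    exact Ideal.mul_mem_mul (hh a) (smul_mem_of_inertia hh h1)

lemma TW.unique (h0 : Q ≠ ⊥) {h : Γ} {θ θ' : A} (h1 : TW Q h θ) (h2 : TW Q h θ') :
    θ - θ' ∈ Q := by
  obtain ⟨π, p1, p2, -⟩ := exists_unif h0
  by_contra hn
  obtain ⟨u, c, hc, huc⟩ := hQ.exists_inv hn
  apply p2
  have e : π = u * ((h • π - θ' * π) - (h • π - θ * π)) + c * π := by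
    linear_combination (-π) * huc
  rw [e]
  refine add_mem (Ideal.mul_mem_left _ _ (sub_mem (h2 π p1) (h1 π p1))) ?_
  rw [pow_two]
  exact Ideal.mul_mem_mul hc p1

/-- the tame character -/
theorem exists_theta (h0 : Q ≠ ⊥) :
    ∃ Θ : Q.inertia Γ →* (A ⧸ Q)ˣ, ∀ (h : Q.inertia Γ) (θ : A),
      TW Q (h : Γ) θ ↔ (Θ h : A ⧸ Q) = Ideal.Quotient.mk Q θ := by
  choose f hf using fun h : Q.inertia Γ => exists_TW h0 h.2
  let Θ₀ : Q.inertia Γ →* A ⧸ Q :=
    { toFun := fun h => Ideal.Quotient.mk Q (f h)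
      map_one' := by
        rw [← map_one (Ideal.Quotient.mk Q), Ideal.Quotient.eq]
        exact (hf 1).unique h0 TW.one
      map_mul' := fun a b => by
        rw [← map_mul, Ideal.Quotient.eq]
        exact (hf (a * b)).unique h0 ((hf a).mul a.2 (hf b)) }
  refine ⟨Θ₀.toHomUnits, fun h θ => ?_⟩
  change _ ↔ Ideal.Quotient.mk Q (f h) = _
  rw [Ideal.Quotient.eq]
  exact ⟨fun h1 => (hf h).unique h0 h1, fun h1 => (hf h).congr h1⟩

end

end Pool.Agent.MP_f68ac8_nt
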