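import Mathlib
import Pool.Agent.MP_f68ac8_nt.Tame

/-! Inertia groups and Frobenius elements in the absolute Galois group of the rationals. -/

namespace Pool.Agent.MP_f68ac8_nt

open scoped Pointwise Topology
open NumberField

variable {Ω : Type} [Field Ω] [CharZero Ω] [IsAlgClosure ℚ Ω]

omit [CharZero Ω] [IsAlgClosure ℚ Ω] in
lemma coe_smul_int {F : Type} [Field F] [Algebra F Ω] (g : Ω ≃ₐ[F] Ω) (x : 𝓞 Ω) :
    ((g • x : 𝓞 Ω) : Ω) = g x := rfl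

omit [CharZero Ω] [IsAlgClosure ℚ Ω] in
lemma smulComm_rel {F : Type} [Field F] [Algebra F Ω] :
    SMulCommClass (Ω ≃ₐ[F] Ω) (𝓞 F) (𝓞 Ω) where
  smul_comm g a x := by
    ext
    rw [Algebra.smul_def, Algebra.smul_def, coe_smul_int]
    simp only [map_mul, coe_smul_int]
    congr 1
    exact g.commutes (a : F)

omit [CharZero Ω] [IsAlgClosure ℚ Ω] in
lemma invariant_rel {F : Type} [Field F] [Algebra F Ω] [IsGalois F Ω] :
    Algebra.IsInvariant (𝓞 F) (𝓞 Ω) (Ω ≃ₐ[F] Ω) where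
  isInvariant x hx := by
    obtain ⟨y, hy⟩ := (InfiniteGalois.mem_range_algebraMap_iff_fixed (k := F) (x : Ω)).mpr
      fun g => congrArg (fun z : 𝓞 Ω => (z : Ω)) (hx g)
    have : IsIntegral ℤ y := by
      rw [← isIntegral_algHom_iff (algebraMap F Ω).toIntAlgHom (algebraMap F Ω).injective]
      change IsIntegral ℤ (algebraMap F Ω y)
      rw [hy]
      exact x.isIntegral_coe
    exact ⟨⟨y, this⟩, RingOfIntegers.ext hy⟩

lemma invariant_int : Algebra.IsInvariant ℤ (𝓞 Ω) (Ω ≃ₐ[ℚ] Ω) where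
  isInvariant x hx := by
    obtain ⟨y, hy⟩ := (InfiniteGalois.mem_range_algebraMap_iff_fixed (k := ℚ) (x : Ω)).mpr
      fun g => congrArg (fun z : 𝓞 Ω => (z : Ω)) (hx g)
    have : IsIntegral ℤ y := by
      rw [← isIntegral_algHom_iff (algebraMap ℚ Ω).toIntAlgHom (algebraMap ℚ Ω).injective]
      change IsIntegral ℤ (algebraMap ℚ Ω y)
      rw [hy]
      exact x.isIntegral_coe
    obtain ⟨z, rfl⟩ := IsIntegrallyClosed.algebraMap_eq_of_integral this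
    refine ⟨z, RingOfIntegers.ext ?_⟩
    rw [← hy]
    simp

omit [CharZero Ω] [IsAlgClosure ℚ Ω] in
lemma contSMul {F : Type} [Field F] [Algebra F Ω] [Algebra.IsIntegral F Ω] :
    letI : TopologicalSpace (𝓞 Ω) := ⊥
    ContinuousSMul (Ω ≃ₐ[F] Ω) (𝓞 Ω) := by
  letI : TopologicalSpace (𝓞 Ω) := ⊥
  haveI : DiscreteTopology (𝓞 Ω) := ⟨rfl⟩
  rw [continuousSMul_iff_stabilizer_isOpen]
  intro x
  convert stabilizer_isOpen_of_isIntegral (K := F) (x : Ω) using 1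
  ext g
  simp only [SetLike.mem_coe, MulAction.mem_stabilizer_iff]
  exact RingOfIntegers.ext_iff

omit [CharZero Ω] [IsAlgClosure ℚ Ω] in
lemma under_int_eq {P : Ideal (𝓞 Ω)} [hP : P.IsMaximal] {q : ℕ} (hq : q.Prime)
    (h : (q : 𝓞 Ω) ∈ P) : P.under ℤ = Ideal.span {(q : ℤ)} := by
  have h1 : (Ideal.span {(q : ℤ)}).IsMaximal :=
    PrincipalIdealRing.isMaximal_of_irreducible (Nat.prime_iff_prime_int.mp hq).irreducible
  refine (h1.eq_of_le (Ideal.IsPrime.ne_top inferInstance) ?_).symm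
  rw [Ideal.span_singleton_le_iff_mem, Ideal.mem_comap]
  simpa using h

lemma exists_prime_mem (P : Ideal (𝓞 Ω)) [hP : P.IsMaximal] :
    ∃ q : ℕ, q.Prime ∧ (q : 𝓞 Ω) ∈ P := by
  have h1 : (P.under ℤ).IsMaximal := Ideal.isMaximal_comap_of_isIntegral_of_isMaximal P
  obtain ⟨p, hp : _ = Ideal.span _⟩ := IsPrincipalIdealRing.principal (P.under ℤ)
  have hp0 : p ≠ 0 := by
    rintro rfl
    rw [hp, Ideal.span_singleton_zero] at h1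
    exact Int.not_isField (Ring.isField_iff_maximal_bot.mpr h1)
  have : Prime p := by rw [← Ideal.span_singleton_prime hp0, ← hp]; infer_instance
  refine ⟨p.natAbs, Int.prime_iff_natAbs_prime.mp this, ?_⟩
  have h2 : ((p.natAbs : ℕ) : ℤ) ∈ P.under ℤ := by
    rw [hp, Ideal.mem_span_singleton]
    exact Int.dvd_natAbs_self
  simpa using Ideal.mem_comap.mp h2

lemma exists_maximal_mem {q : ℕ} (hq : q.Prime) :
    ∃ P : Ideal (𝓞 Ω), P.IsMaximal ∧ (q : 𝓞 Ω) ∈ P := by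
  have h1 : (Ideal.span {(q : ℤ)}).IsMaximal :=
    PrincipalIdealRing.isMaximal_of_irreducible (Nat.prime_iff_prime_int.mp hq).irreducible
  obtain ⟨P, h2, h3⟩ := Ideal.exists_maximal_ideal_liesOver_of_isIntegral (S := 𝓞 Ω)
    (Ideal.span {(q : ℤ)})
  refine ⟨P, h2, ?_⟩
  have : (q : ℤ) ∈ P.under ℤ := by
    rw [← h3.over]
    exact Ideal.mem_span_singleton_self _
  simpa using Ideal.mem_comap.mp this

omit [CharZero Ω] [IsAlgClosure ℚ Ω] in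
lemma not_mem_of_coprime {P : Ideal (𝓞 Ω)} [hP : P.IsMaximal] {q n : ℕ}
    (h : (q : 𝓞 Ω) ∈ P) (hn : q.Coprime n) : (n : 𝓞 Ω) ∉ P := by
  intro h2
  apply hP.ne_top
  rw [Ideal.eq_top_iff_one]
  obtain ⟨a, b, hab⟩ := Nat.Coprime.isCoprime hn
  have := congrArg (Int.cast : ℤ → 𝓞 Ω) hab
  push_cast at this
  rw [← this]
  exact add_mem (P.mul_mem_left _ h) (P.mul_mem_left _ h2)

lemma exists_conj {P P' : Ideal (𝓞 Ω)} [P.IsMaximal] [P'.IsMaximal] {q : ℕ} (hq : q.Prime)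
    (h : (q : 𝓞 Ω) ∈ P) (h' : (q : 𝓞 Ω) ∈ P') :
    ∃ g : Ω ≃ₐ[ℚ] Ω, ∀ u ∈ P'.inertia (Ω ≃ₐ[ℚ] Ω), g⁻¹ * u * g ∈ P.inertia (Ω ≃ₐ[ℚ] Ω) := by
  letI : TopologicalSpace (𝓞 Ω) := ⊥
  haveI : DiscreteTopology (𝓞 Ω) := ⟨rfl⟩
  haveI := contSMul (Ω := Ω) (F := ℚ)
  haveI := invariant_int (Ω := Ω)
  obtain ⟨g, rfl⟩ := Algebra.IsInvariant.exists_smul_of_under_eq_of_profinite
    (A := ℤ) (G := Ω ≃ₐ[ℚ] Ω) P P' ((under_int_eq hq h).trans (under_int_eq hq h').symm)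
  refine ⟨g, fun u hu x => ?_⟩
  have := hu (g • x)
  rw [Submodule.mem_toAddSubgroup, Ideal.mem_pointwise_smul_iff_inv_smul_mem] at this
  simpa [smul_sub, mul_smul] using this

/-- `σ` is an arithmetic Frobenius at `P` -/
def IsFrob (q : ℕ) (P : Ideal (𝓞 Ω)) (σ : Ω ≃ₐ[ℚ] Ω) : Prop := ∀ x : 𝓞 Ω, σ • x - x ^ q ∈ P

attribute [local instance] Ideal.Quotient.field in
lemma exists_frob (P : Ideal (𝓞 Ω)) [P.IsMaximal] {q : ℕ} (hq : q.Prime) (h : (q : 𝓞 Ω) ∈ P) :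
    ∃ σ, IsFrob q P σ := by
  letI : TopologicalSpace (𝓞 Ω) := ⊥
  haveI : DiscreteTopology (𝓞 Ω) := ⟨rfl⟩
  haveI := contSMul (Ω := Ω) (F := ℚ)
  haveI := invariant_int (Ω := Ω)
  haveI : (Ideal.span {(q : ℤ)}).IsMaximal :=
    PrincipalIdealRing.isMaximal_of_irreducible (Nat.prime_iff_prime_int.mp hq).irreducible
  haveI : P.LiesOver (Ideal.span {(q : ℤ)}) := ⟨(under_int_eq hq h).symm⟩
  haveI : NeZero q := ⟨hq.ne_zero⟩
  haveI : Finite (ℤ ⧸ Ideal.span {(q : ℤ)}) :=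
    Finite.of_equiv _ (Int.quotientSpanNatEquivZMod q).symm.toEquiv
  letI := Fintype.ofFinite (ℤ ⧸ Ideal.span {(q : ℤ)})
  have hc : Fintype.card (ℤ ⧸ Ideal.span {(q : ℤ)}) = q := by
    rw [Fintype.card_congr (Int.quotientSpanNatEquivZMod q).toEquiv, ZMod.card]
  obtain ⟨σ, hσ⟩ := Ideal.Quotient.stabilizerHom_surjective_of_profinite (G := Ω ≃ₐ[ℚ] Ω)
    (Ideal.span {(q : ℤ)}) P (FiniteField.frobeniusAlgEquivOfAlgebraic _ _)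
  refine ⟨σ, fun x => ?_⟩
  rw [← Ideal.Quotient.eq]
  have := DFunLike.congr_fun hσ (Ideal.Quotient.mk P x)
  rw [FiniteField.coe_frobeniusAlgEquivOfAlgebraic, hc] at this
  exact this

omit [IsAlgClosure ℚ Ω] in
lemma IsFrob.mem {q : ℕ} (hq : q.Prime) {P : Ideal (𝓞 Ω)} {σ : Ω ≃ₐ[ℚ] Ω} (h : IsFrob q P σ)
    {x : 𝓞 Ω} (hx : x ∈ P) : σ • x ∈ P := by
  have := P.add_mem (h x) (P.pow_mem_of_mem hx q hq.pos)
  simpa using this

omit [IsAlgClosure ℚ Ω] in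
lemma IsFrob.inv_mem {q : ℕ} {P : Ideal (𝓞 Ω)} [hP : P.IsMaximal] {σ : Ω ≃ₐ[ℚ] Ω}
    (h : IsFrob q P σ) {x : 𝓞 Ω} (hx : x ∈ P) : σ⁻¹ • x ∈ P := by
  have := P.sub_mem hx (h (σ⁻¹ • x))
  exact hP.isPrime.mem_of_pow_mem q (by simpa using this)

section level
variable (L : IntermediateField ℚ Ω) [Normal ℚ L]

/-- restriction to a normal subextension -/
noncomputable abbrev res : (Ω ≃ₐ[ℚ] Ω) →* (L ≃ₐ[ℚ] L) := AlgEquiv.restrictNormalHom L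

omit [IsAlgClosure ℚ Ω] in
lemma res_smul (g : Ω ≃ₐ[ℚ] Ω) (x : 𝓞 L) :
    algebraMap (𝓞 L) (𝓞 Ω) (res L g • x) = g • algebraMap (𝓞 L) (𝓞 Ω) x :=
  RingOfIntegers.ext (AlgEquiv.restrictNormal_commutes g L (x : L))

omit [IsAlgClosure ℚ Ω] in
lemma res_eq_one {g : Ω ≃ₐ[ℚ] Ω} : res L g = 1 ↔ ∀ x ∈ L, g x = x := by
  constructor
  · intro h x hx
    have := AlgEquiv.restrictNormal_commutes g L ⟨x, hx⟩
    change ((res L g ⟨x, hx⟩ : L) : Ω) = g x at this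
    rw [h] at this
    exact this.symm
  · intro h
    ext x
    exact (AlgEquiv.restrictNormal_commutes g L x).trans (h x x.2)

omit [IsAlgClosure ℚ Ω] in
lemma res_inertia {P : Ideal (𝓞 Ω)} {g : Ω ≃ₐ[ℚ] Ω} (hg : g ∈ P.inertia (Ω ≃ₐ[ℚ] Ω)) :
    res L g ∈ (P.under (𝓞 L)).inertia (L ≃ₐ[ℚ] L) := by
  intro x
  change _ ∈ P.under (𝓞 L)
  rw [Ideal.mem_comap, map_sub, res_smul]
  exact hg _

/-- inertia surjects onto inertia -/
lemma lift_inertia (P : Ideal (𝓞 Ω)) [P.IsMaximal] {g₀ : L ≃ₐ[ℚ] L}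
    (h₀ : g₀ ∈ (P.under (𝓞 L)).inertia (L ≃ₐ[ℚ] L)) :
    ∃ g ∈ P.inertia (Ω ≃ₐ[ℚ] Ω), res L g = g₀ := by
  letI : TopologicalSpace (𝓞 Ω) := ⊥
  haveI : DiscreteTopology (𝓞 Ω) := ⟨rfl⟩
  haveI := contSMul (Ω := Ω) (F := L)
  haveI := invariant_rel (Ω := Ω) (F := L)
  haveI := smulComm_rel (Ω := Ω) (F := L)
  have hres : ∀ h : Ω ≃ₐ[L] Ω, res L (h.restrictScalars ℚ) = 1 := by
    intro h
    rw [res_eq_one]
    intro x hx
    exact h.commutes ⟨x, hx⟩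
  obtain ⟨g, rfl⟩ := AlgEquiv.restrictNormalHom_surjective Ω g₀
  have h1 : (g • P).under (𝓞 L) = P.under (𝓞 L) := by
    have := Ideal.inertia_le_stabilizer _ h₀
    rw [MulAction.mem_stabilizer_iff] at this
    conv_rhs => rw [← this]
    ext x
    rw [Ideal.mem_comap, Ideal.mem_pointwise_smul_iff_inv_smul_mem,
      Ideal.mem_pointwise_smul_iff_inv_smul_mem, Ideal.mem_comap, ← map_inv, res_smul]
  obtain ⟨h, hh⟩ := Algebra.IsInvariant.exists_smul_of_under_eq_of_profinite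
    (A := 𝓞 L) (G := Ω ≃ₐ[L] Ω) (g • P) P h1
  let g₁ : MulAction.stabilizer (Ω ≃ₐ[ℚ] Ω) P := ⟨h.restrictScalars ℚ * g, by
    rw [MulAction.mem_stabilizer_iff, mul_smul]
    exact hh.symm⟩
  have hg₁ : res L g₁ = res L g := by
    simp only [g₁, map_mul, hres, one_mul]
  let φ := Ideal.Quotient.stabilizerHom P (P.under ℤ) _ g₁
  let φ' : (𝓞 Ω ⧸ P) ≃ₐ[𝓞 L ⧸ P.under (𝓞 L)] (𝓞 Ω ⧸ P) :=
    { φ.toRingEquiv with
      commutes' := fun r => by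
        obtain ⟨r, rfl⟩ := Ideal.Quotient.mk_surjective r
        change Ideal.Quotient.mk P ((g₁ : Ω ≃ₐ[ℚ] Ω) • algebraMap _ _ r) =
          Ideal.Quotient.mk P (algebraMap _ _ r)
        rw [Ideal.Quotient.eq, ← res_smul, ← map_sub, hg₁]
        exact h₀ r }
  obtain ⟨h', hh'⟩ := Ideal.Quotient.stabilizerHom_surjective_of_profinite (G := Ω ≃ₐ[L] Ω)
    (P.under (𝓞 L)) P φ'.symm
  refine ⟨(h' : Ω ≃ₐ[L] Ω).restrictScalars ℚ * g₁, fun x => ?_, ?_⟩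
  · have := DFunLike.congr_fun hh' (φ' (Ideal.Quotient.mk P x))
    rw [AlgEquiv.symm_apply_apply] at this
    change _ ∈ P
    rw [← Ideal.Quotient.eq]
    exact this
  · rw [map_mul, hres, one_mul, hg₁]

/-- the tame character at a finite level -/
lemma level_theta [FiniteDimensional ℚ L] (P : Ideal (𝓞 Ω)) [hP : P.IsMaximal] {q : ℕ}
    (hq : q.Prime) (h : (q : 𝓞 Ω) ∈ P) :
    ∃ (C : Type) (_ : CommGroup C) (_ : IsCyclic C) (Θ : P.inertia (Ω ≃ₐ[ℚ] Ω) →* C),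
      (∀ u, Θ u = 1 → ∃ a : ℕ, res L ((u : Ω ≃ₐ[ℚ] Ω) ^ q ^ a) = 1) ∧
      ∀ σ, IsFrob q P σ → ∀ u v : P.inertia (Ω ≃ₐ[ℚ] Ω),
        (v : Ω ≃ₐ[ℚ] Ω) = σ * u * σ⁻¹ → Θ v = Θ u ^ q := by
  haveI : NumberField L := {}
  set Q := P.under (𝓞 L) with hQ
  haveI : Q.IsMaximal := Ideal.isMaximal_comap_of_isIntegral_of_isMaximal P
  have h0 : Q ≠ ⊥ := NeZero.ne Q
  haveI : Finite (𝓞 L ⧸ Q) := Ideal.finiteQuotientOfFreeOfNeBot Q h0
  obtain ⟨Θ, hΘ⟩ := exists_theta (Γ := L ≃ₐ[ℚ] L) h0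
  let r : P.inertia (Ω ≃ₐ[ℚ] Ω) →* Q.inertia (L ≃ₐ[ℚ] L) :=
    ((res L).comp (Subgroup.subtype _)).codRestrict _ fun u => res_inertia L u.2
  refine ⟨(𝓞 L ⧸ Q)ˣ, inferInstance, inferInstance, Θ.comp r, fun u hu => ?_,
    fun σ hσ u v huv => ?_⟩
  · obtain ⟨a, n, hn, e⟩ := Nat.exists_eq_pow_mul_and_not_dvd
      (orderOf_pos (res L (u : Ω ≃ₐ[ℚ] Ω))).ne' q hq.ne_one
    refine ⟨a, ?_⟩
    have h1 : TW Q (r (u ^ q ^ a) : L ≃ₐ[ℚ] L) 1 := by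
      rw [hΘ, map_pow, map_pow]
      change ((Θ.comp r u ^ q ^ a : (𝓞 L ⧸ Q)ˣ) : 𝓞 L ⧸ Q) = _
      rw [hu]
      simp
    have h2 : (n : 𝓞 L) ∉ Q := by
      rw [Ideal.mem_comap, map_natCast]
      exact not_mem_of_coprime h ((Nat.Prime.coprime_iff_not_dvd hq).mpr hn)
    have h3 : (r (u ^ q ^ a) : L ≃ₐ[ℚ] L) ^ n = 1 := by
      change res L ((u : Ω ≃ₐ[ℚ] Ω) ^ q ^ a) ^ n = 1
      rw [map_pow, ← pow_mul, ← e, pow_orderOf_eq_one]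
    have h4 := h1.wild (r (u ^ q ^ a)).2 h2 h3
    haveI : IsGalois ℚ L := {}
    haveI := IsGaloisGroup.faithful (G := L ≃ₐ[ℚ] L) (A := ℤ) (B := 𝓞 L)
    exact eq_of_smul_eq_smul (α := 𝓞 L) fun x => by rw [one_smul]; exact h4 x
  · obtain ⟨θ, hθ⟩ := exists_TW h0 (r u).2
    have h1 : TW Q (res L σ * r u * (res L σ)⁻¹) (res L σ • θ) := by
      refine hθ.conj (fun x hx => ?_) (fun x hx => ?_)
      · rw [Ideal.mem_comap, res_smul]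
        exact hσ.mem hq hx
      · rw [← map_inv, Ideal.mem_comap, res_smul]
        exact hσ.inv_mem hx
    have h2 : (r v : L ≃ₐ[ℚ] L) = res L σ * r u * (res L σ)⁻¹ := by
      change res L v = _ * res L u * _
      rw [huv, map_mul, map_mul, map_inv]
    rw [← h2, hΘ] at h1
    rw [hΘ] at hθ
    ext
    rw [Units.val_pow_eq_pow_val]
    change (Θ (r v) : 𝓞 L ⧸ Q) = (Θ (r u) : 𝓞 L ⧸ Q) ^ q
    rw [h1, hθ, ← map_pow, Ideal.Quotient.eq, Ideal.mem_comap, map_sub, map_pow, res_smul]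
    exact hσ _

end level

lemma exists_level {s : Set (Ω ≃ₐ[ℚ] Ω)} (hs : s ∈ 𝓝 1) :
    ∃ (L : IntermediateField ℚ Ω) (_ : FiniteDimensional ℚ L) (_ : Normal ℚ L),
      ∀ g, res L g = 1 → g ∈ s := by
  obtain ⟨L, h1, h2, h3⟩ := (krullTopology_mem_nhds_one_iff_of_normal ℚ Ω s).mp hs
  haveI : Normal ℚ L := h2
  refine ⟨L, h1, h2, fun g hg => h3 fun x => ?_⟩
  exact (res_eq_one L).mp hg x x.2

/-- the tame relation holds up to wild inertia -/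
theorem wild_rel {P : Ideal (𝓞 Ω)} [P.IsMaximal] {q : ℕ} (hq : q.Prime) (h : (q : 𝓞 Ω) ∈ P)
    {σ u : Ω ≃ₐ[ℚ] Ω} (hσ : IsFrob q P σ) (hu : u ∈ P.inertia (Ω ≃ₐ[ℚ] Ω))
    {s : Set (Ω ≃ₐ[ℚ] Ω)} (hs : s ∈ 𝓝 1) :
    ∃ a : ℕ, (σ * u * σ⁻¹ * (u ^ q)⁻¹) ^ q ^ a ∈ s := by
  obtain ⟨L, _, _, hL⟩ := exists_level hs
  obtain ⟨C, _, _, Θ, h1, h2⟩ := level_theta L P hq h
  have hv : σ * u * σ⁻¹ ∈ P.inertia (Ω ≃ₐ[ℚ] Ω) := by
    intro x
    have := hσ.mem hq (hu (σ⁻¹ • x))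
    simpa [smul_sub, mul_smul] using this
  obtain ⟨a, ha⟩ := h1 (⟨_, hv⟩ * (⟨u, hu⟩ ^ q)⁻¹) (by
    rw [map_mul, map_inv, map_pow, h2 σ hσ ⟨u, hu⟩ ⟨_, hv⟩ rfl, mul_inv_cancel])
  exact ⟨a, hL _ ha⟩

lemma eq_one_of_pow_of_coprime {Γ : Type*} [Group Γ] {γ : Γ} {p n : ℕ} (h : p.Coprime n)
    (h1 : γ ^ p = 1) (h2 : γ ^ n = 1) : γ = 1 := by
  have := pow_gcd_eq_one.mpr ⟨h1, h2⟩
  rwa [h, pow_one] at this

/-- the image of inertia in a group of exponent prime to `q` is cyclic -/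
theorem cyclic_inertia {P : Ideal (𝓞 Ω)} [P.IsMaximal] {q : ℕ} (hq : q.Prime)
    (h : (q : 𝓞 Ω) ∈ P) {Γ : Type*} [Group Γ] (f : (Ω ≃ₐ[ℚ] Ω) →* Γ)
    (hf : {g | f g = 1} ∈ 𝓝 1) {p : ℕ} (hp : p.Coprime q) (hΓ : ∀ γ : Γ, γ ^ p = 1) :
    ∃ γ : Γ, ∀ u ∈ P.inertia (Ω ≃ₐ[ℚ] Ω), ∃ n : ℤ, f u = γ ^ n := by
  obtain ⟨L, _, _, hL⟩ := exists_level hf
  obtain ⟨C, _, _, Θ, h1, -⟩ := level_theta L P hq h
  obtain ⟨⟨_, u₀, rfl⟩, h₀⟩ := IsCyclic.exists_generator (α := Θ.range)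
  refine ⟨f u₀, fun u hu => ?_⟩
  obtain ⟨n, hn⟩ := h₀ ⟨_, ⟨u, hu⟩, rfl⟩
  have hn' : Θ u₀ ^ n = Θ ⟨u, hu⟩ := congrArg Subtype.val hn
  obtain ⟨a, ha⟩ := h1 (⟨u, hu⟩ * (u₀ ^ n)⁻¹) (by
    rw [map_mul, map_inv, map_zpow, hn', mul_inv_cancel])
  have h3 : f _ = 1 := hL _ ha
  rw [map_pow] at h3
  have h4 := eq_one_of_pow_of_coprime (hp.pow_right a) (hΓ _) h3
  refine ⟨n, ?_⟩
  rw [← map_zpow, ← mul_inv_eq_one, ← map_inv, ← map_mul]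
  exact h4

/-- no unramified extensions -/
theorem eq_top_of_open (H : Subgroup (Ω ≃ₐ[ℚ] Ω)) [hn : H.Normal]
    (ho : (H : Set (Ω ≃ₐ[ℚ] Ω)) ∈ 𝓝 1)
    (hI : ∀ P : Ideal (𝓞 Ω), P.IsMaximal → P.inertia (Ω ≃ₐ[ℚ] Ω) ≤ H) : H = ⊤ := by
  have hop : IsOpen (H : Set (Ω ≃ₐ[ℚ] Ω)) := H.isOpen_of_mem_nhds ho
  have hfix := InfiniteGalois.fixingSubgroup_fixedField ⟨H, H.isClosed_of_isOpen hop⟩
  set L := IntermediateField.fixedField H with hL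
  change L.fixingSubgroup = H at hfix
  obtain ⟨h1, h2⟩ := (InfiniteGalois.isOpen_and_normal_iff_finite_and_isGalois L).mp
    (by rw [hfix]; exact ⟨hop, hn⟩)
  haveI : FiniteDimensional ℚ L := h1
  haveI : IsGalois ℚ L := h2
  haveI : NumberField L := {}
  by_cases hr : Module.finrank ℚ L = 1
  · have : L = ⊥ := IntermediateField.finrank_eq_one_iff.mp hr
    rw [← hfix, this, IntermediateField.fixingSubgroup_bot]
  exfalso
  obtain ⟨Q, hQ, hQ'⟩ := NumberField.exists_not_isUnramifiedAt_int (𝒪 := 𝓞 L) hr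
  apply hQ'
  rw [← Ideal.ramificationIdx_eq_one_iff,
    ← Ideal.ramificationIdxIn_eq_ramificationIdx (Q.under ℤ) Q (L ≃ₐ[ℚ] L),
    ← Ideal.card_inertia_eq_ramificationIdxIn (G := L ≃ₐ[ℚ] L) (Q.under ℤ) Q,
    Subgroup.card_eq_one, eq_bot_iff]
  intro g₀ h₀
  obtain ⟨P, hP, hPQ⟩ := Ideal.exists_maximal_ideal_liesOver_of_isIntegral (S := 𝓞 Ω) Q
  rw [hPQ.over] at h₀
  obtain ⟨g, hg, rfl⟩ := lift_inertia L P h₀
  have := hI P hP hg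
  rw [← hfix] at this
  rw [Subgroup.mem_bot, res_eq_one]
  intro x hx
  exact this ⟨x, hx⟩

theorem eq_top_of_closed (H : Subgroup (Ω ≃ₐ[ℚ] Ω)) [hn : H.Normal]
    (hc : IsClosed (H : Set (Ω ≃ₐ[ℚ] Ω)))
    (hI : ∀ P : Ideal (𝓞 Ω), P.IsMaximal → P.inertia (Ω ≃ₐ[ℚ] Ω) ≤ H) : H = ⊤ := by
  rw [eq_top_iff]
  intro g _
  rw [← SetLike.mem_coe, ← hc.closure_eq, mem_closure_iff_nhds]
  intro s hs
  have h1 : (fun x => g * x⁻¹) ⁻¹' s ∈ 𝓝 (1 : Ω ≃ₐ[ℚ] Ω) :=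
    (continuous_const.mul continuous_inv).continuousAt.preimage_mem_nhds (by simpa using hs)
  obtain ⟨N, hN⟩ := ProfiniteGrp.exist_openNormalSubgroup_sub_open_nhds_of_one
    isOpen_interior (mem_interior_iff_mem_nhds.mpr h1)
  have h2 : H ⊔ N.toSubgroup = ⊤ := by
    refine eq_top_of_open _ (Filter.mem_of_superset (N.isOpen.mem_nhds N.one_mem) ?_)
      fun P hP => (hI P hP).trans le_sup_left
    exact fun x hx => Subgroup.mem_sup_right hx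
  have h3 : g ∈ H ⊔ N.toSubgroup := h2 ▸ Subgroup.mem_top g
  rw [← SetLike.mem_coe, Subgroup.mul_normal] at h3
  obtain ⟨a, ha, b, hb, rfl⟩ := h3
  refine ⟨a, ?_, ha⟩
  have := interior_subset (hN hb)
  simpa using this

end Pool.Agent.MP_f68ac8_nt
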