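import Mathlib
import Pool.Agent.MP_f68ac8_nt.Gal

/-! Cyclotomic characters and additive characters of the absolute Galois group. -/

namespace Pool.Agent.MP_f68ac8_nt

open scoped Pointwise Topology
open NumberField

lemma root_eq_of_sub_mem {A : Type*} [CommRing A] [IsDomain A] {P : Ideal A} {m : ℕ}
    (hm : (m : A) ∉ P) {x y : A} (hx : x ^ m = 1) (hy : y ^ m = 1) (h : x - y ∈ P) : x = y := by
  by_contra hne
  have hm0 : m ≠ 0 := by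
    rintro rfl
    exact hm (by simp)
  have h1 := geom_sum₂_mul x y m
  rw [hx, hy, sub_self, mul_eq_zero, sub_eq_zero] at h1
  have h2 := congrArg (Ideal.Quotient.mk P) (h1.resolve_right hne)
  rw [map_sum, map_zero] at h2
  simp only [map_mul, map_pow, Ideal.Quotient.eq.mpr h] at h2
  rw [geom_sum₂_self] at h2
  apply hm
  rw [← Ideal.Quotient.eq_zero_iff_mem, map_natCast]
  have h3 : Ideal.Quotient.mk P y ^ (m - 1) * Ideal.Quotient.mk P y = 1 := by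
    rw [← pow_succ, Nat.sub_add_cancel (Nat.pos_of_ne_zero hm0), ← map_pow, hy, map_one]
  linear_combination (Ideal.Quotient.mk P y) * h2 - (m : A ⧸ P) * h3

variable {Ω : Type} [Field Ω] [CharZero Ω] [IsAlgClosure ℚ Ω]

variable (Ω) in
lemma exists_zeta (n : ℕ) [NeZero n] : ∃ ζ : Ω, IsPrimitiveRoot ζ n := by
  haveI : IsAlgClosed Ω := IsAlgClosure.isAlgClosed ℚ
  exact HasEnoughRootsOfUnity.exists_primitiveRoot Ω n

variable (Ω) in
/-- a primitive root of unity -/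
noncomputable def zeta (n : ℕ) [NeZero n] : Ω := (exists_zeta Ω n).choose

lemma zeta_spec (n : ℕ) [NeZero n] : IsPrimitiveRoot (zeta Ω n) n := (exists_zeta Ω n).choose_spec

/-- the cyclotomic character -/
noncomputable def cyc (n : ℕ) [NeZero n] : (Ω ≃ₐ[ℚ] Ω) →* (ZMod n)ˣ := (zeta_spec n).autToPow ℚ

lemma cyc_spec (n : ℕ) [NeZero n] (g : Ω ≃ₐ[ℚ] Ω) {x : Ω} (hx : x ^ n = 1) :
    g x = x ^ (cyc n g : ZMod n).val := by
  obtain ⟨i, -, rfl⟩ := (zeta_spec (Ω := Ω) n).eq_pow_of_pow_eq_one hx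
  rw [map_pow, ← (zeta_spec n).autToPow_spec ℚ g, pow_right_comm]
  rfl

lemma cyc_eq (n : ℕ) [NeZero n] {g : Ω ≃ₐ[ℚ] Ω} {k : ℕ} (h : g (zeta Ω n) = zeta Ω n ^ k) :
    (cyc n g : ZMod n) = k := by
  rw [cyc_spec n g (zeta_spec n).pow_eq_one] at h
  have h1 := ((zeta_spec (Ω := Ω) n).isOfFinOrder (NeZero.ne n)).pow_eq_pow_iff_modEq.mp h
  rw [← (zeta_spec (Ω := Ω) n).eq_orderOf, ← ZMod.natCast_eq_natCast_iff] at h1
  simpa using h1

omit [CharZero Ω] [IsAlgClosure ℚ Ω] in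
lemma isIntegral_of_pow_eq_one {n : ℕ} [NeZero n] {x : Ω} (hx : x ^ n = 1) : IsIntegral ℤ x :=
  IsIntegral.of_pow (Nat.pos_of_neZero n) (hx ▸ isIntegral_one)

omit [IsAlgClosure ℚ Ω] in
lemma inertia_root {n : ℕ} [NeZero n] {P : Ideal (𝓞 Ω)} (hn : (n : 𝓞 Ω) ∉ P) {g : Ω ≃ₐ[ℚ] Ω}
    (hg : g ∈ P.inertia (Ω ≃ₐ[ℚ] Ω)) {x : Ω} (hx : x ^ n = 1) : g x = x := by
  let y : 𝓞 Ω := ⟨x, isIntegral_of_pow_eq_one hx⟩
  have hy : y ^ n = 1 := RingOfIntegers.ext (by simpa [y] using hx)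
  have := root_eq_of_sub_mem hn (x := g • y) (y := y) (by rw [← smul_pow', hy, smul_one]) hy (hg y)
  exact congrArg (fun z : 𝓞 Ω => (z : Ω)) this

omit [IsAlgClosure ℚ Ω] in
lemma frob_root {n q : ℕ} [NeZero n] {P : Ideal (𝓞 Ω)} (hn : (n : 𝓞 Ω) ∉ P) {g : Ω ≃ₐ[ℚ] Ω}
    (hg : IsFrob q P g) {x : Ω} (hx : x ^ n = 1) : g x = x ^ q := by
  let y : 𝓞 Ω := ⟨x, isIntegral_of_pow_eq_one hx⟩
  have hy : y ^ n = 1 := RingOfIntegers.ext (by simpa [y] using hx)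
  have := root_eq_of_sub_mem hn (x := g • y) (y := y ^ q) (by rw [← smul_pow', hy, smul_one])
    (by rw [pow_right_comm, hy, one_pow]) (hg y)
  exact congrArg (fun z : 𝓞 Ω => (z : Ω)) this

lemma cyc_inertia {n : ℕ} [NeZero n] {P : Ideal (𝓞 Ω)} (hn : (n : 𝓞 Ω) ∉ P) {g : Ω ≃ₐ[ℚ] Ω}
    (hg : g ∈ P.inertia (Ω ≃ₐ[ℚ] Ω)) : cyc n g = 1 := by
  ext
  rw [cyc_eq n (k := 1) (by rw [pow_one]; exact inertia_root hn hg (zeta_spec n).pow_eq_one)]
  simp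

lemma cyc_frob {n q : ℕ} [NeZero n] {P : Ideal (𝓞 Ω)} (hn : (n : 𝓞 Ω) ∉ P) {g : Ω ≃ₐ[ℚ] Ω}
    (hg : IsFrob q P g) : (cyc n g : ZMod n) = q :=
  cyc_eq n (frob_root hn hg (zeta_spec n).pow_eq_one)

lemma cyc_surj (n : ℕ) [NeZero n] : Function.Surjective (cyc (Ω := Ω) n) := by
  intro u
  have h1 := zeta_spec (Ω := Ω) n
  have h2 := h1.pow_of_coprime (u : ZMod n).val (ZMod.val_coe_unit_coprime u)
  have h3 : minpoly ℚ (zeta Ω n ^ (u : ZMod n).val) = minpoly ℚ (zeta Ω n) := by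
    rw [← Polynomial.cyclotomic_eq_minpoly_rat h1 (Nat.pos_of_neZero n),
      ← Polynomial.cyclotomic_eq_minpoly_rat h2 (Nat.pos_of_neZero n)]
  obtain ⟨g, hg⟩ := (Normal.minpoly_eq_iff_mem_orbit Ω).mp h3
  refine ⟨g, Units.ext ?_⟩
  rw [cyc_eq n (k := (u : ZMod n).val) hg]
  simp

lemma fix_nhds (x : Ω) : {g : Ω ≃ₐ[ℚ] Ω | g x = x} ∈ 𝓝 1 :=
  (stabilizer_isOpen_of_isIntegral (K := ℚ) x).mem_nhds (one_mem _)

lemma cyc_nhds (n : ℕ) [NeZero n] : {g : Ω ≃ₐ[ℚ] Ω | cyc n g = 1} ∈ 𝓝 1 := by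
  filter_upwards [fix_nhds (zeta Ω n)] with g hg
  ext
  rw [cyc_eq n (k := 1) (by rw [pow_one]; exact hg)]
  simp

/-- total ramification of the `q`-th cyclotomic field -/
lemma cyc_inertia_surj {q : ℕ} [hq : Fact q.Prime] {P : Ideal (𝓞 Ω)} [P.IsMaximal]
    (h : (q : 𝓞 Ω) ∈ P) (u : (ZMod q)ˣ) : ∃ τ ∈ P.inertia (Ω ≃ₐ[ℚ] Ω), cyc q τ = u := by
  have h1 : ((P.inertia (Ω ≃ₐ[ℚ] Ω)).map (cyc q)).comap (cyc (Ω := Ω) q) = ⊤ := by
    refine eq_top_of_open _ (Filter.mem_of_superset (cyc_nhds q) fun g hg => ?_) fun P' _ g hg => ?_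
    · rw [SetLike.mem_coe, Subgroup.mem_comap, hg]
      exact one_mem _
    · rw [Subgroup.mem_comap]
      by_cases h' : (q : 𝓞 Ω) ∈ P'
      · obtain ⟨a, ha⟩ := exists_conj hq.out h h'
        refine ⟨_, ha g hg, ?_⟩
        rw [map_mul, map_mul, map_inv, mul_right_comm, inv_mul_cancel, one_mul]
      · rw [cyc_inertia h' hg]
        exact one_mem _
  obtain ⟨g, rfl⟩ := cyc_surj (Ω := Ω) q u
  have : g ∈ ((P.inertia (Ω ≃ₐ[ℚ] Ω)).map (cyc q)).comap (cyc (Ω := Ω) q) := h1 ▸ Subgroup.mem_top g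
  exact this

/-- additive characters are unramified at primes not congruent to `0, 1` -/
lemma add_unram {p : ℕ} [hp : Fact p.Prime] {V : Type*} [CommGroup V] (hV : ∀ v : V, v ^ p = 1)
    (f : (Ω ≃ₐ[ℚ] Ω) →* V) (hf : {g | f g = 1} ∈ 𝓝 1) {P : Ideal (𝓞 Ω)} [P.IsMaximal] {l : ℕ}
    (hl : l.Prime) (h : (l : 𝓞 Ω) ∈ P) (h1 : l ≠ p) (h2 : ¬ l ≡ 1 [MOD p])
    {u : Ω ≃ₐ[ℚ] Ω} (hu : u ∈ P.inertia (Ω ≃ₐ[ℚ] Ω)) : f u = 1 := by
  obtain ⟨σ, hσ⟩ := exists_frob P hl h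
  obtain ⟨a, ha⟩ := wild_rel hl h hσ hu hf
  have ha' : f _ = 1 := ha
  rw [map_pow] at ha'
  have h3 := eq_one_of_pow_of_coprime (((Nat.coprime_primes hp.out hl).mpr h1.symm).pow_right a)
    (hV _) ha'
  rw [map_mul, map_mul, map_mul, map_inv, map_inv, map_pow, mul_inv_cancel_comm,
    mul_inv_eq_one] at h3
  obtain ⟨k, rfl⟩ := Nat.exists_eq_succ_of_ne_zero hl.ne_zero
  rw [pow_succ, eq_comm, mul_eq_right] at h3
  refine eq_one_of_pow_of_coprime ((Nat.Prime.coprime_iff_not_dvd hp.out).mpr fun hd => h2 ?_)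
    (hV _) h3
  exact ((Nat.modEq_zero_iff_dvd.mpr hd).add_right 1)

/-- structure of additive characters unramified outside `S` -/
theorem add_structure {p : ℕ} [hp : Fact p.Prime] {ι : Type} [Fintype ι] (q : ι → ℕ)
    [hq : ∀ j, Fact (q j).Prime] (hinj : Function.Injective q) (hqp : ∀ j, q j ≠ p)
    (ψ : ∀ j, (ZMod (q j))ˣ →* Multiplicative (ZMod p))
    (P : ι → Ideal (𝓞 Ω)) [∀ j, (P j).IsMaximal] (hP : ∀ j, (q j : 𝓞 Ω) ∈ P j)
    (τ : ι → Ω ≃ₐ[ℚ] Ω) (hτ : ∀ j, τ j ∈ (P j).inertia (Ω ≃ₐ[ℚ] Ω))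
    (hτ' : ∀ j, (ψ j (cyc (q j) (τ j))).toAdd = 1)
    {V : Type} [AddCommGroup V] [Module (ZMod p) V] (x : (Ω ≃ₐ[ℚ] Ω) → V)
    (hx : ∀ g h, x (g * h) = x g + x h) (hx1 : {g | x g = 0} ∈ 𝓝 1)
    (hx2 : ∀ (l : ℕ) (Q : Ideal (𝓞 Ω)), l.Prime → Q.IsMaximal → (l : 𝓞 Ω) ∈ Q →
      (l = p ∨ l ≡ 1 [MOD p] ∧ ∀ j, q j ≠ l) → ∀ u ∈ Q.inertia (Ω ≃ₐ[ℚ] Ω), x u = 0)
    (g : Ω ≃ₐ[ℚ] Ω) : x g = ∑ j, (ψ j (cyc (q j) g)).toAdd • x (τ j) := by
  classical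
  have hV : ∀ v : Multiplicative V, v ^ p = 1 := fun v => by
    apply Multiplicative.toAdd.injective
    rw [toAdd_pow, ← Nat.cast_smul_eq_nsmul (ZMod p)]
    simp
  have hZ : ∀ v : Multiplicative (ZMod p), v ^ p = 1 := fun v => by
    apply Multiplicative.toAdd.injective
    rw [toAdd_pow]
    simp
  let f : (Ω ≃ₐ[ℚ] Ω) →* Multiplicative V :=
    MonoidHom.mk' (fun g => Multiplicative.ofAdd (x g)) fun g h => by rw [hx, ofAdd_add]
  let y : (Ω ≃ₐ[ℚ] Ω) →* Multiplicative V :=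
    MonoidHom.mk' (fun g => Multiplicative.ofAdd
      (x g - ∑ j, (ψ j (cyc (q j) g)).toAdd • x (τ j))) fun g h => by
        rw [← ofAdd_add, hx]
        simp only [map_mul, toAdd_mul, add_smul, Finset.sum_add_distrib]
        congr 1
        abel
  have hy : ∀ g, y g = 1 ↔ x g = ∑ j, (ψ j (cyc (q j) g)).toAdd • x (τ j) := fun g => by
    change Multiplicative.ofAdd _ = Multiplicative.ofAdd 0 ↔ _
    rw [Multiplicative.ofAdd.injective.eq_iff, sub_eq_zero]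
  have hy1 : {g | y g = 1} ∈ 𝓝 1 := by
    filter_upwards [hx1, Filter.eventually_all.mpr fun j => cyc_nhds (Ω := Ω) (q j)] with g h1 h2
    rw [hy, h1]
    simp [h2]
  have hmain : ∀ j, ∀ u ∈ (P j).inertia (Ω ≃ₐ[ℚ] Ω), y u = 1 := by
    intro j u hu
    obtain ⟨γ, hγ⟩ := cyclic_inertia (hq j).out (hP j) (f.prod ((ψ j).comp (cyc (q j))))
      (by
        filter_upwards [hx1, cyc_nhds (Ω := Ω) (q j)] with g h1 h2
        ext
        · exact h1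
        · simp [h2])
      ((Nat.coprime_primes hp.out (hq j).out).mpr (hqp j).symm)
      (fun γ => Prod.ext (hV _) (hZ _))
    obtain ⟨a, ha⟩ := hγ u hu
    obtain ⟨b, hb⟩ := hγ _ (hτ j)
    have a1 : x u = a • γ.1.toAdd := congrArg (fun z => z.1.toAdd) ha
    have a2 : (ψ j (cyc (q j) u)).toAdd = a • γ.2.toAdd := congrArg (fun z => z.2.toAdd) ha
    have b1 : x (τ j) = b • γ.1.toAdd := congrArg (fun z => z.1.toAdd) hb
    have b2 : (ψ j (cyc (q j) (τ j))).toAdd = b • γ.2.toAdd := congrArg (fun z => z.2.toAdd) hb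
    rw [hτ'] at b2
    rw [hy, Finset.sum_eq_single j _ (by simp), a1, a2, b1, smul_assoc, smul_comm _ b,
      ← smul_assoc b, ← b2, one_smul]
    intro i _ hi
    rw [cyc_inertia (not_mem_of_coprime (hP j)
      ((Nat.coprime_primes (hq j).out (hq i).out).mpr fun e => hi (hinj e).symm)) hu]
    simp
  have : y.ker = ⊤ := by
    refine eq_top_of_open _ hy1 fun Q _ u hu => ?_
    obtain ⟨l, hl, hlQ⟩ := exists_prime_mem Q
    rw [MonoidHom.mem_ker]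
    by_cases h1 : ∃ j, q j = l
    · obtain ⟨j, rfl⟩ := h1
      obtain ⟨a, ha⟩ := exists_conj hl (hP j) hlQ
      have := hmain j _ (ha u hu)
      rwa [map_mul, map_mul, map_inv, mul_right_comm, inv_mul_cancel, one_mul] at this
    push Not at h1
    by_cases h2 : l = p ∨ l ≡ 1 [MOD p]
    · rw [hy, hx2 l Q hl ‹_› hlQ (h2.imp_right fun h => ⟨h, h1⟩) u hu, eq_comm]
      refine Finset.sum_eq_zero fun j _ => ?_
      rw [cyc_inertia (not_mem_of_coprime hlQ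
        ((Nat.coprime_primes hl (hq j).out).mpr (h1 j).symm)) hu]
      simp
    · push Not at h2
      exact add_unram hV y hy1 hl hlQ h2.1 h2.2 hu
  exact (hy g).mp (by rw [← MonoidHom.mem_ker, this]; trivial)

end Pool.Agent.MP_f68ac8_nt
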