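import Mathlib
import Pool.Agent.MP_f68ac8_nt.PvAux

namespace Pool.Agent.MP_f68ac8_nt.Pv
open Ev

section tr
open Finset Module
variable {p : ℕ} [Fact p.Prime] {Γ : Type} [Group Γ]

/-- group elements inside the group algebra -/
noncomputable def og_PvTr (p : ℕ) [Fact p.Prime] : Γ →* MonoidAlgebra (ZMod p) Γ :=
  MonoidAlgebra.of (ZMod p) Γ

lemma og_def_PvTr (g : Γ) : og_PvTr p g = MonoidAlgebra.single g 1 := rfl

/-- the sum of the first powers of an element -/
noncomputable def nn_PvTr (p : ℕ) [Fact p.Prime] (s : Γ) (n : ℕ) : MonoidAlgebra (ZMod p) Γ :=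
  ∑ i ∈ range n, og_PvTr p (s ^ i)

lemma nn_left_PvTr {s : Γ} {n : ℕ} (h : s ^ n = 1) :
    og_PvTr p s * nn_PvTr p s n = nn_PvTr p s n := by
  have h1 := Finset.sum_range_succ (fun i => og_PvTr p (s ^ i)) n
  have h2 := Finset.sum_range_succ' (fun i => og_PvTr p (s ^ i)) n
  rw [h1, h, pow_zero] at h2
  have h3 := add_right_cancel h2
  unfold nn_PvTr
  rw [Finset.mul_sum]
  conv_rhs => rw [h3]
  refine Finset.sum_congr rfl fun i _ => ?_
  rw [← map_mul, pow_succ']

lemma nn_right_PvTr {s : Γ} {n : ℕ} (h : s ^ n = 1) :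
    nn_PvTr p s n * og_PvTr p s = nn_PvTr p s n := by
  conv_rhs => rw [← nn_left_PvTr (p := p) h]
  unfold nn_PvTr
  rw [Finset.mul_sum, Finset.sum_mul]
  refine Finset.sum_congr rfl fun i _ => ?_
  rw [← map_mul, ← map_mul, ← pow_succ, ← pow_succ']

variable {s t : Γ} {a e : ℕ}

lemma a_pow_PvTr (h : Bor p s t a e) : (a : ZMod p) ^ e = 1 := by
  rw [← h.oa]; exact pow_orderOf_eq_one _

lemma a_ne_PvTr (h : Bor p s t a e) : (a : ZMod p) ≠ 0 := by
  intro h0
  have := a_pow_PvTr h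
  rw [h0, zero_pow h.pos.ne'] at this
  exact zero_ne_one this

lemma e_ne_PvTr (h : Bor p s t a e) : (e : ZMod p) ≠ 0 := by
  have h1 := ZMod.orderOf_dvd_card_sub_one (a_ne_PvTr h)
  rw [h.oa] at h1
  have hp := (Fact.out : p.Prime).two_le
  have h2 : e ≤ p - 1 := Nat.le_of_dvd (by omega) h1
  intro h0
  rw [ZMod.natCast_eq_zero_iff] at h0
  have := Nat.le_of_dvd h.pos h0
  omega

lemma sp_PvTr (h : Bor p s t a e) : s ^ p = 1 := by
  rw [← h.os]; exact pow_orderOf_eq_one _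

lemma t_pow_PvTr (h : Bor p s t a e) (i : ℕ) : t * s ^ i = s ^ (a * i) * t := by
  induction i with
  | zero => simp
  | succ i ih => rw [pow_succ, ← mul_assoc, ih, mul_assoc, h.rel, ← mul_assoc, ← pow_add, mul_add,
      mul_one]

lemma tj_PvTr (h : Bor p s t a e) (j : ℕ) : t ^ j * s = s ^ (a ^ j) * t ^ j := by
  induction j with
  | zero => simp
  | succ j ih => rw [pow_succ', mul_assoc, ih, ← mul_assoc, t_pow_PvTr h, mul_assoc, ← pow_succ',
      ← pow_succ']

lemma pow_eq_PvTr (h : Bor p s t a e) {i j : ℕ} :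
    s ^ i = s ^ j ↔ (i : ZMod p) = (j : ZMod p) := by
  rw [pow_eq_pow_iff_modEq, h.os, ZMod.natCast_eq_natCast_iff]

lemma t_nn_PvTr (h : Bor p s t a e) :
    og_PvTr p t * nn_PvTr p s p = nn_PvTr p s p * og_PvTr p t := by
  unfold nn_PvTr
  rw [Finset.mul_sum, Finset.sum_mul]
  have hp := (Fact.out : p.Prime).pos
  refine Finset.sum_bij (fun i _ => a * i % p) (fun i _ => mem_range.2 (Nat.mod_lt _ hp))
    ?_ ?_ ?_
  · intro i hi j hj hij
    have h1 : ((a * i : ℕ) : ZMod p) = ((a * j : ℕ) : ZMod p) := by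
      rw [ZMod.natCast_eq_natCast_iff]; exact hij
    push_cast at h1
    have h2 := mul_left_cancel₀ (a_ne_PvTr h) h1
    rw [ZMod.natCast_eq_natCast_iff] at h2
    exact Nat.ModEq.eq_of_lt_of_lt h2 (mem_range.1 hi) (mem_range.1 hj)
  · intro j hj
    refine ⟨((a : ZMod p)⁻¹ * j).val, mem_range.2 (ZMod.val_lt _), ?_⟩
    have h1 : ((a * ((a : ZMod p)⁻¹ * j).val : ℕ) : ZMod p) = (j : ZMod p) := by
      push_cast
      rw [ZMod.natCast_val, ZMod.cast_id', id, ← mul_assoc, mul_inv_cancel₀ (a_ne_PvTr h), one_mul]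
    rw [ZMod.natCast_eq_natCast_iff] at h1
    have h2 : a * ((a : ZMod p)⁻¹ * j).val % p = j % p := h1
    rw [h2, Nat.mod_eq_of_lt (mem_range.1 hj)]
  · intro i _
    rw [← map_mul, ← map_mul, t_pow_PvTr h]
    congr 2
    rw [pow_eq_PvTr h, ZMod.natCast_mod]

lemma tj_nn_PvTr (h : Bor p s t a e) (j : ℕ) :
    og_PvTr p (t ^ j) * nn_PvTr p s p = nn_PvTr p s p * og_PvTr p (t ^ j) := by
  induction j with
  | zero => simp
  | succ j ih => rw [pow_succ, map_mul, mul_assoc, t_nn_PvTr h, ← mul_assoc, ih, mul_assoc]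

lemma nn_comm_PvTr (h : Bor p s t a e) :
    nn_PvTr p t e * nn_PvTr p s p = nn_PvTr p s p * nn_PvTr p t e := by
  conv_lhs => rw [nn_PvTr]
  conv_rhs => rw [show nn_PvTr p t e = ∑ j ∈ range e, og_PvTr p (t ^ j) from rfl]
  rw [Finset.sum_mul, Finset.mul_sum]
  exact Finset.sum_congr rfl fun j _ => tj_nn_PvTr h j

lemma fix_PvTr {V : Type} [AddCommGroup V] [Module (ZMod p) V]
    (φ : MonoidAlgebra (ZMod p) Γ →ₐ[ZMod p] Module.End (ZMod p) V) {x : V}
    (hs : φ (og_PvTr p s) x = x) (ht : φ (og_PvTr p t) x = x) :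
    ∀ b ∈ Subgroup.closure {s, t}, φ (og_PvTr p b) x = x := by
  intro b hb
  induction hb using Subgroup.closure_induction with
  | mem y hy =>
    rcases hy with rfl | rfl
    · exact hs
    · exact ht
  | one => rw [map_one, map_one]; rfl
  | mul y z _ _ hy hz => rw [map_mul, map_mul, Module.End.mul_apply, hz, hy]
  | inv y _ hy =>
    conv_lhs => rw [← hy]
    rw [← Module.End.mul_apply, ← map_mul, ← map_mul, inv_mul_cancel, map_one, map_one]; rfl

lemma nb_left_PvTr (h : Bor p s t a e) : ∀ b ∈ Subgroup.closure {s, t},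
    og_PvTr p b * (nn_PvTr p s p * nn_PvTr p t e) = nn_PvTr p s p * nn_PvTr p t e := by
  refine fix_PvTr (Algebra.lmul (ZMod p) (MonoidAlgebra (ZMod p) Γ)) ?_ ?_
  · change og_PvTr p s * _ = _
    rw [← mul_assoc, nn_left_PvTr (sp_PvTr h)]
  · change og_PvTr p t * _ = _
    rw [← nn_comm_PvTr h, ← mul_assoc, nn_left_PvTr h.ot]

open Classical in
lemma nb_coeff_PvTr (h : Bor p s t a e) (g : Γ) :
    (nn_PvTr p s p * nn_PvTr p t e).coeff g =
      if g ∈ Subgroup.closure {s, t} then 1 else 0 := by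
  have hs : s ∈ Subgroup.closure {s, t} := Subgroup.subset_closure (by simp)
  have ht : t ∈ Subgroup.closure {s, t} := Subgroup.subset_closure (by simp)
  have key : ∀ g : Γ, (nn_PvTr p s p * nn_PvTr p t e).coeff g =
      ∑ i ∈ range p, ∑ j ∈ range e, if s ^ i * t ^ j = g then (1 : ZMod p) else 0 := by
    intro g
    unfold nn_PvTr
    rw [Finset.sum_mul_sum, MonoidAlgebra.coeff_sum, Finsupp.finsetSum_apply]
    refine Finset.sum_congr rfl fun i _ => ?_
    rw [MonoidAlgebra.coeff_sum, Finsupp.finsetSum_apply]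
    refine Finset.sum_congr rfl fun j _ => ?_
    rw [← map_mul, og_def_PvTr, MonoidAlgebra.coeff_single, Finsupp.single_apply]
  split_ifs with hg
  · have h1 := nb_left_PvTr h g hg
    rw [← h1, og_def_PvTr, MonoidAlgebra.coeff_single_mul_apply, one_mul,
      inv_mul_cancel, key]
    have hp := (Fact.out : p.Prime).pos
    have h2 : ∀ i ∈ range p, ∀ j ∈ range e, s ^ i * t ^ j = 1 → i = 0 ∧ j = 0 := by
      intro i hi j hj hij
      have h3 : t ^ j = (s ^ i)⁻¹ := eq_inv_of_mul_eq_one_right hij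
      have h4 := tj_PvTr h j
      rw [h3] at h4
      have h5 : (s ^ i)⁻¹ * s = s * (s ^ i)⁻¹ :=
        ((Commute.refl s).pow_left i).inv_left.eq
      rw [h5] at h4
      have h6 : s ^ 1 = s ^ (a ^ j) := by rw [pow_one]; exact mul_right_cancel h4
      rw [pow_eq_PvTr h] at h6
      push_cast at h6
      have h7 : e ∣ j := by rw [← h.oa]; exact orderOf_dvd_of_pow_eq_one h6.symm
      have h8 : j = 0 := Nat.eq_zero_of_dvd_of_lt h7 (mem_range.1 hj)
      rw [h8, pow_zero, mul_one] at hij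
      have h9 : p ∣ i := by rw [← h.os]; exact orderOf_dvd_of_pow_eq_one hij
      exact ⟨Nat.eq_zero_of_dvd_of_lt h9 (mem_range.1 hi), h8⟩
    rw [Finset.sum_eq_single_of_mem 0 (mem_range.2 hp), Finset.sum_eq_single_of_mem 0
      (mem_range.2 h.pos)]
    · simp
    · intro j hj hj0
      rw [if_neg fun h3 => hj0 (h2 0 (mem_range.2 hp) j hj h3).2]
    · intro i hi hi0
      refine Finset.sum_eq_zero fun j hj => ?_
      rw [if_neg fun h3 => hi0 (h2 i hi j hj h3).1]
  · rw [key]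
    refine Finset.sum_eq_zero fun i _ => Finset.sum_eq_zero fun j _ => ?_
    rw [if_neg]
    rintro rfl
    exact hg (mul_mem (pow_mem hs i) (pow_mem ht j))

/-- the sum of all group elements -/
noncomputable def ng_PvTr (p : ℕ) [Fact p.Prime] (Γ : Type) [Group Γ] [Fintype Γ] :
    MonoidAlgebra (ZMod p) Γ :=
  ∑ g : Γ, og_PvTr p g

lemma ng_coeff_PvTr [Fintype Γ] (g : Γ) : (ng_PvTr p Γ).coeff g = 1 := by
  classical
  unfold ng_PvTr
  rw [MonoidAlgebra.coeff_sum, Finsupp.finsetSum_apply]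
  simp only [og_def_PvTr, MonoidAlgebra.coeff_single, Finsupp.single_apply]
  simp

lemma ng_left_PvTr [Fintype Γ] (g : Γ) : og_PvTr p g * ng_PvTr p Γ = ng_PvTr p Γ := by
  ext x
  rw [og_def_PvTr, MonoidAlgebra.coeff_single_mul_apply, one_mul,
    ng_coeff_PvTr, ng_coeff_PvTr]

lemma tau_nb_PvTr [Fintype Γ] (h : Bor p s t a e) [Fintype (Γ ⧸ Subgroup.closure {s, t})] :
    (∑ q : Γ ⧸ Subgroup.closure {s, t}, og_PvTr p q.out) * (nn_PvTr p s p * nn_PvTr p t e) =
      ng_PvTr p Γ := by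
  classical
  ext x
  rw [ng_coeff_PvTr, Finset.sum_mul, MonoidAlgebra.coeff_sum, Finsupp.finsetSum_apply,
    Finset.sum_eq_single (x : Γ ⧸ Subgroup.closure {s, t})]
  · rw [og_def_PvTr, MonoidAlgebra.coeff_single_mul_apply, one_mul,
      nb_coeff_PvTr h, if_pos]
    rw [← QuotientGroup.eq, QuotientGroup.out_eq']
  · intro q _ hq
    rw [og_def_PvTr, MonoidAlgebra.coeff_single_mul_apply, one_mul,
      nb_coeff_PvTr h, if_neg]
    rw [← QuotientGroup.eq, QuotientGroup.out_eq']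
    exact hq
  · intro h1; exact absurd (mem_univ _) h1

lemma nb_tau_PvTr [Fintype Γ] (h : Bor p s t a e) [Fintype (Γ ⧸ Subgroup.closure {s, t})] :
    (nn_PvTr p s p * nn_PvTr p t e) * (∑ q : Γ ⧸ Subgroup.closure {s, t}, og_PvTr p q.out⁻¹) =
      ng_PvTr p Γ := by
  classical
  ext x
  rw [ng_coeff_PvTr, Finset.mul_sum, MonoidAlgebra.coeff_sum, Finsupp.finsetSum_apply,
    Finset.sum_eq_single ((x⁻¹ : Γ) : Γ ⧸ Subgroup.closure {s, t})]
  · rw [og_def_PvTr, MonoidAlgebra.coeff_mul_single_apply, mul_one,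
      nb_coeff_PvTr h, if_pos]
    rw [inv_inv]
    conv => arg 2; arg 1; rw [← inv_inv x]
    rw [← QuotientGroup.eq, QuotientGroup.out_eq']
  · intro q _ hq
    rw [og_def_PvTr, MonoidAlgebra.coeff_mul_single_apply, mul_one,
      nb_coeff_PvTr h, if_neg]
    rw [inv_inv]
    conv => arg 1; arg 2; arg 1; rw [← inv_inv x]
    rw [← QuotientGroup.eq, QuotientGroup.out_eq']
    exact fun h1 => hq h1.symm
  · intro h1; exact absurd (mem_univ _) h1

lemma out_smul_PvTr {B : Subgroup Γ} {V : Type} [AddCommGroup V] [Module (ZMod p) V]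
    (φ : MonoidAlgebra (ZMod p) Γ →ₐ[ZMod p] Module.End (ZMod p) V) {x : V}
    (hx : ∀ b ∈ B, φ (og_PvTr p b) x = x) (g : Γ) (q : Γ ⧸ B) :
    φ (og_PvTr p (g • q).out) x = φ (og_PvTr p (g * q.out)) x := by
  have h1 : ((g * q.out : Γ) : Γ ⧸ B) = ((g • q).out : Γ) := by
    rw [QuotientGroup.out_eq', ← smul_eq_mul, ← MulAction.Quotient.smul_mk, QuotientGroup.out_eq']
  rw [QuotientGroup.eq] at h1
  have h2 : (g • q).out = (g * q.out) * ((g * q.out)⁻¹ * (g • q).out) := by group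
  rw [h2, map_mul, map_mul, Module.End.mul_apply, hx _ h1]

lemma free_PvTr (h : Bor p s t a e) (q : Γ ⧸ Subgroup.closure {s, t})
    (hq : q ≠ ((1 : Γ) : Γ ⧸ Subgroup.closure {s, t})) {i j : ℕ} (hi : i < p) (hj : j < p)
    (hij : s ^ i • q = s ^ j • q) : i = j := by
  have hper : MulAction.period s q = p := by
    have h1 : MulAction.period s q ∣ p := by
      rw [← MulAction.pow_smul_eq_iff_period_dvd, sp_PvTr h, one_smul]
    rcases (Nat.dvd_prime (Fact.out : p.Prime)).1 h1 with h2 | h2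
    · exfalso
      have h3 : s • q = q := by
        have := (MulAction.pow_smul_eq_iff_period_dvd (m := s) (a := q) (n := 1)).2 (by rw [h2])
        rwa [pow_one] at this
      apply hq
      induction q using QuotientGroup.induction_on with
      | H g =>
        rw [MulAction.Quotient.smul_mk, smul_eq_mul, eq_comm, QuotientGroup.eq] at h3
        rw [QuotientGroup.eq, mul_one]
        apply h.ti
        rw [inv_inv, mul_assoc]
        exact h3
    · exact h2
  have key : ∀ i j : ℕ, j < p → i ≤ j → s ^ i • q = s ^ j • q → i = j := by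
    intro i j hj hle hij
    obtain ⟨d, rfl⟩ := Nat.exists_eq_add_of_le hle
    rw [pow_add, mul_smul, smul_left_cancel_iff, eq_comm, MulAction.pow_smul_eq_iff_period_dvd,
      hper] at hij
    have := Nat.eq_zero_of_dvd_of_lt hij (by omega)
    omega
  rcases le_total i j with h1 | h1
  · exact key i j hj h1 hij
  · exact (key j i hi h1 hij.symm).symm

lemma orb_PvTr (h : Bor p s t a e) (A : Finset (Γ ⧸ Subgroup.closure {s, t})) :
    (∀ q ∈ A, s • q ∈ A) → ((1 : Γ) : Γ ⧸ Subgroup.closure {s, t}) ∉ A →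
    ∃ c : MonoidAlgebra (ZMod p) Γ, ∀ (V : Type) [AddCommGroup V] [Module (ZMod p) V]
      (φ : MonoidAlgebra (ZMod p) Γ →ₐ[ZMod p] Module.End (ZMod p) V) (x : V),
      (∀ b ∈ Subgroup.closure {s, t}, φ (og_PvTr p b) x = x) →
      ∑ q ∈ A, φ (og_PvTr p q.out) x = φ (nn_PvTr p s p * c) x := by
  classical
  induction A using Finset.strongInduction with
  | H A ih =>
  intro hA h1
  rcases A.eq_empty_or_nonempty with rfl | ⟨q₀, hq₀⟩
  · exact ⟨0, fun V _ _ φ x _ => by simp⟩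
  have hp := (Fact.out : p.Prime).pos
  have hq1 : q₀ ≠ ((1 : Γ) : Γ ⧸ Subgroup.closure {s, t}) := fun h2 => h1 (h2 ▸ hq₀)
  have hpow : ∀ i : ℕ, s ^ i • q₀ ∈ A := by
    intro i
    induction i with
    | zero => simpa using hq₀
    | succ i ih => rw [pow_succ', mul_smul]; exact hA _ ih
  set O := (range p).image fun i => s ^ i • q₀ with hO
  have hOA : O ⊆ A := by
    intro q hq
    obtain ⟨i, _, rfl⟩ := mem_image.1 hq
    exact hpow i
  have hq₀O : q₀ ∈ O := mem_image.2 ⟨0, mem_range.2 hp, by simp⟩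
  obtain ⟨c, hc⟩ := ih (A \ O) (sdiff_ssubset hOA ⟨q₀, hq₀O⟩) (by
    intro q hq
    rw [mem_sdiff] at hq ⊢
    refine ⟨hA _ hq.1, fun h2 => hq.2 ?_⟩
    obtain ⟨i, _, hi⟩ := mem_image.1 h2
    refine mem_image.2 ⟨(p - 1 + i) % p, mem_range.2 (Nat.mod_lt _ hp), ?_⟩
    have h3 : s ^ ((p - 1 + i) % p) = s ^ (p - 1 + i) := by
      rw [pow_eq_PvTr h, ZMod.natCast_mod]
    rw [h3, pow_add, mul_smul, hi, ← mul_smul, ← pow_succ, Nat.sub_add_cancel hp, sp_PvTr h,
      one_smul]) (fun h2 => h1 (mem_sdiff.1 h2).1)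
  refine ⟨c + og_PvTr p q₀.out, fun V _ _ φ x hx => ?_⟩
  rw [← Finset.sum_sdiff hOA, hc V φ x hx, mul_add, map_add, LinearMap.add_apply, hO,
    Finset.sum_image fun i hi j hj hij =>
      free_PvTr h q₀ hq1 (mem_range.1 hi) (mem_range.1 hj) hij]
  congr 1
  unfold nn_PvTr
  rw [Finset.sum_mul, map_sum, LinearMap.sum_apply]
  refine Finset.sum_congr rfl fun i _ => ?_
  rw [out_smul_PvTr φ hx, ← map_mul]

/-- the abstract data -/
structure Dat_PvTr (p : ℕ) [Fact p.Prime] (B : Subgroup Γ)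
    (N G τ c : MonoidAlgebra (ZMod p) Γ) : Prop where
  nfix : ∀ b ∈ B, og_PvTr p b * N = N
  gfix : ∀ g, og_PvTr p g * G = G
  tn : τ * N = G
  nt : ∃ τ', N * τ' = G
  tinv : ∀ (V : Type) [AddCommGroup V] [Module (ZMod p) V]
      (φ : MonoidAlgebra (ZMod p) Γ →ₐ[ZMod p] Module.End (ZMod p) V) (x : V),
      (∀ b ∈ B, φ (og_PvTr p b) x = x) → ∀ g, φ (og_PvTr p g) (φ τ x) = φ τ x
  tid : ∀ (V : Type) [AddCommGroup V] [Module (ZMod p) V]
      (φ : MonoidAlgebra (ZMod p) Γ →ₐ[ZMod p] Module.End (ZMod p) V) (x : V),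
      (∀ g, φ (og_PvTr p g) x = x) → φ τ x = x
  nc : ∀ (V : Type) [AddCommGroup V] [Module (ZMod p) V]
      (φ : MonoidAlgebra (ZMod p) Γ →ₐ[ZMod p] Module.End (ZMod p) V) (x : V),
      (∀ b ∈ B, φ (og_PvTr p b) x = x) → φ N (φ c x) = x - φ τ x

lemma inv_all_PvTr {V : Type} [AddCommGroup V] [Module (ZMod p) V]
    (φ : MonoidAlgebra (ZMod p) Γ →ₐ[ZMod p] Module.End (ZMod p) V) {x : V}
    (hx : ∀ g, φ (og_PvTr p g) x = x) (c : MonoidAlgebra (ZMod p) Γ) :
    ∃ r : ZMod p, φ c x = r • x := by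
  induction c using MonoidAlgebra.induction_on with
  | of g => exact ⟨1, by rw [one_smul]; exact hx g⟩
  | add f g hf hg =>
    obtain ⟨r, hr⟩ := hf
    obtain ⟨u, hu⟩ := hg
    exact ⟨r + u, by rw [map_add, LinearMap.add_apply, hr, hu, add_smul]⟩
  | smul r f hf =>
    obtain ⟨u, hu⟩ := hf
    exact ⟨r * u, by rw [map_smul, LinearMap.smul_apply, hu, mul_smul]⟩

lemma nn_fix_PvTr {V : Type} [AddCommGroup V] [Module (ZMod p) V]
    (φ : MonoidAlgebra (ZMod p) Γ →ₐ[ZMod p] Module.End (ZMod p) V) {x : V} {u : Γ}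
    (hx : φ (og_PvTr p u) x = x) (n : ℕ) : φ (nn_PvTr p u n) x = (n : ZMod p) • x := by
  have h1 : ∀ i : ℕ, φ (og_PvTr p (u ^ i)) x = x := by
    intro i
    induction i with
    | zero => rw [pow_zero, map_one, map_one]; rfl
    | succ i ih => rw [pow_succ, map_mul, map_mul, Module.End.mul_apply, hx, ih]
  unfold nn_PvTr
  rw [map_sum, LinearMap.sum_apply, Finset.sum_congr rfl fun i _ => h1 i, Finset.sum_const,
    card_range, Nat.cast_smul_eq_nsmul]

lemma dat_PvTr [Fintype Γ] (h : Bor p s t a e) : ∃ τ c, Dat_PvTr p (Subgroup.closure {s, t})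
    (nn_PvTr p s p * nn_PvTr p t e) (ng_PvTr p Γ) τ c := by
  classical
  have hs : s ∈ Subgroup.closure {s, t} := Subgroup.subset_closure (by simp)
  have ht : t ∈ Subgroup.closure {s, t} := Subgroup.subset_closure (by simp)
  obtain ⟨c₀, hc₀⟩ := orb_PvTr h (univ.erase ((1 : Γ) : Γ ⧸ Subgroup.closure {s, t})) (by
    intro q hq
    rw [mem_erase] at hq ⊢
    refine ⟨fun h1 => hq.1 ?_, mem_univ _⟩
    rw [smul_eq_iff_eq_inv_smul] at h1
    rw [h1, MulAction.Quotient.smul_mk, QuotientGroup.eq]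
    simpa using hs) (notMem_erase _ _)
  have hτ : ∀ (V : Type) [AddCommGroup V] [Module (ZMod p) V]
      (φ : MonoidAlgebra (ZMod p) Γ →ₐ[ZMod p] Module.End (ZMod p) V) (x : V),
      (∀ b ∈ Subgroup.closure {s, t}, φ (og_PvTr p b) x = x) →
      φ (∑ q : Γ ⧸ Subgroup.closure {s, t}, og_PvTr p q.out) x =
        x + φ (nn_PvTr p s p) (φ c₀ x) := by
    intro V _ _ φ x hx
    rw [map_sum, LinearMap.sum_apply, ← Finset.add_sum_erase _ _
      (mem_univ ((1 : Γ) : Γ ⧸ Subgroup.closure {s, t})), hc₀ V φ x hx, map_mul,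
      Module.End.mul_apply, hx]
    have h1 := QuotientGroup.out_eq' ((1 : Γ) : Γ ⧸ Subgroup.closure {s, t})
    rw [eq_comm, QuotientGroup.eq] at h1
    simpa using h1
  have hinv : ∀ (V : Type) [AddCommGroup V] [Module (ZMod p) V]
      (φ : MonoidAlgebra (ZMod p) Γ →ₐ[ZMod p] Module.End (ZMod p) V) (x : V),
      (∀ b ∈ Subgroup.closure {s, t}, φ (og_PvTr p b) x = x) → ∀ g,
      φ (og_PvTr p g) (φ (∑ q : Γ ⧸ Subgroup.closure {s, t}, og_PvTr p q.out) x) =
        φ (∑ q : Γ ⧸ Subgroup.closure {s, t}, og_PvTr p q.out) x := by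
    intro V _ _ φ x hx g
    rw [map_sum, LinearMap.sum_apply, map_sum]
    refine Fintype.sum_equiv (MulAction.toPerm g) _ _ fun q => ?_
    rw [MulAction.toPerm_apply, out_smul_PvTr φ hx, map_mul, map_mul, Module.End.mul_apply]
  refine ⟨∑ q : Γ ⧸ Subgroup.closure {s, t}, og_PvTr p q.out, -((e : ZMod p)⁻¹ • c₀),
    nb_left_PvTr h, ng_left_PvTr, tau_nb_PvTr h, ⟨_, nb_tau_PvTr h⟩, hinv, ?_, ?_⟩
  · intro V _ _ φ x hx
    rw [hτ V φ x fun b _ => hx b]
    obtain ⟨r, hr⟩ := inv_all_PvTr φ hx c₀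
    rw [hr, map_smul, nn_fix_PvTr φ (hx s), ZMod.natCast_self, zero_smul, smul_zero, add_zero]
  · intro V _ _ φ x hx
    have h1 := hτ V φ x hx
    have h2 : φ (nn_PvTr p s p) (φ c₀ x) =
        φ (∑ q : Γ ⧸ Subgroup.closure {s, t}, og_PvTr p q.out) x - x := by
      rw [h1]; abel
    rw [← nn_comm_PvTr h, map_mul, Module.End.mul_apply, map_neg, map_smul, LinearMap.neg_apply,
      LinearMap.smul_apply, map_neg, map_smul, h2, map_neg, map_smul,
      nn_fix_PvTr φ (by rw [map_sub, hinv V φ x hx, hx t ht]), smul_smul,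
      inv_mul_cancel₀ (e_ne_PvTr h), one_smul, neg_sub]

section main
variable {B : Subgroup Γ} {N G τ c : MonoidAlgebra (ZMod p) Γ}
  {V : Type} [AddCommGroup V] [Module (ZMod p) V]
  (φ : MonoidAlgebra (ZMod p) Γ →ₐ[ZMod p] Module.End (ZMod p) V)

lemma diff_PvTr (D : Dat_PvTr p B N G τ c) (v : V) :
    (∀ b ∈ B, φ (og_PvTr p b) (φ (N - G) v) = φ (N - G) v) ∧ φ τ (φ (N - G) v) = 0 := by
  constructor
  · intro b hb
    rw [← Module.End.mul_apply, ← map_mul, mul_sub, D.nfix b hb, D.gfix]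
  · rw [map_sub, LinearMap.sub_apply, map_sub, ← Module.End.mul_apply, ← map_mul, D.tn,
      D.tid V φ (φ G v), sub_self]
    intro g
    rw [← Module.End.mul_apply, ← map_mul, D.gfix]

lemma eps_id_PvTr (D : Dat_PvTr p B N G τ c) {x : V} (hx : ∀ b ∈ B, φ (og_PvTr p b) x = x)
    (h0 : φ τ x = 0) : φ ((N - G) * c) x = x := by
  have h1 := D.nc V φ x hx
  rw [h0, sub_zero] at h1
  rw [map_mul, Module.End.mul_apply, map_sub, LinearMap.sub_apply, h1]
  conv_lhs => rw [← D.tn]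
  rw [map_mul, Module.End.mul_apply, h1, h0, sub_zero]

lemma mem_eps_PvTr (D : Dat_PvTr p B N G τ c) (x : V) :
    x ∈ LinearMap.range (φ ((N - G) * c)) ↔
      (∀ b ∈ B, φ (og_PvTr p b) x = x) ∧ φ τ x = 0 := by
  constructor
  · rintro ⟨v, rfl⟩
    rw [map_mul, Module.End.mul_apply]
    exact diff_PvTr φ D _
  · rintro ⟨h1, h2⟩
    exact ⟨x, eps_id_PvTr φ D h1 h2⟩

lemma rank_add_PvTr [FiniteDimensional (ZMod p) V] {U W X : Submodule (ZMod p) V}
    (h1 : W ⊔ X = U) (h2 : W ⊓ X = ⊥) :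
    finrank (ZMod p) U = finrank (ZMod p) W + finrank (ZMod p) X := by
  rw [← Submodule.finrank_sup_add_finrank_inf_eq, h1, h2, finrank_bot, add_zero]

end main

end tr

theorem tr_stmt (p : ℕ) [Fact p.Prime] : TrStmt p := by
  intro Γ _ _ s t a e h
  obtain ⟨τ, c, D⟩ := dat_PvTr h
  refine ⟨(nn_PvTr p s p * nn_PvTr p t e - ng_PvTr p Γ) * c, ?_, ?_⟩
  · have h1 := diff_PvTr (Algebra.lmul (ZMod p) (MonoidAlgebra (ZMod p) Γ)) D c
    exact eps_id_PvTr (Algebra.lmul (ZMod p) (MonoidAlgebra (ZMod p) Γ)) D h1.1 h1.2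
  intro V _ _ _ ρ
  have hog : ∀ g, ρ.asAlgebraHom (og_PvTr p g) = ρ g := fun g => ρ.asAlgebraHom_of g
  have hN : (∑ i ∈ Finset.range p, ρ s ^ i) * ∑ j ∈ Finset.range e, ρ t ^ j =
      ρ.asAlgebraHom (nn_PvTr p s p * nn_PvTr p t e) := by
    unfold nn_PvTr
    rw [map_mul, map_sum, map_sum]
    simp only [hog, map_pow]
  have hG : ∑ g, ρ g = ρ.asAlgebraHom (ng_PvTr p Γ) := by
    unfold ng_PvTr
    rw [map_sum]
    simp only [hog]
  have hs : s ∈ Subgroup.closure {s, t} := Subgroup.subset_closure (by simp)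
  have ht : t ∈ Subgroup.closure {s, t} := Subgroup.subset_closure (by simp)
  have hdis : ∀ x, (∀ g, ρ.asAlgebraHom (og_PvTr p g) x = x) →
      x ∈ LinearMap.range (ρ.asAlgebraHom
        ((nn_PvTr p s p * nn_PvTr p t e - ng_PvTr p Γ) * c)) → x = 0 := by
    intro x h1 h2
    rw [← D.tid V _ x h1]
    exact ((mem_eps_PvTr _ D x).1 h2).2
  rw [hN, hG]
  constructor
  · apply rank_add_PvTr
    · apply le_antisymm
      · apply sup_le
        · rintro _ ⟨v, rfl⟩
          obtain ⟨τ', h1⟩ := D.nt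
          exact ⟨ρ.asAlgebraHom τ' v, by rw [← Module.End.mul_apply, ← map_mul, h1]⟩
        · intro x hx
          obtain ⟨h1, h2⟩ := (mem_eps_PvTr _ D x).1 hx
          exact ⟨_, by rw [D.nc V _ x h1, h2, sub_zero]⟩
      · rintro _ ⟨v, rfl⟩
        refine Submodule.mem_sup.2 ⟨_, ⟨v, rfl⟩, _,
          (mem_eps_PvTr _ D _).2 (diff_PvTr _ D v), ?_⟩
        rw [map_sub, LinearMap.sub_apply]; abel
    · rw [eq_bot_iff]
      rintro _ ⟨⟨v, rfl⟩, h2⟩
      refine hdis _ (fun g => ?_) h2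
      rw [← Module.End.mul_apply, ← map_mul, D.gfix]
  · apply rank_add_PvTr
    · apply le_antisymm
      · apply sup_le
        · intro x hx
          rw [Representation.mem_invariants] at hx
          simp [Submodule.mem_inf, LinearMap.mem_ker, hx]
        · intro x hx
          obtain ⟨h1, -⟩ := (mem_eps_PvTr _ D x).1 hx
          have h2 := h1 s hs
          have h3 := h1 t ht
          rw [hog] at h2 h3
          simp [Submodule.mem_inf, LinearMap.mem_ker, h2, h3]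
      · intro x hx
        obtain ⟨h1, h2⟩ := Submodule.mem_inf.1 hx
        rw [LinearMap.mem_ker, LinearMap.sub_apply, Module.End.one_apply, sub_eq_zero,
          ← hog] at h1 h2
        have h3 := fix_PvTr _ h1 h2
        have h4 := D.tinv V _ x h3
        refine Submodule.mem_sup.2 ⟨ρ.asAlgebraHom τ x, fun g => by rw [← hog]; exact h4 g,
          x - ρ.asAlgebraHom τ x, (mem_eps_PvTr _ D _).2 ⟨fun b hb => ?_, ?_⟩, by abel⟩
        · rw [map_sub, h3 b hb, h4]
        · rw [map_sub, D.tid V _ _ h4, sub_self]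
    · rw [eq_bot_iff]
      rintro x ⟨h1, h2⟩
      exact hdis x (fun g => by rw [hog]; exact h1 g) h2

end Pool.Agent.MP_f68ac8_nt.Pv
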