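import Mathlib
import Pool.Agent.MP_f68ac8_nt.AlAux
import Pool.Agent.MP_f68ac8_nt.PvAlgM
import Pool.Agent.MP_f68ac8_nt.PvCls
import Pool.Agent.MP_f68ac8_nt.PvTr

namespace Pool.Agent.MP_f68ac8_nt.Sv

open Ev Pv Finset Module
open scoped TensorProduct

section gen
variable {k : Type} [Field k] {V : Type} [AddCommGroup V] [Module k V] {Γ : Type} [Group Γ]

lemma range_mul_AlBrA {P Q : Module.End k V} (hP : IsIdempotentElem P) (hQ : IsIdempotentElem Q)
    (h : P * Q = Q * P) : LinearMap.range (P * Q) = LinearMap.range P ⊓ LinearMap.range Q := by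
  refine le_antisymm (le_inf ?_ ?_) ?_
  · rintro _ ⟨x, rfl⟩
    exact ⟨Q x, rfl⟩
  · rintro _ ⟨x, rfl⟩
    exact ⟨P x, by rw [h]; rfl⟩
  · rintro v ⟨⟨x, hx⟩, ⟨y, hy⟩⟩
    refine ⟨v, ?_⟩
    have h1 : Q v = v := by rw [← hy, ← Module.End.mul_apply, hQ]
    have h2 : P v = v := by rw [← hx, ← Module.End.mul_apply, hP]
    rw [Module.End.mul_apply, h1, h2]

lemma ker_smul_AlBrA (T : Module.End k V) {a : k} (ha : a ≠ 0) (μ : k) :
    LinearMap.ker (a • T - μ • 1) = LinearMap.ker (T - (μ / a) • 1) := by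
  rw [← LinearMap.ker_smul (T - (μ / a) • 1) a ha, smul_sub, smul_smul, mul_div_cancel₀ _ ha]

/-- the idempotent of an eigenvalue -/
noncomputable def idm_AlBrA (u : Γ) (n : ℕ) (μ : k) : MonoidAlgebra k Γ :=
  (n : k)⁻¹ • ∑ j ∈ range n, (μ⁻¹ • MonoidAlgebra.of k Γ u) ^ j

lemma idm_idem_AlBrA {u : Γ} {n : ℕ} {μ : k} (hu : u ^ n = 1) (hn : (n : k) ≠ 0)
    (hμ : μ ^ n = 1) : IsIdempotentElem (idm_AlBrA u n μ) :=
  idem_PvAlgM _ (by rw [smul_pow, ← map_pow, hu, map_one, inv_pow, hμ, inv_one, one_smul]) hn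

lemma idm_comm_AlBrA {u c : Γ} (h : u * c = c * u) (n m : ℕ) (μ ε : k) :
    Commute (idm_AlBrA u n μ) (idm_AlBrA c m ε) := by
  have h1 : Commute (MonoidAlgebra.of k Γ u) (MonoidAlgebra.of k Γ c) := by
    rw [Commute, SemiconjBy, ← map_mul, ← map_mul, h]
  refine Commute.smul_left (Commute.smul_right ?_ _) _
  exact Commute.sum_left _ _ _ fun i _ => Commute.sum_right _ _ _ fun j _ =>
    ((h1.smul_left _).smul_right _).pow_pow i j

lemma idm_range_AlBrA (τ : Representation k Γ V) {u : Γ} {n : ℕ} {μ : k} (hu : u ^ n = 1)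
    (hn : (n : k) ≠ 0) (hμ : μ ^ n = 1) :
    LinearMap.range (τ.asAlgebraHom (idm_AlBrA u n μ)) = LinearMap.ker (τ u - μ • 1) := by
  have h0 : μ ≠ 0 := by
    rintro rfl
    rw [zero_pow (by rintro rfl; exact hn Nat.cast_zero)] at hμ
    exact zero_ne_one hμ
  rw [idm_AlBrA, map_smul, map_sum]
  simp only [map_pow, map_smul, Representation.asAlgebraHom_of]
  rw [range_avg_PvAlgM _
    (by rw [smul_pow, ← map_pow, hu, map_one, inv_pow, hμ, inv_one, one_smul]) hn]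
  have := ker_smul_AlBrA (τ u) (inv_ne_zero h0) 1
  rwa [one_smul, one_div, inv_inv] at this

end gen

variable {p : ℕ} [hp : Fact p.Prime] {Γ : Type} [Group Γ]

lemma eg_smul_AlBrA {V : Type} [AddCommGroup V] [Module (ZMod p) V]
    (T C : Module.End (ZMod p) V) {a : ZMod p} (ha : a ≠ 0) (μ ε : ZMod p)
    (U : Submodule (ZMod p) V) : eg (a • T) C μ ε U = eg T C (μ / a) ε U := by
  rw [eg, eg, ker_smul_AlBrA T ha]

lemma eg_mono_AlBrA {V : Type} [AddCommGroup V] [Module (ZMod p) V] [FiniteDimensional (ZMod p) V]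
    (T C : Module.End (ZMod p) V) (μ ε : ZMod p) {U U' : Submodule (ZMod p) V} (h : U ≤ U') :
    eg T C μ ε U ≤ eg T C μ ε U' :=
  Submodule.finrank_mono (inf_le_inf_right _ h)

open Classical in
lemma eg_triv_AlBrA (μ ε : ZMod p) :
    eg (1 : Module.End (ZMod p) (ZMod p)) 1 μ ε ⊤ = if μ = 1 ∧ ε = 1 then 1 else 0 := by
  have h0 : ∀ ν : ZMod p, ν ≠ 1 →
      LinearMap.ker ((1 : Module.End (ZMod p) (ZMod p)) - ν • 1) = ⊥ := by
    intro ν hν
    rw [eq_bot_iff]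
    intro x hx
    have h1 : x - ν * x = 0 := hx
    have h2 : (1 - ν) * x = 0 := by rw [← h1]; ring
    exact (mul_eq_zero.1 h2).resolve_left (sub_ne_zero.2 hν.symm)
  rw [eg]
  split_ifs with h
  · rw [h.1, h.2, one_smul, sub_self, LinearMap.ker_zero, inf_idem, inf_idem, finrank_top,
      finrank_self]
  · rcases not_and_or.1 h with h | h
    · rw [h0 μ h, bot_inf_eq, inf_bot_eq, finrank_bot]
    · rw [h0 ε h, inf_bot_eq, inf_bot_eq, finrank_bot]

open Classical in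
lemma cls_AlBrA {X : Type} [AddCommGroup X] [Module (ZMod p) X]
    (ρ : Representation (ZMod p) Γ X) (Sg : Type) [MulAction Γ Sg] (hC : ClsD ρ Sg) (h2 : 2 < p)
    {u c : Γ} {n : ℕ} {μ ε : ZMod p} (hu : u ^ n = 1) (hn : (n : ZMod p) ≠ 0) (hμ : μ ^ n = 1)
    (hc : c * c = 1) (hε : ε * ε = 1) (h : u * c = c * u) :
    eg (ρ u) (ρ c) μ ε ⊤ + (if μ = 1 ∧ ε = 1 then 1 else 0) =
      eg (perm Γ (ZMod p) Sg u) (perm Γ (ZMod p) Sg c) μ ε ⊤ := by
  have hc' : c ^ 2 = 1 := by rw [sq, hc]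
  have hε' : ε ^ 2 = 1 := by rw [sq, hε]
  have h2' : ((2 : ℕ) : ZMod p) ≠ 0 := by
    rw [Ne, ZMod.natCast_eq_zero_iff]
    intro h3
    have := Nat.le_of_dvd two_pos h3
    omega
  have i1 := idm_idem_AlBrA hu hn hμ
  have i2 := idm_idem_AlBrA hc' h2' hε'
  have cm := idm_comm_AlBrA h n 2 μ ε
  have r1 : ∀ {V : Type} [AddCommGroup V] [Module (ZMod p) V] (τ : Representation (ZMod p) Γ V),
      finrank (ZMod p) (LinearMap.range (τ.asAlgebraHom (idm_AlBrA u n μ * idm_AlBrA c 2 ε))) =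
        eg (τ u) (τ c) μ ε ⊤ := by
    intro V _ _ τ
    rw [map_mul, range_mul_AlBrA (i1.map _) (i2.map _) (cm.map _), idm_range_AlBrA τ hu hn hμ,
      idm_range_AlBrA τ hc' h2' hε', eg, top_inf_eq]
  have r2 : ∀ {V : Type} [AddCommGroup V] [Module (ZMod p) V] (τ : Representation (ZMod p) Γ V)
      (e : MonoidAlgebra (ZMod p) Γ), rk e τ (Representation.trivial (ZMod p) Γ (ZMod p)) =
        finrank (ZMod p) (LinearMap.range (τ.asAlgebraHom e)) := by
    intro V _ _ τ e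
    refine congr_PvCls _ τ (TensorProduct.rid (ZMod p) V) (fun g => ?_) e
    ext m
    simp
  have h3 := hC _ (i1.mul_of_commute cm i2) (ZMod p) (Representation.trivial (ZMod p) Γ (ZMod p))
  rw [r2, r2, r1, r1, r1] at h3
  rw [← h3, ← eg_triv_AlBrA]
  rfl

lemma key_AlBrA (hE : ExEgStmt p) (hF : FilWStmt p) (hP : PermWStmt p) {X : Type}
    [AddCommGroup X] [Module (ZMod p) X] [FiniteDimensional (ZMod p) X]
    (ρ : Representation (ZMod p) Γ X) (Sg : Type) [Fintype Sg] [MulAction Γ Sg] {s c : Γ}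
    {ε : ZMod p} {lam : X →ₗ[ZMod p] Sg → ZMod p} (h2 : 2 < p) (os : orderOf s = p)
    (hcm : ∀ g, g * c = c * g) (hc : c * c = 1) (hε : ε * ε = 1) (hw : ∃ w : Sg, s • w = w)
    (hB : BrD ρ s lam) (hC : ClsD ρ Sg) (t : Γ) (a e : ℕ) (ot : t ^ e = 1)
    (rel : t * s = s ^ a * t) (oa : orderOf (a : ZMod p) = e) (pos : 0 < e) (μ : ZMod p)
    (hμ : μ ^ e = 1) :
    (p - 1) / e * eg 1 (ρ c) 1 ε (LinearMap.range (nm (ρ s))) +
        (eg (ρ t) (ρ c) μ ε (LinearMap.range (nm (ρ s))) +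
          eg (perm Γ (ZMod p) Sg t) (perm Γ (ZMod p) Sg c) (μ / a) ε (Fx p Sg s ⊓ Sz p Sg)) =
      (p - 1) / e * eg 1 (perm Γ (ZMod p) Sg c) 1 ε
          (LinearMap.range (nm (perm Γ (ZMod p) Sg s))) +
        (eg (perm Γ (ZMod p) Sg t) (perm Γ (ZMod p) Sg c) μ ε
            (LinearMap.range (nm (perm Γ (ZMod p) Sg s))) +
          eg (perm Γ (ZMod p) Sg t) (perm Γ (ZMod p) Sg c) μ ε (Fx p Sg s ⊓ Sz p Sg)) := by
  have he := ne_PvAlgM oa pos
  have hae : (a : ZMod p) ^ e = 1 := oa ▸ pow_orderOf_eq_one _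
  have ha : (a : ZMod p) ≠ 0 := by
    intro h0
    rw [h0, zero_pow pos.ne'] at hae
    exact zero_ne_one hae
  have hs : s ^ p = 1 := os ▸ pow_orderOf_eq_one s
  have r1 : ∀ {V : Type} [AddCommGroup V] [Module (ZMod p) V] (τ : Representation (ZMod p) Γ V),
      τ s ^ p = 1 ∧ τ t ^ e = 1 ∧ τ t * τ s = τ s ^ a * τ t ∧ τ c * τ c = 1 ∧
        ∀ g, τ c * τ g = τ g * τ c := fun τ =>
    ⟨by rw [← map_pow, hs, map_one], by rw [← map_pow, ot, map_one],
      by rw [← map_pow, ← map_mul, ← map_mul, rel], by rw [← map_mul, hc, map_one],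
      fun g => by rw [← map_mul, ← map_mul, hcm]⟩
  have e1 := cls_AlBrA ρ Sg hC h2 ot he hμ hc hε (hcm t)
  obtain ⟨x1, x2, x3, x4, x5⟩ := r1 ρ
  obtain ⟨y1, y2, y3, y4, y5⟩ := r1 (perm Γ (ZMod p) Sg)
  obtain ⟨p1, p2⟩ := hP Γ Sg s h2 hs
  obtain ⟨p3, p4, -⟩ := p2 t c a e he ha ot rel hc (hcm s).symm (hcm t).symm μ ε hμ hε
  have e2 := hF X (ρ s) (ρ t) (ρ c) a e μ ε h2 x1 x2 x3 oa pos x4 (x5 s) (x5 t) hμ hε hB.ft
  have e3 := hF _ _ _ _ a e μ ε h2 y1 y2 y3 oa pos y4 (y5 s) (y5 t) hμ hε p1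
  have hk : ∀ x, x ∈ LinearMap.ker (ρ s - 1) ↔ ρ s x = x := fun x => by
    simp [sub_eq_zero]
  have hss : (s ^ a) ^ a ^ (e - 1) = s := by
    rw [← pow_mul, ← pow_succ', Nat.sub_add_cancel pos]
    conv_rhs => rw [← pow_one s]
    rw [pow_eq_pow_iff_modEq, os, ← ZMod.natCast_eq_natCast_iff, Nat.cast_pow, hae, Nat.cast_one]
  have e4 := hE X (Sg → ZMod p) (ρ t) (ρ c) ((a : ZMod p) • perm Γ (ZMod p) Sg t)
    (perm Γ (ZMod p) Sg c) lam (LinearMap.ker (ρ s - 1)) (LinearMap.range (nm (ρ s))) e μ ε h2 he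
    x2 x4 (x5 t) hμ hε (fun x hx => by
      rw [hk] at hx
      refine ⟨?_, ?_, ?_, ?_, hB.ker x hx⟩
      · rw [hk]
        have h1 : ρ (s ^ a) (ρ t x) = ρ t x := by
          rw [map_pow, ← Module.End.mul_apply, ← x3, Module.End.mul_apply, hx]
        have h3 : ∀ m : ℕ, ρ ((s ^ a) ^ m) (ρ t x) = ρ t x := fun m => by
          induction m with
          | zero => rw [pow_zero, map_one, Module.End.one_apply]
          | succ m ih => rw [pow_succ, map_mul, Module.End.mul_apply, h1, ih]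
        have := h3 (a ^ (e - 1))
        rwa [hss] at this
      · rw [hk, ← Module.End.mul_apply, ← x5, Module.End.mul_apply, hx]
      · funext w
        have := hB.eqv t a rel x hx (t⁻¹ • w)
        rw [smul_inv_smul] at this
        exact this
      · funext w
        have := hB.eqv c 1 (by rw [pow_one, hcm]) x hx (c⁻¹ • w)
        rw [smul_inv_smul, Nat.cast_one, one_mul] at this
        exact this)
    (by
      rw [LinearMap.range_le_ker_iff, ← Module.End.mul_eq_comp, nm, mul_geom_sum, x1, sub_self])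
  rw [hB.img, eg_smul_AlBrA _ _ ha] at e4
  rw [e2, e3, e4, p3, p4 hw] at e1
  omega

theorem brA_stmt (p : ℕ) [Fact p.Prime] (hE : ExEgStmt p) (hF : FilWStmt p) (hP : PermWStmt p) :
    BrAStmt p := by
  intro Γ _ X _ _ _ ρ Sg _ _ H s t c a e i ε lam h2 hc hW hi hε hX hB hC
  have he := ne_PvAlgM hW.oa hW.pos
  have hae : (a : ZMod p) ^ e = 1 := hW.oa ▸ pow_orderOf_eq_one _
  have ha : (a : ZMod p) ≠ 0 := by
    intro h0
    rw [h0, zero_pow hW.pos.ne'] at hae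
    exact zero_ne_one hae
  have hs : s ^ p = 1 := hW.os ▸ pow_orderOf_eq_one s
  have key := key_AlBrA hE hF hP ρ Sg h2 hW.os hc.comm hc.sq hε hX.1 hB hC
  have k1 := key 1 1 1 (one_pow 1) (by simp) (by simp) one_pos 1 (one_pow 1)
  rw [map_one, map_one, Nat.cast_one, div_one, Nat.div_one, ← add_assoc, ← add_assoc,
    Nat.add_right_cancel_iff, ← add_one_mul, ← add_one_mul] at k1
  have k2 := Nat.eq_of_mul_eq_mul_left (Nat.succ_pos _) k1
  have hμ : ∀ j : ℕ, ((a : ZMod p) ^ i / (a : ZMod p) ^ j) ^ e = 1 := fun j => by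
    rw [div_pow, ← pow_mul, ← pow_mul, mul_comm i, mul_comm j, pow_mul, pow_mul, hae, one_pow,
      one_pow, div_one]
  let f : ℕ → ℕ := fun j => eg (perm Γ (ZMod p) Sg t) (perm Γ (ZMod p) Sg c)
    ((a : ZMod p) ^ i / (a : ZMod p) ^ j) ε (Fx p Sg s ⊓ Sz p Sg)
  have k3 : ∀ n : ℕ, ∑ j ∈ range n, eg (ρ t) (ρ c) ((a : ZMod p) ^ i / (a : ZMod p) ^ j) ε
        (LinearMap.range (nm (ρ s))) + f n =
      ∑ j ∈ range n, eg (perm Γ (ZMod p) Sg t) (perm Γ (ZMod p) Sg c)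
        ((a : ZMod p) ^ i / (a : ZMod p) ^ j) ε
          (LinearMap.range (nm (perm Γ (ZMod p) Sg s))) + f 0 := by
    intro n
    induction n with
    | zero => rfl
    | succ n ih =>
      have k4 := key t a e hW.ot hW.rel hW.oa hW.pos _ (hμ n)
      rw [k2, div_div, ← pow_succ] at k4
      rw [sum_range_succ, sum_range_succ]
      simp only [f] at ih ⊢
      omega
  have k5 : ∀ j : ℕ, (∀ k : ℕ, ((a : ZMod p) ^ i / (a : ZMod p) ^ j) ^ k = 1 →
      ∃ m, 0 < m ∧ m ≤ i + 1 ∧ ((a : ZMod p) ^ k) ^ m = 1) → f j = 0 := by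
    intro j hj
    have h0 := ((hP Γ Sg s h2 hs).2 t c a e he ha hW.ot hW.rel hc.sq (hc.comm s).symm
      (hc.comm t).symm _ ε (hμ j) hε).2.2 fun w hw => by
        obtain ⟨k, h1, h3⟩ := hX.2 w hw
        refine ⟨k, h1, fun h4 => ?_⟩
        obtain ⟨m, m1, m2, m3⟩ := hj k h4
        exact h3 m m1 m2 m3
    exact Nat.eq_zero_of_le_zero (h0 ▸ eg_mono_AlBrA _ _ _ _ inf_le_left)
  have k6 : f 0 = 0 := k5 0 fun k hk => ⟨i, hi, Nat.le_succ i, by
    rwa [pow_zero, div_one, ← pow_mul, mul_comm, pow_mul] at hk⟩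
  have k7 : f (2 * i + 1) = 0 := k5 _ fun k hk => ⟨i + 1, Nat.succ_pos i, le_rfl, by
    rw [show 2 * i + 1 = i + (i + 1) by ring, pow_add, div_mul_cancel_left₀ (pow_ne_zero i ha),
      inv_pow, inv_eq_one] at hk
    rwa [← pow_mul, mul_comm, pow_mul]⟩
  have := k3 (2 * i + 1)
  rwa [k6, k7, add_zero, add_zero] at this

end Pool.Agent.MP_f68ac8_nt.Sv
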