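import Mathlib
import Pool.Agent.MP_f68ac8_nt.AlAux
import Pool.Agent.MP_f68ac8_nt.PvPerm
import Pool.Agent.MP_f68ac8_nt.PvFil
import Pool.Agent.MP_f68ac8_nt.PvSec

/-! Invariants of a permutation module come from the free part. -/

namespace Pool.Agent.MP_f68ac8_nt.Sv
open Ev Pv

open scoped TensorProduct

section
variable {p : ℕ} [hp : Fact p.Prime] {Γ : Type} [Group Γ] {Sg : Type} [MulAction Γ Sg]

lemma period_AlBrB {s : Γ} (hs : s ^ p = 1) {x : Sg} (hx : s • x ≠ x) :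
    MulAction.period s x = p :=
  ((Nat.dvd_prime hp.out).1 (MulAction.pow_smul_eq_iff_period_dvd.1
    (by rw [hs, one_smul]))).resolve_left (mt MulAction.period_eq_one_iff.1 hx)

lemma nm_AlBrB (s : Γ) (y : Sg → ZMod p) (x : Sg) :
    nm (perm Γ (ZMod p) Sg s) y x = ∑ i ∈ Finset.range p, y (s⁻¹ ^ i • x) := by
  rw [nm, LinearMap.sum_apply, Finset.sum_apply]
  exact Finset.sum_congr rfl fun i _ => by rw [← map_pow, perm_apply, inv_pow]

/-- the indicator function of a set of representatives -/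
lemma rep_AlBrB {s : Γ} (hs : s ^ p = 1) :
    ∃ y : Sg → ZMod p, ∀ x, s • x ≠ x → nm (perm Γ (ZMod p) Sg s) y x = 1 := by
  classical
  have hu : s⁻¹ ^ p = 1 := by rw [inv_pow, hs, inv_one]
  let r : Sg → Sg := fun x =>
    Quotient.out (⟦x⟧ : Quotient (MulAction.orbitRel (Subgroup.zpowers s⁻¹) Sg))
  have hr : ∀ (i : ℕ) x, r (s⁻¹ ^ i • x) = r x := fun i x => congrArg Quotient.out
    (Quotient.sound (MulAction.orbitRel_apply.2 ⟨⟨_, Subgroup.npow_mem_zpowers _ i⟩, rfl⟩))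
  refine ⟨fun x => if x = r x then 1 else 0, fun x hx => ?_⟩
  have hper := period_AlBrB hu (mt (fun h => (inv_smul_eq_iff.1 h).symm) hx)
  obtain ⟨⟨g, hg⟩, h⟩ : r x ∈ MulAction.orbit (Subgroup.zpowers s⁻¹) x :=
    MulAction.orbitRel_apply.1 (Quotient.exact (Quotient.out_eq _))
  obtain ⟨n, rfl⟩ := (isOfFinOrder_iff_pow_eq_one.2
    ⟨p, hp.out.pos, hu⟩).mem_powers_iff_mem_zpowers.2 hg
  have h1 : s⁻¹ ^ (n % p) • x = r x := by
    rw [← pow_eq_pow_mod n hu]
    exact h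
  have h2 := Nat.mod_lt n hp.out.pos
  rw [nm_AlBrB, Finset.sum_eq_single (n % p)]
  · rw [hr, if_pos h1]
  · intro i hi hne
    rw [hr, if_neg]
    rw [← h1, ← smul_iterate_apply, ← smul_iterate_apply]
    refine fun h3 => hne (Function.iterate_injOn_Iio_minimalPeriod ?_ ?_ h3)
    · exact (Finset.mem_range.1 hi).trans_eq hper.symm
    · exact h2.trans_eq hper.symm
  · exact fun h3 => absurd (Finset.mem_range.2 h2) h3

lemma comm_AlBrB {s g : Γ} (hs : s ^ p = 1) {b : ℕ} (hb : (b : ZMod p) ≠ 0)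
    (h : g * s = s ^ b * g) : Commute (perm Γ (ZMod p) Sg g) (nm (perm Γ (ZMod p) Sg s)) := by
  rw [nm, geom_PvSec]
  exact comm_PvSec _ _ b (by rw [← map_pow, hs, map_one]) hb
    (by rw [← map_pow, ← map_mul, ← map_mul, h])

/-- averaging over a cyclic group of order prime to `p` -/
lemma avg_AlBrB {s g h : Γ} (hs : s ^ p = 1) {b n : ℕ} (hb : (b : ZMod p) ≠ 0)
    (hg : g * s = s ^ b * g) (hn : (n : ZMod p) ≠ 0) (hgn : g ^ n = 1) (hc : Commute h g)
    {y : Sg → ZMod p} (hy : ∀ x, s • x ≠ x → nm (perm Γ (ZMod p) Sg s) y x = 1)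
    (hh : perm Γ (ZMod p) Sg h y = y) :
    ∃ y' : Sg → ZMod p, (∀ x, s • x ≠ x → nm (perm Γ (ZMod p) Sg s) y' x = 1) ∧
      perm Γ (ZMod p) Sg g y' = y' ∧ perm Γ (ZMod p) Sg h y' = y' := by
  have h1 : ∀ j x, s • x ≠ x →
      nm (perm Γ (ZMod p) Sg s) ((perm Γ (ZMod p) Sg g ^ j) y) x = 1 := by
    intro j
    induction j with
    | zero => exact hy
    | succ j ih =>
      intro x hx
      rw [pow_succ', Module.End.mul_apply, ← Module.End.mul_apply, ← (comm_AlBrB hs hb hg).eq,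
        Module.End.mul_apply, perm_apply]
      refine ih _ fun h2 => hb ?_
      have h3 : s ^ b • x = x := by
        rw [← smul_inv_smul g x, ← mul_smul, ← hg, mul_smul, h2]
      rw [MulAction.pow_smul_eq_iff_period_dvd, period_AlBrB hs hx] at h3
      exact (ZMod.natCast_eq_zero_iff b p).2 h3
  refine ⟨(n : ZMod p)⁻¹ • (∑ j ∈ Finset.range n, perm Γ (ZMod p) Sg g ^ j) y, fun x hx => ?_,
    ?_, ?_⟩
  · rw [map_smul, LinearMap.sum_apply, map_sum, Pi.smul_apply, Finset.sum_apply,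
      Finset.sum_congr rfl fun j _ => h1 j x hx, Finset.sum_const, Finset.card_range,
      nsmul_one, smul_eq_mul, inv_mul_cancel₀ hn]
  · have h2 := mul_geom_sum (perm Γ (ZMod p) Sg g) n
    rw [← map_pow, hgn, map_one, sub_self, sub_mul, one_mul, sub_eq_zero] at h2
    rw [map_smul, ← Module.End.mul_apply, h2]
  · have h2 := Commute.sum_right (Finset.range n) _ _ fun j _ =>
      (hc.map (perm Γ (ZMod p) Sg)).pow_right j
    rw [map_smul, ← Module.End.mul_apply, h2.eq, Module.End.mul_apply, hh]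

variable {M : Type} [AddCommGroup M] [Module (ZMod p) M]

lemma uni_AlBrB (U : Module.End (ZMod p) M) (hU : U ^ p = 1) (a : ℕ → ZMod p)
    (ha : ∑ i ∈ Finset.range p, a i = 1) (v : M)
    (h : ∑ i ∈ Finset.range p, a i • (U ^ i) v = 0) : v = 0 := by
  have h0 : ∀ i j, Commute (U ^ i - 1) (U ^ j - 1) := fun i j =>
    (((Commute.refl U).pow_pow i j).sub_left (Commute.one_left _)).sub_right (Commute.one_right _)
  have h1 : IsNilpotent (∑ i ∈ Finset.range p, a i • (U ^ i - 1)) :=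
    Commute.isNilpotent_sum (fun i _ => IsNilpotent.smul
      ⟨p, nil_PvSec _ (by rw [← pow_mul, mul_comm, pow_mul, hU, one_pow])⟩ _)
      fun i j _ _ => ((h0 i j).smul_left _).smul_right _
  have h2 := ((Module.End.isUnit_iff _).1 h1.isUnit_add_one).1
  refine (injective_iff_map_eq_zero _).1 h2 v ?_
  simp only [LinearMap.add_apply, LinearMap.sum_apply, LinearMap.smul_apply, LinearMap.sub_apply,
    Module.End.one_apply, smul_sub, Finset.sum_sub_distrib, h, ← Finset.sum_smul, ha]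
  simp

lemma eqv_AlBrB [Fintype Sg] : ∃ E : ((Sg → ZMod p) ⊗[ZMod p] M) ≃ₗ[ZMod p] (Sg → M),
    ∀ y m x, E (y ⊗ₜ m) x = y x • m := by
  classical
  exact ⟨(TensorProduct.comm _ _ _).trans (TensorProduct.piScalarRight _ (ZMod p) M Sg),
    fun y m x => by simp⟩

end

theorem brB_stmt (p : ℕ) [Fact p.Prime] (hF : FilWStmt p) : BrBStmt p := by
  intro Γ _ M _ _ _ σ Sg _ _ H s t c a e i ε h2 hC hB hW hX
  have hp : p.Prime := Fact.out
  have hs : s ^ p = 1 := hB.os ▸ pow_orderOf_eq_one s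
  have ha0 : (a : ZMod p) ≠ 0 := fun h => by
    have h1 := pow_orderOf_eq_one (a : ZMod p)
    rw [hB.oa, h, zero_pow hB.pos.ne'] at h1
    exact zero_ne_one h1
  have he0 : (e : ZMod p) ≠ 0 := by
    rw [Ne, ZMod.natCast_eq_zero_iff]
    have h1 := ZMod.orderOf_dvd_card_sub_one ha0
    rw [hB.oa] at h1
    have h2 := Nat.le_of_dvd (by omega) h1
    exact Nat.not_dvd_of_pos_of_lt hB.pos (by omega)
  have h20 : ((2 : ℕ) : ZMod p) ≠ 0 := by
    rw [Ne, ZMod.natCast_eq_zero_iff]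
    exact Nat.not_dvd_of_pos_of_lt two_pos h2
  have h10 : ((1 : ℕ) : ZMod p) ≠ 0 := by simp
  have hcs : c * s = s ^ 1 * c := by rw [pow_one, hC.comm]
  obtain ⟨y₀, hy₀⟩ := rep_AlBrB (Sg := Sg) hs
  obtain ⟨y₁, hy₁, ht₁, -⟩ := avg_AlBrB hs ha0 hB.rel he0 hB.ot (Commute.one_left t) hy₀
    (by rw [map_one, Module.End.one_apply])
  obtain ⟨φ, hφ, hφc, hφt⟩ := avg_AlBrB hs h10 hcs h20 (by rw [pow_two, hC.sq]) (hC.comm t) hy₁ ht₁
  obtain ⟨E, hE⟩ := eqv_AlBrB (p := p) (Sg := Sg) (M := M)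
  set Φ := (nm (perm Γ (ZMod p) Sg s) * LinearMap.mulLeft (ZMod p) φ).rTensor M with hΦ
  have hg : ∀ g z x, E ((perm Γ (ZMod p) Sg).tprod σ g z) (g • x) = σ g (E z x) := fun g z x => by
    induction z with
    | zero => simp
    | tmul y m => simp [hE, perm_apply]
    | add a b ha hb => simp only [map_add, Pi.add_apply, ha, hb]
  have hv : ∀ z x, E (Φ z) x = ∑ j ∈ Finset.range p, φ (s⁻¹ ^ j • x) • E z (s⁻¹ ^ j • x) := by
    intro z x
    induction z with
    | zero => simp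
    | tmul y m =>
      simp only [hΦ, LinearMap.rTensor_tmul, hE, Module.End.mul_apply, nm_AlBrB,
        LinearMap.mulLeft_apply, Pi.mul_apply, Finset.sum_smul, mul_smul]
    | add a b ha hb => simp only [map_add, Pi.add_apply, ha, hb, smul_add, Finset.sum_add_distrib]
  have hk : ∀ g z, z ∈ LinearMap.ker ((perm Γ (ZMod p) Sg).tprod σ g - (1 : ZMod p) • 1) ↔
      (perm Γ (ZMod p) Sg).tprod σ g z = z := fun g z => by
    rw [one_smul, LinearMap.mem_ker, LinearMap.sub_apply, sub_eq_zero, Module.End.one_apply]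
  have hcm : ∀ (g : Γ) (b : ℕ), (b : ZMod p) ≠ 0 → g * s = s ^ b * g →
      perm Γ (ZMod p) Sg g φ = φ → ∀ z, (perm Γ (ZMod p) Sg).tprod σ g z = z →
      (perm Γ (ZMod p) Sg).tprod σ g (Φ z) = Φ z := by
    intro g b hb hr h z hz
    have h1 : Commute (perm Γ (ZMod p) Sg g) (LinearMap.mulLeft (ZMod p) φ) :=
      LinearMap.ext fun y => congrArg (· * perm Γ (ZMod p) Sg g y) h
    have h3 := ((comm_AlBrB hs hb hr).mul_right h1).eq
    conv_rhs => rw [← hz]
    rw [Representation.tprod_apply, ← LinearMap.comp_apply, ← LinearMap.comp_apply, hΦ,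
      LinearMap.map_comp_rTensor, LinearMap.rTensor_comp_map, ← Module.End.mul_eq_comp,
      ← Module.End.mul_eq_comp, h3]
  have hpw : ∀ g z, (perm Γ (ZMod p) Sg).tprod σ g z = z → ∀ (n : ℕ) x,
      E z (g ^ n • x) = (σ g ^ n) (E z x) := fun g z hz n x => by
    rw [← map_pow, ← hg, map_pow, Module.End.pow_apply, Function.iterate_fixed hz]
  refine LinearMap.finrank_le_finrank_of_injective (f := Φ.restrict fun z hz =>
    ⟨⟨(LinearMap.mulLeft (ZMod p) φ).rTensor M z, by rw [hΦ, LinearMap.rTensor_mul]; rfl⟩,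
      (hk _ _).2 (hcm t a ha0 hB.rel hφt z ((hk _ _).1 hz.2.1)),
      (hk _ _).2 (hcm c 1 h10 hcs hφc z ((hk _ _).1 hz.2.2))⟩) ?_
  rw [injective_iff_map_eq_zero]
  rintro ⟨z, hz1, hz2, hz3⟩ h0
  have h1 : Φ z = 0 := congrArg Subtype.val h0
  have hzs : (perm Γ (ZMod p) Sg).tprod σ s z = z := (hk _ _).1 (by rwa [one_smul])
  have hzu : (perm Γ (ZMod p) Sg).tprod σ s⁻¹ z = z := by
    conv_lhs => rw [← hzs]
    rw [← Module.End.mul_apply, ← map_mul, inv_mul_cancel, map_one, Module.End.one_apply]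
  refine Subtype.ext ((map_eq_zero_iff E E.injective).1 (funext fun x => ?_))
  by_cases hx : s • x = x
  · obtain ⟨n, hn, hn'⟩ := hX.2 x hx
    have h3 := hg s z x
    rw [hzs, hx] at h3
    have h4 : ∀ n : ℕ, (σ t ^ n) (E z x) = ((a : ZMod p) ^ n) ^ i • E z x := fun n => by
      induction n with
      | zero => simp
      | succ n ih =>
        rw [pow_succ, Module.End.mul_apply, hW.top _ h3.symm, map_smul, ih, smul_smul, pow_succ',
          mul_pow]
    have h5 := hpw t z ((hk _ _).1 hz2) n x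
    rw [hn, h4, ← sub_eq_zero] at h5
    nth_rw 1 [← one_smul (ZMod p) (E z x)] at h5
    rw [← sub_smul, smul_eq_zero, sub_eq_zero] at h5
    exact h5.resolve_left (hn' i hW.pos i.le_succ).symm
  · refine uni_AlBrB (σ s⁻¹) (by rw [← map_pow, inv_pow, hs, inv_one, map_one])
      (fun j => φ (s⁻¹ ^ j • x)) ((nm_AlBrB s φ x).symm.trans (hφ x hx)) _ ?_
    have h3 := hv z x
    rw [h1, map_zero] at h3
    simp only [hpw _ z hzu] at h3
    exact h3.symm

end Pool.Agent.MP_f68ac8_nt.Sv
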