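import Mathlib
import Pool.Agent.MP_f68ac8_nt.AlAux
import Pool.Agent.MP_f68ac8_nt.PvFil
import Pool.Agent.MP_f68ac8_nt.PvSec
import Pool.Agent.MP_f68ac8_nt.PvAlgM

namespace Pool.Agent.MP_f68ac8_nt.Sv
open Ev Pv
open Module
open scoped TensorProduct

section
variable {k V W : Type} [Field k] [AddCommGroup V] [Module k V] [AddCommGroup W] [Module k W]

lemma rn_AlEx [FiniteDimensional k V] (f : V →ₗ[k] W) (U : Submodule k V) :
    finrank k U = finrank k (U.map f) + finrank k ↥(U ⊓ LinearMap.ker f) := by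
  have h := LinearMap.finrank_range_add_finrank_ker (f.domRestrict U)
  rw [LinearMap.range_domRestrict, LinearMap.ker_domRestrict] at h
  rw [← h, ← Submodule.finrank_map_subtype_eq U, Submodule.map_comap_subtype]

lemma eig_AlEx (T : Module.End k V) (T' : Module.End k W) (φ : V →ₗ[k] W) (U : Submodule k V)
    (e : ℕ) (he : (e : k) ≠ 0) (hT : T ^ e = 1) (hU : ∀ x ∈ U, T x ∈ U) (c : k) (hc : c ^ e = 1)
    (hφ : ∀ x ∈ U, φ (T x) = T' (φ x)) :
    (U ⊓ LinearMap.ker (T - c • 1)).map φ = U.map φ ⊓ LinearMap.ker (T' - c • 1) := by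
  have he0 : e ≠ 0 := by rintro rfl; simp at he
  have hc0 : c ≠ 0 := by rintro rfl; simp [he0] at hc
  refine le_antisymm ?_ ?_
  · rintro _ ⟨x, ⟨hx, hx'⟩, rfl⟩
    refine ⟨⟨x, hx, rfl⟩, (memE_PvFil _ _ _).2 ?_⟩
    rw [← hφ x hx, (memE_PvFil _ _ _).1 hx', map_smul]
  · rintro _ ⟨⟨x, hx, rfl⟩, hy⟩
    have hy' := (memE_PvFil _ _ _).1 hy
    have hj : ∀ j : ℕ, ((c⁻¹ • T) ^ j) x ∈ U ∧ φ (((c⁻¹ • T) ^ j) x) = φ x := by
      intro j
      induction j with
      | zero => exact ⟨hx, rfl⟩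
      | succ j ih =>
        rw [pow_succ', Module.End.mul_apply, LinearMap.smul_apply]
        refine ⟨U.smul_mem _ (hU _ ih.1), ?_⟩
        rw [map_smul, hφ _ ih.1, ih.2, hy', smul_smul, inv_mul_cancel₀ hc0, one_smul]
    have h1 : ((e : k)⁻¹ • ∑ j ∈ Finset.range e, (c⁻¹ • T) ^ j) x ∈
        LinearMap.ker (c⁻¹ • T - 1) := by
      rw [← range_avg_PvAlgM (c⁻¹ • T) (by rw [smul_pow, hT, inv_pow, hc, inv_one, one_smul]) he]
      exact ⟨x, rfl⟩
    refine ⟨((e : k)⁻¹ • ∑ j ∈ Finset.range e, (c⁻¹ • T) ^ j) x, ⟨?_, (memE_PvFil _ _ _).2 ?_⟩, ?_⟩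
    · rw [LinearMap.smul_apply, LinearMap.sum_apply]
      exact U.smul_mem _ (U.sum_mem fun j _ => (hj j).1)
    · rw [LinearMap.mem_ker, LinearMap.sub_apply, sub_eq_zero, LinearMap.smul_apply c⁻¹,
        Module.End.one_apply] at h1
      rw [← inv_smul_eq_iff₀ hc0, h1]
    · rw [LinearMap.smul_apply, LinearMap.sum_apply, map_smul, map_sum,
        Finset.sum_congr rfl fun j _ => (hj j).2, Finset.sum_const, Finset.card_range,
        ← Nat.cast_smul_eq_nsmul k, smul_smul, inv_mul_cancel₀ he, one_smul]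

lemma rgP_AlEx (f C : Module.End k V) (η : k) (h2 : (2 : k) ≠ 0) (hC : C * C = 1)
    (hη : η * η = 1) (hf : Commute f C) :
    LinearMap.range (f * (C + η • 1)) = LinearMap.range f ⊓ LinearMap.ker (C - η • 1) := by
  have hη0 : η ≠ 0 := left_ne_zero_of_mul_eq_one hη
  have hc : ∀ x, f (C x) = C (f x) := fun x => LinearMap.congr_fun hf.eq x
  have hcc : ∀ x, C (C x) = x := fun x => LinearMap.congr_fun hC x
  refine le_antisymm ?_ ?_
  · rintro _ ⟨x, rfl⟩
    refine ⟨⟨_, rfl⟩, (memE_PvFil _ _ _).2 ?_⟩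
    simp [hc, hcc, smul_smul, hη, add_comm]
  · rintro _ ⟨⟨x, rfl⟩, hx⟩
    refine ⟨(2 * η)⁻¹ • x, ?_⟩
    rw [map_smul, inv_smul_eq_iff₀ (mul_ne_zero h2 hη0)]
    simp [hc, (memE_PvFil _ _ _).1 hx, two_mul, add_smul]

lemma rkP_AlEx [FiniteDimensional k V] (f C : Module.End k V) (η : k) (h2 : (2 : k) ≠ 0)
    (hC : C * C = 1) (hη : η * η = 1) (hf : Commute f C) :
    finrank k (LinearMap.range f) = finrank k (LinearMap.range (f * (C + η • 1))) +
      finrank k (LinearMap.range (f * (C + (-η) • 1))) := by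
  have h1 : Commute f (C + η • 1) := hf.add_right ((Commute.one_right f).smul_right η)
  rw [rn_PvFil (C + η • 1), rgP_AlEx f C (-η) h2 hC (by rw [neg_mul_neg, hη]) hf, neg_smul,
    sub_neg_eq_add, h1.eq, Module.End.mul_eq_comp, LinearMap.range_comp]

lemma conv_AlEx [FiniteDimensional k V] (D P : Module.End k V) (n : ℕ) (hD : D ^ (n + 1) = 0)
    (h : Commute D P) :
    n * finrank k (LinearMap.range (D ^ n * P)) ≤ finrank k (LinearMap.range (D * P)) ∧
    (finrank k (LinearMap.range (D * P)) ≤ n * finrank k (LinearMap.range (D ^ n * P)) →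
      ∀ i, i < n → finrank k (LinearMap.range (D ^ (i + 1) * P)) =
        finrank k (LinearMap.range (D ^ (i + 1 + 1) * P)) +
          finrank k (LinearMap.range (D ^ n * P))) := by
  set d : ℕ → ℕ := fun j => finrank k ↥(LinearMap.range (D ^ j * P) ⊓ LinearMap.ker D) with hd
  have hstep : ∀ j, finrank k (LinearMap.range (D ^ j * P)) =
      finrank k (LinearMap.range (D ^ (j + 1) * P)) + d j := fun j => by
    rw [rn_PvFil D, pow_succ', mul_assoc, Module.End.mul_eq_comp D, LinearMap.range_comp]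
  have hn : finrank k (LinearMap.range (D ^ n * P)) = d n := by
    rw [hstep, hD, zero_mul, LinearMap.range_zero, finrank_bot, zero_add]
  have hanti : ∀ i, i < n → d n ≤ d (i + 1) := fun i hi => by
    refine Submodule.finrank_mono (inf_le_inf_right _ ?_)
    obtain ⟨l, rfl⟩ := Nat.exists_eq_add_of_le hi
    rw [pow_add, mul_assoc, (h.pow_left l).eq, ← mul_assoc, Module.End.mul_eq_comp _ (D ^ l)]
    exact LinearMap.range_comp_le_range _ _
  have hsum : ∀ j, finrank k (LinearMap.range (D * P)) =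
      ∑ i ∈ Finset.range j, d (i + 1) + finrank k (LinearMap.range (D ^ (j + 1) * P)) := by
    intro j
    induction j with
    | zero => rw [Finset.sum_range_zero, zero_add, zero_add, pow_one]
    | succ j ih => rw [Finset.sum_range_succ, ih, hstep (j + 1)]; ring
  have h0 := hsum n
  rw [hD, zero_mul, LinearMap.range_zero, finrank_bot, add_zero] at h0
  have h1 : n * d n = ∑ _i ∈ Finset.range n, d n := by simp
  rw [hn, h0, h1]
  refine ⟨Finset.sum_le_sum fun i hi => hanti i (Finset.mem_range.1 hi), fun h2 i hi => ?_⟩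
  rw [hstep (i + 1)]
  congr 1
  exact ((Finset.sum_eq_sum_iff_of_le fun i hi => hanti i (Finset.mem_range.1 hi)).1
    (le_antisymm (Finset.sum_le_sum fun i hi => hanti i (Finset.mem_range.1 hi)) h2) i
    (Finset.mem_range.2 hi)).symm

lemma semi_AlEx (φ : V →ₗ[k] W) (g : Module.End k V) (g' : Module.End k W)
    (h : ∀ x, g' (φ x) = φ (g x)) (n : ℕ) (x : V) : (g' ^ n) (φ x) = φ ((g ^ n) x) := by
  induction n with
  | zero => rfl
  | succ n ih => rw [pow_succ', pow_succ', Module.End.mul_apply, Module.End.mul_apply, ih, h]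

end

lemma two_AlEx {p : ℕ} [Fact p.Prime] (hp : 2 < p) : (2 : ZMod p) ≠ 0 := by
  have : ((2 : ℕ) : ZMod p) ≠ 0 := by
    rw [Ne, ZMod.natCast_eq_zero_iff]
    exact Nat.not_dvd_of_pos_of_lt two_pos hp
  exact_mod_cast this

theorem exEg_stmt (p : ℕ) [Fact p.Prime] : ExEgStmt p := by
  intro V W _ _ _ _ _ T C T' C' φ U U' e μ ε hp he hT hC hCT hμ hε h hU
  unfold eg
  have e1 : U ⊓ (LinearMap.ker (T - μ • 1) ⊓ LinearMap.ker (C - ε • 1)) ⊓ LinearMap.ker φ =
      U' ⊓ (LinearMap.ker (T - μ • 1) ⊓ LinearMap.ker (C - ε • 1)) := by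
    rw [inf_right_comm]
    congr 1
    exact le_antisymm (fun x hx => (h x hx.1).2.2.2.2.1 hx.2)
      fun x hx => ⟨hU hx, (h x (hU hx)).2.2.2.2.2 hx⟩
  rw [rn_AlEx φ, e1, add_comm, ← inf_assoc U, ← inf_assoc (U.map φ),
    eig_AlEx C C' φ (U ⊓ LinearMap.ker (T - μ • 1)) 2 (by exact_mod_cast two_AlEx hp) (by rw [sq, hC]) ?_ ε (by rw [sq, hε])
      fun x hx => (h x hx.1).2.2.2.1,
    eig_AlEx T T' φ U e he hT (fun x hx => (h x hx).1) μ hμ fun x hx => (h x hx).2.2.1]
  rintro x ⟨hx, hx'⟩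
  refine ⟨(h x hx).2.1, (memE_PvFil _ _ _).2 ?_⟩
  rw [← Module.End.mul_apply, ← hCT, Module.End.mul_apply, (memE_PvFil _ _ _).1 hx', map_smul]

theorem ten_stmt (p : ℕ) [Fact p.Prime] : TenStmt p := by
  classical
  intro X M _ _ _ _ _ T C N T' C' ι _ b μ ε hμ hε hC
  unfold eg
  have hε0 : ε ≠ 0 := left_ne_zero_of_mul_eq_one hε
  obtain ⟨E, hE⟩ : ∃ E : (X ⊗[ZMod p] M) ≃ₗ[ZMod p] (ι → X),
      ∀ x m j, E (x ⊗ₜ m) j = b.repr m j • x :=
    ⟨TensorProduct.equivFinsuppOfBasisRight b ≪≫ₗ Finsupp.linearEquivFunOnFinite _ _ _,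
      fun x m j => TensorProduct.equivFinsuppOfBasisRight_apply_tmul_apply b x m j⟩
  have hb : ∀ m j, b.repr (T' m) j = (μ j)⁻¹ * b.repr m j := fun m j => by
    have : b.coord j ∘ₗ T' = (μ j)⁻¹ • b.coord j := by
      refine b.ext fun l => ?_
      have h1 : T' (b l) = (μ l)⁻¹ • b l := by
        rw [eq_inv_smul_iff₀ (hμ l).1, (hμ l).2]
      by_cases hl : l = j
      · subst hl
        simp [h1]
      · simp [h1, Finsupp.single_eq_of_ne' hl]
    exact LinearMap.congr_fun this m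
  have h1 : ∀ z j, E (TensorProduct.map T T' z) j = (μ j)⁻¹ • T (E z j) := fun z j => by
    induction z using TensorProduct.induction_on with
    | zero => simp
    | tmul x m => simp [hE, hb, smul_smul]
    | add x y hx hy => simp only [map_add, Pi.add_apply, hx, hy, smul_add]
  have h2 : ∀ z j, E (TensorProduct.map C C' z) j = ε • C (E z j) := fun z j => by
    induction z using TensorProduct.induction_on with
    | zero => simp
    | tmul x m => simp [hE, hC, smul_smul]
    | add x y hx hy => simp only [map_add, Pi.add_apply, hx, hy, smul_add]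
  have h3 : ∀ z j, E (N.rTensor M z) j = N (E z j) := fun z j => by
    induction z using TensorProduct.induction_on with
    | zero => simp
    | tmul x m => simp [hE]
    | add x y hx hy => simp only [map_add, Pi.add_apply, hx, hy]
  have hi : ε⁻¹ = ε := inv_eq_of_mul_eq_one_left hε
  rw [← Module.finrank_pi_fintype]
  set Q := fun j => LinearMap.range N ⊓ (LinearMap.ker (T - μ j • 1) ⊓ LinearMap.ker (C - ε • 1))
  let F : (∀ j, Q j) →ₗ[ZMod p] X ⊗[ZMod p] M :=
    E.symm.toLinearMap ∘ₗ LinearMap.pi fun j => (Q j).subtype ∘ₗ LinearMap.proj j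
  have hF : ∀ y j, E (F y) j = y j := fun y j => congrFun (E.apply_symm_apply _) j
  have hF1 : Function.Injective F := fun y y' hy => funext fun j => Subtype.ext (by
    rw [← hF, hy, hF])
  rw [← LinearMap.finrank_range_of_inj hF1]
  have key : ∀ z, z ∈ LinearMap.range (N.rTensor M) ⊓
      (LinearMap.ker (TensorProduct.map T T' - (1 : ZMod p) • 1) ⊓
        LinearMap.ker (TensorProduct.map C C' - (1 : ZMod p) • 1)) ↔ ∀ j, E z j ∈ Q j := by
    intro z
    simp only [Q, Submodule.mem_inf, memE_PvFil, forall_and]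
    refine and_congr ⟨?_, fun h => ?_⟩ (and_congr ?_ ?_)
    · rintro ⟨w, rfl⟩ j
      exact ⟨_, (h3 w j).symm⟩
    · choose w hw using h
      exact ⟨E.symm w, E.injective (funext fun j => by rw [h3, E.apply_symm_apply, hw])⟩
    · rw [one_smul, ← E.injective.eq_iff, funext_iff]
      exact forall_congr' fun j => by rw [h1, inv_smul_eq_iff₀ (hμ j).1]
    · rw [one_smul, ← E.injective.eq_iff, funext_iff]
      exact forall_congr' fun j => by rw [h2, ← inv_smul_eq_iff₀ hε0, hi]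
  have e1 : LinearMap.range (N.rTensor M) ⊓
      (LinearMap.ker (TensorProduct.map T T' - (1 : ZMod p) • 1) ⊓
        LinearMap.ker (TensorProduct.map C C' - (1 : ZMod p) • 1)) = LinearMap.range F := by
    ext z
    rw [key]
    constructor
    · exact fun h => ⟨fun j => ⟨_, h j⟩, E.injective (funext fun j => hF _ j)⟩
    · rintro ⟨y, rfl⟩ j
      rw [hF]
      exact (y j).2
  rw [e1]

theorem filW_stmt (p : ℕ) [Fact p.Prime] (h : ExEgStmt p) : FilWStmt p := by
  intro V _ _ _ S T C a e μ ε hp hS hT hTS ho he hC hCS hCT hμ hε hF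
  have h2 := two_AlEx hp
  have hek := ne_PvAlgM ho he
  have hε0 : ε ≠ 0 := left_ne_zero_of_mul_eq_one hε
  have hμ0 : μ ≠ 0 := by rintro rfl; simp [he.ne'] at hμ
  have ha : IsPrimitiveRoot (a : ZMod p) e := ho ▸ IsPrimitiveRoot.orderOf (a : ZMod p)
  have hdvd : e ∣ p - 1 :=
    ha.dvd_of_pow_eq_one _ (ZMod.pow_card_sub_one_eq_one (ha.ne_zero he.ne'))
  have hN : nm S = (S - 1) ^ (p - 1) := geom_PvSec S
  have hD : (S - 1) ^ (p - 1 + 1) = 0 := by
    rw [Nat.sub_add_cancel (by omega)]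
    exact nil_PvSec S hS
  have hDC : Commute (S - 1) C := (show Commute S C from hCS.symm).sub_left (Commute.one_left C)
  have hDP : ∀ η : ZMod p, Commute (S - 1) (C + η • 1) := fun η =>
    hDC.add_right ((Commute.one_right _).smul_right η)
  have hm := (conv_AlEx _ _ _ hD (hDP ε)).2 (by
    have a1 := (conv_AlEx _ _ _ hD (hDP (-ε))).1
    unfold FT at hF
    rw [hN, rkP_AlEx _ C ε h2 hC hε hDC, rkP_AlEx _ C ε h2 hC hε (hDC.pow_left (p - 1)),
      mul_add (p - 1)] at hF
    omega)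
  set f := (S - 1) * (C + ε • 1) with hf
  have hTP : ∀ x, (C + ε • 1) (T x) = T ((C + ε • 1) x) := fun x => by
    simp [show C (T x) = T (C x) from LinearMap.congr_fun hCT x]
  have hTk : ∀ y, S y = y → S (T y) = T y := fun y hy => by
    have b1 : (S ^ a) (T y) = T y := by
      rw [← Module.End.mul_apply, ← hTS, Module.End.mul_apply, hy]
    have b2 : ∀ n : ℕ, ((S ^ a) ^ n) (T y) = T y := fun n => by
      induction n with
      | zero => rfl
      | succ n ih => rw [pow_succ, Module.End.mul_apply, b1, ih]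
    have b3 : a ^ e % p = 1 % p := (ZMod.natCast_eq_natCast_iff' _ _ _).1 (by
      rw [Nat.cast_pow, ha.pow_eq_one, Nat.cast_one])
    have b4 := b2 (a ^ (e - 1))
    rwa [← pow_mul, ← pow_succ', Nat.sub_add_cancel he, pow_eq_pow_mod _ hS, b3,
      ← pow_eq_pow_mod _ hS, pow_one] at b4
  have hT1 : LinearMap.ker f ≤ (LinearMap.ker f).comap T := fun x hx => by
    have : S ((C + ε • 1) x) - (C + ε • 1) x = 0 := hx
    change S ((C + ε • 1) (T x)) - (C + ε • 1) (T x) = 0
    rw [hTP, hTk _ (sub_eq_zero.1 this), sub_self]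
  have hfD : Commute (S - 1) f := (Commute.refl _).mul_right (hDP ε)
  have hD1 : LinearMap.ker f ≤ (LinearMap.ker f).comap (S - 1) := fun x hx => by
    change (f * (S - 1)) x = 0
    rw [← hfD.eq, Module.End.mul_apply, LinearMap.mem_ker.1 hx, map_zero]
  obtain ⟨T', hT'⟩ : ∃ T' : Module.End (ZMod p) (V ⧸ LinearMap.ker f),
      ∀ x, T' ((LinearMap.ker f).mkQ x) = (LinearMap.ker f).mkQ (T x) :=
    ⟨(LinearMap.ker f).mapQ _ T hT1, fun _ => rfl⟩
  obtain ⟨D', hD'⟩ : ∃ D' : Module.End (ZMod p) (V ⧸ LinearMap.ker f),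
      ∀ x, D' ((LinearMap.ker f).mkQ x) = (LinearMap.ker f).mkQ ((S - 1) x) :=
    ⟨(LinearMap.ker f).mapQ _ _ hD1, fun _ => rfl⟩
  have hS' : ∀ x, (D' + 1) ((LinearMap.ker f).mkQ x) = (LinearMap.ker f).mkQ (S x) := fun x => by
    rw [LinearMap.add_apply, hD', Module.End.one_apply, ← map_add, LinearMap.sub_apply,
      Module.End.one_apply, sub_add_cancel]
  have hrk : ∀ i, finrank (ZMod p) (LinearMap.range (D' ^ i)) =
      finrank (ZMod p) (LinearMap.range ((S - 1) ^ (i + 1) * (C + ε • 1))) := fun i => by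
    have b1 : (LinearMap.range (D' ^ i)).map ((LinearMap.ker f).liftQ f le_rfl) =
        LinearMap.range ((S - 1) ^ (i + 1) * (C + ε • 1)) := by
      rw [pow_succ, mul_assoc, ← hf, (hfD.pow_left i).eq]
      refine le_antisymm ?_ ?_
      · rintro _ ⟨_, ⟨x, rfl⟩, rfl⟩
        obtain ⟨x, rfl⟩ := (LinearMap.ker f).mkQ_surjective x
        exact ⟨x, by rw [semi_AlEx _ _ _ hD']; rfl⟩
      · rintro _ ⟨x, rfl⟩
        exact ⟨_, ⟨(LinearMap.ker f).mkQ x, rfl⟩, by rw [semi_AlEx _ _ _ hD']; rfl⟩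
    rw [← b1, rn_AlEx ((LinearMap.ker f).liftQ f le_rfl),
      Submodule.ker_liftQ_eq_bot' _ _ rfl, inf_bot_eq, finrank_bot, add_zero]
  have hz : D' ^ (p - 1) = 0 := by
    rw [← LinearMap.range_eq_bot, ← Submodule.finrank_eq_zero, hrk, hD, zero_mul,
      LinearMap.range_zero, finrank_bot]
  have key := part2_PvFil D' (μ⁻¹ • T') (p - 1) _ a e ((p - 1) / e)
    (by rw [pow_succ, hz, zero_mul]) (by omega)
    (LinearMap.ext fun x => by
      obtain ⟨x, rfl⟩ := (LinearMap.ker f).mkQ_surjective x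
      rw [smul_pow, inv_pow, hμ, inv_one, one_smul, semi_AlEx _ _ _ hT', hT]
      rfl)
    (LinearMap.ext fun x => by
      obtain ⟨x, rfl⟩ := (LinearMap.ker f).mkQ_surjective x
      rw [smul_mul_assoc, mul_smul_comm, LinearMap.smul_apply, LinearMap.smul_apply,
        Module.End.mul_apply, Module.End.mul_apply, hS', hT', hT', semi_AlEx _ _ _ hS',
        ← Module.End.mul_apply, hTS, Module.End.mul_apply])
    ha he hek (Nat.mul_div_cancel' hdvd).symm (fun i hi => by rw [hrk, hrk]; exact hm i hi)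
  rw [hz, LinearMap.range_zero, inf_bot_eq, finrank_bot, add_zero,
    rgP_AlEx _ C ε h2 hC hε (hDC.pow_left _)] at key
  rw [h V _ T C T' (ε • 1) (LinearMap.ker f).mkQ ⊤ (LinearMap.ker f) e μ ε hp hek hT hC hCT hμ hε
    (fun x _ => ⟨trivial, trivial, (hT' x).symm, ?_, Submodule.Quotient.mk_eq_zero _⟩) le_top,
    add_comm]
  · unfold eg
    have e1 : Submodule.map (LinearMap.ker f).mkQ ⊤ ⊓ (LinearMap.ker (T' - μ • 1) ⊓
        LinearMap.ker (ε • 1 - ε • 1 : Module.End (ZMod p) (V ⧸ LinearMap.ker f))) =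
        LinearMap.ker (μ⁻¹ • T' - 1) := by
      rw [Submodule.map_top, Submodule.range_mkQ, top_inf_eq, sub_self, LinearMap.ker_zero,
        inf_top_eq]
      ext x
      rw [memE_PvFil, LinearMap.mem_ker, LinearMap.sub_apply, sub_eq_zero, LinearMap.smul_apply,
        inv_smul_eq_iff₀ hμ0, Module.End.one_apply]
    have e2 : LinearMap.ker f ⊓ (LinearMap.ker (T - μ • 1) ⊓ LinearMap.ker (C - ε • 1)) =
        LinearMap.ker (S - 1) ⊓ (LinearMap.ker (T - μ • 1) ⊓ LinearMap.ker (C - ε • 1)) := by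
      ext x
      refine and_congr_left fun hx => ?_
      have b1 : f x = (2 * ε) • (S - 1) x := by
        rw [hf, Module.End.mul_apply, LinearMap.add_apply, (memE_PvFil _ _ _).1 hx.2, ← map_smul,
          two_mul, add_smul]
        rfl
      change f x = 0 ↔ (S - 1) x = 0
      rw [b1, smul_eq_zero, or_iff_right (mul_ne_zero h2 hε0)]
    rw [e1, e2, key, hN, one_smul, sub_self, LinearMap.ker_zero, top_inf_eq]
  · rw [LinearMap.smul_apply, Module.End.one_apply, ← map_smul, ← sub_eq_zero, ← map_sub]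
    refine (Submodule.Quotient.mk_eq_zero _).2 ?_
    have b1 : (C + ε • 1) (C x - ε • x) = 0 := by
      simp [show C (C x) = x from LinearMap.congr_fun hC x, smul_smul, hε, smul_sub]
    rw [LinearMap.mem_ker, hf, Module.End.mul_apply, b1, map_zero]

end Pool.Agent.MP_f68ac8_nt.Sv
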