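import Mathlib
import Pool.Agent.MP_f68ac8_nt.AlAux
import Pool.Agent.MP_f68ac8_nt.PvPerm
import Pool.Agent.MP_f68ac8_nt.PvSec
import Pool.Agent.MP_f68ac8_nt.PvFil

namespace Pool.Agent.MP_f68ac8_nt.Sv
open Ev Pv

open Module Finset

section
variable {p : ℕ} [hp : Fact p.Prime] {Γ Sg : Type} [Group Γ] [MulAction Γ Sg] {s g : Γ} {a : ℕ}

theorem ft_AlPerm {V : Type} [AddCommGroup V] [Module (ZMod p) V] [FiniteDimensional (ZMod p) V]
    (S : Module.End (ZMod p) V) (hS : S ^ p = 1)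
    (h : LinearMap.range (S - 1) ⊓ LinearMap.ker (S - 1) ≤ LinearMap.range (nm S)) : FT S := by
  have key : ∀ i, finrank (ZMod p) (LinearMap.range (S - 1)) ≤
      i * finrank (ZMod p) (LinearMap.range (nm S)) +
        finrank (ZMod p) (LinearMap.range ((S - 1) ^ (i + 1))) := by
    intro i
    induction i with
    | zero => rw [zero_mul, zero_add, zero_add, pow_one]
    | succ i ih =>
      have h1 := anti_PvFil (S - 1) (Nat.le_add_left 1 i)
      rw [pow_one] at h1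
      have h2 := Submodule.finrank_mono ((inf_le_inf_right _ h1).trans h)
      rw [step_PvFil (S - 1) (i + 1)] at ih
      rw [add_mul, one_mul]
      omega
  have h1 := key (p - 1)
  rwa [Nat.sub_add_cancel hp.out.pos, nil_PvSec S hS, LinearMap.range_zero, finrank_bot,
    add_zero] at h1

theorem pow_AlPerm (hs : s ^ p = 1) (ha : ¬ p ∣ a) : ∃ m, (s ^ a) ^ m = s :=
  exists_pow_eq_self_of_coprime (((Nat.Prime.coprime_iff_not_dvd hp.out).2 ha).symm.coprime_dvd_right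
    (orderOf_dvd_of_pow_eq_one hs))

theorem fix_AlPerm (hs : s ^ p = 1) (ha : ¬ p ∣ a) {w : Sg} (h : s ^ a • w = w) : s • w = w := by
  obtain ⟨m, hm⟩ := pow_AlPerm hs ha
  exact hm ▸ (MulAction.stabilizer Γ w).pow_mem h m

theorem conj_AlPerm (hs : s ^ p = 1) (ha : ¬ p ∣ a) (hg : g * s = s ^ a * g) (w : Sg) :
    s • g⁻¹ • w = g⁻¹ • w ↔ s • w = w := by
  have h : s • g⁻¹ • w = g⁻¹ • w ↔ s ^ a • w = w := by
    rw [eq_inv_smul_iff, ← mul_smul, hg, mul_smul, smul_inv_smul]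
  exact h.trans ⟨fix_AlPerm hs ha, fun h => (MulAction.stabilizer Γ w).pow_mem h a⟩

theorem ker_AlPerm {y : Sg → ZMod p} :
    y ∈ LinearMap.ker (perm Γ (ZMod p) Sg s - 1) ↔ perm Γ (ZMod p) Sg s y = y := sub_eq_zero

omit hp in
theorem it_AlPerm {y : Sg → ZMod p} (h : perm Γ (ZMod p) Sg s y = y) (n : ℕ) :
    perm Γ (ZMod p) Sg (s ^ n) y = y := by
  rw [map_pow, Module.End.pow_apply]
  exact Function.iterate_fixed h n

theorem inv_AlPerm (hs : s ^ p = 1) (ha : ¬ p ∣ a) (hg : g * s = s ^ a * g) {y : Sg → ZMod p}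
    (hy : y ∈ LinearMap.ker (perm Γ (ZMod p) Sg s - 1)) :
    perm Γ (ZMod p) Sg g y ∈ LinearMap.ker (perm Γ (ZMod p) Sg s - 1) := by
  obtain ⟨m, hm⟩ := pow_AlPerm hs ha
  rw [ker_AlPerm] at hy ⊢
  rw [← hm]
  refine it_AlPerm ?_ m
  rw [← Module.End.mul_apply, ← map_mul, ← hg, map_mul, Module.End.mul_apply, hy]

theorem nm_AlPerm (y : Sg → ZMod p) (w : Sg) :
    nm (perm Γ (ZMod p) Sg s) y w = ∑ i ∈ range p, y ((s ^ i)⁻¹ • w) := by
  simp only [nm, LinearMap.sum_apply, Finset.sum_apply, ← map_pow, perm_apply]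

theorem key_AlPerm (hs : s ^ p = 1) {y : Sg → ZMod p} (hy : perm Γ (ZMod p) Sg s y = y)
    (h0 : ∀ w, s • w = w → y w = 0) : y ∈ LinearMap.range (nm (perm Γ (ZMod p) Sg s)) := by
  classical
  obtain ⟨r, r1, r2⟩ : ∃ r : Sg → Sg, (∀ (i : ℕ) w, r ((s ^ i)⁻¹ • w) = r w) ∧
      ∀ w, ∃ i < p, (s ^ i)⁻¹ • w = r w := by
    refine ⟨fun w => (Quotient.mk (MulAction.orbitRel (Subgroup.zpowers s) Sg) w).out,
      fun i w => congrArg Quotient.out (Quotient.sound (MulAction.orbitRel_apply.2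
        ⟨⟨_, inv_mem (pow_mem (Subgroup.mem_zpowers s) i)⟩, rfl⟩)), fun w => ?_⟩
    obtain ⟨⟨g, hg⟩, h⟩ := MulAction.orbitRel_apply.1 (Quotient.exact (Quotient.out_eq
      (Quotient.mk (MulAction.orbitRel (Subgroup.zpowers s) Sg) w)))
    obtain ⟨n, hn⟩ := (isOfFinOrder_iff_pow_eq_one.2
      ⟨p, hp.out.pos, hs⟩).mem_powers_iff_mem_zpowers.2 (inv_mem hg)
    refine ⟨n % p, Nat.mod_lt _ hp.out.pos, ?_⟩
    rw [← pow_eq_pow_mod n hs, show s ^ n = g⁻¹ from hn, inv_inv]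
    exact h
  refine ⟨fun w => if w = r w then y w else 0, funext fun w => ?_⟩
  have e : ∀ i : ℕ, y ((s ^ i)⁻¹ • w) = y w := fun i => congrFun (it_AlPerm hy i) w
  simp only [nm_AlPerm, r1, e]
  by_cases hw : s • w = w
  · simp [h0 w hw]
  obtain ⟨i, h1, h2⟩ := r2 w
  rw [sum_eq_single_of_mem i (mem_range.2 h1) fun j hj h3 => if_neg fun h4 => hw ?_, if_pos h2]
  rw [mem_range] at hj
  refine fix_AlPerm hs (a := j + (p - i)) (fun h5 => ?_) ?_
  · have := Nat.eq_of_dvd_of_lt_two_mul (by omega) h5 (by omega)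
    omega
  · rw [pow_add, pow_sub _ h1.le, hs, one_mul, mul_smul, h2, ← h4, smul_inv_smul]

end

theorem permW_stmt (p : ℕ) [Fact p.Prime] (h : ExEgStmt p) : PermWStmt p := by
  classical
  intro Γ _ Sg _ _ s h2 hs
  have f0 : ∀ w : Sg, s • w = w → ∀ i : ℕ, (s ^ i)⁻¹ • w = w := fun w hw i =>
    inv_mem ((MulAction.stabilizer Γ w).pow_mem hw i)
  refine ⟨ft_AlPerm _ (by rw [← map_pow, hs, map_one]) ?_,
    fun t c a e he ha ht hts hc hcs hct μ ε hμ hε => ?_⟩
  · rintro _ ⟨⟨x, rfl⟩, hx⟩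
    refine key_AlPerm hs (ker_AlPerm.1 hx) fun w hw => sub_eq_zero.2 ?_
    exact congrArg x (inv_smul_eq_iff.2 hw.symm)
  have ha' : ¬ p ∣ a := fun h => ha ((ZMod.natCast_eq_zero_iff a p).2 h)
  have h1 : ¬ p ∣ 1 := fun h => by have := Nat.le_of_dvd one_pos h; omega
  have hcs' : c * s = s ^ 1 * c := by rwa [pow_one]
  have e1 : perm Γ (ZMod p) Sg t ^ e = 1 := by rw [← map_pow, ht, map_one]
  have e2 : perm Γ (ZMod p) Sg c * perm Γ (ZMod p) Sg c = 1 := by rw [← map_mul, hc, map_one]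
  have e3 : perm Γ (ZMod p) Sg c * perm Γ (ZMod p) Sg t =
    perm Γ (ZMod p) Sg t * perm Γ (ZMod p) Sg c := by rw [← map_mul, hct, map_mul]
  refine ⟨?_, fun ⟨w, hw⟩ => ?_, fun h3 => ?_⟩
  · obtain ⟨φ, hφ⟩ : ∃ φ : (Sg → ZMod p) →ₗ[ZMod p] Sg → ZMod p,
        ∀ y w, φ y w = if s • w = w then y w else 0 :=
      ⟨LinearMap.mulLeft _ fun w => if s • w = w then 1 else 0, fun y w => by simp⟩
    rw [h _ _ _ _ (perm Γ (ZMod p) Sg t) (perm Γ (ZMod p) Sg c) φ _
      (LinearMap.range (nm (perm Γ (ZMod p) Sg s))) e μ ε h2 he e1 e2 e3 hμ hε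
      (fun x hx => ⟨inv_AlPerm hs ha' hts hx, inv_AlPerm hs h1 hcs' hx, funext fun w => ?_,
        funext fun w => ?_, fun h3 => key_AlPerm hs (ker_AlPerm.1 hx) fun w hw => ?_, ?_⟩) ?_]
    · congr 2
      refine le_antisymm ?_ fun y hy => ⟨y, ker_AlPerm.2 (funext fun w => ?_), funext fun w => ?_⟩
      · rintro _ ⟨y, -, rfl⟩ w hw
        rw [hφ, if_neg hw]
      · by_cases hw : s • w = w
        · exact congrArg y (inv_smul_eq_iff.2 hw.symm)
        · rw [perm_apply, hy w hw,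
            hy _ fun h => hw ((conj_AlPerm hs h1 (by rw [pow_one]) w).1 h)]
      · rw [hφ]
        split_ifs with hw
        exacts [rfl, (hy w hw).symm]
    · rintro _ ⟨y, rfl⟩
      rw [LinearMap.mem_ker, ← Module.End.mul_apply, nm, mul_geom_sum, ← map_pow, hs, map_one,
        sub_self, LinearMap.zero_apply]
    · simp only [hφ, perm_apply, conj_AlPerm hs ha' hts]
    · simp only [hφ, perm_apply, conj_AlPerm hs h1 hcs']
    · exact ((hφ x w).trans (if_pos hw)).symm.trans (congrFun h3 w)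
    · rintro ⟨y, rfl⟩
      funext w
      rw [hφ]
      split_ifs with hw
      · simp [nm_AlPerm, f0 w hw]
      · rfl
  · have e4 : ∀ (g : Γ) (x : Sg → ZMod p),
        (∑ w : Sg, LinearMap.proj (R := ZMod p) (φ := fun _ : Sg => ZMod p) w)
          (perm Γ (ZMod p) Sg g x) =
        (∑ w : Sg, LinearMap.proj (R := ZMod p) (φ := fun _ : Sg => ZMod p) w) x := fun g x => by
      simp only [LinearMap.sum_apply, LinearMap.proj_apply, perm_apply]
      exact Equiv.sum_comp (MulAction.toPerm g⁻¹) x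
    rw [h _ _ _ _ 1 1 (∑ w : Sg, LinearMap.proj (R := ZMod p) (φ := fun _ : Sg => ZMod p) w)
      (Fx p Sg s) (Fx p Sg s ⊓ Sz p Sg) e μ ε h2 he e1 e2 e3 hμ hε
      (fun x hx => ⟨fun w hw => hx _ fun h => hw ((conj_AlPerm hs ha' hts w).1 h),
        fun w hw => hx _ fun h => hw ((conj_AlPerm hs h1 hcs' w).1 h), e4 t x, e4 c x,
        fun h => ⟨hx, h⟩, fun h => h.2⟩) inf_le_left]
    congr 1
    have e5 : (Fx p Sg s).map
        (∑ w : Sg, LinearMap.proj (R := ZMod p) (φ := fun _ : Sg => ZMod p) w) = ⊤ :=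
      eq_top_iff.2 fun z _ => ⟨Pi.single w z, fun v hv => Pi.single_eq_of_ne
        (fun e => hv (by rw [e, hw])) _, by simp [LinearMap.sum_apply]⟩
    rw [e5, eg]
    split_ifs with h4
    · rw [h4.1, h4.2, one_smul, sub_self, LinearMap.ker_zero, top_inf_eq, top_inf_eq, finrank_top,
        finrank_self]
    · refine Submodule.finrank_eq_zero.2 (eq_bot_iff.2 fun x hx => by_contra fun h5 => h4 ⟨?_, ?_⟩)
      · exact mul_right_cancel₀ h5 (((memE_PvFil _ _ _).1 hx.2.1).symm.trans (one_mul x).symm)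
      · exact mul_right_cancel₀ h5 (((memE_PvFil _ _ _).1 hx.2.2).symm.trans (one_mul x).symm)
  · refine Submodule.finrank_eq_zero.2 (eq_bot_iff.2 fun x hx => funext fun w => ?_)
    by_cases hw : s • w = w
    swap
    · exact hx.1 w hw
    obtain ⟨k, h4, h5⟩ := h3 w hw
    by_contra h7
    have h6 := congrFun (Module.End.HasEigenvector.pow_apply ⟨Module.End.mem_eigenspace_iff.2
      ((memE_PvFil _ _ _).1 hx.2.1), fun h => h7 (congrFun h w)⟩ k) w
    rw [← map_pow, perm_apply, inv_smul_eq_iff.2 h4.symm] at h6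
    exact h5 (mul_right_cancel₀ h7 (h6.symm.trans (one_mul _).symm))

end Pool.Agent.MP_f68ac8_nt.Sv
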