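import Mathlib
import Pool.Agent.MP_f68ac8_nt.AlAux
import Pool.Agent.MP_f68ac8_nt.PvCoinv
import Pool.Agent.MP_f68ac8_nt.PvFil
import Pool.Agent.MP_f68ac8_nt.PvSec

namespace Pool.Agent.MP_f68ac8_nt.Sv
open Ev Pv

open Module Finset
open scoped TensorProduct

section
variable {p : ℕ} [hp : Fact p.Prime] {Γ : Type} [Group Γ]

theorem dim_AlRankW (Sg : Type) [Fintype Sg] [MulAction Γ Sg] (s : Γ) :
    {w : Sg | s • w = w}.ncard ≤ finrank (ZMod p) ↥(Fx p Sg s ⊓ Sz p Sg) + 1 := by
  classical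
  let φ : (Sg → ZMod p) →ₗ[ZMod p] ({w : Sg // ¬ s • w = w} → ZMod p) × ZMod p :=
    (LinearMap.funLeft (ZMod p) (ZMod p) Subtype.val).prod
      (∑ w : Sg, LinearMap.proj (R := ZMod p) (φ := fun _ : Sg => ZMod p) w)
  have h1 := φ.finrank_range_add_finrank_ker
  have h2 := (LinearMap.range φ).finrank_le
  have h3 : LinearMap.ker φ ≤ Fx p Sg s ⊓ Sz p Sg := fun y hy =>
    ⟨fun w hw => congrFun (congrArg Prod.fst hy) ⟨w, hw⟩, congrArg Prod.snd hy⟩
  have h4 := Submodule.finrank_mono h3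
  have h5 : {w : Sg | s • w = w}.ncard = Fintype.card {w : Sg // s • w = w} := by
    rw [← Nat.card_coe_set_eq, Nat.card_eq_fintype_card]
    rfl
  have h6 := Fintype.card_subtype_compl fun w : Sg => s • w = w
  have h7 := Fintype.card_subtype_le fun w : Sg => s • w = w
  rw [finrank_prod, finrank_self, finrank_fintype_fun_eq_card] at h2
  rw [finrank_fintype_fun_eq_card] at h1
  omega

theorem sz_AlRankW {Sg : Type} [Fintype Sg] (y : Sg → ZMod p) : y ∈ Sz p Sg ↔ ∑ w, y w = 0 := by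
  simp [Sz]

open Classical in
theorem fs_AlRankW {Sg : Type} [Fintype Sg] (P : Sg → Prop) (f : Sg → ZMod p) :
    ∑ᶠ w ∈ {w | P w}, f w = ∑ w, if P w then f w else 0 := by
  rw [← sum_filter, ← finsum_mem_coe_finset]
  simp

variable {A Sg : Type} [AddCommGroup A] [Module ℤ A] [MulAction Γ Sg]
  {α : Representation ℤ Γ A} {s : Γ} {lam : A → Sg → ZMod p}

omit hp in
theorem fixp_AlRankW {a : A} (h : α s a = a) (n : ℕ) : α (s ^ n) a = a := by
  induction n with
  | zero => rw [pow_zero, map_one, Module.End.one_apply]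
  | succ n ih => rw [pow_succ, map_mul, Module.End.mul_apply, h, ih]

theorem nsmul_AlRankW (hl : HWA α s lam) {b : A} (hb : α s b = b) {w : Sg} (hw : s • w = w)
    (n : ℕ) : lam (n • b) w = n * lam b w := by
  induction n with
  | zero =>
    have h := hl.add 0 0 (map_zero _) (map_zero _) w hw
    rw [add_zero] at h
    rw [zero_smul, Nat.cast_zero, zero_mul]
    exact left_eq_add.1 h
  | succ n ih =>
    rw [succ_nsmul, hl.add _ _ (by rw [map_nsmul, hb]) hb w hw, ih]
    push_cast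
    ring

open Classical in
theorem ex_AlRankW (hl : HWA α s lam) (tf : ∀ a : A, (p : ℤ) • a = 0 → a = 0)
    (h0 : ∀ a : A, (1 : ZMod p) ⊗ₜ[ℤ] a = 0 → ∃ b, a = (p : ℤ) • b)
    (hU : ∀ x, red p α s x = x → ∃ a, α s a = a ∧ x = 1 ⊗ₜ a) :
    ∃ l : (ZMod p ⊗[ℤ] A) →ₗ[ZMod p] Sg → ZMod p, ∀ a, α s a = a → ∀ w,
      l (1 ⊗ₜ a) w = if s • w = w then lam a w else 0 := by
  have hind : ∀ a a', α s a = a → α s a' = a' → (1 : ZMod p) ⊗ₜ[ℤ] a = 1 ⊗ₜ a' → ∀ w : Sg,
      s • w = w → lam a w = lam a' w := by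
    intro a a' ha ha' h w hw
    obtain ⟨b, hb⟩ := h0 (a - a') (by rw [TensorProduct.tmul_sub, h, sub_self])
    rw [natCast_zsmul] at hb
    have h1 : α s b = b := sub_eq_zero.1 (tf _ (by
      rw [natCast_zsmul, nsmul_sub, ← map_nsmul, ← hb, map_sub, ha, ha', sub_self]))
    rw [sub_eq_iff_eq_add.1 hb, hl.add _ _ (by rw [map_nsmul, h1]) ha' w hw,
      nsmul_AlRankW hl h1 hw, ZMod.natCast_self, zero_mul, zero_add]
  choose c hc1 hc2 using fun x : LinearMap.ker (red p α s - 1) => 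
    hU x.1 (by
      have h := x.2
      rwa [LinearMap.mem_ker, LinearMap.sub_apply, Module.End.one_apply, sub_eq_zero] at h)
  let l0 : LinearMap.ker (red p α s - 1) →+ Sg → ZMod p :=
    AddMonoidHom.mk' (fun x w => if s • w = w then lam (c x) w else 0) fun x y => by
      funext w
      rw [Pi.add_apply]
      split_ifs with hw
      · rw [← hl.add _ _ (hc1 x) (hc1 y) w hw]
        refine hind _ _ (hc1 _) (by rw [map_add, hc1, hc1]) ?_ w hw
        rw [TensorProduct.tmul_add, ← hc2, ← hc2, ← hc2]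
        rfl
      · exact (add_zero _).symm
  obtain ⟨l, hl'⟩ := (l0.toZModLinearMap p).exists_extend
  refine ⟨l, fun a ha w => ?_⟩
  have hm : (1 : ZMod p) ⊗ₜ[ℤ] a ∈ LinearMap.ker (red p α s - 1) :=
    show red p α s (1 ⊗ₜ a) - 1 ⊗ₜ a = 0 by rw [red_tmul, ha, sub_self]
  have h := congrFun (LinearMap.congr_fun hl' ⟨_, hm⟩) w
  refine h.trans ?_
  change (if s • w = w then lam (c ⟨_, hm⟩) w else 0) = _
  split_ifs with hw
  · exact hind _ _ (hc1 _) ha (hc2 ⟨_, hm⟩).symm w hw
  · rfl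

end

theorem rankW_stmt (p : ℕ) [Fact p.Prime] (hB : BcStmt p) (hC : ClsStmt p) (hA : RankAStmt p)
    (hR : RankBStmt p) : RankWStmt p := by
  classical
  intro Γ _ A _ _ α Sg _ _ j hj s hs hw₀ lam hl
  have hp : p.Prime := Fact.out
  have hsp : s ^ p = 1 := hs ▸ pow_orderOf_eq_one s
  have := hj.fin
  obtain ⟨b1, b2, -⟩ := hB A
  obtain ⟨a1, a2, a3⟩ := hA Γ A α s hsp hj.tf hl.h1
  obtain ⟨m, r1, r2⟩ := hR Γ A α Sg j hj s hsp
  have c1 := (hC Γ A α Sg j hj).1
  obtain ⟨l, hl1⟩ := ex_AlRankW hl hj.tf (fun a => (b2 a).1) fun x => (a2 x).1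
  have hU : ∀ x, x ∈ LinearMap.ker (red p α s - 1) ↔ red p α s x = x := fun x => sub_eq_zero
  have himg : (LinearMap.ker (red p α s - 1)).map l = Fx p Sg s ⊓ Sz p Sg := by
    refine le_antisymm ?_ fun y hy => ?_
    · rintro _ ⟨x, hx, rfl⟩
      obtain ⟨a, ha, rfl⟩ := (a2 x).1 ((hU x).1 hx)
      refine ⟨fun w hw => (hl1 a ha w).trans (if_neg hw), (sz_AlRankW _).2 ?_⟩
      rw [sum_congr rfl fun w _ => hl1 a ha w]
      convert (fs_AlRankW (fun w : Sg => s • w = w) (lam a)).symm.trans (hl.sum a ha)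
    · by_contra hn
      obtain ⟨φ, h1, h2⟩ := Submodule.exists_dual_map_eq_bot_of_notMem hn inferInstance
      let r : Sg → ZMod p := fun w => φ fun j => if w = j then 1 else 0
      have hφ : ∀ z, φ z = ∑ w, z w * r w := fun z => φ.pi_apply_eq_sum_univ z
      have h3 := hl.rel r fun a ha => by
        have h4 : φ (l (1 ⊗ₜ a)) ∈ (⊥ : Submodule (ZMod p) (ZMod p)) :=
          h2 ▸ Submodule.mem_map_of_mem (Submodule.mem_map_of_mem ((hU _).2 ((a2 _).2 ⟨a, ha, rfl⟩)))
        rw [Submodule.mem_bot, hφ] at h4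
        rw [fs_AlRankW]
        refine Eq.trans (sum_congr rfl fun w _ => ?_) h4
        rw [hl1 a ha w]
        split_ifs
        · exact mul_comm _ _
        · rw [zero_mul]
      obtain ⟨w₀, hw₀⟩ := hw₀
      apply h1
      rw [hφ, sum_congr rfl fun w _ => show y w * r w = y w * r w₀ from ?_, ← sum_mul,
        (sz_AlRankW y).1 hy.2, zero_mul]
      by_cases hw : s • w = w
      · rw [h3 w w₀ hw hw₀]
      · rw [hy.1 w hw, zero_mul, zero_mul]
  have hle : LinearMap.range (nm (red p α s)) ≤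
      LinearMap.ker (red p α s - 1) ⊓ LinearMap.ker l := by
    rintro _ ⟨y, rfl⟩
    obtain ⟨b, rfl⟩ := b1 y
    have h1 : nm (red p α s) (1 ⊗ₜ b) = (1 : ZMod p) ⊗ₜ[ℤ] ∑ i ∈ range p, α (s ^ i) b := by
      rw [nm, LinearMap.sum_apply, TensorProduct.tmul_sum]
      exact sum_congr rfl fun i _ => by rw [← map_pow, red_tmul]
    have h2 : α s (∑ i ∈ range p, α (s ^ i) b) = ∑ i ∈ range p, α (s ^ i) b := by
      have h := LinearMap.congr_fun (mul_geom_sum (α s) p) b
      rw [← map_pow, hsp, map_one, sub_self, Module.End.mul_apply, LinearMap.sum_apply] at h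
      simp only [map_pow]
      exact sub_eq_zero.1 h
    rw [h1]
    refine ⟨(hU _).2 ((a2 _).2 ⟨_, h2, rfl⟩), funext fun w => (hl1 _ h2 w).trans ?_⟩
    split_ifs with hw
    · exact hl.nrm b w hw
    · rfl
  have heq : LinearMap.range (nm (red p α s)) =
      LinearMap.ker (red p α s - 1) ⊓ LinearMap.ker l := by
    refine Submodule.eq_of_le_of_finrank_le hle ?_
    have h1 := (l.domRestrict (LinearMap.ker (red p α s - 1))).finrank_range_add_finrank_ker
    rw [LinearMap.range_domRestrict, LinearMap.ker_domRestrict, himg,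
      ← Submodule.finrank_map_subtype_eq _ (Submodule.comap _ _),
      Submodule.map_comap_subtype] at h1
    have h2 := dim_AlRankW (p := p) Sg s
    have h3 := (red p α s - 1).finrank_range_add_finrank_ker
    have h4 : (p - 1) * m ≤ (p - 1) * finrank (ZMod p) (LinearMap.range (nm (red p α s))) := by
      refine le_trans ?_ a1
      have h5 : p * m = (p - 1) * m + m := by
        rw [← Nat.succ_mul, Nat.succ_eq_add_one, Nat.sub_add_cancel hp.one_le]
      omega
    have h6 := Nat.le_of_mul_le_mul_left h4 (Nat.sub_pos_of_lt hp.one_lt)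
    omega
  refine ⟨l, a1, fun x hx => ?_, himg, fun g k hg x hx w => ?_⟩
  · rw [heq]
    exact ⟨fun h => ⟨(hU x).2 hx, h⟩, fun h => h.2⟩
  · obtain ⟨a, ha, rfl⟩ := (a2 x).1 hx
    have hk : k.Coprime (orderOf s) := by
      rw [hs]
      refine ((Nat.Prime.coprime_iff_not_dvd hp).2 fun h => hp.one_lt.ne' ?_).symm
      rw [orderOf_dvd_iff_pow_eq_one.1 (hs ▸ h), one_mul, mul_eq_left] at hg
      rw [← hs, hg, orderOf_one]
    obtain ⟨n, hn⟩ := exists_pow_eq_self_of_coprime hk
    have h1 : α s (α g a) = α g a := by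
      rw [← hn]
      refine fixp_AlRankW ?_ n
      rw [← Module.End.mul_apply, ← map_mul, ← hg, map_mul, Module.End.mul_apply, ha]
    have h2 : s • g • w = g • w ↔ s • w = w := by
      constructor
      · intro h
        have h3 : s ^ k • g • w = g • w := MulAction.mem_stabilizer_iff.1
          (Subgroup.pow_mem _ (MulAction.mem_stabilizer_iff.2 h) k)
        rwa [← mul_smul, ← hg, mul_smul, smul_left_cancel_iff] at h3
      · intro h
        have h3 : s ^ k • g • w = g • w := by rw [← mul_smul, ← hg, mul_smul, h]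
        rw [← hn]
        exact MulAction.mem_stabilizer_iff.1
          (Subgroup.pow_mem _ (MulAction.mem_stabilizer_iff.2 h3) n)
    rw [red_tmul, hl1 _ h1, hl1 _ ha]
    by_cases hw : s • w = w
    · rw [if_pos hw, if_pos (h2.2 hw), hl.eqv g k hg a ha w hw]
    · rw [if_neg hw, if_neg (mt h2.1 hw), mul_zero]

end Pool.Agent.MP_f68ac8_nt.Sv
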