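import Mathlib
import Pool.Agent.MP_f68ac8_nt.AlAux
import Pool.Agent.MP_f68ac8_nt.PvSec
import Pool.Agent.MP_f68ac8_nt.PvTr

namespace Pool.Agent.MP_f68ac8_nt.Sv
open Ev Pv

lemma two_AlSec {p : ℕ} [Fact p.Prime] (h : 2 < p) : (2 : ZMod p) ≠ 0 := by
  intro h0
  have h1 : ((2 : ℕ) : ZMod p) = 0 := by exact_mod_cast h0
  rw [ZMod.natCast_eq_zero_iff] at h1
  have := Nat.le_of_dvd (by norm_num) h1
  omega

lemma avg_AlSec {k A : Type} [Field k] [Ring A] [Algebra k A] (N T C r : A) (h2 : (2 : k) ≠ 0)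
    (hC : C * C = 1) (hCN : Commute C N) (hCT : Commute C T) (hr : N * r * N = N)
    (hTr : Commute T r) : ∃ r' : A, N * r' * N = N ∧ Commute T r' ∧ Commute C r' := by
  refine ⟨(2 : k)⁻¹ • (r + C * r * C), ?_, ?_, ?_⟩
  · have h : N * (C * r * C) * N = N := by
      calc N * (C * r * C) * N = (N * C) * r * (C * N) := by simp only [mul_assoc]
        _ = (C * N) * r * (N * C) := by rw [← hCN.eq]
        _ = C * (N * r * N) * C := by simp only [mul_assoc]
        _ = N := by rw [hr, hCN.eq, mul_assoc, hC, mul_one]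
    rw [mul_smul_comm, smul_mul_assoc, mul_add, add_mul, hr, h, ← two_smul k, smul_smul,
      inv_mul_cancel₀ h2, one_smul]
  · exact (hTr.add_right ((hCT.symm.mul_right hTr).mul_right hCT.symm)).smul_right _
  · apply Commute.smul_right
    show C * _ = _ * C
    rw [mul_add, add_mul, ← mul_assoc, ← mul_assoc, hC, one_mul, mul_assoc (C * r), hC, mul_one,
      add_comm]

theorem secW_stmt (p : ℕ) [Fact p.Prime] : SecWStmt p := by
  intro X M _ _ _ _ _ _ S T C S' T' C' a e ε hp2 hS hT hTS hS' hT' hTS' ha he hC hCS hCT _ _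
  have hp : p.Prime := Fact.out
  have h2 := two_AlSec hp2
  have ha0 : (a : ZMod p) ≠ 0 := fun h => by
    have h1 := pow_orderOf_eq_one (a : ZMod p)
    rw [ha, h, zero_pow he.ne'] at h1
    exact zero_ne_one h1
  have he0 : (e : ZMod p) ≠ 0 := by
    rw [Ne, ZMod.natCast_eq_zero_iff]
    have h1 := ZMod.orderOf_dvd_card_sub_one ha0
    rw [ha] at h1
    have h2 := Nat.le_of_dvd (by have := hp.two_le; omega) h1
    exact Nat.not_dvd_of_pos_of_lt he (by have := hp.two_le; omega)
  obtain ⟨r₀, hr₀⟩ := ginv_PvSec ((S - 1) ^ (p - 1))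
  obtain ⟨r₁, hr₁, hTr₁⟩ := avg_PvSec (k := ZMod p) _ T r₀ e he he0 hT
    (comm_PvSec S T a hS ha0 hTS) hr₀
  have hCS' : Commute C S := hCS
  obtain ⟨r, hr, hTr, hCr⟩ := avg_AlSec (k := ZMod p) _ T C r₁ h2 hC
    ((hCS'.sub_right (Commute.one_right C)).pow_right _) hCT hr₁ hTr₁
  have hN : (S.rTensor M - 1) ^ (p - 1) = ((S - 1) ^ (p - 1)).rTensor M := by
    rw [← LinearMap.rTensor_pow, LinearMap.rTensor_sub]
    congr 2
    exact (LinearMap.rTensor_id M X).symm
  have hmap : (S.rTensor M - 1) * S'.lTensor X + (S'.lTensor X - 1) =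
      TensorProduct.map S S' - 1 := by
    rw [sub_mul, one_mul, Module.End.mul_eq_comp, LinearMap.rTensor_comp_lTensor]
    abel
  have hcm : ∀ (f : Module.End (ZMod p) X) (g : Module.End (ZMod p) M),
      Commute (f.rTensor M) (g.lTensor X) := fun f g => by
    show _ * _ = _ * _
    rw [Module.End.mul_eq_comp, Module.End.mul_eq_comp, LinearMap.rTensor_comp_lTensor,
      LinearMap.lTensor_comp_rTensor]
  have hτ : ∀ (f : Module.End (ZMod p) X) (g : Module.End (ZMod p) M), Commute f r →
      TensorProduct.map f g * r.rTensor M = r.rTensor M * TensorProduct.map f g := by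
    intro f g hf
    rw [Module.End.mul_eq_comp, Module.End.mul_eq_comp, LinearMap.map_comp_rTensor,
      LinearMap.rTensor_comp_map, ← Module.End.mul_eq_comp, ← Module.End.mul_eq_comp, hf.eq]
  have hD : (S.rTensor M - 1) ^ p = 0 := nil_PvSec _ (by
    rw [LinearMap.rTensor_pow, hS]; exact LinearMap.rTensor_id M X)
  have hS2 : S'.lTensor X ^ p = 1 := by
    rw [LinearMap.lTensor_pow, hS']; exact LinearMap.lTensor_id X M
  unfold eg
  refine LinearMap.finrank_le_finrank_of_injective (f := LinearMap.codRestrict _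
    ((nm (TensorProduct.map S S') * r.rTensor M) ∘ₗ Submodule.subtype _) ?_) ?_
  · rintro ⟨w, -, hw1, hw2⟩
    have h1 : TensorProduct.map T T' w = w := by
      have h := LinearMap.mem_ker.1 hw1
      rwa [one_smul, LinearMap.sub_apply, Module.End.one_apply, sub_eq_zero] at h
    have h1' : TensorProduct.map C C' w = w := by
      have h := LinearMap.mem_ker.1 hw2
      rwa [one_smul, LinearMap.sub_apply, Module.End.one_apply, sub_eq_zero] at h
    have h4 : TensorProduct.map T T' (r.rTensor M w) = r.rTensor M w := by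
      rw [← Module.End.mul_apply, hτ _ _ hTr, Module.End.mul_apply, h1]
    have h5 : TensorProduct.map C C' (r.rTensor M w) = r.rTensor M w := by
      rw [← Module.End.mul_apply, hτ _ _ hCr, Module.End.mul_apply, h1']
    have h3 : ∀ j : ℕ, (TensorProduct.map T T' ^ j) (r.rTensor M w) = r.rTensor M w := fun j => by
      induction j with
      | zero => rfl
      | succ j ih => rw [pow_succ, Module.End.mul_apply, h4, ih]
    refine ⟨(e : ZMod p)⁻¹ • (2 : ZMod p)⁻¹ • r.rTensor M w, ?_⟩
    rw [map_smul, map_smul, Module.End.mul_apply, LinearMap.add_apply, Module.End.one_apply, h5,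
      ← two_smul (ZMod p), map_smul, smul_smul (2 : ZMod p)⁻¹, inv_mul_cancel₀ h2, one_smul,
      Module.End.mul_apply, LinearMap.sum_apply (Finset.range e),
      Finset.sum_congr rfl fun j _ => h3 j, Finset.sum_const, Finset.card_range,
      ← Nat.cast_smul_eq_nsmul (ZMod p), map_smul, smul_smul, inv_mul_cancel₀ he0, one_smul]
    rfl
  · rw [injective_iff_map_eq_zero]
    rintro ⟨w, ⟨v, hv⟩, hw1⟩ h
    have h1 : (nm (TensorProduct.map S S') * r.rTensor M) w = 0 := congrArg Subtype.val h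
    rw [nm, geom_PvSec, ← hmap, Module.End.mul_apply] at h1
    refine Subtype.ext (key_PvSec _ _ (r.rTensor M) hD hS2
      ((hcm S S').sub_left (Commute.one_left _)) (hcm r S').symm w ?_ h1)
    rw [nm, geom_PvSec] at hv
    rw [← hv, hN, ← Module.End.mul_apply, ← Module.End.mul_apply, ← LinearMap.rTensor_mul,
      ← LinearMap.rTensor_mul, hr]

lemma rng_AlSec {k V : Type} [Field k] [AddCommGroup V] [Module k V] (W : Submodule k V)
    (f Q : Module.End k V) (g : Module.End k W) (hQ : LinearMap.range Q = W)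
    (hg : ∀ v : W, (g v : V) = f v) :
    Module.finrank k (LinearMap.range (f * Q)) = Module.finrank k (LinearMap.range g) := by
  rw [← Submodule.finrank_map_subtype_eq W (LinearMap.range g)]
  refine congrArg (fun U : Submodule k V => Module.finrank k U) ?_
  ext x
  constructor
  · rintro ⟨v, rfl⟩
    have h : Q v ∈ W := hQ ▸ LinearMap.mem_range_self Q v
    exact ⟨g ⟨Q v, h⟩, LinearMap.mem_range_self _ _, hg _⟩
  · rintro ⟨_, ⟨w, rfl⟩, rfl⟩
    obtain ⟨v, hv⟩ : (w : V) ∈ LinearMap.range Q := hQ ▸ w.2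
    exact ⟨v, by rw [Module.End.mul_apply, hv]; exact (hg w).symm⟩

lemma plus_AlSec {k V : Type} [Field k] [AddCommGroup V] [Module k V] (h2 : (2 : k) ≠ 0)
    (C : Module.End k V) (hC : C * C = 1) (u : k) (hu : u ≠ 0) :
    LinearMap.range (u • (1 + C)) = LinearMap.ker (C - 1) := by
  ext x
  rw [LinearMap.mem_ker, LinearMap.sub_apply, Module.End.one_apply, sub_eq_zero]
  constructor
  · rintro ⟨v, rfl⟩
    rw [LinearMap.smul_apply, LinearMap.add_apply, Module.End.one_apply, map_smul, map_add,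
      ← Module.End.mul_apply, hC, Module.End.one_apply, add_comm]
  · intro hx
    refine ⟨u⁻¹ • (2 : k)⁻¹ • x, ?_⟩
    rw [map_smul, map_smul, LinearMap.smul_apply, LinearMap.add_apply, Module.End.one_apply, hx,
      ← two_smul k, smul_comm u, smul_smul (2 : k)⁻¹, inv_mul_cancel₀ h2, one_smul, smul_smul,
      inv_mul_cancel₀ hu, one_smul]

lemma bor_AlSec {p : ℕ} [Fact p.Prime] {Γ : Type} [Group Γ] {H : Subgroup Γ} {s t : Γ}
    {a e : ℕ} (h : BorW p H s t a e) : Bor p (⟨s, h.hs⟩ : H) ⟨t, h.ht⟩ a e := by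
  have hm : ∀ x : H, x ∈ Subgroup.closure {(⟨s, h.hs⟩ : H), ⟨t, h.ht⟩} ↔
      (x : Γ) ∈ Subgroup.closure {s, t} := by
    intro x
    rw [← Subgroup.mem_map_iff_mem (f := H.subtype) H.subtype_injective, MonoidHom.map_closure,
      Set.image_pair]
    rfl
  refine ⟨?_, Subtype.ext h.ot, Subtype.ext h.rel, h.oa, h.pos, fun g hg => ?_⟩
  · rw [Subgroup.orderOf_mk]
    exact h.os
  · rw [hm] at hg ⊢
    exact h.ti g g.2 hg

lemma sum_AlSec {Γ A : Type} [Group Γ] [Fintype Γ] [Ring A] {H : Subgroup Γ} [Fintype H] {c : Γ}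
    (h : Cen H c) (hc : c ∉ H) (f : Γ →* A) : ∑ g, f g = (∑ g : H, f g) * (1 + f c) := by
  classical
  let E : H ≃ {g : Γ // ¬ g ∈ H} :=
    { toFun := fun x => ⟨x * c, fun hx => hc (by simpa using H.mul_mem (H.inv_mem x.2) hx)⟩
      invFun := fun g => ⟨g * c, by rw [h.comm]; exact (h.cov g).resolve_left g.2⟩
      left_inv := fun x => Subtype.ext (by simp only [mul_assoc, h.sq, mul_one])
      right_inv := fun x => Subtype.ext (by simp only [mul_assoc, h.sq, mul_one]) }
  rw [← Fintype.sum_subtype_add_sum_subtype (· ∈ H), mul_add, mul_one, Finset.sum_mul]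
  congr 1
  · exact Finset.sum_congr (by congr; exact Subsingleton.elim _ _) fun _ _ => rfl
  · refine (Fintype.sum_equiv E _ _ fun x => ?_).symm
    exact (map_mul f _ _).symm

theorem trW_stmt (p : ℕ) [Fact p.Prime] (hT : TrStmt p) : TrWStmt p := by
  intro Γ _ _ H s t c a e hp2 hc hB
  classical
  have h2 := two_AlSec hp2
  obtain ⟨ε, hε, hV⟩ := hT H _ _ a e (bor_AlSec hB)
  let ι : MonoidAlgebra (ZMod p) H →ₐ[ZMod p] MonoidAlgebra (ZMod p) Γ :=
    MonoidAlgebra.mapDomainAlgHom (ZMod p) (ZMod p) H.subtype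
  have hι : ∀ g : H, ι (MonoidAlgebra.of (ZMod p) H g) = MonoidAlgebra.of (ZMod p) Γ g := by
    intro g
    simp [ι]
  have hcc : MonoidAlgebra.of (ZMod p) Γ c * MonoidAlgebra.of (ZMod p) Γ c = 1 := by
    rw [← map_mul, hc.sq, map_one]
  have hcm : ∀ x : MonoidAlgebra (ZMod p) H, Commute (ι x) (MonoidAlgebra.of (ZMod p) Γ c) := by
    intro x
    induction x using MonoidAlgebra.induction_on with
    | of g =>
      rw [hι]
      show _ * _ = _ * _
      rw [← map_mul, ← map_mul, hc.comm]
    | add f g hf hg => rw [map_add]; exact hf.add_left hg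
    | smul r f hf => rw [map_smul]; exact hf.smul_left r
  refine ⟨ι ε * ((2 : ZMod p)⁻¹ • (1 + MonoidAlgebra.of (ZMod p) Γ c)), ?_, ?_⟩
  · refine IsIdempotentElem.mul_of_commute
      (((Commute.one_right _).add_right (hcm ε)).smul_right _) (hε.map ι) ?_
    show _ * _ = _
    rw [smul_mul_smul_comm, mul_add, add_mul, add_mul, mul_one, mul_one, one_mul, hcc,
      add_comm (MonoidAlgebra.of (ZMod p) Γ c) 1, ← two_smul (ZMod p), smul_smul, mul_assoc,
      inv_mul_cancel₀ h2, mul_one]
  intro V _ _ _ ρ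
  have hCC : ρ c * ρ c = 1 := by rw [← map_mul, hc.sq, map_one]
  have hmem : ∀ v, v ∈ LinearMap.ker (ρ c - 1) ↔ ρ c v = v := fun v => by
    rw [LinearMap.mem_ker, LinearMap.sub_apply, Module.End.one_apply, sub_eq_zero]
  obtain ⟨σ, hσ⟩ : ∃ σ : Representation (ZMod p) H (LinearMap.ker (ρ c - 1)),
      ∀ (g : H) (w : LinearMap.ker (ρ c - 1)), (σ g w : V) = ρ g w :=
    ⟨Representation.subrepresentation (ρ.comp H.subtype) _ (fun g w hw => by
      have h1 := (hmem w).1 hw
      refine (hmem _).2 ?_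
      show ρ c (ρ g w) = ρ g w
      rw [← Module.End.mul_apply, ← map_mul, ← hc.comm, map_mul, Module.End.mul_apply, h1]),
      fun _ _ => rfl⟩
  obtain ⟨e1, e2⟩ := hV _ σ
  have hP := plus_AlSec h2 (ρ c) hCC 1 one_ne_zero
  rw [one_smul] at hP
  have hal : ∀ (x : MonoidAlgebra (ZMod p) H) (w : LinearMap.ker (ρ c - 1)),
      (σ.asAlgebraHom x w : V) = ρ.asAlgebraHom (ι x) w := by
    intro x w
    induction x using MonoidAlgebra.induction_on with
    | of g => rw [hι, Representation.asAlgebraHom_of, Representation.asAlgebraHom_of, hσ]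
    | add f g hf hg =>
      rw [map_add, map_add, map_add, LinearMap.add_apply, LinearMap.add_apply, Submodule.coe_add,
        hf, hg]
    | smul r f hf =>
      rw [map_smul, map_smul, map_smul, LinearMap.smul_apply, LinearMap.smul_apply,
        Submodule.coe_smul, hf]
  have hε' : Module.finrank (ZMod p) (LinearMap.range (ρ.asAlgebraHom
      (ι ε * ((2 : ZMod p)⁻¹ • (1 + MonoidAlgebra.of (ZMod p) Γ c))))) =
      Module.finrank (ZMod p) (LinearMap.range (σ.asAlgebraHom ε)) := by
    rw [map_mul, map_smul, map_add, map_one, Representation.asAlgebraHom_of]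
    exact rng_AlSec _ _ _ _ (plus_AlSec h2 (ρ c) hCC _ (inv_ne_zero h2)) (hal ε)
  have hsum : ∀ (g : H) (n : ℕ) (w : LinearMap.ker (ρ c - 1)),
      ((∑ i ∈ Finset.range n, σ g ^ i) w : V) = (∑ i ∈ Finset.range n, ρ g ^ i) w := by
    intro g n w
    rw [LinearMap.sum_apply, LinearMap.sum_apply, Submodule.coe_sum]
    refine Finset.sum_congr rfl fun i _ => ?_
    rw [← map_pow, ← map_pow, hσ, Subgroup.coe_pow]
  have hall : ∀ w : LinearMap.ker (ρ c - 1), ((∑ g : H, σ g) w : V) = (∑ g : H, ρ g) w := by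
    intro w
    rw [LinearMap.sum_apply, LinearMap.sum_apply, Submodule.coe_sum]
    exact Finset.sum_congr rfl fun g _ => hσ g w
  have hG : Module.finrank (ZMod p) (LinearMap.range (∑ g, ρ g)) =
      Module.finrank (ZMod p) (LinearMap.range (∑ g, σ g)) := by
    by_cases hcH : c ∈ H
    · have h1 := hc.mem hcH
      have h3 : ∑ g, ρ g = (∑ g : H, ρ g) * 1 := by
        rw [mul_one]
        refine Finset.sum_subtype _ (fun g => ⟨fun _ => ?_, fun _ => Finset.mem_univ _⟩) _
        have := hc.cov g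
        rwa [h1, one_mul, or_self] at this
      rw [h3]
      refine rng_AlSec _ _ _ _ ?_ hall
      rw [h1, map_one, sub_self, LinearMap.ker_zero]
      exact LinearMap.range_id
    · rw [sum_AlSec hc hcH ρ]
      exact rng_AlSec _ _ _ _ hP hall
  rw [hε']
  constructor
  · rw [hG, ← e1]
    refine rng_AlSec _ _ _ _ hP fun w => ?_
    rw [Module.End.mul_apply, Module.End.mul_apply, hsum, hsum]
    rfl
  · have hI : ρ.invariants = σ.invariants.map (LinearMap.ker (ρ c - 1)).subtype := by
      ext x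
      constructor
      · intro hx
        exact ⟨⟨x, (hmem x).2 (hx c)⟩, fun g => Subtype.ext (by rw [hσ]; exact hx g), rfl⟩
      · rintro ⟨w, hw, rfl⟩ g
        have h1 : ∀ g ∈ H, ρ g w = w := fun g hg => by
          have := congrArg Subtype.val (hw ⟨g, hg⟩)
          rwa [hσ] at this
        show ρ g w = w
        rcases hc.cov g with h | h
        · exact h1 g h
        · have h3 : g = c * (c * g) := by rw [← mul_assoc, hc.sq, one_mul]
          rw [h3, map_mul, Module.End.mul_apply, h1 _ h]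
          exact (hmem _).1 w.2
    rw [hI, Submodule.finrank_map_subtype_eq, ← e2,
      ← Submodule.finrank_map_subtype_eq (LinearMap.ker (ρ c - 1))]
    unfold eg
    refine congrArg (fun U : Submodule (ZMod p) V => Module.finrank (ZMod p) U) ?_
    ext x
    simp only [one_smul, Submodule.mem_inf, Submodule.mem_map, LinearMap.mem_ker,
      LinearMap.sub_apply, Module.End.one_apply, sub_eq_zero, Submodule.subtype_apply]
    constructor
    · rintro ⟨h1, h3, h4⟩
      exact ⟨⟨x, (hmem x).2 h4⟩, ⟨Subtype.ext (by rw [hσ]; exact h1),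
        Subtype.ext (by rw [hσ]; exact h3)⟩, rfl⟩
    · rintro ⟨w, ⟨h1, h3⟩, rfl⟩
      have h4 := congrArg Subtype.val h1
      have h5 := congrArg Subtype.val h3
      rw [hσ] at h4 h5
      exact ⟨h4, h5, (hmem _).1 w.2⟩

end Pool.Agent.MP_f68ac8_nt.Sv
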