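import Mathlib
import Pool.Agent.MP_f68ac8_nt.LcAux
import Pool.Agent.MP_f68ac8_nt.PvGrp
namespace Pool.Agent.MP_f68ac8_nt.Sv
open Ev Pv
open Matrix Module

variable {p : ℕ} [hp : Fact p.Prime] {Γ : Type} [Group Γ]

lemma desc_LcGrp {G M : Type} [Group G] [Monoid M] (π : G →* Γ) (hπ : Function.Surjective π)
    (f : G →* M) (h : ∀ g, π g = 1 → f g = 1) : ∃ f' : Γ →* M, ∀ g, f' (π g) = f g := by
  have key : ∀ a b, π a = π b → f a = f b := fun a b e => by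
    have e1 := h (a⁻¹ * b) (by rw [map_mul, map_inv, e, inv_mul_cancel])
    calc f a = f a * f (a⁻¹ * b) := by rw [e1, mul_one]
      _ = f b := by rw [← map_mul, mul_inv_cancel_left]
  have hs := Function.surjInv_eq hπ
  exact ⟨⟨⟨fun x => f (Function.surjInv hπ x), (key _ 1 (by rw [hs, map_one])).trans (map_one f)⟩,
    fun x y => (key _ _ (by rw [map_mul, hs, hs, hs])).trans (map_mul f _ _)⟩,
    fun g => key _ _ (hs _)⟩

lemma up_LcGrp {R : Γ → GL (Fin 2) (ZMod p)} (D : PD_PvGrp R) {s : Γ} {b : ZMod p}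
    (hs : Pj_PvGrp R s !![1, b; 0, 1]) (n : ℕ) : Pj_PvGrp R (s ^ n) !![1, n * b; 0, 1] := by
  induction n with
  | zero =>
    rw [pow_zero]
    exact Pj_cong_PvGrp (Pj_one_PvGrp D) (by rw [one_fin_two, Nat.cast_zero, zero_mul])
  | succ n ih =>
    rw [pow_succ]
    refine Pj_cong_PvGrp (Pj_mul_PvGrp D ih hs) ?_
    rw [mul_fin_two]
    simp [add_comm, add_mul]

lemma rel_LcGrp {s t : Γ} {a : ℕ} (h : t * s = s ^ a * t) (k m : ℕ) :
    t ^ k * s ^ m = s ^ (a ^ k * m) * t ^ k := by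
  have h1 : ∀ m : ℕ, t * s ^ m = s ^ (a * m) * t := fun m => by
    rw [pow_mul]
    exact (SemiconjBy.pow_right h m).eq
  induction k generalizing m with
  | zero => simp
  | succ k ih => rw [pow_succ, mul_assoc, h1, ← mul_assoc, ih, mul_assoc, ← pow_succ, pow_succ a,
      mul_assoc]

lemma clo_LcGrp [Finite Γ] {s t : Γ} {a : ℕ} (h : t * s = s ^ a * t) {x : Γ}
    (hx : x ∈ Subgroup.closure {s, t}) : ∃ m k : ℕ, x = s ^ m * t ^ k := by
  rw [← Subgroup.mem_toSubmonoid, Subgroup.closure_toSubmonoid_of_finite] at hx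
  induction hx using Submonoid.closure_induction with
  | mem y hy =>
    rcases hy with rfl | rfl
    · exact ⟨1, 0, by simp⟩
    · exact ⟨0, 1, by simp⟩
  | one => exact ⟨0, 0, by simp⟩
  | mul y z _ _ hy hz =>
    obtain ⟨m, k, rfl⟩ := hy
    obtain ⟨m', k', rfl⟩ := hz
    refine ⟨m + a ^ k * m', k + k', ?_⟩
    rw [mul_assoc, ← mul_assoc (t ^ k), rel_LcGrp h, pow_add, pow_add]
    simp only [mul_assoc]

lemma borW_LcGrp {H : Subgroup Γ} {s t : H} {a e : ℕ} (h : Bor p s t a e) :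
    BorW p H s t a e := by
  refine ⟨s.2, t.2, (Subgroup.orderOf_coe s).trans h.os, congrArg Subtype.val h.ot,
    congrArg Subtype.val h.rel, h.oa, h.pos, fun g hg h1 => ?_⟩
  have e : Subgroup.closure {(s : Γ), (t : Γ)} = (Subgroup.closure {s, t}).map H.subtype := by
    rw [MonoidHom.map_closure, Set.image_pair]
    rfl
  rw [e] at h1 ⊢
  exact ⟨⟨g, hg⟩, h.ti _ ((Subgroup.mem_map_iff_mem H.subtype_injective).1 h1), rfl⟩

lemma tri_LcGrp [Finite Γ] {R : Γ → GL (Fin 2) (ZMod p)} (D : PD_PvGrp R) {s t x : Γ} {a e : ℕ}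
    (hB : Bor p s t a e) (h0 : (R s).val 1 0 = 0) (h1 : (R s).val 0 0 = (R s).val 1 1)
    (hx : (R x).val 1 0 = 0) : ∃ m k : ℕ, x = s ^ m * t ^ k ∧
      (a : ZMod p) ^ k * (R x).val 1 1 = (R x).val 0 0 := by
  have hd := Pj_det_PvGrp (Pj_self_PvGrp (R := R) s)
  rw [h0, mul_zero, sub_zero] at hd
  have h11 := right_ne_zero_of_mul hd
  have hs : Pj_PvGrp R s !![1, (R s).val 0 1 / (R s).val 1 1; 0, 1] := by
    refine ⟨_, h11, ?_⟩
    ext i j
    fin_cases i <;> fin_cases j <;> simp [h0, h1, mul_div_cancel₀ _ h11]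
  have hX := Pj_self_PvGrp (R := R) x
  have hd' := Pj_det_PvGrp hX
  generalize (R x).val = X at hX hx hd'
  generalize (R s).val 0 1 / (R s).val 1 1 = b at hs
  rw [hx, mul_zero, sub_zero] at hd'
  have h2 := right_ne_zero_of_mul hd'
  have h3 : x * s = s ^ (X 0 0 / X 1 1).val * x := by
    refine Pj_inj_PvGrp D (Pj_mul_PvGrp D hX hs)
      (Pj_cong_PvGrp (Pj_mul_PvGrp D (up_LcGrp D hs _) hX) ?_)
    ext i j
    fin_cases i <;> fin_cases j <;> simp [mul_apply, Fin.sum_univ_two, hx]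
    field_simp
    ring
  obtain ⟨m, k, rfl⟩ := clo_LcGrp hB.rel (hB.ti x (by
    rw [h3, mul_inv_cancel_right]
    exact pow_mem (Subgroup.subset_closure (by simp)) _))
  refine ⟨m, k, rfl, ?_⟩
  have h4 := rel_LcGrp hB.rel k 1
  rw [pow_one, mul_one] at h4
  rw [mul_assoc, h4, ← mul_assoc, ← mul_assoc, mul_left_inj, pow_mul_comm, mul_left_inj,
    pow_eq_pow_iff_modEq, hB.os, ← ZMod.natCast_eq_natCast_iff, Nat.cast_pow,
    ZMod.natCast_zmod_val] at h3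
  rw [h3, div_mul_cancel₀ _ h2]

lemma grp_LcGrp [Finite Γ] (S : Γ → GL (Fin 2) (ZMod p)) (h3 : 3 < p)
    (hD : ∀ A : GL (Fin 2) (ZMod p), PD_PvGrp fun x => A⁻¹ * S x * A)
    (hsl : ∀ A : GL (Fin 2) (ZMod p), A.val.det = 1 →
      ∃ (x : Γ) (c : ZMod p), c ≠ 0 ∧ (S x).val = c • A.val)
    {s : Γ} (h1 : s ≠ 1) (hs : s ^ p = 1) :
    ∃ (C : GL (Fin 2) (ZMod p)) (t : Γ) (a e : ℕ), Bor p s t a e ∧
      Pj_PvGrp (fun x => C⁻¹ * S x * C) s !![1, 1; 0, 1] ∧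
      Pj_PvGrp (fun x => C⁻¹ * S x * C) t !![a, 0; 0, 1] ∧
      ∀ (A : GL (Fin 2) (ZMod p)) x, (A⁻¹ * S s * A).val 1 0 = 0 → (A⁻¹ * S x * A).val 1 0 = 0 →
        ∃ m k : ℕ, x = s ^ m * t ^ k ∧
          (a : ZMod p) ^ k * (A⁻¹ * S x * A).val 1 1 = (A⁻¹ * S x * A).val 0 0 := by
  have D := hD 1
  simp only [inv_one, one_mul, mul_one] at D
  have h2 := Pj_pow_PvGrp D (Pj_self_PvGrp s) p
  rw [hs] at h2
  obtain ⟨c, hc, h2⟩ := Pj_uniq_PvGrp h2 (Pj_one_PvGrp D)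
  obtain ⟨C, hC, h4⟩ := basis_PvGrp hc h2 fun h0 => h1 (D.inj s c h0)
  let C' : GL (Fin 2) (ZMod p) := GeneralLinearGroup.mkOfDetNeZero C hC
  have h5 : (C'⁻¹ * S s * C').val = c • !![1, 1; 0, 1] := by
    have h4 : (S s).val * C'.val = c • (C'.val * !![1, 1; 0, 1]) := h4
    simp only [Units.val_mul, mul_assoc, h4, mul_smul_comm, Units.inv_mul_cancel_left]
  have hs' : Pj_PvGrp (fun g => C'⁻¹ * S g * C') s !![1, 1; 0, 1] := ⟨c, hc, h5⟩
  let L : GL (Fin 2) (ZMod p) := GeneralLinearGroup.mkOfDetNeZero !![1, 0; 1, 1] (by simp)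
  obtain ⟨g, d, hd, hg⟩ := hsl (C' * L * C'⁻¹) (by
    rw [Units.val_mul, Units.val_mul, det_units_conj]
    simp [L])
  have h6 : (C'⁻¹ * S g * C').val 1 0 ≠ 0 := by
    simp only [Units.val_mul, hg, mul_assoc, mul_smul_comm, smul_mul_assoc,
      Units.inv_mul_cancel_left, Units.inv_mul, mul_one]
    simpa [L] using hd
  obtain ⟨t, a, e, x, hB, -, ht⟩ := core_PvGrp (hD C') h3 hs' (orderOf_eq_prime hs h1) h6
  have h7 : x = a := by
    have h8 := Pj_mul_PvGrp (hD C') ht hs'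
    rw [hB.rel] at h8
    obtain ⟨z, -, h9⟩ := Pj_uniq_PvGrp h8 (Pj_mul_PvGrp (hD C') (up_LcGrp (hD C') hs' a) ht)
    have a1 := congrFun (congrFun h9 0) 1
    have a2 := congrFun (congrFun h9 1) 1
    simp [mul_apply, Fin.sum_univ_two] at a1 a2
    rw [a1, ← a2, one_mul]
  refine ⟨C', t, a, e, hB, hs', h7 ▸ ht, fun A y h8 h9 => tri_LcGrp (hD A) hB h8 ?_ h9⟩
  have e1 : (A⁻¹ * S s * A).val.trace = (C'⁻¹ * S s * C').val.trace := by
    simp only [Units.val_mul, trace_units_conj']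
  have e2 : (A⁻¹ * S s * A).val.det = (C'⁻¹ * S s * C').val.det := by
    simp only [Units.val_mul, det_units_conj']
  rw [h5] at e1 e2
  generalize (A⁻¹ * S s * A).val = B at h8 e1 e2
  simp [trace_fin_two, det_fin_two, h8] at e1 e2
  have : (B 0 0 - B 1 1) ^ 2 = 0 := by
    linear_combination (B 0 0 + B 1 1 + 2 * c) * e1 - 4 * e2
  exact sub_eq_zero.1 (pow_eq_zero_iff two_ne_zero |>.1 this)

end Pool.Agent.MP_f68ac8_nt.Sv
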