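import Mathlib
import Pool.Agent.MP_f68ac8_nt.LcAux
namespace Pool.Agent.MP_f68ac8_nt.Sv
open Ev Pv
open Matrix Module

variable {p : ℕ} [hp : Fact p.Prime] {Γ : Type} [Group Γ]

lemma top_LcGrp {n : ℕ} {U T D : Mt n (ZMod p)} (hD : IsUnit D) (hU : U * D * Uᵀ = D)
    (hT : T * D * Tᵀ = D) {μ : ZMod p} (hz : ∀ z, U *ᵥ z = z → μ • T *ᵥ z = z) {w : Vc p n}
    (hw : Uᵀ *ᵥ w = w) : Tᵀ *ᵥ w = μ • w := by
  have h1 : IsUnit (T * D) := by
    rw [← hT, isUnit_iff_isUnit_det, det_mul] at hD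
    exact (isUnit_iff_isUnit_det _).2 (isUnit_of_mul_isUnit_left hD)
  have h2 : U *ᵥ (D *ᵥ w) = D *ᵥ w := by
    conv_lhs => rw [← hw]
    rw [mulVec_mulVec, mulVec_mulVec, hU]
  refine mulVec_injective_of_isUnit h1 ?_
  change (T * D) *ᵥ (Tᵀ *ᵥ w) = (T * D) *ᵥ (μ • w)
  rw [mulVec_mulVec, hT, mulVec_smul, ← mulVec_mulVec, hz _ h2]

lemma nrm_LcGrp (h1 : Sym1Stmt) (i : ℕ) (x : ZMod p) {c : ZMod p} (hc : c ≠ 0)
    (A : Mt 2 (ZMod p)) : (x * (c • A).det⁻¹) ^ i • symP (2 * i + 1) (c • A) =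
      (x * A.det⁻¹) ^ i • symP (2 * i + 1) A := by
  rw [(h1 (ZMod p) _).2.2.1, det_smul, smul_smul, Nat.add_sub_cancel, pow_mul, ← mul_pow,
    Fintype.card_fin, mul_inv, mul_assoc, mul_right_comm, inv_mul_cancel₀ (pow_ne_zero _ hc),
    one_mul]

lemma wt_LcGrp (h1 : Sym1Stmt) (h2 : Sym2Stmt p) {i : ℕ} (hi : 0 < i) (hip : 2 * i + 1 ≤ p)
    (R : Γ →* Mt (2 * i + 1) (ZMod p)) {P Q : Mt (2 * i + 1) (ZMod p)} (hP : P * Q = 1)
    {s t c : Γ} {a : ℕ} {ε : ZMod p} (ha : (a : ZMod p) ≠ 0) (hε : ε * ε = 1) (hc : R c = ε • 1)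
    (hs : Q * (R s)ᵀ * P = symP _ !![1, -1; 0, 1])
    (ht : Q * (R t)ᵀ * P = (a : ZMod p)⁻¹ ^ i • symP _ !![1, 0; 0, (a : ZMod p)]) :
    WtD (mRep R) s t c a i ε := by
  obtain ⟨-, -, -, -, h5, h6, -, h7⟩ := h1 (ZMod p) (2 * i + 1)
  have hQ := mul_eq_one_comm.1 hP
  have e1 : Qᵀ * Pᵀ = 1 := by rw [← transpose_mul, hP, transpose_one]
  have e2 : Pᵀ * Qᵀ = 1 := by rw [← transpose_mul, hQ, transpose_one]
  have key : ∀ X Y : Mt (2 * i + 1) (ZMod p), Q * Xᵀ * P = Y → X = Qᵀ * Yᵀ * Pᵀ := by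
    rintro X _ rfl
    rw [transpose_mul, transpose_mul, transpose_transpose, ← mul_assoc, e1, one_mul, mul_assoc,
      e1, mul_one]
  have hd : symP (2 * i + 1) !![1, 0; 0, (a : ZMod p)] =
      diagonal fun j : Fin (2 * i + 1) => (a : ZMod p) ^ (j : ℕ) := by
    obtain ⟨-, k1, -, k2⟩ := h5 !![1, 0; 0, (a : ZMod p)] rfl
    ext j k
    by_cases h : j = k
    · subst h
      rw [k1, diagonal_apply_eq]
      simp
    · rw [k2 rfl j k h, diagonal_apply_ne _ h]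
  have hai : (a : ZMod p) ^ i * (a : ZMod p)⁻¹ ^ i = 1 := by
    rw [← mul_pow, mul_inv_cancel₀ ha, one_pow]
  refine ⟨hi, hε, fun v => by rw [mRep_apply, hc, smul_mulVec, one_mulVec],
    ⟨(Pi.basisFun _ _).map (toLin'OfInv e2 e1), fun j => ?_⟩, fun v hv => ?_⟩
  · have e3 : ((Pi.basisFun _ _).map (toLin'OfInv e2 e1)) j = Qᵀ *ᵥ Pi.single j 1 := by
      simp [toLin'OfInv]
    rw [e3, mRep_apply, key _ _ ht, mulVec_mulVec, mul_assoc, e2, mul_one, ← mulVec_mulVec,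
      ← mulVec_smul, hd, transpose_smul, diagonal_transpose, smul_mulVec, smul_smul,
      hai, one_smul, diagonal_mulVec_single, ← mulVec_smul, ← Pi.single_smul, smul_eq_mul]
  · rw [mRep_apply, key _ _ hs, ← mulVec_mulVec, ← mulVec_mulVec] at hv
    have hw := congrArg (fun y => Pᵀ *ᵥ y) hv
    simp only [mulVec_mulVec _ Pᵀ Qᵀ, e2, one_mulVec] at hw
    have h8 := top_LcGrp (T := (a : ZMod p)⁻¹ ^ i • symP _ !![1, 0; 0, (a : ZMod p)])
      (μ := (a : ZMod p) ^ i) (h7 fun m h0 hm => Ne.isUnit (by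
        rw [Ne, ZMod.natCast_eq_zero_iff]
        exact Nat.not_dvd_of_pos_of_lt h0 (hm.trans_le hip))) (by rw [h6]; simp) ?_ ?_ hw
    · rw [mRep_apply, key _ _ ht, ← mulVec_mulVec, ← mulVec_mulVec, h8, mulVec_smul,
        mulVec_mulVec, e1, one_mulVec]
    · rw [transpose_smul, smul_mul_assoc, smul_mul_smul_comm, h6, smul_smul, Nat.add_sub_cancel,
        det_fin_two_of, ← pow_add, ← two_mul, ← mul_pow]
      simp [ha]
    · intro z hz
      have h9 := ((h2 (ZMod p) (2 * i + 1) (Nat.succ_pos _) hip).1 !![1, -1; 0, 1] rfl rfl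
        (by simp) (by simp)).2 1 z (by simpa [sy] using hz)
      rw [smul_mulVec, smul_smul, hai, one_smul, hd]
      ext j
      rw [mulVec_diagonal]
      by_cases h : (j : ℕ) = 0
      · rw [h, pow_zero, one_mul]
      · rw [h9 j h, mul_zero]

end Pool.Agent.MP_f68ac8_nt.Sv
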