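import Mathlib
import Pool.Agent.MP_f68ac8_nt.LcAux
import Pool.Agent.MP_f68ac8_nt.PvGrp
import Pool.Agent.MP_f68ac8_nt.LcGrp1
import Pool.Agent.MP_f68ac8_nt.LcGrp2
namespace Pool.Agent.MP_f68ac8_nt.Sv
open Ev Pv
open Matrix Module

lemma sg_LcGrp (p : ℕ) (x : ℤˣ) (i : ℕ) : sg p x ^ i * sg p x ^ i = 1 := by
  rw [← mul_pow, sg, ← Int.cast_mul, ← Units.val_mul, Int.units_mul_self, Units.val_one,
    Int.cast_one, one_pow]

lemma nat_LcGrp {p : ℕ} [Fact p.Prime] (X : GL (Fin 2) (ZMod p)) {c : ℕ} {Y : Mt 2 (ZMod p)}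
    (h : X.val = c • Y) : ∃ c : ZMod p, c ≠ 0 ∧ X.val = c • Y := by
  rw [← Nat.cast_smul_eq_nsmul (ZMod p)] at h
  exact ⟨c, fun h0 => X.ne_zero (by rw [h, h0, zero_smul]), h⟩

theorem grpP_stmt (p : ℕ) [Fact p.Prime] (h1 : Sym1Stmt) (h2 : Sym2Stmt p) (hB : BaseStmt p) :
    GrpPStmt p := by
  intro K F _ _ r η γ n hKF hP i hi hin Γ _ _ π hπ hk u hu1 hu2 hu3
  obtain ⟨-, -, hsl, hmul, hone, hM⟩ := hB K F r η γ n hKF hP
  obtain ⟨hR, hW⟩ := hM i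
  have Rm : ∀ g h, vR r η i (g * h) = vR r η i g * vR r η i h := hR.mul
  have R1 : vR r η i 1 = 1 := hR.one
  obtain ⟨η', hη⟩ := desc_LcGrp π hπ η fun g h => ((hk g).1 h).1
  obtain ⟨r', hr⟩ := desc_LcGrp π hπ r fun g h => ((hk g).1 h).2
  let d : K.fixingSubgroup →* Mt (2 * i + 1) (ZMod p) :=
    ⟨⟨fun g => (vR r η i g⁻¹)ᵀ, by rw [inv_one, R1, transpose_one]⟩,
      fun g h => by simp only [_root_.mul_inv_rev, Rm, transpose_mul]⟩
  obtain ⟨R, hd⟩ := desc_LcGrp π hπ d fun g h => by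
    have e : vR r η i g⁻¹ = vR r η i 1 := by
      unfold vR rep
      rw [map_inv, map_inv, ((hk g).1 h).1, ((hk g).1 h).2, inv_one, inv_one, map_one, map_one]
    change (vR r η i g⁻¹)ᵀ = 1
    rw [e, R1, transpose_one]
  replace hd : ∀ g, R (π g) = (vR r η i g⁻¹)ᵀ := hd
  let S : η'.ker → GL (Fin 2) (ZMod p) := fun x =>
    Function.surjInv ProjGenLinGroup.mk_surjective (r' x)
  have hS0 : ∀ g (x : η'.ker), π g = x → S x = rep r g := fun g x e => by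
    unfold rep
    rw [← hr, e]
  have hS : ∀ A g (x : η'.ker), π g = x → (A⁻¹ * S x * A).val = repIn r A g := fun A g x e => by
    rw [hS0 g x e, repIn]
  have hD : ∀ A : GL (Fin 2) (ZMod p), PD_PvGrp fun x => A⁻¹ * S x * A := fun A => by
    refine ⟨fun x y => ?_, fun x c h => ?_⟩
    · obtain ⟨g, hg⟩ := hπ x
      obtain ⟨h, hh⟩ := hπ y
      rw [hS A g x hg, hS A h y hh, hS A (g * h) (x * y) (by rw [map_mul, hg, hh]; rfl)]
      exact nat_LcGrp _ (hmul A g h).choose_spec.2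
    · obtain ⟨g, hg⟩ := hπ x
      rw [hS A g x hg] at h
      refine Subtype.ext (hg.symm.trans ((hk g).2 ⟨?_, (hone A g).2 ⟨c, h⟩⟩))
      rw [← hη, hg]
      exact x.2
  have hm : ∀ g, η g = 1 → π g ∈ η'.ker := fun g h => (hη g).trans h
  obtain ⟨hn, hnp⟩ := hP.big
  obtain ⟨C, t, a, e, hBo, hs, ht, hl⟩ := grp_LcGrp S (by omega) hD (fun A hA => by
      obtain ⟨g, c, k1, -, k3⟩ := hsl A hA
      exact ⟨⟨π g, hm g k1⟩, nat_LcGrp _ (by rw [hS0 g _ rfl, k3])⟩) (s := ⟨π u, hm u hu1⟩)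
    (fun h => hu2 ((hk u).1 (congrArg Subtype.val h)).2)
    (Subtype.ext ((map_pow π u p).symm.trans ((hk _).2 ⟨by rw [map_pow, hu1, one_pow],
      by rw [map_pow, hu3]⟩)))
  have inj : ∀ x y : Γ, η' x = η' y → r' x = r' y → x = y := fun x y k1 k2 => by
    obtain ⟨g, rfl⟩ := hπ x
    obtain ⟨h, rfl⟩ := hπ y
    rw [hη, hη] at k1
    rw [hr, hr] at k2
    rw [← mul_inv_eq_one, ← map_inv, ← map_mul, hk, map_mul, map_mul, map_inv, map_inv, k1, k2]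
    exact ⟨mul_inv_cancel _, mul_inv_cancel _⟩
  have hγ := hP.gam.1
  have ha : (a : ZMod p) ≠ 0 := by simpa using Pj_det_PvGrp ht
  have s1 : sg p 1 = 1 := by simp [sg]
  refine ⟨R, η'.ker, t, a, e, hd, ⟨fun g => inj _ _ ?_ ?_, inj _ _ ?_ ?_, fun x => ?_,
    fun h => (hk γ).2 ⟨(hη γ).symm.trans h, hγ⟩⟩, borW_LcGrp hBo, ?_, fun A g h k1 k2 k3 k4 => ?_⟩
  · rw [map_mul, map_mul, mul_comm]
  · rw [map_mul, map_mul, hr, hγ, mul_one, one_mul]
  · rw [map_mul, map_one, Int.units_mul_self]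
  · rw [map_mul, map_one, hr, hγ, mul_one]
  · obtain ⟨g, rfl⟩ := hπ x
    refine (hP.gam.2 g).imp (hm g) fun h => ?_
    rw [← map_mul]
    exact hm _ (by rw [map_mul, h, Int.units_mul_self])
  · refine wt_LcGrp h1 h2 hi (by omega) R (P := symP _ C.val) (Q := symP _ C⁻¹.val) ?_ ha
      (sg_LcGrp p _ i) ?_ ?_ ?_
    · rw [← (h1 _ _).2.1, Units.mul_inv, (h1 _ _).1]
    · obtain ⟨c, hc⟩ := (hone 1 γ⁻¹).1 (by rw [map_inv, hγ, inv_one])
      have hc0 : c ≠ 0 := by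
        rintro rfl
        exact Units.ne_zero _ (hc.trans (zero_smul _ _))
      have h3 := hW 1 γ⁻¹
      rw [hc, nrm_LcGrp h1 i _ hc0, inv_one, Units.val_one, (h1 _ _).1, one_mul, mul_one,
        det_one, inv_one, mul_one, map_inv, Int.units_inv_eq_self] at h3
      rw [hd, h3, transpose_smul, transpose_one]
    · obtain ⟨c, hc0, hc⟩ := Pj_inv_PvGrp (hD C) hs (B := !![1, -1; 0, 1])
        (by rw [mul_fin_two, one_fin_two]; simp)
      rw [hS C u⁻¹ _ (map_inv π u)] at hc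
      rw [hd, transpose_transpose, hW, hc, nrm_LcGrp h1 i _ hc0, map_inv, hu1, inv_one, s1]
      simp
    · obtain ⟨g, hg⟩ := hπ t
      obtain ⟨c, hc0, hc⟩ := Pj_cong_PvGrp (Pj_smul_PvGrp (Pj_inv_PvGrp (hD C) ht
        (B := !![(a : ZMod p)⁻¹, 0; 0, 1]) (by rw [mul_fin_two, one_fin_two]; simp [ha])) ha)
        (B := !![1, 0; 0, (a : ZMod p)]) (by simp [ha])
      rw [hS C g⁻¹ _ (by rw [map_inv, hg]; rfl)] at hc
      have k1 : η g = 1 := by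
        rw [← hη, hg]
        exact t.2
      rw [← hg, hd, transpose_transpose, hW, hc, nrm_LcGrp h1 i _ hc0, map_inv, k1, inv_one, s1]
      simp
  · obtain ⟨m, k, k5, k6⟩ := hl A ⟨π g, hm g k1⟩ (by rw [hS A h _ k2, k3])
      (by rw [hS A g _ rfl, k4])
    rw [hS A g _ rfl] at k6
    exact ⟨m, k, congrArg Subtype.val k5, k6⟩

end Pool.Agent.MP_f68ac8_nt.Sv
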