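import Mathlib
import Pool.Agent.MP_f68ac8_nt.PtAux
import Pool.Agent.MP_f68ac8_nt.PvT
import Pool.Agent.MP_14ad9d_nt.Full.WC
import Pool.Agent.MP_14ad9d_nt.Full.DL
import Pool.Agent.MP_14ad9d_nt.Full.R01
import Pool.Agent.MP_14ad9d_nt.Full.FI2

namespace Pool.Agent.MP_f68ac8_nt.Pt
open Ev Pv

open NumberField
open Pool.Agent.MP_14ad9d_nt.Full

theorem pick_PtAuxP {α ι : Type} [Finite ι] (T : ι → Set α) (hT : ∀ i, (T i).Infinite)
    (X : Finset α) : ∃ A : Finset α, (∀ v ∈ A, v ∉ X ∧ ∃ i, v ∈ T i) ∧ ∀ i, ∃ v ∈ A, v ∈ T i := by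
  choose f h1 h2 using fun i => (hT i).exists_notMem_finset X
  refine ⟨(Set.finite_range f).toFinset, fun v hv => ?_, fun i => ⟨f i, by simp, h1 i⟩⟩
  obtain ⟨i, rfl⟩ := (Set.Finite.mem_toFinset _).1 hv
  exact ⟨h2 i, i, h1 i⟩

variable {p : ℕ} [Fact p.Prime] {L : Type} [Field L] [NumberField L] {ζ β : L}

theorem mod_PtAuxP (hζ : IsPrimitiveRoot ζ p) (W : Finset (Pr L)) (hW : ∀ v, ¬ Tm p v → v ∈ W) :
    ∃ M : Ideal (𝓞 L), M ≠ ⊥ ∧ (∀ v, v ∉ W → ¬ M ≤ v.asIdeal) ∧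
      ∀ a : 𝓞 L, a - 1 ∈ M → ∀ v ∈ W, NP p ζ v a := by
  have hp : p.Prime := Fact.out
  have h0 : 1 - ζ ≠ 0 := sub_ne_zero.2 (hζ.ne_one hp.one_lt).symm
  have e : ((1 - hζ.toInteger : 𝓞 L) : L) = 1 - ζ := by simp
  refine ⟨Ideal.span {(1 - hζ.toInteger) ^ p} * ∏ v ∈ W, v.asIdeal, mul_ne_zero ?_
    (Finset.prod_ne_zero_iff.2 fun v _ => v.ne_bot), fun v hv h => ?_, fun a ha v hv => ?_⟩
  · refine DLAux.span_ne (pow_ne_zero _ fun h => h0 ?_)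
    rw [← e, h]
    simp
  · rcases v.isPrime.mul_le.1 h with h | h
    · have h1 := (Sym1Aux.val_int_lt v _).2
        (v.isPrime.mem_of_pow_mem p ((Ideal.span_singleton_le_iff_mem _).1 h))
      rw [e, Sym1Aux.val_tame hζ (by_contra fun t => hv (hW v t))] at h1
      exact lt_irrefl _ h1
    · obtain ⟨w, hw, h1⟩ := v.isPrime.prod_le.1 h
      exact hv (IsDedekindDomain.HeightOneSpectrum.ext (w.isMaximal.eq_of_le v.isPrime.ne_top h1) ▸ hw)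
  · obtain ⟨b, hb, h1⟩ := Ideal.mem_span_singleton_mul.1 ha
    have h2 := (Sym1Aux.val_int_lt v b).2 (Ideal.prod_le_inf.trans (Finset.inf_le hv) hb)
    have h3 : (a : L) / 1 ^ p - 1 = (1 - ζ) ^ p * b := by
      rw [one_pow, div_one, ← e]
      exact_mod_cast h1.symm
    refine ⟨1, one_ne_zero, ?_⟩
    rw [h3, map_mul, map_pow]
    exact mul_lt_of_lt_one_right (pow_pos ((Valuation.pos_iff _).2 h0) _) h2

theorem one_PtAuxP (hN : NPStmt p) (hl : 2 < p) (hζ : IsPrimitiveRoot ζ p) (hβ : β ≠ 0) {a : L}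
    (ha : a ≠ 0) (h : ∀ (i : ℕ) (d : L), a ≠ β ^ i * d ^ p) :
    {v : Pr L | (Deg1 v ∧ NP p ζ v β) ∧ ¬ NP p ζ v a}.Infinite := by
  obtain ⟨-, -, -, -, -, n6, -⟩ := hN L ζ hl hζ
  refine (wc2 hl hζ ha hβ h).mono ?_
  rintro v ⟨a1, a2, a3, a4, a5, a6⟩
  refine ⟨⟨a1, (n6 v β a2 hβ).2 fun y hy => ?_⟩, fun h1 => a5 ?_⟩
  · rw [tame_swap hl hζ a2 hβ hy, tame_unit hl hζ a2 hβ a4, a6, mul_zero, neg_zero]
  · obtain ⟨ϖ, h2, h3⟩ := exists_ord_eq_one v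
    have h4 : (ϖ : L) ≠ 0 := by simpa using h2
    have h5 := (n6 v a a2 ha).1 h1 ϖ h4
    rw [tame_swap hl hζ a2 ha h4, tame_unit hl hζ a2 ha a3, h3] at h5
    simpa using h5

theorem two_PtAuxP (hN : NPStmt p) (hS : SymStmt p) (hT : PTStmt p) (hl : 2 < p)
    (hζ : IsPrimitiveRoot ζ p) (hβ : β ≠ 0) {W : Finset (Pr L)} (hW : ∀ v, ¬ Tm p v → v ∈ W)
    (hr : ∀ v, v ∉ W → (p : ℤ) ∣ ord v β) {v₀ : Pr L} (h0 : v₀ ∈ W) (h0' : ¬ NP p ζ v₀ β)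
    {χ : Pr L → ZMod p} (hχ : ClsCh χ) (hχW : ∀ v ∈ W, χ v = 0) {v₁ : Pr L} (h1 : χ v₁ ≠ 0) :
    {v : Pr L | (Deg1 v ∧ NP p ζ v β) ∧ χ v ≠ 0}.Infinite := by
  classical
  obtain ⟨n1, -, -, -, n5, n6, -⟩ := hN L ζ hl hζ
  obtain ⟨s1, -, s3, s4, -⟩ := hS L ζ hl hζ
  choose ϖ hϖ0 hϖ using fun v : Pr L => exists_ord_eq_one v
  have tm : ∀ v, v ∉ W → Tm p v := fun v hv => by_contra fun t => hv (hW v t)
  obtain ⟨ω, ω0, hω⟩ : ∃ ω : Pr L → ZMod p, (∀ v ∈ W, ω v = 0) ∧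
      ∀ v, v ∉ W → ∀ x, x ≠ 0 → tame p ζ v x β = ord v x * ω v := by
    refine ⟨fun v => if v ∈ W then 0 else -tame p ζ v β (ϖ v), fun v hv => if_pos hv,
      fun v hv x hx => ?_⟩
    beta_reduce
    rw [if_neg hv, tame_swap hl hζ (tm v hv) hβ hx, R0Aux.tame_eq_mul hl hζ (tm v hv) hβ hx
      (by simpa using hϖ0 v) (hϖ v) (hr v hv), mul_neg]
  have key : ∀ x, x ≠ 0 → ∑ᶠ v, (ord v x : ZMod p) * ω v + ∑ v ∈ W, sym p ζ v x β = 0 := by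
    intro x hx
    have e : ∀ v, v ∉ W → sym p ζ v x β = ord v x * ω v := fun v hv => by
      rw [sym, if_pos (tm v hv), hω v hv x hx]
    rw [← s4 (W ∪ (ord_finite x).toFinset) x β hx hβ fun v hv => ?_,
      ← Finset.sum_sdiff (Finset.subset_union_left (s₁ := W)),
      finsum_eq_sum_of_support_subset (s := (W ∪ (ord_finite x).toFinset) \ W),
      Finset.sum_congr rfl fun v hv => e v (Finset.mem_sdiff.1 hv).2]
    · intro v hv
      rw [Function.mem_support] at hv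
      have h2 : v ∉ W := fun h => hv (by rw [ω0 v h, mul_zero])
      have h3 : ord v x ≠ 0 := fun h => hv (by rw [h, Int.cast_zero, zero_mul])
      simp [h2, h3]
    · simp only [Finset.mem_union, Set.Finite.mem_toFinset, Set.mem_ofPred_eq, not_or,
        not_not] at hv
      rw [e v hv.1, hv.2, Int.cast_zero, zero_mul]
  obtain ⟨M, hM, hM1, hM2⟩ := mod_PtAuxP hζ W hW
  obtain ⟨μ, hμ, hμ'⟩ : ∃ μ : ZMod p, μ ≠ 0 ∧ (μ, (0 : ZMod p)) ∈ Submodule.span (ZMod p)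
      ((fun v => (χ v, ω v)) '' {v | ¬ M ≤ v.asIdeal}) := by
    by_contra hc
    push Not at hc
    have e : ∀ v, ω v₁ * χ v = χ v₁ * ω v := fun v => by
      by_cases hv : v ∈ W
      · rw [hχW v hv, ω0 v hv, mul_zero, mul_zero]
      by_contra h2
      refine hc _ (sub_ne_zero.2 h2) ?_
      rw [show (ω v₁ * χ v - χ v₁ * ω v, (0 : ZMod p)) =
        ω v₁ • (χ v, ω v) - ω v • (χ v₁, ω v₁) by ext <;> simp [mul_comm]]
      exact Submodule.sub_mem _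
        (Submodule.smul_mem _ _ (Submodule.subset_span ⟨v, hM1 v hv, rfl⟩))
        (Submodule.smul_mem _ _ (Submodule.subset_span ⟨v₁, hM1 v₁ fun h => h1 (hχW _ h), rfl⟩))
    obtain ⟨x, hx, hx'⟩ := (hT L ζ hl hζ).1 v₀ β hβ h0'
    obtain ⟨y, hy, hy'⟩ := n5 W (fun v => if v = v₀ then x else 1) fun v => by
      split_ifs
      exacts [hx, one_ne_zero]
    have h2 : ∑ᶠ v, (ord v y : ZMod p) * ω v = 0 := by
      refine (mul_eq_zero.1 ?_).resolve_left h1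
      rw [← mul_zero (ω v₁), ← hχ y hy, ← smul_eq_mul, ← smul_eq_mul, smul_finsum, smul_finsum]
      refine finsum_congr fun v => ?_
      simp only [smul_eq_mul]
      linear_combination -(ord v y : ZMod p) * e v
    have h3 := key y hy
    rw [h2, zero_add, Finset.sum_eq_single_of_mem v₀ h0 fun v hv h => s3 v y β hβ
      (by simpa [h] using hy' v hv)] at h3
    have h4 := hy' v₀ h0
    rw [if_pos rfl] at h4
    rw [← div_mul_cancel₀ y hx, s1 v₀ _ x β (n1 _ _ h4).1 hx hβ, s3 v₀ _ β hβ h4, zero_add] at h3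
    exact hx' h3
  refine (dl p hl M hM (fun v => (χ v, ω v)) (fun a ha h => ?_) _ hμ').mono ?_
  · have ha' : (a : L) ≠ 0 := by simpa using ha
    have h2 : (Function.support fun v => ord v (a : L) • (χ v, ω v)).Finite :=
      (ord_finite (a : L)).subset fun v hv h => hv (by simp [h])
    have h3 := key a ha'
    rw [Finset.sum_eq_zero fun v hv => s3 v a β hβ (hM2 a h v hv), add_zero] at h3
    refine Prod.ext (((AddMonoidHom.fst _ _).map_finsum h2).trans ?_)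
      (((AddMonoidHom.snd _ _).map_finsum h2).trans ?_)
    · simpa using hχ a ha'
    · simpa using h3
  · rintro v ⟨a1, a2⟩
    obtain ⟨a2, a3⟩ := Prod.ext_iff.1 a2
    have a4 : χ v ≠ 0 := fun h => hμ (a2.symm.trans h)
    have a5 : v ∉ W := fun h => a4 (hχW v h)
    exact ⟨⟨a1, (n6 v β (tm v a5) hβ).2 fun y hy => by
      rw [hω v a5 y hy, show ω v = 0 from a3, mul_zero]⟩, a4⟩

theorem aux_stmt (p : ℕ) [Fact p.Prime] (hN : NPStmt p) (hS : SymStmt p) (hV : VUStmt p)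
    (hT : PTStmt p) (hP : SplitStmt p) : AuxStmt p := by
  classical
  rintro L F _ _ _ _ _ _ ζ β θ σ hK W X hW hr ⟨v₀, h0, h0'⟩
  obtain ⟨A₀, hA₀⟩ := (hV L).2.2 W
  obtain ⟨-, n2, -, n4, -⟩ := hN L ζ hK.two hK.prim
  have f1 : Finite {a : L // a ∈ A₀ ∧ a ≠ 0 ∧ ∀ (i : ℕ) (d : L), a ≠ β ^ i * d ^ p} :=
    A₀.finite_toSet.subset fun _ h => h.1
  have f2 : Finite {χ : Pr L → ZMod p // ClsCh χ ∧ (∀ v ∈ W, χ v = 0) ∧ ∃ v, χ v ≠ 0} :=
    (fin_PvT p L).subset fun _ h => h.1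
  obtain ⟨A₁, a1, b1⟩ := pick_PtAuxP _ (fun a : {a : L // a ∈ A₀ ∧ a ≠ 0 ∧
    ∀ (i : ℕ) (d : L), a ≠ β ^ i * d ^ p} =>
      one_PtAuxP hN hK.two hK.prim hK.ne a.2.2.1 a.2.2.2) X
  obtain ⟨A₂, a2, b2⟩ := pick_PtAuxP _ (fun χ : {χ : Pr L → ZMod p // ClsCh χ ∧
    (∀ v ∈ W, χ v = 0) ∧ ∃ v, χ v ≠ 0} => two_PtAuxP hN hS hT hK.two hK.prim hK.ne hW hr h0 h0'
      χ.2.1 χ.2.2.1 χ.2.2.2.choose_spec) X
  refine ⟨A₁ ∪ A₂, fun v hv => ?_, fun χ h1 h2 v => by_contra fun h3 => ?_,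
    fun z hz h1 h2 => by_contra fun h3 => ?_⟩
  · obtain ⟨h1, h2, h3⟩ : v ∉ X ∧ Deg1 v ∧ NP p ζ v β := by
      rcases Finset.mem_union.1 hv with h | h
      · exact ⟨(a1 v h).1, (a1 v h).2.choose_spec.1⟩
      · exact ⟨(a2 v h).1, (a2 v h).2.choose_spec.1⟩
    refine ⟨h1, ?_⟩
    rintro u rfl
    have h4 := FIAux.over_un (K := L) u
    have h5 := (WCAux.split_of_ne Fact.out hK.deg h4 (WCAux.act_over σ h4) fun h =>
      ((hP L F ζ β θ σ hK).2.2.1 u).1 h h3).2 _ ⟨u.isPrime, h4⟩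
    rw [Deg1, absNorm_over h4, h5, pow_one]
    exact h2
  · obtain ⟨w, hw, h4⟩ := b2 ⟨χ, h1, fun v hv => h2 v (Or.inl hv), v, h3⟩
    exact h4.2 (h2 w (Or.inr (Finset.mem_union_right _ hw)))
  · obtain ⟨a, ha, y, rfl⟩ := hA₀ z hz h1
    have hy : y ≠ 0 := fun h => hz (by rw [h, zero_pow (Fact.out : p.Prime).ne_zero, mul_zero])
    obtain ⟨w, hw, h4⟩ := b1 ⟨a, ha, left_ne_zero_of_mul hz, fun i d h =>
      h3 ⟨i, d * y, by rw [h, mul_pow, mul_assoc]⟩⟩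
    have h5 := n2 w _ _ (h2 w (Finset.mem_union_left _ hw)) (n4 w _ (inv_ne_zero hy))
    rw [inv_pow, mul_inv_cancel_right₀ (pow_ne_zero _ hy)] at h5
    exact h4.2 h5

end Pool.Agent.MP_f68ac8_nt.Pt
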