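import Mathlib
import Pool.Agent.MP_f68ac8_nt.PtAux
import Pool.Agent.MP_f68ac8_nt.PvH
import Pool.Agent.MP_f68ac8_nt.PvSI
import Pool.Agent.MP_14ad9d_nt.Full.FI
namespace Pool.Agent.MP_f68ac8_nt.Pt
open Ev Pv
open NumberField Module Finset IntermediateField
open Pool.Agent.MP_14ad9d_nt.Full (Pr ord ord_mul ord_pow ord_zpow ord_one ord_finite)
open Pool.Agent.MP_14ad9d_nt.Full.FIAux

section
variable {F : Type} [Field F] [NumberField F] {T : Set (Pr F)}

lemma mul_PtH1 {x y : F} (hx : SU T x) (hy : SU T y) : SU T (x * y) :=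
  ⟨mul_ne_zero hx.1 hy.1, fun v hv => by rw [ord_mul v hx.1 hy.1, hx.2 v hv, hy.2 v hv, add_zero]⟩

lemma zpow_PtH1 {x : F} (hx : SU T x) (n : ℤ) : SU T (x ^ n) :=
  ⟨zpow_ne_zero n hx.1, fun v hv => by rw [ord_zpow, hx.2 v hv, mul_zero]⟩

lemma prod_PtH1 {f : ℕ → F} (hf : ∀ i, SU T (f i)) (n : ℕ) : SU T (∏ i ∈ range n, f i) := by
  induction n with
  | zero => exact ⟨by simp, fun v _ => by rw [prod_range_zero, ord_one]⟩
  | succ n ih => rw [prod_range_succ]; exact mul_PtH1 ih (hf n)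

end

theorem h1_stmt (p : ℕ) [Fact p.Prime] (hV : VUStmt p) : H1Stmt p := by
  intro L F _ _ _ _ _ _ σ ho hσ S hS he a ha hN
  have hp : p.Prime := Fact.out
  have hg : ∀ g : F ≃ₐ[L] F, SU {u : Pr F | un L u ∈ S} (g a) := fun g =>
    ⟨(map_ne_zero g).2 ha.1, fun u hu => by
      rw [← ac_inv g u, ord_ac]
      exact ha.2 _ fun h => hu (by rw [← ac_inv g u]; simpa only [Set.mem_ofPred_eq, un_ac] using h)⟩
  obtain ⟨x', hx'⟩ := hilbert ho (mk a ha.1) (uv_inj (by
    rw [uv_sum, uv_zero, ← hN]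
    exact prod_congr rfl fun i _ => by rw [sA_iter, uv_sA, uv_mk]))
  obtain ⟨x, hx, e⟩ : ∃ x : F, x ≠ 0 ∧ a = σ x / x :=
    ⟨uv x', uv_ne x', by rw [← uv_sA, ← uv_sub, ← hx', uv_mk]⟩
  have h1 : ∀ (g : F ≃ₐ[L] F) w, un L w ∉ S → ord (ac g w) x = ord w x := by
    intro g w hw
    obtain ⟨n, rfl⟩ := exists_pow hσ g
    induction n with
    | zero => rw [pow_zero, ac_one]
    | succ n ih =>
      have h2 := ha.2 (ac σ (ac (σ ^ n) w)) (by simpa only [Set.mem_ofPred_eq, un_ac] using hw)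
      rw [e, ord_div _ ((map_ne_zero σ).2 hx) hx, ord_ac, sub_eq_zero] at h2
      rw [pow_succ', ac_mul, ← h2, ih]
  choose s hs using un_surj (K := L) (L := F)
  have hinj : Function.Injective s := fun v v' e => by rw [← hs v, e, hs]
  obtain ⟨h, y, hh, y0, hy⟩ := (hV L).2.1 S hS
    (Finsupp.ofSupportFinite (fun v => ord (s v) x) ((ord_finite x).preimage hinj.injOn))
  have y1 : algebraMap L F y ≠ 0 := (_root_.map_ne_zero _).2 y0
  have c0 : SU {u : Pr F | un L u ∈ S} (x ^ h / algebraMap L F y) :=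
    ⟨div_ne_zero (pow_ne_zero h hx) y1, fun w hw => by
      obtain ⟨g, hg⟩ := ac_trans (hs (un L w)).symm
      rw [ord_div _ (pow_ne_zero h hx) y1, ord_pow, he w hw, hy _ hw, ← h1 g w hw, hg]
      exact sub_self _⟩
  have e0 : σ (x ^ h / algebraMap L F y) / (x ^ h / algebraMap L F y) = a ^ h := by
    rw [map_div₀, AlgEquiv.commutes, div_div_div_cancel_right₀ y1, map_pow, e, div_pow]
  have c1 : ∀ i, SU {u : Pr F | un L u ∈ S} (∏ j ∈ range i, (σ ^ j) a) :=
    prod_PtH1 fun j => hg _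
  have e1 : ∀ i, σ (∏ j ∈ range i, (σ ^ j) a) / ∏ j ∈ range i, (σ ^ j) a = (σ ^ i) a / a := by
    intro i
    rw [div_eq_div_iff (c1 i).1 ha.1, mul_comm ((σ ^ i) a), ← prod_range_succ, prod_range_succ',
      map_prod]
    simp only [pow_succ', AlgEquiv.mul_apply, pow_zero, AlgEquiv.one_apply]
  have e2 : σ (∏ i ∈ range p, ∏ j ∈ range i, (σ ^ j) a) / ∏ i ∈ range p, ∏ j ∈ range i, (σ ^ j) a =
      (a ^ p)⁻¹ := by
    rw [map_prod, ← prod_div_distrib, prod_congr rfl fun i _ => e1 i, prod_div_distrib, hN,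
      prod_const, card_range, one_div]
  obtain ⟨u, v, huv⟩ : IsCoprime (p : ℤ) h :=
    Nat.isCoprime_iff_coprime.2 ((Nat.Prime.coprime_iff_not_dvd hp).2 hh)
  refine ⟨_, mul_PtH1 (zpow_PtH1 c0 v) (zpow_PtH1 (prod_PtH1 c1 p) (-u)), ?_⟩
  rw [map_mul, map_zpow₀, map_zpow₀, ← div_mul_div_comm, ← div_zpow, ← div_zpow, e0, e2, inv_zpow',
    neg_neg, ← zpow_natCast, ← zpow_natCast, ← zpow_mul, ← zpow_mul, ← zpow_add₀ ha.1,
    show (h : ℤ) * v + p * u = 1 by linear_combination huv, zpow_one]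

lemma fix_PtH1 {p : ℕ} [NeZero p] {E F : Type} [Field E] [Field F] [Algebra E F]
    [IsCyclotomicExtension {p} E F] {w : F} (hw : IsPrimitiveRoot w p) (g : F →+* F)
    (h1 : ∀ x : E, g (algebraMap E F x) = algebraMap E F x) (h2 : g w = w) (x : F) : g x = x := by
  have hx : x ∈ Algebra.adjoin E {w} :=
    IsCyclotomicExtension.adjoin_primitive_root_eq_top (A := E) hw ▸ Algebra.mem_top
  induction hx using Algebra.adjoin_induction with
  | mem y hy => rw [Set.mem_singleton_iff.1 hy, h2]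
  | algebraMap y => exact h1 y
  | add a b _ _ ha hb => rw [map_add, ha, hb]
  | mul a b _ _ ha hb => rw [map_mul, ha, hb]

lemma gal_PtH1 {p : ℕ} [NeZero p] (K E F : Type) [Field K] [NumberField K] [Field E] [Field F]
    [Algebra K E] [IsGalois K E] [Algebra E F] [Algebra K F] [IsScalarTower K E F]
    [FiniteDimensional K F] [IsCyclotomicExtension {p} E F] : IsGalois K F := by
  let z : F := IsCyclotomicExtension.zeta p E F
  have hz : IsPrimitiveRoot z p := IsCyclotomicExtension.zeta_spec p E F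
  have : IsCyclotomicExtension {p} K K⟮z⟯ := hz.intermediateField_adjoin_isCyclotomicExtension K
  have : IsGalois K K⟮z⟯ := IsCyclotomicExtension.isGalois {p} K _
  let E' : IntermediateField K F := (IsScalarTower.toAlgHom K E F).fieldRange
  have : IsGalois K E' :=
    IsGalois.of_algEquiv (AlgEquiv.ofInjectiveField (IsScalarTower.toAlgHom K E F))
  have hsup : E' ⊔ K⟮z⟯ = ⊤ := by
    rw [eq_top_iff]
    rintro x -
    have hx : x ∈ Algebra.adjoin E {z} :=
      IsCyclotomicExtension.adjoin_primitive_root_eq_top (A := E) hz ▸ Algebra.mem_top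
    induction hx using Algebra.adjoin_induction with
    | mem y hy =>
      rw [Set.mem_singleton_iff.1 hy]
      exact (le_sup_right : K⟮z⟯ ≤ E' ⊔ K⟮z⟯) (mem_adjoin_simple_self K z)
    | algebraMap y => exact (le_sup_left : E' ≤ E' ⊔ K⟮z⟯) ⟨y, rfl⟩
    | add a b _ _ ha hb => exact add_mem ha hb
    | mul a b _ _ ha hb => exact mul_mem ha hb
  have h : Normal K (E' ⊔ K⟮z⟯ : IntermediateField K F) := inferInstance
  rw [hsup] at h
  have : Normal K F := Normal.of_algEquiv topEquiv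
  exact ⟨⟩

theorem tow_stmt (p : ℕ) [Fact p.Prime] : TowStmt p := by
  intro K E _ _ _ _ _ _ s h2 hs
  have hp : p.Prime := Fact.out
  have : NeZero p := ⟨hp.ne_zero⟩
  let F := CyclotomicField p E
  have : FiniteDimensional K F := Module.Finite.of_restrictScalars_finite ℚ K F
  have hG : IsGalois K F := gal_PtH1 (p := p) K E F
  let z : F := IsCyclotomicExtension.zeta p E F
  have hz : IsPrimitiveRoot z p := IsCyclotomicExtension.zeta_spec p E F
  obtain ⟨t, ht, tz⟩ : ∃ t : F ≃ₐ[K] F, AlgEquiv.restrictNormalHom E t = s ∧ t z = z := by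
    obtain ⟨s₁, h1⟩ := AlgEquiv.restrictNormalHom_surjective (K₁ := E) F s
    refine ⟨s₁ ^ ((p - 1) * (p - 1)), ?_, ?_⟩
    · obtain ⟨q, rfl⟩ : ∃ q, p = q + 2 := ⟨p - 2, by omega⟩
      rw [map_pow, h1, show (q + 2 - 1) * (q + 2 - 1) = (q + 2) * q + 1 by
        rw [show q + 2 - 1 = q + 1 from rfl]; ring, pow_succ, pow_mul, ← hs, pow_orderOf_eq_one,
        one_pow, one_mul]
    · rw [← hz.autToPow_spec K, map_pow, pow_mul, ZMod.units_pow_card_sub_one_eq_one,
        Units.val_one, ZMod.val_one, pow_one]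
  have res : ∀ (i : ℕ) (x : E), (t ^ i) (algebraMap E F x) = algebraMap E F ((s ^ i) x) :=
    fun i x => by
      rw [← ht, ← map_pow]
      exact (AlgEquiv.restrictNormal_commutes _ E x).symm
  have sp : s ^ p = 1 := hs ▸ pow_orderOf_eq_one s
  have ho : orderOf t = p := by
    refine orderOf_eq_prime (AlgEquiv.ext (fix_PtH1 hz ((t ^ p : F ≃ₐ[K] F) : F →+* F)
      (fun x => (res p x).trans (by rw [sp, AlgEquiv.one_apply])) ?_)) ?_
    · exact (congrFun (AlgEquiv.coe_pow t p) z).trans (Function.iterate_fixed tz p)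
    · rintro rfl
      rw [← ht, map_one, orderOf_one] at hs
      exact hp.one_lt.ne hs
  let H := Subgroup.zpowers t
  let L := fixedField H
  let e := subgroupEquivAlgEquiv H
  let σ : F ≃ₐ[L] F := e ⟨t, Subgroup.mem_zpowers t⟩
  have : IsGalois L F := IsGalois.of_fixed_field F H
  have hd : finrank L F = p := by
    rw [finrank_fixedField_eq_card, Nat.card_zpowers, ho]
  have hσ : ∀ τ : F ≃ₐ[L] F, τ ∈ Subgroup.zpowers σ := fun τ => by
    obtain ⟨⟨_, n, rfl⟩, rfl⟩ := e.surjective τ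
    exact ⟨n, (map_zpow e _ n).symm⟩
  have zL : z ∈ L := fun g => MulAction.mem_stabilizer_iff.1
    ((Subgroup.zpowers_le.2 (MulAction.mem_stabilizer_iff.2 tz) :
      H ≤ MulAction.stabilizer _ z) g.2)
  have hz' : IsPrimitiveRoot (⟨z, zL⟩ : L) p :=
    IsPrimitiveRoot.of_map_of_injective (f := algebraMap L F) hz (algebraMap L F).injective
  obtain ⟨ζ, β, θ, τ, hζ, β0, hθ, hτ⟩ := kummer_PvSI hp L F hd hz'
  have β1 : algebraMap L F β ≠ 0 := (_root_.map_ne_zero _).2 β0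
  have θ0 : θ ≠ 0 := by
    rintro rfl
    exact β1 (by rw [← hθ, zero_pow hp.ne_zero])
  obtain ⟨i, hi, e1⟩ := hz.eq_pow_of_pow_eq_one (show (σ θ / θ) ^ p = 1 by
    rw [div_pow, ← map_pow, hθ, AlgEquiv.commutes, div_self β1])
  rw [eq_div_iff θ0] at e1
  have i0 : i ≠ 0 := by
    rintro rfl
    rw [pow_zero, one_mul] at e1
    obtain ⟨n, rfl⟩ := exists_pow hσ τ
    rw [AlgEquiv.coe_pow, Function.iterate_fixed e1.symm, eq_comm, mul_eq_right₀ θ0,
      map_eq_one_iff _ (algebraMap L F).injective] at hτ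
    exact hζ.ne_one hp.one_lt hτ
  have ci : i.Coprime p := (Nat.coprime_of_lt_prime i0 hi hp).symm
  refine ⟨L, F, inferInstance, inferInstance, inferInstance, inferInstance, inferInstance,
    inferInstance, inferInstance, inferInstance, inferInstance, inferInstance, hG,
    ⟨z, zL⟩ ^ i, β, θ, σ, ⟨h2, hz'.pow_of_coprime i ci, hd, β0, hθ, e1.symm⟩, fun x => ?_, hs,
    fun g hg => AlgEquiv.ext (fix_PtH1 (hz.pow_of_coprime i ci) (g : F →+* F) g.commutes hg)⟩
  have := res 1 x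
  rwa [pow_one, pow_one] at this

end Pool.Agent.MP_f68ac8_nt.Pt
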