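import Mathlib
import Pool.Agent.MP_f68ac8_nt.PtAux
import Pool.Agent.MP_14ad9d_nt.Full.FI2
import Pool.Agent.MP_14ad9d_nt.Full.Sym2
import Pool.Agent.MP_f68ac8_nt.PvT
import Pool.Agent.MP_f68ac8_nt.PvSet1

namespace Pool.Agent.MP_f68ac8_nt.Pt
open Ev Pv

open NumberField Module Finset
open Pool.Agent.MP_14ad9d_nt.Full
open Pool.Agent.MP_14ad9d_nt.Full.FIAux (un ac over_un un_eq un_surj ord_un ac_trans fin_un ord_ac)

section cob
variable {K E : Type} [Field K] [NumberField K] [Field E] [NumberField E] [Algebra K E]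

theorem su_mul_PtHW {T : Set (Pr E)} {x y : E} (hx : SU T x) (hy : SU T y) : SU T (x * y) :=
  ⟨mul_ne_zero hx.1 hy.1, fun v hv => by rw [ord_mul v hx.1 hy.1, hx.2 v hv, hy.2 v hv, add_zero]⟩

theorem su_zpow_PtHW {T : Set (Pr E)} {x : E} (hx : SU T x) (n : ℤ) : SU T (x ^ n) :=
  ⟨zpow_ne_zero n hx.1, fun v hv => by rw [ord_zpow, hx.2 v hv, mul_zero]⟩

omit [NumberField K] in
theorem su_act_PtHW (T : SubMulAction (E ≃ₐ[K] E) (Pr E)) (g : E ≃ₐ[K] E) {x : E}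
    (hx : SU (T : Set (Pr E)) x) : SU (T : Set (Pr E)) (g x) := by
  refine ⟨(map_ne_zero g).2 hx.1, fun w hw => ?_⟩
  have h : ord (g • g⁻¹ • w) (g x) = ord (g⁻¹ • w) x := ord_ac g (g⁻¹ • w) x
  rw [smul_inv_smul] at h
  exact h.trans (hx.2 _ fun h1 => hw (by simpa using T.smul_mem g h1))

/-- coboundaries -/
def Cob_PtHW (T : Set (Pr E)) (s : E ≃ₐ[K] E) (a : E) : Prop := ∃ c, SU T c ∧ a = s c / c

omit [NumberField K] in
theorem cob_mul_PtHW {T : Set (Pr E)} {s : E ≃ₐ[K] E} {x y : E} (hx : Cob_PtHW T s x)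
    (hy : Cob_PtHW T s y) : Cob_PtHW T s (x * y) := by
  obtain ⟨c, hc, rfl⟩ := hx
  obtain ⟨d, hd, rfl⟩ := hy
  exact ⟨c * d, su_mul_PtHW hc hd, by rw [map_mul, div_mul_div_comm]⟩

omit [NumberField K] in
theorem cob_zpow_PtHW {T : Set (Pr E)} {s : E ≃ₐ[K] E} {x : E} (hx : Cob_PtHW T s x) (n : ℤ) :
    Cob_PtHW T s (x ^ n) := by
  obtain ⟨c, hc, rfl⟩ := hx
  exact ⟨c ^ n, su_zpow_PtHW hc n, by rw [map_zpow₀, div_zpow]⟩

omit [NumberField K] in
theorem cob_one_PtHW (T : Set (Pr E)) (s : E ≃ₐ[K] E) : Cob_PtHW T s 1 :=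
  ⟨1, ⟨one_ne_zero, fun v _ => ord_one v⟩, by simp⟩

omit [NumberField K] in
theorem cob_iter_PtHW (T : SubMulAction (E ≃ₐ[K] E) (Pr E)) (s : E ≃ₐ[K] E) {a : E}
    (ha : SU (T : Set (Pr E)) a) (i : ℕ) : Cob_PtHW (T : Set (Pr E)) s ((s ^ i) a / a) := by
  induction i with
  | zero =>
    rw [pow_zero, AlgEquiv.one_apply, div_self ha.1]
    exact cob_one_PtHW _ _
  | succ i ih =>
    have h := su_act_PtHW T (s ^ i) ha
    have e : (s ^ (i + 1)) a / a = s ((s ^ i) a) / (s ^ i) a * ((s ^ i) a / a) := by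
      rw [pow_succ', AlgEquiv.mul_apply, div_mul_div_cancel₀ h.1]
    rw [e]
    exact cob_mul_PtHW ⟨_, h, rfl⟩ ih

omit [NumberField K] in
theorem cob_fin_PtHW (T : SubMulAction (E ≃ₐ[K] E) (Pr E)) (s : E ≃ₐ[K] E) {a : E}
    (ha : SU (T : Set (Pr E)) a) {p d : ℕ} (hpd : Nat.Coprime p d)
    (h1 : ∏ i ∈ range p, (s ^ i) a = 1) (h2 : Cob_PtHW (T : Set (Pr E)) s (a ^ d)) :
    Cob_PtHW (T : Set (Pr E)) s a := by
  have h3 : ∀ n, Cob_PtHW (T : Set (Pr E)) s (∏ i ∈ range n, ((s ^ i) a / a)) := fun n => by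
    induction n with
    | zero => exact cob_one_PtHW _ _
    | succ n ih =>
      rw [prod_range_succ]
      exact cob_mul_PtHW ih (cob_iter_PtHW T s ha n)
  have h4 := h3 p
  rw [prod_div_distrib, h1, prod_const, card_range] at h4
  obtain ⟨x, y, hxy⟩ : IsCoprime (p : ℤ) (d : ℤ) := Nat.isCoprime_iff_coprime.2 hpd
  have h5 := cob_mul_PtHW (cob_zpow_PtHW h4 (-x)) (cob_zpow_PtHW h2 y)
  rwa [one_div, inv_zpow', neg_neg, ← zpow_natCast, ← zpow_natCast, ← zpow_mul, ← zpow_mul,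
    ← zpow_add₀ ha.1, mul_comm (p : ℤ), mul_comm (d : ℤ), hxy, zpow_one] at h5

end cob

section loc
variable {p : ℕ} [Fact p.Prime] {L : Type} [Field L] [NumberField L] {ζ : L}

theorem np_exp_PtHW (hN : NPStmt p) (hp : 2 < p) (hζ : IsPrimitiveRoot ζ p) {v : Pr L} {β d : L}
    (hβ : β ≠ 0) (hd : d ≠ 0) (hn : ¬ NP p ζ v β) {i : ℕ} {r : ZMod p}
    (h : NP p ζ v (β ^ i * d ^ p / β ^ r.val)) : (i : ZMod p) = r := by
  obtain ⟨-, n2, n3, n4, -⟩ := hN L ζ hp hζ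
  have hpow : ∀ x, NP p ζ v x → ∀ n : ℕ, NP p ζ v (x ^ n) := fun x hx n => by
    induction n with
    | zero => simpa using n4 v 1 one_ne_zero
    | succ n ih =>
      rw [pow_succ]
      exact n2 v _ _ ih hx
  have hz : ∀ x, NP p ζ v x → ∀ n : ℤ, NP p ζ v (x ^ n) := fun x hx n => by
    obtain ⟨m, rfl | rfl⟩ := n.eq_nat_or_neg
    · rw [zpow_natCast]
      exact hpow x hx m
    · rw [zpow_neg, zpow_natCast]
      exact n3 v _ (hpow x hx m)
  by_contra hne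
  have h1 : NP p ζ v (β ^ ((i : ℤ) - (r.val : ℤ))) := by
    have h2 := n2 v _ _ h (n3 v _ (n4 v d hd))
    have e : β ^ i * d ^ p / β ^ r.val * (d ^ p)⁻¹ = β ^ ((i : ℤ) - (r.val : ℤ)) := by
      rw [zpow_sub₀ hβ, zpow_natCast, zpow_natCast]
      have := pow_ne_zero p hd
      field_simp
    rwa [e] at h2
  have hnd : ¬ (p : ℤ) ∣ (i : ℤ) - (r.val : ℤ) := by
    rw [← ZMod.intCast_zmod_eq_zero_iff_dvd]
    push_cast
    rw [ZMod.natCast_zmod_val, sub_eq_zero]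
    exact hne
  obtain ⟨x, y, hxy⟩ : IsCoprime (p : ℤ) ((i : ℤ) - (r.val : ℤ)) :=
    (Irreducible.coprime_iff_not_dvd
      (Nat.prime_iff_prime_int.1 (Fact.out : p.Prime)).irreducible).2 hnd
  have h3 := n2 v _ _ (n4 v (β ^ x) (zpow_ne_zero x hβ)) (hz _ h1 y)
  rw [← zpow_natCast, ← zpow_mul, ← zpow_mul, ← zpow_add₀ hβ, mul_comm _ y, hxy, zpow_one] at h3
  exact hn h3

theorem sym_pow_PtHW (hS : SymStmt p) (hp : 2 < p) (hζ : IsPrimitiveRoot ζ p) (v : Pr L)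
    {x β : L} (hx : x ≠ 0) (hβ : β ≠ 0) (n : ℕ) :
    sym p ζ v x (β ^ n) = n * sym p ζ v x β := by
  obtain ⟨s1, s2, -⟩ := hS L ζ hp hζ
  rw [s2 v (β ^ n) x (pow_ne_zero n hβ) hx, s2 v β x hβ hx, mul_neg, neg_inj]
  induction n with
  | zero =>
    have h := s1 v 1 1 x one_ne_zero one_ne_zero hx
    rw [mul_one] at h
    rw [pow_zero, Nat.cast_zero, zero_mul]
    exact left_eq_add.1 h
  | succ n ih =>
    rw [pow_succ, s1 v _ _ x (pow_ne_zero n hβ) hβ hx, ih]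
    push_cast
    ring

end loc

section tow
variable {K E L F : Type} [Field K] [Field E] [NumberField E] [Algebra K E]
  [Field L] [NumberField L] [Field F] [NumberField F] [Algebra E F] [Algebra L F]

omit [NumberField E] [NumberField L] [NumberField F] in
theorem res_pow_PtHW {σ : F ≃ₐ[L] F} {s : E ≃ₐ[K] E}
    (res : ∀ x : E, σ (algebraMap E F x) = algebraMap E F (s x)) (i : ℕ) (x : E) :
    (σ ^ i) (algebraMap E F x) = algebraMap E F ((s ^ i) x) := by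
  induction i with
  | zero => rfl
  | succ i ih => rw [pow_succ', pow_succ', AlgEquiv.mul_apply, AlgEquiv.mul_apply, ih, res]

omit [NumberField E] [NumberField L] [NumberField F] in
theorem un_smul_PtHW {σ : F ≃ₐ[L] F} {s : E ≃ₐ[K] E}
    (res : ∀ x : E, σ (algebraMap E F x) = algebraMap E F (s x)) (u : Pr F) :
    un E (σ • u) = s • un E u := by
  ext a
  change (RingOfIntegers.mapRingEquiv (σ : F ≃+* F)).symm (algebraMap (𝓞 E) (𝓞 F) a) ∈ u.asIdeal ↔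
    algebraMap (𝓞 E) (𝓞 F) ((RingOfIntegers.mapRingEquiv (s : E ≃+* E)).symm a) ∈ u.asIdeal
  have : (RingOfIntegers.mapRingEquiv (σ : F ≃+* F)).symm (algebraMap (𝓞 E) (𝓞 F) a) =
      algebraMap (𝓞 E) (𝓞 F) ((RingOfIntegers.mapRingEquiv (s : E ≃+* E)).symm a) := by
    ext
    change σ.symm (algebraMap E F (a : E)) = algebraMap E F (s.symm (a : E))
    rw [AlgEquiv.symm_apply_eq, res, AlgEquiv.apply_symm_apply]
  rw [this]

theorem same_PtHW [IsGalois L F] {σ : F ≃ₐ[L] F} (hσ : ∀ τ : F ≃ₐ[L] F, τ ∈ Subgroup.zpowers σ)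
    {u u' : Pr F} (h : un L u = un L u') : ∃ n : ℕ, σ ^ n • u = u' := by
  obtain ⟨g, hg⟩ := ac_trans h
  obtain ⟨n, rfl⟩ := (mem_powers_iff_mem_zpowers).2 (hσ g)
  exact ⟨n, hg⟩

theorem deg1_PtHW {u : Pr F} (h : Deg1 u) : Deg1 (un E u) := by
  rw [Deg1, absNorm_over (over_un (K := E) u)] at h
  have h1 := h.eq_one_of_pow
  rwa [h1, pow_one] at h

theorem cop_PtHW {p : ℕ} [hp : Fact p.Prime] [IsGalois E F] {ζ : F} (hζ : IsPrimitiveRoot ζ p)
    (cyc : ∀ g : F ≃ₐ[E] F, g ζ = ζ → g = 1) : Nat.Coprime p (finrank E F) := by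
  have : NeZero p := ⟨hp.out.ne_zero⟩
  have hinj : Function.Injective (hζ.autToPow E) := by
    rw [injective_iff_map_eq_one]
    intro g hg
    have h := hζ.autToPow_spec E g
    rw [hg, Units.val_one, ZMod.val_one, pow_one] at h
    exact cyc g h.symm
  have h1 := Nat.card_le_card_of_injective _ hinj
  rw [IsGalois.card_aut_eq_finrank, Nat.card_eq_fintype_card, ZMod.card_units] at h1
  refine (Nat.Prime.coprime_iff_not_dvd hp.out).2 fun hd => ?_
  have h2 := Nat.le_of_dvd finrank_pos hd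
  have := hp.out.pos
  omega

variable (F L) in
/-- the primes of `L` related to a set of primes of `E` -/
def Dn_PtHW (T : Set (Pr E)) : Set (Pr L) := {v | ∃ u : Pr F, un L u = v ∧ un E u ∈ T}

omit [NumberField L] in
theorem dn_fin_PtHW [IsGalois E F] {T : Set (Pr E)} (hT : T.Finite) : (Dn_PtHW L F T).Finite :=
  ((fin_un (L := F) hT).image (un L)).subset fun _ ⟨u, h1, h2⟩ => ⟨u, h2, h1⟩

theorem dn_iff_PtHW [IsGalois L F] {σ : F ≃ₐ[L] F} {s : E ≃ₐ[K] E}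
    (res : ∀ x : E, σ (algebraMap E F x) = algebraMap E F (s x))
    (hσ : ∀ τ : F ≃ₐ[L] F, τ ∈ Subgroup.zpowers σ) (T : SubMulAction (E ≃ₐ[K] E) (Pr E))
    (u : Pr F) : un L u ∈ Dn_PtHW L F (T : Set (Pr E)) ↔ un E u ∈ T := by
  refine ⟨fun ⟨u', h1, h2⟩ => ?_, fun h => ⟨u, rfl, h⟩⟩
  obtain ⟨n, rfl⟩ := same_PtHW hσ h1
  rw [un_smul_PtHW (res_pow_PtHW res n)]
  exact T.smul_mem _ h2

theorem uniq_PtHW [IsGalois L F] {σ : F ≃ₐ[L] F} (hσ : ∀ τ : F ≃ₐ[L] F, τ ∈ Subgroup.zpowers σ)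
    {u u' : Pr F} (h : un L u = un L u') (hu : σ • u = u) : u = u' := by
  obtain ⟨n, rfl⟩ := same_PtHW hσ h
  exact (MulAction.mem_stabilizer_iff.1
    (Subgroup.pow_mem _ (MulAction.mem_stabilizer_iff.2 hu) n)).symm

omit [NumberField L] in
theorem norm_cob_PtHW [IsGalois E F] {σ : F ≃ₐ[L] F} {s : E ≃ₐ[K] E}
    (res : ∀ x : E, σ (algebraMap E F x) = algebraMap E F (s x)) {T : Set (Pr E)} {a : E} {c : F}
    (hc : SU {u : Pr F | un E u ∈ T} c) (h : algebraMap E F a = σ c / c) :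
    Cob_PtHW T s (a ^ finrank E F) := by
  classical
  refine ⟨Algebra.norm E c, ⟨Algebra.norm_ne_zero_iff.2 hc.1, fun w hw => ?_⟩, ?_⟩
  · rw [ord_norm w hc.1]
    refine finsum_eq_zero_of_forall_eq_zero fun u => ?_
    split_ifs with hu
    · rw [hc.2 u (fun h1 => hw (un_eq hu ▸ h1)), mul_zero]
    · rfl
  · have e := Algebra.norm_eq_of_equiv_equiv (s : E ≃+* E) (σ : F ≃+* F)
      (RingHom.ext fun x => (res x).symm) c
    have e' : s (Algebra.norm E c) = Algebra.norm E (σ c) := by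
      rw [e]
      exact s.apply_symm_apply _
    rw [e', ← Algebra.norm_algebraMap (S := F), h, div_eq_mul_inv, map_mul, Algebra.norm_inv,
      div_eq_mul_inv]

end tow

theorem hw_stmt (p : ℕ) [Fact p.Prime] (hN : NPStmt p) (hS : SymStmt p) (hW : TowStmt p)
    (hL : LamStmt p) (hA : AuxStmt p) (hT : PTStmt p) (h1 : H1Stmt p) (hP : SplitStmt p) :
    HWStmt p := by
  classical
  intro K E _ _ _ _ _ _ s hp hs W hWf hWw hWi hWx
  obtain ⟨L, F, _, _, _, _, _, _, _, _, _, _, _, ζ, β, θ, σ, tw⟩ := hW K E s hp hs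
  have : IsGalois L F := IsGalois.tower_top_of_isGalois K L F
  have : IsGalois E F := IsGalois.tower_top_of_isGalois K E F
  obtain ⟨p1, p2, p3, p4, -⟩ := hP L F ζ β θ σ tw.toKum
  obtain ⟨l1, l2⟩ := hL K E L F ζ β θ σ s tw
  obtain ⟨B, hB⟩ := free_of_deg1 (E := K) (E' := E)
  have hs1 : s ≠ 1 := by
    rintro rfl
    rw [orderOf_one] at hs
    omega
  have hWL := dn_fin_PtHW (L := L) (F := F) hWf
  have hBL := dn_fin_PtHW (L := L) (F := F) B.finite_toSet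
  have hwild : ∀ v : Pr L, ¬ Tm p v → v ∈ Dn_PtHW L F (W : Set (Pr E)) := fun v hv => by
    obtain ⟨u, rfl⟩ := un_surj (L := F) v
    exact ⟨u, rfl, hWw _ fun h => hv ((tm_over (over_un u)).1 ((tm_over (over_un u)).2 h))⟩
  have hunr : ∀ u : Pr F, un E u ∉ W → σ ∉ u.asIdeal.inertia (F ≃ₐ[L] F) := fun u hu h =>
    hWi _ hu ((l1 u).2 h)
  obtain ⟨A, a1, a2, a3⟩ := hA L F ζ β θ σ tw.toKum hWL.toFinset (hWL.toFinset ∪ hBL.toFinset)
    (fun v hv => hWL.mem_toFinset.2 (hwild v hv))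
    (fun v hv => by
      obtain ⟨u, rfl⟩ := un_surj (L := F) v
      exact (p4 u (hunr u fun h => hv (hWL.mem_toFinset.2 ⟨u, rfl, h⟩))).2)
    (by
      obtain ⟨w, hw, hw'⟩ := hWx
      obtain ⟨u, rfl⟩ := un_surj (L := F) w
      exact ⟨un L u, hWL.mem_toFinset.2 ⟨u, rfl, hw⟩, (p3 u).1 ((l1 u).1.2 hw')⟩)
  let T : SubMulAction (E ≃ₐ[K] E) (Pr E) :=
    ⟨{w | w ∈ W ∨ ∃ (g : E ≃ₐ[K] E) (u : Pr F), un L u ∈ A ∧ g • un E u = w}, by
      rintro g w (hw | ⟨h, u, hu, rfl⟩)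
      · exact Or.inl (W.smul_mem g hw)
      · exact Or.inr ⟨g * h, u, hu, mul_smul g h _⟩⟩
  have hWT : ∀ w ∈ W, w ∈ T := fun w hw => Or.inl hw
  have hTf : (T : Set (Pr E)).Finite := by
    have : Module.Finite K E := Module.Finite.of_restrictScalars_finite ℚ K E
    refine (hWf.union ((Set.finite_univ (α := E ≃ₐ[K] E)).image2 (fun g u => g • un E u)
      (fin_un (L := F) A.finite_toSet))).subset ?_
    rintro w (hw | ⟨g, u, hu, rfl⟩)
    · exact Or.inl hw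
    · exact Or.inr ⟨g, trivial, u, hu, rfl⟩
  have hfree : ∀ w ∈ T, w ∉ W → ∀ g : E ≃ₐ[K] E, g • w = w → g = 1 := by
    rintro w (hw | ⟨h, u, hu, rfl⟩) hw' g hg
    · exact (hw' hw).elim
    have h2 := hB (un E u) (fun hb => (a1 _ hu).1
      (mem_union_right _ (hBL.mem_toFinset.2 ⟨u, rfl, hb⟩))) (deg1_PtHW ((a1 _ hu).2 u rfl))
      (h⁻¹ * g * h) (by
        change (h⁻¹ * g * h) • un E u = un E u
        rw [mul_smul, mul_smul]
        exact inv_smul_eq_iff.2 hg)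
    calc g = h * (h⁻¹ * g * h) * h⁻¹ := by group
      _ = 1 := by rw [h2]; group
  obtain ⟨lam, l3⟩ := l2 T hTf (fun w hw => T.smul_mem s hw) (fun w hw => hWT w (hWw w hw))
    (fun w hw => hWi w fun h => hw (hWT w h))
  have hSf := dn_fin_PtHW (L := L) (F := F) hTf
  have hSi := dn_iff_PtHW tw.res p1 T
  have hWS : ∀ v ∈ Dn_PtHW L F (W : Set (Pr E)), v ∈ Dn_PtHW L F (T : Set (Pr E)) :=
    fun v ⟨u, h2, h3⟩ => ⟨u, h2, hWT _ h3⟩
  have hAS : ∀ v ∈ A, v ∈ Dn_PtHW L F (T : Set (Pr E)) := fun v hv => by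
    obtain ⟨u, rfl⟩ := un_surj (L := F) v
    exact ⟨u, rfl, Or.inr ⟨1, u, hv, one_smul _ _⟩⟩
  have hgen : Gen p (Dn_PtHW L F (T : Set (Pr E))) := fun χ hχ h => a2 χ hχ fun v hv =>
    h v (hv.elim (fun h2 => hWS v (hWL.mem_toFinset.1 h2)) (hAS v))
  have hcop : Nat.Coprime p (finrank E F) :=
    cop_PtHW (tw.prim.map_of_injective (algebraMap L F).injective) tw.cyc
  refine ⟨T, lamT F p ζ β, hTf, hWT, hfree, lam, fun a ha ha1 => ?_, fun r hr => ?_⟩
  · obtain ⟨c, hc, hac⟩ := h1 L F σ p2 p1 _ hgen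
      (fun u hu => (p4 u (hunr u fun h => hu ((hSi u).2 (hWT _ h)))).1) (algebraMap E F a)
      ⟨(map_ne_zero _).2 ha.1, fun u hu => by
        obtain ⟨e, -, he⟩ := ord_un u a
        rw [he, ha.2 _ fun h => hu ((hSi u).2 h), mul_zero]⟩
      (by
        simp only [res_pow_PtHW tw.res]
        rw [← map_prod, ha1, map_one])
    exact cob_fin_PtHW T s ha hcop ha1
      (norm_cob_PtHW tw.res ⟨hc.1, fun u hu => hc.2 u fun h => hu ((hSi u).1 h)⟩ hac)
  · let y : Pr L → L := fun v =>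
      if h : ∃ u : Pr F, un L u = v ∧ σ • u = u then β ^ (r (un E h.choose)).val else 1
    have hy1 : ∀ u : Pr F, σ • u = u → y (un L u) = β ^ (r (un E u)).val := fun u hu => by
      have h : ∃ u' : Pr F, un L u' = un L u ∧ σ • u' = u' := ⟨u, rfl, hu⟩
      simp only [y]
      rw [dif_pos h, uniq_PtHW p1 h.choose_spec.1 h.choose_spec.2]
    have hy2 : ∀ u : Pr F, σ • u ≠ u → y (un L u) = 1 := fun u hu => by
      refine dif_neg fun ⟨u', h2, h3⟩ => hu ?_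
      rwa [← uniq_PtHW p1 h2 h3]
    have hy0 : ∀ v, y v ≠ 0 := fun v => by
      simp only [y]
      split_ifs
      · exact pow_ne_zero _ tw.ne
      · exact one_ne_zero
    have hUf : {u : Pr F | un E u ∈ (T : Set (Pr E)) ∧ σ • u = u}.Finite :=
      (fin_un (L := F) hTf).subset fun u hu => hu.1
    obtain ⟨z, hz, hzy⟩ := (hT L ζ hp tw.prim).2 hSf.toFinset
      (fun v hv => hSf.mem_toFinset.2 (hWS v (hwild v hv)))
      (by rw [hSf.coe_toFinset]; exact hgen) y hy0 (fun x hx => by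
        rw [hSf.coe_toFinset] at hx
        obtain ⟨x', e1, e2, e3⟩ := l3 r x hx.1
        rw [hr x' (e2 hx) e1, eq_comm, mul_eq_zero, finsum_mem_eq_finite_toFinset_sum _ hUf] at e3
        have e4 := e3.resolve_left fun h =>
          (Nat.Prime.coprime_iff_not_dvd Fact.out).1 hcop ((ZMod.natCast_eq_zero_iff _ _).1 h)
        rw [← e4, ← sum_subset (s₁ := hUf.toFinset.image (un L)), sum_image]
        · refine sum_congr rfl fun u hu => ?_
          rw [hy1 u (hUf.mem_toFinset.1 hu).2, sym_pow_PtHW hS hp tw.prim _ hx.1 tw.ne,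
            ZMod.natCast_zmod_val]
        · intro u hu u' _ h
          exact uniq_PtHW p1 h (hUf.mem_toFinset.1 hu).2
        · intro v hv
          obtain ⟨u, hu, rfl⟩ := mem_image.1 hv
          exact hSf.mem_toFinset.2 ⟨u, rfl, (hUf.mem_toFinset.1 hu).1⟩
        · intro v hv hv'
          obtain ⟨u, rfl, hu⟩ := hSf.mem_toFinset.1 hv
          rw [hy2 u fun h => hv' (mem_image_of_mem _ (hUf.mem_toFinset.2 ⟨hu, h⟩)),
            ← pow_zero β, sym_pow_PtHW hS hp tw.prim _ hx.1 tw.ne, Nat.cast_zero, zero_mul])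
    rw [hSf.coe_toFinset] at hz
    have hnp : ∀ v ∈ Dn_PtHW L F (T : Set (Pr E)), v ∉ hWL.toFinset → NP p ζ v z := by
      rintro v ⟨u, rfl, hu⟩ hv
      have h2 := hzy _ (hSf.mem_toFinset.2 ⟨u, rfl, hu⟩)
      rwa [hy2 u fun h => hs1 (hfree _ hu (fun h3 => hv (hWL.mem_toFinset.2 ⟨u, rfl, h3⟩)) s
        ((l1 u).1.1 h)), div_one] at h2
    obtain ⟨i, d, hzd⟩ := a3 z hz.1 (fun v hv => by
      by_cases h : v ∈ Dn_PtHW L F (T : Set (Pr E))
      · exact ((hN L ζ hp tw.prim).1 v z (hnp v h hv)).2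
      · rw [hz.2 v h]
        exact dvd_zero _)
      fun v hv => hnp v (hAS v hv) fun h => (a1 v hv).1 (mem_union_left _ h)
    have hd : d ≠ 0 := by
      rintro rfl
      rw [zero_pow (by omega), mul_zero] at hzd
      exact hz.1 hzd
    have key : ∀ w ∈ (T : Set (Pr E)), s • w = w → (i : ZMod p) = r w := fun w hw hw' => by
      obtain ⟨u, rfl⟩ := un_surj (L := F) w
      have hu := (l1 u).1.2 hw'
      have h2 := hzy _ (hSf.mem_toFinset.2 ⟨u, rfl, hw⟩)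
      rw [hy1 u hu, hzd] at h2
      exact np_exp_PtHW hN hp tw.prim tw.ne hd ((p3 u).1 hu) h2
    intro w hw w' hw' h2 h3
    rw [← key w hw h2, ← key w' hw' h3]

end Pool.Agent.MP_f68ac8_nt.Pt
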