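import Mathlib
import Pool.Agent.MP_f68ac8_nt.PtAux
import Pool.Agent.MP_f68ac8_nt.QvLocAbs
import Pool.Agent.MP_f68ac8_nt.QvLocC
import Pool.Agent.MP_f68ac8_nt.QvEig
import Pool.Agent.MP_14ad9d_nt.Full.R01

namespace Pool.Agent.MP_f68ac8_nt.Pt

open Ev Pv
open NumberField Qv
open Pool.Agent.MP_14ad9d_nt.Full (Pr ord Tm tame val_eq_exp ord_mul ord_zpow val_ell
  val_one_sub_lt tame_mul_left tame_swap exists_ord_eq_one)
open Pool.Agent.MP_14ad9d_nt.Full.R0Aux (ord_div tame_eq_mul)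

variable {p : ℕ} [hp : Fact p.Prime] {L : Type} [Field L] [NumberField L] {ζ : L} {v : Pr L}

omit [NumberField L] in
/-- a covering by few classes gives a relation -/
theorem rel_PtIdx {P : L → Prop} (hP : ∀ x y, P x → y ≠ 0 → P (x * y ^ p)) {β : Type} [Finite β]
    {N : ℕ} (hβ : Nat.card β ≤ p ^ N) (f : L → β)
    (hf : ∀ x y, x ≠ 0 → y ≠ 0 → f x = f y → P (x / y)) (x : Fin (N + 1) → L)
    (hx : ∀ i, x i ≠ 0) : ∃ c : Fin (N + 1) → ZMod p, c ≠ 0 ∧ P (∏ i, x i ^ (c i).val) := by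
  have := Fintype.ofFinite β
  have h0 : ∀ c : Fin (N + 1) → ℕ, ∏ i, x i ^ c i ≠ 0 := fun c =>
    Finset.prod_ne_zero_iff.2 fun i _ => pow_ne_zero _ (hx i)
  obtain ⟨c, c', hc, e⟩ := Fintype.exists_ne_map_eq_of_card_lt
    (fun c : Fin (N + 1) → ZMod p => f (∏ i, x i ^ (c i).val)) (by
      rw [← Nat.card_eq_fintype_card, Fintype.card_fun, ZMod.card, Fintype.card_fin]
      exact hβ.trans_lt (Nat.pow_lt_pow_right hp.out.one_lt N.lt_succ_self))
  refine ⟨c - c', sub_ne_zero.2 hc, ?_⟩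
  have h1 := hP _ _ (hf _ _ (h0 _) (h0 _) e) (h0 fun i => ((c i - c' i).val + (c' i).val) / p)
  convert h1 using 1
  rw [div_mul_eq_mul_div, eq_div_iff (h0 _), ← Finset.prod_pow, ← Finset.prod_mul_distrib,
    ← Finset.prod_mul_distrib]
  refine Finset.prod_congr rfl fun i _ => ?_
  rw [← pow_mul, ← pow_add, ← pow_add, Pi.sub_apply]
  congr 1
  have h2 := ZMod.val_add (c i - c' i) (c' i)
  rw [sub_add_cancel] at h2
  rw [h2, mul_comm, Nat.mod_add_div]

/-- the elements of order `p` in a quotient of the units -/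
theorem ker_PtIdx (hζ : IsPrimitiveRoot ζ p) (hv : ¬ Tm p v) {e : ℕ} (he : ord v (p : L) = e)
    {ϖ : L} (h0 : ϖ ≠ 0) (h1 : ord v ϖ = 1) :
    Nat.card (powMonoidHom (α := UU_QvLocAbs (v.valuation L) ⧸ UC_QvLocAbs (v.valuation L)
      (v.valuation L (1 - ζ) ^ p * v.valuation L ϖ)) p).ker ≤
      p * p ^ (e * v.asIdeal.inertiaDeg ℤ) := by
  have hl : p.Prime := hp.out
  have z0 : 1 - ζ ≠ 0 := sub_ne_zero.2 (hζ.ne_one hl.one_lt).symm
  have z1 := (Valuation.pos_iff (v.valuation L)).2 z0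
  have w1 : v.valuation L ϖ = WithZero.exp (-1) := by rw [val_eq_exp v h0, h1]
  have w2 : v.valuation L ϖ < 1 := by
    rw [w1, ← WithZero.exp_zero, WithZero.exp_lt_exp]
    norm_num
  have e1 : WithZero.exp (-(e : ℤ)) = v.valuation L (1 - ζ) ^ (p - 1) := by
    rw [← val_ell hζ, val_eq_exp v (Nat.cast_ne_zero.2 hl.ne_zero), he]
  have key : ∀ a : (powMonoidHom (α := UU_QvLocAbs (v.valuation L) ⧸ UC_QvLocAbs (v.valuation L)
      (v.valuation L (1 - ζ) ^ p * v.valuation L ϖ)) p).ker, ∃ (i : Fin p) (r : 𝓞 L),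
      v.valuation L (algebraMap _ L r - (vv_QvLocAbs _ a.1.out - ζ ^ (i : ℕ)) / ((1 - ζ) * ϖ)) <
        WithZero.exp (-(e : ℤ)) := by
    intro a
    have a1 : v.valuation L (vv_QvLocAbs _ a.1.out ^ p - 1) ≤
        v.valuation L (1 - ζ) ^ p * v.valuation L ϖ := by
      have a2 := (mk_QvLocAbs _ _ (a.1.out ^ p) 1).1 (by
        rw [QuotientGroup.mk_pow, QuotientGroup.out_eq']
        exact a.2)
      rwa [map_pow, map_one] at a2
    obtain ⟨i, hi⟩ := root_QvLocC (v.valuation L) hl hζ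
      (a1.trans_lt (mul_lt_of_lt_one_right (pow_pos z1 p) w2))
    rw [pow_eq_pow_mod i hζ.pow_eq_one] at hi
    refine ⟨⟨i % p, Nat.mod_lt _ hl.pos⟩, v.exists_valuation_sub_lt_of_integer ?_
      (Units.mk0 (WithZero.exp (-(e : ℤ))) WithZero.exp_ne_zero)⟩
    rw [← div_lt_one₀ z1, ← map_div₀] at hi
    rw [← div_div, map_div₀, div_le_one₀ ((Valuation.pos_iff _).2 h0)]
    refine le_of_le_of_eq ?_ w1.symm
    generalize (vv_QvLocAbs _ a.1.out - ζ ^ (i % p)) / (1 - ζ) = t at hi ⊢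
    rcases eq_or_ne t 0 with rfl | ht
    · simp
    · rw [val_eq_exp v ht, ← WithZero.exp_zero, WithZero.exp_lt_exp] at hi
      rw [val_eq_exp v ht, WithZero.exp_le_exp]
      omega
  choose i r hr using key
  have hc := card_QvEig hl hv e
  have : Finite (𝓞 L ⧸ v.asIdeal ^ e) :=
    Nat.finite_of_card_ne_zero (by rw [hc]; exact pow_ne_zero _ hl.ne_zero)
  refine (Nat.card_le_card_of_injective
    (fun a => (i a, Ideal.Quotient.mk (v.asIdeal ^ e) (r a))) fun a b h => ?_).trans_eq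
    (by rw [Nat.card_prod, hc, Nat.card_eq_fintype_card, Fintype.card_fin])
  obtain ⟨h2, h3⟩ := Prod.ext_iff.1 h
  rw [Ideal.Quotient.eq, ← v.intValuation_le_pow_iff_mem,
    ← v.valuation_of_algebraMap (K := L)] at h3
  replace h3 : v.valuation L (algebraMap _ L (r a) - algebraMap _ L (r b)) ≤
      WithZero.exp (-(e : ℤ)) := by
    rw [← map_sub]
    exact h3
  have ha := hr a
  have hb := hr b
  rw [show i a = i b from h2] at ha
  have h4 := Valuation.map_sub_le _ (Valuation.map_add_le _ h3 hb.le) ha.le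
  refine Subtype.ext ?_
  rw [← a.1.out_eq, ← b.1.out_eq]
  refine (mk_QvLocAbs _ _ _ _).2 ?_
  rw [show ∀ x y x' y' z d : L, x - y + (y - (y' - z) / d) - (x - (x' - z) / d) = (x' - y') / d
    from fun _ _ _ _ _ _ => by ring, map_div₀, map_mul,
    div_le_iff₀ (mul_pos z1 ((Valuation.pos_iff _).2 h0)), e1, ← mul_assoc, ← pow_succ,
    Nat.sub_add_cancel hl.pos] at h4
  exact h4

theorem idx_stmt (p : ℕ) [Fact p.Prime] (hN : NPStmt p) (hE : EfStmt p) : IdxStmt p := by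
  intro L _ _ ζ h2 hζ v N hvN
  have hl : p.Prime := Fact.out
  obtain ⟨-, n2, -, n4, -, n6, -⟩ := hN L ζ h2 hζ
  obtain ⟨ϖ, h0, h1⟩ : ∃ ϖ : L, ϖ ≠ 0 ∧ ord v ϖ = 1 := by
    obtain ⟨a, ha, ha'⟩ := exists_ord_eq_one v
    exact ⟨a, RingOfIntegers.coe_ne_zero_iff.2 ha, ha'⟩
  have hP : ∀ x y, NP p ζ v x → y ≠ 0 → NP p ζ v (x * y ^ p) := fun x y hx hy =>
    n2 v _ _ hx (n4 v y hy)
  have hd : ∀ x y : L, (ord v x : ZMod p) = ord v y → (p : ℤ) ∣ ord v x - ord v y := fun x y h =>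
    (ZMod.intCast_eq_intCast_iff_dvd_sub _ _ _).1 h.symm
  rcases hvN with ⟨hv, rfl⟩ | ⟨hv, rfl⟩
  · refine rel_PtIdx hP (β := ZMod p × ZMod p) (by rw [Nat.card_prod, Nat.card_zmod, sq])
      (fun x => (ord v x, tame p ζ v x ϖ)) fun x y hx hy h => ?_
    obtain ⟨k1, k2⟩ := Prod.ext_iff.1 h
    have hz := div_ne_zero hx hy
    have k3 := tame_mul_left h2 hζ hv hz hy h0
    rw [div_mul_cancel₀ x hy, show tame p ζ v x ϖ = tame p ζ v y ϖ from k2, right_eq_add] at k3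
    refine (n6 v _ hv hz).2 fun w hw => ?_
    rw [tame_swap h2 hζ hv hz hw, tame_eq_mul h2 hζ hv hz hw h0 h1
      (by rw [ord_div v hx hy]; exact hd x y k1), k3, mul_zero, neg_zero]
  · have z0 : 1 - ζ ≠ 0 := sub_ne_zero.2 (hζ.ne_one hl.one_lt).symm
    have z1 := (Valuation.pos_iff (v.valuation L)).2 z0
    have w2 : v.valuation L ϖ < 1 := by
      rw [val_eq_exp v h0, h1, ← WithZero.exp_zero, WithZero.exp_lt_exp]
      norm_num
    have c1 := mul_lt_of_lt_one_right (pow_pos z1 p) w2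
    obtain ⟨M, hM⟩ : ∃ M : ℕ, v.valuation L (1 - ζ) ^ p * v.valuation L ϖ =
        WithZero.exp (-(M : ℤ)) := by
      have c2 := c1.trans (pow_lt_one₀ zero_le (val_one_sub_lt hζ hv) hl.ne_zero)
      have c3 := mul_ne_zero (pow_ne_zero p z0) h0
      refine ⟨(ord v ((1 - ζ) ^ p * ϖ)).toNat, ?_⟩
      rw [← map_pow, ← map_mul, val_eq_exp v c3, ← WithZero.exp_zero, WithZero.exp_lt_exp] at c2
      rw [← map_pow, ← map_mul, val_eq_exp v c3, Int.toNat_of_nonneg (by omega)]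
    have hk := ker_PtIdx hζ hv ((hE L).1 v hv).1 h0 h1
    have : Finite (UU_QvLocAbs (v.valuation L) ⧸ UC_QvLocAbs (v.valuation L)
        (v.valuation L (1 - ζ) ^ p * v.valuation L ϖ)) := hM ▸ fin_QvLocAbs v M
    rw [← Subgroup.index_range] at hk
    have hu : ∀ x : L, ∃ u, x ≠ 0 → vv_QvLocAbs (v.valuation L) u = x / ϖ ^ ord v x := by
      intro x
      rcases eq_or_ne x 0 with rfl | hx
      · exact ⟨1, fun h => absurd rfl h⟩
      · refine (vv_ex_QvLocAbs (v.valuation L) (x := x / ϖ ^ ord v x) ?_).imp fun u hu _ => hu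
        rw [val_eq_exp v (div_ne_zero hx (zpow_ne_zero _ h0)), ord_div v hx (zpow_ne_zero _ h0),
          ord_zpow, h1, mul_one, sub_self, neg_zero, WithZero.exp_zero]
    choose u hu using hu
    refine rel_PtIdx hP (β := ZMod p × (_ ⧸ (powMonoidHom (α := UU_QvLocAbs (v.valuation L) ⧸
      UC_QvLocAbs (v.valuation L) (v.valuation L (1 - ζ) ^ p * v.valuation L ϖ)) p).range))
      ?_ (fun x => (ord v x, QuotientGroup.mk (QuotientGroup.mk (u x)))) fun x y hx hy h => ?_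
    · rw [Nat.card_prod, Nat.card_zmod, pow_succ', pow_succ']
      exact Nat.mul_le_mul_left p hk
    · obtain ⟨k1, k2⟩ := Prod.ext_iff.1 h
      obtain ⟨k, hk⟩ := hd x y k1
      obtain ⟨g, hg⟩ := QuotientGroup.eq.1 k2.symm
      obtain ⟨g, rfl⟩ := QuotientGroup.mk_surjective g
      rw [powMonoidHom_apply, ← QuotientGroup.mk_pow, ← QuotientGroup.mk_inv,
        ← QuotientGroup.mk_mul, eq_comm, mk_QvLocAbs, ← div_QvLocAbs _ (vv_one_QvLocAbs _ _),
        map_mul (vv_QvLocAbs _), map_inv, map_pow (vv_QvLocAbs _), hu x hx, hu y hy] at hg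
      refine ⟨ϖ ^ k * vv_QvLocAbs _ g, mul_ne_zero (zpow_ne_zero _ h0) (vv_ne_QvLocAbs _ _),
        lt_of_le_of_lt (le_of_eq_of_le ?_ hg) c1⟩
      have g0 := vv_ne_QvLocAbs _ g
      have g1 := zpow_ne_zero k h0
      have g2 := zpow_ne_zero (ord v y) h0
      rw [sub_eq_iff_eq_add.1 hk, zpow_add₀ h0, mul_comm (p : ℤ), zpow_mul, zpow_natCast, mul_pow]
      congr 2
      field_simp

end Pool.Agent.MP_f68ac8_nt.Pt
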