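import Mathlib
import Pool.Agent.MP_f68ac8_nt.PtAux
import Pool.Agent.MP_14ad9d_nt.Full.FI2
import Pool.Agent.MP_14ad9d_nt.Full.Sym2
import Pool.Agent.MP_14ad9d_nt.Full.R01
import Pool.Agent.MP_f68ac8_nt.PvH
namespace Pool.Agent.MP_f68ac8_nt.Pt
open Ev Pv
open NumberField Module Finset
open Pool.Agent.MP_14ad9d_nt.Full (Pr ord Tm tame act tm_over tame_unr)
open Pool.Agent.MP_14ad9d_nt.Full.FIAux

set_option linter.unusedSectionVars false

lemma fib_PtLam {A B R : Type} [CommRing R] (f : A → B) {T : Set B} (hT : T.Finite)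
    (hf : (f ⁻¹' T).Finite) (r : B → R) (φ : A → R) :
    ∑ᶠ w ∈ T, r w * ∑ᶠ u ∈ {u | f u = w}, φ u = ∑ᶠ u ∈ f ⁻¹' T, r (f u) * φ u := by
  classical
  rw [finsum_mem_eq_finite_toFinset_sum _ hT, finsum_mem_eq_finite_toFinset_sum _ hf,
    ← sum_fiberwise_of_maps_to (t := hT.toFinset) (g := f) (fun u hu => by simpa using hu)]
  refine sum_congr rfl fun w hw => ?_
  have e : {u | f u = w} = (hf.toFinset.filter fun u => f u = w : Finset A) := by
    ext u
    simp only [Set.mem_ofPred_eq, coe_filter, Set.Finite.mem_toFinset, Set.mem_preimage]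
    exact ⟨fun h => ⟨h ▸ hT.mem_toFinset.1 hw, h⟩, fun h => h.2⟩
  rw [e, finsum_mem_coe_finset, mul_sum]
  exact sum_congr rfl fun u hu => by rw [(mem_filter.1 hu).2]

section
variable {E F : Type} [Field E] [NumberField E] [Field F] [NumberField F] [Algebra E F]

lemma un_act_PtLam (a : F ≃+* F) (b : E ≃+* E)
    (h : ∀ x, a (algebraMap E F x) = algebraMap E F (b x)) (u : Pr F) :
    un E (act a u) = act b (un E u) := by
  ext x
  change (RingOfIntegers.mapRingEquiv a).symm (algebraMap (𝓞 E) (𝓞 F) x) ∈ u.asIdeal ↔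
    algebraMap (𝓞 E) (𝓞 F) ((RingOfIntegers.mapRingEquiv b).symm x) ∈ u.asIdeal
  have : (RingOfIntegers.mapRingEquiv a).symm (algebraMap (𝓞 E) (𝓞 F) x) =
      algebraMap (𝓞 E) (𝓞 F) ((RingOfIntegers.mapRingEquiv b).symm x) := by
    ext
    change a.symm (algebraMap E F x) = algebraMap E F (b.symm x)
    rw [RingEquiv.symm_apply_eq, h, RingEquiv.apply_symm_apply]
  rw [this]

lemma act_comm_PtLam (a b : F ≃+* F) (h : ∀ x, a (b x) = b (a x)) (u : Pr F) :
    act a (act b u) = act b (act a u) := by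
  have e : b.trans a = a.trans b := RingEquiv.ext h
  have key : ∀ a b : F ≃+* F, act a (act b u) = act (b.trans a) u := fun a b => by
    ext x
    exact Iff.rfl
  rw [key, key, e]

lemma ord_zero_PtLam (u : Pr F) (x : E) : ord u (algebraMap E F x) = 0 ↔ ord (un E u) x = 0 := by
  obtain ⟨e, he, h⟩ := ord_un u x
  rw [h, mul_eq_zero, or_iff_right he.ne']

end

lemma sym_prod_PtLam {p : ℕ} [Fact p.Prime] (hS : SymStmt p) {L : Type} [Field L] [NumberField L]
    {ζ : L} (h2 : 2 < p) (hζ : IsPrimitiveRoot ζ p) (v : Pr L) {y : L} (hy : y ≠ 0) {J : Type}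
    (s : Finset J) (f : J → L) (hf : ∀ i, f i ≠ 0) :
    sym p ζ v (∏ i ∈ s, f i) y = ∑ i ∈ s, sym p ζ v (f i) y := by
  classical
  have h := (hS L ζ h2 hζ).1 v
  induction s using Finset.induction_on with
  | empty =>
    have h1 := h 1 1 y one_ne_zero one_ne_zero hy
    rw [mul_one] at h1
    simpa using h1
  | insert i s hi ih =>
    rw [prod_insert hi, sum_insert hi, h _ _ _ (hf i) (prod_ne_zero_iff.2 fun j _ => hf j) hy, ih]

section
variable {p : ℕ} [hp : Fact p.Prime] {K E L F : Type} [Field K] [NumberField K] [Field E]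
  [NumberField E] [Algebra K E] [Field L] [NumberField L] [Field F] [NumberField F] [Algebra E F]
  [Algebra L F] {ζ β : L} {θ : F} {σ : F ≃ₐ[L] F} {s : E ≃ₐ[K] E}

lemma lam_eq_PtLam {x : E} {x' : L} (e : algebraMap L F x' = algebraMap E F x) (w : Pr E) :
    lamT F p ζ β x w = ∑ᶠ u ∈ {u : Pr F | un E u = w}, sym p ζ (un L u) x' β := by
  rw [lamT, ← e, Function.leftInverse_invFun (algebraMap L F).injective]

variable (h : Tow p ζ β θ σ s)
include h

lemma root_PtLam (a : F ≃+* F) :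
    ∃ c, ¬ p ∣ c ∧ a (algebraMap L F ζ) = algebraMap L F ζ ^ c := by
  have h1 := h.prim.map_of_injective (algebraMap L F).injective
  obtain ⟨c, -, hc⟩ := h1.eq_pow_of_pow_eq_one (ξ := a (algebraMap L F ζ))
    (by rw [← map_pow, h1.pow_eq_one, map_one])
  refine ⟨c, fun hd => h1.ne_one hp.out.one_lt (a.injective ?_), hc.symm⟩
  rw [← hc, map_one, (h1.pow_eq_one_iff_dvd c).2 hd]

lemma res_pow_PtLam (k : ℕ) (x : E) :
    (σ ^ k) (algebraMap E F x) = algebraMap E F ((s ^ k) x) := by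
  induction k with
  | zero => rfl
  | succ k ih => rw [pow_succ', pow_succ', AlgEquiv.mul_apply, ih, h.res, AlgEquiv.mul_apply]

lemma comm_PtLam (g : F ≃+* F) (k : ℕ)
    (hg : ∀ x : E, g (σ (algebraMap E F x)) = (σ ^ k) (g (algebraMap E F x))) (x : F) :
    g (σ x) = (σ ^ k) (g x) := by
  obtain ⟨c, -, hc⟩ := root_PtLam h g
  let a : F ≃+* F := (σ : F ≃+* F).trans g
  let b : F ≃+* F := g.trans ((σ ^ k : F ≃ₐ[L] F) : F ≃+* F)
  have h1 := h.cyc (AlgEquiv.ofRingEquiv (f := a.trans b.symm) fun y =>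
    b.symm_apply_eq.2 (hg y)) (b.symm_apply_eq.2 (by
      change g (σ _) = (σ ^ k) (g _)
      rw [σ.commutes, hc, map_pow, AlgEquiv.commutes]))
  exact b.symm_apply_eq.1 (congrArg (fun f : F ≃ₐ[E] F => f x) h1)

lemma comm1_PtLam (δ : F ≃ₐ[E] F) (x : F) : δ (σ x) = σ (δ x) := by
  have := comm_PtLam h (δ : F ≃+* F) 1 (fun y => by
    change δ _ = (σ ^ 1) (δ _)
    rw [pow_one, h.res, δ.commutes, δ.commutes, h.res]) x
  rwa [pow_one] at this

lemma pow_PtLam (δ : F ≃ₐ[E] F) : δ ^ (p - 1) = 1 := by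
  obtain ⟨c, hc, e⟩ := root_PtLam h (δ : F ≃+* F)
  have e' : δ (algebraMap L F ζ) = algebraMap L F ζ ^ c := e
  have h1 : ∀ n : ℕ, (δ ^ n) (algebraMap L F ζ) = algebraMap L F ζ ^ c ^ n := fun n => by
    induction n with
    | zero => simp
    | succ n ih => rw [pow_succ', AlgEquiv.mul_apply, ih, map_pow, e', ← pow_mul, ← pow_succ']
  have h2 := Nat.ModEq.pow_totient ((hp.out.coprime_iff_not_dvd).2 hc).symm
  rw [Nat.totient_prime hp.out] at h2
  have h3 := (h.prim.map_of_injective (algebraMap L F).injective).pow_eq_one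
  refine h.cyc _ ?_
  rw [h1, pow_eq_pow_mod _ h3, h2, ← pow_eq_pow_mod _ h3, pow_one]

lemma un_pow_PtLam (k : ℕ) (u : Pr F) : un E (σ ^ k • u) = s ^ k • un E u :=
  un_act_PtLam _ _ (res_pow_PtLam h k) u

lemma fix_PtLam [IsGalois E F] (ho : orderOf σ = p) (u : Pr F) :
    σ • u = u ↔ s • un E u = un E u := by
  have h0 : un E (σ • u) = s • un E u := un_act_PtLam _ _ h.res u
  refine ⟨fun e => by rw [← h0, e], fun e => ?_⟩
  obtain ⟨δ, hδ⟩ := ac_trans (h0.trans e).symm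
  have hδ' : δ • u = σ • u := hδ
  have hc : ∀ (n : ℕ) (v : Pr F), σ • δ ^ n • v = δ ^ n • σ • v := fun n v =>
    act_comm_PtLam _ _ (fun x => (comm1_PtLam h (δ ^ n) x).symm) v
  have h1 : ∀ n : ℕ, σ ^ n • u = δ ^ n • u := fun n => by
    induction n with
    | zero => rw [pow_zero, pow_zero, one_smul, one_smul]
    | succ n ih => rw [pow_succ', mul_smul, ih, hc, ← hδ', ← mul_smul, pow_succ]
  have h2 := h1 (p - 1)
  rw [pow_PtLam h, one_smul] at h2
  conv_lhs => rw [← h2, ← mul_smul, ← pow_succ', Nat.sub_add_cancel hp.out.one_le, ← ho,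
    pow_orderOf_eq_one, one_smul]

lemma inertia_PtLam (u : Pr F) (hu : σ ∈ u.asIdeal.inertia (F ≃ₐ[L] F)) :
    s ∈ (un E u).asIdeal.inertia (E ≃ₐ[K] E) := by
  intro x
  have h1 := hu (algebraMap (𝓞 E) (𝓞 F) x)
  have e : σ • algebraMap (𝓞 E) (𝓞 F) x = algebraMap (𝓞 E) (𝓞 F) (s • x) := by
    ext
    exact h.res x
  rw [e, ← map_sub] at h1
  exact h1

lemma desc_PtLam [IsGalois L F] (hz : ∀ τ : F ≃ₐ[L] F, τ ∈ Subgroup.zpowers σ) {x : E}
    (h0 : x ≠ 0) (hx : s x = x) : ∃ x' : L, x' ≠ 0 ∧ algebraMap L F x' = algebraMap E F x := by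
  have h1 : σ ∈ MulAction.stabilizer (F ≃ₐ[L] F) (algebraMap E F x) := by
    change σ _ = _
    rw [h.res, hx]
  obtain ⟨x', e⟩ := (IsGalois.mem_range_algebraMap_iff_fixed (F := L) (algebraMap E F x)).2
    fun τ => (Subgroup.zpowers_le.2 h1) (hz τ)
  refine ⟨x', fun e0 => h0 ?_, e⟩
  rw [e0, map_zero] at e
  exact (map_eq_zero _).1 e.symm

lemma sum_PtLam [IsGalois L F] [IsGalois E F] (hS : SymStmt p) (hP : SplitStmt p)
    {T : Set (Pr E)} (hT : T.Finite) (h3 : ∀ w, ¬ Tm p w → w ∈ T)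
    (h4 : ∀ w, w ∉ T → s ∉ w.asIdeal.inertia (E ≃ₐ[K] E)) {x : E} (hx : SU T x) (hs : s x = x) :
    ∑ᶠ w ∈ {w ∈ T | s • w = w}, lamT F p ζ β x w = 0 := by
  obtain ⟨P1, P2, P3, P4, -⟩ := hP L F ζ β θ σ h.toKum
  obtain ⟨-, S2, S3, S4, -⟩ := hS L ζ h.two h.prim
  obtain ⟨x', h0, e⟩ := desc_PtLam h P1 hx.1 hs
  have hA : {w ∈ T | s • w = w}.Finite := hT.subset fun w hw => hw.1
  have hU := fin_un (L := F) hA
  have h1 := fib_PtLam (un E) hA hU (fun _ => 1) fun u => sym p ζ (un L u) x' β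
  simp only [one_mul] at h1
  simp only [lam_eq_PtLam e]
  have hi : (un E ⁻¹' {w ∈ T | s • w = w} : Set (Pr F)).InjOn (un L) := by
    intro u hu u' _ huu
    obtain ⟨τ, hτ⟩ := ac_trans huu
    have h5 : σ ∈ MulAction.stabilizer (F ≃ₐ[L] F) u := (fix_PtLam h P2 u).2 hu.2
    exact ((Subgroup.zpowers_le.2 h5 (P1 τ)).symm.trans hτ)
  rw [h1, ← finsum_mem_image (f := fun v => sym p ζ v x' β) hi,
    finsum_mem_eq_finite_toFinset_sum _ (hU.image _)]
  refine S4 _ x' β h0 h.ne fun v hv => ?_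
  obtain ⟨u, rfl⟩ := un_surj (L := F) v
  by_cases hu : σ • u = u
  · have h5 : un E u ∉ T := fun h5 =>
      hv ((Set.Finite.mem_toFinset _).2 ⟨u, ⟨h5, (fix_PtLam h P2 u).1 hu⟩, rfl⟩)
    have h6 : Tm p (un E u) := by_contra fun h6 => h5 (h3 _ h6)
    have h7 : Tm p (un L u) := (tm_over (over_un u)).1 ((tm_over (over_un u)).2 h6)
    have h8 := (P4 u fun hi => h4 _ h5 (inertia_PtLam h u hi)).2
    have h9 : ord (un L u) x' = 0 := by
      rw [← ord_zero_PtLam, e, ord_zero_PtLam]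
      exact hx.2 _ h5
    rw [sym, if_pos h7]
    exact tame_unr h.two h.prim h7 h0 h.ne (h9 ▸ dvd_zero _) h8
  · rw [S2 _ β x' h.ne h0, S3 _ β x' h0 (not_not.1 fun h5 => hu ((P3 u).2 h5)), neg_zero]

variable [Algebra K L] [Algebra K F] [IsScalarTower K E F] [IsScalarTower K L F]

lemma eqv_PtLam [IsGalois K F] [IsGalois L F] (hP : SplitStmt p) (hQ : EqvStmt p)
    (g : E ≃ₐ[K] E) (k : ℕ) (hg : g * s = s ^ k * g) {x : E} (h0 : x ≠ 0) (hx : s x = x)
    (w : Pr E) : lamT F p ζ β (g x) (g • w) = k * lamT F p ζ β x w := by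
  obtain ⟨x', h0', e⟩ := desc_PtLam h (hP L F ζ β θ σ h.toKum).1 h0 hx
  have hG := g.liftNormal_commutes F
  obtain ⟨g', g1, g2, g3⟩ := hQ K L F ζ β θ σ h.toKum (g.liftNormal F) k
    (comm_PtLam h (g.liftNormal F : F ≃+* F) k fun y => by
      change g.liftNormal F _ = (σ ^ k) (g.liftNormal F _)
      rw [h.res, hG, hG, res_pow_PtLam h, ← AlgEquiv.mul_apply, hg, AlgEquiv.mul_apply])
  have e' : algebraMap L F (g' x') = algebraMap E F (g x) := by rw [g1, e, hG]
  rw [lam_eq_PtLam e, lam_eq_PtLam e', mul_finsum_mem]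
  refine (finsum_mem_eq_of_bijOn (MulAction.toPerm (g.liftNormal F)) (Equiv.bijOn _ fun u => ?_)
    fun u _ => ?_).symm
  · have h1 : un E (g.liftNormal F • u) = g • un E u := un_act_PtLam _ _ hG u
    change un E (g.liftNormal F • u) = g • w ↔ un E u = w
    rw [h1, smul_left_cancel_iff]
  · rw [← g3 _ _ h0', ← g2]
    rfl

lemma last_PtLam [IsGalois L F] [IsGalois E F] (hS : SymStmt p) (hP : SplitStmt p)
    (hQ : EqvStmt p) {T : Set (Pr E)} (hT : T.Finite) (h2 : ∀ w ∈ T, s • w ∈ T)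
    (r : Pr E → ZMod p) {x : L} (hx : x ≠ 0) :
    ∃ y : E, s y = y ∧ (SU {v | ∃ u : Pr F, un L u = v ∧ un E u ∈ T} x → SU T y) ∧
      ∑ᶠ w ∈ {w ∈ T | s • w = w}, r w * lamT F p ζ β y w =
        (finrank E F : ZMod p) *
          ∑ᶠ u ∈ {u : Pr F | un E u ∈ T ∧ σ • u = u}, r (un E u) * sym p ζ (un L u) x β := by
  obtain ⟨P1, P2, -⟩ := hP L F ζ β θ σ h.toKum
  have hn := Algebra.norm_eq_prod_automorphisms E (algebraMap L F x)
  have hX : algebraMap L F x ≠ 0 := (map_ne_zero _).2 hx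
  choose f f1 f2 f3 using fun δ : F ≃ₐ[E] F => hQ K L F ζ β θ σ h.toKum (δ.restrictScalars K) 1
    fun y => by rw [pow_one]; exact comm1_PtLam h δ y
  have e : algebraMap L F (∏ δ, f δ x) = algebraMap E F (Algebra.norm E (algebraMap L F x)) := by
    rw [hn, map_prod]
    exact prod_congr rfl fun δ _ => f1 δ x
  refine ⟨Algebra.norm E (algebraMap L F x), (algebraMap E F).injective ?_, fun hu => ⟨?_, ?_⟩, ?_⟩
  · rw [← h.res, ← e, σ.commutes]
  · exact Algebra.norm_ne_zero_iff.2 hX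
  · intro w hw
    obtain ⟨u, rfl⟩ := un_surj (L := F) w
    rw [← ord_zero_PtLam, hn, ord_prod_PvH u _ _ fun δ => (map_ne_zero δ).2 hX]
    refine sum_eq_zero fun δ _ => ?_
    rw [← ac_inv δ u, ord_ac, ord_zero_PtLam]
    refine hu.2 _ ?_
    rintro ⟨u', e1, e2⟩
    obtain ⟨τ, hτ⟩ := ac_trans e1
    obtain ⟨n, rfl⟩ := mem_powers_iff_mem_zpowers.2 (P1 τ)
    have h5 : ∀ n : ℕ, s ^ n • un E u' ∈ T := fun n => by
      induction n with
      | zero => rwa [pow_zero, one_smul]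
      | succ n ih => rw [pow_succ', mul_smul]; exact h2 _ ih
    have h6 := h5 n
    rw [← un_pow_PtLam h, Pv.smul_def, hτ, un_ac] at h6
    exact hw h6
  · have hA : {w ∈ T | s • w = w}.Finite := hT.subset fun w hw => hw.1
    have hU := fin_un (L := F) hA
    have eU : {u : Pr F | un E u ∈ T ∧ σ • u = u} = un E ⁻¹' {w ∈ T | s • w = w} := by
      ext u
      exact and_congr_right fun _ => fix_PtLam h P2 u
    simp only [lam_eq_PtLam e]
    rw [fib_PtLam (un E) hA hU, eU, finsum_mem_eq_finite_toFinset_sum _ hU,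
      finsum_mem_eq_finite_toFinset_sum _ hU]
    simp only [sym_prod_PtLam hS h.two h.prim _ h.ne _ _ fun δ => (map_ne_zero (f δ)).2 hx,
      mul_sum]
    rw [sum_comm, ← mul_sum, ← IsGalois.card_aut_eq_finrank, Nat.card_eq_fintype_card,
      ← nsmul_eq_mul, ← card_univ, ← sum_const]
    refine sum_congr rfl fun δ _ => (sum_equiv (MulAction.toPerm δ) (fun u => ?_)
      fun u _ => ?_).symm
    · simp only [Set.Finite.mem_toFinset, Set.mem_preimage, MulAction.toPerm_apply, Pv.smul_def δ,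
        un_ac]
    · have h5 := f3 δ (un L u) x hx
      rw [Nat.cast_one, one_mul, ← f2] at h5
      rw [MulAction.toPerm_apply, Pv.smul_def, un_ac, ← h5]
      rfl

end

theorem lam_stmt (p : ℕ) [Fact p.Prime] (hN : NPStmt p) (hS : SymStmt p) (hP : SplitStmt p) (hQ : EqvStmt p) (hM : NormStmt p) : LamStmt p := by
  intro K E L F _ _ _ _ _ _ _ _ _ _ _ _ _ _ _ _ _ ζ β θ σ s h
  have : IsGalois L F := IsGalois.tower_top_of_isGalois K L F
  have : IsGalois E F := IsGalois.tower_top_of_isGalois K E F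
  obtain ⟨P1, P2, -, -, P5⟩ := hP L F ζ β θ σ h.toKum
  refine ⟨fun u => ⟨fix_PtLam h P2 u, inertia_PtLam h u⟩, fun T hT h2 h3 h4 => ⟨⟨?_, ?_, ?_, ?_⟩,
    fun r x hx => last_PtLam h hS hP hQ hT h2 r hx⟩⟩
  · intro x y hx hy sx sy w _
    obtain ⟨x', hx', ex⟩ := desc_PtLam h P1 hx sx
    obtain ⟨y', hy', ey⟩ := desc_PtLam h P1 hy sy
    have e : algebraMap L F (x' * y') = algebraMap E F (x * y) := by
      rw [map_mul, map_mul, ex, ey]
    have hf : {u : Pr F | un E u = w}.Finite := fin_un (Set.finite_singleton w)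
    rw [lam_eq_PtLam e, lam_eq_PtLam ex, lam_eq_PtLam ey, ← finsum_mem_add_distrib hf]
    exact finsum_mem_congr rfl fun u _ => (hS L ζ h.two h.prim).1 _ _ _ _ hx' hy' h.ne
  · exact fun g k hg x hx sx w _ => eqv_PtLam h hP hQ g k hg hx sx w
  · intro y hy w _
    have e : algebraMap L F (Algebra.norm L (algebraMap E F y)) =
        algebraMap E F (∏ i ∈ range p, (s ^ i) y) := by
      rw [P5, map_prod]
      exact prod_congr rfl fun i _ => res_pow_PtLam h i y
    rw [lam_eq_PtLam e]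
    exact finsum_mem_of_eqOn_zero fun u _ =>
      hM L F ζ β θ σ h.toKum _ _ ((map_ne_zero _).2 hy)
  · exact fun x hx sx => sum_PtLam h hS hP hT h3 h4 hx sx

end Pool.Agent.MP_f68ac8_nt.Pt
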