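import Mathlib
import Pool.Agent.MP_f68ac8_nt.PtAux
import Pool.Agent.MP_f68ac8_nt.OvMixV
import Pool.Agent.MP_14ad9d_nt.Full.R02
import Pool.Agent.MP_14ad9d_nt.Full.WC
import Pool.Agent.MP_14ad9d_nt.Full.FI2

/-! The local symbols vanish on norms from the Kummer extension. -/

namespace Pool.Agent.MP_f68ac8_nt.Pt

open Ev Pv NumberField Module Finset
open Pool.Agent.MP_14ad9d_nt Pool.Agent.MP_14ad9d_nt.Full
open Pool.Agent.MP_14ad9d_nt.Full.FIAux (un ac over_un un_eq un_surj un_ac ac_mul ac_one ac_inv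
  val_ac ord_ac)

variable {p : ℕ} [hp : Fact p.Prime] {L F : Type} [Field L] [NumberField L] [Field F]
  [NumberField F] [Algebra L F] {ζ β : L} {θ : F} {σ : F ≃ₐ[L] F}

omit [NumberField L] [NumberField F] in
lemma fix_pow_PtNorm {u : Pr F} (h : ac σ u = u) (i : ℕ) : ac (σ ^ i) u = u := by
  induction i with
  | zero => exact ac_one u
  | succ i ih => rw [pow_succ, ac_mul, h, ih]

omit [NumberField L] in
lemma ord_prod_PtNorm {u : Pr F} (h : ac σ u = u) {z : F} (hz : z ≠ 0) (n : ℕ) :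
    ord u (∏ i ∈ range n, (σ ^ i) z) = n * ord u z := by
  induction n with
  | zero => simp [ord_one]
  | succ n ih =>
    have e := ord_ac (σ ^ n) u z
    rw [fix_pow_PtNorm h] at e
    rw [prod_range_succ, ord_mul u (prod_ne_zero_iff.2 fun i _ => (map_ne_zero _).2 hz)
      ((map_ne_zero _).2 hz), ih, e]
    push_cast
    ring

lemma chi_prod_PtNorm (hζ : IsPrimitiveRoot ζ p) {u : Pr F} (hu : Tm p u) (h : ac σ u = u)
    {z : F} (hz : z ≠ 0) (h0 : ord u z = 0) (n : ℕ) :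
    Full.chi p (algebraMap L F ζ) u (∏ i ∈ range n, (σ ^ i) z) =
      n * Full.chi p (algebraMap L F ζ) u z := by
  have hζ' : IsPrimitiveRoot (algebraMap L F ζ) p :=
    hζ.map_of_injective (algebraMap L F).injective
  induction n with
  | zero => simpa using Sym1Aux.chi_one hζ' hu
  | succ n ih =>
    have e := ord_ac (σ ^ n) u z
    rw [fix_pow_PtNorm h, h0] at e
    have e2 : Full.chi p (algebraMap L F ζ) u ((σ ^ n) z) =
        Full.chi p (algebraMap L F ζ) u z := by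
      rw [Full.chi_spec hζ' hu ((map_ne_zero _).2 hz) e]
      have a := (Full.chi_spec hζ' hu hz h0 _).1 rfl
      rw [← val_ac (σ ^ n), fix_pow_PtNorm h, map_sub, map_pow, map_pow, AlgEquiv.commutes] at a
      exact a
    rw [prod_range_succ, Full.chi_mul hζ' hu (prod_ne_zero_iff.2 fun i _ => (map_ne_zero _).2 hz)
      ((map_ne_zero _).2 hz) (by rw [ord_prod_PtNorm h hz, h0, mul_zero]) e, ih, e2]
    push_cast
    ring

omit [NumberField L] [NumberField F] in
lemma theta_PtNorm (hK : Kum p ζ β θ σ) : ∏ i ∈ range p, (σ ^ i) θ = algebraMap L F β := by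
  have e : ∀ i : ℕ, (σ ^ i) θ = algebraMap L F ζ ^ i * θ := fun i => by
    induction i with
    | zero => simp
    | succ i ih =>
      rw [pow_succ', AlgEquiv.mul_apply, ih, map_mul, map_pow, AlgEquiv.commutes, hK.act]
      ring
  have hd : p ∣ ∑ i ∈ range p, i := by
    have h2 : p.Coprime 2 := (Nat.coprime_primes hp.out Nat.prime_two).2 hK.two.ne'
    exact h2.dvd_of_dvd_mul_right (sum_range_id_mul_two p ▸ Dvd.intro _ rfl)
  simp only [e]
  rw [prod_mul_distrib, prod_pow_eq_pow_sum, prod_const, card_range, hK.pow, ← map_pow,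
    (hK.prim.pow_eq_one_iff_dvd _).2 hd, map_one, one_mul]

variable [IsGalois L F]

lemma tame_PtNorm (hS : SymStmt p) (hP : SplitStmt p) (hK : Kum p ζ β θ σ) {v : Pr L}
    (hv : Tm p v) {y : F} (hy : y ≠ 0) : sym p ζ v (Algebra.norm L y) β = 0 := by
  obtain ⟨-, s2, s3, -⟩ := hS L ζ hK.two hK.prim
  obtain ⟨-, -, q3, -, q5⟩ := hP L F ζ β θ σ hK
  have hn : ∀ {z : F}, z ≠ 0 → Algebra.norm L z ≠ 0 := fun hz => Algebra.norm_ne_zero_iff.2 hz
  by_cases hb : NP p ζ v β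
  · rw [s2 v β _ hK.ne (hn hy), s3 v β _ (hn hy) hb, neg_zero]
  obtain ⟨u, rfl⟩ := un_surj (L := F) v
  have hu : ac σ u = u := (q3 u).2 hb
  have ho := over_un (K := L) u
  have a1 := ord_prod_PtNorm hu hy p
  rw [← q5, ord_over ho] at a1
  rw [sym, if_pos hv]
  by_cases hd : (p : ℤ) ∣ ord (un L u) β
  · rw [R0Aux.unr_tame hK.two hK.prim hK.deg hK.ne hK.pow hK.act hv hd ho, Nat.cast_one,
      one_mul] at a1
    exact tame_unr hK.two hK.prim hv (hn hy) hK.ne ⟨_, a1⟩ hd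
  have hθ : θ ≠ 0 := fun e => (map_ne_zero (algebraMap L F)).2 hK.ne (by
    rw [← hK.pow, e, zero_pow hp.out.ne_zero])
  have a2 := ord_over ho β
  rw [← hK.pow, ord_pow] at a2
  have a3 := ef_dvd ho
  rw [hK.deg] at a3
  have he : u.asIdeal.ramificationIdx (𝓞 L) = p := by
    refine ((Nat.dvd_prime hp.out).1 ((Dvd.intro _ rfl).trans a3)).resolve_left fun h1 => hd ?_
    rw [h1, Nat.cast_one, one_mul] at a2
    exact ⟨_, a2.symm⟩
  have hf : u.asIdeal.inertiaDeg (𝓞 L) = 1 := by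
    rw [he] at a3
    exact Nat.dvd_one.1 ((Nat.mul_dvd_mul_iff_left hp.out.pos).1 (by rwa [mul_one]))
  have hp0 : (p : ℤ) ≠ 0 := by exact_mod_cast hp.out.ne_zero
  rw [he] at a1 a2
  have b1 := mul_left_cancel₀ hp0 a1
  have b2 := mul_left_cancel₀ hp0 a2
  have hz : y ^ ord u θ / θ ^ ord u y ≠ 0 := Sym1Aux.u_ne u hy hθ
  have b3 := chi_prod_PtNorm hK.prim ((tm_over ho).2 hv) hu hz (Sym1Aux.u_ord u hy hθ) p
  have b4 := chi_over hK.prim hv ho (Sym1Aux.u_ne _ (hn hy) hK.ne) (Sym1Aux.u_ord _ (hn hy) hK.ne)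
  rw [hf, Nat.cast_one, one_mul] at b4
  rw [ZMod.natCast_self, zero_mul] at b3
  rw [tame, ← b4, ← b3, b1, ← b2, map_div₀, map_zpow₀, map_zpow₀, q5, ← theta_PtNorm hK]
  simp only [map_div₀, map_zpow₀, prod_div_distrib, prod_zpow]

lemma near_PtNorm (hζ : IsPrimitiveRoot ζ p) {v : Pr L} (hv : ¬ Tm p v) {t : F}
    (h : ∀ u : Pr F, un L u = v →
      u.valuation F (t - 1) < u.valuation F (algebraMap L F (1 - ζ)) ^ p) :
    NP p ζ v (Algebra.norm L t) := by
  obtain ⟨u, rfl⟩ := un_surj (L := F) v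
  have ho := over_un (K := L) u
  have hz : 1 - ζ ≠ 0 := sub_ne_zero.2 (hζ.ne_one hp.out.one_lt).symm
  have c1 : u.valuation F (algebraMap L F (1 - ζ)) ^ p ≤ 1 := by
    rw [Sym2Aux.val_over ho]
    exact pow_le_one' (pow_le_one' (val_one_sub_lt hζ hv).le _) _
  have c0 : u.valuation F (algebraMap L F (1 - ζ)) ^ p ≠ 0 :=
    pow_ne_zero _ ((Valuation.ne_zero_iff _).2 ((map_ne_zero _).2 hz))
  have a := cl_prod_OvMixV (u.valuation F) c1 c0 univ (fun g : F ≃ₐ[L] F => g t) fun g _ => by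
    have b := h (ac g⁻¹ u) (un_ac _ _)
    rwa [← val_ac g, ← val_ac g (ac g⁻¹ u) (algebraMap L F (1 - ζ)), ac_inv, map_sub g, map_one,
      AlgEquiv.commutes] at b
  rw [← Algebra.norm_eq_prod_automorphisms, ← map_one (algebraMap L F), ← map_sub,
    Sym2Aux.val_over ho, Sym2Aux.val_over ho, ← pow_mul, mul_comm, pow_mul] at a
  refine ⟨1, one_ne_zero, ?_⟩
  rw [one_pow, div_one]
  exact lt_of_pow_lt_pow_left' _ a

theorem norm_stmt (p : ℕ) [Fact p.Prime] (hN : NPStmt p) (hS : SymStmt p) (hP : SplitStmt p) :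
    NormStmt p := by
  classical
  intro L F _ _ _ _ _ _ ζ β θ σ hK v y hy
  by_cases hv : Tm p v
  · exact tame_PtNorm hS hP hK hv hy
  obtain ⟨s1, -, s3, s4, -⟩ := hS L ζ hK.two hK.prim
  have hn : ∀ {z : F}, z ≠ 0 → Algebra.norm L z ≠ 0 := fun hz => Algebra.norm_ne_zero_iff.2 hz
  have hz : 1 - ζ ≠ 0 :=
    sub_ne_zero.2 (hK.prim.ne_one (Fact.out : p.Prime).one_lt).symm
  let a : Pr F → F := fun u => if un L u = v then y else 1
  have ha : ∀ u, a u ≠ 0 := fun u => by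
    simp only [a]
    split_ifs
    exacts [hy, one_ne_zero]
  obtain ⟨y', h0, h1⟩ := R0Aux.wa' (finite_wild (l := p) (E := F)).toFinset a fun u =>
    WithZero.log (u.valuation F (algebraMap L F (1 - ζ)) ^ p * u.valuation F (a u)) - 1
  have h2 : ∀ u : Pr F, ¬ Tm p (un L u) →
      u.valuation F (y' / a u - 1) < u.valuation F (algebraMap L F (1 - ζ)) ^ p := fun u hu => by
    have b0 : u.valuation F (a u) ≠ 0 := (Valuation.ne_zero_iff _).2 (ha u)
    have c0 : u.valuation F (algebraMap L F (1 - ζ)) ^ p ≠ 0 :=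
      pow_ne_zero _ ((Valuation.ne_zero_iff _).2 ((map_ne_zero _).2 hz))
    have b := h1 u (by simpa using fun e => hu ((tm_over (over_un (K := L) u)).1 e))
    rw [div_sub_one (ha u), map_div₀, div_lt_iff₀ (zero_lt_iff.2 b0)]
    refine b.trans_lt ?_
    conv_rhs => rw [← WithZero.exp_log (mul_ne_zero c0 b0)]
    exact WithZero.exp_lt_exp.2 (sub_one_lt _)
  have h3 : NP p ζ v (Algebra.norm L (y' / y)) := near_PtNorm hK.prim hv fun u e => by
    simpa only [a, if_pos e] using h2 u (e ▸ hv)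
  have h4 := s4 {v} _ β (hn h0) hK.ne fun w hw => by
    by_cases ht : Tm p w
    · exact tame_PtNorm hS hP hK ht h0
    refine s3 w _ β hK.ne (near_PtNorm hK.prim ht fun u e => ?_)
    have e' : ¬ un L u = v := fun e2 => hw (mem_singleton.2 (e.symm.trans e2))
    simpa only [a, if_neg e', div_one] using h2 u (e ▸ ht)
  rw [sum_singleton, ← mul_div_cancel₀ y' hy, map_mul,
    s1 v _ _ β (hn hy) (hn (div_ne_zero h0 hy)) hK.ne, s3 v _ β hK.ne h3, add_zero] at h4
  exact h4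

end Pool.Agent.MP_f68ac8_nt.Pt
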