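import Mathlib
import Pool.Agent.MP_f68ac8_nt.PtAux
import Pool.Agent.MP_14ad9d_nt.Full.WC
import Pool.Agent.MP_14ad9d_nt.Full.R01
import Pool.Agent.MP_14ad9d_nt.Full.FI1
import Pool.Agent.MP_14ad9d_nt.Full.Inst

/-! Duality for units away from a finite set of primes. -/

namespace Pool.Agent.MP_f68ac8_nt.Pt

open Ev Pv NumberField Module Finset
open Pool.Agent.MP_14ad9d_nt.Full

theorem core_PtPT {k H M : Type} [Field k] [AddCommGroup H] [Module k H] [FiniteDimensional k H]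
    [AddCommGroup M] [Module k M] (B : LinearMap.BilinForm k H) (hB : ∀ x y, B y x = -B x y)
    (φ : M →ₗ[k] H) (h0 : ∀ c c', B (φ c) (φ c') = 0) (h1 : ∀ c, (∀ x, B x (φ c) = 0) → c = 0)
    (hd : finrank k H ≤ 2 * finrank k M) :
    (∀ y, (∀ x, B x y = 0) → y = 0) ∧ ∀ y, (∀ c, B (φ c) y = 0) → ∃ c, φ c = y := by
  have hk : ∀ y, y ∈ LinearMap.ker B ↔ ∀ x, B x y = 0 := fun y => by
    rw [LinearMap.mem_ker, LinearMap.ext_iff]
    exact forall_congr' fun x => by rw [hB x y, LinearMap.zero_apply, neg_eq_zero]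
  have ho : ∀ y, y ∈ B.orthogonal (LinearMap.range φ) ↔ ∀ c, B (φ c) y = 0 := fun y => by
    rw [LinearMap.BilinForm.mem_orthogonal_iff]
    exact ⟨fun h c => h _ ⟨c, rfl⟩, fun h _ ⟨c, e⟩ => e ▸ h c⟩
  have hi : Function.Injective φ := (injective_iff_map_eq_zero φ).2 fun c e =>
    h1 c fun x => by rw [e, map_zero]
  have e1 : LinearMap.range φ ⊓ LinearMap.ker B = ⊥ := eq_bot_iff.2 fun _ ⟨⟨c, e⟩, h⟩ => by
    rw [← e, h1 c ((hk _).1 (e ▸ h)), map_zero]
    exact zero_mem _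
  have e2 := LinearMap.BilinForm.finrank_add_finrank_orthogonal' (B := B) (LinearMap.range φ)
  have e3 := Submodule.finrank_sup_add_finrank_inf_eq (LinearMap.range φ) (LinearMap.ker B)
  have l1 : LinearMap.range φ ≤ B.orthogonal (LinearMap.range φ) := fun _ ⟨c, e⟩ =>
    (ho _).2 fun c' => e ▸ h0 c' c
  have l2 := Submodule.finrank_mono
    (sup_le l1 fun y hy => (ho y).2 fun c => (hk y).1 hy _ : _ ⊔ LinearMap.ker B ≤ _)
  rw [e1, finrank_bot, LinearMap.finrank_range_of_inj hi] at e2 e3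
  refine ⟨fun y hy => ?_, fun y hy => ?_⟩
  · have : LinearMap.ker B = ⊥ := Submodule.finrank_eq_zero.1 (by omega)
    exact (Submodule.mem_bot k).1 (this ▸ (hk y).2 hy)
  · have := Submodule.eq_of_le_of_finrank_le l1 (by rw [LinearMap.finrank_range_of_inj hi]; omega)
    exact LinearMap.mem_range.1 (this ▸ (ho y).2 hy)

theorem dim_PtPT {k V : Type} [Field k] [AddCommGroup V] [Module k V] (n : ℕ)
    (h : ∀ x : Fin (n + 1) → V, ∃ c : Fin (n + 1) → k, c ≠ 0 ∧ ∑ i, c i • x i = 0) :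
    FiniteDimensional k V ∧ finrank k V ≤ n := by
  have h1 : Module.rank k V ≤ n := by
    by_contra hn
    obtain ⟨x, hx⟩ := exists_linearIndependent_of_le_rank (R := k) (M := V) (n := n + 1) (by
      rw [Nat.cast_succ, ← Cardinal.succ_natCast]
      exact Order.succ_le_of_lt (not_le.1 hn))
    obtain ⟨c, h0, hc⟩ := h x
    exact h0 (funext (Fintype.linearIndependent_iff.1 hx c hc))
  exact ⟨Module.rank_lt_aleph0_iff.1 (h1.trans_lt Cardinal.natCast_lt_aleph0),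
    finrank_le_of_rank_le h1⟩

theorem lin_PtPT {k V M ι : Type} [Field k] [AddCommGroup V] [Module k V] [AddCommGroup M]
    [Module k M] [Fintype ι] (N : ι → Submodule k V) (b : ι → V →ₗ[k] V →ₗ[k] k) (n : ι → ℕ)
    (hb : ∀ i x y, b i y x = -b i x y) (hN : ∀ i, ∀ x ∈ N i, ∀ y, b i x y = 0)
    (hn : ∀ i, ∀ x : Fin (n i + 1) → V, ∃ c : Fin (n i + 1) → k, c ≠ 0 ∧ ∑ j, c j • x j ∈ N i)
    (ψ : M →ₗ[k] V) (h0 : ∀ c c', ∑ i, b i (ψ c) (ψ c') = 0)
    (h1 : ∀ c, (∀ i x, b i x (ψ c) = 0) → c = 0) (hd : ∑ i, n i ≤ 2 * finrank k M) :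
    (∀ i y, (∀ x, b i x y = 0) → y ∈ N i) ∧
      ∀ y : ι → V, (∀ c, ∑ i, b i (ψ c) (y i) = 0) → ∃ c, ∀ i, ψ c - y i ∈ N i := by
  classical
  have hf : ∀ i, FiniteDimensional k (V ⧸ N i) ∧ finrank k (V ⧸ N i) ≤ n i := fun i =>
    dim_PtPT _ fun x => by
      choose x' hx' using fun j => (N i).mkQ_surjective (x j)
      obtain ⟨c, h2, h3⟩ := hn i x'
      refine ⟨c, h2, ?_⟩
      rw [← Submodule.Quotient.mk_eq_zero, ← Submodule.mkQ_apply, map_sum] at h3
      simpa only [map_smul, hx'] using h3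
  have := fun i => (hf i).1
  let q : ∀ i, (V ⧸ N i) →ₗ[k] (V ⧸ N i) →ₗ[k] k := fun i => (b i).liftQ₂ (N i) (N i)
    (fun x hx => LinearMap.ext (hN i x hx))
    fun x hx => LinearMap.ext fun y => by
      rw [LinearMap.flip_apply, hb, hN i x hx, neg_zero, LinearMap.zero_apply]
  have hq : ∀ i x y, q i ((N i).mkQ x) ((N i).mkQ y) = b i x y := fun _ _ _ => rfl
  let B : LinearMap.BilinForm k (∀ i, V ⧸ N i) :=
    ∑ i, (q i).compl₁₂ (LinearMap.proj i) (LinearMap.proj i)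
  have hB : ∀ x y, B x y = ∑ i, q i (x i) (y i) := fun x y => by
    simp only [B, LinearMap.sum_apply, LinearMap.compl₁₂_apply, LinearMap.proj_apply]
  have hs : ∀ i x y, B (Pi.single i x) y = q i x (y i) := fun i x y => by
    rw [hB, sum_eq_single i (fun j _ hj => by rw [Pi.single_eq_of_ne hj, map_zero,
      LinearMap.zero_apply]) (by simp), Pi.single_eq_same]
  have hs' : ∀ i x y, B x (Pi.single i y) = q i (x i) y := fun i x y => by
    rw [hB, sum_eq_single i (fun j _ hj => by rw [Pi.single_eq_of_ne hj, map_zero]) (by simp),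
      Pi.single_eq_same]
  obtain ⟨c1, c2⟩ := core_PtPT B (fun x y => by
      rw [hB, hB, ← sum_neg_distrib]
      refine sum_congr rfl fun i _ => ?_
      obtain ⟨x', e⟩ := (N i).mkQ_surjective (x i)
      obtain ⟨y', e'⟩ := (N i).mkQ_surjective (y i)
      rw [← e, ← e', hq, hq, hb])
    (LinearMap.pi fun i => (N i).mkQ ∘ₗ ψ) (fun c c' => (hB _ _).trans (h0 c c'))
    (fun c h => h1 c fun i x => (hs i _ _).symm.trans (h (Pi.single i ((N i).mkQ x))))
    (by rw [finrank_pi_fintype]; exact (sum_le_sum fun i _ => (hf i).2).trans hd)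
  refine ⟨fun i y h => ?_, fun y h => ?_⟩
  · have h2 := congrFun (c1 (Pi.single i ((N i).mkQ y)) fun x => by
      obtain ⟨x', e⟩ := (N i).mkQ_surjective (x i)
      rw [hs', ← e, hq, h]) i
    rw [Pi.single_eq_same] at h2
    exact (Submodule.Quotient.mk_eq_zero _).1 h2
  · obtain ⟨c, hc⟩ := c2 (fun i => (N i).mkQ (y i)) fun c => (hB _ _).trans (h c)
    exact ⟨c, fun i => (Submodule.Quotient.eq _).1 (congrFun hc i)⟩

variable {p : ℕ} [Fact p.Prime] {L : Type} [Field L] [NumberField L] {ζ : L}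

theorem su_prod_PtPT {S : Set (Pr L)} {ι : Type} (s : Finset ι) {x : ι → L} (h : ∀ i, SU S (x i))
    (n : ι → ℕ) : SU S (∏ i ∈ s, x i ^ n i) :=
  prod_induction _ _ (fun _ _ ha hb => ⟨mul_ne_zero ha.1 hb.1, fun v hv => by
      rw [ord_mul v ha.1 hb.1, ha.2 v hv, hb.2 v hv, add_zero]⟩)
    ⟨one_ne_zero, fun v _ => ord_one v⟩ fun i _ => ⟨pow_ne_zero _ (h i).1, fun v hv => by
      rw [ord_pow, (h i).2 v hv, mul_zero]⟩

theorem cls_prod_PtPT {ι : Type} [Fintype ι] {x : ι → L} (h : ∀ i, x i ≠ 0) (c : ι → ZMod p) :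
    cls p (∏ i, x i ^ (c i).val) = ∑ i, c i • cls p (x i) := by
  rw [InstAux.cls_prod _ _ fun i _ => pow_ne_zero _ (h i)]
  refine sum_congr rfl fun i _ => ?_
  rw [InstAux.cls_pow (h i), ← Nat.cast_smul_eq_nsmul (ZMod p), ZMod.natCast_zmod_val]

theorem unr_PtPT (hp : 2 < p) (hζ : IsPrimitiveRoot ζ p) {v : Pr L} (hv : Tm p v) {x y : L}
    (hx : x ≠ 0) (hy : y ≠ 0) (h0 : ord v x = 0) (h1 : ord v y = 0) : sym p ζ v x y = 0 := by
  rw [sym, if_pos hv]
  exact tame_unr hp hζ hv hx hy (h0 ▸ dvd_zero _) (h1 ▸ dvd_zero _)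

theorem rad_PtPT (hS : SymStmt p) (hV : VUStmt p) (hp : 2 < p) (hζ : IsPrimitiveRoot ζ p)
    {S : Finset (Pr L)} (hw : ∀ v, ¬ Tm p v → v ∈ S) (hG : Gen p (S : Set (Pr L))) {z : L}
    (hz : SU (S : Set (Pr L)) z) (h : ∀ v ∈ S, ∀ x, x ≠ 0 → sym p ζ v x z = 0) :
    ∃ d, z = d ^ p := by
  classical
  by_contra hn
  obtain ⟨w, ⟨-, ht, h0, hc⟩, hwS⟩ :=
    (wc1 hp hζ fun d e => hn ⟨d, e⟩).exists_notMem_finset S
  obtain ⟨n, y, hn, hy, ho⟩ := (hV L).2.1 _ hG (Finsupp.single w 1)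
  have h1 := (hS L ζ hp hζ).2.2.2.1 (insert w S) y z hy hz.1 fun v hv => by
    rw [mem_insert, not_or] at hv
    refine unr_PtPT hp hζ (by_contra fun h => hv.2 (hw v h)) hy hz.1 ?_ (hz.2 v hv.2)
    rw [ho v hv.2, Finsupp.single_eq_of_ne hv.1, mul_zero]
  rw [sum_insert hwS, sum_eq_zero fun v hv => h v hv y hy, add_zero, sym, if_pos ht,
    tame_swap hp hζ ht hz.1 hy, neg_eq_zero, tame_unit hp hζ ht hz.1 h0, ho w hwS,
    Finsupp.single_eq_same, mul_one, Int.cast_natCast, mul_eq_zero, ZMod.natCast_eq_zero_iff] at h1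
  exact h1.elim hn hc

theorem bil_PtPT (hS : SymStmt p) (hp : 2 < p) (hζ : IsPrimitiveRoot ζ p) (v : Pr L) :
    ∃ b : Hm p L →ₗ[ZMod p] Hm p L →ₗ[ZMod p] ZMod p,
      ∀ x y : L, x ≠ 0 → y ≠ 0 → b (cls p x) (cls p y) = sym p ζ v x y := by
  obtain ⟨s1, s2, -⟩ := hS L ζ hp hζ
  have key : ∀ x : L, ∃ f : Hm p L →ₗ[ZMod p] ZMod p,
      x ≠ 0 → ∀ y, y ≠ 0 → f (cls p y) = sym p ζ v x y := fun x => by
    rcases eq_or_ne x 0 with rfl | hx
    · exact ⟨0, fun h => absurd rfl h⟩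
    · obtain ⟨f, hf⟩ := InstAux.exists_lift (l := p) (fun y : L => sym p ζ v x y)
        fun y y' hy hy' => by
          rw [s2 v _ x (mul_ne_zero hy hy') hx, s1 v y y' x hy hy' hx, s2 v y x hy hx,
            s2 v y' x hy' hx, neg_add]
      exact ⟨f, fun _ => hf⟩
  choose T hT using key
  obtain ⟨b, hb⟩ := InstAux.exists_lift (l := p) T fun x x' hx hx' => InstAux.lin_ext fun y hy => by
    rw [LinearMap.add_apply, hT _ (mul_ne_zero hx hx') y hy, hT _ hx y hy, hT _ hx' y hy,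
      s1 v x x' y hx hx' hy]
  exact ⟨b, fun x y hx hy => by rw [hb x hx, hT x hx y hy]⟩

theorem main_PtPT (hN : NPStmt p) (hS : SymStmt p) (hE : EfStmt p) (hI : IdxStmt p)
    (hU : SUnitStmt p) (hV : VUStmt p) (hp : 2 < p) (hζ : IsPrimitiveRoot ζ p)
    {S : Finset (Pr L)} (hw : ∀ v, ¬ Tm p v → v ∈ S) (hG : Gen p (S : Set (Pr L))) :
    (∀ v ∈ S, ∀ y, y ≠ 0 → (∀ x, x ≠ 0 → sym p ζ v x y = 0) → NP p ζ v y) ∧
      ∀ y : Pr L → L, (∀ v, y v ≠ 0) →
      (∀ x, SU (S : Set (Pr L)) x → ∑ v ∈ S, sym p ζ v x (y v) = 0) →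
      ∃ z, SU (S : Set (Pr L)) z ∧ ∀ v ∈ S, NP p ζ v (z / y v) := by
  classical
  obtain ⟨-, n2, -, n4, -⟩ := hN L ζ hp hζ
  obtain ⟨-, s2, s3, s4, -⟩ := hS L ζ hp hζ
  obtain ⟨r, hr, u, hu, hi⟩ := hU L ζ hp hζ S
  choose b hb using bil_PtPT hS hp hζ
  choose N hN' using fun v : Pr L => InstAux.exists_sub (l := p) (NP p ζ v)
    (fun x y _ _ => n2 v x y) (n4 v)
  have hz := fun c : Fin (r + S.card) → ZMod p => su_prod_PtPT univ hu fun i => (c i).val
  have hψ : ∀ c, Fintype.linearCombination (ZMod p) (fun i => cls p (u i)) c =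
      cls p (∏ i, u i ^ (c i).val) := fun c => by
    rw [cls_prod_PtPT fun i => (hu i).1, Fintype.linearCombination_apply]
  obtain ⟨c1, c2⟩ := lin_PtPT (ι := S) (fun v => N v) (fun v => b v)
    (fun v => if Tm p v.1 then 2 else ef v.1 + 2)
    (fun v x y => by
      obtain ⟨x, hx, rfl⟩ := cls_surj x
      obtain ⟨y, hy, rfl⟩ := cls_surj y
      rw [hb _ _ _ hy hx, hb _ _ _ hx hy, s2 _ _ _ hx hy])
    (fun v x h y => by
      obtain ⟨x, hx, rfl⟩ := cls_surj x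
      obtain ⟨y, hy, rfl⟩ := cls_surj y
      rw [hb _ _ _ hx hy, s3 _ _ _ hy ((hN' _ x hx).1 h)])
    (fun v x => by
      choose x' h0 hx' using fun j => cls_surj (x j)
      obtain ⟨c, h1, h2⟩ := hI L ζ hp hζ v.1 _ (by by_cases h : Tm p v.1 <;> simp [h]) x' h0
      refine ⟨c, h1, ?_⟩
      have h3 := (hN' v.1 _ (prod_ne_zero_iff.2 fun i _ => pow_ne_zero _ (h0 i))).2 h2
      rw [cls_prod_PtPT h0] at h3
      simpa only [hx'] using h3)
    (Fintype.linearCombination (ZMod p) fun i => cls p (u i))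
    (fun c c' => by
      simp only [hψ, hb _ _ _ (hz c).1 (hz c').1]
      rw [sum_coe_sort S fun v => sym p ζ v _ _]
      exact s4 S _ _ (hz c).1 (hz c').1 fun v hv => unr_PtPT hp hζ
        (by_contra fun h => hv (hw v h)) (hz c).1 (hz c').1 ((hz c).2 v hv) ((hz c').2 v hv))
    (fun c h => hi c (rad_PtPT hS hV hp hζ hw hG (hz c) fun v hv x hx => by
      rw [← hb v _ _ hx (hz c).1, ← hψ]
      exact h ⟨v, hv⟩ _))
    (by
      have h1 := (hE L).2 (S.filter fun v => ¬ Tm p v) fun v => by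
        rw [mem_filter]
        exact ⟨fun h => h.2, fun h => ⟨hw v h, h⟩⟩
      rw [finrank_fin_fun, sum_coe_sort S fun v => if Tm p v then 2 else ef v + 2, mul_add, hr,
        ← h1, sum_filter, mul_comm, ← smul_eq_mul, ← sum_const, ← sum_add_distrib]
      refine sum_le_sum fun v _ => ?_
      by_cases h : Tm p v <;> simp [h])
  refine ⟨fun v hv y hy h => (hN' v y hy).1 (c1 ⟨v, hv⟩ _ fun x => ?_), fun y hy h => ?_⟩
  · obtain ⟨x, hx, rfl⟩ := cls_surj x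
    rw [hb _ _ _ hx hy]
    exact h x hx
  · obtain ⟨c, hc⟩ := c2 (fun v => cls p (y v)) fun c => by
      simp only [hψ, fun v => hb v _ _ (hz c).1 (hy v)]
      rw [sum_coe_sort S fun v => sym p ζ v _ (y v)]
      exact h _ (hz c)
    refine ⟨_, hz c, fun v hv => (hN' v _ (div_ne_zero (hz c).1 (hy v))).1 ?_⟩
    have h1 := hc ⟨v, hv⟩
    have h2 := cls_mul (l := p) (div_ne_zero (hz c).1 (hy v)) (hy v)
    rw [div_mul_cancel₀ _ (hy v)] at h2
    rwa [hψ, h2, add_sub_cancel_right] at h1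

theorem pt_stmt (p : ℕ) [Fact p.Prime] (hN : NPStmt p) (hS : SymStmt p) (hE : EfStmt p)
    (hI : IdxStmt p) (hU : SUnitStmt p) (hV : VUStmt p) : PTStmt p := by
  classical
  intro L _ _ ζ hp hζ
  refine ⟨fun v y hy h => ?_, fun S hw hG => (main_PtPT hN hS hE hI hU hV hp hζ hw hG).2⟩
  obtain ⟨S, hG⟩ := (hV L).1
  by_contra hn
  refine h ((main_PtPT hN hS hE hI hU hV hp hζ
    (S := insert v ((finite_wild (l := p) (E := L)).toFinset ∪ S)) (fun w hw => by simp [hw])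
    fun χ h1 h2 => hG χ h1 fun w hw => h2 w (by simp [mem_coe.1 hw])).1 v (mem_insert_self _ _) y hy
    fun x hx => by_contra fun h3 => hn ⟨x, hx, h3⟩)

end Pool.Agent.MP_f68ac8_nt.Pt
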