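import Mathlib
import Pool.Agent.MP_f68ac8_nt.PtAux
import Pool.Agent.MP_f68ac8_nt.OvLocP
import Pool.Agent.MP_f68ac8_nt.QvLocC
import Pool.Agent.MP_f68ac8_nt.QvEig
import Pool.Agent.MP_f68ac8_nt.EvRam
import Pool.Agent.MP_14ad9d_nt.Full.WC
import Pool.Agent.MP_14ad9d_nt.Full.R02

namespace Pool.Agent.MP_f68ac8_nt.Pt
open Ev Pv

open NumberField Module Finset
open Pool.Agent.MP_14ad9d_nt.Full
open Pool.Agent.MP_14ad9d_nt.Full.FIAux (un over_un)

section
variable {p : ℕ} [hp : Fact p.Prime] {L F : Type} [Field L] [NumberField L] [Field F]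
  [NumberField F] [Algebra L F] {ζ β : L} {θ : F} {σ : F ≃ₐ[L] F}

omit [NumberField L] [NumberField F] in
lemma ne_PtSplit (h : Kum p ζ β θ σ) : σ ≠ 1 := by
  intro h1
  have h0 : θ ≠ 0 := fun h0 => by
    have := h.pow
    rw [h0, zero_pow hp.out.ne_zero, eq_comm, map_eq_zero] at this
    exact h.ne this
  have h2 := h.act
  rw [h1, AlgEquiv.one_apply, eq_comm, mul_eq_right₀ h0, map_eq_one_iff _ (algebraMap L F).injective]
    at h2
  exact h.prim.ne_one hp.out.one_lt h2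

omit hp in
lemma card_PtSplit [IsGalois L F] (h : Kum p ζ β θ σ) : Nat.card (F ≃ₐ[L] F) = p := by
  rw [IsGalois.card_aut_eq_finrank, h.deg]

lemma res_PtSplit (u : Pr F) (hf : u.asIdeal.inertiaDeg (𝓞 L) = 1) (a : 𝓞 F) :
    ∃ c : 𝓞 L, u.valuation F (a - algebraMap L F c) < 1 := by
  have h1 := absNorm_over (over_un (K := L) u)
  rw [hf, pow_one, ← Sym1Aux.card_res, ← Sym1Aux.card_res] at h1
  have := Sym1Aux.finite_res u
  have h2 := (Ideal.quotientMap_injective' (J := (un L u).asIdeal) (I := u.asIdeal)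
    (f := algebraMap (𝓞 L) (𝓞 F)) (H := le_rfl) le_rfl).bijective_of_nat_card_le h1.le
  obtain ⟨c, hc⟩ := h2.2 (Ideal.Quotient.mk _ a)
  obtain ⟨c, rfl⟩ := Ideal.Quotient.mk_surjective c
  exact ⟨c, (Sym1Aux.val_int_lt u (a - algebraMap _ _ c)).2 (Ideal.Quotient.eq.1 hc.symm)⟩

omit hp in
lemma dvd_PtSplit (h : Kum p ζ β θ σ) {u : Pr F} (he : u.asIdeal.ramificationIdx (𝓞 L) = 1) :
    (∀ x : L, ord u (algebraMap L F x) = ord (un L u) x) ∧ (p : ℤ) ∣ ord (un L u) β := by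
  have h1 : ∀ x : L, ord u (algebraMap L F x) = ord (un L u) x := fun x => by
    rw [ord_over (over_un u), he, Nat.cast_one, one_mul]
  exact ⟨h1, ord u θ, by rw [← h1, ← h.pow, ord_pow]⟩

lemma move_PtSplit (h : Kum p ζ β θ σ) {u : Pr F} (hn : NP p ζ (un L u) β) : σ • u ≠ u := by
  intro hu
  obtain ⟨γ, -, hγ⟩ := hn
  have hz := h.prim.map_of_injective (algebraMap L F).injective
  have h1 := pow_lt_pow_left₀ hγ zero_le (u.asIdeal.ramificationIdx_pos (𝓞 L)).ne'
  rw [← pow_mul, mul_comm, pow_mul, ← Sym2Aux.val_over (over_un u), ← Sym2Aux.val_over (over_un u),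
    map_sub, map_sub (algebraMap L F), map_one, map_div₀, map_pow, ← h.pow, ← div_pow] at h1
  obtain ⟨i, hi⟩ := Qv.root_QvLocC _ hp.out hz h1
  have h2 := Qv.val_stab_QvEig hu (θ / algebraMap L F γ - algebraMap L F ζ ^ i)
  rw [map_sub, map_div₀, map_pow, σ.commutes, σ.commutes, h.act, mul_div_assoc] at h2
  generalize θ / algebraMap L F γ = y at hi h2
  have h3 := Sym1Aux.val_root (u.valuation F) hp.out.ne_zero hz.pow_eq_one
  have h4 : u.valuation F y = 1 :=
    Sym1Aux.val_eq_one_of _ (by rw [map_pow, h3, one_pow]) (Sym1Aux.val_symm _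
      (hi.trans_le (Valuation.map_sub_le _ (map_one _).le h3.le)))
  have h5 := (u.valuation F).map_sub_lt hi (h2.trans_lt hi)
  rw [sub_sub_sub_cancel_right, ← one_sub_mul, map_mul, h4, mul_one] at h5
  exact h5.false

lemma np_PtSplit [IsGalois L F] (hN : NPStmt p) (h : Kum p ζ β θ σ) {u : Pr F} (hu : σ • u ≠ u) :
    NP p ζ (un L u) β := by
  have ho := over_un (K := L) u
  obtain ⟨h1, h2⟩ := dvd_PtSplit h (R0Aux.e_one_of_ne h.deg ho hu)
  have hf := (WCAux.split_of_ne hp.out h.deg ho (WCAux.act_over σ ho) hu).2 _ ⟨u.isPrime, ho⟩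
  by_cases hv : Tm p (un L u)
  · refine ((hN L ζ h.two h.prim).2.2.2.2.2.1 _ β hv h.ne).2 fun y hy => ?_
    obtain ⟨ϖ, h0, h3⟩ := exists_ord_eq_one (un L u)
    have h0' : (ϖ : L) ≠ 0 := by simpa using h0
    have h4 := R0Aux.tame_of_root h.two h.prim h.ne h.pow hv h2 h0' h3 ho
    rw [hf, Nat.cast_one, one_mul] at h4
    rw [tame_swap h.two h.prim hv h.ne hy, R0Aux.tame_eq_mul h.two h.prim hv h.ne hy h0' h3 h2, h4,
      mul_zero, neg_zero]
  · exact split_OvLocP (algebraMap L F) h1 h.prim (not_not.1 hv) (res_PtSplit u hf) h.ne h.pow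

end

theorem split_stmt (p : ℕ) [Fact p.Prime] (hN : NPStmt p) : SplitStmt p := by
  intro L F _ _ _ _ _ _ ζ β θ σ h
  have hc := card_PtSplit h
  have h1 := ne_PtSplit h
  have h2 : ∀ τ : F ≃ₐ[L] F, τ ∈ Subgroup.zpowers σ := fun _ => mem_zpowers_of_prime_card hc h1
  have h3 : orderOf σ = p := by rw [orderOf_eq_card_of_forall_mem_zpowers h2, hc]
  refine ⟨h2, h3, fun u => ⟨fun hu hn => move_PtSplit h hn hu,
    fun hn => by_contra fun hu => hn (np_PtSplit hN h hu)⟩, fun u hu => dvd_PtSplit h ?_,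
    fun y => ?_⟩
  · have := u.isMaximal
    have : Fact (Nat.card (F ≃ₐ[L] F)).Prime := hc ▸ inferInstance
    rw [card_e_EvRam, Subgroup.card_eq_one]
    exact (Subgroup.eq_bot_or_eq_top_of_prime_card _).resolve_right fun e => hu (e ▸ trivial)
  · classical
    rw [Algebra.norm_eq_prod_automorphisms, ← h3, ← IsCyclic.image_range_orderOf h2,
      prod_image (by simpa only [coe_range] using pow_injOn_Iio_orderOf)]

end Pool.Agent.MP_f68ac8_nt.Pt
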