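import Mathlib
import Pool.Agent.MP_f68ac8_nt.PtAux
import Pool.Agent.MP_f68ac8_nt.OvMix
import Pool.Agent.MP_f68ac8_nt.OvMixV
import Pool.Agent.MP_14ad9d_nt.Full.R01
import Pool.Agent.MP_14ad9d_nt.Full.Sym2

namespace Pool.Agent.MP_f68ac8_nt.Pt

open Ev Pv NumberField IsDedekindDomain
open Pool.Agent.MP_14ad9d_nt.Full Pool.Agent.MP_14ad9d_nt.Full.R0Aux

section

variable {p : ℕ} [Fact p.Prime] {L : Type} [Field L] [NumberField L] {ζ : L}

omit [Fact p.Prime] in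
theorem near_PtSym (hH : HensStmt p) (hl : 2 < p) (hζ : IsPrimitiveRoot ζ p) {v : Pr L}
    (hv : ¬Tm p v) {x : L} (h : NP p ζ v x) (k : ℕ) : NearAt p ζ k v x := by
  obtain ⟨γ, g0, hγ⟩ := h
  obtain ⟨δ, d0, hδ⟩ := hH L ζ hl hζ v hv _ hγ k
  exact ⟨γ * δ, mul_ne_zero g0 d0, by rwa [mul_pow, ← div_div]⟩

theorem eps_PtSym (hH : HensStmt p) (hl : 2 < p) (hζ : IsPrimitiveRoot ζ p) {v : Pr L}
    (hv : ¬Tm p v) {x : L} (h : NP p ζ v x) (y : L) :
    ∃ ε ε' : WithZero (Multiplicative ℤ), ε ≠ 0 ∧ ε' ≠ 0 ∧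
      (∃ δ : L, δ ≠ 0 ∧ v.valuation L (x / δ ^ p - 1) ≤ ε) ∧
      (∃ δ : L, δ ≠ 0 ∧ v.valuation L (y / δ ^ p - 1) ≤ ε') ∧
      ε * ε' < v.valuation L (1 - ζ) ^ p := by
  have hp : p.Prime := Fact.out
  have z1 : 1 - ζ ≠ 0 := sub_ne_zero.2 (hζ.ne_one hp.one_lt).symm
  have c0 : v.valuation L (1 - ζ) ≠ 0 := (Valuation.ne_zero_iff _).2 z1
  have e : max (v.valuation L (y - 1)) 1 ≠ 0 := (zero_lt_one.trans_le (le_max_right _ _)).ne'
  obtain ⟨k, hk⟩ := exists_pow_lt₀ (val_one_sub_lt hζ hv)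
    (Units.mk0 _ (div_ne_zero (pow_ne_zero p c0) e))
  refine ⟨_, _, pow_ne_zero k c0, e, near_PtSym hH hl hζ hv h k, ⟨1, one_ne_zero, ?_⟩,
    (lt_div_iff₀ (zero_lt_iff.2 e)).1 hk⟩
  rw [one_pow, div_one]
  exact le_max_left _ _

theorem mix_PtSym (hR : R1GStmt p) (hH : HensStmt p) (hl : 2 < p) (hζ : IsPrimitiveRoot ζ p)
    {x y : L} (hx : x ≠ 0) (hy : y ≠ 0) (h : ∀ v, ¬Tm p v → NP p ζ v x ∨ NP p ζ v y) :
    Phi p ζ x y = 0 := by
  set W := (finite_wild (l := p) (E := L)).toFinset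
  have mW : ∀ v, v ∈ W ↔ ¬Tm p v := fun v => Set.Finite.mem_toFinset _
  have key : ∀ v ∈ W, ∃ ε ε' : WithZero (Multiplicative ℤ), ε ≠ 0 ∧ ε' ≠ 0 ∧
      (∃ δ : L, δ ≠ 0 ∧ v.valuation L (x / δ ^ p - 1) ≤ ε) ∧
      (∃ δ : L, δ ≠ 0 ∧ v.valuation L (y / δ ^ p - 1) ≤ ε') ∧
      ε * ε' < v.valuation L (1 - ζ) ^ p := fun v hv => by
    rcases h v ((mW v).1 hv) with h | h
    · exact eps_PtSym hH hl hζ ((mW v).1 hv) h y
    · obtain ⟨ε, ε', a, b, c, d, e⟩ := eps_PtSym hH hl hζ ((mW v).1 hv) h x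
      exact ⟨ε', ε, b, a, d, c, by rwa [mul_comm]⟩
  choose! ε ε' e0 e1 e2 e3 e4 using key
  obtain ⟨γ, g0, hγ⟩ := approx_OvMix (l := p) W x ε e0 e2
  obtain ⟨δ, d0, hδ⟩ := approx_OvMix (l := p) W y ε' e1 e3
  have b1 := pow_ne_zero p g0
  have b2 := pow_ne_zero p d0
  have := semi_OvMix hR hH hl hζ (div_ne_zero hx b1) (div_ne_zero hy b2) fun v hv => by
    rw [map_mul]
    exact (mul_le_mul' (hγ v ((mW v).2 hv)) (hδ v ((mW v).2 hv))).trans_lt (e4 v ((mW v).2 hv))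
  rwa [Phi_div_right hl hζ (div_ne_zero hx b1) hy b2, Phi_ell_right hl hζ (div_ne_zero hx b1) d0,
    sub_zero, Phi_div_left hl hζ hx b1 hy, Phi_ell_left hl hζ g0 hy, sub_zero] at this

/-- the defining property of `ap` -/
def Good_PtSym (p : ℕ) (ζ : L) (v : Pr L) (x a : L) : Prop :=
  a ≠ 0 ∧ NP p ζ v (a / x) ∧ ∀ u, ¬Tm p u → u ≠ v → NP p ζ u a

theorem ap_PtSym (hN : NPStmt p) (hl : 2 < p) (hζ : IsPrimitiveRoot ζ p) {v : Pr L}
    (hv : ¬Tm p v) {x : L} (hx : x ≠ 0) : Good_PtSym p ζ v x (ap p ζ v x) := by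
  classical
  have h : ∃ y, y ≠ 0 ∧ NP p ζ v (y / x) ∧ ∀ u, ¬Tm p u → u ≠ v → NP p ζ u y := by
    obtain ⟨y, y0, hy⟩ := (hN L ζ hl hζ).2.2.2.2.1 (finite_wild (l := p) (E := L)).toFinset
      (fun u => if u = v then x else 1) fun u => by split_ifs; exacts [hx, one_ne_zero]
    refine ⟨y, y0, ?_, fun u hu huv => ?_⟩
    · simpa using hy v ((Set.Finite.mem_toFinset _).2 hv)
    · simpa [huv] using hy u ((Set.Finite.mem_toFinset _).2 hu)
  rw [ap, dif_pos h]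
  exact h.choose_spec

theorem wild_PtSym (hN : NPStmt p) (hR : R1GStmt p) (hH : HensStmt p) (hl : 2 < p)
    (hζ : IsPrimitiveRoot ζ p) {v : Pr L} (hv : ¬Tm p v) {x y a : L} (hx : x ≠ 0) (hy : y ≠ 0)
    (ha : Good_PtSym p ζ v x a) : sym p ζ v x y = -Phi p ζ a y := by
  obtain ⟨-, n2, n3, -⟩ := hN L ζ hl hζ
  obtain ⟨b0, b1, b2⟩ := ap_PtSym hN hl hζ hv hx
  obtain ⟨a0, a1, a2⟩ := ha
  have := mix_PtSym hR hH hl hζ (div_ne_zero a0 b0) hy fun u hu => Or.inl <| by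
    rcases eq_or_ne u v with rfl | huv
    · have := n2 _ _ _ a1 (n3 _ _ b1)
      rwa [show a / x * (ap p ζ u x / x)⁻¹ = a / ap p ζ u x by field_simp] at this
    · rw [div_eq_mul_inv]
      exact n2 _ _ _ (a2 u hu huv) (n3 _ _ (b2 u hu huv))
  rw [Phi_div_left hl hζ a0 b0 hy, sub_eq_zero] at this
  rw [sym, if_neg hv, this]

theorem tame_act_PtSym (hζ : IsPrimitiveRoot ζ p) (σ : L ≃+* L) {c : ℕ} (hc : σ ζ = ζ ^ c)
    {v : Pr L} (hv : Tm p v) {x y : L} (hx : x ≠ 0) (hy : y ≠ 0) :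
    tame p ζ (act σ v) (σ x) (σ y) = c * tame p ζ v x y := by
  have hx' : σ x ≠ 0 := by simpa using hx
  have hy' : σ y ≠ 0 := by simpa using hy
  have hv' := (tm_act σ p v).2 hv
  rw [← tame_act σ v x y, tame, tame,
    MP_14ad9d_nt.Full.chi_spec hζ hv' (Sym2Aux.unit_ne _ hx' hy') (Sym2Aux.unit_ord _ hx' hy')]
  have h := (MP_14ad9d_nt.Full.chi_spec (hζ.map_of_injective σ.injective) hv' (Sym2Aux.unit_ne _ hx' hy')
    (Sym2Aux.unit_ord _ hx' hy') _).1 rfl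
  generalize MP_14ad9d_nt.Full.chi p (σ ζ) (act σ v)
    (σ x ^ ord (act σ v) (σ y) / σ y ^ ord (act σ v) (σ x)) = j at h ⊢
  have e : ζ ^ ((c : ZMod p) * j).val = σ ζ ^ j.val := by
    rw [hc, ← pow_mul, pow_eq_pow_mod (c * j.val) hζ.pow_eq_one, ← ZMod.val_natCast]
    simp
  rwa [e]

theorem Phi_act_PtSym (hl : 2 < p) (hζ : IsPrimitiveRoot ζ p) (σ : L ≃+* L) {c : ℕ}
    (hc : σ ζ = ζ ^ c) {x y : L} (hx : x ≠ 0) (hy : y ≠ 0) :
    Phi p ζ (σ x) (σ y) = c * Phi p ζ x y := by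
  rw [Phi, Phi, mul_finsum' _ _ (tame_finite hl hζ x y)]
  let e : {v : Pr L // Tm p v} ≃ {v : Pr L // Tm p v} :=
    (HeightOneSpectrum.equivOfRingEquiv (RingOfIntegers.mapRingEquiv σ)).subtypeEquiv
      fun v => (tm_act σ p v).symm
  rw [← finsum_comp_equiv e]
  exact finsum_congr fun v => tame_act_PtSym hζ σ hc v.2 hx hy

theorem sum_PtSym (hN : NPStmt p) (hR : R1GStmt p) (hH : HensStmt p) (hl : 2 < p)
    (hζ : IsPrimitiveRoot ζ p) (S : Finset (Pr L)) {x y : L} (hx : x ≠ 0) (hy : y ≠ 0)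
    (h : ∀ v, v ∉ S → sym p ζ v x y = 0) : ∑ v ∈ S, sym p ζ v x y = 0 := by
  classical
  obtain ⟨-, n2, -, n4, -⟩ := hN L ζ hl hζ
  set W := (finite_wild (l := p) (E := L)).toFinset
  have mW : ∀ v, v ∈ W ↔ ¬Tm p v := fun v => Set.Finite.mem_toFinset _
  let a : Pr L → L := fun v => if Tm p v then 1 else ap p ζ v x
  have ha : ∀ v, ¬Tm p v → Good_PtSym p ζ v x (a v) := fun v hv => by
    simp only [a, if_neg hv]; exact ap_PtSym hN hl hζ hv hx
  have a0 : ∀ v, a v ≠ 0 := fun v => by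
    by_cases hv : Tm p v
    · simp [a, hv]
    · exact (ha v hv).1
  have p0 : ∏ v ∈ W, a v ≠ 0 := Finset.prod_ne_zero_iff.2 fun v _ => a0 v
  have h1 := mix_PtSym hR hH hl hζ (div_ne_zero p0 hx) hy fun u hu => Or.inl <| by
    rw [← Finset.mul_prod_erase W a ((mW u).2 hu), mul_div_right_comm]
    refine n2 _ _ _ (ha u hu).2.1 (Finset.prod_induction _ _ (n2 u) ?_ fun w hw => ?_)
    · simpa using n4 u 1 one_ne_zero
    · obtain ⟨h1, h2⟩ := Finset.mem_erase.1 hw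
      exact (ha w ((mW w).1 h2)).2.2 u hu h1.symm
  rw [Phi_div_left hl hζ p0 hx hy, Phi_prod_left_OvMixV hl hζ W a a0 hy, sub_eq_zero] at h1
  have h2 : ∑ v ∈ S.filter (Tm p), sym p ζ v x y = Phi p ζ x y := by
    rw [Phi, finsum_eq_sum_of_support_subset (s := S.subtype (Tm p)),
      Finset.sum_subtype_eq_sum_filter (f := fun v => tame p ζ v x y)]
    · exact Finset.sum_congr rfl fun v hv => by rw [sym, if_pos (Finset.mem_filter.1 hv).2]
    · intro v hv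
      by_contra hS
      have := h v.1 (by simpa using hS)
      rw [sym, if_pos v.2] at this
      exact hv this
  have h3 : ∑ v ∈ S.filter (fun v => ¬Tm p v), sym p ζ v x y = ∑ v ∈ W, -Phi p ζ (a v) y := by
    rw [← Finset.sum_congr rfl fun v hv =>
      wild_PtSym hN hR hH hl hζ ((mW v).1 hv) hx hy (ha v ((mW v).1 hv))]
    refine Finset.sum_subset (fun v hv => (mW v).2 (Finset.mem_filter.1 hv).2) fun v hv hS => ?_
    exact h v fun hv' => hS (Finset.mem_filter.2 ⟨hv', (mW v).1 hv⟩)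
  rw [← Finset.sum_filter_add_sum_filter_not S (Tm p), h2, h3, Finset.sum_neg_distrib, h1,
    add_neg_cancel]

end

theorem sym_stmt (p : ℕ) [Fact p.Prime] (hN : NPStmt p) (hR : R1GStmt p) (hH : HensStmt p) :
    SymStmt p := by
  intro L _ _ ζ hl hζ
  obtain ⟨n1, n2, n3, n4, -, n6, n7⟩ := hN L ζ hl hζ
  have n0 : ∀ u, NP p ζ u 1 := fun u => by simpa using n4 u 1 one_ne_zero
  refine ⟨fun v x x' y hx hx' hy => ?_, fun v x y hx hy => ?_, fun v x y hy h => ?_,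
    fun S x y hx hy h => sum_PtSym hN hR hH hl hζ S hx hy h, fun σ c hc v x y hx hy => ?_⟩
  · by_cases hv : Tm p v
    · simp only [sym, if_pos hv]
      exact tame_mul_left hl hζ hv hx hx' hy
    · have ha := ap_PtSym hN hl hζ hv hx
      have hb := ap_PtSym hN hl hζ hv hx'
      rw [wild_PtSym hN hR hH hl hζ hv hx hy ha, wild_PtSym hN hR hH hl hζ hv hx' hy hb,
        wild_PtSym hN hR hH hl hζ hv (mul_ne_zero hx hx') hy (a := ap p ζ v x * ap p ζ v x')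
          ⟨mul_ne_zero ha.1 hb.1, by rw [mul_div_mul_comm]; exact n2 _ _ _ ha.2.1 hb.2.1,
            fun u hu huv => n2 _ _ _ (ha.2.2 u hu huv) (hb.2.2 u hu huv)⟩,
        Phi_mul_left hl hζ ha.1 hb.1 hy, neg_add]
  · by_cases hv : Tm p v
    · simp only [sym, if_pos hv]
      exact tame_swap hl hζ hv hx hy
    · have key : ∀ x y a b : L, y ≠ 0 → Good_PtSym p ζ v x a → Good_PtSym p ζ v y b →
          Phi p ζ a y = Phi p ζ a b := fun x y a b hy ha hb => by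
        have := mix_PtSym hR hH hl hζ ha.1 (div_ne_zero hb.1 hy) fun u hu => by
          rcases eq_or_ne u v with rfl | huv
          · exact Or.inr hb.2.1
          · exact Or.inl (ha.2.2 u hu huv)
        rw [Phi_div_right hl hζ ha.1 hb.1 hy, sub_eq_zero] at this
        exact this.symm
      have ha := ap_PtSym hN hl hζ hv hx
      have hb := ap_PtSym hN hl hζ hv hy
      rw [wild_PtSym hN hR hH hl hζ hv hx hy ha, wild_PtSym hN hR hH hl hζ hv hy hx hb,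
        key x y _ _ hy ha hb, key y x _ _ hx hb ha, Phi_swap hl hζ ha.1 hb.1]
  · have hx := (n1 v x h).1
    by_cases hv : Tm p v
    · rw [sym, if_pos hv, tame_swap hl hζ hv hy hx, (n6 v x hv hx).1 h y hy, neg_zero]
    · rw [wild_PtSym hN hR hH hl hζ hv hx hy (a := 1)
        ⟨one_ne_zero, by rw [one_div]; exact n3 _ _ h, fun u _ _ => n0 u⟩, neg_eq_zero]
      simpa using Phi_ell_left hl hζ one_ne_zero hy
  · by_cases hv : Tm p v
    · rw [sym, sym, if_pos hv, if_pos ((tm_act σ p v).2 hv)]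
      exact tame_act_PtSym hζ σ hc hv hx hy
    · obtain ⟨a0, a1, a2⟩ := ap_PtSym hN hl hζ hv hx
      rw [wild_PtSym hN hR hH hl hζ (fun h => hv ((tm_act σ p v).1 h)) (by simpa using hx)
        (by simpa using hy) (a := σ (ap p ζ v x))
        ⟨by simpa using a0, by rw [← map_div₀]; exact (n7 σ v _).2 a1, fun u hu huv => ?_⟩,
        Phi_act_PtSym hl hζ σ hc a0 hy, sym, if_neg hv, mul_neg]
      obtain ⟨w, rfl⟩ : ∃ w, act σ w = u :=
        (HeightOneSpectrum.equivOfRingEquiv (RingOfIntegers.mapRingEquiv σ)).surjective u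
      exact (n7 σ w _).2 (a2 w (fun h => hu ((tm_act σ p w).2 h)) fun e => huv (by rw [e]))

end Pool.Agent.MP_f68ac8_nt.Pt
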