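import Mathlib
import Pool.Agent.MP_f68ac8_nt.SyAux

namespace Pool.Agent.MP_f68ac8_nt.Sv

open Ev Pv
open Matrix Finset Polynomial

section
variable {k : Type} [Field k] {n : ℕ}

/-- conjugation -/
noncomputable def ad_SyH1 (A : GL (Fin n) k) : Mt n k →ₐ[k] Mt n k where
  toFun Y := A.val * Y * A⁻¹.val
  map_one' := by rw [mul_one, Units.mul_inv]
  map_mul' X Y := by simp only [mul_assoc, Units.inv_mul_cancel_left]
  map_zero' := by rw [mul_zero, zero_mul]
  map_add' X Y := by rw [mul_add, add_mul]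
  commutes' c := by rw [← Algebra.commutes, mul_assoc, Units.mul_inv, mul_one]

lemma app_SyH1 (A : GL (Fin n) k) (Y : Mt n k) : ad_SyH1 A Y = A.val * Y * A⁻¹.val := rfl

lemma eq_SyH1 {A B : GL (Fin n) k} {c : k} (h : A.val = c • B.val) (Y : Mt n k) :
    ad_SyH1 A Y = ad_SyH1 B Y := by
  rw [app_SyH1, app_SyH1, Units.mul_inv_eq_iff_eq_mul, h, Matrix.mul_smul, Matrix.smul_mul,
    Units.inv_mul_cancel_right]

lemma tr_SyH1 (A : GL (Fin n) k) (Y : Mt n k) : (ad_SyH1 A Y).trace = Y.trace := by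
  rw [app_SyH1, trace_mul_cycle, Units.inv_mul, one_mul]

/-- the commutant of a regular nilpotent matrix -/
lemma comm_SyH1 {M Y : Mt n k} (h0 : M ^ n = 0) (h1 : M ^ (n - 1) ≠ 0) (h : Commute Y M) :
    ∃ f : k[X], Y = aeval M f := by
  obtain ⟨v, hv⟩ : ∃ v, M ^ (n - 1) *ᵥ v ≠ 0 := by
    by_contra! hv
    exact h1 (Matrix.toLin'.injective (LinearMap.ext fun v => by
      rw [toLin'_apply, hv, map_zero, LinearMap.zero_apply]))
  have hi : LinearIndependent k fun j : Fin n => M ^ (j : ℕ) *ᵥ v := by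
    refine Fintype.linearIndependent_iff.2 fun c hc i => ?_
    induction i using WellFoundedLT.induction with
    | ind i ih =>
      have h2 := congrArg (M ^ (n - 1 - i) *ᵥ ·) hc
      simp only [mulVec_sum, mulVec_smul, mulVec_mulVec, ← pow_add, mulVec_zero] at h2
      rw [sum_eq_single i (fun j _ hj => ?_) (by simp),
        Nat.sub_add_cancel (Nat.le_sub_one_of_lt i.2)] at h2
      · exact (smul_eq_zero.1 h2).resolve_right hv
      · rcases lt_or_gt_of_ne hj with hj | hj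
        · rw [ih j hj, zero_smul]
        · rw [pow_eq_zero_of_le (by have := Fin.lt_def.1 hj; omega) h0, zero_mulVec, smul_zero]
  have hs : ∀ w : Fin n → k, ∃ c : Fin n → k, ∑ j, c j • M ^ (j : ℕ) *ᵥ v = w := fun w =>
    (Submodule.mem_span_range_iff_exists_fun k).1
      (hi.span_eq_top_of_card_eq_finrank' (by simp) ▸ Submodule.mem_top)
  obtain ⟨c, hc⟩ := hs (Y *ᵥ v)
  refine ⟨∑ j : Fin n, monomial j (c j), Matrix.toLin'.injective (LinearMap.ext fun w => ?_)⟩
  obtain ⟨d, rfl⟩ := hs w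
  simp only [toLin'_apply, map_sum, map_smul, aeval_monomial, ← Algebra.smul_def]
  simp only [LinearMap.sum_apply, LinearMap.smul_apply, toLin'_apply]
  refine sum_congr rfl fun i _ => congrArg _ ?_
  rw [mulVec_mulVec, (h.pow_right i).eq, ← mulVec_mulVec, ← hc, mulVec_sum]
  refine sum_congr rfl fun j _ => ?_
  rw [mulVec_smul, mulVec_mulVec, mulVec_mulVec, ← pow_add, ← pow_add, add_comm]

lemma poly_SyH1 (ψ : k[X] →ₗ[k] k) (a : ℕ) (ha : ∀ j, 0 < j → j ≤ n → (a : k) ^ j ≠ 1)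
    (h0 : ∀ f, ψ (X ^ n * f) = 0) (h1 : ∀ j, ψ (X ^ j) = a * ψ (((1 + X) ^ a - 1) ^ j)) (f : k[X]) :
    ψ f = 0 := by
  have key : ∀ j ≤ n, ∀ f, ψ (X ^ j * f) = 0 := by
    intro j hj
    induction hj using Nat.decreasingInduction with
    | self => exact h0
    | of_succ j hj ih =>
      have h2 : ∀ f : k[X], ψ (X ^ j * f) = f.eval 0 * ψ (X ^ j) := fun f => by
        conv_lhs => rw [← X_mul_divX_add f, mul_add, map_add, ← mul_assoc, ← pow_succ, ih,
          zero_add, mul_comm, ← smul_eq_C_mul, map_smul, coeff_zero_eq_eval_zero, smul_eq_mul]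
      have h3 := h1 j
      rw [← geom_sum_mul, add_sub_cancel_left, mul_comm _ X, mul_pow, h2] at h3
      simp only [eval_pow, eval_finsetSum, eval_add, eval_one, eval_X, add_zero, one_pow,
        sum_const, card_range, nsmul_one] at h3
      intro f
      rw [h2, (mul_eq_zero.1 (show ((a : k) ^ (j + 1) - 1) * ψ (X ^ j) = 0 by
        linear_combination -h3)).resolve_left (sub_ne_zero.2 (ha _ j.succ_pos hj)), mul_zero]
  simpa using key 0 n.zero_le f

lemma dual_SyH1 (φ : Mt n k →ₗ[k] k) : ∃ Y : Mt n k, ∀ Z, φ Z = (Z * Y).trace := by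
  refine ⟨Matrix.of fun j i => φ (Matrix.single i j 1), fun Z => ?_⟩
  conv_lhs => rw [matrix_eq_sum_single Z]
  simp only [map_sum, trace, diag_apply, Matrix.mul_apply, of_apply]
  refine sum_congr rfl fun i _ => sum_congr rfl fun j _ => ?_
  rw [← smul_eq_mul, ← map_smul, smul_single, smul_eq_mul, mul_one]

/-- the first step -/
lemma one_SyH1 {A B : GL (Fin n) k} {a : ℕ} {c : k} (hA : RegU A.val)
    (hB : ad_SyH1 B A.val = c • A.val ^ a) (ha : ∀ j, 0 < j → j ≤ n → (a : k) ^ j ≠ 1)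
    {Z W : Mt n k} (hZ : ad_SyH1 B Z = a • Z + (W - ad_SyH1 A W)) :
    ∃ W, Z = W - ad_SyH1 A W := by
  obtain ⟨e, h0, h1⟩ := hA
  have := nontrivial_of_ne _ _ h1
  have e0 : e ≠ 0 := by
    rintro rfl
    rw [zero_smul, sub_zero] at h0
    exact (A.isUnit.pow n).ne_zero h0
  obtain ⟨M, hM⟩ : ∃ M : Mt n k, A.val = e • (1 + M) :=
    ⟨e⁻¹ • A.val - 1, by rw [add_sub_cancel, smul_inv_smul₀ e0]⟩
  rw [hM, smul_add, add_sub_cancel_left, _root_.smul_pow] at h0 h1
  replace h0 := (smul_eq_zero.1 h0).resolve_left (pow_ne_zero _ e0)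
  replace h1 := right_ne_zero_of_smul h1
  obtain ⟨c', hc⟩ : ∃ c' : k, ad_SyH1 B M = c' • (1 + M) ^ a - 1 := by
    refine ⟨e⁻¹ * (c * e ^ a), ?_⟩
    rw [hM, map_smul, map_add, map_one, _root_.smul_pow, smul_smul] at hB
    rw [mul_smul, ← hB, inv_smul_smul₀ e0, add_sub_cancel_left]
  obtain rfl : c' = 1 := by
    have h2 : ∀ m : ℕ, (1 + M) ^ m * M ^ (n - 1) = M ^ (n - 1) := fun m => by
      induction m with
      | zero => rw [pow_zero, one_mul]
      | succ m ih =>
        rw [pow_succ, mul_assoc, add_mul, one_mul, ← pow_succ',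
          pow_eq_zero_of_le (n := n - 1 + 1) (by omega) h0, add_zero, ih]
    have h3 : ∀ m : ℕ, ad_SyH1 B M ^ m * M ^ (n - 1) = (c' - 1) ^ m • M ^ (n - 1) := fun m => by
      induction m with
      | zero => rw [pow_zero, pow_zero, one_mul, one_smul]
      | succ m ih =>
        rw [pow_succ', mul_assoc, ih, Matrix.mul_smul, hc, sub_mul, Matrix.smul_mul, h2, one_mul,
          pow_succ, mul_smul, sub_smul, one_smul]
    have h4 := h3 n
    rw [← map_pow, h0, map_zero, zero_mul] at h4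
    exact sub_eq_zero.1 (pow_eq_zero_iff'.1 ((smul_eq_zero.1 h4.symm).resolve_right h1)).1
  have hk : ∀ Y : Mt n k, Commute Y M → ∀ W, ((W - ad_SyH1 A W) * Y).trace = 0 := fun Y hY W => by
    have h2 : ad_SyH1 A Y = Y := by
      rw [app_SyH1, Units.mul_inv_eq_iff_eq_mul, hM]
      exact (((Commute.one_right Y).add_right hY).smul_right e).symm
    rw [sub_mul, trace_sub]
    conv_lhs => rw [← tr_SyH1 A, map_mul, h2]
    exact sub_self _
  have hp : ∀ f : k[X], Commute (aeval M f) M := fun f => by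
    simpa using (Commute.all f X).map (aeval M)
  have key := poly_SyH1 ((traceLinearMap (Fin n) k k).comp ((LinearMap.mulLeft k Z).comp
    (aeval M).toLinearMap)) a ha (fun f => by simp [h0]) fun j => by
      have h2 := hk _ (hp (((1 + X) ^ a - 1) ^ j)) W
      have h3 := tr_SyH1 B (Z * M ^ j)
      rw [map_mul, map_pow, hZ, hc, one_smul, add_mul] at h3
      simp only [LinearMap.comp_apply, AlgHom.toLinearMap_apply, LinearMap.mulLeft_apply,
        traceLinearMap_apply, map_pow, map_sub, map_add, map_one, aeval_X] at h2 ⊢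
      rw [← h3, trace_add, h2, add_zero, smul_mul_assoc, trace_smul, nsmul_eq_mul]
  by_contra! hZ'
  obtain ⟨φ, k1, k2⟩ := Submodule.exists_dual_map_eq_bot_of_notMem
    (p := LinearMap.range (LinearMap.id - (ad_SyH1 A).toLinearMap)) (x := Z)
    (fun ⟨W, hW⟩ => hZ' W hW.symm) inferInstance
  obtain ⟨Y, hY⟩ := dual_SyH1 φ
  have k3 : ∀ W, ((W - ad_SyH1 A W) * Y).trace = 0 := fun W => by
    rw [← hY]
    exact (Submodule.eq_bot_iff _).1 k2 _ ⟨_, ⟨W, rfl⟩, rfl⟩
  have k4 : Commute Y A.val := by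
    refine ext_iff_trace_mul_left.2 fun W => ?_
    have k5 := k3 (W * A.val)
    rw [app_SyH1, mul_assoc, Units.mul_inv_cancel_right, sub_mul, trace_sub, sub_eq_zero,
      mul_assoc, mul_assoc, trace_mul_comm A.val, mul_assoc] at k5
    exact k5.symm
  rw [hM] at k4
  have k6 : Commute Y M := by
    have k7 := (k4.smul_right e⁻¹).sub_right (Commute.one_right Y)
    rwa [inv_smul_smul₀ e0, add_sub_cancel_left] at k7
  obtain ⟨f, rfl⟩ := comm_SyH1 h0 h1 k6
  exact k1 ((hY Z).trans (key f))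

end

/-- the second step -/
lemma two_SyH1 {G k V : Type} [Group G] [Field k] [AddCommGroup V] [Module k V]
    (ρ : G → V →ₗ[k] V) (z : G → V) (hz : ∀ g h, z (g * h) = z g + ρ g (z h)) (U : Subgroup G)
    [U.FiniteIndex] (hU : ∀ h ∈ U, z h = 0) (hi : (U.index : k) ≠ 0) :
    ∃ W, ∀ g, z g = W - ρ g W := by
  have := Fintype.ofFinite (G ⧸ U)
  refine ⟨(U.index : k)⁻¹ • ∑ x : G ⧸ U, z x.out, fun g => ?_⟩
  have h1 : ∀ x : G ⧸ U, z (g • x).out = z g + ρ g (z x.out) := fun x => by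
    obtain ⟨h, hh⟩ := QuotientGroup.mk_out_eq_mul U (g * x.out)
    rw [← MulAction.Quotient.mk_smul_out, smul_eq_mul, hh, hz, hU h h.2, map_zero, add_zero, hz]
  have h2 := Equiv.sum_comp (MulAction.toPerm g) fun x : G ⧸ U => z x.out
  simp only [MulAction.toPerm_apply, h1, sum_add_distrib, sum_const, card_univ] at h2
  rw [map_smul, ← smul_sub, eq_inv_smul_iff₀ hi, map_sum, ← h2, add_sub_cancel_right,
    Nat.cast_smul_eq_nsmul, Subgroup.index, Nat.card_eq_fintype_card]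

theorem h1s_stmt (p : ℕ) [Fact p.Prime] : H1Stmt p := by
  intro G _ N _ _ k _ _ n S hS hN hi u g a hu hup hg hR ha z hz hzN
  have hm : ∀ g h Y, ad_SyH1 (S (g * h)) Y = ad_SyH1 (S g) (ad_SyH1 (S h) Y) := fun g h Y => by
    obtain ⟨c, hc⟩ := hS g h
    rw [eq_SyH1 (B := S g * S h) hc]
    simp only [app_SyH1, _root_.mul_inv_rev, Units.val_mul, mul_assoc]
  have h1 : ∀ h ∈ N, ∀ Y, ad_SyH1 (S h) Y = Y := fun h hh Y => by
    obtain ⟨c, hc⟩ := hN h hh
    rw [eq_SyH1 (B := 1) hc, app_SyH1, inv_one, Units.val_one, one_mul, mul_one]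
  replace hz : ∀ g h, z (g * h) = z g + ad_SyH1 (S g) (z h) := hz
  have e : g * u = g * u * g⁻¹ * (u ^ a)⁻¹ * (u ^ a * g) := by group
  have h2 : ∀ m : ℕ, ∃ c : k, (S (u ^ m)).val = c • (S u).val ^ m := fun m => by
    induction m with
    | zero => simpa using hN 1 N.one_mem
    | succ m ih =>
      obtain ⟨c, hc⟩ := ih
      obtain ⟨d, hd⟩ := hS (u ^ m) u
      exact ⟨d * c, by rw [pow_succ, hd, hc, Matrix.smul_mul, smul_smul, pow_succ]⟩
  have h3 : ∀ (m : ℕ) x, ∃ W, z (u ^ m * x) = m • z u + z x + (W - ad_SyH1 (S u) W) := fun m x => by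
    induction m with
    | zero => exact ⟨0, by simp⟩
    | succ m ih =>
      obtain ⟨W, hW⟩ := ih
      refine ⟨W - z (u ^ m * x), ?_⟩
      rw [pow_succ', mul_assoc, hz, map_sub, succ_nsmul]
      linear_combination (norm := abel1) hW
  obtain ⟨c, hc⟩ : ∃ c : k, ad_SyH1 (S g) (S u).val = c • (S u).val ^ a := by
    obtain ⟨c1, k1⟩ := hS g u
    obtain ⟨c2, k2⟩ := hS (g * u * g⁻¹ * (u ^ a)⁻¹) (u ^ a * g)
    obtain ⟨c3, k3⟩ := hN _ hg
    obtain ⟨c4, k4⟩ := hS (u ^ a) g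
    obtain ⟨c5, k5⟩ := h2 a
    obtain ⟨c0, -, k0⟩ := hR
    have := nontrivial_of_ne _ _ k0
    have k6 : c1 ≠ 0 := fun h => (S (g * u)).ne_zero (by rw [k1, h, zero_smul])
    refine ⟨c1⁻¹ * (c2 * (c3 * (c4 * c5))), ?_⟩
    rw [← e, k1, k3, k4, k5, ← eq_inv_smul_iff₀ k6] at k2
    rw [app_SyH1, Units.mul_inv_eq_iff_eq_mul, k2]
    simp only [Matrix.smul_mul, Matrix.mul_smul, one_mul, smul_smul, mul_assoc,
      mul_left_comm c4 c3, mul_comm c5 c3]
  obtain ⟨W₀, h4⟩ := h3 a g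
  obtain ⟨W, hW⟩ := one_SyH1 hR hc ha (Z := z u) (W := W₀) (by
    have k1 := hz g u
    rw [e, hz, hzN _ hg, h1 _ hg, h4] at k1
    linear_combination (norm := abel1) -k1)
  have h5 : ∀ g h, z (g * h) - (W - ad_SyH1 (S (g * h)) W) = z g - (W - ad_SyH1 (S g) W) +
      (ad_SyH1 (S g)).toLinearMap (z h - (W - ad_SyH1 (S h) W)) := fun g h => by
    rw [hz, hm, AlgHom.toLinearMap_apply, map_sub, map_sub]
    abel
  have h6 : ∀ h ∈ N, z h - (W - ad_SyH1 (S h) W) = 0 := fun h hh => by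
    rw [hzN h hh, h1 h hh, sub_self, sub_self]
  let U : Subgroup G :=
    { carrier := {h | z h - (W - ad_SyH1 (S h) W) = 0}
      mul_mem' := fun {x y} hx hy => (h5 x y).trans (by rw [hx, hy, map_zero, add_zero])
      one_mem' := h6 1 N.one_mem
      inv_mem' := fun {x} hx => by
        have k1 := h5 x⁻¹ x
        rw [inv_mul_cancel, h6 1 N.one_mem, hx, map_zero, add_zero] at k1
        exact k1.symm }
  have hle : N ≤ U := h6
  have := Subgroup.finiteIndex_of_le hle
  obtain ⟨W', hW'⟩ := two_SyH1 (fun g => (ad_SyH1 (S g)).toLinearMap) _ h5 U (fun _ hh => hh) (by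
    rw [Ne, CharP.cast_eq_zero_iff k p]
    refine fun hd => hi ?_
    rw [← Subgroup.relIndex_mul_index hle, pow_two]
    refine mul_dvd_mul ?_ hd
    have k1 : orderOf (QuotientGroup.mk (s := N.subgroupOf U) ⟨u, sub_eq_zero.2 hW⟩) = p :=
      orderOf_eq_prime (by
        rw [← QuotientGroup.mk_pow]
        exact (QuotientGroup.eq_one_iff _).2 hup) fun h =>
        hu ((QuotientGroup.eq_one_iff (N := N.subgroupOf U) _).1 h)
    exact k1 ▸ orderOf_dvd_natCard _)
  refine ⟨W + W', fun g => ?_⟩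
  have k1 := hW' g
  rw [← app_SyH1, map_add]
  rw [AlgHom.toLinearMap_apply] at k1
  linear_combination (norm := abel1) k1

end Pool.Agent.MP_f68ac8_nt.Sv
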