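import Mathlib
import Pool.Agent.MP_f68ac8_nt.SyAux

/-! The formal properties of symmetric powers. -/

namespace Pool.Agent.MP_f68ac8_nt.Sv

open Ev Pv

open Matrix Polynomial

variable {R : Type} [CommRing R]

lemma key_SySym1 {S : Type} [CommRing S] [Algebra R S] (m : ℕ) (A : Mt 2 R) (u v : S)
    (j : Fin (m + 1)) :
    ∑ i : Fin (m + 1), algebraMap R S (symP (m + 1) A i j) * (u ^ (m - i) * v ^ (i : ℕ)) =
      (algebraMap R S (A 0 0) * u + algebraMap R S (A 1 0) * v) ^ (m - j) *
        (algebraMap R S (A 0 1) * u + algebraMap R S (A 1 1) * v) ^ (j : ℕ) := by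
  have hl : ∀ a b : R, (MvPolynomial.C a * MvPolynomial.X 1 + MvPolynomial.C b * MvPolynomial.X 0 :
      MvPolynomial (Fin 2) R).IsHomogeneous 1 := fun a b =>
    (MvPolynomial.isHomogeneous_C_mul_X a 1).add (MvPolynomial.isHomogeneous_C_mul_X b 0)
  have h1 : ((C (A 0 0) + C (A 1 0) * X) ^ (m - j) *
      (C (A 0 1) + C (A 1 1) * X) ^ (j : ℕ)).homogenize m =
      (MvPolynomial.C (A 0 0) * MvPolynomial.X 1 + MvPolynomial.C (A 1 0) * MvPolynomial.X 0) ^
        (m - j) * (MvPolynomial.C (A 0 1) * MvPolynomial.X 1 +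
          MvPolynomial.C (A 1 1) * MvPolynomial.X 0) ^ (j : ℕ) := by
    refine homogenize_eq_of_isHomogeneous ?_ (by simp)
    have := ((hl (A 0 0) (A 1 0)).pow (m - j)).mul ((hl (A 0 1) (A 1 1)).pow j)
    rwa [one_mul, one_mul, Nat.sub_add_cancel (Nat.lt_succ_iff.1 j.2)] at this
  have h2 := congrArg (MvPolynomial.aeval (R := R) ![v, u]) h1
  rw [homogenize, Finset.Nat.sum_antidiagonal_eq_sum_range_succ_mk, Finset.sum_range,
    map_sum] at h2
  simp only [map_mul, map_pow, map_add, MvPolynomial.aeval_C, MvPolynomial.aeval_X,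
    Matrix.cons_val_zero, Matrix.cons_val_one] at h2
  rw [← h2]
  refine Finset.sum_congr rfl fun i _ => ?_
  rw [MvPolynomial.aeval_monomial, Finsupp.prod_fintype _ _ (by simp), Fin.prod_univ_two]
  rw [symP, Matrix.of_apply, Nat.add_sub_cancel, mul_comm (u ^ _)]
  simp

lemma mul_SySym1 (m : ℕ) (A B : Mt 2 R) :
    symP (m + 1) (A * B) = symP (m + 1) A * symP (m + 1) B := by
  ext i j
  have h := congrArg (fun q => q.coeff i)
    (key_SySym1 m B (C (A 0 0) + C (A 1 0) * X) (C (A 0 1) + C (A 1 1) * X) j)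
  simp only [finsetSum_coeff, Polynomial.algebraMap_eq, coeff_C_mul] at h
  rw [Matrix.mul_apply, Finset.sum_congr rfl fun k _ => mul_comm _ _]
  refine Eq.trans ?_ h.symm
  simp only [symP, Matrix.of_apply, Matrix.mul_apply, Fin.sum_univ_two, map_add, map_mul,
    Nat.add_sub_cancel]
  congr 3 <;> ring

lemma co_SySym1 (b d : R) (j i : ℕ) :
    ((C b + C d * X) ^ j).coeff i = (j.choose i : R) * (b ^ (j - i) * d ^ i) := by
  rw [add_comm, add_pow, finsetSum_coeff]
  have h : ∀ k, ((C d * X) ^ k * C b ^ (j - k) * (j.choose k : R[X])).coeff i =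
      if i = k then (j.choose i : R) * (b ^ (j - i) * d ^ i) else 0 := fun k => by
    rw [show (C d * X) ^ k * C b ^ (j - k) * (j.choose k : R[X]) =
      C ((j.choose k : R) * (b ^ (j - k) * d ^ k)) * X ^ k by
        simp only [map_mul, map_pow, map_natCast]; ring, coeff_C_mul_X_pow]
    split_ifs with e
    · rw [e]
    · rfl
  rw [Finset.sum_congr rfl fun k _ => h k, Finset.sum_ite_eq]
  split_ifs with e
  · rfl
  · rw [Nat.choose_eq_zero_of_lt (by simpa using e), Nat.cast_zero, zero_mul]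

lemma tri_SySym1 (n : ℕ) (A : Mt 2 R) (h : A 1 0 = 0) (i j : Fin n) :
    symP n A i j = A 0 0 ^ (n - 1 - j) *
      (((j : ℕ).choose i : R) * (A 0 1 ^ ((j : ℕ) - i) * A 1 1 ^ (i : ℕ))) := by
  rw [symP, Matrix.of_apply, h, map_zero, zero_mul, add_zero, ← map_pow, coeff_C_mul, co_SySym1]

lemma dm_SySym1 {S : Type} [CommRing S] [Algebra R S] (m : ℕ) (a b c d : S) :
    ∑ i : Fin (m + 1), ∑ j : Fin (m + 1), algebraMap R S (Dm R (m + 1) i j) *
      ((a ^ (m - i) * b ^ (i : ℕ)) * (c ^ (m - j) * d ^ (j : ℕ))) = (a * d - b * c) ^ m := by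
  rw [show a * d - b * c = -(b * c) + a * d by ring, add_pow, Finset.sum_range]
  refine Finset.sum_congr rfl fun i _ => ?_
  have hi := i.2
  rw [Finset.sum_eq_single i.rev (fun j _ hj => ?_) (by simp)]
  · have e1 : ((i.rev : Fin (m + 1)) : ℕ) = m - i := by rw [Fin.val_rev]; omega
    rw [Dm, Matrix.of_apply, if_pos (by omega), e1, show m - (m - i) = i by omega,
      Nat.add_sub_cancel, neg_pow]
    simp only [map_mul, map_pow, map_neg, map_one, map_natCast]
    ring
  · rw [Dm, Matrix.of_apply, if_neg, map_zero, zero_mul]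
    intro e
    exact hj (Fin.ext (by rw [Fin.val_rev]; omega))

lemma inj_SySym1 {n : ℕ} (M : Mt n R) (a b : Fin n) :
    ((∑ i : Fin n, ∑ j : Fin n, algebraMap R R[X][X] (M i j) *
      ((C X) ^ (i : ℕ) * X ^ (j : ℕ))).coeff b).coeff a = M a b := by
  have h : ∀ i j : Fin n, ((algebraMap R R[X][X] (M i j) *
      ((C X) ^ (i : ℕ) * X ^ (j : ℕ))).coeff b).coeff a =
      if b = j then if a = i then M i j else 0 else 0 := fun i j => by
    rw [show algebraMap R R[X][X] (M i j) * ((C X) ^ (i : ℕ) * X ^ (j : ℕ)) =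
      C (C (M i j) * X ^ (i : ℕ)) * X ^ (j : ℕ) by
        simp only [map_mul, map_pow, mul_assoc]; rfl, coeff_C_mul_X_pow]
    simp only [Fin.val_inj]
    split_ifs with e1 e2
    · rw [e2, coeff_C_mul_X_pow, if_pos rfl]
    · rw [coeff_C_mul_X_pow, if_neg (fun e => e2 (Fin.ext e))]
    · rfl
  simp only [finsetSum_coeff, h, Finset.sum_ite_eq, Finset.mem_univ, if_true]

lemma inv_SySym1 (m : ℕ) (A : Mt 2 R) :
    symP (m + 1) A * Dm R (m + 1) * (symP (m + 1) A)ᵀ = A.det ^ m • Dm R (m + 1) := by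
  ext a b
  refine (inj_SySym1 _ a b).symm.trans (Eq.trans ?_ (inj_SySym1 _ a b))
  congr 2
  have h1 := dm_SySym1 (R := R) m (1 : R[X][X]) (C X) 1 X
  have h2 := fun x : R[X][X] => key_SySym1 m A 1 x
  simp only [one_pow, one_mul, mul_one] at h1 h2
  have h3 := dm_SySym1 (R := R) m
    (algebraMap R R[X][X] (A 0 0) + algebraMap R R[X][X] (A 1 0) * C X)
    (algebraMap R R[X][X] (A 0 1) + algebraMap R R[X][X] (A 1 1) * C X)
    (algebraMap R R[X][X] (A 0 0) + algebraMap R R[X][X] (A 1 0) * X)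
    (algebraMap R R[X][X] (A 0 1) + algebraMap R R[X][X] (A 1 1) * X)
  simp only [← h2] at h3
  calc _ = _ := ?_
    _ = _ := h3
    _ = algebraMap R R[X][X] (A.det ^ m) * (X - C X) ^ m := by
      rw [map_pow, ← mul_pow, Matrix.det_fin_two, map_sub, map_mul, map_mul]
      congr 1
      ring
    _ = _ := by
      simp only [← h1, Finset.mul_sum, Matrix.smul_apply, smul_eq_mul, map_mul, mul_assoc]
  simp only [Matrix.mul_apply, Matrix.transpose_apply, map_sum, map_mul, Finset.sum_mul,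
    Finset.mul_sum]
  calc _ = ∑ a : Fin (m + 1), ∑ j : Fin (m + 1), ∑ i : Fin (m + 1), ∑ b : Fin (m + 1), _ :=
        Finset.sum_congr rfl fun a _ => Finset.sum_comm.trans
          (Finset.sum_congr rfl fun j _ => Finset.sum_comm)
    _ = ∑ j : Fin (m + 1), ∑ i : Fin (m + 1), ∑ a : Fin (m + 1), ∑ b : Fin (m + 1), _ :=
        Finset.sum_comm.trans (Finset.sum_congr rfl fun j _ => Finset.sum_comm)
    _ = ∑ i : Fin (m + 1), ∑ j : Fin (m + 1), ∑ b : Fin (m + 1), ∑ a : Fin (m + 1), _ :=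
        Finset.sum_comm.trans (Finset.sum_congr rfl fun j _ => Finset.sum_congr rfl fun i _ =>
          Finset.sum_comm)
    _ = _ := Finset.sum_congr rfl fun i _ => Finset.sum_congr rfl fun j _ =>
        Finset.sum_congr rfl fun b _ => Finset.sum_congr rfl fun a _ => by ring

lemma unit_SySym1 (m : ℕ) (h : ∀ k, 0 < k → k < m + 1 → IsUnit (k : R)) :
    IsUnit (Dm R (m + 1)) := by
  have hf : IsUnit (m.factorial : R) := by
    rw [← Finset.prod_range_add_one_eq_factorial, Nat.cast_prod]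
    exact IsUnit.prod_iff.2 fun k hk => h _ k.succ_pos (by simpa using hk)
  have e : Dm R (m + 1) = (diagonal fun i : Fin (m + 1) =>
      (-1 : R) ^ (i : ℕ) * (m.choose i : R)).submatrix id Fin.revPerm := by
    ext i j
    rw [Dm, Matrix.of_apply, submatrix_apply, diagonal_apply, id, Nat.add_sub_cancel]
    refine if_congr ?_ rfl rfl
    have := j.2
    rw [Fin.revPerm_apply, Fin.ext_iff, Fin.val_rev]
    omega
  rw [Matrix.isUnit_iff_isUnit_det, e, Matrix.det_permute', det_diagonal]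
  refine IsUnit.mul (((Equiv.Perm.sign _).isUnit).map (Int.castRingHom R)) ?_
  refine IsUnit.prod_iff.2 fun i _ => (isUnit_neg_one.pow _).mul ?_
  rw [← Nat.choose_mul_factorial_mul_factorial (Nat.lt_succ_iff.1 i.2), Nat.cast_mul,
    Nat.cast_mul] at hf
  exact isUnit_of_mul_isUnit_left (isUnit_of_mul_isUnit_left hf)

theorem sym1_stmt : Sym1Stmt := by
  intro R _ n
  have hT : ∀ A : Mt 2 R, A 1 0 = 0 → (symP n A).BlockTriangular id ∧
      (∀ j, symP n A j j = A 0 0 ^ (n - 1 - j) * A 1 1 ^ (j : ℕ)) ∧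
      (∀ i j : Fin n, (i : ℕ) + 1 = j →
        symP n A i j = j * (A 0 0 ^ (n - 1 - j) * A 0 1 * A 1 1 ^ (i : ℕ))) ∧
      (A 0 1 = 0 → ∀ i j, i ≠ j → symP n A i j = 0) := fun A h => by
    refine ⟨fun i j hij => ?_, fun j => ?_, fun i j e => ?_, fun h' i j hij => ?_⟩
    · rw [tri_SySym1 n A h, Nat.choose_eq_zero_of_lt (show (j : ℕ) < i from hij)]
      simp
    · rw [tri_SySym1 n A h]
      simp
    · rw [tri_SySym1 n A h, ← e, Nat.choose_succ_self_right, Nat.add_sub_cancel_left]
      ring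
    · rw [tri_SySym1 n A h, h']
      rcases lt_or_gt_of_ne hij with e | e
      · rw [zero_pow (Nat.sub_ne_zero_of_lt e)]
        simp
      · rw [Nat.choose_eq_zero_of_lt e]
        simp
  refine ⟨?_, fun A B => ?_, fun c A => ?_, fun R' _ f => ⟨fun A => ?_, ?_⟩, hT, fun A => ?_, ?_,
    fun h => ?_⟩
  · obtain ⟨-, h1, -, h2⟩ := hT 1 (by simp)
    ext i j
    by_cases e : i = j
    · rw [e, h1]
      simp
    · rw [h2 (by simp) i j e, Matrix.one_apply_ne e]
  · cases n with
    | zero => exact Subsingleton.elim _ _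
    | succ m => exact mul_SySym1 m A B
  · ext i j
    have hj := j.2
    simp only [symP, Matrix.of_apply, Matrix.smul_apply, smul_eq_mul, map_mul, mul_assoc,
      ← mul_add, mul_pow]
    rw [mul_left_comm _ (C c ^ (j : ℕ)), ← mul_assoc, ← pow_add, ← map_pow, coeff_C_mul,
      show n - 1 - j + j = n - 1 by omega]
  · ext i j
    simp only [symP, Matrix.map_apply, Matrix.of_apply, ← coeff_map, Polynomial.map_mul,
      Polynomial.map_pow, Polynomial.map_add, map_C, map_X]
  · ext i j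
    simp only [Dm, Matrix.map_apply, Matrix.of_apply, apply_ite f, map_mul, map_pow, map_neg,
      map_one, map_natCast, map_zero]
  · cases n with
    | zero => exact Subsingleton.elim _ _
    | succ m => exact inv_SySym1 m A
  · ext i j
    simp only [Dm, Matrix.transpose_apply, Matrix.of_apply, Matrix.smul_apply, smul_eq_mul]
    by_cases e : (i : ℕ) + j + 1 = n
    · rw [if_pos e, if_pos (by omega), show n - 1 = i + j by omega, Nat.choose_symm_add, pow_add,
        mul_comm ((-1 : R) ^ (i : ℕ)), mul_assoc, ← mul_assoc ((-1 : R) ^ (i : ℕ)), ← mul_pow]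
      simp
    · rw [if_neg e, if_neg (by omega), mul_zero]
  · cases n with
    | zero => exact isUnit_of_subsingleton _
    | succ m => exact unit_SySym1 m h

end Pool.Agent.MP_f68ac8_nt.Sv
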