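import Mathlib
import Pool.Agent.MP_f68ac8_nt.ZhAux
import Pool.Agent.MP_f68ac8_nt.LcMb
import Pool.Agent.MP_f68ac8_nt.TvLoc

/-! Classes that vanish on `p`-th powers vanish at the wild primes away from `p`. -/

namespace Pool.Agent.MP_f68ac8_nt.Ze

open Ev Pv Sv Zv
open Matrix
open scoped Pointwise

lemma alg_ZhBad {k : Type} [Field k] (h2 : (2 : k) ≠ 0) {w U G : Matrix (Fin 2) (Fin 2) k}
    (ht : w.trace = 0) (hU : U * w = w * U) (hG : G * w = w * G) (u1 : U 1 0 = 0)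
    (u2 : U 0 0 = U 1 1) (u3 : U 0 1 ≠ 0) (g1 : G 0 0 ≠ G 1 1) : w = 0 := by
  have a := congrFun (congrFun hU 0) 0
  have b := congrFun (congrFun hU 0) 1
  have c := congrFun (congrFun hG 0) 1
  simp only [mul_apply, Fin.sum_univ_two] at a b c
  rw [trace_fin_two] at ht
  have e1 : w 1 0 = 0 := mul_left_cancel₀ u3 (by linear_combination a + w 0 1 * u1)
  have e2 : w 0 0 = w 1 1 := mul_left_cancel₀ u3 (by linear_combination -b + w 0 1 * u2)
  have e3 : w 0 0 = 0 := mul_left_cancel₀ h2 (by linear_combination ht + e2)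
  have e4 : w 0 1 = 0 := mul_left_cancel₀ (sub_ne_zero.2 g1) (by linear_combination c + G 0 1 * e2)
  ext i j
  fin_cases i <;> fin_cases j
  exacts [e3, e4, e1, e2 ▸ e3]

lemma comm_ZhBad {p : ℕ} [Fact p.Prime] {R : GL (Fin 2) (ZMod p)} (A : GL (Fin 2) (ZMod p))
    {v : Mt 2 (ZMod p)} (h : v = cj R v) :
    (A⁻¹ * R * A).val * cj A⁻¹ v = cj A⁻¹ v * (A⁻¹ * R * A).val := by
  have e : R.val * v = v * R.val := by
    conv_rhs => rw [h, cj, Matrix.mul_assoc, Units.inv_mul, Matrix.mul_one]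
  simp only [cj, inv_inv, Units.val_mul, Matrix.mul_assoc, Units.mul_inv_cancel_left]
  rw [← Matrix.mul_assoc R.val, e, Matrix.mul_assoc]

theorem bad_stmt (p : ℕ) [Fact p.Prime] (hL : LocBStmt p) (hU : LocUrStmt p)
    (hT : LocTameStmt p) : BadStmt p := by
  intro K F _ _ r m o hKF hB P ⟨hP, hp, hW⟩ z hz hPV
  obtain ⟨hFb, -, hL'⟩ := hL K F r m o hKF hB
  obtain ⟨A, hA, g₀, hg₀, hne⟩ := hB.bad P hP hp hW
  obtain ⟨D', κ, u, hS, hw, h1, h2, -⟩ := hL' P hP hW A hA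
  obtain ⟨s, hs, hsP, hs'⟩ := hU K F hFb P hP
  obtain ⟨h3, h4⟩ := hs' _ z hz.add hz.nhds (hT K F hFb P hP hp hW _ z hz.add hz.nhds hPV)
  refine h4 (cj_zero_TvLoc (A := A⁻¹) ?_)
  have hc : ∀ δ : GK K, δ.1 • P = P → z s = cj (r δ) (z s) := fun δ hδ =>
    (h3 δ.1 ⟨hδ, δ.2⟩ s hs hsP).symm.trans (hz.conj δ s hs)
  have huP : u.1 • P = P := (hS.le hw.mem).1
  have h5 : (2 : ZMod p) ≠ 0 := fun h => by
    have := Nat.le_of_dvd two_pos ((ZMod.natCast_eq_zero_iff 2 p).1 (by exact_mod_cast h))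
    have := hB.big
    omega
  refine alg_ZhBad h5 ((trace_cj_TvLoc _ _).trans (hz.tr s hs)) (comm_ZhBad A (hc u huP))
    (comm_ZhBad A (hc g₀ hg₀)) (hA u huP) (h1 u hw.mem).1 ?_ fun e => hne (by rw [e])
  exact (h1 u hw.mem).2.trans_ne (mul_ne_zero hw.ne (h2 u huP).2)

end Pool.Agent.MP_f68ac8_nt.Ze
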