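import Mathlib
import Pool.Agent.MP_f68ac8_nt.ZhAux
import Pool.Agent.MP_f68ac8_nt.BvBas

/-! Group theory of residual representations with large image. -/

namespace Pool.Agent.MP_f68ac8_nt.Ze

open Ev Pv Sv Zv
open NumberField Matrix
open scoped Pointwise MatrixGroups

section
variable {k : Type} [Field k]

lemma irr_ZhImg (h2 : (2 : k) ≠ 0) (W : Submodule k (Mt 2 k))
    (hW : ∀ A B : Mt 2 k, A * B = 1 → A.det = 1 → ∀ Z ∈ W, A * Z * B ∈ W)
    (ht : ∀ Z ∈ W, Z.trace = 0) : W = ⊥ ∨ ∀ Z : Mt 2 k, Z.trace = 0 → Z ∈ W := by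
  have eta : ∀ Z : Mt 2 k, Z.trace = 0 → Z = !![Z 0 0, Z 0 1; Z 1 0, -Z 0 0] := fun Z hZ => by
    rw [Matrix.trace_fin_two] at hZ
    rw [neg_eq_of_add_eq_zero_right hZ]
    exact Matrix.eta_fin_two Z
  have hT : ∀ {a b c : k}, !![a, b; c, -a] ∈ W → !![c, -2 * a - c; 0, -c] ∈ W := fun {a b c} h => by
    have k1 := W.sub_mem (hW !![1, 1; 0, 1] !![1, -1; 0, 1] (by simp [Matrix.one_fin_two])
      (by simp [Matrix.det_fin_two]) _ h) h
    have e : !![1, 1; 0, 1] * !![a, b; c, -a] * !![1, -1; 0, 1] - !![a, b; c, -a] =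
        !![c, -2 * a - c; 0, -c] := by
      ext i j
      fin_cases i <;> fin_cases j <;> simp <;> ring
    rwa [e] at k1
  have hT' : ∀ {a b c : k}, !![a, b; c, -a] ∈ W → !![-b, 0; 2 * a - b, - -b] ∈ W :=
    fun {a b c} h => by
    have k1 := W.sub_mem (hW !![1, 0; 1, 1] !![1, 0; -1, 1] (by simp [Matrix.one_fin_two])
      (by simp [Matrix.det_fin_two]) _ h) h
    have e : !![1, 0; 1, 1] * !![a, b; c, -a] * !![1, 0; -1, 1] - !![a, b; c, -a] =
        !![-b, 0; 2 * a - b, - -b] := by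
      ext i j
      fin_cases i <;> fin_cases j <;> simp <;> ring
    rwa [e] at k1
  have hE : ∀ {b : k}, b ≠ 0 → !![0, b; 0, -0] ∈ W → !![0, 1; 0, -0] ∈ W := fun {b} hb h => by
    have k1 := W.smul_mem b⁻¹ h
    have e : b⁻¹ • !![0, b; 0, -0] = !![0, 1; 0, -0] := by
      ext i j
      fin_cases i <;> fin_cases j <;> simp [hb]
    rwa [e] at k1
  have hF : ∀ {b : k}, b ≠ 0 → !![0, 0; b, -0] ∈ W → !![0, 0; 1, -0] ∈ W := fun {b} hb h => by
    have k1 := W.smul_mem b⁻¹ h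
    have e : b⁻¹ • !![0, 0; b, -0] = !![0, 0; 1, -0] := by
      ext i j
      fin_cases i <;> fin_cases j <;> simp [hb]
    rwa [e] at k1
  have hc : ∀ {a b c : k}, c ≠ 0 → !![a, b; c, -a] ∈ W → !![0, 1; 0, -0] ∈ W :=
    fun hc h => hE (by simp [h2, hc]) (hT (hT h))
  have hb : ∀ {a b c : k}, b ≠ 0 → !![a, b; c, -a] ∈ W → !![0, 0; 1, -0] ∈ W :=
    fun hb h => by
      have k1 := hT' (hT' h)
      rw [neg_zero] at k1
      exact hF (by simp [h2, hb]) k1
  refine or_iff_not_imp_left.2 fun h0 => ?_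
  obtain ⟨X, hX, hX0⟩ := Submodule.exists_mem_ne_zero_of_ne_bot h0
  have eX := eta X (ht X hX)
  rw [eX] at hX
  have k1 : !![0, 1; 0, -0] ∈ W := by
    by_cases c0 : X 1 0 = 0
    · by_cases b0 : X 0 1 = 0
      · have a0 : X 0 0 ≠ 0 := fun a0 => hX0 (by
          rw [eX, a0, b0, c0]
          ext i j
          fin_cases i <;> fin_cases j <;> simp)
        have k1 := hT hX
        rw [c0] at k1
        exact hE (by simp [h2, a0]) k1
      · exact hc one_ne_zero (hb b0 hX)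
    · exact hc c0 hX
  have k2 := hb one_ne_zero k1
  have k3 := hT k2
  intro Z hZ
  have k4 := W.add_mem (W.add_mem (W.smul_mem (Z 0 0) k3) (W.smul_mem (Z 0 1 + Z 0 0) k1))
    (W.smul_mem (Z 1 0) k2)
  have e : Z 0 0 • !![1, -2 * 0 - 1; 0, -1] + (Z 0 1 + Z 0 0) • !![0, 1; 0, -0] +
      Z 1 0 • !![0, 0; 1, -0] = !![Z 0 0, Z 0 1; Z 1 0, -Z 0 0] := by
    ext i j
    fin_cases i <;> fin_cases j <;> simp
  rwa [e, ← eta Z hZ] at k4

lemma eig_ZhImg {M Y : Mt 2 k} {e : k} (h : M * Y = e • Y) (n : ℕ) : M ^ n * Y = e ^ n • Y := by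
  induction n with
  | zero => simp
  | succ n ih => rw [pow_succ, mul_assoc, h, mul_smul_comm, ih, smul_smul, pow_succ']

lemma pow_ZhImg {n : ℕ} (hn : ∀ x : k, x ≠ 0 → x ^ n = 1) (A : GL (Fin 2) k) {c : k} {X : Mt 2 k}
    (h0 : X ≠ 0) (h1 : IsNilpotent X)
    (h : ∀ Z, A.val * Z * A⁻¹.val = c • Z ↔ ∃ d : k, Z = d • X) : A.val ^ n = 1 := by
  have hc : c ≠ 1 := by
    rintro rfl
    obtain ⟨d, hd⟩ := (h 1).1 (by simp)
    have := h1.smul d
    rw [← hd] at this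
    exact not_isNilpotent_one this
  have hX : A.val * X * A⁻¹.val = c • X := (h X).2 ⟨1, (one_smul _ _).symm⟩
  obtain ⟨d, hd⟩ := (h (A.val * X)).1 (by rw [mul_assoc A.val, hX, mul_smul_comm])
  obtain ⟨d', hd'⟩ := (h (X * A.val)).1 (by
    rw [← smul_mul_assoc, ← hX, Units.inv_mul_cancel_right, ← mul_assoc,
      Units.mul_inv_cancel_right])
  have inj : ∀ {a b : k}, a • X = b • X → a = b := fun e => smul_left_injective k h0 e
  have e1 : d = c * d' := inj (by
    rw [← hd, mul_smul, ← hd', ← smul_mul_assoc, ← hX, Units.inv_mul_cancel_right])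
  have ch : A.val * A.val = A.val.trace • A.val - A.val.det • 1 := by
    ext i j
    fin_cases i <;> fin_cases j <;>
      simp [Matrix.mul_apply, Fin.sum_univ_two, Matrix.trace_fin_two, Matrix.det_fin_two] <;> ring
  have hδ : A.val.det ≠ 0 := A.det_ne_zero
  have e2 : d * d = A.val.trace * d - A.val.det := inj (by
    have := congrArg (· * X) ch
    simp only [mul_assoc, hd, mul_smul_comm, sub_mul, smul_mul_assoc, one_mul, smul_smul] at this
    rw [this, sub_smul])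
  have e3 : d' * d' = A.val.trace * d' - A.val.det := inj (by
    have := congrArg (X * ·) ch
    simp only [← mul_assoc, hd', mul_smul_comm, mul_sub, smul_mul_assoc, mul_one,
      smul_smul] at this
    rw [this, sub_smul])
  have n1 : d ≠ 0 := by
    rintro rfl
    exact hδ (by linear_combination e2)
  have n2 : d' ≠ 0 := by
    rintro rfl
    exact hδ (by linear_combination e3)
  have n3 : d - d' ≠ 0 := by
    rw [e1, ← sub_one_mul]
    exact mul_ne_zero (sub_ne_zero.2 hc) n2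
  have e4 : A.val.trace = d + d' := mul_left_cancel₀ n3 (by linear_combination e3 - e2)
  have e5 : A.val.det = d * d' := by linear_combination e2 + d * e4
  rw [e4, e5] at ch
  have f1 := eig_ZhImg (M := A.val) (Y := A.val - d' • 1) (e := d) (by
    rw [mul_sub, ch, mul_smul_comm, mul_one]
    module) n
  have f2 := eig_ZhImg (M := A.val) (Y := A.val - d • 1) (e := d') (by
    rw [mul_sub, ch, mul_smul_comm, mul_one]
    module) n
  rw [hn d n1, one_smul, mul_sub, mul_smul_comm, mul_one] at f1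
  rw [hn d' n2, one_smul, mul_sub, mul_smul_comm, mul_one] at f2
  refine smul_right_injective _ n3 ?_
  change (d - d') • A.val ^ n = (d - d') • (1 : Mt 2 k)
  linear_combination (norm := module) f1 - f2

lemma reg_ZhImg {M : Mt 2 k} (h1 : M 1 0 = 0) (h2 : M 0 0 = M 1 1) (h3 : M 0 1 ≠ 0) : RegU M := by
  refine ⟨M 1 1, ?_, fun h => h3 ?_⟩
  · ext i j
    fin_cases i <;> fin_cases j <;> simp [sq, Matrix.mul_apply, Fin.sum_univ_two, h1, h2]
  · simpa using congrFun (congrFun h 0) 1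

end

theorem img_stmt (p : ℕ) [Fact p.Prime] (hL : LocBStmt p) (hH : H1Stmt p) : ImgStmt p := by
  intro K F _ _ r m o hKF hR
  obtain ⟨-, cut, hL⟩ := hL K F r m o hKF hR
  have hp := hR.big
  have h2 : (2 : ZMod p) ≠ 0 := by
    exact_mod_cast cast_ne_LdBas (p := p) (k := ZMod p) (n := 2) (by omega) (by omega)
  refine ⟨fun W hW ht => irr_ZhImg h2 W (fun A B h1 hA Z hZ => ?_) ht, fun t ht => ?_,
    fun ζ coc _ hz => ?_⟩
  · obtain ⟨g, c, hg⟩ := hR.img ⟨A, B, h1, mul_eq_one_comm.1 h1⟩ hA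
    have hc := ne_LdBas hg
    have h3 : (r g)⁻¹.val = c⁻¹ • B := by
      refine Units.inv_eq_of_mul_eq_one_right ?_
      rw [hg, smul_mul_smul_comm, h1, mul_inv_cancel₀ hc, one_smul]
    have h4 := hW g Z hZ
    rwa [h3, hg, smul_mul_assoc, smul_mul_smul_comm, mul_inv_cancel₀ hc, one_smul] at h4
  · obtain ⟨X, x1, x2, x3⟩ := ht
    refine ⟨p - 1, fun h => absurd (Nat.le_of_dvd (by omega) h) (by omega),
      (cut (t ^ (p - 1))).2 ⟨⟨1, ?_⟩, ?_⟩⟩
    · rw [map_pow, Units.val_pow_eq_pow_val, one_smul]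
      exact pow_ZhImg (fun x hx => ZMod.pow_card_sub_one_eq_one hx) _ x1 x2 x3
    · rw [cb_eq, Subgroup.coe_pow, map_pow, ZMod.units_pow_card_sub_one_eq_one, Units.val_one]
  let φ : K.fixingSubgroup →* PGL(2, ZMod p) × (ZMod p)ˣ :=
    (pg r).prod ((cyc (Ω := Qb) p).comp K.fixingSubgroup.subtype)
  have hφ : ∀ x : K.fixingSubgroup, x ∈ φ.ker ↔ x.1 ∈ F.fixingSubgroup := fun x => by
    rw [cut, cb_eq, Units.val_eq_one, MonoidHom.mem_ker, Prod.ext_iff]
    refine and_congr_left' ?_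
    change ProjGenLinGroup.mk (r x) = 1 ↔ _
    rw [ProjGenLinGroup.mk_eq_one, GeneralLinearGroup.mem_center_iff_val_mem_range_scalar]
    refine exists_congr fun c => ?_
    rw [Matrix.scalar_apply, Matrix.smul_one_eq_diagonal]
    exact eq_comm
  have : Finite PGL(2, ZMod p) := Finite.of_surjective _ ProjGenLinGroup.mk_surjective
  obtain ⟨P₀, hP₀, hpP⟩ := exists_maximal_mem (Ω := Qb) (Fact.out : p.Prime)
  obtain ⟨i, -⟩ := hR.all P₀ hP₀ hpP
  obtain ⟨hP, -, hw⟩ := hR.max i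
  obtain ⟨hA, g, hg1, hg3⟩ := hR.tri i
  generalize (o i).P = P at hP hw hA hg1
  generalize (o i).A = A at hA hg3
  obtain ⟨D, κ, u, hD, hW, hu, hne, -⟩ := hL P hP hw A hA
  obtain ⟨u2, u3⟩ := hu u hW.mem
  have u4 : u.1 • P = P := (hD.le hW.mem).1
  have k1 : κ 1 = 0 := by simpa using hW.hom.add 1 D.one_mem 1 D.one_mem
  have k2 : ∀ a : ℕ, κ (u.1 ^ a) = a * κ u := fun a => by
    induction a with
    | zero => simpa using k1
    | succ a ih =>
      rw [pow_succ, hW.hom.add _ (D.pow_mem hW.mem a) _ hW.mem, ih]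
      push_cast
      ring
  have k3 : ∀ y ∈ D, κ y⁻¹ = -κ y := fun y hy => by
    have h := hW.hom.add y hy y⁻¹ (D.inv_mem hy)
    rw [mul_inv_cancel, k1] at h
    exact eq_neg_of_add_eq_zero_right h.symm
  obtain ⟨V, hV⟩ := hH K.fixingSubgroup φ.ker (ZMod p) 2 r
    (fun x y => ⟨1, by rw [map_mul, Units.val_mul, one_smul]⟩)
    (fun x hx => ((cut x).1 ((hφ x).1 hx)).1) (idx_LdBas φ) u g (rI r A g 0 0 / rI r A g 1 1).val
    (fun h => hW.ne ((hW.ker _ hW.mem).2 ((hφ _).1 h))) ((hφ _).2 hW.pow) ((hφ _).2 (by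
      have m1 := hD.nrm g ⟨hg1, g.2⟩ u hW.mem
      have m2 := D.pow_mem hW.mem (rI r A g 0 0 / rI r A g 1 1).val
      change g.1 * u.1 * g.1⁻¹ * (u.1 ^ _)⁻¹ ∈ _
      rw [← hW.ker _ (D.mul_mem m1 (D.inv_mem m2)), hW.hom.add _ m1 _ (D.inv_mem m2), k3 _ m2, k2,
        hW.hom.conj g hg1 _ hW.mem, ZMod.natCast_zmod_val, add_neg_cancel]))
    (by
      have e1 : RegU (rI r A u) := reg_ZhImg (hA u u4) u2
        (by rw [u3]; exact mul_ne_zero hW.ne (hne u u4).2)
      have e3 : (r u).val = A.val * rI r A u * A⁻¹.val := by simp [rI, mul_assoc]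
      rw [e3]
      exact regU_conj_LdBas A e1)
    (fun j j0 jn h => hg3 (by
      rw [ZMod.natCast_zmod_val] at h
      have h' : (rI r A g 0 0 / rI r A g 1 1) ^ 2 = 1 := by
        obtain rfl | rfl : j = 1 ∨ j = 2 := by omega
        · rw [pow_one] at h
          rw [h, one_pow]
        · exact h
      rw [div_pow, div_eq_one_iff_eq (pow_ne_zero _ (hne g hg1).2)] at h'
      exact h')) ζ coc fun x hx => hz x ((hφ x).1 hx)
  refine ⟨V - (V.trace / 2) • 1, ?_, fun x => ?_⟩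
  · rw [Matrix.trace_sub, Matrix.trace_smul, Matrix.trace_one, Fintype.card_fin, smul_eq_mul,
      Nat.cast_ofNat, div_mul_cancel₀ _ h2, sub_self]
  · rw [hV x, cj, mul_sub, sub_mul, mul_smul_comm, mul_one, smul_mul_assoc, Units.mul_inv,
      sub_sub_sub_cancel_right]

theorem pkB_stmt (p : ℕ) [Fact p.Prime] (hL : LocBStmt p) (hW : PwStmt p) (hI : ImgStmt p) :
    PkBStmt p := by
  intro K F _ _ r m o hKF hR
  obtain ⟨fb, cut, -⟩ := hL K F r m o hKF hR
  obtain ⟨i1, i2, i3⟩ := hI K F r m o hKF hR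
  have hp := hR.big
  obtain ⟨c, c1, c2⟩ := hW hp
  refine ⟨fun g => c (r g), fb, ⟨le_rfl, fb.two, fun h => absurd (Nat.le_of_dvd two_pos h) (by omega)⟩,
    cut, i1, i3, i2, fun i => ⟨(hR.max i).1, (hR.max i).2.1⟩,
    fun P h1 h2 _ => ⟨h2, hR.all P h1 h2⟩, fun i g hg a b hab => ?_, fun i s t hst => ?_,
    fun g => c1 _, fun A _ _ R γ hγ g h1 h2 => c2 A R γ hγ _ h1 ?_⟩
  · have h := (hR.tri i).1 g hg
    fin_cases a <;> fin_cases b
    exacts [absurd hab (lt_irrefl _), absurd hab (by decide), h, absurd hab (lt_irrefl _)]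
  · obtain ⟨g, h1, h2⟩ := (hR.tri i).2
    obtain ⟨rfl, rfl⟩ : s = 0 ∧ t = 1 := by omega
    exact ⟨g, h1, fun e => h2 (congrArg (· ^ 2) e)⟩
  · rw [← map_pow]
    exact ((cut (g ^ p)).1 h2).1

end Pool.Agent.MP_f68ac8_nt.Ze
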