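import Mathlib
import Pool.Agent.MP_f68ac8_nt.ZhAux
import Pool.Agent.MP_f68ac8_nt.TvBase
import Pool.Agent.MP_f68ac8_nt.LcMb

/-! The adjoint representation is a symmetric square. -/

namespace Pool.Agent.MP_f68ac8_nt.Ze

open Ev Pv Sv Zv
open Matrix

lemma sym_ZhIso {R : Type} [CommRing R] (A : Matrix (Fin 2) (Fin 2) R) :
    symP 3 A = !![A 0 0 ^ 2, A 0 0 * A 0 1, A 0 1 ^ 2;
      2 * A 0 0 * A 1 0, A 0 0 * A 1 1 + A 0 1 * A 1 0, 2 * A 0 1 * A 1 1;
      A 1 0 ^ 2, A 1 0 * A 1 1, A 1 1 ^ 2] := by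
  have h : ∀ a b c d : R, (Polynomial.C a + Polynomial.C b * Polynomial.X) *
      (Polynomial.C c + Polynomial.C d * Polynomial.X) = Polynomial.C (a * c) +
        Polynomial.C (a * d + c * b) * Polynomial.X + Polynomial.C (b * d) * Polynomial.X ^ 2 := by
    intro a b c d
    simp only [map_mul, map_add]
    ring
  ext i j
  fin_cases j <;>
    simp only [symP, of_apply, Fin.zero_eta, Fin.mk_one, Fin.reduceFinMk, Fin.val_zero, Fin.val_one,
      Fin.val_two, Nat.reduceSub, pow_zero, pow_one, mul_one, one_mul, pow_two (_ + _), h] <;>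
    fin_cases i <;>
    simp only [Polynomial.coeff_add, Polynomial.coeff_C_mul, Polynomial.coeff_C,
      Polynomial.coeff_X, Polynomial.coeff_X_pow] <;> simp <;> ring

theorem iso_stmt (p : ℕ) [Fact p.Prime] : IsoStmt p := by
  intro hp
  have h2 : (2 : ZMod p) ≠ 0 := fun h =>
    (Nat.le_of_dvd two_pos ((ZMod.natCast_eq_zero_iff 2 p).1 h)).not_gt hp
  let e : Mt 2 (ZMod p) →ₗ[ZMod p] Vc p 3 :=
    { toFun := fun Z => ![Z 0 1, Z 1 1 - Z 0 0, -Z 1 0]
      map_add' := fun Z Z' => by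
        ext i
        fin_cases i <;> simp <;> ring
      map_smul' := fun c Z => by
        ext i
        fin_cases i <;> simp
        ring }
  let s : Vc p 3 →ₗ[ZMod p] Mt 2 (ZMod p) :=
    { toFun := fun v => !![-v 1 / 2, v 0; -v 2, v 1 / 2]
      map_add' := fun v v' => by
        ext i j
        fin_cases i <;> fin_cases j <;> simp <;> ring
      map_smul' := fun c v => by
        ext i j
        fin_cases i <;> fin_cases j <;> simp <;> ring }
  refine ⟨e, s, ⟨fun v => ?_, fun Z hZ => ?_, fun v => ?_⟩, fun A v => ?_⟩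
  · ext i
    fin_cases i <;> simp [e, s]
    field_simp
    ring
  · rw [trace_fin_two, add_eq_zero_iff_neg_eq] at hZ
    ext i j
    fin_cases i <;> fin_cases j <;> simp [e, s, ← hZ] <;> field_simp <;> ring
  · simp [s, trace_fin_two]
    ring
  · change e (cj A (s v)) = (A.val.det⁻¹ • symP 3 A.val) *ᵥ v
    rw [cj, coe_units_inv, inv_def, Ring.inverse_eq_inv, Matrix.mul_smul, map_smul, smul_mulVec,
      sym_ZhIso, adjugate_fin_two]
    congr 1
    ext i
    fin_cases i <;> simp [e, s, mul_apply, mulVec, dotProduct, Fin.sum_univ_succ] <;>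
      field_simp <;> ring

theorem algB_stmt (p : ℕ) [Fact p.Prime] (H : Kn p) (hP : PolStmt p) (hI : IsoStmt p) (hA : AlgPStmt p) : AlgBStmt p := by
  intro K F _ _ r m o hKF hR
  obtain ⟨p1, p2, p3⟩ := hP K F r m o hKF hR
  obtain ⟨e, s, h1, h2⟩ := hI (lt_trans (by norm_num) hR.big)
  refine ⟨e, s, h1, fun Y Adm => ?_⟩
  have h3 := hA K F (pg r) 1 1 2 hKF p1 1 one_pos one_lt_two
  have h4 : (1 : GK K →* ℤˣ).ker ⊓ (pg r).ker = (AdM.comp r).ker := by
    ext g
    rw [MonoidHom.ker_one, top_inf_eq, MonoidHom.mem_ker, MonoidHom.mem_ker, p2,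
      MonoidHom.comp_apply, (H.ad.1 (ZMod p) 2).2.2.2.1]
  have h5 : ∀ g, (TM r e s Adm).R g = vR (pg r) 1 1 g := fun g => ext_TvBase fun v => by
    obtain ⟨c, -, c1, -⟩ := p3 g
    have e1 : cj (r g) (s v) = cj (rep (pg r) g) (s v) := by
      rw [← inv_mul_cancel_right (rep (pg r) g) (r g), cj_mul_PvTwo,
        (cj_scal_PvTwo (A := rep (pg r) g * (r g)⁻¹)).1
          ⟨c, by rw [Units.val_mul, c1, Matrix.smul_mul, Units.mul_inv]⟩]
    rw [TM_mulVec, e1, h2, vR, pow_one, MonoidHom.one_apply, sg, Units.val_one, Int.cast_one,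
      one_mul]
    rfl
  rw [h4] at h3
  intro E _ _ _ π hC R hR' W w1 w2 w3
  exact h3 E π hC R (fun g => (hR' g).trans (congrArg transpose (h5 g⁻¹))) W w1 w2 w3

end Pool.Agent.MP_f68ac8_nt.Ze
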