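import Mathlib
import Pool.Agent.MP_f68ac8_nt.ZhAux
import Pool.Agent.MP_f68ac8_nt.LcFil
import Pool.Agent.MP_f68ac8_nt.LcOne
import Pool.Agent.MP_f68ac8_nt.ZdLoc1

/-! The local dimension at a wild ordinary prime. -/

namespace Pool.Agent.MP_f68ac8_nt.Ze

open Ev Pv Sv Zv
open NumberField Matrix Module
open scoped Pointwise Topology

/-- extension of an invariant character -/
lemma lift_ZhLoc {p : ℕ} [Fact p.Prime] {K F : IntermediateField ℚ Qb} [NumberField F]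
    (hB : Fb p K F) {P : Ideal OQ} {D' : Subgroup GQ} (hS : LocS p K F P D')
    {ψ : K.fixingSubgroup → ZMod p} {κ θ : GQ → ZMod p} {u : K.fixingSubgroup}
    (hW : LocW F P D' ψ κ u) (hθ : HomL (K := K) P (F.fixingSubgroup ⊓ Dc K P) (fun _ => 1) θ)
    (h0 : θ (u.1 ^ p) = 0) :
    ∃ θ' : GQ → ZMod p, HomL (K := K) P D' (fun _ => 1) θ' ∧
      ∀ g ∈ F.fixingSubgroup ⊓ Dc K P, θ' g = θ g := by
  classical
  obtain ⟨θ₁, a1, e1⟩ := ext_LcOne (D := D') (H := F.fixingSubgroup ⊓ Dc K P) κ θ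
    (fun g hg => hS.ge g hg.1 hg.2.1) hW.hom.add
    (fun g hg => (hW.ker g hg).trans ⟨fun h => ⟨h, hS.le hg⟩, fun h => h.1⟩) hW.mem hW.ne hθ.add
    (fun d hd g hg => (hθ.conj ⟨d, (hS.le hd).2⟩ (hS.le hd).1 g hg).trans (one_mul _)) h0
  have : (D'.subgroupOf (Dc K P)).Normal := ⟨fun g hg x => hS.nrm x x.2 g hg⟩
  obtain ⟨θ₂, a2, c2, e2⟩ := avg_LcOne (G := Dc K P) (D := D'.subgroupOf (Dc K P))
    (H := F.fixingSubgroup.subgroupOf (Dc K P)) (fun _ => 1) (fun x => θ x)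
    (fun x => θ₁ x) hS.idx (fun _ _ => (one_mul _).symm) (fun _ _ => rfl)
    (fun g hg h hh => a1 g hg h hh)
    (fun x g hg => hB.nrm ⟨x.1, x.2.2⟩ g hg) (fun g hg => e1 g ⟨hg, g.2⟩)
    (fun x g hg => hθ.conj ⟨x.1, x.2.2⟩ x.2.1 g ⟨hg, g.2⟩)
  have ev : ∀ g (hg : g ∈ Dc K P),
      (if h : g ∈ Dc K P then θ₂ ⟨g, h⟩ else 0) = θ₂ ⟨g, hg⟩ := fun g hg => dif_pos hg
  refine ⟨fun g => if h : g ∈ Dc K P then θ₂ ⟨g, h⟩ else 0, ⟨fun g hg h hh => ?_, ?_,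
    fun δ hδ g hg => ?_⟩, fun g hg => ?_⟩
  · rw [ev g (hS.le hg), ev h (hS.le hh), ev _ (hS.le (D'.mul_mem hg hh))]
    exact a2 ⟨g, hS.le hg⟩ hg ⟨h, hS.le hh⟩ hh
  · filter_upwards [hθ.nhds, open_LcOne F] with g h1 h2 hg
    rw [ev g (hS.le hg), e2 ⟨g, hS.le hg⟩ h2]
    exact h1 ⟨h2, hS.le hg⟩
  · have hd : δ.1 ∈ Dc K P := ⟨hδ, δ.2⟩
    rw [ev g (hS.le hg), ev _ (hS.le (hS.nrm δ hd g hg))]
    exact c2 ⟨δ.1, hd⟩ ⟨g, hS.le hg⟩ hg
  · dsimp only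
    rw [ev g hg.2]
    exact e2 ⟨g, hg.2⟩ hg.1

lemma tri_ZhLoc {k : Type} [Zero k] {X : Matrix (Fin 2) (Fin 2) k} (h : X 1 0 = 0) :
    X.BlockTriangular id := fun a b e => by
  fin_cases a <;> fin_cases b <;> simp_all

theorem loc1_stmt (p : ℕ) [Fact p.Prime] (hL : LocBStmt p) (hU : LocUrStmt p) (hO : LocOneStmt p) (hI : LocInvStmt p) (hE : Pt.EfStmt p) : Loc1Stmt p := by
  classical
  intro K F _ _ r m o hKF hR i z hz
  obtain ⟨hP, hp, hW⟩ := hR.max i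
  obtain ⟨hFb, -, hloc⟩ := hL K F r m o hKF hR
  obtain ⟨htri, g₁, hg₁, hne₁⟩ := hR.tri i
  obtain ⟨g₂, hg₂, hne₂⟩ := hR.dis i
  obtain ⟨D', κ, u, hLS, hLW, hD', hne, hψ⟩ := hloc _ hP hW (o i).A htri
  have hef := ef_LcFil (K := K) hE hP hp
  have h2 : (2 : ZMod p) ≠ 0 := fun h => by
    have := Nat.le_of_dvd two_pos ((ZMod.natCast_eq_zero_iff 2 p).1 h)
    have := hR.big
    omega
  generalize hM : efP K (o i).P * (1 + if (o i).fix then 0 else 1) = M at z hz ⊢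
  let Z : GQ → (Fin (M + 1) → ZMod p) →ₗ[ZMod p] Mt 2 (ZMod p) := fun g =>
    cjL_TvLoc (o i).A⁻¹ ∘ₗ Fintype.linearCombination (ZMod p) fun j => z j g
  have hZ : ∀ g c, Z g c = cj (o i).A⁻¹ (∑ j, c j • z j g) := fun _ _ => rfl
  have hZs : ∀ g c, Z g c = ∑ j, c j • cj (o i).A⁻¹ (z j g) := fun g c => by
    have h1 : ∀ v : Fin (M + 1) → Mt 2 (ZMod p),
        cjL_TvLoc (o i).A⁻¹ (∑ j, c j • v j) = ∑ j, c j • cj (o i).A⁻¹ (v j) := fun v => by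
      simp only [map_sum, map_smul, cjL_apply_TvLoc]
    exact h1 fun j => z j g
  have Zadd : ∀ c, ∀ g ∈ F.fixingSubgroup, ∀ h ∈ F.fixingSubgroup,
      Z (g * h) c = Z g c + Z h c := fun c g hg h hh => by
    simp only [hZ, (hz _).1.add g hg h hh, smul_add, Finset.sum_add_distrib]
    exact map_add (cjL_TvLoc (o i).A⁻¹) _ _
  have Znh : ∀ c, ∀ᶠ g in 𝓝 (1 : GQ), g ∈ F.fixingSubgroup → Z g c = 0 := fun c =>
    (Filter.eventually_all.2 fun j => (hz j).1.nhds).mono fun g hg h => by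
      simp only [hZ, hg _ h, smul_zero, Finset.sum_const_zero]
      exact map_zero (cjL_TvLoc (o i).A⁻¹)
  have Zpw : ∀ c, Z (u.1 ^ p) c = 0 := fun c => by
    simp only [hZ, (hz _).2.2 u.1 u.2 hLW.pow, smul_zero, Finset.sum_const_zero]
    exact map_zero (cjL_TvLoc (o i).A⁻¹)
  have Ztr : ∀ c, ∀ g ∈ F.fixingSubgroup, (Z g c).trace = 0 := fun c g hg => by
    simp only [hZ, trace_cj_TvLoc, trace_sum, trace_smul, (hz _).1.tr g hg, smul_zero,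
      Finset.sum_const_zero]
  have Zcj : ∀ c (δ : GK K), ∀ h ∈ F.fixingSubgroup,
      Z (δ * h * δ.1⁻¹) c = cj ((o i).A⁻¹ * r δ * (o i).A) (Z h c) := fun c δ h hh => by
    rw [hZs, hZs, ← cjL_apply_TvLoc, map_sum]
    refine Finset.sum_congr rfl fun j _ => ?_
    rw [map_smul, cjL_apply_TvLoc, (hz j).1.conj δ h hh]
    simp only [cj, _root_.mul_inv_rev, inv_inv, Units.val_mul, Matrix.mul_assoc,
      Units.mul_inv_cancel_left]
  have Ztri : ∀ c, ∀ g ∈ F.fixingSubgroup ⊓ Dc K (o i).P, (Z g c).BlockTriangular id :=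
    fun c g hg s t e => by
      rw [hZs, Matrix.sum_apply]
      exact Finset.sum_eq_zero fun l _ => by
        rw [Matrix.smul_apply, ((hz l).2.1 g hg.1 hg.2.1).1 e, smul_zero]
  let ent : Fin 2 → Fin 2 → Mt 2 (ZMod p) →ₗ[ZMod p] ZMod p := fun s t =>
    Matrix.entryLinearMap (ZMod p) (ZMod p) s t
  let C : (Mt 2 (ZMod p) →ₗ[ZMod p] ZMod p) → Submodule (ZMod p) (Fin (M + 1) → ZMod p) :=
    fun l => ⨅ g ∈ F.fixingSubgroup ⊓ Dc K (o i).P, LinearMap.ker (l ∘ₗ Z g)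
  have hC : ∀ l c, c ∈ C l ↔ ∀ g ∈ F.fixingSubgroup ⊓ Dc K (o i).P, l (Z g c) = 0 :=
    fun l c => by simp only [C, Submodule.mem_iInf, LinearMap.mem_ker, LinearMap.comp_apply]
  have hC' : ∀ l (N : ℕ) (c : Fin N → ZMod p) (x : Fin N → _),
      (∀ g ∈ F.fixingSubgroup ⊓ Dc K (o i).P, ∑ j, c j * l (Z g (x j)) = 0) →
      ∑ j, c j • x j ∈ C l := fun l N c x h => (hC _ _).2 fun g hg => by
    simpa only [map_sum, map_smul, smul_eq_mul] using h g hg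
  have hom : ∀ (l : Mt 2 (ZMod p) →ₗ[ZMod p] ZMod p) c (φ : GK K → ZMod p),
      (∀ δ : GK K, δ.1 • (o i).P = (o i).P → ∀ g ∈ F.fixingSubgroup ⊓ Dc K (o i).P,
        l (cj ((o i).A⁻¹ * r δ * (o i).A) (Z g c)) = φ δ * l (Z g c)) →
      HomL (o i).P (F.fixingSubgroup ⊓ Dc K (o i).P) φ fun g => l (Z g c) := fun l c φ h =>
    ⟨fun g hg h hh => by rw [Zadd c g hg.1 h hh.1, map_add],
      (Znh c).mono fun g hg h => by rw [hg h.1, map_zero],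
      fun δ hδ g hg => by rw [Zcj c δ g hg.1, h δ hδ g hg]⟩
  obtain ⟨N, hN, hd⟩ : ∃ N, efP K (o i).P - 1 + N = M ∧
      ∀ x : Fin (N + 1) → Fin (M + 1) → ZMod p, ∃ c : Fin (N + 1) → ZMod p, c ≠ 0 ∧
        ∑ j, c j • x j ∈ C (ent 0 0 - ent 1 1) := by
    by_cases hf : (o i).fix
    · refine ⟨1, by rw [← hM, if_pos hf]; omega, fun x => ?_⟩
      obtain ⟨σ, -, -, hσ⟩ := hU K F hFb (o i).P hP
      obtain ⟨c, hc, h1⟩ := two_ZdLoc1 fun j => (ent 0 0 - ent 1 1) (Z σ (x j))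
      refine ⟨c, hc, (hC _ _).2 fun g hg => (hσ (ZMod p)
        (fun g => (ent 0 0 - ent 1 1) (Z g (∑ j, c j • x j)))
        (fun g hg h hh => by rw [Zadd _ g hg h hh, map_add])
        ((Znh _).mono fun g hg h => by rw [hg h, map_zero]) fun g hg => ?_).2 ?_ g hg.1 hg.2.1⟩
      · rw [hZs, map_sum]
        refine Finset.sum_eq_zero fun l _ => ?_
        have h2 := ((hz l).2.1 g hg.2.2 (Ideal.inertia_le_stabilizer _ hg.2.1)).2 hf hg.2.1 0 1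
        rw [zero_mul] at h2
        rw [map_smul]
        exact smul_eq_zero_of_right _ h2
      · simpa only [map_sum, map_smul, smul_eq_mul] using h1
    · refine ⟨efP K (o i).P + 1, by rw [← hM, if_neg hf]; omega, fun x => ?_⟩
      choose θ' k1 k2 using fun j => lift_ZhLoc hFb hLS hLW (hom (ent 0 0 - ent 1 1) (x j) _
        fun δ hδ g hg => by
          rw [one_mul]
          exact congrArg₂ (· - ·) (dg_ZdLoc1 (tri_ZhLoc (htri δ hδ)) (Ztri _ g hg) 0)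
            (dg_ZdLoc1 (tri_ZhLoc (htri δ hδ)) (Ztri _ g hg) 1)) (by rw [Zpw, map_zero])
      obtain ⟨c, hc, h1⟩ := hI K F hFb (o i).P hP hp _ hLS (hR.free i hf) θ' k1
      refine ⟨c, hc, hC' _ _ c x fun g hg => ?_⟩
      rw [← h1 g (hLS.ge g hg.1 hg.2.1)]
      exact Finset.sum_congr rfl fun j _ => by rw [k2 j g hg]
  have h1 := cod_LcFil (C (ent 0 0 - ent 1 1)) ⊤ N fun x _ => hd x
  rw [finrank_top, finrank_fintype_fun_eq_card, Fintype.card_fin] at h1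
  have hdg : ∀ c ∈ C (ent 0 0 - ent 1 1), ∀ g ∈ F.fixingSubgroup ⊓ Dc K (o i).P, ∀ s t,
      (s, t) ≠ (0, 1) → Z g c s t = 0 := fun c hc g hg s t e => by
    have k1 : Z g c 0 0 - Z g c 1 1 = 0 := (hC _ _).1 hc g hg
    have k2 := Ztr c g hg.1
    rw [trace_fin_two] at k2
    fin_cases s <;> fin_cases t
    · exact (mul_eq_zero.1 (show 2 * Z g c 0 0 = 0 by linear_combination k1 + k2)).resolve_left h2
    · exact absurd rfl e
    · exact Ztri c g hg (show (0 : Fin 2) < 1 by decide)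
    · exact (mul_eq_zero.1 (show 2 * Z g c 1 1 = 0 by linear_combination k2 - k1)).resolve_left h2
  have h3 := cod_LcFil (C (ent 0 0 - ent 1 1) ⊓ C (ent 0 1)) (C (ent 0 0 - ent 1 1))
    (efP K (o i).P - 1) fun x hx => by
      obtain ⟨c, hc, h3⟩ := hO K F hFb _ hP hp D' hLS _ κ u hLW _
        ⟨hψ, fun δ hδ => by rw [(hD' δ hδ).1, div_self (hne δ (hLS.le hδ).1).2],
          ⟨g₁, hg₁, fun e => hne₁ (congrArg (· ^ 2) ((div_eq_one_iff_eq (hne g₁ hg₁).2).1 e))⟩,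
          ⟨g₂, hg₂, fun e => hne₂ ((div_eq_iff (hne g₂ hg₂).2).1 e)⟩⟩ (efP K (o i).P - 1)
        (.inr ⟨by omega, fun _ _ => rfl⟩) (fun j g => ent 0 1 (Z g (x j))) fun j =>
        ⟨hom _ _ _ fun δ hδ g hg => ent_ZdLoc1 (tri_ZhLoc (htri δ hδ))
          fun s t _ _ e => hdg _ (hx j) g hg s t e, by rw [Zpw, map_zero]⟩
      exact ⟨c, hc, sum_mem fun j _ => Submodule.smul_mem _ _ (hx j),
        hC' _ _ c x fun g hg => h3 g hg.1 hg.2.1⟩
  obtain ⟨c, hc, h0⟩ := ex_LcFil (C (ent 0 0 - ent 1 1) ⊓ C (ent 0 1)) (by omega)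
  refine ⟨c, h0, fun g hg h => cj_zero_TvLoc (A := (o i).A⁻¹) ?_⟩
  have hg' : g ∈ F.fixingSubgroup ⊓ Dc K (o i).P := ⟨hg, hLS.le (hLS.ge g hg h)⟩
  rw [← hZ]
  ext s t
  by_cases e : (s, t) = (0, 1)
  · obtain ⟨rfl, rfl⟩ := Prod.mk.inj e
    exact (hC _ _).1 hc.2 g hg'
  · exact hdg c hc.1 g hg' s t e

end Pool.Agent.MP_f68ac8_nt.Ze
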