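import Mathlib
import Pool.Agent.MP_f68ac8_nt.ZhAux
import Pool.Agent.MP_f68ac8_nt.ZdLoc

namespace Pool.Agent.MP_f68ac8_nt.Ze

open Ev Pv Sv Zv NumberField Matrix Module
open scoped Pointwise Topology

theorem locD_stmt (p : ℕ) [Fact p.Prime] (hL : LocBStmt p) (h1 : Loc1Stmt p) : LocDStmt p := by
  classical
  intro K F _ _ r m o hKF hR cc T hs
  have hFb := (hL K F r m o hKF hR).1
  obtain ⟨N, hN⟩ : ∃ N, N = ordExp K o := ⟨_, rfl⟩
  rw [← hN]
  intro f hf
  have hT := tg_LcFil fun j => (hf j).1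
  have hT' : ∀ c : Fin (N + 1) → ZMod p, Sv.Tg (TM r T.e T.s fun _ => True) F
      fun g => ∑ j, c j • f j g := fun c => ⟨(hT c).add, (hT c).conj, (hT c).nhds⟩
  let Y : GQ → (Fin (N + 1) → ZMod p) →ₗ[ZMod p] Vc p T.k := fun g =>
    Fintype.linearCombination (ZMod p) fun j => f j g
  have hY : ∀ g c, T.s (Y g c) = ∑ j, c j • T.s (f j g) := fun g c => by
    have h2 : ∀ v : Fin (N + 1) → Vc p T.k, T.s (∑ j, c j • v j) = ∑ j, c j • T.s (v j) :=
      fun v => by simp only [map_sum, map_smul]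
    exact h2 fun j => f j g
  have h7 : ∀ v, T.s v = 0 → v = 0 := fun v hv => by rw [← hs.es v, hv, map_zero]
  let C : Fin m → Submodule (ZMod p) (Fin (N + 1) → ZMod p) := fun i =>
    { carrier := {c | ∀ g ∈ F.fixingSubgroup, g • (o i).P = (o i).P → Y g c = 0}
      zero_mem' := fun g _ _ => map_zero _
      add_mem' := fun hx hy g hg h => by rw [map_add, hx g hg h, hy g hg h, add_zero]
      smul_mem' := fun a x hx g hg h => by rw [map_smul, hx g hg h, smul_zero] }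
  let a : Fin m → ℕ := fun i => efP K (o i).P * (1 + if (o i).fix then 0 else 1)
  have ha : ∑ i, a i = ordExp K o := rfl
  have h2 := inf_LcFil Finset.univ C a fun i _ => by
    rw [← finrank_top]
    refine cod_LcFil _ _ _ fun x _ => ?_
    obtain ⟨c, hc, h5⟩ := h1 K F r m o hKF hR i (fun l g => T.s (Y g (x l))) fun l =>
      ⟨basT_TvLoc hs (hT' (x l)), by
        simp only [hY]
        exact locB_ZdLoc (fun b => (hf b).2.1.2 i) (x l), fun g hg hp => by
        simp only [hY]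
        refine Finset.sum_eq_zero fun b _ => ?_
        have h3 : T.s (f b (g ^ p)) = (0 : ZMod p) • cc ⟨g, hg⟩ := (hf b).2.2 ⟨g, hg⟩ hp
        rw [h3, zero_smul, smul_zero]⟩
    refine ⟨c, hc, fun g hg h6 => h7 _ ?_⟩
    simpa only [map_sum, map_smul] using h5 g hg h6
  rw [ha, ← hN, finrank_fintype_fun_eq_card, Fintype.card_fin] at h2
  obtain ⟨c, hc, h0⟩ := ex_LcFil (Finset.univ.inf C) (by omega)
  refine ⟨c, h0, fun P hP hpP g hg h => ?_⟩
  obtain ⟨i, hi⟩ := hR.all P hP hpP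
  obtain ⟨t, ht, rfl⟩ := trans_rel_EvRec K (hR.max i).1 hP hi.symm
  have h3 : t⁻¹ * g * t ∈ F.fixingSubgroup := by
    simpa using hFb.nrm ⟨t, ht⟩⁻¹ g hg
  have h4 := Finset.inf_le (f := C) (Finset.mem_univ i) hc _ h3 (by
    rw [mul_smul, mul_smul, h, inv_smul_smul])
  have h5 := (hT c).conj ⟨t, ht⟩ _ h3
  rw [show t * (t⁻¹ * g * t) * t⁻¹ = g by group] at h5
  exact h5.trans ((congrArg _ h4).trans (mulVec_zero _))

end Pool.Agent.MP_f68ac8_nt.Ze
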