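import Mathlib
import Pool.Agent.MP_f68ac8_nt.OvAux

namespace Pool.Agent.MP_f68ac8_nt.Ev

open NumberField Matrix Finset IsLocalRing
open scoped Pointwise Topology

section alg
variable {n : ℕ} {O : Type} [CommRing O]

/-- the shape of the matrices of inertia elements -/
def Shp_OvLead2 (b : Fin n → ℕ) (η : ℕ → O) (R : Mt n O) : Prop :=
  ∀ i j, b j ≤ b i → R i j = if i = j then η (b i) else 0

lemma dvd_OvLead2 (b : Fin n → ℕ) (q : O) (B : Mt n O)
    (h : ∀ i j, b i ≠ b j → ∃ (η : ℕ → O) (R R₀ W : Mt n O), Shp_OvLead2 b η R ∧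
      Shp_OvLead2 b η R₀ ∧ B * R - R₀ * B = q • W ∧ IsUnit (η (b j) - η (b i))) :
    ∀ i j, b j < b i → q ∣ B i j := by
  obtain ⟨M, hM⟩ : ∃ M : ℕ, ∀ i, b i ≤ M :=
    ⟨univ.sup b, fun i => Finset.le_sup (f := b) (mem_univ i)⟩
  suffices H : ∀ (d : ℕ) i j, b j < b i → M - (b i - b j) = d → q ∣ B i j from
    fun i j hij => H _ i j hij rfl
  intro d
  induction d using Nat.strong_induction_on with
  | _ d ih =>
  intro i j hij hd
  obtain ⟨η, R, R₀, W, hR, hR₀, hE, hu⟩ := h i j hij.ne'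
  have h1 : q ∣ (B * R) i j - B i j * η (b j) := by
    have : (B * R) i j - B i j * η (b j) =
        ∑ k, (B i k * R k j - if k = j then B i j * η (b j) else 0) := by
      rw [Finset.sum_sub_distrib, Matrix.mul_apply]; simp
    rw [this]
    refine Finset.dvd_sum fun k _ => ?_
    by_cases hk : b j ≤ b k
    · rw [hR k j hk]
      by_cases hkj : k = j
      · subst hkj; simp
      · simp [hkj]
    · have hkj : k ≠ j := by rintro rfl; exact hk le_rfl
      have hi := hM i
      rw [if_neg hkj, sub_zero]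
      exact (ih (M - (b i - b k)) (by omega) i k (by omega) rfl).mul_right _
  have h2 : q ∣ (R₀ * B) i j - η (b i) * B i j := by
    have : (R₀ * B) i j - η (b i) * B i j =
        ∑ k, (R₀ i k * B k j - if k = i then η (b i) * B i j else 0) := by
      rw [Finset.sum_sub_distrib, Matrix.mul_apply]; simp
    rw [this]
    refine Finset.dvd_sum fun k _ => ?_
    by_cases hk : b k ≤ b i
    · rw [hR₀ i k hk]
      by_cases hki : k = i
      · subst hki; simp
      · simp [hki, Ne.symm hki]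
    · have hki : k ≠ i := by rintro rfl; exact hk le_rfl
      have hk' := hM k
      rw [if_neg hki, sub_zero]
      exact (ih (M - (b k - b j)) (by omega) k j (by omega) rfl).mul_left _
  have h3 : q ∣ (B * R) i j - (R₀ * B) i j := by
    have := congrFun (congrFun hE i) j
    rw [Matrix.sub_apply, Matrix.smul_apply, smul_eq_mul] at this
    exact ⟨_, this⟩
  have h4 : q ∣ (η (b j) - η (b i)) * B i j := by
    have := dvd_add (dvd_sub h3 h1) h2
    convert this using 1
    ring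
  exact (hu.dvd_mul_left).mp h4

lemma comm_OvLead2 (b : Fin n → ℕ) (η : ℕ → O) (B R R₀ : Mt n O) (hB : B.BlockTriangular b)
    (hR : Shp_OvLead2 b η R) (hR₀ : Shp_OvLead2 b η R₀) (i j : Fin n) (hij : b j ≤ b i) :
    (B * R - R₀ * B) i j = 0 := by
  have h1 : (B * R) i j = B i j * η (b j) := by
    rw [Matrix.mul_apply, Finset.sum_eq_single j]
    · rw [hR j j le_rfl, if_pos rfl]
    · intro k _ hk
      by_cases hb : b k < b i
      · rw [hB hb, zero_mul]
      · rw [hR k j (by omega), if_neg hk, mul_zero]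
    · simp
  have h2 : (R₀ * B) i j = η (b i) * B i j := by
    rw [Matrix.mul_apply, Finset.sum_eq_single i]
    · rw [hR₀ i i le_rfl, if_pos rfl]
    · intro k _ hk
      by_cases hb : b j < b k
      · rw [hB hb, mul_zero]
      · rw [hR₀ i k (by omega), if_neg (Ne.symm hk), zero_mul]
    · simp
  rw [Matrix.sub_apply, h1, h2]
  rcases hij.lt_or_eq with h | h
  · rw [hB h]; simp
  · rw [h]; ring

lemma strict_OvLead2 (b : Fin n → ℕ) (X U : Mt n O) (hU : IsUnit U) (hb : U.BlockTriangular b)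
    (h : ∀ i j, b j ≤ b i → (X * U) i j = 0) (i j : Fin n) (hij : b j ≤ b i) : X i j = 0 := by
  letI := hU.invertible
  have hinv := Matrix.blockTriangular_inv_of_blockTriangular hb
  have : X = X * U * U⁻¹ := by
    rw [Matrix.mul_assoc, Matrix.mul_inv_of_invertible, Matrix.mul_one]
  rw [this, Matrix.mul_apply]
  refine Finset.sum_eq_zero fun k _ => ?_
  by_cases hk : b k ≤ b i
  · rw [h i k hk, zero_mul]
  · rw [hinv (show b j < b k by omega), mul_zero]

lemma main_OvLead2 [IsDomain O] {k : Type} [CommRing k] (π : O →+* k) (b : Fin n → ℕ) (q : O)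
    (hq : q ≠ 0) (hπ : π q = 0) (η : ℕ → O) (B R R₀ X : Mt n O) (hB : IsUnit B)
    (hu : IsUnit R₀) (hd : ∀ i j, b j < b i → q ∣ B i j) (hR : Shp_OvLead2 b η R)
    (hR₀ : Shp_OvLead2 b η R₀) (hE : B * R - R₀ * B = q • (X * (R₀ * B))) (c : k)
    (h1 : R.map π = c • 1) (h2 : R₀.map π = c • 1) (i j : Fin n) (hij : b j ≤ b i) :
    X.map π i j = 0 := by
  classical
  have hd' : ∀ i j, ∃ y, b j < b i → B i j = q * y := by
    intro i j
    by_cases h : b j < b i
    · obtain ⟨y, hy⟩ := hd i j h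
      exact ⟨y, fun _ => hy⟩
    · exact ⟨0, fun h' => absurd h' h⟩
  choose y hy using hd'
  set B₂ : Mt n O := Matrix.of y with hB₂
  set B₁ : Mt n O := B - q • B₂ with hB₁
  have hT : B₁.BlockTriangular b := by
    intro i j h
    simp [hB₁, hB₂, hy i j h]
  have hBB : B = B₁ + q • B₂ := by simp [hB₁]
  have hπB : B.map π = B₁.map π := by
    ext i j
    rw [hBB]
    simp [hπ]
  refine strict_OvLead2 b (X.map π) ((R₀ * B).map π) ?_ ?_ ?_ i j hij
  · exact (hu.mul hB).map π.mapMatrix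
  · rw [Matrix.map_mul, h2, hπB, Matrix.smul_mul, Matrix.one_mul]
    intro i j h
    simp [hT h]
  · intro i j hij
    have e1 : q • (X * (R₀ * B)) = (B₁ * R - R₀ * B₁) + q • (B₂ * R - R₀ * B₂) := by
      rw [← hE]
      conv_lhs => rw [hBB]
      rw [Matrix.add_mul, Matrix.mul_add, Matrix.smul_mul, Matrix.mul_smul, smul_sub]
      abel
    have e2 := congrFun (congrFun e1 i) j
    rw [Matrix.add_apply, comm_OvLead2 b η B₁ R R₀ hT hR hR₀ i j hij, zero_add,
      Matrix.smul_apply, Matrix.smul_apply, smul_eq_mul, smul_eq_mul] at e2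
    have e3 := mul_left_cancel₀ hq e2
    rw [← Matrix.map_mul, Matrix.map_apply, e3]
    have e4 : (B₂ * R - R₀ * B₂).map π = 0 := by
      rw [Matrix.map_sub _ (map_sub π), Matrix.map_mul, Matrix.map_mul, h1, h2, Matrix.mul_smul,
        Matrix.smul_mul, Matrix.mul_one, Matrix.one_mul, sub_self]
    exact congrFun (congrFun e4 i) j

end alg

theorem lead2_stmt' (p : ℕ) [Fact p.Prime] : Lead2Stmt' p := by
  intro K F _ n D hD O _ _ _ _ k _ _ π hπ ρ ϖ e Z hL P hP hp A hA g hg i j hij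
  obtain ⟨hO, hsep⟩ := hD.ord P hP hp
  set φ := algebraMap ℤ_[p] O with hφ
  set m : GL (Fin n) ℤ_[p] →* GL (Fin n) O := GeneralLinearGroup.map φ with hm
  set A₀ := m (D.A P) with hA₀
  have hval : ∀ C : GL (Fin n) ℤ_[p], (m C).val = C.val.map φ := fun C => rfl
  have hS : ∀ u : K.fixingSubgroup, u.1 ∈ P.inertia GQ →
      Shp_OvLead2 (D.b P) (fun i => φ (D.η P u i)) (A⁻¹ * ρ u * A).val := by
    intro u hu i j h
    exact hA u (Ideal.inertia_le_stabilizer P hu) i j h (Or.inr hu)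
  have hS₀ : ∀ u : K.fixingSubgroup, u.1 ∈ P.inertia GQ →
      Shp_OvLead2 (D.b P) (fun i => φ (D.η P u i)) (A₀⁻¹ * m (D.ρ u) * A₀).val := by
    intro u hu i j h
    have := hO u (Ideal.inertia_le_stabilizer P hu) i j h (Or.inr hu)
    rw [hA₀, ← map_inv, ← map_mul, ← map_mul, hval, Matrix.map_apply, this]
    split_ifs <;> simp
  have hE : ∀ u : K.fixingSubgroup,
      (A₀⁻¹ * A).val * (A⁻¹ * ρ u * A).val - (A₀⁻¹ * m (D.ρ u) * A₀).val * (A₀⁻¹ * A).val =
        ϖ ^ e • ((A₀⁻¹.val * Z u * A₀.val) *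
          ((A₀⁻¹ * m (D.ρ u) * A₀).val * (A₀⁻¹ * A).val)) := by
    intro u
    have e1 : (A₀⁻¹ * A) * (A⁻¹ * ρ u * A) = A₀⁻¹ * ρ u * A := by group
    have e2 : (A₀⁻¹ * m (D.ρ u) * A₀) * (A₀⁻¹ * A) = A₀⁻¹ * m (D.ρ u) * A := by group
    have e3 : A₀.val * (A₀⁻¹ * m (D.ρ u) * A).val = (m (D.ρ u)).val * A.val := by
      rw [← Units.val_mul, ← Units.val_mul]; congr 1; group
    rw [← Units.val_mul, ← Units.val_mul, e1, e2, Matrix.mul_assoc _ A₀.val, e3,
      Units.val_mul, Units.val_mul, Units.val_mul, Units.val_mul, hL.eq u, ← hval]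
    simp only [Matrix.add_mul, Matrix.mul_add, Matrix.one_mul, Matrix.smul_mul, Matrix.mul_smul,
      Matrix.mul_assoc]
    abel
  have hϖ : π (ϖ ^ e) = 0 := by
    rw [map_pow, (hπ.ker ϖ).mpr hL.irr.not_isUnit, zero_pow hL.pos.ne']
  have hd : ∀ i j, D.b P j < D.b P i → ϖ ^ e ∣ (A₀⁻¹ * A).val i j := by
    refine dvd_OvLead2 (D.b P) _ _ fun i j h => ?_
    obtain ⟨u, hu, hne⟩ := hsep i j h
    refine ⟨_, _, _, _, hS u hu, hS₀ u hu, hE u, ?_⟩
    by_contra hn
    have h0 := (hπ.ker _).mpr hn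
    rw [map_sub, hπ.comp, hπ.comp, sub_eq_zero] at h0
    exact hne ((algebraMap (ZMod p) k).injective h0).symm
  obtain ⟨c, hc⟩ := hD.scal g hg.2.2
  have hmap : ∀ C : Mt n ℤ_[p], (C.map φ).map π =
      (C.map PadicInt.toZMod).map (algebraMap (ZMod p) k) := by
    intro C
    ext i j
    exact hπ.comp _
  have hr : (m (D.ρ g)).val.map π = algebraMap (ZMod p) k c • 1 := by
    rw [hval, hmap]
    have : (D.ρ g).val.map PadicInt.toZMod = c • 1 := hc
    rw [this]
    ext i j
    by_cases h : i = j <;> simp [h, Matrix.one_apply]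
  have hr' : (ρ g).val.map π = algebraMap (ZMod p) k c • 1 := by
    rw [hL.eq g, ← hval, Matrix.map_mul, hr]
    have : (1 + ϖ ^ e • Z g).map π = 1 := by
      ext i j
      by_cases h : i = j <;> simp [h, Matrix.one_apply, ← map_pow, hϖ]
    rw [this, Matrix.one_mul]
  have hcj : ∀ (C T : GL (Fin n) O), T.val.map π = algebraMap (ZMod p) k c • 1 →
      (C⁻¹ * T * C).val.map π = algebraMap (ZMod p) k c • 1 := by
    intro C T h
    rw [Units.val_mul, Units.val_mul, Matrix.map_mul, Matrix.map_mul, h, Matrix.mul_smul,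
      Matrix.mul_one, Matrix.smul_mul, ← Matrix.map_mul, ← Units.val_mul, inv_mul_cancel,
      Units.val_one, Matrix.map_one _ (map_zero π) (map_one π)]
  have key := main_OvLead2 π (D.b P) (ϖ ^ e) (pow_ne_zero _ hL.irr.ne_zero) hϖ _ _ _ _ _
    (A₀⁻¹ * A).isUnit (A₀⁻¹ * m (D.ρ g) * A₀).isUnit hd (hS g hg.2.1) (hS₀ g hg.2.1) (hE g) _
    (hcj A _ hr') (hcj A₀ _ hr) i j hij
  rw [Matrix.map_mul, Matrix.map_mul, hA₀, ← map_inv, hval, hval, hmap, hmap] at key
  exact key

end Pool.Agent.MP_f68ac8_nt.Ev
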