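import Mathlib
import Pool.Agent.MP_f68ac8_nt.LdAux
import Pool.Agent.MP_f68ac8_nt.OvLead2

namespace Pool.Agent.MP_f68ac8_nt.Sv

open Ev Pv
open Matrix Finset IsLocalRing

section alg
variable {n : ℕ}

lemma diag_LdOrdA {O : Type} [CommRing O] (A B : Mt n O) (hA : A.BlockTriangular id)
    (hB : B.BlockTriangular id) (j : Fin n) : (A * B) j j = A j j * B j j := by
  rw [Matrix.mul_apply, Finset.sum_eq_single j]
  · intro k _ hk
    rcases lt_or_gt_of_ne hk with h | h
    · rw [hA (show id k < id j from h), zero_mul]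
    · rw [hB (show id j < id k from h), mul_zero]
  · simp

lemma dvd_LdOrdA {O : Type} [CommRing O] (q : O) (B R R₀ W : Mt n O)
    (hR : R.BlockTriangular id) (hR₀ : R₀.BlockTriangular id) (hE : B * R - R₀ * B = q • W)
    (hu : ∀ i j, j < i → IsUnit (R j j - R₀ i i)) : ∀ i j, j < i → q ∣ B i j := by
  suffices H : ∀ (d : ℕ) (i j : Fin n), j < i → n - (i.val - j.val) = d → q ∣ B i j from
    fun i j hij => H _ i j hij rfl
  intro d
  induction d using Nat.strong_induction_on with
  | _ d ih =>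
  intro i j hij hd
  have hij' : j.val < i.val := hij
  have h1 : q ∣ (B * R) i j - B i j * R j j := by
    have : (B * R) i j - B i j * R j j =
        ∑ k, (B i k * R k j - if k = j then B i j * R j j else 0) := by
      rw [Finset.sum_sub_distrib, Matrix.mul_apply]; simp
    rw [this]
    refine Finset.dvd_sum fun k _ => ?_
    rcases lt_trichotomy k j with hk | hk | hk
    · have hk' : k.val < j.val := hk
      have hi := i.isLt
      rw [if_neg hk.ne, sub_zero]
      exact (ih (n - (i.val - k.val)) (by omega) i k (hk.trans hij) rfl).mul_right _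
    · subst hk; simp
    · rw [hR (show id j < id k from hk), if_neg hk.ne']; simp
  have h2 : q ∣ (R₀ * B) i j - R₀ i i * B i j := by
    have : (R₀ * B) i j - R₀ i i * B i j =
        ∑ k, (R₀ i k * B k j - if k = i then R₀ i i * B i j else 0) := by
      rw [Finset.sum_sub_distrib, Matrix.mul_apply]; simp
    rw [this]
    refine Finset.dvd_sum fun k _ => ?_
    rcases lt_trichotomy k i with hk | hk | hk
    · rw [hR₀ (show id k < id i from hk), if_neg hk.ne]; simp
    · subst hk; simp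
    · have hk' : i.val < k.val := hk
      have hi := k.isLt
      rw [if_neg hk.ne', sub_zero]
      exact (ih (n - (k.val - j.val)) (by omega) k j (hij.trans hk) rfl).mul_left _
  have h3 : q ∣ (B * R) i j - (R₀ * B) i j := by
    have := congrFun (congrFun hE i) j
    rw [Matrix.sub_apply, Matrix.smul_apply, smul_eq_mul] at this
    exact ⟨_, this⟩
  have h4 : q ∣ (R j j - R₀ i i) * B i j := by
    have := dvd_add (dvd_sub h3 h1) h2
    convert this using 1
    ring
  exact ((hu i j hij).dvd_mul_left).mp h4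

lemma unit_LdOrdA {O : Type} [CommRing O] [IsLocalRing O] {k : Type} [Field k] {π : O →+* k}
    (h : Rs π) {x : O} (hx : π x ≠ 0) : IsUnit x := by
  by_contra hn
  exact hx ((h.ker x).2 hn)

end alg

theorem ordA_stmt : OrdAStmt := by
  classical
  intro O _ _ _ k _ π n τ M R₀ R₀' X₀ R R' Y c hπ hτ hπτ hR₀ hR₀' hE hsep hR hR' hM hc h1 h2
  have hd := dvd_LdOrdA τ M.val R₀' R₀ X₀ hR₀' hR₀ hE fun i j hij =>
    unit_LdOrdA hπ (by rw [map_sub, sub_ne_zero]; exact hsep i j hij)
  have hd' : ∀ i j : Fin n, ∃ y, j < i → M.val i j = τ * y := by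
    intro i j
    by_cases h : j < i
    · obtain ⟨y, hy⟩ := hd i j h
      exact ⟨y, fun _ => hy⟩
    · exact ⟨0, fun h' => absurd h' h⟩
  choose y hy using hd'
  obtain ⟨B, hB⟩ : ∃ B : Mt n O, B = Matrix.of y := ⟨_, rfl⟩
  obtain ⟨T, hT'⟩ : ∃ T : Mt n O, T = M.val - τ • B := ⟨_, rfl⟩
  have hT : T.BlockTriangular id := by
    intro i j h
    simp [hT', hB, hy i j h]
  have hMT : M.val = T + τ • B := by simp [hT']
  have hπM : M.val.map π = T.map π := by
    ext i j
    rw [hMT]
    simp [hπτ]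
  obtain ⟨V, hV⟩ : ∃ V : Mt n O, V = Y * R * M.val + (R * B - B * R') := ⟨_, rfl⟩
  have e1 : T * R' - R * T = τ • V := by
    have e0 : T = M.val - τ • B := hT'
    rw [e0, hV, Matrix.sub_mul, Matrix.mul_sub, hM]
    simp only [Matrix.add_mul, Matrix.one_mul, Matrix.smul_mul, Matrix.mul_smul, smul_add,
      smul_sub]
    abel
  have hVt : V.BlockTriangular id := by
    intro i j h
    have e2 := congrFun (congrFun e1 i) j
    rw [Matrix.sub_apply, (hT.mul hR') h, (hR.mul hT) h, sub_self, Matrix.smul_apply,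
      smul_eq_mul] at e2
    exact (mul_eq_zero.1 e2.symm).resolve_left hτ
  have hπV : V.map π = c • (Y.map π * M.val.map π) := by
    rw [hV, Matrix.map_add _ (map_add π), Matrix.map_sub _ (map_sub π), Matrix.map_mul,
      Matrix.map_mul, Matrix.map_mul, Matrix.map_mul, h1, h2]
    simp only [Matrix.mul_smul, Matrix.smul_mul, Matrix.mul_one, Matrix.one_mul, sub_self,
      add_zero]
  have hU : IsUnit (M.val.map π) := M.isUnit.map π.mapMatrix
  have hUt : (M.val.map π).BlockTriangular id := by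
    rw [hπM]
    intro i j h
    simp [hT h]
  have hYt : (Y.map π).BlockTriangular id := by
    let _ := hU.invertible
    have hinv := Matrix.blockTriangular_inv_of_blockTriangular hUt
    have e3 : Y.map π = c⁻¹ • (V.map π * (M.val.map π)⁻¹) := by
      rw [hπV, Matrix.smul_mul, smul_smul, inv_mul_cancel₀ hc, one_smul, Matrix.mul_assoc,
        Matrix.mul_inv_of_invertible, Matrix.mul_one]
    have hVt' : (V.map π).BlockTriangular id := by
      intro i j h
      simp [hVt h]
    rw [e3]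
    intro i j h
    rw [Matrix.smul_apply, (hVt'.mul hinv) h, smul_zero]
  refine ⟨hYt, ?_⟩
  rintro ⟨δ, hδ⟩ htr hn a
  have hdg : ∀ j, π (T j j) ≠ 0 := by
    intro j hj
    have e4 := (Matrix.isUnit_iff_isUnit_det _).1 hU
    rw [Matrix.det_of_isUpperTriangular hUt] at e4
    refine e4.ne_zero (Finset.prod_eq_zero (mem_univ j) ?_)
    rw [hπM]
    exact hj
  have hRj : ∀ j, π (R' j j) = c := by
    intro j
    have := congrFun (congrFun h2 j) j
    simpa using this
  have e5 : ∀ j, τ * V j j = T j j * R' j j * (1 - δ) := by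
    intro j
    have e2 := congrFun (congrFun e1 j) j
    rw [Matrix.sub_apply, diag_LdOrdA _ _ hT hR', diag_LdOrdA _ _ hR hT, Matrix.smul_apply,
      smul_eq_mul, hδ j] at e2
    rw [← e2]
    ring
  have e6 : ∀ j, π (V j j) = c * (Y.map π j j * π (T j j)) := by
    intro j
    have e2 := congrFun (congrFun hπV j) j
    rw [Matrix.smul_apply, diag_LdOrdA _ _ hYt hUt, hπM, smul_eq_mul] at e2
    exact e2
  have e7 : ∀ b, Y.map π b b = Y.map π a a := by
    intro b
    have e8 : V b b * (T a a * R' a a) = V a a * (T b b * R' b b) := by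
      refine mul_left_cancel₀ hτ ?_
      rw [← mul_assoc, ← mul_assoc τ, e5, e5]
      ring
    have e9 := congrArg π e8
    simp only [map_mul, e6, hRj] at e9
    have e10 : (c * c * π (T a a) * π (T b b)) * (Y.map π b b - Y.map π a a) = 0 := by
      linear_combination e9
    exact sub_eq_zero.1 ((mul_eq_zero.1 e10).resolve_left
      (mul_ne_zero (mul_ne_zero (mul_ne_zero hc hc) (hdg a)) (hdg b)))
  have e11 : (Y.map π).trace = (n : k) * Y.map π a a := by
    rw [Matrix.trace]
    simp only [Matrix.diag_apply, e7]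
    simp
  rw [e11] at htr
  exact (mul_eq_zero.1 htr).resolve_left hn

section st
variable {n : ℕ}

lemma tr_LdOrdA {L : Type} [Field L] (N : Mt n L) (hN : IsNilpotent N) (q : ℕ) :
    ((1 + N) ^ q).trace = n := by
  have h1 : (∑ i ∈ range q, (1 + N) ^ i) * N = (1 + N) ^ q - 1 := by
    have := geom_sum_mul (1 + N) q
    rwa [add_sub_cancel_left] at this
  have h2 : Commute (∑ i ∈ range q, (1 + N) ^ i) N :=
    Commute.sum_left _ _ _ fun i _ => ((Commute.one_left N).add_left (Commute.refl N)).pow_left i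
  have h3 : IsNilpotent ((1 + N) ^ q - 1) := h1 ▸ h2.isNilpotent_mul_left hN
  have h4 := (Matrix.isNilpotent_trace_of_isNilpotent h3).eq_zero
  rw [Matrix.trace_sub, Matrix.trace_one, sub_eq_zero] at h4
  simpa using h4

lemma one_LdOrdA (h : St1Stmt) {O : Type} [CommRing O] [IsDomain O] [IsLocalRing O] {k : Type}
    [Field k] {π : O →+* k} (hπ : Rs π) (q : ℕ) (A U : GL (Fin n) O) (hn : 0 < n)
    (hnk : (n : k) ≠ 0) (hq : (q : k) ^ n ≠ 1) (hU : RegU U.val)
    (ht : ∃ t : O, (A * U).val = t • (U ^ q * A).val) : ∃ α : O, IsUnit α ∧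
      (∀ j : ℕ, (A.val ^ j).trace = α ^ j * ∑ s ∈ range n, ((q : O) ^ s) ^ j) ∧
      A.val.det = α ^ n * ∏ s ∈ range n, (q : O) ^ s := by
  classical
  obtain ⟨c, hc1, hc2⟩ := hU
  obtain ⟨t, ht⟩ := ht
  have : Nonempty (Fin n) := ⟨⟨0, hn⟩⟩
  obtain ⟨φ, hφ⟩ : ∃ φ : O →+* FractionRing O, Function.Injective φ :=
    ⟨algebraMap O (FractionRing O), IsFractionRing.injective O _⟩
  have hinj : Function.Injective (φ.mapMatrix : Mt n O →+* Mt n (FractionRing O)) := by
    intro X Y hXY
    ext i j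
    exact hφ (congrFun (congrFun hXY i) j)
  have hsm : ∀ (x : O) (X : Mt n O), φ.mapMatrix (x • X) = φ x • φ.mapMatrix X := by
    intro x X
    ext i j
    simp
  have hc0 : c ≠ 0 := by
    rintro rfl
    rw [zero_smul, sub_zero] at hc1
    exact (U.isUnit.pow n).ne_zero hc1
  have hc0' : φ c ≠ 0 := fun h0 => hc0 (hφ (by rw [h0, map_zero]))
  obtain ⟨N, hN⟩ : ∃ N : Mt n (FractionRing O), N = (φ c)⁻¹ • φ.mapMatrix (U.val - c • 1) :=
    ⟨_, rfl⟩
  have hN1 : φ.mapMatrix U.val = φ c • (1 + N) := by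
    rw [hN, smul_add, smul_smul, mul_inv_cancel₀ hc0', one_smul, map_sub, hsm, map_one]
    abel
  have hNn : N ^ n = 0 := by
    rw [hN, smul_pow, ← map_pow, hc1, map_zero, smul_zero]
  have hNn' : N ^ (n - 1) ≠ 0 := by
    rw [hN, smul_pow, ← map_pow]
    refine smul_ne_zero (pow_ne_zero _ (inv_ne_zero hc0')) fun h0 => hc2 (hinj ?_)
    rw [h0, map_zero]
  obtain ⟨A₁, hA₁⟩ : ∃ A₁ : Mt n (FractionRing O), A₁ = φ.mapMatrix A.val := ⟨_, rfl⟩
  obtain ⟨A₂, hA₂⟩ : ∃ A₂ : Mt n (FractionRing O), A₂ = φ.mapMatrix (A⁻¹).val := ⟨_, rfl⟩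
  have h12 : A₁ * A₂ = 1 := by rw [hA₁, hA₂, ← map_mul, Units.mul_inv, map_one]
  have h21 : A₂ * A₁ = 1 := by rw [hA₁, hA₂, ← map_mul, Units.inv_mul, map_one]
  have e1 : A₁ * (1 + N) = ((φ c)⁻¹ * (φ t * φ c ^ q)) • ((1 + N) ^ q * A₁) := by
    have e0 := congrArg φ.mapMatrix ht
    rw [hsm, Units.val_mul, Units.val_mul, Units.val_pow_eq_pow_val, map_mul, map_mul, map_pow,
      hN1, ← hA₁, smul_pow, Matrix.mul_smul, Matrix.smul_mul, smul_smul] at e0
    rw [mul_smul, ← e0, smul_smul, inv_mul_cancel₀ hc0', one_smul]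
  have hnil : IsNilpotent N := ⟨n, hNn⟩
  have hnO : (n : FractionRing O) ≠ 0 := by
    intro h0
    have : (n : O) = 0 := hφ (by rw [map_natCast, h0, map_zero])
    apply hnk
    rw [← map_natCast π, this, map_zero]
  have e2 : (φ c)⁻¹ * (φ t * φ c ^ q) = 1 := by
    have e3 : (A₁ * (1 + N) * A₂).trace = (((φ c)⁻¹ * (φ t * φ c ^ q)) •
        ((1 + N) ^ q * A₁) * A₂).trace := by rw [e1]
    rw [Matrix.trace_mul_cycle, h21, Matrix.one_mul, Matrix.smul_mul, Matrix.mul_assoc, h12,
      Matrix.mul_one, Matrix.trace_smul, tr_LdOrdA N hnil q, smul_eq_mul] at e3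
    have e4 := tr_LdOrdA N hnil 1
    rw [pow_one] at e4
    rw [e4] at e3
    exact mul_right_cancel₀ hnO (by rw [one_mul]; exact e3.symm)
  rw [e2, one_smul] at e1
  obtain ⟨β, hβ1, hβ2⟩ := h (FractionRing O) n q A₁ N hn e1 hNn hNn'
  have hS : IsUnit (∑ s ∈ range n, (q : O) ^ s) := by
    refine unit_LdOrdA hπ fun h0 => hq ?_
    have e5 := congrArg π (geom_sum_mul (q : O) n)
    rw [map_mul, h0, zero_mul, map_sub, map_pow, map_natCast, map_one] at e5
    exact (sub_eq_zero.1 e5.symm)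
  obtain ⟨u, hu⟩ := hS
  have htr : ∀ X : Mt n O, (φ.mapMatrix X).trace = φ X.trace := by
    intro X
    simp [Matrix.trace, map_sum]
  have hα : φ (A.val.trace * (u⁻¹ : Oˣ)) = β := by
    have e6 := hβ1 1
    simp only [pow_one] at e6
    have e7 : φ (u : O) = ∑ s ∈ range n, (q : FractionRing O) ^ s := by
      rw [hu, map_sum]; simp
    rw [map_mul, ← htr, ← hA₁, e6, ← e7, mul_assoc, ← map_mul, Units.mul_inv, map_one, mul_one]
  have hdet : A.val.det = (A.val.trace * (u⁻¹ : Oˣ)) ^ n * ∏ s ∈ range n, (q : O) ^ s := by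
    apply hφ
    rw [RingHom.map_det, ← hA₁, hβ2, map_mul, map_pow, hα, map_prod]
    simp
  refine ⟨A.val.trace * (u⁻¹ : Oˣ), ?_, fun j => ?_, hdet⟩
  · have e8 := (Matrix.isUnit_iff_isUnit_det _).1 A.isUnit
    rw [hdet] at e8
    exact (isUnit_pow_iff hn.ne').1 (isUnit_of_mul_isUnit_left e8)
  · apply hφ
    rw [← htr, map_pow, ← hA₁, hβ1 j, map_mul, map_pow, hα, map_sum]
    simp

lemma exp_LdOrdA {O : Type} [CommRing O] (τ : O) (A Z : Mt n O) (j : ℕ) : ∃ S W : Mt n O,
    ((1 + τ • Z) * A) ^ j = A ^ j + τ • S + τ ^ 2 • W ∧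
      ∀ m, (S * A ^ m).trace = j * (Z * A ^ (j + m)).trace := by
  induction j with
  | zero => exact ⟨0, 0, by simp, by simp⟩
  | succ j ih =>
    obtain ⟨S, W, h1, h2⟩ := ih
    refine ⟨S * A + A ^ j * (Z * A), S * (Z * A) + W * A + τ • (W * (Z * A)), ?_, fun m => ?_⟩
    · rw [pow_succ, h1, pow_succ A]
      simp only [Matrix.add_mul, Matrix.mul_add, Matrix.one_mul, Matrix.smul_mul, Matrix.mul_smul,
        smul_add, smul_smul]
      rw [show τ * τ ^ 2 = τ ^ 2 * τ by ring, show τ * τ = τ ^ 2 by ring]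
      abel
    · rw [Matrix.add_mul, Matrix.trace_add, Matrix.mul_assoc S, ← pow_succ', h2,
        Matrix.mul_assoc (A ^ j), Matrix.trace_mul_comm (A ^ j), Matrix.mul_assoc Z, ← pow_succ',
        Matrix.mul_assoc Z, ← pow_add, show m + 1 + j = j + 1 + m by ring,
        show j + (m + 1) = j + 1 + m by ring]
      push_cast
      ring

end st

theorem stA_stmt (h : St1Stmt) : StAStmt := by
  classical
  intro O _ _ _ k _ π n q τ A A' U U' Z hπ hτ hπτ hq hU hU' ht ht' hA hdet j hj hjn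
  have hn : 0 < n := hj.trans_le hjn
  obtain ⟨hnk, hqn⟩ := hq n hn le_rfl
  obtain ⟨α, hα, h1, h2⟩ := one_LdOrdA h hπ q A U hn hnk hqn hU ht
  obtain ⟨α', -, h1', h2'⟩ := one_LdOrdA h hπ q A' U' hn hnk hqn hU' ht'
  have hd : A'.val.det = A.val.det := by rw [hA, Matrix.det_mul, hdet, one_mul]
  have hP : (∏ s ∈ range n, (q : O) ^ s) ≠ 0 := by
    intro h0
    have e8 := (Matrix.isUnit_iff_isUnit_det _).1 A.isUnit
    rw [h2, h0, mul_zero] at e8
    exact e8.ne_zero rfl
  have e1 : α' ^ n = α ^ n := mul_right_cancel₀ hP (by rw [← h2, ← h2', hd])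
  have hS : π (∑ s ∈ range n, (q : O) ^ s) ≠ 0 := by
    intro h0
    have e5 := congrArg π (geom_sum_mul (q : O) n)
    rw [map_mul, h0, zero_mul, map_sub, map_pow, map_natCast, map_one] at e5
    exact hqn (sub_eq_zero.1 e5.symm)
  have e2 : α' - α ∈ maximalIdeal O := by
    rw [← hπ.ker]
    have e3 := h1 1
    have e4 := h1' 1
    simp only [pow_one] at e3 e4
    have e5 : A'.val.trace = A.val.trace + τ * (Z * A.val).trace := by
      rw [hA, Matrix.add_mul, Matrix.one_mul, Matrix.trace_add, Matrix.smul_mul,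
        Matrix.trace_smul, smul_eq_mul]
    have e6 := congrArg π e5
    rw [map_add, map_mul, hπτ, zero_mul, add_zero, e3, e4, map_mul, map_mul] at e6
    rw [map_sub, mul_right_cancel₀ hS e6, sub_self]
  have e3 : α' = α :=
    root_eq (unit_LdOrdA hπ (by rwa [map_natCast])) hα e1 e2
  obtain ⟨S, W, e4, e5⟩ := exp_LdOrdA τ A.val Z j
  have e6 : (A'.val ^ j).trace = (A.val ^ j).trace := by rw [h1, h1', e3]
  have e7 := e5 0
  rw [pow_zero, Matrix.mul_one, add_zero] at e7
  rw [hA, e4, Matrix.trace_add, Matrix.trace_add, Matrix.trace_smul, Matrix.trace_smul, e7,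
    smul_eq_mul, smul_eq_mul] at e6
  have e8 : τ * (j * (Z * A.val ^ j).trace + τ * W.trace) = 0 := by linear_combination e6
  have e9 := congrArg π ((mul_eq_zero.1 e8).resolve_left hτ)
  rw [map_add, map_mul, map_mul, hπτ, zero_mul, add_zero, map_natCast, map_zero] at e9
  have e10 := (mul_eq_zero.1 e9).resolve_left (hq j hj hjn).1
  have e11 : (Z.map π * A.val.map π ^ j) = π.mapMatrix (Z * A.val ^ j) := by
    rw [map_mul, map_pow]; rfl
  rw [e11, ← e10, Matrix.trace, Matrix.trace, map_sum]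
  rfl

end Pool.Agent.MP_f68ac8_nt.Sv
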