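import Mathlib
import Pool.Agent.MP_f68ac8_nt.BvAux
import Pool.Agent.MP_f68ac8_nt.LdBas
import Pool.Agent.MP_f68ac8_nt.LdOrdA

namespace Pool.Agent.MP_f68ac8_nt.Sv

open Ev Pv
open Matrix Finset
open scoped MatrixGroups

section
variable {n : ℕ} {O k : Type} [CommRing O] [Field k]

lemma sm_BvPv {R : Type} [CommRing R] (π : O →+* R) (c : O) (Z : Mt n O) :
    π.mapMatrix (c • Z) = π c • π.mapMatrix Z := by
  ext a b
  simp

lemma exp_BvPv (π : O →+* k) {τ : O} (hτ : π τ = 0) {M : Mt n O} (X : Mt n O) {S : GL (Fin n) k}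
    (hM : π.mapMatrix M = S.val) (j : ℕ) : ∃ V, (M + τ • X) ^ j = M ^ j + τ • V ∧ π.mapMatrix V =
      (∑ i ∈ range j, cjE_LdBas S ^ i) (π.mapMatrix X * S⁻¹.val) * S.val ^ j := by
  induction j with
  | zero => exact ⟨0, by simp, by simp⟩
  | succ j ih =>
    obtain ⟨V, h1, h2⟩ := ih
    refine ⟨M * V + X * M ^ j + τ • (X * V), ?_, ?_⟩
    · rw [pow_succ', h1, pow_succ' M]
      simp only [add_mul, mul_add, Matrix.smul_mul, Matrix.mul_smul, smul_add]
      abel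
    · rw [map_add, map_add, sm_BvPv, hτ, zero_smul, add_zero, map_mul, map_mul, map_pow, hM, h2,
        geom_sum_succ, LinearMap.add_apply, Module.End.mul_apply, cjE_apply_LdBas,
        Module.End.one_apply, add_mul, pow_succ']
      simp only [mul_assoc, Units.inv_mul_cancel_left]

lemma cmp_BvPv (hn : (n : k) ≠ 0) {a c : k} (ha : a ≠ 0) {X : Mt n k} (h : a • X = c • 1)
    (ht : X.trace = 0) : X = 0 := by
  have h1 := congrArg trace h
  rw [trace_smul, trace_smul, ht, trace_one, Fintype.card_fin, smul_zero, smul_eq_mul, eq_comm,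
    mul_eq_zero] at h1
  rw [h1.resolve_right hn, zero_smul] at h
  exact (smul_eq_zero.1 h).resolve_left ha

variable {p : ℕ} [hp : Fact p.Prime]

omit hp in
lemma dvd_BvPv {A B : Mt n ℤ}
    (h : (Int.castRingHom (ZMod p)).mapMatrix A = (Int.castRingHom (ZMod p)).mapMatrix B) :
    ∃ Q : Mt n ℤ, A = B + (p : ℤ) • Q := by
  have h1 : ∀ a b, ∃ c, A a b = B a b + p * c := fun a b =>
    ((ZMod.intCast_eq_intCast_iff_dvd_sub _ _ p).1 (congrFun (congrFun h.symm a) b)).imp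
      fun c hc => by linear_combination hc
  choose Q hQ using h1
  exact ⟨Matrix.of Q, by ext a b; simpa using hQ a b⟩

lemma tri_BvPv {R : Type} [CommRing R] (t : R) (m : ℕ) :
    (!![1, t; 0, 1] : Mt 2 R) ^ m = !![1, m * t; 0, 1] := by
  induction m with
  | zero => simp [one_fin_two]
  | succ m ih => rw [pow_succ, ih]; simp [add_mul, add_comm]

lemma symP_pow_BvPv (h1 : Sym1Stmt) {R : Type} [CommRing R] (A : Mt 2 R) (m : ℕ) :
    symP n (A ^ m) = symP n A ^ m := by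
  induction m with
  | zero => simpa using (h1 R n).1
  | succ m ih => rw [pow_succ, (h1 R n).2.1, ih, pow_succ]

variable [Algebra (ZMod p) k] {K : IntermediateField ℚ Qb}
  (r : K.fixingSubgroup →* PGL(2, ZMod p))

lemma red_BvPv (π : O →+* k) (g : K.fixingSubgroup) :
    π.mapMatrix (M0 r n O g) = sy k n (rep r g).val := by
  ext a b
  simp only [M0, sy, RingHom.mapMatrix_apply, map_apply, map_natCast]
  rw [← map_natCast (algebraMap (ZMod p) k), ZMod.natCast_zmod_val]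

lemma int_BvPv (g : K.fixingSubgroup) :
    (Int.castRingHom O).mapMatrix (M0 r n ℤ g) = M0 r n O g := by
  ext a b
  simp only [M0, RingHom.mapMatrix_apply, map_apply, map_natCast]

lemma sy_BvPv (A : Mt 2 (ZMod p)) : sy (ZMod p) n A = symP n A := by
  ext a b
  simp [sy]

end

theorem pvB_stmt (p : ℕ) [Fact p.Prime] (h1 : Sym1Stmt) (h2 : Sym2Stmt p) (hB : BaseStmt p) :
    PvBStmt p := by
  intro K F _ _ r n hKF hR
  have hn := hR.big
  obtain ⟨-, b2, b3, -, b5, -⟩ := hB K F r 1 1 n hKF hR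
  have hpw : ∀ g : K.fixingSubgroup, g.1 ^ p ∈ F.fixingSubgroup →
      ∃ e : ZMod p, e ≠ 0 ∧ (rep r g).val ^ p = e • 1 := fun g hg => by
    obtain ⟨c, hc⟩ := rep_pow_LdBas hB hKF hR g p
    obtain ⟨d, hd⟩ := rep_one_LdBas hB hKF hR ((b2 (g ^ p)).1 hg).2.1
    exact ⟨c⁻¹ * d, mul_ne_zero (inv_ne_zero (ne_LdBas hc)) (ne_LdBas hd), by
      rw [mul_smul, ← hd, hc, smul_smul, inv_mul_cancel₀ (ne_LdBas hc), one_smul]⟩
  have hn0 : (n : ZMod p) ≠ 0 := cast_ne_LdBas (p := p) (by omega) (by omega)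
  have hcc : ∀ g : K.fixingSubgroup, ∃ Y : Mt n (ZMod p), g.1 ^ p ∈ F.fixingSubgroup →
      ∃ (b : ℤ) (Q : Mt n ℤ) (c : ZMod p), (b : ZMod p) ≠ 0 ∧
        M0 r n ℤ g ^ p = b • 1 + (p : ℤ) • Q ∧
        (b : ZMod p) • Y = (Int.castRingHom (ZMod p)).mapMatrix Q + c • 1 ∧ Y.trace = 0 := by
    intro g
    by_cases hg : g.1 ^ p ∈ F.fixingSubgroup
    swap
    · exact ⟨0, fun h => absurd h hg⟩
    obtain ⟨e, e0, he⟩ := hpw g hg
    have e1 : (((e ^ (n - 1)).val : ℤ) : ZMod p) = e ^ (n - 1) := by simp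
    obtain ⟨Q, hQ⟩ := dvd_BvPv (p := p) (A := M0 r n ℤ g ^ p) (B := ((e ^ (n - 1)).val : ℤ) • 1) (by
      rw [map_pow, red_BvPv, sy_BvPv, ← symP_pow_BvPv h1, he, (h1 _ n).2.2.1, (h1 _ n).1, sm_BvPv,
        map_one, eq_intCast, e1])
    have e2 := pow_ne_zero (n - 1) e0
    set Y := (Int.castRingHom (ZMod p)).mapMatrix Q with hY
    refine ⟨(e ^ (n - 1))⁻¹ • (Y + (-(Y.trace / n)) • 1), fun _ => ⟨_, Q, -(Y.trace / n),
      e1.trans_ne e2, hQ, by rw [e1, smul_inv_smul₀ e2], ?_⟩⟩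
    rw [trace_smul, trace_add, trace_smul, trace_one, Fintype.card_fin, smul_eq_mul (-_), neg_mul,
      div_mul_cancel₀ _ hn0, add_neg_cancel, smul_zero]
  choose cc hcc using hcc
  refine ⟨cc, ?_, ?_⟩
  · obtain ⟨g₀, c, -, -, hc⟩ := b3 (GeneralLinearGroup.mkOfDetNeZero !![1, -1; 0, 1] (by simp))
      (by simp)
    obtain ⟨d, hd⟩ := rep_pow_LdBas hB hKF hR g₀ (p - 1)
    have hp1 : 1 ≤ p := by omega
    obtain ⟨d, hd⟩ : ∃ d : ZMod p, (rep r (g₀ ^ (p - 1))).val = d • !![1, 1; 0, 1] :=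
      ⟨d * c ^ (p - 1), by
        rw [hd, hc, ← Nat.cast_smul_eq_nsmul (ZMod p), smul_pow, smul_smul]
        exact congrArg _ ((tri_BvPv _ _).trans (by simp [Nat.cast_sub hp1]))⟩
    have hcy : cyc (Ω := Qb) p (g₀.1 ^ (p - 1)) = 1 := by
      rw [map_pow, ZMod.units_pow_card_sub_one_eq_one]
    set g := g₀ ^ (p - 1) with hg
    have hF : g.1 ^ p ∈ F.fixingSubgroup := by
      obtain ⟨e, he⟩ := rep_pow_LdBas hB hKF hR g p
      refine (b2 (g ^ p)).2 ⟨rfl, (b5 1 _).2 ⟨e * d ^ p, ?_⟩, ?_⟩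
      · rw [repIn, inv_one, one_mul, mul_one, he, hd, smul_pow, smul_smul, tri_BvPv]
        simp [one_fin_two]
      · rw [cb_eq, Subgroup.coe_pow, map_pow, hg, Subgroup.coe_pow, hcy, one_pow, Units.val_one]
    refine ⟨g, hF, fun h0 => ?_⟩
    obtain ⟨b, Q, a, -, q1, q2, -⟩ := hcc g hF
    obtain ⟨e, -, he⟩ := hpw g hF
    have e1 : (((d ^ (n - 1)).val : ℤ) : ZMod p) = d ^ (n - 1) := by simp
    have k1 : (Int.castRingHom (ZMod p)).mapMatrix
        (((d ^ (n - 1)).val : ℤ) • symP n (!![1, 1; 0, 1] : Mt 2 ℤ)) = sy (ZMod p) n (rep r g).val := by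
      rw [sm_BvPv, eq_intCast, e1, RingHom.mapMatrix_apply, ((h1 ℤ n).2.2.2.1 _ _).1, sy_BvPv, hd,
        (h1 _ n).2.2.1]
      congr 2
      ext i j
      fin_cases i <;> fin_cases j <;> simp
    obtain ⟨X, hX⟩ := dvd_BvPv ((red_BvPv r _ g).trans k1.symm)
    obtain ⟨V, v1, v2⟩ := exp_BvPv (Int.castRingHom (ZMod p)) (τ := p) (by simp) X
      (S := syU_LdBas (ZMod p) n h1 (rep r g)) k1 p
    rw [cjE_pow_LdBas h1 h2 (by omega) hn.2 _ he, LinearMap.zero_apply, zero_mul] at v2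
    rw [← hX, q1, smul_pow, ← symP_pow_BvPv h1, tri_BvPv] at v1
    let i : Fin n := ⟨0, by omega⟩
    let j : Fin n := ⟨1, by omega⟩
    have hij : i ≠ j := by simp [i, j]
    have v3 := congrFun (congrFun v1 i) j
    have v4 := congrFun (congrFun v2 i) j
    have v5 := congrFun (congrFun q2 i) j
    simp only [Matrix.add_apply, Matrix.smul_apply, one_apply_ne hij, zero_add,
      ((h1 ℤ n).2.2.2.2.1 !![1, (p : ℤ) * 1; 0, 1] rfl).2.2.1 i j rfl, smul_eq_mul, h0,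
      Matrix.zero_apply, RingHom.mapMatrix_apply, map_apply, eq_intCast, mul_zero,
      add_zero] at v3 v4 v5
    have v6 : Q i j = ((d ^ (n - 1)).val : ℤ) ^ p + V i j :=
      mul_left_cancel₀ (show (p : ℤ) ≠ 0 by omega) (by rw [v3]; simp [j]; ring)
    rw [v6, Int.cast_add, Int.cast_pow, e1, v4, add_zero] at v5
    exact pow_ne_zero _ (pow_ne_zero _ (ne_LdBas hd)) v5.symm
  · intro w S O _ _ _ _ k _ _ π L _ hL g hg
    obtain ⟨b, Q, c, b0, q1, q2, q3⟩ := hcc g hg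
    obtain ⟨e, -, he⟩ := hpw g hg
    have : CharP k p := charP_LdBas
    have : Nonempty (Fin n) := ⟨⟨0, by omega⟩⟩
    obtain ⟨V, v1, v2⟩ := exp_BvPv π hL.mem (L.Z g * M0 r n O g)
      (S := syU_LdBas k n h1 (rep r g)) (red_BvPv r π g) p
    rw [cjE_pow_LdBas h1 h2 (by omega) hn.2 _ he, LinearMap.zero_apply, zero_mul] at v2
    obtain ⟨a, ha⟩ := rep_one_LdBas hB hKF hR ((b2 (g ^ p)).1 hg).2.1
    have k1 : M0 r n O (g ^ p) = ((a ^ (n - 1)).val : O) • 1 := by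
      rw [M0, ha, (h1 _ n).2.2.1, (h1 _ n).1]
      ext i j
      by_cases hij : i = j
      · subst hij; simp
      · simp [one_apply_ne hij]
    have k2 := congrArg (Int.castRingHom O).mapMatrix q1
    rw [map_pow, int_BvPv, map_add, sm_BvPv, sm_BvPv, map_one, map_natCast, hL.pu, eq_intCast] at k2
    have k3 := hL.eq (g ^ p)
    rw [map_pow, ← conj_pow, Units.val_pow_eq_pow_val, hL.eq, smul_pow, add_mul, one_mul,
      Matrix.smul_mul, v1, k2, k1, Matrix.mul_smul, mul_one, smul_smul] at k3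
    have k4 : π (L.s g) ≠ 0 := fun h => ((Units.isUnit (L.E * L.ρ g * L.E⁻¹)).map
      π.mapMatrix).ne_zero (by rw [hL.eq, sm_BvPv, h, zero_smul])
    set α := L.s (g ^ p) * ((a ^ (n - 1)).val : O)
    set Q' := (Int.castRingHom O).mapMatrix Q with hQ'
    have k5 : L.τ • (α • L.Z (g ^ p) - L.s g ^ p • (L.u • Q' + V)) = (L.s g ^ p * b - α) • 1 := by
      linear_combination (norm := module) -k3
    have k6 := congrArg π.mapMatrix (scal_LdBas hL.ne0 k5 ⟨0, by omega⟩)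
    have k7 := congrArg π.mapMatrix k5
    rw [sm_BvPv, sm_BvPv, hL.mem, zero_smul, map_one, eq_comm, smul_eq_zero, map_sub, sub_eq_zero,
      map_mul, map_pow, map_intCast] at k7
    have k8 : π.mapMatrix Q' = (algebraMap (ZMod p) k).mapMatrix
        ((Int.castRingHom (ZMod p)).mapMatrix Q) := by
      ext i j
      simp [hQ']
    have k9 := congrArg (algebraMap (ZMod p) k).mapMatrix q2
    rw [sm_BvPv, map_add, sm_BvPv, map_one, ← k8, map_intCast] at k9
    rw [map_sub, sm_BvPv, sm_BvPv, sm_BvPv, map_add, sm_BvPv, v2, map_one, map_pow,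
      ← k7.resolve_right one_ne_zero] at k6
    have b1 : (b : k) ≠ 0 := by rwa [← map_intCast (algebraMap (ZMod p) k), map_ne_zero]
    refine (L.z_apply π (g ^ p)).trans (sub_eq_zero.1 (cmp_BvPv
      (cast_ne_LdBas (p := p) (by omega) (by omega)) (mul_ne_zero (pow_ne_zero p k4) b1)
      (c := π ((α • L.Z (g ^ p) - L.s g ^ p • (L.u • Q' + V)) ⟨0, by omega⟩ ⟨0, by omega⟩) -
        π (L.s g) ^ p * π L.u * algebraMap (ZMod p) k c) ?_ ?_))
    · rw [RingHom.mapMatrix_apply, RingHom.mapMatrix_apply] at k6 k9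
      linear_combination (norm := module) k6 - (π (L.s g) ^ p * π L.u) • k9
    · rw [trace_sub, hL.tr, trace_smul, ← AddMonoidHom.map_trace, q3, map_zero, smul_zero, sub_zero]

end Pool.Agent.MP_f68ac8_nt.Sv
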