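import Mathlib
import Pool.Agent.MP_f68ac8_nt.ZhAux
import Pool.Agent.MP_f68ac8_nt.BvPv
import Pool.Agent.MP_f68ac8_nt.ZcAd

/-! The leading term of a `p`-th power in the adjoint group. -/

namespace Pool.Agent.MP_f68ac8_nt.Ze

open Ev Pv Sv Zv Matrix

variable {p : ℕ} [hp : Fact p.Prime]

lemma nil_ZhPw {x : Mt 2 (ZMod p)} {e : ZMod p} (e0 : e ≠ 0) (h : x ^ p = e • 1) :
    ∃ N : Mt 2 (ZMod p), N * N = 0 ∧ x = e • (1 + N) := by
  have h1 : (x - e • 1) ^ p = 0 := by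
    rw [sub_pow_char_of_commute p (Commute.smul_right (Commute.one_right x) e), h, smul_pow,
      ZMod.pow_card, one_pow, sub_self]
  have h2 := (isNilpotent_charpoly_sub_pow_of_isNilpotent ⟨p, h1⟩).eq_zero
  have h3 := aeval_self_charpoly (x - e • 1)
  rw [sub_eq_zero.1 h2, map_pow, Polynomial.aeval_X, Fintype.card_fin, pow_two] at h3
  refine ⟨e⁻¹ • (x - e • 1), by rw [Matrix.smul_mul, Matrix.mul_smul, h3, smul_zero, smul_zero], ?_⟩
  rw [smul_add, smul_inv_smul₀ e0, add_sub_cancel]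

lemma pow_ZhPw {k : Type} [CommRing k] {N : Mt 2 k} (h : N * N = 0) (j : ℕ) :
    (1 + N) ^ j = 1 + (j : k) • N := by
  induction j with
  | zero => simp
  | succ j ih =>
    rw [pow_succ, ih, Nat.cast_succ]
    simp only [add_mul, mul_add, one_mul, mul_one, Matrix.smul_mul, h, smul_zero, add_zero,
      add_smul, one_smul]
    abel

section
variable {A : Type} [CommRing A] {R : Rd p A} {l : A → ZMod p} (hl : Fn R (mx A) l)
include hl

lemma step_ZhPw {y X P W : Mt 2 A} (hX : ∀ i j, X i j ∈ mx A) (hW : ∀ i j, W i j ∈ mx A) :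
    (∀ i j, (y * W + X * P) i j ∈ mx A) ∧
      (y * W + X * P).map l = y.map R.rd * W.map l + X.map l * P.map R.rd := by
  have m : ∀ a, ∀ x ∈ mx A, a * x ∈ mx A := fun a x hx => Ideal.mul_mem_left _ a hx
  have e : ∀ i j, (y * W + X * P) i j =
      (y i 0 * W 0 j + y i 1 * W 1 j) + (P 0 j * X i 0 + P 1 j * X i 1) := fun i j => by
    simp only [Matrix.add_apply, mul_apply, Fin.sum_univ_two]
    ring
  refine ⟨fun i j => ?_, ?_⟩
  · rw [e]
    exact add_mem (add_mem (m _ _ (hW _ _)) (m _ _ (hW _ _)))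
      (add_mem (m _ _ (hX _ _)) (m _ _ (hX _ _)))
  · ext i j
    rw [map_apply, e, hl.add _ (add_mem (m _ _ (hW _ _)) (m _ _ (hW _ _))) _
      (add_mem (m _ _ (hX _ _)) (m _ _ (hX _ _))), hl.add _ (m _ _ (hW _ _)) _ (m _ _ (hW _ _)),
      hl.add _ (m _ _ (hX _ _)) _ (m _ _ (hX _ _)), hl.mul _ _ (hW _ _), hl.mul _ _ (hW _ _),
      hl.mul _ _ (hX _ _), hl.mul _ _ (hX _ _)]
    simp only [Matrix.add_apply, mul_apply, Fin.sum_univ_two, map_apply]
    ring

lemma exp_ZhPw {M X : Mt 2 A} (hX : ∀ i j, X i j ∈ mx A) {e : ZMod p} {N : Mt 2 (ZMod p)}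
    (hN : N * N = 0) (hM : M.map R.rd = e • (1 + N)) (j : ℕ) :
    ∃ W : Mt 2 A, (∀ a b, W a b ∈ mx A) ∧ (M + X) ^ j = M ^ j + W ∧
      e • W.map l = e ^ j • ((j : ZMod p) • X.map l +
        (j.choose 2 : ZMod p) • (N * X.map l + X.map l * N) +
        (j.choose 3 : ZMod p) • (N * X.map l * N)) := by
  induction j with
  | zero =>
    have l0 : l 0 = 0 := by simpa using hl.mul 0 0 (zero_mem _)
    refine ⟨0, fun _ _ => zero_mem _, by simp, ?_⟩
    rw [Matrix.map_zero _ l0]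
    simp
  | succ j ih =>
    obtain ⟨W, w1, w2, w3⟩ := ih
    obtain ⟨s1, s2⟩ := step_ZhPw hl (y := M + X) (P := M ^ j) hX w1
    refine ⟨_, s1, ?_, ?_⟩
    · rw [pow_succ', w2, pow_succ' M, mul_add, add_mul M X (M ^ j)]
      abel
    · have e1 : (M + X).map R.rd = e • (1 + N) := by
        rw [← hM]
        ext a b
        simp [(R.ker _).2 (hX a b)]
      have e2 : (M ^ j).map R.rd = e ^ j • (1 + (j : ZMod p) • N) := by
        rw [← pow_ZhPw hN, ← smul_pow, ← hM]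
        exact map_pow R.rd.mapMatrix M j
      rw [s2, e1, e2, smul_add, ← Matrix.mul_smul, w3, Nat.choose_succ_succ' j 1,
        Nat.choose_succ_succ' j 2, Nat.choose_one_right]
      have n1 : ∀ Y : Mt 2 (ZMod p), N * (N * Y) = 0 := fun Y => by rw [← mul_assoc, hN, zero_mul]
      push_cast
      simp only [Matrix.smul_mul, Matrix.mul_smul, add_mul, mul_add, one_mul, mul_one, mul_assoc,
        n1, add_zero]
      module

end

theorem pw_stmt (p : ℕ) [Fact p.Prime] (H : Kn p) (hA : AdAStmt p) : PwStmt p := by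
  intro h4
  have hp : p.Prime := Fact.out
  have hcc : ∀ x : GL (Fin 2) (ZMod p), ∃ Y : Mt 2 (ZMod p), Y.trace = 0 ∧ (IsScal (x ^ p) →
      ∃ (e : ZMod p) (Q : Mt 2 ℤ) (a : ZMod p), e ≠ 0 ∧ x.val ^ p = e • 1 ∧
        (x.val.map fun z => (z.val : ℤ)) ^ p = (e.val : ℤ) • 1 + (p : ℤ) • Q ∧
        e • Y = (Int.castRingHom (ZMod p)).mapMatrix Q + a • 1) := by
    intro x
    by_cases hx : IsScal (x ^ p)
    swap
    · exact ⟨0, trace_zero _ _, fun h => absurd h hx⟩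
    obtain ⟨e, he⟩ := hx
    have e0 : e ≠ 0 := fun h => (x ^ p).ne_zero (by rw [he, h, zero_smul])
    rw [Units.val_pow_eq_pow_val] at he
    have k1 : (Int.castRingHom (ZMod p)).mapMatrix (x.val.map fun z => (z.val : ℤ)) = x.val := by
      ext a b
      simp
    obtain ⟨Q, hQ⟩ := dvd_BvPv (p := p) (A := (x.val.map fun z => (z.val : ℤ)) ^ p)
      (B := (e.val : ℤ) • 1) (by rw [map_pow, k1, he, sm_BvPv, map_one]; simp)
    set Y := (Int.castRingHom (ZMod p)).mapMatrix Q with hY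
    have hn0 : ((2 : ℕ) : ZMod p) ≠ 0 := fun h =>
      absurd (Nat.le_of_dvd two_pos ((ZMod.natCast_eq_zero_iff 2 p).1 h)) (by omega)
    refine ⟨e⁻¹ • (Y + (-(Y.trace / (2 : ℕ))) • 1), ?_, fun _ => ⟨e, Q, -(Y.trace / (2 : ℕ)), e0,
      he, hQ, by rw [smul_inv_smul₀ e0]⟩⟩
    rw [trace_smul, trace_add, trace_smul, trace_one, Fintype.card_fin, smul_eq_mul (-_), neg_mul,
      div_mul_cancel₀ _ hn0, add_neg_cancel, smul_zero]
  choose c hc using hcc
  refine ⟨c, fun x => (hc x).1, fun A _ _ R γ hγ x hx hs l hl => ?_⟩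
  obtain ⟨e, Q, a, e0, q0, q1, q2⟩ := (hc x).2 hs
  obtain ⟨-, a2, a3, -⟩ := (hA.2 A R).2 2
  obtain ⟨y, rfl, hy⟩ := a2 γ hγ x hx
  obtain ⟨N, hN, hxN⟩ := nil_ZhPw e0 q0
  set M : Mt 2 A := (Int.castRingHom A).mapMatrix (x.val.map fun z => (z.val : ℤ)) with hM
  have m1 : M.map R.rd = x.val := by
    ext i j
    simp [hM]
  have hX : ∀ i j, (y.val - M) i j ∈ mx A := fun i j => by
    have hy' : y.val.map R.rd = x.val := congrArg (fun g : GL (Fin 2) (ZMod p) => g.val) hy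
    rw [← R.ker, Matrix.sub_apply, map_sub, sub_eq_zero]
    exact congrFun (congrFun (hy'.trans m1.symm) i) j
  obtain ⟨W, w1, w2, w3⟩ := exp_ZhPw hl hX hN (m1.trans hxN) p
  have c2 : (p.choose 2 : ZMod p) = 0 :=
    (ZMod.natCast_eq_zero_iff _ p).2 (hp.dvd_choose_self (by omega) (by omega))
  have c3 : (p.choose 3 : ZMod p) = 0 :=
    (ZMod.natCast_eq_zero_iff _ p).2 (hp.dvd_choose_self (by omega) (by omega))
  rw [c2, c3, ZMod.natCast_self, zero_smul, zero_smul, zero_smul, add_zero, add_zero, smul_zero,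
    smul_eq_zero] at w3
  have w4 : ∀ i j, l (W i j) = 0 := fun i j => congrFun (congrFun (w3.resolve_left e0) i) j
  have k2 := congrArg (Int.castRingHom A).mapMatrix q1
  rw [map_pow, ← hM, map_add, sm_BvPv, sm_BvPv, map_one, map_natCast, map_natCast] at k2
  rw [add_sub_cancel, k2] at w2
  have hb : R.rd (e.val : A) = e := by simp
  obtain ⟨u, hu⟩ := ((H.rg A R).2.1 (e.val : A)).2 (by rwa [hb])
  have pm : (p : A) ∈ mx A := (R.ker _).1 (by simp)
  let y' : GL (Fin 2) A := Units.map (algebraMap A (Mt 2 A)).toMonoidHom u⁻¹ * y ^ p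
  have v1 : y'.val = ((u⁻¹ : Aˣ) : A) • (y ^ p).val := (Algebra.smul_def _ _).symm
  have v2 : ∀ i j, (y'.val - 1) i j = ((u⁻¹ : Aˣ) : A) * ((Q i j : A) * p + W i j) := fun i j => by
    have : y'.val - 1 = ((u⁻¹ : Aˣ) : A) • ((p : A) • (Int.castRingHom A).mapMatrix Q + W) := by
      rw [v1, Units.val_pow_eq_pow_val, w2, ← hu, add_assoc, smul_add, smul_smul, Units.inv_mul,
        one_smul, add_sub_cancel_left]
    rw [this]
    simp [mul_comm]
  have v3 : ∀ i j, (Q i j : A) * p + W i j ∈ mx A := fun i j =>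
    add_mem (Ideal.mul_mem_left _ _ pm) (w1 i j)
  have v4 : Cg (mx A) y' := fun i j => by
    rw [v2]
    exact Ideal.mul_mem_left _ _ (v3 i j)
  have v5 : e • ltm l y' = l p • (Int.castRingHom (ZMod p)).mapMatrix Q := by
    have : e * R.rd ((u⁻¹ : Aˣ) : A) = 1 := by rw [← hb, ← hu, ← map_mul, Units.mul_inv, map_one]
    ext i j
    rw [Matrix.smul_apply, ltm, map_apply, v2, hl.mul _ _ (v3 i j),
      hl.add _ (Ideal.mul_mem_left _ _ pm) _ (w1 i j), hl.mul _ _ pm, w4, add_zero, smul_eq_mul,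
      ← mul_assoc, this, one_mul]
    simp [mul_comm]
  rw [← map_pow, ← (H.ad.1 A 2).2.2.2.2.1 y' (y ^ p) _ v1, (a3 (mx A) le_rfl).2 y' l v4 hl]
  refine smul_right_injective _ e0 ?_
  have v6 := congrArg Zv.adM q2
  rw [map_add, map_smul, map_smul, ad_one_ZcAd, smul_zero, add_zero] at v6
  change e • Zv.adM (ltm l y') = e • l p • Zv.adM (c x)
  rw [← map_smul, v5, map_smul, ← v6, smul_comm]

end Pool.Agent.MP_f68ac8_nt.Ze
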