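import Mathlib
import Pool.Agent.MP_f68ac8_nt.PvTr
import Pool.Agent.MP_f68ac8_nt.PtNP
import Pool.Agent.MP_f68ac8_nt.PtSym
import Pool.Agent.MP_f68ac8_nt.PtIdx
import Pool.Agent.MP_f68ac8_nt.PtSUnit
import Pool.Agent.MP_f68ac8_nt.PtVU
import Pool.Agent.MP_f68ac8_nt.PtPT
import Pool.Agent.MP_f68ac8_nt.PtSplit
import Pool.Agent.MP_f68ac8_nt.PtNorm
import Pool.Agent.MP_f68ac8_nt.PtAuxP
import Pool.Agent.MP_f68ac8_nt.PtH1
import Pool.Agent.MP_f68ac8_nt.PtEqv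
import Pool.Agent.MP_f68ac8_nt.PtLam
import Pool.Agent.MP_f68ac8_nt.PtHW
import Pool.Agent.MP_f68ac8_nt.AlEx
import Pool.Agent.MP_f68ac8_nt.AlPerm
import Pool.Agent.MP_f68ac8_nt.AlBrA
import Pool.Agent.MP_f68ac8_nt.AlBrB
import Pool.Agent.MP_f68ac8_nt.AlSec
import Pool.Agent.MP_f68ac8_nt.AlAlg
import Pool.Agent.MP_f68ac8_nt.AlRank
import Pool.Agent.MP_f68ac8_nt.AlRankW
import Pool.Agent.MP_f68ac8_nt.SySym1
import Pool.Agent.MP_f68ac8_nt.SySym2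
import Pool.Agent.MP_f68ac8_nt.SyH1
import Pool.Agent.MP_f68ac8_nt.LcOne
import Pool.Agent.MP_f68ac8_nt.LcBase
import Pool.Agent.MP_f68ac8_nt.LcGrp
import Pool.Agent.MP_f68ac8_nt.UvAlg
import Pool.Agent.MP_f68ac8_nt.ZhAll
import Pool.Agent.MP_f68ac8_nt.ZhBad
import Pool.Agent.MP_f68ac8_nt.ZhImg
import Pool.Agent.MP_f68ac8_nt.ZhIso
import Pool.Agent.MP_f68ac8_nt.ZhLoc
import Pool.Agent.MP_f68ac8_nt.ZhLocD
import Pool.Agent.MP_f68ac8_nt.ZhPol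
import Pool.Agent.MP_f68ac8_nt.ZhPw

/-! The theorem for residual representations with large image. -/

namespace Pool.Agent.MP_f68ac8_nt.Ze

open Sv Zv

variable (p : ℕ) [Fact p.Prime]

theorem algP_all : AlgPStmt p := by
  have hH := Ev.hens_stmt p
  have hR := Ev.r1G_stmt p (Ev.key1_stmt p) (Ev.key2_stmt p (Ev.mu_stmt p))
  have tN := Pt.np_stmt p
  have tE := Pt.ef_stmt p
  have tS := Pt.sym_stmt p tN hR hH
  have tV := Pt.vu_stmt p
  have tP := Pt.split_stmt p tN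
  have tT := Pt.pt_stmt p tN tS tE (Pt.idx_stmt p tN tE) (Pt.sUnit_stmt p) tV
  have tW := Pt.hw_stmt p tN tS (Pt.tow_stmt p)
    (Pt.lam_stmt p tN tS tP (Pt.eqv_stmt p tN tS tP) (Pt.norm_stmt p tN tS tP))
    (Pt.aux_stmt p tN tS tV tT tP) tT (Pt.h1_stmt p tV) tP
  have hB := Pv.bc_stmt p
  have hC := Pv.cls_stmt p hB (Pv.ex_stmt p) (Pv.lat_stmt p hB (Pv.ex_stmt p))
  have hE := exEg_stmt p
  have hF := filW_stmt p hE
  have s1 := sym1_stmt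
  have hb := base_stmt p s1
  exact algP_stmt p hb (locS_stmt p hb) (grpP_stmt p s1 (sym2_stmt p s1) hb) tW
    (j_stmt p Pv.mink_stmt) hC (rankW_stmt p hB hC (rankA_stmt p hB) (rankB_stmt p))
    (algW_stmt p (ten_stmt p) (brA_stmt p hE hF (permW_stmt p hE)) (brB_stmt p hF)
      (secW_stmt p) (trW_stmt p (Pv.tr_stmt p)))

theorem locB_all : LocBStmt p :=
  locB_stmt p (pol_stmt p) (base_stmt p sym1_stmt) (locS_stmt p (base_stmt p sym1_stmt))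

theorem locD_all : LocDStmt p := by
  have hK := Ev.kk_stmt p
  have hW := Ev.wild_stmt
  have hM := Ev.kum_stmt p hK
  have hP := Ev.locP_stmt p Ev.ram_stmt hW (Ev.hens_stmt p)
  have hE := efEq_stmt p Ev.ram_stmt hW (Pt.ef_stmt p)
  have hG := Qv.gal_stmt p
  have hC := Qv.locC_stmt p hK
  exact locD_stmt p (locB_all p) (loc1_stmt p (locB_all p) (locUr_stmt p hW)
    (locOne_stmt p
      (locHom_stmt p hK hM (Qv.locAbs_stmt p (Qv.teich_stmt p) (Qv.eig_stmt p)) hC hP hG hE))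
    (locInv_stmt p hK hM (locAbs1_stmt p (Qv.teich_stmt p) (Qv.eig_stmt p)) hC hP hG hE)
    (Pt.ef_stmt p))

theorem hsB_all : HsBStmt p := by
  intro K F _ _ r m o h hr φ hφ hδ
  have H := kn_all p
  have hL := locB_all p
  obtain ⟨cc, hk⟩ := pkB_stmt p hL (pw_stmt p H (adA_all p)) (img_stmt p hL (h1s_stmt p))
    K F r m o h hr
  obtain ⟨e, s, hs, hA⟩ := algB_stmt p H (pol_stmt p) (iso_stmt p) (algP_all p) K F r m o h hr
  obtain ⟨Y, hY⟩ := (baseQ_stmt p H K F 2 r m o cc hk _ e s hs).1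
  refine ⟨cc, ⟨_, e, s, Y⟩, hk, hsG_all p K F 2 r m o cc hk ⟨_, e, s, Y⟩ hs hY hr.cyc hr.mu
    (bad_stmt p hL (locUr_stmt p Ev.wild_stmt) (locTame_stmt p) K F r m o h hr) (hA Y _) φ hφ
    Empty Empty.elim (fun j => j.elim) ⟨fun j => j.elim, fun j => j.elim, fun j => j.elim⟩ _ hδ ?_⟩
  rw [Finset.univ_eq_empty, Finset.sum_empty, zero_add]
  exact locD_all p K F r m o h hr cc _ hs

theorem big_all : AllG p fun K F _ _ r _ o => ∀ φ, Emb K φ → ordExp K o < tamDef r φ →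
    ∀ ε : ℝ, 0 < ε → ∃ d₀, ∀ t : ℕ → K.fixingSubgroup, (∀ j, TamTyp r (t j)) → ∀ d, d₀ ≤ d →
    1 - ε ≤ tupDens (fun j => Typ p K F (t j)) d
      fun q => Function.Injective q ∧ NoWild F r o (Set.range q) := by
  intro K F _ _ r m o h hr φ hφ hδ
  obtain ⟨cc, T, hk, hT⟩ := hsB_all p K F r m o h hr φ hφ hδ
  exact mainE_all p K F 2 r m o cc hk T hT

end Pool.Agent.MP_f68ac8_nt.Ze
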