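import Mathlib
import Pool.Agent.MP_f68ac8_nt.LcAux
import Pool.Agent.MP_f68ac8_nt.QvSet

/-! The contribution of the infinite places. -/

namespace Pool.Agent.MP_f68ac8_nt.Sv
open Ev Pv
open NumberField Matrix Finset Module
open scoped MatrixGroups

section
variable {k : Type} [Field k]

/-- the vectors fixed by the transpose -/
def fx_LcArch {d : ℕ} (T : Mt d k) : Submodule k (Fin d → k) where
  carrier := {Y | Tᵀ *ᵥ Y = Y}
  zero_mem' := mulVec_zero _
  add_mem' {a b} ha hb := by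
    change Tᵀ *ᵥ (a + b) = a + b
    rw [mulVec_add, show Tᵀ *ᵥ a = a from ha, show Tᵀ *ᵥ b = b from hb]
  smul_mem' c a ha := by
    change Tᵀ *ᵥ (c • a) = c • a
    rw [mulVec_smul, show Tᵀ *ᵥ a = a from ha]

lemma conj_LcArch {d N : ℕ} (hN : N ≤ d) (T T' P Q : Mt d k) (h : Q * T * P = T')
    (hPQ : P * Q = 1)
    (hx : ∀ x : Fin N → k, ∃ Z, T'ᵀ *ᵥ Z = Z ∧ ∀ j, Z (Fin.castLE hN j) = x j) :
    N ≤ finrank k (fx_LcArch T) := by
  have hQP : Q * P = 1 := mul_eq_one_comm.1 hPQ
  let Φ : fx_LcArch T →ₗ[k] (Fin N → k) :=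
    (LinearMap.funLeft k k (Fin.castLE hN)) ∘ₗ (Matrix.mulVecLin Pᵀ) ∘ₗ (fx_LcArch T).subtype
  have hs : Function.Surjective Φ := by
    intro x
    obtain ⟨Z, h1, h2⟩ := hx x
    have e : Tᵀ * Qᵀ = Qᵀ * T'ᵀ := by
      rw [← transpose_mul, ← transpose_mul, ← h, Matrix.mul_assoc, hPQ, Matrix.mul_one]
    refine ⟨⟨Qᵀ *ᵥ Z, ?_⟩, ?_⟩
    · change Tᵀ *ᵥ (Qᵀ *ᵥ Z) = Qᵀ *ᵥ Z
      rw [mulVec_mulVec, e, ← mulVec_mulVec, h1]
    · funext j
      change (Pᵀ *ᵥ (Qᵀ *ᵥ Z)) (Fin.castLE hN j) = x j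
      rw [mulVec_mulVec, ← transpose_mul, hQP, transpose_one, one_mulVec, h2]
  have := LinearMap.finrank_le_finrank_of_surjective hs
  rwa [finrank_fin_fun] at this

lemma anti_LcArch {i N : ℕ} (hN : N ≤ 2 * i + 1) (μ : ℕ → k) (T : Mt (2 * i + 1) k)
    (hT : ∀ a j : Fin (2 * i + 1), T a j = if (a : ℕ) + j = 2 * i then μ j else 0)
    (hμ : ∀ a j, a + j = 2 * i → μ a * μ j = 1) (hi : N = i ∨ N = i + 1 ∧ μ i = 1)
    (x : Fin N → k) : ∃ Z, Tᵀ *ᵥ Z = Z ∧ ∀ j, Z (Fin.castLE hN j) = x j := by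
  let y : ℕ → k := fun j => if h : j < N then x ⟨j, h⟩ else 0
  let z : ℕ → k := fun j => if j < N then y j else μ j * y (2 * i - j)
  refine ⟨fun j => z j, ?_, fun j => ?_⟩
  · funext j
    have hj := j.2
    have e : (Tᵀ *ᵥ fun j : Fin (2 * i + 1) => z j) j = μ j * z (2 * i - j) := by
      rw [mulVec, dotProduct, sum_eq_single (⟨2 * i - j, by omega⟩ : Fin (2 * i + 1))]
      · rw [transpose_apply, hT, if_pos (by simp only; omega)]
      · intro a _ ha
        have : (a : ℕ) ≠ 2 * i - j := fun e => ha (Fin.ext e)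
        rw [transpose_apply, hT, if_neg (by omega), zero_mul]
      · intro h'
        exact absurd (mem_univ _) h'
    rw [e]
    simp only [z]
    by_cases h1 : (j : ℕ) < N
    · rw [if_pos h1]
      by_cases h2 : 2 * i - j < N
      · have h3 : (j : ℕ) = i := by omega
        have h4 : μ i = 1 := by
          rcases hi with h | h
          · omega
          · exact h.2
        rw [if_pos h2, h3, h4, one_mul, show 2 * i - i = i by omega]
      · rw [if_neg h2, ← mul_assoc, hμ _ _ (by omega), one_mul,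
          show 2 * i - (2 * i - j) = j by omega]
    · rw [if_neg h1]
      by_cases h2 : 2 * i - j < N
      · rw [if_pos h2]
      · have h3 : y j = 0 := dif_neg h1
        have h4 : y (2 * i - j) = 0 := dif_neg h2
        rw [if_neg h2, show 2 * i - (2 * i - j) = j by omega, h3, h4, mul_zero]
  · simp only [z, y, Fin.val_castLE, j.2, if_true, dif_pos]

lemma symP_anti_LcArch (i : ℕ) (l : k) (a j : Fin (2 * i + 1)) :
    symP (2 * i + 1) !![0, l; 1, 0] a j = if (a : ℕ) + j = 2 * i then l ^ (j : ℕ) else 0 := by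
  have hj := j.2
  simp only [symP, of_apply, cons_val', cons_val_zero, cons_val_one, cons_val_fin_one,
    map_zero, map_one, zero_add, one_mul, zero_mul, add_zero, Nat.add_sub_cancel]
  rw [← map_pow, Polynomial.coeff_mul_C, Polynomial.coeff_X_pow]
  by_cases h : (a : ℕ) + j = 2 * i
  · rw [if_pos h, if_pos (by omega), one_mul]
  · rw [if_neg h, if_neg (by omega), zero_mul]

lemma basis_LcArch (M : Mt 2 k) (l : k) (h1 : M * M = l • 1) (h2 : ¬ ∃ c : k, M = c • 1) :
    ∃ A : GL (Fin 2) k, M * A.val = A.val * !![0, l; 1, 0] := by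
  have key : ∀ e0 e1 : k, e0 * (M 1 0 * e0 + M 1 1 * e1) - (M 0 0 * e0 + M 0 1 * e1) * e1 ≠ 0 →
      ∃ A : GL (Fin 2) k, M * A.val = A.val * !![0, l; 1, 0] := by
    intro e0 e1 h
    refine ⟨GeneralLinearGroup.mkOfDetNeZero
      !![e0, M 0 0 * e0 + M 0 1 * e1; e1, M 1 0 * e0 + M 1 1 * e1]
      (by rw [det_fin_two_of]; exact h), ?_⟩
    have a := fun s t => congrFun (congrFun h1 s) t
    have a00 := a 0 0
    have a01 := a 0 1
    have a10 := a 1 0
    have a11 := a 1 1
    simp [mul_apply, Fin.sum_univ_two] at a00 a01 a10 a11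
    change M * !![e0, M 0 0 * e0 + M 0 1 * e1; e1, M 1 0 * e0 + M 1 1 * e1] =
      !![e0, M 0 0 * e0 + M 0 1 * e1; e1, M 1 0 * e0 + M 1 1 * e1] * !![0, l; 1, 0]
    ext s t
    fin_cases s <;> fin_cases t <;> simp [mul_apply, Fin.sum_univ_two]
    · linear_combination e0 * a00 + e1 * a01
    · linear_combination e0 * a10 + e1 * a11
  by_cases c1 : M 1 0 = 0
  · by_cases c2 : M 0 1 = 0
    · refine key 1 1 fun h => h2 ⟨M 0 0, ?_⟩
      ext s t
      fin_cases s <;> fin_cases t <;> simp [c1, c2]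
      linear_combination h - c1 + c2
    · refine key 0 1 fun h => c2 ?_
      linear_combination -h
  · refine key 1 0 fun h => c1 ?_
    linear_combination h

end

theorem arch_stmt (p : ℕ) [Fact p.Prime] (h1 : Sym1Stmt) (hB : BaseStmt p) : ArchStmt p := by
  classical
  intro K F _ _ r η γ n hle hR i hi0 hin hsg
  obtain ⟨-, -, -, -, b5, b6⟩ := hB K F r η γ n hle hR
  have b7 := (b6 i).2
  obtain ⟨s1, s2, s3, -⟩ := h1 (ZMod p) (2 * i + 1)
  have hPQ : ∀ A : GL (Fin 2) (ZMod p),
      symP (2 * i + 1) A.val * symP (2 * i + 1) A⁻¹.val = 1 := fun A => by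
    rw [← s2, Units.mul_inv, s1]
  set S := {v : InfinitePlace K | ∃ φ : Qb →+* ℂ,
    InfinitePlace.mk (φ.comp (algebraMap K _)) = v ∧
      ∀ c : K.fixingSubgroup, IsConj' φ c → η c = η γ} with hS
  have main : ∀ v : InfinitePlace K, ∃ (φ : Qb →+* ℂ)
      (U : Submodule (ZMod p) (Vc p (2 * i + 1))),
      InfinitePlace.mk (φ.comp (algebraMap K Qb)) = v ∧
      (∀ c : K.fixingSubgroup, IsConj' φ c → ∀ Y ∈ U, (vR r η i c⁻¹)ᵀ *ᵥ Y = Y) ∧
      i * v.mult + (if v ∈ S then 1 else 0) ≤ finrank (ZMod p) U := by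
    intro v
    obtain ⟨φ, hφ, hφ'⟩ : ∃ φ : Qb →+* ℂ, InfinitePlace.mk (φ.comp (algebraMap K Qb)) = v ∧
        (v ∈ S → ∀ c : K.fixingSubgroup, IsConj' φ c → η c = η γ) := by
      by_cases hv : v ∈ S
      · obtain ⟨φ, a1, a2⟩ := hv
        exact ⟨φ, a1, fun _ => a2⟩
      · obtain ⟨φ, a1⟩ := lift_FvArch K v
        exact ⟨φ, a1, fun h => absurd h hv⟩
    have hN1 : (if v ∈ S then 1 else 0) ≤ 1 := by split_ifs <;> omega
    by_cases hc : ∃ c : K.fixingSubgroup, IsConj' φ c
    swap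
    · refine ⟨φ, ⊤, hφ, fun c h => absurd ⟨c, h⟩ hc, ?_⟩
      rw [finrank_top, finrank_fin_fun]
      have : v.mult ≤ 2 := by
        unfold InfinitePlace.mult
        split_ifs <;> omega
      have := Nat.mul_le_mul_left i this
      omega
    obtain ⟨c, hc⟩ := hc
    have hcc : c * c = 1 := by
      refine Subtype.ext (AlgEquiv.ext fun x => φ.injective ?_)
      change φ (c.1 (c.1 x)) = φ x
      rw [hc, hc, Complex.conj_conj]
    have hu : ∀ c' : K.fixingSubgroup, IsConj' φ c' → c'⁻¹ = c := by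
      intro c' h'
      have : c' = c := Subtype.ext (AlgEquiv.ext fun x => φ.injective (by rw [h', hc]))
      rw [this]
      exact inv_eq_of_mul_eq_one_right hcc
    have hm : v.mult = 1 := by
      refine InfinitePlace.IsReal.mult_eq_one ?_
      rw [← hφ, InfinitePlace.isReal_mk_iff, ComplexEmbedding.isReal_iff]
      ext x
      change starRingEnd ℂ (φ (x : Qb)) = φ (x : Qb)
      rw [← hc, (K.mem_fixingSubgroup_iff c.1).1 c.2 x x.2]
    refine ⟨φ, fx_LcArch (vR r η i c), hφ, fun c' h' Y hY => by rw [hu c' h']; exact hY, ?_⟩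
    rw [hm, mul_one]
    have hN : i + (if v ∈ S then 1 else 0) ≤ 2 * i + 1 := by omega
    have hdet : ∀ A, (repIn r A c).det ≠ 0 := fun A =>
      ((isUnit_iff_isUnit_det _).1 (Units.isUnit _)).ne_zero
    by_cases hr : r c = 1
    · have he : η c = 1 := (Int.units_eq_one_or (η c)).resolve_right fun h => hR.inf φ c hc h hr
      obtain ⟨s, hs⟩ := (b5 1 c).1 hr
      have hd := hdet 1
      refine conj_LcArch hN _ _ _ _ (b7 1 c) (hPQ 1) fun x => ?_
      have e : (sg p (η c) * (repIn r 1 c).det⁻¹) ^ i • symP (2 * i + 1) (repIn r 1 c) = 1 := by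
        rw [hs, det_smul, det_one, mul_one, Fintype.card_fin] at hd
        rw [hs, s3, s1, det_smul, det_one, mul_one, Fintype.card_fin, he, smul_smul,
          Nat.add_sub_cancel, pow_mul, ← mul_pow]
        simp only [sg, Units.val_one, Int.cast_one, one_mul]
        rw [inv_mul_cancel₀ hd, one_pow, one_smul]
      rw [e]
      refine ⟨fun j => if h : (j : ℕ) < _ then x ⟨j, h⟩ else 0, ?_, fun j => ?_⟩
      · rw [transpose_one, one_mulVec]
      · simp only [Fin.val_castLE, j.2, dif_pos]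
    · have e0 : repIn r 1 c = (rep r c).val := by simp [repIn]
      obtain ⟨l, hsq⟩ : ∃ l : ZMod p, (rep r c).val * (rep r c).val = l • 1 := by
        have a1 : ProjGenLinGroup.mk (rep r c) = r c := Function.surjInv_eq _ _
        have a2 : ProjGenLinGroup.mk (rep r c * rep r c) = 1 := by
          rw [map_mul, a1, ← map_mul, hcc, map_one]
        rw [ProjGenLinGroup.mk_eq_one,
          GeneralLinearGroup.mem_center_iff_val_mem_range_scalar] at a2
        obtain ⟨l, hl⟩ := a2
        exact ⟨l, by rw [← Units.val_mul, ← hl, scalar_apply, smul_one_eq_diagonal]⟩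
      obtain ⟨A, hA⟩ := basis_LcArch _ _ hsq fun h => hr ((b5 1 c).2 (by rwa [e0]))
      have eA : repIn r A c = !![0, l; 1, 0] := by
        unfold repIn
        rw [Units.val_mul, Units.val_mul, Matrix.mul_assoc, hA, Units.inv_mul_cancel_left]
      have hd := hdet A
      have ed : (repIn r A c).det = -l := by
        rw [eA, det_fin_two_of]
        ring
      have hl : l ≠ 0 := by
        rw [ed] at hd
        exact neg_ne_zero.1 hd
      set ε := sg p (η c) with hε
      have hε2 : ε * ε = 1 := by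
        rw [hε]
        rcases Int.units_eq_one_or (η c) with h | h <;> simp [sg, h]
      have hk : ε * (-l)⁻¹ * l = -ε := by field_simp
      refine conj_LcArch hN _ _ _ _ (b7 A c) (hPQ A) fun x => ?_
      refine anti_LcArch hN (fun j => (ε * (-l)⁻¹) ^ i * l ^ j) _ (fun a j => ?_)
        (fun a j haj => ?_) ?_ x
      · rw [ed, eA, Matrix.smul_apply, symP_anti_LcArch, smul_eq_mul]
        split_ifs
        · rfl
        · exact mul_zero _
      · calc (ε * (-l)⁻¹) ^ i * l ^ a * ((ε * (-l)⁻¹) ^ i * l ^ j)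
            = (ε * (-l)⁻¹) ^ i * (ε * (-l)⁻¹) ^ i * l ^ (a + j) := by ring
          _ = ((ε * (-l)⁻¹ * l) * (ε * (-l)⁻¹ * l)) ^ i := by
              rw [haj, mul_pow (ε * (-l)⁻¹ * l), mul_pow (ε * (-l)⁻¹), two_mul, pow_add]
              ring
          _ = 1 := by rw [hk, neg_mul_neg, hε2, one_pow]
      · by_cases hv : v ∈ S
        · refine Or.inr ⟨by rw [if_pos hv], ?_⟩
          rw [← mul_pow, hk]
          rcases hsg with h | h
          · have : ε = -1 := by
              rw [hε, hφ' hv c hc, h]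
              simp [sg]
            rw [this, neg_neg, one_pow]
          · obtain ⟨m, rfl⟩ := h
            rw [← two_mul, pow_mul, pow_two, neg_mul_neg, hε2, one_pow]
        · exact Or.inl (by rw [if_neg hv, add_zero])
  choose φ U a1 a2 a3 using main
  refine ⟨φ, U, a1, a2, le_trans (le_of_eq ?_) (sum_le_sum fun v _ => a3 v)⟩
  rw [sum_add_distrib, ← mul_sum, InfinitePlace.sum_mult_eq, ← card_filter]
  congr 1
  change S.ncard = _
  rw [← Set.ncard_coe_finset]
  congr 1
  ext v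
  simp

end Pool.Agent.MP_f68ac8_nt.Sv
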