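import Mathlib
import Pool.Agent.MP_f68ac8_nt.BvAux
import Pool.Agent.MP_f68ac8_nt.LcArch

/-! The contribution of the infinite places. -/

namespace Pool.Agent.MP_f68ac8_nt.Sv
open Ev Pv
open NumberField Matrix Finset Module
open scoped MatrixGroups

theorem archB_stmt (p : ℕ) [Fact p.Prime] (h1 : Sym1Stmt) (hB : BaseStmt p) : ArchBStmt p := by
  classical
  intro K F _ _ r n hle hR i hi0 hin
  obtain ⟨-, -, -, -, b5, b6⟩ := hB K F r 1 1 n hle hR
  have b7 := (b6 i).2
  obtain ⟨s1, s2, s3, -⟩ := h1 (ZMod p) (2 * i + 1)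
  have hPQ : ∀ A : GL (Fin 2) (ZMod p),
      symP (2 * i + 1) A.val * symP (2 * i + 1) A⁻¹.val = 1 := fun A => by
    rw [← s2, Units.mul_inv, s1]
  have hdet : ∀ c A, (repIn r A c).det ≠ 0 := fun c A =>
    ((isUnit_iff_isUnit_det _).1 (Units.isUnit _)).ne_zero
  have hsg : ∀ c : K.fixingSubgroup, sg p ((1 : K.fixingSubgroup →* ℤˣ) c) = 1 := fun c => by
    simp [sg]
  have main : ∀ v : InfinitePlace K, ∃ (φ : Qb →+* ℂ)
      (U : Submodule (ZMod p) (Vc p (2 * i + 1))),
      InfinitePlace.mk (φ.comp (algebraMap K Qb)) = v ∧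
      (∀ c : K.fixingSubgroup, IsConj' φ c → ∀ Y ∈ U, (vR r 1 i c⁻¹)ᵀ *ᵥ Y = Y) ∧
      i * v.mult + ((if EvenAt r v then 1 else 0) + if EvenAt r v ∧ v.IsReal then 1 else 0) ≤
        finrank (ZMod p) U := by
    intro v
    by_cases hv : EvenAt r v
    · obtain ⟨φ, hφ, hφ'⟩ := id hv
      refine ⟨φ, ⊤, hφ, fun c hc Y _ => ?_, ?_⟩
      · have hr : r c⁻¹ = 1 := by rw [map_inv, hφ' c hc, inv_one]
        obtain ⟨s, hs⟩ := (b5 1 _).1 hr
        have hd := hdet c⁻¹ 1
        have e := b7 1 c⁻¹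
        rw [hs, det_smul, det_one, mul_one, Fintype.card_fin] at hd
        rw [inv_one, Units.val_one, s1, Matrix.one_mul, Matrix.mul_one, hs, s3, s1, det_smul,
          det_one, mul_one, Fintype.card_fin, hsg, smul_smul, Nat.add_sub_cancel, pow_mul,
          ← mul_pow, one_mul, inv_mul_cancel₀ hd, one_pow, one_smul] at e
        rw [e, transpose_one, one_mulVec]
      · rw [finrank_top, finrank_fin_fun, if_pos hv]
        unfold InfinitePlace.mult
        by_cases h : v.IsReal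
        · rw [if_pos h, if_pos ⟨hv, h⟩]
          omega
        · rw [if_neg h, if_neg fun e => h e.2]
          omega
    obtain ⟨φ, hφ⟩ := lift_FvArch K v
    obtain ⟨c, hc, hr⟩ : ∃ c : K.fixingSubgroup, IsConj' φ c ∧ r c ≠ 1 := by
      by_contra h
      push Not at h
      exact hv ⟨φ, hφ, h⟩
    have hcc : c * c = 1 := by
      refine Subtype.ext (AlgEquiv.ext fun x => φ.injective ?_)
      change φ (c.1 (c.1 x)) = φ x
      rw [hc, hc, Complex.conj_conj]
    have hu : ∀ c' : K.fixingSubgroup, IsConj' φ c' → c'⁻¹ = c := by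
      intro c' h'
      have : c' = c := Subtype.ext (AlgEquiv.ext fun x => φ.injective (by rw [h', hc]))
      rw [this]
      exact inv_eq_of_mul_eq_one_right hcc
    have hm : v.mult = 1 := by
      refine InfinitePlace.IsReal.mult_eq_one ?_
      rw [← hφ, InfinitePlace.isReal_mk_iff, ComplexEmbedding.isReal_iff]
      ext x
      change starRingEnd ℂ (φ (x : Qb)) = φ (x : Qb)
      rw [← hc, (K.mem_fixingSubgroup_iff c.1).1 c.2 x x.2]
    refine ⟨φ, fx_LcArch (vR r 1 i c), hφ, fun c' h' Y hY => by rw [hu c' h']; exact hY, ?_⟩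
    rw [hm, mul_one, if_neg hv, if_neg fun e => hv e.1, add_zero, add_zero]
    have hN : i ≤ 2 * i + 1 := by omega
    have e0 : repIn r 1 c = (rep r c).val := by simp [repIn]
    obtain ⟨l, hsq⟩ : ∃ l : ZMod p, (rep r c).val * (rep r c).val = l • 1 := by
      have a1 : ProjGenLinGroup.mk (rep r c) = r c := Function.surjInv_eq _ _
      have a2 : ProjGenLinGroup.mk (rep r c * rep r c) = 1 := by
        rw [map_mul, a1, ← map_mul, hcc, map_one]
      rw [ProjGenLinGroup.mk_eq_one,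
        GeneralLinearGroup.mem_center_iff_val_mem_range_scalar] at a2
      obtain ⟨l, hl⟩ := a2
      exact ⟨l, by rw [← Units.val_mul, ← hl, scalar_apply, smul_one_eq_diagonal]⟩
    obtain ⟨A, hA⟩ := basis_LcArch _ _ hsq fun h => hr ((b5 1 c).2 (by rwa [e0]))
    have eA : repIn r A c = !![0, l; 1, 0] := by
      unfold repIn
      rw [Units.val_mul, Units.val_mul, Matrix.mul_assoc, hA, Units.inv_mul_cancel_left]
    have hd := hdet c A
    have ed : (repIn r A c).det = -l := by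
      rw [eA, det_fin_two_of]
      ring
    have hl : l ≠ 0 := by
      rw [ed] at hd
      exact neg_ne_zero.1 hd
    have hk : (-l)⁻¹ * l = -1 := by field_simp
    refine conj_LcArch hN _ _ _ _ (b7 A c) (hPQ A) fun x => ?_
    refine anti_LcArch hN (fun j => (-l)⁻¹ ^ i * l ^ j) _ (fun a j => ?_)
      (fun a j haj => ?_) (Or.inl rfl) x
    · rw [ed, eA, Matrix.smul_apply, symP_anti_LcArch, smul_eq_mul, hsg, one_mul]
      split_ifs
      · rfl
      · exact mul_zero _
    · calc (-l)⁻¹ ^ i * l ^ a * ((-l)⁻¹ ^ i * l ^ j)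
          = (-l)⁻¹ ^ i * (-l)⁻¹ ^ i * l ^ (a + j) := by ring
        _ = (((-l)⁻¹ * l) * ((-l)⁻¹ * l)) ^ i := by
            rw [haj, mul_pow ((-l)⁻¹ * l), mul_pow (-l)⁻¹, two_mul, pow_add]
            ring
        _ = 1 := by rw [hk, neg_mul_neg, one_mul, one_pow]
  choose φ U a1 a2 a3 using main
  refine ⟨φ, U, ⟨a1, a2⟩, le_trans (le_of_eq ?_) (sum_le_sum fun v _ => a3 v)⟩
  rw [sum_add_distrib, sum_add_distrib, ← mul_sum, InfinitePlace.sum_mult_eq, ← card_filter,
    ← card_filter, evDef, ← Set.ncard_coe_finset, ← Set.ncard_coe_finset]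
  simp

end Pool.Agent.MP_f68ac8_nt.Sv
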