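import Mathlib
import Pool.Agent.MP_f68ac8_nt.LdAux
import Pool.Agent.MP_f68ac8_nt.OvLead1
import Pool.Agent.MP_f68ac8_nt.QvLead

/-! Existence of the comparison between a lift and its conjugate dual. -/

namespace Pool.Agent.MP_f68ac8_nt.Sv

open Ev Pv
open NumberField Matrix IsLocalRing
open scoped Topology MatrixGroups

section alg
variable {n : ℕ} {O k : Type} [CommRing O] [Field k] {π : O →+* k}

lemma dual_LdOne {S D D' Y : Mt n k} {a b δ : k} (hδ : S * D * Sᵀ = δ • D) (e : b • Sᵀ * Y = 1)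
    (e2 : D * D' = 1) : a • S = (a * (b * δ)) • (D * Y * D') :=
  calc a • S = a • (S * D * (b • Sᵀ * Y) * D') := by rw [e, mul_one, mul_assoc, e2, mul_one]
    _ = a • b • (S * D * Sᵀ * Y * D') := by simp only [mul_assoc, smul_mul_assoc, mul_smul_comm]
    _ = _ := by rw [hδ, smul_mul_assoc, smul_mul_assoc, smul_smul, smul_smul, mul_assoc]

lemma one_LdOne (I : Ideal O) (A : Mt n O) :
    (∀ a b, (A - 1) a b ∈ I) ↔ (Ideal.Quotient.mk I).mapMatrix A = 1 := by
  rw [← map_one (Ideal.Quotient.mk I).mapMatrix, ← sub_eq_zero, ← map_sub, ← Matrix.ext_iff]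
  exact forall₂_congr fun a b => Ideal.Quotient.eq_zero_iff_mem.symm

lemma sm_LdOne {R : Type} [CommRing R] (f : O →+* R) (c : O) (Z : Mt n O) :
    f.mapMatrix (c • Z) = f c • f.mapMatrix Z := by
  ext a b
  simp

lemma ne_LdOne (hn : 0 < n) (A : GL (Fin n) O) : π.mapMatrix A.val ≠ 0 := by
  have : Nonempty (Fin n) := ⟨⟨0, hn⟩⟩
  exact (A.isUnit.map π.mapMatrix).ne_zero

/-- the inverse transpose -/
def tr_LdOne (n : ℕ) (O : Type) [CommRing O] : GL (Fin n) O →* GL (Fin n) O :=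
  MonoidHom.mk' (fun A => ⟨A⁻¹.valᵀ, A.valᵀ, by rw [← transpose_mul, Units.mul_inv, transpose_one],
    by rw [← transpose_mul, Units.inv_mul, transpose_one]⟩) fun A B => Units.ext (by
      show (A * B)⁻¹.valᵀ = A⁻¹.valᵀ * B⁻¹.valᵀ
      rw [_root_.mul_inv_rev, Units.val_mul, transpose_mul])

lemma red_LdOne (hn : 0 < n) {A : GL (Fin n) O} {S S' : Mt n k} {c : k} (hS : S' * S = 1)
    (h : π.mapMatrix A.val = c • S) :
    c ≠ 0 ∧ ∀ X, π.mapMatrix A.val * X * π.mapMatrix A⁻¹.val = S * X * S' := by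
  have h1 : π.mapMatrix A.val * π.mapMatrix A⁻¹.val = 1 := by
    rw [← map_mul, Units.mul_inv, map_one]
  have hc : c ≠ 0 := by
    rintro rfl
    exact ne_LdOne hn A (h.trans (zero_smul _ _))
  have h2 : π.mapMatrix A⁻¹.val = c⁻¹ • S' := by
    refine (left_inv_eq_right_inv ?_ h1).symm
    rw [h, smul_mul_smul_comm, inv_mul_cancel₀ hc, one_smul, hS]
  refine ⟨hc, fun X => ?_⟩
  rw [h, h2, smul_mul_assoc, smul_mul_smul_comm, mul_inv_cancel₀ hc, one_smul]

lemma twist_LdOne [IsDomain O] [IsLocalRing O] [IsAdicComplete (maximalIdeal O) O]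
    (hs : Function.Surjective π) (hk : ∀ x, π x = 0 ↔ x ∈ maximalIdeal O) (hn : 0 < n)
    (hu : IsUnit (n : O)) {G : Type} [Group G] [TopologicalSpace G] (ρ₁ ρ₀ : G →* GL (Fin n) O)
    (hc₁ : ∀ j, ∀ᶠ g in 𝓝 1, ∀ a b, ((ρ₁ g).val - 1) a b ∈ maximalIdeal O ^ j)
    (hc₀ : ∀ j, ∀ᶠ g in 𝓝 1, ∀ a b, ((ρ₀ g).val - 1) a b ∈ maximalIdeal O ^ j)
    (hb : ∀ g, ∃ b : k, π.mapMatrix (ρ₀ g).val = b • π.mapMatrix (ρ₁ g).val) :
    ∃ (s : G → O) (ρ : G →* GL (Fin n) O), (∀ g, (ρ g).val = s g • (ρ₁ g).val) ∧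
      (∀ j, ∀ᶠ g in 𝓝 1, ∀ a b, ((ρ g).val - 1) a b ∈ maximalIdeal O ^ j) ∧
      (∀ g, π.mapMatrix (ρ g).val = π.mapMatrix (ρ₀ g).val) ∧
      ∀ g, (ρ g).val.det = (ρ₀ g).val.det := by
  have hun : ∀ x, π x ≠ 0 → IsUnit x := fun x hx => by
    by_contra h
    exact hx ((hk x).2 h)
  have hd (A : GL (Fin n) O) : IsUnit A.val.det := (isUnit_iff_isUnit_det _).1 A.isUnit
  have hne (g : G) (x : O) (h : π.mapMatrix (ρ₀ g).val = π x • π.mapMatrix (ρ₁ g).val) :
      IsUnit x := hun x fun e => ne_LdOne hn (ρ₀ g) (by rw [h, e, zero_smul])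
  have hex (g : G) : ∃ x : O, x ^ n * (ρ₁ g).val.det = (ρ₀ g).val.det ∧
      π.mapMatrix (ρ₀ g).val = π x • π.mapMatrix (ρ₁ g).val := by
    obtain ⟨b, h⟩ := hb g
    obtain ⟨b, rfl⟩ := hs b
    obtain ⟨d, hd'⟩ := hd (ρ₁ g)
    obtain ⟨x, h1, h2⟩ := HenselianRing.is_henselian (I := maximalIdeal O)
      (Polynomial.X ^ n - Polynomial.C ((ρ₀ g).val.det * d⁻¹.val))
      (Polynomial.monic_X_pow_sub_C _ hn.ne') b (by
        have e := congrArg det h
        rw [det_smul, Fintype.card_fin, ← RingHom.map_det, ← RingHom.map_det, ← hd'] at e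
        rw [← hk, Polynomial.eval_sub, Polynomial.eval_pow, Polynomial.eval_X, Polynomial.eval_C,
          map_sub, map_mul, e, mul_assoc, ← map_mul, Units.mul_inv, map_one, mul_one, map_pow,
          sub_self]) (by
        refine IsUnit.map _ ?_
        simp only [Polynomial.derivative_sub, Polynomial.derivative_X_pow, Polynomial.derivative_C,
          sub_zero, Polynomial.eval_mul, Polynomial.eval_C, Polynomial.eval_pow,
          Polynomial.eval_X]
        exact hu.mul ((hne g b h).pow _))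
    rw [← hk, map_sub, sub_eq_zero] at h2
    rw [Polynomial.IsRoot, Polynomial.eval_sub, Polynomial.eval_pow, Polynomial.eval_X,
      Polynomial.eval_C, sub_eq_zero] at h1
    exact ⟨x, by rw [h1, ← hd', Units.inv_mul_cancel_right], by rw [h2, h]⟩
  choose s h1 h2 using hex
  have hmul (g h : G) : s (g * h) = s g * s h := by
    refine root_eq hu ((hne g _ (h2 g)).mul (hne h _ (h2 h))) ?_ ?_
    · refine (hd (ρ₁ (g * h))).mul_right_cancel ?_
      rw [h1, map_mul, map_mul, Units.val_mul, Units.val_mul, det_mul, det_mul, ← h1, ← h1]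
      ring
    · have e := h2 (g * h)
      rw [map_mul ρ₀, Units.val_mul, map_mul, h2 g, h2 h, smul_mul_smul_comm, ← map_mul,
        ← map_mul, ← Units.val_mul, ← map_mul] at e
      rw [← hk, map_sub, sub_eq_zero]
      exact (smul_left_injective k (ne_LdOne hn _) e).symm
  let ρ : G →* GL (Fin n) O := MonoidHom.mk' (fun g => (hne g _ (h2 g)).unit • ρ₁ g)
    fun g h => Units.ext (by
      show s (g * h) • (ρ₁ (g * h)).val = s g • (ρ₁ g).val * s h • (ρ₁ h).val
      rw [hmul, map_mul, Units.val_mul, smul_mul_smul_comm])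
  have hρ (g : G) : (ρ g).val = s g • (ρ₁ g).val := rfl
  refine ⟨s, ρ, hρ, fun j => ?_, fun g => by rw [hρ, sm_LdOne, h2],
    fun g => by rw [hρ, det_smul, Fintype.card_fin, h1]⟩
  filter_upwards [hc₁ j, hc₀ j, hc₁ 1, hc₀ 1] with g a1 a0 b1 b0
  have hπ (A : Mt n O) (h : ∀ a b, (A - 1) a b ∈ maximalIdeal O ^ 1) : π.mapMatrix A = 1 := by
    rw [← map_one π.mapMatrix, ← sub_eq_zero, ← map_sub]
    ext a b
    exact (hk _).2 (pow_one (maximalIdeal O) ▸ h a b)
  have e1 : π (s g) = 1 := by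
    have e := h2 g
    rw [hπ _ b0, hπ _ b1] at e
    have e' := congrFun (congrFun e ⟨0, hn⟩) ⟨0, hn⟩
    simpa using e'.symm
  rw [one_LdOne] at a1 a0 ⊢
  have e2 := congrArg (Ideal.Quotient.mk (maximalIdeal O ^ j)) (h1 g)
  rw [map_mul, RingHom.map_det, RingHom.map_det, a1, a0, det_one, mul_one] at e2
  have e3 : IsUnit (∑ i ∈ Finset.range n, s g ^ i) := hun _ (by
    simp only [map_sum, map_pow, e1, one_pow, Finset.sum_const, Finset.card_range, nsmul_one]
    exact map_natCast π n ▸ (hu.map π).ne_zero)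
  have e4 := congrArg (Ideal.Quotient.mk (maximalIdeal O ^ j)) (geom_sum_mul (s g) n)
  rw [map_sub, e2, map_one, sub_self, map_mul, (e3.map _).mul_right_eq_zero, map_sub, map_one,
    sub_eq_zero] at e4
  rw [hρ, sm_LdOne, a1, e4, one_smul]

end alg

theorem lead1_stmt (p : ℕ) [Fact p.Prime] (h1 : Sym1Stmt) (h2 : Sym2Stmt p) (hB : BaseStmt p) :
    Lead1Stmt p := by
  intro K F _ _ r η γ n hKF hR S hn
  unfold PolLift at hn
  push Not at hn
  obtain ⟨O, _, _, _, _, ρ, hL, hn⟩ := hn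
  have hp : p.Prime := Fact.out
  obtain ⟨k, _, _, _, π, hs, hk⟩ : ∃ (k : Type) (_ : Field k) (_ : CharP k p)
      (_ : Algebra (ZMod p) k) (π : O →+* k), Function.Surjective π ∧
      ∀ x, π x = 0 ↔ x ∈ maximalIdeal O := by
    have hp0 : (p : ResidueField O) = 0 := by
      rw [← map_natCast (residue O), residue_eq_zero_iff]
      exact hL.res
    have : CharP (ResidueField O) p := (CharP.charP_iff_prime_eq_zero hp).mpr hp0
    exact ⟨ResidueField O, inferInstance, this, ZMod.algebra _ p, residue O, residue_surjective,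
      fun x => residue_eq_zero_iff x⟩
  obtain ⟨hn2, hnp⟩ := hR.big
  have hn0 : 0 < n := by omega
  have hu (m : ℕ) (h0 : 0 < m) (h : m < p) : IsUnit (m : O) := by
    by_contra e
    have e1 := (hk _).2 e
    rw [map_natCast, CharP.cast_eq_zero_iff k p] at e1
    exact absurd (Nat.le_of_dvd h0 e1) (by omega)
  obtain ⟨z1, z2, z3, z4, -⟩ := h1 (ZMod p) n
  have y1 (A : GL (Fin 2) (ZMod p)) : sy k n A⁻¹.val * sy k n A.val = 1 := by
    rw [sy, sy, ← Matrix.map_mul, ← z2, Units.inv_mul, z1,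
      Matrix.map_one _ (map_zero _) (map_one _)]
  have y2 (A : Mt 2 (ZMod p)) : ∃ δ : k, sy k n A * Dm k n * (sy k n A)ᵀ = δ • Dm k n :=
    ⟨_, by rw [sy, (z4 k _).1, (h1 k n).2.2.2.2.2.1]⟩
  choose c hc using hL.lift
  have v1 (g : η.ker) : π.mapMatrix (ρ g).val = π (c g) • sy k n (rep r g).val := by
    ext a b
    have e := (hk _).2 (hc g a b)
    rw [map_sub, map_mul, map_natCast, sub_eq_zero] at e
    rw [RingHom.mapMatrix_apply, map_apply, Matrix.smul_apply, sy, map_apply, e, smul_eq_mul]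
    conv_rhs => rw [← ZMod.natCast_zmod_val (symP n (rep r g).val a b), map_natCast]
  have v2 (g : η.ker) := red_LdOne hn0 (y1 _) (v1 g)
  have v3 (g : η.ker) (X : Mt n k) :
      π.mapMatrix (ρ g).val * X * π.mapMatrix (ρ g)⁻¹.val = adS (rep r g) X := (v2 g).2 X
  have hrep (g : η.ker) : rep r (MulAut.conjNormal γ g : η.ker) = rep r g := by
    rw [rep, rep, MulAut.conjNormal_apply, map_mul, map_mul, map_inv, hR.gam.1, one_mul, inv_one,
      mul_one]
  have hκ : Filter.Tendsto (fun g : η.ker => MulAut.conjNormal γ g) (𝓝 1) (𝓝 1) := by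
    have h : Continuous fun g : η.ker => MulAut.conjNormal γ g :=
      continuous_induced_rng.2 (show Continuous fun g : η.ker => γ * g.1 * γ⁻¹ by fun_prop)
    exact h.tendsto' 1 1 (map_one _)
  obtain ⟨D, hD⟩ := (h1 O n).2.2.2.2.2.2.2 fun m h0 h => hu m h0 (by omega)
  have hD' : π.mapMatrix D.val = Dm k n := by
    rw [hD]
    exact ((h1 O n).2.2.2.1 k π).2
  let ρ₁ : η.ker →* GL (Fin n) O := (MulAut.conj D).toMonoidHom.comp
    ((tr_LdOne n O).comp (ρ.comp (MulAut.conjNormal γ : MulAut η.ker).toMonoidHom))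
  have hρ₁ (g : η.ker) :
      (ρ₁ g).val = D.val * (ρ (MulAut.conjNormal γ g))⁻¹.valᵀ * D⁻¹.val := rfl
  obtain ⟨s, ρ', s1, s2, s3, s4⟩ := twist_LdOne hs hk hn0 (hu n hn0 (by omega)) ρ₁ ρ
    (fun j => (hκ.eventually (hL.cont j)).mono fun g hg => by
      rw [one_LdOne] at hg ⊢
      have e := congrArg (Ideal.Quotient.mk (maximalIdeal O ^ j)).mapMatrix
        (ρ (MulAut.conjNormal γ g)).mul_inv
      rw [map_mul, hg, one_mul, map_one, RingHom.mapMatrix_apply] at e
      rw [hρ₁, map_mul, map_mul, RingHom.mapMatrix_apply _ _ᵀ, transpose_map, e, transpose_one,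
        mul_one, ← map_mul, Units.mul_inv, map_one])
    hL.cont (fun g => by
      obtain ⟨δ, hδ⟩ := y2 (rep r g).val
      have e := congrArg (fun X => (π.mapMatrix X)ᵀ) (ρ (MulAut.conjNormal γ g)).inv_mul
      simp only [map_mul, v1, hrep, map_one, transpose_mul, transpose_one, transpose_smul] at e
      have e2 : π.mapMatrix D.val * π.mapMatrix D⁻¹.val = 1 := by
        rw [← map_mul, Units.mul_inv, map_one]
      refine ⟨π (c g) * (π (c (MulAut.conjNormal γ g)) * δ), ?_⟩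
      rw [v1, hρ₁, map_mul, map_mul, RingHom.mapMatrix_apply _ _ᵀ, transpose_map,
        ← RingHom.mapMatrix_apply]
      exact dual_LdOne (hD' ▸ hδ) e e2)
  obtain ⟨C, ϖ, e, Z, t1, t2, t3, -, t5, t6, t7, t8⟩ := main_OvLead1 hs hk ρ' ρ s2 hL.cont
    (fun g i j => (hk _).1 (by
      rw [map_sub, sub_eq_zero]
      exact congrFun (congrFun (s3 g) i) j)) s4 (by
      rintro ⟨C, hC⟩
      obtain ⟨g, hg⟩ := hn (C * D)⁻¹
      refine hg (s g) ?_
      have e1 : (ρ g).val = s g • ((C * D).val * (ρ (MulAut.conjNormal γ g))⁻¹.valᵀ *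
          (C * D)⁻¹.val) := by
        rw [← Units.mul_inv_cancel_right (ρ g).val C, ← hC, s1, hρ₁, _root_.mul_inv_rev]
        simp only [Units.val_mul, mul_assoc, mul_smul_comm, smul_mul_assoc]
      rw [e1, mul_smul_comm, mul_assoc, mul_assoc, Units.inv_mul_cancel_left, ← mul_assoc,
        ← transpose_mul, Units.inv_mul, transpose_one, one_mul])
  have p1 : ϖ ^ e ≠ 0 := pow_ne_zero _ t1.ne_zero
  have p2 : π (ϖ ^ e) = 0 := by rw [map_pow, (hk ϖ).2 t1.not_isUnit, zero_pow t2.ne']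
  simp only [v3] at t5 t8
  refine ⟨O, _, inferInstance, inferInstance, k, _, _, π, ⟨ρ, C * D, ϖ ^ e, s, Z⟩, hL, ⟨hs, hk⟩,
    p1, p2, fun g => ?_, fun g => ?_, ?_, fun g => ⟨_, (v2 g).1, v1 g⟩, t5, t6, t7, t8⟩
  · show s g • ((C * D).val * _ * (C * D)⁻¹.val) = (1 + ϖ ^ e • Z g) * (ρ g).val
    rw [← t3, Units.val_mul C, Units.val_mul, Units.val_mul, s1, hρ₁, _root_.mul_inv_rev]
    simp only [Units.val_mul, mul_assoc, mul_smul_comm, smul_mul_assoc]
  · have e1 := congrArg det (t3 g)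
    rw [Units.val_mul, Units.val_mul, det_mul, det_mul, det_mul, mul_right_comm, ← det_mul,
      Units.mul_inv, det_one, s4] at e1
    exact (mul_right_cancel₀ ((isUnit_iff_isUnit_det _).mp (ρ g).isUnit).ne_zero e1).symm
  · obtain ⟨a, ha⟩ := (h2 k n hn0 (by omega)).2.2 (π.mapMatrix C.val) fun A hA => by
      obtain ⟨g, b, g1, -, g3⟩ := (hB K F r η γ n hKF hR).2.2.1
        (GeneralLinearGroup.mkOfDetNeZero A (hA ▸ one_ne_zero)) hA
      rw [← Nat.cast_smul_eq_nsmul (ZMod p)] at g3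
      have g2 : (b : ZMod p) ≠ 0 := fun h => (rep r g).ne_zero (by rw [g3, h, zero_smul])
      lift g to η.ker using g1
      have e1 := congrArg (fun X => π.mapMatrix (X * C.val)) (t3 g)
      simp only [Units.val_mul, Units.inv_mul_cancel_right, map_mul, map_add, map_one, sm_LdOne,
        p2, zero_smul, add_zero, one_mul, s3, v1] at e1
      rw [g3, GeneralLinearGroup.val_mkOfDetNeZero, sy, z3, ← RingHom.mapMatrix_apply, sm_LdOne,
        smul_smul, mul_smul_comm, smul_mul_assoc] at e1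
      exact smul_right_injective _ (mul_ne_zero (v2 g).1
        ((map_ne_zero _).2 (pow_ne_zero _ g2))) e1
    refine ⟨a, fun h => ne_LdOne hn0 C (by rw [ha, h, zero_smul]), ?_⟩
    show π.mapMatrix (C.val * D.val) = _
    rw [map_mul, ha, hD', smul_mul_assoc, one_mul]

end Pool.Agent.MP_f68ac8_nt.Sv
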