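import Mathlib

namespace Pool.Agent.MP_f68ac8_nt

open NumberField

/-- the absolute Galois group of the rationals, with the Krull topology -/
abbrev GQ : Type := AlgebraicClosure ℚ ≃ₐ[ℚ] AlgebraicClosure ℚ

/-- `g` lies in the inertia group of some prime of the ring of algebraic integers above `l` -/
def InertiaAt (l : ℕ) (g : GQ) : Prop :=
  ∃ P : Ideal (𝓞 (AlgebraicClosure ℚ)), P.IsMaximal ∧ (l : 𝓞 (AlgebraicClosure ℚ)) ∈ P ∧
    g ∈ P.inertia GQ

/-- Triviality of the residually trivial two-dimensional `p`-adic representations that are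
potentially unramified at `p` and whose ramified primes congruent to `1` mod `p` lie in `S`. -/
def TameFM (p : ℕ) [Fact p.Prime] (S : Set ℕ) : Prop :=
  ∀ ρ : GQ →ₜ* GL (Fin 2) (PadicAlgCl p),
    (∀ g, ‖Matrix.trace (ρ g).val - 2‖ < 1) →
    (∀ g, InertiaAt p g → IsOfFinOrder (ρ g)) →
    (∀ l, l.Prime → l ≡ 1 [MOD p] → l ∉ S → ∀ g, InertiaAt l g → ρ g = 1) →
    ((∃ E : IntermediateField ℚ_[p] (PadicAlgCl p), FiniteDimensional ℚ_[p] E ∧
        2 * Module.finrank ℚ_[p] E < p - 1 ∧ ∀ g, Matrix.trace (ρ g).val ∈ E) ∨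
      ∀ l, l.Prime → ∀ g, InertiaAt l g → ρ g ^ p = 1 → ρ g = 1) →
    ∀ g, ρ g = 1

/-- `q` lists distinct primes congruent to `1` mod `p`, and `m` is their normalised
linking matrix -/
def Linked (p : ℕ) {d : ℕ} (q : Fin d → ℕ) (m : Matrix (Fin d) (Fin d) (ZMod p)) : Prop :=
  Function.Injective q ∧ (∀ i, (q i).Prime ∧ q i ≡ 1 [MOD p]) ∧
    ∃ ψ : ∀ j, (ZMod (q j))ˣ →* Multiplicative (ZMod p), (∀ j, Function.Surjective (ψ j)) ∧
      ∀ i j, i ≠ j → ∀ u : (ZMod (q j))ˣ, (u : ZMod (q j)) = q i →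
        (ψ j u).toAdd = ((q i - 1) / p ^ padicValNat p (q i - 1) : ℕ) * m i j

end Pool.Agent.MP_f68ac8_nt
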