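import Mathlib
import Pool.Agent.MP_f68ac8_nt.Defs

namespace Pool.Agent.MP_f68ac8_nt

open Filter Topology NumberField

/-- the lower Dirichlet mean of `f` over the set `T` of primes -/
noncomputable def lowerMeanOn (T : ℕ → Prop) (f : ℕ → ℝ) : ℝ :=
  liminf (fun s : ℝ => (∑' l : {l : ℕ // T l}, f l * (l : ℝ) ^ (-s)) /
    ∑' l : {l : ℕ // T l}, (l : ℝ) ^ (-s)) (𝓝[>] 1)

open Classical in
/-- the lower probability that `A` holds for a set obtained by choosing `d` elements of `T`
one after the other, each according to lower Dirichlet density -/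
noncomputable def setDensOn (T : ℕ → Prop) : ℕ → (Set ℕ → Prop) → ℝ
  | 0, A => if A ∅ then 1 else 0
  | d + 1, A => lowerMeanOn T fun l => setDensOn T d fun S => A (insert l S)

/-- primes congruent to `1` mod `p` that split completely in `F` -/
def TrivPrime (p : ℕ) (F : Type) [Field F] [NumberField F] (l : ℕ) : Prop :=
  l.Prime ∧ l ≡ 1 [MOD p] ∧
    ((Ideal.span {(l : ℤ)}).primesOver (𝓞 F)).ncard = Module.finrank ℚ F

/-- the ring of integers of the algebraic closure of the `p`-adic numbers -/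
noncomputable abbrev Zbar (p : ℕ) [Fact p.Prime] : ValuationSubring (PadicAlgCl p) :=
  (NormedField.valuation (K := PadicAlgCl p)).valuationSubring

/-- its residue field -/
abbrev Fbar (p : ℕ) [Fact p.Prime] : Type := IsLocalRing.ResidueField (Zbar p)

/-- scalar matrices -/
def IsScal {R : Type} [CommRing R] {n : ℕ} (A : GL (Fin n) R) : Prop := ∃ c : R, A.val = c • 1

/-- no nonzero subrepresentation of the adjoint representation is isotropic for the trace form -/
def NoIso {k : Type} [Field k] {n : ℕ} (r : GQ →* GL (Fin n) k) : Prop :=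
  ∀ W : Submodule k (Matrix (Fin n) (Fin n) k),
    (∀ g, ∀ A ∈ W, (r g).val * A * (r g)⁻¹.val ∈ W) →
    (∀ A ∈ W, ∀ B ∈ W, (A * B).trace = 0) → W = ⊥

/-- every lift of `r` that is, up to scalars, unipotent on inertia at `S` and trivial on the
inertia groups of `F` away from `S` is scalar on the Galois group of `F` -/
def LiftOK (p : ℕ) (R : Type) [CommRing R] [IsLocalRing R] [TopologicalSpace R] {n : ℕ}
    (F : IntermediateField ℚ (AlgebraicClosure ℚ))
    (r : GQ →* GL (Fin n) (IsLocalRing.ResidueField R)) (S : Set ℕ) : Prop :=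
  ∀ ρ : GQ →ₜ* GL (Fin n) R,
    (∀ g, (ρ g).val.map (IsLocalRing.residue R) = (r g).val) →
    (∀ l ∈ S, ∀ g, InertiaAt l g → ∃ c : R, IsNilpotent ((ρ g).val - c • 1)) →
    (∀ l, l.Prime → l ∉ S → (l = p ∨ l ^ Module.finrank ℚ F ≡ 1 [MOD p]) →
      ∀ g ∈ F.fixingSubgroup, InertiaAt l g → IsScal (ρ g)) →
    ∀ g ∈ F.fixingSubgroup, IsScal (ρ g)

end Pool.Agent.MP_f68ac8_nt
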