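import Mathlib
import Pool.Agent.MP_f68ac8_nt.Cyc

/-! Kummer characters and the independence of the linking data. -/

namespace Pool.Agent.MP_f68ac8_nt

open NumberField

variable {p : ℕ} [hp : Fact p.Prime]

section ex
variable {F : Type} [CommRing F] [IsDomain F] {z : F}

omit [IsDomain F] in
lemma ex_nat (hz : IsPrimitiveRoot z p) (k : ℕ) : z ^ (k : ZMod p).val = z ^ k := by
  rw [ZMod.val_natCast]
  nth_rw 1 [hz.eq_orderOf]
  exact pow_mod_orderOf z k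

omit [IsDomain F] in
lemma ex_add (hz : IsPrimitiveRoot z p) (a b : ZMod p) :
    z ^ (a + b).val = z ^ a.val * z ^ b.val := by
  rw [← pow_add, ← ex_nat hz (a.val + b.val)]
  simp

omit [IsDomain F] in
lemma ex_mul (hz : IsPrimitiveRoot z p) (a b : ZMod p) :
    z ^ (a * b).val = (z ^ b.val) ^ a.val := by
  rw [← pow_mul, ← ex_nat hz (b.val * a.val)]
  simp [mul_comm]

omit [IsDomain F] in
lemma ex_inj (hz : IsPrimitiveRoot z p) {a b : ZMod p} (h : z ^ a.val = z ^ b.val) : a = b :=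
  ZMod.val_injective p (hz.pow_inj a.val_lt b.val_lt h)

variable (p z) in
/-- discrete logarithm -/
noncomputable def lg (x : F) : ZMod p := Function.invFun (fun a : ZMod p => z ^ a.val) x

lemma lg_spec (hz : IsPrimitiveRoot z p) {x : F} (hx : x ^ p = 1) : z ^ (lg p z x).val = x := by
  obtain ⟨k, -, rfl⟩ := hz.eq_pow_of_pow_eq_one hx
  exact Function.invFun_eq (f := fun a : ZMod p => z ^ a.val) ⟨k, ex_nat hz k⟩

end ex

variable {Ω : Type} [Field Ω] [CharZero Ω] [IsAlgClosure ℚ Ω]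

lemma xi_spec : IsPrimitiveRoot (zeta Ω (p ^ 2) ^ p) p :=
  (zeta_spec (p ^ 2)).pow (pow_pos hp.out.pos 2) (pow_two p)

variable (p) in
/-- the Kummer cocycle -/
noncomputable def kap (α : Ω) (g : Ω ≃ₐ[ℚ] Ω) : ZMod p := lg p (zeta Ω (p ^ 2) ^ p) (g α / α)

lemma kap_spec {α : Ω} (h0 : α ≠ 0) {g : Ω ≃ₐ[ℚ] Ω} (h : g (α ^ p) = α ^ p) :
    g α = (zeta Ω (p ^ 2) ^ p) ^ (kap p α g).val * α := by
  rw [kap, lg_spec xi_spec (by rw [div_pow, ← map_pow, h, div_self (pow_ne_zero _ h0)]),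
    div_mul_cancel₀ _ h0]

lemma kap_eq {α : Ω} (h0 : α ≠ 0) {g : Ω ≃ₐ[ℚ] Ω} {a : ZMod p}
    (h : g α = (zeta Ω (p ^ 2) ^ p) ^ a.val * α) : kap p α g = a := by
  have := kap_spec h0 (g := g) (p := p) (by
    rw [map_pow, h, mul_pow, pow_right_comm, xi_spec.pow_eq_one, one_pow, one_mul])
  exact ex_inj xi_spec (mul_right_cancel₀ h0 (this.symm.trans h))

lemma kap_mul {α : Ω} (h0 : α ≠ 0) {g h : Ω ≃ₐ[ℚ] Ω} (hg : g (α ^ p) = α ^ p)
    (hh : h (α ^ p) = α ^ p) :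
    kap p α (g * h) = kap p α g + (cyc p g : ZMod p) * kap p α h := by
  refine kap_eq h0 ?_
  rw [AlgEquiv.mul_apply, kap_spec h0 hh, map_mul, kap_spec h0 hg, cyc_spec p g
    (by rw [pow_right_comm, xi_spec.pow_eq_one, one_pow]), ex_add xi_spec, ex_mul xi_spec]
  ring

lemma fix_xi {g : Ω ≃ₐ[ℚ] Ω} (h : cyc p g = 1) : g (zeta Ω (p ^ 2) ^ p) = zeta Ω (p ^ 2) ^ p := by
  rw [cyc_spec p g xi_spec.pow_eq_one, h, Units.val_one, ZMod.val_one, pow_one]

lemma zeta_ne (n : ℕ) [NeZero n] : zeta Ω n ≠ 0 := (zeta_spec n).ne_zero (NeZero.ne n)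

lemma kap_xi {g : Ω ≃ₐ[ℚ] Ω} {c : ℕ}
    (h : g (zeta Ω (p ^ 2)) = zeta Ω (p ^ 2) ^ (p * c + 1)) : kap p (zeta Ω (p ^ 2)) g = c :=
  kap_eq (zeta_ne _) (by rw [h, ex_nat xi_spec, pow_succ, pow_mul])

lemma cyc_of_xi {g : Ω ≃ₐ[ℚ] Ω} (h : g (zeta Ω (p ^ 2) ^ p) = zeta Ω (p ^ 2) ^ p) :
    cyc p g = 1 := by
  obtain ⟨k, -, hk⟩ := xi_spec.eq_pow_of_pow_eq_one (zeta_spec (Ω := Ω) p).pow_eq_one
  ext
  rw [cyc_eq p (k := 1) (by rw [← hk, map_pow, h, pow_one])]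
  simp

variable {n : ℕ} {q : Fin n → ℕ} [hq : ∀ j, Fact (q j).Prime]
  (ψ : ∀ j, (ZMod (q j))ˣ →* Multiplicative (ZMod p)) (α : Fin n → Ω)

/-- the data of a Galois element -/
noncomputable def dat (g : Ω ≃ₐ[ℚ] Ω) : ZMod p × (Fin n → ZMod p) × (Fin n → ZMod p) :=
  (kap p (zeta Ω (p ^ 2)) g, fun j => (ψ j (cyc (q j) g)).toAdd, fun j => kap p (α j) g)

variable {α} (hα : ∀ j, α j ^ p = q j)
include hα

omit [IsAlgClosure ℚ Ω] in
lemma alpha_ne (j : Fin n) : α j ≠ 0 := fun e => by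
  have := hα j
  rw [e, zero_pow hp.out.ne_zero, eq_comm, Nat.cast_eq_zero] at this
  exact (hq j).out.ne_zero this

omit [IsAlgClosure ℚ Ω] hp hq in
lemma alpha_fix (j : Fin n) (g : Ω ≃ₐ[ℚ] Ω) : g (α j ^ p) = α j ^ p := by
  rw [hα, map_natCast]

lemma dat_mul {g h : Ω ≃ₐ[ℚ] Ω} (hg : cyc p g = 1) (hh : cyc p h = 1) :
    dat ψ α (g * h) = dat ψ α g + dat ψ α h := by
  refine Prod.ext ?_ (Prod.ext (funext fun j => ?_) (funext fun j => ?_))
  · simpa [hg, dat] using kap_mul (zeta_ne _) (fix_xi hg) (fix_xi hh)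
  · simp [dat]
  · simpa [hg, dat] using kap_mul (alpha_ne hα j) (alpha_fix hα j g) (alpha_fix hα j h)

lemma kummer_indep (hinj : Function.Injective q) (e : Fin n → ZMod p)
    (h : ∀ g : Ω ≃ₐ[ℚ] Ω, cyc p g = 1 → ∑ j, e j * kap p (α j) g = 0) (j : Fin n) : e j = 0 := by
  let β := ∏ j, α j ^ (e j).val
  let N : ℕ := ∏ j, q j ^ (e j).val
  have hN : N ≠ 0 := Finset.prod_ne_zero_iff.mpr fun j _ => pow_ne_zero _ (hq j).out.ne_zero
  have h1 : β ^ p = N := by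
    simp only [β, N, ← Finset.prod_pow, pow_right_comm _ _ p, hα, Nat.cast_prod, Nat.cast_pow]
  have h2 : ∀ g : Ω ≃ₐ[ℚ] Ω, cyc p g = 1 → g β = β := fun g hg => by
    have e1 : ∀ s : Finset (Fin n), (zeta Ω (p ^ 2) ^ p) ^ (∑ j ∈ s, e j * kap p (α j) g).val =
        ∏ j ∈ s, ((zeta Ω (p ^ 2) ^ p) ^ (kap p (α j) g).val) ^ (e j).val := fun s => by
      induction s using Finset.induction_on with
      | empty => simp
      | insert i s hi ih =>
        rw [Finset.sum_insert hi, Finset.prod_insert hi, ex_add xi_spec, ih, ex_mul xi_spec]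
    have e2 := e1 Finset.univ
    rw [h g hg, ZMod.val_zero, pow_zero] at e2
    simp only [β, map_prod, map_pow, kap_spec (alpha_ne hα _) (alpha_fix hα _ g), mul_pow,
      Finset.prod_mul_distrib]
    rw [← e2, one_mul]
  choose s hs using cyc_surj (Ω := Ω) p
  have h3 : ∀ g : Ω ≃ₐ[ℚ] Ω, g (∏ u, s u β) = ∏ u, s u β := fun g => by
    rw [map_prod]
    refine Fintype.prod_equiv (Equiv.mulLeft (cyc p g)) _ _ fun u => ?_
    have := h2 ((s (cyc p g * u))⁻¹ * g * s u) (by simp [hs, mul_assoc])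
    exact (AlgEquiv.symm_apply_eq _).mp this
  obtain ⟨r, hr⟩ := (InfiniteGalois.mem_range_algebraMap_iff_fixed (k := ℚ) _).mpr h3
  have h4 : r ^ p = (N : ℚ) ^ (p - 1) := by
    apply (algebraMap ℚ Ω).injective
    rw [map_pow, hr, ← Finset.prod_pow]
    simp [← map_pow, h1, Nat.totient_prime hp.out]
  have h5 := congrArg (padicValRat (q j)) h4
  have h7 : padicValNat (q j) N = (e j).val := by
    rw [← Nat.factorization_def _ (hq j).out, Nat.factorization_prod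
      fun j _ => pow_ne_zero _ (hq j).out.ne_zero, Finset.sum_apply', Finset.sum_eq_single j]
    · simp [(hq j).out.factorization_pow]
    · intro i _ hi
      simp [(hq i).out.factorization_pow, Finsupp.single_eq_of_ne' (hinj.ne hi)]
    · simp
  rw [padicValRat.pow, padicValRat.pow, padicValRat.of_nat, h7] at h5
  have h8 := congrArg (Int.cast : ℤ → ZMod p) h5
  simpa [Nat.cast_sub hp.out.one_le] using h8

theorem dat_surj (hp2 : p ≠ 2) (hinj : Function.Injective q) (hqp : ∀ j, q j ≠ p)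
    (hψ : ∀ j, Function.Surjective (ψ j)) (v : ZMod p × (Fin n → ZMod p) × (Fin n → ZMod p)) :
    ∃ g, cyc p g = 1 ∧ dat ψ α g = v := by
  have d1 : dat ψ α 1 = 0 := by simpa using dat_mul ψ hα (g := 1) (h := 1) (map_one _) (map_one _)
  let W₀ : AddSubgroup (ZMod p × (Fin n → ZMod p) × (Fin n → ZMod p)) :=
    { carrier := {v | ∃ g, cyc p g = 1 ∧ dat ψ α g = v}
      zero_mem' := ⟨1, map_one _, d1⟩
      add_mem' := by
        rintro _ _ ⟨g, hg, rfl⟩ ⟨h, hh, rfl⟩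
        exact ⟨g * h, by simp [hg, hh], dat_mul ψ hα hg hh⟩
      neg_mem' := by
        rintro _ ⟨g, hg, rfl⟩
        have hg' : cyc p g⁻¹ = 1 := by simp [hg]
        exact ⟨g⁻¹, hg', eq_neg_of_add_eq_zero_left (by
          rw [← dat_mul ψ hα hg' hg, inv_mul_cancel, d1])⟩ }
  by_contra hn
  obtain ⟨f, f0, hf⟩ := (AddSubgroup.toZModSubmodule p W₀).exists_le_ker_of_lt_top
    (lt_top_iff_ne_top.mpr fun e => hn (show v ∈ AddSubgroup.toZModSubmodule p W₀ from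
      e ▸ Submodule.mem_top))
  have h0 : ∀ g, cyc p g = 1 → f (dat ψ α g) = 0 := fun g hg => hf ⟨g, hg, rfl⟩
  have hd : ∀ v : ZMod p × (Fin n → ZMod p) × (Fin n → ZMod p), f v = f (1, 0, 0) * v.1 +
      ∑ j, f (0, Pi.single j 1, 0) * v.2.1 j + ∑ j, f (0, 0, Pi.single j 1) * v.2.2 j := by
    intro v
    simp only [mul_comm (f _), ← smul_eq_mul, ← map_smul, ← map_sum, ← map_add]
    congr 1
    ext <;> simp [Prod.fst_sum, Prod.snd_sum, Pi.single_apply]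
  obtain ⟨t, ht⟩ : ∃ t : (ZMod p)ˣ, t ≠ 1 := by
    haveI : Fact (2 < p) := ⟨lt_of_le_of_ne hp.out.two_le hp2.symm⟩
    exact ⟨-1, fun e => ZMod.neg_one_ne_one (congrArg Units.val e)⟩
  obtain ⟨δ, rfl⟩ := cyc_surj (Ω := Ω) p t
  have h1 : ∀ g : Ω ≃ₐ[ℚ] Ω, cyc p g = 1 → ∑ j, f (0, 0, Pi.single j 1) * kap p (α j) g = 0 := by
    intro g hg
    have hg' : cyc p (δ * g * δ⁻¹) = 1 := by simp [hg]
    have e1 : kap p (zeta Ω (p ^ 2)) (δ * g * δ⁻¹) = kap p (zeta Ω (p ^ 2)) g := by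
      rw [kap, kap, cyc_spec _ _ (zeta_spec _).pow_eq_one, cyc_spec _ g (zeta_spec _).pow_eq_one]
      simp
    have e2 : ∀ j, kap p (α j) (δ * g * δ⁻¹) = cyc p δ * kap p (α j) g := fun j => by
      have := kap_mul (alpha_ne hα j) (alpha_fix hα j (δ * g * δ⁻¹)) (alpha_fix hα j δ)
      rw [inv_mul_cancel_right, kap_mul (alpha_ne hα j) (alpha_fix hα j _) (alpha_fix hα j _),
        hg'] at this
      simp only [Units.val_one, one_mul] at this
      linear_combination -this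
    have e3 := h0 _ hg'
    have e4 := h0 _ hg
    rw [hd] at e3 e4
    simp only [dat, e1, e2, map_mul, map_inv, mul_inv_cancel_comm, mul_left_comm _ (cyc p δ).val,
      ← Finset.mul_sum] at e3 e4
    apply mul_left_cancel₀ (sub_ne_zero.mpr fun e => ht (Units.val_eq_one.mp e))
    linear_combination e3 - e4
  have h2 := kummer_indep hα hinj _ h1
  have h3 : ∀ j, f (0, Pi.single j 1, 0) = 0 := by
    intro j
    obtain ⟨P, _, hP⟩ := exists_maximal_mem (Ω := Ω) (hq j).out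
    obtain ⟨u, hu⟩ := hψ j (Multiplicative.ofAdd 1)
    obtain ⟨τ, t1, rfl⟩ := cyc_inertia_surj hP u
    have hc := (Nat.coprime_primes (hq j).out hp.out).mpr (hqp j)
    have e := h0 τ (cyc_inertia (not_mem_of_coprime hP hc) t1)
    rw [hd, Finset.sum_eq_single j _ (by simp)] at e
    · have e1 := kap_xi (p := p) (g := τ) (c := 0) (by
        simpa using inertia_root (not_mem_of_coprime hP (hc.pow_right 2)) t1
          (zeta_spec _).pow_eq_one)
      simpa [dat, e1, hu, h2] using e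
    · intro i _ hi
      simp [dat, cyc_inertia (not_mem_of_coprime hP
        ((Nat.coprime_primes (hq j).out (hq i).out).mpr (hinj.ne hi.symm))) t1]
  have h4 : f (1, 0, 0) = 0 := by
    obtain ⟨g, hg⟩ := cyc_surj (Ω := Ω) (p ^ 2) (ZMod.unitOfCoprime (p * 1 + 1)
      (Nat.Coprime.pow_right 2 (by simp)))
    have e1 : g (zeta Ω (p ^ 2)) = zeta Ω (p ^ 2) ^ (p * 1 + 1) := by
      rw [cyc_spec _ g (zeta_spec _).pow_eq_one, hg, ZMod.coe_unitOfCoprime, ZMod.val_natCast]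
      nth_rw 2 [(zeta_spec (Ω := Ω) (p ^ 2)).eq_orderOf]
      exact pow_mod_orderOf _ _
    have e := h0 g (cyc_of_xi (by
      rw [map_pow, e1, mul_one, pow_succ, mul_pow, xi_spec.pow_eq_one, one_mul]))
    rw [hd] at e
    simpa [dat, kap_xi e1, h2, h3] using e
  exact f0 (LinearMap.ext fun v => by simp [hd v, h2, h3, h4])

omit hα in
lemma IsFrob.conj {l : ℕ} {P : Ideal (𝓞 Ω)} [P.IsMaximal] (hl : (l : 𝓞 Ω) ∈ P) {σ : Ω ≃ₐ[ℚ] Ω}
    (h : IsFrob l P σ) (g : Ω ≃ₐ[ℚ] Ω) :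
    ∃ P' : Ideal (𝓞 Ω), P'.IsMaximal ∧ (l : 𝓞 Ω) ∈ P' ∧ IsFrob l P' (g⁻¹ * σ * g) := by
  refine ⟨P.comap (MulSemiringAction.toRingHom _ _ g), Ideal.comap_isMaximal_of_surjective _
    fun x => ⟨g⁻¹ • x, by simp⟩, by simpa using hl, fun x => ?_⟩
  simpa [smul_sub, mul_smul] using h (g • x)

attribute [local instance] Ideal.Quotient.field in
theorem exists_psi {l : ℕ} [hl : Fact l.Prime] (hl1 : l ≡ 1 [MOD p]) (hlq : ∀ j, q j ≠ l)
    {P : Ideal (𝓞 Ω)} [P.IsMaximal] (hP : (l : 𝓞 Ω) ∈ P) {σ : Ω ≃ₐ[ℚ] Ω} (hσ : IsFrob l P σ) :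
    ∃ φ : (ZMod l)ˣ →* Multiplicative (ZMod p), Function.Surjective φ ∧
      ∀ j (u : (ZMod l)ˣ), (u : ZMod l) = q j → (φ u).toAdd = kap p (α j) σ := by
  have l1 := hl.out.one_lt
  obtain ⟨k, hk⟩ := (Nat.modEq_iff_dvd' l1.le).mp hl1.symm
  have hlp : l.Coprime p := by
    rw [show l = 1 + p * k by omega]
    simp
  haveI : CharP (𝓞 Ω ⧸ P) l := (CharP.charP_iff_prime_eq_zero hl.out).mpr
    (by rw [← map_natCast (Ideal.Quotient.mk P), Ideal.Quotient.eq_zero_iff_mem]; exact hP)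
  let ι := ZMod.castHom (dvd_refl l) (𝓞 Ω ⧸ P)
  let ζ : 𝓞 Ω := ⟨zeta Ω (p ^ 2) ^ p, isIntegral_of_pow_eq_one xi_spec.pow_eq_one⟩
  have hζ : IsPrimitiveRoot ζ p := xi_spec.of_map_of_injective (f := algebraMap (𝓞 Ω) Ω)
    (FaithfulSMul.algebraMap_injective _ _)
  have hz : IsPrimitiveRoot (Ideal.Quotient.mk P ζ) p := by
    refine ⟨by rw [← map_pow, hζ.pow_eq_one, map_one], fun i hi => hζ.dvd_of_pow_eq_one i ?_⟩
    refine root_eq_of_sub_mem (not_mem_of_coprime hP hlp)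
      (by rw [pow_right_comm, hζ.pow_eq_one, one_pow]) (one_pow _) ?_
    rw [← Ideal.Quotient.eq, map_pow, hi, map_one]
  have h1 : ∀ u : (ZMod l)ˣ,
      Ideal.Quotient.mk P ζ ^ (lg p (Ideal.Quotient.mk P ζ) (ι u ^ k)).val = ι u ^ k := fun u =>
    lg_spec hz (by rw [← pow_mul, mul_comm, ← hk, ← map_pow, ZMod.pow_card_sub_one_eq_one u.ne_zero,
      map_one])
  let φ : (ZMod l)ˣ →* Multiplicative (ZMod p) := MonoidHom.mk'
    (fun u => Multiplicative.ofAdd (lg p (Ideal.Quotient.mk P ζ) (ι u ^ k))) fun u v => by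
      rw [← ofAdd_add]
      congr 1
      apply ex_inj hz
      rw [ex_add hz, h1, h1, h1, Units.val_mul, map_mul, mul_pow]
  refine ⟨φ, ?_, fun j u hu => ex_inj hz ((h1 u).trans ?_)⟩
  · haveI : Fact (Nat.card (Multiplicative (ZMod p))).Prime := ⟨by simpa using hp.out⟩
    rw [← MonoidHom.range_eq_top]
    refine (φ.range.eq_bot_or_eq_top_of_prime_card).resolve_left fun e => ?_
    obtain ⟨u, hu⟩ := IsCyclic.exists_ofOrder_eq_natCard (α := (ZMod l)ˣ)
    have e1 : lg p (Ideal.Quotient.mk P ζ) (ι u ^ k) = 0 :=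
      Subgroup.mem_bot.mp (e.le ⟨u, rfl⟩)
    have e2 := h1 u
    rw [e1, ZMod.val_zero, pow_zero, ← map_pow, ← map_one ι, ι.injective.eq_iff, eq_comm,
      ← Units.val_pow_eq_pow_val, Units.val_eq_one, ← orderOf_dvd_iff_pow_eq_one, hu,
      Nat.card_eq_fintype_card, ZMod.card_units, hk] at e2
    have k0 : 0 < k := Nat.pos_of_mul_pos_left (by omega : 0 < p * k)
    exact (Nat.le_of_dvd k0 e2).not_gt (lt_mul_of_one_lt_left k0 hp.out.one_lt)
  · let a : 𝓞 Ω := ⟨α j, IsIntegral.of_pow hp.out.pos (hα j ▸ isIntegral_natCast _)⟩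
    have a1 : a ^ p = q j := RingOfIntegers.ext (by simpa [a] using hα j)
    have a2 : σ • a = ζ ^ (kap p (α j) σ).val * a :=
      RingOfIntegers.ext (kap_spec (alpha_ne hα j) (alpha_fix hα j σ))
    have a3 := Ideal.Quotient.eq.mpr (hσ a)
    have a4 : Ideal.Quotient.mk P a ≠ 0 := fun e => not_mem_of_coprime hP
      ((Nat.coprime_primes hl.out (hq j).out).mpr (hlq j).symm) (by
        rw [← a1]
        exact P.pow_mem_of_mem (Ideal.Quotient.eq_zero_iff_mem.mp e) p hp.out.pos)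
    rw [a2, show l = p * k + 1 by omega, pow_succ, pow_mul, a1, map_mul, map_mul, map_pow, map_pow,
      map_natCast] at a3
    rw [hu, map_natCast, mul_right_cancel₀ a4 a3]

end Pool.Agent.MP_f68ac8_nt
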