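import Mathlib
import Pool.Agent.MP_f68ac8_nt.EvDefs
import Pool.Agent.MP_f68ac8_nt.Kum
import Pool.Agent.MP_14ad9d_nt.Full.R1

/-! Auxiliary statements for the theorem on lifts of even representations: arithmetic part. -/

namespace Pool.Agent.MP_f68ac8_nt

/-- every lift of `r` that is, up to scalars, unipotent on inertia at `S` and trivial on the
inertia groups of `F` away from `S` is scalar on the Galois group of `F` -/
def LiftFM (p : ℕ) [Fact p.Prime] {n : ℕ} (F : IntermediateField ℚ (AlgebraicClosure ℚ))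
    (r : GQ →* GL (Fin n) (Fbar p)) (S : Set ℕ) : Prop :=
  ∀ ρ : GQ →ₜ* GL (Fin n) (Zbar p),
    (∀ g, (ρ g).val.map (IsLocalRing.residue (Zbar p)) = (r g).val) →
    (∀ l ∈ S, ∀ g, InertiaAt l g → ∃ c : Zbar p, IsNilpotent ((ρ g).val - c • 1)) →
    (∀ l, l.Prime → l ∉ S → (l = p ∨ l ^ Module.finrank ℚ F ≡ 1 [MOD p]) →
      ∀ g ∈ F.fixingSubgroup, InertiaAt l g → IsScal (ρ g)) →
    ∀ g ∈ F.fixingSubgroup, IsScal (ρ g)

end Pool.Agent.MP_f68ac8_nt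

namespace Pool.Agent.MP_f68ac8_nt.Ev

open NumberField Matrix
open Pool.Agent.MP_14ad9d_nt.Full (Pr ord Tm tame Phi NearAt)
open scoped Pointwise Topology

/-- the algebraic closure of the rationals -/
abbrev Qb : Type := AlgebraicClosure ℚ

instance instClosure : IsAlgClosure ℚ Qb := AlgebraicClosure.instIsAlgClosure ℚ

/-- its ring of integers -/
abbrev OQ : Type := 𝓞 Qb

section
variable (p : ℕ) [hp : Fact p.Prime]

/-- the primitive `p`-th root of unity used in `kap` -/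
noncomputable abbrev xi : Qb := zeta Qb (p ^ 2) ^ p

/-- a chosen `p`-th root -/
noncomputable def proot (x : Qb) : Qb := (IsAlgClosed.exists_pow_nat_eq x hp.out.pos).choose

lemma proot_pow (x : Qb) : proot p x ^ p = x :=
  (IsAlgClosed.exists_pow_nat_eq x hp.out.pos).choose_spec

/-- the Kummer character of `x` -/
noncomputable def KK (x : Qb) (g : GQ) : ZMod p := kap p (proot p x) g

/-- the Galois group of `F` with the `p`-th roots of unity adjoined -/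
noncomputable def HH (F : IntermediateField ℚ Qb) : Subgroup GQ :=
  F.fixingSubgroup ⊓ (cyc (Ω := Qb) p).ker

/-- the unit part of `l - 1` -/
def cu (l : ℕ) : ℕ := (l - 1) / p ^ padicValNat p (l - 1)

/-- basic rules for Kummer characters -/
def KKStmt : Prop :=
  (∀ (x y : Qb) (g : GQ), x ≠ 0 → y ^ p = x → cyc p g = 1 → kap p y g = KK p x g) ∧
  (∀ (x y : Qb) (g : GQ), x ≠ 0 → y ≠ 0 → g x = x → g y = y →  cyc p g = 1 →
    KK p (x * y) g = KK p x g + KK p y g) ∧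
  (∀ (x : Qb) (m : ℤ) (g : GQ), x ≠ 0 → g x = x → cyc p g = 1 →
    KK p (x ^ m) g = m * KK p x g) ∧
  (∀ (x : Qb) (g h : GQ), x ≠ 0 → g x = x → h x = x → cyc p g = 1 →
    KK p x (g * h) = KK p x g + KK p x h) ∧
  (∀ (x : Qb) (t h : GQ), x ≠ 0 → h (t⁻¹ x) = t⁻¹ x → cyc p h = 1 →
    KK p x (t * h * t⁻¹) = cyc p t * KK p (t⁻¹ x) h) ∧
  (∀ (x : Qb) (g : GQ), x ≠ 0 → g x = x → (KK p x g = 0 ↔ g (proot p x) = proot p x)) ∧
  (∀ x : Qb, x ≠ 0 → ∀ᶠ g in 𝓝 (1 : GQ), KK p x g = 0) ∧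
  ∀ (s : Qb) (g : GQ), p ≠ 2 → s ^ 2 = 1 → cyc p g = 1 → KK p s g = 0

/-- the field `M` in which the reciprocity law is applied -/
structure MData (M : IntermediateField ℚ Qb) : Prop where
  two : 2 < p
  mem : xi p ∈ M
  deg : ¬ p ∣ Module.finrank ℚ M
  wild : ∀ P : Ideal OQ, P.IsMaximal → (p : OQ) ∈ P → ∀ u ∈ P.inertia GQ, cyc p u = 1 →
    u ∈ M.fixingSubgroup

/-- all decomposition groups above `l` lie in `H` -/
def Split (H : Subgroup GQ) (l : ℕ) : Prop :=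
  ∀ P : Ideal OQ, P.IsMaximal → (l : OQ) ∈ P → ∀ g : GQ, g • P = P → g ∈ H

/-- ramification index one when inertia acts trivially -/
def RamStmt : Prop :=
  ∀ (M L : IntermediateField ℚ Qb) [NumberField M] [NumberField L] (h : M ≤ L) (P : Ideal OQ)
    (w : Pr M) (w' : Pr L), P.IsMaximal → w.asIdeal = P.under (𝓞 M) →
    w'.asIdeal = P.under (𝓞 L) →
    (∀ u ∈ P.inertia GQ, u ∈ M.fixingSubgroup → u ∈ L.fixingSubgroup) →
    ∀ x : M, ord w' (IntermediateField.inclusion h x) = ord w x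

/-- an unramified Kummer extension: the valuation is divisible by `p` -/
def LocAStmt : Prop :=
  ∀ (M : IntermediateField ℚ Qb) [NumberField M] (P : Ideal OQ) (w : Pr M), P.IsMaximal →
    w.asIdeal = P.under (𝓞 M) → ∀ (η : Qb) (β : M), β ≠ 0 → η ^ p = β →
    (∀ u ∈ P.inertia GQ, u ∈ M.fixingSubgroup → u η = η) → (p : ℤ) ∣ ord w β

/-- an unramified Kummer extension at a prime above `p` -/
def LocBStmt : Prop :=
  ∀ (M : IntermediateField ℚ Qb) [NumberField M] [IsGalois ℚ M] (hM : MData p M) (P : Ideal OQ)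
    (w : Pr M), P.IsMaximal → (p : OQ) ∈ P → w.asIdeal = P.under (𝓞 M) →
    ord w (1 - (⟨xi p, hM.mem⟩ : M)) = 1 ∧ ∀ (η : Qb) (β : M), β ≠ 0 → η ^ p = β →
      (∀ u ∈ P.inertia GQ, u ∈ M.fixingSubgroup → u η = η) →
        NearAt p (⟨xi p, hM.mem⟩ : M) p w β

/-- reciprocity for a primary element and an element prime to `p` -/
def R3Stmt : Prop :=
  ∀ (K : Type) [Field K] [NumberField K] [IsGalois ℚ K] (ζ : K), 2 < p →
    ¬ p ∣ Module.finrank ℚ K → IsPrimitiveRoot ζ p →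
    (∀ v : Pr K, ¬ Tm p v → ord v (1 - ζ) = 1) → ∀ α β : K, α ≠ 0 → β ≠ 0 →
    (∀ v : Pr K, ¬ Tm p v → (p : ℤ) ∣ ord v α) → (∀ v : Pr K, ¬ Tm p v → NearAt p ζ p v β) →
    Phi p ζ α β = 0

/-- Kummer theory -/
def KumStmt : Prop :=
  ∀ (M : IntermediateField ℚ Qb) [NumberField M], xi p ∈ M → ∀ φ : GQ → ZMod p,
    (∀ g ∈ M.fixingSubgroup, ∀ h ∈ M.fixingSubgroup, φ (g * h) = φ g + φ h) →
    (∀ᶠ g in 𝓝 (1 : GQ), g ∈ M.fixingSubgroup → φ g = 0) →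
    ∃ β : M, β ≠ 0 ∧ ∀ g ∈ M.fixingSubgroup, KK p β g = φ g

/-- tame symbols at a split prime in terms of Kummer characters -/
def LocTStmt : Prop :=
  ∀ (M : IntermediateField ℚ Qb) [NumberField M] [IsGalois ℚ M] (hM : xi p ∈ M) (l : ℕ),
    2 < p → l.Prime → l ≠ p → Split M.fixingSubgroup l → ∀ (P : Ideal OQ) (w : Pr M),
    P.IsMaximal → (l : OQ) ∈ P → w.asIdeal = P.under (𝓞 M) →
    ord w (l : M) = 1 ∧ (∃ τ ∈ P.inertia GQ, KK p l τ = 1) ∧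
    (∀ τ ∈ P.inertia GQ, ∀ y : M, y ≠ 0 → KK p y τ = ord w y * KK p l τ) ∧
    ∀ σ, IsFrob l P σ → ∀ τ ∈ P.inertia GQ, ∀ x y : M, x ≠ 0 → y ≠ 0 →
      KK p l τ * tame p (⟨xi p, hM⟩ : M) w x y = KK p x σ * KK p y τ - KK p x τ * KK p y σ

/-- the reciprocity law in terms of Galois elements -/
def RecStmt : Prop :=
  ∀ (M : IntermediateField ℚ Qb) [NumberField M] [IsGalois ℚ M], MData p M →
    ∀ (ι : Type) [Fintype ι] (t : ι → GQ), (∀ g, ∃! i, (t i)⁻¹ * g ∈ M.fixingSubgroup) →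
    ∀ (J : Type) [Fintype J] (l : J → ℕ) (P : J → Ideal OQ) (σ τ : J → GQ),
    Function.Injective l → (∀ j, (l j).Prime ∧ l j ≠ p ∧ Split M.fixingSubgroup (l j) ∧
      (P j).IsMaximal ∧ (l j : OQ) ∈ P j ∧ IsFrob (l j) (P j) (σ j) ∧ τ j ∈ (P j).inertia GQ ∧
      KK p (l j) (τ j) = 1) →
    ∀ φ : GQ → ZMod p,
    (∀ g ∈ M.fixingSubgroup, ∀ h ∈ M.fixingSubgroup, φ (g * h) = φ g + φ h) →
    (∀ᶠ g in 𝓝 (1 : GQ), g ∈ M.fixingSubgroup → φ g = 0) →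
    (∀ j, ∀ u ∈ (P j).inertia GQ, φ u = KK p (l j) u * φ (τ j)) ∧
    ((∀ Q : Ideal OQ, Q.IsMaximal → (∀ j, (l j : OQ) ∉ Q) → ∀ u ∈ Q.inertia GQ,
      u ∈ M.fixingSubgroup → φ u = 0) →
    ∀ α : OQ, α ≠ 0 → (α : Qb) ∈ M → (∀ Q : Ideal OQ, Q.IsMaximal → α ∈ Q → ∃ j, (l j : OQ) ∈ Q) →
      ∑ j, ∑ i, (KK p ((t i)⁻¹ α) (σ j) * φ (t i * τ j * (t i)⁻¹) -
        KK p ((t i)⁻¹ α) (τ j) * φ (t i * σ j * (t i)⁻¹)) = 0)

/-- trivial primes and decomposition groups -/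
def TrivStmt : Prop :=
  ∀ (F : IntermediateField ℚ Qb) [NumberField F] [IsGalois ℚ F],
    (∀ l, TrivPrime p F l → l ≠ p ∧ Split (HH p F) l) ∧
    (∀ l : ℕ, l.Prime → ¬ (l : ℤ) ∣ discr F → ∀ P : Ideal OQ, P.IsMaximal → (l : OQ) ∈ P →
      P.inertia GQ ≤ F.fixingSubgroup) ∧
    (∀ l : ℕ, l.Prime → l ≠ p → ¬ (l : ℤ) ∣ discr F → ∀ P : Ideal OQ, P.IsMaximal →
      (l : OQ) ∈ P → ∀ σ, IsFrob l P σ → σ ∈ HH p F → TrivPrime p F l) ∧
    ∃ (M : IntermediateField ℚ Qb) (_ : NumberField M) (_ : IsGalois ℚ M),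
      xi p ∈ M ∧ F ≤ M ∧ M.fixingSubgroup = HH p F ∧
        (2 < p → ¬ p ∣ Module.finrank ℚ F → ¬ (p : ℤ) ∣ discr F → MData p M)

/-- equidistribution of Frobenius elements up to scalars -/
def StepStmt : Prop :=
  ∀ (F : IntermediateField ℚ Qb) [NumberField F] [IsGalois ℚ F] (B : Type) [Fintype B]
    [AddCommGroup B] [Module (ZMod p) B] (dat : GQ → B),
    (∀ g ∈ HH p F, ∀ h ∈ HH p F, dat (g * h) = dat g + dat h) →
    (∀ᶠ g in 𝓝 (1 : GQ), g ∈ HH p F → dat g = 0) → (∀ v, ∃ g ∈ HH p F, dat g = v) →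
    ∀ w : B → ℝ, (∀ t : ZMod p, t ≠ 0 → ∀ v, w (t • v) = w v) →
    ∀ f : ℕ → ℝ, (∀ l, 0 ≤ f l) → (∀ l, f l ≤ 1) → ∀ E : Finset ℕ,
    (∀ l ∉ E, TrivPrime p F l → ∀ P : Ideal OQ, P.IsMaximal → (l : OQ) ∈ P →
      ∀ σ, IsFrob l P σ → w (dat σ) ≤ f l) →
    (∑ v, w v) / Fintype.card B ≤ lowerMeanOn (TrivPrime p F) f

end

/-- the units of a totally real Galois field as a Galois module -/
structure UData (F : Type) [Field F] [NumberField F] {A : Type} [Fintype A] [DecidableEq A]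
    (ε : A → (𝓞 F)ˣ) (μ : (F ≃ₐ[ℚ] F) →* Matrix A A ℤ) : Prop where
  act : ∀ δ a, ∃ s : F, s ^ 2 = 1 ∧
    δ ((ε a : 𝓞 F) : F) = s * ∏ b, ((ε b : 𝓞 F) : F) ^ μ δ b a
  one : (μ 1).trace = Module.finrank ℚ F - 1
  tr : ∀ δ, δ ≠ 1 → (μ δ).trace = -1
  ind : ∀ (q : ℕ) (e : A → ℤ) (z : F), q ≠ 0 → ∏ a, ((ε a : 𝓞 F) : F) ^ e a = z ^ q →
    ∀ a, (q : ℤ) ∣ e a

/-- existence of the unit data -/
def UnitStmt : Prop :=
  ∀ (F : Type) [Field F] [NumberField F] [IsGalois ℚ F], IsTotallyReal F →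
    ∃ (A : Type) (_ : Fintype A) (_ : DecidableEq A) (ε : A → (𝓞 F)ˣ)
      (μ : (F ≃ₐ[ℚ] F) →* Matrix A A ℤ), UData F ε μ

/-- the data attached to a trivial prime -/
structure Cfg (F : IntermediateField ℚ Qb) where
  l : ℕ
  P : Ideal OQ
  σ : GQ
  τ : GQ
  α : 𝓞 F

section
variable (p : ℕ) [hp : Fact p.Prime]

/-- validity of the data -/
structure Cfg.Ok {F : IntermediateField ℚ Qb} [NumberField F] (c : Cfg F) : Prop where
  triv : TrivPrime p F c.l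
  max : c.P.IsMaximal
  mem : (c.l : OQ) ∈ c.P
  frob : IsFrob c.l c.P c.σ
  inert : c.τ ∈ c.P.inertia GQ
  gen : KK p c.l c.τ = 1
  span : Ideal.span {c.α} = c.P.under (𝓞 F) ^ classNumber F

open Classical in
/-- existence of the data and values of the Kummer characters on inertia -/
def CfgStmt : Prop :=
  ∀ (F : IntermediateField ℚ Qb) [NumberField F] [IsGalois ℚ F], 2 < p →
    (∀ l, TrivPrime p F l → ∀ P : Ideal OQ, P.IsMaximal → (l : OQ) ∈ P → ∀ σ, IsFrob l P σ →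
      ∃ τ α, Cfg.Ok p (⟨l, P, σ, τ, α⟩ : Cfg F)) ∧
    (∀ c : Cfg F, c.Ok p → c.σ ∈ HH p F ∧ c.P.inertia GQ ≤ HH p F ∧ c.α ≠ 0 ∧
      (∀ Q : Ideal OQ, Q.IsMaximal → algebraMap (𝓞 F) OQ c.α ∈ Q → (c.l : OQ) ∈ Q) ∧
      (∀ δ : F ≃ₐ[ℚ] F, KK p (δ c.α : F) c.τ = if δ = 1 then (classNumber F : ZMod p) else 0) ∧
      (∀ e : (𝓞 F)ˣ, ∀ δ : F ≃ₐ[ℚ] F, KK p (δ (e : 𝓞 F) : F) c.τ = 0) ∧
      ∀ c' : Cfg F, c'.Ok p → c'.l ≠ c.l → ∀ δ : F ≃ₐ[ℚ] F, KK p (δ c'.α : F) c.τ = 0)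

/-- the random data of a Galois element -/
noncomputable def datum {F : IntermediateField ℚ Qb} {A J : Type} (ε : A → (𝓞 F)ˣ)
    (c : J → Cfg F) (g : GQ) : A ⊕ (J × (F ≃ₐ[ℚ] F)) → ZMod p :=
  Sum.elim (fun a => KK p ((ε a : 𝓞 F) : F) g) fun x => KK p (x.2⁻¹ (c x.1).α : F) g

/-- independence of the Kummer characters -/
def DatStmt : Prop :=
  ∀ (F : IntermediateField ℚ Qb) [NumberField F] [IsGalois ℚ F], 2 < p →
    ¬ p ∣ classNumber F → ∀ (A : Type) [Fintype A] [DecidableEq A] (ε : A → (𝓞 F)ˣ)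
    (μ : (F ≃ₐ[ℚ] F) →* Matrix A A ℤ), UData F ε μ → ∀ (J : Type) [Fintype J] (c : J → Cfg F),
    (∀ j, (c j).Ok p) → (Function.Injective fun j => (c j).l) →
    (∀ g ∈ HH p F, ∀ h ∈ HH p F, datum p ε c (g * h) = datum p ε c g + datum p ε c h) ∧
    (∀ᶠ g in 𝓝 (1 : GQ), datum p ε c g = 0) ∧ ∀ v, ∃ g ∈ HH p F, datum p ε c g = v

/-- the operator attached to an element of `F` and a Galois element -/
noncomputable def Tp {F : IntermediateField ℚ Qb} [NumberField F] {k V : Type} [Field k]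
    [Algebra (ZMod p) k] [AddCommGroup V] [Module k V] (Ad : Representation k (F ≃ₐ[ℚ] F) V)
    (α : F) (g : GQ) (X : V) : V :=
  ∑ δ : F ≃ₐ[ℚ] F, algebraMap (ZMod p) k (KK p (δ⁻¹ α : F) g) • Ad δ X

/-- the linear relations between the values of an equivariant additive map -/
def VecStmt : Prop :=
  ∀ (F : IntermediateField ℚ Qb) [NumberField F] [IsGalois ℚ F], 2 < p →
    ¬ p ∣ Module.finrank ℚ F → ¬ p ∣ classNumber F → ¬ (p : ℤ) ∣ discr F →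
    ∀ (k V : Type) [Field k] [Algebra (ZMod p) k] [AddCommGroup V] [Module k V]
    (Ad : Representation k (F ≃ₐ[ℚ] F) V) (f : GQ → V),
    (∀ g ∈ F.fixingSubgroup, ∀ h ∈ F.fixingSubgroup, f (g * h) = f g + f h) →
    (∀ g, ∀ h ∈ F.fixingSubgroup, f (g * h * g⁻¹) = Ad (res F g) (f h)) →
    (∀ᶠ g in 𝓝 (1 : GQ), g ∈ F.fixingSubgroup → f g = 0) →
    ∀ (J : Type) [Fintype J] (c : J → Cfg F), (∀ j, (c j).Ok p) →
    (Function.Injective fun j => (c j).l) →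
    (∀ l : ℕ, l.Prime → (∀ j, (c j).l ≠ l) → (l = p ∨ l ^ Module.finrank ℚ F ≡ 1 [MOD p]) →
      ∀ g ∈ F.fixingSubgroup, InertiaAt l g → f g = 0) →
    (∀ j, (classNumber F : k) • f (c j).σ = ∑ i, Tp p Ad (c j).α (c i).σ (f (c i).τ)) ∧
    (∀ e : (𝓞 F)ˣ, ∑ i, Tp p Ad (e : 𝓞 F) (c i).σ (f (c i).τ) = 0) ∧
    ((∃ h ∈ F.fixingSubgroup, f h ≠ 0) → ∃ j, f (c j).τ ≠ 0)

/-- the leading term of a deformation -/
structure Lead {n : ℕ} (F : IntermediateField ℚ Qb) (r : GQ →* GL (Fin n) (Fbar p)) (S : Set ℕ)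
    (f : GQ → Matrix (Fin n) (Fin n) (Fbar p)) : Prop where
  add : ∀ g ∈ F.fixingSubgroup, ∀ h ∈ F.fixingSubgroup, f (g * h) = f g + f h
  conj : ∀ g, ∀ h ∈ F.fixingSubgroup, f (g * h * g⁻¹) = (r g).val * f h * (r g)⁻¹.val
  nhds : ∀ᶠ g in 𝓝 (1 : GQ), g ∈ F.fixingSubgroup → f g = 0
  ne : ∃ h ∈ F.fixingSubgroup, f h ≠ 0
  unr : ∀ l : ℕ, l.Prime → l ∉ S → (l = p ∨ l ^ Module.finrank ℚ F ≡ 1 [MOD p]) →
    ∀ g ∈ F.fixingSubgroup, InertiaAt l g → f g = 0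
  nil : ∀ l ∈ S, ∀ g ∈ F.fixingSubgroup, InertiaAt l g → f g ^ n = 0
  rel : ∀ l ∈ S, ∃ b : Bool, ∀ P : Ideal OQ, P.IsMaximal → (l : OQ) ∈ P →
    ∀ σ ∈ F.fixingSubgroup, IsFrob l P σ → ∀ u ∈ F.fixingSubgroup, u ∈ P.inertia GQ →
      f σ * f u - f u * f σ = (if b then (cu p l : Fbar p) else 0) • f u

/-- existence of the leading term -/
def LeadStmt : Prop :=
  ∀ (n : ℕ) (F : IntermediateField ℚ Qb) [NumberField F] [IsGalois ℚ F]
    (r : GQ →* GL (Fin n) (Fbar p)) (S : Set ℕ), n < p → (∀ g ∈ F.fixingSubgroup, IsScal (r g)) →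
    (∀ l ∈ S, l.Prime ∧ l ≡ 1 [MOD p]) → ¬ LiftFM p F r S → ∃ f, Lead p F r S f

end

end Pool.Agent.MP_f68ac8_nt.Ev
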