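import Mathlib
import Pool.Agent.MP_f68ac8_nt.EvAux

/-! The reciprocity law in terms of Galois elements. -/

namespace Pool.Agent.MP_f68ac8_nt.Ev

open NumberField
open Pool.Agent.MP_14ad9d_nt.Full (Pr ord Tm tame Phi NearAt)
open scoped Pointwise Topology

lemma smul_max_EvRec (g : GQ) {P : Ideal OQ} (hP : P.IsMaximal) : (g • P).IsMaximal := by
  have h : g • P = P.comap (MulSemiringAction.toRingHom GQ OQ g⁻¹) := by
    ext x
    rw [Ideal.mem_pointwise_smul_iff_inv_smul_mem, Ideal.mem_comap]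
    rfl
  rw [h]
  exact Ideal.comap_isMaximal_of_surjective _ fun x => ⟨g • x, by simp⟩

lemma smul_nat_EvRec (g : GQ) {P : Ideal OQ} {l : ℕ} (h : (l : OQ) ∈ P) : (l : OQ) ∈ g • P := by
  rw [Ideal.mem_pointwise_smul_iff_inv_smul_mem]
  have : g⁻¹ • (l : OQ) = l := map_natCast (MulSemiringAction.toRingHom GQ OQ g⁻¹) l
  rwa [this]

lemma frob_conj_EvRec (g : GQ) {P : Ideal OQ} {l : ℕ} {σ : GQ} (h : IsFrob l P σ) :
    IsFrob l (g • P) (g * σ * g⁻¹) := by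
  intro x
  rw [Ideal.mem_pointwise_smul_iff_inv_smul_mem]
  simpa [smul_sub, mul_smul] using h (g⁻¹ • x)

lemma inert_conj_EvRec (g : GQ) {P : Ideal OQ} {τ : GQ} (h : τ ∈ P.inertia GQ) :
    g * τ * g⁻¹ ∈ (g • P).inertia GQ := by
  intro x
  rw [Submodule.mem_toAddSubgroup, Ideal.mem_pointwise_smul_iff_inv_smul_mem]
  simpa [smul_sub, mul_smul] using h (g⁻¹ • x)

lemma frob_stab_EvRec {P : Ideal OQ} (hP : P.IsMaximal) {l : ℕ} (hl : l.Prime) {σ : GQ}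
    (h : IsFrob l P σ) : σ • P = P := by
  ext x
  rw [Ideal.mem_pointwise_smul_iff_inv_smul_mem]
  refine ⟨fun hx => ?_, fun hx => h.inv_mem hx⟩
  simpa using h.mem hl hx

lemma trans_int_EvRec {P P' : Ideal OQ} (hP : P.IsMaximal) (hP' : P'.IsMaximal) {q : ℕ}
    (hq : q.Prime) (h : (q : OQ) ∈ P) (h' : (q : OQ) ∈ P') : ∃ g : GQ, P' = g • P := by
  letI : TopologicalSpace OQ := ⊥
  haveI : DiscreteTopology OQ := ⟨rfl⟩
  haveI := contSMul (Ω := Qb) (F := ℚ)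
  haveI := invariant_int (Ω := Qb)
  exact Algebra.IsInvariant.exists_smul_of_under_eq_of_profinite
    (A := ℤ) (G := GQ) P P' ((under_int_eq hq h).trans (under_int_eq hq h').symm)

section
variable (M : IntermediateField ℚ Qb)

lemma trans_rel_EvRec {P P' : Ideal OQ} (hP : P.IsMaximal) (hP' : P'.IsMaximal)
    (h : P.under (𝓞 M) = P'.under (𝓞 M)) : ∃ g ∈ M.fixingSubgroup, P' = g • P := by
  letI : TopologicalSpace OQ := ⊥
  haveI : DiscreteTopology OQ := ⟨rfl⟩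
  haveI := contSMul (Ω := Qb) (F := M)
  haveI := invariant_rel (Ω := Qb) (F := M)
  haveI := smulComm_rel (Ω := Qb) (F := M)
  obtain ⟨g, hg⟩ := Algebra.IsInvariant.exists_smul_of_under_eq_of_profinite
    (A := 𝓞 M) (G := Qb ≃ₐ[M] Qb) P P' h
  refine ⟨g.restrictScalars ℚ, ?_, hg⟩
  rw [IntermediateField.mem_fixingSubgroup_iff]
  intro x hx
  exact g.commutes ⟨x, hx⟩

lemma under_smul_EvRec {g : GQ} (hg : g ∈ M.fixingSubgroup) (P : Ideal OQ) :
    (g • P).under (𝓞 M) = P.under (𝓞 M) := by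
  ext x
  rw [Ideal.mem_comap, Ideal.mem_pointwise_smul_iff_inv_smul_mem, Ideal.mem_comap]
  have : g⁻¹ • algebraMap (𝓞 M) OQ x = algebraMap (𝓞 M) OQ x :=
    RingOfIntegers.ext ((IntermediateField.mem_fixingSubgroup_iff _ _).mp (inv_mem hg) _
      (x : M).2)
  rw [this]

lemma nat_under_EvRec {Q : Ideal OQ} {l : ℕ} : (l : 𝓞 M) ∈ Q.under (𝓞 M) ↔ (l : OQ) ∈ Q := by
  rw [Ideal.mem_comap, map_natCast]

lemma pr_EvRec [NumberField M] {Q : Ideal OQ} (hQ : Q.IsMaximal) :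
    ∃ w : Pr M, w.asIdeal = Q.under (𝓞 M) := by
  obtain ⟨q, hq, hqQ⟩ := exists_prime_mem (Ω := Qb) Q
  refine ⟨⟨Q.under (𝓞 M), inferInstance, fun h => ?_⟩, rfl⟩
  have := (nat_under_EvRec M).mpr hqQ
  rw [h, Ideal.mem_bot, Nat.cast_eq_zero] at this
  exact hq.ne_zero this

lemma over_EvRec [NumberField M] (w : Pr M) :
    ∃ Q : Ideal OQ, Q.IsMaximal ∧ w.asIdeal = Q.under (𝓞 M) := by
  haveI := w.isMaximal
  obtain ⟨Q, h1, h2⟩ := Ideal.exists_maximal_ideal_liesOver_of_isIntegral (S := OQ) w.asIdeal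
  exact ⟨Q, h1, h2.over⟩

lemma apply_mem_EvRec [IsGalois ℚ M] (g : GQ) {x : Qb} (hx : x ∈ M) : g x ∈ M := by
  have := AlgEquiv.restrictNormal_commutes g M ⟨x, hx⟩
  change ((g.restrictNormal M ⟨x, hx⟩ : M) : Qb) = g x at this
  rw [← this]
  exact Subtype.property _

lemma conj_mem_EvRec [IsGalois ℚ M] (g : GQ) {h : GQ} (hh : h ∈ M.fixingSubgroup) :
    g * h * g⁻¹ ∈ M.fixingSubgroup := by
  rw [IntermediateField.mem_fixingSubgroup_iff] at hh ⊢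
  intro x hx
  rw [AlgEquiv.mul_apply, AlgEquiv.mul_apply, hh _ (apply_mem_EvRec M g⁻¹ hx),
    ← AlgEquiv.mul_apply, mul_inv_cancel, AlgEquiv.one_apply]

lemma cyc_fix_EvRec {p : ℕ} [Fact p.Prime] (hM : xi p ∈ M) {g : GQ}
    (hg : g ∈ M.fixingSubgroup) : cyc p g = 1 :=
  cyc_of_xi ((IntermediateField.mem_fixingSubgroup_iff _ _).mp hg _ hM)

lemma prim_EvRec {p : ℕ} [Fact p.Prime] (hM : xi p ∈ M) :
    IsPrimitiveRoot (⟨xi p, hM⟩ : M) p :=
  (xi_spec (Ω := Qb) (p := p)).of_map_of_injective (f := algebraMap M Qb)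
    (algebraMap M Qb).injective

end

/-- the local term at the prime below a translate -/
lemma term_EvRec {p : ℕ} [Fact p.Prime] (hK : KKStmt p) (hT : LocTStmt p)
    (M : IntermediateField ℚ Qb) [NumberField M] [IsGalois ℚ M] (hM : xi p ∈ M) (h2 : 2 < p)
    {l : ℕ} (hl : l.Prime) (hlp : l ≠ p) (hs : Split M.fixingSubgroup l) {P : Ideal OQ}
    (hP : P.IsMaximal) (hlP : (l : OQ) ∈ P) {σ τ : GQ} (hσ : IsFrob l P σ)
    (hτ : τ ∈ P.inertia GQ) (hgen : KK p l τ = 1) (g : GQ) (w : Pr M)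
    (hw : w.asIdeal = (g • P).under (𝓞 M)) {x y : M} (hx : x ≠ 0) (hy : y ≠ 0) :
    tame p (⟨xi p, hM⟩ : M) w x y = KK p (g⁻¹ x) σ * KK p y (g * τ * g⁻¹) -
      KK p (g⁻¹ x) τ * KK p y (g * σ * g⁻¹) := by
  obtain ⟨-, -, -, h⟩ := hT M hM l h2 hl hlp hs (g • P) w (smul_max_EvRec g hP)
    (smul_nat_EvRec g hlP) hw
  have e := h _ (frob_conj_EvRec g hσ) _ (inert_conj_EvRec g hτ) x y hx hy
  have hσM : σ ∈ M.fixingSubgroup := hs P hP hlP σ (frob_stab_EvRec hP hl hσ)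
  have hτM : τ ∈ M.fixingSubgroup := hs P hP hlP τ (Ideal.inertia_le_stabilizer P hτ)
  have hx' : (x : Qb) ≠ 0 := fun h => hx (Subtype.ext h)
  have hxM := apply_mem_EvRec M g⁻¹ x.2
  have k := hK.2.2.2.2.1
  have e1 := k (l : Qb) g τ (Nat.cast_ne_zero.mpr hl.ne_zero) (by simp) (cyc_fix_EvRec M hM hτM)
  have e2 := k (x : Qb) g σ hx' ((IntermediateField.mem_fixingSubgroup_iff _ _).mp hσM _ hxM)
    (cyc_fix_EvRec M hM hσM)
  have e3 := k (x : Qb) g τ hx' ((IntermediateField.mem_fixingSubgroup_iff _ _).mp hτM _ hxM)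
    (cyc_fix_EvRec M hM hτM)
  rw [map_natCast, hgen, mul_one] at e1
  rw [e1, e2, e3] at e
  apply mul_left_cancel₀ (cyc p g).ne_zero
  rw [e]
  ring

theorem rec_stmt (p : ℕ) [Fact p.Prime] (hK : KKStmt p) (hA : LocAStmt p) (hB : LocBStmt p)
    (h3 : R3Stmt p) (hKum : KumStmt p) (hT : LocTStmt p) : RecStmt p := by
  classical
  intro M _ _ hM ι _ t ht J _ l P σ τ hl hj φ hφ hφ1
  have hp : p.Prime := Fact.out
  obtain ⟨β, hβ0, hβ⟩ := hKum M hM.mem φ hφ hφ1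
  have hβ0' : (β : Qb) ≠ 0 := fun h => hβ0 (Subtype.ext h)
  have hin : ∀ j, ∀ u ∈ (P j).inertia GQ, u ∈ M.fixingSubgroup := fun j u hu =>
    (hj j).2.2.1 _ (hj j).2.2.2.1 (hj j).2.2.2.2.1 u (Ideal.inertia_le_stabilizer _ hu)
  refine ⟨fun j u hu => ?_, fun hun α hα0 hαM hα => ?_⟩
  · obtain ⟨a1, a2, a3, a4, a5, a6, a7, a8⟩ := hj j
    obtain ⟨w, hw⟩ := pr_EvRec M a4
    obtain ⟨-, -, h, -⟩ := hT M hM.mem (l j) hM.two a1 a2 a3 (P j) w a4 a5 hw
    rw [← hβ u (hin j u hu), ← hβ _ (hin j _ a7), h u hu β hβ0, h _ a7 β hβ0, a8]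
    ring
  -- the element `α` as an integer of `M`
  let a : 𝓞 M := ⟨⟨α, hαM⟩, (isIntegral_algHom_iff (algebraMap M Qb).toIntAlgHom
    (algebraMap M Qb).injective).mp α.isIntegral_coe⟩
  have ha : algebraMap (𝓞 M) OQ a = α := rfl
  have ha0 : a ≠ 0 := fun h => hα0 (by rw [← ha, h, map_zero])
  have ha0' : (a : M) ≠ 0 := by simpa using ha0
  -- behaviour at primes away from the `l j`
  have hord : ∀ (Q : Ideal OQ) (w : Pr M), Q.IsMaximal → w.asIdeal = Q.under (𝓞 M) →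
      (∀ j, (l j : OQ) ∉ Q) → ord w (a : M) = 0 := by
    intro Q w hQ hw hQl
    rw [Pool.Agent.MP_14ad9d_nt.Full.ord_eq_zero_iff w ha0, hw, Ideal.mem_comap, ha]
    intro h
    obtain ⟨j, hj⟩ := hα Q hQ h
    exact hQl j hj
  have hfix : ∀ Q : Ideal OQ, Q.IsMaximal → (∀ j, (l j : OQ) ∉ Q) → ∀ u ∈ Q.inertia GQ,
      u ∈ M.fixingSubgroup → u (proot p (β : Qb)) = proot p (β : Qb) := by
    intro Q hQ hQl u hu huM
    rw [← hK.2.2.2.2.2.1 _ u hβ0' ((IntermediateField.mem_fixingSubgroup_iff _ _).mp huM _ β.2),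
      hβ u huM]
    exact hun Q hQ hQl u hu huM
  have hwild : ∀ v : Pr M, ¬ Tm p v → ∃ Q : Ideal OQ, Q.IsMaximal ∧ (p : OQ) ∈ Q ∧
      v.asIdeal = Q.under (𝓞 M) ∧ ∀ j, (l j : OQ) ∉ Q := by
    intro v hv
    obtain ⟨Q, hQ, hvQ⟩ := over_EvRec M v
    have hpQ : (p : OQ) ∈ Q := by
      rw [← nat_under_EvRec M, ← hvQ]
      exact not_not.mp hv
    exact ⟨Q, hQ, hpQ, hvQ, fun j => not_mem_of_coprime hpQ
      ((Nat.coprime_primes hp (hj j).1).mpr (hj j).2.1.symm)⟩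
  have hPhi : Phi p (⟨xi p, hM.mem⟩ : M) (a : M) β = 0 := by
    refine h3 M _ hM.two hM.deg (prim_EvRec M hM.mem) (fun v hv => ?_) _ _ ha0' hβ0
      (fun v hv => ?_) fun v hv => ?_
    · obtain ⟨Q, hQ, hpQ, hvQ, -⟩ := hwild v hv
      exact (hB M hM Q v hQ hpQ hvQ).1
    · obtain ⟨Q, hQ, -, hvQ, hQl⟩ := hwild v hv
      rw [hord Q v hQ hvQ hQl]
      exact dvd_zero _
    · obtain ⟨Q, hQ, hpQ, hvQ, hQl⟩ := hwild v hv
      exact (hB M hM Q v hQ hpQ hvQ).2 _ β hβ0 (proot_pow p _) (hfix Q hQ hQl)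
  -- the primes above the `l j`
  have hW : ∀ x : J × ι, ∃ w : {v : Pr M // Tm p v},
      w.1.asIdeal = (t x.2 • P x.1).under (𝓞 M) := by
    rintro ⟨j, i⟩
    obtain ⟨a1, a2, a3, a4, a5, -⟩ := hj j
    haveI := smul_max_EvRec (t i) a4
    obtain ⟨w, hw⟩ := pr_EvRec M this
    refine ⟨⟨w, ?_⟩, hw⟩
    unfold Tm
    rw [hw, nat_under_EvRec M]
    exact not_mem_of_coprime (smul_nat_EvRec (t i) a5) ((Nat.coprime_primes a1 hp).mpr a2)
  choose W hW using hW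
  have hinj : Function.Injective W := by
    rintro ⟨j, i⟩ ⟨j', i'⟩ h
    have e : (t i • P j).under (𝓞 M) = (t i' • P j').under (𝓞 M) := by
      rw [← hW (j, i), ← hW (j', i'), h]
    obtain ⟨a1, a2, a3, a4, a5, -⟩ := hj j
    obtain ⟨b1, b2, b3, b4, b5, -⟩ := hj j'
    haveI := smul_max_EvRec (t i) a4
    have hjj : j = j' := by
      by_contra hne
      have h1 : (l j' : OQ) ∈ t i • P j := by
        rw [← nat_under_EvRec M, e, nat_under_EvRec M]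
        exact smul_nat_EvRec _ b5
      exact not_mem_of_coprime (smul_nat_EvRec (t i) a5)
        ((Nat.coprime_primes a1 b1).mpr (hl.ne hne)) h1
    subst hjj
    obtain ⟨g, hg, e2⟩ := trans_rel_EvRec M this (smul_max_EvRec (t i') a4) e
    have h1 : (t i')⁻¹ * g * t i ∈ M.fixingSubgroup := by
      refine a3 _ a4 a5 _ ?_
      rw [mul_smul, mul_smul, ← e2, inv_smul_smul]
    have h2 : (t i')⁻¹ * t i ∈ M.fixingSubgroup := by
      have h3 := mul_mem h1 (conj_mem_EvRec M (t i)⁻¹ (inv_mem hg))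
      convert h3 using 1
      group
    have h4 : (t i)⁻¹ * t i ∈ M.fixingSubgroup := by
      rw [inv_mul_cancel]
      exact one_mem _
    rw [(ht (t i)).unique h4 h2]
  have hsupp : Function.support (fun v : {v : Pr M // Tm p v} =>
      tame p (⟨xi p, hM.mem⟩ : M) v.1 (a : M) β) ⊆ (Finset.univ.image W : Finset _) := by
    intro v hv
    obtain ⟨Q, hQ, hvQ⟩ := over_EvRec M v.1
    by_cases hQl : ∀ j, (l j : OQ) ∉ Q
    · refine (hv ?_).elim
      refine Pool.Agent.MP_14ad9d_nt.Full.tame_unr hM.two (prim_EvRec M hM.mem) v.2 ha0' hβ0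
        ?_ (hA M Q v.1 hQ hvQ _ β hβ0 (proot_pow p _) (hfix Q hQ hQl))
      rw [hord Q v.1 hQ hvQ hQl]
      exact dvd_zero _
    · push Not at hQl
      obtain ⟨j, hjQ⟩ := hQl
      obtain ⟨a1, a2, a3, a4, a5, -⟩ := hj j
      obtain ⟨g, rfl⟩ := trans_int_EvRec a4 hQ a1 a5 hjQ
      obtain ⟨i, hi, -⟩ := ht g
      rw [Finset.coe_image]
      refine ⟨(j, i), by simp, Subtype.ext (IsDedekindDomain.HeightOneSpectrum.ext ?_)⟩
      rw [hW, hvQ, ← under_smul_EvRec M (conj_mem_EvRec M (t i) hi), ← mul_smul]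
      congr 2
      group
  rw [Phi, finsum_eq_sum_of_support_subset _ hsupp, Finset.sum_image fun x _ y _ h => hinj h,
    Fintype.sum_prod_type] at hPhi
  rw [← hPhi]
  refine Finset.sum_congr rfl fun j _ => Finset.sum_congr rfl fun i _ => ?_
  obtain ⟨a1, a2, a3, a4, a5, a6, a7, a8⟩ := hj j
  rw [term_EvRec hK hT M hM.mem hM.two a1 a2 a3 a4 a5 a6 a7 a8 (t i) _ (hW (j, i)) ha0' hβ0,
    hβ _ (conj_mem_EvRec M _ (hin j _ a7)),
    hβ _ (conj_mem_EvRec M _ (a3 _ a4 a5 _ (frob_stab_EvRec a4 a1 a6)))]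
  rfl

end Pool.Agent.MP_f68ac8_nt.Ev
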