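import Mathlib
import Pool.Agent.MP_f68ac8_nt.LdAux
import Pool.Agent.MP_f68ac8_nt.QvRed
import Pool.Agent.MP_f68ac8_nt.EvRec

/-! From a leading term to a Selmer class. -/

namespace Pool.Agent.MP_f68ac8_nt.Sv

open Ev Pv
open NumberField Matrix
open scoped Pointwise Topology MatrixGroups

section
variable {p : ℕ} [hp : Fact p.Prime] {n : ℕ}

lemma self_LdRed (A : GL (Fin 2) (ZMod p)) (X : Mt n (ZMod p)) :
    adS A X = symP n A.val * X * symP n A⁻¹.val := by
  simp [adS, sy]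

lemma map_LdRed {k : Type} [Field k] [Algebra (ZMod p) k] (lam : k →ₗ[ZMod p] ZMod p)
    (A : GL (Fin 2) (ZMod p)) (X : Mt n k) : (adS A X).map lam = adS A (X.map lam) := by
  rw [self_LdRed, adS, sy, sy, right_OvRed, left_OvRed]

end

theorem proj_stmt (p : ℕ) [Fact p.Prime] (h1 : Sym1Stmt) : ProjStmt p := by
  intro K F r η γ n S k _ _ z hz
  obtain ⟨h₀, hh₀, hne⟩ := hz.ne
  obtain ⟨lam, hlam⟩ : ∃ lam : k →ₗ[ZMod p] ZMod p, (z h₀).map lam ≠ 0 := by
    by_contra h
    push Not at h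
    exact hne (sep_OvRed (p := p) fun lam => by rw [h, Matrix.map_zero _ (map_zero lam)])
  have h0 : ∀ {g}, z g = 0 → (z g).map lam = 0 := fun h => by
    rw [h, Matrix.map_zero _ (map_zero lam)]
  have hD : Dm k n = (Dm (ZMod p) n).map (algebraMap (ZMod p) k) :=
    ((h1 (ZMod p) n).2.2.2.1 k (algebraMap (ZMod p) k)).2.symm
  refine ⟨fun g => (z g).map lam, fun g hg h hh => ?_, fun g hg h hh => ?_, ?_, fun h hh => ?_,
    fun P g a b c => h0 (hz.unr P g a b c), fun h hh => ?_, ⟨h₀, hh₀, hlam⟩,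
    fun g a b => h0 (hz.pv g a b), fun P a b A hA g hg e => ?_, fun c a b e => h0 (hz.st c a b e)⟩
  · rw [hz.add g hg h hh, Matrix.map_add _ (map_add lam)]
  · rw [hz.conj g hg h hh, map_LdRed]
  · filter_upwards [hz.nhds] with g h hg using h0 (h hg)
  · rw [trace_OvRed, hz.tr h hh, map_zero]
  · rw [← right_OvRed, ← hD, hz.gam h hh, hD, left_OvRed, transpose_map]
  · obtain ⟨h2, h3⟩ := hz.ord P a b A hA g hg e
    rw [← map_LdRed]
    exact ⟨fun i j hij => by rw [map_apply, h2 hij, map_zero],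
      fun hi a => by rw [map_apply, h3 hi a, map_zero]⟩

theorem red_stmt (p : ℕ) [Fact p.Prime] (h1 : Sym1Stmt) (hF : FiltStmt p) (hB : BaseStmt p)
    (hM : MbStmt p) : RedStmt p := by
  classical
  intro K F _ _ r η γ n hKF hR J c hc z hz
  have hFb := (hB K F r η γ n hKF hR).1
  obtain ⟨hn, hnp⟩ := hR.big
  obtain ⟨W, π, htop, hstep, hzero, hW⟩ := hF n (by omega) (by omega)
  have hex : ∃ i, ∀ h ∈ F.fixingSubgroup, z h ∈ W i := ⟨n - 1, fun h _ => htop ▸ trivial⟩
  obtain ⟨i, hi, hin, hmin⟩ : ∃ i, (∀ h ∈ F.fixingSubgroup, z h ∈ W i) ∧ i < n ∧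
      ∀ j < i, ¬ ∀ h ∈ F.fixingSubgroup, z h ∈ W j :=
    ⟨Nat.find hex, Nat.find_spec hex,
      (Nat.find_min' hex (m := n - 1) fun h _ => htop ▸ trivial).trans_lt (by omega),
      fun j hj => Nat.find_min hex hj⟩
  have hi0 : 0 < i := by
    refine Nat.pos_of_ne_zero ?_
    rintro rfl
    obtain ⟨h, hh, hne⟩ := hz.ne
    obtain ⟨a, ha⟩ := hzero _ (hi h hh)
    have h2 := hz.tr h hh
    rw [ha, trace_smul, trace_one, Fintype.card_fin, smul_eq_mul, mul_eq_zero,
      ZMod.natCast_eq_zero_iff] at h2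
    refine hne ?_
    rw [ha, h2.resolve_right fun e => absurd (Nat.le_of_dvd (by omega) e) (by omega), zero_smul]
  obtain ⟨h₀, hh₀, hne⟩ : ∃ h ∈ F.fixingSubgroup, π i (z h) ≠ 0 := by
    obtain ⟨j, rfl⟩ : ∃ j, i = j + 1 := ⟨i - 1, by omega⟩
    by_contra h
    push Not at h
    exact hmin j (by omega) fun g hg => hstep j hin _ (hi g hg) (h g hg)
  have c1 : ∀ g : K.fixingSubgroup, η g = 1 → ∀ h ∈ F.fixingSubgroup,
      π i (z (g * h * g.1⁻¹)) =
        (rep r g).val.det⁻¹ ^ i • symP (2 * i + 1) (rep r g).val *ᵥ π i (z h) := by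
    intro g hg h hh
    rw [hz.conj g hg h hh, self_LdRed]
    exact ((hW i hin _ (hi h hh)).1 _).2
  have c2 : ∀ h ∈ F.fixingSubgroup,
      π i (z (γ * h * γ.1⁻¹)) = (-1 : ZMod p) ^ i • π i (z h) := fun h hh =>
    (hW i hin _ (hi h hh)).2.1 _ (hz.gam h hh)
  have hT : Tg (PM F r η i) F fun g => if g ∈ F.fixingSubgroup then π i (z g) else 0 := by
    refine ⟨fun g hg h hh => ?_, fun g h hh => ?_, ?_⟩
    · simp only [if_pos hg, if_pos hh, if_pos (mul_mem hg hh)]
      rw [hz.add g hg h hh, map_add]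
      rfl
    · simp only [if_pos hh, if_pos (hFb.nrm g h hh)]
      change π i _ = vR r η i g *ᵥ π i _
      rw [vR, smul_mulVec]
      by_cases hg : η g = 1
      · rw [c1 g hg h hh, hg]
        simp [sg]
      · have e1 : η g = η γ := (hR.gam.2 g).resolve_left hg
        have e2 : η g = -1 := (Int.units_eq_one_or _).resolve_left hg
        have e3 : η (γ⁻¹ * g) = 1 := by rw [map_mul, map_inv, e1, inv_mul_cancel]
        have e4 : rep r (γ⁻¹ * g) = rep r g := by
          rw [rep, rep, map_mul, map_inv, hR.gam.1, inv_one, one_mul]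
        have e5 : g.1 * h * g.1⁻¹ = γ * ((γ⁻¹ * g).1 * h * (γ⁻¹ * g).1⁻¹) * γ.1⁻¹ := by
          simp only [Subgroup.coe_mul, Subgroup.coe_inv]
          group
        rw [e5, c2 _ (hFb.nrm _ h hh), c1 _ e3 h hh, e4, e2, smul_smul, mul_pow]
        simp [sg]
    · filter_upwards [hz.nhds] with g h hg
      rw [if_pos hg, h hg, map_zero]
      rfl
  have hA : AdmP F r i fun g => if g ∈ F.fixingSubgroup then π i (z g) else 0 := by
    refine ⟨fun g a b => ?_, fun P a b A hA g hg e j hj => ?_⟩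
    · simp only [if_pos b]
      rw [hz.pv g a b, map_zero]
    · obtain ⟨h2, h3⟩ := hz.ord P a b A hA g hg e
      obtain ⟨h4, h5⟩ := (hW i hin _ (hi g hg)).1 A⁻¹
      rw [← self_LdRed] at h4 h5
      obtain ⟨h6, h7⟩ := (hW i hin _ h4).2.2 h2
      have h8 : π i (adS A⁻¹ (z g)) j = 0 := hj.elim (h6 j) fun h => h7 (h3 h.2) j h.1
      rw [h5, Pi.smul_apply, smul_eq_mul, mul_eq_zero] at h8
      simp only [if_pos hg]
      exact h8.resolve_left (pow_ne_zero _ (inv_ne_zero A⁻¹.det_ne_zero))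
  refine ⟨i, hi0, hin, ?_, _, fun e => hne ?_, hT, hA, fun P g hg hp hP => ?_, fun j => ?_,
    fun g hg => if_neg hg⟩
  · refine (Int.units_eq_one_or (η γ)).symm.imp_right fun e => ?_
    have e1 : rep r γ = rep r 1 := by rw [rep, rep, hR.gam.1, map_one]
    have e2 := hz.conj 1 (map_one η) h₀ hh₀
    have e3 := c2 h₀ hh₀
    rw [hz.conj γ e h₀ hh₀, e1, ← e2] at e3
    simp only [OneMemClass.coe_one, one_mul, inv_one, mul_one] at e3
    have : Fact (2 < p) := ⟨hFb.two⟩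
    rw [← neg_one_pow_eq_one_iff_even (R := ZMod p) ZMod.neg_one_ne_one]
    exact (smul_left_injective (ZMod p) hne ((one_smul _ _).trans e3)).symm
  · have := congrFun e h₀
    simp only [if_pos hh₀] at this
    exact this
  · by_cases hw : WildAt p K F P
    · exact (hM K F r η γ n hKF hR i hi0 hin).bad P ⟨hg.1, hp, hw⟩ _ hT hA g hg.2.2
        (Ideal.inertia_le_stabilizer P hg.2.1)
    · simp only [if_pos hg.2.2]
      rw [hz.unr P g hg hw ?_, map_zero]
      · rfl
      · rintro ⟨j, hj⟩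
        obtain ⟨s, hs, h5⟩ := trans_rel_EvRec K (hc j).1.max hg.1 hj
        exact hP j s hs h5
  · simp only [hz.st (c j) (hc j).1 (hc j).2 ⟨j, rfl⟩, map_zero]
    exact ite_self _

end Pool.Agent.MP_f68ac8_nt.Sv
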