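import Mathlib
import Pool.Agent.MP_f68ac8_nt.BvAux
import Pool.Agent.MP_f68ac8_nt.LdOne
import Pool.Agent.MP_f68ac8_nt.LdRed

/-! Comparison of a lift with the constant lift, and reduction to the prime field. -/

namespace Pool.Agent.MP_f68ac8_nt.Sv

open Ev Pv
open NumberField Matrix IsLocalRing
open scoped Pointwise Topology MatrixGroups

section alg
variable {n : ℕ} {O k G : Type} [CommRing O] [Field k] {π : O →+* k}

lemma comb_BvOne (τ : O) (A B : Mt n O) :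
    (1 + τ • A) * (1 + τ • B) = 1 + τ • (A + B + τ • (A * B)) := by
  simp only [mul_add, add_mul, one_mul, mul_one, smul_mul_assoc, mul_smul_comm, smul_add]
  abel

lemma unit_BvOne [IsLocalRing O] (hR : Rs π) {x : O} (hx : π x ≠ 0) : IsUnit x := by
  by_contra h
  exact hx ((hR.ker x).2 h)

lemma unitM_BvOne [IsLocalRing O] (hR : Rs π) {A : Mt n O} {B : Mt n k}
    (h : B * π.mapMatrix A = 1) : IsUnit A := by
  refine (isUnit_iff_isUnit_det A).2 (unit_BvOne hR ?_)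
  have e := congrArg det h
  rw [det_mul, det_one, ← RingHom.map_det] at e
  exact right_ne_zero_of_mul_eq_one e

lemma div_BvOne [IsDomain O] [IsDiscreteValuationRing O] (hR : Rs π) {ϖ : O}
    (hϖ : Irreducible ϖ) {A : Mt n O} (h : π.mapMatrix A = 0) : ∃ Y : Mt n O, A = ϖ • Y := by
  have h1 : ∀ i j, ∃ y, y * ϖ = A i j := fun i j => by
    rw [← Ideal.mem_span_singleton', ← hϖ.maximalIdeal_eq, ← hR.ker]
    exact congrFun (congrFun h i) j
  choose Y hY using h1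
  refine ⟨Matrix.of Y, ?_⟩
  ext i j
  rw [← hY, mul_comm]
  rfl

/-- comparison of level `τ` -/
def Cmp_BvOne (π : O →+* k) (ρ M : G → GL (Fin n) O) (τ : O) (E : GL (Fin n) O) (s : G → O)
    (Z : G → Mt n O) : Prop :=
  π.mapMatrix E.val = 1 ∧ ∀ g, (E * ρ g * E⁻¹).val = s g • ((1 + τ • Z g) * (M g).val)

lemma norm_BvOne [IsLocalRing O] (hR : Rs π) (hn : IsUnit (n : O)) {ρ M : G → GL (Fin n) O}
    {τ : O} (hτ : π τ = 0) {E : GL (Fin n) O} {s : G → O} {Z : G → Mt n O}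
    (h : Cmp_BvOne π ρ M τ E s Z) :
    ∃ s' Z', Cmp_BvOne π ρ M τ E s' Z' ∧ ∀ g, (Z' g).trace = 0 := by
  obtain ⟨m, hm⟩ := hn.exists_right_inv
  have h1 : ∀ g, ∃ w, (1 + τ * (m * (Z g).trace)) * w = 1 := fun g =>
    (unit_BvOne hR (by simp [hτ])).exists_right_inv
  choose w hw using h1
  refine ⟨fun g => s g * (1 + τ * (m * (Z g).trace)),
    fun g => w g • (Z g - (m * (Z g).trace) • 1), ⟨h.1, fun g => ?_⟩, fun g => ?_⟩
  · rw [h.2 g, mul_smul, ← smul_mul_assoc (1 + τ * (m * (Z g).trace)), smul_add, smul_comm _ τ,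
      smul_smul _ (w g), hw, one_smul]
    congr 2
    module
  · rw [trace_smul, trace_sub, trace_smul, trace_one, Fintype.card_fin, smul_eq_mul, smul_eq_mul,
      mul_right_comm, mul_comm m, hm, one_mul, sub_self, mul_zero]

lemma step_BvOne [IsDomain O] [IsDiscreteValuationRing O] (hR : Rs π) {ϖ : O}
    (hϖ : Irreducible ϖ) {ρ M : G → GL (Fin n) O} {τ : O} (hτ : π τ = 0) {E : GL (Fin n) O}
    {s : G → O} {Z : G → Mt n O} (h : Cmp_BvOne π ρ M τ E s Z) {W : Mt n k}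
    (hW : ∀ g, π.mapMatrix (Z g) = W - π.mapMatrix (M g).val * W * π.mapMatrix (M g)⁻¹.val) :
    ∃ E' Z', Cmp_BvOne π ρ M (τ * ϖ) E' s Z' := by
  obtain ⟨W, rfl⟩ : ∃ W' : Mt n O, π.mapMatrix W' = W := by
    choose σ hσ using hR.surj
    exact ⟨W.map σ, by ext i j; exact hσ _⟩
  have h1 : π.mapMatrix (1 + τ • (-W)) = 1 := by rw [map_add, map_one, sm_LdOne, hτ]; simp
  obtain ⟨U, hU⟩ := unitM_BvOne hR ((one_mul _).trans h1)
  have h2 : π.mapMatrix U⁻¹.val = 1 := by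
    have e := congrArg π.mapMatrix U.mul_inv
    rwa [map_mul, hU, h1, one_mul, map_one] at e
  have h3 : U⁻¹.val = 1 + τ • (W * U⁻¹.val) := by
    have e := U.mul_inv
    rw [hU, add_mul, one_mul, smul_mul_assoc, neg_mul, smul_neg] at e
    rw [← e]
    abel
  have h4 : ∀ g, (M g).val * U⁻¹.val =
      (1 + τ • ((M g).val * (W * U⁻¹.val) * (M g)⁻¹.val)) * (M g).val := fun g => by
    rw [add_mul, one_mul, smul_mul_assoc, Units.inv_mul_cancel_right]
    conv_lhs => rw [h3]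
    rw [mul_add, mul_one, mul_smul_comm]
  have h5 : ∀ g, ∃ Y : Mt n O, U.val * ((1 + τ • Z g) * (M g).val) * U⁻¹.val =
      (1 + (τ * ϖ) • Y) * (M g).val := fun g => by
    rw [mul_assoc, mul_assoc, h4 g, hU, ← mul_assoc, ← mul_assoc, comb_BvOne, comb_BvOne]
    obtain ⟨Y, hY⟩ := div_BvOne hR hϖ (A := -W + Z g + τ • (-W * Z g) +
      (M g).val * (W * U⁻¹.val) * (M g)⁻¹.val + τ • ((-W + Z g + τ • (-W * Z g)) *
        ((M g).val * (W * U⁻¹.val) * (M g)⁻¹.val))) (by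
      simp only [map_add, sm_LdOne, hτ, zero_smul, add_zero, map_mul, h2, mul_one, hW, map_neg]
      abel)
    exact ⟨Y, by rw [hY, smul_smul]⟩
  choose Y hY using h5
  refine ⟨U * E, Y, by rw [Units.val_mul, map_mul, hU, h1, h.1, one_mul], fun g => ?_⟩
  rw [← hY, ← smul_mul_assoc, ← mul_smul_comm, ← h.2 g, _root_.mul_inv_rev]
  simp only [Units.val_mul, mul_assoc]

lemma main_BvOne [IsDomain O] [IsDiscreteValuationRing O] (hR : Rs π) (hn0 : 0 < n)
    (hn : IsUnit (n : O)) (ρ M : G → GL (Fin n) O) {x : O} (hx0 : x ≠ 0) (hx : π x = 0)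
    (h : ∀ g, ∃ c, π.mapMatrix (ρ g).val = π c • π.mapMatrix (M g).val) :
    ∃ τ u E s Z, τ ≠ 0 ∧ π τ = 0 ∧ x = u * τ ∧ Cmp_BvOne π ρ M τ E s Z ∧
      (∀ g, (Z g).trace = 0) ∧ (π u ≠ 0 ∨ ¬ ∃ W : Mt n k, ∀ g, π.mapMatrix (Z g) =
        W - π.mapMatrix (M g).val * W * π.mapMatrix (M g)⁻¹.val) := by
  obtain ⟨ϖ, hϖ⟩ := IsDiscreteValuationRing.exists_irreducible O
  have hϖ0 : π ϖ = 0 := (hR.ker ϖ).2 hϖ.not_isUnit
  obtain ⟨e, u, hu⟩ := IsDiscreteValuationRing.eq_unit_mul_pow_irreducible hx0 hϖ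
  have hu0 : π u ≠ 0 := (u.isUnit.map π).ne_zero
  obtain ⟨d, rfl⟩ : ∃ d, e = d + 1 := Nat.exists_eq_succ_of_ne_zero (by
    rintro rfl
    rw [hu, pow_zero, mul_one] at hx
    exact hu0 hx)
  have h1 : ∀ g, ∃ (c : O) (Y : Mt n O), (ρ g).val = c • ((1 + ϖ • Y) * (M g).val) := by
    intro g
    obtain ⟨c, hc⟩ := h g
    obtain ⟨c', hc'⟩ := (unit_BvOne hR (x := c) fun e =>
      ne_LdOne hn0 (ρ g) (by rw [hc, e, zero_smul])).exists_right_inv
    obtain ⟨Y, hY⟩ := div_BvOne hR hϖ (A := (ρ g).val * (M g)⁻¹.val - c • 1) (by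
      rw [map_sub, map_mul, hc, smul_mul_assoc, ← map_mul, Units.mul_inv, sm_LdOne, sub_self])
    refine ⟨c, c' • Y, ?_⟩
    rw [← smul_mul_assoc, smul_add, smul_comm c ϖ, smul_smul c, hc', one_smul, ← hY,
      add_sub_cancel, Units.inv_mul_cancel_right]
  choose s Z hZ using h1
  have h2 : Cmp_BvOne π ρ M ϖ 1 s Z := ⟨map_one _, fun g => by simpa using hZ g⟩
  have h3 : x = u * ϖ ^ d * ϖ := by rw [hu, pow_succ, mul_assoc]
  have h4 := hϖ.ne_zero
  have h5 := hϖ0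
  clear hZ hu
  generalize (1 : GL (Fin n) O) = E at h2
  revert h2 h4 h5 h3
  generalize hτ : ϖ = τ
  rw [show τ ^ d = ϖ ^ d by rw [hτ]]
  clear hτ
  induction d generalizing τ E s Z with
  | zero =>
    intro h3 h4 h5 h2
    obtain ⟨s', Z', a1, a2⟩ := norm_BvOne hR hn h5 h2
    exact ⟨τ, u, E, s', Z', h4, h5, by simpa using h3, a1, a2, Or.inl hu0⟩
  | succ d ih =>
    intro h3 h4 h5 h2
    obtain ⟨s', Z', a1, a2⟩ := norm_BvOne hR hn h5 h2
    by_cases hW : ∃ W : Mt n k, ∀ g, π.mapMatrix (Z' g) =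
        W - π.mapMatrix (M g).val * W * π.mapMatrix (M g)⁻¹.val
    · obtain ⟨W, hW⟩ := hW
      obtain ⟨E', Z'', a3⟩ := step_BvOne hR hϖ h5 a1 hW
      exact ih _ _ _ _ (by rw [h3]; ring) (mul_ne_zero h4 hϖ.ne_zero)
        (by rw [map_mul, h5, zero_mul]) a3
    · exact ⟨τ, _, E, s', Z', h4, h5, h3, a1, a2, Or.inr hW⟩

end alg

theorem oneB_stmt (p : ℕ) [Fact p.Prime] (h1 : Sym1Stmt) (hB : BaseStmt p) : OneBStmt p := by
  intro K F _ _ r n hKF hR w S O _ _ _ _ _ ρ hL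
  have _ := hB
  have hp : p.Prime := Fact.out
  obtain ⟨k, _, _, _, π, hπ⟩ : ∃ (k : Type) (_ : Field k) (_ : CharP k p)
      (_ : Algebra (ZMod p) k) (π : O →+* k), Rs π := by
    have hp0 : (p : ResidueField O) = 0 := by
      rw [← map_natCast (residue O), residue_eq_zero_iff]
      exact hL.res
    have : CharP (ResidueField O) p := (CharP.charP_iff_prime_eq_zero hp).mpr hp0
    exact ⟨ResidueField O, inferInstance, this, ZMod.algebra _ p, residue O, residue_surjective,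
      fun x => residue_eq_zero_iff x⟩
  obtain ⟨hn2, hnp⟩ := hR.big
  have hn0 : 0 < n := by omega
  have hu : IsUnit (n : O) := unit_BvOne hπ fun e => by
    rw [map_natCast, CharP.cast_eq_zero_iff k p] at e
    exact absurd (Nat.le_of_dvd hn0 e) (by omega)
  obtain ⟨z1, z2, -⟩ := h1 (ZMod p) n
  have y1 (A : GL (Fin 2) (ZMod p)) : sy k n A⁻¹.val * sy k n A.val = 1 := by
    rw [sy, sy, ← Matrix.map_mul, ← z2, Units.inv_mul, z1,
      Matrix.map_one _ (map_zero _) (map_one _)]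
  have y2 (g : K.fixingSubgroup) : π.mapMatrix (M0 r n O g) = sy k n (rep r g).val := by
    ext a b
    rw [RingHom.mapMatrix_apply, map_apply, M0, map_apply, map_natCast, sy, map_apply]
    conv_rhs => rw [← ZMod.natCast_zmod_val (symP n (rep r g).val a b), map_natCast]
  have y3 (g : K.fixingSubgroup) : IsUnit (M0 r n O g) :=
    unitM_BvOne hπ (B := sy k n (rep r g)⁻¹.val) (by rw [y2, y1])
  choose M hM using y3
  have y4 (g : K.fixingSubgroup) (X : Mt n k) :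
      π.mapMatrix (M g).val * X * π.mapMatrix (M g)⁻¹.val = adS (rep r g) X :=
    (red_LdOne hn0 (y1 _) (c := 1) (by rw [hM, y2, one_smul])).2 X
  obtain ⟨τ, u, E, s, Z, a1, a2, a3, a4, a5, a6⟩ := main_BvOne hπ hn0 hu ρ M
    (Nat.cast_ne_zero.2 hp.ne_zero) (by rw [map_natCast, CharP.cast_eq_zero]) fun g => by
      obtain ⟨c, hc⟩ := hL.lift g
      refine ⟨c, ?_⟩
      ext a b
      have e := (hπ.ker _).2 (hc a b)
      rw [map_sub, map_mul, sub_eq_zero] at e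
      rw [hM]
      exact e
  simp only [y4] at a6
  refine ⟨k, _, _, π, ⟨ρ, E, τ, u, s, Z⟩, rfl, hπ, a1, a2, a3, fun g => ?_, a4.1, fun g => ?_, a6⟩
  · rw [← hM]
    exact a4.2 g
  · exact (AddMonoidHom.map_trace π (Z g)).symm.trans (by rw [a5, map_zero])

theorem projB_stmt (p : ℕ) [Fact p.Prime] (h1 : Sym1Stmt) : ProjBStmt p := by
  intro K F r n _ w cc S k _ _ z u hz
  have _ := h1
  obtain ⟨h₀, hh₀, hne⟩ := hz.ne
  obtain ⟨lam, hlam⟩ : ∃ lam : k →ₗ[ZMod p] ZMod p, (z h₀).map lam ≠ 0 := by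
    by_contra h
    push Not at h
    exact hne (sep_OvRed (p := p) fun lam => by rw [h, Matrix.map_zero _ (map_zero lam)])
  have h0 : ∀ {g}, z g = 0 → (z g).map lam = 0 := fun h => by
    rw [h, Matrix.map_zero _ (map_zero lam)]
  have hD : Hd k n = (Hd (ZMod p) n).map (algebraMap (ZMod p) k) := by
    rw [Hd, Hd, diagonal_map (map_zero _)]
    simp [map_div₀, map_ofNat]
  have hm (x : ZMod p) : lam (u * algebraMap (ZMod p) k x) =
      lam u * algebraMap (ZMod p) (ZMod p) x := by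
    rw [mul_comm, lam_mul_OvRed, mul_comm]
    rfl
  refine ⟨fun g => (z g).map lam, lam u, ⟨fun g hg h hh => ?_, fun g h hh => ?_, ?_,
    fun h hh => ?_, fun P g a b c => h0 (hz.unr P g a b c)⟩, ⟨h₀, hh₀, hlam⟩,
    fun g hg => ?_, fun P a b A hA g hg e => ?_, fun c a b h A hA => ?_⟩
  · rw [hz.add g hg h hh, Matrix.map_add _ (map_add lam)]
  · rw [hz.conj g h hh, map_LdRed]
  · filter_upwards [hz.nhds] with g h hg using h0 (h hg)
  · rw [trace_OvRed, hz.tr h hh, map_zero]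
  · rw [hz.pv g hg, smul_OvRed]
    rfl
  · obtain ⟨h2, h3⟩ := hz.ord P a b A hA g hg e
    rw [← map_LdRed]
    exact ⟨fun i j hij => by rw [map_apply, h2 hij, map_zero],
      fun hi a b => by rw [map_apply, map_apply, ← map_sub, h3 hi a b, hm]⟩
  · rw [← map_LdRed, hz.st c a b h A hA, hD, smul_OvRed, hm]

end Pool.Agent.MP_f68ac8_nt.Sv
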