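import Mathlib
import Pool.Agent.MP_f68ac8_nt.BvAux
import Pool.Agent.MP_f68ac8_nt.LdRed
import Pool.Agent.MP_f68ac8_nt.LcMb

/-! From a leading term to a Selmer class with an extra parameter. -/

namespace Pool.Agent.MP_f68ac8_nt.Sv

open Ev Pv
open NumberField Matrix
open scoped Pointwise Topology MatrixGroups

section
variable {p : ℕ} [hp : Fact p.Prime] {n : ℕ}

lemma om_BvPack (hn : (n : ZMod p) ≠ 0) (W : Submodule (ZMod p) (Mt n (ZMod p)))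
    (φ : Mt n (ZMod p) →ₗ[ZMod p] ZMod p)
    (h : ∀ Z ∈ W, Z.BlockTriangular id → (∀ a, Z a a = 0) → φ Z = 0) (v : Fin n → ZMod p) :
    ∃ ω, ∀ Z ∈ W, Z.BlockTriangular id → Z.trace = 0 → ∀ t : ZMod p,
      (∀ a b, Z a a - Z b b = t * (v a - v b)) → φ Z = t * ω := by
  have h0 : ∀ Z ∈ W, Z.BlockTriangular id → Z.trace = 0 → (∀ a b, Z a a = Z b b) → φ Z = 0 := by
    intro Z hZ h1 h2 h3
    refine h Z hZ h1 fun a => ?_
    have h4 : Z.trace = n * Z a a := by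
      have : Z.trace = ∑ _b : Fin n, Z a a := Finset.sum_congr rfl fun b _ => h3 b a
      simpa using this
    exact (mul_eq_zero.1 (h4.symm.trans h2)).resolve_left hn
  by_cases hex : ∃ Z ∈ W, Z.BlockTriangular id ∧ Z.trace = 0 ∧ ∀ a b, Z a a - Z b b = v a - v b
  · obtain ⟨Z₀, a1, a2, a3, a4⟩ := hex
    refine ⟨φ Z₀, fun Z hZ h1 h2 t h3 => ?_⟩
    have h4 := h0 (Z - t • Z₀) (W.sub_mem hZ (W.smul_mem t a1))
      (fun i j hij => by rw [Matrix.sub_apply, Matrix.smul_apply, h1 hij, a2 hij]; simp)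
      (by rw [trace_sub, trace_smul, h2, a3]; simp)
      (fun a b => by
        simp only [Matrix.sub_apply, Matrix.smul_apply, smul_eq_mul]
        linear_combination h3 a b - t * a4 a b)
    rwa [map_sub, map_smul, smul_eq_mul, sub_eq_zero] at h4
  · refine ⟨0, fun Z hZ h1 h2 t h3 => ?_⟩
    rw [mul_zero]
    by_cases ht : t = 0
    · exact h0 Z hZ h1 h2 fun a b => by rw [← sub_eq_zero, h3, ht, zero_mul]
    · refine absurd ⟨t⁻¹ • Z, W.smul_mem _ hZ, fun i j hij => ?_, ?_, fun a b => ?_⟩ hex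
      · rw [Matrix.smul_apply, h1 hij, smul_zero]
      · rw [trace_smul, h2, smul_zero]
      · rw [Matrix.smul_apply, Matrix.smul_apply, smul_eq_mul, smul_eq_mul, ← mul_sub, h3,
          inv_mul_cancel_left₀ ht]

/-- the middle index -/
def md_BvPack (i : ℕ) : Fin (2 * i + 1) := ⟨i, by omega⟩

/-- the change of basis -/
noncomputable def tM_BvPack (i : ℕ) (A : GL (Fin 2) (ZMod p)) : Mt (2 * i + 1) (ZMod p) :=
  A⁻¹.val.det⁻¹ ^ i • symP (2 * i + 1) A⁻¹.val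

lemma dt_BvPack (i : ℕ) (A : GL (Fin 2) (ZMod p)) : A⁻¹.val.det⁻¹ ^ i ≠ 0 :=
  pow_ne_zero _ (inv_ne_zero A⁻¹.det_ne_zero)

variable {K : IntermediateField ℚ Qb} (F : IntermediateField ℚ Qb)
  (r : K.fixingSubgroup →* PGL(2, ZMod p)) (i : ℕ) (κ : K.fixingSubgroup → Vc p (2 * i + 1))
  (ω : Ideal OQ → ZMod p) (lam : ZMod p)

/-- the local conditions on pairs -/
def AdU_BvPack (f : GQ → Vc p (2 * i + 1)) (u : ZMod p) : Prop :=
  (∀ g : K.fixingSubgroup, g.1 ^ p ∈ F.fixingSubgroup → f (g.1 ^ p) = u • κ g) ∧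
  ∀ P : Ideal OQ, P.IsMaximal → (p : OQ) ∈ P → ∀ A, Tri r P A → ∀ g ∈ F.fixingSubgroup,
    g • P = P → (∀ j : Fin (2 * i + 1), i < j → (tM_BvPack i A *ᵥ f g) j = 0) ∧
      (g ∈ P.inertia GQ → (tM_BvPack i A *ᵥ f g) (md_BvPack i) = u * (psi p g * ω P))

/-- the chosen basis -/
noncomputable def bs_BvPack (G : Subgroup GQ) : GL (Fin 2) (ZMod p) :=
  Classical.epsilon fun A => ∀ g : K.fixingSubgroup, g.1 ∈ G → Dg_LcMb r 1 A g

/-- the local conditions with an extra parameter -/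
noncomputable def U_BvPack : Mu (PM F r 1 i) :=
  ⟨fun f u => AdU_BvPack F r i κ ω f u ∧ ((∀ g ∈ F.fixingSubgroup, lam * psi p g = 0) →
      AdU_BvPack F r i κ ω 0 1 → u = 0), fun g => lam * psi p g,
    fun G => tM_BvPack i (bs_BvPack r G) (md_BvPack i)⟩

variable {F r i κ ω lam}

lemma lin_BvPack (a : ZMod p) {f f' : GQ → Vc p (2 * i + 1)} {u u' : ZMod p}
    (h : AdU_BvPack F r i κ ω f u) (h' : AdU_BvPack F r i κ ω f' u') :
    AdU_BvPack F r i κ ω (a • f + f') (a * u + u') := by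
  refine ⟨fun g hg => ?_, fun P a1 a2 A a3 g a4 a5 => ?_⟩
  · rw [Pi.add_apply, Pi.smul_apply, h.1 g hg, h'.1 g hg, add_smul, mul_smul]
  · obtain ⟨b1, b2⟩ := h.2 P a1 a2 A a3 g a4 a5
    obtain ⟨c1, c2⟩ := h'.2 P a1 a2 A a3 g a4 a5
    rw [Pi.add_apply, Pi.smul_apply, mulVec_add, mulVec_smul]
    refine ⟨fun j hj => ?_, fun hg => ?_⟩
    · rw [Pi.add_apply, Pi.smul_apply, b1 j hj, c1 j hj, smul_zero, add_zero]
    · rw [Pi.add_apply, Pi.smul_apply, b2 hg, c2 hg, smul_eq_mul]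
      ring

lemma zero_BvPack : AdU_BvPack F r i κ ω 0 0 :=
  ⟨fun g _ => by simp, fun P _ _ A _ g _ _ => ⟨fun j _ => by simp, fun _ => by simp⟩⟩

lemma nt_BvPack (hM : Mb (PM F r 1 i) F) (hi : 0 < i) : ∃ g, (PM F r 1 i).R g ≠ 1 := by
  by_contra h
  push Not at h
  let W : Submodule (ZMod p) (Vc p (2 * i + 1)) := LinearMap.ker (LinearMap.proj 0)
  have hne : md_BvPack i ≠ 0 := fun e => hi.ne' (congrArg Fin.val e)
  rcases hM.irr W (fun g v hv => by rwa [h g, one_mulVec]) with e | e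
  · have h1 : (Pi.single (md_BvPack i) 1 : Vc p (2 * i + 1)) ∈ W := by
      simp [W, hne.symm]
    have e' : W = ⊥ := e
    rw [e', Submodule.mem_bot] at h1
    simpa using congrFun h1 (md_BvPack i)
  · have e' : W = ⊤ := e
    have h1 : (Pi.single 0 1 : Vc p (2 * i + 1)) ∈ W := e' ▸ Submodule.mem_top
    simp [W] at h1

lemma mub_BvPack (hM : Mb (PM F r 1 i) F) (hi : 0 < i) : Mub (U_BvPack F r i κ ω lam) F := by
  refine ⟨hM, nt_BvPack hM hi, ⟨zero_BvPack, fun _ _ => rfl⟩, ?_, ?_, fun g _ h _ => ?_, ?_,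
    fun g h _ => ?_, ?_, ?_⟩
  · rintro a f u f' u' ⟨a1, a2⟩ ⟨b1, b2⟩
    exact ⟨lin_BvPack a a1 b1, fun c1 c2 => by rw [a2 c1 c2, b2 c1 c2, mul_zero, add_zero]⟩
  · rintro f ⟨⟨a1, a2⟩, -⟩
    refine ⟨fun g hg hg' => (a1 ⟨g, hg⟩ hg').trans (zero_smul _ _),
      fun P b1 b2 A b3 g b4 b5 j hj => ?_⟩
    obtain ⟨c1, c2⟩ := a2 P b1 b2 A b3 g b4 b5
    obtain ⟨v, hv⟩ : ∃ v : Vc p (2 * i + 1), v = f g := ⟨_, rfl⟩
    rw [← hv] at c1 c2 ⊢
    have h1 : (tM_BvPack i A *ᵥ v) j = 0 := by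
      rcases hj with hj | ⟨hj, hg⟩
      · exact c1 j hj
      · rw [show j = md_BvPack i from Fin.ext hj.symm, c2 hg, zero_mul]
    rw [tM_BvPack, smul_mulVec, Pi.smul_apply, smul_eq_mul, mul_eq_zero] at h1
    exact h1.resolve_left (dt_BvPack i A)
  · change lam * psi p (g * h) = lam * psi p g + lam * psi p h
    rw [psi_add g h, mul_add]
  · filter_upwards [psi_nhds (Ω := Qb) (p := p)] with g hg _
    change lam * psi p g = 0
    rw [hg, mul_zero]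
  · change lam * psi p (g.1 * h * g.1⁻¹) = lam * psi p h
    rw [psi_add, psi_add, psi_add.inv]
    ring
  · rintro u ⟨a1, a2⟩ hu
    by_contra h
    push Not at h
    refine hu (a2 h ?_)
    have a1' : AdU_BvPack F r i κ ω (0 : GQ → Vc p (2 * i + 1)) u := a1
    have := lin_BvPack u⁻¹ a1' zero_BvPack
    rwa [smul_zero, add_zero, add_zero, inv_mul_cancel₀ hu] at this
  · rintro P ⟨-, -, g, g1, g2⟩ h
    exact g2 ⟨1, hp.out.not_dvd_one, by simpa using h g1⟩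

lemma bs_spec_BvPack [NumberField K] [NumberField F] (hB : BaseStmt p) (hKF : K ≤ F)
    (hR : PolRes F r 1 1 n) {t : K.fixingSubgroup} (ht : PolTyp r 1 n t) (g : K.fixingSubgroup)
    (hg : g.1 ∈ Subgroup.zpowers t.1 ⊔ F.fixingSubgroup) :
    Dg_LcMb r 1 (bs_BvPack r (Subgroup.zpowers t.1 ⊔ F.fixingSubgroup)) g := by
  refine Classical.epsilon_spec (p := fun A => ∀ g : K.fixingSubgroup,
    g.1 ∈ Subgroup.zpowers t.1 ⊔ F.fixingSubgroup → Dg_LcMb r 1 A g) ?_ g hg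
  obtain ⟨t1, ⟨A, t2⟩, -⟩ := ht
  obtain ⟨-, hker, -, hmul, hone, -⟩ := hB K F r 1 1 n hKF hR
  obtain ⟨S, hS, hS1⟩ := grp_LcMb (η := 1) A (fun g h => by
    obtain ⟨c, -, hc⟩ := hmul A g h
    exact cast_LcMb hc (det_LcMb A _)) (hone A)
  refine ⟨A, fun g hg => (hS g).1 ?_⟩
  exact (sub_LcMb hKF S ((hS t).2 ⟨t1, t2⟩) (fun g hg =>
    hS1 g ((hker g).1 hg).1 ((hker g).1 hg).2.1 ((hker g).1 hg).2.2) hg).2

lemma neY_BvPack (h1 : Sym1Stmt) (A : GL (Fin 2) (ZMod p)) :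
    tM_BvPack i A (md_BvPack i) ≠ 0 := by
  intro h
  have e1 : tM_BvPack i A * symP (2 * i + 1) A.val = A⁻¹.val.det⁻¹ ^ i • 1 := by
    rw [tM_BvPack, Matrix.smul_mul, (inv_LcMb h1 (2 * i + 1) A).2]
  have e2 := congrFun (congrFun e1 (md_BvPack i)) (md_BvPack i)
  rw [Matrix.mul_apply, h, Matrix.smul_apply, one_apply_eq, smul_eq_mul, mul_one] at e2
  exact dt_BvPack i A (by simpa using e2.symm)

lemma fix_BvPack [NumberField K] [NumberField F] (h1 : Sym1Stmt) (hB : BaseStmt p) (hKF : K ≤ F)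
    (hR : PolRes F r 1 1 n) {A : GL (Fin 2) (ZMod p)} {g : K.fixingSubgroup}
    (hg : Dg_LcMb r 1 A g) :
    tM_BvPack i A (md_BvPack i) ᵥ* vR r 1 i g = tM_BvPack i A (md_BvPack i) := by
  obtain ⟨e, e1, e2⟩ := diag_LcMb h1 i hg
  rw [← ((hB K F r 1 1 n hKF hR).2.2.2.2.2 i).2] at e1
  have e3 : tM_BvPack i A * vR r 1 i g = diagonal e * tM_BvPack i A := by
    rw [tM_BvPack, Matrix.smul_mul, Matrix.mul_smul, ← e1, Matrix.mul_assoc, Matrix.mul_assoc,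
      (inv_LcMb h1 (2 * i + 1) A).1, Matrix.mul_one]
  have el : e (md_BvPack i) = 1 := mul_right_cancel₀ (pow_ne_zero i (cbne_LcMb (p := p) g.1))
    ((e2 (md_BvPack i)).trans (one_mul _).symm)
  funext j
  have e4 := congrFun (congrFun e3 (md_BvPack i)) j
  rw [diagonal_mul, el, one_mul] at e4
  exact e4

lemma ram_BvPack [NumberField K] [NumberField F] (h1 : Sym1Stmt) (hB : BaseStmt p) (hKF : K ≤ F)
    (hR : PolRes F r 1 1 n) (hi : 0 < i) (hin : i < n) {t : K.fixingSubgroup}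
    (ht : PolTyp r 1 n t) : ∃ X, ∀ σ, Ty p F t σ →
      RamData (PM F r 1 i) F σ X ((U_BvPack F r i κ ω lam).Ys F σ) := by
  obtain ⟨-, h2, h3⟩ := typP_stmt p h1 hB K F r 1 1 n hKF hR t ht
  obtain ⟨X, Y, hXY⟩ := h3 i hi hin
  refine ⟨X, fun σ hσ => ⟨(hXY σ hσ).neX, neY_BvPack h1 _,
    fun g hg => ⟨((hXY σ hσ).fix g hg).1, ?_⟩, (hXY σ hσ).eig⟩⟩
  obtain ⟨h, hs⟩ := h2 σ hσ
  exact fix_BvPack h1 hB hKF hR (bs_spec_BvPack hB hKF hR hs g hg)

end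

theorem packB_stmt (p : ℕ) [Fact p.Prime] (h1 : Sym1Stmt) (hF : FiltStmt p) (hB : BaseStmt p)
    (hM : MbStmt p) : PackBStmt p := by
  classical
  intro K F _ _ r n hKF hR w cc
  have hFb := (hB K F r 1 1 n hKF hR).1
  obtain ⟨hn, hnp⟩ := hR.big
  have hn0 : (n : ZMod p) ≠ 0 := fun e =>
    absurd (Nat.le_of_dvd (by omega) ((ZMod.natCast_eq_zero_iff _ _).1 e)) (by omega)
  obtain ⟨W, π, htop, hstep, hzero, hW⟩ := hF n (by omega) (by omega)
  have hω : ∀ i (P : Ideal OQ), ∃ ω : ZMod p, i < n → ∀ Z ∈ W i, Z.BlockTriangular id →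
      Z.trace = 0 → ∀ t : ZMod p, (∀ a b, Z a a - Z b b = t * (w P a - w P b)) →
      π i Z (md_BvPack i) = t * ω := by
    intro i P
    by_cases hin : i < n
    · obtain ⟨ω, h⟩ := om_BvPack hn0 (W i) ((LinearMap.proj (md_BvPack i)).comp (π i))
        (fun Z a b c => ((hW i hin Z a).2.2 b).2 c _ rfl) (w P)
      exact ⟨ω, fun _ => h⟩
    · exact ⟨0, fun h => absurd h hin⟩
  choose ω hω using hω
  refine ⟨fun i => U_BvPack F r i (fun g => π i (cc g)) (ω i) (π i (Hd (ZMod p) n) (md_BvPack i)),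
    fun i hi hin => ⟨mub_BvPack (hM K F r 1 1 n hKF hR i hi hin) hi,
      fun t ht => ram_BvPack h1 hB hKF hR hi hin ht⟩, fun J c hc z u hz => ?_⟩
  have hex : ∃ i, ∀ h ∈ F.fixingSubgroup, z h ∈ W i := ⟨n - 1, fun h _ => htop ▸ trivial⟩
  obtain ⟨i, hi, hin, hmin⟩ : ∃ i, (∀ h ∈ F.fixingSubgroup, z h ∈ W i) ∧ i < n ∧
      ∀ j < i, ¬ ∀ h ∈ F.fixingSubgroup, z h ∈ W j :=
    ⟨Nat.find hex, Nat.find_spec hex,
      (Nat.find_min' hex (m := n - 1) fun h _ => htop ▸ trivial).trans_lt (by omega),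
      fun j hj => Nat.find_min hex hj⟩
  have hi0 : 0 < i := by
    refine Nat.pos_of_ne_zero ?_
    rintro rfl
    obtain ⟨h, hh, hne⟩ := hz.ne
    obtain ⟨a, ha⟩ := hzero _ (hi h hh)
    have h2 := hz.tr h hh
    rw [ha, trace_smul, trace_one, Fintype.card_fin, smul_eq_mul, mul_eq_zero] at h2
    exact hne (by rw [ha, h2.resolve_right hn0, zero_smul])
  obtain ⟨h₀, hh₀, hne⟩ : ∃ h ∈ F.fixingSubgroup, π i (z h) ≠ 0 := by
    obtain ⟨j, rfl⟩ : ∃ j, i = j + 1 := ⟨i - 1, by omega⟩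
    by_contra h
    push Not at h
    exact hmin j (by omega) fun g hg => hstep j hin _ (hi g hg) (h g hg)
  obtain ⟨f, hf, hf0⟩ : ∃ f : GQ → Vc p (2 * i + 1), (∀ g ∈ F.fixingSubgroup, f g = π i (z g)) ∧
      ∀ g ∉ F.fixingSubgroup, f g = 0 :=
    ⟨fun g => if g ∈ F.fixingSubgroup then π i (z g) else 0, fun g hg => if_pos hg,
      fun g hg => if_neg hg⟩
  have hT : Tg (PM F r 1 i) F f := by
    refine ⟨fun g hg h hh => ?_, fun g h hh => ?_, ?_⟩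
    · change f (g * h) = f g + f h
      rw [hf g hg, hf h hh, hf _ (mul_mem hg hh), hz.add g hg h hh, map_add]
    · change f _ = vR r 1 i g *ᵥ f h
      rw [hf h hh, hf _ (hFb.nrm g h hh), hz.conj g h hh, self_LdRed,
        ((hW i hin _ (hi h hh)).1 _).2, vR, smul_mulVec]
      simp [sg]
    · filter_upwards [hz.nhds] with g h hg
      change f g = 0
      rw [hf g hg, h hg, map_zero]
  have hc1 : ∀ A : GL (Fin 2) (ZMod p), ∀ g ∈ F.fixingSubgroup, adS A⁻¹ (z g) ∈ W i ∧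
      tM_BvPack i A *ᵥ f g = π i (adS A⁻¹ (z g)) := fun A g hg => by
    rw [self_LdRed, hf g hg, tM_BvPack, smul_mulVec]
    exact ⟨((hW i hin _ (hi g hg)).1 A⁻¹).1, ((hW i hin _ (hi g hg)).1 A⁻¹).2.symm⟩
  have hA : AdU_BvPack F r i (fun g => π i (cc g)) (ω i) f u := by
    refine ⟨fun g hg => ?_, fun P a b A hA g hg e => ?_⟩
    · rw [hf _ hg, hz.pv g hg, map_smul]
      simp
    · obtain ⟨h2, h3⟩ := hz.ord P a b A hA g hg e
      obtain ⟨h4, h5⟩ := hc1 A g hg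
      rw [h5]
      refine ⟨((hW i hin _ h4).2.2 h2).1, fun hg' => ?_⟩
      rw [← mul_assoc]
      refine hω i P hin _ h4 h2 ?_ _ fun a b => ?_
      · rw [self_LdRed, trace_mul_cycle, (inv_LcMb h1 n A⁻¹).2, Matrix.one_mul, hz.tr g hg]
      · rw [h3 hg', mul_assoc]
        simp
  have hσ : ∀ j, (c j).σ ^ (c j).m ∈ F.fixingSubgroup := fun j => ((hc j).1.per _).2 dvd_rfl
  have hst : ∀ j, tM_BvPack i (bs_BvPack r (Subgroup.zpowers (c j).σ ⊔ F.fixingSubgroup))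
      (md_BvPack i) ⬝ᵥ f ((c j).σ ^ (c j).m) =
      u * (π i (Hd (ZMod p) n) (md_BvPack i) * psi p ((c j).σ ^ (c j).m)) := fun j => by
    obtain ⟨hok, h, ht⟩ := hc j
    obtain ⟨-, d1, d2, d3⟩ := bs_spec_BvPack hB hKF hR ht _
      (Subgroup.mem_sup_left (Subgroup.mem_zpowers _))
    have e1 := hz.st (c j) hok ⟨j, rfl⟩ h _ ⟨d1, d2, d3, ht.2.2⟩
    have e2 := congrFun (hc1 (bs_BvPack r (Subgroup.zpowers (c j).σ ⊔ F.fixingSubgroup)) _
      (hσ j)).2 (md_BvPack i)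
    rw [e1, map_smul, Pi.smul_apply, smul_eq_mul] at e2
    refine e2.trans ?_
    simp only [Algebra.algebraMap_self, RingHom.id_apply]
    ring
  have hunr : ∀ P g, Iner F P g → (p : OQ) ∉ P → P ∉ (PM F r 1 i).Bd →
      (∀ j, ∀ s ∈ K.fixingSubgroup, P ≠ s • (c j).P) → f g = 0 := by
    intro P g hg hp hb hP
    rw [hf g hg.2.2, hz.unr P g hg (fun hw => hb ⟨hg.1, hp, hw⟩) ?_, map_zero]
    rintro ⟨j, hj⟩
    obtain ⟨s, hs, h5⟩ := trans_rel_EvRec K (hc j).1.max hg.1 hj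
    exact hP j s hs h5
  have hne' : ∀ v : ZMod p, (f, v) ≠ 0 := fun v e =>
    hne ((hf h₀ hh₀).symm.trans (congrFun (congrArg Prod.fst e) h₀))
  refine ⟨i, hi0, hin, ?_⟩
  by_cases hC : (∀ g ∈ F.fixingSubgroup, π i (Hd (ZMod p) n) (md_BvPack i) * psi p g = 0) ∧
      AdU_BvPack F r i (fun g => π i (cc g)) (ω i) 0 1
  · have h2 := lin_BvPack (-u) hC.2 hA
    rw [smul_zero, zero_add, mul_one, neg_add_cancel] at h2
    refine ⟨(f, 0), hne' 0, hT, ⟨h2, fun _ _ => rfl⟩, hunr, fun j => (hst j).trans ?_, hf0⟩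
    rw [hC.1 _ (hσ j), mul_zero, zero_mul]
  · exact ⟨(f, u), hne' u, hT, ⟨hA, fun a b => absurd ⟨a, b⟩ hC⟩, hunr, hst, hf0⟩

end Pool.Agent.MP_f68ac8_nt.Sv
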