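import Mathlib
import Pool.Agent.MP_f68ac8_nt.SyAux

/-! Eigenvalues of a matrix normalising a regular unipotent matrix. -/

namespace Pool.Agent.MP_f68ac8_nt.Sv
open Ev Pv
open Matrix Finset

section
variable {L : Type} [Field L] {n : ℕ}

/-- the shift matrix -/
def sh_SySt (L : Type) [Field L] (n : ℕ) : Mt n L :=
  Matrix.of fun r s => if (r : ℕ) = s + 1 then 1 else 0

theorem mul_sh_SySt (T : Mt n L) (r s : Fin n) :
    (T * sh_SySt L n) r s = if h : (s : ℕ) + 1 < n then T r ⟨s + 1, h⟩ else 0 := by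
  rw [mul_apply]
  split_ifs with h
  · rw [sum_eq_single ⟨s + 1, h⟩]
    · simp [sh_SySt]
    · intro t _ ht
      have : (t : ℕ) ≠ s + 1 := fun e => ht (Fin.ext e)
      simp [sh_SySt, this]
    · intro h'
      exact absurd (mem_univ _) h'
  · refine sum_eq_zero fun t _ => ?_
    have : (t : ℕ) ≠ s + 1 := fun e => h (e ▸ t.2)
    simp [sh_SySt, this]

theorem pow_sh_SySt (q : ℕ) (r s : Fin n) :
    ((r : ℕ) < s → ((1 + sh_SySt L n) ^ q) r s = 0) ∧
    ((r : ℕ) = s → ((1 + sh_SySt L n) ^ q) r s = 1) ∧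
    ((r : ℕ) = s + 1 → ((1 + sh_SySt L n) ^ q) r s = q) := by
  induction q generalizing s with
  | zero =>
    simp only [pow_zero, one_apply, Fin.ext_iff, Nat.cast_zero]
    refine ⟨fun h => if_neg (by omega), fun h => if_pos h, fun h => if_neg (by omega)⟩
  | succ q ih =>
    rw [pow_succ, mul_add, mul_one, Matrix.add_apply, mul_sh_SySt]
    refine ⟨fun h => ?_, fun h => ?_, fun h => ?_⟩
    · rw [(ih s).1 h]
      split_ifs with h'
      · rw [(ih ⟨s + 1, h'⟩).1 (by simp only; omega), add_zero]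
      · rw [add_zero]
    · rw [(ih s).2.1 h]
      split_ifs with h'
      · rw [(ih ⟨s + 1, h'⟩).1 (by simp only; omega), add_zero]
      · rw [add_zero]
    · have h' : (s : ℕ) + 1 < n := h ▸ r.2
      rw [(ih s).2.2 h, dif_pos h', (ih ⟨s + 1, h'⟩).2.1 h]
      push_cast
      rfl

theorem tri_SySt (hn : 0 < n) (q : ℕ) (B : Mt n L)
    (h : B * (1 + sh_SySt L n) = (1 + sh_SySt L n) ^ q * B) (s : ℕ) (hs : s < n) :
    (∀ r : Fin n, (r : ℕ) < s → B r ⟨s, hs⟩ = 0) ∧
      B ⟨s, hs⟩ ⟨s, hs⟩ = B ⟨0, hn⟩ ⟨0, hn⟩ * (q : L) ^ s := by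
  induction s with
  | zero => exact ⟨fun r hr => absurd hr (Nat.not_lt_zero _), by rw [pow_zero, mul_one]⟩
  | succ s ih =>
    have hs' : s < n := by omega
    obtain ⟨i1, i2⟩ := ih hs'
    have e : ∀ r : Fin n, B r ⟨s, hs'⟩ + B r ⟨s + 1, hs⟩ =
        ∑ t, ((1 + sh_SySt L n) ^ q) r t * B t ⟨s, hs'⟩ := by
      intro r
      have := congrFun (congrFun h r) ⟨s, hs'⟩
      rw [mul_add, mul_one, Matrix.add_apply, mul_sh_SySt, dif_pos hs, mul_apply] at this
      exact this
    constructor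
    · intro r hr
      have e1 := e r
      rw [sum_eq_single r, (pow_sh_SySt q r r).2.1 rfl, one_mul] at e1
      · exact add_eq_left.1 e1
      · intro t _ ht
        rcases lt_or_gt_of_ne (Fin.val_ne_of_ne ht) with h1 | h1
        · rw [i1 t (by omega), mul_zero]
        · rw [(pow_sh_SySt q r t).1 h1, zero_mul]
      · intro h'
        exact absurd (mem_univ _) h'
    · have e1 := e ⟨s + 1, hs⟩
      have hne : (⟨s + 1, hs⟩ : Fin n) ≠ ⟨s, hs'⟩ := by simp
      rw [sum_eq_add_of_mem _ _ (mem_univ _) (mem_univ _) hne, (pow_sh_SySt q _ _).2.1 rfl,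
        (pow_sh_SySt q _ _).2.2 rfl, one_mul, i2] at e1
      · rw [add_left_cancel e1]
        ring
      · intro t _ ht
        have h1 : (t : ℕ) ≠ s + 1 := fun e => ht.1 (Fin.ext e)
        have h2 : (t : ℕ) ≠ s := fun e => ht.2 (Fin.ext e)
        rcases lt_or_gt_of_ne h2 with h3 | h3
        · rw [i1 t h3, mul_zero]
        · rw [(pow_sh_SySt q _ t).1 (by simp only; omega), zero_mul]

theorem diag_pow_SySt {B : Mt n L} (hB : B.IsLowerTriangular) (k : ℕ) (a : Fin n) :
    (B ^ k) a a = B a a ^ k := by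
  induction k with
  | zero => simp
  | succ k ih =>
    have hk : (B ^ k).IsLowerTriangular := BlockTriangular.pow hB k
    rw [pow_succ, pow_succ, mul_apply, sum_eq_single a, ih]
    · intro t _ ht
      rcases lt_or_gt_of_ne ht with h | h
      · rw [hB (OrderDual.toDual_lt_toDual.2 h), mul_zero]
      · rw [hk (OrderDual.toDual_lt_toDual.2 h), zero_mul]
    · intro h'
      exact absurd (mem_univ _) h'

theorem basis_SySt (N : Mt n L) (h1 : N ^ n = 0) (h2 : N ^ (n - 1) ≠ 0) :
    ∃ P : GL (Fin n) L, N * P.val = P.val * sh_SySt L n := by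
  obtain ⟨v, hv⟩ : ∃ v, N ^ (n - 1) *ᵥ v ≠ 0 := by
    by_contra hc
    push Not at hc
    exact h2 (ext_iff_mulVec.2 fun v => by rw [hc, zero_mulVec])
  set P : Mt n L := Matrix.of fun i s => (N ^ (s : ℕ) *ᵥ v) i with hP
  have hx : ∀ x : Fin n → L, P *ᵥ x = ∑ s, x s • (N ^ (s : ℕ) *ᵥ v) := by
    intro x
    funext i
    simp only [hP, mulVec, dotProduct, of_apply, Finset.sum_apply, Pi.smul_apply, smul_eq_mul]
    exact sum_congr rfl fun s _ => mul_comm _ _
  have hU : IsUnit P := by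
    refine mulVec_injective_iff_isUnit.1 ?_
    rw [← coe_mulVecLin, ← LinearMap.ker_eq_bot]
    refine ker_mulVecLin_eq_bot_iff.2 fun x hx0 => ?_
    have key : ∀ s : ℕ, ∀ hs : s < n, x ⟨s, hs⟩ = 0 := by
      intro s
      induction s using Nat.strong_induction_on with
      | _ s ih =>
        intro hs
        have e := congrArg (fun w => N ^ (n - 1 - s) *ᵥ w) hx0
        simp only [hx, mulVec_sum, mulVec_smul, mulVec_mulVec, ← pow_add, mulVec_zero] at e
        rw [sum_eq_single ⟨s, hs⟩] at e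
        · simp only at e
          rw [show n - 1 - s + s = n - 1 by omega] at e
          exact (smul_eq_zero.1 e).resolve_right hv
        · intro t _ ht
          have h3 : (t : ℕ) ≠ s := fun e => ht (Fin.ext e)
          rcases lt_or_gt_of_ne h3 with h4 | h4
          · rw [show x t = 0 from ih t h4 t.2, zero_smul]
          · rw [pow_eq_zero_of_le (by omega) h1, zero_mulVec, smul_zero]
        · intro h'
          exact absurd (mem_univ _) h'
    funext s
    exact key s s.2
  refine ⟨hU.unit, ?_⟩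
  rw [hU.unit_spec]
  ext i s
  have e : (N * P) i s = (N ^ ((s : ℕ) + 1) *ᵥ v) i := by
    rw [pow_succ', ← mulVec_mulVec]
    rfl
  rw [e, mul_sh_SySt]
  split_ifs with h
  · rfl
  · rw [pow_eq_zero_of_le (by omega) h1, zero_mulVec]
    rfl

end

theorem st1_stmt : St1Stmt := by
  intro L _ n q A N hn hA h1 h2
  obtain ⟨P, hP⟩ := basis_SySt N h1 h2
  have hJ : P⁻¹.val * (1 + N) * P.val = 1 + sh_SySt L n := by
    rw [mul_assoc, add_mul, one_mul, hP, mul_add, Units.inv_mul, ← mul_assoc, Units.inv_mul,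
      one_mul]
  set B := P⁻¹.val * A * P.val with hB
  have hc : ∀ X Y : Mt n L, P⁻¹.val * X * P.val * (P⁻¹.val * Y * P.val) =
      P⁻¹.val * (X * Y) * P.val := by
    intro X Y
    simp only [mul_assoc, Units.mul_inv_cancel_left]
  have hBJ : B * (1 + sh_SySt L n) = (1 + sh_SySt L n) ^ q * B := by
    rw [← hJ, Units.conj_pow', hB, hc, hc, hA]
  have ht := tri_SySt hn q B hBJ
  have hl : B.IsLowerTriangular := fun i j hij =>
    (ht j j.2).1 i (OrderDual.toDual_lt_toDual.1 hij)
  have hd : ∀ a : Fin n, B a a = B ⟨0, hn⟩ ⟨0, hn⟩ * (q : L) ^ (a : ℕ) := fun a => (ht a a.2).2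
  refine ⟨B ⟨0, hn⟩ ⟨0, hn⟩, fun k => ?_, ?_⟩
  · rw [← trace_units_conj' P, ← Units.conj_pow', ← hB, trace, mul_sum,
      ← Fin.sum_univ_eq_sum_range (fun s => B ⟨0, hn⟩ ⟨0, hn⟩ ^ k * ((q : L) ^ s) ^ k)]
    refine sum_congr rfl fun a _ => ?_
    rw [diag_apply, diag_pow_SySt hl, hd, mul_pow]
  · rw [← det_units_conj' P, ← hB, det_of_isLowerTriangular B hl, prod_congr rfl fun a _ => hd a,
      prod_mul_distrib, prod_const, card_univ, Fintype.card_fin,
      Fin.prod_univ_eq_prod_range (fun s => (q : L) ^ s)]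

theorem st2_stmt : St2Stmt := by
  intro k _ n m C S d Y hS hd hY hm
  set Z := C⁻¹.val * Y * C.val with hZ
  have hc : ∀ X Y : Mt n k, C⁻¹.val * X * C.val * (C⁻¹.val * Y * C.val) =
      C⁻¹.val * (X * Y) * C.val := by
    intro X Y
    simp only [mul_assoc, Units.mul_inv_cancel_left]
  have hS' : C⁻¹.val * S.val * C.val = diagonal d := by
    rw [← hS, Units.val_mul, Units.val_mul]
  have hSj : ∀ j : ℕ, C⁻¹.val * S.val ^ j * C.val = diagonal fun a => d a ^ j := by
    intro j
    rw [← Units.conj_pow', hS', diagonal_pow]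
    rfl
  have hd0 : ∀ a, d a ≠ 0 := by
    have h1 : IsUnit (diagonal d).det := by
      rw [← hS]
      exact (isUnit_iff_isUnit_det _).1 (Units.isUnit _)
    rw [det_diagonal] at h1
    exact fun a => prod_ne_zero_iff.1 h1.ne_zero a (mem_univ _)
  have hSi : ∀ j : ℕ, C⁻¹.val * (S ^ j)⁻¹.val * C.val = diagonal fun a => (d a ^ j)⁻¹ := by
    intro j
    have h1 : (C⁻¹.val * (S ^ j)⁻¹.val * C.val) * diagonal (fun a => d a ^ j) = 1 := by
      rw [← hSj, hc, ← Units.val_pow_eq_pow_val, Units.inv_mul, mul_one, Units.inv_mul]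
    have h2 : (diagonal (fun a => d a ^ j) : Mt n k) * diagonal (fun a => (d a ^ j)⁻¹) = 1 := by
      rw [diagonal_mul_diagonal, ← diagonal_one]
      congr 1
      funext a
      exact mul_inv_cancel₀ (pow_ne_zero _ (hd0 a))
    rw [← mul_one (C⁻¹.val * (S ^ j)⁻¹.val * C.val), ← h2, ← mul_assoc, h1, one_mul]
  have hz : ∀ a, Z a a = 0 := by
    have := eq_zero_of_forall_pow_sum_mul_pow_eq_zero (v := fun a => Z a a * d a) hd fun i => by
      have h1 := hY (i + 1) (by omega) (by omega)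
      rw [← trace_units_conj' C, ← hc, hSj, ← hZ, trace] at h1
      rw [← h1]
      refine sum_congr rfl fun a _ => ?_
      rw [diag_apply, mul_diagonal, pow_succ']
      ring
    exact fun a => (mul_eq_zero.1 (congrFun this a)).resolve_right (hd0 a)
  have key : C⁻¹.val * (∑ j ∈ range m, (S ^ j).val * Y * (S ^ j)⁻¹.val) * C.val = 0 := by
    rw [Matrix.mul_sum, Matrix.sum_mul]
    have e : ∀ j ∈ range m, C⁻¹.val * ((S ^ j).val * Y * (S ^ j)⁻¹.val) * C.val =
        diagonal (fun a => d a ^ j) * Z * diagonal fun a => (d a ^ j)⁻¹ := by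
      intro j _
      rw [← hc, ← hc, hSi, Units.val_pow_eq_pow_val, hSj]
    rw [sum_congr rfl e]
    ext a b
    rw [Matrix.sum_apply, Matrix.zero_apply]
    simp only [mul_diagonal, diagonal_mul]
    by_cases hab : a = b
    · subst hab
      simp [hz a]
    · have h1 : d a / d b ≠ 1 := fun h => hab (hd ((div_eq_one_iff_eq (hd0 b)).1 h))
      have h2 : ∑ j ∈ range m, (d a / d b) ^ j = 0 := by
        rw [geom_sum_eq h1, div_pow, hm a b, div_self (pow_ne_zero _ (hd0 b)), sub_self, zero_div]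
      calc _ = Z a b * ∑ j ∈ range m, (d a / d b) ^ j := by
            rw [mul_sum]
            refine sum_congr rfl fun j _ => ?_
            rw [div_pow, div_eq_mul_inv]
            ring
        _ = 0 := by rw [h2, mul_zero]
  rw [mul_assoc] at key
  exact (Units.mul_left_eq_zero C).1 ((Units.mul_right_eq_zero C⁻¹).1 key)

end Pool.Agent.MP_f68ac8_nt.Sv
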