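import Mathlib
import Pool.Agent.MP_f68ac8_nt.BvAux
import Pool.Agent.MP_f68ac8_nt.LdOrdA
import Pool.Agent.MP_f68ac8_nt.LdSt
import Pool.Agent.MP_f68ac8_nt.SySt

/-! The level raising condition for the leading term of an ordinary lift. -/

namespace Pool.Agent.MP_f68ac8_nt.Sv
open Ev Pv

open NumberField Matrix IsLocalRing Finset
open scoped Pointwise Topology MatrixGroups

lemma pow_BvSt {O k : Type} [CommRing O] [Field k] (π : O →+* k) {τ : O} (hτ : π τ = 0) (y : O)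
    (s : ℕ) : ∃ z, (1 + τ * y) ^ s = 1 + τ * z ∧ π z = s * π y := by
  induction s with
  | zero => exact ⟨0, by simp, by simp⟩
  | succ s ih =>
    obtain ⟨z, h1, h2⟩ := ih
    refine ⟨z + y + τ * (z * y), by rw [pow_succ, h1]; ring, ?_⟩
    rw [map_add, map_add, map_mul, hτ, h2]
    push_cast
    ring

lemma gauss_BvSt {k : Type} [Field k] {n : ℕ} (hn : 0 < n) (h : 2 ≤ n → ((2 : ℕ) : k) ≠ 0) :
    ∑ s ∈ range n, (s : k) = n * (((n : k) - 1) / 2) ∧ ((n : k) - 1) / 2 * 2 = n - 1 := by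
  rcases (show n = 1 ∨ 2 ≤ n by omega) with rfl | h2
  · simp
  · have h3 : (2 : k) ≠ 0 := by exact_mod_cast h h2
    have h4 := congrArg (Nat.cast : ℕ → k) (Finset.sum_range_id_mul_two n)
    push_cast [Nat.cast_pred hn] at h4
    refine ⟨mul_right_cancel₀ h3 ?_, div_mul_cancel₀ _ h3⟩
    rw [h4, mul_assoc, div_mul_cancel₀ _ h3]

theorem stC_stmt (p : ℕ) [Fact p.Prime] (h : St1Stmt) : StCStmt p := by
  intro O _ _ _ k _ π n q m c τ u s A U Z C d hπ hτ hπτ hpu hq hU ht hA hZ hqm hC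
  rcases n.eq_zero_or_pos with rfl | hn
  · exact Subsingleton.elim _ _
  obtain ⟨hnk, hqn⟩ := hq n hn le_rfl
  obtain ⟨α, hα, h1, -⟩ := one_LdOrdA h hπ q A U hn hnk hqn hU ht
  have htr : ∀ X : Mt n O, (π.mapMatrix X).trace = π X.trace := fun X => by
    simp [Matrix.trace, map_sum]
  obtain ⟨e, he⟩ : ∃ e : Fin n → k, e = fun j : Fin n => d * (q : k) ^ (n - 1 - j) := ⟨_, rfl⟩
  rw [← he] at hC
  have hc : ∀ X Y : Mt n k, C⁻¹.val * X * C.val * (C⁻¹.val * Y * C.val) =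
      C⁻¹.val * (X * Y) * C.val := fun X Y => by
    simp only [mul_assoc, Units.mul_inv_cancel_left]
  have hpow : ∀ (X : Mt n O) (j : ℕ), π (X * A.val ^ j).trace =
      ∑ t, (C⁻¹.val * X.map π * C.val) t t * e t ^ j := fun X j => by
    rw [← htr, map_mul, map_pow, ← trace_units_conj' C, ← hc, ← Units.conj_pow',
      RingHom.mapMatrix_apply, RingHom.mapMatrix_apply, hC, diagonal_pow, trace]
    exact sum_congr rfl fun t _ => by rw [diag_apply, mul_diagonal, Pi.pow_apply]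
  have hrefl : ∀ f : ℕ → k, ∑ t : Fin n, f (n - 1 - t) = ∑ s ∈ range n, f s := fun f => by
    rw [Fin.sum_univ_eq_sum_range (fun t => f (n - 1 - t)), sum_range_reflect]
  have hd : π α = d := by
    have h2 := hpow 1 1
    have h3 := geom_sum_mul (q : k) n
    rw [one_mul, h1, Matrix.map_one _ (map_zero π) (map_one π), mul_one, Units.inv_mul, he] at h2
    simp only [pow_one, one_apply_eq, one_mul, map_mul, map_sum, map_pow, map_natCast,
      ← mul_sum, hrefl fun s => (q : k) ^ s] at h2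
    refine mul_right_cancel₀ (fun h0 => hqn ?_) h2
    rw [h0, zero_mul] at h3
    exact sub_eq_zero.1 h3.symm
  have hd0 : d ≠ 0 := hd ▸ (hα.map π).ne_zero
  have he0 : ∀ t, e t ≠ 0 := fun t => by
    have h2 : IsUnit (diagonal e) :=
      hC ▸ (C⁻¹.isUnit.mul (A.isUnit.map π.mapMatrix)).mul C.isUnit
    rw [isUnit_iff_isUnit_det, det_diagonal] at h2
    exact prod_ne_zero_iff.1 h2.ne_zero t (mem_univ _)
  have hlt : ∀ a b : Fin n, a < b → e a ≠ e b := fun a b hab h0 => by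
    have h2 : (a : ℕ) < b := hab
    refine (hq (b - a) (by omega) (by omega)).2 (mul_left_cancel₀ (he0 b) ?_)
    rw [mul_one]
    conv_rhs => rw [← h0]
    rw [he, mul_assoc, ← pow_add, show n - 1 - b + (b - a) = n - 1 - a by omega]
  have hinj : Function.Injective e := fun a b h0 => by
    rcases lt_trichotomy a b with h2 | h2 | h2
    · exact absurd h0 (hlt a b h2)
    · exact h2
    · exact absurd h0.symm (hlt b a h2)
  choose y hy1 hy2 using pow_BvSt π hπτ (u * c)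
  have hq1 : (q : O) ^ m = 1 + τ * (u * c) := by
    rw [← Nat.cast_pow, hqm]
    push_cast
    rw [hpu]
    ring
  have key : ∀ j : ℕ, α ^ j * (α ^ m * ∑ i ∈ range n, ((q : O) ^ i) ^ j * (1 + τ * y i)) =
      s * (α ^ j * ∑ i ∈ range n, ((q : O) ^ i) ^ j + τ * (Z * A.val ^ j).trace) := fun j => by
    have h2 := h1 (m + j)
    rw [pow_add, ← Units.val_pow_eq_pow_val A m, hA, Matrix.smul_mul, trace_smul, add_mul, one_mul,
      trace_add, Matrix.smul_mul, trace_smul, h1, smul_eq_mul, smul_eq_mul] at h2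
    rw [h2, pow_add, ← mul_assoc, mul_comm (α ^ j)]
    refine congrArg _ (sum_congr rfl fun i _ => ?_)
    rw [pow_add, ← hy1, ← hq1, pow_right_comm _ m, mul_comm]
  obtain ⟨ν, hν⟩ := (unit_LdOrdA hπ (x := (n : O)) (by rwa [map_natCast])).exists_right_inv
  obtain ⟨ξ, hξ⟩ : ∃ ξ, α ^ m - s = τ * ξ := by
    have h2 := key 0
    simp only [pow_zero, one_mul, mul_one, sum_add_distrib, sum_const, card_range, nsmul_one,
      ← mul_sum] at h2
    exact ⟨ν * (s * Z.trace - α ^ m * ∑ i ∈ range n, y i), by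
      linear_combination ν * h2 - (α ^ m - s) * hν⟩
  have hs : π s = d ^ m := by
    have h2 := congrArg π hξ
    rw [map_sub, map_mul, hπτ, zero_mul, map_pow, hd, sub_eq_zero] at h2
    exact h2.symm
  have key2 : ∀ j : ℕ, π (Z * A.val ^ j).trace =
      ∑ i ∈ range n, (π ξ / d ^ m + i * (π u * c)) * (d * (q : k) ^ i) ^ j := fun j => by
    have h2 : s * (Z * A.val ^ j).trace =
        ∑ i ∈ range n, (ξ + α ^ m * y i) * (α * (q : O) ^ i) ^ j := by
      have h3 := key j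
      have h4 : ∑ i ∈ range n, ((q : O) ^ i) ^ j * (1 + τ * y i) =
          ∑ i ∈ range n, ((q : O) ^ i) ^ j + τ * ∑ i ∈ range n, ((q : O) ^ i) ^ j * y i := by
        rw [mul_sum, ← sum_add_distrib]
        exact sum_congr rfl fun i _ => by ring
      have h5 : ∑ i ∈ range n, (ξ + α ^ m * y i) * (α * (q : O) ^ i) ^ j = α ^ j * (ξ *
          ∑ i ∈ range n, ((q : O) ^ i) ^ j + α ^ m * ∑ i ∈ range n, ((q : O) ^ i) ^ j * y i) := by
        rw [mul_sum, mul_sum, ← sum_add_distrib, mul_sum]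
        exact sum_congr rfl fun i _ => by rw [mul_pow]; ring
      rw [h4] at h3
      rw [h5]
      refine mul_left_cancel₀ hτ ?_
      linear_combination -h3 + (α ^ j * ∑ i ∈ range n, ((q : O) ^ i) ^ j) * hξ
    have h3 := congrArg π h2
    refine mul_left_cancel₀ (pow_ne_zero m hd0) ?_
    rw [← hs, ← map_mul, h3, map_sum, mul_sum]
    refine sum_congr rfl fun i _ => ?_
    simp only [map_mul, map_add, map_pow, hy2, hd, map_natCast, hs]
    field_simp
  have hdg := eq_zero_of_forall_pow_sum_mul_pow_eq_zero (v := fun t : Fin n =>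
    (C⁻¹.val * Z.map π * C.val) t t - (π ξ / d ^ m + (n - 1 - t : ℕ) * (π u * c))) hinj fun j => by
      simp only [sub_mul, sum_sub_distrib]
      rw [← hpow, key2, ← hrefl, he, sub_self]
  obtain ⟨g1, g2⟩ := gauss_BvSt (k := k) hn fun h2 => (hq 2 two_pos h2).1
  have hξ' : π ξ / d ^ m = -(((n : k) - 1) / 2 * (π u * c)) := by
    have h2 := key2 0
    rw [pow_zero, mul_one, ← htr, RingHom.mapMatrix_apply, hZ] at h2
    simp only [pow_zero, mul_one, sum_add_distrib, sum_const, card_range, nsmul_eq_mul,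
      ← sum_mul, g1] at h2
    exact mul_left_cancel₀ hnk (by linear_combination -h2)
  have hcom : Z * A.val = A.val * Z := by
    have h2 : (A ^ m).val * A.val = A.val * (A ^ m).val := by
      rw [← Units.val_mul, ← Units.val_mul, ← pow_succ, pow_succ']
    have s0 : s ≠ 0 := fun h0 => pow_ne_zero m hd0 (by rw [← hs, h0, map_zero])
    rw [hA, Matrix.smul_mul, Matrix.mul_smul, add_mul, mul_add, one_mul, mul_one, Matrix.smul_mul,
      Matrix.mul_smul] at h2
    exact smul_right_injective _ hτ (add_left_cancel (smul_right_injective _ s0 h2))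
  ext a b
  rw [Matrix.smul_apply, Hd, smul_eq_mul]
  by_cases hab : a = b
  · subst hab
    have h2 := sub_eq_zero.1 (congrFun hdg a)
    rw [h2, hξ', diagonal_apply_eq, Nat.cast_sub (by omega), Nat.cast_pred hn]
    linear_combination (-(π u * c)) * g2
  · have h2 : C⁻¹.val * Z.map π * C.val * diagonal e =
        diagonal e * (C⁻¹.val * Z.map π * C.val) := by
      rw [← hC, hc, hc, ← Matrix.map_mul, ← Matrix.map_mul, hcom]
    have h3 := congrFun (congrFun h2 a) b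
    rw [mul_diagonal, diagonal_mul, mul_comm (e a), ← sub_eq_zero, ← mul_sub] at h3
    rw [diagonal_apply_ne _ hab, mul_zero]
    exact (mul_eq_zero.1 h3).resolve_right fun h0 => hab (hinj (sub_eq_zero.1 h0)).symm

theorem stB_stmt (p : ℕ) [Fact p.Prime] (hW : WildStmt) (h1 : Sym1Stmt) (hB : BaseStmt p) (hCo : CoStmt p) (hC : StCStmt p) : StBStmt p := by
  intro K F _ _ r n hKF hR w S O _ _ _ _ k _ _ π L hP hv c hc hS hσK A₀ ⟨a1, a2, a3, hq⟩
  have hp : p.Prime := Fact.out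
  obtain ⟨hn2, hnp⟩ := hR.big
  have n0 : 0 < n := by omega
  have : Nonempty (Fin n) := ⟨⟨0, n0⟩⟩
  obtain ⟨s1, s2, s3, -, s5, -⟩ := h1 (ZMod p) n
  obtain ⟨hF, b1, -, -, b4, -⟩ := hB K F r 1 1 n hKF hR
  obtain ⟨-, c0, -, c1, c3, c2, -⟩ := (hCo K F hF).2 c hc
  have := charP_of_injective_algebraMap (algebraMap (ZMod p) k).injective p
  have hk : ∀ m, 0 < m → m ≤ n → (m : k) ≠ 0 := fun m h0 hm e => by
    have := Nat.le_of_dvd h0 ((CharP.cast_eq_zero_iff k p m).1 e)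
    omega
  obtain ⟨SY, hSY⟩ : ∃ SY : GL (Fin 2) (ZMod p) →* GL (Fin n) k,
      ∀ B, (SY B).val = sy k n B.val :=
    ⟨Units.map ⟨⟨sy k n, by rw [sy, s1, Matrix.map_one _ (map_zero _) (map_one _)]⟩,
      fun B C => by simp only [sy, s2, Matrix.map_mul]⟩, fun _ => rfl⟩
  obtain ⟨ϖ, hϖ⟩ := IsDiscreteValuationRing.exists_irreducible O
  have hl0 : (c.l : k) ≠ 0 := by
    rw [Ne, CharP.cast_eq_zero_iff k p]
    exact fun h => hc.ne ((Nat.prime_dvd_prime_iff_eq hp hc.prime).1 h).symm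
  have hE : L.E⁻¹.val.map π = 1 := by
    rw [← mul_one (L.E⁻¹.val.map π), ← hv.red, ← Matrix.map_mul, Units.inv_mul,
      Matrix.map_one _ (map_zero π) (map_one π), hv.red]
  have hM : ∀ g, (M0 r n O g).map π = sy k n (rep r g).val := fun g => by
    ext i j
    simp only [M0, sy, map_apply, map_natCast]
    rw [← map_natCast (algebraMap (ZMod p) k), ZMod.natCast_zmod_val]
  have hres : ∀ g, π (L.s g) ≠ 0 ∧ (L.ρ g).val.map π = π (L.s g) • (SY (rep r g)).val := fun g => by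
    have e : (L.ρ g).val.map π = π (L.s g) • (SY (rep r g)).val := by
      have e1 := congrArg (fun X : Mt n O => X.map π) (hv.eq g)
      simp only [Units.val_mul, Matrix.map_mul, hv.red, hE, one_mul, mul_one] at e1
      rw [e1, hSY, ← hM]
      ext i j
      simp [add_mul, hv.mem]
    refine ⟨fun h0 => ((L.ρ g).isUnit.map π.mapMatrix).ne_zero ?_, e⟩
    rw [RingHom.mapMatrix_apply, e, h0, zero_smul]
  have hsc : ∀ g : K.fixingSubgroup, g.1 ∈ F.fixingSubgroup →
      ∃ a : ZMod p, a ≠ 0 ∧ symP n (rep r g).val = a • 1 := fun g hg => by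
    obtain ⟨c', e'⟩ := (b4 1 g).1 ((b1 g).1 hg).2.1
    rw [repIn, inv_one, one_mul, mul_one] at e'
    have c0 : c' ≠ 0 := fun h => (rep r g).ne_zero (by rw [e', h, zero_smul])
    exact ⟨_, pow_ne_zero (n - 1) c0, by rw [e', s3, s1]⟩
  obtain ⟨σ, hσ⟩ : ∃ σ : K.fixingSubgroup, σ = ⟨c.σ, hσK⟩ := ⟨_, rfl⟩
  have hσ' : σ.1 = c.σ := by rw [hσ]
  rw [← hσ] at a1 a2 a3 hq
  obtain ⟨u, d, u1, u2⟩ := hP.st c.P hc.max hS
  have tame : IsScal (L.ρ σ * L.ρ u * (L.ρ σ)⁻¹ * (L.ρ u ^ c.l)⁻¹) := by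
    rw [← map_pow, ← map_inv, ← map_inv, ← map_mul, ← map_mul, ← map_mul]
    have e : (σ * u * σ⁻¹ * (u ^ c.l)⁻¹).1 = σ.1 * u.1 * σ.1⁻¹ * (u.1 ^ c.l ^ 1)⁻¹ := by
      rw [pow_one]
      rfl
    refine wild_PvLead hϖ hv.ker (by rw [Fintype.card_fin]; exact hk n n0 le_rfl) ?_ hl0
      fun j => ?_
    · obtain ⟨a, a0, ha⟩ := hsc (σ * u * σ⁻¹ * (u ^ c.l)⁻¹) (by
        rw [e]
        exact mul_mem (hF.nrm σ _ (hc.unr u1)) (inv_mem (pow_mem (hc.unr u1) _)))
      refine ⟨_, mul_ne_zero (hres (σ * u * σ⁻¹ * (u ^ c.l)⁻¹)).1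
        ((map_ne_zero (algebraMap (ZMod p) k)).2 a0), ?_⟩
      rw [RingHom.mapMatrix_apply, (hres _).2, hSY, sy, ha, mul_smul]
      congr 1
      ext i j
      simp [one_apply, apply_ite (algebraMap (ZMod p) k)]
    · obtain ⟨t, ht, ht'⟩ := (mem_nhds_subtype _ _ _).1 (hP.cont j)
      obtain ⟨i, hi⟩ := hW.1 c.l 1 c.P σ.1 u.1 hc.prime hc.max hc.mem
        (by rw [pow_one, hσ']; exact hc.frob) u1 t ht
      refine ⟨i, ?_⟩
      rw [← Units.val_pow_eq_pow_val, ← map_pow]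
      rw [← e] at hi
      exact ht' (a := (σ * u * σ⁻¹ * (u ^ c.l)⁻¹) ^ c.l ^ i) hi
  have hl : (c.l : k) = algebraMap (ZMod p) k (cb p σ.1) := by rw [hσ', c2, map_natCast]
  have hlm : c.l ^ c.m = p * (c.l ^ c.m / p) + 1 := by
    rw [← Nat.mod_eq_of_lt hp.one_lt, ← c1, Nat.div_add_mod]
  have hpsi : psi p (c.σ ^ c.m) = (c.l ^ c.m / p : ℕ) := by
    have := hc.max
    refine psi_frob (P := c.P) ?_ (hlm ▸ c3)
    rw [← hlm, Nat.cast_pow]
    exact Ideal.pow_mem_of_mem _ hc.mem _ (Nat.pos_of_ne_zero fun h => hc.ord (h ▸ dvd_zero p))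
  obtain ⟨a, -, ha⟩ := hsc (σ ^ c.m) (by rw [SubgroupClass.coe_pow, hσ']; exact c0)
  have hZ : (L.E⁻¹.val * L.Z (σ ^ c.m) * L.E.val).map π = (L.Z (σ ^ c.m)).map π := by
    rw [Matrix.map_mul, Matrix.map_mul, hE, hv.red, one_mul, mul_one]
  obtain ⟨-, t1, -, t2⟩ := s5 _ a2
  have key := hC O k π n c.l c.m (c.l ^ c.m / p) L.τ L.u (L.s (σ ^ c.m) * (a.val : O)) (L.ρ σ)
    (L.ρ u) (L.E⁻¹.val * L.Z (σ ^ c.m) * L.E.val) (SY A₀)
    (π (L.s σ) * algebraMap (ZMod p) k (repIn r A₀ σ 1 1) ^ (n - 1)) hv.toRs hv.ne0 hv.mem hv.pu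
    (fun j j1 j2 => ⟨hk j j1 j2, fun h => hq j j1 j2 ((algebraMap (ZMod p) k).injective (by
      rw [map_pow, ← hl, h, map_one]))⟩) ⟨d, u2⟩ (rel_LdSt tame)
    (by
      have e1 : M0 r n O (σ ^ c.m) = (a.val : O) • 1 := by
        ext i j
        by_cases h : i = j <;> simp [M0, ha, one_apply, h]
      have e2 : L.ρ σ ^ c.m = L.E⁻¹ * (L.E * L.ρ (σ ^ c.m) * L.E⁻¹) * L.E := by
        rw [map_pow]
        group
      rw [e2, Units.val_mul, Units.val_mul, hv.eq, e1]
      simp only [Matrix.mul_smul, Matrix.smul_mul, mul_one, smul_smul, mul_add, add_mul,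
        Units.inv_mul, smul_add, mul_assoc (L.s _)])
    (by rw [hZ]; exact hv.tr _) hlm
    (by
      rw [(hres σ).2, Matrix.mul_smul, Matrix.smul_mul, ← Units.val_mul, ← Units.val_mul,
        ← map_inv, ← map_mul, ← map_mul, hSY]
      ext i j
      rw [Matrix.smul_apply, smul_eq_mul]
      change _ * algebraMap (ZMod p) k (symP n (repIn r A₀ σ) i j) = _
      by_cases h : i = j
      · subst h
        rw [diagonal_apply_eq, t1, a3, hl]
        conv_rhs => rw [show n - 1 = n - 1 - i + i by omega, Nat.add_sub_cancel]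
        simp only [map_mul, map_pow, mul_pow, pow_add]
        ring
      · rw [diagonal_apply_ne _ h, t2 a1 i j h, map_zero, mul_zero])
  have e : L.z π (c.σ ^ c.m) = (L.Z (σ ^ c.m)).map π := by
    rw [← L.z_apply, ← hσ']
    rfl
  rw [e, hpsi, map_natCast, ← key, hZ, adS, inv_inv, ← hSY, ← hSY, map_inv]

end Pool.Agent.MP_f68ac8_nt.Sv
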