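import Mathlib
import Pool.Agent.MP_f68ac8_nt.Lat

/-! The Lie lattice of a powerful normal subgroup: action and brackets. -/

namespace Pool.Agent.MP_f68ac8_nt

open Filter Matrix PadicInt
open scoped Topology commutatorElement

variable {p : ℕ} [hp : Fact p.Prime] {A : Type} [NormedRing A] [NormedAlgebra ℚ_[p] A]
  {κ : Type} [Fintype κ] [DecidableEq κ]

section
variable (b : κ → A)

omit [DecidableEq κ] in
lemma lin_mulVec (M : Matrix κ κ ℤ_[p]) (u : κ → ℤ_[p]) :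
    lin b (M *ᵥ u) = ∑ l, (u l : ℚ_[p]) • lin b fun k => M k l := by
  rw [mulVec_eq_sum, map_sum]
  exact Finset.sum_congr rfl fun l _ => by rw [op_smul_eq_smul, lin_smul]; rfl

omit [DecidableEq κ] in
lemma lin_psmul (u : κ → ℤ_[p]) : lin b ((p : ℤ_[p]) • u) = (p : ℚ_[p]) • lin b u := lin_smul b _ u

/-- `D` is the matrix of the bracket with `Y`, divided by `p` -/
def Rep (Y : A) (D : Matrix κ κ ℤ_[p]) : Prop :=
  ∀ u, Y * lin b u - lin b u * Y = (p : ℚ_[p]) • lin b (D *ᵥ u)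

variable {b} {Y Y' : A} {D D' : Matrix κ κ ℤ_[p]} {C : κ → Matrix κ κ ℤ_[p]}

omit [DecidableEq κ] in
lemma Rep.of_basis (h : ∀ l, Y * b l - b l * Y = (p : ℚ_[p]) • lin b fun k => D k l) :
    Rep b Y D := fun u => by
  rw [lin_mulVec, lin_apply, Finset.mul_sum, Finset.sum_mul, ← Finset.sum_sub_distrib,
    Finset.smul_sum]
  exact Finset.sum_congr rfl fun l _ => by
    rw [mul_smul_comm, smul_mul_assoc, ← smul_sub, h, smul_comm]

lemma Rep.basis (h : Rep b Y D) (l : κ) :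
    Y * b l - b l * Y = (p : ℚ_[p]) • lin b fun k => D k l := by
  have := h (Pi.single l 1)
  rwa [lin_single, mulVec_single_one] at this

omit [DecidableEq κ] in
lemma Rep.unique (hb : LinearIndependent ℚ_[p] b) (h : Rep b Y D) (h' : Rep b Y D') : D = D' :=
  ext_iff_mulVec.mpr fun u => lin_inj hb (smul_right_injective A p_ne ((h u).symm.trans (h' u)))

omit [DecidableEq κ] in
lemma Rep.sum (hC : ∀ k, Rep b (b k) (C k)) (v : κ → ℤ_[p]) :
    Rep b (lin b v) (∑ k, v k • C k) := fun u => by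
  rw [lin_apply b v, Finset.mul_sum, Finset.sum_mul, ← Finset.sum_sub_distrib, sum_mulVec, map_sum,
    Finset.smul_sum]
  exact Finset.sum_congr rfl fun l _ => by
    rw [mul_smul_comm, smul_mul_assoc, ← smul_sub, hC, smul_comm, smul_mulVec, lin_smul]

lemma Rep.jac (hb : LinearIndependent ℚ_[p] b) (hC : ∀ k, Rep b (b k) (C k)) (h : Rep b Y D)
    (n : κ) : D * C n - C n * D = ∑ k, D k n • C k := by
  refine ext_iff_mulVec.mpr fun u => lin_inj hb (smul_right_injective A (p_ne (p := p))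
    (smul_right_injective A (p_ne (p := p)) ?_))
  have e1 := h (C n *ᵥ u)
  have e2 := hC n (D *ᵥ u)
  dsimp only
  rw [sub_mulVec, map_sub, ← mulVec_mulVec, ← mulVec_mulVec, smul_sub, ← e1, ← e2,
    ← Rep.sum hC _ u]
  simp only [smul_sub]
  rw [← mul_smul_comm, ← smul_mul_assoc, ← mul_smul_comm, ← smul_mul_assoc, ← smul_mul_assoc,
    ← mul_smul_comm, ← h u, ← hC n u, ← h.basis]
  noncomm_ring

lemma Rep.anti (hb : LinearIndependent ℚ_[p] b) (hC : ∀ k, Rep b (b k) (C k)) (l k n : κ) :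
    C l k n = -C n k l := by
  have : (fun k => C l k n) = -fun k => C n k l :=
    lin_inj hb (smul_right_injective A (p_ne (p := p)) (by
      dsimp only
      rw [map_neg, smul_neg, ← (hC l).basis, ← (hC n).basis, neg_sub]))
  exact congrFun this k

lemma Rep.skew (h : Rep b Y D) (T : A →ₗ[ℚ_[p]] ℚ_[p]) (hT : ∀ x y, T (x * y) = T (y * x))
    (h0 : ∃ l n, T (b l * b n) ≠ 0) :
    ∃ (β : Matrix κ κ ℤ_[p]) (t : κ × κ), Dᵀ * β + β * D = 0 ∧ β t.1 t.2 = 1 := by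
  obtain ⟨l₀, n₀, h0⟩ := h0
  obtain ⟨t, -, ht⟩ := Finset.exists_max_image Finset.univ
    (fun t : κ × κ => ‖T (b t.1 * b t.2)‖) ⟨(l₀, n₀), Finset.mem_univ _⟩
  have h1 := (norm_pos_iff.mpr h0).trans_le (ht (l₀, n₀) (Finset.mem_univ _))
  have h2 := norm_pos_iff.mp h1
  refine ⟨of fun l n => ⟨T (b l * b n) / T (b t.1 * b t.2), ?_⟩, t, ?_, Subtype.ext (div_self h2)⟩
  · rw [norm_div, div_le_one h1]
    exact ht (l, n) (Finset.mem_univ _)
  ext l n
  have e : T ((Y * b l - b l * Y) * b n) + T (b l * (Y * b n - b n * Y)) = 0 := by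
    rw [← map_add, ← sub_eq_zero.mpr (hT Y (b l * b n)), ← map_sub]
    congr 1
    noncomm_ring
  rw [h.basis, h.basis, lin_apply, lin_apply] at e
  simp only [smul_mul_assoc, mul_smul_comm, Finset.sum_mul, Finset.mul_sum, map_smul, map_sum,
    smul_eq_mul] at e
  apply Subtype.ext
  rw [← Finset.mul_sum, ← Finset.mul_sum, ← mul_add, mul_eq_zero_iff_left p_ne] at e
  simp only [Matrix.add_apply, mul_apply, of_apply, transpose_apply, PadicInt.coe_add, PadicInt.coe_sum,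
    PadicInt.coe_mul, Matrix.zero_apply, PadicInt.coe_zero, ← mul_div_assoc, div_mul_eq_mul_div,
    ← Finset.sum_div, ← add_div, mul_comm (T _)]
  rw [e, zero_div]

end

variable [IsUltrametricDist A] [NormOneClass A] {G : Type} [Group G] {ρ : G →* A} {lg : G → A}
  {c : ℝ} {k₀ : ℕ}

omit [NormOneClass A] in
lemma IsLog.rep (L : IsLog p ρ lg c k₀) (hp2 : p ≠ 2) {b : κ → A} {𝒜 : G →* Matrix κ κ ℤ_[p]}
    (h : ∀ g u, lin b (𝒜 g *ᵥ u) = ρ g * lin b u * ρ g⁻¹) {y : G} {Θ : Matrix κ κ ℤ_[p]}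
    (hy : 𝒜 y = 1 + (p : ℤ_[p]) • Θ) : ∃ D, Rep b (lg y) D ∧ D.map toZMod = Θ.map toZMod := by
  obtain ⟨B, B0, hB⟩ := (isCompact_range (lin_cont (p := p) b)).isBounded.exists_pos_norm_le
  have q0 := pinv_pos (p := p)
  have c0 := (norm_nonneg _).trans (L.ap y _ le_rfl).2
  have key : ∀ u : κ → ℤ_[p], ((p : ℚ_[p]) ^ 2)⁻¹ • (lg y * lin b u - lin b u * lg y -
      (p : ℚ_[p]) • lin b (Θ *ᵥ u)) ∈ ((lin (p := p) b).range : Set A) := fun u => by
    refine mem_of_approx (p := p) (lin_closed b) (j := 2) (c := B * c + B * c ^ 2) (k₀ := k₀)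
      fun k hk => ?_
    obtain ⟨e, he⟩ := pow_pk hp2 Θ k
    rw [← Nat.cast_smul_eq_nsmul ℤ_[p], ← hy, ← map_pow, add_assoc, pow_succ p (k + 1), mul_smul,
      ← smul_add, ← Nat.cast_smul_eq_nsmul ℤ_[p], ← Nat.cast_smul_eq_nsmul ℤ_[p]] at he
    refine ⟨_, ⟨e *ᵥ u, rfl⟩, ?_⟩
    have e1 := congrArg (· * ρ (y ^ p ^ k)) (h (y ^ p ^ k) u)
    simp only [he, mul_assoc, ← map_mul, inv_mul_cancel, map_one, mul_one, add_mulVec, one_mulVec,
      smul_mulVec, map_add, lin_smul, PadicInt.coe_natCast, Nat.cast_pow, PadicInt.coe_pow] at e1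
    rw [map_pow] at e1
    have a1 := L.ap y k hk
    have a2 := a1.le (L.le k hk)
    have a3 := hB _ ⟨u, rfl⟩
    have a4 := hB _ ⟨Θ *ᵥ u + (p : ℤ_[p]) • e *ᵥ u, rfl⟩
    rw [map_add, lin_psmul] at a4
    have a5 := a1.1
    generalize lin b u = U at *
    generalize lin b (Θ *ᵥ u) = V at *
    generalize lin b (e *ᵥ u) = W at *
    generalize ρ y ^ p ^ k = w at *
    have : (p : ℚ_[p]) ^ (k + 2) • (((p : ℚ_[p]) ^ 2)⁻¹ • (lg y * U - U * lg y -
        (p : ℚ_[p]) • V) - W) = (p : ℚ_[p]) ^ (k + 1) • (V + (p : ℚ_[p]) • W) * (w - 1) +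
          (U * (w - 1 - (p : ℚ_[p]) ^ k • lg y) - (w - 1 - (p : ℚ_[p]) ^ k • lg y) * U) := by
      rw [pow_add, mul_smul, smul_sub ((p : ℚ_[p]) ^ 2), smul_inv_smul₀ (pow_ne_zero _ p_ne),
        mul_sub, eq_sub_of_add_eq' ((add_mul _ _ _).symm.trans e1)]
      simp only [mul_sub, sub_mul, mul_smul_comm, smul_mul_assoc, mul_one, one_mul]
      module
    rw [this, add_mul]
    refine ule_add ((ule_mul (norm_pk _ _).le a2).trans ?_) ((ule_sub (ule_mul a3 a5)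
      ((ule_mul a5 a3).trans_eq (mul_comm _ _))).trans ?_)
    · refine le_add_of_le_of_nonneg ?_ (by positivity)
      calc _ ≤ (p : ℝ)⁻¹ ^ k * B * (c * (p : ℝ)⁻¹ ^ k) := by
            gcongr ?_ * ?_ * _
            exact pow_le_pow_of_le_one q0.le pinv_lt.le (by omega)
        _ = _ := by ring
    · exact le_add_of_nonneg_of_le (by positivity) (le_of_eq (by ring))
  choose v hv using fun l => key (Pi.single l 1)
  refine ⟨Θ + (p : ℤ_[p]) • (of v)ᵀ, .of_basis fun l => ?_, ?_⟩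
  · have := hv l
    rw [lin_single, mulVec_single_one, eq_inv_smul_iff₀ (pow_ne_zero _ p_ne), eq_sub_iff_add_eq',
      pow_two, mul_smul, ← smul_add, ← lin_psmul, ← map_add] at this
    exact this.symm
  · ext i j
    simp

variable (ρ lg) in
/-- the lattice attached to a normal subgroup -/
structure Lat (H : Subgroup G) (h : κ → G) (ξ : G → κ → ℤ_[p])
    (𝒜 : G →* Matrix κ κ ℤ_[p]) : Prop where
  mem : ∀ k, h k ∈ H
  ind : LinearIndependent ℚ_[p] fun k => lg (h k)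
  xi : ∀ g ∈ H, lin (fun k => lg (h k)) (ξ g) = lg g
  act : ∀ g u, lin (fun k => lg (h k)) (𝒜 g *ᵥ u) = ρ g * lin (fun k => lg (h k)) u * ρ g⁻¹
  add : ∀ x ∈ H, ∀ y ∈ H, toZMod ∘ ξ (x * y) = toZMod ∘ ξ x + toZMod ∘ ξ y

theorem exists_lat [TopologicalSpace G] [CompactSpace G] [IsTopologicalGroup G]
    [FiniteDimensional ℚ_[p] A] (L : IsLog p ρ lg c k₀) (hp2 : p ≠ 2) (hc : Continuous ρ)
    (hp' : ∀ g, Tendsto (fun k => ρ g ^ p ^ k) atTop (𝓝 1)) (H : Subgroup G) [hH : H.Normal]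
    (hpow : ∀ x y : H, ∀ δ > 0, ∃ g ∈ Subgroup.closure (Set.range fun z : H => z ^ p),
      ‖ρ (⁅x, y⁆ : H) - ρ g‖ < δ) :
    ∃ (r : ℕ) (h : Fin r → G) (ξ : G → Fin r → ℤ_[p]) (𝒜 : G →* Matrix (Fin r) (Fin r) ℤ_[p]),
      Lat ρ lg H h ξ 𝒜 := by
  classical
  obtain ⟨r, b, b1, b2, b3⟩ := exists_int_basis (p := p) (S := lg '' H) (c := c) (by
    rintro _ ⟨g, -, rfl⟩
    exact (L.ap g _ le_rfl).2)
  choose h h1 h2 using b1
  obtain rfl : b = fun k => lg (h k) := funext fun k => (h2 k).symm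
  choose! ξ hξ using fun g (hg : g ∈ H) => b3 _ ⟨g, hg, rfl⟩
  simp only [← lin_apply] at hξ
  have act : ∀ g u, lin (fun k => lg (h k)) ((of fun k l => ξ (g * h l * g⁻¹) k) *ᵥ u) =
      ρ g * lin (fun k => lg (h k)) u * ρ g⁻¹ := fun g u => by
    rw [lin_mulVec, lin_apply _ u, Finset.mul_sum, Finset.sum_mul]
    exact Finset.sum_congr rfl fun l _ => by
      rw [mul_smul_comm, smul_mul_assoc, ← L.conj, ← hξ _ (hH.conj_mem _ (h1 l) g)]
      rfl
  refine ⟨r, h, ξ, ⟨⟨fun g => of fun k l => ξ (g * h l * g⁻¹) k, ext_iff_mulVec.mpr fun u =>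
    lin_inj b2 (by rw [act]; simp)⟩, fun g g' => ext_iff_mulVec.mpr fun u => lin_inj b2 ?_⟩, h1, b2, hξ,
    act, fun x hx y hy => ?_⟩
  · rw [← mulVec_mulVec, act, act, act, _root_.mul_inv_rev, map_mul, map_mul]
    simp only [mul_assoc]
  obtain ⟨_, ⟨z, rfl⟩, e⟩ := IsLog.add (ρ := ρ.comp H.subtype) (lg := fun g => lg g)
    ⟨L.le, fun g => L.ap g⟩ hp2 _ (lin_closed (p := p) fun k => lg (h k))
    (fun g => ⟨_, hξ g g.2⟩) (fun ε hε => by
      obtain ⟨K, _, k1, k2, k3, δ, k4, k5⟩ := exists_K hc hp' hε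
      haveI := Subgroup.quotient_finite_of_isOpen _ k1
      haveI : K.FiniteIndex := Subgroup.finiteIndex_of_finite_quotient
      refine ⟨K.subgroupOf H, inferInstance, inferInstance, isPGroup_of fun g => k2 g,
        fun g hg => k3 g hg, fun x y => ?_⟩
      obtain ⟨x, rfl⟩ := QuotientGroup.mk'_surjective _ x
      obtain ⟨y, rfl⟩ := QuotientGroup.mk'_surjective _ y
      obtain ⟨g, g1, g2⟩ := hpow x y δ k4
      rw [← map_commutatorElement, ← show QuotientGroup.mk' (K.subgroupOf H) g =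
        QuotientGroup.mk' (K.subgroupOf H) ⁅x, y⁆ from QuotientGroup.eq.mpr (k5 _ _ g2)]
      refine Subgroup.mem_comap.mp ((Subgroup.closure_le _).mpr ?_ g1)
      rintro _ ⟨z, rfl⟩
      exact Subgroup.subset_closure ⟨_, (map_pow _ z p).symm⟩) ⟨x, hx⟩ ⟨y, hy⟩
  rw [← hξ x hx, ← hξ y hy, ← lin_psmul, ← map_add, ← map_add] at e
  rw [lin_inj b2 ((hξ _ (mul_mem hx hy)).trans e)]
  ext k
  simp

end Pool.Agent.MP_f68ac8_nt
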