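import Mathlib
import Pool.Agent.MP_f68ac8_nt.Lie0
import Pool.Agent.MP_f68ac8_nt.Sys2

/-! The linking system with a derivation. -/

namespace Pool.Agent.MP_f68ac8_nt

open Matrix Polynomial

variable {ι κ : Type} [Fintype ι] [Fintype κ] [DecidableEq κ]

/-- structure constants `c`, a derivation `z`, a form `b`, spanning generators `x` -/
structure Sys3 {R : Type} [CommRing R] (f : ℤ[X]) (m : Matrix ι ι R) (t : κ × κ) (x : ι → κ → R)
    (c : κ → Matrix κ κ R) (z b : Matrix κ κ R) (s : κ → ι → R) : Prop where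
  anti : ∀ l k n, c l k n = - c n k l
  jac : ∀ l n, c l * c n - c n * c l = ∑ k, c l k n • c k
  der : ∀ l, z * c l - c l * z = ∑ k, z k l • c k
  rel : ∀ i, z *ᵥ x i + (∑ k, (∑ j, m i j * x j k) • c k) *ᵥ x i = x i
  span : ∀ l, ∑ i, s l i • x i = Pi.single l 1
  poly : aeval z f = 0
  skew : zᵀ * b + b * z = 0
  nz : b t.1 t.2 = 1

section

variable {R S : Type} [CommRing R] [CommRing S] {f : ℤ[X]} {m : Matrix ι ι R} {t : κ × κ}
  {x : ι → κ → R} {c : κ → Matrix κ κ R} {z b : Matrix κ κ R} {s : κ → ι → R}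

lemma rel_map_Sys3 (φ : R →+* S) (i : ι) (k : κ) :
    φ ((z *ᵥ x i + (∑ k, (∑ j, m i j * x j k) • c k) *ᵥ x i) k) =
      (φ.mapMatrix z *ᵥ (fun k => φ (x i k)) +
        (∑ k, (∑ j, m.map φ i j * φ (x j k)) • φ.mapMatrix (c k)) *ᵥ fun k => φ (x i k)) k := by
  simp [mulVec, dotProduct, Matrix.sum_apply]

omit [DecidableEq κ] [Fintype κ] in
lemma span_map_Sys3 (φ : R →+* S) (l k : κ) :
    φ ((∑ i, s l i • x i) k) = (∑ i, φ (s l i) • fun k => φ (x i k)) k := by
  simp [Finset.sum_apply]

omit [Fintype κ] in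
lemma single_map_Sys3 (φ : R →+* S) (l k : κ) :
    φ ((Pi.single l 1 : κ → R) k) = (Pi.single l 1 : κ → S) k := by
  simp [Pi.single_apply]

lemma poly_map_Sys3 (φ : R →+* S) : φ.mapMatrix (aeval z f) = aeval (φ.mapMatrix z) f :=
  (aeval_algHom_apply (φ.mapMatrix (m := κ)).toIntAlgHom z f).symm

lemma skew_map_Sys3 (φ : R →+* S) : φ.mapMatrix (zᵀ * b + b * z) =
    (φ.mapMatrix z)ᵀ * φ.mapMatrix b + φ.mapMatrix b * φ.mapMatrix z := by
  rw [map_add, map_mul, map_mul]
  rfl

lemma Sys3.map (h : Sys3 f m t x c z b s) (φ : R →+* S) :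
    Sys3 f (m.map φ) t (fun i k => φ (x i k)) (fun l => φ.mapMatrix (c l)) (φ.mapMatrix z)
      (φ.mapMatrix b) (fun l i => φ (s l i)) where
  anti l k n := by
    have := congrArg φ (h.anti l k n)
    rwa [map_neg] at this
  jac l n := by
    have := congrArg φ.mapMatrix (h.jac l n)
    rwa [map_sub, map_mul, map_mul, map_lc] at this
  der l := by
    have := congrArg φ.mapMatrix (h.der l)
    rwa [map_sub, map_mul, map_mul, map_lc] at this
  rel i := funext fun k => by rw [← rel_map_Sys3, h.rel]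
  span l := funext fun k => by rw [← span_map_Sys3, h.span, single_map_Sys3]
  poly := by rw [← poly_map_Sys3, h.poly, map_zero]
  skew := by rw [← skew_map_Sys3, h.skew, map_zero]
  nz := by
    have := congrArg φ h.nz
    rwa [map_one] at this

lemma Sys3.of_map {α : Type} {S : α → Type} [∀ a, CommRing (S a)] (φ : ∀ a, R →+* S a)
    (hφ : ∀ r r', (∀ a, φ a r = φ a r') → r = r')
    (h : ∀ a, Sys3 f (m.map (φ a)) t (fun i k => φ a (x i k)) (fun l => (φ a).mapMatrix (c l))
      ((φ a).mapMatrix z) ((φ a).mapMatrix b) (fun l i => φ a (s l i))) :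
    Sys3 f m t x c z b s := by
  have hM : ∀ M N : Matrix κ κ R, (∀ a, (φ a).mapMatrix M = (φ a).mapMatrix N) → M = N := by
    intro M N H
    ext i j
    exact hφ _ _ fun a => congrFun (congrFun (H a) i) j
  refine ⟨fun l k n => hφ _ _ fun a => ?_, fun l n => hM _ _ fun a => ?_,
    fun l => hM _ _ fun a => ?_, fun i => funext fun k => hφ _ _ fun a => ?_,
    fun l => funext fun k => hφ _ _ fun a => ?_, hM _ _ fun a => ?_, hM _ _ fun a => ?_,
    hφ _ _ fun a => ?_⟩
  · rw [map_neg]
    exact (h a).anti l k n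
  · rw [map_sub, map_mul, map_mul, map_lc]
    exact (h a).jac l n
  · rw [map_sub, map_mul, map_mul, map_lc]
    exact (h a).der l
  · rw [rel_map_Sys3, (h a).rel]
  · rw [span_map_Sys3, (h a).span, single_map_Sys3]
  · rw [poly_map_Sys3, (h a).poly, map_zero]
  · rw [skew_map_Sys3, (h a).skew, map_zero]
  · rw [map_one]
    exact (h a).nz

lemma Sys3.span_top (h : Sys3 f m t x c z b s) : Submodule.span R (Set.range x) = ⊤ := by
  rw [eq_top_iff, ← (Pi.basisFun R κ).span_eq, Submodule.span_le]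
  rintro _ ⟨l, rfl⟩
  rw [Pi.basisFun_apply, ← h.span]
  exact (Submodule.mem_span_range_iff_exists_fun R).mpr ⟨_, rfl⟩

end

/-- the Lie algebra given by a bilinear bracket on an abstract module -/
lemma not_indep_abs_Sys3 {F : Type} [Field F] [CharZero F] [IsAlgClosed F] {m : Matrix ι ι F}
    {V : Type} [AddCommGroup V] [Module F V] [Module.Finite F V] (B : V →ₗ[F] V →ₗ[F] V)
    (h1 : ∀ u v, B u v = - B v u) (h2 : ∀ u v w, B u (B v w) = B (B u v) w + B v (B u w))
    (ζ : V →ₗ[F] V) (h3 : ∀ u v, ζ (B u v) = B u (ζ v) + B (ζ u) v) {x : ι → V}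
    (hx : Submodule.span F (Set.range x) = ⊤)
    (hr : ∀ i, ζ (x i) + B (∑ j, m i j • x j) (x i) = x i) {f : F[X]} (hf : f.Separable)
    (hf' : ∀ D : Derivation ℤ F F, ∀ k, D (f.coeff k) = 0) (h0 : aeval ζ f = 0)
    (β : V →ₗ[F] V →ₗ[F] F) (hβ : β ≠ 0) (hs : ∀ u v, β (ζ u) v + β u (ζ v) = 0) :
    ¬ AlgebraicIndependent ℤ fun s : ι × ι => m s.1 s.2 := by
  let _ : LieRing V :=
    { bracket := fun u v => B u v
      add_lie := fun u v w => LinearMap.map_add₂ B u v w
      lie_add := fun u v w => map_add (B u) v w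
      lie_self := fun u => by
        have h : (2 : F) • B u u = 0 := by
          rw [two_smul]
          exact add_eq_zero_iff_eq_neg.mpr (h1 u u)
        exact (smul_eq_zero.mp h).resolve_left two_ne_zero
      leibniz_lie := h2 }
  let _ : LieAlgebra F V := { lie_smul := fun a u v => map_smul (B u) a v }
  let δ : LieDerivation F V V :=
    { ζ with
      leibniz' := fun u v => by
        change ζ (B u v) = B u (ζ v) - B v (ζ u)
        rw [h3, h1 (ζ u), sub_eq_add_neg] }
  exact lie3_not_indep hx δ hr hf hf' h0 β hβ hs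

theorem Sys3.not_indep {F : Type} [Field F] {f : ℤ[X]} (hf : (f.map (algebraMap ℤ ℚ)).Separable)
    {m : Matrix ι ι F} {t : κ × κ} {x : ι → κ → F} {c : κ → Matrix κ κ F} {z b : Matrix κ κ F}
    {s : κ → ι → F} (h : Sys3 f m t x c z b s) :
    ¬ AlgebraicIndependent ℤ fun s : ι × ι => m s.1 s.2 := by
  intro hm
  have : CharZero F := RingHom.charZero_iff hm.algebraMap_injective |>.mp inferInstance
  wlog hF : IsAlgClosed F generalizing F
  · let φ := algebraMap F (AlgebraicClosure F)
    exact this (h.map φ) (hm.map' (f := φ.toIntAlgHom) φ.injective) inferInstance inferInstance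
  let A : (κ → F) →ₗ[F] Matrix κ κ F := Fintype.linearCombination F c
  have hA : ∀ u, A u = ∑ l, u l • c l := fun u => rfl
  have hA1 : ∀ l a, A (Pi.single l a) = a • c l := fun l a =>
    Fintype.linearCombination_apply_single F c l a
  let B : (κ → F) →ₗ[F] (κ → F) →ₗ[F] κ → F := Matrix.toLin'.toLinearMap ∘ₗ A
  have hB : ∀ u v, B u v = A u *ᵥ v := fun u v => rfl
  have e1 : ∀ u v, A (A u *ᵥ v) = A u * A v - A v * A u := by
    intro u v
    induction u using Pi.single_induction with
    | zero => simp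
    | add u u' hu hu' =>
      simp only [map_add, add_mulVec, hu, hu', add_mul, mul_add]
      abel
    | single l a =>
      induction v using Pi.single_induction with
      | zero => simp
      | add v v' hv hv' =>
        simp only [map_add, mulVec_add, hv, hv', add_mul, mul_add]
        abel
      | single n a' =>
        rw [hA1, hA1, smul_mul_smul, smul_mul_smul, mul_comm a' a, ← smul_sub, h.jac, hA,
          Finset.smul_sum]
        refine Finset.sum_congr rfl fun k _ => ?_
        rw [smul_smul]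
        congr 1
        simp [mulVec_single]
        ring
  have e2 : ∀ u, A (z *ᵥ u) = z * A u - A u * z := by
    intro u
    induction u using Pi.single_induction with
    | zero => simp
    | add u u' hu hu' =>
      simp only [map_add, mulVec_add, hu, hu', add_mul, mul_add]
      abel
    | single l a =>
      rw [hA1, mul_smul_comm, smul_mul_assoc, ← smul_sub, h.der, hA, Finset.smul_sum]
      refine Finset.sum_congr rfl fun k _ => ?_
      rw [smul_smul]
      congr 1
      simp [mulVec_single]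
      ring
  refine not_indep_abs_Sys3 B (fun u v => ?_) (fun u v w => ?_) (Matrix.toLin' z)
    (fun u v => ?_) h.span_top (fun i => ?_) (f := f.map (algebraMap ℤ F)) ?_ (fun D k => ?_) ?_
    (Matrix.toBilin' b) (fun e => ?_) (fun u v => ?_) hm
  · ext k
    simp only [hB, hA, mulVec, dotProduct, Matrix.sum_apply, Matrix.smul_apply, Pi.neg_apply,
      Finset.sum_mul, smul_eq_mul]
    rw [Finset.sum_comm, ← Finset.sum_neg_distrib]
    refine Finset.sum_congr rfl fun l _ => ?_
    rw [← Finset.sum_neg_distrib]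
    refine Finset.sum_congr rfl fun n _ => ?_
    rw [h.anti]
    ring
  · simp only [hB, e1, mulVec_mulVec, sub_mulVec, sub_add_cancel]
  · simp only [hB, toLin'_apply, e2, mulVec_mulVec, sub_mulVec, add_sub_cancel]
  · rw [hB, hA, toLin'_apply]
    simpa only [Finset.sum_apply, Pi.smul_apply, smul_eq_mul] using h.rel i
  · have := hf.map (f := algebraMap ℚ F)
    rwa [Polynomial.map_map, ← IsScalarTower.algebraMap_eq] at this
  · rw [coeff_map, eq_intCast, D.map_intCast]
  · have := aeval_algHom_apply (Matrix.toLinAlgEquiv' (R := F) (n := κ)) z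
      (f.map (algebraMap ℤ F))
    rw [aeval_map_algebraMap F z, h.poly, map_zero] at this
    exact this
  · have e' : b = 0 := (LinearEquiv.map_eq_zero_iff _).mp e
    simpa [e'] using h.nz
  · rw [toBilin'_apply', toBilin'_apply', toLin'_apply, toLin'_apply, ← vecMul_transpose,
      ← dotProduct_mulVec, mulVec_mulVec, mulVec_mulVec, ← dotProduct_add, ← add_mulVec, h.skew]
    simp

theorem exists_poly3 (ι : Type) [Fintype ι] {f : ℤ[X]} (hf : (f.map (algebraMap ℤ ℚ)).Separable) :
    ∃ P : MvPolynomial (ι × ι) ℤ, P ≠ 0 ∧ ∀ (p r : ℕ) [Fact p.Prime] (m : Matrix ι ι (ZMod p))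
      (t : Fin r × Fin r) x c z b s, Sys3 f m t x c z b s →
        MvPolynomial.aeval (fun s : ι × ι => m s.1 s.2) P = 0 := by
  have : ∀ (r : ℕ) (t : Fin r × Fin r), ∃ P : MvPolynomial (ι × ι) ℤ, P ≠ 0 ∧
      ∀ (p : ℕ) (m : Matrix ι ι (ZMod p)) x c z b s, Sys3 f m t x c z b s →
        MvPolynomial.aeval (fun s : ι × ι => m s.1 s.2) P = 0 := by
    intro r t
    let α := Σ p : ℕ, {u : Matrix ι ι (ZMod p) × (ι → Fin r → ZMod p) ×
      (Fin r → Matrix (Fin r) (Fin r) (ZMod p)) × Matrix (Fin r) (Fin r) (ZMod p) ×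
      Matrix (Fin r) (Fin r) (ZMod p) × (Fin r → ι → ZMod p) //
        Sys3 f u.1 t u.2.1 u.2.2.1 u.2.2.2.1 u.2.2.2.2.1 u.2.2.2.2.2}
    obtain ⟨P, h1, h2⟩ := exists_poly_gen (fun a : α => ZMod a.1)
      (fun (s : ι × ι) a => a.2.1.1 s.1 s.2) fun F _ φ =>
        ((Sys3.of_map (m := Matrix.of fun i j (a : α) => a.2.1.1 i j)
          (x := fun i k a => a.2.1.2.1 i k)
          (c := fun l => Matrix.of fun k n a => a.2.1.2.2.1 l k n)
          (z := Matrix.of fun k n a => a.2.1.2.2.2.1 k n)
          (b := Matrix.of fun k n a => a.2.1.2.2.2.2.1 k n)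
          (s := fun l i a => a.2.1.2.2.2.2.2 l i)
          (fun a => Pi.evalRingHom (fun a : α => ZMod a.1) a) (fun r r' H => funext H)
          fun a => a.2.2).map φ).not_indep hf
    exact ⟨P, h1, fun p m x c z b s h => h2 ⟨p, ⟨m, x, c, z, b, s⟩, h⟩⟩
  choose P h1 h2 using this
  refine ⟨∏ r ∈ Finset.range (Fintype.card ι + 1), ∏ t, P r t, Finset.prod_ne_zero_iff.mpr
    fun r _ => Finset.prod_ne_zero_iff.mpr fun t _ => h1 r t, fun p r _ m t x c z b s h => ?_⟩
  have hr : r ≤ Fintype.card ι := by simpa using finrank_le_of_span_eq_top h.span_top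
  rw [map_prod]
  refine Finset.prod_eq_zero (Finset.mem_range.mpr (Nat.lt_succ_of_le hr)) ?_
  rw [map_prod]
  exact Finset.prod_eq_zero (Finset.mem_univ t) (h2 r t p m x c z b s h)

end Pool.Agent.MP_f68ac8_nt
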