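import Mathlib
import Pool.Agent.MP_f68ac8_nt.Lat2
import Pool.Agent.MP_f68ac8_nt.Sys3

/-! From the Lie lattice to the linking system. -/

namespace Pool.Agent.MP_f68ac8_nt

open Filter Matrix PadicInt Polynomial
open scoped Topology

variable {p : ℕ} [hp : Fact p.Prime]

lemma eq_top_of_add {Γ : Type} [Group Γ] [Finite Γ] (hΓ : IsPGroup p Γ) (Q : Subgroup Γ)
    (h : ∀ f : Γ → ZMod p, (∀ x y, f (x * y) = f x + f y) → (∀ g ∈ Q, f g = 0) → ∀ g, f g = 0) :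
    Q = ⊤ := by
  obtain ⟨a, ha⟩ := IsPGroup.iff_card.mp hΓ
  obtain ⟨b, hb⟩ := IsPGroup.iff_card.mp (hΓ.to_subgroup Q)
  by_contra hn
  have h1 : b < a := (Nat.pow_lt_pow_iff_right hp.out.one_lt).mp (by
    rw [← ha, ← hb]
    exact (Subgroup.card_le_card_group Q).lt_of_ne fun e => hn (Subgroup.eq_top_of_card_eq Q e))
  obtain ⟨a, rfl⟩ := Nat.exists_eq_add_of_lt h1
  obtain ⟨M, m1, m2⟩ := Sylow.exists_subgroup_card_pow_prime_le p (m := b + a)
    (ha ▸ pow_dvd_pow p (Nat.le_succ _)) Q hb (Nat.le_add_right _ _)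
  have h2 : M.index = p := by
    have := M.card_mul_index
    rw [m1, ha, pow_succ] at this
    exact mul_left_cancel₀ (pow_ne_zero _ hp.out.ne_zero) this
  haveI := Subgroup.normal_of_index_eq_minFac_card (H := M)
    (by rw [h2, ha, hp.out.pow_minFac (Nat.succ_ne_zero _)])
  let φ := mulEquivOfPrimeCardEq (G := Γ ⧸ M) (G' := Multiplicative (ZMod p)) h2 (by simp)
  obtain ⟨g, hg⟩ := QuotientGroup.mk'_surjective M (φ.symm (Multiplicative.ofAdd 1))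
  have := h (fun g => (φ (QuotientGroup.mk' M g)).toAdd) (fun x y => by simp)
    (fun g hg => by rw [show QuotientGroup.mk' M g = 1 from (QuotientGroup.eq_one_iff g).mpr (m2 hg)]; simp) g
  simp [hg] at this

variable {A : Type} [NormedRing A] [IsUltrametricDist A] [NormOneClass A] [NormedAlgebra ℚ_[p] A]
  {G : Type} [Group G] {ρ : G →* A} {lg : G → A} {c₀ : ℝ} {k₀ : ℕ}

omit [NormOneClass A] in
lemma IsLog.congr (L : IsLog p ρ lg c₀ k₀) {g g' : G} (h : ρ g = ρ g') : lg g = lg g' :=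
  L.eq fun k hk => h ▸ (L.ap g' k hk).1

lemma IsLog.norm_le [CompleteSpace A] (L : IsLog p ρ lg c₀ k₀) (hp2 : p ≠ 2) {g : G}
    (h : ‖ρ g - 1‖ ≤ (p : ℝ)⁻¹) : ‖lg g‖ ≤ ‖ρ g - 1‖ := by
  rw [← sub_sub_cancel (ρ g - 1) (lg g)]
  exact ule_sub le_rfl ((L.small hp2 h).trans
    (pow_le_of_le_one (norm_nonneg _) (h.trans pinv_lt.le) two_ne_zero))

variable [TopologicalSpace G] {ι : Type} [Fintype ι]

/-- the group theoretic input -/
structure Hyp3 (ρ : G →* A) (e : G →* ℚ_[p]) (H : Subgroup G) (τ σ : ι → G) (t : G) (c : ι → ℕ)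
    (m : Matrix ι ι (ZMod p)) (χ : ι → G → ZMod p) (ψ : G → ZMod p) : Prop where
  cont : Continuous ρ
  pro : ∀ g, Tendsto (fun k => ρ g ^ p ^ k) atTop (𝓝 1)
  econt : Continuous e
  epro : ∀ g, Tendsto (fun k => e g ^ p ^ k) atTop (𝓝 1)
  eH : ∀ g ∈ H, e g = 1
  et : ∀ k, e t ^ p ^ k ≠ 1
  mem : ∀ i, τ i ∈ H
  rel : ∀ i, ρ (σ i * τ i * (σ i)⁻¹) = ρ (τ i ^ (p * c i + 1))
  add : ∀ (V : Type) [AddCommGroup V] [Module (ZMod p) V] (x : G → V),
    (∀ g h, x (g * h) = x g + x h) → {g | x g = 0} ∈ 𝓝 1 →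
    (∀ g, ρ g = 1 → e g = 1 → x g = 0) → ∀ g, x g = ψ g • x t + ∑ j, χ j g • x (τ j)
  cne : ∀ i, (c i : ZMod p) ≠ 0
  link : ∀ i j, i ≠ j → χ j (σ i) = c i * m i j
  linkp : ∀ i, ψ (σ i) = c i
  psit : ψ t = 1

variable {e : G →* ℚ_[p]} {H : Subgroup G} {τ σ : ι → G} {t : G} {c : ι → ℕ}
  {m : Matrix ι ι (ZMod p)} {χ : ι → G → ZMod p} {ψ : G → ZMod p}
  [CompactSpace G] [IsTopologicalGroup G]

omit [IsUltrametricDist A] [NormOneClass A] [NormedAlgebra ℚ_[p] A] in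
lemma Hyp3.gen (Y : Hyp3 ρ e H τ σ t c m χ ψ) {K : Subgroup G} [K.Normal]
    (k1 : IsOpen (K : Set G)) (k2 : ∀ g, ∃ k, g ^ p ^ k ∈ K) (k3 : ∀ g, ρ g = 1 → e g = 1 → g ∈ K)
    {Q : Subgroup G} (h1 : K ≤ Q) (h2 : ∀ j, τ j ∈ Q) {s : G} (h3 : s ∈ Q) (h4 : ψ s ≠ 0) :
    Q = ⊤ := by
  haveI := Subgroup.quotient_finite_of_isOpen _ k1
  have h5 := eq_top_of_add (isPGroup_of k2) (Q.map (QuotientGroup.mk' K)) fun f f1 f2 g => by
    have f3 : ∀ g ∈ Q, f g = 0 := fun g hg => f2 _ ⟨g, hg, rfl⟩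
    have f4 := Y.add _ (fun g => f g) (fun g h => f1 g h)
      (mem_of_superset (k1.mem_nhds K.one_mem) fun g hg => f3 g (h1 hg))
      fun g a b => f3 g (h1 (k3 g a b))
    simp only [f3 _ (h2 _), smul_zero, Finset.sum_const_zero, add_zero] at f4
    obtain ⟨g, rfl⟩ := QuotientGroup.mk_surjective g
    rw [f4, (smul_eq_zero.mp ((f4 s).symm.trans (f3 s h3))).resolve_left h4, smul_zero]
  rw [← Subgroup.comap_map_eq_self (f := QuotientGroup.mk' K) (H := Q) (by rwa [QuotientGroup.ker_mk']), h5,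
    Subgroup.comap_top]

variable {κ : Type} [Fintype κ] [DecidableEq κ] {h : κ → G} {ξ : G → κ → ℤ_[p]}
  {𝒜 : G →* Matrix κ κ ℤ_[p]} [hH : H.Normal] [CompleteSpace A]

omit [IsUltrametricDist A] [NormOneClass A] [TopologicalSpace G] [CompactSpace G]
  [IsTopologicalGroup G] hH [CompleteSpace A] in
lemma Lat.eq (T : Lat ρ lg H h ξ 𝒜) {g : G} (hg : g ∈ H) {u : κ → ℤ_[p]}
    (e : lg g = lin (fun k => lg (h k)) u) : ξ g = u := lin_inj T.ind ((T.xi g hg).trans e)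

omit [NormOneClass A] [CompactSpace G] [IsTopologicalGroup G] [CompleteSpace A] hH in
lemma Hyp3.frob (Y : Hyp3 ρ e H τ σ t c m χ ψ) (L : IsLog p ρ lg c₀ k₀) (T : Lat ρ lg H h ξ 𝒜)
    (i : ι) : 𝒜 (σ i) *ᵥ ξ (τ i) = ξ (τ i) + (p : ℤ_[p]) • (c i : ℤ_[p]) • ξ (τ i) :=
  lin_inj T.ind (by
    rw [T.act, map_add, lin_smul, lin_smul, T.xi _ (Y.mem i), ← L.conj, L.congr (Y.rel i), L.pow]
    simp [add_smul, mul_smul, add_comm])

theorem Hyp3.span (Y : Hyp3 ρ e H τ σ t c m χ ψ) (hp2 : p ≠ 2) (L : IsLog p ρ lg c₀ k₀)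
    (T : Lat ρ lg H h ξ 𝒜) : (∀ g, (𝒜 g).map toZMod = 1) ∧
      Submodule.span (ZMod p) (Set.range fun i => toZMod ∘ ξ (τ i)) = ⊤ := by
  obtain ⟨ε, ε0, hε⟩ := lin_small T.ind
  obtain ⟨K, _, k1, k2, k3, δ, k4, k5⟩ := exists_K Y.cont Y.pro (lt_min ε0 (pinv_pos (p := p)))
  obtain ⟨a, ha⟩ := exists_unif_pow k1 k2
  obtain ⟨K', _, l1, l2, l3, δ', l4, l5⟩ := exists_K Y.econt Y.epro
    (norm_pos_iff.mpr (sub_ne_zero.mpr (Y.et a)))
  have hK : ∀ g ∈ H, g ∈ K → toZMod ∘ ξ g = 0 := fun g a b => funext (hε _ (by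
    rw [T.xi g a]
    exact (L.norm_le hp2 ((k3 g b).le.trans (min_le_right _ _))).trans_lt
      ((k3 g b).trans_le (min_le_left _ _))))
  have hK' : ∀ g, e g = 1 → g ∈ K' := fun g hg => by simpa using l5 1 g (by simpa [hg] using l4)
  have gen := fun Q => Y.gen (K := K ⊓ K') (Q := Q) (k1.inter l1) (fun g => by
    obtain ⟨k, hk⟩ := l2 g
    refine ⟨a + k, ?_, ?_⟩
    · rw [pow_add, pow_mul]
      exact pow_mem (ha g) _
    · rw [pow_add, mul_comm, pow_mul]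
      exact pow_mem hk _) fun g a b => ⟨by simpa using k5 1 g (by simpa [a] using k4), hK' g b⟩
  have conj : ∀ g, ∀ y ∈ H, toZMod ∘ ξ (g * y * g⁻¹) = (𝒜 g).map toZMod *ᵥ (toZMod ∘ ξ y) :=
    fun g y hy => by
      rw [T.eq (hH.conj_mem y hy g) (by rw [L.conj, T.act, T.xi y hy])]
      exact funext fun k => RingHom.map_mulVec _ _ _ _
  have one : toZMod ∘ ξ 1 = 0 := hK 1 H.one_mem K.one_mem
  have inv : ∀ y ∈ H, toZMod ∘ ξ y⁻¹ = -(toZMod ∘ ξ y) := fun y hy => by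
    rw [eq_neg_iff_add_eq_zero, ← T.add _ (inv_mem hy) _ hy, inv_mul_cancel, one]
  have fix : ∀ j g, (𝒜 g).map toZMod *ᵥ (toZMod ∘ ξ (τ j)) = toZMod ∘ ξ (τ j) := fun j g => by
    let Q : Subgroup G :=
      { carrier := {g | (𝒜 g).map toZMod *ᵥ (toZMod ∘ ξ (τ j)) = toZMod ∘ ξ (τ j)}
        one_mem' := by simp
        mul_mem' := fun {x y} hx hy => by
          rw [Set.mem_ofPred, map_mul, Matrix.map_mul, ← mulVec_mulVec, hy, hx]
        inv_mem' := fun {x} hx => by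
          rw [Set.mem_ofPred, ← hx, mulVec_mulVec, ← Matrix.map_mul, ← map_mul, inv_mul_cancel, hx]
          simp }
    refine (gen Q (fun g hg => ?_) (fun i => ?_) (s := σ j) ?_ (Y.linkp j ▸ Y.cne j)).ge trivial
    · have h1 := hH.conj_mem _ (Y.mem j) g
      have h2 : (τ j)⁻¹ * (g * τ j * g⁻¹) ∈ K := by
        rw [← mul_assoc, ← mul_assoc]
        exact mul_mem (‹K.Normal›.conj_mem' _ hg.1 _) (inv_mem hg.1)
      have := hK _ (mul_mem (inv_mem (Y.mem j)) h1) h2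
      rw [T.add _ (inv_mem (Y.mem j)) _ h1, inv _ (Y.mem j), neg_add_eq_zero, conj _ _ (Y.mem j)] at this
      exact this.symm
    · change _ = _
      rw [← conj _ _ (Y.mem j), T.add _ (mul_mem (Y.mem i) (Y.mem j)) _ (inv_mem (Y.mem i)),
        T.add _ (Y.mem i) _ (Y.mem j), inv _ (Y.mem i), add_neg_cancel_comm]
    · ext k
      rw [← RingHom.map_mulVec, Y.frob L T]
      simp
  generalize hV : Submodule.span (ZMod p) (Set.range fun i => toZMod ∘ ξ (τ i)) = V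
  have fix' : ∀ g, ∀ v ∈ V, (𝒜 g).map toZMod *ᵥ v = v := fun g v hv =>
    LinearMap.eqOn_span' (f := mulVecLin ((𝒜 g).map toZMod)) (g := LinearMap.id)
      (by rintro _ ⟨j, rfl⟩; exact fix j g) (hV.ge hv)
  let N : Subgroup G :=
    { carrier := {g | g ∈ H ∧ toZMod ∘ ξ g ∈ V}
      one_mem' := ⟨H.one_mem, one ▸ V.zero_mem⟩
      mul_mem' := fun {x y} hx hy => ⟨mul_mem hx.1 hy.1, T.add _ hx.1 _ hy.1 ▸ add_mem hx.2 hy.2⟩
      inv_mem' := fun {x} hx => ⟨inv_mem hx.1, inv _ hx.1 ▸ neg_mem hx.2⟩ }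
  haveI : N.Normal := ⟨fun y hy g => ⟨hH.conj_mem _ hy.1 g, by
    rw [conj _ _ hy.1, fix' _ _ hy.2]
    exact hy.2⟩⟩
  have top := gen (N ⊔ (K ⊓ K' ⊔ Subgroup.zpowers t)) (le_sup_of_le_right le_sup_left)
    (fun j => Subgroup.mem_sup_left ⟨Y.mem j, hV.le (Submodule.subset_span ⟨j, rfl⟩)⟩)
    (Subgroup.mem_sup_right (Subgroup.mem_sup_right (Subgroup.mem_zpowers t)))
    (Y.psit ▸ one_ne_zero)
  have all : ∀ y ∈ H, toZMod ∘ ξ y ∈ V := fun y hy => by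
    obtain ⟨n, hn, z, hz, rfl⟩ := Subgroup.mem_sup_of_normal_left.mp (top.ge (Subgroup.mem_top y))
    have hz' := (mul_mem_cancel_left hn.1).mp hy
    obtain ⟨k, hk, _, ⟨i, rfl⟩, rfl⟩ := Subgroup.mem_sup_of_normal_left.mp hz
    rw [T.add _ hn.1 _ hz', hK _ hz' (mul_mem hk.1 ?_), add_zero]
    · exact hn.2
    have h1 := (mul_mem_cancel_left (show k ∈ K' from hk.2)).mp (hK' _ (Y.eH _ hz'))
    obtain ⟨f, hf⟩ := (IsPGroup.iff_orderOf.mp (isPGroup_of l2)) (t : G ⧸ K')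
    have h2 : p ^ a ∣ p ^ f := pow_dvd_pow p (le_of_not_gt fun h => by
      have : t ^ p ^ a ∈ K' := (QuotientGroup.eq_one_iff _).mp (by
        rw [QuotientGroup.mk_pow, ← orderOf_dvd_iff_pow_eq_one, hf]
        exact pow_dvd_pow p h.le)
      simpa using l3 _ this)
    have h3 : ((p ^ f : ℕ) : ℤ) ∣ i := by
      rw [← hf, orderOf_dvd_iff_zpow_eq_one, ← QuotientGroup.mk_zpow, QuotientGroup.eq_one_iff]
      exact h1
    obtain ⟨j, rfl⟩ := (Int.natCast_dvd_natCast.mpr h2).trans h3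
    dsimp only
    rw [_root_.zpow_mul, zpow_natCast]
    exact zpow_mem (ha t) j
  have hs : ∀ k, Pi.single k 1 ∈ V := fun k => by
    have := all _ (T.mem k)
    rw [T.eq (T.mem k) (lin_single (fun k => lg (h k)) k).symm] at this
    convert this using 1
    ext l
    simp [Pi.single_apply]
  have : V = ⊤ := by
    rw [eq_top_iff, ← (Pi.basisFun (ZMod p) κ).span_eq, Submodule.span_le]
    rintro _ ⟨k, rfl⟩
    simpa using hs k
  exact ⟨fun g => ext_iff_mulVec.mpr fun v => by rw [fix' g v (this ▸ trivial), one_mulVec], this⟩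

theorem Hyp3.rep (Y : Hyp3 ρ e H τ σ t c m χ ψ) (hp2 : p ≠ 2) (L : IsLog p ρ lg c₀ k₀)
    (T : Lat ρ lg H h ξ 𝒜) : ∃ Θ D : G → Matrix κ κ ℤ_[p], (∀ g, 𝒜 g = 1 + (p : ℤ_[p]) • Θ g) ∧
      (∀ g, Rep (fun k => lg (h k)) (lg g) (D g)) ∧ ∀ g, (D g).map toZMod = (Θ g).map toZMod := by
  have : ∀ g i j, ∃ y, (𝒜 g - 1) i j = (p : ℤ_[p]) * y := fun g i j => by
    rw [← dvd_def, ← Ideal.mem_span_singleton, ← maximalIdeal_eq_span_p, ← ker_toZMod,
      RingHom.mem_ker, Matrix.sub_apply, map_sub, sub_eq_zero]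
    simpa [one_apply] using congrFun (congrFun ((Y.span hp2 L T).1 g) i) j
  choose Θ hΘ using this
  have h1 : ∀ g, 𝒜 g = 1 + (p : ℤ_[p]) • of (Θ g) := fun g =>
    eq_add_of_sub_eq' (Matrix.ext (hΘ g))
  choose D h2 h3 using fun g => L.rep hp2 T.act (h1 g)
  exact ⟨_, D, h1, h2, h3⟩

theorem Hyp3.sys (Y : Hyp3 ρ e H τ σ t c m χ ψ) (hp2 : p ≠ 2) (L : IsLog p ρ lg c₀ k₀)
    (T : Lat ρ lg H h ξ 𝒜) (tr : A →ₗ[ℚ_[p]] ℚ_[p]) (htr : ∀ x y, tr (x * y) = tr (y * x))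
    (h0 : ∃ l n, tr (lg (h l) * lg (h n)) ≠ 0) {f : ℤ[X]}
    (hf : ∀ Θ : G → Matrix κ κ ℤ_[p], (∀ g, 𝒜 g = 1 + (p : ℤ_[p]) • Θ g) →
      aeval ((Θ t).map toZMod) f = 0) : ∃ t x c z b s, Sys3 (κ := κ) f m t x c z b s := by
  obtain ⟨Θ, D, h1, h2, h3⟩ := Y.rep hp2 L T
  obtain ⟨β, t₀, b1, b2⟩ := (h2 t).skew tr htr h0
  have h4 := fun l => (Submodule.mem_span_range_iff_exists_fun _).mp
    ((Y.span hp2 L T).2.ge (Submodule.mem_top (x := Pi.single l 1)))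
  choose s hs using h4
  have jac : ∀ g n, (D g).map toZMod * (D (h n)).map toZMod - (D (h n)).map toZMod *
      (D g).map toZMod = ∑ k, (D g).map toZMod k n • (D (h k)).map toZMod := fun g n => by
    have := congrArg (toZMod (p := p)).mapMatrix ((h2 g).jac T.ind (fun k => h2 (h k)) n)
    rw [map_sub, map_mul, map_mul, map_sum] at this
    exact this.trans (Finset.sum_congr rfl fun k _ => by ext; simp)
  have p0 : (p : ℤ_[p]) ≠ 0 := Nat.cast_ne_zero.mpr hp.out.ne_zero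
  refine ⟨t₀, fun i => toZMod ∘ ξ (τ i), fun l => (D (h l)).map toZMod, (D t).map toZMod,
    β.map toZMod, s, fun l k n => ?_, fun l => jac _, jac _, fun i => ?_, hs, h3 t ▸ hf Θ h1, ?_, ?_⟩
  · rw [map_apply, Rep.anti T.ind fun k => h2 (h k), map_neg, map_apply]
  rotate_left
  · have := congrArg (toZMod (p := p)).mapMatrix b1
    rwa [map_add, map_mul, map_mul, map_zero] at this
  · simp [b2]
  obtain ⟨ε, ε0, hε⟩ := lin_small T.ind
  obtain ⟨B, B0, hB⟩ :=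
    (isCompact_range (lin_cont (p := p) fun k => lg (h k))).isBounded.exists_pos_norm_le
  have q0 := pinv_pos (p := p)
  have h5 : ∀ g, ‖ρ g - 1‖ < min (p : ℝ)⁻¹ ((p : ℝ)⁻¹ * ε / B) → (D g).map toZMod = 0 :=
    fun g hg => by
      have a1 := (L.norm_le hp2 (hg.le.trans (min_le_left _ _))).trans_lt
        (hg.trans_le (min_le_right _ _))
      ext k l
      refine hε (fun k => D g k l) ?_ k
      rw [← mul_lt_mul_iff_right₀ q0, ← Padic.norm_p, ← norm_smul, ← (h2 g).basis, Padic.norm_p,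
        ← lin_single (p := p) (fun k => lg (h k)) l]
      rw [lt_div_iff₀ B0] at a1
      exact (ule_sub (ule_mul le_rfl (hB _ ⟨_, rfl⟩))
        ((ule_mul (hB _ ⟨_, rfl⟩) le_rfl).trans_eq (mul_comm _ _))).trans_lt a1
  have h6 := Y.add _ (fun g => (D g).map toZMod) (fun g g' => by
    have := map_mul 𝒜 g g'
    rw [h1, h1, h1, mul_add, mul_one, add_mul, one_mul, add_assoc, add_right_inj, smul_mul_assoc,
      ← smul_add, ← smul_add, mul_smul_comm] at this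
    rw [h3, h3, h3, smul_right_injective _ p0 this]
    ext
    simp) (by
      filter_upwards [Y.cont.continuousAt.eventually (Metric.ball_mem_nhds _
        (show 0 < min (p : ℝ)⁻¹ ((p : ℝ)⁻¹ * ε / B) by positivity))] with g hg
      exact h5 g (by rwa [← map_one ρ, ← dist_eq_norm]))
    (fun g a _ => h5 g (by rw [a, sub_self, norm_zero]; positivity)) (σ i)
  have h7 : ∀ j, (D (τ j)).map toZMod = ∑ k, toZMod (ξ (τ j) k) • (D (h k)).map toZMod := fun j => by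
    rw [(h2 _).unique T.ind (T.xi _ (Y.mem j) ▸ Rep.sum (fun k => h2 (h k)) (ξ (τ j)))]
    ext
    simp [Matrix.sum_apply]
  have h8 : (D (τ i)).map toZMod *ᵥ (toZMod ∘ ξ (τ i)) = 0 := by
    have := h2 (τ i) (ξ (τ i))
    rw [T.xi _ (Y.mem i), sub_self, eq_comm, smul_eq_zero_iff_right p_ne,
      map_eq_zero_iff _ (lin_inj T.ind)] at this
    ext k
    rw [← RingHom.map_mulVec, this]
    simp
  have h9 : (D (σ i)).map toZMod *ᵥ (toZMod ∘ ξ (τ i)) = (c i : ZMod p) • (toZMod ∘ ξ (τ i)) := by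
    have := Y.frob L T i
    rw [h1, add_mulVec, one_mulVec, add_right_inj, smul_mulVec] at this
    ext k
    rw [h3, ← RingHom.map_mulVec, smul_right_injective _ p0 this]
    simp
  refine smul_right_injective _ (Y.cne i) ?_
  dsimp only at h6 ⊢
  rw [← h9, h6, add_mulVec, Y.linkp, smul_mulVec, smul_add, add_right_inj]
  simp only [Finset.sum_smul, mul_smul, Function.comp_apply]
  rw [Finset.sum_comm]
  simp only [← Finset.smul_sum, ← h7]
  rw [sum_mulVec, sum_mulVec, Finset.smul_sum]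
  refine Finset.sum_congr rfl fun j _ => ?_
  by_cases hij : i = j
  · subst hij
    simp only [smul_mulVec, h8, smul_zero]
  · rw [Y.link i j hij, smul_mulVec, smul_mulVec, mul_smul]

end Pool.Agent.MP_f68ac8_nt
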