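import Mathlib
import Pool.Agent.MP_f68ac8_nt.Core4

/-! Finiteness of the image of the powerful normal subgroup. -/

namespace Pool.Agent.MP_f68ac8_nt

open Filter Matrix PadicInt Polynomial
open scoped Topology commutatorElement

variable {p : ℕ} [hp : Fact p.Prime]
  {A : Type} [NormedRing A] [IsUltrametricDist A] [NormOneClass A] [NormedAlgebra ℚ_[p] A]
  {G : Type} [Group G] {ρ : G →* A} [TopologicalSpace G] {ι : Type} [Fintype ι]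
  {e : G →* ℚ_[p]} {H : Subgroup G} {τ σ : ι → G} {t : G} {c : ι → ℕ}
  {m : Matrix ι ι (ZMod p)} {χ : ι → G → ZMod p} {ψ : G → ZMod p}
  [CompactSpace G] [IsTopologicalGroup G] [hH : H.Normal] [FiniteDimensional ℚ_[p] A]

theorem Hyp3.finite (Y : Hyp3 ρ e H τ σ t c m χ ψ) (hp2 : p ≠ 2)
    (hpow : ∀ x y : H, ∀ δ > 0, ∃ g ∈ Subgroup.closure (Set.range fun z : H => z ^ p),
      ‖ρ (⁅x, y⁆ : H) - ρ g‖ < δ)
    (tr : A →ₗ[ℚ_[p]] ℚ_[p]) (htr : ∀ x y, tr (x * y) = tr (y * x)) {f : ℤ[X]}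
    (hsys : ∀ r t x c z b s, ¬ Sys3 (κ := Fin r) f m t x c z b s)
    (hf : ∀ r (b : Fin r → A), LinearIndependent ℚ_[p] b →
      ∀ 𝒜 : G →* Matrix (Fin r) (Fin r) ℤ_[p],
      (∀ g l, ρ g * b l * ρ g⁻¹ = ∑ k, (𝒜 g k l : ℚ_[p]) • b k) →
      ∀ Θ : G → Matrix (Fin r) (Fin r) ℤ_[p], (∀ g, 𝒜 g = 1 + (p : ℤ_[p]) • Θ g) →
        aeval ((Θ t).map toZMod) f = 0)
    (hirr : ∀ N : Submodule ℚ_[p] A, (∀ X ∈ N, ∀ Y ∈ N, X * Y - Y * X ∈ N) →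
      (∀ g, ∀ X ∈ N, ρ g * X * ρ g⁻¹ ∈ N) → (∀ X ∈ N, ∀ Y ∈ N, tr (X * Y) = 0) →
      ∀ X ∈ N, ∀ (s : G) (q : ℕ), 1 < q → ρ s * X * ρ s⁻¹ = (q : ℚ_[p]) • X → X = 0) :
    (ρ '' H).Finite := by
  haveI := FiniteDimensional.complete ℚ_[p] A
  obtain ⟨K, _, k1, k2, k3, -⟩ := exists_K Y.cont Y.pro (pinv_pos (p := p))
  obtain ⟨k₀, hk⟩ := exists_unif_pow k1 k2
  obtain ⟨lg, c₀, L⟩ := exists_isLog hp2 (ρ := ρ) (k₀ := k₀) fun g =>
    map_pow ρ _ _ ▸ (k3 _ (hk g)).le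
  obtain ⟨r, h, ξ, 𝒜, T⟩ := exists_lat L hp2 Y.cont Y.pro H hpow
  have act : ∀ g l, ρ g * lg (h l) * ρ g⁻¹ = ∑ k, (𝒜 g k l : ℚ_[p]) • lg (h k) := fun g l => by
    have := T.act g (Pi.single l 1)
    rw [lin_single, mulVec_single_one] at this
    exact this.symm
  have h0 : ∀ l n, tr (lg (h l) * lg (h n)) = 0 := by
    by_contra h0
    push Not at h0
    obtain ⟨_, _, _, _, _, _, hS⟩ := Y.sys hp2 L T tr htr h0 (hf r _ T.ind 𝒜 act)
    exact hsys _ _ _ _ _ _ _ hS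
  obtain ⟨-, D, -, h2, -⟩ := Y.rep hp2 L T
  generalize hN : Submodule.span ℚ_[p] (Set.range fun k => lg (h k)) = N
  have hl : ∀ u : Fin r → ℤ_[p], lin (fun k => lg (h k)) u ∈ N := fun u => by
    rw [lin_apply]
    exact N.sum_mem fun k _ => N.smul_mem _ (hN.le (Submodule.subset_span ⟨k, rfl⟩))
  have h3 : ∀ i, lg (τ i) = 0 := fun i => by
    refine hirr N (fun X a Z b => ?_) (fun g X a => ?_) (fun X a Z b => ?_) _
      (T.xi _ (Y.mem i) ▸ hl _) (σ i) (p * c i + 1) ?_ (by rw [← L.conj, L.congr (Y.rel i), L.pow])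
    · refine LinearMap.BilinMap.apply_apply_mem_of_mem_span N _ _
        (LinearMap.mul ℚ_[p] A - (LinearMap.mul ℚ_[p] A).flip) ?_ X Z (hN.ge a) (hN.ge b)
      rintro _ ⟨k, rfl⟩ _ ⟨l, rfl⟩
      exact Set.mem_of_eq_of_mem ((h2 (h k)).basis l) (N.smul_mem _ (hl _))
    · refine (Submodule.span_le (p := N.comap (LinearMap.mulLeftRight ℚ_[p] (ρ g, ρ g⁻¹)))).mpr ?_
        (hN.ge a)
      rintro _ ⟨k, rfl⟩
      exact Set.mem_of_eq_of_mem (s := N) (act g k) (hl fun l => 𝒜 g l k)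
    · refine LinearMap.BilinMap.apply_apply_mem_of_mem_span ⊥ _ _
        ((LinearMap.mul ℚ_[p] A).compr₂ tr) ?_ X Z (hN.ge a) (hN.ge b)
      rintro _ ⟨k, rfl⟩ _ ⟨l, rfl⟩
      exact h0 k l
    · have : c i ≠ 0 := fun e => Y.cne i (by simp [e])
      exact Nat.lt_add_of_pos_left (Nat.mul_pos hp.out.pos (Nat.pos_of_ne_zero this))
  have h4 : ∀ g ∈ H, lg g = 0 := fun g hg => by
    have h5 := (Y.span hp2 L T).2
    rw [Submodule.span_eq_bot.mpr (by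
      rintro _ ⟨i, rfl⟩
      ext k
      simp [T.eq (Y.mem i) ((h3 i).trans (map_zero _).symm)])] at h5
    haveI : IsEmpty (Fin r) := ⟨fun k => by
      simpa using congrFun (h5.ge (Submodule.mem_top (x := 1))) k⟩
    rw [← T.xi g hg, lin_apply, Finset.sum_of_isEmpty]
  haveI := Subgroup.quotient_finite_of_isOpen _ k1
  refine Set.Finite.of_finite_image (f := fun y => {u : G ⧸ K | ∃ g ∈ H, ρ g = y ∧ g = u})
    (Set.toFinite _) ?_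
  rintro _ ⟨x, hx, rfl⟩ _ ⟨y, hy, rfl⟩ e
  obtain ⟨z, hz, e1, e2⟩ := (Set.ext_iff.mp e x).mp ⟨x, hx, rfl, rfl⟩
  have h6 := k3 _ (QuotientGroup.eq.mp e2)
  have h7 := L.small hp2 h6.le
  rw [h4 _ (mul_mem (inv_mem hz) hx), sub_zero] at h7
  have h8 : ρ (z⁻¹ * x) = 1 := by
    by_contra hn
    have := norm_pos_iff.mpr (sub_ne_zero.mpr hn)
    have := h6.trans pinv_lt
    nlinarith
  rw [← e1, ← mul_inv_cancel_left z x, map_mul, h8, mul_one]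

end Pool.Agent.MP_f68ac8_nt
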