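import Mathlib
import Pool.Agent.MP_f68ac8_nt.Count
import Pool.Agent.MP_f68ac8_nt.Core2

/-! The linking system with ramification at `p` has no solution for generic matrices. -/

namespace Pool.Agent.MP_f68ac8_nt

open Matrix

lemma not_indep' {F σ : Type} [Field F] [Fintype σ] [DecidableEq σ] (A : Subring F) (m : σ → F)
    (R : Finset σ) (Y : Finset F) (hY : Y.card < R.card)
    (h : ∀ C : Subring F, A ≤ C → (∀ a x, a ∈ C → a ≠ 0 → a * x ∈ C → x ∈ C) → (∀ y ∈ Y, y ∈ C) →
      (∀ s ∉ R, m s ∈ C) → ∀ s ∈ R, m s ∈ C) : ¬ AlgebraicIndependent A m := by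
  classical
  intro hm
  let S : Finset F := Y ∪ Rᶜ.image m
  let C := (Subalgebra.algebraicClosure (Algebra.adjoin A (S : Set F)) F).toSubring
  have hC : ∀ y ∈ Algebra.adjoin A (S : Set F), y ∈ C := fun y hy =>
    isAlgebraic_algebraMap (⟨y, hy⟩ : Algebra.adjoin A (S : Set F))
  have h1 : ∀ s ∉ R, m s ∈ C := fun s hs => hC _ (Algebra.subset_adjoin (by
    simp only [S, Finset.coe_union, Finset.coe_image]
    exact Or.inr ⟨s, by simpa using hs, rfl⟩))
  have h2 := h C (fun a ha => hC _ (Subalgebra.algebraMap_mem _ (⟨a, ha⟩ : A)))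
    (fun a x ha ha0 hax => IsAlgebraic.of_mul (mem_nonZeroDivisors_of_ne_zero ha0) ha hax)
    (fun y hy => hC y (Algebra.subset_adjoin (Finset.mem_union_left _ hy))) h1
  have h3 : Set.range m ⊆ (AlgebraicIndependent.matroid A F).closure S := by
    rw [AlgebraicIndependent.matroid_closure_eq]
    rintro _ ⟨s, rfl⟩
    by_cases hs : s ∈ R
    · exact h2 s hs
    · exact h1 s hs
  have h4 : (AlgebraicIndependent.matroid A F).Indep (Set.range m) := hm.to_subtype_range
  have h5 := (h4.encard_le_eRk_of_subset h3).trans_eq (Matroid.eRk_closure_eq _ _)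
    |>.trans (Matroid.eRk_le_encard _ _)
  rw [← Set.image_univ, hm.injective.encard_image, Set.encard_coe_eq_coe_finsetCard,
    Set.encard_univ, ENat.card_eq_coe_fintype_card, Nat.cast_le] at h5
  have h6 : S.card ≤ Y.card + Rᶜ.card :=
    (Finset.card_union_le _ _).trans (Nat.add_le_add_left Finset.card_image_le _)
  rw [Finset.card_compl] at h6
  have := Finset.card_le_univ R
  omega

variable {ι : Type} [Fintype ι]

/-- the system over a commutative ring -/
structure Sys3 {R : Type} [CommRing R] (m : Matrix ι ι R) (e : Bool) (k : R) (i₀ j₀ : ι)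
    (x : ι → M2 R) (z : M2 R) (w : R) : Prop where
  sq : ∀ i, x i * x i = 0
  tr : w * trace (x i₀ * x j₀) = 1
  z1 : z 1 1 = - z 0 0
  z2 : 2 * trace (z * z) = if e then k else 0
  br : ∀ i, (z + ∑ j, m i j • x j) * x i - x i * (z + ∑ j, m i j • x j) = if e then x i else 0

section
variable {R : Type} [CommRing R] {m : Matrix ι ι R} {e : Bool} {k : R} {i₀ j₀ : ι}
  {x : ι → M2 R} {z : M2 R} {w : R}

lemma map_br3 {S : Type} [CommRing S] (φ : R →+* S) (i : ι) :
    φ.mapMatrix ((z + ∑ j, m i j • x j) * x i - x i * (z + ∑ j, m i j • x j)) =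
      (φ.mapMatrix z + ∑ j, m.map φ i j • φ.mapMatrix (x j)) * φ.mapMatrix (x i) -
        φ.mapMatrix (x i) * (φ.mapMatrix z + ∑ j, m.map φ i j • φ.mapMatrix (x j)) := by
  have : ∀ j, φ.mapMatrix (m i j • x j) = m.map φ i j • φ.mapMatrix (x j) := fun j => by
    ext a b
    simp
  simp only [map_sub, map_mul, map_add, map_sum, this]

lemma map_z2 {S : Type} [CommRing S] (φ : R →+* S) :
    φ (2 * trace (z * z)) = 2 * trace (φ.mapMatrix z * φ.mapMatrix z) := by
  rw [map_mul, ← map_mul φ.mapMatrix, AddMonoidHom.map_trace, map_ofNat]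
  rfl

lemma Sys3.map (h : Sys3 m e k i₀ j₀ x z w) {S : Type} [CommRing S] (φ : R →+* S) :
    Sys3 (m.map φ) e (φ k) i₀ j₀ (fun i => φ.mapMatrix (x i)) (φ.mapMatrix z) (φ w) where
  sq i := by rw [← map_mul, h.sq, map_zero]
  tr := by rw [← map_tr, h.tr, map_one]
  z1 := by simp [h.z1]
  z2 := by
    rw [← map_z2, h.z2]
    split_ifs <;> simp
  br i := by
    rw [← map_br3, h.br]
    split_ifs <;> simp

lemma Sys3.of_map {α : Type} {S : α → Type} [∀ a, CommRing (S a)] (φ : ∀ a, R →+* S a)
    (hφ : ∀ r r', (∀ a, φ a r = φ a r') → r = r')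
    (h : ∀ a, Sys3 (m.map (φ a)) e (φ a k) i₀ j₀ (fun i => (φ a).mapMatrix (x i))
      ((φ a).mapMatrix z) (φ a w)) : Sys3 m e k i₀ j₀ x z w := by
  have hM : ∀ M N : M2 R, (∀ a, (φ a).mapMatrix M = (φ a).mapMatrix N) → M = N := by
    intro M N H
    ext i j
    exact hφ _ _ fun a => congrFun (congrFun (H a) i) j
  refine ⟨fun i => hM _ _ fun a => ?_, hφ _ _ fun a => ?_, hφ _ _ fun a => ?_,
    hφ _ _ fun a => ?_, fun i => hM _ _ fun a => ?_⟩
  · rw [map_mul, (h a).sq, map_zero]
  · rw [map_tr, (h a).tr, map_one]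
  · simpa using (h a).z1
  · rw [map_z2, (h a).z2]
    split_ifs <;> simp
  · rw [map_br3, (h a).br]
    split_ifs <;> simp

end

variable {F : Type} [Field F] {m : Matrix ι ι F} {e : Bool} {k : F} {i₀ j₀ : ι}
  {x : ι → M2 F} {z : M2 F} {w : F}

lemma Sys3.conj (h : Sys3 m e k i₀ j₀ x z w) {A A' : M2 F} (a1 : A * A' = 1) :
    Sys3 m e k i₀ j₀ (fun i => A' * x i * A) (A' * z * A) w := by
  have hm : ∀ M N : M2 F, A' * M * A * (A' * N * A) = A' * (M * N) * A := fun M N => by
    simp only [mul_assoc]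
    rw [← mul_assoc A A', a1, one_mul]
  refine ⟨fun i => ?_, ?_, ?_, ?_, fun i => ?_⟩
  · rw [hm, h.sq, mul_zero, zero_mul]
  · rw [hm, trace_mul_cycle, a1, one_mul, h.tr]
  · rw [eq_neg_iff_add_eq_zero, add_comm, ← trace_fin_two, trace_mul_cycle, a1, one_mul,
      trace_fin_two, h.z1, add_neg_cancel]
  · rw [hm, trace_mul_cycle, a1, one_mul, h.z2]
  · have : A' * z * A + ∑ j, m i j • (A' * x j * A) = A' * (z + ∑ j, m i j • x j) * A := by
      simp [Finset.mul_sum, Finset.sum_mul, mul_add, add_mul]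
    rw [this, hm, hm, ← sub_mul, ← mul_sub, h.br]
    split_ifs <;> simp

lemma Sys3.scale (h : Sys3 m false k i₀ j₀ x z w) {l : F} (hl : l ^ 2 = w) :
    Sys3 m false k i₀ j₀ (fun i => l • x i) (l • z) 1 := by
  refine ⟨fun i => ?_, ?_, by simp [h.z1], ?_, fun i => ?_⟩
  · rw [smul_mul_smul_comm, h.sq, smul_zero]
  · rw [smul_mul_smul_comm, trace_smul, one_mul, ← pow_two, hl]
    exact h.tr
  · rw [smul_mul_smul_comm, trace_smul, smul_eq_mul, mul_left_comm, h.z2]
    simp
  · simp only [smul_comm _ l, ← Finset.smul_sum, ← smul_add, smul_mul_smul_comm, ← smul_sub, h.br]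
    simp

lemma Sys3.solve (h : Sys3 m e k i₀ j₀ x z w) {C : Subring F}
    (hC : ∀ a x, a ∈ C → a ≠ 0 → a * x ∈ C → x ∈ C) (hx : ∀ k a b, x k a b ∈ C)
    (hz : ∀ a b, z a b ∈ C) {Z : M2 F}
    (hZ : ∀ a b, Z a b ∈ C) {i j : ι} (h1 : co x Z i j ≠ 0)
    (h2 : ∀ k, k ≠ j → m i k ∈ C ∨ co x Z i k = 0) : m i j ∈ C := by
  classical
  have hco : ∀ k, co x Z i k ∈ C := fun k => by
    simp only [co, trace_fin_two, mul_apply, Matrix.sub_apply, Fin.sum_univ_two]
    apply_rules (maxDepth := 200) only [add_mem, mul_mem, sub_mem, hx, hZ]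
  have e1 : ∑ k, co x Z i k * m i k =
      trace ((if e then x i else 0) * Z) - trace ((z * x i - x i * z) * Z) := by
    rw [← h.br, add_mul, mul_add, add_sub_add_comm, add_mul, trace_add, add_sub_cancel_left]
    simp only [Finset.sum_mul, Finset.mul_sum, ← Finset.sum_sub_distrib, trace_sum, co,
      smul_mul_assoc, mul_smul_comm, ← smul_sub, trace_smul, smul_eq_mul, mul_comm]
  have e2 : trace ((if e then x i else 0) * Z) - trace ((z * x i - x i * z) * Z) ∈ C := by
    refine sub_mem ?_ ?_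
    · split_ifs
      · simp only [trace_fin_two, mul_apply, Fin.sum_univ_two]
        apply_rules only [add_mem, mul_mem, hx, hZ]
      · simp
    · simp only [trace_fin_two, mul_apply, Matrix.sub_apply, Fin.sum_univ_two]
      apply_rules (maxDepth := 200) only [add_mem, mul_mem, sub_mem, hx, hZ, hz]
  rw [← e1, ← Finset.add_sum_erase _ _ (Finset.mem_univ j)] at e2
  refine hC _ _ (hco j) h1 ((add_mem_cancel_right (sum_mem fun k hk => ?_)).mp e2)
  rcases h2 k (Finset.ne_of_mem_erase hk) with h | h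
  · exact mul_mem (hco k) h
  · simp [h]

theorem Sys3.not_indep_aux [CharZero F] (h : Sys3 m e k i₀ j₀ x z w) (hw : e = false → w = 1)
    (A : Subring F) (hk : k ∈ A) : ¬ AlgebraicIndependent A fun s : ι × ι => m s.1 s.2 := by
  classical
  intro hm
  obtain ⟨B, B', a1, -, a3, a4⟩ := normal_form (h.sq i₀) (h.sq j₀)
    (right_ne_zero_of_mul_eq_one h.tr)
  have hu := right_ne_zero_of_mul_eq_one h.tr
  have hu1 : e = false → trace (x i₀ * x j₀) = 1 := fun he => by simpa [hw he] using h.tr
  set u := trace (x i₀ * x j₀)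
  replace h := h.conj a1
  set y : ι → M2 F := fun i => B' * x i * B with hy
  replace a3 : y i₀ = !![0, 1; 0, 0] := a3
  replace a4 : y j₀ = !![0, 0; u, 0] := a4
  generalize B' * z * B = v at h
  clear_value y u
  have h11 : ∀ k, y k 1 1 = - y k 0 0 := fun k => trace_of_sq (h.sq k)
  have hq : ∀ k, y k 0 1 * y k 1 0 = -(y k 0 0 * y k 0 0) := fun k => by
    have := congrFun (congrFun (h.sq k) 0) 0
    simp only [mul_apply, Fin.sum_univ_two, Matrix.zero_apply] at this
    linear_combination this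
  let T : Finset ι := Finset.univ.filter fun k => y k ≠ 0
  have hi₀ : i₀ ∈ T := by
    simp only [T, Finset.mem_filter, Finset.mem_univ, true_and, a3]
    intro e
    simpa using congrFun (congrFun e 0) 1
  have hj₀ : j₀ ∈ T.erase i₀ := by
    simp only [T, Finset.mem_erase, Finset.mem_filter, Finset.mem_univ, true_and, a4]
    constructor <;> intro e
    · simpa [e, a3] using congrFun (congrFun a4 0) 1
    · simpa [hu] using congrFun (congrFun e 1) 0
  let P : M2 F → F := fun M => if M 0 1 = 0 then M 1 0 else M 0 1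
  have hP : ∀ C : Subring F, (∀ a x, a ∈ C → a ≠ 0 → a * x ∈ C → x ∈ C) → ∀ M : M2 F,
      M 1 1 = - M 0 0 → M 0 0 ∈ C → P M ∈ C → M 0 1 * M 1 0 ∈ C → ∀ a b, M a b ∈ C := by
    intro C hC M d11 d00 d dq a b
    have d01 : M 0 1 ∈ C := by
      by_cases e : M 0 1 = 0
      · rw [e]; exact zero_mem C
      · simpa [P, e] using d
    have d10 : M 1 0 ∈ C := by
      by_cases e : M 0 1 = 0
      · simpa [P, e] using d
      · exact hC _ _ d01 e dq
    fin_cases a <;> fin_cases b
    exacts [d00, d01, d10, d11.symm ▸ neg_mem d00]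
  have hent : ∀ C : Subring F, (∀ a x, a ∈ C → a ≠ 0 → a * x ∈ C → x ∈ C) →
      (∀ k ∈ (T.erase i₀).erase j₀, y k 0 0 ∈ C) → (∀ k ∈ (T.erase i₀).erase j₀, P (y k) ∈ C) →
      u ∈ C → ∀ k a b, y k a b ∈ C := by
    intro C hC c1 c2 c3 k a b
    by_cases hk : k ∈ (T.erase i₀).erase j₀
    · exact hP C hC _ (h11 k) (c1 k hk) (c2 k hk)
        (hq k ▸ neg_mem (mul_mem (c1 k hk) (c1 k hk))) a b
    · by_cases hk' : k = i₀
      · rw [hk', a3]
        fin_cases a <;> fin_cases b <;> simp
      by_cases hk'' : k = j₀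
      · rw [hk'', a4]
        fin_cases a <;> fin_cases b <;> simp [c3]
      · have : y k = 0 := by simpa [T, hk', hk''] using hk
        simp [this]
  have hv : ∀ C : Subring F, A ≤ C → (∀ a x, a ∈ C → a ≠ 0 → a * x ∈ C → x ∈ C) →
      v 0 0 ∈ C → P v ∈ C → ∀ a b, v a b ∈ C := fun C hA hC c1 c2 => by
    refine hP C hC v h.z1 c1 c2 (hC 4 _ (by exact_mod_cast natCast_mem C 4) (by norm_num) ?_)
    have : 4 * (v 0 1 * v 1 0) = (if e then k else 0) - 4 * (v 0 0 * v 0 0) := by
      rw [← h.z2]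
      simp only [trace_fin_two, mul_apply, Fin.sum_univ_two, h.z1]
      ring
    rw [this]
    refine sub_mem ?_ (mul_mem (by exact_mod_cast natCast_mem C 4) (mul_mem c1 c1))
    split_ifs
    exacts [hA hk, zero_mem C]
  have hz : ∀ k, y k 0 0 = 0 → y k 0 1 = 0 → y k 1 0 = 0 → y k = 0 := fun k e1 e2 e3 => by
    ext a b
    fin_cases a <;> fin_cases b
    exacts [e1, e2, e3, by simpa [e1] using h11 k]
  have hT : (T.erase i₀).card + 1 = T.card := Finset.card_erase_add_one hi₀
  have hT' := Finset.card_erase_add_one hj₀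
  set T' := (T.erase i₀).erase j₀
  have hinj : ∀ f : ι → ι, (T.image fun i => (i, f i)).card = T.card := fun f =>
    Finset.card_image_of_injective _ fun a b e => congrArg Prod.fst e
  by_cases hcase : ∃ k, y k 0 0 ≠ 0
  · obtain ⟨k₀, hk₀⟩ := hcase
    have : ∀ i, ∃ j k, i ∈ T → co y (y k) i j ≠ 0 := by
      intro i
      by_cases e1 : y i 0 0 ≠ 0
      · refine ⟨i₀, j₀, fun _ => ?_⟩
        have : co y (y j₀) i i₀ = -2 * (u * y i 0 0) := by
          simp only [co, trace_fin_two, mul_apply, Matrix.sub_apply, Fin.sum_univ_two, a3, a4]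
          simp [h11]
          ring
        simp [this, hu, e1]
      push Not at e1
      by_cases e2 : y i 1 0 ≠ 0
      · refine ⟨i₀, k₀, fun _ => ?_⟩
        have : co y (y k₀) i i₀ = 2 * (y i 1 0 * y k₀ 0 0) := by
          simp only [co, trace_fin_two, mul_apply, Matrix.sub_apply, Fin.sum_univ_two, a3]
          simp [h11, e1]
          ring
        simp [this, hk₀, e2]
      push Not at e2
      refine ⟨j₀, k₀, fun hi => ?_⟩
      have e3 : y i 0 1 ≠ 0 := fun e3 => by simp [T, hz i e1 e3 e2] at hi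
      have : co y (y k₀) i j₀ = -2 * (u * y i 0 1 * y k₀ 0 0) := by
        simp only [co, trace_fin_two, mul_apply, Matrix.sub_apply, Fin.sum_univ_two, a4]
        simp [h11, e1]
        ring
      simp [this, hk₀, e3, hu]
    choose f g hfg using this
    have hne : ∀ i ∈ T, f i ≠ g i := fun i hi e => hfg i hi (by rw [e, co_self])
    refine not_indep' A _ ((T.image fun i => (i, f i)) ∪ (T.image fun i => (i, g i)))
      (insert u (insert (v 0 0) (insert (P v)
        ((T'.image fun k => y k 0 0) ∪ T'.image fun k => P (y k))))) ?_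
      (fun C hA hC c1 c2 s hs => ?_) hm
    · have hd : Disjoint (T.image fun i => (i, f i)) (T.image fun i => (i, g i)) := by
        rw [Finset.disjoint_left]
        intro s h1 h2
        obtain ⟨i, hi, rfl⟩ := Finset.mem_image.mp h1
        obtain ⟨i', -, e⟩ := Finset.mem_image.mp h2
        obtain ⟨rfl, e'⟩ := Prod.mk.inj e
        exact hne _ hi e'.symm
      rw [Finset.card_union_of_disjoint hd, hinj, hinj]
      refine ((Finset.card_insert_le _ _).trans (Nat.succ_le_succ ((Finset.card_insert_le _ _).trans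
        (Nat.succ_le_succ ((Finset.card_insert_le _ _).trans (Nat.succ_le_succ
          ((Finset.card_union_le _ _).trans (add_le_add Finset.card_image_le
            Finset.card_image_le)))))))).trans_lt (by omega)
    simp only [Finset.forall_mem_insert, Finset.forall_mem_union, Finset.forall_mem_image] at c1
    have hx := hent C hC (fun k hk => c1.2.2.2.1 hk) (fun k hk => c1.2.2.2.2 hk) c1.1
    have hv' := hv C hA hC c1.2.1 c1.2.2.1
    have c3 : ∀ i k, k ≠ f i → k ≠ g i → m i k ∈ C := fun i k k1 k2 => c2 (i, k) (by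
      simp only [Finset.mem_union, Finset.mem_image, not_or, not_exists, not_and]
      constructor <;> intro i' _ e <;> obtain ⟨rfl, e'⟩ := Prod.mk.inj e
      exacts [k1 e'.symm, k2 e'.symm])
    simp only [Finset.mem_union, Finset.mem_image] at hs
    rcases hs with ⟨i, hi, rfl⟩ | ⟨i, hi, rfl⟩
    · refine h.solve hC hx hv' (hx (g i)) (hfg i hi) fun k hk => ?_
      by_cases e : k = g i
      · exact Or.inr (by rw [e, co_self])
      · exact Or.inl (c3 i k hk e)
    · refine h.solve hC hx hv' (hx (f i)) (by rw [co_swap]; simpa using hfg i hi) fun k hk => ?_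
      by_cases e : k = f i
      · exact Or.inr (by rw [e, co_self])
      · exact Or.inl (c3 i k e hk)
  push Not at hcase
  have b1 := congrFun (congrFun (h.br i₀) 0) 1
  have b2 := congrFun (congrFun (h.br j₀) 1) 0
  simp only [a3, a4, mul_apply, Fin.sum_univ_two, Matrix.sub_apply, Matrix.add_apply,
    Matrix.sum_apply, Matrix.smul_apply, h11, hcase, h.z1] at b1 b2
  cases e with
  | true =>
    simp at b1 b2
    exact hu (by linear_combination (-1 / 2 : F) * b2 - (u / 2) * b1)
  | false =>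
    have b3 : v 0 0 = 0 := by simpa using b1
    have : ∀ i, ∃ j, i ∈ T → co y !![1, 0; 0, 0] i j ≠ 0 := by
      intro i
      by_cases e2 : y i 1 0 ≠ 0
      · refine ⟨i₀, fun _ => ?_⟩
        simp only [co, trace_fin_two, mul_apply, Matrix.sub_apply, Fin.sum_univ_two, a3]
        simpa using e2
      push Not at e2
      refine ⟨j₀, fun hi => ?_⟩
      have e3 : y i 0 1 ≠ 0 := fun e3 => by simp [T, hz i (hcase i) e3 e2] at hi
      simp only [co, trace_fin_two, mul_apply, Matrix.sub_apply, Fin.sum_univ_two, a4]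
      simp [e3, hu]
    choose f hf using this
    refine not_indep' A _ (T.image fun i => (i, f i))
      (insert (P v) (T'.image fun k => P (y k))) ?_ (fun C hA hC c1 c2 s hs => ?_) hm
    · rw [hinj]
      exact ((Finset.card_insert_le _ _).trans (Nat.succ_le_succ Finset.card_image_le)).trans_lt
        (by omega)
    simp only [Finset.forall_mem_insert, Finset.forall_mem_image] at c1
    have hx := hent C hC (fun k _ => (hcase k).symm ▸ zero_mem C) (fun k hk => c1.2 hk)
      (hu1 rfl ▸ one_mem C)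
    obtain ⟨i, hi, rfl⟩ := Finset.mem_image.mp hs
    refine h.solve hC hx (hv C hA hC (b3 ▸ zero_mem C) c1.1) (fun a b => ?_) (hf i hi)
      fun k hk => Or.inl (c2 (i, k) ?_)
    · fin_cases a <;> fin_cases b <;> simp
    · simp only [Finset.mem_image, not_exists, not_and]
      intro i' _ e
      obtain ⟨rfl, e'⟩ := Prod.mk.inj e
      exact hk e'.symm

theorem Sys3.not_indep [CharZero F] [IsAlgClosed F] (h : Sys3 m e k i₀ j₀ x z w)
    (A : Subring F) (hk : k ∈ A) : ¬ AlgebraicIndependent A fun s : ι × ι => m s.1 s.2 := by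
  cases e with
  | true => exact h.not_indep_aux (by simp) A hk
  | false =>
    obtain ⟨l, hl⟩ := IsAlgClosed.exists_pow_nat_eq w two_pos
    exact (h.scale hl).not_indep_aux (fun _ => rfl) A hk

end Pool.Agent.MP_f68ac8_nt
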