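import Mathlib
import Pool.Agent.MP_f68ac8_nt.Count2
import Pool.Agent.MP_f68ac8_nt.Step

/-! Uniform bounds for the exceptional matrices. -/

namespace Pool.Agent.MP_f68ac8_nt

open Matrix MvPolynomial Filter

variable {ι : Type} [Fintype ι]

/-- the system has a solution over some field -/
def Bad3 {p : ℕ} (m : Matrix ι ι (ZMod p)) (k : ZMod p) (t : Bool × ι × ι) : Prop :=
  ∃ (F : Type) (_ : Field F) (φ : ZMod p →+* F) (x : ι → M2 F) (z : M2 F) (w : F),
    Sys3 (m.map φ) t.1 (φ (k ^ 2)) t.2.1 t.2.2 x z w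

lemma exists_deg_aux (t : Bool × ι × ι) : ∃ D : ℕ, ∀ p : ℕ, p.Prime → D < p → ∀ k : ZMod p,
    ∃ P : MvPolynomial (ι × ι) (ZMod p), P ≠ 0 ∧ P.totalDegree ≤ D ∧
      ∀ m, Bad3 m k t → eval (fun s : ι × ι => m s.1 s.2) P = 0 := by
  by_contra hn
  push Not at hn
  choose p hp hD k hk using hn
  haveI : ∀ D, Fact (p D).Prime := fun D => ⟨hp D⟩
  let α := Σ D, {P : MvPolynomial (ι × ι) (ZMod (p D)) // P ≠ 0 ∧ P.totalDegree ≤ D}
  choose m hm hm' using fun a : α => hk a.1 a.2.1 a.2.2.1 a.2.2.2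
  choose F _ φ x z w hs using hm
  let A := ∀ D, ZMod (p D)
  let B := ∀ a, F a
  let j : A →+* B := RingHom.pi fun a => (φ a).comp (Pi.evalRingHom _ a.1)
  let mB : Matrix ι ι B := Matrix.of fun i j a => φ a (m a i j)
  have hB : Sys3 mB t.1 (j fun D => k D ^ 2) t.2.1 t.2.2 (fun i => Matrix.of fun r s a => x a i r s)
      (Matrix.of fun r s a => z a r s) w :=
    Sys3.of_map (fun a => Pi.evalRingHom F a) (fun r r' H => funext H) hs
  let Φ : MvPolynomial (ι × ι) A →+* B := eval₂Hom j fun s => mB s.1 s.2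
  have hΦ : ∀ Q a, Φ Q a = φ a (eval (fun s : ι × ι => m a s.1 s.2)
      (map (Pi.evalRingHom _ a.1) Q)) := fun Q a => by
    rw [eval_map, ← coe_eval₂Hom, map_eval₂Hom]
    exact map_eval₂Hom _ _ (Pi.evalRingHom F a) Q
  let J : Ideal B :=
    { carrier := {b | ∀ᶠ D in (hyperfilter ℕ : Filter ℕ), ∀ P, b ⟨D, P⟩ = 0}
      add_mem' := fun {a b} ha hb => by
        filter_upwards [ha, hb] with D h1 h2 P
        simp [B, h1 P, h2 P]
      zero_mem' := Eventually.of_forall fun _ _ => rfl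
      smul_mem' := fun c b hb => by
        filter_upwards [hb] with D h1 P
        change c _ * b _ = 0
        rw [h1 P, mul_zero] }
  let T : Submonoid (MvPolynomial (ι × ι) A) :=
    { carrier := {Q | ∀ᶠ D in (hyperfilter ℕ : Filter ℕ), map (Pi.evalRingHom _ D) Q ≠ 0}
      mul_mem' := fun {a b} ha hb => by
        filter_upwards [ha, hb] with D h1 h2
        rw [map_mul]
        exact mul_ne_zero h1 h2
      one_mem' := Eventually.of_forall fun _ => by simp }
  have hge : ∀ n, ∀ᶠ D in (hyperfilter ℕ : Filter ℕ), n ≤ D := fun n =>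
    Nat.hyperfilter_le_atTop (eventually_ge_atTop n)
  obtain ⟨Q, hQ, hJ, hd⟩ := J.exists_le_prime_disjoint (T.map Φ) (by
    rw [Set.disjoint_left]
    rintro _ h1 ⟨P, h2, rfl⟩
    obtain ⟨D, e1, e2, e3⟩ := (Eventually.and h1 (Eventually.and h2 (hge P.totalDegree))).exists
    have := e1 ⟨_, e2, (Finset.sup_mono (support_map_subset _ _)).trans e3⟩
    rw [hΦ, map_eq_zero] at this
    exact hm' _ this)
  let f : B →+* AlgebraicClosure Q.ResidueField :=
    (algebraMap Q.ResidueField _).comp (algebraMap B Q.ResidueField)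
  have hf : ∀ b, f b = 0 ↔ b ∈ Q := fun b => by simp [f]
  have hT : ∀ P ∈ T, f (Φ P) ≠ 0 := fun P hP e =>
    Set.disjoint_left.mp hd ((hf _).mp e) ⟨P, hP, rfl⟩
  haveI : CharZero (AlgebraicClosure Q.ResidueField) := charZero_of_inj_zero fun n hn => by
    by_contra h0
    refine hT n ?_ (by rwa [map_natCast, map_natCast])
    filter_upwards [hge n] with D e
    rw [map_natCast, ← map_natCast C, Ne, C_eq_zero, ZMod.natCast_eq_zero_iff]
    exact Nat.not_dvd_of_pos_of_lt (Nat.pos_of_ne_zero h0) (e.trans_lt (hD D))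
  refine (hB.map f).not_indep (f.comp j).range ⟨_, rfl⟩ ?_
  rw [algebraicIndependent_iff]
  intro P hP
  obtain ⟨P, rfl⟩ := map_surjective _ (f.comp j).rangeRestrict_surjective P
  have e1 : P ∉ T := fun e => hT P e (by
    rw [← hP, map_eval₂Hom, aeval_def, eval₂_map]
    rfl)
  ext s
  rw [coeff_map]
  refine (hf (j (coeff s P))).mpr (hJ ?_)
  filter_upwards [Ultrafilter.eventually_not.mpr e1] with D e P'
  have := congrArg (coeff s) (not_not.mp e)
  rw [coeff_map] at this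
  exact (congrArg (φ ⟨D, P'⟩) this).trans (map_zero _)

theorem exists_deg : ∃ D : ℕ, ∀ (p : ℕ) [Fact p.Prime], D < p → ∀ k : ZMod p,
    ∃ P : MvPolynomial (ι × ι) (ZMod p), P ≠ 0 ∧ P.totalDegree ≤ D ∧
      ∀ (m : Matrix ι ι (ZMod p)) (F : Type) [Field F] [Algebra (ZMod p) F] (e : Bool),
        Sol2 F m e k → eval (fun s : ι × ι => m s.1 s.2) P = 0 := by
  choose D hD using exists_deg_aux (ι := ι)
  refine ⟨∑ t, D t, fun p hp h k => ?_⟩
  choose P h1 h2 h3 using fun t => hD t p hp.out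
    ((Finset.single_le_sum (fun _ _ => Nat.zero_le _) (Finset.mem_univ t)).trans_lt h) k
  refine ⟨∏ t, P t, Finset.prod_ne_zero_iff.mpr fun t _ => h1 t,
    (totalDegree_finsetProd _ _).trans (Finset.sum_le_sum fun t _ => h2 t), ?_⟩
  rintro m F _ _ e ⟨x, z, a1, ⟨i, j, a2⟩, a3, a4, a5⟩
  rw [map_prod]
  exact Finset.prod_eq_zero (Finset.mem_univ (e, i, j)) (h3 _ m
    ⟨F, _, algebraMap _ _, x, z, _, a1, inv_mul_cancel₀ a2, a3, a4, by simpa using a5⟩)

lemma card_zero_le' {σ : Type} [Fintype σ] {p : ℕ} [hp : Fact p.Prime]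
    {P : MvPolynomial σ (ZMod p)} (hP : P ≠ 0) :
    {f : σ → ZMod p | eval f P = 0}.ncard * p ≤ P.totalDegree * p ^ Fintype.card σ := by
  classical
  let e := Fintype.equivFin σ
  have h1 : rename e P ≠ 0 := by rwa [Ne, rename_eq_zero_iff_of_injective _ e.injective]
  have h3 := schwartz_zippel_totalDegree h1 Finset.univ
  have hp0 : (0 : ℚ≥0) < p := Nat.cast_pos.mpr hp.out.pos
  rw [Finset.card_univ, ZMod.card, div_le_div_iff₀ (pow_pos hp0 _) hp0] at h3
  have h4 : {f : σ → ZMod p | eval f P = 0}.ncard = (Finset.filter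
      (fun f => eval f (rename e P) = 0) (Fintype.piFinset fun _ => Finset.univ)).card := by
    rw [Fintype.piFinset_univ, ← Fintype.card_subtype, ← Nat.card_eq_fintype_card]
    refine Nat.card_congr ((Equiv.arrowCongr e (Equiv.refl _)).subtypeEquiv fun f => ?_)
    rw [eval_rename]
    have : (Equiv.arrowCongr e (Equiv.refl (ZMod p))) f ∘ e = f := by
      ext
      simp
    rw [this]
    rfl
  rw [h4]
  exact le_trans (by exact_mod_cast h3) (Nat.mul_le_mul_right _ (totalDegree_rename_le _ _))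

theorem dens_of_sol2 (d N : ℕ) : ∃ C : ℝ, ∀ (p : ℕ) [Fact p.Prime], p ≠ 2 →
    ∀ (W : Finset (ZMod p)) (A : Set ℕ → Prop), (N ≤ p → ∀ m : Matrix (Fin d) (Fin d) (ZMod p),
      (∀ k ∈ W, ∀ (F : Type) [Field F] [Algebra (ZMod p) F] (e : Bool), ¬ Sol2 F m e k) →
        Good p A m) → 1 - C * (W.card + 1) / p ≤ setDens p d fun S => S.ncard = d ∧ A S := by
  classical
  obtain ⟨D, hD⟩ := exists_deg (ι := Fin d)
  refine ⟨(D + N : ℕ) + d, fun p hp hp2 W A h => le_trans ?_
    (dens_ge hp2 _ (C := (D + N) * (W.card + 1)) ?_)⟩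
  · push_cast
    gcongr
    nlinarith [Nat.cast_nonneg (α := ℝ) d, Nat.cast_nonneg (α := ℝ) W.card]
  have hc : Fintype.card (Fin d × Fin d) = d * d := by simp
  by_cases hle : p ≤ D + N
  · rw [mul_comm]
    refine Nat.mul_le_mul (hle.trans (Nat.le_mul_of_pos_right _ W.card.succ_pos))
      ((Finite.card_subtype_le _).trans_eq ?_)
    change Nat.card (Fin d → Fin d → ZMod p) = _
    simp [pow_mul]
  choose P h1 h2 h3 using hD p (by omega)
  have e1 : Nat.card {m : Matrix (Fin d) (Fin d) (ZMod p) //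
      ¬ Good p (fun S => S.ncard = d ∧ A S) m} ≤
      (⋃ k ∈ W, {f : Fin d × Fin d → ZMod p | eval f (P k) = 0}).ncard := by
    refine Nat.card_le_card_of_injective (fun m => ⟨fun s => m.1 s.1 s.2, ?_⟩) fun m m' e => ?_
    · by_contra h0
      simp only [Set.mem_iUnion, Set.mem_ofPred_eq, not_exists] at h0
      exact m.2 fun q q1 q2 => ⟨by simp [Set.ncard_range_of_injective q1.1],
        h (by omega) _ (fun k hk F _ _ e hs => h0 k hk (h3 k _ F e hs)) q q1 q2⟩
    · ext i j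
      exact congrFun (congrArg Subtype.val e) (i, j)
  refine (Nat.mul_le_mul_right _ (e1.trans (Finset.set_ncard_biUnion_le _ _))).trans ?_
  rw [Finset.sum_mul]
  refine (Finset.sum_le_card_nsmul _ _ (D * p ^ (d * d)) fun k _ =>
    (card_zero_le' (h1 k)).trans (hc ▸ Nat.mul_le_mul_right _ (h2 k))).trans ?_
  rw [smul_eq_mul, ← mul_assoc]
  exact Nat.mul_le_mul_right _ (by nlinarith)

end Pool.Agent.MP_f68ac8_nt
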