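import Mathlib
import Pool.Agent.MP_f68ac8_nt.EvKK
import Pool.Agent.MP_f68ac8_nt.EvKum
import Pool.Agent.MP_f68ac8_nt.EvLocAB
import Pool.Agent.MP_f68ac8_nt.EvRam
import Pool.Agent.MP_f68ac8_nt.EvTriv
import Pool.Agent.MP_f68ac8_nt.FvMean
import Pool.Agent.MP_f68ac8_nt.FvWild
import Pool.Agent.MP_f68ac8_nt.OvHens
import Pool.Agent.MP_f68ac8_nt.OvKey1
import Pool.Agent.MP_f68ac8_nt.OvKey2
import Pool.Agent.MP_f68ac8_nt.OvLocG
import Pool.Agent.MP_f68ac8_nt.OvLocP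
import Pool.Agent.MP_f68ac8_nt.OvMu
import Pool.Agent.MP_f68ac8_nt.OvR1
import Pool.Agent.MP_f68ac8_nt.PtVU
import Pool.Agent.MP_f68ac8_nt.QvBs
import Pool.Agent.MP_f68ac8_nt.QvCount
import Pool.Agent.MP_f68ac8_nt.QvLocV
import Pool.Agent.MP_f68ac8_nt.SvCf
import Pool.Agent.MP_f68ac8_nt.SvStep
import Pool.Agent.MP_f68ac8_nt.SvSum
import Pool.Agent.MP_f68ac8_nt.SvTh
import Pool.Agent.MP_f68ac8_nt.UvFin
import Pool.Agent.MP_f68ac8_nt.UvSum
import Pool.Agent.MP_f68ac8_nt.ZbCheb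
import Pool.Agent.MP_f68ac8_nt.ZbIt
import Pool.Agent.MP_f68ac8_nt.ZbMean
import Pool.Agent.MP_f68ac8_nt.ZbPot
import Pool.Agent.MP_f68ac8_nt.ZbSel
import Pool.Agent.MP_f68ac8_nt.ZcRestr
import Pool.Agent.MP_f68ac8_nt.ZfIdt

/-! The arithmetic statements that have been proved. -/

namespace Pool.Agent.MP_f68ac8_nt.Zk

open Sv

variable (p : ℕ) [Fact p.Prime]

theorem locV_all : Qv.LocVStmt p :=
  Qv.locV_stmt p (Ev.kk_stmt p) Ev.wild_stmt (Ev.triv_stmt p) Ev.ram_stmt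
    (Ev.locA_stmt p Ev.ram_stmt)

theorem core_all : Core p := by
  have hK := Ev.kk_stmt p
  have hW := Ev.wild_stmt
  have hA := Ev.locA_stmt p Ev.ram_stmt
  have hM := Ev.kum_stmt p hK
  have hH := Ev.hens_stmt p
  have hR := Ev.r1G_stmt p (Ev.key1_stmt p) (Ev.key2_stmt p (Ev.mu_stmt p))
  have hP := Ev.locP_stmt p Ev.ram_stmt hW hH
  have hV := locV_all p
  have hG := Qv.gal_stmt p
  have hCo := co_stmt p hK hW hV hG
  exact ⟨th_stmt p hK, hCo, iner_stmt p hK hM hV hCo, nz_stmt p, nz3_stmt p (nz_stmt p),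
    sum2_stmt p hK hA hW (Ev.locG_stmt p hK) hCo hG (ord_stmt p hK hCo hG),
    fin0_stmt p hK hM hA (Pt.vu_stmt p),
    stepM_stmt p (Qv.count_stmt p hW hV) hV Ev.idMean_stmt, hV,
    Ev.idMean_stmt, cf_stmt p hK hM hP hR⟩

theorem restr_all : Zv.RestrStmt p := Zv.restr_stmt p (core_all p)

theorem cheb_all : Zv.ChebStmt p :=
  Zv.cheb_stmt p (core_all p) (Qv.count_stmt p Ev.wild_stmt (locV_all p))

theorem pot_all : Zv.PotStmt p := Zv.pot_stmt p (core_all p) Zv.mean_stmt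

theorem glue_all : Ze.GlueStmt p :=
  Ze.glue_stmt p Zv.mean_stmt Zv.it_stmt (Zv.trunc_stmt Zv.mean_stmt) (Zv.sel_stmt p (core_all p))

end Pool.Agent.MP_f68ac8_nt.Zk
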