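import Mathlib
import Pool.Agent.MP_f68ac8_nt.ZmAux
import Pool.Agent.MP_f68ac8_nt.ZcGlue

namespace Pool.Agent.MP_f68ac8_nt.Zk
open Ev Pv Sv Zv
open scoped commutatorElement
open scoped BigOperators

theorem fin_stmt (p : ℕ) [Fact p.Prime] (hM : Zk.MultiStmt p) (hU : UnifStmt) (hG : GenPStmt p)
    (hE : Zk.EqaStmt p) (hS : SolStmt p) (hD : GdStmt p) : Zk.FinStmt p := by
  intro K F _ _ hB hK hF P _ _ T D La L l n B hPk d hinv ε hε
  obtain ⟨η, hη, hmul⟩ := hM P T D La L l n hPk B d ε hε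
  refine ⟨η, hη, fun e he hpe U _ x w hP hw hx hinj hEq a => ?_⟩
  have hpg : ∀ g : P, ∃ k, g ^ p ^ k = 1 := (hD P T L l n hPk.ts).1
  obtain ⟨N, hAm, hN1, hN2⟩ := (hG K F hB hK hF).2.2.2 (Σ j, U j) x hx hinj P
  obtain ⟨𝓡, _, _, s, hs1, hs2⟩ := hU (Σ j, U j) P (N.comap (lwp K x))
  choose wd hwd using fun (y : Σ j, U j) (a : Exn e) => hAm.gen (toK K (x y).σ ^ (a.1 : ℕ))
  obtain ⟨m, hm, hsol⟩ := hS K F hB hK hF P T hpg d U x N hAm hN1 hN2 a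
  have hEQ := hE K F hB hK hF P hpg d U x N hAm e 𝓡 s ⟨hs1, hs2⟩ wd hwd m hm w η hEq
  have : Nonempty (Exn e) := ⟨⟨⟨1, he⟩, Nat.coprime_one_left _⟩⟩
  refine le_trans (le_of_eq ?_) (hmul U w (Exn e × 𝓡) _ hP hw hEQ
    (fun q => Good T D La L l B (lkA (fun j => (x ⟨j, q j⟩).l) a) ∧
      Adz T (chA (fun j => (x ⟨j, q j⟩).l) a)) ?_)
  · congr 1
    funext q
    split_ifs <;> rfl
  · rintro q ⟨h1, h2⟩ a'
    obtain ⟨h3, h4⟩ := hsol (fun u => wd u (a' u).1 * s (a' u).2) (fun u => ⟨(a' u).1.1,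
      (Nat.Prime.coprime_iff_not_dvd Fact.out).1 ((a' u).1.2.coprime_dvd_right hpe).symm, by
        rw [map_mul, mul_inv_rev, mul_assoc]
        exact N.mul_mem (N.inv_mem (hs1 _)) (hwd _ _)⟩) q
    exact ⟨hinv _ _ h3 h1, h4 h2⟩

theorem ex_ZmFin {d : ℕ} {U : Fin d → Type} [∀ j, Fintype (U j)] (w : ∀ j, U j → ℝ)
    (hw : ∀ j u, 0 ≤ w j u) {A : Type} [Fintype A] [Nonempty A] (F : (∀ j, U j) → ℝ)
    (G : A → (∀ j, U j) → ℝ) (c b : ℝ) (hc : 0 ≤ c) (h1 : ∀ q, F q ≤ c * 𝔼 a, G a q)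
    (h2 : ∀ a, Ex w (G a) ≤ b) : Ex w F ≤ c * b := by
  have h3 : Ex w F ≤ c * 𝔼 a, Ex w (G a) := by
    simp only [Ex, smul_eq_mul]
    rw [Finset.expect_sum_comm, Finset.mul_sum]
    refine Finset.sum_le_sum fun q _ => ?_
    rw [← Finset.mul_expect, mul_left_comm]
    exact mul_le_mul_of_nonneg_left (h1 q) (Finset.prod_nonneg fun j _ => hw j _)
  exact h3.trans (mul_le_mul_of_nonneg_left
    (Finset.expect_le Finset.univ_nonempty fun a _ => h2 a) hc)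

section
variable {p : ℕ} [Fact p.Prime] {d : ℕ}

theorem row_ZmFin {r r' : Fin d → Fin d → ZMod p} (h : RowEq r r') (a : Fin d → ZMod p) :
    RowEq (fun i j => r i j * a j) (fun i j => r' i j * a j) ∧
      RowEq (fun i j => r' i j * a j) fun i j => r i j * a j := by
  obtain ⟨u, hu, h⟩ := h
  refine ⟨⟨u, hu, fun i j hij => ?_⟩, ⟨fun i => (u i)⁻¹, fun i => inv_ne_zero (hu i),
    fun i j hij => ?_⟩⟩
  · simp only [h i j hij, mul_assoc]
  · simp only [h i j hij, ← mul_assoc, inv_mul_cancel₀ (hu i), one_mul]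

theorem col_ZmFin (φ : (Fin d → Fin d → ZMod p) → ℝ) (r : Fin d → Fin d → ZMod p)
    (u : Fin d → (ZMod p)ˣ) :
    𝔼 a : Fin d → (ZMod p)ˣ, φ (fun i j => r i j * u j * a j) =
      𝔼 a : Fin d → (ZMod p)ˣ, φ fun i j => r i j * a j :=
  Fintype.expect_equiv (Equiv.mulLeft u) _ _ fun a => by
    simp only [Equiv.coe_mulLeft, Pi.mul_apply, Units.val_mul, mul_assoc]

theorem avg_ZmFin (φ : (Fin d → Fin d → ZMod p) → ℝ) :
    𝔼 r : Fin d → Fin d → ZMod p, 𝔼 a : Fin d → (ZMod p)ˣ, φ (fun i j => r i j * a j) =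
      𝔼 r, φ r := by
  rw [Finset.expect_comm]
  have h : ∀ a : Fin d → (ZMod p)ˣ,
      𝔼 r : Fin d → Fin d → ZMod p, φ (fun i j => r i j * a j) = 𝔼 r, φ r := fun a =>
    Fintype.expect_equiv (Equiv.piCongrRight fun _ => Equiv.piCongrRight fun j => (a j).mulRight)
      _ _ fun r => rfl
  simp only [h]
  exact Finset.expect_const Finset.univ_nonempty _

end

theorem level_ZmFin (p l B : ℕ) (δ : ℝ) (hδ : 0 < δ) :
    ∃ L, 2 ≤ L ∧ l + p + 1 ≤ L ∧ (B : ℝ) ^ l / 2 ^ (L - p - l) ≤ δ := by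
  obtain ⟨k, hk⟩ := pow_unbounded_of_one_lt ((B : ℝ) ^ l / δ) (one_lt_two (α := ℝ))
  refine ⟨k + 2 + p + l, by omega, by omega, ?_⟩
  rw [show k + 2 + p + l - p - l = k + 2 by omega, div_le_iff₀ (by positivity)]
  rw [div_lt_iff₀ hδ] at hk
  have h : (0 : ℝ) < 2 ^ k * δ := by positivity
  rw [pow_add]
  nlinarith

theorem pt_stmt (p : ℕ) [Fact p.Prime] (hP : PrimStmt p) (hG : Zk.GoodStmt p) (hI : IidStmt p)
    (hQ : PotStmt p) (hL : Ze.GlueStmt p) (hE : EqPStmt p) (hF : Zk.FinStmt p) : PtStmt p := by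
  classical
  intro K F _ _ hB hK hc l n ε hε
  obtain ⟨B, hB'⟩ := hG l n (ε ^ 2 / 4) (by positivity)
  obtain ⟨L, hL2, hL1, hL3⟩ := level_ZmFin p l B (ε ^ 2 / 8) (by positivity)
  refine ⟨L, hL2, fun S hTS => ?_⟩
  obtain ⟨D, La, hPk, hinv, d₀, hd₀⟩ := hB' S.P S.T L hTS hL1
  refine ⟨d₀, fun d hd => ?_⟩
  obtain ⟨η, hη, hfin⟩ := hF K F hB hK hc S.P S.T D La L l n B hPk d (hinv d) (ε ^ 2 / 8)
    (by positivity)
  obtain ⟨e, he1, hpe, hEv⟩ := hE K F hB hK hc (Finset (Fin d) → S.P)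
  have ht : ∀ j : ℕ, Tame p F ((fun _ => (1 : GK K)) j) := fun _ =>
    ⟨1, (Fact.out : p.Prime).not_dvd_one, by simp⟩
  obtain ⟨φ, hφ⟩ : ∃ φ : (Fin d → Fin d → ZMod p) → ℝ,
      ∀ r, φ r = if Good S.T D La L l B r then 0 else 1 := ⟨_, fun _ => rfl⟩
  have hφ0 : ∀ r, 0 ≤ φ r := fun r => by
    rw [hφ]
    split_ifs <;> norm_num
  have hε2 : 0 < 2 / ε := by positivity
  have hpot := hI K F hB hK hc d
    (fun r => 2 / ε * 𝔼 a : Fin d → (ZMod p)ˣ, φ fun i j => r i j * a j)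
    (fun r => mul_nonneg hε2.le (Finset.expect_nonneg fun a _ => hφ0 _))
    (fun r r' h => congrArg _ (Finset.expect_congr rfl fun a _ => by
      obtain ⟨h1, h2⟩ := row_ZmFin h fun j => a j
      rw [hφ, hφ]
      exact if_congr ⟨hinv d _ _ h1, hinv d _ _ h2⟩ rfl rfl))
    (fun r u => congrArg _ (col_ZmFin φ r u))
  have hβ : 𝔼 r : Fin d → Fin d → ZMod p,
      (2 / ε * 𝔼 a : Fin d → (ZMod p)ˣ, φ fun i j => r i j * a j) ≤ ε / 2 := by
    rw [← Finset.mul_expect, avg_ZmFin]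
    have h1 : 𝔼 r, φ r ≤ ε ^ 2 / 4 := by
      simp only [hφ]
      exact hd₀ d hd
    refine (mul_le_mul_of_nonneg_left h1 hε2.le).trans (le_of_eq ?_)
    field_simp
    ring
  have hid := (hQ K F hB _ ht d).1 _ _ hpot
  have key := hL K F hB d _ ht _ (hEv η hη)
    (fun q => ∃ c, Val p F (fun _ => (1 : GK K)) d c ∧
      (∀ j : Fin d, (c j).P.under (NumberField.RingOfIntegers K) = q j) ∧
      ¬ 1 ≤ 2 / ε * 𝔼 a : Fin d → (ZMod p)ˣ, φ fun i j => lk p (c i).l (c j).l * a j)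
    (fun q => ¬ 𝔼 a : Fin d → (ZMod p)ˣ,
      (if Adz S.T (chA (fun j => Ideal.absNorm (q j)) a) then 1 else 0 : ℝ) ≤ ε)
    (ε / 2) (ε / 2) η hη (fun q ⟨c, c1, c2, _⟩ => inj_ZcGlue c1 c2)
    (le_trans (by linarith) hid) ?_
  · simp only [not_not] at key
    exact le_trans (by linarith) key
  intro V _ x wt hw1 hw2 hx hinj hEq
  refine (ex_ZmFin wt hw1.1 _ _ (2 / ε) _ hε2.le (fun q => ?_)
    (hfin e he1 hpe V x wt hw1 hw2 hx hinj hEq)).trans ?_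
  · have h0 : ∀ a : Fin d → (ZMod p)ˣ, (0 : ℝ) ≤
        if Good S.T D La L l B (lkA (fun j => (x ⟨j, q j⟩).l) a) ∧
          Adz S.T (chA (fun j => (x ⟨j, q j⟩).l) a) then 1 else 0 := fun a => by
      split_ifs <;> norm_num
    split_ifs with h
    swap
    · exact mul_nonneg hε2.le (Finset.expect_nonneg fun a _ => h0 a)
    obtain ⟨⟨c, c1, c2, c3⟩, c4⟩ := h
    have hn : ∀ j, Ideal.absNorm (pr K (x ⟨j, q j⟩)) = (x ⟨j, q j⟩).l := fun j =>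
      ((hP K F hB hK hc).2.2.2.2 _ (hx ⟨j, q j⟩).1).2.1
    have hl : ∀ j : Fin d, (c j).l = (x ⟨j, q j⟩).l := fun j => by
      rw [← hn]
      exact ((hP K F hB hK hc).2.2.2.2 _ (c1.1 j j.2).1).2.1.symm.trans
        (congrArg Ideal.absNorm (c2 j))
    simp only [hl, hn, not_le] at c3 c4
    have h1 : 𝔼 a : Fin d → (ZMod p)ˣ,
        (if Adz S.T (chA (fun j => (x ⟨j, q j⟩).l) a) then 1 else 0 : ℝ) ≤
        𝔼 a : Fin d → (ZMod p)ˣ, φ (fun i j => lk p (x ⟨i, q i⟩).l (x ⟨j, q j⟩).l * a j) +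
        𝔼 a : Fin d → (ZMod p)ˣ, (if Good S.T D La L l B (lkA (fun j => (x ⟨j, q j⟩).l) a) ∧
          Adz S.T (chA (fun j => (x ⟨j, q j⟩).l) a) then 1 else 0 : ℝ) := by
      rw [← Finset.expect_add_distrib]
      refine Finset.expect_le_expect fun a _ => ?_
      change _ ≤ φ (lkA (fun j => (x ⟨j, q j⟩).l) a) + _
      rw [hφ]
      by_cases b1 : Good S.T D La L l B (lkA (fun j => (x ⟨j, q j⟩).l) a) <;>
        by_cases b2 : Adz S.T (chA (fun j => (x ⟨j, q j⟩).l) a) <;> simp [b1, b2]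
    rw [div_mul_eq_mul_div, div_lt_one hε] at c3
    rw [div_mul_eq_mul_div, one_le_div hε]
    linarith
  · refine (mul_le_mul_of_nonneg_left (add_le_add_left hL3 _) hε2.le).trans (le_of_eq ?_)
    field_simp
    ring

end Pool.Agent.MP_f68ac8_nt.Zk
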