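import Mathlib
import Pool.Agent.MP_f68ac8_nt.ZmAux
namespace Pool.Agent.MP_f68ac8_nt.Zk
open Ev Pv Sv Zv
open scoped commutatorElement
open NumberField
open scoped BigOperators

open Classical in
lemma share_ZmMain {A B : Type} [Fintype A] [Nonempty A] (f : A → B) (hf : Function.Injective f)
    (U : B → Prop) (ε : ℝ) (h : 𝔼 a, (if U (f a) then 0 else 1 : ℝ) ≤ ε) :
    1 - ε ≤ ({χ ∈ Set.range f | U χ}.ncard : ℝ) / (Set.range f).ncard := by
  have e1 : {χ ∈ Set.range f | U χ} = f '' (Finset.univ.filter fun a => U (f a) : Finset A) := by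
    ext χ
    simp only [Set.mem_ofPred_eq, Set.mem_range, Finset.coe_filter, Finset.mem_univ, true_and,
      Set.mem_image]
    exact ⟨fun ⟨⟨a, ha⟩, hU⟩ => ⟨a, ha ▸ hU, ha⟩, fun ⟨a, hU, ha⟩ => ⟨⟨a, ha⟩, ha ▸ hU⟩⟩
  have hpos : (0 : ℝ) < Fintype.card A := Nat.cast_pos.2 Fintype.card_pos
  rw [e1, Set.ncard_image_of_injective _ hf, Set.ncard_coe_finset, Set.ncard_range_of_injective hf,
    Nat.card_eq_fintype_card, le_div_iff₀ hpos]
  rw [Fintype.expect_eq_sum_div_card, div_le_iff₀ hpos] at h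
  have e2 : ∑ a, (if U (f a) then 0 else 1 : ℝ) + (Finset.univ.filter fun a => U (f a)).card =
      Fintype.card A := by
    rw [Finset.card_filter, Nat.cast_sum, ← Finset.sum_add_distrib, Fintype.card_eq_sum_ones,
      Nat.cast_sum]
    refine Finset.sum_congr rfl fun a _ => ?_
    split_ifs <;> simp
  linarith

open Classical in
lemma union_ZmMain {A J : Type} [Fintype A] [Fintype J] (U : A → Prop) (V : J → A → Prop)
    (e : J → ℝ) (h : ∀ a, ¬ U a → ∃ j, V j a)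
    (he : ∀ j, 𝔼 a, (if V j a then 1 else 0 : ℝ) ≤ e j) :
    𝔼 a, (if U a then 0 else 1 : ℝ) ≤ ∑ j, e j := by
  refine le_trans ?_ (Finset.sum_le_sum fun j _ => he j)
  rw [← Finset.expect_sum_comm]
  refine Finset.expect_le_expect fun a _ => ?_
  have h0 : ∀ j ∈ (Finset.univ : Finset J), (0 : ℝ) ≤ if V j a then 1 else 0 := fun j _ => by
    split_ifs <;> norm_num
  by_cases hU : U a
  · rw [if_pos hU]
    exact Finset.sum_nonneg h0
  · obtain ⟨j, hj⟩ := h a hU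
    rw [if_neg hU]
    exact le_trans (le_of_eq (if_pos hj).symm) (Finset.single_le_sum h0 (Finset.mem_univ j))

theorem main_stmt (p : ℕ) [Fact p.Prime] (hT : TupStmt) (hB : BaseStmt p) (hP : PrimStmt p)
    (hC : ChStmt p) (hQ : PtStmt p) (hI : IndStmt p) (hS : ClsStmt p) (hF : FamStmt p)
    (hA : AbStmt p) : Zk.MainStmt p := by
  classical
  intro h2 n ε hε
  obtain ⟨K, F, iK, iF, hFb, hK, hcyc, φ, hφ⟩ := hB h2
  obtain ⟨R, ϖ, hR, hR1, hInd⟩ := hI n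
  obtain ⟨-, -, hP3, hP4, -⟩ := hP K F hFb hK hcyc
  obtain ⟨-, -, hC3⟩ := hC K F hFb hK hcyc
  have hQ' : ∀ (l n : ℕ) (e : ℝ), ∃ L, 2 ≤ L ∧ (0 < e → ∀ S : Sy p, TS S.T L l n →
      ∃ d₀, ∀ d, d₀ ≤ d → 1 - e ≤ tupDens (fun _ => Typ p K F 1) d fun q =>
        Function.Injective q ∧ 𝔼 a : Fin d → (ZMod p)ˣ,
          (if Adz S.T (chA (fun j => Ideal.absNorm (q j)) a) then 1 else 0 : ℝ) ≤ e) := by
    intro l n e
    by_cases he : 0 < e
    · obtain ⟨L, h1, h3⟩ := hQ K F hFb hK hcyc l n e he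
      exact ⟨L, h1, fun _ => h3⟩
    · exact ⟨2, le_rfl, fun h => absurd h he⟩
  choose Lf hL2 hLf using hQ'
  obtain ⟨J, iJ, S, l, m, e, hSe, hsum, hcov⟩ :=
    hF h2 _ R ϖ hR hR1 Lf hL2 (ε / 2) (half_pos hε)
  obtain ⟨S₀, hS₀, -⟩ := hA h2 (Lf 1 (p ^ 3) (ε / 2)) (hL2 _ _ _)
  obtain ⟨d₀, hd₀⟩ := hLf 1 (p ^ 3) (ε / 2) (half_pos hε) S₀ hS₀
  choose d₁ hd₁ using fun j => hLf (l j) (m j) (e j) (hSe j).1 (S j) (hSe j).2
  refine ⟨1 + d₀ + ∑ j, d₁ j, fun d hd => ?_⟩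
  have hj : ∀ j, d₁ j ≤ d := fun j =>
    (Finset.single_le_sum (fun i _ => Nat.zero_le (d₁ i)) (Finset.mem_univ j)).trans (by omega)
  have key := (hT K d fun _ => Typ p K F 1).2.1 (Option J)
    (fun o q => Function.Injective q ∧ 𝔼 a : Fin d → (ZMod p)ˣ,
      (if Adz (o.elim S₀ S).T (chA (fun j => Ideal.absNorm (q j)) a) then 1 else 0 : ℝ) ≤
        o.elim (ε / 2) e) (fun o => o.elim (ε / 2) e) (by
      rintro (_ | j)
      · exact hd₀ d (by omega)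
      · exact hd₁ j d (hj j))
  rw [Fintype.sum_option] at key
  rw [← (hT ℚ d _).2.2 K φ fun q => (hφ q).1]
  have eT : (fun (_ : ℕ) (q : Ideal (𝓞 K)) =>
      (φ q).IsMaximal ∧ Ideal.absNorm (φ q) ≡ 1 [MOD p]) = fun _ => Typ p K F 1 := by
    funext _ q
    rw [(hφ q).1, (hφ q).2, hP4 q]
  rw [eT]
  refine le_trans ?_ (key.trans ((hT K d _).1 _ _ fun q hq h => ?_))
  · simp only [Option.elim_none, Option.elim_some]
    linarith
  have hinj : Function.Injective q := (h none).1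
  refine ⟨φ.injective.comp hinj, ?_⟩
  simp only [fun q => (hφ q).1]
  have hmax : ∀ j, (q j).IsMaximal := fun j => ((hP4 _).1 (hq j)).1
  have hP1 : ∀ j, P1 p (Ideal.absNorm (q j)) := fun j =>
    ⟨(hP3 _ (hmax j)).1, ((hP4 _).1 (hq j)).2⟩
  have hl : Function.Injective fun j => Ideal.absNorm (q j) := by
    intro i j hij
    obtain ⟨P, hPm, hPi⟩ := exists_maximal_mem (Ω := Qb) (hP1 i).1
    refine hinj ((((hP3 _ (hmax i)).2 P hPm).2 hPi).symm.trans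
      (((hP3 _ (hmax j)).2 P hPm).2 ?_))
    have hij' : Ideal.absNorm (q i) = Ideal.absNorm (q j) := hij
    rwa [← hij']
  obtain ⟨-, hrange, hchA⟩ := hC3 d _ hl hP1
  unfold share
  rw [hrange]
  refine share_ZmMain _ hchA (fun χ => UnrFM p n χ.ker) ε ?_
  refine le_trans (union_ZmMain _
    (fun j a => Adz (S j).T (chA (fun j => Ideal.absNorm (q j)) a)) e (fun a ha => ?_)
    fun j => (h (some j)).2) (by linarith)
  have hmem : chA (fun j => Ideal.absNorm (q j)) a ∈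
      CycCh p (Set.range fun j => Ideal.absNorm (q j)) := hrange ▸ Set.mem_range_self a
  obtain ⟨g, -, hg⟩ := (hmem.2 _ (hP1 ⟨0, by omega⟩).1).1 (Set.mem_range_self _)
  obtain ⟨Θ, hΘ, hΘR⟩ := hInd _ hmem.1 ⟨g, hg⟩ ha
  obtain ⟨hcls, hadz⟩ := hS _ R ϖ _ Θ hR hΘ hΘR
  obtain ⟨j, hj⟩ := hcov _ hΘR hcls
  exact ⟨j, hadz _ hj⟩

end Pool.Agent.MP_f68ac8_nt.Zk
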