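import Mathlib
import Pool.Agent.MP_f68ac8_nt.ZmAux

namespace Pool.Agent.MP_f68ac8_nt.Zk

open Ev Pv Sv Zv
open scoped commutatorElement
open Finset
open scoped BigOperators

section
variable {p : ℕ} [hp : Fact p.Prime] {F : IntermediateField ℚ Qb} {t : GQ} {B : Type} [Fintype B]
  [DecidableEq B] {θ : B → GQ → ZMod p}

theorem ind_lin_ZmMn (h : Ind F t θ) {B' : Type} [Fintype B']
    (L : (B → ZMod p) →ₗ[ZMod p] (B' → ZMod p)) (hL : Function.Surjective L) :
    Ind F t fun b g => L (fun b => θ b g) b := by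
  classical
  refine ⟨fun b g hg g' hg' => ?_, fun b => ?_, fun b g hg => ?_, fun c hc => ?_⟩
  · rw [show (fun b => θ b (g * g')) = (fun b => θ b g) + fun b => θ b g' from
      funext fun b => h.add b g hg g' hg', map_add]
    rfl
  · filter_upwards [Filter.eventually_all.2 h.nhds] with g hg hF
    rw [show (fun b => θ b g) = 0 from funext fun b => hg b hF, map_zero]
    rfl
  · rw [show (fun b => θ b (t * g * t⁻¹)) = fun b => θ b g from funext fun b => h.conj b g hg]
  · have key : ∀ v : B → ZMod p, ∑ b', c b' * L v b'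
        = ∑ b, (∑ b', c b' * L (Pi.single b 1) b') * v b := by
      intro v
      conv_lhs => rw [pi_eq_sum_univ' v]
      simp only [map_sum, map_smul, Finset.sum_apply, Pi.smul_apply, smul_eq_mul, mul_sum, sum_mul]
      rw [sum_comm]
      exact sum_congr rfl fun b _ => sum_congr rfl fun b' _ => by ring
    have h0 := h.ind _ fun g hg => (key _).symm.trans (hc g hg)
    funext b'
    obtain ⟨v, hv⟩ := hL (Pi.single b' 1)
    have h1 := key v
    rw [hv, sum_eq_zero (s := (univ : Finset B)) fun b _ => by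
      rw [show ∑ b', c b' * L (Pi.single b 1) b' = 0 from congrFun h0 b, zero_mul]] at h1
    simpa [Pi.single_apply] using h1

open Classical in
theorem sub_ZmMn (h : Ind F t θ) (S : Submodule (ZMod p) (B → ZMod p)) :
    Mn p F t (fun g => if (fun b => θ b g) ∈ S then 1 else 0)
      (𝔼 v : B → ZMod p, if v ∈ S then (1 : ℝ) else 0) := by
  let e := (Module.finBasis (ZMod p) ((B → ZMod p) ⧸ S)).equivFun
  have h1 := (ind_lin_ZmMn h (e.toLinearMap ∘ₗ S.mkQ)
    (e.surjective.comp S.mkQ_surjective)).mn 1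
  have h2 : ∀ v : B → ZMod p, (∀ b, (e.toLinearMap ∘ₗ S.mkQ) v b = 0) ↔ v ∈ S := by
    intro v
    have k : (e.toLinearMap ∘ₗ S.mkQ) v = 0 ↔ v ∈ S := by simp
    rw [← k, funext_iff]
    rfl
  simp only [h2] at h1
  have h3 := S.card_eq_card_quotient_mul_card
  rw [Nat.card_congr e.toEquiv, Nat.card_fun, Nat.card_zmod, Nat.card_fun, Nat.card_zmod,
    Nat.card_eq_fintype_card (α := B), Nat.card_eq_fintype_card (α := Fin _)] at h3
  have h4 : (𝔼 v : B → ZMod p, if v ∈ S then (1 : ℝ) else 0)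
      = 1 / p ^ Fintype.card (Fin (Module.finrank (ZMod p) ((B → ZMod p) ⧸ S))) := by
    have hp0 : (0 : ℝ) < p := by exact_mod_cast hp.out.pos
    rw [Fintype.expect_eq_sum_div_card, sum_boole, Fintype.card_fun, ZMod.card, h3,
      ← Fintype.card_subtype, ← Nat.card_eq_fintype_card]
    have : (0 : ℝ) < Nat.card S := by exact_mod_cast Nat.card_pos
    push_cast
    field_simp
  rw [h4]
  exact h1

open Classical in
theorem dec_ZmMn (u : (B → ZMod p) → ℝ) (hu : ∀ c : ZMod p, c ≠ 0 → ∀ v, u (c • v) = u v)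
    (v : B → ZMod p) : u v = ∑ x, (u x / (p - 1) *
      (if v ∈ Submodule.span (ZMod p) {x} then 1 else 0) +
        -(u x / (p - 1)) * (if v ∈ (⊥ : Submodule (ZMod p) (B → ZMod p)) then 1 else 0)) +
      u 0 * (if v ∈ (⊥ : Submodule (ZMod p) (B → ZMod p)) then 1 else 0) := by
  by_cases hv : v = 0
  · subst hv
    simp
  · have hp1 : (p : ℝ) - 1 ≠ 0 := sub_ne_zero.2 (by exact_mod_cast hp.out.ne_one)
    simp only [Submodule.mem_bot, hv, if_false, mul_zero, add_zero, mul_ite, mul_one]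
    rw [← sum_filter]
    have e : (univ.filter fun x : B → ZMod p => v ∈ Submodule.span (ZMod p) {x})
        = (univ.erase (0 : ZMod p)).image fun c => c • v := by
      ext x
      simp only [mem_filter, mem_univ, true_and, Submodule.mem_span_singleton, mem_image,
        mem_erase, and_true]
      constructor
      · rintro ⟨a, rfl⟩
        have ha : a ≠ 0 := fun h => hv (by rw [h, zero_smul])
        exact ⟨a⁻¹, inv_ne_zero ha, inv_smul_smul₀ ha x⟩
      · rintro ⟨a, ha, rfl⟩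
        exact ⟨a⁻¹, inv_smul_smul₀ ha v⟩
    rw [e, sum_image fun a _ b _ h => smul_left_injective (ZMod p) hv h,
      sum_congr rfl fun c hc => by rw [hu c (mem_erase.1 hc).1], sum_const,
      card_erase_of_mem (mem_univ _), card_univ, ZMod.card, nsmul_eq_mul,
      Nat.cast_sub hp.out.one_le]
    push_cast
    field_simp

end

theorem mn_stmt (p : ℕ) [Fact p.Prime] : MnStmt p := by
  intro F t B _ _ θ h u hu
  have h1 := (Mn.sum fun x : B → ZMod p =>
    ((sub_ZmMn h (Submodule.span (ZMod p) {x})).smul (u x / (p - 1))).add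
      ((sub_ZmMn h ⊥).smul (-(u x / (p - 1))))).add ((sub_ZmMn h ⊥).smul (u 0))
  simp only [mul_expect, ← expect_add_distrib, ← expect_sum_comm, ← dec_ZmMn u hu] at h1
  exact h1

theorem swap_ZmMn {V R : Type} [Fintype V] [Fintype R] [Nonempty V] (ow : V → R → R) (rd : R → V)
    (h1 : ∀ v r, rd (ow v r) = v) (h2 : ∀ v r, ow (rd r) (ow v r) = r) (g : R → ℝ) :
    𝔼 v, 𝔼 r, g (ow v r) = 𝔼 r, g r := by
  have hi : Function.Involutive fun x : V × R => (rd x.2, ow x.1 x.2) := fun x => by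
    simp only [h1, h2]
  have h3 := Fintype.expect_equiv hi.toPerm (fun x => g (ow x.1 x.2)) (fun x => g x.2)
    fun _ => rfl
  rw [← univ_product_univ, expect_product, expect_product] at h3
  simpa using h3

section
variable {p : ℕ} [hp : Fact p.Prime] {d : ℕ}

/-- the known part of the matrix -/
noncomputable def mg_ZmMn (a : ℕ) (c : ℕ → Co) (r : Fin d → Fin d → ZMod p) (i j : Fin d) :
    ZMod p := if i.1 < a ∧ j.1 < a then lk p (c i).l (c j).l else r i j

/-- overwrite the new row and the new column -/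
def ow_ZmMn (a : ℕ) (v : Fin a ⊕ Fin a → ZMod p) (r : Fin d → Fin d → ZMod p) (i j : Fin d) :
    ZMod p :=
  if h : i.1 = a ∧ j.1 < a then v (.inl ⟨j, h.2⟩)
  else if h : i.1 < a ∧ j.1 = a then v (.inr ⟨i, h.1⟩) else r i j

theorem mean_ZmMn {a : ℕ} (ha : a < d) (g : (Fin d → Fin d → ZMod p) → ℝ) :
    𝔼 v, 𝔼 r, g (ow_ZmMn a v r) = 𝔼 r, g r := by
  refine swap_ZmMn (ow_ZmMn a) (fun r => Sum.elim (fun j => r ⟨a, ha⟩ ⟨j, j.2.trans ha⟩)
    fun i => r ⟨i, i.2.trans ha⟩ ⟨a, ha⟩) (fun v r => ?_) (fun v r => ?_) g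
  · funext b
    rcases b with j | i
    · simp [ow_ZmMn]
    · simp [ow_ZmMn]
  · funext i j
    by_cases h : i.1 = a ∧ j.1 < a
    · obtain ⟨rfl, h⟩ := h
      simp [ow_ZmMn, h]
    · by_cases h' : i.1 < a ∧ j.1 = a
      · obtain ⟨h', rfl⟩ := h'
        simp [ow_ZmMn, h']
      · simp only [ow_ZmMn, dif_neg h, dif_neg h']

theorem scale_ZmMn {f : (Fin d → Fin d → ZMod p) → ℝ} (h1 : ∀ r r', RowEq r r' → f r = f r')
    (h2 : ∀ r (u : Fin d → (ZMod p)ˣ), f (fun i j => r i j * u j) = f r) (a : ℕ) (c : ℕ → Co)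
    {s t : ZMod p} (hs : s ≠ 0) (ht : t ≠ 0) {v v' : Fin a ⊕ Fin a → ZMod p}
    (e1 : ∀ j, v' (.inl j) = s * v (.inl j)) (e2 : ∀ i, v' (.inr i) = t * v (.inr i)) :
    𝔼 r, f (mg_ZmMn a c (ow_ZmMn a v' r)) = 𝔼 r, f (mg_ZmMn a c (ow_ZmMn a v r)) := by
  let α : Fin d → (ZMod p)ˣ := fun i => if i.1 = a then Units.mk0 s hs else 1
  let β : Fin d → (ZMod p)ˣ := fun i => if i.1 = a then Units.mk0 t ht else 1
  let e : (Fin d → Fin d → ZMod p) ≃ (Fin d → Fin d → ZMod p) :=
    Equiv.piCongrRight fun i => Equiv.piCongrRight fun j => (α i * β j).mulLeft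
  refine (Fintype.expect_equiv e _ _ fun r => ?_).symm
  rw [← h2 _ β]
  refine h1 _ _ ⟨fun i => α i, fun i => (α i).ne_zero, fun i j _ => ?_⟩
  have he : e r i j = α i * β j * r i j := rfl
  simp only [mg_ZmMn, ow_ZmMn, he, e1, e2]
  by_cases k1 : i.1 < a ∧ j.1 < a
  · simp [α, β, k1, k1.1.ne, k1.2.ne]
  · rw [if_neg k1, if_neg k1]
    by_cases k2 : i.1 = a ∧ j.1 < a
    · rw [dif_pos k2, dif_pos k2]
      simp [α, β, k2.1, k2.2.ne]
    · rw [dif_neg k2, dif_neg k2]
      by_cases k3 : i.1 < a ∧ j.1 = a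
      · rw [dif_pos k3, dif_pos k3]
        simp [α, β, k3.2, k3.1.ne, mul_comm]
      · rw [dif_neg k3, dif_neg k3]
        ring

theorem new_ZmMn (a : ℕ) (c : ℕ → Co) (x : Co) (r : Fin d → Fin d → ZMod p) :
    RowEq (mg_ZmMn (a + 1) (Function.update c a x) r) (mg_ZmMn a c (ow_ZmMn a
      (Sum.elim (fun j => lk p x.l (c j).l) fun i => lk p (c i).l x.l) r)) := by
  refine ⟨fun _ => 1, fun _ => one_ne_zero, fun i j hij => ?_⟩
  have hne : i.1 ≠ j.1 := fun h => hij (Fin.ext h)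
  simp only [mg_ZmMn, ow_ZmMn, one_mul, Sum.elim_inl, Sum.elim_inr]
  by_cases k1 : i.1 < a ∧ j.1 < a
  · rw [if_pos k1, if_pos (by omega), Function.update_of_ne k1.1.ne,
      Function.update_of_ne k1.2.ne]
  · rw [if_neg k1]
    by_cases k2 : i.1 = a ∧ j.1 < a
    · rw [dif_pos k2, if_pos (by omega), Function.update_of_ne k2.2.ne, k2.1,
        Function.update_self]
    · rw [dif_neg k2]
      by_cases k3 : i.1 < a ∧ j.1 = a
      · rw [dif_pos k3, if_pos (by omega), Function.update_of_ne k3.1.ne, k3.2,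
          Function.update_self]
      · rw [dif_neg k3, if_neg (by omega)]

end

theorem iid_stmt (p : ℕ) [Fact p.Prime] (hP : PrimStmt p) (hC : ChStmt p) (hM : MnStmt p) :
    IidStmt p := by
  intro K F _ _ hB hK hF d f h0 h1 h2
  obtain ⟨-, -, -, -, hP⟩ := hP K F hB hK hF
  obtain ⟨-, hC2, hC3⟩ := hC K F hB hK hF
  refine ⟨fun a c => 𝔼 r, f (mg_ZmMn a c r), fun c => ?_, fun c _ => ?_, fun c _ hc => ?_,
    fun a ha c hv => ?_⟩
  · refine le_of_eq (expect_congr rfl fun r _ => congrArg f ?_)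
    funext i j
    simp [mg_ZmMn]
  · exact expect_nonneg fun r _ => h0 _
  · have : ∀ r : Fin d → Fin d → ZMod p,
        mg_ZmMn d c r = fun i j : Fin d => lk p (c i).l (c j).l := by
      intro r
      funext i j
      simp [mg_ZmMn]
    simpa only [this, Fintype.expect_const] using hc
  · have hl : ∀ j : Fin a, P1 p (c j).l := fun j =>
      ((hP _ (hv.1 j j.2).1).2.2 (hv.1 j j.2).2).1
    have hI := (hC3 a (fun j => (c j).l) (fun i j h => Fin.ext (hv.2 i i.2 j j.2 h)) hl).1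
    refine ⟨_, _, ∅, hM F 1 _ _ hI (fun v => 𝔼 r, f (mg_ZmMn a c (ow_ZmMn a v r)))
      fun s hs v => scale_ZmMn h1 h2 a c hs hs (fun _ => rfl) fun _ => rfl,
      (mean_ZmMn ha fun r => f (mg_ZmMn a c r)).le, fun x hx _ => le_of_eq ?_⟩
    obtain ⟨k1, k2⟩ := (hP x hx.1).2.2 hx.2.1
    obtain ⟨-, k3, κ, k4, k5⟩ := hC2 x hx.1 k1
    rw [k2, pow_one]
    refine (expect_congr rfl fun r _ => h1 _ _ (new_ZmMn a c x r)).trans ?_
    refine scale_ZmMn h1 h2 a c one_ne_zero k4 (fun j => ?_) fun i => ?_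
    · rw [one_mul]
      exact ((k3 _ (hl j) (hx.2.2 j j.2).symm).1).symm
    · exact k5 _ (hl i) (hx.2.2 i i.2).symm

end Pool.Agent.MP_f68ac8_nt.Zk
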