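import Mathlib
import Pool.Agent.MP_f68ac8_nt.ZlAll
import Pool.Agent.MP_f68ac8_nt.ZmBase
import Pool.Agent.MP_f68ac8_nt.ZmCh
import Pool.Agent.MP_f68ac8_nt.ZmCore
import Pool.Agent.MP_f68ac8_nt.ZmEqP
import Pool.Agent.MP_f68ac8_nt.ZmEqa
import Pool.Agent.MP_f68ac8_nt.ZmFin
import Pool.Agent.MP_f68ac8_nt.ZmGen
import Pool.Agent.MP_f68ac8_nt.ZmInd
import Pool.Agent.MP_f68ac8_nt.ZmMain
import Pool.Agent.MP_f68ac8_nt.ZmMn
import Pool.Agent.MP_f68ac8_nt.ZmSol
import Pool.Agent.MP_f68ac8_nt.ZmTup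

/-! The theorem on cyclic fields. -/

namespace Pool.Agent.MP_f68ac8_nt.Zk

variable (p : ℕ) [Fact p.Prime]

theorem prim_all : PrimStmt p := prim_stmt p (core_all p)

theorem ch_all : ChStmt p := ch_stmt p (core_all p) (prim_all p) (restr_all p)

theorem iid_all : IidStmt p := iid_stmt p (prim_all p) (ch_all p) (mn_stmt p)

theorem genP_all : GenPStmt p := genP_stmt p (prim_all p) (restr_all p) Zv.finc_stmt

theorem eqP_all : EqPStmt p :=
  eqP_stmt p (prim_all p) (genP_all p) (cheb_all p) Zv.fc_stmt Zv.finc_stmt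

theorem eqa_all : EqaStmt p := eqa_stmt p (genP_all p)

theorem sol_all : SolStmt p := sol_stmt p (prim_all p) (ch_all p) (restr_all p)

theorem pt_all : PtStmt p :=
  pt_stmt p (prim_all p) (good_all p) (iid_all p) (pot_all p) (glue_all p) (eqP_all p)
    (fin_stmt p (multi_all p) Zv.unif_stmt (genP_all p) (eqa_all p) (sol_all p) (gd_stmt p))

theorem main_all : MainStmt p :=
  main_stmt p tup_stmt (base_stmt p) (prim_all p) (ch_all p) (pt_all p)
    (ind_stmt p (dv_stmt p) (cl_all p)) (cls_stmt p (cl_all p)) (fam_all p) (ab_all p)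

end Pool.Agent.MP_f68ac8_nt.Zk
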