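import Mathlib
import Pool.Agent.MP_f68ac8_nt.ZmAll

namespace Pool.Agent.MP_f68ac8_nt.CyclicOld

open Pool.Agent.MP_f68ac8_nt

theorem result (p : ℕ) [Fact p.Prime] (hp : 2 < p) (n : ℕ) (ε : ℝ) (hε : 0 < ε) :
    ∃ d₀, ∀ d, d₀ ≤ d → 1 - ε ≤
      tupDens (K := ℚ) (fun _ q => q.IsMaximal ∧ Ideal.absNorm q ≡ 1 [MOD p]) d fun q =>
        Function.Injective q ∧ 1 - ε ≤ share p n (Set.range fun j => Ideal.absNorm (q j)) :=
  Zk.main_all p hp n ε hε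

end Pool.Agent.MP_f68ac8_nt.CyclicOld
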