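import Mathlib
import Pool.Agent.MP_f68ac8_nt.Defs

namespace Pool.Agent.MP_f68ac8_nt

open Matrix

/-- The local Galois group at `p` (continuous automorphisms `g` of `ℂ_p`, mapped to `h` in the
global Galois group through the embedding `ι`) acts on the vector `v` of `V ⊗ ℂ_p` through the
`a`-th power of the cyclotomic character. -/
def HTVec (p : ℕ) [Fact p.Prime] (ι : AlgebraicClosure ℚ →+* PadicComplex p)
    (ρ : GQ → GL (Fin 2) ℚ_[p]) (a : ℤ) (v : Fin 2 → PadicComplex p) : Prop :=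
  ∀ (g : PadicComplex p ≃+* PadicComplex p) (h : GQ), Continuous g → (∀ x, g (ι x) = ι (h x)) →
    (ρ h).val.map (algebraMap ℚ_[p] (PadicComplex p)) *ᵥ (fun i => g (v i)) =
      algebraMap ℚ_[p] (PadicComplex p)
        ((cyclotomicCharacter (AlgebraicClosure ℚ) p h.toRingEquiv : ℤ_[p]) : ℚ_[p]) ^ a • v

/-- `ρ` is Hodge-Tate at `p` with weights `a` and `b` -/
def HodgeTate (p : ℕ) [Fact p.Prime] (ρ : GQ → GL (Fin 2) ℚ_[p]) (a b : ℤ) : Prop :=
  ∃ (ι : AlgebraicClosure ℚ →+* PadicComplex p) (v w : Fin 2 → PadicComplex p),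
    LinearIndependent (PadicComplex p) ![v, w] ∧ HTVec p ι ρ a v ∧ HTVec p ι ρ b w

/-- Reducibility of the residually trivial two-dimensional `p`-adic representations whose
ramified primes congruent to `1` mod `p` lie in `S` and which are Hodge-Tate at `p` with
difference of the weights in `W` modulo `p`. -/
def HTFM (p : ℕ) [Fact p.Prime] (W : Set (ZMod p)) (S : Set ℕ) : Prop :=
  ∀ ρ : GQ →ₜ* GL (Fin 2) ℚ_[p],
    (∀ g, ‖trace (ρ g).val - 2‖ < 1) →
    (∀ l, l.Prime → l ≡ 1 [MOD p] → l ∉ S → ∀ g, InertiaAt l g → ρ g = 1) →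
    ∀ a b : ℤ, HodgeTate p ρ a b → ((a - b : ℤ) : ZMod p) ∈ W →
      ∃ u : Fin 2 → ℚ_[p], u ≠ 0 ∧ ∀ g, ∃ c : ℚ_[p], (ρ g).val *ᵥ u = c • u

end Pool.Agent.MP_f68ac8_nt
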