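import Mathlib
import Pool.Agent.MP_f68ac8_nt.Defs

namespace Pool.Agent.MP_f68ac8_nt

open Matrix

/-- the `p`-adic cyclotomic character of the absolute Galois group of the rationals -/
noncomputable def cycChar (p : ℕ) [Fact p.Prime] (h : GQ) : ℤ_[p]ˣ :=
  cyclotomicCharacter (AlgebraicClosure ℚ) p h.toRingEquiv

/-- `ρ` is Hodge-Tate at `p` with weights `a i`: there is a basis `v` of `V ⊗ ℂ_p` such that the
local Galois group at `p` (continuous automorphisms `g` of `ℂ_p`, mapped to `h` in the global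
Galois group through an embedding `ι`) acts on `v i` through the `a i`-th power of the cyclotomic
character. -/
def HTWeights (p : ℕ) [Fact p.Prime] {n : ℕ} (ρ : GQ → GL (Fin n) ℚ_[p]) (a : Fin n → ℤ) : Prop :=
  ∃ (ι : AlgebraicClosure ℚ →+* PadicComplex p) (v : Fin n → Fin n → PadicComplex p),
    LinearIndependent (PadicComplex p) v ∧
    ∀ (i : Fin n) (g : PadicComplex p ≃+* PadicComplex p) (h : GQ), Continuous g →
      (∀ x, g (ι x) = ι (h x)) →
      (ρ h).val.map (algebraMap ℚ_[p] (PadicComplex p)) *ᵥ (fun k => g (v i k)) =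
        algebraMap ℚ_[p] (PadicComplex p) ((cycChar p h : ℤ_[p]) : ℚ_[p]) ^ a i • v i

/-- Irreducible Hodge-Tate representations with pro-`p` image, weights differing by at most `K`,
whose ramified primes congruent to `1` mod `p` lie in `S`, and for which the image of the kernel
of the cyclotomic character is powerful, have finite image on that kernel. -/
def PowHT (p : ℕ) [Fact p.Prime] (K : ℕ) (S : Set ℕ) : Prop :=
  ∀ (n : ℕ) (ρ : GQ →ₜ* GL (Fin n) ℚ_[p]),
    (∀ W : Submodule ℚ_[p] (Fin n → ℚ_[p]), (∀ g, ∀ w ∈ W, (ρ g).val *ᵥ w ∈ W) → W = ⊥ ∨ W = ⊤) →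
    (∀ g, Filter.Tendsto (fun k : ℕ => ρ g ^ p ^ k) Filter.atTop (nhds 1)) →
    (∀ x y, cycChar p x = 1 → cycChar p y = 1 → ρ (x * y * x⁻¹ * y⁻¹) ∈
      (Subgroup.closure ((fun z => ρ z ^ p) '' {z | cycChar p z = 1})).topologicalClosure) →
    (∀ l, l.Prime → l ≡ 1 [MOD p] → l ∉ S → ∀ g, InertiaAt l g → ρ g = 1) →
    ∀ a : Fin n → ℤ, HTWeights p ρ a → (∀ i j, |a i - a j| ≤ K) →
      (ρ '' {z | cycChar p z = 1}).Finite

end Pool.Agent.MP_f68ac8_nt
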