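import Mathlib
import Pool.Agent.MP_f68ac8_nt.Defs

namespace Pool.Agent.MP_f68ac8_nt

open NumberField

/-- `U` is a powerful pro-`p` group (`p` odd) -/
def PowerfulProP (p : ℕ) (U : Type) [Group U] [TopologicalSpace U] [IsTopologicalGroup U] : Prop :=
  CompactSpace U ∧ T2Space U ∧ TotallyDisconnectedSpace U ∧
    (∀ N : OpenNormalSubgroup U, IsPGroup p (U ⧸ N.toSubgroup)) ∧
    ∀ x y : U, x * y * x⁻¹ * y⁻¹ ∈
      (Subgroup.closure (Set.range fun z : U => z ^ p)).topologicalClosure

/-- Finiteness of the powerful pro-`p` quotients of the absolute Galois group of the rationals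
that are potentially unramified at `p` and whose ramified primes congruent to `1` mod `p` lie
in `S`. -/
def PowFM (p : ℕ) (S : Set ℕ) : Prop :=
  ∀ (U : Type) [Group U] [TopologicalSpace U] [IsTopologicalGroup U], PowerfulProP p U →
    ∀ ρ : GQ →ₜ* U, Function.Surjective ρ →
      (∀ P : Ideal (𝓞 (AlgebraicClosure ℚ)), P.IsMaximal → (p : 𝓞 (AlgebraicClosure ℚ)) ∈ P →
        (ρ '' P.inertia GQ).Finite) →
      (∀ l, l.Prime → l ≡ 1 [MOD p] → l ∉ S → ∀ g, InertiaAt l g → ρ g = 1) →
      Finite U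

end Pool.Agent.MP_f68ac8_nt
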