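import Mathlib

namespace Pool.Agent.MP_f68ac8_nt

/-- the level `k` linking system has a non-degenerate solution in nilpotent matrices over `F` -/
def Sol {p : ℕ} {ι : Type} [Fintype ι] (F : Type) [Field F] [Algebra (ZMod p) F]
    (m : Matrix ι ι (ZMod p)) (v : ι → ℕ) (k : ℕ) : Prop :=
  ∃ x : ι → Matrix (Fin 2) (Fin 2) F, (∀ i, x i * x i = 0) ∧
    (∃ i j, Matrix.trace (x i * x j) ≠ 0) ∧ (∀ i, v i < k → x i = 0) ∧
    ∀ i, (∑ j, m i j • x j) * x i - x i * (∑ j, m i j • x j) = if v i = k then x i else 0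

end Pool.Agent.MP_f68ac8_nt
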