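import Mathlib
import Pool.Agent.MP_f68ac8_nt.DefsPH

namespace Pool.Agent.MP_f68ac8_nt

open Matrix

/-- Semisimple Hodge-Tate representations of dimension `n` that are congruent to `1` mod `p`,
have weights differing by at most `K`, and whose ramified primes congruent to `1` mod `p` lie in
`S`, factor through the cyclotomic character. -/
def CongHT (p : ℕ) [Fact p.Prime] (n K : ℕ) (S : Set ℕ) : Prop :=
  ∀ ρ : GQ →ₜ* GL (Fin n) ℚ_[p],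
    (∀ W : Submodule ℚ_[p] (Fin n → ℚ_[p]), (∀ g, ∀ w ∈ W, (ρ g).val *ᵥ w ∈ W) →
      ∃ W', IsCompl W W' ∧ ∀ g, ∀ w ∈ W', (ρ g).val *ᵥ w ∈ W') →
    (∀ g i j, ‖((ρ g).val - 1) i j‖ ≤ (p : ℝ)⁻¹) →
    (∀ l, l.Prime → l ≡ 1 [MOD p] → l ∉ S → ∀ g, InertiaAt l g → ρ g = 1) →
    ∀ a : Fin n → ℤ, HTWeights p ρ a → (∀ i j, |a i - a j| ≤ K) →
      ∀ g, cycChar p g = 1 → ρ g = 1

end Pool.Agent.MP_f68ac8_nt
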