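import Mathlib
import Pool.Agent.MP_f68ac8_nt.Defs

namespace Pool.Agent.MP_f68ac8_nt

open Filter Topology NumberField

variable (p : ℕ) (F K : IntermediateField ℚ (AlgebraicClosure ℚ)) (S : Set (Ideal (𝓞 F)))

/-- `g` fixes `F` and lies in the inertia group of a prime that is not above `S` -/
def InerOut (g : GQ) : Prop :=
  g ∈ F.fixingSubgroup ∧ ∃ P : Ideal (𝓞 (AlgebraicClosure ℚ)), P.IsMaximal ∧
    P.under (𝓞 F) ∉ S ∧ g ∈ P.inertia GQ

/-- continuous additive characters of the Galois group of `K` that are unramified outside `S` -/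
structure UnrCh (χ : GQ → ZMod p) : Prop where
  add : ∀ g ∈ K.fixingSubgroup, ∀ h ∈ K.fixingSubgroup, χ (g * h) = χ g + χ h
  nhds : ∀ᶠ g in 𝓝 (1 : GQ), g ∈ K.fixingSubgroup → χ g = 0
  unr : ∀ g ∈ K.fixingSubgroup, InerOut F S g → χ g = 0

/-- `(x - 1) ^ (k + 1)` kills these characters -/
def NilAct (k : ℕ) (x : GQ) : Prop :=
  ∀ χ, UnrCh p F K S χ → ∀ g ∈ K.fixingSubgroup,
    (fun (θ : GQ → ZMod p) (h : GQ) => θ (x * h * x⁻¹) - θ h)^[k + 1] χ g = 0

/-- every product of `c` matrices `ρ g - 1` vanishes modulo `p` -/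
def ResNil [Fact p.Prime] {G : Type} {n : ℕ} (c : ℕ) (ρ : G → GL (Fin n) ℤ_[p]) : Prop :=
  ∀ g : Fin c → G, (List.ofFn fun i => (ρ (g i)).val - 1).prod.map PadicInt.toZMod = 0

end Pool.Agent.MP_f68ac8_nt
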