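import Mathlib
import Pool.Agent.MP_f68ac8_nt.WvDefs

/-! Rigidity of automorphisms of valued groups. -/

namespace Pool.Agent.MP_f68ac8_nt.Sv

open Matrix Filter Topology

/-- a filtration of a ring in which multiplication by `p` has degree `e` -/
structure Fil (p e : ℕ) {R : Type} [Ring R] (J : ℕ → AddSubgroup R) : Prop where
  top : (1 : R) ∈ J 0
  anti : ∀ t a, a ∈ J (t + 1) → a ∈ J t
  mul : ∀ s t a b, a ∈ J s → b ∈ J t → a * b ∈ J (s + t)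
  pmul : ∀ t a, p • a ∈ J (t + e) ↔ a ∈ J t
  sep : ∀ a, (∀ t, a ∈ J t) → a = 0

/-- the difference operator of an endomorphism -/
def tw {G V : Type} [Group G] [AddCommGroup V] (α : G →* G) (θ : G → V) (g : G) : V :=
  θ (α g) - θ g

/-- the data of the rigidity lemma -/
structure Rig (p e k : ℕ) {R G : Type} [Ring R] [Group G] (J : ℕ → AddSubgroup R) (T : R →+* R)
    (ρ : G →* R) (α : G →* G) : Prop extends Fil p e J where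
  pos : 0 < e
  stab : ∀ t a, a ∈ J t → T a ∈ J t
  eqv : ∀ g, ρ (α g) = T (ρ g)
  one : ∀ g, ρ g - 1 ∈ J 1
  nil : ∀ (t : ℕ) (χ : G → ZMod p), (∀ g h, χ (g * h) = χ g + χ h) →
    (∀ g, ρ g - 1 ∈ J t → χ g = 0) → ∀ g, (tw α)^[k + 1] χ g = 0

section
variable (p : ℕ) [hp : Fact p.Prime]

/-- the difference operator raises the filtration -/
def RaiseStmt : Prop :=
  ∀ (e k : ℕ) (R G : Type) [Ring R] [Group G] (J : ℕ → AddSubgroup R) (T : R →+* R) (ρ : G →* R)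
    (α : G →* G), Rig p e k J T ρ α → ∀ m : ℕ, (∀ g, T (ρ g) - ρ g ∈ J m) → ∀ g,
    (fun a => T a - a)^[k + 1] (T (ρ g) - ρ g) ∈ J (m + 1) ∧
    ∀ N, (e + 1) * (k * (e + 2) + 2) ≤ 2 * N →
      (fun a => T a - a)^[N] (T (ρ g) - ρ g) ∈ J (m + e + 1)

/-- the rigidity lemma -/
def CoreWStmt : Prop :=
  ∀ (e k : ℕ) (R G : Type) [Ring R] [Group G] (J : ℕ → AddSubgroup R) (T : R →+* R) (ρ : G →* R)
    (α : G →* G), Rig p e k J T ρ α → (e + 1) * (k * (e + 2) + 2) < 2 * p →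
    ∀ M : ℕ, 0 < M → (∀ g, T^[M] (ρ g) = ρ g) → ∀ g, T (ρ g) = ρ g

/-- valued groups are torsion free -/
def TorWStmt : Prop :=
  ∀ (e : ℕ) (R : Type) [Ring R] (J : ℕ → AddSubgroup R), Fil p e J → 0 < e → e + 1 < p →
    ∀ (u : R) (M : ℕ), u - 1 ∈ J 1 → 0 < M → u ^ M = 1 → u = 1

/-- the filtration of the Iwahori order -/
def IwaStmt : Prop :=
  ∀ n : ℕ, 0 < n → ∃ J : ℕ → AddSubgroup (Matrix (Fin n) (Fin n) ℤ_[p]), Fil p n J ∧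
    (∀ t, (J t : Set (Matrix (Fin n) (Fin n) ℤ_[p])) ∈ 𝓝 0) ∧
    ∀ (G : Type) [Group G] (ρ : G →* GL (Fin n) ℤ_[p]),
      (∀ g, ∃ a : ℕ, (ρ g ^ p ^ a).val.map PadicInt.toZMod = 1) →
      ∃ A : GL (Fin n) ℤ_[p], ∀ g, (A⁻¹ * ρ g * A).val - 1 ∈ J 1

/-- the filtration attached to a chain of lattices -/
def ChainStmt : Prop :=
  ∀ (n c : ℕ) (G : Type) [Group G] (ρ : G →* GL (Fin n) ℤ_[p]), 0 < c → ResNil p c ρ →
    ∃ J : ℕ → AddSubgroup (Matrix (Fin n) (Fin n) ℤ_[p]), Fil p c J ∧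
      (∀ t, (J t : Set (Matrix (Fin n) (Fin n) ℤ_[p])) ∈ 𝓝 0) ∧ ∀ g, (ρ g).val - 1 ∈ J 1

/-- extension to a group generated by elements of finite order -/
def ExtWStmt : Prop :=
  ∀ (Γ U : Type) [Group Γ] [Group U] (G : Subgroup Γ) [G.Normal] [G.FiniteIndex] (ρ : G →* U)
    (Y : Set Γ), Subgroup.closure Y ⊔ G = ⊤ →
    (∀ g, ∀ M : ℕ, 0 < M → ρ g ^ M = 1 → ρ g = 1) →
    (∀ y ∈ Y, (∀ g, ρ (MulAut.conjNormal y g) = ρ g) ∧
      ∃ M : ℕ, 0 < M ∧ ∃ h : y ^ M ∈ G, ρ ⟨_, h⟩ = 1) →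
    ∃ ρ' : Γ →* U, (∀ g : G, ρ' g = ρ g) ∧ ∀ x, ∃ g, ρ' x = ρ g

end

end Pool.Agent.MP_f68ac8_nt.Sv
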