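import Mathlib
import Pool.Agent.MP_f68ac8_nt.WvAux

namespace Pool.Agent.MP_f68ac8_nt.Sv

open Matrix Filter Topology

theorem fix_WvIwa {p : ℕ} [Fact p.Prime] {P V : Type} [Group P] (hP : IsPGroup p P)
    [AddCommGroup V] [Module (ZMod p) V] [Finite V] (ρ : Representation (ZMod p) P V)
    (W : Submodule (ZMod p) V) (hW : ∀ g, W ≤ W.comap (ρ g)) (hne : W ≠ ⊤) :
    ∃ x, x ∉ W ∧ ∀ g, ρ g x - x ∈ W := by
  let _ : MulAction P (V ⧸ W) := MulAction.compHom (V ⧸ W) (ρ.quotient W hW)
  have : Finite (V ⧸ W) := Finite.of_surjective _ W.mkQ_surjective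
  have : Nontrivial (V ⧸ W) := Submodule.Quotient.nontrivial_iff.2 hne
  have hd : p ∣ Nat.card (V ⧸ W) := by
    rw [Module.natCard_eq_pow_finrank (K := ZMod p), Nat.card_zmod]
    exact dvd_pow_self _ Module.finrank_pos.ne'
  obtain ⟨b, hb, hb0⟩ := hP.exists_fixed_point_of_prime_dvd_card_of_fixed_point (V ⧸ W) hd
    (a := 0) (fun g => map_zero (ρ.quotient W hW g))
  obtain ⟨x, rfl⟩ := W.mkQ_surjective b
  refine ⟨x, fun hx => hb0 ((Submodule.Quotient.mk_eq_zero W).2 hx).symm, fun g => ?_⟩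
  exact (Submodule.Quotient.eq W).1 (hb g)

theorem flag_WvIwa {p : ℕ} [Fact p.Prime] {P V : Type} [Group P] (hP : IsPGroup p P)
    [AddCommGroup V] [Module (ZMod p) V] [Finite V] (ρ : Representation (ZMod p) P V) :
    ∀ k ≤ Module.finrank (ZMod p) V, ∃ v : ℕ → V, LinearIndepOn (ZMod p) v (Set.Iio k) ∧
      ∀ g, ∀ j < k, ρ g (v j) - v j ∈ Submodule.span (ZMod p) (v '' Set.Iio j) := by
  intro k
  induction k with
  | zero => exact fun _ => ⟨fun _ => 0, by simp, fun _ _ h => absurd h (Nat.not_lt_zero _)⟩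
  | succ k ih =>
    intro hk
    obtain ⟨v, h1, h2⟩ := ih (by omega)
    have hW : ∀ g, Submodule.span (ZMod p) (v '' Set.Iio k) ≤
        (Submodule.span (ZMod p) (v '' Set.Iio k)).comap (ρ g) := by
      intro g
      rw [Submodule.span_le]
      rintro _ ⟨j, hj, rfl⟩
      have a1 := Submodule.span_mono (R := ZMod p)
        (Set.image_mono (f := v) (Set.Iio_subset_Iio (le_of_lt hj))) (h2 g j hj)
      have a2 : v j ∈ Submodule.span (ZMod p) (v '' Set.Iio k) :=
        Submodule.subset_span ⟨j, hj, rfl⟩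
      have := add_mem a1 a2
      rwa [sub_add_cancel] at this
    have hne : Submodule.span (ZMod p) (v '' Set.Iio k) ≠ ⊤ := by
      intro h
      have e : v '' Set.Iio k = Set.range fun i : Fin k => v i := by
        ext y
        exact ⟨fun ⟨j, hj, e⟩ => ⟨⟨j, hj⟩, e⟩, fun ⟨j, e⟩ => ⟨j, j.2, e⟩⟩
      have := finrank_range_le_card (R := ZMod p) fun i : Fin k => v i
      rw [Set.finrank, ← e, h, finrank_top, Fintype.card_fin] at this
      omega
    obtain ⟨x, hx, hx'⟩ := fix_WvIwa hP ρ _ hW hne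
    have e : ∀ j ≤ k, Function.update v k x '' Set.Iio j = v '' Set.Iio j := fun j hj =>
      Set.image_congr fun i hi => Function.update_of_ne (ne_of_lt (lt_of_lt_of_le hi hj)) _ _
    refine ⟨Function.update v k x, ?_, fun g j hj => ?_⟩
    · have e2 : Set.Iio (k + 1) = insert k (Set.Iio k) := by
        ext i
        simp only [Set.mem_Iio, Set.mem_insert_iff]
        omega
      rw [e2]
      refine LinearIndepOn.insert (h1.congr fun i hi => ?_) ?_
      · exact (Function.update_of_ne (ne_of_lt hi) _ _).symm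
      · rwa [e k le_rfl, Function.update_self]
    · rw [e j (by omega)]
      rcases Nat.lt_succ_iff_lt_or_eq.1 hj with h | rfl
      · rw [Function.update_of_ne (ne_of_lt h)]
        exact h2 g j h
      · rw [Function.update_self]
        exact hx' g

theorem tri_WvIwa {p : ℕ} [Fact p.Prime] {n : ℕ} (P : Subgroup (GL (Fin n) (ZMod p)))
    (hP : IsPGroup p P) : ∃ B : GL (Fin n) (ZMod p), ∀ g ∈ P, ∀ i j, j ≤ i →
      ((B⁻¹ * g * B).val - 1) i j = 0 := by
  let ρ : Representation (ZMod p) P (Fin n → ZMod p) :=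
    { toFun := fun g => Matrix.mulVecLin g.1.val
      map_one' := Matrix.mulVecLin_one
      map_mul' := fun g h => Matrix.mulVecLin_mul _ _ }
  obtain ⟨v, h1, h2⟩ := flag_WvIwa hP ρ n (by simp)
  have hli : LinearIndependent (ZMod p) (Matrix.of fun i j : Fin n => v j i).col :=
    LinearIndependent.comp h1 (fun j : Fin n => ⟨j.1, j.2⟩)
      fun a b h => Fin.ext (congrArg Subtype.val h)
  obtain ⟨B, hB⟩ := Matrix.linearIndependent_cols_iff_isUnit.1 hli
  refine ⟨B, fun g hg i j hij => ?_⟩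
  have hcol : ∀ l : Fin n, B.val *ᵥ Pi.single l 1 = v l := fun l => by
    rw [Matrix.mulVec_single_one, hB]
    rfl
  have key : ∀ y ∈ Submodule.span (ZMod p) (v '' Set.Iio j), ((B⁻¹).val *ᵥ y) i = 0 := by
    intro y hy
    induction hy using Submodule.span_induction with
    | mem y hy =>
      obtain ⟨l, hl, rfl⟩ := hy
      have hl' : l < n := lt_trans hl j.2
      have e := hcol ⟨l, hl'⟩
      dsimp only at e
      rw [← e, Matrix.mulVec_mulVec, Units.inv_mul, Matrix.one_mulVec, Pi.single_eq_of_ne]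
      intro h
      have h3 : (i : ℕ) = l := congrArg Fin.val h
      have h4 : l < (j : ℕ) := hl
      have h5 : (j : ℕ) ≤ i := hij
      omega
    | zero => simp
    | add a b _ _ ha hb => rw [Matrix.mulVec_add, Pi.add_apply, ha, hb, add_zero]
    | smul c a _ ha => rw [Matrix.mulVec_smul, Pi.smul_apply, ha, smul_zero]
  have h3 := key _ (h2 ⟨g, hg⟩ j j.2)
  change ((B⁻¹).val *ᵥ (g.val *ᵥ v j - v j)) i = 0 at h3
  rw [← hcol j, Matrix.mulVec_sub, Matrix.mulVec_mulVec, Matrix.mulVec_mulVec,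
    Matrix.mulVec_mulVec, ← Matrix.sub_mulVec, Units.inv_mul, Matrix.mulVec_single_one] at h3
  exact h3

/-- the filtration -/
def fil_WvIwa (p : ℕ) [Fact p.Prime] (n t : ℕ) : AddSubgroup (Matrix (Fin n) (Fin n) ℤ_[p]) where
  carrier := {a | ∀ (i j : Fin n) (c : ℕ), n * c + j < t + i + n → (p : ℤ_[p]) ^ c ∣ a i j}
  add_mem' := fun ha hb i j c h => dvd_add (ha i j c h) (hb i j c h)
  zero_mem' := fun _ _ _ _ => dvd_zero _
  neg_mem' := fun ha i j c h => (ha i j c h).neg_right

theorem isFil_WvIwa (p : ℕ) [hp : Fact p.Prime] {n : ℕ} (hn : 0 < n) :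
    Fil p n (fil_WvIwa p n) where
  top := fun i j c h => by
    by_cases e : i = j
    · subst e
      have : c = 0 := by
        by_contra h0
        have := Nat.mul_le_mul_left n (Nat.one_le_iff_ne_zero.2 h0)
        omega
      rw [this, pow_zero]
      exact one_dvd _
    · rw [Matrix.one_apply_ne e]
      exact dvd_zero _
  anti := fun t a h i j c hc => h i j c (by omega)
  mul := fun s t a b ha hb i j c hc => by
    rw [Matrix.mul_apply]
    refine Finset.dvd_sum fun l _ => ?_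
    have hl := l.2
    have e1 := Nat.div_add_mod (s + i + (n - 1 - l)) n
    have e2 := Nat.mod_lt (s + i + (n - 1 - l)) hn
    generalize (s + i + (n - 1 - l)) / n = c₁ at e1
    have h1 := ha i l c₁ (by omega)
    rcases le_total c c₁ with h | h
    · exact ((pow_dvd_pow _ h).trans h1).mul_right _
    · obtain ⟨c₂, rfl⟩ := Nat.exists_eq_add_of_le h
      rw [pow_add]
      rw [mul_add] at hc
      exact mul_dvd_mul h1 (hb l j c₂ (by omega))
  pmul := fun t a => by
    have hp0 : (p : ℤ_[p]) ≠ 0 := Nat.cast_ne_zero.2 hp.out.ne_zero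
    constructor
    · intro h i j c hc
      have := h i j (c + 1) (by rw [mul_add]; omega)
      rwa [Matrix.smul_apply, nsmul_eq_mul, pow_succ', mul_dvd_mul_iff_left hp0] at this
    · intro h i j c hc
      cases c with
      | zero => rw [pow_zero]; exact one_dvd _
      | succ c =>
        rw [Matrix.smul_apply, nsmul_eq_mul, pow_succ', mul_dvd_mul_iff_left hp0]
        rw [mul_add] at hc
        exact h i j c (by omega)
  sep := fun a h => by
    ext i j
    have : a i j ∈ ⨅ c : ℕ, (Ideal.span {(p : ℤ_[p])}) ^ c := by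
      refine Ideal.mem_iInf.2 fun c => ?_
      rw [Ideal.span_singleton_pow, Ideal.mem_span_singleton]
      exact h (n * c + j) i j c (by omega)
    rw [Ideal.iInf_pow_eq_bot_of_isDomain] at this
    · exact this
    · rw [← PadicInt.maximalIdeal_eq_span_p]
      exact (IsLocalRing.maximalIdeal.isMaximal _).ne_top

theorem nhds_WvIwa (p : ℕ) [hp : Fact p.Prime] {n : ℕ} (hn : 0 < n) (t : ℕ) :
    (fil_WvIwa p n t : Set (Matrix (Fin n) (Fin n) ℤ_[p])) ∈ 𝓝 0 := by
  have h : ∀ᶠ a : Matrix (Fin n) (Fin n) ℤ_[p] in 𝓝 0, ∀ i j,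
      ‖a i j‖ ≤ (p : ℝ) ^ (-((t + 2 * n : ℕ) : ℤ)) := by
    refine eventually_all.2 fun i => eventually_all.2 fun j => ?_
    have hc : Continuous fun a : Matrix (Fin n) (Fin n) ℤ_[p] => ‖a i j‖ :=
      (continuous_id.matrix_elem i j).norm
    have hpos : (0 : ℝ) < (p : ℝ) ^ (-((t + 2 * n : ℕ) : ℤ)) :=
      zpow_pos (Nat.cast_pos.2 hp.out.pos) _
    exact (hc.tendsto' 0 0 (by simp)).eventually (eventually_le_nhds hpos)
  refine mem_of_superset h fun a ha i j c hc => ?_
  have h1 := (PadicInt.norm_le_pow_iff_mem_span_pow _ _).1 (ha i j)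
  rw [Ideal.mem_span_singleton] at h1
  have h2 := Nat.le_mul_of_pos_left c hn
  have h3 := i.2
  exact (pow_dvd_pow _ (by omega)).trans h1

theorem iwa_stmt (p : ℕ) [Fact p.Prime] : IwaStmt p := by
  intro n hn
  refine ⟨fil_WvIwa p n, isFil_WvIwa p hn, nhds_WvIwa p hn, fun G _ ρ hρ => ?_⟩
  let f : GL (Fin n) ℤ_[p] →* GL (Fin n) (ZMod p) :=
    Matrix.GeneralLinearGroup.map PadicInt.toZMod
  have hP : IsPGroup p (f.comp ρ).range := by
    rintro ⟨_, g, rfl⟩
    obtain ⟨a, ha⟩ := hρ g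
    refine ⟨a, Subtype.ext ?_⟩
    change f (ρ g) ^ p ^ a = 1
    rw [← map_pow]
    exact Units.ext ha
  obtain ⟨B, hB⟩ := tri_WvIwa _ hP
  have hker : ∀ x : ℤ_[p], PadicInt.toZMod x = 0 ↔ x ∈ IsLocalRing.maximalIdeal ℤ_[p] :=
    fun x => by rw [← PadicInt.ker_toZMod, RingHom.mem_ker]
  have hA0 : (B.val.map fun x => (x.val : ℤ_[p])).map PadicInt.toZMod = B.val := by
    ext i j
    simp
  have hu : IsUnit (B.val.map fun x => (x.val : ℤ_[p])) := by
    rw [Matrix.isUnit_iff_isUnit_det]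
    by_contra h
    have h1 := (hker _).2 ((IsLocalRing.mem_maximalIdeal _).2 h)
    rw [RingHom.map_det, RingHom.mapMatrix_apply, hA0] at h1
    exact ((Matrix.isUnit_iff_isUnit_det _).1 B.isUnit).ne_zero h1
  obtain ⟨A, hA⟩ := hu
  have hAB : f A = B := Units.ext (by rw [← hA0, ← hA]; rfl)
  refine ⟨A, fun g i j c hc => ?_⟩
  rcases Nat.eq_zero_or_pos c with rfl | h0
  · rw [pow_zero]
    exact one_dvd _
  · obtain ⟨c, rfl⟩ := Nat.exists_eq_add_of_le' h0
    rw [mul_add] at hc
    have hi := i.2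
    have hc0 : c = 0 := by
      by_contra h0
      have := Nat.mul_le_mul_left n (Nat.one_le_iff_ne_zero.2 h0)
      omega
    subst hc0
    have h1 := hB (f (ρ g)) ⟨g, rfl⟩ i j (by rw [Fin.le_def]; omega)
    rw [← hAB, ← map_inv, ← map_mul, ← map_mul] at h1
    rw [zero_add, pow_one, ← Ideal.mem_span_singleton, ← PadicInt.maximalIdeal_eq_span_p, ← hker,
      ← h1, Matrix.sub_apply, Matrix.sub_apply, map_sub]
    congr 1
    simp [Matrix.one_apply, apply_ite]

end Pool.Agent.MP_f68ac8_nt.Sv
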