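import Mathlib
import Pool.Agent.MP_f68ac8_nt.WvAux
import Pool.Agent.MP_f68ac8_nt.WvIwa

namespace Pool.Agent.MP_f68ac8_nt.Sv

open Filter Topology

section

variable {R G : Type} [Ring R] {p c : ℕ} {u : G → R}

/-- the chain of right ideals -/
def L_WvChain (p c : ℕ) (u : G → R) (i : ℕ) : AddSubgroup R :=
  AddSubgroup.closure {y | ∃ (a : ℕ) (l : List G) (x : R), i ≤ c * a + l.length ∧
    y = p ^ a • ((l.map u).prod * x)}

theorem anti_WvChain {i j : ℕ} (h : i ≤ j) : L_WvChain p c u j ≤ L_WvChain p c u i :=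
  AddSubgroup.closure_mono fun _ ⟨a, l, x, h1, h2⟩ => ⟨a, l, x, h.trans h1, h2⟩

theorem pow_WvChain (q : ℕ) (x : R) : p ^ q • x ∈ L_WvChain p c u (c * q) :=
  AddSubgroup.subset_closure ⟨q, [], x, le_rfl, by simp⟩

theorem map_WvChain (f : R →+ R) {i j : ℕ} (h : ∀ (a : ℕ) (l : List G) (x : R),
    i ≤ c * a + l.length → f (p ^ a • ((l.map u).prod * x)) ∈ L_WvChain p c u j) {y : R}
    (hy : y ∈ L_WvChain p c u i) : f y ∈ L_WvChain p c u j :=
  (AddSubgroup.closure_le ((L_WvChain p c u j).comap f)).2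
    (by
      rintro _ ⟨a, l, x, h1, rfl⟩
      exact h a l x h1) hy

theorem div_WvChain (h : ∀ l : List G, l.length = c → ∃ w, (l.map u).prod = p • w) {i : ℕ} {y : R}
    (hy : y ∈ L_WvChain p c u (i + c)) : ∃ w ∈ L_WvChain p c u i, p • w = y := by
  refine (AddSubgroup.closure_le ((L_WvChain p c u i).map (nsmulAddMonoidHom p))).2 ?_ hy
  rintro _ ⟨a, l, x, h1, rfl⟩
  cases a with
  | zero =>
    obtain ⟨w, hw⟩ := h (l.drop (l.length - c)) (by rw [List.length_drop]; omega)
    refine ⟨_, AddSubgroup.subset_closure ⟨0, l.take (l.length - c), w * x, ?_, rfl⟩, ?_⟩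
    · rw [List.length_take]
      omega
    · conv_rhs => rw [← List.take_append_drop (l.length - c) l, List.map_append, List.prod_append,
        hw]
      simp only [nsmulAddMonoidHom_apply, pow_zero, one_smul, mul_smul_comm, smul_mul_assoc,
        mul_assoc]
  | succ a =>
    refine ⟨_, AddSubgroup.subset_closure ⟨a, l, x, ?_, rfl⟩, ?_⟩
    · rw [mul_add] at h1
      omega
    · rw [nsmulAddMonoidHom_apply, smul_smul, pow_succ']

theorem divs_WvChain (h : ∀ l : List G, l.length = c → ∃ w, (l.map u).prod = p • w) (q : ℕ) :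
    ∀ y ∈ L_WvChain p c u (c * q), ∃ w, p ^ q • w = y := by
  induction q with
  | zero => exact fun y _ => ⟨y, by simp⟩
  | succ q ih =>
    intro y hy
    obtain ⟨w, h1, rfl⟩ := div_WvChain h (i := c * q) hy
    obtain ⟨v, rfl⟩ := ih w h1
    exact ⟨v, by rw [smul_smul, pow_succ']⟩

/-- the filtration -/
def J_WvChain (p c : ℕ) (u : G → R) (t : ℕ) : AddSubgroup R where
  carrier := {a | ∀ i, ∀ y ∈ L_WvChain p c u i, a * y ∈ L_WvChain p c u (i + t)}
  add_mem' ha hb i y hy := by
    rw [add_mul]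
    exact add_mem (ha i y hy) (hb i y hy)
  zero_mem' i y _ := by
    rw [zero_mul]
    exact zero_mem _
  neg_mem' ha i y hy := by
    rw [neg_mul]
    exact neg_mem (ha i y hy)

theorem fil_WvChain (h : ∀ l : List G, l.length = c → ∃ w, (l.map u).prod = p • w)
    (h1 : ∀ x y : R, p • x = p • y → x = y) (h2 : ∀ a : R, (∀ q, ∃ w, p ^ q • w = a) → a = 0) :
    Fil p c (J_WvChain p c u) where
  top i y hy := by rwa [one_mul]
  anti t a ha i y hy := anti_WvChain (by omega) (ha i y hy)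
  mul s t a b ha hb i y hy := by
    rw [mul_assoc]
    exact anti_WvChain (by omega) (ha _ _ (hb i y hy))
  pmul t a := by
    refine ⟨fun ha i y hy => ?_, fun ha i y hy => ?_⟩
    · obtain ⟨w, h3, h4⟩ := div_WvChain h (i := i + t) (by
        rw [add_assoc]
        exact ha i y hy)
      rw [smul_mul_assoc] at h4
      exact h1 _ _ h4 ▸ h3
    · rw [smul_mul_assoc]
      refine map_WvChain (nsmulAddMonoidHom p) (fun a l x hl => ?_) (ha i y hy)
      refine AddSubgroup.subset_closure ⟨a + 1, l, x, by rw [mul_add]; omega, ?_⟩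
      rw [nsmulAddMonoidHom_apply, smul_smul, pow_succ']
  sep a ha := h2 a fun q => divs_WvChain h q a (by
    simpa using ha (c * q) 0 1 (by simpa using pow_WvChain (p := p) (c := c) (u := u) 0 1))

theorem one_WvChain (g : G) : u g ∈ J_WvChain p c u 1 := fun _ _ hy =>
  map_WvChain (AddMonoidHom.mulLeft (u g)) (fun a l x hl => AddSubgroup.subset_closure
    ⟨a, g :: l, x, by rw [List.length_cons]; omega, by
      rw [AddMonoidHom.coe_mulLeft, mul_smul_comm, List.map_cons, List.prod_cons, mul_assoc]⟩) hy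

theorem big_WvChain (hc : 0 < c) (h : ∀ l : List G, l.length = c → ∃ w, (l.map u).prod = p • w)
    (t : ℕ) (a : R) : p ^ (t + 1) • a ∈ J_WvChain p c u t := fun i y hy => by
  obtain ⟨w, rfl⟩ := divs_WvChain h (i / c) y (anti_WvChain (Nat.mul_div_le i c) hy)
  rw [smul_mul_smul_comm, ← pow_add]
  refine anti_WvChain ?_ (pow_WvChain _ _)
  have := Nat.lt_mul_div_succ i hc
  have := Nat.le_mul_of_pos_left t hc
  simp only [mul_add] at *
  omega

end

theorem entry_WvChain {p n : ℕ} [Fact p.Prime] {q : ℕ} {a : Matrix (Fin n) (Fin n) ℤ_[p]} :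
    (∃ w, p ^ q • w = a) ↔ ∀ i j, (p : ℤ_[p]) ^ q ∣ a i j := by
  refine ⟨fun ⟨w, hw⟩ i j => ⟨w i j, by
    rw [← hw, Matrix.smul_apply, nsmul_eq_mul, Nat.cast_pow]⟩, fun h => ?_⟩
  choose w hw using h
  refine ⟨Matrix.of w, Matrix.ext fun i j => ?_⟩
  rw [hw, Matrix.smul_apply, nsmul_eq_mul, Nat.cast_pow, Matrix.of_apply]

theorem chain_stmt (p : ℕ) [Fact p.Prime] : ChainStmt p := by
  intro n c G _ ρ hc hρ
  have hp : p.Prime := Fact.out
  have h : ∀ l : List G, l.length = c → ∃ w, (l.map fun g => (ρ g).val - 1).prod = p • w := by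
    rintro l rfl
    have h1 := hρ l.get
    rw [show (List.ofFn fun i => (ρ (l.get i)).val - 1) = l.map fun g => (ρ g).val - 1 by
      rw [List.ofFn_comp' l.get fun g => (ρ g).val - 1, List.ofFn_get]] at h1
    obtain ⟨w, hw⟩ := (entry_WvChain (q := 1)
        (a := (l.map fun g => (ρ g).val - 1).prod)).2 fun i j => by
      rw [pow_one, ← Ideal.mem_span_singleton, ← PadicInt.maximalIdeal_eq_span_p,
        ← PadicInt.ker_toZMod]
      exact congrFun (congrFun h1 i) j
    exact ⟨w, by rw [← hw, pow_one]⟩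
  refine ⟨J_WvChain p c fun g => (ρ g).val - 1, fil_WvChain h (fun x y e => ?_) fun a ha => ?_,
    fun t => ?_, one_WvChain⟩
  · ext i j
    have := congrFun (congrFun e i) j
    simpa [hp.ne_zero] using this
  · ext i j
    have : a i j ∈ ⨅ c : ℕ, (Ideal.span {(p : ℤ_[p])}) ^ c := Ideal.mem_iInf.2 fun q => by
      rw [Ideal.span_singleton_pow, Ideal.mem_span_singleton]
      exact entry_WvChain.1 (ha q) i j
    rwa [Ideal.iInf_pow_eq_bot_of_isDomain] at this
    rw [← PadicInt.maximalIdeal_eq_span_p]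
    exact (IsLocalRing.maximalIdeal.isMaximal _).ne_top
  · have h1 : ∀ᶠ a : Matrix (Fin n) (Fin n) ℤ_[p] in 𝓝 0, ∀ i j,
        ‖a i j‖ ≤ (p : ℝ) ^ (-((t + 1 : ℕ) : ℤ)) :=
      eventually_all.2 fun i => eventually_all.2 fun j =>
        ((continuous_id.matrix_elem i j).norm.tendsto' 0 0 (by simp)).eventually
          (eventually_le_nhds (zpow_pos (Nat.cast_pos.2 hp.pos) _))
    refine mem_of_superset h1 fun a ha => ?_
    obtain ⟨w, rfl⟩ := entry_WvChain.2 fun i j =>
      Ideal.mem_span_singleton.1 ((PadicInt.norm_le_pow_iff_mem_span_pow _ _).1 (ha i j))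
    exact big_WvChain hc h t w

end Pool.Agent.MP_f68ac8_nt.Sv
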