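import Mathlib
import Pool.Agent.MP_f68ac8_nt.WvAux

/-! Extension of a character to a group generated by elements of finite order. -/

namespace Pool.Agent.MP_f68ac8_nt.Sv

theorem tors_WvExt {Γ Q : Type} [Group Γ] [Group Q] (Y : Set Γ)
    (π : Subgroup.closure Y →* Q) [(Subgroup.center Q).FiniteIndex]
    (hY : ∀ y (hy : y ∈ Y), IsOfFinOrder (π ⟨y, Subgroup.subset_closure hy⟩))
    (x : Subgroup.closure Y) : ∃ M : ℕ, 0 < M ∧ π x ^ M = 1 := by
  obtain ⟨x, hx⟩ := x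
  have h : IsOfFinOrder (MonoidHom.transferCenterPow Q (π ⟨x, hx⟩)) := by
    induction hx using Subgroup.closure_induction with
    | mem y hy => exact MonoidHom.isOfFinOrder _ (hY y hy)
    | one =>
      rw [show (⟨1, _⟩ : Subgroup.closure Y) = 1 from rfl, map_one, map_one]
      exact IsOfFinOrder.one
    | mul a b ha hb iha ihb =>
      rw [show (⟨a * b, _⟩ : Subgroup.closure Y) = ⟨a, ha⟩ * ⟨b, hb⟩ from rfl, map_mul, map_mul]
      exact Commute.isOfFinOrder_mul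
        (Subtype.ext (Subgroup.mem_center_iff.1 (Subtype.property _) _)) iha ihb
    | inv a ha iha =>
      rw [show (⟨a⁻¹, _⟩ : Subgroup.closure Y) = ⟨a, ha⟩⁻¹ from rfl, map_inv, map_inv]
      exact iha.inv
  obtain ⟨n, hn, e⟩ := isOfFinOrder_iff_pow_eq_one.1 h
  refine ⟨(Subgroup.center Q).index * n,
    Nat.mul_pos (Nat.pos_of_ne_zero Subgroup.FiniteIndex.index_ne_zero) hn, ?_⟩
  have e' := congrArg Subtype.val e
  rwa [Subgroup.coe_pow, MonoidHom.transferCenterPow_apply, ← pow_mul] at e'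

theorem triv_WvExt {Γ U : Type} [Group Γ] [Group U] (G : Subgroup Γ) [G.Normal] [G.FiniteIndex]
    (ρ : G →* U) (Y : Set Γ) (ht : ∀ g, ∀ M : ℕ, 0 < M → ρ g ^ M = 1 → ρ g = 1)
    (hc : ∀ y ∈ Subgroup.closure Y, ∀ g, ρ (MulAut.conjNormal y g) = ρ g)
    (hY : ∀ y ∈ Y, ∃ M : ℕ, 0 < M ∧ ∃ h : y ^ M ∈ G, ρ ⟨_, h⟩ = 1)
    (g : G) (hg : (g : Γ) ∈ Subgroup.closure Y) : ρ g = 1 := by
  let C : Subgroup (Subgroup.closure Y) := (ρ.ker.map G.subtype).subgroupOf _
  have hC : ∀ y : Subgroup.closure Y, y ∈ C ↔ ∃ a : G, ρ a = 1 ∧ (a : Γ) = y := fun y => Iff.rfl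
  have hN : C.Normal := ⟨fun c hc' y => by
    obtain ⟨a, h1, h2⟩ := (hC c).1 hc'
    exact (hC _).2 ⟨MulAut.conjNormal (y : Γ) a, (hc y y.2 a).trans h1, by
      rw [MulAut.conjNormal_apply, h2]
      rfl⟩⟩
  have hle : G.subgroupOf (Subgroup.closure Y) ≤
      (Subgroup.center (Subgroup.closure Y ⧸ C)).comap (QuotientGroup.mk' C) := fun a ha => by
    refine Subgroup.mem_center_iff.2 fun q => ?_
    obtain ⟨y, rfl⟩ := QuotientGroup.mk'_surjective C q
    rw [← map_mul, ← map_mul, QuotientGroup.mk'_apply, QuotientGroup.mk'_apply,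
      QuotientGroup.eq_iff_div_mem]
    refine (hC _).2 ⟨MulAut.conjNormal (y : Γ) (⟨a, ha⟩ : G) * (⟨a, ha⟩ : G)⁻¹, ?_, ?_⟩
    · rw [map_mul, hc y y.2, map_inv, mul_inv_cancel]
    · simp [div_eq_mul_inv, mul_assoc]
  have hf : (Subgroup.center (Subgroup.closure Y ⧸ C)).FiniteIndex := ⟨by
    rw [← Subgroup.index_comap_of_surjective _ (QuotientGroup.mk'_surjective C)]
    exact (Subgroup.finiteIndex_of_le hle).index_ne_zero⟩
  obtain ⟨M, hM, e⟩ := tors_WvExt Y (QuotientGroup.mk' C) (fun y hy => by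
    obtain ⟨M, hM, h1, h2⟩ := hY y hy
    refine isOfFinOrder_iff_pow_eq_one.2 ⟨M, hM, ?_⟩
    rw [← map_pow, QuotientGroup.mk'_apply, QuotientGroup.eq_one_iff]
    exact (hC _).2 ⟨_, h2, rfl⟩) ⟨g, hg⟩
  rw [← map_pow, QuotientGroup.mk'_apply, QuotientGroup.eq_one_iff] at e
  obtain ⟨a, h1, h2⟩ := (hC _).1 e
  refine ht g M hM ?_
  rw [← map_pow, ← show a = g ^ M from Subtype.ext h2, h1]

theorem extW_stmt : ExtWStmt := by
  intro Γ U _ _ G _ _ ρ Y htop ht hY
  have hc : ∀ y ∈ Subgroup.closure Y, ∀ g, ρ (MulAut.conjNormal y g) = ρ g := fun y hy => by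
    induction hy using Subgroup.closure_induction with
    | mem y hy => exact (hY y hy).1
    | one => exact fun g => by rw [map_one, MulAut.one_apply]
    | mul a b _ _ iha ihb => exact fun g => by rw [map_mul, MulAut.mul_apply, iha, ihb]
    | inv a _ iha =>
      exact fun g => by
        rw [← iha, ← MulAut.mul_apply, ← map_mul, mul_inv_cancel, map_one, MulAut.one_apply]
  have h1 := triv_WvExt G ρ Y ht hc fun y hy => (hY y hy).2
  have hu : ∀ y ∈ Subgroup.closure Y, ∀ y' ∈ Subgroup.closure Y, ∀ g g' : G,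
      y * g = y' * g' → ρ g = ρ g' := fun y hy y' hy' g g' e => by
    have h2 := h1 (g' * g⁻¹) (by
      rw [show ((g' * g⁻¹ : G) : Γ) = y'⁻¹ * y by
        rw [Subgroup.coe_mul, Subgroup.coe_inv, eq_inv_mul_iff_mul_eq, ← mul_assoc, ← e,
          mul_inv_cancel_right]]
      exact mul_mem (inv_mem hy') hy)
    rw [map_mul, map_inv, mul_inv_eq_one] at h2
    exact h2.symm
  have hd : ∀ x : Γ, ∃ y ∈ Subgroup.closure Y, ∃ g : G, y * g = x := fun x => by
    obtain ⟨y, hy, g, hg, e⟩ := Subgroup.mem_sup_of_normal_right.1 (htop ▸ Subgroup.mem_top x)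
    exact ⟨y, hy, ⟨g, hg⟩, e⟩
  choose a ha b hb using hd
  refine ⟨MonoidHom.mk' (fun x => ρ (b x)) fun x x' => ?_,
    fun g => hu _ (ha g) 1 (one_mem _) _ g (by rw [hb, one_mul]), fun x => ⟨b x, rfl⟩⟩
  rw [hu _ (ha (x * x')) (a x * a x') (mul_mem (ha x) (ha x')) _
    (MulAut.conjNormal (a x')⁻¹ (b x) * b x') (by
      rw [hb, Subgroup.coe_mul, MulAut.conjNormal_apply]
      conv_lhs => rw [← hb x, ← hb x']
      group), map_mul, hc _ (inv_mem (ha x'))]

end Pool.Agent.MP_f68ac8_nt.Sv
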