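import Mathlib
import Pool.Agent.MP_f68ac8_nt.WvAux

namespace Pool.Agent.MP_f68ac8_nt.Sv

open Polynomial

theorem poly1_WvCore (M : ℕ) :
    ∃ q : ℤ[X], (X + 1 : ℤ[X]) ^ M = 1 + (M : ℤ[X]) * X + X * (q * X) := by
  induction M with
  | zero => exact ⟨0, by simp⟩
  | succ M ih =>
    obtain ⟨q, hq⟩ := ih
    refine ⟨(M : ℤ[X]) + q * (X + 1), ?_⟩
    rw [pow_succ, hq]
    push_cast
    ring

theorem poly2_WvCore (p : ℕ) (hp : p.Prime) :
    ∃ q : ℤ[X], (X + 1 : ℤ[X]) ^ p =
      1 + X ^ (p - 1) * X + (p : ℤ[X]) * (X + X * (q * X)) := by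
  obtain ⟨r, hr⟩ := exists_add_pow_prime_eq hp (X : ℤ[X]) 1
  obtain ⟨q, hq⟩ := poly1_WvCore p
  obtain ⟨n, hn⟩ : ∃ n, p = n + 2 := ⟨p - 2, by have := hp.two_le; omega⟩
  have h1 : (X : ℤ[X]) * ((p : ℤ[X]) * (r - 1)) = X * (X * (q - X ^ n)) := by
    have h2 : (X : ℤ[X]) ^ p = X ^ n * X ^ 2 := by rw [hn, pow_add]
    rw [hq, h2] at hr
    linear_combination -hr
  have h2 := mul_left_cancel₀ (X_ne_zero (R := ℤ)) h1
  have h3 := congrArg (Polynomial.eval 0) h2
  simp only [eval_mul, eval_natCast, eval_X, zero_mul, mul_eq_zero, Nat.cast_eq_zero] at h3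
  have h4 : (r - 1).eval 0 = 0 := h3.resolve_left hp.ne_zero
  have h5 : X ∣ r - 1 := by
    rw [Polynomial.X_dvd_iff, coeff_zero_eq_eval_zero]
    exact h4
  obtain ⟨s, hs⟩ := h5
  refine ⟨s, ?_⟩
  have h6 : r = 1 + X * s := by linear_combination hs
  have h7 : (X : ℤ[X]) ^ (p - 1) * X = X ^ p := by
    rw [← pow_succ, Nat.sub_add_cancel hp.one_le]
  rw [hr, h6, h7]
  ring

theorem pres_WvCore {V : Type} [AddCommGroup V] (D : Module.End ℤ V) (H : AddSubgroup V)
    (hD : ∀ a ∈ H, D a ∈ H) (q : ℤ[X]) : ∀ a ∈ H, aeval D q a ∈ H := by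
  have hpow : ∀ n : ℕ, ∀ a ∈ H, (D ^ n) a ∈ H := by
    intro n
    induction n with
    | zero => intro a ha; simpa using ha
    | succ n ih =>
      intro a ha
      rw [pow_succ, Module.End.mul_apply]
      exact ih _ (hD a ha)
  induction q using Polynomial.induction_on' with
  | add p q hp hq =>
    intro a ha
    rw [map_add, LinearMap.add_apply]
    exact H.add_mem (hp a ha) (hq a ha)
  | monomial n c =>
    intro a ha
    rw [aeval_monomial, Module.End.mul_apply, Module.algebraMap_end_apply]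
    exact H.zsmul_mem (hpow n a ha) c

theorem iter_WvCore {V : Type} [AddCommGroup V] (D Q : Module.End ℤ V)
    (hc : ∀ a, D (Q a) = Q (D a)) (H : AddSubgroup V) (hD : ∀ a ∈ H, D a ∈ H)
    (hQ : ∀ a ∈ H, Q a ∈ H) (c : ℕ) (k : ℕ) :
    ∀ z : V, c • z + D (Q z) ∈ H → (D ^ k) z ∈ H → c ^ k • z ∈ H := by
  induction k with
  | zero => intro z _ h; simpa using h
  | succ k ih =>
    intro z hw h
    rw [pow_succ, Module.End.mul_apply] at h
    have h1 : c • D z + D (Q (D z)) ∈ H := by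
      have := hD _ hw
      rwa [map_add, map_nsmul, hc z] at this
    have h2 := hQ _ (ih (D z) h1 h)
    have h3 : c ^ (k + 1) • z = c ^ k • (c • z + D (Q z)) - Q (c ^ k • D z) := by
      rw [map_nsmul, hc z, smul_add, add_sub_cancel_right, smul_smul, pow_succ]
    rw [h3]
    exact H.sub_mem (H.nsmul_mem hw _) h2

theorem comm_WvCore {V : Type} [AddCommGroup V] (D : Module.End ℤ V) (q : ℤ[X]) (a : V) :
    D (aeval D q a) = aeval D q (D a) := by
  have h : aeval D (X * q) = aeval D (q * X) := by rw [mul_comm]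
  rw [map_mul, map_mul, aeval_X] at h
  exact congrArg (fun f : Module.End ℤ V => f a) h

theorem anti_WvCore {p e : ℕ} {R : Type} [Ring R] {J : ℕ → AddSubgroup R} (hJ : Fil p e J)
    {s t : ℕ} (hst : s ≤ t) {a : R} (ha : a ∈ J t) : a ∈ J s := by
  induction t, hst using Nat.le_induction with
  | base => exact ha
  | succ t _ ih => exact ih (hJ.anti t a ha)

theorem stepc_WvCore {p e : ℕ} {R : Type} [Ring R] {J : ℕ → AddSubgroup R} (hJ : Fil p e J)
    (he : 0 < e) (D : Module.End ℤ R) (hD : ∀ t, ∀ a ∈ J t, D a ∈ J t) {M : ℕ}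
    (hM : Nat.Coprime M p) {x : R} (hx : ((D + 1) ^ M) x = x) {m k : ℕ} (hz : D x ∈ J m)
    (hk : (D ^ k) (D x) ∈ J (m + 1)) : D x ∈ J (m + 1) := by
  obtain ⟨q, hq⟩ := poly1_WvCore M
  have h1 := congrArg (aeval D) hq
  simp only [map_pow, map_add, map_mul, aeval_X, map_one, map_natCast] at h1
  rw [h1] at hx
  simp only [LinearMap.add_apply, Module.End.mul_apply, Module.End.one_apply,
    Module.End.natCast_apply] at hx
  have h2 : M • D x + D (aeval D q (D x)) = 0 := by
    rw [add_assoc] at hx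
    exact add_eq_left.mp hx
  have h3 := iter_WvCore D (aeval D q) (comm_WvCore D q) (J (m + 1)) (hD _)
    (pres_WvCore D _ (hD _) q) M k (D x) (by rw [h2]; exact zero_mem _) hk
  have h4 : p • D x ∈ J (m + 1) :=
    anti_WvCore hJ (by omega) ((hJ.pmul m _).mpr hz)
  obtain ⟨a, b, hab⟩ := Nat.isCoprime_iff_coprime.mpr (Nat.Coprime.pow_left k hM)
  have h5 : D x = a • (M ^ k • D x) + b • (p • D x) := by
    rw [← natCast_zsmul, ← natCast_zsmul, smul_smul, smul_smul, ← add_smul, hab, one_smul]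
  rw [h5]
  exact add_mem (zsmul_mem h3 a) (zsmul_mem h4 b)

theorem stepp_WvCore {p e : ℕ} (hp : p.Prime) {R : Type} [Ring R] {J : ℕ → AddSubgroup R}
    (hJ : Fil p e J) (D : Module.End ℤ R) (hD : ∀ t, ∀ a ∈ J t, D a ∈ J t)
    {x : R} (hx : ((D + 1) ^ p) x = x) {m k : ℕ}
    (hk : (D ^ k) (D x) ∈ J (m + 1)) (hN : (D ^ (p - 1)) (D x) ∈ J (m + e + 1)) :
    D x ∈ J (m + 1) := by
  obtain ⟨q, hq⟩ := poly2_WvCore p hp
  have h1 := congrArg (aeval D) hq
  simp only [map_pow, map_add, map_mul, aeval_X, map_one, map_natCast] at h1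
  rw [h1] at hx
  simp only [LinearMap.add_apply, Module.End.mul_apply, Module.End.one_apply,
    Module.End.natCast_apply] at hx
  have h2 : p • (D x + D (aeval D q (D x))) = -(D ^ (p - 1)) (D x) := by
    rw [add_assoc] at hx
    exact eq_neg_of_add_eq_zero_right (add_eq_left.mp hx)
  have h3 : D x + D (aeval D q (D x)) ∈ J (m + 1) := by
    apply (hJ.pmul (m + 1) _).mp
    rw [h2, show m + 1 + e = m + e + 1 by omega]
    exact neg_mem hN
  have h4 := iter_WvCore D (aeval D q) (comm_WvCore D q) (J (m + 1)) (hD _)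
    (pres_WvCore D _ (hD _) q) 1 k (D x) (by rwa [one_smul]) hk
  rwa [one_pow, one_smul] at h4

theorem rigpow_WvCore {p e k : ℕ} {R G : Type} [Ring R] [Group G] {J : ℕ → AddSubgroup R}
    {T : R →+* R} {ρ : G →* R} {α : G →* G} (h : Rig p e k J T ρ α) (n : ℕ) :
    Rig p e k J (T ^ n) ρ ((show Monoid.End G from α) ^ n) := by
  have hα : ∀ g, ((show Monoid.End G from α) ^ n) g = α^[n] g := fun g => rfl
  have hT : ∀ a, (T ^ n) a = T^[n] a := fun a => rfl
  refine ⟨h.toFil, h.pos, ?_, ?_, h.one, ?_⟩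
  · intro t a ha
    rw [hT]
    clear hα hT
    induction n with
    | zero => exact ha
    | succ n ih =>
      rw [Function.iterate_succ_apply']
      exact h.stab t _ ih
  · intro g
    show ρ (α^[n] g) = T^[n] (ρ g)
    clear hα hT
    induction n with
    | zero => rfl
    | succ n ih => rw [Function.iterate_succ_apply', Function.iterate_succ_apply', h.eqv, ih]
  · intro t χ hχ h0 g
    let A : Module.End ℤ (G → ZMod p) := LinearMap.funLeft ℤ (ZMod p) α
    have hA : ∀ (j : ℕ) (θ : G → ZMod p) (g : G), (A ^ j) θ g = θ (α^[j] g) := by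
      intro j
      induction j with
      | zero => intro θ g; rfl
      | succ j ih =>
        intro θ g
        rw [pow_succ, Module.End.mul_apply, ih, Function.iterate_succ_apply']
        rfl
    have h1 : tw (V := ZMod p) α = ⇑(A - 1) := rfl
    have h2 : tw (V := ZMod p) ((show Monoid.End G from α) ^ n : Monoid.End G) = ⇑(A ^ n - 1) := by
      funext θ g
      show θ (α^[n] g) - θ g = (A ^ n) θ g - θ g
      rw [hA]
    have h3 : ((A - 1) ^ (k + 1)) χ = 0 := by
      rw [Module.End.pow_apply, ← h1]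
      funext g
      exact h.nil t χ hχ h0 g
    have h4 : Commute (∑ i ∈ Finset.range n, A ^ i) (A - 1) :=
      (geom_sum_mul A n).trans (mul_geom_sum A n).symm
    have h5 : ((A ^ n - 1) ^ (k + 1)) χ = 0 := by
      rw [← geom_sum_mul, h4.mul_pow, Module.End.mul_apply, h3, map_zero]
    rw [Module.End.pow_apply, ← h2] at h5
    exact congrFun h5 g

theorem core1_WvCore (p : ℕ) [hp : Fact p.Prime] (h : RaiseStmt p) {e k : ℕ} {R G : Type} [Ring R]
    [Group G] {J : ℕ → AddSubgroup R} {T : R →+* R} {ρ : G →* R} {α : G →* G}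
    (hR : Rig p e k J T ρ α) (hlt : (e + 1) * (k * (e + 2) + 2) < 2 * p) {M : ℕ}
    (hM : Nat.Coprime M p ∨ M = p) (hT : ∀ g, T^[M] (ρ g) = ρ g) (g : G) : T (ρ g) = ρ g := by
  let D : Module.End ℤ R := T.toAddMonoidHom.toIntLinearMap - 1
  have hDa : ∀ a, D a = T a - a := fun a => rfl
  have hDc : ⇑D = fun a => T a - a := rfl
  have hD : ∀ t, ∀ a ∈ J t, D a ∈ J t := fun t a ha => sub_mem (hR.stab t a ha) ha
  have hx : ∀ g, ((D + 1) ^ M) (ρ g) = ρ g := by
    intro g
    rw [show D + 1 = T.toAddMonoidHom.toIntLinearMap from sub_add_cancel _ _,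
      Module.End.pow_apply]
    exact hT g
  have hle : (e + 1) * (k * (e + 2) + 2) ≤ 2 * (p - 1) := by
    obtain ⟨r, hr⟩ := Nat.even_mul_succ_self (e + 1)
    have h1 : (e + 1) * (k * (e + 2) + 2) = 2 * (k * r + e + 1) := by
      calc (e + 1) * (k * (e + 2) + 2) = k * ((e + 1) * (e + 1 + 1)) + 2 * (e + 1) := by ring
        _ = 2 * (k * r + e + 1) := by rw [hr]; ring
    rw [h1] at hlt ⊢
    omega
  have key : ∀ m, ∀ g, T (ρ g) - ρ g ∈ J m := by
    intro m
    induction m with
    | zero =>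
      intro g
      have h1 : ρ g ∈ J 0 := by
        have := add_mem (hR.anti 0 _ (hR.one g)) hR.top
        rwa [sub_add_cancel] at this
      exact hD 0 _ h1
    | succ m ih =>
      intro g
      obtain ⟨h1, h2⟩ := h e k R G J T ρ α hR m ih g
      rw [← hDc, ← Module.End.pow_apply, ← hDa] at h1
      rcases hM with hM | hM
      · exact stepc_WvCore hR.toFil hR.pos D hD hM (hx g) (ih g) h1
      · have h3 := h2 (p - 1) hle
        rw [← hDc, ← Module.End.pow_apply, ← hDa] at h3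
        exact stepp_WvCore hp.out hR.toFil D hD (hM ▸ hx g) h1 h3
  exact sub_eq_zero.mp (hR.sep _ (fun m => key m g))

theorem coreW_stmt (p : ℕ) [Fact p.Prime] (h : RaiseStmt p) : CoreWStmt p := by
  have hp : p.Prime := Fact.out
  intro e k R G _ _ J T ρ α hR hlt M
  induction M using Nat.strong_induction_on with
  | _ M ih =>
    intro hM hT
    by_cases hd : p ∣ M
    · obtain ⟨M', rfl⟩ := hd
      have h1 : 0 < M' := Nat.pos_of_mul_pos_left hM
      have h2 : M' < p * M' := by have := hp.two_le; nlinarith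
      apply ih M' h2 h1
      intro g
      refine core1_WvCore p h (rigpow_WvCore hR M') hlt (Or.inr rfl) (fun g => ?_) g
      rw [RingHom.coe_pow, ← Function.iterate_mul, mul_comm]
      exact hT g
    · exact core1_WvCore p h hR hlt (Or.inl ((hp.coprime_iff_not_dvd.mpr hd).symm)) hT

theorem tor1_WvCore {p e : ℕ} (hp : p.Prime) {R : Type} [Ring R] {J : ℕ → AddSubgroup R}
    (hJ : Fil p e J) (he : 0 < e) (hlt : e + 1 < p) {u : R} (hu : u - 1 ∈ J 1) {M : ℕ}
    (hM : Nat.Coprime M p ∨ M = p) (h1 : u ^ M = 1) : u = 1 := by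
  let D : Module.End ℤ R := LinearMap.mulLeft ℤ (u - 1)
  have hDa : ∀ a, D a = (u - 1) * a := fun a => rfl
  have hD1 : ∀ t, ∀ a ∈ J t, D a ∈ J (t + 1) := by
    intro t a ha
    rw [hDa, add_comm]
    exact hJ.mul _ _ _ _ hu ha
  have hD : ∀ t, ∀ a ∈ J t, D a ∈ J t := fun t a ha => hJ.anti t _ (hD1 t a ha)
  have hDn : ∀ (n t : ℕ), ∀ a ∈ J t, (D ^ n) a ∈ J (t + n) := by
    intro n t a ha
    induction n with
    | zero => exact ha
    | succ n ih =>
      rw [pow_succ', Module.End.mul_apply]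
      exact hD1 _ _ ih
  have hpow : ∀ n : ℕ, ((D + 1) ^ n) 1 = u ^ n := by
    intro n
    induction n with
    | zero => rw [pow_zero, pow_zero]; rfl
    | succ n ih =>
      rw [pow_succ', Module.End.mul_apply, ih, LinearMap.add_apply, hDa, Module.End.one_apply,
        pow_succ', sub_mul, one_mul, sub_add_cancel]
  have hx : ((D + 1) ^ M) 1 = 1 := (hpow M).trans h1
  have key : ∀ m, D 1 ∈ J m := by
    intro m
    induction m with
    | zero => exact hD 0 _ hJ.top
    | succ m ih =>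
      rcases hM with hM | hM
      · exact stepc_WvCore hJ he D hD hM hx ih (hDn 1 m _ ih)
      · exact stepp_WvCore hp hJ D hD (hM ▸ hx) (hDn 1 m _ ih)
          (anti_WvCore hJ (by omega) (hDn (p - 1) m _ ih))
  have h2 := hJ.sep _ key
  rw [hDa, mul_one] at h2
  exact sub_eq_zero.mp h2

theorem torW_stmt (p : ℕ) [Fact p.Prime] : TorWStmt p := by
  have hp : p.Prime := Fact.out
  intro e R _ J hJ he hlt u M hu
  have hu0 : u ∈ J 0 := by
    have := add_mem (hJ.anti 0 _ hu) hJ.top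
    rwa [sub_add_cancel] at this
  have hpow : ∀ n : ℕ, u ^ n - 1 ∈ J 1 := by
    intro n
    induction n with
    | zero => rw [pow_zero, sub_self]; exact zero_mem _
    | succ n ih =>
      have h1 : u ^ (n + 1) - 1 = (u ^ n - 1) * u + (u - 1) := by
        rw [pow_succ, sub_mul, one_mul, sub_add_sub_cancel]
      rw [h1]
      exact add_mem (hJ.mul 1 0 _ _ ih hu0) hu
  induction M using Nat.strong_induction_on with
  | _ M ih =>
    intro hM h1
    by_cases hd : p ∣ M
    · obtain ⟨M', rfl⟩ := hd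
      have h2 : 0 < M' := Nat.pos_of_mul_pos_left hM
      have h3 : M' < p * M' := by have := hp.two_le; nlinarith
      apply ih M' h3 h2
      refine tor1_WvCore hp hJ he hlt (hpow M') (Or.inr rfl) ?_
      rw [← pow_mul, mul_comm]
      exact h1
    · exact tor1_WvCore hp hJ he hlt hu (Or.inl ((hp.coprime_iff_not_dvd.mpr hd).symm)) h1

end Pool.Agent.MP_f68ac8_nt.Sv
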