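import Mathlib
import Pool.Agent.MP_f68ac8_nt.WvAux

/-! The difference operator raises the filtration. -/

namespace Pool.Agent.MP_f68ac8_nt.Sv

section
variable {p : ℕ} [hp : Fact p.Prime] {R G : Type} [Ring R] [Group G] (T : R →+* R)

/-- the difference operator -/
def D_WvRaise : Module.End ℤ R := T.toAddMonoidHom.toIntLinearMap - 1

lemma D_apply_WvRaise (a : R) : D_WvRaise T a = T a - a := rfl

/-- stable subgroups -/
def St_WvRaise (X : Submodule ℤ R) : Prop := X ≤ X.comap T.toAddMonoidHom.toIntLinearMap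

variable {T} {X Y X' Y' Z : Submodule ℤ R}

lemma St_WvRaise.mem (h : St_WvRaise T X) {x : R} (hx : x ∈ X) : T x ∈ X := h hx

lemma St_WvRaise.pow (h : St_WvRaise T X) (c : ℕ) {x : R} (hx : x ∈ X) :
    (D_WvRaise T ^ c) x ∈ X := by
  induction c with
  | zero => exact hx
  | succ c ih =>
    rw [pow_succ', Module.End.mul_apply]
    exact sub_mem (h.mem ih) ih

lemma St_WvRaise.sup (h : St_WvRaise T X) (h' : St_WvRaise T Y) : St_WvRaise T (X ⊔ Y) :=
  sup_le (fun _ hx => Submodule.mem_sup_left (h.mem hx))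
    fun _ hx => Submodule.mem_sup_right (h'.mem hx)

lemma St_WvRaise.mul (h : St_WvRaise T X) (h' : St_WvRaise T Y) : St_WvRaise T (X * Y) :=
  Submodule.mul_le.2 fun x hx y hy => by
    change T (x * y) ∈ X * Y
    rw [map_mul]
    exact Submodule.mul_mem_mul (h.mem hx) (h'.mem hy)

lemma comm_WvRaise (c : ℕ) (x : R) : (D_WvRaise T ^ c) (T x) = T ((D_WvRaise T ^ c) x) := by
  induction c with
  | zero => rfl
  | succ c ih =>
    rw [pow_succ', Module.End.mul_apply, Module.End.mul_apply, ih, D_apply_WvRaise,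
      D_apply_WvRaise, map_sub]

lemma leib_WvRaise (hX : St_WvRaise T X) (hY : St_WvRaise T Y) (hY' : St_WvRaise T Y')
    (hZ : St_WvRaise T Z) (h1 : X' * Y ≤ Z) (h2 : X * Y' ≤ Z) (c : ℕ) :
    ∀ (a b : ℕ) (x y : R), x ∈ X → y ∈ Y → (D_WvRaise T ^ a) x ∈ X' → (D_WvRaise T ^ b) y ∈ Y' →
      a + b ≤ c + 1 → (D_WvRaise T ^ c) (x * y) ∈ Z := by
  have h0 : ∀ (c a b : ℕ) (x y : R), x ∈ X → y ∈ Y → (D_WvRaise T ^ a) x ∈ X' →
      (D_WvRaise T ^ b) y ∈ Y' → a = 0 ∨ b = 0 → (D_WvRaise T ^ c) (x * y) ∈ Z := by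
    rintro c a b x y hx hy ha hb (rfl | rfl)
    · exact hZ.pow c (h1 (Submodule.mul_mem_mul ha hy))
    · exact hZ.pow c (h2 (Submodule.mul_mem_mul hx hb))
  induction c with
  | zero => exact fun a b x y hx hy ha hb h => h0 0 a b x y hx hy ha hb (by omega)
  | succ c ih =>
    intro a b x y hx hy ha hb h
    rcases a with _ | a
    · exact h0 _ _ b x y hx hy ha hb (.inl rfl)
    rcases b with _ | b
    · exact h0 _ _ _ x y hx hy ha hb (.inr rfl)
    have e : D_WvRaise T (x * y) = D_WvRaise T x * T y + x * D_WvRaise T y := by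
      simp only [D_apply_WvRaise, map_mul]
      noncomm_ring
    rw [pow_succ, Module.End.mul_apply, e, map_add]
    refine add_mem (ih a (b + 1) _ _ (sub_mem (hX.mem hx) hx) (hY.mem hy) ha ?_ (by omega))
      (ih (a + 1) b _ _ hx (sub_mem (hY.mem hy) hy) ha hb (by omega))
    rw [comm_WvRaise]
    exact hY'.mem hb

lemma dual_WvRaise {Q : Type} [AddCommGroup Q] (h : ∀ x : Q, p • x = 0) {x : Q}
    (hx : ∀ φ : Q →+ ZMod p, φ x = 0) : x = 0 := by
  have key : ∀ [Module (ZMod p) Q], x = 0 := fun {_} =>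
    (Module.forall_dual_apply_eq_zero_iff (ZMod p) x).1 fun φ => hx φ.toAddMonoidHom
  exact @key (AddCommGroup.zmodModule h)

lemma sep_WvRaise (h : ∀ x ∈ X, p • x ∈ Y) {y : R} (hy : y ∈ X)
    (hl : ∀ l : R → ZMod p, (∀ a ∈ X, ∀ b ∈ X, l (a - b) = l a - l b) →
      (∀ a ∈ X, a ∈ Y → l a = 0) → l y = 0) : y ∈ Y := by
  classical
  let q := (Y.submoduleOf X).mkQ
  have hq : ∀ x : X, q x = 0 ↔ x.1 ∈ Y := fun x => Submodule.Quotient.mk_eq_zero _
  refine (hq ⟨y, hy⟩).1 (dual_WvRaise (p := p) (fun x => ?_) fun φ => ?_)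
  · obtain ⟨x, rfl⟩ := (Y.submoduleOf X).mkQ_surjective x
    rw [← map_nsmul]
    exact (hq _).2 (h x.1 x.2)
  have := hl (fun a => if ha : a ∈ X then φ (q ⟨a, ha⟩) else 0) (fun a ha b hb => by
    rw [dif_pos ha, dif_pos hb, dif_pos (sub_mem ha hb), ← map_sub, ← map_sub]
    rfl) fun a ha hb => by rw [dif_pos ha, (hq ⟨a, ha⟩).2 hb, map_zero]
  rwa [dif_pos hy] at this

lemma tw_WvRaise {α : G →* G} (hX : St_WvRaise T X) {l : R → ZMod p}
    (hl : ∀ a ∈ X, ∀ b ∈ X, l (a - b) = l a - l b) (j : ℕ) :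
    ∀ F : G → R, (∀ g, F g ∈ X) → (∀ g, F (α g) = T (F g)) →
      ∀ g, (tw α)^[j] (fun g => l (F g)) g = l ((D_WvRaise T ^ j) (F g)) := by
  induction j with
  | zero => exact fun _ _ _ _ => rfl
  | succ j ih =>
    intro F h1 h2 g
    have e : tw α (fun g => l (F g)) = fun g => l (D_WvRaise T (F g)) := funext fun g => by
      rw [tw, h2, D_apply_WvRaise, hl _ (hX.mem (h1 g)) _ (h1 g)]
    rw [Function.iterate_succ_apply, e, pow_succ, Module.End.mul_apply]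
    exact ih _ (fun g => sub_mem (hX.mem (h1 g)) (h1 g))
      (fun g => by simp only [h2, map_sub]) g

variable {e k : ℕ} {J : ℕ → AddSubgroup R} {ρ : G →* R} {α : G →* G}

lemma nil_WvRaise (hR : Rig p e k J T ρ α) (hX : St_WvRaise T X) (h : ∀ x ∈ X, p • x ∈ Y)
    (F : G → R) (h1 : ∀ g, F g ∈ X) (h2 : ∀ g, F (α g) = T (F g))
    (h3 : ∀ g h, F (g * h) - F g - F h ∈ Y) (t : ℕ) (h4 : ∀ g, ρ g - 1 ∈ J t → F g ∈ Y) (g : G) :
    (D_WvRaise T ^ (k + 1)) (F g) ∈ Y := by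
  refine sep_WvRaise h (hX.pow _ (h1 g)) fun l hl hl' => ?_
  rw [← tw_WvRaise hX hl _ F h1 h2]
  refine hR.nil t _ (fun g h => ?_) (fun g hg => hl' _ (h1 g) (h4 g hg)) g
  have := hl' _ (sub_mem (sub_mem (h1 _) (h1 g)) (h1 h)) (h3 g h)
  rw [hl _ (sub_mem (h1 _) (h1 g)) _ (h1 h), hl _ (h1 _) _ (h1 g)] at this
  linear_combination this

/-- the filtration generated by two subgroups -/
def A_WvRaise (Δ X : Submodule ℤ R) : ℕ → Submodule ℤ R
  | 0 => X
  | i + 1 => Δ * A_WvRaise Δ X i ⊔ A_WvRaise Δ X i * Δ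

end

theorem raise_stmt (p : ℕ) [Fact p.Prime] : RaiseStmt p := by
  intro e k R G _ _ J T ρ α hR m hm g
  obtain ⟨I, hI⟩ : ∃ I : ℕ → Submodule ℤ R, ∀ t a, a ∈ I t ↔ a ∈ J t :=
    ⟨fun t => (J t).toIntSubmodule, fun _ _ => Iff.rfl⟩
  have he := hR.pos
  have sI : ∀ t, St_WvRaise T (I t) := fun t a ha => (hI t _).2 (hR.stab t a ((hI t a).1 ha))
  have aI : ∀ {s t}, s ≤ t → I t ≤ I s := fun h =>
    antitone_nat_of_succ_le (f := I) (fun t a ha => (hI t a).2 (hR.anti t a ((hI _ a).1 ha))) h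
  have mI : ∀ {X Y : Submodule ℤ R} {s t u}, X ≤ I s → Y ≤ I t → u ≤ s + t → X * Y ≤ I u :=
    fun hX hY hu => (Submodule.mul_le.2 fun x hx y hy =>
      (hI _ _).2 (hR.mul _ _ _ _ ((hI _ _).1 (hX hx)) ((hI _ _).1 (hY hy)))).trans (aI hu)
  have pI : ∀ {t u} {a : R}, a ∈ I t → u ≤ t + e → p • a ∈ I u := fun ha hu =>
    aI hu ((hI _ _).2 ((hR.pmul _ _).2 ((hI _ _).1 ha)))
  obtain ⟨Δ, hΔ⟩ : ∃ Δ, Δ = Submodule.span ℤ (Set.range fun g => ρ g - 1) := ⟨_, rfl⟩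
  obtain ⟨X, hX⟩ : ∃ X, X = Submodule.span ℤ (Set.range fun g => T (ρ g) - ρ g) := ⟨_, rfl⟩
  have mΔ : ∀ g, ρ g - 1 ∈ Δ := fun g => hΔ ▸ Submodule.subset_span ⟨g, rfl⟩
  have mX : ∀ g, T (ρ g) - ρ g ∈ X := fun g => hX ▸ Submodule.subset_span ⟨g, rfl⟩
  have lΔ : ∀ {Y}, (∀ g, ρ g - 1 ∈ Y) → Δ ≤ Y := fun h =>
    hΔ ▸ Submodule.span_le.2 (Set.range_subset_iff.2 h)
  have lX : ∀ {Y}, (∀ g, T (ρ g) - ρ g ∈ Y) → X ≤ Y := fun h =>
    hX ▸ Submodule.span_le.2 (Set.range_subset_iff.2 h)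
  have eΔ : ∀ g, ρ (α g) - 1 = T (ρ g - 1) := fun g => by rw [map_sub, map_one, hR.eqv]
  have eX : ∀ g, T (ρ (α g)) - ρ (α g) = T (T (ρ g) - ρ g) := fun g => by rw [map_sub, hR.eqv]
  have sΔ : St_WvRaise T Δ := lΔ fun g => show T _ ∈ Δ from eΔ g ▸ mΔ _
  have sX : St_WvRaise T X := lX fun g => show T _ ∈ X from eX g ▸ mX _
  have bΔ : Δ ≤ I 1 := lΔ fun g => (hI _ _).2 (hR.one g)
  have bX : X ≤ I m := lX fun g => (hI _ _).2 (hm g)
  obtain ⟨A, hA0, hA⟩ : ∃ A : ℕ → Submodule ℤ R, A 0 = X ∧ ∀ i, A (i + 1) = Δ * A i ⊔ A i * Δ :=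
    ⟨A_WvRaise Δ X, rfl, fun _ => rfl⟩
  have sA : ∀ i, St_WvRaise T (A i) := fun i => by
    induction i with
    | zero => exact hA0 ▸ sX
    | succ i ih => exact hA i ▸ (sΔ.mul ih).sup (ih.mul sΔ)
  have bA : ∀ i, A i ≤ I (m + i) := fun i => by
    induction i with
    | zero => exact hA0 ▸ bX
    | succ i ih => exact hA i ▸ sup_le (mI bΔ ih (by omega)) (mI ih bΔ (by omega))
  have lA : ∀ i, Δ * A i ≤ A (i + 1) := fun i => hA i ▸ le_sup_left
  have rA : ∀ i, A i * Δ ≤ A (i + 1) := fun i => hA i ▸ le_sup_right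
  have nΔ : Δ ≤ (Δ * Δ ⊔ I (e + 1)).comap (D_WvRaise T ^ (k + 1)) := lΔ fun g =>
    nil_WvRaise hR (sI 1) (fun x hx => Submodule.mem_sup_right (pI hx (by omega))) _
      (fun g => bΔ (mΔ g)) eΔ (fun g h => Submodule.mem_sup_left (by
        have : ρ (g * h) - 1 - (ρ g - 1) - (ρ h - 1) = (ρ g - 1) * (ρ h - 1) := by
          rw [map_mul]
          noncomm_ring
        rw [this]
        exact Submodule.mul_mem_mul (mΔ g) (mΔ h))) (e + 1)
      (fun g hg => Submodule.mem_sup_right ((hI _ _).2 hg)) g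
  have nX : X ≤ ((A 1 ⊔ I (m + e + 1)) ⊔ X.map (p • LinearMap.id)).comap
      (D_WvRaise T ^ (k + 1)) := lX fun g =>
    nil_WvRaise hR sX (fun x hx => Submodule.mem_sup_right (Submodule.mem_map_of_mem hx)) _ mX eX
      (fun g h => Submodule.mem_sup_left (Submodule.mem_sup_left (by
        have : T (ρ (g * h)) - ρ (g * h) - (T (ρ g) - ρ g) - (T (ρ h) - ρ h) =
            (ρ g - 1) * (T (ρ h) - ρ h) + (T (ρ g) - ρ g) * (ρ (α h) - 1) := by
          rw [map_mul, map_mul, hR.eqv]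
          noncomm_ring
        rw [this]
        exact add_mem (lA 0 (Submodule.mul_mem_mul (mΔ g) (hA0 ▸ mX h)))
          (rA 0 (Submodule.mul_mem_mul (hA0 ▸ mX g) (mΔ _)))))) (m + e + 1)
      (fun g hg => Submodule.mem_sup_left (Submodule.mem_sup_right (by
        have : T (ρ g) - ρ g = T (ρ g - 1) - (ρ g - 1) := by
          rw [map_sub, map_one]
          abel
        rw [this]
        exact sub_mem ((sI _).mem ((hI _ _).2 hg)) ((hI _ _).2 hg)))) g
  have bE : X.map (p • LinearMap.id) ≤ I (m + e) := by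
    rintro _ ⟨x, hx, rfl⟩
    exact pI (bX hx) le_rfl
  have step : ∀ i b, A i ≤ (A (i + 1) ⊔ I (m + e)).comap (D_WvRaise T ^ b) →
      A (i + 1) ≤ (A (i + 2) ⊔ I (m + e + 1)).comap (D_WvRaise T ^ (b + k)) := fun i b h => by
    have sZ := (sA (i + 2)).sup (sI (m + e + 1))
    have sY := (sA (i + 1)).sup (sI (m + e))
    rw [hA]
    refine sup_le (Submodule.mul_le.2 fun x hx y hy => ?_) (Submodule.mul_le.2 fun y hy x hx => ?_)
    · refine leib_WvRaise sΔ (sA i) sY sZ ?_ ?_ _ (k + 1) b x y hx hy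
        (Submodule.mem_comap.1 (nΔ hx)) (Submodule.mem_comap.1 (h hy)) (by omega)
      · rw [Submodule.sup_mul, mul_assoc]
        exact sup_le_sup ((mul_le_mul_right (lA i) _).trans (lA _)) (mI le_rfl (bA i) (by omega))
      · rw [Submodule.mul_sup]
        exact sup_le_sup (lA _) (mI bΔ le_rfl (by omega))
    · refine leib_WvRaise (sA i) sΔ ((sΔ.mul sΔ).sup (sI _)) sZ ?_ ?_ _ b (k + 1) y x hy hx
        (Submodule.mem_comap.1 (h hy)) (Submodule.mem_comap.1 (nΔ hx)) (by omega)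
      · rw [Submodule.sup_mul]
        exact sup_le_sup (rA _) (mI le_rfl bΔ (by omega))
      · rw [Submodule.mul_sup, ← mul_assoc]
        exact sup_le_sup ((mul_le_mul_left (rA i) _).trans (rA _)) (mI (bA i) le_rfl (by omega))
  have h1 : ∀ i, A i ≤ (A (i + 1) ⊔ I (m + e)).comap (D_WvRaise T ^ (k + 1 + i * k)) := fun i => by
    induction i with
    | zero =>
      rw [hA0, zero_mul, add_zero]
      exact nX.trans (Submodule.comap_mono
        (sup_le (sup_le_sup_left (aI (by omega)) _) (bE.trans le_sup_right)))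
    | succ i ih =>
      rw [add_mul, one_mul, ← add_assoc]
      exact (step i _ ih).trans (Submodule.comap_mono (sup_le_sup_left (aI (by omega)) _))
  have h2 : ∀ j N, j * (k * (j + 3) + 2) ≤ 2 * N → ∀ y ∈ A 1 ⊔ I (m + e + 1),
      (D_WvRaise T ^ N) y ∈ A (j + 1) ⊔ I (m + e + 1) := fun j => by
    induction j with
    | zero => exact fun N _ y hy => ((sA 1).sup (sI _)).pow N hy
    | succ j ih =>
      intro N hN y hy
      obtain ⟨N, rfl⟩ := Nat.exists_eq_add_of_le (show k + 1 + j * k + k ≤ N by nlinarith)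
      rw [pow_add, Module.End.mul_apply]
      exact sup_le (step j _ (h1 j)) (fun x hx => Submodule.mem_sup_right ((sI _).pow _ hx))
        (ih N (by nlinarith) y hy)
  have h3 : ∀ x ∈ X, (D_WvRaise T ^ (k + 1)) x ∈ I (m + 1) := fun x hx =>
    sup_le (sup_le (bA 1) (aI (by omega))) (bE.trans (aI (by omega))) (nX hx)
  have h4 : ∀ N a, (fun a => T a - a)^[N] a = (D_WvRaise T ^ N) a := fun N a =>
    (Module.End.pow_apply (D_WvRaise T) N a).symm
  refine ⟨(hI _ _).1 (h4 _ _ ▸ h3 _ (mX g)), fun N hN => (hI _ _).1 ?_⟩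
  have h6 : 2 * (k * 3 + 2) ≤ (e + 1) * (k * (e + 2) + 2) :=
    Nat.mul_le_mul (by omega) (Nat.add_le_add_right (Nat.mul_le_mul_left k (by omega)) 2)
  obtain ⟨N, rfl⟩ := Nat.exists_eq_add_of_le' (show (k + 1) + (k + 1) ≤ N by omega)
  obtain ⟨a, ha, _, ⟨x, hx, rfl⟩, h5⟩ := Submodule.mem_sup.1 (nX (mX g))
  rw [h4, ← add_assoc, pow_add, Module.End.mul_apply, ← h5, map_add]
  refine add_mem (sup_le (bA (e + 1)) le_rfl (h2 e _ (by nlinarith) a ha)) ?_
  change (D_WvRaise T ^ (N + (k + 1))) (p • x) ∈ _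
  rw [map_nsmul, pow_add, Module.End.mul_apply]
  exact pI ((sI _).pow N (h3 x hx)) (by omega)

end Pool.Agent.MP_f68ac8_nt.Sv
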