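import Mathlib
import Pool.Agent.MP_f68ac8_nt.WvRaise
import Pool.Agent.MP_f68ac8_nt.WvCore

/-! The rigidity lemma with the sharp bound. -/

namespace Pool.Agent.MP_f68ac8_nt.Sv

variable {p : ℕ} [hp : Fact p.Prime] {R G : Type} [Ring R] [Group G] {T : R →+* R}
  {e k : ℕ} {J : ℕ → AddSubgroup R} {ρ : G →* R} {α : G →* G}

omit hp in
lemma stab_WvSharp (hR : Rig p e k J T ρ α) (t : ℕ) : St_WvRaise T (J t).toIntSubmodule :=
  fun a ha => hR.stab t a ha

omit hp in
lemma leib_WvSharp (hR : Rig p e k J T ρ α) (u N : ℕ) : ∀ x y : R,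
    (∀ i i', i + i' = N → ∃ s t, (D_WvRaise T ^ i) x ∈ J s ∧ (D_WvRaise T ^ i') y ∈ J t ∧
      u ≤ s + t) → (D_WvRaise T ^ N) (x * y) ∈ J u := by
  induction N with
  | zero =>
    intro x y h
    obtain ⟨s, t, h1, h2, h3⟩ := h 0 0 rfl
    exact anti_WvCore hR.toFil h3 (hR.mul _ _ _ _ h1 h2)
  | succ N ih =>
    intro x y h
    have e : D_WvRaise T (x * y) = D_WvRaise T x * T y + x * D_WvRaise T y := by
      simp only [D_apply_WvRaise, map_mul]
      noncomm_ring
    rw [pow_succ, Module.End.mul_apply, e, map_add]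
    refine add_mem (ih _ _ fun i i' a => ?_) (ih _ _ fun i i' a => ?_)
    · obtain ⟨s, t, h1, h2, h3⟩ := h (i + 1) i' (by omega)
      exact ⟨s, t, h1, comm_WvRaise (T := T) i' y ▸ hR.stab _ _ h2, h3⟩
    · obtain ⟨s, t, h1, h2, h3⟩ := h i (i' + 1) (by omega)
      exact ⟨s, t, h1, h2, h3⟩

lemma nil_WvSharp (hR : Rig p e k J T ρ α) (N t : ℕ)
    (h1 : ∀ g, (D_WvRaise T ^ N) (ρ g - 1) ∈ J t)
    (h2 : ∀ g h, (D_WvRaise T ^ N) ((ρ g - 1) * (ρ h - 1)) ∈ J (t + 1)) (g : G) :
    (D_WvRaise T ^ (k + 1 + N)) (ρ g - 1) ∈ J (t + 1) := by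
  have he := hR.pos
  rw [pow_add, Module.End.mul_apply]
  refine nil_WvRaise (Y := (J (t + 1)).toIntSubmodule) hR (stab_WvSharp hR t)
    (fun x hx => anti_WvCore hR.toFil (by omega) ((hR.pmul t x).2 hx))
    (fun g => (D_WvRaise T ^ N) (ρ g - 1)) h1 (fun g => ?_) (fun g h => ?_) (t + 1)
    (fun g hg => (stab_WvSharp hR (t + 1)).pow N hg) g
  · rw [← comm_WvRaise, map_sub T, map_one, hR.eqv]
  · have : ρ (g * h) - 1 - (ρ g - 1) - (ρ h - 1) = (ρ g - 1) * (ρ h - 1) := by
      rw [map_mul]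
      noncomm_ring
    rw [← map_sub, ← map_sub, this]
    exact h2 g h

omit hp in
lemma mono_WvSharp (hR : Rig p e k J T ρ α) {i i' t : ℕ} (h : i ≤ i') {x : R}
    (hx : (D_WvRaise T ^ i) x ∈ J t) : (D_WvRaise T ^ i') x ∈ J t := by
  obtain ⟨c, rfl⟩ := Nat.exists_eq_add_of_le' h
  rw [pow_add, Module.End.mul_apply]
  exact (stab_WvSharp hR t).pow c hx

lemma raise_WvSharp (hR : Rig p e k J T ρ α) {m d : ℕ} (hm : 0 < m) (hd : d + k < m * (2 * k + 1))
    (h1 : ∀ g, (D_WvRaise T ^ 1) (ρ g - 1) ∈ J m)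
    (h2 : ∀ g, (D_WvRaise T ^ (d + 1)) (ρ g - 1) ∈ J (m + 1)) (j : ℕ) :
    ∀ a ≤ j, ∀ g, (D_WvRaise T ^ (d + 1 + a * (2 * k + 1))) (ρ g - 1) ∈ J (m + 1 + a) := by
  induction j with
  | zero =>
    intro a ha g
    obtain rfl : a = 0 := by omega
    simpa using h2 g
  | succ j ih =>
    intro a ha g
    by_cases h : a ≤ j
    · exact ih a h g
    obtain rfl : a = j + 1 := by omega
    have lev : ∀ g i, 0 < i → ∀ c ≤ j + 1, ∃ a ≤ c, (D_WvRaise T ^ i) (ρ g - 1) ∈ J (m + a) ∧
        (a = c ∨ i ≤ d + a * (2 * k + 1)) := fun g i hi c => by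
      induction c with
      | zero => exact fun _ => ⟨0, le_rfl, mono_WvSharp hR hi (h1 g), .inl rfl⟩
      | succ c ihc =>
        intro hc
        obtain ⟨a, a1, a2, a3⟩ := ihc (by omega)
        by_cases a4 : i ≤ d + a * (2 * k + 1)
        · exact ⟨a, by omega, a2, .inr a4⟩
        obtain rfl : a = c := a3.resolve_right a4
        refine ⟨a + 1, le_rfl, ?_, .inl rfl⟩
        rw [show m + (a + 1) = m + 1 + a by omega]
        exact mono_WvSharp hR (by omega) (ih a (by omega) g)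
    have top : ∀ g, (D_WvRaise T ^ (d + j * (2 * k + 1) + k + 1)) (ρ g - 1) ∈ J (m + 1 + j) :=
      fun g => mono_WvSharp hR (by omega) (ih j le_rfl g)
    have := nil_WvSharp hR _ _ top (fun g h => leib_WvSharp hR _ _ _ _ fun i i' b => ?_) g
    · rwa [show d + 1 + (j + 1) * (2 * k + 1) = k + 1 + (d + j * (2 * k + 1) + k + 1) by ring]
    rcases Nat.eq_zero_or_pos i with rfl | hi
    · obtain rfl : i' = _ := (zero_add _).symm.trans b
      exact ⟨1, _, hR.one g, top h, by omega⟩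
    rcases Nat.eq_zero_or_pos i' with rfl | hi'
    · obtain rfl : i = _ := b
      exact ⟨_, 1, top g, hR.one h, by omega⟩
    obtain ⟨a, -, a2, a3⟩ := lev g i hi _ le_rfl
    obtain ⟨a', -, b2, b3⟩ := lev h i' hi' _ le_rfl
    refine ⟨_, _, a2, b2, ?_⟩
    rcases a3 with rfl | a3
    · omega
    rcases b3 with rfl | b3
    · omega
    by_contra c
    have c1 : (m + a + a') * (2 * k + 1) ≤ (j + 1) * (2 * k + 1) :=
      Nat.mul_le_mul_right _ (by omega)
    nlinarith

lemma core1_WvSharp (hR : Rig p e k J T ρ α) (hlt : e * (2 * k + 1) + 1 < p) {M : ℕ}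
    (hM : Nat.Coprime M p ∨ M = p) (hT : ∀ g, T^[M] (ρ g) = ρ g) (g : G) : T (ρ g) = ρ g := by
  have hD : ∀ t, ∀ a ∈ J t, D_WvRaise T a ∈ J t := fun t a ha => sub_mem (hR.stab t a ha) ha
  have e1 : ∀ g, D_WvRaise T (ρ g - 1) = T (ρ g) - ρ g := fun g => by
    rw [D_apply_WvRaise, map_sub, map_one]
    abel
  have hx : ∀ g, ((D_WvRaise T + 1) ^ M) (ρ g - 1) = ρ g - 1 := fun g => by
    rw [show D_WvRaise T + 1 = T.toAddMonoidHom.toIntLinearMap from sub_add_cancel _ _,
      Module.End.pow_apply]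
    change T^[M] (ρ g - 1) = _
    rw [← RingHom.coe_pow, map_sub, map_one, RingHom.coe_pow, hT]
  have key : ∀ m, ∀ g, D_WvRaise T (ρ g - 1) ∈ J (m + 1) := fun m => by
    induction m with
    | zero => exact fun g => hD _ _ (hR.one g)
    | succ m ih =>
      have a1 : ∀ g, (D_WvRaise T ^ (k + 1)) (D_WvRaise T (ρ g - 1)) ∈ J (m + 1 + 1) := fun g => by
        have := (raise_stmt p e k R G J T ρ α hR (m + 1) (fun g => e1 g ▸ ih g) g).1
        rwa [Module.End.pow_apply, e1]
      rcases hM with hM | rfl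
      · exact fun g => stepc_WvCore hR.toFil hR.pos _ hD hM (hx g) (ih g) (a1 g)
      have down : ∀ d, d + k < (m + 1) * (2 * k + 1) →
          (∀ g, (D_WvRaise T ^ (d + 1)) (ρ g - 1) ∈ J (m + 1 + 1)) →
          ∀ g, D_WvRaise T (ρ g - 1) ∈ J (m + 1 + 1) := fun d => by
        induction d with
        | zero => exact fun _ h g => by simpa using h g
        | succ d ihd =>
          refine fun b1 b2 => ihd (by omega) fun g => ?_
          have b3 := raise_WvSharp hR m.succ_pos b1 (by simpa using ih) b2 e e le_rfl g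
          have b4 : ∀ c, (D_WvRaise T ^ c) (D_WvRaise T ((D_WvRaise T ^ d) (ρ g - 1))) =
              (D_WvRaise T ^ (c + 1 + d)) (ρ g - 1) := fun c => by
            rw [pow_add, pow_succ]
            rfl
          rw [pow_succ']
          refine stepp_WvCore (k := 1) hp.out hR.toFil _ hD ?_ ?_ ?_
          · rw [← Module.End.mul_apply, (((Commute.refl (D_WvRaise T)).add_left
              (Commute.one_left _)).pow_pow M d).eq, Module.End.mul_apply, hx]
          · rw [b4, show 1 + 1 + d = d + 1 + 1 by omega]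
            exact b2 g
          · rw [b4, show m + 1 + e + 1 = m.succ + 1 + e by omega]
            exact mono_WvSharp hR (by omega) b3
      rcases m with _ | m
      · exact down k (by omega) fun g => nil_WvSharp hR 0 1 hR.one
          (fun g h => hR.mul 1 1 _ _ (hR.one g) (hR.one h)) g
      · exact down (k + 1) (by nlinarith) fun g => by rw [pow_succ]; exact a1 g
  exact sub_eq_zero.1 (hR.sep _ fun m => e1 g ▸ hR.anti m _ (key m g))

theorem core_WvSharp (hR : Rig p e k J T ρ α) (hlt : e * (2 * k + 1) + 1 < p) (M : ℕ) :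
    0 < M → (∀ g, T^[M] (ρ g) = ρ g) → ∀ g, T (ρ g) = ρ g := by
  induction M using Nat.strong_induction_on with
  | _ M ih =>
    intro hM hT
    by_cases hd : p ∣ M
    · obtain ⟨M', rfl⟩ := hd
      have h1 : 0 < M' := Nat.pos_of_mul_pos_left hM
      have h2 : M' < p * M' := by have := hp.out.two_le; nlinarith
      refine ih M' h2 h1 fun g => ?_
      refine core1_WvSharp (rigpow_WvCore hR M') hlt (Or.inr rfl) (fun g => ?_) g
      rw [RingHom.coe_pow, ← Function.iterate_mul, mul_comm]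
      exact hT g
    · exact core1_WvSharp hR hlt (Or.inl ((hp.out.coprime_iff_not_dvd.mpr hd).symm)) hT

end Pool.Agent.MP_f68ac8_nt.Sv
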