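import Mathlib
import Pool.Agent.MP_f68ac8_nt.WvSharp
import Pool.Agent.MP_f68ac8_nt.EvRec

/-! Descent of representations along ramified extensions. -/

namespace Pool.Agent.MP_f68ac8_nt.Sv

open Ev NumberField Matrix Filter
open scoped Topology Pointwise

variable {p : ℕ} [hp : Fact p.Prime]

omit hp in
lemma Fil.pi {e : ℕ} {R : Type} [Ring R] {J : ℕ → AddSubgroup R} (h : Fil p e J) (ι : Type) :
    Fil p e fun t => AddSubgroup.pi (Set.univ : Set ι) fun _ => J t :=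
  ⟨fun _ _ => h.top, fun t _ ha i hi => h.anti t _ (ha i hi),
    fun s t _ _ ha hb i hi => h.mul s t _ _ (ha i hi) (hb i hi),
    fun t _ => ⟨fun ha i hi => (h.pmul t _).1 (ha i hi), fun ha i hi => (h.pmul t _).2 (ha i hi)⟩,
    fun _ ha => funext fun i => h.sep _ fun t => ha t i trivial⟩

lemma inv_WvMain {e k : ℕ} (he : 0 < e) (hk : e * (2 * k + 1) + 1 < p)
    {R Γ : Type} [Ring R] [Group Γ] {J : ℕ → AddSubgroup R} (hJ : Fil p e J) {G : Subgroup Γ}
    [G.Normal] (ρ : G →* R) (h1 : ∀ g, ρ g - 1 ∈ J 1) (y : Γ) {M : ℕ} (hM : 0 < M)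
    (h2 : y ^ M ∈ G) (h3 : ρ ⟨_, h2⟩ = 1)
    (h4 : ∀ (t : ℕ) (χ : G → ZMod p), (∀ g h, χ (g * h) = χ g + χ h) →
      (∀ g, (∀ i < M, ρ (MulAut.conjNormal (y ^ i) g) - 1 ∈ J t) → χ g = 0) →
      ∀ g, (tw (MulAut.conjNormal y : MulAut G).toMonoidHom)^[k + 1] χ g = 0) (g : G) :
    ρ (MulAut.conjNormal y g) = ρ g := by
  let T : (ℕ → R) →+* (ℕ → R) := RingHom.pi fun i => Pi.evalRingHom _ (i + 1)
  let σ : G →* (ℕ → R) :=
    MonoidHom.pi fun i => ρ.comp (MulAut.conjNormal (y ^ i) : MulAut G).toMonoidHom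
  have s1 : ∀ g i, σ g i = ρ (MulAut.conjNormal (y ^ i) g) := fun _ _ => rfl
  have s2 : ∀ (j : ℕ) (f : ℕ → R) i, T^[j] f i = f (i + j) := fun j => by
    induction j with
    | zero => exact fun _ _ => rfl
    | succ j ih => exact fun f i => by rw [Function.iterate_succ_apply, ih]; rfl
  have s3 : ∀ g i, σ g (i + M) = σ g i := fun g i => by
    have e1 : MulAut.conjNormal (y ^ (i + M)) g =
        ⟨_, h2⟩ * MulAut.conjNormal (y ^ i) g * ⟨_, h2⟩⁻¹ := by
      ext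
      simp only [MulAut.conjNormal_apply, Subgroup.coe_mul, Subgroup.coe_inv]
      group
    have e2 : ρ ⟨_, h2⟩⁻¹ = 1 := by
      rw [← one_mul (ρ _), ← h3, ← map_mul, mul_inv_cancel, h3, map_one]
    rw [s1, s1, e1, map_mul, map_mul, h3, e2, one_mul, mul_one]
  have := core_WvSharp (T := T) (ρ := σ) (α := (MulAut.conjNormal y : MulAut G).toMonoidHom)
    ⟨hJ.pi ℕ, he, fun t a ha i _ => ha (i + 1) trivial, fun g => funext fun i => ?_,
      fun g i _ => h1 _, fun t χ a1 a2 => h4 t χ a1 fun g hg => a2 g fun i _ => ?_⟩ hk M hM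
    (fun g => funext fun i => by rw [s2, s3]) g
  · have e : σ g 1 = σ g 0 := congrFun this 0
    simpa [s1] using e
  · change ρ (MulAut.conjNormal (y ^ i) (MulAut.conjNormal y g)) =
      ρ (MulAut.conjNormal (y ^ (i + 1)) g)
    rw [pow_succ, map_mul, MulAut.mul_apply]
  · change σ g i - 1 ∈ J t
    induction i using Nat.strong_induction_on with
    | _ i ih =>
      by_cases hi : i < M
      · exact hg i hi
      · obtain ⟨j, rfl⟩ : ∃ j, i = j + M := ⟨i - M, by omega⟩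
        rw [s3]
        exact ih j (by omega) trivial

variable {F K : IntermediateField ℚ Qb} {S : Set (Ideal (𝓞 F))}

lemma InerOut.conj {g : GQ} (h : InerOut F S g) {y : GQ} (hy : y ∈ F.fixingSubgroup) :
    InerOut F S (y * g * y⁻¹) := by
  obtain ⟨h1, P, h2, h3, h4⟩ := h
  exact ⟨mul_mem (mul_mem hy h1) (inv_mem hy), y • P, smul_max_EvRec y h2,
    by rwa [under_smul_EvRec F hy], inert_conj_EvRec y h4⟩

lemma InerOut.pow {g : GQ} (h : InerOut F S g) (M : ℕ) : InerOut F S (g ^ M) := by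
  obtain ⟨h1, P, h2, h3, h4⟩ := h
  exact ⟨pow_mem h1 M, P, h2, h3, pow_mem h4 M⟩

theorem desc_of (hT : TorWStmt p) (hI : ChainStmt p) (hE : ExtWStmt)
    [NumberField K] (h : F ≤ K) (hN : ∀ g ∈ F.fixingSubgroup, ∀ x ∈ K, g x ∈ K) {k c n : ℕ}
    (hc : 0 < c) (hk : c * (2 * k + 1) + 1 < p)
    (hS : F.fixingSubgroup ≤
      Subgroup.closure {x | InerOut F S x ∧ NilAct p F K S k x} ⊔ K.fixingSubgroup)
    (ρ : K.fixingSubgroup →ₜ* GL (Fin n) ℤ_[p]) (h1 : ResNil p c ρ)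
    (h2 : ∀ g : K.fixingSubgroup, InerOut F S g → ρ g = 1) :
    ∃ ρ' : F.fixingSubgroup →ₜ* GL (Fin n) ℤ_[p],
      (∀ g : K.fixingSubgroup, ρ' ⟨g, IntermediateField.fixingSubgroup_le h g.2⟩ = ρ g) ∧
      Set.range ρ' = Set.range ρ ∧ ∀ g : F.fixingSubgroup, InerOut F S g → ρ' g = 1 := by
  classical
  have hle := IntermediateField.fixingSubgroup_le h
  have hop := IntermediateField.fixingSubgroup_isOpen K
  let G := K.fixingSubgroup.subgroupOf F.fixingSubgroup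
  haveI : G.Normal := ⟨fun g hg y => by
    rw [Subgroup.mem_subgroupOf, IntermediateField.mem_fixingSubgroup_iff] at hg ⊢
    intro x hx
    have := hg _ (hN _ (inv_mem y.2) x hx)
    simp only [Subgroup.coe_mul, Subgroup.coe_inv, AlgEquiv.mul_apply, this]
    simp⟩
  haveI : Finite (GQ ⧸ K.fixingSubgroup) := Subgroup.quotient_finite_of_isOpen _ hop
  haveI : K.fixingSubgroup.FiniteIndex := Subgroup.finiteIndex_of_finite_quotient
  let ρ₀ : G →* GL (Fin n) ℤ_[p] :=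
    ρ.toMonoidHom.comp (Subgroup.subgroupOfEquivOfLe hle).toMonoidHom
  have r0 : ∀ g : G, ρ₀ g = ρ ⟨g.1.1, g.2⟩ := fun _ => rfl
  obtain ⟨J, j1, j2, j3⟩ := hI n c _ ρ.toMonoidHom hc h1
  have tor : ∀ g, ∀ M : ℕ, 0 < M → ρ₀ g ^ M = 1 → ρ₀ g = 1 := fun g M a b =>
    Units.ext (hT c _ J j1 hc (by nlinarith [Nat.zero_le (c * k)]) _ M (j3 _) a
      (by rw [← Units.val_pow_eq_pow_val]; exact congrArg Units.val b))
  have fin : ∀ y : F.fixingSubgroup, InerOut F S y →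
      ∃ M : ℕ, 0 < M ∧ ∃ h : y ^ M ∈ G, ρ₀ ⟨_, h⟩ = 1 := fun y hy =>
    ⟨G.index, Nat.pos_of_ne_zero Subgroup.FiniteIndex.index_ne_zero, G.pow_index_mem y,
      h2 _ (InerOut.pow hy _)⟩
  have key := hE F.fixingSubgroup _ G ρ₀
    {y | InerOut F S y.1 ∧ NilAct p F K S k y.1} ?_ tor fun y hy => ⟨fun g => ?_, fin y hy.1⟩
  · obtain ⟨ρ', e1, e2⟩ := key
    refine ⟨⟨ρ', continuous_of_continuousAt_one ρ' ?_⟩, fun g => e1 ⟨⟨g, hle g.2⟩, g.2⟩, ?_,
      fun y hy => ?_⟩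
    · have a1 : IsOpen (G : Set F.fixingSubgroup) := hop.preimage continuous_subtype_val
      refine ContinuousOn.continuousAt ?_ (a1.mem_nhds (one_mem G))
      rw [continuousOn_iff_continuous_domRestrict]
      have a2 : (G : Set F.fixingSubgroup).domRestrict ρ' = fun g : G => ρ ⟨g.1.1, g.2⟩ :=
        funext fun g => e1 g
      rw [a2]
      exact ρ.continuous.comp
        ((continuous_subtype_val.comp continuous_subtype_val).subtype_mk _)
    · ext u
      constructor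
      · rintro ⟨x, rfl⟩
        obtain ⟨g, hg⟩ := e2 x
        exact ⟨_, hg.symm⟩
      · rintro ⟨g, rfl⟩
        exact ⟨_, e1 ⟨⟨g, hle g.2⟩, g.2⟩⟩
    · obtain ⟨g, hg⟩ := e2 y
      obtain ⟨M, a1, a2, a3⟩ := fin y hy
      change ρ' y = 1
      rw [hg]
      exact tor g M a1 (by rw [← hg, ← map_pow, ← a3, ← e1])
  · refine Subgroup.map_injective F.fixingSubgroup.subtype_injective ?_
    rw [Subgroup.map_sup, MonoidHom.map_closure, Subgroup.subgroupOf_map_subtype,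
      inf_eq_left.2 hle, ← MonoidHom.range_eq_map, Subgroup.range_subtype]
    refine le_antisymm (sup_le ((Subgroup.closure_le _).2 ?_) hle)
      (hS.trans (sup_le_sup_right (Subgroup.closure_mono fun x hx => ?_) _))
    · rintro _ ⟨x, -, rfl⟩
      exact x.2
    · exact ⟨⟨x, hx.1.1⟩, hx, rfl⟩
  · obtain ⟨M, a1, a2, a3⟩ := fin y hy.1
    refine Units.ext (inv_WvMain hc hk j1 ((Units.coeHom _).comp ρ₀) (fun g => j3 _) y a1 a2
      (congrArg Units.val a3) (fun t χ b1 b2 g => ?_) g)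
    let χ' : GQ → ZMod p := fun g => if h : g ∈ K.fixingSubgroup then χ ⟨⟨g, hle h⟩, h⟩ else 0
    have c1 : ∀ g : G, χ' g.1.1 = χ g := fun g => dif_pos g.2
    have c2 : ∀ (j : ℕ) (θ : G → ZMod p) (θ' : GQ → ZMod p), (∀ g : G, θ' g.1.1 = θ g) →
        ∀ g : G, (fun (θ : GQ → ZMod p) (h : GQ) => θ (y.1 * h * y.1⁻¹) - θ h)^[j] θ' g.1.1 =
          (tw (MulAut.conjNormal y : MulAut G).toMonoidHom)^[j] θ g := fun j => by
      induction j with
      | zero => exact fun _ _ h => h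
      | succ j ih =>
        intro θ θ' e g
        rw [Function.iterate_succ_apply, Function.iterate_succ_apply]
        exact ih _ _ (fun g => by rw [tw, ← e, ← e]; rfl) g
    rw [← c2 _ χ χ' c1]
    refine hy.2 χ' ⟨fun g hg h hh => ?_, ?_, fun g hg hi => ?_⟩ _ g.2
    · exact (c1 (⟨⟨g, hle hg⟩, hg⟩ * ⟨⟨h, hle hh⟩, hh⟩)).trans ((b1 _ _).trans
        (by rw [← c1, ← c1]))
    · have d1 : {u : K.fixingSubgroup | (ρ u).val - 1 ∈ J t} ∈ 𝓝 1 := by
        have d2 : Continuous fun u : K.fixingSubgroup => (ρ u).val - 1 :=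
          (Units.continuous_val.comp ρ.continuous).sub continuous_const
        exact d2.continuousAt.preimage_mem_nhds (by simpa using j2 t)
      obtain ⟨s, s1, s2⟩ := (mem_nhds_subtype _ _ _).1 d1
      have d3 : ∀ i ∈ Set.Iio M, ∀ᶠ g in 𝓝 (1 : GQ), y.1 ^ i * g * (y.1 ^ i)⁻¹ ∈ s :=
        fun i _ => ((continuous_const.mul continuous_id).mul continuous_const).continuousAt.preimage_mem_nhds
          (by simpa using s1)
      filter_upwards [(eventually_all_finite (Set.finite_Iio M)).2 d3] with g d4 hg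
      exact (c1 ⟨⟨g, hle hg⟩, hg⟩).trans (b2 _ fun i hi => s2 (d4 i hi))
    · refine (c1 ⟨⟨g, hle hg⟩, hg⟩).trans (b2 _ fun i _ => ?_)
      have : ρ₀ (MulAut.conjNormal (y ^ i) (⟨⟨g, hle hg⟩, hg⟩ : G)) = 1 :=
        h2 ⟨_, (MulAut.conjNormal (y ^ i) (⟨⟨g, hle hg⟩, hg⟩ : G)).2⟩
          (InerOut.conj hi (pow_mem y.2 i))
      change (ρ₀ _).val - 1 ∈ J t
      rw [this, Units.val_one, sub_self]
      exact zero_mem _

end Pool.Agent.MP_f68ac8_nt.Sv
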