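import Mathlib
import Pool.Agent.MP_f68ac8_nt.WvMain
import Pool.Agent.MP_f68ac8_nt.WvChain
import Pool.Agent.MP_f68ac8_nt.WvExt

namespace Pool.Agent.MP_f68ac8_nt.DescentOld

open NumberField Pool.Agent.MP_f68ac8_nt Sv

theorem result (p : ℕ) [Fact p.Prime] (F K : IntermediateField ℚ (AlgebraicClosure ℚ))
    [NumberField F] [NumberField K] (h : F ≤ K)
    (hN : ∀ g ∈ F.fixingSubgroup, ∀ x ∈ K, g x ∈ K) (S : Set (Ideal (𝓞 F))) (k c n : ℕ)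
    (hc : 0 < c) (hk : c * (2 * k + 1) + 1 < p)
    (hS : F.fixingSubgroup ≤
      Subgroup.closure {x | InerOut F S x ∧ NilAct p F K S k x} ⊔ K.fixingSubgroup)
    (ρ : K.fixingSubgroup →ₜ* GL (Fin n) ℤ_[p]) (h1 : ResNil p c ρ)
    (h2 : ∀ g : K.fixingSubgroup, InerOut F S g → ρ g = 1) :
    ∃ ρ' : F.fixingSubgroup →ₜ* GL (Fin n) ℤ_[p],
      (∀ g : K.fixingSubgroup, ρ' ⟨g, IntermediateField.fixingSubgroup_le h g.2⟩ = ρ g) ∧
      Set.range ρ' = Set.range ρ ∧ ∀ g : F.fixingSubgroup, InerOut F S g → ρ' g = 1 :=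
  desc_of (torW_stmt p) (chain_stmt p) extW_stmt h hN hc hk hS ρ h1 h2

end Pool.Agent.MP_f68ac8_nt.DescentOld
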