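import Mathlib
import Pool.Agent.MP_f68ac8_nt.PvAux
import Pool.Agent.MP_f68ac8_nt.EvRec
import Pool.Agent.MP_f68ac8_nt.Kum
import Pool.Agent.MP_f68ac8_nt.OvEqv
import Pool.Agent.MP_f68ac8_nt.GvMain

/-! Vanishing of the Selmer group. -/

namespace Pool.Agent.MP_f68ac8_nt.Pv

open Ev NumberField Matrix
open Pool.Agent.MP_14ad9d_nt.Full (Pr exists_coprime_rep)
open scoped Pointwise

section
variable {F : Type} [Field F] [NumberField F] {V : Type} [AddCommGroup V]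
  {φ : Ideal (𝓞 F) → V} (hadd : ∀ I J, I ≠ ⊥ → J ≠ ⊥ → φ (I * J) = φ I + φ J)

omit [NumberField F] in
lemma span_ne_PvCl0 {a : 𝓞 F} (h : a ≠ 0) : Ideal.span {a} ≠ ⊥ := by
  simpa using h

lemma not_unit_PvCl0 {p : ℕ} (hp : p.Prime) : ¬ IsUnit (p : 𝓞 F) := by
  intro h
  rw [← map_natCast (algebraMap ℤ (𝓞 F)), isUnit_map_iff] at h
  exact (Nat.prime_iff_prime_int.mp hp).not_isUnit h

include hadd

omit [NumberField F] in
lemma top_PvCl0 : φ ⊤ = 0 := by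
  have h := hadd ⊤ ⊤ top_ne_bot top_ne_bot
  rw [Ideal.mul_top] at h
  simpa using h

omit [NumberField F] in
lemma pow_PvCl0 {a : 𝓞 F} (ha : a ≠ 0) (m : ℕ) :
    φ (Ideal.span {a ^ m}) = m • φ (Ideal.span {a}) := by
  induction m with
  | zero => simpa using top_PvCl0 hadd
  | succ m ih =>
    rw [pow_succ, ← Ideal.span_singleton_mul_span_singleton,
      hadd _ _ (span_ne_PvCl0 (pow_ne_zero _ ha)) (span_ne_PvCl0 ha), ih, succ_nsmul]

lemma cls_PvCl0 {N : 𝓞 F} (hN : ¬ IsUnit N)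
    (h0 : ∀ a : 𝓞 F, a ≠ 0 → IsCoprime a N → φ (Ideal.span {a}) = 0) {A B : Ideal (𝓞 F)}
    (hA : A ≠ ⊥) (hB : B ≠ ⊥) (cA : IsCoprime A (Ideal.span {N}))
    (cB : IsCoprime B (Ideal.span {N})) {a b : 𝓞 F} (ha : a ≠ 0) (hb : b ≠ 0)
    (e : A * Ideal.span {a} = B * Ideal.span {b}) : φ A = φ B := by
  obtain ⟨c, hc, m, hm, e1⟩ := Ideal.isCoprime_iff_exists.1 cA
  obtain ⟨t, rfl⟩ := Ideal.mem_span_singleton'.1 hm
  have cc : IsCoprime c N := ⟨1, t, by rw [one_mul, e1]⟩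
  have c0 : c ≠ 0 := by
    rintro rfl
    exact hN (isCoprime_zero_left.1 cc)
  obtain ⟨C, hC⟩ := Ideal.dvd_span_singleton.2 hc
  have C0 : C ≠ ⊥ := by
    rintro rfl
    exact span_ne_PvCl0 c0 (by simpa using hC)
  have cC : IsCoprime C (Ideal.span {N}) := by
    have := (Ideal.isCoprime_span_singleton_iff c N).2 cc
    rw [hC] at this
    exact this.of_mul_left_right
  have e2 : Ideal.span {c * a} = B * C * Ideal.span {b} := by
    rw [← Ideal.span_singleton_mul_span_singleton, hC, mul_right_comm, e, mul_right_comm]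
  have e3 : c * a ∈ Ideal.span {b} := by
    have := Ideal.mem_span_singleton_self (c * a)
    rw [e2] at this
    exact Ideal.mul_le_right this
  obtain ⟨d, hd⟩ := Ideal.mem_span_singleton'.1 e3
  have e4 : Ideal.span {d} = B * C := by
    rw [← hd, ← Ideal.span_singleton_mul_span_singleton] at e2
    exact mul_right_cancel₀ (span_ne_PvCl0 hb) e2
  have d0 : d ≠ 0 := by
    rintro rfl
    exact mul_ne_zero c0 ha (by simpa using hd.symm)
  have cd : IsCoprime d N := by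
    rw [← Ideal.isCoprime_span_singleton_iff, e4]
    exact cB.mul_left cC
  have h1 := h0 c c0 cc
  have h2 := h0 d d0 cd
  rw [hC, hadd _ _ hA C0] at h1
  rw [e4, hadd _ _ hB C0] at h2
  exact add_right_cancel (h1.trans h2.symm)

/-- the extension to a function on ideal classes -/
lemma ext_PvCl0 {N : 𝓞 F} (hN : ¬ IsUnit N) (N0 : N ≠ 0)
    (h0 : ∀ a : 𝓞 F, a ≠ 0 → IsCoprime a N → φ (Ideal.span {a}) = 0) :
    ∃ ψ : Ideal (𝓞 F) → V, ψ ⊥ = 0 ∧ (∀ I, I ≠ ⊥ → ∃ (B : Ideal (𝓞 F)) (a b : 𝓞 F), B ≠ ⊥ ∧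
      IsCoprime B (Ideal.span {N}) ∧ a ≠ 0 ∧ b ≠ 0 ∧ B * Ideal.span {a} = I * Ideal.span {b}) ∧
      ∀ (I B : Ideal (𝓞 F)) (a b : 𝓞 F), B ≠ ⊥ → IsCoprime B (Ideal.span {N}) → a ≠ 0 → b ≠ 0 →
        B * Ideal.span {a} = I * Ideal.span {b} → ψ I = φ B := by
  classical
  have ex : ∀ I : Ideal (𝓞 F), I ≠ ⊥ → ∃ (B : Ideal (𝓞 F)) (a b : 𝓞 F), B ≠ ⊥ ∧
      IsCoprime B (Ideal.span {N}) ∧ a ≠ 0 ∧ b ≠ 0 ∧ B * Ideal.span {a} = I * Ideal.span {b} := by
    intro I hI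
    obtain ⟨B, a, b, h1, h2, -, h3, h4, -, -, h5⟩ := exists_coprime_rep I hI ⊤
      (Ideal.isCoprime_iff_sup_eq.2 (sup_top_eq _)) (Ideal.span {N}) (span_ne_PvCl0 N0)
    exact ⟨B, a, b, h1, h2, h3, h4, h5⟩
  refine ⟨fun I => if h : I = ⊥ then 0 else φ (ex I h).choose, dif_pos rfl, ex,
    fun I B a b h1 h2 h3 h4 h5 => ?_⟩
  have hI : I ≠ ⊥ := by
    rintro rfl
    exact mul_ne_zero h1 (span_ne_PvCl0 h3) (by simpa using h5)
  obtain ⟨a', b', k1, k2, k3, k4, k5⟩ := (ex I hI).choose_spec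
  simp only [dif_neg hI]
  refine cls_PvCl0 hadd hN h0 k1 h1 k2 h2 (mul_ne_zero k3 h4) (mul_ne_zero h3 k4) ?_
  rw [← Ideal.span_singleton_mul_span_singleton, ← Ideal.span_singleton_mul_span_singleton,
    ← mul_assoc, ← mul_assoc, k5, h5, mul_right_comm]

end

section
variable {p : ℕ} [hp : Fact p.Prime] {K F : IntermediateField ℚ Qb} {n : ℕ}

lemma good_PvCl0 (hK : KKStmt p) (D : Dt p K n) (hM : xi p ∈ F)
    (ξ : Matrix (Fin n) (Fin n) (𝓞 F)) (h0 : ∀ i j, ξ i j ≠ 0)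
    (hc : ∀ i j, IsCoprime (ξ i j) D.N)
    (ht : ∀ g ∈ F.fixingSubgroup, ∑ i, KK p ((ξ i i : F) : Qb) g = 0) :
    D.Good F (xi p) ξ fun g => Matrix.of fun i j => KK p ((ξ i j : F) : Qb) g := by
  refine ⟨hc, fun g hg i j y hy => ?_, ht⟩
  have x0 : ((ξ i j : F) : Qb) ≠ 0 := by simpa using h0 i j
  have y0 : y ≠ 0 := by
    rintro rfl
    exact x0 (by rw [← hy, zero_pow hp.out.ne_zero])
  rw [Matrix.of_apply, ← hK.1 _ y g x0 hy (cyc_fix_EvRec F hM hg)]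
  refine kap_spec y0 ?_
  rw [hy]
  exact (IntermediateField.mem_fixingSubgroup_iff _ _).mp hg _ (ξ i j : F).2

lemma prin_PvCl0 [NumberField F] [IsGalois ℚ F] (hK : KKStmt p) (D : Dt p K 2) (hM : xi p ∈ F)
    (h2 : 2 < p) {φ : Ideal (𝓞 F) → Mt 2 (ZMod p)} (hφ : D.Eqv F φ)
    (h : ∀ ξ κ, D.Good F (xi p) ξ κ → Dt.pair φ ξ = 0) (a : 𝓞 F) (ha : a ≠ 0)
    (hc : IsCoprime a D.N) : φ (Ideal.span {a}) = 0 := by
  have a0 : ((a : F) : Qb) ≠ 0 := by simpa using ha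
  have k1 : ∀ g ∈ F.fixingSubgroup, KK p 1 g = 0 := fun g hg => by
    simpa using hK.2.2.1 1 0 g one_ne_zero (map_one g) (cyc_fix_EvRec F hM hg)
  have t0 : φ (Ideal.span {1}) = 0 := by simpa using top_PvCl0 hφ.add
  have e1 := h _ _ (good_PvCl0 hK D hM !![1, a; 1, 1]
    (by simp [Fin.forall_fin_two, ha]) (by simp [Fin.forall_fin_two, hc, isCoprime_one_left])
    fun g hg => by simp [k1 g hg])
  have e2 := h _ _ (good_PvCl0 hK D hM !![1, 1; a, 1]
    (by simp [Fin.forall_fin_two, ha]) (by simp [Fin.forall_fin_two, hc, isCoprime_one_left])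
    fun g hg => by simp [k1 g hg])
  have c1 : ((p - 1 : ℕ) : ZMod p) = -1 := by
    rw [Nat.cast_sub hp.out.one_le]
    simp
  have e3 := h _ _ (good_PvCl0 hK D hM !![a, 1; 1, a ^ (p - 1)]
    (by simp [Fin.forall_fin_two, ha])
    (by simp [Fin.forall_fin_two, hc, isCoprime_one_left, hc.pow_left])
    fun g hg => by
      have := hK.2.2.1 _ ((p - 1 : ℕ) : ℤ) g a0
        ((IntermediateField.mem_fixingSubgroup_iff _ _).mp hg _ (a : F).2)
        (cyc_fix_EvRec F hM hg)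
      rw [zpow_natCast, Int.cast_natCast, c1] at this
      simp [this])
  have e4 := hφ.tr (Ideal.span {a})
  simp only [Dt.pair, Fin.sum_univ_two, Matrix.of_apply, Matrix.cons_val', Matrix.cons_val_zero,
    Matrix.cons_val_one, Matrix.cons_val_fin_one, t0, Matrix.zero_apply, add_zero,
    zero_add] at e1 e2 e3
  rw [pow_PvCl0 hφ.add ha, Matrix.smul_apply, nsmul_eq_mul, c1] at e3
  rw [Matrix.trace_fin_two] at e4
  have two : (2 : ZMod p) ≠ 0 := by
    intro e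
    have : ((2 : ℕ) : ZMod p) = 0 := by simpa using e
    exact (Nat.le_of_dvd two_pos ((ZMod.natCast_eq_zero_iff _ _).1 this)).not_gt h2
  have e5 : φ (Ideal.span {a}) 0 0 = 0 := mul_left_cancel₀ two (by linear_combination e3 + e4)
  ext i j
  fin_cases i <;> fin_cases j
  · exact e5
  · exact e2
  · exact e1
  · simpa [e5] using e4

end

theorem cl0_stmt (p : ℕ) [Fact p.Prime] (hK : KKStmt p) (hC : CoresStmt p) (hX : ExtStmt) :
    Cl0Stmt p := by
  intro K F _ _ _ hKF r hR hB φ hφ h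
  have hp : p.Prime := Fact.out
  have hM := (hC K F hKF 2 _ hB).1.1
  have h0 := prin_PvCl0 hK _ hM hB.odd.1 hφ h
  obtain ⟨ψ, b0, ex, hψ⟩ := ext_PvCl0 hφ.add (not_unit_PvCl0 hp)
    (Nat.cast_ne_zero.2 hp.ne_zero) h0
  have z := hR.cls ψ (fun I J hI hJ => ?_) (fun a => ?_) (fun I => ?_) (fun g I => ?_)
  · have z1 : ∀ I, I ≠ ⊥ → φ I = 0 := ((hX F _).2 φ hφ.add).2 fun w => by
      by_cases hw : (p : 𝓞 F) ∈ w.asIdeal
      · exact hφ.lev _ w.isPrime hw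
      · rw [← hψ w.asIdeal w.asIdeal 1 1 w.ne_bot ?_ one_ne_zero one_ne_zero rfl, z]
        refine Ideal.isCoprime_iff_sup_eq.2 (w.isMaximal.out.2 _ (left_lt_sup.2 fun e => hw ?_))
        exact e (Ideal.mem_span_singleton_self _)
    funext I
    rcases eq_or_ne I ⊥ with rfl | hI
    · refine (hB.irr (Submodule.span (ZMod p) {φ ⊥}) (fun g A hA => ?_) (fun A hA => ?_)).elim
        (fun e => Submodule.span_singleton_eq_bot.1 e)
        fun e => inv_zero (hφ.tr ⊥) fun A hA => e A hA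
      · obtain ⟨c, rfl⟩ := Submodule.mem_span_singleton.1 hA
        have := hφ.conj g ⊥
        rw [smul_bot_OvEqv, Dt.ad] at this
        rw [Matrix.mul_smul, Matrix.smul_mul, ← this]
        exact hA
      · obtain ⟨c, rfl⟩ := Submodule.mem_span_singleton.1 hA
        rw [Matrix.trace_smul, hφ.tr, smul_zero]
    · exact z1 I hI
  · obtain ⟨B, a, b, h1, h2, h3, h4, h5⟩ := ex I hI
    obtain ⟨C, c, d, k1, k2, k3, k4, k5⟩ := ex J hJ
    rw [hψ I B a b h1 h2 h3 h4 h5, hψ J C c d k1 k2 k3 k4 k5, ← hφ.add B C h1 k1]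
    refine hψ _ _ (a * c) (b * d) (mul_ne_zero h1 k1) (h2.mul_left k2) (mul_ne_zero h3 k3)
      (mul_ne_zero h4 k4) ?_
    rw [← Ideal.span_singleton_mul_span_singleton, ← Ideal.span_singleton_mul_span_singleton,
      mul_mul_mul_comm, h5, k5, mul_mul_mul_comm]
  · rcases eq_or_ne a 0 with rfl | ha
    · simpa using b0
    · rw [hψ _ ⊤ a 1 top_ne_bot (Ideal.isCoprime_iff_sup_eq.2 (top_sup_eq _)) ha one_ne_zero
        (by simp), top_PvCl0 hφ.add]
  · rcases eq_or_ne I ⊥ with rfl | hI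
    · rw [b0, Matrix.trace_zero]
    · obtain ⟨B, a, b, h1, h2, h3, h4, h5⟩ := ex I hI
      rw [hψ I B a b h1 h2 h3 h4 h5, hφ.tr]
  · rcases eq_or_ne I ⊥ with rfl | hI
    · rw [smul_bot_OvEqv, b0, Matrix.mul_zero, Matrix.zero_mul]
    · obtain ⟨B, a, b, h1, h2, h3, h4, h5⟩ := ex I hI
      have sp : ∀ x : 𝓞 F, res F g.1 • Ideal.span {x} = Ideal.span {res F g.1 • x} := fun x => by
        rw [Ideal.pointwise_smul_def, Ideal.map_span, Set.image_singleton]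
        rfl
      have hc : IsCoprime (res F g.1 • B) (Ideal.span {(p : 𝓞 F)}) := by
        have e : res F g.1 • (p : 𝓞 F) = p :=
          map_natCast (MulSemiringAction.toRingHom _ (𝓞 F) (res F g.1)) p
        rw [← e, ← sp, Ideal.isCoprime_iff_sup_eq, ← Ideal.smul_sup,
          Ideal.isCoprime_iff_sup_eq.1 h2, Ideal.pointwise_smul_def, Ideal.map_top]
      rw [hψ I B a b h1 h2 h3 h4 h5]
      refine (hψ _ (res F g.1 • B) (res F g.1 • a) (res F g.1 • b) (smul_ne_OvEqv _ h1) hc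
        ((smul_ne_zero_iff_ne _).2 h3) ((smul_ne_zero_iff_ne _).2 h4) ?_).trans (hφ.conj g B)
      rw [← sp, ← sp, ← smul_mul', ← smul_mul', h5]

end Pool.Agent.MP_f68ac8_nt.Pv
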