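import Mathlib
import Pool.Agent.MP_f68ac8_nt.PvAux
import Pool.Agent.MP_f68ac8_nt.Kum

/-! Duality between equivariant functions on ideals and dual Selmer classes. -/

namespace Pool.Agent.MP_f68ac8_nt.Pv

open Ev

open NumberField Matrix Module
open scoped Pointwise

lemma abs_PvDual {k W : Type} [Field k] [AddCommGroup W] [Module k W] (Λ : Submodule k W)
    (s : ℕ) (h : ∀ ℓ : Fin (s + 1) → Dual k W, (∀ a, ∀ w ∈ Λ, ℓ a w = 0) →
      ¬ LinearIndependent k ℓ) :
    ∃ q : Fin s → W, ∀ w, ∃ a : Fin s → k, w - ∑ b, a b • q b ∈ Λ := by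
  classical
  have hr : Module.rank k (W ⧸ Λ) ≤ s := by
    by_contra hc
    have h1 : ((s + 1 : ℕ) : Cardinal) ≤ Module.rank k (W ⧸ Λ) := by
      rw [Nat.cast_add, Nat.cast_one]
      exact Cardinal.add_one_le_of_lt (lt_of_not_ge hc)
    obtain ⟨v, hv⟩ := exists_linearIndependent_of_le_rank h1
    let B := Basis.ofVectorSpace k (W ⧸ Λ)
    have h2 := hv.map' B.toDual (LinearMap.ker_eq_bot.2 B.toDual_injective)
    have h3 := h2.map' Λ.mkQ.dualMap
      (LinearMap.ker_eq_bot.2 (LinearMap.dualMap_injective_of_surjective Λ.mkQ_surjective))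
    refine h _ (fun a w hw => ?_) h3
    have : Λ.mkQ w = 0 := (Submodule.Quotient.mk_eq_zero Λ).2 hw
    simp only [Function.comp, LinearMap.dualMap_apply, this, map_zero]
  have : Module.Finite k (W ⧸ Λ) :=
    Module.rank_lt_aleph0_iff.1 (hr.trans_lt (Cardinal.natCast_lt_aleph0))
  have hf : finrank k (W ⧸ Λ) ≤ s := Module.finrank_le_of_rank_le hr
  let B := Module.finBasis k (W ⧸ Λ)
  let q' : Fin s → W ⧸ Λ := fun b => if hb : b.val < finrank k (W ⧸ Λ) then B ⟨b, hb⟩ else 0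
  have hq : Submodule.span k (Set.range q') = ⊤ := by
    rw [eq_top_iff, ← B.span_eq]
    refine Submodule.span_mono ?_
    rintro _ ⟨i, rfl⟩
    exact ⟨⟨i, i.2.trans_le hf⟩, by simp [q']⟩
  choose q hq2 using fun b => Λ.mkQ_surjective (q' b)
  refine ⟨q, fun w => ?_⟩
  obtain ⟨a, ha⟩ := (Submodule.mem_span_range_iff_exists_fun k).1
    (hq.ge (Submodule.mem_top (x := Λ.mkQ w)))
  refine ⟨a, (Submodule.Quotient.mk_eq_zero Λ).1 ?_⟩
  change Λ.mkQ _ = 0
  rw [map_sub, map_sum, ← ha]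
  simp only [map_smul, hq2, sub_self]

section pairing
variable {k X : Type} [Field k] {n : ℕ}

/-- the trace pairing between functions and finitely supported functions -/
noncomputable def prL_PvDual : (X → Mt n k) →ₗ[k] Dual k (X →₀ Mt n k) where
  toFun φ := Finsupp.lsum k fun I =>
    Matrix.traceLinearMap (Fin n) k k ∘ₗ LinearMap.mulLeft k (φ I)
  map_add' φ ψ := Finsupp.lhom_ext fun I H => by simp [add_mul]
  map_smul' a φ := Finsupp.lhom_ext fun I H => by simp

lemma prL_single_PvDual (φ : X → Mt n k) (I : X) (H : Mt n k) :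
    prL_PvDual φ (Finsupp.single I H) = (φ I * H).trace := by
  simp [prL_PvDual]

lemma prL_surj_PvDual (ℓ : Dual k (X →₀ Mt n k)) : ∃ φ, prL_PvDual φ = ℓ := by
  refine ⟨fun I => Matrix.of fun j i => ℓ (Finsupp.single I (Matrix.single i j 1)),
    Finsupp.lhom_ext fun I H => ?_⟩
  rw [prL_single_PvDual]
  have h : Finsupp.single I H =
      ∑ j, ∑ i, H i j • Finsupp.single I (Matrix.single i j (1 : k) : Mt n k) := by
    rw [Finset.sum_comm]
    conv_lhs => rw [Matrix.matrix_eq_sum_single H]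
    simp only [Finsupp.single_finsetSum, Finsupp.smul_single, Matrix.smul_single, smul_eq_mul,
      mul_one]
  rw [h]
  simp only [Matrix.trace, Matrix.diag, Matrix.mul_apply, Matrix.of_apply, map_sum, map_smul,
    smul_eq_mul, mul_comm]

end pairing

section good
variable {p : ℕ} [hp : Fact p.Prime] {K F : IntermediateField ℚ Qb} {n : ℕ} {D : Dt p K n}
  {ζ : Qb}

lemma ne_PvDual (hN : p ∣ D.N) {x : 𝓞 F} (hx : IsCoprime x D.N) : x ≠ 0 := by
  rintro rfl
  obtain ⟨c, hc⟩ := hN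
  have h1 : IsUnit ((D.N : ℕ) : 𝓞 F) := isCoprime_zero_left.1 hx
  rw [hc, Nat.cast_mul] at h1
  have h2 : IsUnit ((p : ℤ) : 𝓞 F) := by simpa using isUnit_of_mul_isUnit_left h1
  have h3 : IsUnit (p : ℤ) := by
    have : Algebra.IsIntegral ℤ (𝓞 F) := inferInstance
    have h4 : IsUnit (algebraMap ℤ (𝓞 F) p) := by simpa using h2
    exact (isUnit_map_iff (algebraMap ℤ (𝓞 F)) _).1 h4
  exact hp.out.one_lt.ne' (by simpa using Int.isUnit_iff_natAbs_eq.1 h3)

lemma good_one_PvDual (hF : ∀ x : Qb, x ^ p = 1 → x ∈ F) :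
    D.Good F ζ (Matrix.of fun _ _ => 1) (fun _ => 0) where
  cop i j := isCoprime_one_left
  kum g hg i j y hy := by
    have h1 : y ^ p = 1 := by simpa using hy
    have h2 : g y = y := (IntermediateField.mem_fixingSubgroup_iff F g).1 hg y (hF y h1)
    simp [h2]
  tr g _ := by simp

lemma good_mul_PvDual (hz : IsPrimitiveRoot ζ p) (hN : p ∣ D.N) {ξ ξ' κ κ'}
    (h : D.Good F ζ ξ κ) (h' : D.Good F ζ ξ' κ') :
    D.Good F ζ (Matrix.of fun i j => ξ i j * ξ' i j) (fun g => κ g + κ' g) where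
  cop i j := (h.cop i j).mul_left (h'.cop i j)
  kum g hg i j y hy := by
    obtain ⟨y₁, hy₁⟩ := IsAlgClosed.exists_pow_nat_eq ((ξ i j : F) : Qb) hp.out.pos
    have h0 : ((ξ i j : F) : Qb) ≠ 0 := by
      have := ne_PvDual hN (h.cop i j)
      simpa using this
    have h1 : y₁ ≠ 0 := by
      rintro rfl
      exact h0 (by rw [← hy₁, zero_pow hp.out.ne_zero])
    have h2 : (y / y₁) ^ p = ((ξ' i j : F) : Qb) := by
      rw [div_pow, hy, hy₁, div_eq_iff h0, mul_comm]
      simp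
    have h3 : y = y₁ * (y / y₁) := by field_simp
    have e1 := h.kum g hg i j y₁ hy₁
    have e2 := h'.kum g hg i j _ h2
    rw [Matrix.add_apply, ex_add hz]
    conv_lhs => rw [h3, map_mul, e1, e2]
    field_simp
  tr g hg := by rw [Matrix.trace_add, h.tr g hg, h'.tr g hg, add_zero]

variable [Normal ℚ F]

lemma top_PvDual {φ} (hφ : D.Eqv F φ) : φ ⊤ = 0 := by
  have h := hφ.add ⊤ ⊤ top_ne_bot top_ne_bot
  rw [Ideal.mul_top] at h
  exact left_eq_add.1 h

lemma pair_one_PvDual {φ} (hφ : D.Eqv F φ) :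
    Dt.pair φ (Matrix.of fun _ _ => (1 : 𝓞 F)) = 0 := by
  simp [Dt.pair, top_PvDual hφ]

lemma pair_mul_PvDual {φ} (hφ : D.Eqv F φ) {ξ ξ' : Matrix (Fin n) (Fin n) (𝓞 F)}
    (h : ∀ i j, ξ i j ≠ 0) (h' : ∀ i j, ξ' i j ≠ 0) :
    Dt.pair φ (Matrix.of fun i j => ξ i j * ξ' i j) = Dt.pair φ ξ + Dt.pair φ ξ' := by
  simp only [Dt.pair, Matrix.of_apply, ← Finset.sum_add_distrib]
  refine Finset.sum_congr rfl fun i _ => Finset.sum_congr rfl fun j _ => ?_
  rw [← Ideal.span_singleton_mul_span_singleton, hφ.add _ _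
    (Ideal.span_singleton_eq_bot.not.2 (h i j)) (Ideal.span_singleton_eq_bot.not.2 (h' i j)),
    Matrix.add_apply]

/-- the functionals given by dual Selmer classes -/
noncomputable def lam_PvDual (hz : IsPrimitiveRoot ζ p) (hN : p ∣ D.N)
    (hF : ∀ x : Qb, x ^ p = 1 → x ∈ F) :
    Submodule (ZMod p) (Ideal (𝓞 F) →₀ Mt n (ZMod p)) :=
  let A : AddSubmonoid (Ideal (𝓞 F) →₀ Mt n (ZMod p)) :=
    { carrier := {w | ∃ ξ κ, D.Good F ζ ξ κ ∧ ∀ φ, D.Eqv F φ → Dt.pair φ ξ = prL_PvDual φ w}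
      zero_mem' := ⟨_, _, good_one_PvDual hF, fun φ hφ => by rw [pair_one_PvDual hφ, map_zero]⟩
      add_mem' := by
        rintro w w' ⟨ξ, κ, h, e⟩ ⟨ξ', κ', h', e'⟩
        refine ⟨_, _, good_mul_PvDual hz hN h h', fun φ hφ => ?_⟩
        rw [pair_mul_PvDual hφ (fun i j => ne_PvDual hN (h.cop i j))
          (fun i j => ne_PvDual hN (h'.cop i j)), map_add, e φ hφ, e' φ hφ] }
  { A with
    smul_mem' := fun a w hw => by
      have h : a • w = a.val • w := by
        rw [← Nat.cast_smul_eq_nsmul (ZMod p), ZMod.natCast_zmod_val]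
      rw [h]
      exact A.nsmul_mem hw _ }

lemma mem_lam_PvDual (hz : IsPrimitiveRoot ζ p) (hN : p ∣ D.N)
    (hF : ∀ x : Qb, x ^ p = 1 → x ∈ F) (w) : w ∈ lam_PvDual hz hN hF ↔
      ∃ ξ κ, D.Good F ζ ξ κ ∧ ∀ φ, D.Eqv F φ → Dt.pair φ ξ = prL_PvDual φ w := Iff.rfl

/-- the equivariant functions are cut out by finitely supported relations -/
lemma closed_PvDual {ψ : Ideal (𝓞 F) → Mt n (ZMod p)}
    (h : ∀ w, (∀ φ, D.Eqv F φ → prL_PvDual φ w = 0) → prL_PvDual ψ w = 0) : D.Eqv F ψ where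
  add I J hI hJ := by
    refine Matrix.ext_iff_trace_mul_right.2 fun H => ?_
    have := h (Finsupp.single (I * J) H - Finsupp.single I H - Finsupp.single J H) fun φ hφ => by
      simp only [map_sub, prL_single_PvDual, hφ.add I J hI hJ, add_mul, Matrix.trace_add]
      ring
    simp only [map_sub, prL_single_PvDual] at this
    rw [add_mul, Matrix.trace_add]
    linear_combination this
  conj g I := by
    refine Matrix.ext_iff_trace_mul_right.2 fun H => ?_
    have e : ∀ Z : Mt n (ZMod p),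
        (D.ad g Z * H).trace = (Z * ((D.r g)⁻¹.val * H * (D.r g).val)).trace := fun Z => by
      rw [Dt.ad, mul_assoc, mul_assoc, Matrix.trace_mul_comm]
      simp only [mul_assoc]
    have := h (Finsupp.single (AlgEquiv.restrictNormalHom F g.1 • I) H -
        Finsupp.single I ((D.r g)⁻¹.val * H * (D.r g).val)) fun φ hφ => by
      simp only [map_sub, prL_single_PvDual, hφ.conj g I, e, sub_self]
    simp only [map_sub, prL_single_PvDual] at this
    rw [e]
    exact sub_eq_zero.1 this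
  tr I := by
    have := h (Finsupp.single I 1) fun φ hφ => by rw [prL_single_PvDual, mul_one, hφ.tr]
    rwa [prL_single_PvDual, mul_one] at this
  lev I hI hN := by
    refine Matrix.ext_iff_trace_mul_right.2 fun H => ?_
    have := h (Finsupp.single I H) fun φ hφ => by
      rw [prL_single_PvDual, hφ.lev I hI hN, zero_mul, Matrix.trace_zero]
    rw [prL_single_PvDual] at this
    rw [this, zero_mul, Matrix.trace_zero]

omit [Normal ℚ F] in
lemma pair_eq_PvDual (φ : Ideal (𝓞 F) → Mt n (ZMod p)) (ξ : Matrix (Fin n) (Fin n) (𝓞 F)) :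
    Dt.pair φ ξ = prL_PvDual φ (∑ i, ∑ j, Finsupp.single (Ideal.span {ξ i j})
      (Matrix.single i j (1 : ZMod p) : Mt n (ZMod p))) := by
  simp only [Dt.pair, map_sum, prL_single_PvDual, Matrix.trace_mul_single, op_smul_eq_mul,
    mul_one]

end good

theorem dualO_stmt (p : ℕ) [Fact p.Prime] : DualOStmt p := by
  intro K F _ n D ζ hz hN hF s hs
  obtain ⟨q, hq⟩ := abs_PvDual (lam_PvDual (D := D) hz hN hF) s fun ℓ hℓ hi => by
    choose φ hφ using fun a => prL_surj_PvDual (ℓ a)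
    refine hs φ (fun a => ⟨closed_PvDual fun w hw => ?_, fun ξ κ hg => ?_⟩) ?_
    · rw [hφ]
      exact hℓ a w ⟨_, _, good_one_PvDual hF, fun ψ hψ => by rw [pair_one_PvDual hψ, hw ψ hψ]⟩
    · rw [pair_eq_PvDual, hφ]
      exact hℓ a _ ⟨ξ, κ, hg, fun ψ _ => pair_eq_PvDual ψ ξ⟩
    · refine LinearIndependent.of_comp prL_PvDual ?_
      have : ⇑prL_PvDual ∘ φ = ℓ := funext hφ
      rwa [this]
  refine ⟨fun b φ => prL_PvDual φ (q b), fun I H => ?_⟩
  obtain ⟨a, ξ, κ, hg, e⟩ := hq (Finsupp.single I H)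
  refine ⟨ξ, κ, a, hg, fun φ hφ => ?_⟩
  rw [e φ hφ, map_sub, map_sum, prL_single_PvDual]
  simp only [map_smul, smul_eq_mul]

end Pool.Agent.MP_f68ac8_nt.Pv
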