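import Mathlib
import Pool.Agent.MP_f68ac8_nt.PvAux
import Pool.Agent.MP_f68ac8_nt.FvMain

/-! Assembly of the finiteness theorem for lifts with projectively finite inertia. -/

namespace Pool.Agent.MP_f68ac8_nt.Pv

open Ev

open NumberField Matrix Finset
open scoped Topology Pointwise

lemma exists_kill {k ι κ : Type} [Field k] [Fintype κ] (S : Finset ι)
    (h : Fintype.card κ < S.card) (v : κ → ι → k) :
    ∃ μ : ι → k, (∃ a ∈ S, μ a ≠ 0) ∧ ∀ b, ∑ a ∈ S, μ a * v b a = 0 := by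
  classical
  obtain ⟨m, h1, h2⟩ := (Submodule.ne_bot_iff _).mp (LinearMap.ker_ne_bot_of_finrank_lt
    (f := Matrix.mulVecLin (Matrix.of fun (b : κ) (a : S) => v b a)) (by simpa using h))
  refine ⟨fun a => if h : a ∈ S then m ⟨a, h⟩ else 0, ?_, fun b => ?_⟩
  · obtain ⟨a, ha⟩ := Function.ne_iff.mp h2
    exact ⟨a, a.2, by simpa using ha⟩
  · rw [← Finset.sum_coe_sort S]
    refine Eq.trans ?_ (congrFun h1 b)
    simp [mulVec, dotProduct, mul_comm]

variable {p : ℕ} [hp : Fact p.Prime] {K : IntermediateField ℚ Qb} {n : ℕ}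

variable (p n) in
/-- the fixed data of the argument -/
structure Sys (F : IntermediateField ℚ Qb) where
  s : ℕ
  ξ : Fin (s + 2) ⊕ Ideal (𝓞 F) × Mt n (ZMod p) → Matrix (Fin n) (Fin n) (𝓞 F)
  κ : Fin (s + 2) ⊕ Ideal (𝓞 F) × Mt n (ZMod p) → GQ → Mt n (ZMod p)
  α : Ideal (𝓞 F) × Mt n (ZMod p) → Fin s → ZMod p
  y : Fin s → (Ideal (𝓞 F) → Mt n (ZMod p)) → ZMod p
  R : ℕ → Prop
  X : ℕ → Mt n (ZMod p)
  H : ℕ → Mt n (ZMod p)
  Y : ℕ → Mt n (ZMod p)

variable {F : IntermediateField ℚ Qb} [NumberField F] [IsGalois ℚ F]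

namespace Sys

variable (S : Sys p n F) (D : Dt p K n)

/-- the properties of the fixed data -/
structure Ok (t : ℕ → K.fixingSubgroup) : Prop where
  good : ∀ a, D.Good F (xi p) (S.ξ a) (S.κ a)
  left : ∀ a φ, D.Eqv F φ → Dt.pair φ (S.ξ (.inl a)) = 0
  right : ∀ x φ, D.Eqv F φ →
    Dt.pair φ (S.ξ (.inr x)) = (φ x.1 * x.2).trace - ∑ b, S.α x b * S.y b φ
  ind : LinearIndependent (ZMod p) fun a (g : F.fixingSubgroup) => D.cores F (S.κ (.inl a)) g
  ram : ∀ j, S.R j → D.Ram F (t j) ∧ RamData D F (t j) (S.X j) (S.H j) (S.Y j)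
  non : ∀ j, ¬ S.R j → ∀ Z, D.ad (t j) Z = cb p (t j) • Z → Z = 0

/-- the index of a chosen prime -/
noncomputable def ix (c : ℕ → Co) (i : ℕ) : Ideal (𝓞 F) × Mt n (ZMod p) :=
  ((c i).P.under (𝓞 F), S.H i)

/-- the characters -/
noncomputable def th (c : ℕ → Co) (T : Finset ℕ) (μ : Fin (S.s + 2) ⊕ ℕ → ZMod p) (g : GQ) :
    Mt n (ZMod p) :=
  ∑ a ∈ univ.disjSum T, μ a • D.cores F (S.κ (a.map id (S.ix c))) g

/-- the linear conditions on the coefficients -/
structure Kill (c : ℕ → Co) (T : Finset ℕ) (μ : Fin (S.s + 2) ⊕ ℕ → ZMod p) : Prop where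
  col : ∀ j ∈ T, (S.th D c T μ ((c j).σ ^ (c j).m F) * S.X j).trace = 0
  lev : ∑ i ∈ T, μ (.inr i) * psi p ((c i).σ ^ (c i).m F) = 0
  cls : ∀ b, ∑ i ∈ T, μ (.inr i) * S.α (S.ix c i) b = 0

/-- valid configurations -/
structure Valid (t : ℕ → K.fixingSubgroup) (c : ℕ → Co) (i : ℕ) : Prop where
  pr : ∀ j < i, (c j).l.Prime ∧ (c j).P.IsMaximal ∧ ((c j).l : OQ) ∈ (c j).P
  ok : ∀ j < i, S.R j → (c j).Ok D F
  ty : ∀ j < i, S.R j → Ty p F (t j) (c j).σ
  auto : ∀ j < i, ¬ S.R j → Auto D F (c j).P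
  inj : ∀ j < i, ∀ j' < i, (c j).l = (c j').l → j = j'
  cc : ∀ j < i, S.R j → psi p ((c j).σ ^ (c j).m F) ≠ 0
  safe : ∀ j < i, S.R j → ∀ T : Finset ℕ, (∀ x ∈ T, x < j ∧ S.R x) → ∃ μ, S.Kill D c T μ ∧
    (S.th D c T μ ((c j).σ ^ (c j).m F) * S.X j).trace ≠ 0

variable {S D}

omit [NumberField F] [IsGalois ℚ F] in
lemma th_congr {c c' : ℕ → Co} {T : Finset ℕ} (h : ∀ j ∈ T, c' j = c j) (μ) :
    S.th D c' T μ = S.th D c T μ := by
  ext1 g
  simp only [th, sum_disjSum, Sum.map_inl, Sum.map_inr, ix]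
  congr 1
  exact sum_congr rfl fun j hj => by rw [h j hj]

omit [NumberField F] in
lemma Kill.congr {c c' : ℕ → Co} {T : Finset ℕ} (h : ∀ j ∈ T, c' j = c j) {μ}
    (hk : S.Kill D c T μ) : S.Kill D c' T μ := by
  refine ⟨fun j hj => ?_, ?_, fun b => ?_⟩
  · rw [th_congr h, h j hj]
    exact hk.col j hj
  · rw [← hk.lev]
    exact sum_congr rfl fun j hj => by rw [h j hj]
  · rw [← hk.cls b]
    exact sum_congr rfl fun j hj => by rw [ix, ix, h j hj]

end Sys

omit [NumberField F] [IsGalois ℚ F] in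
lemma RamData.ty {D : Dt p K n} {t σ : GQ} {X H Y : Mt n (ZMod p)} (h : RamData D F t X H Y)
    (e : HH p F = F.fixingSubgroup) (hty : Ty p F t σ) : RamData D F σ X H Y := by
  rw [Ty, e] at hty
  refine ⟨h.ne, h.trX, h.trH, h.trY, h.pair, fun g hg => h.fix g (hty ▸ hg), fun s hs =>
    h.eig s ?_⟩
  have : Subgroup.zpowers σ ⊔ F.fixingSubgroup ≤ Subgroup.zpowers s.1 ⊔ F.fixingSubgroup :=
    sup_le (Subgroup.zpowers_le.mpr hs) le_sup_right
  exact this (hty ▸ Subgroup.mem_sup_left (Subgroup.mem_zpowers t))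

variable [NumberField K] {D : Dt p K n} {S : Sys p n F} {t : ℕ → K.fixingSubgroup}

theorem lift_of_valid (hC : CoresStmt p) (hR : RedStmt p) (hA : ArtStmt p) (hS : SumOStmt p)
    (hKF : K ≤ F) (hD : D.Base F) (hc : D.Cls F) (hO : S.Ok D t) {c : ℕ → Co} {d : ℕ}
    (h : S.Valid D t c d) : FinLift F D.r ((fun j => (c j).P.under (𝓞 K)) '' Set.Iio d) := by
  classical
  by_contra hn
  have e := (hC K F hKF n D hD).1.2.1
  let J := {j : Fin d // S.R j}
  let ι : J ↪ ℕ := (Function.Embedding.subtype _).trans Fin.valEmbedding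
  have ok : ∀ j : J, (c (ι j)).Ok D F := fun j => h.ok _ j.1.2 j.2
  have inj : Function.Injective fun j : J => (c (ι j)).l := fun j j' e =>
    ι.injective (h.inj _ j.1.2 _ j'.1.2 e)
  obtain ⟨f, x, z, T, u, f1, f2, f3, f4, f5, f6⟩ := hR K F hKF n D hD hc J (fun j => c (ι j))
    (fun j => S.X (ι j)) (fun j => S.H (ι j)) (fun j => S.Y (ι j)) ok
    (fun j => (hO.ram _ j.2).2.ty e (h.ty _ j.1.2 j.2)) (fun j => h.cc _ j.1.2 j.2) _ (by
      rintro P hP ⟨j, hj, e⟩
      obtain ⟨s, hs, rfl⟩ := trans_rel_EvRec K (h.pr j hj).2.1 hP e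
      by_cases hr : S.R j
      · exact .inl ⟨⟨⟨j, hj⟩, hr⟩, s, hs, rfl⟩
      · exact .inr fun f hf u hu g hg => h.auto j hj hr f hf _ (mul_mem hu hs) g
          (by rwa [mul_smul])) hn
  obtain ⟨φ, hφ⟩ := hA K F hKF n D hD _ _ ok inj f f1
  obtain ⟨μ, m1, m2⟩ := h.safe (ι z) z.1.2 z.2 (T.map ι) fun j hj => by
    obtain ⟨i, hi, rfl⟩ := mem_map.mp hj
    exact ⟨f4 i hi, i.2⟩
  have key := fun a => hS K F hKF n D hD _ _ ok inj f f1 φ hφ _ _
    (hO.good (Sum.map id (S.ix c) a))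
  have e1 : ∑ a ∈ univ.disjSum (T.map ι),
      μ a * Dt.pair φ (S.ξ (Sum.map id (S.ix c) a)) = 0 := by
    have e2 : ∀ i ∈ T.map ι, Dt.pair φ (S.ξ (.inr (S.ix c i))) =
        u * psi p ((c i).σ ^ (c i).m F) - ∑ b, S.α (S.ix c i) b * S.y b φ := fun i hi => by
      obtain ⟨j, hj, rfl⟩ := mem_map.mp hi
      have := hφ.aux j 1 (one_mem _)
      rw [one_smul, one_mul, inv_one, mul_one] at this
      rw [hO.right _ _ hφ.eqv, trace_mul_comm]
      exact congrArg (· - _) ((congrArg (fun Z => (S.H (ι j) * Z).trace) this).trans (f6 j hj))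
    simp only [sum_disjSum, Sum.map_inl, Sum.map_inr, id, hO.left _ _ hφ.eqv, mul_zero,
      sum_const_zero, zero_add]
    rw [sum_congr rfl fun i hi => by rw [e2 i hi, mul_sub, mul_left_comm, mul_sum], sum_sub_distrib,
      ← mul_sum, m1.lev, sum_comm]
    simp only [← mul_assoc, ← sum_mul, m1.cls, zero_mul, mul_zero, sum_const_zero, sub_zero]
  simp only [← key, mul_sum, f2] at e1
  rw [sum_comm, sum_eq_single z (fun j _ hj => ?_) (by simp)] at e1
  · refine mul_ne_zero (mul_ne_zero (inv_ne_zero (mt (ZMod.natCast_eq_zero_iff _ _).1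
      (ok z).ord)) f3) m2 (Eq.trans ?_ e1)
    simp only [Sys.th, sum_mul, trace_sum, mul_sum, smul_mul_assoc, mul_smul_comm, trace_smul,
      smul_eq_mul]
    exact sum_congr rfl fun a _ => by ring
  · by_cases hT : j ∈ T
    · have := congrArg (((c (ι j)).m F : ZMod p)⁻¹ * x j * ·) (m1.col (ι j) (mem_map_of_mem _ hT))
      simp only [Sys.th, sum_mul, trace_sum, mul_sum, smul_mul_assoc, trace_smul, smul_eq_mul,
        mul_zero] at this
      rw [← this]
      exact sum_congr rfl fun a _ => by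
        rw [mul_smul_comm, trace_smul, smul_eq_mul]
        ring
    · simp [f5 j hj hT]

theorem exists_mu (hC : CoresStmt p) (hCo : CoStmt p) (hOr : OrdOStmt p) (hKF : K ≤ F)
    (hD : D.Base F) (hO : S.Ok D t) {c : ℕ → Co} {i : ℕ} (h : S.Valid D t c i) {T : Finset ℕ}
    (hT : ∀ x ∈ T, x < i ∧ S.R x) :
    ∃ μ, S.Kill D c T μ ∧ ∃ g ∈ F.fixingSubgroup, S.th D c T μ g ≠ 0 := by
  have e := (hC K F hKF n D hD).1.2.1
  obtain ⟨μ, ⟨a, ha, m0⟩, m1⟩ := exists_kill (κ := T ⊕ Option (Fin S.s))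
    ((univ : Finset (Fin (S.s + 2))).disjSum T) (by simp; omega)
    (Sum.elim (fun j a => (D.cores F (S.κ (a.map id (S.ix c))) ((c j).σ ^ (c j).m F) *
      S.X j).trace) fun b => Sum.elim 0 fun i => b.elim (psi p ((c i).σ ^ (c i).m F))
        (S.α (S.ix c i)))
  have hk : S.Kill D c T μ := ⟨fun j hj => by
    simpa only [Sys.th, sum_mul, trace_sum, smul_mul_assoc, trace_smul, smul_eq_mul,
      Sum.elim_inl] using m1 (.inl ⟨j, hj⟩),
    by simpa [sum_disjSum] using m1 (.inr none),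
    fun b => by simpa [sum_disjSum] using m1 (.inr (some b))⟩
  refine ⟨μ, hk, ?_⟩
  by_contra hz
  push Not at hz
  have lt : ∀ j ∈ T, j < i := fun j hj => (hT j hj).1
  have z1 : ∀ j ∈ T, μ (.inr j) = 0 := fun j hj => by
    have h0 := h.ok j (lt j hj) (hT j hj).2
    have r := (hO.ram j (hT j hj).2).2.ty e (h.ty j (lt j hj) (hT j hj).2)
    obtain ⟨φ, f1, f2, f3, f4⟩ := hOr K F hKF n D hD _ h0 _ r.trY fun g hg =>
      (r.fix g (hg ▸ Subgroup.mem_sup_left (Subgroup.mem_zpowers _))).2.2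
    have e1 := congrArg (fun Z => (Z * S.Y j).trace)
      (hz _ (((hCo K F hKF n D hD).2 _ h0).1 h0.inert))
    simp only [Sys.th, sum_mul, trace_sum, smul_mul_assoc, trace_smul, smul_eq_mul,
      f4 _ _ (hO.good _), zero_mul, trace_zero, mul_left_comm (μ _), ← mul_sum] at e1
    replace e1 := (mul_eq_zero.mp e1).resolve_left (mt (ZMod.natCast_eq_zero_iff _ _).1 h0.ord)
    simp only [sum_disjSum, Sum.map_inl, Sum.map_inr, id, hO.left _ _ f1, hO.right _ _ f1,
      mul_zero, sum_const_zero, zero_add, mul_sub, sum_sub_distrib, mul_sum,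
      ← mul_assoc (μ _)] at e1
    rw [sum_comm (s := T)] at e1
    simp only [← sum_mul, hk.cls, zero_mul, sum_const_zero, sub_zero] at e1
    rw [sum_eq_single_of_mem j hj fun j' hj' hne => ?_] at e1
    · refine (mul_eq_zero.mp e1).resolve_right ?_
      rw [Sys.ix, f2]
      exact r.pair
    · have h1 := h.ok j' (lt j' hj') (hT j' hj').2
      have := h1.max
      rw [Sys.ix, f3 _ h1.max (not_mem_of_coprime h1.mem ((Nat.coprime_primes h1.prime h0.prime).2
        fun e => hne (h.inj _ (lt _ hj') _ (lt _ hj) e))), zero_mul, trace_zero, mul_zero]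
  rcases a with a | a
  · refine m0 (Fintype.linearIndependent_iff.mp hO.ind (fun a => μ (.inl a)) ?_ a)
    ext1 g
    have := hz g g.2
    rw [Sys.th, sum_disjSum, sum_eq_zero (s := T) fun j hj => by rw [z1 j hj, zero_smul],
      add_zero] at this
    simpa using this
  · exact m0 (z1 a (by simpa using ha))

lemma valid_ext {c : ℕ → Co} {i : ℕ} (h1 : S.Valid D t c i) (x : Co)
    (a1 : x.l.Prime ∧ x.P.IsMaximal ∧ (x.l : OQ) ∈ x.P) (e3 : ∀ j < i, (c j).l ≠ x.l)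
    (a3 : S.R i → x.Ok D F ∧ Ty p F (t i) x.σ ∧ psi p (x.σ ^ x.m F) ≠ 0 ∧
      ∀ T : Finset ℕ, (∀ y ∈ T, y < i ∧ S.R y) → ∃ μ, S.Kill D c T μ ∧
        (S.th D c T μ (x.σ ^ x.m F) * S.X i).trace ≠ 0) (a4 : ¬ S.R i → Auto D F x.P) :
    S.Valid D t (Function.update c i x) (i + 1) ∧
      (fun j => (Function.update c i x j).P.under (𝓞 K)) '' Set.Iio (i + 1) =
        insert (x.P.under (𝓞 K)) ((fun j => (c j).P.under (𝓞 K)) '' Set.Iio i) := by
  set c' := Function.update c i x with hc'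
  have e1 : ∀ j < i, c' j = c j := fun j hj => Function.update_of_ne hj.ne _ _
  have e2 : c' i = x := Function.update_self _ _ _
  have e5 : ∀ (A : ℕ → Co → Prop), (∀ j < i, A j (c j)) → A i x →
      ∀ j < i + 1, A j (c' j) := fun A a1 a2 j hj => by
    rcases Nat.lt_succ_iff_lt_or_eq.mp hj with h | rfl
    · rw [e1 j h]
      exact a1 j h
    · rwa [e2]
  refine ⟨⟨e5 (fun _ x => x.l.Prime ∧ x.P.IsMaximal ∧ (x.l : OQ) ∈ x.P) h1.pr a1,
    e5 (fun j x => S.R j → x.Ok D F) h1.ok fun h => (a3 h).1,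
    e5 (fun j x => S.R j → Ty p F (t j) x.σ) h1.ty fun h => (a3 h).2.1,
    e5 (fun j x => ¬ S.R j → Auto D F x.P) h1.auto a4, fun j hj j' hj' e => ?_,
    e5 (fun j x => S.R j → psi p (x.σ ^ x.m F) ≠ 0) h1.cc fun h => (a3 h).2.2.1,
    fun j hj hr T hT => ?_⟩, ?_⟩
  · rcases Nat.lt_succ_iff_lt_or_eq.mp hj with h | rfl <;>
      rcases Nat.lt_succ_iff_lt_or_eq.mp hj' with h' | rfl
    · rw [e1 j h, e1 j' h'] at e
      exact h1.inj j h j' h' e
    · rw [e1 j h, e2] at e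
      exact absurd e (e3 j h)
    · rw [e1 j' h', e2] at e
      exact absurd e.symm (e3 j' h')
    · rfl
  · have e6 : ∀ x ∈ T, c' x = c x := fun x hx => e1 x (by have := (hT x hx).1; omega)
    simp only [Sys.th_congr e6]
    rcases Nat.lt_succ_iff_lt_or_eq.mp hj with h | rfl
    · obtain ⟨ν, a1, a2⟩ := h1.safe j h hr T hT
      exact ⟨ν, a1.congr e6, by rwa [e1 j h]⟩
    · obtain ⟨ν, a1, a2⟩ := (a3 hr).2.2.2 T hT
      exact ⟨ν, a1.congr e6, by rwa [e2]⟩
  · rw [show Set.Iio (i + 1) = insert i (Set.Iio i) by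
      ext; simp [Nat.lt_succ_iff_lt_or_eq, or_comm], Set.image_insert_eq, e2,
      Set.image_congr fun j hj => by rw [e1 j hj]]

theorem dens_indO (hC : CoresStmt p) (hCo : CoStmt p) (hOr : OrdOStmt p) (hS : StepOStmt p)
    (hS0 : Step0Stmt p) (hTy : TypStmt p) (hN : NzStmt p) (hm : IdMeanStmt) (hKF : K ≤ F)
    (hD : D.Base F) {d : ℕ} (hO : S.Ok D fun j => t (d - 1 - j))
    (B : Set (Ideal (𝓞 K)) → Prop) (hB : ∀ c, S.Valid D (fun j => t (d - 1 - j)) c d →
      B ((fun j => (c j).P.under (𝓞 K)) '' Set.Iio d)) (l : ℕ) :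
    ∀ i c, i + l = d → S.Valid D (fun j => t (d - 1 - j)) c i →
      1 - (2 ^ d - 2 ^ i + l) / (p : ℝ) ≤ idDens (fun j => Typ p K F (t j)) l
        fun A => B (A ∪ (fun j => (c j).P.under (𝓞 K)) '' Set.Iio i) := by
  classical
  induction l with
  | zero =>
    rintro i c rfl h1
    simp [idDens, show B ((fun j => (c j).P.under (𝓞 K)) '' Set.Iio i) from hB c h1]
  | succ l ih =>
    intro i c hi h1
    have hl : d - 1 - i = l := by omega
    have p0 : (0 : ℝ) < p := Nat.cast_pos.mpr hp.out.pos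
    have ha : 1 - (2 ^ d - 2 ^ (i + 1) + l) / (p : ℝ) ≤ 1 := by
      have : (2 : ℝ) ^ (i + 1) ≤ 2 ^ d := pow_le_pow_right₀ one_le_two (by omega)
      rw [sub_le_self_iff]
      exact div_nonneg (add_nonneg (sub_nonneg.mpr this) (Nat.cast_nonneg _)) p0.le
    let E := (range i).image (fun j => (c j).l) ∪ (D.N.divisors ∪ (discr F).natAbs.divisors)
    have hE : ∀ q ∉ E, (∀ j < i, (c j).l ≠ q) ∧ ¬ q ∣ D.N ∧ ¬ (q : ℤ) ∣ discr F := fun q hq => by
      rw [mem_union, mem_union, not_or, not_or] at hq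
      exact ⟨fun j hj e => hq.1 (mem_image.mpr ⟨j, mem_range.mpr hj, e⟩),
        fun hd => hq.2.1 (Nat.mem_divisors.2 ⟨hd, hD.odd.2.2.2⟩), fun hd => hq.2.2
          (Nat.mem_divisors.2 ⟨Int.natCast_dvd.1 hd, Int.natAbs_ne_zero.2 (discr_ne_zero F)⟩)⟩
    by_cases hr : S.R i
    swap
    · refine le_trans ?_ (hS0 K F hKF _ (t l).2 _ ha _
        (fun _ => ((hm K).1 _ _ _).1) (fun _ => ((hm K).1 _ _ _).2) E
        fun q hq q1 P q2 q3 σ q4 q5 => ?_)
      · refine sub_le_sub_left (div_le_div_of_nonneg_right ?_ p0.le) _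
        have : (0 : ℝ) < 2 ^ i := by positivity
        push_cast
        rw [pow_succ]
        linarith
      obtain ⟨n0, n1, n2⟩ := hE q hq
      obtain ⟨v1, v2⟩ := valid_ext h1 ⟨q, P, σ, 1⟩ ⟨q1, q2, q3⟩ n0 (fun h => absurd h hr)
        fun _ => (hTy K F hKF).2 n D hD (t l) (hl ▸ hO.non i hr) q P σ q1 n1 n2 q2 q3 q4 q5
      simpa [v2, Set.insert_union, Set.union_insert] using ih (i + 1) _ (by omega) v1
    obtain ⟨⟨-, e, -, c4, c5⟩, c6⟩ := hC K F hKF n D hD
    obtain ⟨⟨⟨m, m1, m2⟩, -⟩, r⟩ := hO.ram i hr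
    let W := ((range i).filter S.R).powerset
    have hW : ∀ T, T ∈ W ↔ ∀ x ∈ T, x < i ∧ S.R x := fun T => by
      simp only [W, mem_powerset, subset_iff, mem_filter, mem_range]
    choose μ k1 k2 using fun T : W => exists_mu hC hCo hOr hKF hD hO h1 ((hW _).1 T.2)
    simp only [hl] at r m2
    have rt := r.fix (t l) (Subgroup.mem_sup_left (Subgroup.mem_zpowers _))
    have ad1 : ∀ A B : Mt n (ZMod p), (D.ad (t l) A * D.ad (t l) B).trace = (A * B).trace :=
      fun A B => by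
        simp only [Dt.ad, mul_assoc, Units.inv_mul_cancel_left]
        rw [trace_mul_comm, mul_assoc, mul_assoc, Units.inv_mul, mul_one]
    have cj : ∀ (T : W) g, g ∈ F.fixingSubgroup → ∀ u : K.fixingSubgroup,
        S.th D c T (μ T) (u * g * (u : GQ)⁻¹) = cb p u • D.ad u (S.th D c T (μ T) g) :=
      fun T g hg u => by
        simp only [Sys.th, (c6 _ _ (hO.good _)).2.2.2.2.2.2 u g hg, Dt.ad, mul_sum, sum_mul,
          smul_sum, mul_smul_comm, smul_mul_assoc, smul_comm (cb p u)]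
    let θ : Option W → GQ → ZMod p := fun T g =>
      T.elim (psi p g) fun T => (S.th D c T (μ T) g * S.X i).trace
    have add : ∀ T, ∀ g ∈ F.fixingSubgroup, ∀ h ∈ F.fixingSubgroup, θ T (g * h) = θ T g + θ T h := by
      rintro (_ | T) g hg h hh
      · simp only [θ, Option.elim, psi_add g h]
      · simp only [θ, Option.elim, Sys.th, (c6 _ _ (hO.good _)).2.2.2.1 g hg h hh, smul_add,
          sum_add_distrib, add_mul, trace_add]
    refine le_trans ?_ (hS K F hKF e _ (t l).2 m m1 m2 _ θ add ?_ ?_ ?_ _ ha _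
      (fun _ => ((hm K).1 _ _ _).1) (fun _ => ((hm K).1 _ _ _).2) E
      fun q hq q1 P q2 q3 σ q4 q5 q6 => ?_)
    · have h2 : (2 : ℝ) ^ ((range i).filter S.R).card ≤ 2 ^ i :=
        pow_le_pow_right₀ one_le_two ((card_filter_le _ _).trans (card_range i).le)
      simp only [Fintype.card_option, Fintype.card_coe, W, card_powerset]
      rw [sub_sub, ← add_div]
      refine sub_le_sub_left (div_le_div_of_nonneg_right ?_ p0.le) _
      push_cast
      rw [pow_succ]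
      linarith
    · rintro (_ | T)
      · filter_upwards [psi_nhds (p := p)] with g h2 _
        exact h2
      · filter_upwards [(Filter.eventually_all_finset (univ.disjSum T.1)).2 fun a _ =>
          (c6 _ _ (hO.good (a.map id (S.ix c)))).2.2.2.2.1] with g h1 hg
        simp only [θ, Option.elim, Sys.th]
        rw [sum_eq_zero fun a ha => by rw [h1 a ha hg, smul_zero], zero_mul, trace_zero]
    · rintro (_ | T) g hg
      · simp only [θ, Option.elim]
        rw [psi, psi, map_mul, map_mul, map_inv, mul_inv_cancel_comm]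
      · simp only [θ, Option.elim, cj T g hg]
        rw [← ad1 (S.th D c T (μ T) g) (S.X i), rt.1, smul_mul_assoc, mul_smul_comm]
    · rintro (_ | T)
      · exact (hN K F hKF n D hD).2
      · exact (hN K F hKF n D hD).1 _ (fun g hg => by
          simp only [Sys.th, trace_sum, trace_smul, (c6 _ _ (hO.good _)).2.2.2.2.2.1 g hg,
            smul_zero, sum_const_zero]) (fun u g hg => cj T g hg u) (k2 T) _ r.ne r.trX
    obtain ⟨n0, n1, n2⟩ := hE q hq
    have hσ : σ ∈ Subgroup.zpowers (t l).1 ⊔ HH p F :=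
      q5 ▸ Subgroup.mem_sup_left (Subgroup.mem_zpowers _)
    obtain ⟨τ, t1, t2⟩ := (hCo K F hKF n D hD).1 q P q1 n1 n2 q2 q3
    have dv : orderOf (res F σ) ∣ m := by
      obtain ⟨a, ha⟩ : res F σ ∈ Subgroup.zpowers (res F (t l).1) :=
        q5.res_eq ▸ Subgroup.mem_zpowers _
      rw [orderOf_dvd_iff_pow_eq_one, ← ha, ← zpow_natCast, zpow_comm, zpow_natCast, ← map_pow,
        (res_eq_one F).mpr fun x hx => m2 ⟨x, hx⟩, _root_.one_zpow]
    have hok : Co.Ok ⟨q, P, σ, τ⟩ D F := ⟨q1, n1, n2, q2, q3, q4,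
      sup_le (Subgroup.zpowers_le.mpr (t l).2)
        (inf_le_left.trans (IntermediateField.fixingSubgroup_le hKF)) hσ, t1, t2,
      fun h => m1 (h.trans dv)⟩
    have q7 : ∀ T, θ T (σ ^ orderOf (res F σ)) ≠ 0 := fun T h => q6 T (by
      obtain ⟨k, hk⟩ := dv
      have h0 : σ ^ orderOf (res F σ) ∈ F.fixingSubgroup := ((hCo K F hKF n D hD).2 _ hok).2.2.1
      rw [hk, pow_mul]
      generalize σ ^ orderOf (res F σ) = g at h h0
      clear hk
      induction k with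
      | zero => simpa using add T 1 (one_mem _) 1 (one_mem _)
      | succ k ih => rw [pow_succ, add T _ (pow_mem h0 k) _ h0, h, add_zero, ih])
    obtain ⟨v1, v2⟩ := valid_ext h1 ⟨q, P, σ, τ⟩ ⟨q1, q2, q3⟩ n0 (fun _ => ⟨hok,
      by simpa only [hl] using q5, q7 none, fun T hT =>
        ⟨_, k1 ⟨T, (hW T).2 hT⟩, q7 (some ⟨T, (hW T).2 hT⟩)⟩⟩) fun h => absurd hr h
    simpa [v2, Set.insert_union, Set.union_insert] using ih (i + 1) _ (by omega) v1

theorem main7_of (hC : CoresStmt p) (hCo : CoStmt p) (hOr : OrdOStmt p) (hS : StepOStmt p)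
    (hS0 : Step0Stmt p) (hTy : TypStmt p) (hN : NzStmt p) (hm : IdMeanStmt) (hR : RedStmt p)
    (hA : ArtStmt p) (hSu : SumOStmt p) (hDu : DualOStmt p) (hRa : RamAlgStmt p)
    (hTw : TwoStmt p) (hCl : Cl0Stmt p) (hKF : K ≤ F)
    {r : K.fixingSubgroup →* GL (Fin 2) (ZMod p)} (hr : Resid F r) {t : ℕ → K.fixingSubgroup}
    (ht : ∀ j, cb p (t j) ^ 2 ≠ 1) (d : ℕ) :
    1 - (2 ^ d + d - 1) / p ≤
      idDens (fun j => Typ p K F (t j)) d fun S => S.ncard = d ∧ FinLift F r S := by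
  classical
  let D : Dt p K 2 := ⟨r, p⟩
  have hD : D.Base F := ⟨⟨by have := hr.big; omega, fun h => by
    have := Nat.le_of_dvd two_pos h
    have := hr.big
    omega, dvd_rfl, hp.out.ne_zero⟩, hr.mu, hr.scal, hr.irr⟩
  have hc := hCl K F hKF r hr hD
  obtain ⟨κ, s2, s3⟩ := hTw K F hKF r hr hD
  choose ξ s4 s5 using s2
  obtain ⟨y, hy⟩ := hDu K F 2 D _ xi_spec dvd_rfl hD.mu.1 0 fun φ hφ hi =>
    hi.ne_zero 0 (hc _ (hφ 0).1 (hφ 0).2)
  choose ξ' κ' α y1 y2 using hy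
  have hx : ∀ j, ∃ X H Y, D.Ram F (t (d - 1 - j)) → RamData D F (t (d - 1 - j)) X H Y :=
    fun j => by
      by_cases h : D.Ram F (t (d - 1 - j))
      · obtain ⟨X, H, Y, h1⟩ := hRa K F hKF 2 D hD _ h
        exact ⟨X, H, Y, fun _ => h1⟩
      · exact ⟨0, 0, 0, fun h' => absurd h' h⟩
  choose X H Y hr' using hx
  have hO : Sys.Ok ⟨0, Sum.elim ξ fun x => ξ' x.1 x.2, Sum.elim κ fun x => κ' x.1 x.2,
      fun x => α x.1 x.2, y, fun j => D.Ram F (t (d - 1 - j)), X, H, Y⟩ D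
      fun j => t (d - 1 - j) :=
    ⟨fun a => by
      rcases a with a | a
      exacts [s4 a, y1 _ _], s5, fun x => y2 _ _, s3, fun j h => ⟨h, hr' j h⟩,
      fun j h => ((hTy K F hKF).1 r hr _ (ht _)).resolve_left h⟩
  have := dens_indO hC hCo hOr hS hS0 hTy hN hm hKF hD hO (fun S => S.ncard = d ∧ FinLift F r S)
    (fun c c1 => ⟨?_, lift_of_valid hC hR hA hSu hKF hD hc hO c1⟩) d 0
    (fun _ => ⟨0, ⊥, 1, 1⟩) (zero_add d)
    ⟨by simp, by simp, by simp, by simp, by simp, by simp, by simp⟩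
  · simp only [Set.Iio_zero_eq_empty, Set.image_empty, Set.union_empty, pow_zero] at this
    refine le_trans (le_of_eq ?_) this
    ring
  · rw [Set.InjOn.ncard_image (s := Set.Iio d) fun j hj j' hj' e => c1.inj j hj j' hj' ?_,
      Set.ncard_Iio_nat]
    have h0 := c1.pr j hj
    have h1 := c1.pr j' hj'
    by_contra hne
    haveI := h0.2.1
    refine not_mem_of_coprime h0.2.2 ((Nat.coprime_primes h0.1 h1.1).2 hne) ?_
    rw [← nat_under_EvRec K, show (c j).P.under (𝓞 K) = _ from e, nat_under_EvRec K]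
    exact h1.2.2

end Pool.Agent.MP_f68ac8_nt.Pv
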