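import Mathlib
import Pool.Agent.MP_f68ac8_nt.PvAux
import Pool.Agent.MP_f68ac8_nt.GvMain
import Pool.Agent.MP_f68ac8_nt.GvKW

/-! Nonvanishing of the characters. -/

namespace Pool.Agent.MP_f68ac8_nt.Pv

open Ev

open NumberField Matrix
open scoped Topology Pointwise

lemma orth_PvNz {k : Type} [Field k] {n : ℕ} (hn : (n : k) ≠ 0) {X : Mt n k} (h1 : X.trace = 0)
    (h2 : ∀ Z : Mt n k, Z.trace = 0 → (Z * X).trace = 0) : X = 0 := by
  rw [Matrix.ext_iff_trace_mul_left]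
  intro Z
  have h3 := h2 (Z - (Z.trace / n) • (1 : Mt n k)) (by
    rw [trace_sub, trace_smul, trace_one, Fintype.card_fin, smul_eq_mul, div_mul_cancel₀ _ hn,
      sub_self])
  rw [sub_mul, trace_sub, smul_mul_assoc, one_mul, trace_smul, h1, smul_zero, sub_zero] at h3
  rw [h3, mul_zero, trace_zero]

lemma span_PvNz {p : ℕ} [Fact p.Prime] {K F : IntermediateField ℚ Qb} [IsGalois ℚ F] {n : ℕ}
    {r : K.fixingSubgroup →* GL (Fin n) (ZMod p)} (hr : AdIrr r) (hn : (n : ZMod p) ≠ 0)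
    {Ψ : GQ → Mt n (ZMod p)} (h1 : ∀ g ∈ F.fixingSubgroup, (Ψ g).trace = 0)
    (h2 : ∀ t : K.fixingSubgroup, ∃ a : ZMod p, a ≠ 0 ∧ ∀ g ∈ F.fixingSubgroup,
      Ψ (t * g * (t : GQ)⁻¹) = a • ((r t).val * Ψ g * (r t)⁻¹.val))
    (h3 : ∃ g ∈ F.fixingSubgroup, Ψ g ≠ 0) {X : Mt n (ZMod p)} (h4 : X.trace = 0)
    (h5 : ∀ g ∈ F.fixingSubgroup, (Ψ g * X).trace = 0) : X = 0 := by
  have hst : AdStab r (Submodule.span (ZMod p) (Ψ '' F.fixingSubgroup)) := by
    intro t A hA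
    obtain ⟨a, a0, ha⟩ := h2 t
    induction hA using Submodule.span_induction with
    | mem x hx =>
      obtain ⟨g, hg, rfl⟩ := hx
      have : (r t).val * Ψ g * (r t)⁻¹.val = a⁻¹ • Ψ (t * g * (t : GQ)⁻¹) := by
        rw [ha g hg, smul_smul, inv_mul_cancel₀ a0, one_smul]
      rw [this]
      exact Submodule.smul_mem _ _ (Submodule.subset_span ⟨_, conj_mem_EvRec F _ hg, rfl⟩)
    | zero => simp
    | add x y _ _ hx hy =>
      rw [mul_add, add_mul]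
      exact add_mem hx hy
    | smul c x _ hx =>
      rw [mul_smul_comm, smul_mul_assoc]
      exact Submodule.smul_mem _ _ hx
  have htr : ∀ A ∈ Submodule.span (ZMod p) (Ψ '' F.fixingSubgroup),
      A.trace = 0 ∧ (A * X).trace = 0 := by
    intro A hA
    induction hA using Submodule.span_induction with
    | mem x hx =>
      obtain ⟨g, hg, rfl⟩ := hx
      exact ⟨h1 g hg, h5 g hg⟩
    | zero => simp
    | add x y _ _ hx hy => rw [add_mul, trace_add, trace_add, hx.1, hx.2, hy.1, hy.2]; simp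
    | smul c x _ hx => rw [smul_mul_assoc, trace_smul, trace_smul, hx.1, hx.2]; simp
  rcases hr _ hst (fun A hA => (htr A hA).1) with h | h
  · obtain ⟨g, hg, hne⟩ := h3
    have : Ψ g ∈ Submodule.span (ZMod p) (Ψ '' F.fixingSubgroup) :=
      Submodule.subset_span ⟨g, hg, rfl⟩
    rw [h, Submodule.mem_bot] at this
    exact absurd this hne
  · exact orth_PvNz hn h4 fun Z hZ => (htr Z (h Z hZ)).2

lemma psi_ne_PvNz {p : ℕ} [hp : Fact p.Prime] {F : IntermediateField ℚ Qb} (hM : xi p ∈ F)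
    {x : Qb} (hx : x ^ p ^ 2 = 1) (hF : x ∉ F) : ∃ g ∈ F.fixingSubgroup, psi p g ≠ 0 := by
  by_contra hz
  push Not at hz
  apply hF
  rw [← InfiniteGalois.fixedField_fixingSubgroup F, IntermediateField.mem_fixedField_iff]
  intro u hu
  have hu1 := cyc_fix_EvRec F hM hu
  have h1 := cyc_spec (p ^ 2) u (zeta_spec (Ω := Qb) (p ^ 2)).pow_eq_one
  have h2 := fix_xi (Ω := Qb) hu1
  rw [map_pow, h1, pow_right_comm] at h2
  have h3 : (cyc (p ^ 2) u : ZMod (p ^ 2)).val ≡ 1 [MOD p] := by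
    have h4 := ((xi_spec (Ω := Qb) (p := p)).isOfFinOrder hp.out.ne_zero).pow_eq_pow_iff_modEq.mp
      (h2.trans (pow_one _).symm)
    rwa [← (xi_spec (Ω := Qb) (p := p)).eq_orderOf] at h4
  obtain ⟨c, hc⟩ : ∃ c, (cyc (p ^ 2) u : ZMod (p ^ 2)).val = p * c + 1 :=
    ⟨(cyc (p ^ 2) u : ZMod (p ^ 2)).val / p, by
      have h5 := Nat.div_add_mod (cyc (p ^ 2) u : ZMod (p ^ 2)).val p
      rw [h3, Nat.mod_eq_of_lt hp.out.one_lt] at h5
      exact h5.symm⟩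
  have h6 : psi p u = c := psi_eq (c := c) (by rw [← hc, ZMod.natCast_zmod_val])
  rw [hz u hu, eq_comm, CharP.cast_eq_zero_iff (ZMod p) p] at h6
  obtain ⟨e, rfl⟩ := h6
  rw [cyc_spec (p ^ 2) u hx, hc, ← mul_assoc, ← pow_two, pow_succ, pow_mul, hx, one_pow, one_mul]

theorem nz_stmt (p : ℕ) [Fact p.Prime] (hC : CoresStmt p) : NzStmt p := by
  intro K F _ _ _ hKF n D hD
  have hn : (n : ZMod p) ≠ 0 := fun e => hD.odd.2.1 ((CharP.cast_eq_zero_iff _ p n).mp e)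
  obtain ⟨⟨hM, -⟩, -⟩ := hC K F hKF n D hD
  obtain ⟨x, x1, x2⟩ := hD.mu.2
  refine ⟨fun Ψ h1 h2 h3 X hX h4 => ?_, psi_ne_PvNz hM x1 x2⟩
  by_contra hz
  push Not at hz
  exact hX (span_PvNz hD.irr hn h1 (fun t => ⟨cb p t,
    ((cycChar p t).isUnit.map PadicInt.toZMod).ne_zero, h2 t⟩) h3 h4 hz)

end Pool.Agent.MP_f68ac8_nt.Pv
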