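import Mathlib
import Pool.Agent.MP_f68ac8_nt.PvAux
import Pool.Agent.MP_f68ac8_nt.EvRec

namespace Pool.Agent.MP_f68ac8_nt.Pv

open Ev

open Matrix Finset

section alg
variable {k : Type} [Field k] {n : ℕ}

lemma dual_PvRam {X : Mt n k} (hX : X ≠ 0) : ∃ W : Mt n k, (X * W).trace = 1 := by
  obtain ⟨W, hW⟩ : ∃ W : Mt n k, (X * W).trace ≠ 0 := by
    by_contra! h
    exact hX (Matrix.ext_iff_trace_mul_right.2 fun W => by simp [h W])
  exact ⟨(X * W).trace⁻¹ • W, by rw [Matrix.mul_smul, trace_smul, smul_eq_mul, inv_mul_cancel₀ hW]⟩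

lemma avg_PvRam (T : Module.End k (Mt n k)) (hT : ∀ A B, T (A * B) = T A * T B)
    (htr : ∀ A, (T A).trace = A.trace) {m : ℕ} (hm : (m : k) ≠ 0) (hTm : ∀ A, (T ^ m) A = A)
    {c : k} (hc : c ^ m = 1) {X : Mt n k} (hX : T X = c • X) (W : Mt n k) :
    ∃ W', c • T W' = W' ∧ (X * W').trace = (X * W).trace ∧ (W.trace = 0 → W'.trace = 0) := by
  set S : Module.End k (Mt n k) := c • T with hS
  have h1 : ∀ j, (X * (S ^ j) W).trace = (X * W).trace := by
    intro j
    induction j with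
    | zero => rfl
    | succ j ih =>
      rw [pow_succ', Module.End.mul_apply, hS, LinearMap.smul_apply, Matrix.mul_smul,
        ← Matrix.smul_mul, ← hX, ← hT, htr, ih]
  have h2 : W.trace = 0 → ∀ j, ((S ^ j) W).trace = 0 := by
    intro hW j
    induction j with
    | zero => exact hW
    | succ j ih =>
      rw [pow_succ', Module.End.mul_apply, hS, LinearMap.smul_apply, trace_smul, htr, ih, smul_zero]
  have h3 : (S ^ m) W = W := by
    rw [hS, smul_pow, LinearMap.smul_apply, hTm, hc, one_smul]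
  have h4 : S (∑ j ∈ range m, (S ^ j) W) = ∑ j ∈ range m, (S ^ j) W := by
    have a := sum_range_succ (fun j => (S ^ j) W) m
    rw [sum_range_succ', h3] at a
    rw [map_sum]
    simpa only [pow_succ', Module.End.mul_apply, pow_zero, Module.End.one_apply,
      add_left_inj] using a
  refine ⟨(m : k)⁻¹ • ∑ j ∈ range m, (S ^ j) W, ?_, ?_, fun hW => ?_⟩
  · change S _ = _
    rw [map_smul, h4]
  · rw [Matrix.mul_smul, Matrix.mul_sum, trace_smul, trace_sum]
    simp only [h1, sum_const, card_range, nsmul_eq_mul, smul_eq_mul]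
    rw [inv_mul_cancel_left₀ hm]
  · rw [trace_smul, trace_sum]
    simp [h2 hW]

lemma main_PvRam (T : Module.End k (Mt n k)) (hT : ∀ A B, T (A * B) = T A * T B)
    (htr : ∀ A, (T A).trace = A.trace) {m : ℕ} (hm : (m : k) ≠ 0) (hTm : ∀ A, (T ^ m) A = A)
    {q : k} (hq : q ^ m = 1) (hn : (n : k) ≠ 0) {X : Mt n k} (hX : X ≠ 0) (hN : IsNilpotent X)
    (hE : ∀ Z, T Z = q • Z ↔ ∃ c : k, Z = c • X) :
    ∃ H Y : Mt n k, X.trace = 0 ∧ H.trace = 0 ∧ Y.trace = 0 ∧ (Y * H).trace ≠ 0 ∧ T H = H ∧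
      T Y = Y ∧ ∀ Z, T Z = Z → brk Z X = (H * Z).trace • X := by
  have hTX : T X = q • X := (hE X).2 ⟨1, (one_smul _ _).symm⟩
  obtain ⟨W, hW⟩ := dual_PvRam hX
  obtain ⟨X', h1, h2, -⟩ := avg_PvRam T hT htr hm hTm hq hTX W
  rw [hW] at h2
  have hH : T (brk X X') = brk X X' := by
    rw [brk, map_sub, hT, hT, hTX, Matrix.smul_mul, ← Matrix.mul_smul, Matrix.mul_smul (T X'),
      ← Matrix.smul_mul, h1]
  have hH0 : (brk X X').trace = 0 := by rw [brk, trace_sub, trace_mul_comm, sub_self]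
  have hne : brk X X' ≠ 0 := by
    intro h
    have hc : Commute X X' := sub_eq_zero.1 h
    have := (Matrix.isNilpotent_trace_of_isNilpotent (hc.isNilpotent_mul_right hN)).eq_zero
    rw [h2] at this
    exact one_ne_zero this
  obtain ⟨V, hV⟩ := dual_PvRam hne
  obtain ⟨Y, h3, h4, h5⟩ := avg_PvRam T hT htr hm hTm (one_pow m)
    (hH.trans (one_smul _ _).symm) (V - (V.trace * (n : k)⁻¹) • 1)
  refine ⟨brk X X', Y, (Matrix.isNilpotent_trace_of_isNilpotent hN).eq_zero, hH0, h5 ?_, ?_, hH,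
    (one_smul k _).symm.trans h3, fun Z hZ => ?_⟩
  · rw [trace_sub, trace_smul, trace_one, Fintype.card_fin, smul_eq_mul,
      inv_mul_cancel_right₀ hn, sub_self]
  · rw [trace_mul_comm, h4, Matrix.mul_sub, Matrix.mul_smul, Matrix.mul_one, trace_sub, trace_smul,
      hH0, smul_zero, sub_zero, hV]
    exact one_ne_zero
  · obtain ⟨c, hc⟩ := (hE (brk Z X)).1 (by
      rw [brk, map_sub, hT, hT, hTX, hZ, Matrix.smul_mul, Matrix.mul_smul, smul_sub])
    have : (brk Z X * X').trace = c := by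
      rw [hc, Matrix.smul_mul, trace_smul, h2, smul_eq_mul, mul_one]
    rw [hc, ← this, brk, brk, Matrix.sub_mul, Matrix.sub_mul, trace_sub, trace_sub,
      trace_mul_comm (X * X') Z, trace_mul_comm (X * Z) X', Matrix.mul_assoc, Matrix.mul_assoc]

end alg

variable {p : ℕ} [Fact p.Prime] {K : IntermediateField ℚ Qb} {n : ℕ}

/-- the character as a homomorphism -/
noncomputable def cbH_PvRam (p : ℕ) [Fact p.Prime] (K : IntermediateField ℚ Qb) :
    K.fixingSubgroup →* ZMod p where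
  toFun g := cb p g
  map_one' := by
    change PadicInt.toZMod ((cyclotomicCharacter Qb p 1 : ℤ_[p]ˣ) : ℤ_[p]) = 1
    simp
  map_mul' g h := by
    change PadicInt.toZMod ((cyclotomicCharacter Qb p
      (g.1.toRingEquiv * h.1.toRingEquiv) : ℤ_[p]ˣ) : ℤ_[p]) = _
    rw [map_mul, Units.val_mul, map_mul]
    rfl

/-- the adjoint action as a linear map -/
noncomputable def adL_PvRam (D : Dt p K n) (g : K.fixingSubgroup) :
    Module.End (ZMod p) (Mt n (ZMod p)) where
  toFun := D.ad g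
  map_add' A B := by simp only [Dt.ad, Matrix.mul_add, Matrix.add_mul]
  map_smul' c A := by simp only [Dt.ad, Matrix.mul_smul, Matrix.smul_mul, RingHom.id_apply]

lemma ad_one_PvRam (D : Dt p K n) (A : Mt n (ZMod p)) : D.ad 1 A = A := by
  simp [Dt.ad]

lemma ad_mul_PvRam (D : Dt p K n) (g h : K.fixingSubgroup) (A : Mt n (ZMod p)) :
    D.ad (g * h) A = D.ad g (D.ad h A) := by
  simp only [Dt.ad, map_mul, _root_.mul_inv_rev, Units.val_mul, Matrix.mul_assoc]

lemma ad_smul_PvRam (D : Dt p K n) (g : K.fixingSubgroup) (c : ZMod p) (A : Mt n (ZMod p)) :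
    D.ad g (c • A) = c • D.ad g A := (adL_PvRam D g).map_smul c A

lemma gen_PvRam (D : Dt p K n) {F : IntermediateField ℚ Qb} (hKF : K ≤ F)
    (c : K.fixingSubgroup →* ZMod p) {Z : Mt n (ZMod p)} {s g : K.fixingSubgroup}
    (hs : D.ad s Z = c s • Z)
    (hF : ∀ h : K.fixingSubgroup, h.1 ∈ F.fixingSubgroup → D.ad h Z = c h • Z)
    (hg : g.1 ∈ Subgroup.zpowers s.1 ⊔ F.fixingSubgroup) : D.ad g Z = c g • Z := by
  let S : Subgroup K.fixingSubgroup :=
    { carrier := {g | D.ad g Z = c g • Z}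
      one_mem' := by simp [ad_one_PvRam]
      mul_mem' := fun {a b} ha hb => by
        rw [Set.mem_ofPred_eq] at ha hb ⊢
        rw [ad_mul_PvRam, hb, ad_smul_PvRam, ha, smul_smul, map_mul, mul_comm]
      inv_mem' := fun {a} ha => by
        rw [Set.mem_ofPred_eq] at ha ⊢
        have h1 : D.ad a⁻¹ (D.ad a Z) = Z := by rw [← ad_mul_PvRam, inv_mul_cancel, ad_one_PvRam]
        rw [ha, ad_smul_PvRam] at h1
        rw [← congrArg (c a⁻¹ • ·) h1, smul_smul, ← map_mul, inv_mul_cancel, map_one, one_smul] }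
  have hle : Subgroup.zpowers s.1 ⊔ F.fixingSubgroup ≤ S.map K.fixingSubgroup.subtype := by
    refine sup_le ((Subgroup.zpowers_le).2 ⟨s, hs, rfl⟩) fun h hh => ?_
    exact ⟨⟨h, IntermediateField.fixingSubgroup_antitone hKF hh⟩, hF _ hh, rfl⟩
  obtain ⟨g', hg', e⟩ := hle hg
  obtain rfl : g' = g := Subtype.ext e
  exact hg'

theorem ramAlg_stmt (p : ℕ) [Fact p.Prime] (hC : CoresStmt p) : RamAlgStmt p := by
  intro K F _ _ _ hKF n D hB t ⟨⟨m, hm, htm⟩, X, hX, hN, hE⟩
  obtain ⟨⟨-, -, -, -, hF⟩, -⟩ := hC K F hKF n D hB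
  have hpow : ∀ j A, (adL_PvRam D t ^ j) A = D.ad (t ^ j) A := by
    intro j A
    induction j with
    | zero => exact (ad_one_PvRam D A).symm
    | succ j ih =>
      rw [pow_succ', Module.End.mul_apply, ih, pow_succ', ad_mul_PvRam]
      rfl
  obtain ⟨H, Y, h1, h2, h3, h4, h5, h6, h7⟩ := main_PvRam (adL_PvRam D t)
    (fun A B => by
      change D.ad t _ = D.ad t _ * D.ad t _
      simp only [Dt.ad, Matrix.mul_assoc, Units.inv_mul_cancel_left])
    (fun A => by
      change (D.ad t _).trace = _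
      rw [Dt.ad, trace_mul_comm, Units.inv_mul_cancel_left])
    (m := m) (by rwa [Ne, ZMod.natCast_eq_zero_iff])
    (fun A => by rw [hpow, (hF (t ^ m) htm).2])
    (q := cbH_PvRam p K t) (by rw [← map_pow]; exact (hF (t ^ m) htm).1)
    (by rw [Ne, ZMod.natCast_eq_zero_iff]; exact hB.odd.2.1) hX hN hE
  have hc : ∀ Z, ∀ h : K.fixingSubgroup, h.1 ∈ F.fixingSubgroup →
      D.ad h Z = cbH_PvRam p K h • Z := fun Z h hh => by
    rw [(hF h hh).2]
    exact (one_smul _ _).symm.trans (congrArg (· • Z) (hF h hh).1.symm)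
  have ho : ∀ Z {s g : K.fixingSubgroup}, D.ad s Z = Z →
      g.1 ∈ Subgroup.zpowers s.1 ⊔ F.fixingSubgroup → D.ad g Z = Z := fun Z s g hs hg =>
    (gen_PvRam D hKF 1 (hs.trans (one_smul _ _).symm)
      (fun h hh => ((hF h hh).2 Z).trans (one_smul _ _).symm) hg).trans (one_smul _ _)
  exact ⟨X, H, Y, hX, h1, h2, h3, h4, fun g hg =>
    ⟨gen_PvRam D hKF (cbH_PvRam p K) ((hE X).2 ⟨1, (one_smul _ _).symm⟩) (hc X) hg,
      ho H h5 hg, ho Y h6 hg⟩,
    fun s hs Z => ⟨fun h => (hE Z).1 (gen_PvRam D hKF (cbH_PvRam p K) h (hc Z) hs),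
      fun h => h7 Z (ho Z h hs)⟩⟩

end Pool.Agent.MP_f68ac8_nt.Pv
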