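import Mathlib
import Pool.Agent.MP_f68ac8_nt.PvAux
import Pool.Agent.MP_f68ac8_nt.EvRec
import Pool.Agent.MP_f68ac8_nt.OvRam

/-! The two kinds of types. -/

namespace Pool.Agent.MP_f68ac8_nt.Pv

open Ev
open NumberField Matrix
open scoped Pointwise Topology

section alg
variable {k : Type} [Field k]

lemma ch_PvTyp (A : Mt 2 k) : A * A = A.trace • A - A.det • (1 : Mt 2 k) := by
  ext i j
  fin_cases i <;> fin_cases j <;>
    simp [Matrix.mul_apply, Fin.sum_univ_two, trace_fin_two, det_fin_two] <;> ring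

lemma pol_PvTyp (A Z : Mt 2 k) (h : Z.trace = 0) (h' : (A * Z).trace = 0) :
    A * Z + Z * A = A.trace • Z := by
  rw [trace_fin_two] at h h'
  simp only [Matrix.mul_apply, Fin.sum_univ_two] at h'
  ext i j
  fin_cases i <;> fin_cases j <;>
    simp [Matrix.mul_apply, Fin.sum_univ_two, trace_fin_two]
  · linear_combination h' - A 1 1 * h
  · linear_combination A 0 1 * h
  · linear_combination A 1 0 * h
  · linear_combination h' - A 0 0 * h

lemma line_PvTyp {Z W : Mt 2 k} (hZ : Z ≠ 0) (t1 : Z.trace = 0) (t2 : W.trace = 0)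
    (d1 : Z.det = 0) (d2 : W.det = 0) (d3 : (Z + W).det = 0) : ∃ c : k, W = c • Z := by
  rw [trace_fin_two] at t1 t2
  rw [det_fin_two] at d1 d2 d3
  simp only [Matrix.add_apply] at d3
  have e1 : Z 1 1 = - Z 0 0 := by linear_combination t1
  have e2 : W 1 1 = - W 0 0 := by linear_combination t2
  rw [e1] at d1 d3
  rw [e2] at d2 d3
  have d4 : 2 * Z 0 0 * W 0 0 + Z 0 1 * W 1 0 + Z 1 0 * W 0 1 = 0 := by
    linear_combination d1 + d2 - d3
  by_cases hb : Z 0 1 = 0
  · have ha : Z 0 0 = 0 := by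
      rw [hb] at d1
      exact pow_eq_zero_iff (two_ne_zero) |>.1 (by linear_combination -d1)
    have hc : Z 1 0 ≠ 0 := by
      intro hc
      apply hZ
      ext i j
      fin_cases i <;> fin_cases j <;> simp [ha, hb, hc, e1]
    have hy : W 0 1 = 0 := by
      rw [ha, hb] at d4
      exact (mul_eq_zero.1 (by linear_combination d4 : Z 1 0 * W 0 1 = 0)).resolve_left hc
    have hx : W 0 0 = 0 := by
      rw [hy] at d2
      exact pow_eq_zero_iff (two_ne_zero) |>.1 (by linear_combination -d2)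
    refine ⟨W 1 0 / Z 1 0, ?_⟩
    ext i j
    fin_cases i <;> fin_cases j <;> simp [ha, hb, hc, e1, e2, hx, hy]
  · have h1 : Z 0 1 * W 0 0 = Z 0 0 * W 0 1 := by
      have : (Z 0 1 * W 0 0 - Z 0 0 * W 0 1) ^ 2 = 0 := by
        linear_combination (-Z 0 1 ^ 2) * d2 - W 0 1 ^ 2 * d1 - Z 0 1 * W 0 1 * d4
      exact sub_eq_zero.1 (pow_eq_zero_iff (two_ne_zero) |>.1 this)
    have h2 : Z 0 1 * W 1 0 = Z 1 0 * W 0 1 := by
      apply mul_left_cancel₀ hb
      linear_combination Z 0 1 * d4 - 2 * Z 0 0 * h1 + 2 * W 0 1 * d1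
    refine ⟨W 0 1 / Z 0 1, ?_⟩
    ext i j
    fin_cases i <;> fin_cases j <;> simp [e1, e2] <;> field_simp
    · linear_combination h1
    · linear_combination h2
    · linear_combination h1

lemma eig_PvTyp (A : GL (Fin 2) k) {c : k} (hc : c ^ 2 ≠ 1) {Z : Mt 2 k}
    (h : A.val * Z * A⁻¹.val = c • Z) : Z.trace = 0 ∧ Z.det = 0 := by
  constructor
  · have := congrArg Matrix.trace h
    rw [trace_mul_comm, Units.inv_mul_cancel_left, trace_smul, smul_eq_mul] at this
    have h1 : c - 1 ≠ 0 := fun e => hc (by rw [sub_eq_zero.1 e, one_pow])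
    exact (mul_eq_zero.1 (by linear_combination -this : (c - 1) * Z.trace = 0)).resolve_left h1
  · have := congrArg Matrix.det h
    rw [det_mul, det_mul, mul_right_comm, ← det_mul, Units.mul_inv, det_one, one_mul, det_smul,
      Fintype.card_fin] at this
    exact (mul_eq_zero.1 (by linear_combination -this : (c ^ 2 - 1) * Z.det = 0)).resolve_left
      (sub_ne_zero.2 hc)

lemma pow_PvTyp (A : Mt 2 k) {a d : k} (h : A * A = (a + d) • A - (a * d) • (1 : Mt 2 k)) (m : ℕ) :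
    (a - d) • A ^ m = (a ^ m - d ^ m) • A + (a * d ^ m - d * a ^ m) • (1 : Mt 2 k) := by
  induction m with
  | zero => simp
  | succ m ih =>
    rw [pow_succ, ← Matrix.smul_mul, ih, Matrix.add_mul, Matrix.smul_mul, h, Matrix.smul_mul,
      Matrix.one_mul, smul_sub, smul_smul, smul_smul]
    have e1 : (a ^ (m + 1) - d ^ (m + 1)) = (a ^ m - d ^ m) * (a + d) + (a * d ^ m - d * a ^ m) := by
      ring
    have e2 : (a * d ^ (m + 1) - d * a ^ (m + 1)) = -((a ^ m - d ^ m) * (a * d)) := by ring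
    rw [e1, e2, add_smul, neg_smul]
    abel

lemma ord_PvTyp (A : GL (Fin 2) k) {c : k} (hc : c ^ 2 ≠ 1) {Z : Mt 2 k} (hZ : Z ≠ 0)
    (h : A.val * Z * A⁻¹.val = c • Z) {m : ℕ} (hm : ∀ x : k, x ≠ 0 → x ^ m = 1) :
    (A ^ m).val = (1 : k) • (1 : Mt 2 k) := by
  have h1 : c - 1 ≠ 0 := fun e => hc (by rw [sub_eq_zero.1 e, one_pow])
  have h2 : c + 1 ≠ 0 := fun e => hc (by rw [eq_neg_of_add_eq_zero_left e]; ring)
  have e : A.val * Z = c • (Z * A.val) := by
    rw [← Matrix.smul_mul, ← h, Matrix.mul_assoc, Units.inv_mul, Matrix.mul_one]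
  have t0 : (A.val * Z).trace = 0 := by
    have := congrArg Matrix.trace e
    rw [trace_smul, trace_mul_comm Z, smul_eq_mul] at this
    exact (mul_eq_zero.1 (by linear_combination -this : (c - 1) * (A.val * Z).trace = 0)).resolve_left
      h1
  have pl := pol_PvTyp A.val Z (eig_PvTyp A hc h).1 t0
  set d := A.val.trace / (c + 1) with hd
  have ht : A.val.trace = c * d + d := by rw [hd]; field_simp
  have e2 : Z * A.val = d • Z := by
    apply smul_right_injective _ h2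
    simp only
    rw [add_smul, one_smul, ← e, pl, smul_smul, ht]
    congr 1
    ring
  have e3 : A.val * Z = (c * d) • Z := by rw [e, e2, smul_smul]
  have hdet : A.val.det = c * d * d := by
    have := congrArg (· * Z) (ch_PvTyp A.val)
    simp only [Matrix.mul_assoc, e3, Matrix.mul_smul, smul_smul, Matrix.sub_mul, Matrix.smul_mul,
      Matrix.one_mul] at this
    rw [← sub_smul, ← sub_eq_zero, ← sub_smul, smul_eq_zero] at this
    rw [ht] at this
    linear_combination this.resolve_right hZ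
  have hne : A.val.det ≠ 0 := ((Matrix.isUnit_iff_isUnit_det _).1 A.isUnit).ne_zero
  rw [hdet] at hne
  have hd0 : d ≠ 0 := right_ne_zero_of_mul hne
  have hcd : c * d ≠ 0 := left_ne_zero_of_mul hne
  have hp := pow_PvTyp A.val (a := c * d) (d := d) (by rw [ch_PvTyp, ht, hdet]) m
  rw [hm _ hd0, hm _ hcd, sub_self, zero_smul, zero_add, mul_one, mul_one] at hp
  have h3 : c * d - d ≠ 0 := by
    rw [show c * d - d = (c - 1) * d by ring]
    exact mul_ne_zero h1 hd0
  rw [one_smul, Units.val_pow_eq_pow_val]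
  exact smul_right_injective _ h3 hp

end alg

variable {p : ℕ} [Fact p.Prime] {K : IntermediateField ℚ Qb} {n : ℕ}

lemma ad_one_PvTyp (D : Dt p K n) (A : Mt n (ZMod p)) : D.ad 1 A = A := by
  simp [Dt.ad]

lemma ad_mul_PvTyp (D : Dt p K n) (g h : K.fixingSubgroup) (A : Mt n (ZMod p)) :
    D.ad (g * h) A = D.ad g (D.ad h A) := by
  simp only [Dt.ad, map_mul, _root_.mul_inv_rev, Units.val_mul, Matrix.mul_assoc]

lemma ad_smul_PvTyp (D : Dt p K n) (g : K.fixingSubgroup) (c : ZMod p) (A : Mt n (ZMod p)) :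
    D.ad g (c • A) = c • D.ad g A := by
  simp only [Dt.ad, Matrix.mul_smul, Matrix.smul_mul]

lemma gen_PvTyp (D : Dt p K n) {F : IntermediateField ℚ Qb} (hKF : K ≤ F)
    (c : K.fixingSubgroup →* ZMod p) {Z : Mt n (ZMod p)} {s g : K.fixingSubgroup}
    (hs : D.ad s Z = c s • Z)
    (hF : ∀ h : K.fixingSubgroup, h.1 ∈ F.fixingSubgroup → D.ad h Z = c h • Z)
    (hg : g.1 ∈ Subgroup.zpowers s.1 ⊔ F.fixingSubgroup) : D.ad g Z = c g • Z := by
  let S : Subgroup K.fixingSubgroup :=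
    { carrier := {g | D.ad g Z = c g • Z}
      one_mem' := by simp [ad_one_PvTyp]
      mul_mem' := fun {a b} ha hb => by
        rw [Set.mem_ofPred_eq] at ha hb ⊢
        rw [ad_mul_PvTyp, hb, ad_smul_PvTyp, ha, smul_smul, map_mul, mul_comm]
      inv_mem' := fun {a} ha => by
        rw [Set.mem_ofPred_eq] at ha ⊢
        have h1 : D.ad a⁻¹ (D.ad a Z) = Z := by rw [← ad_mul_PvTyp, inv_mul_cancel, ad_one_PvTyp]
        rw [ha, ad_smul_PvTyp] at h1
        rw [← congrArg (c a⁻¹ • ·) h1, smul_smul, ← map_mul, inv_mul_cancel, map_one, one_smul] }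
  have hle : Subgroup.zpowers s.1 ⊔ F.fixingSubgroup ≤ S.map K.fixingSubgroup.subtype := by
    refine sup_le ((Subgroup.zpowers_le).2 ⟨s, hs, rfl⟩) fun h hh => ?_
    exact ⟨⟨h, IntermediateField.fixingSubgroup_antitone hKF hh⟩, hF _ hh, rfl⟩
  obtain ⟨g', hg', e⟩ := hle hg
  obtain rfl : g' = g := Subtype.ext e
  exact hg'

lemma conj_PvTyp {F : IntermediateField ℚ Qb} [Normal ℚ F] (g : GQ) {u : GQ}
    (hu : u ∈ F.fixingSubgroup) : g * u * g⁻¹ ∈ F.fixingSubgroup := by
  have h : res F u = 1 := (res_eq_one F).2 fun x hx => hu ⟨x, hx⟩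
  have h2 : res F (g * u * g⁻¹) = 1 := by rw [map_mul, map_mul, h, mul_one, map_inv, mul_inv_cancel]
  exact fun x => (res_eq_one F).1 h2 x.1 x.2

lemma tpow_PvTyp {F : IntermediateField ℚ Qb} {r : K.fixingSubgroup →* GL (Fin n) (ZMod p)}
    {f : GQ → Mt n (ZMod p)} (hf : Tang p F r f) {u : GQ} (hu : u ∈ F.fixingSubgroup) (m : ℕ) :
    f (u ^ m) = (m : ZMod p) • f u := by
  induction m with
  | zero =>
    have := hf.add 1 (one_mem _) 1 (one_mem _)
    rw [mul_one, left_eq_add] at this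
    simpa using this
  | succ m ih =>
    rw [pow_succ, hf.add _ (pow_mem hu m) _ hu, ih, Nat.cast_succ, add_smul, one_smul]

theorem typ_stmt (p : ℕ) [Fact p.Prime] (hW : WildStmt) (hC : CoresStmt p) : TypStmt p := by
  have hp : p.Prime := Fact.out
  intro K F _ _ _ hKF
  refine ⟨fun r hr t ht => ?_, fun n D hB t ht l P σ hl hlN _ hP hlP hσ hT f hf s hs g hg => ?_⟩
  · by_cases h : ∀ Z, (⟨r, p⟩ : Dt p K 2).ad t Z = cb p t • Z → Z = 0
    · exact Or.inr h
    push Not at h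
    obtain ⟨Z, hZ, hZ0⟩ := h
    obtain ⟨t1, d1⟩ := eig_PvTyp (r t) ht hZ
    refine Or.inl ⟨?_, Z, hZ0, ⟨2, ?_⟩, fun W => ⟨fun hW' => ?_, ?_⟩⟩
    · obtain ⟨m, hm, h⟩ := hr.tame (t ^ (p - 1)) (Or.inl ⟨1, by
        rw [map_pow]
        exact ord_PvTyp (r t) ht hZ0 hZ fun x hx => ZMod.pow_card_sub_one_eq_one hx⟩)
      refine ⟨(p - 1) * m, fun hd => ?_, by rw [pow_mul]; exact h⟩
      rcases (Nat.Prime.dvd_mul hp).1 hd with h1 | h1
      · have := Nat.le_of_dvd (by have := hp.two_le; omega) h1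
        have := hp.two_le
        omega
      · exact hm h1
    · rw [pow_two, ch_PvTyp, t1, d1, zero_smul, zero_smul, sub_zero]
    · obtain ⟨t2, d2⟩ := eig_PvTyp (r t) ht hW'
      refine line_PvTyp hZ0 t1 t2 d1 d2 (eig_PvTyp (r t) ht (c := cb p t) ?_).2
      have h1 : (r t).val * Z * (r t)⁻¹.val = cb p t • Z := hZ
      have h2 : (r t).val * W * (r t)⁻¹.val = cb p t • W := hW'
      rw [Matrix.mul_add, Matrix.add_mul, h1, h2, smul_add]
    · rintro ⟨c, rfl⟩
      rw [ad_smul_PvTyp, hZ, smul_comm]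
  · obtain ⟨⟨-, hH, -, -, hF⟩, -⟩ := hC K F hKF n D hB
    rw [Ty, hH] at hT
    have hσK : σ ∈ K.fixingSubgroup := by
      have h1 : σ ∈ Subgroup.zpowers t.1 ⊔ F.fixingSubgroup :=
        hT ▸ Subgroup.mem_sup_left (Subgroup.mem_zpowers σ)
      exact (sup_le ((Subgroup.zpowers_le).2 t.2)
        (IntermediateField.fixingSubgroup_antitone hKF) : _ ≤ K.fixingSubgroup) h1
    have hlp : ¬ p ∣ l := fun e => hlN (((Nat.prime_dvd_prime_iff_eq hp hl).1 e) ▸ hB.odd.2.2.1)
    have hl0 : (l : ZMod p) ≠ 0 := by rwa [Ne, ZMod.natCast_eq_zero_iff]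
    have hpP : (p : OQ) ∉ P := fun h => hP.ne_top (by
      have hco : IsCoprime (p : OQ) (l : OQ) :=
        Nat.Coprime.cast ((Nat.Prime.coprime_iff_not_dvd hp).2 hlp)
      obtain ⟨a, b, e⟩ := hco
      exact (Ideal.eq_top_iff_one _).2 (e ▸ P.add_mem (P.mul_mem_left a h) (P.mul_mem_left b hlP)))
    have hcb : cb p σ = l := by rw [cb_eq, cyc_frob hpP hσ]
    have key : ∀ u ∈ P.inertia GQ, u ∈ F.fixingSubgroup → f u = 0 := by
      intro u hu huF
      have hv : σ * u * σ⁻¹ * (u ^ l ^ 1)⁻¹ ∈ F.fixingSubgroup :=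
        mul_mem (conj_PvTyp σ huF) (inv_mem (pow_mem huF _))
      obtain ⟨a, ha⟩ := hW.1 l 1 P σ u hl hP hlP (by rwa [pow_one]) hu _ hf.nhds
      have h1 := ha (pow_mem hv _)
      rw [tpow_PvTyp hf hv, Nat.cast_pow, smul_eq_zero] at h1
      have h2 := h1.resolve_left (pow_ne_zero _ hl0)
      have h3 := hf.add _ hv _ (pow_mem huF (l ^ 1))
      rw [inv_mul_cancel_right, h2, zero_add, tpow_PvTyp hf huF, pow_one] at h3
      have h4 := hf.conj ⟨σ, hσK⟩ u huF
      refine ht _ (gen_PvTyp D hKF (cbH_OvRam p K) (s := ⟨σ, hσK⟩) ?_ (fun h hh => ?_) ?_)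
      · change _ = cb p σ • f u
        rw [hcb, ← h3]
        exact h4.symm
      · rw [(hF h hh).2]
        exact (one_smul _ _).symm.trans (congrArg (· • f u) (hF h hh).1.symm)
      · exact hT ▸ Subgroup.mem_sup_left (Subgroup.mem_zpowers t.1)
    have h1 := inert_conj_EvRec s⁻¹ hg.2.1
    rw [inv_smul_smul] at h1
    have h2 := conj_PvTyp s⁻¹ hg.2.2
    have h3 := hf.conj ⟨s, hs⟩ _ h2
    rw [key _ h1 h2, mul_zero, zero_mul] at h3
    rw [← h3]
    congr 1
    group

end Pool.Agent.MP_f68ac8_nt.Pv
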