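import Mathlib
import Pool.Agent.MP_f68ac8_nt.PvAux
import Pool.Agent.MP_f68ac8_nt.EvRec
import Pool.Agent.MP_14ad9d_nt.Full.WC

/-! An everywhere unramified equivariant additive map vanishes. -/

namespace Pool.Agent.MP_f68ac8_nt.Pv
open Ev
open NumberField
open Pool.Agent.MP_14ad9d_nt.Full (Pr ord Tm tame chi wc1 tame_unit ord_finite exists_ord_eq_one)
open scoped Pointwise Topology

lemma notMem_of_ord_PvZero {E : Type} [Field E] [NumberField E] (v : Pr E) {a : ℕ}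
    (h : ord v (a : E) = 0) (ha : a ≠ 0) : (a : 𝓞 E) ∉ v.asIdeal := by
  intro hm
  have h1 : v.valuation E ((a : 𝓞 E) : E) < 1 := (v.valuation_lt_one_iff_mem _).2 hm
  have h0 : v.valuation E (a : E) ≠ 0 :=
    (Valuation.ne_zero_iff _).2 (Nat.cast_ne_zero.2 ha)
  rw [ord, neg_eq_zero] at h
  have h2 : v.valuation E (a : E) = 1 := by
    rw [← WithZero.exp_log h0, h, WithZero.exp_zero]
  rw [show ((a : 𝓞 E) : E) = (a : E) by simp, h2] at h1
  exact lt_irrefl _ h1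

theorem zero_stmt (p : ℕ) [Fact p.Prime] (hK : KKStmt p) (hKum : KumStmt p) (hW : WildStmt)
    (hG : LocGStmt p) (hC : CoresStmt p) (hA : ArtStmt p) (hS : SumOStmt p) : ZeroStmt p := by
  intro K F _ _ _ hKF n D hB hCl f hT hI g hg
  have hsel : Sel D F (J := Fin 0) Fin.elim0 f :=
    ⟨hT, fun P g h _ => hI P g h, fun P g h _ _ => hI P g h⟩
  have hinj : Function.Injective fun j : Fin 0 => (Fin.elim0 j : Co).l := fun j => j.elim0
  obtain ⟨φ, hφ⟩ := hA K F hKF n D hB (Fin 0) Fin.elim0 (fun j => j.elim0) hinj f hsel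
  have hφ0 : φ = 0 := hCl φ hφ.eqv fun ξ κ hξ => by
    rw [← hS K F hKF n D hB (Fin 0) Fin.elim0 (fun j => j.elim0) hinj f hsel φ hφ ξ κ hξ]
    simp
  have hfr : ∀ P : Ideal OQ, P.IsMaximal → (D.N : OQ) ∉ P → ∀ s ∈ F.fixingSubgroup,
      IsFrob (Ideal.absNorm (P.under (𝓞 F))) P s → f s = 0 := fun P hP hN s hs hF => by
    rw [← hφ.oth P hP hN (fun j => j.elim0) s hs hF, hφ0]
    rfl
  have hM : xi p ∈ F := (hC K F hKF n D hB).1.1
  have h2 : 2 < p := hB.odd.1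
  ext i j
  obtain ⟨β, hβ0, hβ⟩ := hKum F hM (fun g => f g i j)
    (fun g hg h hh => by simp only [hT.add g hg h hh, Matrix.add_apply])
    (hT.nhds.mono fun g h hg => by simp only [h hg, Matrix.zero_apply])
  rw [← hβ g hg, Matrix.zero_apply]
  by_cases hd : ∃ d : F, β = d ^ p
  · obtain ⟨d, rfl⟩ := hd
    have hd0 : d ≠ 0 := fun h => hβ0 (by rw [h, zero_pow (Fact.out : p.Prime).ne_zero])
    have := hK.2.2.1 (d : Qb) (p : ℤ) g (by simpa using hd0)
      ((IntermediateField.mem_fixingSubgroup_iff _ _).mp hg _ d.2) (cyc_fix_EvRec F hM hg)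
    simpa using this
  · exfalso
    push Not at hd
    have hinf := wc1 h2 (prim_EvRec F hM) hd
    obtain ⟨v, ⟨-, hv1, hv2, hv3⟩, hvN⟩ := hinf.exists_notMem_finite (ord_finite (D.N : F))
    have hN : (D.N : 𝓞 F) ∉ v.asIdeal :=
      notMem_of_ord_PvZero v (by simpa using hvN) hB.odd.2.2.2
    obtain ⟨P, hP, hvP⟩ := over_EvRec F v
    obtain ⟨l, e, s, -, -, -, habs, hs, hfs⟩ := hW.2.1 F P hP
    obtain ⟨ϖ, hϖ0, hϖ⟩ := exists_ord_eq_one v
    have hNP : (D.N : OQ) ∉ P := fun h => hN (hvP ▸ (nat_under_EvRec F).mpr h)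
    have hpP : (p : OQ) ∉ P := fun h => hv1 (hvP ▸ (nat_under_EvRec F).mpr h)
    have h3 := hG F hM P v h2 hP hpP hvP s hs (by rw [hvP, habs]; exact hfs) β (ϖ : F) hβ0
      (by simpa using hϖ0)
    rw [tame_unit h2 (prim_EvRec F hM) hv1 hβ0 hv2, hϖ, hv2, hβ s hs,
      hfr P hP hNP s hs (by rw [habs]; exact hfs)] at h3
    exact hv3 (by simpa using h3)

end Pool.Agent.MP_f68ac8_nt.Pv
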