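import Mathlib
import Pool.Agent.MP_f68ac8_nt.PvMain
import Pool.Agent.MP_f68ac8_nt.EvKK
import Pool.Agent.MP_f68ac8_nt.EvRam
import Pool.Agent.MP_f68ac8_nt.EvLocAB
import Pool.Agent.MP_f68ac8_nt.EvKum
import Pool.Agent.MP_f68ac8_nt.EvTriv
import Pool.Agent.MP_f68ac8_nt.FvWild
import Pool.Agent.MP_f68ac8_nt.FvLocU
import Pool.Agent.MP_f68ac8_nt.FvMean
import Pool.Agent.MP_f68ac8_nt.FvCount
import Pool.Agent.MP_f68ac8_nt.OvKey1
import Pool.Agent.MP_f68ac8_nt.OvMu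
import Pool.Agent.MP_f68ac8_nt.OvKey2
import Pool.Agent.MP_f68ac8_nt.OvR1
import Pool.Agent.MP_f68ac8_nt.OvHens
import Pool.Agent.MP_f68ac8_nt.OvMix
import Pool.Agent.MP_f68ac8_nt.OvLocP
import Pool.Agent.MP_f68ac8_nt.OvLocG
import Pool.Agent.MP_f68ac8_nt.OvExt
import Pool.Agent.MP_f68ac8_nt.OvStep
import Pool.Agent.MP_f68ac8_nt.PvEqv
import Pool.Agent.MP_f68ac8_nt.PvCores
import Pool.Agent.MP_f68ac8_nt.PvCo
import Pool.Agent.MP_f68ac8_nt.PvRec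
import Pool.Agent.MP_f68ac8_nt.PvIner
import Pool.Agent.MP_f68ac8_nt.PvArt
import Pool.Agent.MP_f68ac8_nt.PvSum
import Pool.Agent.MP_f68ac8_nt.PvOrd
import Pool.Agent.MP_f68ac8_nt.PvDual
import Pool.Agent.MP_f68ac8_nt.PvRam
import Pool.Agent.MP_f68ac8_nt.PvNz
import Pool.Agent.MP_f68ac8_nt.PvBc
import Pool.Agent.MP_f68ac8_nt.PvEx
import Pool.Agent.MP_f68ac8_nt.PvLat
import Pool.Agent.MP_f68ac8_nt.PvCls
import Pool.Agent.MP_f68ac8_nt.PvCoinv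
import Pool.Agent.MP_f68ac8_nt.PvTr
import Pool.Agent.MP_f68ac8_nt.PvFil
import Pool.Agent.MP_f68ac8_nt.PvSec
import Pool.Agent.MP_f68ac8_nt.PvPerm
import Pool.Agent.MP_f68ac8_nt.PvAlgM
import Pool.Agent.MP_f68ac8_nt.PvGrp
import Pool.Agent.MP_f68ac8_nt.PvMat1
import Pool.Agent.MP_f68ac8_nt.PvMink
import Pool.Agent.MP_f68ac8_nt.PvJ
import Pool.Agent.MP_f68ac8_nt.PvT
import Pool.Agent.MP_f68ac8_nt.PvSI0
import Pool.Agent.MP_f68ac8_nt.PvSI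
import Pool.Agent.MP_f68ac8_nt.PvH
import Pool.Agent.MP_f68ac8_nt.PvMat
import Pool.Agent.MP_f68ac8_nt.PvStep0
import Pool.Agent.MP_f68ac8_nt.PvSmall
import Pool.Agent.MP_f68ac8_nt.PvLead
import Pool.Agent.MP_f68ac8_nt.PvZero
import Pool.Agent.MP_f68ac8_nt.PvRed
import Pool.Agent.MP_f68ac8_nt.PvTyp
import Pool.Agent.MP_f68ac8_nt.PvSet
import Pool.Agent.MP_f68ac8_nt.PvTwo
import Pool.Agent.MP_f68ac8_nt.PvCl0

namespace Pool.Agent.MP_f68ac8_nt.EqualWeightsOld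

open NumberField Pool.Agent.MP_f68ac8_nt Pv

theorem result (p : ℕ) [Fact p.Prime] (K F : IntermediateField ℚ (AlgebraicClosure ℚ))
    [NumberField K] [NumberField F] [IsGalois ℚ F] (h : K ≤ F)
    (r : K.fixingSubgroup →* GL (Fin 2) (ZMod p)) (hr : Resid F r) (t : ℕ → K.fixingSubgroup)
    (ht : ∀ j, PadicInt.toZMod (cycChar p (t j) : ℤ_[p]) ^ 2 ≠ 1) (d : ℕ) :
    1 - (2 ^ d + d - 1) / p ≤
      idDens (fun j => Typ p K F (t j)) d fun S => S.ncard = d ∧ FinLift F r S := by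
  have hK := Ev.kk_stmt p
  have hW := Ev.wild_stmt
  have hA := Ev.locA_stmt p Ev.ram_stmt
  have hU := Ev.locU_stmt p hK hA hW
  have hT := Ev.triv_stmt p
  have hM := Ev.kum_stmt p hK
  have hH := Ev.hens_stmt p
  have hG := Ev.locG_stmt p hK
  have h1 := Ev.key1_stmt p
  have h2 := Ev.key2_stmt p (Ev.mu_stmt p)
  have hN := Ev.count_stmt p hW hT
  have hC := cores_stmt p hK
  have hE := eqv_stmt p Ev.ext_stmt
  have hCo := co_stmt p hK hW hU hT hC hE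
  have hI := inerO_stmt p hK hM hU hC hCo
  have hAr := art_stmt p hW hC hCo hE hI
  have hSu := sumO_stmt p hK hM hA hW (recO_stmt p hK (Ev.mix_stmt p (Ev.r1G_stmt p h1 h2) hH)
    (Ev.locP_stmt p Ev.ram_stmt hW hH) hC) hG hC hCo hE
  have hB := bc_stmt p
  have hX := ex_stmt p
  have hP := perm_stmt p
  have hMat := mat_stmt p (t_stmt p) (j_stmt p mink_stmt) (cls_stmt p hB hX (lat_stmt p hB hX))
    (h_stmt p (sI_stmt p (sI0_stmt p h1 h2))) (coinv_stmt p hB) (grp_stmt p) hP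
    (alg_stmt p (tr_stmt p) (fil_stmt p) (sec_stmt p) hP) (mat1_stmt p hB)
  exact main7_of hC hCo (ordO_stmt p hC hCo hE) (Ev.stepO_stmt p hN Ev.idMean_stmt)
    (step0_stmt p hN Ev.idMean_stmt) (typ_stmt p hW hC) (nz_stmt p hC) Ev.idMean_stmt
    (red_stmt p (lead_stmt p hW) (small_stmt' p) (zero_stmt p hK hM hW hG hC hAr hSu) hI hC hCo)
    hAr hSu (dualO_stmt p) (ramAlg_stmt p hC)
    (two_stmt p hK (set_stmt p hK) hMat hC Ev.ext_stmt) (cl0_stmt p hK hC Ev.ext_stmt) h hr ht d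

end Pool.Agent.MP_f68ac8_nt.EqualWeightsOld
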