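import Mathlib
import Pool.Agent.MP_f68ac8_nt.EvAux

/-! The data attached to a trivial prime and the values of Kummer characters on inertia. -/

namespace Pool.Agent.MP_f68ac8_nt.Ev

open NumberField
open Pool.Agent.MP_14ad9d_nt.Full (Pr ord)
open scoped Pointwise

lemma prime_EvCfg (L : IntermediateField ℚ Qb) [NumberField L] (P : Ideal OQ) [P.IsMaximal] :
    ∃ w : Pr L, w.asIdeal = P.under (𝓞 L) := by
  have : (P.under (𝓞 L)).IsMaximal := Ideal.isMaximal_comap_of_isIntegral_of_isMaximal P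
  exact ⟨⟨P.under (𝓞 L), inferInstance, NeZero.ne _⟩, rfl⟩

lemma over_EvCfg {F M : IntermediateField ℚ Qb} [NumberField F] [NumberField M] (h : F ≤ M)
    {P : Ideal OQ} {q : Pr F} {w : Pr M} (hq : q.asIdeal = P.under (𝓞 F))
    (hw : w.asIdeal = P.under (𝓞 M)) :
    ∃ e : ℕ, ∀ y : F, ord w (IntermediateField.inclusion h y) = e * ord q y := by
  let _ : Algebra F M := (IntermediateField.inclusion h).toAlgebra
  have hover : w.asIdeal.LiesOver q.asIdeal := ⟨by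
    rw [hq, hw]
    ext x
    simp only [Ideal.under, Ideal.mem_comap]
    exact Iff.rfl⟩
  exact ⟨_, fun y => MP_14ad9d_nt.Full.ord_over hover y⟩

lemma val_EvCfg {p : ℕ} [Fact p.Prime] (hL : LocTStmt p) (hT : TrivStmt p)
    (F : IntermediateField ℚ Qb) [NumberField F] [IsGalois ℚ F] (h2 : 2 < p) {l : ℕ}
    (hl : TrivPrime p F l) {P : Ideal OQ} [hP : P.IsMaximal] (hlP : (l : OQ) ∈ P) {q : Pr F}
    (hq : q.asIdeal = P.under (𝓞 F)) : (∃ τ ∈ P.inertia GQ, KK p l τ = 1) ∧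
      ∀ τ ∈ P.inertia GQ, ∀ y : F, y ≠ 0 → KK p y τ = ord q y * KK p l τ := by
  obtain ⟨h1, -, -, M, _, _, hξ, hFM, hMH, -⟩ := hT F
  obtain ⟨w, hw⟩ := prime_EvCfg M P
  obtain ⟨a1, a2, a3, -⟩ := hL M hξ l h2 hl.1 (h1 l hl).1 (hMH ▸ (h1 l hl).2) P w hP hlP hw
  obtain ⟨e, he⟩ := over_EvCfg hFM hq hw
  have h3 := he l
  rw [map_natCast, a1] at h3
  have h4 : (e : ℤ) = 1 := Int.eq_one_of_mul_eq_one_right (Int.natCast_nonneg e) h3.symm
  refine ⟨a2, fun τ hτ y hy => ?_⟩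
  have h5 := a3 τ hτ (IntermediateField.inclusion hFM y) ((map_ne_zero _).2 hy)
  rw [he, h4, one_mul] at h5
  exact h5

lemma gen_EvCfg {F : Type} [Field F] [NumberField F] (q : Pr F) :
    ∃ α : 𝓞 F, Ideal.span {α} = q.asIdeal ^ classNumber F := by
  have h0 : q.asIdeal ∈ nonZeroDivisors (Ideal (𝓞 F)) := mem_nonZeroDivisors_of_ne_zero q.ne_bot
  have h1 : ClassGroup.mk0 (⟨q.asIdeal, h0⟩ ^ classNumber F) = 1 := by
    rw [map_pow]
    exact pow_card_eq_one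
  obtain ⟨α, hα⟩ := (ClassGroup.mk0_eq_one_iff (pow_mem h0 (classNumber F))).1 h1
  exact ⟨α, hα.symm⟩

lemma stab_EvCfg {P : Ideal OQ} [P.IsMaximal] {l : ℕ} (hl : l.Prime) {σ : GQ}
    (h : IsFrob l P σ) : σ • P = P := by
  ext x
  rw [Ideal.mem_pointwise_smul_iff_inv_smul_mem]
  exact ⟨fun hx => by simpa using h.mem hl hx, h.inv_mem⟩

lemma max_EvCfg (P : Ideal OQ) [P.IsMaximal] (g : GQ) : (g • P).IsMaximal := by
  rw [Ideal.pointwise_smul_eq_comap]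
  exact Ideal.comap_isMaximal_of_equiv _

lemma le_EvCfg {p : ℕ} [Fact p.Prime] {F : IntermediateField ℚ Qb} [NumberField F] {c : Cfg F}
    (hc : c.Ok p) {Q : Ideal OQ} [Q.IsMaximal] (h : algebraMap (𝓞 F) OQ c.α ∈ Q) :
    c.P.under (𝓞 F) ≤ Q.under (𝓞 F) := by
  refine Ideal.IsPrime.le_of_pow_le (n := classNumber F) ?_
  rw [← hc.span, Ideal.span_singleton_le_iff_mem]
  exact h

lemma mem_EvCfg {p : ℕ} [Fact p.Prime] {F : IntermediateField ℚ Qb} [NumberField F] {c : Cfg F}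
    (hc : c.Ok p) {Q : Ideal OQ} [Q.IsMaximal] (h : algebraMap (𝓞 F) OQ c.α ∈ Q) :
    (c.l : OQ) ∈ Q := by
  have h1 : (c.l : 𝓞 F) ∈ c.P.under (𝓞 F) := by
    rw [Ideal.mem_comap, map_natCast]
    exact hc.mem
  have h2 := le_EvCfg hc h h1
  rwa [Ideal.mem_comap, map_natCast] at h2

lemma ne_EvCfg {p : ℕ} [Fact p.Prime] {F : IntermediateField ℚ Qb} [NumberField F] {c : Cfg F}
    (hc : c.Ok p) : c.α ≠ 0 := by
  have := hc.max
  obtain ⟨q, hq⟩ := prime_EvCfg F c.P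
  intro h0
  have h1 := hc.span
  rw [h0, ← hq, Ideal.span_singleton_zero] at h1
  exact pow_ne_zero _ q.ne_bot h1.symm

lemma move_EvCfg {F : IntermediateField ℚ Qb} [Normal ℚ F] {P : Ideal OQ} {g : GQ} {a : 𝓞 F}
    (h : res F g • a ∈ P.under (𝓞 F)) : algebraMap (𝓞 F) OQ a ∈ g⁻¹ • P := by
  rw [Ideal.mem_pointwise_smul_iff_inv_smul_mem, inv_inv, ← res_smul]
  exact h

lemma split_EvCfg {F : IntermediateField ℚ Qb} [IsGalois ℚ F] {P : Ideal OQ} [P.IsMaximal]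
    (hs : ∀ g : GQ, g • P = P → g ∈ F.fixingSubgroup) {g : GQ}
    (h : P.under (𝓞 F) ≤ (g • P).under (𝓞 F)) : res F g = 1 := by
  let _ : TopologicalSpace OQ := ⊥
  have : DiscreteTopology OQ := ⟨rfl⟩
  have := contSMul (Ω := Qb) (F := F)
  have := invariant_rel (Ω := Qb) (F := F)
  have := smulComm_rel (Ω := Qb) (F := F)
  have := max_EvCfg P g
  have hm : (P.under (𝓞 F)).IsMaximal := Ideal.isMaximal_comap_of_isIntegral_of_isMaximal P
  have h1 := hm.eq_of_le (Ideal.IsPrime.ne_top inferInstance) h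
  obtain ⟨u, hu⟩ := Algebra.IsInvariant.exists_smul_of_under_eq_of_profinite
    (A := 𝓞 F) (G := Qb ≃ₐ[F] Qb) (g • P) P h1.symm
  have h2 := hs (u.restrictScalars ℚ * g) (by
    rw [mul_smul]
    exact hu.symm)
  rw [res_eq_one]
  intro x hx
  have h3 : u (g x) = x := h2 ⟨x, hx⟩
  have h4 : u x = x := u.commutes ⟨x, hx⟩
  exact u.injective (h3.trans h4.symm)

theorem cfg_stmt (p : ℕ) [Fact p.Prime] (hK : KKStmt p) (hL : LocTStmt p) (hT : TrivStmt p) :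
    CfgStmt p := by
  intro F _ _ h2
  refine ⟨fun l hl P hP hlP σ hσ => ?_, fun c hc => ?_⟩
  · obtain ⟨q, hq⟩ := prime_EvCfg F P
    obtain ⟨⟨τ, hτ, h1⟩, -⟩ := val_EvCfg hL hT F h2 hl hlP hq
    obtain ⟨α, hα⟩ := gen_EvCfg q
    exact ⟨τ, α, hl, hP, hlP, hσ, hτ, h1, hq ▸ hα⟩
  have hP := hc.max
  have hs := ((hT F).1 c.l hc.triv).2 c.P hc.max hc.mem
  obtain ⟨q, hq⟩ := prime_EvCfg F c.P
  have hv := (val_EvCfg hL hT F h2 hc.triv hc.mem hq).2 c.τ hc.inert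
  have hz : ∀ a : 𝓞 F, a ∉ c.P.under (𝓞 F) → KK p (a : F) c.τ = 0 := by
    intro a ha
    have h0 : a ≠ 0 := fun e => ha (e ▸ zero_mem _)
    rw [hv a (by simpa using h0), (MP_14ad9d_nt.Full.ord_eq_zero_iff q h0).2 (hq ▸ ha)]
    simp
  refine ⟨hs _ (stab_EvCfg hc.triv.1 hc.frob), fun u hu => hs u (Ideal.inertia_le_stabilizer _ hu),
    ne_EvCfg hc, fun Q _ h => mem_EvCfg hc h, fun δ => ?_, fun e δ => ?_, fun c' hc' hne δ => ?_⟩
  · split_ifs with hδ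
    · subst hδ
      have h0 := ne_EvCfg hc
      rw [AlgEquiv.one_apply, hv c.α (by simpa using h0), hc.gen,
        MP_14ad9d_nt.Full.Sym2Aux.ord_int q h0, hc.span, ← hq,
        multiplicity_pow_self q.ne_bot q.prime.not_isUnit]
      simp
    · refine hz (δ • c.α) fun h => hδ ?_
      obtain ⟨g, rfl⟩ := AlgEquiv.restrictNormalHom_surjective Qb δ
      have := max_EvCfg c.P g⁻¹
      have h1 := split_EvCfg (fun u hu => (hs u hu).1) (le_EvCfg hc (move_EvCfg h))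
      rwa [map_inv, inv_eq_one] at h1
  · refine hz (δ • (e : 𝓞 F)) fun h => ?_
    rw [← hq] at h
    exact q.isPrime.ne_top (Ideal.eq_top_of_isUnit_mem _ h
      (e.isUnit.map (MulSemiringAction.toRingHom _ (𝓞 F) δ)))
  · refine hz (δ • c'.α) fun h => ?_
    obtain ⟨g, rfl⟩ := AlgEquiv.restrictNormalHom_surjective Qb δ
    have := max_EvCfg c.P g⁻¹
    have h1 := mem_EvCfg hc' (move_EvCfg h)
    rw [Ideal.mem_pointwise_smul_iff_inv_smul_mem, inv_inv] at h1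
    have h3 : g • (c'.l : OQ) = c'.l := map_natCast (MulSemiringAction.toRingHom GQ OQ g) _
    rw [h3] at h1
    exact not_mem_of_coprime hc.mem
      ((Nat.coprime_primes hc.triv.1 hc'.triv.1).2 hne.symm) h1

end Pool.Agent.MP_f68ac8_nt.Ev
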