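import Mathlib
import Pool.Agent.MP_f68ac8_nt.EvAlg

/-! Combining the finitely many types. -/

namespace Pool.Agent.MP_f68ac8_nt.Ev

open Matrix Finset

lemma stab_span_EvComb {k Δ V : Type} [Field k] [Group Δ] [AddCommGroup V] [Module k V]
    (Ad : Representation k Δ V) (X : ℕ → V) (j d : ℕ) :
    Stab Ad (Submodule.span k {Z | ∃ δ i, j ≤ i ∧ i < d ∧ Z = Ad δ (X i)}) := by
  intro δ A hA
  induction hA using Submodule.span_induction with
  | mem x hx =>
    obtain ⟨δ', i, h1, h2, rfl⟩ := hx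
    refine Submodule.subset_span ⟨δ * δ', i, h1, h2, ?_⟩
    simp [map_mul]
  | zero => simp
  | add x y _ _ hx hy => rw [map_add]; exact Submodule.add_mem _ hx hy
  | smul a x _ hx => rw [map_smul]; exact Submodule.smul_mem _ _ hx

lemma trace_nil_EvComb {k : Type} [Field k] {n : ℕ} (X : Mt n k) (h : X ^ n = 0) :
    X.trace = 0 :=
  (Matrix.isNilpotent_trace_of_isNilpotent ⟨n, h⟩).eq_zero

lemma trace_span_EvComb {k Δ : Type} [Field k] [Group Δ] {n : ℕ}
    (Ad : Representation k Δ (Mt n k)) (hAd : AdData Ad) (X : ℕ → Mt n k) (j d : ℕ)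
    (hn : ∀ i < d, X i ^ n = 0) (A : Mt n k)
    (hA : A ∈ Submodule.span k {Z | ∃ δ i, j ≤ i ∧ i < d ∧ Z = Ad δ (X i)}) : A.trace = 0 := by
  induction hA using Submodule.span_induction with
  | mem x hx =>
    obtain ⟨δ', i, -, h2, rfl⟩ := hx
    rw [hAd.tr]
    exact trace_nil_EvComb _ (hn i h2)
  | zero => simp
  | add x y _ _ hx hy => rw [Matrix.trace_add, hx, hy, add_zero]
  | smul a x _ hx => rw [Matrix.trace_smul, hx, smul_zero]

theorem alg_stmt (h5 : SubStmt) (hT : TypeStmt) : AlgStmt := by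
  intro n d
  obtain ⟨C, hC⟩ := hT n d
  refine ⟨C * (2 ^ d * (2 ^ (n * n)) ^ d), ?_⟩
  intro p _ hp k Δ A _ _ _ _ _ _ _ Ad μ hAd hΔ h1 h2
  classical
  have hpos : 0 < 2 ^ d * (2 ^ (n * n)) ^ d := by positivity
  have hCp : C < p := lt_of_le_of_lt (Nat.le_mul_of_pos_right C hpos) hp
  obtain ⟨⟨s, hs, hsW⟩, -, hinv⟩ := h5 k Δ n Ad hAd
  have hC' := hC p hCp k Δ A Ad μ hAd hΔ h1 h2
  let bx : (Fin d → Bool) → ℕ → Bool := fun b j => if h : j < d then b ⟨j, h⟩ else false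
  let Wx : (Fin d → s) → ℕ → Submodule k (Mt n k) := fun W j =>
    if h : j < d then (W ⟨j, h⟩ : Submodule k (Mt n k)) else ⊥
  have hst : ∀ W j, Stab Ad (Wx W j) := by
    intro W j
    by_cases h : j < d
    · simp only [Wx, dif_pos h]
      exact (hsW _).2 (W ⟨j, h⟩).2
    · simp only [Wx, dif_neg h]
      intro δ A hA
      rw [Submodule.mem_bot] at hA ⊢
      rw [hA, map_zero]
  let T := {τ : (Fin d → Bool) × (Fin d → s) //
    ∀ X ∈ Wx τ.2 0, (∀ δ, Ad δ X = X) → X = 0}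
  have hcard : Fintype.card T ≤ 2 ^ d * (2 ^ (n * n)) ^ d := by
    refine (Fintype.card_subtype_le _).trans ?_
    rw [Fintype.card_prod, Fintype.card_fun, Fintype.card_fun, Fintype.card_bool,
      Fintype.card_fin, Fintype.card_coe]
    exact Nat.mul_le_mul_left _ (Nat.pow_le_pow_left hs d)
  choose Safe hS0 hSd hSi using fun τ : T => hC' (bx τ.1.1) (Wx τ.1.2) (hst _) τ.2
  refine ⟨fun i st => ∀ τ, Safe τ i st, fun st τ => hS0 τ st, ?_, ?_⟩
  · rintro st hsafe ⟨X, Y, b, hn, hne, hY, hbr, hun⟩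
    have hd : 0 < d := by
      obtain ⟨j, hj, -⟩ := hne
      omega
    let W : Fin d → s := fun j =>
      ⟨Submodule.span k {Z | ∃ δ i, (j : ℕ) ≤ i ∧ i < d ∧ Z = Ad δ (X i)},
        (hsW _).1 (stab_span_EvComb Ad X j d)⟩
    have hW0 : ∀ Z ∈ Wx W 0, (∀ δ, Ad δ Z = Z) → Z = 0 := by
      intro Z hZ hfix
      simp only [Wx, dif_pos hd, W] at hZ
      exact hinv Z hfix (trace_span_EvComb Ad hAd X 0 d hn Z hZ)
    refine hSd ⟨(fun j => b j, W), hW0⟩ st (hsafe _) ⟨X, Y, hn, hne, hY, ?_, hun, ?_⟩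
    · intro j hj
      simp only [bx, dif_pos hj]
      exact hbr j hj
    · intro j hj
      simp only [Wx, dif_pos hj, W]
  · intro i hi st hsafe
    choose Z hZ1 hZ2 hZ3 using fun τ => hSi τ i hi st (hsafe τ)
    refine ⟨⋃ τ, Z τ, ?_, ?_, ?_⟩
    · calc (⋃ τ, Z τ).ncard * p ≤ (∑ τ, (Z τ).ncard) * p :=
            Nat.mul_le_mul_right _ (Set.ncard_iUnion_le_of_fintype Z)
        _ = ∑ τ, (Z τ).ncard * p := Finset.sum_mul _ _ _
        _ ≤ ∑ _τ : T, C * p ^ Fintype.card (A ⊕ (Fin i × Δ)) :=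
            Finset.sum_le_sum fun τ _ => hZ1 τ
        _ = Fintype.card T * (C * p ^ Fintype.card (A ⊕ (Fin i × Δ))) := by
            rw [Finset.sum_const, Finset.card_univ, smul_eq_mul]
        _ ≤ (2 ^ d * (2 ^ (n * n)) ^ d) * (C * p ^ Fintype.card (A ⊕ (Fin i × Δ))) :=
            Nat.mul_le_mul_right _ hcard
        _ = _ := by ring
    · intro t ht v hv
      obtain ⟨τ, hτ⟩ := Set.mem_iUnion.1 hv
      exact Set.mem_iUnion.2 ⟨τ, hZ2 τ t ht v hτ⟩
    · intro s' hag hs' τ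
      exact hZ3 τ s' hag fun h => hs' (Set.mem_iUnion.2 ⟨τ, h⟩)

end Pool.Agent.MP_f68ac8_nt.Ev
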