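import Mathlib
import Pool.Agent.MP_f68ac8_nt.EvAux

/-! Independence of the Kummer characters of units and of generators of prime powers. -/

namespace Pool.Agent.MP_f68ac8_nt.Ev

open NumberField
open scoped Topology

section
variable {p : ℕ} [hp : Fact p.Prime] {F : IntermediateField ℚ Qb}

lemma fix_EvDat {g : GQ} (hg : g ∈ HH p F) (y : F) : g (y : Qb) = y :=
  (IntermediateField.mem_fixingSubgroup_iff F g).mp hg.1 y y.2

omit hp in
lemma ne_EvDat {y : F} (hy : y ≠ 0) : (y : Qb) ≠ 0 := by simpa using hy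

lemma cyc_EvDat {g : GQ} (hg : g ∈ HH p F) : cyc p g = 1 := hg.2

lemma conj_apply_EvDat [Normal ℚ F] (s : GQ) (y : F) :
    s⁻¹ (y : Qb) = (((res F s)⁻¹ y : F) : Qb) := by
  rw [← map_inv]
  exact (AlgEquiv.restrictNormal_commutes s⁻¹ F y).symm

lemma conj_mem_EvDat [Normal ℚ F] (s : GQ) {g : GQ} (hg : g ∈ HH p F) :
    s * g * s⁻¹ ∈ HH p F := by
  refine ⟨(IntermediateField.mem_fixingSubgroup_iff F _).mpr fun x hx => ?_, ?_⟩
  · rw [AlgEquiv.mul_apply, AlgEquiv.mul_apply, conj_apply_EvDat s (⟨x, hx⟩ : F), fix_EvDat hg,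
      ← conj_apply_EvDat s (⟨x, hx⟩ : F), ← AlgEquiv.mul_apply, mul_inv_cancel, AlgEquiv.one_apply]
  · have := cyc_EvDat hg
    simp [this]

lemma conj_KK_EvDat (hK : KKStmt p) [Normal ℚ F] (s : GQ) {g : GQ} (hg : g ∈ HH p F) (y : F)
    (hy : y ≠ 0) :
    KK p (y : Qb) (s * g * s⁻¹) = cyc p s * KK p (((res F s)⁻¹ y : F) : Qb) g := by
  rw [hK.2.2.2.2.1 (y : Qb) s g (by simpa using hy) (by rw [conj_apply_EvDat, fix_EvDat hg])
    (cyc_EvDat hg), conj_apply_EvDat]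

lemma prod_KK_EvDat (hK : KKStmt p) {A : Type} [DecidableEq A] (u : A → F) (hu : ∀ a, u a ≠ 0)
    (e : A → ZMod p) {g : GQ} (hg : g ∈ HH p F) (s : Finset A) :
    KK p ((∏ a ∈ s, u a ^ (e a).val : F) : Qb) g = ∑ a ∈ s, e a * KK p (u a : Qb) g := by
  induction s using Finset.induction_on with
  | empty =>
    have := hK.2.2.1 1 0 g one_ne_zero (map_one g) (cyc_EvDat hg)
    simpa using this
  | insert i s hi ih =>
    rw [Finset.prod_insert hi, Finset.sum_insert hi, ← ih]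
    have h0 : (∏ a ∈ s, u a ^ (e a).val : F) ≠ 0 :=
      Finset.prod_ne_zero_iff.mpr fun a _ => pow_ne_zero _ (hu a)
    have h1 := hK.2.1 ((u i ^ (e i).val : F) : Qb) ((∏ a ∈ s, u a ^ (e a).val : F) : Qb) g
      (ne_EvDat (pow_ne_zero _ (hu i))) (ne_EvDat h0) (fix_EvDat hg _) (fix_EvDat hg _)
      (cyc_EvDat hg)
    have h2 := hK.2.2.1 (u i : Qb) ((e i).val : ℤ) g (by simpa using hu i) (fix_EvDat hg _)
      (cyc_EvDat hg)
    rw [zpow_natCast] at h2
    rw [IntermediateField.coe_mul, h1, IntermediateField.coe_pow, h2]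
    simp

/-- an element whose Kummer character is trivial has a power of order prime to `p` which is
a `p`-th power in `F` -/
lemma pow_of_KK_EvDat (hK : KKStmt p) (y : F) (hy : y ≠ 0)
    (h : ∀ g ∈ HH p F, KK p (y : Qb) g = 0) : ∃ (m : ℕ) (z : F), ¬ p ∣ m ∧ y ^ m = z ^ p := by
  classical
  have hy' : (y : Qb) ≠ 0 := by simpa using hy
  have h2 : ∀ g ∈ HH p F, g (proot p (y : Qb)) = proot p (y : Qb) := fun g hg =>
    (hK.2.2.2.2.2.1 _ g hy' (fix_EvDat hg y)).mp (h g hg)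
  let Γ : Subgroup (ZMod p)ˣ := F.fixingSubgroup.map (cyc (Ω := Qb) p)
  have hs : ∀ γ : Γ, ∃ g ∈ F.fixingSubgroup, cyc (Ω := Qb) p g = γ := fun γ => γ.2
  choose s hs1 hs2 using hs
  have h3 : ∀ g ∈ F.fixingSubgroup,
      g (∏ γ : Γ, s γ (proot p (y : Qb))) = ∏ γ : Γ, s γ (proot p (y : Qb)) := fun g hg => by
    rw [map_prod]
    let γ0 : Γ := ⟨cyc p g, g, hg, rfl⟩
    refine Fintype.prod_equiv (Equiv.mulLeft γ0) _ _ fun u => ?_
    have := h2 ((s (γ0 * u))⁻¹ * g * s u) ⟨F.fixingSubgroup.mul_mem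
      (F.fixingSubgroup.mul_mem (F.fixingSubgroup.inv_mem (hs1 _)) hg) (hs1 _), by
      simp [hs2, γ0, mul_assoc]⟩
    exact (AlgEquiv.symm_apply_eq _).mp this
  have h4 : (∏ γ : Γ, s γ (proot p (y : Qb))) ∈ F :=
    (InfiniteGalois.fixedField_fixingSubgroup F).le fun g => h3 g g.2
  refine ⟨Fintype.card Γ, ⟨_, h4⟩, fun hd => ?_, ?_⟩
  · have h5 : Fintype.card Γ ≤ Fintype.card (ZMod p)ˣ :=
      Fintype.card_le_of_injective _ Subtype.val_injective
    rw [ZMod.card_units p] at h5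
    have h6 := Nat.le_of_dvd Fintype.card_pos hd
    have := hp.out.pos
    omega
  · apply Subtype.ext
    rw [IntermediateField.coe_pow, IntermediateField.coe_pow, ← Finset.prod_pow]
    have : ∀ γ : Γ, s γ (proot p (y : Qb)) ^ p = y := fun γ => by
      rw [← map_pow, proot_pow]
      exact (IntermediateField.mem_fixingSubgroup_iff F _).mp (hs1 γ) y y.2
    simp [this]

end

theorem dat_stmt (p : ℕ) [Fact p.Prime] (hK : KKStmt p) (hC : CfgStmt p) : DatStmt p := by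
  classical
  intro F _ _ hp2 hh A _ _ ε μ U J _ c hc hinj
  have hC2 := (hC F hp2).2
  let el : A ⊕ (J × (F ≃ₐ[ℚ] F)) → F :=
    Sum.elim (fun a => ((ε a : 𝓞 F) : F)) fun x => x.2⁻¹ (c x.1).α
  have hu : ∀ a, ((ε a : 𝓞 F) : F) ≠ 0 := fun a => by simp
  have hel : ∀ x, el x ≠ 0 := by
    rintro (a | x)
    · exact hu a
    · have := (hC2 _ (hc x.1)).2.2.1
      simpa [el] using this
  have hel' : ∀ x, (el x : Qb) ≠ 0 := fun x => by simpa using hel x
  have hdat : ∀ g x, datum p ε c g x = KK p (el x : Qb) g := by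
    rintro g (a | x) <;> rfl
  have hadd : ∀ g ∈ HH p F, ∀ h ∈ HH p F,
      datum p ε c (g * h) = datum p ε c g + datum p ε c h := fun g hg h hh => by
    funext x
    rw [Pi.add_apply, hdat, hdat, hdat]
    exact hK.2.2.2.1 _ g h (hel' x) (fix_EvDat hg _) (fix_EvDat hh _) (cyc_EvDat hg)
  refine ⟨hadd, ?_, fun v => ?_⟩
  · have : ∀ᶠ g in 𝓝 (1 : GQ), ∀ x, KK p (el x : Qb) g = 0 :=
      Filter.eventually_all.mpr fun x => hK.2.2.2.2.2.2.1 _ (hel' x)
    filter_upwards [this] with g hg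
    funext x
    rw [hdat, hg x, Pi.zero_apply]
  have d1 : datum p ε c 1 = 0 := by simpa using hadd 1 (one_mem _) 1 (one_mem _)
  let W₀ : AddSubgroup (A ⊕ (J × (F ≃ₐ[ℚ] F)) → ZMod p) :=
    { carrier := {v | ∃ g ∈ HH p F, datum p ε c g = v}
      zero_mem' := ⟨1, one_mem _, d1⟩
      add_mem' := by
        rintro _ _ ⟨g, hg, rfl⟩ ⟨h, hh, rfl⟩
        exact ⟨g * h, mul_mem hg hh, hadd g hg h hh⟩
      neg_mem' := by
        rintro _ ⟨g, hg, rfl⟩
        exact ⟨g⁻¹, inv_mem hg, eq_neg_of_add_eq_zero_left (by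
          rw [← hadd _ (inv_mem hg) _ hg, inv_mul_cancel, d1])⟩ }
  by_contra hn
  obtain ⟨f, f0, hf⟩ := (AddSubgroup.toZModSubmodule p W₀).exists_le_ker_of_lt_top
    (lt_top_iff_ne_top.mpr fun e => hn (show v ∈ AddSubgroup.toZModSubmodule p W₀ from
      e ▸ Submodule.mem_top))
  let e : A ⊕ (J × (F ≃ₐ[ℚ] F)) → ZMod p := fun x => f (Pi.single x 1)
  have hd : ∀ w : A ⊕ (J × (F ≃ₐ[ℚ] F)) → ZMod p, f w = ∑ x, e x * w x := by
    intro w
    simp only [e, mul_comm (f _), ← smul_eq_mul, ← map_smul, ← map_sum]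
    congr 1
    ext x
    simp [Pi.single_apply]
  have h0 : ∀ g ∈ HH p F, ∑ x, e x * KK p (el x : Qb) g = 0 := fun g hg => by
    have : f (datum p ε c g) = 0 := hf ⟨g, hg, rfl⟩
    rw [hd] at this
    simpa only [hdat] using this
  have h1 : ∀ x : J × (F ≃ₐ[ℚ] F), e (Sum.inr x) = 0 := by
    rintro ⟨j, δ⟩
    obtain ⟨s, hs⟩ : ∃ s : GQ, res F s = δ⁻¹ := AlgEquiv.restrictNormalHom_surjective Qb δ⁻¹
    obtain ⟨-, c2, -, -, c5, c6, c7⟩ := hC2 _ (hc j)
    have hτ : (c j).τ ∈ HH p F := c2 (hc j).inert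
    have h2 := h0 _ (conj_mem_EvDat s hτ)
    simp only [conj_KK_EvDat hK s hτ _ (hel _), hs, inv_inv] at h2
    rw [Finset.sum_eq_single (Sum.inr (j, δ))] at h2
    · have h3 := c5 (δ * δ⁻¹)
      rw [if_pos (mul_inv_cancel δ)] at h3
      have h4 : KK p ((δ (el (Sum.inr (j, δ))) : F) : Qb) (c j).τ = classNumber F := h3
      rw [h4] at h2
      have h5 : (classNumber F : ZMod p) ≠ 0 := by
        rwa [Ne, ZMod.natCast_eq_zero_iff]
      simpa [h5] using h2
    · rintro (a | ⟨j', δ'⟩) - hne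
      · have h4 : KK p ((δ (el (Sum.inl a)) : F) : Qb) (c j).τ = 0 := c6 (ε a) δ
        rw [h4, mul_zero, mul_zero]
      · have h4 : KK p ((δ (el (Sum.inr (j', δ'))) : F) : Qb) (c j).τ = 0 := by
          by_cases hj : j' = j
          · subst hj
            have h3 := c5 (δ * δ'⁻¹)
            rw [if_neg (fun e => hne (by rw [mul_inv_eq_one.mp e]))] at h3
            exact h3
          · exact c7 (c j') (hc j') (hinj.ne hj) (δ * δ'⁻¹)
        rw [h4, mul_zero, mul_zero]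
    · simp
  have h2 : ∀ a, e (Sum.inl a) = 0 := by
    obtain ⟨m, z, hm, hz⟩ := pow_of_KK_EvDat hK
      (∏ a, ((ε a : 𝓞 F) : F) ^ (e (Sum.inl a)).val)
      (Finset.prod_ne_zero_iff.mpr fun a _ => pow_ne_zero _ (hu a)) fun g hg => by
        rw [prod_KK_EvDat hK _ hu _ hg]
        have := h0 g hg
        rw [Fintype.sum_sum_type] at this
        simpa [h1, el] using this
    intro a
    have hpp : p.Prime := Fact.out
    have h3 := U.ind p (fun a => (((e (Sum.inl a)).val * m : ℕ) : ℤ)) z hpp.ne_zero (by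
      rw [← hz, ← Finset.prod_pow]
      simp only [zpow_natCast, pow_mul]) a
    rw [Int.natCast_dvd_natCast] at h3
    have h4 := (hpp.dvd_mul.mp h3).resolve_right hm
    rw [← ZMod.natCast_eq_zero_iff] at h4
    simpa using h4
  refine f0 (LinearMap.ext fun w => ?_)
  rw [hd, Fintype.sum_sum_type]
  simp [h1, h2]

end Pool.Agent.MP_f68ac8_nt.Ev
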