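import Mathlib
import Pool.Agent.MP_f68ac8_nt.EvAlg
import Pool.Agent.MP_f68ac8_nt.Der

/-! Derivations from algebraic independence over the past. -/

namespace Pool.Agent.MP_f68ac8_nt.Ev

lemma exists_der_EvDer {F σ : Type} [Field F] [CharZero F] (A : Subring F) {m : σ → F}
    (hm : AlgebraicIndependent A m) (δ : σ → F) :
    ∃ D : Derivation ℤ F F, (∀ a ∈ A, D a = 0) ∧ ∀ s, D (m s) = δ s := by
  let R := MvPolynomial σ A
  letI : Algebra R F := (MvPolynomial.aeval m : R →ₐ[A] F).toRingHom.toAlgebra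
  haveI : FaithfulSMul R F := (faithfulSMul_iff_algebraMap_injective R F).mpr hm
  let K := FractionRing R
  letI : Algebra K F := FractionRing.liftAlgebra R F
  haveI : IsScalarTower R K F := FractionRing.isScalarTower_liftAlgebra R F
  haveI : CharZero K := RingHom.charZero (algebraMap K F)
  haveI : Algebra.FormallySmooth K F := by
    obtain ⟨s, hs⟩ := exists_isTranscendenceBasis K F
    haveI := hs.isAlgebraic_field
    exact .of_algebraicIndependent_of_isSeparable hs.1
  haveI : Algebra.FormallySmooth R F := .comp R K F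
  let B := TrivSqZeroExt F F
  letI : Algebra R B := (MvPolynomial.aeval (fun s => (⟨m s, δ s⟩ : B)) :
    R →ₐ[A] B).toRingHom.toAlgebra
  let g : B →ₐ[R] F :=
    { (TrivSqZeroExt.fstHom A F F).toRingHom with
      commutes' := fun r => MvPolynomial.comp_aeval_apply _ (TrivSqZeroExt.fstHom A F F) r }
  have hg : Function.Surjective g := fun a => ⟨TrivSqZeroExt.inl a, rfl⟩
  have hg' : IsNilpotent (RingHom.ker (g : B →+* F)) := by
    refine ⟨2, ?_⟩
    rw [Submodule.pow_succ, Submodule.pow_one, Ideal.zero_eq_bot, eq_bot_iff, Ideal.mul_le]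
    intro a ha b hb
    have ha' : a.fst = 0 := ha
    have hb' : b.fst = 0 := hb
    rw [Ideal.mem_bot]
    refine TrivSqZeroExt.ext ?_ ?_
    · rw [TrivSqZeroExt.fst_mul, ha', zero_mul]
      rfl
    · rw [TrivSqZeroExt.snd_mul, ha', hb']
      simp
  let φ := Algebra.FormallySmooth.liftOfSurjective (AlgHom.id R F) g hg hg'
  have hφ : ∀ a, (φ a).fst = a := Algebra.FormallySmooth.liftOfSurjective_apply _ g hg hg'
  let D₀ : F →+ F := AddMonoidHom.mk' (fun a => (φ a).snd) fun a b => by
    rw [map_add, TrivSqZeroExt.snd_add]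
  refine ⟨Derivation.mk' D₀.toIntLinearMap fun a b => ?_, fun a ha => ?_, fun s => ?_⟩
  · change (φ (a * b)).snd = a * (φ b).snd + b * (φ a).snd
    rw [map_mul, TrivSqZeroExt.snd_mul, hφ, hφ]
    simp [mul_comm]
  · change (φ a).snd = _
    have h1 : a = algebraMap R F (MvPolynomial.C ⟨a, ha⟩) :=
      (MvPolynomial.aeval_C m (⟨a, ha⟩ : A)).symm
    have h2 : algebraMap R B (MvPolynomial.C ⟨a, ha⟩) = _ := MvPolynomial.aeval_C _ _
    rw [h1, φ.commutes, h2]
    rfl
  · change (φ (m s)).snd = _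
    have h1 : m s = algebraMap R F (MvPolynomial.X s) := (MvPolynomial.aeval_X m s).symm
    have h2 : algebraMap R B (MvPolynomial.X s) = _ := MvPolynomial.aeval_X _ s
    rw [h1, φ.commutes, h2]
    rfl

theorem der_stmt : DerStmt := by
  intro ρ β Ω _ _ d x y h i hi δ
  have hx : ∀ {l j : ℕ}, j < l → ∀ a, x j a ∈ Subring.closure (past x y l) := fun hj a =>
    Subring.subset_closure (Or.inl ⟨_, hj, a, rfl⟩)
  have hy : ∀ {l j : ℕ}, j ≤ l → ∀ b, y j b ∈ Subring.closure (past x y l) := fun hj b =>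
    Subring.subset_closure (Or.inr ⟨_, hj, b, rfl⟩)
  have key : ∀ l, i + 1 ≤ l → l ≤ d → ∃ D : Derivation ℤ Ω Ω, (∀ j ≤ i, ∀ b, D (y j b) = 0) ∧
      (∀ a, D (x i a) = δ a) ∧ ∀ j < l, j ≠ i → ∀ a, D (x j a) = 0 := by
    intro l hl
    induction l, hl using Nat.le_induction with
    | base =>
      intro _
      obtain ⟨D, h1, h2⟩ := exists_der_EvDer _ (h i hi) δ
      exact ⟨D, fun j hj b => h1 _ (hy hj b), h2, fun j hj hne a => h1 _ (hx (by omega) a)⟩
    | succ l hl ih =>
      intro hld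
      obtain ⟨D, h1, h2, h3⟩ := ih (by omega)
      obtain ⟨D', h4, h5⟩ := exists_der_EvDer _ (h l (by omega)) fun a => D (x l a)
      refine ⟨D - D', fun j hj b => ?_, fun a => ?_, fun j hj hne a => ?_⟩
      · rw [Derivation.sub_apply, h1 j hj, h4 _ (hy (by omega) b), sub_zero]
      · rw [Derivation.sub_apply, h2, h4 _ (hx (by omega) a), sub_zero]
      · rw [Derivation.sub_apply]
        rcases Nat.lt_succ_iff_lt_or_eq.1 hj with hj | rfl
        · rw [h3 j hj hne, h4 _ (hx hj a), sub_zero]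
        · rw [h5, sub_self]
  exact key d hi le_rfl

end Pool.Agent.MP_f68ac8_nt.Ev
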