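import Mathlib
import Pool.Agent.MP_f68ac8_nt.EvAlg

/-! Uniform degree bounds for the game, by iterated ultraproducts. -/

namespace Pool.Agent.MP_f68ac8_nt.Ev

open MvPolynomial Filter

theorem mono_EvGame {Ω ι : Type} [Field Ω] {A B : Subring Ω} (h : A ≤ B) {x : ι → Ω}
    (hx : AlgebraicIndependent B x) : AlgebraicIndependent A x :=
  AlgebraicIndependent.of_ringHom_of_comp_eq (Subring.inclusion h) (RingHom.id Ω) hx
    (Subring.inclusion_injective h) rfl

/-- An ultrafilter on the pairs of an index and a polynomial. -/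
theorem ultra_EvGame {σ α : Type} (𝒰 : Ultrafilter α) (K : α → Type) [∀ a, Field (K a)]
    (D : α → ℕ) (hD : Tendsto D 𝒰 atTop)
    (z : ∀ a : (Σ a, {Q : MvPolynomial σ (K a) // Q ≠ 0 ∧ Q.totalDegree ≤ D a}), σ → K a.1)
    (hz : ∀ a, eval (z a) a.2.1 ≠ 0) :
    ∃ 𝒱 : Ultrafilter (Σ a, {Q : MvPolynomial σ (K a) // Q ≠ 0 ∧ Q.totalDegree ≤ D a}),
      Tendsto Sigma.fst 𝒱.toFilter 𝒰.toFilter ∧ ∀ P : MvPolynomial σ (∀ a, K a),
        (∀ᶠ a in 𝒰, map (Pi.evalRingHom K a) P ≠ 0) →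
          ∀ᶠ a in 𝒱, eval (z a) (map (Pi.evalRingHom K a.1) P) ≠ 0 := by
  let F : Filter (Σ a, {Q : MvPolynomial σ (K a) // Q ≠ 0 ∧ Q.totalDegree ≤ D a}) :=
    { sets := {U | ∃ s ∈ 𝒰, ∃ P : MvPolynomial σ (∀ a, K a),
        (∀ᶠ a in 𝒰, map (Pi.evalRingHom K a) P ≠ 0) ∧
          ∀ a, a.1 ∈ s → eval (z a) (map (Pi.evalRingHom K a.1) P) ≠ 0 → a ∈ U}
      univ_sets := ⟨Set.univ, univ_mem, 1, Eventually.of_forall fun _ => by simp,
        fun _ _ _ => trivial⟩
      sets_of_superset := by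
        rintro U V ⟨s, hs, P, hP, h⟩ hUV
        exact ⟨s, hs, P, hP, fun a h1 h2 => hUV (h a h1 h2)⟩
      inter_sets := by
        rintro U V ⟨s, hs, P, hP, h⟩ ⟨s', hs', P', hP', h'⟩
        refine ⟨s ∩ s', inter_mem hs hs', P * P', ?_, fun a h1 h2 => ?_⟩
        · filter_upwards [hP, hP'] with a h1 h2
          rw [map_mul]
          exact mul_ne_zero h1 h2
        · rw [map_mul, map_mul, mul_ne_zero_iff] at h2
          exact ⟨h a h1.1 h2.1, h' a h1.2 h2.2⟩ }
  have : F.NeBot := forall_mem_nonempty_iff_neBot.1 (by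
    rintro U ⟨s, hs, P, hP, h⟩
    obtain ⟨a, e1, e2, e3⟩ := (Eventually.and hs (Eventually.and hP
      (hD.eventually (eventually_ge_atTop P.totalDegree)))).exists
    exact ⟨⟨a, _, e2, (Finset.sup_mono (support_map_subset _ _)).trans e3⟩, h _ e1 (hz _)⟩)
  refine ⟨Ultrafilter.of F, fun s hs => Ultrafilter.of_le F ?_, fun P hP => Ultrafilter.of_le F ?_⟩
  · exact ⟨s, hs, 1, Eventually.of_forall fun _ => by simp, fun a h _ => h⟩
  · exact ⟨Set.univ, univ_mem, P, hP, fun a _ h => h⟩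

theorem key_EvGame {ρ : ℕ → Type} {β : Type}
    (Sol : ∀ (R : Type) [CommRing R], (∀ i, ρ i → R) → (ℕ → β → R) → Prop)
    (hmap : ∀ (R S : Type) [CommRing R] [CommRing S] (φ : R →+* S) x y, Sol R x y →
      Sol S (fun i a => φ (x i a)) fun i b => φ (y i b))
    (hpi : ∀ (α : Type) (K : α → Type) [∀ c, CommRing (K c)] (x : ∀ i, ρ i → ∀ c, K c)
      (y : ℕ → β → ∀ c, K c), (∀ c, Sol (K c) (fun i a => x i a c) fun i b => y i b c) →
        Sol (∀ c, K c) x y) (l : ℕ) :
    ∀ (i : ℕ) (α : Type) (𝒰 : Ultrafilter α) (K : α → Type) [∀ a, Field (K a)] (D : α → ℕ),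
      Tendsto D 𝒰 atTop → ∀ (x : ∀ a, ∀ i, ρ i → K a) (y : ∀ a, ℕ → β → K a),
      (∀ a, Lose (Sol (K a)) (D a) l i (x a) (y a)) →
      ∃ (Ω : Type) (_ : Field Ω) (f : (∀ a, K a) →+* Ω) (x' : ∀ i, ρ i → Ω) (y' : ℕ → β → Ω),
        (∀ b, f b = 0 ↔ ∀ᶠ a in 𝒰, b a = 0) ∧ (∀ j < i, ∀ c, x' j c = f fun a => x a j c) ∧
        (∀ j ≤ i, ∀ c, y' j c = f fun a => y a j c) ∧ Sol Ω x' y' ∧
        ∀ i', i ≤ i' → i' < i + l →
          AlgebraicIndependent (Subring.closure (Set.range f ∪ past x' y' i')) (x' i') := by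
  induction l with
  | zero =>
    intro i α 𝒰 K _ D _ x y hL
    let I : Ideal (∀ a, K a) :=
      { carrier := {b | ∀ᶠ a in 𝒰, b a = 0}
        add_mem' := fun {a b} ha hb => by
          filter_upwards [ha, hb] with c h1 h2
          simp [h1, h2]
        zero_mem' := Eventually.of_forall fun _ => rfl
        smul_mem' := fun c b hb => by
          filter_upwards [hb] with a h1
          change c _ * b _ = 0
          rw [h1, mul_zero] }
    have : I.IsPrime := by
      refine ⟨(Ideal.ne_top_iff_one I).2 fun h => ?_, fun {a b} h => ?_⟩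
      · obtain ⟨a, ha⟩ := Eventually.exists (f := (𝒰 : Filter α)) h
        exact one_ne_zero ha
      · refine Ultrafilter.eventually_or.1 ?_
        filter_upwards [h] with c hc
        exact mul_eq_zero.1 hc
    refine ⟨I.ResidueField, inferInstance, algebraMap _ _, _, _,
      fun b => Ideal.algebraMap_residueField_eq_zero, fun _ _ _ => rfl, fun _ _ _ => rfl,
      hmap _ _ _ (fun j c a => x a j c) (fun j c a => y a j c) (hpi α K _ _ hL),
      fun i' h1 h2 => by omega⟩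
  | succ l ih =>
    intro i α 𝒰 K _ D hD x y hL
    choose x'' y'' h1 h2 h3 h4 using
      fun a : (Σ a, {Q : MvPolynomial (ρ i) (K a) // Q ≠ 0 ∧ Q.totalDegree ≤ D a}) =>
        hL a.1 a.2.1 a.2.2.1 a.2.2.2
    obtain ⟨𝒱, hV, hP⟩ := ultra_EvGame 𝒰 K D hD (fun a => x'' a i) h3
    obtain ⟨Ω, _, f', x', y', e0, e1, e2, e3, e4⟩ :=
      ih (i + 1) _ 𝒱 (fun a => K a.1) (fun a => D a.1) (hD.comp hV) x'' y'' h4
    let g : (∀ a, K a) →+* ∀ a : (Σ a, {Q : MvPolynomial (ρ i) (K a) //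
      Q ≠ 0 ∧ Q.totalDegree ≤ D a}), K a.1 := RingHom.pi fun a => Pi.evalRingHom K a.1
    have hf : ∀ b, f'.comp g b = 0 ↔ ∀ᶠ a in 𝒰, b a = 0 := by
      intro b
      rw [RingHom.comp_apply, e0]
      refine ⟨fun h => ?_, fun h => hV.eventually h⟩
      by_contra hn
      obtain ⟨a, a1, a2⟩ := (h.and (hV.eventually (Ultrafilter.eventually_not.2 hn))).exists
      exact a2 a1
    have hx : ∀ j < i, ∀ c, x' j c = f'.comp g fun a => x a j c := by
      intro j hj c
      rw [e1 j (by omega), RingHom.comp_apply]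
      exact congrArg f' (funext fun a => congrFun (h1 a j hj) c)
    have hy : ∀ j ≤ i, ∀ c, y' j c = f'.comp g fun a => y a j c := by
      intro j hj c
      rw [e2 j (by omega), RingHom.comp_apply]
      exact congrArg f' (funext fun a => congrFun (h2 a j hj) c)
    refine ⟨Ω, inferInstance, f'.comp g, x', y', hf, hx, hy, e3, fun i' a1 a2 => ?_⟩
    rcases a1.eq_or_lt with rfl | a1
    · refine mono_EvGame (B := (f'.comp g).range) (Subring.closure_le.2 ?_) ?_
      · rintro _ (⟨b, rfl⟩ | ⟨j, hj, c, rfl⟩ | ⟨j, hj, c, rfl⟩)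
        · exact ⟨b, rfl⟩
        · exact ⟨_, (hx j hj c).symm⟩
        · exact ⟨_, (hy j hj c).symm⟩
      rw [algebraicIndependent_iff]
      intro P hP0
      obtain ⟨P, rfl⟩ := map_surjective _ (f'.comp g).rangeRestrict_surjective P
      have b1 : f' (eval₂Hom g (fun c a => x'' a i c) P) = 0 := by
        rw [← hP0, map_eval₂Hom, aeval_def, eval₂_map, ← coe_eval₂Hom]
        congr 2
        funext c
        exact (e1 i (by omega) c).symm
      have b2 : ¬ ∀ᶠ a in 𝒰, map (Pi.evalRingHom K a) P ≠ 0 := by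
        intro h
        obtain ⟨a, c1, c2⟩ := (((e0 _).1 b1).and (hP P h)).exists
        refine c2 (Eq.trans ?_ c1)
        rw [eval_map, ← coe_eval₂Hom]
        exact (map_eval₂Hom g (fun c a => x'' a i c) (Pi.evalRingHom (fun a : (Σ a,
          {Q : MvPolynomial (ρ i) (K a) // Q ≠ 0 ∧ Q.totalDegree ≤ D a}) => K a.1) a) P).symm
      ext s
      rw [coeff_map]
      refine (hf (coeff s P)).2 ?_
      filter_upwards [Ultrafilter.eventually_not.2 b2] with a e
      have := congrArg (coeff s) (not_not.1 e)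
      rwa [coeff_map] at this
    · refine mono_EvGame (Subring.closure_mono (Set.union_subset_union_left _ ?_))
        (e4 i' a1 (by omega))
      rintro _ ⟨b, rfl⟩
      exact ⟨g b, rfl⟩

theorem game_stmt : GameStmt := by
  intro ρ _ β d Sol hmap hpi hgen
  by_contra hn
  push Not at hn
  choose K _ hK x y hL using hn
  obtain ⟨Ω, _, f, x', y', e0, -, -, e3, e4⟩ := key_EvGame Sol hmap hpi d 0 ℕ (hyperfilter ℕ) K id
    Nat.hyperfilter_le_atTop x y hL
  have : CharZero Ω := charZero_of_inj_zero fun n hn => by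
    by_contra h0
    rw [← map_natCast f, e0] at hn
    obtain ⟨a, a1, a2⟩ :=
      (hn.and (Nat.hyperfilter_le_atTop (eventually_ge_atTop n))).exists
    exact hK a n (Nat.pos_of_ne_zero h0) a2 a1
  exact hgen Ω x' y' (fun i hi => mono_EvGame (Subring.closure_mono Set.subset_union_right)
    (e4 i (Nat.zero_le _) (by omega))) e3

end Pool.Agent.MP_f68ac8_nt.Ev
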