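import Mathlib

/-! Linear algebra for the generic case: dimension counts. -/

namespace Pool.Agent.MP_f68ac8_nt.Ev

open Module Finset

variable {k : Type} [Field k]

lemma rk_map_EvGen {V U : Type} [AddCommGroup V] [Module k V] [FiniteDimensional k V]
    [AddCommGroup U] [Module k U] (f : V →ₗ[k] U) (A : Submodule k V) :
    finrank k (A.map f) + finrank k ↥(A ⊓ LinearMap.ker f) = finrank k A := by
  have h := (f.domRestrict A).finrank_range_add_finrank_ker
  rw [LinearMap.range_domRestrict, LinearMap.ker_domRestrict] at h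
  have e := Submodule.comapSubtypeEquivOfLe (inf_le_left : A ⊓ LinearMap.ker f ≤ A)
  have h' : (A ⊓ LinearMap.ker f).comap A.subtype = (LinearMap.ker f).comap A.subtype := by
    ext v
    simp
  rw [← h, ← e.finrank_eq, h']

lemma rk_step_EvGen {V U : Type} [AddCommGroup V] [Module k V] [FiniteDimensional k V]
    [AddCommGroup U] [Module k U] [FiniteDimensional k U] (f : V →ₗ[k] U) {A B : Submodule k V}
    (hAB : A ≤ B) {C C' : Submodule k U} (hC : C ≤ B.map f) (hC' : A.map f ≤ C') :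
    finrank k A + finrank k C ≤ finrank k B + finrank k C' := by
  have h1 := rk_map_EvGen f A
  have h2 := rk_map_EvGen f B
  have h3 := Submodule.finrank_mono hC
  have h4 := Submodule.finrank_mono hC'
  have h5 := Submodule.finrank_mono
    (inf_le_inf_right (LinearMap.ker f) hAB : A ⊓ LinearMap.ker f ≤ B ⊓ LinearMap.ker f)
  omega

lemma rk_pi_EvGen {ι V : Type} [Fintype ι] [AddCommGroup V] [Module k V] [FiniteDimensional k V]
    (S : ι → Submodule k V) :
    finrank k (Submodule.pi Set.univ S : Submodule k (ι → V)) = ∑ i, finrank k (S i) := by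
  let e : (Submodule.pi Set.univ S : Submodule k (ι → V)) ≃ₗ[k] (∀ i, S i) :=
    { toFun := fun v i => ⟨v.1 i, v.2 i (Set.mem_univ i)⟩
      map_add' := fun _ _ => rfl
      map_smul' := fun _ _ => rfl
      invFun := fun v => ⟨fun i => v i, fun i _ => (v i).2⟩
      left_inv := fun _ => rfl
      right_inv := fun _ => rfl }
  rw [e.finrank_eq, Module.finrank_pi_fintype]

lemma rk_prod_EvGen {V U : Type} [AddCommGroup V] [Module k V] [FiniteDimensional k V]
    [AddCommGroup U] [Module k U] [FiniteDimensional k U] (A : Submodule k V)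
    (C : Submodule k U) : finrank k (A.prod C) = finrank k A + finrank k C := by
  let e : (A.prod C) ≃ₗ[k] (A × C) :=
    { toFun := fun v => (⟨v.1.1, v.2.1⟩, ⟨v.1.2, v.2.2⟩)
      map_add' := fun _ _ => rfl
      map_smul' := fun _ _ => rfl
      invFun := fun v => ⟨(v.1, v.2), v.1.2, v.2.2⟩
      left_inv := fun _ => rfl
      right_inv := fun _ => rfl }
  rw [e.finrank_eq, Module.finrank_prod]

lemma rk_orth_EvGen {V : Type} [AddCommGroup V] [Module k V] [FiniteDimensional k V]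
    (B : V →ₗ[k] V →ₗ[k] k) {W T Z : Submodule k V} (hT : T ≤ W) (hZ : Z ≤ W)
    (hW : ∀ z ∈ W, (∀ t ∈ W, B z t = 0) → z = 0) (h : ∀ z ∈ Z, ∀ t ∈ T, B z t = 0) :
    finrank k T + finrank k Z ≤ finrank k W := by
  let f : Z →ₗ[k] Dual k W := (W.subtype.dualMap ∘ₗ B) ∘ₗ Z.subtype
  have hf : Function.Injective f := by
    rw [← LinearMap.ker_eq_bot, eq_bot_iff]
    intro z hz
    rw [Submodule.mem_bot]
    refine Subtype.ext (hW z (hZ z.2) fun t ht => ?_)
    exact LinearMap.congr_fun (LinearMap.mem_ker.mp hz) ⟨t, ht⟩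
  have h1 : LinearMap.range f ≤ (T.comap W.subtype).dualAnnihilator := by
    rintro _ ⟨z, rfl⟩
    rw [Submodule.mem_dualAnnihilator]
    intro t ht
    exact h z z.2 t ht
  have h2 := Subspace.finrank_add_finrank_dualAnnihilator_eq (T.comap W.subtype)
  rw [(Submodule.comapSubtypeEquivOfLe hT).finrank_eq] at h2
  have h3 := Submodule.finrank_mono h1
  rw [LinearMap.finrank_range_of_inj hf] at h3
  omega

lemma count_EvGen {E V U : Type} [AddCommGroup E] [Module k E] [FiniteDimensional k E]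
    [AddCommGroup V] [Module k V] [FiniteDimensional k V]
    [AddCommGroup U] [Module k U] [FiniteDimensional k U] (d : ℕ) (T : Submodule k E)
    (Φ : ℕ → E →ₗ[k] V) (Ψ : E →ₗ[k] U) (S : ℕ → ℕ → Submodule k V) (P : ℕ → Submodule k U)
    (hS : ∀ j i, S j (i + 1) ≤ S j i) (hP : ∀ i, P (i + 1) ≤ P i)
    (h1 : ∀ i < d, ∀ j < i, ∀ v ∈ S j i,
      ∃ ξ ∈ T, Φ j ξ = v ∧ (∀ j' < i, j' ≠ j → Φ j' ξ = 0) ∧ Ψ ξ = 0)
    (h2 : ∀ i < d, ∀ u ∈ P i, ∃ ξ ∈ T, (∀ j < i, Φ j ξ = 0) ∧ Ψ ξ = u)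
    (hSd : ∀ j, S j d = ⊥) (hPd : P d = ⊥) :
    finrank k (P 0) + ∑ j ∈ range d, finrank k (S j (j + 1)) ≤ finrank k T := by
  let ψ : ∀ i : ℕ, E →ₗ[k] ((Fin i → V) × U) := fun i =>
    LinearMap.prod (LinearMap.pi fun j : Fin i => Φ j) Ψ
  let C : ∀ i : ℕ, ℕ → Submodule k ((Fin i → V) × U) := fun i l =>
    (Submodule.pi Set.univ fun j : Fin i => S j l).prod (P l)
  let F : ℕ → Submodule k E := fun i => T ⊓ (C i i).comap (ψ i)
  have hC : ∀ i l, finrank k (C i l) = ∑ j ∈ range i, finrank k (S j l) + finrank k (P l) := by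
    intro i l
    rw [rk_prod_EvGen, rk_pi_EvGen, Finset.sum_range]
  have hF : ∀ i ξ, ξ ∈ F i ↔ ξ ∈ T ∧ (∀ j < i, Φ j ξ ∈ S j i) ∧ Ψ ξ ∈ P i := by
    intro i ξ
    refine ⟨fun h => ⟨h.1, fun j hj => h.2.1 ⟨j, hj⟩ (Set.mem_univ _), h.2.2⟩,
      fun h => ⟨h.1, fun j _ => h.2.1 j j.2, h.2.2⟩⟩
  have step : ∀ i < d, finrank k (F (i + 1)) + finrank k (C i i) ≤
      finrank k (F i) + finrank k (C i (i + 1)) := by
    intro i hi
    refine rk_step_EvGen (ψ i) ?_ ?_ ?_
    · intro ξ hξ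
      rw [hF] at hξ ⊢
      exact ⟨hξ.1, fun j hj => hS j i (hξ.2.1 j (by omega)), hP i hξ.2.2⟩
    · rintro ⟨v, u⟩ ⟨hv, hu⟩
      choose ξ hξ using fun j : Fin i => h1 i hi j j.2 (v j) (hv j (Set.mem_univ _))
      obtain ⟨η, hη⟩ := h2 i hi u hu
      have e1 : ∀ j : Fin i, Φ j (∑ j', ξ j' + η) = v j := by
        intro j
        rw [map_add, map_sum, hη.2.1 j j.2, add_zero, Finset.sum_eq_single j, (hξ j).2.1]
        · intro j' _ hj'
          exact (hξ j').2.2.1 j j.2 fun h => hj' (Fin.ext h).symm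
        · simp
      have e2 : Ψ (∑ j', ξ j' + η) = u := by
        rw [map_add, map_sum, hη.2.2, Finset.sum_eq_zero fun j' _ => (hξ j').2.2.2, zero_add]
      refine ⟨∑ j', ξ j' + η, ?_, Prod.ext (funext e1) e2⟩
      refine (hF i _).mpr ⟨T.add_mem (T.sum_mem fun j _ => (hξ j).1) hη.1, fun j hj => ?_, ?_⟩
      · rw [e1 ⟨j, hj⟩]
        exact hv ⟨j, hj⟩ (Set.mem_univ _)
      · rw [e2]
        exact hu
    · rintro _ ⟨ξ, hξ, rfl⟩
      have hξ' := (hF _ _).mp hξ
      exact ⟨fun j _ => hξ'.2.1 j (by omega), hξ'.2.2⟩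
  have main : ∀ i ≤ d, finrank k (F i) + finrank k (P 0) +
      ∑ j ∈ range i, finrank k (S j (j + 1)) ≤ finrank k (F 0) + finrank k (C i i) := by
    intro i
    induction i with
    | zero =>
      intro _
      rw [hC]
      simp
    | succ i ih =>
      intro hi
      have a1 := ih (by omega)
      have a2 := step i (by omega)
      rw [hC (i + 1), Finset.sum_range_succ, Finset.sum_range_succ]
      rw [hC i (i + 1)] at a2
      omega
  have a := main d le_rfl
  have b : finrank k (F 0) ≤ finrank k T := Submodule.finrank_mono inf_le_left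
  have c : ∑ j ∈ range d, finrank k (S j d) = 0 :=
    Finset.sum_eq_zero fun j _ => by rw [hSd, finrank_bot]
  rw [hC, hPd, c, finrank_bot] at a
  omega

end Pool.Agent.MP_f68ac8_nt.Ev
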