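import Mathlib
import Pool.Agent.MP_f68ac8_nt.EvGen1

/-! The generic case: the abstract argument. -/

namespace Pool.Agent.MP_f68ac8_nt.Ev

open Module Finset Matrix

variable {k : Type} [Field k]

/-- the commutator with a fixed matrix -/
def ad_EvGen {n : ℕ} (X : Matrix (Fin n) (Fin n) k) :
    Matrix (Fin n) (Fin n) k →ₗ[k] Matrix (Fin n) (Fin n) k :=
  LinearMap.mulRight k X - LinearMap.mulLeft k X

lemma ad_apply_EvGen {n : ℕ} (X Z : Matrix (Fin n) (Fin n) k) :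
    ad_EvGen X Z = Z * X - X * Z := rfl

/-- the span of the images of a tail of a sequence -/
def tl_EvGen {V U σ : Type} [AddCommGroup V] [Module k V] [AddCommGroup U] [Module k U]
    (b : σ → V →ₗ[k] U) (X : ℕ → V) (d j : ℕ) : Submodule k U :=
  Submodule.span k {Z | ∃ i s, j ≤ i ∧ i < d ∧ Z = b s (X i)}

section
variable {V U σ : Type} [AddCommGroup V] [Module k V] [AddCommGroup U] [Module k U]
  (b : σ → V →ₗ[k] U) (X : ℕ → V) (d : ℕ)

lemma tl_succ_EvGen (j : ℕ) : tl_EvGen b X d (j + 1) ≤ tl_EvGen b X d j :=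
  Submodule.span_mono fun _ ⟨i, s, h1, h2, h3⟩ => ⟨i, s, by omega, h2, h3⟩

lemma tl_bot_EvGen (j : ℕ) (h : ∀ i, j ≤ i → i < d → X i = 0) : tl_EvGen b X d j = ⊥ := by
  rw [tl_EvGen, Submodule.span_eq_bot]
  rintro _ ⟨i, s, h1, h2, rfl⟩
  rw [h i h1 h2, map_zero]

lemma tl_mem_EvGen {j i : ℕ} (h1 : j ≤ i) (h2 : i < d) (s : σ) : b s (X i) ∈ tl_EvGen b X d j :=
  Submodule.subset_span ⟨i, s, h1, h2, rfl⟩

lemma tl_le_EvGen {j : ℕ} {N : Submodule k U} (h : ∀ i s, j ≤ i → i < d → b s (X i) ∈ N) :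
    tl_EvGen b X d j ≤ N := by
  rw [tl_EvGen, Submodule.span_le]
  rintro _ ⟨i, s, h1, h2, rfl⟩
  exact h i s h1 h2

end

lemma abs_EvGen {n d : ℕ} {U σ τ : Type} [AddCommGroup U] [Module k U] [FiniteDimensional k U]
    (π : ℕ → Matrix (Fin n) (Fin n) k →ₗ[k] Matrix (Fin n) (Fin n) k)
    (b : σ → Matrix (Fin n) (Fin n) k →ₗ[k] Matrix (Fin n) (Fin n) k)
    (u : τ → Matrix (Fin n) (Fin n) k →ₗ[k] U) (X : ℕ → Matrix (Fin n) (Fin n) k)
    (Φ : ℕ → (Fin d → Matrix (Fin n) (Fin n) k) →ₗ[k] Matrix (Fin n) (Fin n) k)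
    (Ψ : (Fin d → Matrix (Fin n) (Fin n) k) →ₗ[k] U) (H : U →ₗ[k] Matrix (Fin n) (Fin n) k)
    (adj : ∀ j < d, ∀ A B, (π j A * B).trace = (A * π j B).trace)
    (self : ∀ j < d, π j (X j) = X j)
    (mem : ∀ j i, j ≤ i → i < d → ∀ s, π j (b s (X i)) = b s (X i))
    (span : ∀ j < d, ∀ A, π j A ∈ tl_EvGen b X d j)
    (rk : ∀ A, π 0 A ∈ (tl_EvGen u X d 0).map H)
    (der1 : ∀ i < d, ∀ j < i, ∀ s, ∃ ξ : Fin d → Matrix (Fin n) (Fin n) k,
      (∀ l : Fin d, π l (ξ l) = ξ l ∧ ∃ N, ξ l = N * X l - X l * N) ∧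
      Φ j ξ = ad_EvGen (X j) (b s (X i)) ∧ (∀ j' < i, j' ≠ j → Φ j' ξ = 0) ∧ Ψ ξ = 0)
    (der2 : ∀ i < d, ∀ s, ∃ ξ : Fin d → Matrix (Fin n) (Fin n) k,
      (∀ l : Fin d, π l (ξ l) = ξ l ∧ ∃ N, ξ l = N * X l - X l * N) ∧
      (∀ j < i, Φ j ξ = 0) ∧ Ψ ξ = u s (X i)) :
    ∀ j < d, X j = 0 := by
  let W := tl_EvGen b X d
  let P := tl_EvGen u X d
  let T : ℕ → Submodule k (Matrix (Fin n) (Fin n) k) := fun j =>
    W j ⊓ LinearMap.range (ad_EvGen (X j))
  let TT : Submodule k (Fin d → Matrix (Fin n) (Fin n) k) :=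
    Submodule.pi Set.univ fun l : Fin d => T l
  have hid : ∀ j, ∀ A ∈ W j, π j A = A := by
    intro j A hA
    have h : W j ≤ LinearMap.eqLocus (π j) LinearMap.id :=
      tl_le_EvGen b X d fun i s h1 h2 => mem j i h1 h2 s
    exact h hA
  have hTT : ∀ ξ : Fin d → Matrix (Fin n) (Fin n) k,
      (∀ l : Fin d, π l (ξ l) = ξ l ∧ ∃ N, ξ l = N * X l - X l * N) → ξ ∈ TT := by
    intro ξ h l _
    obtain ⟨h1, N, h2⟩ := h l
    exact ⟨h1 ▸ span l l.2 _, N, h2.symm⟩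
  have hWd : W d = ⊥ := tl_bot_EvGen b X d d fun i h1 h2 => by omega
  have hPd : P d = ⊥ := tl_bot_EvGen u X d d fun i h1 h2 => by omega
  have c1 := count_EvGen d TT Φ Ψ (fun j i => (W i).map (ad_EvGen (X j))) P
    (fun j i => Submodule.map_mono (tl_succ_EvGen b X d i)) (tl_succ_EvGen u X d)
    (fun i hi j hj v hv => by
      have h : W i ≤ ((TT ⊓ (⨅ j' : {j' : ℕ // j' < i ∧ j' ≠ j}, LinearMap.ker (Φ j')) ⊓
          LinearMap.ker Ψ).map (Φ j)).comap (ad_EvGen (X j)) := by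
        refine tl_le_EvGen b X d fun i' s h1 h2 => ?_
        obtain ⟨ξ, a1, a2, a3, a4⟩ := der1 i' h2 j (by omega) s
        refine ⟨ξ, ⟨⟨hTT ξ a1, ?_⟩, a4⟩, a2⟩
        exact (Submodule.mem_iInf _).mpr fun j' => a3 j' (by have := j'.2.1; omega) j'.2.2
      obtain ⟨ξ, ⟨⟨a1, a2⟩, a3⟩, a4⟩ := Submodule.map_le_iff_le_comap.mpr h hv
      exact ⟨ξ, a1, a4, fun j' b1 b2 => (Submodule.mem_iInf _).mp a2 ⟨j', b1, b2⟩, a3⟩)
    (fun i hi v hv => by
      have h : P i ≤ (TT ⊓ ⨅ j' : Fin i, LinearMap.ker (Φ j')).map Ψ := by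
        refine tl_le_EvGen u X d fun i' s h1 h2 => ?_
        obtain ⟨ξ, a1, a2, a3⟩ := der2 i' h2 s
        refine ⟨ξ, ⟨hTT ξ a1, ?_⟩, a3⟩
        exact (Submodule.mem_iInf _).mpr fun j' => a2 j' (by have := j'.2; omega)
      obtain ⟨ξ, ⟨a1, a2⟩, a3⟩ := h hv
      exact ⟨ξ, a1, fun j' b1 => (Submodule.mem_iInf _).mp a2 ⟨j', b1⟩, a3⟩)
    (fun j => by rw [hWd, Submodule.map_bot]) hPd
  rw [rk_pi_EvGen, ← Finset.sum_range fun j => finrank k (T j)] at c1
  have c2 : finrank k (W 0) ≤ finrank k (P 0) := by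
    refine le_trans (Submodule.finrank_mono ?_) (Submodule.finrank_map_le H (P 0))
    intro A hA
    rw [← hid 0 A hA]
    exact rk A
  let z : ℕ → Submodule k (Matrix (Fin n) (Fin n) k) := fun j =>
    W j ⊓ LinearMap.ker (ad_EvGen (X j))
  let z' : ℕ → Submodule k (Matrix (Fin n) (Fin n) k) := fun j =>
    W (j + 1) ⊓ LinearMap.ker (ad_EvGen (X j))
  have c3 : ∀ j ∈ range d, finrank k (T j) + finrank k (z j) ≤ finrank k (W j) := by
    intro j hj
    have hj' := Finset.mem_range.mp hj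
    refine rk_orth_EvGen (((LinearMap.mul k (Matrix (Fin n) (Fin n) k)).compr₂
      (Matrix.traceLinearMap (Fin n) k k))) inf_le_left inf_le_left (fun A hA h => ?_) ?_
    · refine Matrix.ext_iff_trace_mul_right.mpr fun B => ?_
      have h' : (A * π j B).trace = 0 := h _ (span j hj' B)
      rw [← adj j hj', hid j A hA] at h'
      rw [h', zero_mul, Matrix.trace_zero]
    · rintro A ⟨-, hA⟩ _ ⟨-, N, rfl⟩
      have hA' : A * X j - X j * A = 0 := hA
      change (A * (N * X j - X j * N)).trace = 0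
      rw [mul_sub, Matrix.trace_sub, ← mul_assoc, Matrix.trace_mul_comm _ (X j), ← mul_assoc,
        ← mul_assoc, sub_eq_zero.mp hA', sub_self]
  have c4 : ∀ j ∈ range d, finrank k ((W (j + 1)).map (ad_EvGen (X j))) + finrank k (z' j) =
      finrank k (W (j + 1)) := fun j _ => rk_map_EvGen _ _
  have c5 : ∀ j ∈ range d, finrank k (z' j) ≤ finrank k (z j) := fun j _ =>
    Submodule.finrank_mono (inf_le_inf_right _ (tl_succ_EvGen b X d j))
  have s3 := Finset.sum_le_sum c3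
  have s4 := Finset.sum_congr rfl c4
  have s5 := Finset.sum_le_sum c5
  rw [Finset.sum_add_distrib] at s3 s4
  have s6 := Finset.sum_range_succ (fun j => finrank k (W j)) d
  rw [Finset.sum_range_succ'] at s6
  have s7 : ∑ j ∈ range d, finrank k (z' j) = ∑ j ∈ range d, finrank k (z j) := by omega
  have c6 := (Finset.sum_eq_sum_iff_of_le c5).mp s7
  have c7 : ∀ j < d, X j ∈ W (j + 1) := by
    intro j hj
    have h : z' j = z j := Submodule.eq_of_le_of_finrank_eq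
      (inf_le_inf_right _ (tl_succ_EvGen b X d j)) (c6 j (Finset.mem_range.mpr hj))
    have h' : X j ∈ z j := ⟨self j hj ▸ span j hj _, sub_self (X j * X j)⟩
    rw [← h] at h'
    exact h'.1
  have c8 : ∀ l j, j < d → d ≤ j + l → X j = 0 := by
    intro l
    induction l with
    | zero => intro j h1 h2; omega
    | succ l ih =>
      intro j h1 h2
      have h := c7 j h1
      rw [show W (j + 1) = ⊥ from tl_bot_EvGen b X d _ fun i a1 a2 => ih i a2 (by omega)] at h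
      exact h
  exact fun j hj => c8 d j hj (by omega)

end Pool.Agent.MP_f68ac8_nt.Ev
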