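import Mathlib
import Pool.Agent.MP_f68ac8_nt.EvAlg
import Pool.Agent.MP_f68ac8_nt.Der
import Pool.Agent.MP_f68ac8_nt.EvGen2

/-! The generic system has no solution. -/

namespace Pool.Agent.MP_f68ac8_nt.Ev

open Finset Matrix

variable {n m₁ m₂ : ℕ} {Ω : Type} [Field Ω]

/-- an operator on matrices as a linear map -/
def apL_EvGen (T : Ix n → Ix n → Ω) : Mt n Ω →ₗ[Ω] Mt n Ω where
  toFun := ap T
  map_add' A B := by
    ext a b
    simp [ap, mul_add, Finset.sum_add_distrib]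
  map_smul' r A := by
    ext a b
    simp [ap, Finset.mul_sum, mul_left_comm]

/-- a named operator as a linear map -/
def opL_EvGen (y : Bt n m₁ m₂ → Ω) (κ : Nm n m₁ m₂) : Mt n Ω →ₗ[Ω] Mt n Ω :=
  apL_EvGen fun a c => y (some (κ, a, c))

/-- an entry of the system as a linear map -/
def colL_EvGen (x : ∀ i, Rn m₁ m₂ i → Ω) (y : ℕ → Bt n m₁ m₂ → Ω) (j i : ℕ) :
    Mt n Ω →ₗ[Ω] Mt n Ω :=
  if h : j < i then ∑ s, x i (.inl (⟨j, h⟩, s)) • opL_EvGen (y 0) (.inr (.inl s))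
  else opL_EvGen (y (j + 1)) (.inl i)

lemma colL_apply_EvGen (x : ∀ i, Rn m₁ m₂ i → Ω) (y : ℕ → Bt n m₁ m₂ → Ω) (j i : ℕ)
    (X : Mt n Ω) : colL_EvGen x y j i X = col x y j i X := by
  unfold colL_EvGen col
  split_ifs
  · rw [LinearMap.sum_apply]
    rfl
  · rfl

lemma adj_EvGen (T : Ix n → Ix n → Ω) (h : ∀ a b, T a b = T b.swap a.swap) (A B : Mt n Ω) :
    (ap T A * B).trace = (A * ap T B).trace := by
  have h1 : (ap T A * B).trace = ∑ a : Ix n, ∑ c : Ix n, T a c * A c.1 c.2 * B a.2 a.1 := by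
    rw [Fintype.sum_prod_type]
    simp only [Matrix.trace, Matrix.diag, Matrix.mul_apply, ap, Matrix.of_apply, Finset.sum_mul]
  have h2 : (A * ap T B).trace =
      ∑ c : Ix n, ∑ e : Ix n, A c.1 c.2 * (T c.swap e * B e.1 e.2) := by
    rw [Fintype.sum_prod_type]
    simp only [Matrix.trace, Matrix.diag, Matrix.mul_apply, ap, Matrix.of_apply, Finset.mul_sum,
      Prod.swap]
  rw [h1, h2, Finset.sum_comm]
  refine Finset.sum_congr rfl fun c _ => ?_
  refine Fintype.sum_equiv (Equiv.prodComm _ _) _ _ fun a => ?_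
  rw [h a c]
  simp only [Equiv.prodComm_apply, Prod.fst_swap, Prod.snd_swap]
  ring

lemma mem_single_EvGen {U : Type} [AddCommGroup U] [Module Ω U] (f : Mt n Ω →ₗ[Ω] U)
    (N : Submodule Ω U) (h : ∀ e : Ix n, f (single e.1 e.2 1) ∈ N) (A : Mt n Ω) : f A ∈ N := by
  rw [Matrix.matrix_eq_sum_single A, map_sum]
  refine N.sum_mem fun a _ => ?_
  rw [map_sum]
  refine N.sum_mem fun b _ => ?_
  have h' : single a b (A a b) = A a b • single a b (1 : Ω) := by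
    rw [Matrix.smul_single, smul_eq_mul, mul_one]
  rw [h', map_smul]
  exact N.smul_mem _ (h (a, b))

/-- the entrywise derivative -/
def dm_EvGen (D : Derivation ℤ Ω Ω) : Mt n Ω →+ Mt n Ω :=
  AddMonoidHom.mapMatrix D.toLinearMap.toAddMonoidHom

lemma dm_apply_EvGen (D : Derivation ℤ Ω Ω) (A : Mt n Ω) (a b : Fin n) :
    dm_EvGen D A a b = D (A a b) := rfl

lemma dm_mul_EvGen (D : Derivation ℤ Ω Ω) (A B : Mt n Ω) :
    dm_EvGen D (A * B) = dm_EvGen D A * B + A * dm_EvGen D B := by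
  ext a b
  simp only [dm_apply_EvGen, Matrix.mul_apply, Matrix.add_apply, map_sum, Derivation.leibniz,
    smul_eq_mul, ← Finset.sum_add_distrib]
  refine Finset.sum_congr rfl fun c _ => ?_
  ring

lemma dm_smul_EvGen (D : Derivation ℤ Ω Ω) (r : Ω) (A : Mt n Ω) :
    dm_EvGen D (r • A) = D r • A + r • dm_EvGen D A := by
  ext a b
  simp only [dm_apply_EvGen, Matrix.smul_apply, Matrix.add_apply, Derivation.leibniz,
    smul_eq_mul]
  ring

lemma dm_op_EvGen (D : Derivation ℤ Ω Ω) (y : Bt n m₁ m₂ → Ω) (h : ∀ b, D (y b) = 0)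
    (κ : Nm n m₁ m₂) (A : Mt n Ω) : dm_EvGen D (op y κ A) = op y κ (dm_EvGen D A) := by
  ext a b
  simp only [dm_apply_EvGen, op, ap, Matrix.of_apply, map_sum, Derivation.leibniz, h,
    smul_eq_mul, mul_zero, add_zero]

/-- the linearized bracket relation -/
def phi_EvGen (d : ℕ) (x : ∀ i, Rn m₁ m₂ i → Ω) (y : ℕ → Bt n m₁ m₂ → Ω) (X : ℕ → Mt n Ω)
    (j : ℕ) : (Fin d → Mt n Ω) →ₗ[Ω] Mt n Ω :=
  if h : j < d then
    -(ad_EvGen (X j) ∘ₗ (∑ i : Fin d, colL_EvGen x y j i ∘ₗ LinearMap.proj i) -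
      ad_EvGen (∑ i ∈ range d, col x y j i (X i)) ∘ₗ LinearMap.proj ⟨j, h⟩ -
      y (j + 1) none • LinearMap.proj ⟨j, h⟩)
  else 0

/-- the operators of the unit relations -/
def uu_EvGen (y : Bt n m₁ m₂ → Ω) (s : Fin m₂) : Mt n Ω →ₗ[Ω] (Ix n → Mt n Ω) :=
  LinearMap.pi fun e => opL_EvGen y (.inr (.inr (s, e)))

/-- the linearized unit relations -/
def psi_EvGen (d : ℕ) (x : ∀ i, Rn m₁ m₂ i → Ω) (y : ℕ → Bt n m₁ m₂ → Ω) :
    (Fin d → Mt n Ω) →ₗ[Ω] (Ix n → Mt n Ω) :=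
  -∑ i : Fin d, (∑ s, x i (.inr s) • uu_EvGen (y 0) s) ∘ₗ LinearMap.proj i

lemma diff_EvGen {d : ℕ} {x : ∀ i, Rn m₁ m₂ i → Ω} {y : ℕ → Bt n m₁ m₂ → Ω} {X : ℕ → Mt n Ω}
    {w c G γ} (h : SolW d x y X w c G γ) (hD : HasDer d x y) {i : ℕ} (hi : i < d)
    (δ : Rn m₁ m₂ i → Ω) : ∃ ξ : Fin d → Mt n Ω,
      (∀ l : Fin d, opL_EvGen (y 0) (.inl l) (ξ l) = ξ l ∧ ∃ N, ξ l = N * X l - X l * N) ∧
      (∀ j (hj : j < i), phi_EvGen d x y X j ξ = ad_EvGen (X j)
        (∑ s, δ (.inl (⟨j, hj⟩, s)) • opL_EvGen (y 0) (.inr (.inl s)) (X i))) ∧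
      psi_EvGen d x y ξ = ∑ s, δ (.inr s) • uu_EvGen (y 0) s (X i) := by
  obtain ⟨D, d1, d2, d3⟩ := hD i hi δ
  have d0 := d1 0 (Nat.zero_le i)
  refine ⟨fun l => dm_EvGen D (X l), fun l => ⟨?_, der_nil D ⟨n, h.nil l l.2⟩⟩, fun j hj => ?_, ?_⟩
  · change op (y 0) (.inl l) (dm_EvGen D (X l)) = dm_EvGen D (X l)
    rw [← dm_op_EvGen D _ d0, h.self l l.2]
  · have hjd : j < d := by omega
    have e1 : dm_EvGen D (∑ l ∈ range d, col x y j l (X l)) =
        ∑ l : Fin d, col x y j l (dm_EvGen D (X l)) +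
          ∑ s, δ (.inl (⟨j, hj⟩, s)) • op (y 0) (.inr (.inl s)) (X i) := by
      have e2 : ∀ l ∈ range d, dm_EvGen D (col x y j l (X l)) = col x y j l (dm_EvGen D (X l)) +
          if l = i then ∑ s, δ (.inl (⟨j, hj⟩, s)) • op (y 0) (.inr (.inl s)) (X i) else 0 := by
        intro l hl
        unfold col
        by_cases h1 : j < l
        · rw [dif_pos h1, dif_pos h1, map_sum]
          simp only [dm_smul_EvGen, dm_op_EvGen D _ d0, Finset.sum_add_distrib]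
          rw [add_comm]
          congr 1
          split_ifs with h2
          · subst h2
            simp only [d2]
          · simp only [d3 l (Finset.mem_range.mp hl) h2, zero_smul, Finset.sum_const_zero]
        · rw [dif_neg h1, dif_neg h1, if_neg (by omega), add_zero,
            dm_op_EvGen D _ (d1 (j + 1) hj)]
      rw [map_sum, Finset.sum_congr rfl e2, Finset.sum_add_distrib, Finset.sum_ite_eq',
        if_pos (Finset.mem_range.mpr hi), Finset.sum_range]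
    have e3 := congrArg (dm_EvGen D) (h.br j hjd)
    rw [map_sub, dm_mul_EvGen, dm_mul_EvGen, dm_smul_EvGen, d1 (j + 1) hj, zero_smul, zero_add,
      e1] at e3
    rw [phi_EvGen, dif_pos hjd]
    simp only [LinearMap.neg_apply, LinearMap.sub_apply, LinearMap.comp_apply,
      LinearMap.sum_apply, LinearMap.smul_apply, LinearMap.proj_apply, colL_apply_EvGen,
      ad_apply_EvGen]
    rw [← e3]
    change _ = (∑ s, δ (.inl (⟨j, hj⟩, s)) • op (y 0) (.inr (.inl s)) (X i)) * X j -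
      X j * ∑ s, δ (.inl (⟨j, hj⟩, s)) • op (y 0) (.inr (.inl s)) (X i)
    noncomm_ring
  · funext e
    have e2 : ∀ l ∈ range d,
        dm_EvGen D (∑ s, x l (.inr s) • op (y 0) (.inr (.inr (s, e))) (X l)) =
          ∑ s, x l (.inr s) • op (y 0) (.inr (.inr (s, e))) (dm_EvGen D (X l)) +
          if l = i then ∑ s, δ (.inr s) • op (y 0) (.inr (.inr (s, e))) (X i) else 0 := by
      intro l hl
      rw [map_sum]
      simp only [dm_smul_EvGen, dm_op_EvGen D _ d0, Finset.sum_add_distrib]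
      rw [add_comm]
      congr 1
      split_ifs with h2
      · subst h2
        simp only [d2]
      · simp only [d3 l (Finset.mem_range.mp hl) h2, zero_smul, Finset.sum_const_zero]
    have e3 := congrArg (dm_EvGen D) (h.un e)
    rw [map_sum, Finset.sum_congr rfl e2, Finset.sum_add_distrib, Finset.sum_ite_eq',
      if_pos (Finset.mem_range.mpr hi), Finset.sum_range, map_zero] at e3
    simp only [psi_EvGen, LinearMap.neg_apply, LinearMap.comp_apply, LinearMap.sum_apply,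
      LinearMap.smul_apply, LinearMap.proj_apply, Pi.neg_apply, Finset.sum_apply, Pi.smul_apply]
    exact neg_eq_of_add_eq_zero_right e3

lemma opL_apply_EvGen (y : Bt n m₁ m₂ → Ω) (κ : Nm n m₁ m₂) (A : Mt n Ω) :
    opL_EvGen y κ A = op y κ A := rfl

section
variable {d : ℕ} {x : ∀ i, Rn m₁ m₂ i → Ω} {y : ℕ → Bt n m₁ m₂ → Ω} {X : ℕ → Mt n Ω}
  {w : ℕ → Ix n → Ω} {c : ℕ → Ix n → ℕ → Fin m₁ → Ω} {G : Ix n → Ix n → Ix n → Ω}
  {γ : Ix n → ℕ → Fin m₂ → Ω}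

lemma span_EvGen (h : SolW d x y X w c G γ) (j : ℕ) (hj : j < d) (A : Mt n Ω) :
    opL_EvGen (y 0) (.inl j) A ∈ tl_EvGen (fun s => opL_EvGen (y 0) (.inr (.inl s))) X d j := by
  refine mem_single_EvGen _ _ (fun e => ?_) A
  rw [opL_apply_EvGen, h.span j hj e]
  refine Submodule.sum_mem _ fun i hi => Submodule.sum_mem _ fun s _ =>
    Submodule.smul_mem _ _ ?_
  rw [← opL_apply_EvGen]
  exact tl_mem_EvGen (fun s => opL_EvGen (y 0) (.inr (.inl s))) X d (Finset.mem_Ico.mp hi).1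
    (Finset.mem_Ico.mp hi).2 s

lemma rk_EvGen (h : SolW d x y X w c G γ) (A : Mt n Ω) :
    opL_EvGen (y 0) (.inl 0) A ∈ (tl_EvGen (uu_EvGen (y 0)) X d 0).map
      (∑ e, apL_EvGen (G e) ∘ₗ LinearMap.proj e) := by
  refine mem_single_EvGen _ _ (fun e => ?_) A
  refine ⟨∑ i ∈ range d, ∑ s, γ e i s • uu_EvGen (y 0) s (X i), ?_, ?_⟩
  · exact Submodule.sum_mem _ fun i hi => Submodule.sum_mem _ fun s _ =>
      Submodule.smul_mem _ _ (tl_mem_EvGen _ X d (Nat.zero_le i) (Finset.mem_range.mp hi) s)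
  · rw [opL_apply_EvGen, h.rk e, LinearMap.sum_apply]
    refine Finset.sum_congr rfl fun e' _ => ?_
    simp only [LinearMap.comp_apply, LinearMap.proj_apply, Finset.sum_apply, Pi.smul_apply]
    rfl

lemma der1_EvGen (h : SolW d x y X w c G γ) (hD : HasDer d x y) (i : ℕ) (hi : i < d) (j : ℕ)
    (hj : j < i) (s : Fin m₁) : ∃ ξ : Fin d → Mt n Ω,
      (∀ l : Fin d, opL_EvGen (y 0) (.inl l) (ξ l) = ξ l ∧ ∃ N, ξ l = N * X l - X l * N) ∧
      phi_EvGen d x y X j ξ = ad_EvGen (X j) (opL_EvGen (y 0) (.inr (.inl s)) (X i)) ∧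
      (∀ j' < i, j' ≠ j → phi_EvGen d x y X j' ξ = 0) ∧ psi_EvGen d x y ξ = 0 := by
  obtain ⟨ξ, a1, a2, a3⟩ := diff_EvGen h hD hi (Pi.single (.inl (⟨j, hj⟩, s)) 1)
  refine ⟨ξ, a1, ?_, fun j' b1 b2 => ?_, ?_⟩
  · rw [a2 j hj]
    simp [Pi.single_apply]
  · rw [a2 j' b1]
    simp [b2]
  · rw [a3]
    simp

lemma der2_EvGen (h : SolW d x y X w c G γ) (hD : HasDer d x y) (i : ℕ) (hi : i < d)
    (s : Fin m₂) : ∃ ξ : Fin d → Mt n Ω,
      (∀ l : Fin d, opL_EvGen (y 0) (.inl l) (ξ l) = ξ l ∧ ∃ N, ξ l = N * X l - X l * N) ∧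
      (∀ j < i, phi_EvGen d x y X j ξ = 0) ∧ psi_EvGen d x y ξ = uu_EvGen (y 0) s (X i) := by
  obtain ⟨ξ, a1, a2, a3⟩ := diff_EvGen h hD hi (Pi.single (.inr s) 1)
  refine ⟨ξ, a1, fun j hj => ?_, ?_⟩
  · rw [a2 j hj]
    simp
  · rw [a3]
    simp [Pi.single_apply]

lemma zero_EvGen (h : SolW d x y X w c G γ) (hD : HasDer d x y) : ∀ j < d, X j = 0 := by
  refine abs_EvGen (fun j => opL_EvGen (y 0) (.inl j))
    (fun s => opL_EvGen (y 0) (.inr (.inl s))) (uu_EvGen (y 0)) X (phi_EvGen d x y X)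
    (psi_EvGen d x y) (∑ e, apL_EvGen (G e) ∘ₗ LinearMap.proj e) ?_ ?_ ?_ (span_EvGen h)
    (rk_EvGen h) (der1_EvGen h hD) (der2_EvGen h hD)
  · intro j hj A B
    rw [opL_apply_EvGen, opL_apply_EvGen]
    exact adj_EvGen (fun a c => y 0 (some (.inl j, a, c))) (h.adj j hj) A B
  · intro j hj
    rw [opL_apply_EvGen]
    exact h.self j hj
  · intro j i h1 h2 s
    rw [opL_apply_EvGen, opL_apply_EvGen]
    exact h.mem j i h1 h2 s

end

theorem gen_stmt : GenStmt := by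
  intro n m₁ m₂ d Ω _ _ x y hD ⟨X, w, c, G, γ, h⟩
  have h1 := h.ne
  rw [Finset.sum_eq_zero fun j hj => by simp [zero_EvGen h hD j (Finset.mem_range.mp hj)]] at h1
  exact zero_ne_one h1

end Pool.Agent.MP_f68ac8_nt.Ev
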