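import Mathlib
import Pool.Agent.MP_f68ac8_nt.EvAlg

namespace Pool.Agent.MP_f68ac8_nt.Ev

open Matrix MvPolynomial Finset

section map
variable {n m₁ m₂ : ℕ} {R S : Type} [CommRing R] [CommRing S] (φ : R →+* S)

theorem smul_EvNat (a : R) (M : Mt n R) : φ.mapMatrix (a • M) = φ a • φ.mapMatrix M := by
  ext; simp

theorem single_EvNat (a b : Fin n) :
    φ.mapMatrix (single a b (1 : R) : Mt n R) = (single a b 1 : Mt n S) := by
  ext i j
  simp only [RingHom.mapMatrix_apply, map_apply, single_apply]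
  split_ifs <;> simp

theorem ap_EvNat (T : Ix n → Ix n → R) (X : Mt n R) :
    φ.mapMatrix (ap T X) = ap (fun a c => φ (T a c)) (φ.mapMatrix X) := by
  ext; simp [ap, map_sum]

theorem op_EvNat (y : Bt n m₁ m₂ → R) (κ : Nm n m₁ m₂) (X : Mt n R) :
    φ.mapMatrix (op y κ X) = op (fun b => φ (y b)) κ (φ.mapMatrix X) := ap_EvNat φ _ X

theorem col_EvNat (x : ∀ i, Rn m₁ m₂ i → R) (y : ℕ → Bt n m₁ m₂ → R) (j i : ℕ) (X : Mt n R) :
    φ.mapMatrix (col x y j i X) =
      col (fun i a => φ (x i a)) (fun i b => φ (y i b)) j i (φ.mapMatrix X) := by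
  unfold col
  split_ifs
  · simp only [map_sum, smul_EvNat, op_EvNat]
  · exact op_EvNat φ _ _ _

theorem entry_EvNat (X : Mt n R) (a b : Fin n) : φ.mapMatrix X a b = φ (X a b) := rfl

variable {d : ℕ} {x : ∀ i, Rn m₁ m₂ i → R} {y : ℕ → Bt n m₁ m₂ → R} {X : ℕ → Mt n R}
  {w : ℕ → Ix n → R} {c : ℕ → Ix n → ℕ → Fin m₁ → R} {G : Ix n → Ix n → Ix n → R}
  {γ : Ix n → ℕ → Fin m₂ → R}

theorem SolW.map_EvNat (h : SolW d x y X w c G γ) :
    SolW d (fun i a => φ (x i a)) (fun i b => φ (y i b)) (fun j => φ.mapMatrix (X j))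
      (fun j a => φ (w j a)) (fun j e i s => φ (c j e i s)) (fun e a b => φ (G e a b))
      fun e i s => φ (γ e i s) where
  nil j hj := by simpa only [map_pow, map_zero] using congrArg φ.mapMatrix (h.nil j hj)
  ne := by simpa only [map_sum, map_mul, map_one, entry_EvNat] using congrArg φ h.ne
  adj j hj a b := congrArg φ (h.adj j hj a b)
  self j hj := by simpa only [op_EvNat] using congrArg φ.mapMatrix (h.self j hj)
  mem j i hj hi s := by simpa only [op_EvNat] using congrArg φ.mapMatrix (h.mem j i hj hi s)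
  span j hj e := by
    simpa only [op_EvNat, map_sum, smul_EvNat, single_EvNat] using
      congrArg φ.mapMatrix (h.span j hj e)
  br j hj := by
    simpa only [map_sub, map_mul, map_sum, smul_EvNat, col_EvNat] using
      congrArg φ.mapMatrix (h.br j hj)
  un e := by
    simpa only [op_EvNat, map_sum, smul_EvNat, map_zero] using congrArg φ.mapMatrix (h.un e)
  rk e := by
    simpa only [op_EvNat, ap_EvNat, map_sum, smul_EvNat, single_EvNat] using
      congrArg φ.mapMatrix (h.rk e)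

theorem SolW.of_map_EvNat {α : Type} {K : α → Type} [∀ u, CommRing (K u)] (ψ : ∀ u, R →+* K u)
    (hi : ∀ a b : R, (∀ u, ψ u a = ψ u b) → a = b)
    (h : ∀ u, SolW d (fun i a => ψ u (x i a)) (fun i b => ψ u (y i b))
      (fun j => (ψ u).mapMatrix (X j)) (fun j a => ψ u (w j a)) (fun j e i s => ψ u (c j e i s))
      (fun e a b => ψ u (G e a b)) fun e i s => ψ u (γ e i s)) : SolW d x y X w c G γ := by
  have hm : ∀ M N : Mt n R, (∀ u, (ψ u).mapMatrix M = (ψ u).mapMatrix N) → M = N :=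
    fun M N hMN => Matrix.ext fun a b => hi _ _ fun u => congrFun (congrFun (hMN u) a) b
  exact
    { nil := fun j hj => hm _ _ fun u => by simpa only [map_pow, map_zero] using (h u).nil j hj
      ne := hi _ _ fun u => by
        simpa only [map_sum, map_mul, map_one, entry_EvNat] using (h u).ne
      adj := fun j hj a b => hi _ _ fun u => (h u).adj j hj a b
      self := fun j hj => hm _ _ fun u => by simpa only [op_EvNat] using (h u).self j hj
      mem := fun j i hj hi s => hm _ _ fun u => by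
        simpa only [op_EvNat] using (h u).mem j i hj hi s
      span := fun j hj e => hm _ _ fun u => by
        simpa only [op_EvNat, map_sum, smul_EvNat, single_EvNat] using (h u).span j hj e
      br := fun j hj => hm _ _ fun u => by
        simpa only [map_sub, map_mul, map_sum, smul_EvNat, col_EvNat] using (h u).br j hj
      un := fun e => hm _ _ fun u => by
        simpa only [op_EvNat, map_sum, smul_EvNat, map_zero] using (h u).un e
      rk := fun e => hm _ _ fun u => by
        simpa only [op_EvNat, ap_EvNat, map_sum, smul_EvNat, single_EvNat] using (h u).rk e }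

end map

section scale
variable {n m₁ m₂ : ℕ} {k : Type} [Field k]

theorem op_smul_EvNat (y : Bt n m₁ m₂ → k) (κ : Nm n m₁ m₂) (a : k) (X : Mt n k) :
    op y κ (a • X) = a • op y κ X := by
  ext a b
  simp only [op, ap, of_apply, Matrix.smul_apply, smul_eq_mul, Finset.mul_sum]
  exact Finset.sum_congr rfl fun _ _ => by ring

/-- rescaled variables of the adversary -/
def gs_EvNat (τ : ℕ → k) (y : ℕ → Bt n m₁ m₂ → k) (j : ℕ) : Bt n m₁ m₂ → k
  | some (.inl i, a) => (if i < j then τ i else 1) * y j (some (.inl i, a))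
  | some (.inr κ, a) => y j (some (.inr κ, a))
  | none => y j none

theorem gs_eq_EvNat (τ : ℕ → k) (y : ℕ → Bt n m₁ m₂ → k) (j : ℕ) (h : ∀ i < j, τ i = 1) :
    gs_EvNat τ y j = y j := by
  funext b
  rcases b with _ | ⟨i | κ, a⟩
  · rfl
  · simp only [gs_EvNat]
    split_ifs with hi
    · rw [h i hi, one_mul]
    · rw [one_mul]
  · rfl

theorem gs_congr_EvNat (τ : ℕ → k) {y y' : ℕ → Bt n m₁ m₂ → k} {j : ℕ} (h : y' j = y j) :
    gs_EvNat τ y' j = gs_EvNat τ y j := by
  funext b
  rcases b with _ | ⟨i | κ, a⟩ <;> simp only [gs_EvNat, h]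

theorem op_gs_EvNat (τ : ℕ → k) (y : ℕ → Bt n m₁ m₂ → k) {i j : ℕ} (h : i < j) (X : Mt n k) :
    op (gs_EvNat τ y j) (.inl i) X = τ i • op (y j) (.inl i) X := by
  ext a b
  simp only [op, ap, of_apply, Matrix.smul_apply, smul_eq_mul, Finset.mul_sum, gs_EvNat, if_pos h]
  exact Finset.sum_congr rfl fun _ _ => by ring

theorem col_gs_EvNat {τ : ℕ → k} (hτ : ∀ i, τ i ≠ 0) (x : ∀ i, Rn m₁ m₂ i → k)
    (y : ℕ → Bt n m₁ m₂ → k) (j i : ℕ) (X : Mt n k) :
    col (fun i => τ i • x i) (gs_EvNat τ y) j i ((τ i)⁻¹ • X) = col x y j i X := by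
  unfold col
  split_ifs with h
  · refine Finset.sum_congr rfl fun s _ => ?_
    beta_reduce
    rw [gs_eq_EvNat τ y 0 fun _ h => absurd h (Nat.not_lt_zero _), op_smul_EvNat, smul_smul,
      Pi.smul_apply, smul_eq_mul, mul_right_comm, mul_inv_cancel₀ (hτ i), one_mul]
  · rw [op_gs_EvNat τ y (by omega), op_smul_EvNat, smul_smul, mul_inv_cancel₀ (hτ i), one_smul]

theorem solE_scale_EvNat {d : ℕ} {τ : ℕ → k} (hτ : ∀ i, τ i ≠ 0) {x : ∀ i, Rn m₁ m₂ i → k}
    {y : ℕ → Bt n m₁ m₂ → k} (h : SolE n m₁ m₂ d k x y) :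
    SolE n m₁ m₂ d k (fun i => τ i • x i) (gs_EvNat τ y) := by
  obtain ⟨X, w, c, G, γ, h⟩ := h
  have h0 : gs_EvNat τ y 0 = y 0 := gs_eq_EvNat τ y 0 fun _ h => absurd h (Nat.not_lt_zero _)
  have hs : ∀ (i : ℕ) (a : k) (M : Mt n k), (τ i * a) • (τ i)⁻¹ • M = a • M := fun i a M => by
    rw [smul_smul, mul_right_comm, mul_inv_cancel₀ (hτ i), one_mul]
  refine ⟨fun j => (τ j)⁻¹ • X j, fun j a => τ j * w j a, fun j e i s => τ i * c j e i s, G,
    fun e i s => τ i * γ e i s, fun j hj => ?_, ?_, ?_, fun j hj => ?_, fun j i hj hi s => ?_,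
    fun j hj e => ?_, fun j hj => ?_, fun e => ?_, fun e => ?_⟩
  · rw [smul_pow, h.nil j hj, smul_zero]
  · rw [← h.ne]
    refine Finset.sum_congr rfl fun j _ => Finset.sum_congr rfl fun a _ => ?_
    have := hτ j
    rw [Matrix.smul_apply, smul_eq_mul]
    field_simp
  · rw [h0]; exact h.adj
  · rw [h0, op_smul_EvNat, h.self j hj]
  · rw [h0, op_smul_EvNat, op_smul_EvNat, h.mem j i hj hi s]
  · simp only [h0, op_smul_EvNat, hs]
    exact h.span j hj e
  · simp only [col_gs_EvNat hτ]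
    rw [Matrix.mul_smul, Matrix.smul_mul, ← smul_sub, h.br j hj, smul_comm]
    rfl
  · simp only [h0, op_smul_EvNat, Pi.smul_apply, smul_eq_mul, hs]
    exact h.un e
  · simp only [h0, op_smul_EvNat, hs]
    exact h.rk e

theorem lose_scale_EvNat {d D : ℕ} {τ : ℕ → k} (hτ : ∀ i, τ i ≠ 0) (l : ℕ) :
    ∀ (j : ℕ) (x : ∀ i, Rn m₁ m₂ i → k) (y : ℕ → Bt n m₁ m₂ → k), (∀ i, j ≤ i → τ i = 1) →
      Lose (SolE n m₁ m₂ d k) D l j x y →
      Lose (SolE n m₁ m₂ d k) D l j (fun i => τ i • x i) (gs_EvNat τ y) := by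
  induction l with
  | zero => exact fun j x y _ h => solE_scale_EvNat hτ h
  | succ l ih =>
    intro j x y hj h Q hQ hD
    obtain ⟨x', y', h1, h2, h3, h4⟩ := h Q hQ hD
    refine ⟨fun i => τ i • x' i, gs_EvNat τ y', fun i hi => congrArg (τ i • ·) (h1 i hi),
      fun i hi => gs_congr_EvNat τ (h2 i hi), ?_, ih _ _ _ (fun i hi => hj i (by omega)) h4⟩
    beta_reduce
    rwa [hj j le_rfl, one_smul]

end scale

theorem nat_stmt : NatStmt := by
  intro n m₁ m₂ d
  refine ⟨?_, ?_, ?_⟩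
  · rintro R S _ _ φ x y ⟨X, w, c, G, γ, h⟩
    exact ⟨_, _, _, _, _, h.map_EvNat φ⟩
  · intro α K _ x y h
    choose X w c G γ h using h
    exact ⟨fun j => Matrix.of fun a b u => X u j a b, fun j a u => w u j a,
      fun j e i s u => c u j e i s, fun e a b u => G u e a b, fun e i s u => γ u e i s,
      SolW.of_map_EvNat (Pi.evalRingHom K) (fun _ _ h => funext h) h⟩
  · intro k _ D i l t ht x y h
    have hτ : ∀ j, (if j = i then t else 1) ≠ 0 := fun j => by
      split_ifs
      · exact ht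
      · exact one_ne_zero
    refine ⟨_, _, fun j hj => ?_, fun j hj => ?_, ?_,
      lose_scale_EvNat (τ := fun j => if j = i then t else 1) hτ l (i + 1) x y
        (fun j hj => if_neg (by omega)) h⟩
    · simp only [if_neg hj.ne, one_smul]
    · exact gs_eq_EvNat _ y j fun j' hj' => if_neg (by omega)
    · simp only [if_true]

end Pool.Agent.MP_f68ac8_nt.Ev
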