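import Mathlib
import Pool.Agent.MP_f68ac8_nt.EvAlg

namespace Pool.Agent.MP_f68ac8_nt.Ev

open Matrix

/-- A space of linear maps of dimension at most `n` is separated by `n` vectors. -/
theorem sep_EvRank {k U W : Type} [Field k] [AddCommGroup U] [Module k U] [AddCommGroup W]
    [Module k W] (n : ℕ) : ∀ (H : Submodule k (U →ₗ[k] W)) [Module.Finite k H],
    Module.finrank k H ≤ n → ∃ u : Fin n → U, ∀ φ ∈ H, (∀ e, φ (u e) = 0) → φ = 0 := by
  induction n with
  | zero =>
    intro H _ hH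
    have : H = ⊥ := Submodule.finrank_eq_zero.1 (Nat.le_zero.1 hH)
    exact ⟨fun _ => 0, fun φ hφ _ => by simpa [this] using hφ⟩
  | succ n ih =>
    intro H _ hH
    by_cases h0 : ∀ φ ∈ H, φ = 0
    · exact ⟨fun _ => 0, fun φ hφ _ => h0 φ hφ⟩
    push Not at h0
    obtain ⟨φ₀, hφ₀, hne⟩ := h0
    obtain ⟨u₀, hu₀⟩ : ∃ u₀, φ₀ u₀ ≠ 0 := by
      by_contra hc
      push Not at hc
      exact hne (LinearMap.ext hc)
    let H' : Submodule k (U →ₗ[k] W) := H ⊓ LinearMap.ker (LinearMap.applyₗ u₀)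
    have hlt : H' < H := by
      refine lt_of_le_of_ne inf_le_left fun e => hu₀ ?_
      have : φ₀ ∈ H' := e ▸ hφ₀
      simpa using this.2
    have : Module.Finite k H' := Module.Finite.of_injective (Submodule.inclusion hlt.le)
      (Submodule.inclusion_injective _)
    have hr : Module.finrank k H' < Module.finrank k H := Submodule.finrank_lt_finrank_of_lt hlt
    obtain ⟨u, hu⟩ := ih H' (by omega)
    refine ⟨Fin.cons u₀ u, fun φ hφ h => hu φ ⟨hφ, ?_⟩ fun e => ?_⟩
    · simpa using h 0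
    · simpa using h e.succ

section
variable {k Δ A : Type} [Field k] [Group Δ] [Fintype A] [DecidableEq A]

/-- The representation given by integral matrices. -/
noncomputable def rho_EvRank (k : Type) [Field k] (μ : Δ →* Matrix A A ℤ) :
    Representation k Δ (A → k) where
  toFun δ := Matrix.toLin' ((μ δ).map (Int.cast : ℤ → k))
  map_one' := by
    rw [map_one, Matrix.map_one _ Int.cast_zero Int.cast_one, Matrix.toLin'_one]
    rfl
  map_mul' g h := by
    have := Matrix.map_mul (L := μ g) (M := μ h) (f := Int.castRingHom k)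
    simp only [Int.coe_castRingHom] at this
    rw [map_mul, this, Matrix.toLin'_mul]
    rfl

theorem rho_apply_EvRank (μ : Δ →* Matrix A A ℤ) (δ : Δ) (v : A → k) :
    rho_EvRank k μ δ v = (μ δ).map (Int.cast : ℤ → k) *ᵥ v := rfl

theorem rho_char_EvRank (μ : Δ →* Matrix A A ℤ) (δ : Δ) :
    (rho_EvRank k μ).character δ = ((μ δ).trace : k) := by
  change LinearMap.trace k _ (Matrix.toLin' ((μ δ).map (Int.cast : ℤ → k))) = _
  rw [Matrix.trace_toLin'_eq]
  simp [Matrix.trace]

theorem dim_EvRank [Fintype Δ] {W : Type} [AddCommGroup W] [Module k W] [Module.Finite k W]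
    (σ : Representation k Δ W) (μ : Δ →* Matrix A A ℤ) (hc : (Fintype.card Δ : k) ≠ 0)
    (h1 : (μ 1).trace = Fintype.card Δ - 1) (h2 : ∀ δ, δ ≠ 1 → (μ δ).trace = -1)
    (h0 : σ.invariants = ⊥) :
    (Module.finrank k ((rho_EvRank k μ).linHom σ).invariants : k) = Module.finrank k W := by
  classical
  have hc' : (Nat.card Δ : k) ≠ 0 := by rwa [Nat.card_eq_fintype_card]
  have : Invertible (Nat.card Δ : k) := invertibleOfNonzero hc'
  have e1 := σ.card_inv_mul_sum_char_eq_finrank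
  rw [h0, finrank_bot, Nat.cast_zero] at e1
  rw [← Representation.card_inv_mul_sum_char_eq_finrank]
  have e2 : ∀ g : Δ, ((rho_EvRank k μ).linHom σ).character g =
      (if g = 1 then (Nat.card Δ : k) * Module.finrank k W else 0) - σ.character g := by
    intro g
    rw [Representation.char_linHom, rho_char_EvRank]
    by_cases hg : g = 1
    · subst hg
      rw [inv_one, h1, if_pos rfl, Representation.char_one, Nat.card_eq_fintype_card]
      push_cast
      ring
    · rw [h2 _ (inv_ne_one.2 hg), if_neg hg]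
      push_cast
      ring
  simp only [e2, Finset.sum_sub_distrib, Finset.sum_ite_eq', Finset.mem_univ, if_true]
  rw [mul_sub, e1, sub_zero, ← mul_assoc, inv_mul_cancel₀ hc', one_mul]

theorem avg_EvRank [Fintype Δ] {V I : Type} [AddCommGroup V] [Module k V] [Fintype I]
    (Ad : Representation k Δ V) (μ : Δ →* Matrix A A ℤ) (hc : (Fintype.card Δ : k) ≠ 0)
    (X : I → V) (φ : (A → k) →ₗ[k] V)
    (hm : ∀ v, φ v ∈ Submodule.span k {Y | ∃ δ i, Y = Ad δ (X i)})
    (he : ∀ h v, Ad h (φ (rho_EvRank k μ h⁻¹ v)) = φ v) :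
    ∃ κ : I → A → k, ∀ v, φ v =
      ∑ i, ∑ δ, (κ i ⬝ᵥ ((μ δ⁻¹).map (Int.cast : ℤ → k) *ᵥ v)) • Ad δ (X i) := by
  have hs : {Y | ∃ δ i, Y = Ad δ (X i)} = Set.range fun p : I × Δ => Ad p.2 (X p.1) := by
    ext Y
    exact ⟨fun ⟨δ, i, h⟩ => ⟨(i, δ), h.symm⟩, fun ⟨p, h⟩ => ⟨p.2, p.1, h.symm⟩⟩
  rw [hs] at hm
  choose c hcv using fun a : A =>
    (Submodule.mem_span_range_iff_exists_fun k).1 (hm (Pi.single a 1))
  have e1 : ∀ v, φ v = ∑ i, ∑ δ, ((fun a => c a (i, δ)) ⬝ᵥ v) • Ad δ (X i) := by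
    intro v
    rw [← Fintype.sum_prod_type' fun i δ => ((fun a => c a (i, δ)) ⬝ᵥ v) • Ad δ (X i)]
    conv_lhs => rw [pi_eq_sum_univ' v]
    simp only [map_sum, map_smul, ← hcv, Finset.smul_sum, smul_smul, dotProduct, Finset.sum_smul]
    rw [Finset.sum_comm]
    exact Finset.sum_congr rfl fun x _ => Finset.sum_congr rfl fun a _ => by rw [mul_comm]
  refine ⟨fun i => (Fintype.card Δ : k)⁻¹ •
    ∑ δ, (fun a => c a (i, δ)) ᵥ* (μ δ).map (Int.cast : ℤ → k), fun v => ?_⟩
  have e2 : φ v = (Fintype.card Δ : k)⁻¹ • ∑ h, Ad h (φ (rho_EvRank k μ h⁻¹ v)) := by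
    simp only [he, Finset.sum_const, Finset.card_univ]
    rw [← Nat.cast_smul_eq_nsmul k, smul_smul, inv_mul_cancel₀ hc, one_smul]
  rw [e2]
  simp only [smul_dotProduct, sum_dotProduct, ← dotProduct_mulVec, smul_eq_mul, mul_smul,
    ← Finset.smul_sum, Finset.sum_smul]
  congr 1
  simp only [e1, map_sum, map_smul]
  rw [Finset.sum_comm]
  refine Finset.sum_congr rfl fun i _ => ?_
  rw [Finset.sum_comm, Finset.sum_comm (γ := Δ)]
  conv_rhs => rw [Finset.sum_comm]
  conv_lhs => rw [Finset.sum_comm]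
  refine Finset.sum_congr rfl fun δ _ => ?_
  refine Fintype.sum_equiv (Equiv.mulRight δ) _ _ fun h => ?_
  simp only [Equiv.coe_mulRight, ← rho_apply_EvRank]
  rw [← Module.End.mul_apply, ← Module.End.mul_apply, ← map_mul, ← map_mul]
  simp

end

theorem rank_stmt : RankStmt := by
  intro k Δ V A E _ _ _ _ _ _ _ _ _ Ad μ hc hm h1 h2 hE W hW hinv
  classical
  let σ : Representation k Δ W := Ad.subrepresentation W fun g A hA => hW g A hA
  have hσ : ∀ g (x : W), (σ g x : V) = Ad g x := fun g x => rfl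
  have h0 : σ.invariants = ⊥ := by
    rw [eq_bot_iff]
    intro x hx
    exact Subtype.ext (hinv x x.2 fun δ => by rw [← hσ, hx δ])
  have hd := dim_EvRank σ μ hc h1 h2 h0
  set H := ((rho_EvRank k μ).linHom σ).invariants with hH
  have hWV : Module.finrank k W ≤ Module.finrank k V := Submodule.finrank_le W
  have hle : Module.finrank k W ≤ Module.finrank k H := by
    by_contra hlt
    refine hm (Module.finrank k W - Module.finrank k H) (by omega) (by omega) ?_
    rw [Nat.cast_sub (by omega), hd, sub_self]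
  have : Module.Free k H := Module.Free.of_divisionRing k H
  obtain ⟨j, hj⟩ := finrank_le_iff_exists_linearMap.1 hle
  let J : W →ₗ[k] ((A → k) →ₗ[k] W) := H.subtype ∘ₗ j
  obtain ⟨u, hu⟩ := sep_EvRank (Fintype.card E) (LinearMap.range J)
    ((LinearMap.finrank_range_le J).trans (hWV.trans hE))
  let u' : E → A → k := fun e => u (Fintype.equivFin E e)
  let ev : W →ₗ[k] (E → V) :=
    LinearMap.pi fun e => W.subtype ∘ₗ LinearMap.applyₗ (u' e) ∘ₗ J
  have hev : ∀ Y e, ev Y e = (J Y (u' e) : V) := fun _ _ => rfl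
  have hinj : LinearMap.ker ev = ⊥ := by
    rw [LinearMap.ker_eq_bot']
    intro Y hY
    have : J Y = 0 := hu _ ⟨Y, rfl⟩ fun e => by
      have := congrFun hY ((Fintype.equivFin E).symm e)
      rw [hev] at this
      simpa [u'] using this
    exact hj (by rw [map_zero]; exact Subtype.ext this)
  obtain ⟨G, hG⟩ := ev.exists_leftInverse_of_injective hinj
  refine ⟨u', fun e => W.subtype ∘ₗ G ∘ₗ LinearMap.single k (fun _ : E => V) e,
    fun I _ X hX Y hY => ?_⟩
  obtain ⟨κ, hκ⟩ := avg_EvRank Ad μ hc X (W.subtype ∘ₗ J ⟨Y, hY⟩)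
    (fun v => hX ▸ (J ⟨Y, hY⟩ v).2) (fun h v => by
      have := LinearMap.congr_fun ((j ⟨Y, hY⟩).2 h) v
      exact congrArg Subtype.val this)
  refine ⟨κ, ?_⟩
  simp only [← hκ, LinearMap.comp_apply, ← map_sum]
  have e : ∑ e, LinearMap.single k (fun _ : E => V) e (W.subtype (J ⟨Y, hY⟩ (u' e))) =
      ev ⟨Y, hY⟩ := Finset.univ_sum_single (ev ⟨Y, hY⟩)
  rw [e, ← LinearMap.comp_apply G, hG]
  rfl

end Pool.Agent.MP_f68ac8_nt.Ev
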