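import Mathlib
import Pool.Agent.MP_f68ac8_nt.EvAlg

namespace Pool.Agent.MP_f68ac8_nt.Ev

open MvPolynomial Finset

/-- the linear forms of a linear map -/
noncomputable def linForm_EvSZ {k B σ : Type} [Field k] [Fintype B] [DecidableEq B]
    (L : (B → k) →ₗ[k] (σ → k)) (s : σ) : MvPolynomial B k :=
  ∑ b, C (L (Pi.single b 1) s) * X b

lemma eval_linForm_EvSZ {k B σ : Type} [Field k] [Fintype B] [DecidableEq B]
    (L : (B → k) →ₗ[k] (σ → k)) (s : σ) (v : B → k) : eval v (linForm_EvSZ L s) = L v s := by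
  have h : v = ∑ b, v b • (Pi.single b 1 : B → k) := by
    funext i
    simp [Finset.sum_apply, Pi.single_apply]
  conv_rhs => rw [h]
  simp [linForm_EvSZ, map_sum, Finset.sum_apply, mul_comm]

lemma deg_linForm_EvSZ {k B σ : Type} [Field k] [Fintype B] [DecidableEq B]
    (L : (B → k) →ₗ[k] (σ → k)) (s : σ) : (linForm_EvSZ L s).totalDegree ≤ 1 := by
  refine totalDegree_finsetSum_le fun b _ => (totalDegree_mul _ _).trans ?_
  rw [totalDegree_C, totalDegree_X]

lemma deg_bind_EvSZ {k B σ : Type} [Field k] (g : σ → MvPolynomial B k)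
    (hg : ∀ s, (g s).totalDegree ≤ 1) (Q : MvPolynomial σ k) :
    (bind₁ g Q).totalDegree ≤ Q.totalDegree := by
  conv_lhs => rw [Q.as_sum, map_sum]
  refine totalDegree_finsetSum_le fun m hm => ?_
  rw [bind₁_monomial]
  refine (totalDegree_mul _ _).trans ?_
  rw [totalDegree_C, zero_add]
  refine (totalDegree_finsetProd _ _).trans (le_trans ?_ (le_totalDegree hm))
  refine Finset.sum_le_sum fun i _ => (totalDegree_pow _ _).trans ?_
  simpa using Nat.mul_le_mul_left (m i) (hg i)

lemma bind_ne_EvSZ {k B σ : Type} [Field k] [Fintype B] [DecidableEq B] [Fintype σ]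
    (L : (B → k) →ₗ[k] (σ → k)) (hL : Function.Surjective L) {Q : MvPolynomial σ k}
    (hQ : Q ≠ 0) : bind₁ (linForm_EvSZ L) Q ≠ 0 := by
  classical
  obtain ⟨R, hR⟩ := L.exists_rightInverse_of_surjective (LinearMap.range_eq_top.2 hL)
  intro h
  apply hQ
  have h1 : ∀ s, bind₁ (linForm_EvSZ R) (linForm_EvSZ L s) = X s := by
    intro s
    have h2 : ∀ t, ∑ b, L (Pi.single b 1) s * R (Pi.single t 1) b = if t = s then 1 else 0 := by
      intro t
      have h3 := eval_linForm_EvSZ L s (R (Pi.single t 1))
      have h4 : L (R (Pi.single t 1)) = Pi.single t 1 := LinearMap.congr_fun hR _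
      rw [h4, Pi.single_apply] at h3
      simp only [linForm_EvSZ, map_sum, map_mul, eval_C, eval_X] at h3
      rw [h3]
      simp only [eq_comm]
    simp only [linForm_EvSZ, map_sum, map_mul, bind₁_C_right, bind₁_X_right, Finset.mul_sum]
    rw [Finset.sum_comm]
    simp only [← mul_assoc, ← Finset.sum_mul, ← map_mul, ← map_sum, h2]
    simp [apply_ite (C : k → MvPolynomial σ k)]
  have h5 := congrArg (bind₁ (linForm_EvSZ R)) h
  rw [bind₁_bind₁, map_zero, funext h1, bind₁_X_left] at h5
  exact h5

lemma count_EvSZ {p : ℕ} [hp : Fact p.Prime] {k B : Type} [Field k] [Algebra (ZMod p) k]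
    [Fintype B] {P : MvPolynomial B k} (hP : P ≠ 0) :
    {v : B → ZMod p | eval (fun b => algebraMap (ZMod p) k (v b)) P = 0}.ncard * p ≤
      P.totalDegree * p ^ Fintype.card B := by
  classical
  let e := Fintype.equivFin B
  have hinj : Function.Injective (algebraMap (ZMod p) k) := (algebraMap (ZMod p) k).injective
  have h1 : rename e P ≠ 0 := by rwa [Ne, rename_eq_zero_iff_of_injective _ e.injective]
  have h3 := schwartz_zippel_totalDegree h1 (Finset.univ.image (algebraMap (ZMod p) k))
  have hp0 : (0 : ℚ≥0) < p := Nat.cast_pos.mpr hp.out.pos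
  rw [Finset.card_image_of_injective _ hinj, Finset.card_univ, ZMod.card,
    div_le_div_iff₀ (pow_pos hp0 _) hp0] at h3
  have h4 : {v : B → ZMod p | eval (fun b => algebraMap (ZMod p) k (v b)) P = 0}.ncard ≤
      (Finset.filter (fun f => eval f (rename e P) = 0)
        (Fintype.piFinset fun _ => Finset.univ.image (algebraMap (ZMod p) k))).card := by
    rw [← Set.ncard_coe_finset]
    refine Set.ncard_le_ncard_of_injOn (fun v i => algebraMap (ZMod p) k (v (e.symm i))) ?_ ?_
    · intro v hv
      simp only [Finset.coe_filter, Set.mem_setOf_eq, Fintype.mem_piFinset, Finset.mem_image,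
        Finset.mem_univ, true_and]
      refine ⟨fun i => ⟨_, rfl⟩, ?_⟩
      rw [eval_rename]
      have : (fun i => algebraMap (ZMod p) k (v (e.symm i))) ∘ e =
          fun b => algebraMap (ZMod p) k (v b) := by
        funext b
        simp
      rw [this]
      exact hv
    · intro v _ w _ hvw
      funext b
      have := hinj (congrFun hvw (e b))
      simpa using this
  refine (Nat.mul_le_mul_right _ h4).trans ?_
  exact le_trans (by exact_mod_cast h3) (Nat.mul_le_mul_right _ (totalDegree_rename_le _ _))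

theorem sz_stmt : SZStmt := by
  intro p _ k B σ _ _ _ _ L hL Q hQ
  classical
  have h := count_EvSZ (p := p) (bind_ne_EvSZ L hL hQ)
  have h2 : ∀ v : B → k, eval v (bind₁ (linForm_EvSZ L) Q) = eval (L v) Q := by
    intro v
    have h3 := eval₂Hom_bind₁ (RingHom.id k) v (linForm_EvSZ L) Q
    have h4 : (fun s => eval₂Hom (RingHom.id k) v (linForm_EvSZ L s)) = L v :=
      funext fun s => eval_linForm_EvSZ L s v
    rw [h4] at h3
    exact h3
  simp only [h2] at h
  exact h.trans (Nat.mul_le_mul_right _ (deg_bind_EvSZ _ (deg_linForm_EvSZ L) Q))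

end Pool.Agent.MP_f68ac8_nt.Ev
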