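import Mathlib
import Pool.Agent.MP_f68ac8_nt.EvAlg

/-! Stable subspaces of a representation with an invariant form and no isotropic stable subspace. -/

namespace Pool.Agent.MP_f68ac8_nt.Ev

section abstract
variable {k Δ V : Type} [Field k] [Group Δ] [AddCommGroup V] [Module k V]

/-- an invariant symmetric form without stable isotropic subspaces -/
structure Frm_EvSub (Ad : Representation k Δ V) (B : LinearMap.BilinForm k V) : Prop where
  symm : ∀ x y, B x y = B y x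
  inv : ∀ δ x y, B (Ad δ x) (Ad δ y) = B x y
  iso : ∀ W, Stab Ad W → (∀ x ∈ W, ∀ y ∈ W, B x y = 0) → W = ⊥

/-- minimal nonzero stable subspaces -/
def Smp_EvSub (Ad : Representation k Δ V) (S : Submodule k V) : Prop :=
  Stab Ad S ∧ S ≠ ⊥ ∧ ∀ W, Stab Ad W → W ≤ S → W = ⊥ ∨ W = S

variable {Ad : Representation k Δ V} {B : LinearMap.BilinForm k V}

theorem inf_EvSub {W W' : Submodule k V} (h : Stab Ad W) (h' : Stab Ad W') : Stab Ad (W ⊓ W') :=
  fun δ A hA => ⟨h δ A hA.1, h' δ A hA.2⟩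

theorem map_EvSub {W : Submodule k V} (h : Stab Ad W) {θ : V →ₗ[k] V}
    (hθ : ∀ δ x, θ (Ad δ x) = Ad δ (θ x)) : Stab Ad (W.map θ) := by
  rintro δ _ ⟨x, hx, rfl⟩
  exact ⟨Ad δ x, h δ x hx, hθ δ x⟩

theorem Frm_EvSub.inv' (F : Frm_EvSub Ad B) (δ : Δ) (x y : V) :
    B (Ad δ x) y = B x (Ad δ⁻¹ y) := by
  rw [← F.inv δ x (Ad δ⁻¹ y), Representation.self_inv_apply]

theorem Frm_EvSub.orth (F : Frm_EvSub Ad B) {W : Submodule k V} (h : Stab Ad W) :
    Stab Ad (B.orthogonal W) := by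
  intro δ A hA
  rw [LinearMap.BilinForm.mem_orthogonal_iff] at hA ⊢
  intro y hy
  rw [F.symm, F.inv', F.symm]
  exact hA _ (h _ _ hy)

theorem Frm_EvSub.sep (F : Frm_EvSub Ad B) {W : Submodule k V} (h : Stab Ad W) {x : V}
    (hx : x ∈ W) (h0 : ∀ y ∈ W, B y x = 0) : x = 0 := by
  have e := F.iso (W ⊓ B.orthogonal W) (inf_EvSub h (F.orth h)) fun a ha b hb => hb.2 a ha.1
  have : x ∈ W ⊓ B.orthogonal W := ⟨hx, h0⟩
  rwa [e, Submodule.mem_bot] at this

theorem Frm_EvSub.nondeg (F : Frm_EvSub Ad B) {W : Submodule k V} (h : Stab Ad W) :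
    (B.restrict W).Nondegenerate :=
  ⟨fun x hx => Subtype.ext (F.sep h x.2 fun y hy => (F.symm _ _).trans (hx ⟨y, hy⟩)),
    fun x hx => Subtype.ext (F.sep h x.2 fun y hy => hx ⟨y, hy⟩)⟩

variable [FiniteDimensional k V]

theorem Frm_EvSub.proj (F : Frm_EvSub Ad B) {W : Submodule k V} (h : Stab Ad W) :
    ∃ π : V →ₗ[k] V, (∀ x, π x ∈ W) ∧ (∀ x, ∀ y ∈ W, B y (x - π x) = 0) ∧ (∀ x ∈ W, π x = x) ∧
      ∀ δ x, π (Ad δ x) = Ad δ (π x) := by
  have hc : IsCompl W (B.orthogonal W) :=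
    LinearMap.BilinForm.isCompl_orthogonal_of_restrict_nondegenerate
      (fun x y hxy => (F.symm _ _).trans hxy) (F.nondeg h)
  have h1 := Submodule.projection_apply_mem hc
  have h2 : ∀ x, ∀ y ∈ W, B y (x - W.projection _ hc x) = 0 := Submodule.sub_projection_mem hc
  refine ⟨W.projection _ hc, h1, h2, fun x hx => ?_, fun δ x => ?_⟩
  · exact (sub_eq_zero.1 (F.sep h (W.sub_mem hx (h1 x)) (h2 x))).symm
  · refine sub_eq_zero.1 (F.sep h (W.sub_mem (h1 _) (h _ _ (h1 _))) fun y hy => ?_)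
    have e1 := h2 (Ad δ x) y hy
    have e2 := F.orth h δ _ (h2 x) y hy
    simp only [map_sub] at e1 e2 ⊢
    linear_combination e2 - e1

theorem exists_smp_EvSub {W : Submodule k V} (h : Stab Ad W) (h0 : W ≠ ⊥) :
    ∃ S ≤ W, Smp_EvSub Ad S := by
  obtain ⟨S, ⟨h1, h2, h3⟩, hm⟩ := WellFounded.has_min (wellFounded_lt (α := Submodule k V))
    {S | S ≤ W ∧ Stab Ad S ∧ S ≠ ⊥} ⟨W, le_rfl, h, h0⟩
  refine ⟨S, h1, h2, h3, fun U hU hUS => ?_⟩
  by_cases hU0 : U = ⊥
  · exact Or.inl hU0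
  · exact Or.inr (by_contra fun hne => hm U ⟨hUS.trans h1, hU, hU0⟩ (lt_of_le_of_ne hUS hne))

theorem Frm_EvSub.le_sSup (F : Frm_EvSub Ad B) {W : Submodule k V} (h : Stab Ad W) :
    W ≤ sSup {S | Smp_EvSub Ad S ∧ S ≤ W} := by
  induction W using (wellFounded_lt (α := Submodule k V)).induction with
  | _ W ih =>
    by_cases h0 : W = ⊥
    · rw [h0]
      exact bot_le
    obtain ⟨S, hSW, hS⟩ := exists_smp_EvSub h h0
    obtain ⟨π, h1, h2, -, -⟩ := F.proj hS.1
    have hlt : W ⊓ B.orthogonal S < W := by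
      refine lt_of_le_of_ne inf_le_left fun e => hS.2.1 ?_
      exact F.iso S hS.1 fun x hx y hy => (inf_eq_left.1 e (hSW hy)) x hx
    have h3 := ih _ hlt (inf_EvSub h (F.orth hS.1))
    have h4 : sSup {U | Smp_EvSub Ad U ∧ U ≤ W ⊓ B.orthogonal S} ≤
        sSup {S | Smp_EvSub Ad S ∧ S ≤ W} :=
      sSup_le_sSup fun U hU => ⟨hU.1, hU.2.trans inf_le_left⟩
    have h5 : S ≤ sSup {S | Smp_EvSub Ad S ∧ S ≤ W} := _root_.le_sSup ⟨hS, hSW⟩
    intro x hx
    rw [← add_sub_cancel (π x) x]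
    exact Submodule.add_mem _ (h5 (h1 x)) (h4 (h3 ⟨W.sub_mem hx (hSW (h1 x)), h2 x⟩))

variable [IsAlgClosed k]

theorem Frm_EvSub.scalar (F : Frm_EvSub Ad B) {S : Submodule k V} (hS : Smp_EvSub Ad S)
    {θ : V →ₗ[k] V} (hθ : ∀ δ x, θ (Ad δ x) = Ad δ (θ x)) :
    ∃ c : k, ∀ x ∈ S, ∀ y ∈ S, B (θ x) (θ y) = c * B x y := by
  have : Nontrivial S := Submodule.nontrivial_iff_ne_bot.2 hS.2.1
  let B' : LinearMap.BilinForm k V := B.compl₁₂ θ θ
  let a : Module.End k S :=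
    ((B.restrict S).toDual (F.nondeg hS.1)).symm.toLinearMap ∘ₗ (B'.restrict S)
  have ha : ∀ x y : S, B (a x) y = B (θ x) (θ y) := fun x y =>
    LinearMap.BilinForm.apply_toDual_symm_apply (hB := F.nondeg hS.1) (B'.restrict S x) y
  obtain ⟨c, hc⟩ := Module.End.exists_eigenvalue a
  obtain ⟨x, hx⟩ := hc.exists_hasEigenvector
  let R : Submodule k V := S ⊓ (B' - c • B).flip.orthogonal S
  have hR : ∀ x, x ∈ R ↔ x ∈ S ∧ ∀ y ∈ S, B (θ x) (θ y) = c * B x y := by
    intro x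
    simp [R, B', LinearMap.BilinForm.mem_orthogonal_iff, sub_eq_zero]
  have hst : Stab Ad R := by
    intro δ z hz
    rw [hR] at hz ⊢
    refine ⟨hS.1 δ z hz.1, fun y hy => ?_⟩
    rw [hθ, F.inv', F.inv', ← hθ]
    exact hz.2 _ (hS.1 _ _ hy)
  have hxR : (x : V) ∈ R := (hR x).2 ⟨x.2, fun y hy => by
    rw [← ha x ⟨y, hy⟩, hx.apply_eq_smul]
    simp⟩
  rcases hS.2.2 R hst inf_le_left with h0 | h0
  · rw [h0, Submodule.mem_bot] at hxR
    exact absurd (Subtype.ext hxR) hx.2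
  · exact ⟨c, fun z hz => ((hR z).1 (h0.symm ▸ hz)).2⟩

theorem Frm_EvSub.lemH (F : Frm_EvSub Ad B) {S : Submodule k V} (hS : Smp_EvSub Ad S)
    {θ : V →ₗ[k] V} (hθ : ∀ δ x, θ (Ad δ x) = Ad δ (θ x))
    (ho : ∀ x ∈ S, ∀ y ∈ S, B y (θ x) = 0) : ∀ x ∈ S, θ x = 0 := by
  obtain ⟨c, hc⟩ := F.scalar hS hθ
  by_cases h0 : c = 0
  · have e := F.iso _ (map_EvSub hS.1 hθ) (by
      rintro _ ⟨x, hx, rfl⟩ _ ⟨y, hy, rfl⟩
      rw [hc x hx y hy, h0, zero_mul])
    intro x hx
    rw [← Submodule.mem_bot k, ← e]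
    exact Submodule.mem_map_of_mem hx
  · obtain ⟨l, hl⟩ := IsAlgClosed.exists_eq_mul_self (-c⁻¹)
    have hl' : l * l * c = -1 := by rw [← hl, neg_mul, inv_mul_cancel₀ h0]
    have e := F.iso _ (map_EvSub hS.1 (θ := LinearMap.id + l • θ) (by
      intro δ x
      simp [hθ])) (by
      rintro _ ⟨x, hx, rfl⟩ _ ⟨y, hy, rfl⟩
      have e1 := ho y hy x hx
      have e2 := (F.symm _ _).trans (ho x hx y hy)
      have e3 := hc x hx y hy
      simp only [LinearMap.add_apply, LinearMap.id_apply, LinearMap.smul_apply, map_add, map_smul,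
        smul_eq_mul, e1, e2, e3]
      linear_combination B x y * hl')
    refine absurd (F.iso S hS.1 fun x hx y hy => ?_) hS.2.1
    have e1 : (LinearMap.id + l • θ : V →ₗ[k] V) y = 0 := by
      rw [← Submodule.mem_bot k, ← e]
      exact Submodule.mem_map_of_mem hy
    have e2 := congrArg (B x) e1
    simpa [ho y hy x hx] using e2

theorem Frm_EvSub.perp (F : Frm_EvSub Ad B) {S S' : Submodule k V} (hS : Smp_EvSub Ad S)
    (hS' : Smp_EvSub Ad S') (hne : S ≠ S') : ∀ x ∈ S, ∀ y ∈ S', B y x = 0 := by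
  obtain ⟨π, h1, h2, -, h4⟩ := F.proj hS.1
  obtain ⟨π', h1', h2', -, h4'⟩ := F.proj hS'.1
  have h0 : S ⊓ S' = ⊥ := by
    rcases hS.2.2 _ (inf_EvSub hS.1 hS'.1) inf_le_left with h | h
    · exact h
    · rcases hS'.2.2 S hS.1 (inf_eq_left.1 h) with h' | h'
      · exact absurd h' hS.2.1
      · exact absurd h' hne
  have h5 := F.lemH hS (θ := π' - π ∘ₗ π') (by
    intro δ x
    simp [h4, h4']) fun x _ y hy => h2 (π' x) y hy
  intro x hx y hy
  have e : π' x = π (π' x) := sub_eq_zero.1 (h5 x hx)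
  have e' : π' x = 0 := by
    rw [← Submodule.mem_bot k, ← h0]
    exact ⟨e ▸ h1 _, h1' x⟩
  simpa [e'] using h2' x y hy

theorem Frm_EvSub.count (F : Frm_EvSub Ad B) :
    ∃ s : Finset (Submodule k V), s.card ≤ 2 ^ Module.finrank k V ∧ ∀ W, Stab Ad W ↔ W ∈ s := by
  classical
  have h1 : ∀ S : {S // Smp_EvSub Ad S}, ∃ x ∈ S.1, ∃ y ∈ S.1, B x y ≠ 0 := by
    intro S
    by_contra h
    push Not at h
    exact S.2.2.1 (F.iso _ S.2.1 h)
  choose x hx y hy hxy using h1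
  have hli : LinearIndependent k y := by
    rw [linearIndependent_iff']
    intro s g hg i hi
    have e := congrArg (B (x i)) hg
    rw [map_sum, map_zero, Finset.sum_eq_single i] at e
    · rw [map_smul, smul_eq_mul] at e
      exact (mul_eq_zero.1 e).resolve_right (hxy i)
    · intro j _ hji
      rw [map_smul, F.perp j.2 i.2 (fun h => hji (Subtype.ext h)) _ (hy j) _ (hx i), smul_zero]
    · exact fun h => absurd hi h
  have : Finite {S // Smp_EvSub Ad S} := hli.finite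
  have := Fintype.ofFinite {S // Smp_EvSub Ad S}
  have hc := hli.fintype_card_le_finrank
  refine ⟨((Finset.univ : Finset (Finset {S // Smp_EvSub Ad S})).image
    fun t : Finset {S // Smp_EvSub Ad S} => sSup (Subtype.val '' (t : Set {S // Smp_EvSub Ad S}))).filter (Stab Ad), ?_,
    fun W => ⟨fun hW => ?_, fun hW => (Finset.mem_filter.1 hW).2⟩⟩
  · refine (Finset.card_filter_le _ _).trans (Finset.card_image_le.trans ?_)
    rw [Finset.card_univ, Fintype.card_finset]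
    exact Nat.pow_le_pow_right (by norm_num) hc
  · refine Finset.mem_filter.2 ⟨Finset.mem_image.2
      ⟨Finset.univ.filter fun S => S.1 ≤ W, Finset.mem_univ _, le_antisymm ?_ ?_⟩, hW⟩
    · refine sSup_le ?_
      rintro _ ⟨S, hS, rfl⟩
      simpa using hS
    · refine (F.le_sSup hW).trans (sSup_le_sSup fun S hS => ⟨⟨S, hS.1⟩, ?_, rfl⟩)
      simpa using hS.2

end abstract

theorem sub_stmt : SubStmt := by
  intro k Δ _ _ _ n Ad h
  let B : LinearMap.BilinForm k (Mt n k) :=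
    (LinearMap.mul k (Mt n k)).compr₂ (Matrix.traceLinearMap (Fin n) k k)
  have hB : ∀ A A', B A A' = (A * A').trace := fun _ _ => rfl
  have F : Frm_EvSub Ad B :=
    ⟨fun A A' => Matrix.trace_mul_comm A A', fun δ A A' => by rw [hB, hB, ← h.mul, h.tr], h.iso⟩
  have hsp : ∀ A : Mt n k, (∀ δ, Ad δ A = A) → (A * A).trace = 0 → A = 0 := by
    intro A hA h0
    refine Submodule.span_singleton_eq_bot.1 (h.iso (k ∙ A) ?_ ?_)
    · intro δ X hX
      obtain ⟨c, rfl⟩ := Submodule.mem_span_singleton.1 hX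
      rwa [map_smul, hA]
    · intro X hX Y hY
      obtain ⟨c, rfl⟩ := Submodule.mem_span_singleton.1 hX
      obtain ⟨c', rfl⟩ := Submodule.mem_span_singleton.1 hY
      simp [h0]
  refine ⟨?_, fun W hW => ?_, fun A hA h0 => ?_⟩
  · obtain ⟨s, hs, hs'⟩ := F.count
    refine ⟨s, ?_, hs'⟩
    simpa [Module.finrank_matrix] using hs
  · obtain ⟨π, h1, h2, h3, -⟩ := F.proj hW
    refine ⟨π, h1, h3, fun A A' => ?_⟩
    have e1 := h2 A' _ (h1 A)
    have e2 := (F.symm _ _).trans (h2 A _ (h1 A'))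
    rw [map_sub] at e1
    rw [map_sub, LinearMap.sub_apply] at e2
    rw [← hB, ← hB]
    linear_combination e1 - e2
  · by_cases hn : (n : k) = 0
    · have e := hsp 1 h.one (by simp [hn])
      rw [← mul_one A, e, mul_zero]
    · obtain ⟨l, hl⟩ := IsAlgClosed.exists_eq_mul_self (-(A * A).trace / n)
      have hl' : l * l * n = -(A * A).trace := by rw [← hl, div_mul_cancel₀ _ hn]
      have e := hsp (A + l • 1) (fun δ => by rw [map_add, map_smul, hA, h.one]) (by
        simp only [add_mul, mul_add, Matrix.trace_add, smul_mul_assoc, mul_smul_comm, mul_one,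
          one_mul, Matrix.trace_smul, h0, Matrix.trace_one, Fintype.card_fin, smul_eq_mul]
        linear_combination hl')
      have e2 := congrArg Matrix.trace e
      simp only [Matrix.trace_add, Matrix.trace_smul, h0, Matrix.trace_one, Fintype.card_fin,
        smul_eq_mul, Matrix.trace_zero, zero_add] at e2
      rwa [(mul_eq_zero.1 e2).resolve_right hn, zero_smul, add_zero] at e

end Pool.Agent.MP_f68ac8_nt.Ev
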