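import Mathlib
import Pool.Agent.MP_f68ac8_nt.EvAlg

namespace Pool.Agent.MP_f68ac8_nt.Ev

open Matrix MvPolynomial Finset

theorem coord_EvType {k U V : Type} [Field k] [AddCommGroup U] [Module k U] [AddCommGroup V]
    [Module k V] [Module.Finite k V] (f : U →ₗ[k] V) :
    ∃ m ≤ Module.finrank k V, ∃ (b : Fin m → V) (L : U →ₗ[k] (Fin m → k)),
      Function.Surjective L ∧ (∀ u, f u = ∑ s, L u s • b s) ∧ ∀ s, ∃ u, f u = b s := by
  let B := Module.finBasis k (LinearMap.range f)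
  refine ⟨_, Submodule.finrank_le (LinearMap.range f), fun s => (B s : V),
    B.equivFun.toLinearMap ∘ₗ f.rangeRestrict,
    B.equivFun.surjective.comp f.surjective_rangeRestrict, fun u => ?_, fun s => (B s).2⟩
  have := congrArg Subtype.val (B.sum_equivFun (f.rangeRestrict u))
  rw [Submodule.coe_sum] at this
  exact this.symm

section
variable {k : Type} [Field k] {n m₁ m₂ : ℕ}

/-- the coefficients of an operator -/
def co_EvType (T : Mt n k →ₗ[k] Mt n k) (a c : Ix n) : k := T (single c.1 c.2 1) a.1 a.2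

theorem ap_co_EvType (T : Mt n k →ₗ[k] Mt n k) (X : Mt n k) : ap (co_EvType T) X = T X := by
  ext a b
  conv_rhs => rw [matrix_eq_sum_single X]
  rw [ap, of_apply, Fintype.sum_prod_type, map_sum, Matrix.sum_apply]
  refine sum_congr rfl fun i _ => ?_
  rw [map_sum, Matrix.sum_apply]
  refine sum_congr rfl fun j _ => ?_
  have : (single i j (X i j) : Mt n k) = X i j • single i j 1 := by
    rw [smul_single, smul_eq_mul, mul_one]
  rw [this, map_smul, Matrix.smul_apply, smul_eq_mul, mul_comm]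
  rfl

/-- a move of the adversary from a scalar and a family of operators -/
def mk_EvType (c : k) (T : Nm n m₁ m₂ → Mt n k →ₗ[k] Mt n k) : Bt n m₁ m₂ → k :=
  fun z => z.elim c fun t => co_EvType (T t.1) t.2.1 t.2.2

theorem op_mk_EvType (c : k) (T : Nm n m₁ m₂ → Mt n k →ₗ[k] Mt n k) (κ : Nm n m₁ m₂)
    (X : Mt n k) : op (mk_EvType c T) κ X = T κ X := ap_co_EvType (T κ) X

variable {Δ A : Type} [Group Δ] [Fintype Δ] [Fintype A] [DecidableEq A]

/-- combinations of the group elements -/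
noncomputable def f1_EvType (Ad : Representation k Δ (Mt n k)) :
    (Δ → k) →ₗ[k] (Mt n k →ₗ[k] Mt n k) := Fintype.linearCombination k fun δ => Ad δ

theorem f1_apply_EvType (Ad : Representation k Δ (Mt n k)) (v : Δ → k) (X : Mt n k) :
    f1_EvType Ad v X = ∑ δ, v δ • Ad δ X := by
  rw [f1_EvType, Fintype.linearCombination_apply, LinearMap.sum_apply]
  rfl

/-- the operators coming from units -/
noncomputable def f2_EvType (Ad : Representation k Δ (Mt n k)) (μ : Δ →* Matrix A A ℤ)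
    (u : Ix n → A → k) : (A → k) →ₗ[k] (Ix n → Mt n k →ₗ[k] Mt n k) where
  toFun κ e := f1_EvType Ad fun δ => κ ⬝ᵥ ((μ δ⁻¹).map (Int.cast : ℤ → k) *ᵥ u e)
  map_add' κ κ' := by
    funext e
    rw [Pi.add_apply, ← map_add]
    congr 1
    funext δ
    exact add_dotProduct _ _ _
  map_smul' t κ := by
    funext e
    rw [RingHom.id_apply, Pi.smul_apply, ← map_smul]
    congr 1
    funext δ
    exact smul_dotProduct _ _ _

theorem f2_apply_EvType (Ad : Representation k Δ (Mt n k)) (μ : Δ →* Matrix A A ℤ)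
    (u : Ix n → A → k) (κ : A → k) (e : Ix n) (X : Mt n k) :
    f2_EvType Ad μ u κ e X =
      ∑ δ, (κ ⬝ᵥ ((μ δ⁻¹).map (Int.cast : ℤ → k) *ᵥ u e)) • Ad δ X :=
  f1_apply_EvType Ad _ X

end

section
variable {k Δ A : Type} [Field k] {m₁ m₂ : ℕ}

/-- the random variables as linear functions -/
def LL_EvType (L₁ : (Δ → k) →ₗ[k] (Fin m₁ → k)) (L₂ : (A → k) →ₗ[k] (Fin m₂ → k)) (i : ℕ) :
    (A ⊕ (Fin i × Δ) → k) →ₗ[k] (Rn m₁ m₂ i → k) where
  toFun v := Sum.elim (fun js => L₁ (fun δ => v (.inr (js.1, δ))) js.2) (L₂ fun a => v (.inl a))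
  map_add' v w := by
    funext z
    rcases z with js | s
    · exact congrFun (L₁.map_add (fun δ => v (.inr (js.1, δ))) fun δ => w (.inr (js.1, δ))) js.2
    · exact congrFun (L₂.map_add (fun a => v (.inl a)) fun a => w (.inl a)) s
  map_smul' t v := by
    funext z
    rcases z with js | s
    · exact congrFun (L₁.map_smul t fun δ => v (.inr (js.1, δ))) js.2
    · exact congrFun (L₂.map_smul t fun a => v (.inl a)) s

theorem LL_surj_EvType {L₁ : (Δ → k) →ₗ[k] (Fin m₁ → k)} {L₂ : (A → k) →ₗ[k] (Fin m₂ → k)}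
    (h₁ : Function.Surjective L₁) (h₂ : Function.Surjective L₂) (i : ℕ) :
    Function.Surjective (LL_EvType L₁ L₂ i) := by
  intro t
  choose w hw using fun j : Fin i => h₁ fun s => t (.inl (j, s))
  obtain ⟨w₂, hw₂⟩ := h₂ fun s => t (.inr s)
  refine ⟨Sum.elim w₂ fun x => w x.1 x.2, ?_⟩
  funext z
  rcases z with js | s
  · exact congrFun (hw js.1) js.2
  · exact congrFun hw₂ s

end

section
variable {p : ℕ} {k Δ A : Type} [Field k] [Algebra (ZMod p) k] [Group Δ] [Fintype Δ]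
  {n m₁ m₂ : ℕ}

/-- the random moves attached to a state -/
def xs_EvType (L₁ : (Δ → k) →ₗ[k] (Fin m₁ → k)) (L₂ : (A → k) →ₗ[k] (Fin m₂ → k))
    (s : St p k Δ A) (i : ℕ) : Rn m₁ m₂ i → k :=
  LL_EvType L₁ L₂ i fun a => algebraMap (ZMod p) k (s.rnd i a)

/-- the moves of the adversary attached to a state -/
noncomputable def ys_EvType (Ad : Representation k Δ (Mt n k)) (b : ℕ → Bool)
    (T : Nm n m₁ m₂ → Mt n k →ₗ[k] Mt n k) (s : St p k Δ A) : ℕ → Bt n m₁ m₂ → k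
  | 0 => mk_EvType 0 T
  | j + 1 => mk_EvType (if b j then s.c j else 0) (Sum.elim
      (fun i => if i ≤ j then f1_EvType Ad fun δ => algebraMap (ZMod p) k (s.ν j i δ) else 0) 0)

omit [Group Δ] [Fintype Δ] in
theorem xs_agree_EvType (L₁ : (Δ → k) →ₗ[k] (Fin m₁ → k)) (L₂ : (A → k) →ₗ[k] (Fin m₂ → k))
    {s s' : St p k Δ A} {i : ℕ} (h : s.Agree s' i) :
    ∀ j < i, xs_EvType L₁ L₂ s' j = xs_EvType L₁ L₂ s j := by
  intro j hj
  have : s'.rnd j = s.rnd j := by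
    funext z
    rcases z with a | x
    · exact congrFun (h j hj).1 a
    · exact congrFun ((h x.1 (x.1.2.trans hj)).2.2 j hj) x.2
  rw [xs_EvType, xs_EvType, this]

theorem ys_agree_EvType (Ad : Representation k Δ (Mt n k)) (b : ℕ → Bool)
    (T : Nm n m₁ m₂ → Mt n k →ₗ[k] Mt n k) {s s' : St p k Δ A} {i : ℕ} (h : s.Agree s' i) :
    ∀ j ≤ i, ys_EvType Ad b T s' j = ys_EvType Ad b T s j := by
  intro j hj
  cases j with
  | zero => rfl
  | succ j =>
    have hj' : j < i := hj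
    rw [ys_EvType, ys_EvType, (h j hj').2.1]
    congr 2
    funext i'
    split_ifs with h1
    · rw [(h j hj').2.2 i' (h1.trans_lt hj')]
    · rfl

theorem sol_EvType [Fintype A] [DecidableEq A] {Ad : Representation k Δ (Mt n k)}
    {μ : Δ →* Matrix A A ℤ} {d : ℕ} {b : ℕ → Bool} {W : ℕ → Submodule k (Mt n k)}
    {u : Ix n → A → k} {G : Ix n → Mt n k →ₗ[k] Mt n k} {π : ℕ → Mt n k →ₗ[k] Mt n k}
    {b₁ : Fin m₁ → Mt n k →ₗ[k] Mt n k} {b₂ : Fin m₂ → Ix n → Mt n k →ₗ[k] Mt n k}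
    {L₁ : (Δ → k) →ₗ[k] (Fin m₁ → k)} {L₂ : (A → k) →ₗ[k] (Fin m₂ → k)}
    (hπ : ∀ j, (∀ X, π j X ∈ W j) ∧ (∀ X ∈ W j, π j X = X) ∧
      ∀ X Y, (π j X * Y).trace = (X * π j Y).trace)
    (hL₁ : ∀ v, f1_EvType Ad v = ∑ s, L₁ v s • b₁ s) (hb₁ : ∀ s, ∃ v, f1_EvType Ad v = b₁ s)
    (hL₂ : ∀ v, f2_EvType Ad μ u v = ∑ s, L₂ v s • b₂ s)
    (hG : ∀ (I : Type) [Fintype I] (X : I → Mt n k),
      W 0 = Submodule.span k {Y | ∃ δ i, Y = Ad δ (X i)} → ∀ Y ∈ W 0, ∃ κ : I → A → k,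
        Y = ∑ e, G e (∑ i, ∑ δ, (κ i ⬝ᵥ ((μ δ⁻¹).map (Int.cast : ℤ → k) *ᵥ u e)) • Ad δ (X i)))
    {s : St p k Δ A} (h : s.BadT Ad μ d b W) :
    SolE n m₁ m₂ d k (xs_EvType L₁ L₂ s)
      (ys_EvType Ad b (Sum.elim π (Sum.elim b₁ fun se => b₂ se.1 se.2)) s) := by
  classical
  obtain ⟨X, Y, hnil, ⟨j₀, hj₀, hne⟩, hY, hbr, hun, hW⟩ := h
  have e₁ : ∀ v Z, f1_EvType Ad v Z = ∑ s, L₁ v s • b₁ s Z := by
    intro v Z
    rw [hL₁, LinearMap.sum_apply]
    rfl
  have e₂ : ∀ v e Z, f2_EvType Ad μ u v e Z = ∑ s, L₂ v s • b₂ s e Z := by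
    intro v e Z
    rw [hL₂, Finset.sum_apply, LinearMap.sum_apply]
    rfl
  have hmem : ∀ j i, j ≤ i → i < d → ∀ δ, Ad δ (X i) ∈ W j := by
    intro j i h1 h2 δ
    rw [hW j (h1.trans_lt h2)]
    exact Submodule.subset_span ⟨δ, i, h1, h2, rfl⟩
  have hspan : ∀ j (e : Ix n), ∃ c : ℕ → Fin m₁ → k, j < d →
      π j (single e.1 e.2 1) = ∑ i ∈ Ico j d, ∑ s, c i s • b₁ s (X i) := by
    intro j e
    by_cases hj : j < d
    swap
    · exact ⟨0, fun h => absurd h hj⟩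
    have h1 := (hπ j).1 (single e.1 e.2 1)
    rw [hW j hj] at h1
    suffices H : ∃ c : ℕ → Fin m₁ → k,
        π j (single e.1 e.2 1) = ∑ i ∈ Ico j d, ∑ s, c i s • b₁ s (X i) from
      H.imp fun c hc _ => hc
    generalize π j (single e.1 e.2 1) = Z at h1
    induction h1 using Submodule.span_induction with
    | mem Z hZ =>
      obtain ⟨δ, i, h1, h2, rfl⟩ := hZ
      refine ⟨fun i' => if i' = i then L₁ (Pi.single δ 1) else 0, ?_⟩
      rw [sum_eq_single_of_mem i (mem_Ico.2 ⟨h1, h2⟩)]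
      · beta_reduce
        rw [if_pos rfl, ← e₁, f1_apply_EvType, sum_eq_single δ]
        · rw [Pi.single_eq_same, one_smul]
        · intro δ' _ h3
          rw [Pi.single_eq_of_ne h3, zero_smul]
        · intro h3
          exact absurd (mem_univ _) h3
      · intro i' _ h3
        simp [h3]
    | zero => exact ⟨0, by simp⟩
    | add Z Z' _ _ h1 h2 =>
      obtain ⟨c, rfl⟩ := h1
      obtain ⟨c', rfl⟩ := h2
      exact ⟨c + c', by simp only [Pi.add_apply, add_smul, sum_add_distrib]⟩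
    | smul t Z _ h1 =>
      obtain ⟨c, rfl⟩ := h1
      exact ⟨t • c, by simp only [Pi.smul_apply, smul_eq_mul, mul_smul, smul_sum]⟩
  choose c hc using hspan
  have hW0 : W 0 = Submodule.span k {Z | ∃ δ, ∃ i : Fin d, Z = Ad δ (X i)} := by
    rw [hW 0 (by omega)]
    congr 1
    ext Z
    exact ⟨fun ⟨δ, i, _, h2, h3⟩ => ⟨δ, ⟨i, h2⟩, h3⟩, fun ⟨δ, i, h3⟩ => ⟨δ, i, Nat.zero_le _, i.2, h3⟩⟩
  choose κ hκ using fun e : Ix n =>
    hG (Fin d) (fun i => X i) hW0 _ ((hπ 0).1 (single e.1 e.2 1))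
  obtain ⟨a₀, b₀, hab⟩ : ∃ a₀ b₀, X j₀ a₀ b₀ ≠ 0 := by
    by_contra hn
    push Not at hn
    exact hne (Matrix.ext hn)
  refine ⟨X, fun j a => if j = j₀ ∧ a = (a₀, b₀) then (X j₀ a₀ b₀)⁻¹ else 0, c,
    fun e => co_EvType (G e), fun e i => if h : i < d then L₂ (κ e ⟨i, h⟩) else 0,
    hnil, ?_, fun j _ a a' => ?_, fun j hj => ?_, fun j i h1 h2 t => ?_, fun j hj e => ?_,
    fun j hj => ?_, fun e => ?_, fun e => ?_⟩
  · rw [sum_eq_single_of_mem j₀ (mem_range.2 hj₀), sum_eq_single (a₀, b₀)]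
    · rw [if_pos ⟨rfl, rfl⟩, inv_mul_cancel₀ hab]
    · intro a _ h1
      rw [if_neg fun h => h1 h.2, zero_mul]
    · intro h1
      exact absurd (mem_univ _) h1
    · intro j _ h1
      simp [h1]
  · have := (hπ j).2.2 (single a'.1 a'.2 1) (single a.2 a.1 1)
    rw [trace_mul_single, trace_single_mul] at this
    simpa [ys_EvType, mk_EvType, co_EvType] using this
  · rw [ys_EvType, op_mk_EvType]
    refine (hπ j).2.1 _ ?_
    simpa using hmem j j le_rfl hj 1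
  · rw [ys_EvType, op_mk_EvType, op_mk_EvType]
    refine (hπ j).2.1 _ ?_
    obtain ⟨v, hv⟩ := hb₁ t
    change b₁ t (X i) ∈ W j
    rw [← hv, f1_apply_EvType]
    exact Submodule.sum_mem _ fun δ _ => Submodule.smul_mem _ _ (hmem j i h1 h2 δ)
  · simp only [ys_EvType, op_mk_EvType]
    exact hc j e hj
  · have h1 : ∑ i ∈ range d, col (xs_EvType L₁ L₂ s)
        (ys_EvType Ad b (Sum.elim π (Sum.elim b₁ fun se => b₂ se.1 se.2)) s) j i (X i) = Y j := by
      rw [hY j hj]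
      refine sum_congr rfl fun i _ => ?_
      rw [← f1_apply_EvType, col]
      split_ifs with h2
      · simp only [ys_EvType, op_mk_EvType]
        exact (e₁ (fun δ => algebraMap (ZMod p) k (s.ν j i δ)) (X i)).symm
      · rw [ys_EvType, op_mk_EvType, Sum.elim_inl, if_pos (not_lt.1 h2)]
    rw [h1, hbr j hj]
    rfl
  · simp only [ys_EvType, op_mk_EvType]
    have h1 : ∀ i, ∑ t, xs_EvType L₁ L₂ s i (.inr t) •
        (Sum.elim π (Sum.elim b₁ fun se => b₂ se.1 se.2) : Nm n m₁ m₂ → Mt n k →ₗ[k] Mt n k)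
          (.inr (.inr (t, e))) (X i) = ∑ a, u e a • ∑ δ,
        algebraMap (ZMod p) k (∑ a', μ δ⁻¹ a' a * s.κ i a') • Ad δ (X i) := by
      intro i
      refine (e₂ (fun a => algebraMap (ZMod p) k (s.κ i a)) e (X i)).symm.trans ?_
      rw [f2_apply_EvType]
      simp only [smul_sum, smul_smul]
      rw [sum_comm]
      refine sum_congr rfl fun δ _ => ?_
      rw [← sum_smul]
      congr 1
      simp only [dotProduct, mulVec, map_apply, map_sum, map_mul, map_intCast, mul_sum]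
      rw [sum_comm]
      refine sum_congr rfl fun a _ => sum_congr rfl fun a' _ => ?_
      ring
    rw [sum_congr rfl fun i _ => h1 i, sum_comm]
    refine sum_eq_zero fun a _ => ?_
    rw [← smul_sum, hun a, smul_zero]
  · simp only [ys_EvType, op_mk_EvType, ap_co_EvType]
    refine (hκ e).trans (sum_congr rfl fun e' _ => ?_)
    congr 1
    rw [sum_range]
    refine sum_congr rfl fun i _ => ?_
    rw [dif_pos i.2, ← f2_apply_EvType]
    exact e₂ _ _ _

end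

theorem type_stmt (h1 : GameStmt) (h2 : DerStmt) (h3 : GenStmt) (h4 : NatStmt) (h5 : SubStmt)
    (h6 : RankStmt) (h7 : SZStmt) : TypeStmt := by
  intro n d
  choose D hD using fun m₁ m₂ : ℕ => h1 (Rn m₁ m₂) (Bt n m₁ m₂) d (SolE n m₁ m₂ d)
    (h4 n m₁ m₂ d).1 (h4 n m₁ m₂ d).2.1
    fun Ω _ _ x y h => h3 n m₁ m₂ d Ω x y (h2 _ _ Ω d x y h)
  refine ⟨n * n + ∑ m₁ ∈ range (n * n * (n * n) + 1), ∑ m₂ ∈ range (n * n * (n * n * (n * n)) + 1),
    D m₁ m₂, ?_⟩
  generalize hC : n * n + ∑ m₁ ∈ range (n * n * (n * n) + 1),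
    ∑ m₂ ∈ range (n * n * (n * n * (n * n)) + 1), D m₁ m₂ = C
  intro p _ hp k Δ A _ _ _ _ _ _ _ Ad μ hAd hΔ hμ1 hμ b W hW hW0
  have : CharP k p := charP_of_injective_algebraMap (algebraMap (ZMod p) k).injective p
  have hch : ∀ m : ℕ, 0 < m → m ≤ C → (m : k) ≠ 0 := by
    intro m h0 hm h
    have := Nat.le_of_dvd h0 ((CharP.cast_eq_zero_iff k p m).1 h)
    omega
  have r1 : Module.finrank k (Mt n k) = n * n := by simp [Module.finrank_matrix]
  have r2 : Module.finrank k (Mt n k →ₗ[k] Mt n k) = n * n * (n * n) := by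
    rw [Module.finrank_linearMap, r1]
  have r3 : Module.finrank k (Ix n → Mt n k →ₗ[k] Mt n k) = n * n * (n * n * (n * n)) := by
    rw [Module.finrank_pi_fintype]
    simp [r2]
  obtain ⟨u, G, hG⟩ := h6 k Δ (Mt n k) A (Ix n) Ad μ
    (fun h => hΔ ((CharP.cast_eq_zero_iff k p _).1 h))
    (fun m h0 hm => hch m h0 (by omega)) hμ1 hμ (by simp [r1]) (W 0) (hW 0) hW0
  choose π hπ using fun j => (h5 k Δ n Ad hAd).2.1 (W j) (hW j)
  obtain ⟨m₁, hm₁, b₁, L₁, s₁, hL₁, hb₁⟩ := coord_EvType (f1_EvType Ad)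
  obtain ⟨m₂, hm₂, b₂, L₂, s₂, hL₂, -⟩ := coord_EvType (f2_EvType Ad μ u)
  have hDC : D m₁ m₂ ≤ C := by
    have a1 : D m₁ m₂ ≤ ∑ m₂ ∈ range (n * n * (n * n * (n * n)) + 1), D m₁ m₂ :=
      single_le_sum (f := fun m₂ => D m₁ m₂) (fun _ _ => Nat.zero_le _) (mem_range.2 (by omega))
    have a2 := single_le_sum
      (f := fun m₁ => ∑ m₂ ∈ range (n * n * (n * n * (n * n)) + 1), D m₁ m₂)
      (s := range (n * n * (n * n) + 1)) (fun _ _ => Nat.zero_le _) (a := m₁)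
      (mem_range.2 (by omega))
    omega
  refine ⟨fun i s => ¬ Lose (SolE n m₁ m₂ d k) (D m₁ m₂) (d - i) i (xs_EvType L₁ L₂ s)
    (ys_EvType Ad b (Sum.elim π (Sum.elim b₁ fun se => b₂ se.1 se.2)) s),
    fun s => hD m₁ m₂ k (fun m h0 hm => hch m h0 (hm.trans hDC)) _ _, fun s hs hb => hs ?_,
    fun i hi s hs => ?_⟩
  · rw [Nat.sub_self]
    exact sol_EvType hπ hL₁ hb₁ hL₂ hG hb
  · generalize (Sum.elim π (Sum.elim b₁ fun se => b₂ se.1 se.2) :
      Nm n m₁ m₂ → Mt n k →ₗ[k] Mt n k) = T at hs ⊢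
    have e : d - i = d - (i + 1) + 1 := by omega
    rw [e, Lose] at hs
    push Not at hs
    obtain ⟨Q, hQ, hdeg, hs⟩ := hs
    refine ⟨{v | ∃ x' y', (∀ j < i, x' j = xs_EvType L₁ L₂ s j) ∧
      (∀ j ≤ i, y' j = ys_EvType Ad b T s j) ∧
      x' i = LL_EvType L₁ L₂ i (fun a => algebraMap (ZMod p) k (v a)) ∧
      Lose (SolE n m₁ m₂ d k) (D m₁ m₂) (d - (i + 1)) (i + 1) x' y'}, ?_, ?_, ?_⟩
    · refine le_trans (Nat.mul_le_mul_right p (Set.ncard_le_ncard ?_ (Set.toFinite _)))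
        ((h7 p k _ _ _ (LL_surj_EvType s₁ s₂ i) Q hQ).trans
          (Nat.mul_le_mul_right _ (hdeg.trans hDC)))
      rintro v ⟨x', y', a1, a2, a3, a4⟩
      by_contra hn
      exact hs x' y' a1 a2 (by rw [a3]; exact hn) a4
    · rintro t ht v ⟨x', y', a1, a2, a3, a4⟩
      obtain ⟨x'', y'', c1, c2, c3, c4⟩ := (h4 n m₁ m₂ d).2.2 k _ i _ (algebraMap (ZMod p) k t)
        ((map_ne_zero _).2 ht) x' y' a4
      refine ⟨x'', y'', fun j hj => (c1 j hj).trans (a1 j hj),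
        fun j hj => (c2 j hj).trans (a2 j hj), ?_, c4⟩
      rw [c3, a3, ← map_smul]
      congr 1
      funext a
      simp
    · intro s' hag hn hl
      exact hn ⟨_, _, xs_agree_EvType L₁ L₂ hag, ys_agree_EvType Ad b T hag, rfl, hl⟩

end Pool.Agent.MP_f68ac8_nt.Ev
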