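import Mathlib
import Pool.Agent.MP_f68ac8_nt.EvAux

/-! Linear relations between the values of an equivariant additive map. -/

namespace Pool.Agent.MP_f68ac8_nt.Ev

open NumberField
open scoped Pointwise Topology

section lin
variable {p : ℕ} [hp : Fact p.Prime] {k V : Type} [Field k] [Algebra (ZMod p) k]
  [AddCommGroup V] [Module k V]

lemma cast_ne_EvVec (k : Type) [Field k] [Algebra (ZMod p) k] {n : ℕ} (h : ¬ p ∣ n) :
    (n : k) ≠ 0 := by
  rw [← map_natCast (algebraMap (ZMod p) k), map_ne_zero]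
  exact fun e => h ((ZMod.natCast_eq_zero_iff n p).1 e)

lemma tors_EvVec (k : Type) [Field k] [Algebra (ZMod p) k] [Module k V] {n : ℕ} (h : ¬ p ∣ n)
    {v : V} (hv : n • v = 0) : v = 0 := by
  rw [← Nat.cast_smul_eq_nsmul k] at hv
  exact (smul_eq_zero.1 hv).resolve_left (cast_ne_EvVec k h)

lemma lam_smul_EvVec (lam : V →+ ZMod p) (a : ZMod p) (x : V) :
    lam (algebraMap (ZMod p) k a • x) = a * lam x := by
  obtain ⟨n, rfl⟩ := ZMod.natCast_zmod_surjective a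
  rw [map_natCast, Nat.cast_smul_eq_nsmul, map_nsmul, nsmul_eq_mul]

lemma sep_EvVec (p : ℕ) [Fact p.Prime] (k : Type) [Field k] [Algebra (ZMod p) k] [Module k V]
    {v : V} (h : ∀ lam : V →+ ZMod p, lam v = 0) : v = 0 := by
  let _ : Module (ZMod p) V := Module.compHom V (algebraMap (ZMod p) k)
  exact (Module.forall_dual_apply_eq_zero_iff (ZMod p) v).1 fun φ => h φ.toAddMonoidHom

end lin

section fix
variable {F : IntermediateField ℚ Qb} [Normal ℚ F]

lemma mem_fix_EvVec {g : GQ} : g ∈ F.fixingSubgroup ↔ res F g = 1 := by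
  rw [res_eq_one, IntermediateField.mem_fixingSubgroup_iff]

lemma conj_mem_EvVec (g : GQ) {h : GQ} (hh : h ∈ F.fixingSubgroup) :
    g * h * g⁻¹ ∈ F.fixingSubgroup := by
  rw [mem_fix_EvVec] at hh ⊢
  simp [hh]

lemma res_coe_EvVec (g : GQ) (x : F) : ((res F g x : F) : Qb) = g x :=
  AlgEquiv.restrictNormal_commutes g F x

lemma mem_HH_EvVec {p : ℕ} [Fact p.Prime] {g : GQ} :
    g ∈ HH p F ↔ res F g = 1 ∧ cyc p g = 1 := by
  rw [HH, Subgroup.mem_inf, mem_fix_EvVec, MonoidHom.mem_ker]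

/-- a transversal adapted to the tower -/
lemma trans_EvVec (p : ℕ) [hp : Fact p.Prime] (F : IntermediateField ℚ Qb) [Normal ℚ F] :
    ∃ (Γ : Type) (_ : Fintype Γ) (t : (F ≃ₐ[ℚ] F) × Γ → GQ),
      (∀ g, ∃! i, (t i)⁻¹ * g ∈ HH p F) ∧ (∀ i, res F (t i) = i.1) ∧
        (Fintype.card Γ : ZMod p) ≠ 0 := by
  classical
  let Γ : Subgroup (ZMod p)ˣ := F.fixingSubgroup.map (cyc p)
  have hsc : Function.Surjective (res F) := AlgEquiv.restrictNormalHom_surjective Qb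
  choose sc hsc using hsc
  have hs : ∀ γ : Γ, ∃ g ∈ F.fixingSubgroup, cyc p g = γ := fun γ => γ.2
  choose s hs1 hs2 using hs
  have hres : ∀ i : (F ≃ₐ[ℚ] F) × Γ, res F (sc i.1 * s i.2) = i.1 := fun i => by
    rw [map_mul, hsc, mem_fix_EvVec.1 (hs1 _), mul_one]
  refine ⟨Γ, inferInstance, fun i => sc i.1 * s i.2, fun g => ?_, hres, ?_⟩
  · have h1 : (sc (res F g))⁻¹ * g ∈ F.fixingSubgroup := by
      rw [mem_fix_EvVec]
      simp [hsc]
    refine ⟨(res F g, ⟨cyc p ((sc (res F g))⁻¹ * g), _, h1, rfl⟩), ?_, ?_⟩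
    · refine mem_HH_EvVec.2 ⟨?_, ?_⟩
      · rw [map_mul, map_inv, hres]
        simp
      · simp [hs2]
    · rintro ⟨δ, γ⟩ h
      obtain ⟨h2, h3⟩ := mem_HH_EvVec.1 h
      rw [map_mul, map_inv, hres, inv_mul_eq_one] at h2
      obtain rfl : δ = res F g := h2
      refine Prod.ext rfl (Subtype.ext ?_)
      rw [map_mul, map_inv, inv_mul_eq_one, map_mul, hs2] at h3
      simp [← h3]
  · rw [Ne, ZMod.natCast_eq_zero_iff]
    refine Nat.not_dvd_of_pos_of_lt Fintype.card_pos ?_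
    have h1 : Fintype.card Γ ≤ Fintype.card (ZMod p)ˣ :=
      Fintype.card_le_of_injective _ Subtype.val_injective
    rw [ZMod.card_units] at h1
    have := hp.out.pos
    omega

end fix

/-- equivariant additive maps -/
structure Eqv_EvVec (F : IntermediateField ℚ Qb) [Normal ℚ F] {k V : Type} [Field k]
    [AddCommGroup V] [Module k V] (Ad : Representation k (F ≃ₐ[ℚ] F) V) (f : GQ → V) : Prop where
  add : ∀ g ∈ F.fixingSubgroup, ∀ h ∈ F.fixingSubgroup, f (g * h) = f g + f h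
  conj : ∀ g, ∀ h ∈ F.fixingSubgroup, f (g * h * g⁻¹) = Ad (res F g) (f h)
  nhds : ∀ᶠ g in 𝓝 (1 : GQ), g ∈ F.fixingSubgroup → f g = 0

section main
variable {p : ℕ} [hp : Fact p.Prime] {F : IntermediateField ℚ Qb} [NumberField F] [IsGalois ℚ F]
  {k V : Type} [Field k] [Algebra (ZMod p) k] [AddCommGroup V] [Module k V]
  {Ad : Representation k (F ≃ₐ[ℚ] F) V} {f : GQ → V}

omit [NumberField F] in
lemma Eqv_EvVec.one (hf : Eqv_EvVec F Ad f) : f 1 = 0 := by
  have := hf.add 1 (one_mem _) 1 (one_mem _)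
  simpa using this

omit [NumberField F] in
lemma Eqv_EvVec.pow (hf : Eqv_EvVec F Ad f) {h : GQ} (hh : h ∈ F.fixingSubgroup) (n : ℕ) :
    f (h ^ n) = n • f h := by
  induction n with
  | zero => simpa using hf.one
  | succ n ih => rw [pow_succ, hf.add _ (pow_mem hh n) _ hh, ih, succ_nsmul]

omit [NumberField F] in
lemma Eqv_EvVec.inv (hf : Eqv_EvVec F Ad f) {h : GQ} (hh : h ∈ F.fixingSubgroup) :
    f h⁻¹ = - f h := by
  have := hf.add _ hh _ (inv_mem hh)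
  rw [mul_inv_cancel, hf.one] at this
  exact (neg_eq_of_add_eq_zero_right this.symm).symm

/-- no ramification at primes whose order mod `p` does not divide the degree -/
lemma Eqv_EvVec.unram (hf : Eqv_EvVec F Ad f) {Q : Ideal OQ} [Q.IsMaximal] {l : ℕ} (hl : l.Prime)
    (h : (l : OQ) ∈ Q) (h1 : l ≠ p) (h2 : ¬ l ^ Module.finrank ℚ F ≡ 1 [MOD p]) {u : GQ}
    (hu : u ∈ Q.inertia GQ) (hu' : u ∈ F.fixingSubgroup) : f u = 0 := by
  obtain ⟨σ, hσ⟩ := exists_frob Q hl h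
  obtain ⟨a, ha⟩ := wild_rel hl h hσ hu hf.nhds
  have hw : σ * u * σ⁻¹ * (u ^ l)⁻¹ ∈ F.fixingSubgroup :=
    mul_mem (conj_mem_EvVec σ hu') (inv_mem (pow_mem hu' l))
  have h3 : f _ = 0 := ha (pow_mem hw _)
  rw [hf.pow hw] at h3
  have h4 := tors_EvVec (p := p) k (fun hd => h1 ((Nat.prime_dvd_prime_iff_eq hp.out hl).1
    (hp.out.dvd_of_dvd_pow hd)).symm) h3
  rw [hf.add _ (conj_mem_EvVec σ hu') _ (inv_mem (pow_mem hu' l)), hf.inv (pow_mem hu' l),
    hf.pow hu', hf.conj σ u hu', add_neg_eq_zero] at h4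
  have h5 : ∀ n : ℕ, Ad (res F σ ^ n) (f u) = l ^ n • f u := by
    intro n
    induction n with
    | zero => simp
    | succ n ih =>
      rw [pow_succ, map_mul, Module.End.mul_apply, h4, map_nsmul, ih, pow_succ', mul_smul]
  have h6 := h5 (Module.finrank ℚ F)
  rw [← IsGalois.card_aut_eq_finrank, pow_card_eq_one', map_one, Module.End.one_apply,
    IsGalois.card_aut_eq_finrank] at h6
  obtain ⟨m, hm⟩ : ∃ m, l ^ Module.finrank ℚ F = m + 1 :=
    Nat.exists_eq_succ_of_ne_zero (pow_ne_zero _ hl.ne_zero)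
  rw [hm, succ_nsmul, eq_comm, add_eq_right] at h6
  refine tors_EvVec (p := p) k (fun hd => h2 ?_) h6
  rw [hm]
  exact (Nat.modEq_zero_iff_dvd.mpr hd).add_right 1

/-- the reciprocity law for a linear form of `f` -/
lemma Eqv_EvVec.recip (hf : Eqv_EvVec F Ad f) (hR : RecStmt p) (hT : TrivStmt p)
    (hC : CfgStmt p) (h2 : 2 < p) (hd : ¬ p ∣ Module.finrank ℚ F) (hdi : ¬ (p : ℤ) ∣ discr F)
    {J : Type} [Fintype J] {c : J → Cfg F} (hc : ∀ j, (c j).Ok p)
    (hinj : Function.Injective fun j => (c j).l) :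
    (∀ j, f (c j).τ = 0 → ∀ u ∈ (c j).P.inertia GQ, f u = 0) ∧
    ((∀ Q : Ideal OQ, Q.IsMaximal → (∀ j, ((c j).l : OQ) ∉ Q) → ∀ u ∈ Q.inertia GQ,
      u ∈ F.fixingSubgroup → f u = 0) → ∀ a : 𝓞 F, a ≠ 0 →
      (∀ Q : Ideal OQ, Q.IsMaximal → algebraMap (𝓞 F) OQ a ∈ Q → ∃ j, ((c j).l : OQ) ∈ Q) →
      ∑ j, Tp p Ad a (c j).σ (f (c j).τ) = ∑ j, Tp p Ad a (c j).τ (f (c j).σ)) := by
  obtain ⟨hT1, -, -, M, _, _, -, hFM, hM, hMD⟩ := hT F
  obtain ⟨Γ, _, t, ht, hres, hΓ⟩ := trans_EvVec p F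
  have hle : M.fixingSubgroup ≤ F.fixingSubgroup := hM ▸ inf_le_left
  have key := fun lam : V →+ ZMod p => hR M (hMD h2 hd hdi) _ t (by rw [hM]; exact ht) J
    (fun j => (c j).l) (fun j => (c j).P) (fun j => (c j).σ) (fun j => (c j).τ) hinj
    (fun j => ⟨(hc j).triv.1, (hT1 _ (hc j).triv).1, by rw [hM]; exact (hT1 _ (hc j).triv).2,
      (hc j).max, (hc j).mem, (hc j).frob, (hc j).inert, (hc j).gen⟩) (fun g => lam (f g))
    (fun g hg h hh => by rw [hf.add g (hle hg) h (hle hh), map_add])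
    (by
      filter_upwards [hf.nhds] with g hg hg'
      rw [hg (hle hg'), map_zero])
  refine ⟨fun j hj u hu => sep_EvVec p k fun lam => ?_, fun hA a ha hQ => ?_⟩
  · have := (key lam).1 j u hu
    simpa [hj] using this
  refine sub_eq_zero.1 (sep_EvVec p k fun lam => ?_)
  have h3 := (key lam).2 (fun Q hQ hj u hu hu' => by rw [hA Q hQ hj u hu (hle hu'), map_zero])
    (algebraMap (𝓞 F) OQ a) (fun e => ha (by
      have e1 : ((a : F) : Qb) = 0 := congrArg (fun z : OQ => (z : Qb)) e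
      exact RingOfIntegers.ext (by simpa using e1))) (hFM (a : F).2) hQ
  have hσ : ∀ j, (c j).σ ∈ F.fixingSubgroup := fun j => (((hC F h2).2 _ (hc j)).1).1
  have hτ : ∀ j, (c j).τ ∈ F.fixingSubgroup := fun j =>
    ((((hC F h2).2 _ (hc j)).2.1) (hc j).inert).1
  have e1 : ∀ i, (t i)⁻¹ ((algebraMap (𝓞 F) OQ a : OQ) : Qb) = ((i.1⁻¹ (a : F) : F) : Qb) := by
    intro i
    rw [← hres i, ← map_inv, res_coe_EvVec]
    rfl
  simp only [e1, hf.conj _ _ (hσ _), hf.conj _ _ (hτ _), hres, Fintype.sum_prod_type,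
    Finset.sum_const, Finset.card_univ, nsmul_eq_mul, ← Finset.mul_sum] at h3
  have h4 := (mul_eq_zero.1 h3).resolve_left hΓ
  simp only [Tp, map_sub, map_sum, lam_smul_EvVec]
  simpa only [Finset.sum_sub_distrib] using h4

omit [IsGalois ℚ F] in
lemma Tp_zero_EvVec (a : F) (g : GQ) : Tp p Ad a g 0 = 0 := by simp [Tp]

/-- the relation attached to a member of the family -/
lemma Eqv_EvVec.rel (hf : Eqv_EvVec F Ad f) (hR : RecStmt p) (hT : TrivStmt p)
    (hC : CfgStmt p) (h2 : 2 < p) (hd : ¬ p ∣ Module.finrank ℚ F) (hdi : ¬ (p : ℤ) ∣ discr F)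
    {J : Type} [Fintype J] {c : J → Cfg F} (hc : ∀ j, (c j).Ok p)
    (hinj : Function.Injective fun j => (c j).l)
    (hA : ∀ Q : Ideal OQ, Q.IsMaximal → (∀ j, ((c j).l : OQ) ∉ Q) → ∀ u ∈ Q.inertia GQ,
      u ∈ F.fixingSubgroup → f u = 0) (j : J) :
    (classNumber F : k) • f (c j).σ = ∑ i, Tp p Ad (c j).α (c i).σ (f (c i).τ) := by
  classical
  obtain ⟨-, -, hα, hQ, hδ, -, -⟩ := (hC F h2).2 _ (hc j)
  rw [(hf.recip hR hT hC h2 hd hdi hc hinj).2 hA (c j).α hα fun Q h1 h3 => ⟨j, hQ Q h1 h3⟩,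
    Finset.sum_eq_single j _ (by simp)]
  · rw [Tp, Finset.sum_eq_single 1 _ (by simp)]
    · rw [hδ]
      simp
    · intro δ _ h
      rw [hδ, if_neg (by simpa using h)]
      simp
  · intro i _ hi
    have h3 := ((hC F h2).2 _ (hc i)).2.2.2.2.2.2 _ (hc j) fun e => hi (hinj e).symm
    simp [Tp, h3]

/-- an everywhere unramified map vanishes -/
lemma Eqv_EvVec.zero (hf : Eqv_EvVec F Ad f) (hR : RecStmt p) (hT : TrivStmt p)
    (hS : StepStmt p) (hC : CfgStmt p) (h2 : 2 < p) (hd : ¬ p ∣ Module.finrank ℚ F)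
    (hcl : ¬ p ∣ classNumber F) (hdi : ¬ (p : ℤ) ∣ discr F)
    (hA : ∀ Q : Ideal OQ, Q.IsMaximal → ∀ u ∈ Q.inertia GQ, u ∈ F.fixingSubgroup → f u = 0)
    {h : GQ} (hh : h ∈ F.fixingSubgroup) : f h = 0 := by
  classical
  have hfrob : ∀ l, TrivPrime p F l → ∀ P : Ideal OQ, P.IsMaximal → (l : OQ) ∈ P →
      ∀ σ, IsFrob l P σ → f σ = 0 := by
    intro l hl P hP hlP σ hσ
    obtain ⟨τ, α, hok⟩ := (hC F h2).1 l hl P hP hlP σ hσ
    have h3 := hf.rel hR hT hC h2 hd hdi (J := Unit) (c := fun _ => ⟨l, P, σ, τ, α⟩)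
      (fun _ => hok) (fun _ _ _ => rfl) (fun Q hQ _ => hA Q hQ) ()
    have h4 : f τ = 0 := hA P hP τ hok.inert ((((hC F h2).2 _ hok).2.1) hok.inert).1
    simp only [h4, Tp_zero_EvVec, Finset.sum_const_zero] at h3
    exact (smul_eq_zero.1 h3).resolve_left (cast_ne_EvVec k hcl)
  have hH : ∀ g ∈ HH p F, f g = 0 := by
    intro g hg
    refine sep_EvVec p k fun lam => ?_
    by_contra hne
    have h3 := hS F (ZMod p) (fun g => lam (f g))
      (fun g hg h hh => by rw [hf.add g hg.1 h hh.1, map_add])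
      (by
        filter_upwards [hf.nhds] with g hg hg'
        rw [hg hg'.1, map_zero])
      (fun v => ⟨g ^ (v * (lam (f g))⁻¹).val, pow_mem hg _, by
        rw [hf.pow hg.1, map_nsmul, nsmul_eq_mul, ZMod.natCast_zmod_val,
          inv_mul_cancel_right₀ hne]⟩)
      (fun v => if v = 0 then 0 else 1) (fun t ht v => by simp [ht]) (fun _ => 0)
      (fun _ => le_rfl) (fun _ => zero_le_one) ∅
      (fun l _ hl P hP hlP σ hσ => by simp [hfrob l hl P hP hlP σ hσ])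
    have h4 : lowerMeanOn (TrivPrime p F) (fun _ => 0) = 0 := by simp [lowerMeanOn]
    rw [h4] at h3
    have h5 : (0 : ℝ) < ∑ v : ZMod p, (if v = 0 then 0 else 1 : ℝ) :=
      Finset.sum_pos' (fun v _ => by split_ifs <;> norm_num) ⟨1, Finset.mem_univ _, by simp⟩
    exact absurd h3 (not_le.2 (div_pos h5 (by exact_mod_cast Fintype.card_pos)))
  have h3 := hH (h ^ (p - 1)) (mem_HH_EvVec.2 ⟨mem_fix_EvVec.1 (pow_mem hh _), by
    rw [map_pow]
    exact ZMod.units_pow_card_sub_one_eq_one p _⟩)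
  rw [hf.pow hh] at h3
  exact tors_EvVec (p := p) k (Nat.not_dvd_of_pos_of_lt (by omega) (by omega)) h3

end main

theorem vec_stmt (p : ℕ) [Fact p.Prime] (hK : KKStmt p) (hR : RecStmt p) (hT : TrivStmt p) (hS : StepStmt p) (hC : CfgStmt p) : VecStmt p := by
  intro F _ _ h2 hd hcl hdi k V _ _ _ _ Ad f h1 h3 h4 J _ c hc hinj hun
  have _ := hK
  have hf : Eqv_EvVec F Ad f := ⟨h1, h3, h4⟩
  have hA : ∀ Q : Ideal OQ, Q.IsMaximal → (∀ j, ((c j).l : OQ) ∉ Q) → ∀ u ∈ Q.inertia GQ,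
      u ∈ F.fixingSubgroup → f u = 0 := by
    intro Q hQ hj u hu hu'
    obtain ⟨l, hl, hlQ⟩ := exists_prime_mem Q
    by_cases h : l = p ∨ l ^ Module.finrank ℚ F ≡ 1 [MOD p]
    · exact hun l hl (fun j e => hj j (e ▸ hlQ)) h u hu' ⟨Q, hQ, hlQ, hu⟩
    · rw [not_or] at h
      exact hf.unram hl hlQ h.1 h.2 hu hu'
  have hrec := hf.recip hR hT hC h2 hd hdi hc hinj
  refine ⟨hf.rel hR hT hC h2 hd hdi hc hinj hA, fun e => ?_, ?_⟩
  · rw [hrec.2 hA e e.ne_zero fun Q hQ h =>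
      absurd (Q.eq_top_of_isUnit_mem h (e.isUnit.map _)) hQ.ne_top]
    refine Finset.sum_eq_zero fun j _ => ?_
    have h5 := ((hC F h2).2 _ (hc j)).2.2.2.2.2.1 e
    simp [Tp, h5]
  · rintro ⟨h, hh, hne⟩
    by_contra hcon
    push Not at hcon
    refine hne (hf.zero hR hT hS hC h2 hd hcl hdi (fun Q hQ u hu hu' => ?_) hh)
    by_cases hj : ∃ j, ((c j).l : OQ) ∈ Q
    · obtain ⟨j, hj⟩ := hj
      have := (hc j).max
      obtain ⟨g, hg⟩ := exists_conj (hc j).triv.1 (hc j).mem hj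
      have h5 := hrec.1 j (hcon j) _ (hg u hu)
      have h6 := hf.conj g _ ((((hC F h2).2 _ (hc j)).2.1) (hg u hu)).1
      rw [h5, map_zero] at h6
      simpa [mul_assoc] using h6
    · exact hA Q hQ (fun j h => hj ⟨j, h⟩) u hu hu'

end Pool.Agent.MP_f68ac8_nt.Ev
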