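import Mathlib
import Pool.Agent.MP_f68ac8_nt.EvMain
import Pool.Agent.MP_f68ac8_nt.EvKK
import Pool.Agent.MP_f68ac8_nt.EvRam
import Pool.Agent.MP_f68ac8_nt.EvLocAB
import Pool.Agent.MP_f68ac8_nt.EvR3
import Pool.Agent.MP_f68ac8_nt.EvKum
import Pool.Agent.MP_f68ac8_nt.EvLocT
import Pool.Agent.MP_f68ac8_nt.EvRec
import Pool.Agent.MP_f68ac8_nt.EvTriv
import Pool.Agent.MP_f68ac8_nt.EvStep
import Pool.Agent.MP_f68ac8_nt.EvUnit
import Pool.Agent.MP_f68ac8_nt.EvCfg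
import Pool.Agent.MP_f68ac8_nt.EvDat
import Pool.Agent.MP_f68ac8_nt.EvVec
import Pool.Agent.MP_f68ac8_nt.EvLead
import Pool.Agent.MP_f68ac8_nt.EvGame
import Pool.Agent.MP_f68ac8_nt.EvDer
import Pool.Agent.MP_f68ac8_nt.EvGen
import Pool.Agent.MP_f68ac8_nt.EvNat
import Pool.Agent.MP_f68ac8_nt.EvSub
import Pool.Agent.MP_f68ac8_nt.EvRank
import Pool.Agent.MP_f68ac8_nt.EvSZ
import Pool.Agent.MP_f68ac8_nt.EvType
import Pool.Agent.MP_f68ac8_nt.EvComb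

namespace Pool.Agent.MP_f68ac8_nt.EvenOld

open NumberField Pool.Agent.MP_f68ac8_nt Ev

theorem result (n d : ℕ) : ∃ C : ℝ, ∀ (p : ℕ) [Fact p.Prime]
    (F : IntermediateField ℚ (AlgebraicClosure ℚ)) [NumberField F] [IsGalois ℚ F],
    IsTotallyReal F → ¬ p ∣ Module.finrank ℚ F * classNumber F → ¬ (p : ℤ) ∣ discr F →
    ∀ r : GQ →* GL (Fin n) (Fbar p), (∀ g ∈ F.fixingSubgroup, IsScal (r g)) → NoIso r →
      1 - C / p ≤ setDensOn (TrivPrime p F) d fun S => S.ncard = d ∧ LiftOK p (Zbar p) F r S := by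
  refine main_of (alg_stmt sub_stmt (type_stmt game_stmt der_stmt gen_stmt nat_stmt sub_stmt
    rank_stmt sz_stmt)) unit_stmt setDensOn_mem (fun p _ => ?_) n d
  have hK := kk_stmt p
  have hA := locA_stmt p ram_stmt
  have hL := locT_stmt p hK hA
  have hT := triv_stmt p
  have hS := step_stmt p hT
  have hC := cfg_stmt p hK hL hT
  exact ⟨hK, hS, hC, dat_stmt p hK hC, vec_stmt p hK (rec_stmt p hK hA (locB_stmt p ram_stmt)
    (r3_stmt p) (kum_stmt p hK) hL) hT hS hC, lead_stmt p⟩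

end Pool.Agent.MP_f68ac8_nt.EvenOld
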