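import Mathlib
import Pool.Agent.MP_f68ac8_nt.FourE
import Pool.Agent.MP_f68ac8_nt.Step

namespace Pool.Agent.MP_f68ac8_nt.FourOld

open Pool.Agent.MP_f68ac8_nt

theorem result (n : ℕ) : ∃ C : ℝ, ∀ (p : ℕ) [Fact p.Prime], p ≠ 2 →
    1 - C / p ≤ setDens p 4 fun S => S.ncard = 4 ∧ LabFM p n S := by
  obtain ⟨P, hP, h⟩ := Four.exists_poly4 (n := Fin n)
    fun a : Nat.Primes => IsLocalRing.ResidueField (@Four.OK a ⟨a.2⟩)
  refine dens_of_poly (fun p _ => LabFM p n) P hP fun p hp hp2 m h0 q hq hq2 => ?_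
  refine Four.lab_criterion hp2 hq hq2 fun φ x hx => h ⟨p, hp.out⟩ _ x hx fun e => h0 ?_
  refine φ.injective (Eq.trans ?_ (e.trans (map_zero φ).symm))
  exact MvPolynomial.comp_aeval_apply (fun s : Fin 4 × Fin 4 => m s.1 s.2) φ.toIntAlgHom P

end Pool.Agent.MP_f68ac8_nt.FourOld
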