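import Mathlib
import Pool.Agent.MP_f68ac8_nt.FvAlg
import Pool.Agent.MP_f68ac8_nt.EvGen2

/-! The certificate for the local dimension inequality. -/

namespace Pool.Agent.MP_f68ac8_nt.Ev

open Module Finset Matrix

lemma constr_FvCert {k V : Type} [Field k] [AddCommGroup V] [Module k V] [FiniteDimensional k V]
    (Wa W : Submodule k V) (π ad A : V →ₗ[k] V) (hπ : ∀ Z, π Z ∈ Wa)
    (hrk : finrank k ↥(Wa ⊓ LinearMap.range ad) ≤ finrank k (W.map A)) :
    ∃ Q₀ Q₁ Q₂ Q₃ R : V →ₗ[k] V, (∀ Z, R Z ∈ W) ∧ (∀ Z, Q₀ (ad Z) = 0) ∧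
      ∀ Z, Z = Q₁ (A (R Z)) + Q₂ (Z - π Z) + Q₃ (Q₀ Z) := by
  set T := Wa ⊓ LinearMap.range ad with hT
  obtain ⟨g0, hg0⟩ := (LinearMap.range ad).subtype.exists_leftInverse_of_injective
    (Submodule.ker_subtype _)
  let Q₀ : V →ₗ[k] V := LinearMap.id - (LinearMap.range ad).subtype ∘ₗ g0
  have hQ0 : ∀ Z, Q₀ (ad Z) = 0 := by
    intro Z
    have := LinearMap.congr_fun hg0 ⟨ad Z, Z, rfl⟩
    simp only [LinearMap.comp_apply, Submodule.subtype_apply, LinearMap.id_apply] at this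
    simp [Q₀, this]
  have hQ0' : ∀ Z, Q₀ Z = 0 → Z ∈ LinearMap.range ad := by
    intro Z hZ
    have h : Z = (g0 Z : V) := by simpa [Q₀, sub_eq_zero] using hZ
    rw [h]
    exact (g0 Z).2
  obtain ⟨ρ, hρ⟩ := T.subtype.exists_leftInverse_of_injective (Submodule.ker_subtype _)
  obtain ⟨ι, hι⟩ := finrank_le_iff_exists_linearMap.mp hrk
  obtain ⟨s, hs⟩ := (A.submoduleMap W).exists_rightInverse_of_surjective
    (LinearMap.range_eq_top.mpr (A.submoduleMap_surjective W))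
  obtain ⟨g, hg⟩ := ((W.map A).subtype ∘ₗ ι).exists_leftInverse_of_injective
    (LinearMap.ker_eq_bot.mpr (by
      rw [LinearMap.coe_comp]
      exact (W.map A).injective_subtype.comp hι))
  let F : V →ₗ[k] V × V := (LinearMap.id - π).prod Q₀
  obtain ⟨σ, hσ⟩ := F.rangeRestrict.exists_rightInverse_of_surjective F.range_rangeRestrict
  let P : V →ₗ[k] V := LinearMap.id - T.subtype ∘ₗ ρ
  obtain ⟨G, hG⟩ := LinearMap.exists_extend (P ∘ₗ σ)
  have hP : ∀ Z, F Z = 0 → P Z = 0 := by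
    intro Z hZ
    have h1 : Z - π Z = 0 := congrArg Prod.fst hZ
    have h2 : Q₀ Z = 0 := congrArg Prod.snd hZ
    have hZT : Z ∈ T := ⟨by rw [sub_eq_zero.mp h1]; exact hπ Z, hQ0' Z h2⟩
    have := LinearMap.congr_fun hρ ⟨Z, hZT⟩
    simp only [LinearMap.comp_apply, Submodule.subtype_apply, LinearMap.id_apply] at this
    simp [P, this]
  have hGF : ∀ Z, G (F Z) = P Z := by
    intro Z
    have h1 := LinearMap.congr_fun hG (F.rangeRestrict Z)
    have h2 := congrArg Subtype.val (LinearMap.congr_fun hσ (F.rangeRestrict Z))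
    simp only [LinearMap.comp_apply, Submodule.subtype_apply, LinearMap.id_apply,
      LinearMap.codRestrict_apply, LinearMap.rangeRestrict] at h1 h2
    rw [h1, ← sub_eq_zero, ← map_sub]
    apply hP
    rw [map_sub, sub_eq_zero]
    exact h2
  refine ⟨Q₀, T.subtype ∘ₗ g, G ∘ₗ LinearMap.inl k V V, G ∘ₗ LinearMap.inr k V V,
    W.subtype ∘ₗ s ∘ₗ ι ∘ₗ ρ, fun Z => (s (ι (ρ Z))).2, hQ0, fun Z => ?_⟩
  have h1 : A ((W.subtype ∘ₗ s ∘ₗ ι ∘ₗ ρ) Z) = (ι (ρ Z) : V) :=
    congrArg Subtype.val (LinearMap.congr_fun hs (ι (ρ Z)))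
  have h2 : g (ι (ρ Z) : V) = ρ Z := LinearMap.congr_fun hg (ρ Z)
  have h3 : (G ∘ₗ LinearMap.inl k V V) (Z - π Z) + (G ∘ₗ LinearMap.inr k V V) (Q₀ Z) = P Z := by
    rw [← hGF, LinearMap.comp_apply, LinearMap.comp_apply, ← map_add]
    congr 1
    simp [F]
  rw [add_assoc, h3, h1, LinearMap.comp_apply, h2]
  simp [P]

section
variable {k Δ V : Type} [Field k] [Group Δ] [Fintype Δ] [AddCommGroup V] [Module k V]
  (Ad : Representation k Δ V) (δ : Δ)

lemma av_apply_FvCert (Z : V) :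
    av Ad δ Z = (Fintype.card Δ : k)⁻¹ • ∑ i ∈ range (Fintype.card Δ), Ad (δ ^ i) Z := by
  simp [av, LinearMap.sum_apply]

omit [Fintype Δ] in
lemma pow_eig_FvCert {a : k} {Z : V} (h : Ad δ Z = a • Z) (i : ℕ) : Ad (δ ^ i) Z = a ^ i • Z := by
  induction i with
  | zero => simp
  | succ i ih => rw [pow_succ, map_mul, Module.End.mul_apply, h, map_smul, ih, smul_smul, pow_succ']

lemma av_fix_FvCert (Z : V) : Ad δ (av Ad δ Z) = av Ad δ Z := by
  rw [av_apply_FvCert, map_smul, map_sum]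
  congr 1
  have h1 := Finset.sum_range_succ (fun i => Ad (δ ^ i) Z) (Fintype.card Δ)
  rw [Finset.sum_range_succ', pow_card_eq_one, pow_zero, add_left_inj] at h1
  rw [← h1]
  refine Finset.sum_congr rfl fun i _ => ?_
  rw [pow_succ', map_mul, Module.End.mul_apply]

lemma av_of_fix_FvCert (hN : (Fintype.card Δ : k) ≠ 0) {Z : V} (h : Ad δ Z = Z) :
    av Ad δ Z = Z := by
  have h' : ∀ i : ℕ, Ad (δ ^ i) Z = Z := fun i => by
    rw [pow_eig_FvCert Ad δ (a := 1) (by rw [h, one_smul]) i, one_pow, one_smul]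
  rw [av_apply_FvCert, Finset.sum_congr rfl fun i _ => h' i, Finset.sum_const, Finset.card_range,
    ← Nat.cast_smul_eq_nsmul k, smul_smul, inv_mul_cancel₀ hN, one_smul]

lemma av_mem_FvCert {W : Submodule k V} (hW : Stab Ad W) {Z : V} (h : Z ∈ W) :
    av Ad δ Z ∈ W := by
  rw [av_apply_FvCert]
  exact W.smul_mem _ (W.sum_mem fun i _ => hW _ _ h)

end

section
variable {k Δ : Type} [Field k] [Group Δ] [Fintype Δ] {n : ℕ}
  {Ad : Representation k Δ (Mt n k)} (hA : AdData Ad) (hN : (Fintype.card Δ : k) ≠ 0) (δ : Δ)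
include hA hN

lemma tr_av_FvCert {A : Mt n k} (h : Ad δ A = A) (B : Mt n k) :
    (A * av Ad δ B).trace = (A * B).trace := by
  have h' : ∀ i : ℕ, (A * Ad (δ ^ i) B).trace = (A * B).trace := fun i => by
    have h1 : Ad (δ ^ i) A = A := by
      rw [pow_eig_FvCert Ad δ (a := 1) (by rw [h, one_smul]) i, one_pow, one_smul]
    rw [← hA.tr (δ ^ i) (A * B), hA.mul, h1]
  rw [av_apply_FvCert, Matrix.mul_smul, Matrix.trace_smul, Finset.mul_sum, Matrix.trace_sum,
    Finset.sum_congr rfl fun i _ => h' i, Finset.sum_const, Finset.card_range, nsmul_eq_mul,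
    smul_eq_mul, ← mul_assoc, inv_mul_cancel₀ hN, one_mul]

lemma ad_av_FvCert {a : k} (ha : a ≠ 0) {X Z : Mt n k} (hX : Ad δ X = a • X)
    (hZ : Ad δ (ad_EvGen X Z) = a • ad_EvGen X Z) :
    ad_EvGen X (av Ad δ Z) = ad_EvGen X Z := by
  have h' : ∀ i : ℕ, ad_EvGen X (Ad (δ ^ i) Z) = ad_EvGen X Z := fun i => by
    have h1 := pow_eig_FvCert Ad δ hZ i
    rw [ad_apply_EvGen, map_sub, hA.mul, hA.mul, pow_eig_FvCert Ad δ hX i, Matrix.mul_smul,
      Matrix.smul_mul, ← smul_sub] at h1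
    exact smul_right_injective _ (pow_ne_zero i ha) h1
  rw [av_apply_FvCert, map_smul, map_sum, Finset.sum_congr rfl fun i _ => h' i, Finset.sum_const,
    Finset.card_range, ← Nat.cast_smul_eq_nsmul k, smul_smul, inv_mul_cancel₀ hN, one_smul]

end

theorem cert_stmt (h5 : SubStmt) : CertStmt := by
  intro k Δ _ _ _ _ n Ad hA hN δ a W hW hc
  let Wa : Submodule k (Mt n k) := W ⊓ LinearMap.ker (Ad δ - a • LinearMap.id)
  have hWa : ∀ Z, Z ∈ Wa ↔ Z ∈ W ∧ Ad δ Z = a • Z := by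
    intro Z
    simp [Wa, sub_eq_zero]
  obtain ⟨g, hg⟩ := Wa.subtype.exists_leftInverse_of_injective (Submodule.ker_subtype _)
  refine ⟨Wa.subtype ∘ₗ g, fun X hX hXa => ⟨?_, ?_, ?_⟩⟩
  · exact congrArg Subtype.val (LinearMap.congr_fun hg ⟨X, (hWa X).mpr ⟨hX, hXa⟩⟩)
  · rw [av_apply_FvCert, Finset.sum_congr rfl fun i _ => pow_eig_FvCert Ad δ hXa i,
      ← Finset.sum_smul, smul_smul, brk, Matrix.mul_smul, Matrix.smul_mul, sub_self]
  refine constr_FvCert Wa W (Wa.subtype ∘ₗ g) (ad_EvGen X) (ad_EvGen X ∘ₗ av Ad δ)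
    (fun Z => (g Z).2) ?_
  rcases hc with ha | hb | ht
  · subst ha
    obtain ⟨π0, p1, p2, p3⟩ := (h5 k Δ n Ad hA).2.1 W hW
    have c3 : finrank k ↥(Wa ⊓ LinearMap.range (ad_EvGen X)) +
        finrank k ↥(Wa ⊓ LinearMap.ker (ad_EvGen X)) ≤ finrank k Wa := by
      refine rk_orth_EvGen (((LinearMap.mul k (Matrix (Fin n) (Fin n) k)).compr₂
        (Matrix.traceLinearMap (Fin n) k k))) inf_le_left inf_le_left (fun A hA' h => ?_) ?_
      · obtain ⟨a1, a2⟩ := (hWa A).mp hA'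
        rw [one_smul] at a2
        refine Matrix.ext_iff_trace_mul_right.mpr fun B => ?_
        have h' : (A * av Ad δ (π0 B)).trace = 0 := h _ ((hWa _).mpr
          ⟨av_mem_FvCert Ad δ hW (p1 B), by rw [av_fix_FvCert, one_smul]⟩)
        rw [tr_av_FvCert hA hN δ a2, ← p3, p2 A a1] at h'
        rw [h', zero_mul, Matrix.trace_zero]
      · rintro A ⟨-, hA'⟩ _ ⟨-, N, rfl⟩
        have hA'' : A * X - X * A = 0 := hA'
        change (A * (N * X - X * N)).trace = 0
        rw [mul_sub, Matrix.trace_sub, ← mul_assoc, Matrix.trace_mul_comm _ X, ← mul_assoc,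
          ← mul_assoc, sub_eq_zero.mp hA'', sub_self]
    have c4 := rk_map_EvGen (ad_EvGen X) Wa
    have c5 : finrank k (Wa.map (ad_EvGen X)) ≤ finrank k (W.map (ad_EvGen X ∘ₗ av Ad δ)) := by
      refine Submodule.finrank_mono ?_
      rintro _ ⟨Z, hZ, rfl⟩
      obtain ⟨a1, a2⟩ := (hWa Z).mp hZ
      rw [one_smul] at a2
      exact ⟨Z, a1, by rw [LinearMap.comp_apply, av_of_fix_FvCert Ad δ hN a2]⟩
    exact (Nat.le_of_add_le_add_right (c3.trans c4.ge)).trans c5
  · refine Submodule.finrank_mono fun Z hZ => ?_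
    have h := ((hWa Z).mp hZ.1).1
    rw [hb, Submodule.mem_bot] at h
    rw [h]
    exact Submodule.zero_mem _
  · refine Submodule.finrank_mono ?_
    rintro _ ⟨hZ, Z, rfl⟩
    by_cases ha : a = 0
    · have hX0 : X = 0 := by
        have h : Ad δ⁻¹ (Ad δ X) = X := by
          rw [← Module.End.mul_apply, ← map_mul, inv_mul_cancel, map_one, Module.End.one_apply]
        rw [← h, hXa, ha, zero_smul, map_zero]
      rw [ad_apply_EvGen, hX0, mul_zero, zero_mul, sub_self]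
      exact Submodule.zero_mem _
    by_cases hn : (n : k) = 0
    · have h1 : Submodule.span k {(1 : Mt n k)} = ⊥ := by
        refine hA.iso _ (fun γ A hA' => ?_) fun A hA' B hB => ?_
        · obtain ⟨c, rfl⟩ := Submodule.mem_span_singleton.mp hA'
          rw [map_smul, hA.one]
          exact hA'
        · obtain ⟨c, rfl⟩ := Submodule.mem_span_singleton.mp hA'
          obtain ⟨c', rfl⟩ := Submodule.mem_span_singleton.mp hB
          simp [hn]
      rw [Submodule.span_singleton_eq_bot] at h1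
      rw [← mul_one (ad_EvGen X Z), h1, mul_zero]
      exact Submodule.zero_mem _
    refine ⟨Z - (Z.trace / n) • (1 : Mt n k), ht _ ?_, ?_⟩
    · rw [Matrix.trace_sub, Matrix.trace_smul, Matrix.trace_one, Fintype.card_fin, smul_eq_mul,
        div_mul_cancel₀ _ hn, sub_self]
    · rw [LinearMap.comp_apply, map_sub, map_smul, av_of_fix_FvCert Ad δ hN (hA.one δ), map_sub,
        map_smul, ad_av_FvCert hA hN δ ha hXa ((hWa _).mp hZ).2, ad_apply_EvGen X 1, one_mul,
        mul_one, sub_self, smul_zero, sub_zero]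

end Pool.Agent.MP_f68ac8_nt.Ev
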