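import Mathlib
import Pool.Agent.MP_f68ac8_nt.FvAux
import Pool.Agent.MP_f68ac8_nt.EvCfg
import Pool.Agent.MP_f68ac8_nt.EvRec

/-! The data attached to an unramified prime and the values of Kummer characters on inertia. -/

namespace Pool.Agent.MP_f68ac8_nt.Ev

open NumberField
open Pool.Agent.MP_14ad9d_nt.Full (Pr ord)
open scoped Pointwise

lemma fix_iff_FvCfg (F : IntermediateField ℚ Qb) [Normal ℚ F] {g : GQ} :
    g ∈ F.fixingSubgroup ↔ res F g = 1 := by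
  rw [res_eq_one, IntermediateField.mem_fixingSubgroup_iff]

lemma pow_res_FvCfg (p : ℕ) (F : IntermediateField ℚ Qb) [NumberField F] [IsGalois ℚ F]
    (δ : F ≃ₐ[ℚ] F) : δ ^ mm p F = 1 := by
  rw [mm, pow_mul, ← IsGalois.card_aut_eq_finrank, pow_card_eq_one', one_pow]

lemma pow_mem_FvCfg (p : ℕ) [Fact p.Prime] (F : IntermediateField ℚ Qb) [NumberField F]
    [IsGalois ℚ F] (g : GQ) : g ^ mm p F ∈ HH p F := by
  refine ⟨(fix_iff_FvCfg F).2 ?_, ?_⟩
  · rw [map_pow, pow_res_FvCfg]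
  · change cyc p (g ^ mm p F) = 1
    rw [map_pow, mm, mul_comm, pow_mul, ZMod.units_pow_card_sub_one_eq_one, one_pow]

lemma inert_FvCfg {p : ℕ} [hp : Fact p.Prime] (hT : TrivStmt p) (F : IntermediateField ℚ Qb)
    [NumberField F] [IsGalois ℚ F] {l : ℕ} (hl : l.Prime) (hlp : l ≠ p)
    (hu : ¬ (l : ℤ) ∣ discr F) {P : Ideal OQ} [hP : P.IsMaximal] (hlP : (l : OQ) ∈ P) :
    P.inertia GQ ≤ HH p F := fun _ hg =>
  ⟨(hT F).2.1 l hl hu P hP hlP hg,
    cyc_inertia (not_mem_of_coprime hlP ((Nat.coprime_primes hl hp.out).2 hlp)) hg⟩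

lemma val_FvCfg {p : ℕ} [Fact p.Prime] (hL : LocUStmt p) (hT : TrivStmt p)
    (F : IntermediateField ℚ Qb) [NumberField F] [IsGalois ℚ F] (h2 : 2 < p) {l : ℕ}
    (hl : l.Prime) (hlp : l ≠ p) (hu : ¬ (l : ℤ) ∣ discr F) {P : Ideal OQ} [hP : P.IsMaximal]
    (hlP : (l : OQ) ∈ P) {q : Pr F} (hq : q.asIdeal = P.under (𝓞 F)) :
    (∃ τ ∈ P.inertia GQ, KK p l τ = 1) ∧
      ∀ τ ∈ P.inertia GQ, ∀ y : F, y ≠ 0 → KK p y τ = ord q y * KK p l τ := by
  have hI := inert_FvCfg hT F hl hlp hu hlP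
  obtain ⟨-, -, -, M, _, _, hξ, hFM, hMH, -⟩ := hT F
  obtain ⟨w, hw⟩ := prime_EvCfg M P
  obtain ⟨a1, a2, a3, -⟩ := hL M hξ l h2 hl hlp P w hP hlP hw (hMH ▸ hI)
  obtain ⟨e, he⟩ := over_EvCfg hFM hq hw
  have h3 := he l
  rw [map_natCast, a1] at h3
  have h4 : (e : ℤ) = 1 := Int.eq_one_of_mul_eq_one_right (Int.natCast_nonneg e) h3.symm
  refine ⟨a2, fun τ hτ y hy => ?_⟩
  have h5 := a3 τ hτ (IntermediateField.inclusion hFM y) ((map_ne_zero _).2 hy)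
  rw [he, h4, one_mul] at h5
  exact h5

lemma under_FvCfg (F : IntermediateField ℚ Qb) [Normal ℚ F] {P : Ideal OQ} {σ : GQ}
    (h : σ • P = P) : res F σ • P.under (𝓞 F) = P.under (𝓞 F) := by
  ext x
  rw [Ideal.mem_pointwise_smul_iff_inv_smul_mem, Ideal.mem_comap, Ideal.mem_comap, ← map_inv,
    res_smul, ← Ideal.mem_pointwise_smul_iff_inv_smul_mem, h]

lemma coe_FvCfg (F : IntermediateField ℚ Qb) [Normal ℚ F] (σ : GQ) (a : 𝓞 F) :
    (((res F σ • a : 𝓞 F) : F) : Qb) = σ ((a : F) : Qb) :=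
  congrArg (fun x : OQ => (x : Qb)) (res_smul F σ a)

lemma norm_FvCfg {R Γ : Type} [CommRing R] [IsDomain R] [Group Γ] [MulSemiringAction Γ R]
    (δ : Γ) (m : ℕ) (hm : δ ^ m = 1) (I : Ideal R) (hI : δ • I = I) (h0 : I ≠ ⊥) (a : R)
    (ha : Ideal.span {a} = I) : ∃ α : R, Ideal.span {α} = I ^ m ∧ δ • α = α := by
  have ha0 : a ≠ 0 := by
    rintro rfl
    exact h0 (by rw [← ha, Ideal.span_singleton_zero])
  have h1 : ∀ i : ℕ, Ideal.span {δ ^ i • a} = I := by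
    intro i
    induction i with
    | zero => rw [pow_zero, one_smul, ha]
    | succ i ih =>
      rw [pow_succ', mul_smul, ← hI, ← ih, Ideal.pointwise_smul_def, Ideal.map_span,
        Set.image_singleton]
      rfl
  refine ⟨∏ i ∈ Finset.range m, δ ^ i • a, ?_, ?_⟩
  · rw [← Ideal.prod_span_singleton]
    simp [h1]
  · have e1 := Finset.prod_range_succ (fun i => δ ^ i • a) m
    have e2 := Finset.prod_range_succ' (fun i => δ ^ i • a) m
    rw [hm, one_smul] at e1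
    rw [pow_zero, one_smul, e1] at e2
    rw [Finset.smul_prod', ← mul_left_inj' ha0, e2]
    simp only [pow_succ', mul_smul]

lemma le_FvCfg {p : ℕ} [Fact p.Prime] {G : Subgroup GQ} {F : IntermediateField ℚ Qb}
    [NumberField F] {c : Cfg F} (hc : c.Ok2 p G) {Q : Ideal OQ} [Q.IsMaximal]
    (h : algebraMap (𝓞 F) OQ c.α ∈ Q) : c.P.under (𝓞 F) ≤ Q.under (𝓞 F) := by
  refine Ideal.IsPrime.le_of_pow_le (n := classNumber F * mm p F) ?_
  rw [← hc.span, Ideal.span_singleton_le_iff_mem]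
  exact h

lemma supp_FvCfg {p : ℕ} [Fact p.Prime] {G : Subgroup GQ} {F : IntermediateField ℚ Qb}
    [NumberField F] {c : Cfg F} (hc : c.Ok2 p G) {Q : Ideal OQ} [hQ : Q.IsMaximal]
    (h : algebraMap (𝓞 F) OQ c.α ∈ Q) : ∃ g ∈ F.fixingSubgroup, Q = g • c.P := by
  have := hc.max
  have hm : (c.P.under (𝓞 F)).IsMaximal := Ideal.isMaximal_comap_of_isIntegral_of_isMaximal c.P
  exact trans_rel_EvRec F hc.max hQ
    (hm.eq_of_le (Ideal.IsPrime.ne_top inferInstance) (le_FvCfg hc h))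

lemma ne_FvCfg {p : ℕ} [Fact p.Prime] {G : Subgroup GQ} {F : IntermediateField ℚ Qb}
    [NumberField F] {c : Cfg F} (hc : c.Ok2 p G) : c.α ≠ 0 := by
  have := hc.max
  obtain ⟨q, hq⟩ := prime_EvCfg F c.P
  intro h0
  have h1 := hc.span
  rw [h0, ← hq, Ideal.span_singleton_zero] at h1
  exact pow_ne_zero _ q.ne_bot h1.symm

lemma fix_FvCfg {p : ℕ} [Fact p.Prime] {G : Subgroup GQ} {F : IntermediateField ℚ Qb}
    [NumberField F] [Normal ℚ F] {c : Cfg F} (hc : c.Ok2 p G) {δ : F ≃ₐ[ℚ] F}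
    (hδ : δ ∈ Subgroup.zpowers (res F c.σ)) : δ (c.α : F) = c.α := by
  have h1 : res F c.σ ∈ MulAction.stabilizer (F ≃ₐ[ℚ] F) (c.α : F) :=
    Subtype.ext ((coe_FvCfg F c.σ c.α).trans hc.fix)
  exact (Subgroup.zpowers_le.2 h1) hδ

theorem cfg2_stmt (p : ℕ) [Fact p.Prime] (hW : WildStmt) (hL : LocUStmt p) (hT : TrivStmt p) :
    Cfg2Stmt p := by
  intro F _ _ G h2
  refine ⟨pow_mem_FvCfg p F, fun l hl hlp hu P hP hlP σ hG hσ => ?_, fun c hc => ?_⟩
  · obtain ⟨q, hq⟩ := prime_EvCfg F P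
    obtain ⟨⟨τ, hτ, h1⟩, -⟩ := val_FvCfg hL hT F h2 hl hlp hu hlP hq
    obtain ⟨a, ha⟩ := gen_EvCfg q
    have h3 := under_FvCfg F (stab_EvCfg hl hσ)
    obtain ⟨α, b1, b2⟩ := norm_FvCfg (res F σ) (mm p F) (pow_res_FvCfg p F _)
      (q.asIdeal ^ classNumber F) (by rw [smul_pow', hq, h3]) (pow_ne_zero _ q.ne_bot) a ha
    refine ⟨τ, α, hl, hlp, hu, hP, hlP, hσ, hG, hτ, h1, ?_, ?_⟩
    · rw [pow_mul, ← hq]
      exact b1
    · rw [← coe_FvCfg, b2]
  have hP := hc.max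
  have hI := inert_FvCfg hT F hc.prime hc.ne hc.unr hc.mem
  obtain ⟨q, hq⟩ := prime_EvCfg F c.P
  have hv := (val_FvCfg hL hT F h2 hc.prime hc.ne hc.unr hc.mem hq).2 c.τ hc.inert
  have hz : ∀ a : 𝓞 F, a ∉ c.P.under (𝓞 F) → KK p (a : F) c.τ = 0 := by
    intro a ha
    have h0 : a ≠ 0 := fun e => ha (e ▸ zero_mem _)
    rw [hv a (by simpa using h0), (MP_14ad9d_nt.Full.ord_eq_zero_iff q h0).2 (hq ▸ ha)]
    simp
  refine ⟨hI, ne_FvCfg hc, fun Q _ h => supp_FvCfg hc h, fun δ => ?_, fun e δ => ?_,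
    fun c' hc' hne δ => ?_⟩
  · split_ifs with hδ
    · have h0 := ne_FvCfg hc
      rw [fix_FvCfg hc hδ, hv c.α (by simpa using h0), hc.gen,
        MP_14ad9d_nt.Full.Sym2Aux.ord_int q h0, hc.span, ← hq,
        multiplicity_pow_self q.ne_bot q.prime.not_isUnit]
      simp
    · refine hz (δ • c.α) fun h => hδ ?_
      obtain ⟨g, rfl⟩ := AlgEquiv.restrictNormalHom_surjective Qb δ
      have := max_EvCfg c.P g⁻¹
      obtain ⟨u, hu, h1⟩ := supp_FvCfg hc (move_EvCfg h)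
      have h3 : g * u ∈ MulAction.stabilizer GQ c.P := by
        rw [MulAction.mem_stabilizer_iff, mul_smul, ← h1, smul_inv_smul]
      have h4 := (hW.2.2.2 F c.l c.P c.σ hc.prime hc.max hc.mem hc.frob
        fun v hv => (hI hv).1).2.1 h3
      have h5 : Subgroup.zpowers c.σ ⊔ F.fixingSubgroup ≤
          (Subgroup.zpowers (res F c.σ)).comap (res F) := by
        refine sup_le (Subgroup.zpowers_le.2 (Subgroup.mem_zpowers _)) fun v hv => ?_
        rw [Subgroup.mem_comap, (fix_iff_FvCfg F).1 hv]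
        exact one_mem _
      have h6 := h5 h4
      rwa [Subgroup.mem_comap, map_mul, (fix_iff_FvCfg F).1 hu, mul_one] at h6
  · refine hz (δ • (e : 𝓞 F)) fun h => ?_
    rw [← hq] at h
    exact q.isPrime.ne_top (Ideal.eq_top_of_isUnit_mem _ h
      (e.isUnit.map (MulSemiringAction.toRingHom _ (𝓞 F) δ)))
  · refine hz (δ • c'.α) fun h => ?_
    obtain ⟨g, rfl⟩ := AlgEquiv.restrictNormalHom_surjective Qb δ
    have := max_EvCfg c.P g⁻¹
    have h0 : (c'.l : 𝓞 F) ∈ c'.P.under (𝓞 F) := (nat_under_EvRec F).2 hc'.mem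
    have h1 := smul_nat_EvRec g ((nat_under_EvRec F).1 (le_FvCfg hc' (move_EvCfg h) h0))
    rw [smul_inv_smul] at h1
    exact not_mem_of_coprime hc.mem ((Nat.coprime_primes hc.prime hc'.prime).2 hne.symm) h1

end Pool.Agent.MP_f68ac8_nt.Ev
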