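import Mathlib
import Pool.Agent.MP_f68ac8_nt.FvAlg
import Pool.Agent.MP_f68ac8_nt.EvComb

/-! Combining the finitely many types, twisted version. -/

namespace Pool.Agent.MP_f68ac8_nt.Ev

open Matrix Finset

theorem alg2_stmt (h5 : SubStmt) (hT : Type2Stmt) : Alg2Stmt := by
  intro n d
  obtain ⟨C, hC⟩ := hT n d
  refine ⟨C * (2 ^ d * (2 ^ (n * n)) ^ d), ?_⟩
  intro p _ hp k Δ A _ _ _ _ _ _ _ Ad μ hAd hΔ δ a ha hdich hrank
  classical
  have hpos : 0 < 2 ^ d * (2 ^ (n * n)) ^ d := by positivity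
  have hCp : C < p := lt_of_le_of_lt (Nat.le_mul_of_pos_right C hpos) hp
  obtain ⟨⟨s, hs, hsW⟩, -, -⟩ := h5 k Δ n Ad hAd
  have hC' := hC p hCp k Δ A Ad μ hAd hΔ δ a ha
  let bx : (Fin d → Bool) → ℕ → Bool := fun b j => if h : j < d then b ⟨j, h⟩ else false
  let Wx : (Fin d → s) → ℕ → Submodule k (Mt n k) := fun W j =>
    if h : j < d then (W ⟨j, h⟩ : Submodule k (Mt n k)) else ⊥
  have hst : ∀ W j, Stab Ad (Wx W j) := by
    intro W j
    by_cases h : j < d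
    · simp only [Wx, dif_pos h]
      exact (hsW _).2 (W ⟨j, h⟩).2
    · simp only [Wx, dif_neg h]
      intro δ A hA
      rw [Submodule.mem_bot] at hA ⊢
      rw [hA, map_zero]
  let T := {τ : (Fin d → Bool) × (Fin d → s) // ∀ j, ∀ Z ∈ Wx τ.2 j, Z.trace = 0}
  have hcard : Fintype.card T ≤ 2 ^ d * (2 ^ (n * n)) ^ d := by
    refine (Fintype.card_subtype_le _).trans ?_
    rw [Fintype.card_prod, Fintype.card_fun, Fintype.card_fun, Fintype.card_bool,
      Fintype.card_fin, Fintype.card_coe]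
    exact Nat.mul_le_mul_left _ (Nat.pow_le_pow_left hs d)
  have hdi : ∀ τ : T, ∀ j, a j = 1 ∨ Wx τ.1.2 j = ⊥ ∨
      ∀ Z : Mt n k, Z.trace = 0 → Z ∈ Wx τ.1.2 j := by
    intro τ j
    rcases hdich with h | h
    · exact Or.inl (h j)
    · exact Or.inr (h _ (hst _ j) (τ.2 j))
  choose Safe hS0 hSd hSi using fun τ : T =>
    hC' (bx τ.1.1) (Wx τ.1.2) (hst _) (hdi τ) (hrank _ (hst _ 0) (τ.2 0))
  refine ⟨fun i st => ∀ τ, Safe τ i st, fun st τ => hS0 τ st, ?_, ?_⟩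
  · rintro st hsafe ⟨b, X, Y, hR⟩
    let W : Fin d → s := fun j =>
      ⟨Submodule.span k {Z | ∃ δ i, (j : ℕ) ≤ i ∧ i < d ∧ Z = Ad δ (X i)},
        (hsW _).1 (stab_span_EvComb Ad X j d)⟩
    have hW0 : ∀ j, ∀ Z ∈ Wx W j, Z.trace = 0 := by
      intro j Z hZ
      by_cases hj : j < d
      · simp only [Wx, dif_pos hj, W] at hZ
        exact trace_span_EvComb Ad hAd X j d hR.nil Z hZ
      · simp only [Wx, dif_neg hj, Submodule.mem_bot] at hZ
        rw [hZ, Matrix.trace_zero]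
    refine hSd ⟨(fun j => b j, W), hW0⟩ st (hsafe _)
      ⟨X, Y, ⟨hR.nil, hR.ne, hR.eig, hR.lin, ?_, hR.un⟩, ?_⟩
    · intro j hj
      simp only [bx, dif_pos hj]
      exact hR.br j hj
    · intro j hj
      simp only [Wx, dif_pos hj, W]
  · intro i hi st hsafe
    choose Z hZ1 hZ2 hZ3 using fun τ => hSi τ i hi st (hsafe τ)
    refine ⟨⋃ τ, Z τ, ?_, ?_, ?_⟩
    · rw [Set.iUnion_inter]
      set F := Fx μ (fun j : Fin i => δ j) (δ i) (a i)
      calc (⋃ τ, Z τ ∩ F).ncard * p ≤ (∑ τ, (Z τ ∩ F).ncard) * p :=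
            Nat.mul_le_mul_right _ (Set.ncard_iUnion_le_of_fintype fun τ => Z τ ∩ F)
        _ = ∑ τ, (Z τ ∩ F).ncard * p := Finset.sum_mul _ _ _
        _ ≤ ∑ _τ : T, C * Nat.card F :=
            Finset.sum_le_sum fun τ _ => hZ1 τ
        _ = Fintype.card T * (C * Nat.card F) := by
            rw [Finset.sum_const, Finset.card_univ, smul_eq_mul]
        _ ≤ (2 ^ d * (2 ^ (n * n)) ^ d) * (C * Nat.card F) :=
            Nat.mul_le_mul_right _ hcard
        _ = _ := by ring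
    · intro t ht v hv
      obtain ⟨τ, hτ⟩ := Set.mem_iUnion.1 hv
      exact Set.mem_iUnion.2 ⟨τ, hZ2 τ t ht v hτ⟩
    · intro s' hag hF hs' τ
      exact hZ3 τ s' hag hF fun h => hs' (Set.mem_iUnion.2 ⟨τ, h⟩)

end Pool.Agent.MP_f68ac8_nt.Ev
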