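import Mathlib
import Pool.Agent.MP_f68ac8_nt.FvAux
import Pool.Agent.MP_f68ac8_nt.EvDat
import Pool.Agent.MP_f68ac8_nt.EvMain

/-! The image and the equivariance of the random data over a number field. -/

namespace Pool.Agent.MP_f68ac8_nt.Ev

open NumberField
open scoped Topology

open Classical in
lemma orth_FvDat {Δ R : Type} [Group Δ] [Fintype Δ] [CommRing R] (S : Subgroup Δ) (e u : Δ → R)
    (hu : ∀ x ∈ S, ∀ γ, u (x * γ) = u γ)
    (he : ∀ γ0, ∑ γ, (if γ0 * γ⁻¹ ∈ S then e γ else 0) = 0) : ∑ γ, e γ * u γ = 0 := by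
  rw [← Finset.sum_fiberwise Finset.univ
    (fun γ => (Quotient.mk'' γ : Quotient (QuotientGroup.rightRel S)))]
  refine Finset.sum_eq_zero fun q _ => ?_
  induction q using Quotient.inductionOn' with
  | h γ0 =>
    have h1 : ∀ γ, (Quotient.mk'' γ : Quotient (QuotientGroup.rightRel S)) = Quotient.mk'' γ0 ↔
        γ0 * γ⁻¹ ∈ S := fun γ => by rw [Quotient.eq'', QuotientGroup.rightRel_apply]
    refine Eq.trans ?_ ((congrArg (· * u γ0) (he γ0)).trans (zero_mul _))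
    rw [Finset.sum_filter, Finset.sum_mul]
    refine Finset.sum_congr rfl fun γ _ => ?_
    simp only [h1]
    split_ifs with h
    · rw [← hu _ h γ, inv_mul_cancel_right]
    · rw [zero_mul]

lemma zinv_FvDat {Δ R : Type} [Group Δ] (δ : Δ) (u : Δ → R) (hu : ∀ γ, u (δ * γ) = u γ) :
    ∀ x ∈ Subgroup.zpowers δ, ∀ γ, u (x * γ) = u γ := by
  let S : Subgroup Δ :=
    { carrier := {x | ∀ γ, u (x * γ) = u γ}
      one_mem' := fun γ => by rw [one_mul]
      mul_mem' := fun {a b} ha hb γ => by rw [mul_assoc, ha, hb]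
      inv_mem' := fun {a} ha γ => by rw [← ha, mul_inv_cancel_left] }
  exact fun x hx => (Subgroup.zpowers_le (H := S)).mpr hu hx

section
variable {p : ℕ} [hp : Fact p.Prime] {F : IntermediateField ℚ Qb} [NumberField F] [IsGalois ℚ F]

lemma noroot_FvDat (hT : TrivStmt p) (h2 : 2 < p) (h5 : ¬ (p : ℤ) ∣ discr F) (s : F)
    (hs : s ^ p = 1) : s = 1 := by
  obtain ⟨P, hP, hpP⟩ := exists_maximal_mem (Ω := Qb) hp.out
  have hc : Nat.Coprime 2 p := (Nat.coprime_primes Nat.prime_two hp.out).mpr h2.ne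
  obtain ⟨u, hu, hu'⟩ := cyc_inertia_surj hpP (ZMod.unitOfCoprime 2 hc)
  have h1 : u (s : Qb) = s :=
    (IntermediateField.mem_fixingSubgroup_iff F u).mp ((hT F).2.1 p hp.out h5 P hP hpP hu) s s.2
  have hs' : (s : Qb) ^ p = 1 := by exact_mod_cast congrArg (fun x : F => (x : Qb)) hs
  have h3 := cyc_spec p u hs'
  rw [h1, hu', ZMod.coe_unitOfCoprime, ZMod.val_natCast, Nat.mod_eq_of_lt h2] at h3
  have h0 : (s : Qb) ≠ 0 := fun e => by simp [e, hp.out.ne_zero] at hs'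
  have h4 : (s : Qb) = 1 := mul_left_cancel₀ h0 (by rw [← pow_two, ← h3, mul_one])
  exact Subtype.ext h4

lemma root_FvDat (hK : KKStmt p) (hT : TrivStmt p) (h2 : 2 < p) (h5 : ¬ (p : ℤ) ∣ discr F)
    {s : F} {N : ℕ} (hN : 0 < N) (hs : s ^ N = 1) {g : GQ} (hg : g ∈ HH p F) :
    KK p (s : Qb) g = 0 := by
  have h0 : s ≠ 0 := fun e => by simp [e, hN.ne'] at hs
  have hpos : 0 < orderOf s := (isOfFinOrder_iff_pow_eq_one.mpr ⟨N, hN, hs⟩).orderOf_pos
  have hd : ¬ p ∣ orderOf s := by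
    rintro ⟨k, hk⟩
    have h1 : s ^ k = 1 := noroot_FvDat hT h2 h5 _ (by
      rw [← pow_mul, mul_comm, ← hk, pow_orderOf_eq_one])
    have hk0 : 0 < k := Nat.pos_of_ne_zero fun e => by rw [e, mul_zero] at hk; omega
    have h3 := Nat.le_of_dvd hk0 (orderOf_dvd_of_pow_eq_one h1)
    nlinarith
  have h1 := hK.2.2.1 (s : Qb) (orderOf s : ℕ) g (ne_EvDat h0) (fix_EvDat hg s) (cyc_EvDat hg)
  have h3 := hK.2.2.1 1 0 g one_ne_zero (map_one g) (cyc_EvDat hg)
  have h4 : (s : Qb) ^ orderOf s = 1 := by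
    exact_mod_cast congrArg (fun x : F => (x : Qb)) (pow_orderOf_eq_one s)
  rw [zpow_natCast, h4] at h1
  rw [zpow_zero, h1, Int.cast_zero, zero_mul, Int.cast_natCast] at h3
  exact (mul_eq_zero.mp h3).resolve_left (by rwa [ZMod.natCast_eq_zero_iff])

lemma unit_FvDat (hK : KKStmt p) (hT : TrivStmt p) (h2 : 2 < p) (h5 : ¬ (p : ℤ) ∣ discr F)
    {A : Type} [Fintype A] [DecidableEq A] {ε : A → (𝓞 F)ˣ}
    {μ : (F ≃ₐ[ℚ] F) →* Matrix A A ℤ} (hU : UData2 F ε μ) {g : GQ} (hg : g ∈ HH p F)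
    (δ : F ≃ₐ[ℚ] F) (a : A) : KK p (δ (ε a : 𝓞 F) : F) g =
      ∑ b, μ δ b a * KK p ((ε b : 𝓞 F) : F) g := by
  obtain ⟨s, N, hN, hs, e⟩ := hU.act δ a
  have hf : ∀ x : F, g x = x := fun x => hg.1 x
  have h0 : ∀ b, (((ε b : 𝓞 F) : F) : Qb) ≠ 0 := fun b => by simp
  have hs0 : (s : Qb) ≠ 0 := ne_EvDat fun e => by simp [e, hN.ne'] at hs
  have e' : ((δ (ε a : 𝓞 F) : F) : Qb) = s * ∏ b, (((ε b : 𝓞 F) : F) : Qb) ^ μ δ b a := by
    rw [e]
    push_cast
    rfl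
  rw [e', hK.2.1 _ _ g hs0 (Finset.prod_ne_zero_iff.mpr fun b _ => zpow_ne_zero _ (h0 b)) (hf s)
    (by simp [hf]) hg.2, root_FvDat hK hT h2 h5 hN hs hg, zero_add,
    kk_prod hK hg.2 _ _ (fun b => zpow_ne_zero _ (h0 b)) fun b => by simp [hf]]
  exact Finset.sum_congr rfl fun b _ => hK.2.2.1 _ _ g (h0 b) (hf _) hg.2

omit [IsGalois ℚ F] in
lemma hm_FvDat (h3 : ¬ p ∣ Module.finrank ℚ F) (h4 : ¬ p ∣ classNumber F) :
    ((classNumber F * mm p F : ℕ) : ZMod p) ≠ 0 := by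
  rw [Ne, ZMod.natCast_eq_zero_iff, mm, hp.out.dvd_mul, hp.out.dvd_mul]
  rintro (h | h | h)
  · exact h4 h
  · exact h3 h
  · have h1 := hp.out.two_le
    have := Nat.le_of_dvd (by omega) h
    omega

end

theorem dat2_stmt (p : ℕ) [Fact p.Prime] (hK : KKStmt p) (hT : TrivStmt p) (hC : Cfg2Stmt p) :
    Dat2Stmt p := by
  classical
  intro F _ _ G hp2 hd hh hdisc A _ _ ε μ U
  refine ⟨fun g hg δ a => unit_FvDat hK hT hp2 hdisc U hg δ a, ?_⟩
  intro J _ c hc hinj δs hδ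
  have hC2 := (hC F G hp2).2.2
  let el : A ⊕ (J × Dl G F) → F :=
    Sum.elim (fun a => ((ε a : 𝓞 F) : F)) fun x => x.2.1⁻¹ (c x.1).α
  have hu : ∀ a, ((ε a : 𝓞 F) : F) ≠ 0 := fun a => by simp
  have hel : ∀ x, el x ≠ 0 := by
    rintro (a | x)
    · exact hu a
    · have := (hC2 _ (hc x.1)).2.1
      simpa [el] using this
  have hel' : ∀ x, (el x : Qb) ≠ 0 := fun x => by simpa using hel x
  have hdat : ∀ g x, datum2 p G ε c g x = KK p (el x : Qb) g := by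
    rintro g (a | x) <;> rfl
  have hadd : ∀ g ∈ HH p F, ∀ h ∈ HH p F,
      datum2 p G ε c (g * h) = datum2 p G ε c g + datum2 p G ε c h := fun g hg h hh => by
    funext x
    rw [Pi.add_apply, hdat, hdat, hdat]
    exact hK.2.2.2.1 _ g h (hel' x) (fix_EvDat hg _) (fix_EvDat hh _) (cyc_EvDat hg)
  have hlin : ∀ g, Linv δs (datum2 p G ε c g) := fun g j γ => by
    have h1 : res F (c j).σ ((c j).α : F) = (c j).α :=
      Subtype.ext ((AlgEquiv.restrictNormal_commutes (c j).σ F _).trans (hc j).fix)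
    have h2 : (δs j).1⁻¹ ∈ MulAction.stabilizer (F ≃ₐ[ℚ] F) ((c j).α : F) :=
      (Subgroup.zpowers_le (H := MulAction.stabilizer (F ≃ₐ[ℚ] F) ((c j).α : F))).mpr h1
        (hδ j ▸ inv_mem (Subgroup.mem_zpowers _))
    have h3 : (δs j).1⁻¹ ((c j).α : F) = (c j).α := h2
    have h4 : el (.inr (j, δs j * γ)) = el (.inr (j, γ)) := by
      change ((δs j).1 * γ.1)⁻¹ ((c j).α : F) = γ.1⁻¹ ((c j).α : F)
      rw [mul_inv_rev, AlgEquiv.mul_apply, h3]
    rw [hdat, hdat, h4]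
  refine ⟨hadd, ?_, fun v => ⟨fun hv => ?_, ?_⟩, fun t g hg => ?_⟩
  · have : ∀ᶠ g in 𝓝 (1 : GQ), ∀ x, KK p (el x : Qb) g = 0 :=
      Filter.eventually_all.mpr fun x => hK.2.2.2.2.2.2.1 _ (hel' x)
    filter_upwards [this] with g hg
    funext x
    rw [hdat, hg x, Pi.zero_apply]
  rotate_left
  · rintro ⟨g, -, rfl⟩
    exact hlin g
  · funext x
    rw [hdat, conj_KK_EvDat hK t.1 hg _ (hel x)]
    rcases x with b | ⟨j, γ⟩
    · exact congrArg (fun z => (cyc p t.1 : ZMod p) * z)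
        (unit_FvDat hK hT hp2 hdisc U hg (res F t.1)⁻¹ b)
    · change _ = (cyc p t.1 : ZMod p) *
        KK p (((γ.1 * res F t.1)⁻¹ ((c j).α : F) : F) : Qb) g
      rw [mul_inv_rev, AlgEquiv.mul_apply]
      rfl
  have d1 : datum2 p G ε c 1 = 0 := by simpa using hadd 1 (one_mem _) 1 (one_mem _)
  let W₀ : AddSubgroup (A ⊕ (J × Dl G F) → ZMod p) :=
    { carrier := {v | ∃ g ∈ HH p F, datum2 p G ε c g = v}
      zero_mem' := ⟨1, one_mem _, d1⟩
      add_mem' := by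
        rintro _ _ ⟨g, hg, rfl⟩ ⟨h, hh, rfl⟩
        exact ⟨g * h, mul_mem hg hh, hadd g hg h hh⟩
      neg_mem' := by
        rintro _ ⟨g, hg, rfl⟩
        exact ⟨g⁻¹, inv_mem hg, eq_neg_of_add_eq_zero_left (by
          rw [← hadd _ (inv_mem hg) _ hg, inv_mul_cancel, d1])⟩ }
  by_contra hn
  obtain ⟨f, f0, hf⟩ := (AddSubgroup.toZModSubmodule p W₀).exists_le_ker_of_notMem (v := v) hn
  let e : A ⊕ (J × Dl G F) → ZMod p := fun x => f (Pi.single x 1)
  have hd' : ∀ w : A ⊕ (J × Dl G F) → ZMod p, f w = ∑ x, e x * w x := by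
    intro w
    simp only [e, mul_comm (f _), ← smul_eq_mul, ← map_smul, ← map_sum]
    congr 1
    ext x
    simp [Pi.single_apply]
  have h0 : ∀ g ∈ HH p F, ∑ x, e x * KK p (el x : Qb) g = 0 := fun g hg => by
    have : f (datum2 p G ε c g) = 0 := hf ⟨g, hg, rfl⟩
    rw [hd'] at this
    simpa only [hdat] using this
  have h1 : ∀ j (γ0 : Dl G F), ∑ γ : Dl G F, (if γ0 * γ⁻¹ ∈
      (Subgroup.zpowers (res F (c j).σ)).comap (G.map (res F)).subtype then e (.inr (j, γ))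
        else 0) = 0 := by
    intro j γ0
    obtain ⟨s, hs⟩ : ∃ s : GQ, res F s = γ0.1⁻¹ := AlgEquiv.restrictNormalHom_surjective Qb γ0.1⁻¹
    obtain ⟨c2, -, -, c5, c6, c7⟩ := hC2 _ (hc j)
    have hτ : (c j).τ ∈ HH p F := c2 (hc j).inert
    have h2 := h0 _ (conj_mem_EvDat s hτ)
    simp only [conj_KK_EvDat hK s hτ _ (hel _), hs, inv_inv] at h2
    rw [Fintype.sum_sum_type, Finset.sum_eq_zero, zero_add, Fintype.sum_prod_type,
      Finset.sum_eq_single j] at h2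
    · refine mul_left_cancel₀ (mul_ne_zero (cyc p s).ne_zero (hm_FvDat hd hh)) ?_
      rw [mul_zero, Finset.mul_sum]
      refine Eq.trans ?_ h2
      refine Finset.sum_congr rfl fun γ _ => ?_
      have h4 : KK p ((γ0.1 (el (Sum.inr (j, γ))) : F) : Qb) (c j).τ = _ := c5 (γ0.1 * γ.1⁻¹)
      rw [h4]
      by_cases h : γ0.1 * γ.1⁻¹ ∈ Subgroup.zpowers (res F (c j).σ)
      · rw [if_pos h, if_pos (by exact h)]
        ring
      · rw [if_neg h, if_neg (by exact h)]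
        ring
    · refine fun j' _ hj => Finset.sum_eq_zero fun γ _ => ?_
      have h4 : KK p ((γ0.1 (el (Sum.inr (j', γ))) : F) : Qb) (c j).τ = 0 :=
        c7 (c j') (hc j') (hinj.ne hj) (γ0.1 * γ.1⁻¹)
      rw [h4, mul_zero, mul_zero]
    · simp
    · intro a _
      have h4 : KK p ((γ0.1 (el (Sum.inl a)) : F) : Qb) (c j).τ = 0 := c6 (ε a) γ0.1
      rw [h4, mul_zero, mul_zero]
  have h3 : ∀ u : A ⊕ (J × Dl G F) → ZMod p, Linv δs u →
      ∑ x : J × Dl G F, e (.inr x) * u (.inr x) = 0 := fun u hu => by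
    rw [Fintype.sum_prod_type]
    refine Finset.sum_eq_zero fun j _ => orth_FvDat _ (fun γ => e (.inr (j, γ)))
      (fun γ => u (.inr (j, γ))) (fun x hx => ?_) (h1 j)
    have h4 : x.1 ∈ Subgroup.zpowers (δs j).1 := hδ j ▸ hx
    obtain ⟨k, hk⟩ := h4
    exact zinv_FvDat (δs j) (fun γ => u (.inr (j, γ))) (hu j) x ⟨k, Subtype.ext hk⟩
  have h2 : ∀ a, e (Sum.inl a) = 0 := by
    obtain ⟨m, z, hm, hz⟩ := pow_of_KK_EvDat hK
      (∏ a, ((ε a : 𝓞 F) : F) ^ (e (Sum.inl a)).val)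
      (Finset.prod_ne_zero_iff.mpr fun a _ => pow_ne_zero _ (hu a)) fun g hg => by
        rw [prod_KK_EvDat hK _ hu _ hg]
        have := h0 g hg
        have h5 := h3 _ (hlin g)
        simp only [hdat] at h5
        rw [Fintype.sum_sum_type, h5, add_zero] at this
        exact this
    intro a
    have hpp : p.Prime := Fact.out
    have h3 := U.ind p (fun a => (((e (Sum.inl a)).val * m : ℕ) : ℤ)) z hpp.ne_zero (by
      rw [← hz, ← Finset.prod_pow]
      simp only [zpow_natCast, pow_mul]) a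
    rw [Int.natCast_dvd_natCast] at h3
    have h4 := (hpp.dvd_mul.mp h3).resolve_right hm
    rw [← ZMod.natCast_eq_zero_iff] at h4
    simpa using h4
  refine f0 ?_
  rw [hd', Fintype.sum_sum_type, h3 v hv]
  simp [h2]

end Pool.Agent.MP_f68ac8_nt.Ev
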