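import Mathlib
import Pool.Agent.MP_f68ac8_nt.EvDefs

namespace Pool.Agent.MP_f68ac8_nt

open Filter Topology NumberField
open scoped Pointwise

section
variable {K : Type} [Field K] [NumberField K]

/-- the lower Dirichlet mean of `f` over the set `T` of ideals -/
noncomputable def idMean (T : Ideal (𝓞 K) → Prop) (f : Ideal (𝓞 K) → ℝ) : ℝ :=
  liminf (fun s : ℝ => (∑' q : {q // T q}, f q * (Ideal.absNorm q.1 : ℝ) ^ (-s)) /
    ∑' q : {q // T q}, (Ideal.absNorm q.1 : ℝ) ^ (-s)) (𝓝[>] 1)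

open Classical in
/-- the lower probability that `A` holds for a set obtained by choosing one element of each
`T j`, `j < d`, one after the other, each according to lower Dirichlet density -/
noncomputable def idDens (T : ℕ → Ideal (𝓞 K) → Prop) :
    ℕ → (Set (Ideal (𝓞 K)) → Prop) → ℝ
  | 0, A => if A ∅ then 1 else 0
  | d + 1, A => idMean (T d) fun q => idDens T d fun S => A (insert q S)

end

section
variable {G k : Type} [Group G] [Field k] {n : ℕ} (r : G →* GL (Fin n) k)

/-- subrepresentations of the adjoint representation -/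
def AdStab (W : Submodule k (Matrix (Fin n) (Fin n) k)) : Prop :=
  ∀ g, ∀ A ∈ W, (r g).val * A * (r g)⁻¹.val ∈ W

/-- no nonzero subrepresentation of the adjoint representation is isotropic for the trace form -/
def Aniso : Prop :=
  ∀ W, AdStab r W → (∀ A ∈ W, ∀ B ∈ W, (A * B).trace = 0) → W = ⊥

/-- the trace zero matrices have no proper nonzero subrepresentation -/
def AdIrr : Prop :=
  ∀ W, AdStab r W → (∀ A ∈ W, A.trace = 0) → W = ⊥ ∨ ∀ A, A.trace = 0 → A ∈ W

end

/-- scalar multiples of unipotent matrices -/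
def Unip {R : Type} [CommRing R] {n : ℕ} (A : GL (Fin n) R) : Prop :=
  ∃ c : R, IsNilpotent (A.val - c • 1)

/-- `ρ` reduces to `r` -/
def Lifts {G R : Type} [CommRing R] [IsLocalRing R] {n : ℕ} (ρ : G → GL (Fin n) R)
    (r : G → GL (Fin n) (IsLocalRing.ResidueField R)) : Prop :=
  ∀ g, (ρ g).val.map (IsLocalRing.residue R) = (r g).val

/-- `ρ` is defined over a field of small degree -/
def SmallDeg (p : ℕ) [Fact p.Prime] {G : Type} {n : ℕ} (ρ : G → GL (Fin n) (Zbar p)) : Prop :=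
  ∃ E : IntermediateField ℚ_[p] (PadicAlgCl p), FiniteDimensional ℚ_[p] E ∧
    n ^ 2 * Module.finrank ℚ_[p] E < p - 1 ∧ ∀ g i j, ((ρ g).val i j : PadicAlgCl p) ∈ E

variable (p : ℕ) (K F : IntermediateField ℚ (AlgebraicClosure ℚ))

/-- the Galois group of `F` with the `p`-th roots of unity adjoined -/
noncomputable def Gmu : Subgroup GQ :=
  F.fixingSubgroup ⊓ fixingSubgroup GQ {x : AlgebraicClosure ℚ | x ^ p = 1}

/-- primes of `K` whose decomposition group in `F(μ_p)/K` is generated by `t` -/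
def Typ (t : GQ) (q : Ideal (𝓞 K)) : Prop :=
  ∃ P : Ideal (𝓞 (AlgebraicClosure ℚ)), P.IsMaximal ∧ P.under (𝓞 K) = q ∧
    MulAction.stabilizer GQ P ⊓ K.fixingSubgroup ⊔ Gmu p F = Subgroup.zpowers t ⊔ Gmu p F

/-- `g` lies in the inertia group of the prime `P` and fixes `F` -/
def Iner (P : Ideal (𝓞 (AlgebraicClosure ℚ))) (g : GQ) : Prop :=
  P.IsMaximal ∧ g ∈ P.inertia GQ ∧ g ∈ F.fixingSubgroup

variable {K} {n : ℕ}

/-- `ρ` is scalar on the Galois group of `F` -/
def ScalOn {R : Type} [CommRing R] (ρ : K.fixingSubgroup → GL (Fin n) R) : Prop :=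
  ∀ g : K.fixingSubgroup, g.1 ∈ F.fixingSubgroup → IsScal (ρ g)

/-- the matrices commuting with the image of the complex conjugation of `φ`, if it fixes `K` -/
noncomputable def ConjFix {k : Type} [Field k] (r : K.fixingSubgroup →* GL (Fin n) k)
    (φ : AlgebraicClosure ℚ →+* ℂ) : Submodule k (Matrix (Fin n) (Fin n) k) :=
  ⨅ (c : K.fixingSubgroup) (_ : ∀ x, φ (c.1 x) = starRingEnd ℂ (φ x)),
    LinearMap.eqLocus (LinearMap.mulLeft k (r c).val) (LinearMap.mulRight k (r c).val)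

/-- the condition at the infinite places -/
def Defect {k : Type} [Field k] [NumberField K] (r : K.fixingSubgroup →* GL (Fin n) k) : Prop :=
  ∃ φ : InfinitePlace K → (AlgebraicClosure ℚ →+* ℂ),
    (∀ v, InfinitePlace.mk ((φ v).comp (algebraMap K (AlgebraicClosure ℚ))) = v) ∧
    ∀ W, AdStab r W → (∀ A ∈ W, A.trace = 0) →
      Module.finrank k W ≤ ∑ v, Module.finrank k ↥(W ⊓ ConjFix r (φ v))

variable [Fact p.Prime] [NumberField F]

/-- the local conditions -/
def LocOK (S : Set (Ideal (𝓞 K))) (ρ : K.fixingSubgroup → GL (Fin n) (Zbar p)) : Prop :=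
  ∀ P (g : K.fixingSubgroup), Iner F P g →
    (P.under (𝓞 K) ∉ S → Ideal.absNorm (P.under (𝓞 F)) ≡ 1 [MOD p] → IsScal (ρ g)) ∧
    (↑p ∈ P → ∃ m : ℕ, 0 < m ∧ IsScal (ρ g ^ m)) ∧
    (¬ SmallDeg p ρ → (P.under (𝓞 K) ∈ S → Unip (ρ g)) ∧ (↑p ∈ P → IsScal (ρ g)))

/-- every lift of `r` with the local conditions is scalar on the Galois group of `F` -/
def LiftK (r : K.fixingSubgroup → GL (Fin n) (Fbar p)) (S : Set (Ideal (𝓞 K))) : Prop :=
  ∀ ρ : K.fixingSubgroup →ₜ* GL (Fin n) (Zbar p), Lifts ρ r → LocOK p F S ρ → ScalOn F ρ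

end Pool.Agent.MP_f68ac8_nt
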