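import Mathlib
import Pool.Agent.MP_f68ac8_nt.FvAlg
import Pool.Agent.MP_f68ac8_nt.EvGen

/-! The generic system over a number field has no solution. -/

namespace Pool.Agent.MP_f68ac8_nt.Ev

open Module Finset Matrix

lemma abs_FvGen {k : Type} [Field k] {n d : ℕ} {U σ τ : Type} [AddCommGroup U] [Module k U]
    [FiniteDimensional k U] (π A Q : ℕ → Mt n k →ₗ[k] Mt n k) (b : σ → Mt n k →ₗ[k] Mt n k)
    (u : τ → Mt n k →ₗ[k] U) (X : ℕ → Mt n k) (Φ : ℕ → (Fin d → Mt n k) →ₗ[k] Mt n k)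
    (Ψ : (Fin d → Mt n k) →ₗ[k] U) (H : U →ₗ[k] Mt n k)
    (hT : ∀ j < d, ∀ N, π j (ad_EvGen (X j) N) = ad_EvGen (X j) N →
      ad_EvGen (X j) N ∈ ((tl_EvGen b X d j).map (A j)).map (Q j))
    (gen : ∀ j < d, X j ∈ tl_EvGen b X d j) (kill : ∀ j < d, A j (X j) = 0)
    (rk : tl_EvGen b X d 0 ≤ (tl_EvGen u X d 0).map H)
    (der1 : ∀ i < d, ∀ j < i, ∀ s, ∃ ξ : Fin d → Mt n k,
      (∀ l : Fin d, π l (ξ l) = ξ l ∧ ∃ N, ξ l = N * X l - X l * N) ∧
      Φ j ξ = A j (b s (X i)) ∧ (∀ j' < i, j' ≠ j → Φ j' ξ = 0) ∧ Ψ ξ = 0)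
    (der2 : ∀ i < d, ∀ s, ∃ ξ : Fin d → Mt n k,
      (∀ l : Fin d, π l (ξ l) = ξ l ∧ ∃ N, ξ l = N * X l - X l * N) ∧
      (∀ j < i, Φ j ξ = 0) ∧ Ψ ξ = u s (X i)) :
    ∀ j < d, X j = 0 := by
  let W := tl_EvGen b X d
  let P := tl_EvGen u X d
  let T : ℕ → Submodule k (Mt n k) := fun j =>
    LinearMap.eqLocus (π j) LinearMap.id ⊓ LinearMap.range (ad_EvGen (X j))
  let TT : Submodule k (Fin d → Mt n k) := Submodule.pi Set.univ fun l : Fin d => T l
  have hTT : ∀ ξ : Fin d → Mt n k,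
      (∀ l : Fin d, π l (ξ l) = ξ l ∧ ∃ N, ξ l = N * X l - X l * N) → ξ ∈ TT := by
    intro ξ h l _
    obtain ⟨h1, N, h2⟩ := h l
    exact ⟨h1, N, h2.symm⟩
  have hWd : W d = ⊥ := tl_bot_EvGen b X d d fun i h1 h2 => by omega
  have hPd : P d = ⊥ := tl_bot_EvGen u X d d fun i h1 h2 => by omega
  have c1 := count_EvGen d TT Φ Ψ (fun j i => (W i).map (A j)) P
    (fun j i => Submodule.map_mono (tl_succ_EvGen b X d i)) (tl_succ_EvGen u X d)
    (fun i hi j hj v hv => by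
      have h : W i ≤ ((TT ⊓ (⨅ j' : {j' : ℕ // j' < i ∧ j' ≠ j}, LinearMap.ker (Φ j')) ⊓
          LinearMap.ker Ψ).map (Φ j)).comap (A j) := by
        refine tl_le_EvGen b X d fun i' s h1 h2 => ?_
        obtain ⟨ξ, a1, a2, a3, a4⟩ := der1 i' h2 j (by omega) s
        refine ⟨ξ, ⟨⟨hTT ξ a1, ?_⟩, a4⟩, a2⟩
        exact (Submodule.mem_iInf _).mpr fun j' => a3 j' (by have := j'.2.1; omega) j'.2.2
      obtain ⟨ξ, ⟨⟨a1, a2⟩, a3⟩, a4⟩ := Submodule.map_le_iff_le_comap.mpr h hv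
      exact ⟨ξ, a1, a4, fun j' b1 b2 => (Submodule.mem_iInf _).mp a2 ⟨j', b1, b2⟩, a3⟩)
    (fun i hi v hv => by
      have h : P i ≤ (TT ⊓ ⨅ j' : Fin i, LinearMap.ker (Φ j')).map Ψ := by
        refine tl_le_EvGen u X d fun i' s h1 h2 => ?_
        obtain ⟨ξ, a1, a2, a3⟩ := der2 i' h2 s
        refine ⟨ξ, ⟨hTT ξ a1, ?_⟩, a3⟩
        exact (Submodule.mem_iInf _).mpr fun j' => a2 j' (by have := j'.2; omega)
      obtain ⟨ξ, ⟨a1, a2⟩, a3⟩ := h hv
      exact ⟨ξ, a1, fun j' b1 => (Submodule.mem_iInf _).mp a2 ⟨j', b1⟩, a3⟩)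
    (fun j => by rw [hWd, Submodule.map_bot]) hPd
  rw [rk_pi_EvGen, ← Finset.sum_range fun j => finrank k (T j)] at c1
  have c2 : finrank k (W 0) ≤ finrank k (P 0) :=
    le_trans (Submodule.finrank_mono rk) (Submodule.finrank_map_le H (P 0))
  let z : ℕ → Submodule k (Mt n k) := fun j => W j ⊓ LinearMap.ker (A j)
  let z' : ℕ → Submodule k (Mt n k) := fun j => W (j + 1) ⊓ LinearMap.ker (A j)
  have c3 : ∀ j ∈ range d, finrank k (T j) + finrank k (z j) ≤ finrank k (W j) := by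
    intro j hj
    have h1 : T j ≤ ((W j).map (A j)).map (Q j) := by
      rintro _ ⟨h, N, rfl⟩
      exact hT j (Finset.mem_range.mp hj) N h
    have h2 := (Submodule.finrank_mono h1).trans (Submodule.finrank_map_le _ _)
    have h3 : finrank k ((W j).map (A j)) + finrank k (z j) = finrank k (W j) :=
      rk_map_EvGen _ _
    omega
  have c4 : ∀ j ∈ range d, finrank k ((W (j + 1)).map (A j)) + finrank k (z' j) =
      finrank k (W (j + 1)) := fun j _ => rk_map_EvGen _ _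
  have c5 : ∀ j ∈ range d, finrank k (z' j) ≤ finrank k (z j) := fun j _ =>
    Submodule.finrank_mono (inf_le_inf_right _ (tl_succ_EvGen b X d j))
  have s3 := Finset.sum_le_sum c3
  have s4 := Finset.sum_congr rfl c4
  have s5 := Finset.sum_le_sum c5
  rw [Finset.sum_add_distrib] at s3 s4
  have s6 := Finset.sum_range_succ (fun j => finrank k (W j)) d
  rw [Finset.sum_range_succ'] at s6
  have s7 : ∑ j ∈ range d, finrank k (z' j) = ∑ j ∈ range d, finrank k (z j) := by omega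
  have c6 := (Finset.sum_eq_sum_iff_of_le c5).mp s7
  have c7 : ∀ j < d, X j ∈ W (j + 1) := by
    intro j hj
    have h : z' j = z j := Submodule.eq_of_le_of_finrank_eq
      (inf_le_inf_right _ (tl_succ_EvGen b X d j)) (c6 j (Finset.mem_range.mpr hj))
    have h' : X j ∈ z j := ⟨gen j hj, kill j hj⟩
    rw [← h] at h'
    exact h'.1
  have c8 : ∀ l j, j < d → d ≤ j + l → X j = 0 := by
    intro l
    induction l with
    | zero => intro j h1 h2; omega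
    | succ l ih =>
      intro j h1 h2
      have h := c7 j h1
      rw [show W (j + 1) = ⊥ from tl_bot_EvGen b X d _ fun i a1 a2 => ih i a2 (by omega)] at h
      exact h
  exact fun j hj => c8 d j hj (by omega)

variable {n m₁ m₂ : ℕ} {Ω : Type} [Field Ω]

/-- an entry of the system as a linear map -/
def colL_FvGen (x : ∀ i, Rn m₁ m₂ i → Ω) (y : ℕ → Bt n m₁ m₂ → Ω) (j i : ℕ) :
    Mt n Ω →ₗ[Ω] Mt n Ω :=
  if h : j < i then opL_EvGen (y 0) (.inl (2 * j + 1)) ∘ₗ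
    ∑ s, x i (.inl (⟨j, h⟩, s)) • opL_EvGen (y 0) (.inr (.inl s))
  else opL_EvGen (y (j + 1)) (.inl i)

lemma colL_apply_FvGen (x : ∀ i, Rn m₁ m₂ i → Ω) (y : ℕ → Bt n m₁ m₂ → Ω) (j i : ℕ)
    (X : Mt n Ω) : colL_FvGen x y j i X = colV x y j i X := by
  unfold colL_FvGen colV
  split_ifs
  · rw [LinearMap.comp_apply, LinearMap.sum_apply]
    rfl
  · rfl

/-- the linearized bracket relation -/
def phi_FvGen (d : ℕ) (x : ∀ i, Rn m₁ m₂ i → Ω) (y : ℕ → Bt n m₁ m₂ → Ω) (X : ℕ → Mt n Ω)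
    (j : ℕ) : (Fin d → Mt n Ω) →ₗ[Ω] Mt n Ω :=
  if h : j < d then
    -(ad_EvGen (X j) ∘ₗ (∑ i : Fin d, colL_FvGen x y j i ∘ₗ LinearMap.proj i) -
      ad_EvGen (∑ i ∈ range d, colV x y j i (X i)) ∘ₗ LinearMap.proj ⟨j, h⟩ -
      y (j + 1) none • LinearMap.proj ⟨j, h⟩)
  else 0

/-- the commutator after averaging -/
def aa_FvGen (y : Bt n m₁ m₂ → Ω) (X : ℕ → Mt n Ω) (j : ℕ) : Mt n Ω →ₗ[Ω] Mt n Ω :=
  ad_EvGen (X j) ∘ₗ opL_EvGen y (.inl (2 * j + 1))

lemma aa_apply_FvGen (y : Bt n m₁ m₂ → Ω) (X : ℕ → Mt n Ω) (j : ℕ) (Z : Mt n Ω) :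
    aa_FvGen y X j Z = brk (op y (.inl (2 * j + 1)) Z) (X j) := rfl

section
variable {d : ℕ} {x : ∀ i, Rn m₁ m₂ i → Ω} {y : ℕ → Bt n m₁ m₂ → Ω} {X : ℕ → Mt n Ω}
  {w : ℕ → Ix n → Ω} {c : ℕ → Ix n → ℕ → Fin m₁ → Ω} {c' : ℕ → Fin m₁ → Ω}
  {Q : ℕ → Fin 4 → Ix n → Ix n → Ω} {G : Ix n → Ix n → Ix n → Ω}
  {γ : ℕ → Fin m₁ → ℕ → Fin m₂ → Ω}

lemma diff_FvGen (h : SolV d x y X w c c' Q G γ) (hD : HasDer d x y) {i : ℕ} (hi : i < d)
    (δ : Rn m₁ m₂ i → Ω) : ∃ ξ : Fin d → Mt n Ω,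
      (∀ l : Fin d, opL_EvGen (y 0) (.inl (2 * l)) (ξ l) = ξ l ∧
        ∃ N, ξ l = N * X l - X l * N) ∧
      (∀ j (hj : j < i), phi_FvGen d x y X j ξ = aa_FvGen (y 0) X j
        (∑ s, δ (.inl (⟨j, hj⟩, s)) • opL_EvGen (y 0) (.inr (.inl s)) (X i))) ∧
      psi_EvGen d x y ξ = ∑ s, δ (.inr s) • uu_EvGen (y 0) s (X i) := by
  obtain ⟨D, d1, d2, d3⟩ := hD i hi δ
  have d0 := d1 0 (Nat.zero_le i)
  refine ⟨fun l => dm_EvGen D (X l), fun l => ⟨?_, der_nil D ⟨n, h.nil l l.2⟩⟩, fun j hj => ?_, ?_⟩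
  · change op (y 0) (.inl (2 * l)) (dm_EvGen D (X l)) = dm_EvGen D (X l)
    rw [← dm_op_EvGen D _ d0, h.self l l.2]
  · have hjd : j < d := by omega
    have e1 : dm_EvGen D (∑ l ∈ range d, colV x y j l (X l)) =
        ∑ l : Fin d, colV x y j l (dm_EvGen D (X l)) + op (y 0) (.inl (2 * j + 1))
          (∑ s, δ (.inl (⟨j, hj⟩, s)) • op (y 0) (.inr (.inl s)) (X i)) := by
      have e2 : ∀ l ∈ range d, dm_EvGen D (colV x y j l (X l)) =
          colV x y j l (dm_EvGen D (X l)) + if l = i then op (y 0) (.inl (2 * j + 1))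
            (∑ s, δ (.inl (⟨j, hj⟩, s)) • op (y 0) (.inr (.inl s)) (X i)) else 0 := by
        intro l hl
        unfold colV
        by_cases h1 : j < l
        · rw [dif_pos h1, dif_pos h1, dm_op_EvGen D _ d0, map_sum]
          simp only [dm_smul_EvGen, dm_op_EvGen D _ d0, Finset.sum_add_distrib]
          rw [← opL_apply_EvGen (y 0) (.inl (2 * j + 1)), map_add, add_comm]
          congr 1
          split_ifs with h2
          · subst h2
            simp only [d2]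
            rfl
          · simp only [d3 l (Finset.mem_range.mp hl) h2, zero_smul, Finset.sum_const_zero,
              map_zero]
        · rw [dif_neg h1, dif_neg h1, if_neg (by omega), add_zero,
            dm_op_EvGen D _ (d1 (j + 1) hj)]
      rw [map_sum, Finset.sum_congr rfl e2, Finset.sum_add_distrib, Finset.sum_ite_eq',
        if_pos (Finset.mem_range.mpr hi), Finset.sum_range]
    have e3 := congrArg (dm_EvGen D) (h.br j hjd)
    rw [brk, map_sub, dm_mul_EvGen, dm_mul_EvGen, dm_smul_EvGen, d1 (j + 1) hj, zero_smul,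
      zero_add, e1] at e3
    rw [phi_FvGen, dif_pos hjd]
    simp only [LinearMap.neg_apply, LinearMap.sub_apply, LinearMap.comp_apply,
      LinearMap.sum_apply, LinearMap.smul_apply, LinearMap.proj_apply, colL_apply_FvGen,
      ad_apply_EvGen]
    rw [← e3]
    change _ = op (y 0) (.inl (2 * j + 1))
        (∑ s, δ (.inl (⟨j, hj⟩, s)) • op (y 0) (.inr (.inl s)) (X i)) * X j -
      X j * op (y 0) (.inl (2 * j + 1))
        (∑ s, δ (.inl (⟨j, hj⟩, s)) • op (y 0) (.inr (.inl s)) (X i))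
    noncomm_ring
  · funext e
    have e2 : ∀ l ∈ range d,
        dm_EvGen D (∑ s, x l (.inr s) • op (y 0) (.inr (.inr (s, e))) (X l)) =
          ∑ s, x l (.inr s) • op (y 0) (.inr (.inr (s, e))) (dm_EvGen D (X l)) +
          if l = i then ∑ s, δ (.inr s) • op (y 0) (.inr (.inr (s, e))) (X i) else 0 := by
      intro l hl
      rw [map_sum]
      simp only [dm_smul_EvGen, dm_op_EvGen D _ d0, Finset.sum_add_distrib]
      rw [add_comm]
      congr 1
      split_ifs with h2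
      · subst h2
        simp only [d2]
      · simp only [d3 l (Finset.mem_range.mp hl) h2, zero_smul, Finset.sum_const_zero]
    have e3 := congrArg (dm_EvGen D) (h.un e)
    rw [map_sum, Finset.sum_congr rfl e2, Finset.sum_add_distrib, Finset.sum_ite_eq',
      if_pos (Finset.mem_range.mpr hi), Finset.sum_range, map_zero] at e3
    simp only [psi_EvGen, LinearMap.neg_apply, LinearMap.comp_apply, LinearMap.sum_apply,
      LinearMap.smul_apply, LinearMap.proj_apply, Pi.neg_apply, Finset.sum_apply, Pi.smul_apply]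
    exact neg_eq_of_add_eq_zero_right e3

lemma cert_FvGen (h : SolV d x y X w c c' Q G γ) (j : ℕ) (hj : j < d) (N : Mt n Ω)
    (hN : opL_EvGen (y 0) (.inl (2 * j)) (ad_EvGen (X j) N) = ad_EvGen (X j) N) :
    ad_EvGen (X j) N ∈ ((tl_EvGen (fun s => opL_EvGen (y 0) (.inr (.inl s))) X d j).map
      (aa_FvGen (y 0) X j)).map (apL_EvGen (Q j 1)) := by
  have h1 : apL_EvGen (Q j 0) (ad_EvGen (X j) N) = 0 :=
    mem_single_EvGen (apL_EvGen (Q j 0) ∘ₗ ad_EvGen (X j)) ⊥ (fun e => h.ann j hj e) N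
  have h2 := mem_single_EvGen (LinearMap.id - apL_EvGen (Q j 2) ∘ₗ
      (LinearMap.id - opL_EvGen (y 0) (.inl (2 * j))) - apL_EvGen (Q j 3) ∘ₗ apL_EvGen (Q j 0))
    (((tl_EvGen (fun s => opL_EvGen (y 0) (.inr (.inl s))) X d j).map
      (aa_FvGen (y 0) X j)).map (apL_EvGen (Q j 1))) (fun e => by
      refine ⟨_, ⟨∑ i ∈ Ico j d, ∑ s, c j e i s • op (y 0) (.inr (.inl s)) (X i), ?_, rfl⟩, ?_⟩
      · refine Submodule.sum_mem _ fun i hi => Submodule.sum_mem _ fun s _ =>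
          Submodule.smul_mem _ _ ?_
        exact tl_mem_EvGen (fun s => opL_EvGen (y 0) (.inr (.inl s))) X d
          (Finset.mem_Ico.mp hi).1 (Finset.mem_Ico.mp hi).2 s
      · exact eq_sub_of_add_eq (eq_sub_of_add_eq' (by
          rw [add_comm, add_right_comm]
          exact (h.cert j hj e).symm))) (ad_EvGen (X j) N)
  simpa only [LinearMap.sub_apply, LinearMap.comp_apply, LinearMap.id_apply, hN, h1, sub_self,
    map_zero, sub_zero] using h2

lemma gen_FvGen (h : SolV d x y X w c c' Q G γ) (j : ℕ) (hj : j < d) :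
    X j ∈ tl_EvGen (fun s => opL_EvGen (y 0) (.inr (.inl s))) X d j := by
  have h1 : ∑ s, c' j s • op (y 0) (.inr (.inl s)) (X j) ∈
      tl_EvGen (fun s => opL_EvGen (y 0) (.inr (.inl s))) X d j :=
    Submodule.sum_mem _ fun s _ => Submodule.smul_mem _ _
      (tl_mem_EvGen (fun s => opL_EvGen (y 0) (.inr (.inl s))) X d le_rfl hj s)
  rwa [← h.gen j hj] at h1

lemma rk_FvGen (h : SolV d x y X w c c' Q G γ) :
    tl_EvGen (fun s => opL_EvGen (y 0) (.inr (.inl s))) X d 0 ≤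
      (tl_EvGen (uu_EvGen (y 0)) X d 0).map (∑ e, apL_EvGen (G e) ∘ₗ LinearMap.proj e) := by
  refine tl_le_EvGen _ X d fun i s _ hi => ?_
  refine ⟨∑ i' ∈ range d, ∑ s', γ i s i' s' • uu_EvGen (y 0) s' (X i'), ?_, ?_⟩
  · exact Submodule.sum_mem _ fun i hi => Submodule.sum_mem _ fun s _ =>
      Submodule.smul_mem _ _ (tl_mem_EvGen _ X d (Nat.zero_le i) (Finset.mem_range.mp hi) s)
  · rw [opL_apply_EvGen, h.rk i hi s, LinearMap.sum_apply]
    refine Finset.sum_congr rfl fun e' _ => ?_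
    simp only [LinearMap.comp_apply, LinearMap.proj_apply, Finset.sum_apply, Pi.smul_apply]
    rfl

lemma der1_FvGen (h : SolV d x y X w c c' Q G γ) (hD : HasDer d x y) (i : ℕ) (hi : i < d) (j : ℕ)
    (hj : j < i) (s : Fin m₁) : ∃ ξ : Fin d → Mt n Ω,
      (∀ l : Fin d, opL_EvGen (y 0) (.inl (2 * l)) (ξ l) = ξ l ∧
        ∃ N, ξ l = N * X l - X l * N) ∧
      phi_FvGen d x y X j ξ = aa_FvGen (y 0) X j (opL_EvGen (y 0) (.inr (.inl s)) (X i)) ∧
      (∀ j' < i, j' ≠ j → phi_FvGen d x y X j' ξ = 0) ∧ psi_EvGen d x y ξ = 0 := by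
  obtain ⟨ξ, a1, a2, a3⟩ := diff_FvGen h hD hi (Pi.single (.inl (⟨j, hj⟩, s)) 1)
  refine ⟨ξ, a1, ?_, fun j' b1 b2 => ?_, ?_⟩
  · rw [a2 j hj]
    simp [Pi.single_apply]
  · rw [a2 j' b1]
    simp [b2]
  · rw [a3]
    simp

lemma der2_FvGen (h : SolV d x y X w c c' Q G γ) (hD : HasDer d x y) (i : ℕ) (hi : i < d)
    (s : Fin m₂) : ∃ ξ : Fin d → Mt n Ω,
      (∀ l : Fin d, opL_EvGen (y 0) (.inl (2 * l)) (ξ l) = ξ l ∧
        ∃ N, ξ l = N * X l - X l * N) ∧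
      (∀ j < i, phi_FvGen d x y X j ξ = 0) ∧ psi_EvGen d x y ξ = uu_EvGen (y 0) s (X i) := by
  obtain ⟨ξ, a1, a2, a3⟩ := diff_FvGen h hD hi (Pi.single (.inr s) 1)
  refine ⟨ξ, a1, fun j hj => ?_, ?_⟩
  · rw [a2 j hj]
    simp
  · rw [a3]
    simp [Pi.single_apply]

lemma zero_FvGen (h : SolV d x y X w c c' Q G γ) (hD : HasDer d x y) : ∀ j < d, X j = 0 :=
  abs_FvGen (fun j => opL_EvGen (y 0) (.inl (2 * j))) (aa_FvGen (y 0) X)
    (fun j => apL_EvGen (Q j 1)) (fun s => opL_EvGen (y 0) (.inr (.inl s))) (uu_EvGen (y 0)) X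
    (phi_FvGen d x y X) (psi_EvGen d x y) (∑ e, apL_EvGen (G e) ∘ₗ LinearMap.proj e)
    (cert_FvGen h) (gen_FvGen h) h.kill (rk_FvGen h) (der1_FvGen h hD) (der2_FvGen h hD)

end

theorem gen2_stmt : Gen2Stmt := by
  intro n m₁ m₂ d Ω _ _ x y hD ⟨X, w, c, c', Q, G, γ, h⟩
  have h1 := h.ne
  rw [Finset.sum_eq_zero fun j hj => by simp [zero_FvGen h hD j (Finset.mem_range.mp hj)]] at h1
  exact zero_ne_one h1

end Pool.Agent.MP_f68ac8_nt.Ev
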