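import Mathlib
import Pool.Agent.MP_f68ac8_nt.FvAlg
import Pool.Agent.MP_f68ac8_nt.EvNat

namespace Pool.Agent.MP_f68ac8_nt.Ev

open Matrix MvPolynomial Finset

section map
variable {n m₁ m₂ : ℕ} {R S : Type} [CommRing R] [CommRing S] (φ : R →+* S)

theorem brk_FvNat (A B : Mt n R) :
    φ.mapMatrix (brk A B) = brk (φ.mapMatrix A) (φ.mapMatrix B) := by
  simp only [brk, map_sub, map_mul]

theorem colV_FvNat (x : ∀ i, Rn m₁ m₂ i → R) (y : ℕ → Bt n m₁ m₂ → R) (j i : ℕ) (X : Mt n R) :
    φ.mapMatrix (colV x y j i X) =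
      colV (fun i a => φ (x i a)) (fun i b => φ (y i b)) j i (φ.mapMatrix X) := by
  unfold colV
  split_ifs
  · simp only [map_sum, smul_EvNat, op_EvNat]
  · exact op_EvNat φ _ _ _

variable {d : ℕ} {x : ∀ i, Rn m₁ m₂ i → R} {y : ℕ → Bt n m₁ m₂ → R} {X : ℕ → Mt n R}
  {w : ℕ → Ix n → R} {c : ℕ → Ix n → ℕ → Fin m₁ → R} {c' : ℕ → Fin m₁ → R}
  {Q : ℕ → Fin 4 → Ix n → Ix n → R} {G : Ix n → Ix n → Ix n → R}
  {γ : ℕ → Fin m₁ → ℕ → Fin m₂ → R}

theorem SolV.map_FvNat (h : SolV d x y X w c c' Q G γ) :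
    SolV d (fun i a => φ (x i a)) (fun i b => φ (y i b)) (fun j => φ.mapMatrix (X j))
      (fun j a => φ (w j a)) (fun j e i s => φ (c j e i s)) (fun j s => φ (c' j s))
      (fun j r a b => φ (Q j r a b)) (fun e a b => φ (G e a b))
      fun i s i' s' => φ (γ i s i' s') where
  nil j hj := by simpa only [map_pow, map_zero] using congrArg φ.mapMatrix (h.nil j hj)
  ne := by simpa only [map_sum, map_mul, map_one, entry_EvNat] using congrArg φ h.ne
  self j hj := by simpa only [op_EvNat] using congrArg φ.mapMatrix (h.self j hj)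
  gen j hj := by
    simpa only [op_EvNat, map_sum, smul_EvNat] using congrArg φ.mapMatrix (h.gen j hj)
  kill j hj := by
    simpa only [op_EvNat, brk_FvNat, map_zero] using congrArg φ.mapMatrix (h.kill j hj)
  ann j hj e := by
    simpa only [ap_EvNat, brk_FvNat, map_zero, single_EvNat] using
      congrArg φ.mapMatrix (h.ann j hj e)
  cert j hj e := by
    simpa only [ap_EvNat, op_EvNat, brk_FvNat, map_add, map_sub, map_sum, smul_EvNat,
      single_EvNat] using congrArg φ.mapMatrix (h.cert j hj e)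
  br j hj := by
    simpa only [brk_FvNat, map_sum, smul_EvNat, colV_FvNat] using
      congrArg φ.mapMatrix (h.br j hj)
  un e := by
    simpa only [op_EvNat, map_sum, smul_EvNat, map_zero] using congrArg φ.mapMatrix (h.un e)
  rk i hi s := by
    simpa only [op_EvNat, ap_EvNat, map_sum, smul_EvNat] using
      congrArg φ.mapMatrix (h.rk i hi s)

theorem SolV.of_map_FvNat {α : Type} {K : α → Type} [∀ u, CommRing (K u)] (ψ : ∀ u, R →+* K u)
    (hi : ∀ a b : R, (∀ u, ψ u a = ψ u b) → a = b)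
    (h : ∀ u, SolV d (fun i a => ψ u (x i a)) (fun i b => ψ u (y i b))
      (fun j => (ψ u).mapMatrix (X j)) (fun j a => ψ u (w j a)) (fun j e i s => ψ u (c j e i s))
      (fun j s => ψ u (c' j s)) (fun j r a b => ψ u (Q j r a b))
      (fun e a b => ψ u (G e a b)) fun i s i' s' => ψ u (γ i s i' s')) :
    SolV d x y X w c c' Q G γ := by
  have hm : ∀ M N : Mt n R, (∀ u, (ψ u).mapMatrix M = (ψ u).mapMatrix N) → M = N :=
    fun M N hMN => Matrix.ext fun a b => hi _ _ fun u => congrFun (congrFun (hMN u) a) b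
  exact
    { nil := fun j hj => hm _ _ fun u => by simpa only [map_pow, map_zero] using (h u).nil j hj
      ne := hi _ _ fun u => by
        simpa only [map_sum, map_mul, map_one, entry_EvNat] using (h u).ne
      self := fun j hj => hm _ _ fun u => by simpa only [op_EvNat] using (h u).self j hj
      gen := fun j hj => hm _ _ fun u => by
        simpa only [op_EvNat, map_sum, smul_EvNat] using (h u).gen j hj
      kill := fun j hj => hm _ _ fun u => by
        simpa only [op_EvNat, brk_FvNat, map_zero] using (h u).kill j hj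
      ann := fun j hj e => hm _ _ fun u => by
        simpa only [ap_EvNat, brk_FvNat, map_zero, single_EvNat] using (h u).ann j hj e
      cert := fun j hj e => hm _ _ fun u => by
        simpa only [ap_EvNat, op_EvNat, brk_FvNat, map_add, map_sub, map_sum, smul_EvNat,
          single_EvNat] using (h u).cert j hj e
      br := fun j hj => hm _ _ fun u => by
        simpa only [brk_FvNat, map_sum, smul_EvNat, colV_FvNat] using (h u).br j hj
      un := fun e => hm _ _ fun u => by
        simpa only [op_EvNat, map_sum, smul_EvNat, map_zero] using (h u).un e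
      rk := fun i hi s => hm _ _ fun u => by
        simpa only [op_EvNat, ap_EvNat, map_sum, smul_EvNat] using (h u).rk i hi s }

end map

section scale
variable {n m₁ m₂ : ℕ} {k : Type} [Field k]

theorem ap_smul_FvNat (T : Ix n → Ix n → k) (a : k) (X : Mt n k) :
    ap T (a • X) = a • ap T X := by
  ext a b
  simp only [ap, of_apply, Matrix.smul_apply, smul_eq_mul, Finset.mul_sum]
  exact Finset.sum_congr rfl fun _ _ => by ring

theorem smul_ap_FvNat (T : Ix n → Ix n → k) (a : k) (X : Mt n k) :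
    ap (fun u v => a * T u v) X = a • ap T X := by
  ext a b
  simp only [ap, of_apply, Matrix.smul_apply, smul_eq_mul, Finset.mul_sum]
  exact Finset.sum_congr rfl fun _ _ => by ring

theorem brk_smul_FvNat (a : k) (A B : Mt n k) : brk A (a • B) = a • brk A B := by
  simp only [brk, Matrix.mul_smul, Matrix.smul_mul, smul_sub]

theorem smul_brk_FvNat (a : k) (A B : Mt n k) : brk (a • A) B = a • brk A B := by
  simp only [brk, Matrix.mul_smul, Matrix.smul_mul, smul_sub]

theorem colV_gs_FvNat {τ : ℕ → k} (hτ : ∀ i, τ i ≠ 0) (x : ∀ i, Rn m₁ m₂ i → k)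
    (y : ℕ → Bt n m₁ m₂ → k) (j i : ℕ) (X : Mt n k) :
    colV (fun i => τ i • x i) (gs_EvNat τ y) j i ((τ i)⁻¹ • X) = colV x y j i X := by
  unfold colV
  split_ifs with h
  · rw [gs_eq_EvNat τ y 0 fun _ h => absurd h (Nat.not_lt_zero _)]
    congr 1
    refine Finset.sum_congr rfl fun s _ => ?_
    beta_reduce
    rw [op_smul_EvNat, smul_smul,
      Pi.smul_apply, smul_eq_mul, mul_right_comm, mul_inv_cancel₀ (hτ i), one_mul]
  · rw [op_gs_EvNat τ y (by omega), op_smul_EvNat, smul_smul, mul_inv_cancel₀ (hτ i), one_smul]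

theorem solF_scale_FvNat {d : ℕ} {τ : ℕ → k} (hτ : ∀ i, τ i ≠ 0) {x : ∀ i, Rn m₁ m₂ i → k}
    {y : ℕ → Bt n m₁ m₂ → k} (h : SolF n m₁ m₂ d k x y) :
    SolF n m₁ m₂ d k (fun i => τ i • x i) (gs_EvNat τ y) := by
  obtain ⟨X, w, c, c', Q, G, γ, h⟩ := h
  have h0 : gs_EvNat τ y 0 = y 0 := gs_eq_EvNat τ y 0 fun _ h => absurd h (Nat.not_lt_zero _)
  have hs : ∀ (i : ℕ) (a : k) (M : Mt n k), (τ i * a) • (τ i)⁻¹ • M = a • M := fun i a M => by
    rw [smul_smul, mul_right_comm, mul_inv_cancel₀ (hτ i), one_mul]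
  refine ⟨fun j => (τ j)⁻¹ • X j, fun j a => τ j * w j a, fun j e i s => τ i * c j e i s, c',
    fun j r u v => if r = 1 then τ j * Q j r u v else Q j r u v, G,
    fun i s i' s' => τ i' * ((τ i)⁻¹ * γ i s i' s'), fun j hj => ?_, ?_, fun j hj => ?_,
    fun j hj => ?_, fun j hj => ?_, fun j hj e => ?_,
    fun j hj e => ?_, fun j hj => ?_, fun e => ?_, fun i hi s => ?_⟩
  · rw [smul_pow, h.nil j hj, smul_zero]
  · rw [← h.ne]
    refine Finset.sum_congr rfl fun j _ => Finset.sum_congr rfl fun a _ => ?_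
    have := hτ j
    rw [Matrix.smul_apply, smul_eq_mul]
    field_simp
  · rw [h0, op_smul_EvNat, h.self j hj]
  · simp only [h0, op_smul_EvNat]
    conv_lhs => rw [h.gen j hj, Finset.smul_sum]
    exact Finset.sum_congr rfl fun s _ => smul_comm _ _ _
  · rw [h0, op_smul_EvNat, brk_smul_FvNat, smul_brk_FvNat, h.kill j hj, smul_zero, smul_zero]
  · have h01 : ¬ ((0 : Fin 4) = 1) := by decide
    simp only [if_neg h01]
    rw [brk_smul_FvNat, ap_smul_FvNat, h.ann j hj e, smul_zero]
  · have h01 : ¬ ((0 : Fin 4) = 1) := by decide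
    have h21 : ¬ ((2 : Fin 4) = 1) := by decide
    have h31 : ¬ ((3 : Fin 4) = 1) := by decide
    simp only [if_neg h01, if_neg h21, if_neg h31, if_true, h0, op_smul_EvNat, hs]
    rw [smul_ap_FvNat, brk_smul_FvNat, ap_smul_FvNat, smul_smul, mul_inv_cancel₀ (hτ j), one_smul]
    exact h.cert j hj e
  · simp only [colV_gs_FvNat hτ]
    rw [brk_smul_FvNat, h.br j hj, smul_comm]
    rfl
  · simp only [h0, op_smul_EvNat, Pi.smul_apply, smul_eq_mul, hs]
    exact h.un e
  · simp only [h0, op_smul_EvNat, hs]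
    rw [h.rk i hi s, Finset.smul_sum]
    refine Finset.sum_congr rfl fun e _ => ?_
    rw [← ap_smul_FvNat]
    simp only [Finset.smul_sum, smul_smul]

theorem lose_scale_FvNat {d D : ℕ} {τ : ℕ → k} (hτ : ∀ i, τ i ≠ 0) (l : ℕ) :
    ∀ (j : ℕ) (x : ∀ i, Rn m₁ m₂ i → k) (y : ℕ → Bt n m₁ m₂ → k), (∀ i, j ≤ i → τ i = 1) →
      Lose (SolF n m₁ m₂ d k) D l j x y →
      Lose (SolF n m₁ m₂ d k) D l j (fun i => τ i • x i) (gs_EvNat τ y) := by
  induction l with
  | zero => exact fun j x y _ h => solF_scale_FvNat hτ h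
  | succ l ih =>
    intro j x y hj h Q hQ hD
    obtain ⟨x', y', h1, h2, h3, h4⟩ := h Q hQ hD
    refine ⟨fun i => τ i • x' i, gs_EvNat τ y', fun i hi => congrArg (τ i • ·) (h1 i hi),
      fun i hi => gs_congr_EvNat τ (h2 i hi), ?_, ih _ _ _ (fun i hi => hj i (by omega)) h4⟩
    beta_reduce
    rwa [hj j le_rfl, one_smul]

end scale

theorem nat2_stmt : Nat2Stmt := by
  intro n m₁ m₂ d
  refine ⟨?_, ?_, ?_⟩
  · rintro R S _ _ φ x y ⟨X, w, c, c', Q, G, γ, h⟩
    exact ⟨_, _, _, _, _, _, _, h.map_FvNat φ⟩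
  · intro α K _ x y h
    choose X w c c' Q G γ h using h
    exact ⟨fun j => Matrix.of fun a b u => X u j a b, fun j a u => w u j a,
      fun j e i s u => c u j e i s, fun j s u => c' u j s, fun j r a b u => Q u j r a b,
      fun e a b u => G u e a b, fun i s i' s' u => γ u i s i' s',
      SolV.of_map_FvNat (Pi.evalRingHom K) (fun _ _ h => funext h) h⟩
  · intro k _ D i l t ht x y h
    have hτ : ∀ j, (if j = i then t else 1) ≠ 0 := fun j => by
      split_ifs
      · exact ht
      · exact one_ne_zero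
    refine ⟨_, _, fun j hj => ?_, fun j hj => ?_, ?_,
      lose_scale_FvNat (τ := fun j => if j = i then t else 1) hτ l (i + 1) x y
        (fun j hj => if_neg (by omega)) h⟩
    · simp only [if_neg hj.ne, one_smul]
    · exact gs_eq_EvNat _ y j fun j' hj' => if_neg (by omega)
    · simp only [if_true]

end Pool.Agent.MP_f68ac8_nt.Ev
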