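import Mathlib
import Pool.Agent.MP_f68ac8_nt.FvAlg

/-! A projection onto the possible values of the random data. -/

namespace Pool.Agent.MP_f68ac8_nt.Ev

open Finset

section
variable {p : ℕ} {Δ A J : Type} [Group Δ] [Fintype A] [DecidableEq A]

theorem rt_inl_FvProj (μ : Δ →* Matrix A A ℤ) (δ : Δ) (a : ZMod p)
    (v : A ⊕ (J × Δ) → ZMod p) (b : A) :
    Rt μ δ a v (.inl b) = a * ∑ b', μ δ⁻¹ b' b * v (.inl b') := rfl

theorem rt_inr_FvProj (μ : Δ →* Matrix A A ℤ) (δ : Δ) (a : ZMod p)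
    (v : A ⊕ (J × Δ) → ZMod p) (j : J) (γ : Δ) :
    Rt μ δ a v (.inr (j, γ)) = a * v (.inr (j, γ * δ)) := rfl

theorem rt_mul_FvProj (μ : Δ →* Matrix A A ℤ) (δ δ' : Δ) (a a' : ZMod p)
    (v : A ⊕ (J × Δ) → ZMod p) :
    Rt μ δ a (Rt μ δ' a' v) = Rt μ (δ * δ') (a * a') v := by
  ext (b | ⟨j, γ⟩)
  · simp only [rt_inl_FvProj, mul_inv_rev, map_mul, Matrix.mul_apply, Int.cast_sum,
      Int.cast_mul, Finset.mul_sum, Finset.sum_mul]
    rw [Finset.sum_comm]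
    refine Finset.sum_congr rfl fun b' _ => Finset.sum_congr rfl fun b'' _ => ?_
    ring
  · simp only [rt_inr_FvProj, mul_assoc]

theorem rt_one_FvProj (μ : Δ →* Matrix A A ℤ) (v : A ⊕ (J × Δ) → ZMod p) :
    Rt μ 1 1 v = v := by
  ext (b | ⟨j, γ⟩)
  · simp [rt_inl_FvProj, Matrix.one_apply]
  · simp [rt_inr_FvProj]

theorem rt_smul_FvProj (μ : Δ →* Matrix A A ℤ) (δ : Δ) (a : ZMod p)
    (v : A ⊕ (J × Δ) → ZMod p) (c : A ⊕ (J × Δ)) :
    Rt μ δ a v c = a * Rt μ δ 1 v c := by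
  rcases c with b | ⟨j, γ⟩
  · simp [rt_inl_FvProj]
  · simp [rt_inr_FvProj]

theorem linv_rt_FvProj (μ : Δ →* Matrix A A ℤ) (δs : J → Δ) (δ : Δ) (a : ZMod p)
    (v : A ⊕ (J × Δ) → ZMod p) (hv : Linv δs v) : Linv δs (Rt μ δ a v) := by
  intro j γ
  rw [rt_inr_FvProj, rt_inr_FvProj, mul_assoc, hv j]

theorem rt_fix_FvProj (μ : Δ →* Matrix A A ℤ) (δ : Δ) (a : ZMod p)
    (v : A ⊕ (J × Δ) → ZMod p) (hv : Rt μ δ a v = v) (i : ℕ) :
    Rt μ (δ ^ i) (a ^ i) v = v := by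
  induction i with
  | zero => simpa using rt_one_FvProj μ v
  | succ i ih => rw [pow_succ, pow_succ, ← rt_mul_FvProj, hv, ih]

theorem shift_FvProj {M : Type*} [AddCommGroup M] (f : ℕ → M) (N : ℕ) (h : f N = f 0) :
    ∑ i ∈ range N, f (i + 1) = ∑ i ∈ range N, f i := by
  have h1 := Finset.sum_range_succ f N
  have h2 := Finset.sum_range_succ' f N
  rw [h1, h] at h2
  exact (add_right_cancel h2).symm

/-- the left average -/
noncomputable def Lav_FvProj [Fact p.Prime] (δs : J → Δ) (N : ℕ) :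
    (A ⊕ (J × Δ) → ZMod p) →ₗ[ZMod p] (A ⊕ (J × Δ) → ZMod p) where
  toFun v := Sum.elim (fun b => v (.inl b))
    fun x => (N : ZMod p)⁻¹ * ∑ i ∈ range N, v (.inr (x.1, (δs x.1 ^ i)⁻¹ * x.2))
  map_add' v w := by
    ext (b | x) <;> simp [mul_add, Finset.sum_add_distrib]
  map_smul' t v := by
    ext (b | x) <;> simp [Finset.mul_sum, mul_left_comm]

omit [Fintype A] [DecidableEq A] in
theorem lav_inl_FvProj [Fact p.Prime] (δs : J → Δ) (N : ℕ) (v : A ⊕ (J × Δ) → ZMod p) (b : A) :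
    Lav_FvProj δs N v (.inl b) = v (.inl b) := rfl

omit [Fintype A] [DecidableEq A] in
theorem lav_inr_FvProj [Fact p.Prime] (δs : J → Δ) (N : ℕ) (v : A ⊕ (J × Δ) → ZMod p) (j : J)
    (γ : Δ) : Lav_FvProj δs N v (.inr (j, γ)) =
      (N : ZMod p)⁻¹ * ∑ i ∈ range N, v (.inr (j, (δs j ^ i)⁻¹ * γ)) := rfl

omit [Fintype A] [DecidableEq A] in
theorem linv_lav_FvProj [Fact p.Prime] (δs : J → Δ) (N : ℕ) (hN : ∀ g : Δ, g ^ N = 1)
    (v : A ⊕ (J × Δ) → ZMod p) : Linv δs (Lav_FvProj δs N v) := by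
  intro j γ
  rw [lav_inr_FvProj, lav_inr_FvProj]
  congr 1
  rw [← shift_FvProj (fun i => v (.inr (j, (δs j ^ i)⁻¹ * (δs j * γ)))) N (by simp [hN])]
  refine Finset.sum_congr rfl fun i _ => ?_
  congr 3
  rw [pow_succ']
  group

omit [Fintype A] [DecidableEq A] in
theorem lav_fix_FvProj [Fact p.Prime] (δs : J → Δ) (N : ℕ) (hN : (N : ZMod p) ≠ 0)
    (v : A ⊕ (J × Δ) → ZMod p) (hv : Linv δs v) : Lav_FvProj δs N v = v := by
  have key : ∀ j (i : ℕ) γ, v (.inr (j, (δs j ^ i)⁻¹ * γ)) = v (.inr (j, γ)) := by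
    intro j i
    induction i with
    | zero => intro γ; simp
    | succ i ih =>
      intro γ
      rw [← hv j, ← ih γ]
      congr 3
      rw [pow_succ]
      group
  ext (b | ⟨j, γ⟩)
  · rfl
  · rw [lav_inr_FvProj]
    simp only [key, Finset.sum_const, Finset.card_range, nsmul_eq_mul]
    rw [← mul_assoc, inv_mul_cancel₀ hN, one_mul]

end

section
variable {p : ℕ} [Fact p.Prime] {k Δ V A J : Type} [Field k] [Algebra (ZMod p) k] [Group Δ]
  [Fintype Δ] [AddCommGroup V] [Module k V] [Fintype A] [DecidableEq A]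

/-- the sums against the orbit -/
noncomputable def Sm_FvProj (Ad : Representation k Δ V) (μ : Δ →* Matrix A A ℤ) (X : V)
    (c : A ⊕ (J × Δ)) (v : A ⊕ (J × Δ) → ZMod p) : V :=
  ∑ γ, algebraMap (ZMod p) k (Rt μ γ 1 v c) • Ad γ X

theorem sm_rt_FvProj (Ad : Representation k Δ V) (μ : Δ →* Matrix A A ℤ) (X : V)
    (c : A ⊕ (J × Δ)) (v : A ⊕ (J × Δ) → ZMod p) (δ : Δ) (a : ZMod p)
    (hX : Ad δ X = algebraMap (ZMod p) k a • X) :
    Sm_FvProj Ad μ X c (Rt μ δ a v) = Sm_FvProj Ad μ X c v := by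
  unfold Sm_FvProj
  rw [← Equiv.sum_comp (Equiv.mulRight δ)
    (fun γ => algebraMap (ZMod p) k (Rt μ γ 1 v c) • Ad γ X)]
  refine Finset.sum_congr rfl fun γ _ => ?_
  rw [rt_mul_FvProj, one_mul, rt_smul_FvProj, Equiv.coe_mulRight, map_mul Ad, Module.End.mul_apply,
    hX, map_smul, smul_smul, map_mul, mul_comm]

omit [Fintype Δ] in
theorem eig_pow_FvProj (Ad : Representation k Δ V) (X : V) (δ : Δ) (a : ZMod p)
    (hX : Ad δ X = algebraMap (ZMod p) k a • X) (i : ℕ) :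
    Ad (δ ^ i) X = algebraMap (ZMod p) k (a ^ i) • X := by
  induction i with
  | zero => simp
  | succ i ih =>
    rw [pow_succ, map_mul, Module.End.mul_apply, hX, map_smul, ih, smul_smul, pow_succ, map_mul,
      mul_comm]

theorem sm_avg_FvProj (Ad : Representation k Δ V) (μ : Δ →* Matrix A A ℤ) (X : V)
    (c : A ⊕ (J × Δ)) (v : A ⊕ (J × Δ) → ZMod p) (δ : Δ) (a : ZMod p)
    (hX : Ad δ X = algebraMap (ZMod p) k a • X) (M : ℕ) (hM : (M : ZMod p) ≠ 0) :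
    Sm_FvProj Ad μ X c ((M : ZMod p)⁻¹ • ∑ i ∈ range M, Rt μ (δ ^ i) (a ^ i) v) =
      Sm_FvProj Ad μ X c v := by
  have h1 : ∀ i ∈ range M, Sm_FvProj Ad μ X c (Rt μ (δ ^ i) (a ^ i) v) =
      Sm_FvProj Ad μ X c v := fun i _ =>
    sm_rt_FvProj Ad μ X c v _ _ (eig_pow_FvProj Ad X δ a hX i)
  have h2 : Sm_FvProj Ad μ X c ((M : ZMod p)⁻¹ • ∑ i ∈ range M, Rt μ (δ ^ i) (a ^ i) v) =
      algebraMap (ZMod p) k (M : ZMod p)⁻¹ •
        ∑ i ∈ range M, Sm_FvProj Ad μ X c (Rt μ (δ ^ i) (a ^ i) v) := by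
    unfold Sm_FvProj
    simp only [map_smul, map_sum, Pi.smul_apply, Finset.sum_apply, smul_eq_mul, map_mul,
      mul_smul, Finset.sum_smul]
    rw [← Finset.smul_sum, Finset.sum_comm]
  rw [h2, Finset.sum_congr rfl h1, Finset.sum_const, Finset.card_range,
    ← Nat.cast_smul_eq_nsmul k, smul_smul, ← map_natCast (algebraMap (ZMod p) k), ← map_mul,
    inv_mul_cancel₀ hM, map_one, one_smul]

theorem sm_inr_FvProj (Ad : Representation k Δ V) (μ : Δ →* Matrix A A ℤ) (X : V)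
    (j : J) (v : A ⊕ (J × Δ) → ZMod p) :
    Sm_FvProj Ad μ X (.inr (j, 1)) v =
      ∑ γ, algebraMap (ZMod p) k (v (.inr (j, γ))) • Ad γ X := by
  simp only [Sm_FvProj, rt_inr_FvProj, one_mul]

theorem sm_inl_FvProj (Ad : Representation k Δ V) (μ : Δ →* Matrix A A ℤ) (X : V)
    (b : A) (v : A ⊕ (J × Δ) → ZMod p) :
    Sm_FvProj Ad μ X (.inl b) v =
      ∑ γ, algebraMap (ZMod p) k (∑ b', μ γ⁻¹ b' b * v (.inl b')) • Ad γ X := by
  simp only [Sm_FvProj, rt_inl_FvProj, one_mul]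

omit [Fintype A] [DecidableEq A] in
theorem lav_av_FvProj (Ad : Representation k Δ V) (δs : J → Δ) (X : V)
    (j : J) (v : A ⊕ (J × Δ) → ZMod p) :
    ∑ γ, algebraMap (ZMod p) k (Lav_FvProj δs (Fintype.card Δ) v (.inr (j, γ))) • Ad γ X =
      av Ad (δs j) (∑ γ, algebraMap (ZMod p) k (v (.inr (j, γ))) • Ad γ X) := by
  rw [av, LinearMap.smul_apply, LinearMap.sum_apply]
  simp only [lav_inr_FvProj, map_sum, map_mul,
    map_inv₀, map_natCast, mul_smul, Finset.sum_smul, map_smul]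
  rw [← Finset.smul_sum, Finset.sum_comm]
  congr 1
  refine Finset.sum_congr rfl fun i _ => ?_
  rw [← Equiv.sum_comp (Equiv.mulLeft (δs j ^ i))]
  refine Finset.sum_congr rfl fun γ _ => ?_
  simp only [Equiv.coe_mulLeft, inv_mul_cancel_left, map_mul, Module.End.mul_apply]

end

theorem proj_stmt : ProjStmt := by
  intro p _ k Δ V A J _ _ _ _ _ _ _ _ Ad μ δs δ a hp ha
  have hpp : p.Prime := Fact.out
  have hN : ((Fintype.card Δ : ℕ) : ZMod p) ≠ 0 := by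
    rwa [Ne, ZMod.natCast_eq_zero_iff]
  have hp1 : ((p - 1 : ℕ) : ZMod p) ≠ 0 := by
    rw [Ne, ZMod.natCast_eq_zero_iff]
    intro h
    have h1 := Nat.le_of_dvd (by have := hpp.two_le; omega) h
    have := hpp.two_le
    omega
  set M := Fintype.card Δ * (p - 1) with hMdef
  have hM : (M : ZMod p) ≠ 0 := by
    rw [hMdef, Nat.cast_mul]
    exact mul_ne_zero hN hp1
  have hδ : δ ^ M = 1 := by rw [hMdef, pow_mul, pow_card_eq_one, one_pow]
  have haM : a ^ M = 1 := by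
    rw [hMdef, mul_comm, pow_mul, ZMod.pow_card_sub_one_eq_one ha, one_pow]
  refine ⟨((M : ZMod p)⁻¹ • ∑ i ∈ range M, Rt μ (δ ^ i) (a ^ i)) ∘ₗ
    Lav_FvProj δs (Fintype.card Δ), ?_, ?_, ?_⟩
  · intro v
    simp only [LinearMap.comp_apply, LinearMap.smul_apply, LinearMap.sum_apply]
    refine Submodule.smul_mem _ _ ⟨?_, ?_⟩
    · intro j γ
      simp only [Finset.sum_apply]
      exact Finset.sum_congr rfl fun i _ => linv_rt_FvProj μ δs _ _ _
        (linv_lav_FvProj δs _ (fun g => pow_card_eq_one) v) j γ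
    · rw [map_sum, ← shift_FvProj (fun i => Rt μ (δ ^ i) (a ^ i)
        (Lav_FvProj δs (Fintype.card Δ) v)) M (by simp [hδ, haM])]
      refine Finset.sum_congr rfl fun i _ => ?_
      rw [rt_mul_FvProj, pow_succ', pow_succ']
  · rintro v ⟨h1, h2⟩
    simp only [LinearMap.comp_apply, LinearMap.smul_apply, LinearMap.sum_apply]
    rw [lav_fix_FvProj δs _ hN v h1]
    simp only [rt_fix_FvProj μ δ a v h2, Finset.sum_const, Finset.card_range]
    rw [← Nat.cast_smul_eq_nsmul (ZMod p), smul_smul, inv_mul_cancel₀ hM, one_smul]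
  · intro v X hX
    simp only [LinearMap.comp_apply, LinearMap.smul_apply, LinearMap.sum_apply]
    refine ⟨fun j => ?_, fun b => ?_⟩
    · rw [← sm_inr_FvProj Ad μ, sm_avg_FvProj Ad μ X _ _ δ a hX M hM, sm_inr_FvProj,
        lav_av_FvProj]
    · rw [← sm_inl_FvProj Ad μ, sm_avg_FvProj Ad μ X _ _ δ a hX M hM, sm_inl_FvProj]
      rfl

end Pool.Agent.MP_f68ac8_nt.Ev
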