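import Mathlib
import Pool.Agent.MP_f68ac8_nt.FvAlg
import Pool.Agent.MP_f68ac8_nt.EvRank

namespace Pool.Agent.MP_f68ac8_nt.Ev

open Matrix

section
variable {k Δ O W : Type} [Field k] [Group Δ] [MulAction Δ O] [AddCommGroup W] [Module k W]

/-- The permutation representation. -/
noncomputable def perm_FvRank (k Δ O : Type) [Field k] [Group Δ] [MulAction Δ O] :
    Representation k Δ (O → k) where
  toFun g := LinearMap.funLeft k k fun a => g⁻¹ • a
  map_one' := by
    ext v a
    simp
  map_mul' g h := by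
    ext v a
    simp [mul_smul]

theorem perm_apply_FvRank (g : Δ) (v : O → k) (a : O) :
    perm_FvRank k Δ O g v a = v (g⁻¹ • a) := rfl

theorem perm_char_FvRank [Finite O] (g : Δ) :
    (perm_FvRank k Δ O).character g = (Nat.card {o : O // g • o = o} : k) := by
  classical
  have := Fintype.ofFinite O
  change LinearMap.trace k _ (perm_FvRank k Δ O g) = _
  rw [LinearMap.trace_eq_matrix_trace k (Pi.basisFun k O), LinearMap.toMatrix_eq_toMatrix',
    Nat.card_eq_fintype_card, Fintype.card_subtype, Finset.card_filter]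
  push_cast
  refine Finset.sum_congr rfl fun a _ => ?_
  simp only [Matrix.diag_apply, LinearMap.toMatrix'_apply, perm_apply_FvRank, inv_smul_eq_iff,
    Pi.single_apply]
  simp only [eq_comm]

theorem dim_FvRank {A : Type} [Fintype A] [DecidableEq A] [Fintype Δ] [Finite O]
    [Module.Finite k W] (σ : Representation k Δ W) (μ : Δ →* Matrix A A ℤ)
    (hc : (Fintype.card Δ : k) ≠ 0)
    (h1 : ∀ δ, (μ δ).trace = (Nat.card {o : O // δ • o = o} : ℤ) - 1) (h0 : σ.invariants = ⊥) :
    (Module.finrank k ((rho_EvRank k μ).linHom σ).invariants : k) =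
      Module.finrank k ((perm_FvRank k Δ O).linHom σ).invariants := by
  have hc' : (Nat.card Δ : k) ≠ 0 := by rwa [Nat.card_eq_fintype_card]
  have : Invertible (Nat.card Δ : k) := invertibleOfNonzero hc'
  have e1 := σ.card_inv_mul_sum_char_eq_finrank
  rw [h0, finrank_bot, Nat.cast_zero] at e1
  rw [← Representation.card_inv_mul_sum_char_eq_finrank,
    ← Representation.card_inv_mul_sum_char_eq_finrank]
  have e2 : ∀ g : Δ, ((rho_EvRank k μ).linHom σ).character g =
      ((perm_FvRank k Δ O).linHom σ).character g - σ.character g := by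
    intro g
    rw [Representation.char_linHom, Representation.char_linHom, rho_char_EvRank, h1,
      perm_char_FvRank]
    push_cast
    ring
  simp only [e2, Finset.sum_sub_distrib]
  rw [mul_sub, e1, sub_zero]

theorem upper_FvRank [Finite O] [Module.Finite k W] (σ : Representation k Δ W) :
    Module.finrank k ((perm_FvRank k Δ O).linHom σ).invariants ≤
      Nat.card (MulAction.orbitRel.Quotient Δ O) * Module.finrank k W := by
  classical
  have := Fintype.ofFinite O
  have := Fintype.ofFinite (MulAction.orbitRel.Quotient Δ O)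
  let ev : ((perm_FvRank k Δ O).linHom σ).invariants →ₗ[k]
      (MulAction.orbitRel.Quotient Δ O → W) :=
    LinearMap.pi fun q => LinearMap.applyₗ (Pi.single q.out 1) ∘ₗ Submodule.subtype _
  have hinj : Function.Injective ev := (injective_iff_map_eq_zero ev).2 fun φ hφ => by
    refine Subtype.ext ((Pi.basisFun k O).ext fun a => ?_)
    obtain ⟨g, hg⟩ : ∃ g : Δ, g • a = (Quotient.mk'' a : MulAction.orbitRel.Quotient Δ O).out :=
      Quotient.mk_out' (s₁ := MulAction.orbitRel Δ O) a
    have h1 : φ.1 (Pi.single (g • a) 1) = 0 := hg ▸ congrFun hφ _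
    have h2 : perm_FvRank k Δ O g⁻¹⁻¹ (Pi.single a 1) = Pi.single (g • a) 1 := by
      funext b
      simp only [perm_apply_FvRank, inv_inv, Pi.single_apply, inv_smul_eq_iff]
    have h3 : σ g⁻¹ (φ.1 (perm_FvRank k Δ O g⁻¹⁻¹ (Pi.single a 1))) = φ.1 (Pi.single a 1) :=
      LinearMap.congr_fun (φ.2 g⁻¹) _
    rw [h2, h1, map_zero] at h3
    rw [Pi.basisFun_apply]
    exact h3.symm
  have h := LinearMap.finrank_le_finrank_of_injective hinj
  rwa [Module.finrank_pi_fintype, Finset.sum_const, Finset.card_univ, smul_eq_mul,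
    ← Nat.card_eq_fintype_card] at h

theorem lower_FvRank {I : Type} [Fintype I] [Fintype Δ] [Finite O] [Module.Finite k W]
    (σ : Representation k Δ W) (hc : (Fintype.card Δ : k) ≠ 0) (o : I → O)
    (ho : ∀ i j (δ : Δ), δ • o i = o j → i = j) (U : I → Submodule k W)
    (hU : ∀ i, ∀ X ∈ U i, ∀ δ : Δ, δ • o i = o i → σ δ X = X) :
    ∑ i, Module.finrank k (U i) ≤ Module.finrank k ((perm_FvRank k Δ O).linHom σ).invariants := by
  classical
  let L : (∀ i, U i) →ₗ[k] ((O → k) →ₗ[k] W) := ∑ i, ∑ δ : Δ,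
    LinearMap.smulRightₗ (LinearMap.proj (δ • o i)) ∘ₗ σ δ ∘ₗ (U i).subtype ∘ₗ LinearMap.proj i
  have hL : ∀ X v, L X v = ∑ i, ∑ δ : Δ, v (δ • o i) • σ δ (X i) := fun X v => by
    simp [L]
  have hmem : ∀ X, L X ∈ ((perm_FvRank k Δ O).linHom σ).invariants := fun X g => by
    refine LinearMap.ext fun v => ?_
    change σ g (L X (perm_FvRank k Δ O g⁻¹ v)) = _
    simp only [hL, map_sum, map_smul, perm_apply_FvRank, inv_inv]
    refine Finset.sum_congr rfl fun i _ => Fintype.sum_equiv (Equiv.mulLeft g) _ _ fun δ => ?_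
    simp [mul_smul]
  have hinj : Function.Injective (L.codRestrict _ hmem) :=
    (injective_iff_map_eq_zero _).2 fun X hX => by
      funext j
      have h1 : L X (Pi.single (o j) 1) = 0 := LinearMap.congr_fun (congrArg Subtype.val hX) _
      rw [hL, Finset.sum_eq_single j (fun i _ hi => Finset.sum_eq_zero fun δ _ => by
        rw [Pi.single_eq_of_ne fun h => hi (ho i j δ h), zero_smul]) (by simp)] at h1
      have h2 : ∀ δ : Δ, (Pi.single (o j) 1 : O → k) (δ • o j) • σ δ (X j) =
          if δ ∈ MulAction.stabilizer Δ (o j) then (X j : W) else 0 := fun δ => by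
        split_ifs with h
        · rw [hU j _ (X j).2 δ h, MulAction.mem_stabilizer_iff.1 h, Pi.single_eq_same, one_smul]
        · rw [Pi.single_eq_of_ne h, zero_smul]
      simp only [h2] at h1
      rw [← Finset.sum_filter, Finset.sum_const, ← Fintype.card_subtype, ← Nat.card_eq_fintype_card,
        ← Nat.cast_smul_eq_nsmul k] at h1
      refine Subtype.ext ((smul_eq_zero.1 h1).resolve_left fun h => hc ?_)
      obtain ⟨c, hc⟩ := Subgroup.card_subgroup_dvd_card (MulAction.stabilizer Δ (o j))
      rw [← Nat.card_eq_fintype_card, hc, Nat.cast_mul, h, zero_mul]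
  have h := LinearMap.finrank_le_finrank_of_injective hinj
  rwa [Module.finrank_pi_fintype] at h

end

theorem rank2_stmt : Rank2Stmt := by
  intro k Δ V A E O I _ _ _ _ _ _ _ _ _ _ _ _ Ad μ D hc hm hD h1 hE o ho W hW hinv U hU hWU
  classical
  let σ : Representation k Δ W := Ad.subrepresentation W fun g A hA => hW g A hA
  have hσ : ∀ g (x : W), (σ g x : V) = Ad g x := fun g x => rfl
  have h0 : σ.invariants = ⊥ := by
    rw [eq_bot_iff]
    intro x hx
    exact Subtype.ext (hinv x x.2 fun δ => by rw [← hσ, hx δ])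
  have hd := dim_FvRank σ μ hc h1 h0
  set H := ((rho_EvRank k μ).linHom σ).invariants with hH
  have hWV : Module.finrank k W ≤ Module.finrank k V := Submodule.finrank_le W
  have hup := (upper_FvRank (O := O) σ).trans (Nat.mul_le_mul hD hWV)
  have hlo := lower_FvRank σ hc o ho (fun i => (U i).comap W.subtype)
    fun i X hX δ hδ => Subtype.ext ((hU i).2 X hX δ hδ)
  rw [Finset.sum_congr rfl fun i _ => (Submodule.comapSubtypeEquivOfLe (hU i).1).finrank_eq] at hlo
  have hle : Module.finrank k W ≤ Module.finrank k H := by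
    by_contra hlt
    refine hm (Module.finrank k ((perm_FvRank k Δ O).linHom σ).invariants - Module.finrank k H)
      (by omega) (by omega) ?_
    rw [Nat.cast_sub (by omega), hd, sub_self]
  have : Module.Free k H := Module.Free.of_divisionRing k H
  obtain ⟨j, hj⟩ := finrank_le_iff_exists_linearMap.1 hle
  let J : W →ₗ[k] ((A → k) →ₗ[k] W) := H.subtype ∘ₗ j
  obtain ⟨u, hu⟩ := sep_EvRank (Fintype.card E) (LinearMap.range J)
    ((LinearMap.finrank_range_le J).trans (hWV.trans hE))
  let u' : E → A → k := fun e => u (Fintype.equivFin E e)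
  let ev : W →ₗ[k] (E → V) :=
    LinearMap.pi fun e => W.subtype ∘ₗ LinearMap.applyₗ (u' e) ∘ₗ J
  have hev : ∀ Y e, ev Y e = (J Y (u' e) : V) := fun _ _ => rfl
  have hinj : LinearMap.ker ev = ⊥ := by
    rw [LinearMap.ker_eq_bot']
    intro Y hY
    have : J Y = 0 := hu _ ⟨Y, rfl⟩ fun e => by
      have := congrFun hY ((Fintype.equivFin E).symm e)
      rw [hev] at this
      simpa [u'] using this
    exact hj (by rw [map_zero]; exact Subtype.ext this)
  obtain ⟨G, hG⟩ := ev.exists_leftInverse_of_injective hinj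
  refine ⟨u', fun e => W.subtype ∘ₗ G ∘ₗ LinearMap.single k (fun _ : E => V) e,
    fun I _ X hX Y hY => ?_⟩
  obtain ⟨κ, hκ⟩ := avg_EvRank Ad μ hc X (W.subtype ∘ₗ J ⟨Y, hY⟩)
    (fun v => hX ▸ (J ⟨Y, hY⟩ v).2) (fun h v => by
      have := LinearMap.congr_fun ((j ⟨Y, hY⟩).2 h) v
      exact congrArg Subtype.val this)
  refine ⟨κ, ?_⟩
  simp only [← hκ, LinearMap.comp_apply, ← map_sum]
  have e : ∑ e, LinearMap.single k (fun _ : E => V) e (W.subtype (J ⟨Y, hY⟩ (u' e))) =
      ev ⟨Y, hY⟩ := Finset.univ_sum_single (ev ⟨Y, hY⟩)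
  rw [e, ← LinearMap.comp_apply G, hG]
  rfl

end Pool.Agent.MP_f68ac8_nt.Ev
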