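import Mathlib
import Pool.Agent.MP_f68ac8_nt.FvAux
import Pool.Agent.MP_f68ac8_nt.EvLead
import Pool.Agent.MP_f68ac8_nt.EvMain
import Pool.Agent.MP_f68ac8_nt.Tors

/-! Lifts over fields of small degree. -/

namespace Pool.Agent.MP_f68ac8_nt.Ev

open Polynomial IntermediateField
open scoped Topology

section field
variable {K : Type} [Field K] {n : ℕ}

lemma step_FvSmall {k : Type} [Field k] [Algebra k K] (E : IntermediateField k K)
    [FiniteDimensional k E] {A : Matrix (Fin n) (Fin n) K} (hA : ∀ i j, A i j ∈ E) {x : K}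
    (hx : x ∈ spectrum K A) : ∃ E' : IntermediateField k K, FiniteDimensional k E' ∧ E ≤ E' ∧
      x ∈ E' ∧ Module.finrank k E' ≤ n * Module.finrank k E := by
  let B : Matrix (Fin n) (Fin n) E := Matrix.of fun i j => ⟨A i j, hA i j⟩
  have hB : B.map (algebraMap E K) = A := by ext i j; rfl
  have hr : aeval x B.charpoly = 0 := by
    rw [← eval_map_algebraMap, ← Matrix.charpoly_map, hB]
    exact Matrix.mem_spectrum_iff_isRoot_charpoly.mp hx
  have hi : IsIntegral E x := ⟨_, B.charpoly_monic, hr⟩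
  have := adjoin.finiteDimensional hi
  have h1 : Module.finrank E E⟮x⟯ ≤ n := by
    rw [adjoin.finrank hi]
    simpa using natDegree_le_natDegree (minpoly.min E x B.charpoly_monic hr)
  refine ⟨E⟮x⟯.restrictScalars k, Module.Finite.trans (R := k) E E⟮x⟯,
    fun y hy => E⟮x⟯.algebraMap_mem ⟨y, hy⟩, mem_adjoin_simple_self E x, ?_⟩
  have h4 : Module.finrank k (E⟮x⟯.restrictScalars k) =
      Module.finrank k E * Module.finrank E E⟮x⟯ :=
    (Module.finrank_mul_finrank k E E⟮x⟯).symm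
  rw [h4, mul_comm]
  exact Nat.mul_le_mul_right _ h1

lemma nil_FvSmall [IsAlgClosed K] {A : Matrix (Fin n) (Fin n) K} {c : K}
    (h : ∀ x ∈ spectrum K A, x = c) : aeval A ((X - C c) ^ n) = 0 := by
  have hs := IsAlgClosed.splits A.charpoly
  have h1 : A.charpoly.roots = Multiset.replicate n c := by
    refine Multiset.eq_replicate.mpr ⟨?_, fun b hb => h b ?_⟩
    · rw [← hs.natDegree_eq_card_roots]; simp
    · exact Matrix.mem_spectrum_iff_isRoot_charpoly.mpr (isRoot_of_mem_roots hb)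
  have h2 := hs.eq_prod_roots_of_monic A.charpoly_monic
  rw [h1, Multiset.map_replicate, Multiset.prod_replicate] at h2
  rw [← h2]
  exact A.aeval_self_charpoly

lemma scal_FvSmall [IsAlgClosed K] [CharZero K] (hn : 0 < n) {A : Matrix (Fin n) (Fin n) K}
    {c d : K} (h : ∀ x ∈ spectrum K A, x = c) {m : ℕ} (hm : 0 < m) (hd : d ≠ 0) (e : A ^ m = d • 1) :
    A = c • 1 := by
  have h1 := minpoly.dvd K A (nil_FvSmall h)
  have h2 : minpoly K A ∣ X ^ m - C d := minpoly.dvd K A (by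
    rw [map_sub, map_pow, aeval_X, aeval_C, e, Algebra.algebraMap_eq_smul_one, sub_self])
  have h3 := (separable_X_pow_sub_C d (Nat.cast_ne_zero.mpr hm.ne') hd).squarefree.squarefree_of_dvd
    h2
  obtain ⟨q, hq⟩ := (h3.dvd_pow_iff_dvd hn.ne').mp h1
  have h4 := congrArg (aeval A) hq
  rwa [map_mul, minpoly.aeval, zero_mul, map_sub, aeval_X, aeval_C,
    Algebra.algebraMap_eq_smul_one, sub_eq_zero] at h4

lemma ratio_FvSmall {S : Set K} (hS : S.Finite) (h0 : ∀ x ∈ S, x ≠ 0) {t : K} {Q : ℕ} (hQ : 1 < Q)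
    (h : ∀ x ∈ S, t * x ^ Q ∈ S) {x y : K} (hx : x ∈ S) (hy : y ∈ S) :
    ∃ N, 0 < N ∧ (x / y) ^ N = 1 := by
  have key : ∀ a : ℕ, (x / y) ^ Q ^ a ∈ Set.image2 (· / ·) S S := by
    intro a
    induction a with
    | zero => exact ⟨x, hx, y, hy, by simp⟩
    | succ a ih =>
      obtain ⟨u, hu, v, hv, e⟩ := ih
      refine ⟨_, h u hu, _, h v hv, ?_⟩
      have ht : t ≠ 0 := left_ne_zero_of_mul (h0 _ (h u hu))
      simp only at e ⊢
      rw [pow_succ, pow_mul, ← e, div_pow, mul_div_mul_left _ _ ht]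
  obtain ⟨a, b, hab, e⟩ := (hS.image2 (· / ·) hS).exists_lt_map_eq_of_forall_mem key
  have h1 : Q ^ a < Q ^ b := Nat.pow_lt_pow_right hQ hab
  refine ⟨Q ^ b - Q ^ a, Nat.sub_pos_of_lt h1, ?_⟩
  refine mul_left_cancel₀ (pow_ne_zero (Q ^ a) (div_ne_zero (h0 x hx) (h0 y hy))) ?_
  rw [← pow_add, Nat.add_sub_cancel' h1.le, mul_one, e]

end field

variable {p : ℕ} [hp : Fact p.Prime] {n : ℕ}

lemma root_FvSmall {A : Matrix (Fin n) (Fin n) (Zbar p)} {c : Fbar p}
    (hA : A.map (IsLocalRing.residue (Zbar p)) = c • 1) {x : PadicAlgCl p}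
    (hx : x ∈ spectrum (PadicAlgCl p) (A.map (algebraMap (Zbar p) (PadicAlgCl p)))) :
    ∃ y : Zbar p, algebraMap (Zbar p) (PadicAlgCl p) y = x ∧ IsLocalRing.residue _ y = c := by
  have h1 := Matrix.mem_spectrum_iff_isRoot_charpoly.mp hx
  rw [Matrix.charpoly_map, IsRoot, eval_map_algebraMap] at h1
  obtain ⟨y, rfl⟩ := IsIntegrallyClosed.isIntegral_iff.mp
    (⟨_, A.charpoly_monic, h1⟩ : IsIntegral (Zbar p) x)
  refine ⟨y, rfl, ?_⟩
  rw [aeval_algebraMap_apply, map_eq_zero_iff _ (FaithfulSMul.algebraMap_injective _ _),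
    coe_aeval_eq_eval] at h1
  have h2 : (A.map (IsLocalRing.residue (Zbar p))).charpoly.eval (IsLocalRing.residue _ y) = 0 := by
    rw [Matrix.charpoly_map, eval_map, eval₂_hom, h1, map_zero]
  rw [hA, Matrix.eval_charpoly, Matrix.scalar_apply, ← Matrix.smul_one_eq_diagonal, ← sub_smul,
    Matrix.det_smul, Matrix.det_one, mul_one] at h2
  exact sub_eq_zero.mp (eq_zero_of_pow_eq_zero h2)

lemma eig_FvSmall {A : Matrix (Fin n) (Fin n) (Zbar p)} {c : Fbar p} (hc : c ≠ 0)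
    (hA : A.map (IsLocalRing.residue (Zbar p)) = c • 1)
    (E : IntermediateField ℚ_[p] (PadicAlgCl p)) [FiniteDimensional ℚ_[p] E]
    (hE : n ^ 2 * Module.finrank ℚ_[p] E < p - 1) (hAE : ∀ i j, (A i j : PadicAlgCl p) ∈ E)
    {x y : PadicAlgCl p}
    (hx : x ∈ spectrum (PadicAlgCl p) (A.map (algebraMap (Zbar p) (PadicAlgCl p))))
    (hy : y ∈ spectrum (PadicAlgCl p) (A.map (algebraMap (Zbar p) (PadicAlgCl p))))
    {N : ℕ} (hN : 0 < N) (h : (x / y) ^ N = 1) : x = y := by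
  obtain ⟨E₁, _, a1, a2, a3⟩ := step_FvSmall E (A := A.map (algebraMap (Zbar p) (PadicAlgCl p)))
    hAE hx
  obtain ⟨E₂, _, b1, b2, b3⟩ := step_FvSmall E₁ (A := A.map (algebraMap (Zbar p) (PadicAlgCl p)))
    (fun i j => a1 (hAE i j)) hy
  have hp1 : ∀ ξ ∈ E₂, ξ ^ p = 1 → ξ = 1 := fun ξ h1 h2 => by
    by_contra hne
    have hζ : IsPrimitiveRoot ξ p := by
      have := IsPrimitiveRoot.orderOf ξ
      rwa [orderOf_eq_prime h2 hne] at this
    have h3 : ℚ_[p]⟮ξ - 1⟯ ≤ E₂ := adjoin_simple_le_iff.mpr (sub_mem h1 (one_mem _))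
    have h4 := finrank_le_of_le_right h3
    rw [finrank_zeta hζ] at h4
    have := Nat.mul_le_mul_left n a3
    nlinarith
  have hp2 : ∀ a : ℕ, ∀ ξ ∈ E₂, ξ ^ p ^ a = 1 → ξ = 1 := by
    intro a
    induction a with
    | zero => intro ξ _ h2; simpa using h2
    | succ a ih =>
      intro ξ h1 h2
      exact ih ξ h1 (hp1 _ (pow_mem h1 _) (by rw [← pow_mul, ← pow_succ, h2]))
  obtain ⟨u, rfl, hu⟩ := root_FvSmall hA hx
  obtain ⟨v, rfl, hv⟩ := root_FvSmall hA hy
  obtain ⟨w, hw⟩ := ((vd_EvLead p).unit (x := v) (by rwa [hv])).exists_right_inv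
  have hv0 : algebraMap (Zbar p) (PadicAlgCl p) v ≠ 0 :=
    left_ne_zero_of_mul_eq_one (by rw [← map_mul, hw, map_one])
  have e : algebraMap (Zbar p) (PadicAlgCl p) u / algebraMap (Zbar p) (PadicAlgCl p) v =
      algebraMap (Zbar p) (PadicAlgCl p) (u * w) := by
    rw [div_eq_iff hv0, ← map_mul, mul_assoc, mul_comm w, hw, mul_one]
  have e1 : (u * w) ^ N = 1 :=
    FaithfulSMul.algebraMap_injective _ (PadicAlgCl p) (by rw [map_pow, ← e, h, map_one])
  have e2 : IsLocalRing.residue _ (u * w) = 1 := by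
    rw [map_mul, hu, ← hv, ← map_mul, hw, map_one]
  obtain ⟨a, N', hN', rfl⟩ := Nat.exists_eq_pow_mul_and_not_dvd hN.ne' p hp.out.ne_one
  have := charP_Fbar (p := p)
  have e3 : (u * w) ^ p ^ a = 1 := by
    refine root_eq_of_sub_mem (P := IsLocalRing.maximalIdeal (Zbar p)) (m := N') ?_
      (by rw [← pow_mul, e1]) (one_pow _) ?_
    · rwa [← IsLocalRing.residue_eq_zero_iff, map_natCast, CharP.cast_eq_zero_iff (Fbar p) p]
    · rw [← IsLocalRing.residue_eq_zero_iff, map_sub, map_pow, e2, one_pow, map_one, sub_self]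
  rw [← div_eq_one_iff_eq hv0]
  exact hp2 a _ (div_mem (b1 a2) b2) (by rw [e, ← map_pow, e3, map_one])

theorem small_stmt (p : ℕ) [Fact p.Prime] (hW : WildStmt) : SmallStmt p := by
  intro n F _ _ G hG r ρ₀ hn hr hL ⟨E, _, hE, hE'⟩
  have hp : p.Prime := Fact.out
  rcases Nat.eq_zero_or_pos n with rfl | hn0
  · exact ⟨fun g _ _ _ _ => ⟨1, Subsingleton.elim _ _⟩,
      fun P g _ _ => ⟨1, 1, Subsingleton.elim _ _⟩⟩
  have : Nonempty (Fin n) := ⟨⟨0, hn0⟩⟩
  have := charP_Fbar (p := p)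
  set ι := algebraMap (Zbar p) (PadicAlgCl p) with hι
  have hinj : Function.Injective (ι.mapMatrix : Matrix (Fin n) (Fin n) (Zbar p) →+* _) :=
    Matrix.map_injective (FaithfulSMul.algebraMap_injective _ _)
  have h0 : ∀ g : G, g.1 ∈ F.fixingSubgroup → ∃ c : Fbar p, c ≠ 0 ∧
      (ρ₀ g).val.map (IsLocalRing.residue (Zbar p)) = c • 1 := fun g hg => by
    obtain ⟨c, e⟩ := hr g hg
    refine ⟨c, fun h0 => ?_, (hL g).trans e⟩
    rw [h0, zero_smul] at e
    exact (r g).ne_zero e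
  have hne : ∀ g : G, ∃ x, x ∈ spectrum (PadicAlgCl p) ((ρ₀ g).val.map ι) := fun g =>
    spectrum.nonempty_of_isAlgClosed_of_finiteDimensional _ _
  have hnz : ∀ g : G, ∀ x ∈ spectrum (PadicAlgCl p) ((ρ₀ g).val.map ι), x ≠ 0 := by
    rintro g _ hx rfl
    exact spectrum.zero_notMem _ ((ρ₀ g).isUnit.map ι.mapMatrix) hx
  refine ⟨fun g hg m hm ⟨d, hd⟩ => ?_, fun P g ⟨hP, hi, hg⟩ hpP => ?_⟩
  · obtain ⟨c, c1, c2⟩ := h0 g hg
    obtain ⟨y, hy⟩ := hne g
    have e : ((ρ₀ g).val.map ι) ^ m = ι d • 1 := by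
      have := congrArg ι.mapMatrix hd
      rwa [Units.val_pow_eq_pow_val, map_pow, Four.map_sm, map_one] at this
    have e1 : ∀ x ∈ spectrum (PadicAlgCl p) ((ρ₀ g).val.map ι), x ^ m = ι d := fun x hx => by
      have := spectrum.pow_mem_pow _ m hx
      rwa [e, ← Algebra.algebraMap_eq_smul_one, spectrum.scalar_eq] at this
    have hd0 : ι d ≠ 0 := e1 y hy ▸ pow_ne_zero _ (hnz g y hy)
    have e2 := scal_FvSmall hn0 (c := y) (fun x hx => eig_FvSmall c1 c2 E hE (hE' g) hx hy hm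
      (by rw [div_pow, e1 x hx, e1 y hy, div_self hd0])) hm hd0 e
    obtain ⟨v, rfl, -⟩ := root_FvSmall c2 hy
    exact ⟨v, hinj (by rw [Four.map_sm, map_one]; exact e2)⟩
  · obtain ⟨c, c1, c2⟩ := h0 g hg
    obtain ⟨y, hy⟩ := hne g
    obtain ⟨l, e, s, l1, e1, l2, -, s1, s2⟩ := hW.2.1 F P hP
    let s' : G := ⟨s, hG s1⟩
    let ρ : G →* Matrix (Fin n) (Fin n) (Zbar p) := (Units.coeHom _).comp ρ₀.toMonoidHom
    have hc : Continuous ρ := Units.continuous_val.comp ρ₀.continuous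
    have hw : (s' * g * s'⁻¹ * (g ^ l ^ e)⁻¹).1 ∈ F.fixingSubgroup :=
      mul_mem (mul_mem (mul_mem s1 hg) (inv_mem s1)) (inv_mem (pow_mem hg _))
    obtain ⟨t, ht⟩ := (vd_EvLead p).wild (n := Fin n) (by
      rw [Ne, CharP.cast_eq_zero_iff (Fbar p) p]
      exact Nat.not_dvd_of_pos_of_lt Fintype.card_pos (by simpa using hn)) hc (h0 _ hw) (q := l)
      (by
        rw [Ne, CharP.cast_eq_zero_iff (Fbar p) p, Nat.prime_dvd_prime_iff_eq hp l1]
        rintro rfl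
        exact hpP l2) fun U hU => by
      obtain ⟨V, hV, hVU⟩ := (mem_nhds_subtype _ _ _).mp hU
      obtain ⟨a, ha⟩ := hW.1 l e P s g l1 hP l2 s2 hi V hV
      exact ⟨a, hVU ha⟩
    have e2 : (ρ₀ s').val * (ρ₀ g).val * (ρ₀ s')⁻¹.val = t • (ρ₀ g).val ^ l ^ e := by
      have : ρ (s' * g * s'⁻¹) = t • ρ (g ^ l ^ e) := by
        rw [← one_mul (ρ (g ^ l ^ e)), ← smul_mul_assoc, ← ht, ← map_mul, inv_mul_cancel_right]
      rw [map_mul, map_mul, map_pow] at this
      rw [← map_inv]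
      exact this
    have e3 : ∀ x ∈ spectrum (PadicAlgCl p) ((ρ₀ g).val.map ι),
        ι t * x ^ l ^ e ∈ spectrum (PadicAlgCl p) ((ρ₀ g).val.map ι) := fun x hx => by
      have h1 := spectrum.subset_polynomial_aeval _ (C (ι t) * X ^ l ^ e) ⟨x, hx, rfl⟩
      have h2 := congrArg ι.mapMatrix e2
      rw [map_mul, map_mul, Four.map_sm, map_pow] at h2
      have h3 := spectrum.units_conjugate (R := PadicAlgCl p) (a := (ρ₀ g).val.map ι)
        (u := Units.map (ι.mapMatrix : Matrix (Fin n) (Fin n) (Zbar p) →+* _).toMonoidHom (ρ₀ s'))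
      rw [← h3]
      simp only [eval_mul, eval_C, eval_pow, eval_X, map_mul, aeval_C, map_pow, aeval_X,
        ← Algebra.smul_def] at h1
      convert h1 using 2
      exact h2
    have e4 := nil_FvSmall (c := y) fun x hx => by
      obtain ⟨N, hN, h⟩ := ratio_FvSmall (Matrix.finite_spectrum _) (hnz g)
        (Nat.one_lt_pow e1.ne' l1.one_lt) e3 hx hy
      exact eig_FvSmall c1 c2 E hE (hE' g) hx hy hN h
    obtain ⟨v, rfl, -⟩ := root_FvSmall c2 hy
    refine ⟨v, n, hinj ?_⟩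
    rw [map_pow, map_sub, aeval_X, aeval_C, Algebra.algebraMap_eq_smul_one] at e4
    rw [map_pow, map_sub, Four.map_sm, map_one, map_zero]
    exact e4

end Pool.Agent.MP_f68ac8_nt.Ev
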