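import Mathlib
import Pool.Agent.MP_f68ac8_nt.FvAlg
import Pool.Agent.MP_f68ac8_nt.EvType

namespace Pool.Agent.MP_f68ac8_nt.Ev

open Matrix MvPolynomial Finset

theorem count_FvType {R M : Type} [Ring R] [AddCommGroup M] [Module R M] [Finite M]
    (Pr : M →ₗ[R] M) (F : Submodule R M) (h1 : ∀ v, Pr v ∈ F) (h2 : ∀ v ∈ F, Pr v = v)
    {Z N : Set M} (hN : ∀ v, Pr v ∈ Z → v ∈ N) {p D : ℕ} (h : N.ncard * p ≤ D * Nat.card M) :
    (Z ∩ F).ncard * p ≤ D * Nat.card F := by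
  have K0 : 0 < Nat.card (LinearMap.ker Pr) := Nat.card_pos
  have e : ∀ (u : ↥(Z ∩ F)) (w : LinearMap.ker Pr), Pr (u.1 + w.1) = u.1 := fun u w => by
    rw [map_add, h2 _ u.2.2, LinearMap.mem_ker.1 w.2, add_zero]
  have a1 : (Z ∩ F).ncard * Nat.card (LinearMap.ker Pr) ≤ N.ncard := by
    rw [← Nat.card_coe_set_eq, ← Nat.card_coe_set_eq, ← Nat.card_prod]
    refine Nat.card_le_card_of_injective (fun x : ↥(Z ∩ F) × LinearMap.ker Pr =>
      (⟨x.1.1 + x.2.1, hN _ (by rw [e]; exact x.1.2.1)⟩ : N)) fun x y hxy => ?_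
    have h3 : x.1.1 + x.2.1 = y.1.1 + y.2.1 := congrArg Subtype.val hxy
    have h4 : x.1.1 = y.1.1 := by rw [← e x.1 x.2, h3, e]
    rw [h4] at h3
    exact Prod.ext (Subtype.ext h4) (Subtype.ext (add_left_cancel h3))
  have a2 : Nat.card M ≤ Nat.card F * Nat.card (LinearMap.ker Pr) := by
    rw [← Nat.card_prod]
    refine Nat.card_le_card_of_injective (fun v => ((⟨Pr v, h1 v⟩ : F),
      (⟨v - Pr v, by rw [LinearMap.mem_ker, map_sub, h2 _ (h1 v), sub_self]⟩ :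
        LinearMap.ker Pr))) fun x y hxy => ?_
    have h3 : Pr x = Pr y := congrArg (fun z => z.1.1) hxy
    have h4 : x - Pr x = y - Pr y := congrArg (fun z => z.2.1) hxy
    rwa [h3, sub_left_inj] at h4
  refine Nat.le_of_mul_le_mul_right ?_ K0
  calc (Z ∩ F).ncard * p * Nat.card (LinearMap.ker Pr)
      = (Z ∩ F).ncard * Nat.card (LinearMap.ker Pr) * p := by ring
    _ ≤ D * Nat.card M := (Nat.mul_le_mul_right p a1).trans h
    _ ≤ D * (Nat.card F * Nat.card (LinearMap.ker Pr)) := Nat.mul_le_mul_left D a2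
    _ = _ := by ring

theorem rnd_agree_FvType {p : ℕ} {k Δ A : Type} {s s' : St p k Δ A} {i : ℕ} (h : s.Agree s' i) :
    ∀ j < i, s'.rnd j = s.rnd j := by
  intro j hj
  funext z
  rcases z with a | x
  · exact congrFun (h j hj).1 a
  · exact congrFun ((h x.1 (x.1.2.trans hj)).2.2 j hj) x.2

section
variable {p : ℕ} {k Δ A : Type} [Field k] [Group Δ] [Fintype Δ] {n m₁ m₂ : ℕ}

theorem single_FvType [DecidableEq Δ] (Ad : Representation k Δ (Mt n k)) (δ : Δ) (X : Mt n k) :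
    f1_EvType Ad (Pi.single δ 1) X = Ad δ X := by
  rw [f1_apply_EvType, sum_eq_single δ]
  · rw [Pi.single_eq_same, one_smul]
  · intro δ' _ h3
    rw [Pi.single_eq_of_ne h3, zero_smul]
  · intro h3
    exact absurd (mem_univ _) h3

theorem span_FvType {Ad : Representation k Δ (Mt n k)} {b₁ : Fin m₁ → Mt n k →ₗ[k] Mt n k}
    {L₁ : (Δ → k) →ₗ[k] (Fin m₁ → k)} (e₁ : ∀ v Z, f1_EvType Ad v Z = ∑ s, L₁ v s • b₁ s Z)
    (X : ℕ → Mt n k) (j d : ℕ) {Z : Mt n k}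
    (h1 : Z ∈ Submodule.span k {Z | ∃ δ i, j ≤ i ∧ i < d ∧ Z = Ad δ (X i)}) :
    ∃ c : ℕ → Fin m₁ → k, Z = ∑ i ∈ Ico j d, ∑ s, c i s • b₁ s (X i) := by
  classical
  induction h1 using Submodule.span_induction with
  | mem Z hZ =>
    obtain ⟨δ, i, h1, h2, rfl⟩ := hZ
    refine ⟨fun i' => if i' = i then L₁ (Pi.single δ 1) else 0, ?_⟩
    rw [sum_eq_single_of_mem i (mem_Ico.2 ⟨h1, h2⟩)]
    · beta_reduce
      rw [if_pos rfl, ← e₁, single_FvType]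
    · intro i' _ h3
      simp [h3]
  | zero => exact ⟨0, by simp⟩
  | add Z Z' _ _ h1 h2 =>
    obtain ⟨c, rfl⟩ := h1
    obtain ⟨c', rfl⟩ := h2
    exact ⟨c + c', by simp only [Pi.add_apply, add_smul, sum_add_distrib]⟩
  | smul t Z _ h1 =>
    obtain ⟨c, rfl⟩ := h1
    exact ⟨t • c, by simp only [Pi.smul_apply, smul_eq_mul, mul_smul, smul_sum]⟩

variable [Algebra (ZMod p) k]

/-- the random moves attached to a family of lifts -/
def xv_FvType (L₁ : (Δ → k) →ₗ[k] (Fin m₁ → k)) (L₂ : (A → k) →ₗ[k] (Fin m₂ → k))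
    (v : ∀ i, A ⊕ (Fin i × Δ) → ZMod p) (i : ℕ) : Rn m₁ m₂ i → k :=
  LL_EvType L₁ L₂ i fun a => algebraMap (ZMod p) k (v i a)

theorem sol_FvType [Fintype A] [DecidableEq A] {Ad : Representation k Δ (Mt n k)}
    {μ : Δ →* Matrix A A ℤ} {d : ℕ} {δ : ℕ → Δ} {a : ℕ → ZMod p} {b : ℕ → Bool}
    {W : ℕ → Submodule k (Mt n k)} {u : Ix n → A → k} {G : Ix n → Mt n k →ₗ[k] Mt n k}
    {T : Nm n m₁ m₂ → Mt n k →ₗ[k] Mt n k}
    {L₁ : (Δ → k) →ₗ[k] (Fin m₁ → k)} {L₂ : (A → k) →ₗ[k] (Fin m₂ → k)}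
    (hπ : ∀ j, ∀ X ∈ W j, Ad (δ j) X = algebraMap (ZMod p) k (a j) • X →
      T (.inl (2 * j)) X = X ∧ brk (av Ad (δ j) X) X = 0 ∧
      ∃ Q₀ Q₁ Q₂ Q₃ R : Mt n k →ₗ[k] Mt n k, (∀ Z, R Z ∈ W j) ∧ (∀ Z, Q₀ (brk Z X) = 0) ∧
        ∀ Z, Z = Q₁ (brk (av Ad (δ j) (R Z)) X) + Q₂ (Z - T (.inl (2 * j)) Z) + Q₃ (Q₀ Z))
    (hT : ∀ j, T (.inl (2 * j + 1)) = av Ad (δ j))
    (hL₁ : ∀ v, f1_EvType Ad v = ∑ s, L₁ v s • T (.inr (.inl s)))
    (hb₁ : ∀ s, ∃ v, f1_EvType Ad v = T (.inr (.inl s)))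
    (e₂ : ∀ v e Z, f2_EvType Ad μ u v e Z = ∑ s, L₂ v s • T (.inr (.inr (s, e))) Z)
    (hG : ∀ (I : Type) [Fintype I] (X : I → Mt n k),
      W 0 = Submodule.span k {Y | ∃ δ i, Y = Ad δ (X i)} → ∀ Y ∈ W 0, ∃ κ : I → A → k,
        Y = ∑ e, G e (∑ i, ∑ δ, (κ i ⬝ᵥ ((μ δ⁻¹).map (Int.cast : ℤ → k) *ᵥ u e)) • Ad δ (X i)))
    {s : St p k Δ A} {X Y : ℕ → Mt n k} (h : s.Rel Ad μ d δ a b X Y)
    (hW : ∀ j < d, W j = Submodule.span k {Z | ∃ γ i, j ≤ i ∧ i < d ∧ Z = Ad γ (X i)})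
    {v : ∀ i, A ⊕ (Fin i × Δ) → ZMod p}
    (hv₁ : ∀ i < d, ∀ j : Fin i, ∑ γ, algebraMap (ZMod p) k (s.ν j i γ) • Ad γ (X i) =
      av Ad (δ j) (∑ γ, algebraMap (ZMod p) k (v i (.inr (j, γ))) • Ad γ (X i)))
    (hv₂ : ∀ i < d, ∀ e, ∑ γ, algebraMap (ZMod p) k (∑ e', μ γ⁻¹ e' e * s.κ i e') • Ad γ (X i) =
      ∑ γ, algebraMap (ZMod p) k (∑ e', μ γ⁻¹ e' e * v i (.inl e')) • Ad γ (X i)) :
    SolF n m₁ m₂ d k (xv_FvType L₁ L₂ v) (ys_EvType Ad b T s) := by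
  classical
  obtain ⟨hnil, ⟨j₀, hj₀, hne⟩, heig, hY, hbr, hun⟩ := h
  have e₁ : ∀ v Z, f1_EvType Ad v Z = ∑ s, L₁ v s • T (.inr (.inl s)) Z := by
    intro v Z
    rw [hL₁, LinearMap.sum_apply]
    rfl
  have hmem : ∀ j i, j ≤ i → i < d → ∀ δ, Ad δ (X i) ∈ W j := by
    intro j i h1 h2 δ
    rw [hW j (h1.trans_lt h2)]
    exact Submodule.subset_span ⟨δ, i, h1, h2, rfl⟩
  have hcert := fun j (hj : j < d) =>
    hπ j (X j) (by simpa using hmem j j le_rfl hj 1) (heig j hj)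
  choose! Q₀ Q₁ Q₂ Q₃ R hR hQ₀ hQ using fun j (hj : j < d) => (hcert j hj).2.2
  choose! c hc using fun j (e : Ix n) (hj : j < d) =>
    span_FvType e₁ X j d (hW j hj ▸ hR j hj (single e.1 e.2 1))
  have hW0 : W 0 = Submodule.span k {Z | ∃ δ, ∃ i : Fin d, Z = Ad δ (X i)} := by
    rw [hW 0 (by omega)]
    congr 1
    ext Z
    exact ⟨fun ⟨δ, i, _, h2, h3⟩ => ⟨δ, ⟨i, h2⟩, h3⟩, fun ⟨δ, i, h3⟩ => ⟨δ, i, Nat.zero_le _, i.2, h3⟩⟩
  have hb0 : ∀ i < d, ∀ t, T (.inr (.inl t)) (X i) ∈ W 0 := by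
    intro i hi t
    obtain ⟨w, hw⟩ := hb₁ t
    rw [← hw, f1_apply_EvType]
    exact Submodule.sum_mem _ fun δ _ => Submodule.smul_mem _ _ (hmem 0 i (Nat.zero_le _) hi δ)
  choose! κ hκ using fun i (t : Fin m₁) (hi : i < d) =>
    hG (Fin d) (fun i => X i) hW0 _ (hb0 i hi t)
  obtain ⟨a₀, b₀, hab⟩ : ∃ a₀ b₀, X j₀ a₀ b₀ ≠ 0 := by
    by_contra hn
    push Not at hn
    exact hne (Matrix.ext hn)
  refine ⟨X, fun j a => if j = j₀ ∧ a = (a₀, b₀) then (X j₀ a₀ b₀)⁻¹ else 0, c,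
    fun _ => L₁ (Pi.single 1 1),
    fun j => ![co_EvType (Q₀ j), co_EvType (Q₁ j), co_EvType (Q₂ j), co_EvType (Q₃ j)],
    fun e => co_EvType (G e), fun i t i' => if h : i' < d then L₂ (κ i t ⟨i', h⟩) else 0,
    hnil, ?_, fun j hj => ?_, fun j hj => ?_, fun j hj => ?_, fun j hj e => ?_, fun j hj e => ?_,
    fun j hj => ?_, fun e => ?_, fun i hi t => ?_⟩
  · rw [sum_eq_single_of_mem j₀ (mem_range.2 hj₀), sum_eq_single (a₀, b₀)]
    · rw [if_pos ⟨rfl, rfl⟩, inv_mul_cancel₀ hab]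
    · intro a _ h1
      rw [if_neg fun h => h1 h.2, zero_mul]
    · intro h1
      exact absurd (mem_univ _) h1
    · intro j _ h1
      simp [h1]
  · rw [ys_EvType, op_mk_EvType]
    exact (hcert j hj).1
  · simp only [ys_EvType, op_mk_EvType]
    rw [← e₁, single_FvType, map_one]
    rfl
  · rw [ys_EvType, op_mk_EvType, hT]
    exact (hcert j hj).2.1
  · exact (ap_co_EvType (Q₀ j) _).trans (hQ₀ j hj _)
  · simp only [ys_EvType, op_mk_EvType]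
    rw [hT, ← hc j e hj]
    refine (hQ j hj _).trans ?_
    rw [← ap_co_EvType (Q₁ j), ← ap_co_EvType (Q₂ j), ← ap_co_EvType (Q₃ j),
      ← ap_co_EvType (Q₀ j)]
    rfl
  · have h1 : ∑ i ∈ range d, colV (xv_FvType L₁ L₂ v) (ys_EvType Ad b T s) j i (X i) = Y j := by
      rw [hY j hj]
      refine sum_congr rfl fun i hi => ?_
      rw [colV]
      split_ifs with h2
      · simp only [ys_EvType, op_mk_EvType]
        rw [hT, hv₁ i (mem_range.1 hi) ⟨j, h2⟩, ← f1_apply_EvType, e₁]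
        rfl
      · rw [ys_EvType, op_mk_EvType, Sum.elim_inl, if_pos (not_lt.1 h2), f1_apply_EvType]
    rw [h1, brk, hbr j hj]
    rfl
  · simp only [ys_EvType, op_mk_EvType]
    have h1 : ∀ i ∈ range d, ∑ t, xv_FvType L₁ L₂ v i (.inr t) • T (.inr (.inr (t, e))) (X i) =
        ∑ a, u e a • ∑ δ, algebraMap (ZMod p) k (∑ a', μ δ⁻¹ a' a * s.κ i a') • Ad δ (X i) := by
      intro i hi
      simp only [hv₂ i (mem_range.1 hi)]
      refine (e₂ (fun a => algebraMap (ZMod p) k (v i (.inl a))) e (X i)).symm.trans ?_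
      rw [f2_apply_EvType]
      simp only [smul_sum, smul_smul]
      rw [sum_comm]
      refine sum_congr rfl fun δ _ => ?_
      rw [← sum_smul]
      congr 1
      simp only [dotProduct, mulVec, map_apply, map_sum, map_mul, map_intCast, mul_sum]
      rw [sum_comm]
      refine sum_congr rfl fun a _ => sum_congr rfl fun a' _ => ?_
      ring
    rw [sum_congr rfl h1, sum_comm]
    refine sum_eq_zero fun a _ => ?_
    rw [← smul_sum, hun a, smul_zero]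
  · simp only [ys_EvType, op_mk_EvType, ap_co_EvType]
    refine (hκ i t hi).trans (sum_congr rfl fun e' _ => ?_)
    congr 1
    rw [sum_range]
    refine sum_congr rfl fun i' _ => ?_
    rw [dif_pos i'.2, ← f2_apply_EvType]
    exact e₂ _ _ _

end

theorem type2_stmt (h1 : GameStmt) (h2 : DerStmt) (h3 : Gen2Stmt) (h4 : Nat2Stmt) (h5 : CertStmt)
    (h6 : ProjStmt) (h7 : SZStmt) : Type2Stmt := by
  intro n d
  choose D hD using fun m₁ m₂ : ℕ => h1 (Rn m₁ m₂) (Bt n m₁ m₂) d (SolF n m₁ m₂ d)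
    (h4 n m₁ m₂ d).1 (h4 n m₁ m₂ d).2.1
    fun Ω _ _ x y h => h3 n m₁ m₂ d Ω x y (h2 _ _ Ω d x y h)
  refine ⟨∑ m₁ ∈ range (n * n * (n * n) + 1), ∑ m₂ ∈ range (n * n * (n * n * (n * n)) + 1),
    D m₁ m₂, ?_⟩
  generalize hC : ∑ m₁ ∈ range (n * n * (n * n) + 1),
    ∑ m₂ ∈ range (n * n * (n * n * (n * n)) + 1), D m₁ m₂ = C
  intro p _ hp k Δ A _ _ _ _ _ _ _ Ad μ hAd hΔ δ a ha b W hW hWa hrk
  have : CharP k p := charP_of_injective_algebraMap (algebraMap (ZMod p) k).injective p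
  have hch : ∀ m : ℕ, 0 < m → m ≤ C → (m : k) ≠ 0 := by
    intro m h0 hm h
    have := Nat.le_of_dvd h0 ((CharP.cast_eq_zero_iff k p m).1 h)
    omega
  have r1 : Module.finrank k (Mt n k) = n * n := by simp [Module.finrank_matrix]
  have r2 : Module.finrank k (Mt n k →ₗ[k] Mt n k) = n * n * (n * n) := by
    rw [Module.finrank_linearMap, r1]
  have r3 : Module.finrank k (Ix n → Mt n k →ₗ[k] Mt n k) = n * n * (n * n * (n * n)) := by
    rw [Module.finrank_pi_fintype]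
    simp [r2]
  obtain ⟨u, G, hG⟩ := hrk
  choose π hπ using fun j => h5 k Δ n Ad hAd (fun h => hΔ ((CharP.cast_eq_zero_iff k p _).1 h))
    (δ j) (algebraMap (ZMod p) k (a j)) (W j) (hW j)
    ((hWa j).imp_left fun h => by rw [h, map_one])
  choose Pr P1 P2 P3 using fun i => h6 p k Δ (Mt n k) A (Fin i) Ad μ (fun j : Fin i => δ j) (δ i)
    (a i) hΔ (ha i)
  obtain ⟨m₁, hm₁, b₁, L₁, s₁, hL₁, hb₁⟩ := coord_EvType (f1_EvType Ad)
  obtain ⟨m₂, hm₂, b₂, L₂, s₂, hL₂, -⟩ := coord_EvType (f2_EvType Ad μ u)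
  have hDC : D m₁ m₂ ≤ C := by
    have a1 : D m₁ m₂ ≤ ∑ m₂ ∈ range (n * n * (n * n * (n * n)) + 1), D m₁ m₂ :=
      single_le_sum (f := fun m₂ => D m₁ m₂) (fun _ _ => Nat.zero_le _) (mem_range.2 (by omega))
    have a2 := single_le_sum
      (f := fun m₁ => ∑ m₂ ∈ range (n * n * (n * n * (n * n)) + 1), D m₁ m₂)
      (s := range (n * n * (n * n) + 1)) (fun _ _ => Nat.zero_le _) (a := m₁)
      (mem_range.2 (by omega))
    omega
  obtain ⟨T, T0, T1, T2, T3⟩ : ∃ T : Nm n m₁ m₂ → Mt n k →ₗ[k] Mt n k,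
      (∀ j, T (.inl (2 * j)) = π j) ∧ (∀ j, T (.inl (2 * j + 1)) = av Ad (δ j)) ∧
      (∀ s, T (.inr (.inl s)) = b₁ s) ∧ ∀ s e, T (.inr (.inr (s, e))) = b₂ s e := by
    refine ⟨Sum.elim (fun m => if m % 2 = 0 then π (m / 2) else av Ad (δ (m / 2)))
      (Sum.elim b₁ fun se => b₂ se.1 se.2), fun j => ?_, fun j => ?_, fun _ => rfl,
      fun _ _ => rfl⟩
    · rw [Sum.elim_inl, if_pos (by omega), show 2 * j / 2 = j by omega]
    · rw [Sum.elim_inl, if_neg (by omega), show (2 * j + 1) / 2 = j by omega]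
  refine ⟨fun i s => ∃ v : ∀ i, A ⊕ (Fin i × Δ) → ZMod p, (∀ j < i, Pr j (v j) = s.rnd j) ∧
    ¬ Lose (SolF n m₁ m₂ d k) (D m₁ m₂) (d - i) i (xv_FvType L₁ L₂ v) (ys_EvType Ad b T s),
    fun s => ⟨0, fun j hj => absurd hj (Nat.not_lt_zero j),
      hD m₁ m₂ k (fun m h0 hm => hch m h0 (hm.trans hDC)) _ _⟩, ?_, ?_⟩
  · rintro s ⟨v, hv, hs⟩ ⟨X, Y, hrel, hWX⟩
    refine hs ?_
    rw [Nat.sub_self]
    refine sol_FvType (u := u) (G := G) (fun j => by rw [T0]; exact hπ j) T1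
      (fun w => by simp only [T2]; exact hL₁ w) (fun t => by rw [T2]; exact hb₁ t)
      (fun w e Z => ?_) hG hrel hWX (fun i hi j => ?_) fun i hi e => ?_
    · simp only [T3]
      rw [hL₂, Finset.sum_apply, LinearMap.sum_apply]
      rfl
    · have := (P3 i (v i) (X i) (hrel.eig i hi)).1 j
      rw [hv i hi] at this
      exact this
    · have := (P3 i (v i) (X i) (hrel.eig i hi)).2 e
      rw [hv i hi] at this
      exact this
  · rintro i hi s ⟨v, hv, hs⟩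
    have e : d - i = d - (i + 1) + 1 := by omega
    rw [e, Lose] at hs
    push Not at hs
    obtain ⟨Q, hQ, hdeg, hs⟩ := hs
    refine ⟨{w | ∀ v', Pr i v' = w → ∃ x' y', (∀ j < i, x' j = xv_FvType L₁ L₂ v j) ∧
      (∀ j ≤ i, y' j = ys_EvType Ad b T s j) ∧
      x' i = LL_EvType L₁ L₂ i (fun a => algebraMap (ZMod p) k (v' a)) ∧
      Lose (SolF n m₁ m₂ d k) (D m₁ m₂) (d - (i + 1)) (i + 1) x' y'}, ?_, ?_, ?_⟩
    · refine count_FvType (Pr i) _ (P1 i) (P2 i) (fun v' hv' => ?_)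
        ((h7 p k _ _ _ (LL_surj_EvType s₁ s₂ i) Q hQ).trans (Nat.mul_le_mul (hdeg.trans hDC) ?_))
      · obtain ⟨x', y', a1, a2, a3, a4⟩ := hv' v' rfl
        by_contra hn
        exact hs x' y' a1 a2 (by rw [a3]; exact hn) a4
      · rw [Nat.card_fun, Nat.card_zmod, Nat.card_eq_fintype_card]
    · intro t ht w hw v' hv'
      obtain ⟨x', y', a1, a2, a3, a4⟩ := hw (t⁻¹ • v')
        (by rw [map_smul, hv', inv_smul_smul₀ ht])
      obtain ⟨x'', y'', c1, c2, c3, c4⟩ := (h4 n m₁ m₂ d).2.2 k _ i _ (algebraMap (ZMod p) k t)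
        ((map_ne_zero _).2 ht) x' y' a4
      refine ⟨x'', y'', fun j hj => (c1 j hj).trans (a1 j hj),
        fun j hj => (c2 j hj).trans (a2 j hj), ?_, c4⟩
      rw [c3, a3, ← map_smul]
      congr 1
      funext z
      rw [Pi.smul_apply, Pi.smul_apply, smul_eq_mul, smul_eq_mul, ← map_mul,
        mul_inv_cancel_left₀ ht]
    · intro s' hag _ hn
      obtain ⟨v', hv', hn⟩ := (not_forall.1 hn).imp fun v' h => Classical.not_imp.1 h
      refine ⟨Function.update v i v', fun j hj => ?_, fun hl => hn ⟨_, _, fun j hj => ?_,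
        ys_agree_EvType Ad b T hag, ?_, hl⟩⟩
      · rcases (Nat.lt_succ_iff.1 hj).eq_or_lt with rfl | hj
        · rw [Function.update_self, hv']
        · rw [Function.update_of_ne hj.ne, hv j hj, rnd_agree_FvType hag j hj]
      · rw [xv_FvType, xv_FvType, Function.update_of_ne hj.ne]
      · rw [xv_FvType, Function.update_self]

end Pool.Agent.MP_f68ac8_nt.Ev
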