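import Mathlib
import Pool.Agent.MP_f68ac8_nt.FvAux
import Pool.Agent.MP_f68ac8_nt.EvUnit

/-! The units of a number field as a module over its automorphism group. -/

namespace Pool.Agent.MP_f68ac8_nt.Ev

open NumberField NumberField.Units Module

section
variable {F : Type} [Field F] [NumberField F]

lemma indep_FvUnit : LinearIndependent ℝ
    (fun o : Option (Fin (rank F)) => Option.casesOn' o (1 : InfinitePlace F → ℝ)
      fun a => lg_EvUnit (fundSystem F a)) := by
  classical
  refine linearIndependent_option'.2 ⟨?_, fun h => ?_⟩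
  · let L : (InfinitePlace F → ℝ) →ₗ[ℝ]
        ({w : InfinitePlace F // w ≠ dirichletUnitTheorem.w₀} → ℝ) :=
      LinearMap.pi fun w => (w.1.mult : ℝ) • LinearMap.proj w.1
    refine LinearIndependent.of_comp L ?_
    have e : L ∘ (fun a => lg_EvUnit (fundSystem F a)) =
        fun i => logEmbedding F (Additive.ofMul (fundSystem F i)) := by
      funext i w
      rw [dirichletUnitTheorem.logEmbedding_component]
      simp [lg_EvUnit, L]
    rw [e]
    exact isMaxRank_fundSystem F
  · let S : (InfinitePlace F → ℝ) →ₗ[ℝ] ℝ := ∑ w, (w.mult : ℝ) • LinearMap.proj w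
    have hS : ∀ f, S f = ∑ w, (w.mult : ℝ) * f w := fun f => by simp [S]
    have hle : Submodule.span ℝ (Set.range fun a => lg_EvUnit (fundSystem F a)) ≤
        LinearMap.ker S := by
      refine Submodule.span_le.2 ?_
      rintro _ ⟨a, rfl⟩
      exact (hS _).trans (sum_mult_mul_log (fundSystem F a))
    have h1 := hle h
    rw [LinearMap.mem_ker, hS] at h1
    simp only [Pi.one_apply, mul_one] at h1
    have h2 : (0 : ℝ) < ∑ w : InfinitePlace F, (w.mult : ℝ) :=
      Finset.sum_pos (fun w _ => by exact_mod_cast InfinitePlace.mult_pos) Finset.univ_nonempty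
    exact h2.ne' h1

lemma trace_FvUnit (δ : F ≃ₐ[ℚ] F) :
    (mu_EvUnit δ).trace = (Nat.card {w : InfinitePlace F // δ • w = w} : ℤ) - 1 := by
  classical
  let B : Basis (Option (Fin (rank F))) ℝ (InfinitePlace F → ℝ) :=
    basisOfLinearIndependentOfCardEqFinrank indep_FvUnit (by
      rw [Fintype.card_option, Fintype.card_fin, rank_EvUnit, finrank_fintype_fun_eq_card])
  have hB0 : B none = 1 := by simp [B]
  have hB : ∀ a, B (some a) = lg_EvUnit (fundSystem F a) := fun a => by simp [B]
  let T : (InfinitePlace F → ℝ) →ₗ[ℝ] (InfinitePlace F → ℝ) :=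
    LinearMap.funLeft ℝ ℝ fun w => δ⁻¹ • w
  have hT : ∀ x, T (lg_EvUnit x) = lg_EvUnit (ua_EvUnit δ x) := fun x => rfl
  have h1 : LinearMap.trace ℝ _ T = 1 + ((mu_EvUnit δ).trace : ℤ) := by
    rw [LinearMap.trace_eq_matrix_trace ℝ B, Matrix.trace, Fintype.sum_option, Matrix.trace]
    push_cast
    congr 1
    · rw [Matrix.diag_apply, LinearMap.toMatrix_apply]
      have : T (B none) = B none := by rw [hB0]; rfl
      rw [this]; simp
    · refine Finset.sum_congr rfl fun a _ => ?_
      rw [Matrix.diag_apply, Matrix.diag_apply, LinearMap.toMatrix_apply, hB, hT, lg_eq_EvUnit]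
      simp only [← hB, map_sum, map_smul, Basis.repr_self, Finsupp.coe_finsetSum,
        Finset.sum_apply, Finsupp.smul_apply, Finsupp.single_apply, Option.some.injEq, smul_eq_mul,
        mul_ite, mul_one, mul_zero, Finset.sum_ite_eq', Finset.mem_univ, if_true, mu_apply_EvUnit]
  have h2 : LinearMap.trace ℝ _ T = (Nat.card {w : InfinitePlace F // δ • w = w} : ℝ) := by
    rw [LinearMap.trace_eq_matrix_trace ℝ (Pi.basisFun ℝ _), Matrix.trace, Nat.card_eq_fintype_card,
      Fintype.card_subtype, Finset.card_filter]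
    push_cast
    refine Finset.sum_congr rfl fun w _ => ?_
    rw [Matrix.diag_apply, LinearMap.toMatrix_apply, Pi.basisFun_repr, Pi.basisFun_apply]
    change (Pi.single w (1 : ℝ) : InfinitePlace F → ℝ) (δ⁻¹ • w) = _
    rw [Pi.single_apply]
    refine if_congr ?_ rfl rfl
    rw [inv_smul_eq_iff, eq_comm]
  rw [h2] at h1
  have : ((mu_EvUnit δ).trace : ℝ) =
      (((Nat.card {w : InfinitePlace F // δ • w = w} : ℤ) - 1 : ℤ) : ℝ) := by
    push_cast; linarith
  exact_mod_cast this

end

theorem unit2_stmt : Unit2Stmt := by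
  intro F _ _
  refine ⟨Fin (rank F), inferInstance, inferInstance, fundSystem F, mu_EvUnit, fun δ a => ?_,
    trace_FvUnit, ind_EvUnit⟩
  obtain ⟨ζ, hζ, h⟩ := ex_spec_EvUnit (ua_EvUnit δ (fundSystem F a))
  obtain ⟨N, hN, hN'⟩ := isOfFinOrder_iff_pow_eq_one.1 ((CommGroup.mem_torsion _).1 hζ)
  refine ⟨(ζ : F), N, hN, ?_, ?_⟩
  · have := congrArg (fun x : (𝓞 F)ˣ => (x : F)) hN'
    simpa using this
  · have := congrArg (fun x : (𝓞 F)ˣ => (x : F)) h
    simp only [ua_coe_EvUnit, coe_mul, coe_prod_EvUnit] at this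
    exact this

end Pool.Agent.MP_f68ac8_nt.Ev
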