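import Mathlib
import Pool.Agent.MP_f68ac8_nt.FvAux
import Pool.Agent.MP_f68ac8_nt.EvVec
import Pool.Agent.MP_f68ac8_nt.EvRec
import Pool.Agent.MP_f68ac8_nt.EvStep

/-! Linear relations between the values of an equivariant additive map, relative version. -/

namespace Pool.Agent.MP_f68ac8_nt.Ev

open NumberField
open scoped Pointwise Topology

/-- a transversal adapted to the tower -/
lemma trans_FvVec (p : ℕ) [hp : Fact p.Prime] (F : IntermediateField ℚ Qb) [Normal ℚ F]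
    (G : Subgroup GQ) (hG : F.fixingSubgroup ≤ G) :
    ∃ (Γ : Type) (_ : Fintype Γ) (t : Dl G F × Γ → G),
      (∀ g ∈ G, ∃! i, (t i : GQ)⁻¹ * g ∈ HH p F) ∧ (∀ i, rs G F (t i) = i.1) ∧
        (Fintype.card Γ : ZMod p) ≠ 0 := by
  classical
  let Γ : Subgroup (ZMod p)ˣ := F.fixingSubgroup.map (cyc p)
  choose sc hsc using rs_surj G F
  have hs : ∀ γ : Γ, ∃ g ∈ F.fixingSubgroup, cyc p g = γ := fun γ => γ.2
  choose s hs1 hs2 using hs
  have hsc' : ∀ δ, res F (sc δ : GQ) = δ.1 := fun δ => by rw [← rs_val, hsc]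
  have hres : ∀ i : Dl G F × Γ, res F ((sc i.1 : GQ) * s i.2) = i.1.1 := fun i => by
    rw [map_mul, hsc', mem_fix_EvVec.1 (hs1 _), mul_one]
  obtain ⟨t, ht⟩ : ∃ t : Dl G F × Γ → G, ∀ i, (t i : GQ) = (sc i.1 : GQ) * s i.2 :=
    ⟨fun i => sc i.1 * ⟨s i.2, hG (hs1 _)⟩, fun _ => rfl⟩
  refine ⟨Γ, inferInstance, t, fun g hg => ?_,
    fun i => Subtype.ext (by rw [rs_val, ht, hres]), ?_⟩
  · obtain ⟨δ, hδ⟩ : ∃ δ : Dl G F, δ.1 = res F g := ⟨rs G F ⟨g, hg⟩, rfl⟩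
    have h1 : (sc δ : GQ)⁻¹ * g ∈ F.fixingSubgroup := by
      rw [mem_fix_EvVec, map_mul, map_inv, hsc', hδ, inv_mul_cancel]
    obtain ⟨γ, hγ⟩ : ∃ γ : Γ, γ.1 = cyc p ((sc δ : GQ)⁻¹ * g) := ⟨⟨_, _, h1, rfl⟩, rfl⟩
    refine ⟨(δ, γ), ?_, ?_⟩
    · refine mem_HH_EvVec.2 ⟨?_, ?_⟩
      · rw [map_mul, map_inv, ht, hres, hδ, inv_mul_cancel]
      · rw [map_mul, map_inv, ht, map_mul, hs2, hγ, map_mul, map_inv, mul_inv_cancel_left,
          inv_mul_cancel]
    · rintro ⟨δ', γ'⟩ h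
      obtain ⟨h2, h3⟩ := mem_HH_EvVec.1 h
      rw [map_mul, map_inv, ht, hres, inv_mul_eq_one] at h2
      obtain rfl : δ' = δ := Subtype.ext (h2.trans hδ.symm)
      refine Prod.ext rfl (Subtype.ext ?_)
      rw [map_mul, map_inv, inv_mul_eq_one, ht, map_mul, hs2] at h3
      change γ'.1 = γ.1
      rw [hγ, map_mul, map_inv, ← h3, inv_mul_cancel_left]
  · rw [Ne, ZMod.natCast_eq_zero_iff]
    refine Nat.not_dvd_of_pos_of_lt Fintype.card_pos ?_
    have h1 : Fintype.card Γ ≤ Fintype.card (ZMod p)ˣ :=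
      Fintype.card_le_of_injective _ Subtype.val_injective
    rw [ZMod.card_units] at h1
    have := hp.out.pos
    omega

/-- equivariant additive maps -/
structure Eqv_FvVec (G : Subgroup GQ) (F : IntermediateField ℚ Qb) [Normal ℚ F] {k V : Type}
    [Field k] [AddCommGroup V] [Module k V] (Ad : Representation k (Dl G F) V) (f : GQ → V) :
    Prop where
  le : F.fixingSubgroup ≤ G
  add : ∀ g ∈ F.fixingSubgroup, ∀ h ∈ F.fixingSubgroup, f (g * h) = f g + f h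
  conj : ∀ g : G, ∀ h ∈ F.fixingSubgroup, f (g * h * (g : GQ)⁻¹) = Ad (rs G F g) (f h)
  nhds : ∀ᶠ g in 𝓝 (1 : GQ), g ∈ F.fixingSubgroup → f g = 0

section main
variable {p : ℕ} [hp : Fact p.Prime] {F : IntermediateField ℚ Qb} [NumberField F] [IsGalois ℚ F]
  {G : Subgroup GQ} {k V : Type} [Field k] [Algebra (ZMod p) k] [AddCommGroup V] [Module k V]
  {Ad : Representation k (Dl G F) V} {f : GQ → V}

omit [NumberField F] in
lemma Eqv_FvVec.one (hf : Eqv_FvVec G F Ad f) : f 1 = 0 := by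
  have := hf.add 1 (one_mem _) 1 (one_mem _)
  simpa using this

omit [NumberField F] in
lemma Eqv_FvVec.pow (hf : Eqv_FvVec G F Ad f) {h : GQ} (hh : h ∈ F.fixingSubgroup) (n : ℕ) :
    f (h ^ n) = n • f h := by
  induction n with
  | zero => simpa using hf.one
  | succ n ih => rw [pow_succ, hf.add _ (pow_mem hh n) _ hh, ih, succ_nsmul]

omit [NumberField F] in
lemma Eqv_FvVec.inv (hf : Eqv_FvVec G F Ad f) {h : GQ} (hh : h ∈ F.fixingSubgroup) :
    f h⁻¹ = - f h := by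
  have := hf.add _ hh _ (inv_mem hh)
  rw [mul_inv_cancel, hf.one] at this
  exact (neg_eq_of_add_eq_zero_right this.symm).symm

/-- no ramification at primes whose norm is not one mod `p` -/
lemma Eqv_FvVec.unram (hf : Eqv_FvVec G F Ad f) (hW : WildStmt) {Q : Ideal OQ}
    (hQ : Q.IsMaximal) (h1 : (p : OQ) ∉ Q)
    (h2 : ¬ Ideal.absNorm (Q.under (𝓞 F)) ≡ 1 [MOD p]) {u : GQ}
    (hu : u ∈ Q.inertia GQ) (hu' : u ∈ F.fixingSubgroup) : f u = 0 := by
  obtain ⟨l, e, s, hl, -, hlQ, hN, hs, hσ⟩ := hW.2.1 F Q hQ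
  obtain ⟨a, ha⟩ := hW.1 l e Q s u hl hQ hlQ hσ hu _ hf.nhds
  have hw : s * u * s⁻¹ * (u ^ l ^ e)⁻¹ ∈ F.fixingSubgroup :=
    mul_mem (conj_mem_EvVec s hu') (inv_mem (pow_mem hu' _))
  have h3 : f _ = 0 := ha (pow_mem hw _)
  rw [hf.pow hw] at h3
  have h4 := tors_EvVec (p := p) k (fun hd => h1 ((Nat.prime_dvd_prime_iff_eq hp.out hl).1
    (hp.out.dvd_of_dvd_pow hd) ▸ hlQ)) h3
  rw [hf.add _ (conj_mem_EvVec s hu') _ (inv_mem (pow_mem hu' _)), hf.inv (pow_mem hu' _),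
    hf.pow hu', hf.add _ (mul_mem hs hu') _ (inv_mem hs), hf.add _ hs _ hu', hf.inv hs,
    add_neg_cancel_comm, add_neg_eq_zero] at h4
  obtain ⟨m, hm⟩ : ∃ m, l ^ e = m + 1 :=
    Nat.exists_eq_succ_of_ne_zero (pow_ne_zero _ hl.ne_zero)
  rw [hm, succ_nsmul, eq_comm, add_eq_right] at h4
  refine tors_EvVec (p := p) k (fun hd => h2 ?_) h4
  rw [hN, hm]
  exact (Nat.modEq_zero_iff_dvd.mpr hd).add_right 1

/-- the reciprocity law for a linear form of `f` -/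
lemma Eqv_FvVec.recip (hf : Eqv_FvVec G F Ad f) (hR : RecUStmt p) (hT : TrivStmt p)
    (hC : Cfg2Stmt p) (h2 : 2 < p) (hd : ¬ p ∣ Module.finrank ℚ F) (hdi : ¬ (p : ℤ) ∣ discr F)
    {J : Type} [Fintype J] {c : J → Cfg F} (hc : ∀ j, (c j).Ok2 p G)
    (hinj : Function.Injective fun j => (c j).l) :
    (∀ j, ∀ u ∈ (c j).P.inertia GQ,
      f u = algebraMap (ZMod p) k (KK p (c j).l u) • f (c j).τ) ∧
    ((∀ Q : Ideal OQ, Q.IsMaximal → (∀ j, ∀ g ∈ G, Q ≠ g • (c j).P) → ∀ u ∈ Q.inertia GQ,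
      u ∈ F.fixingSubgroup → f u = 0) → ∀ a : 𝓞 F, a ≠ 0 →
      (∀ Q : Ideal OQ, Q.IsMaximal → algebraMap (𝓞 F) OQ a ∈ Q →
        ∃ j, ∃ g ∈ G, Q = g • (c j).P) →
      ∑ j, Tp2 p G Ad a ((c j).σ ^ mm p F) (f (c j).τ) =
        ∑ j, Tp2 p G Ad a (c j).τ (f ((c j).σ ^ mm p F))) := by
  obtain ⟨-, -, -, M, _, _, -, hFM, hM, hMD⟩ := hT F
  obtain ⟨Γ, _, t, ht, hres, hΓ⟩ := trans_FvVec p F G hf.le
  obtain ⟨hC1, -, hC3⟩ := hC F G h2
  have hle : M.fixingSubgroup ≤ F.fixingSubgroup := hM ▸ inf_le_left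
  have key := fun lam : V →+ ZMod p => hR M (hMD h2 hd hdi) G (hle.trans hf.le) (mm p F)
    (by rw [hM]; exact hC1) _ (fun i => (t i : GQ)) (fun i => (t i).2) (by rw [hM]; exact ht) J
    (fun j => (c j).l) (fun j => (c j).P) (fun j => (c j).σ) (fun j => (c j).τ) hinj
    (fun j => ⟨(hc j).prime, (hc j).ne, by rw [hM]; exact (hC3 _ (hc j)).1,
      (hc j).max, (hc j).mem, (hc j).frob, (hc j).inG, (hc j).inert, (hc j).gen⟩)
    (fun g => lam (f g))
    (fun g hg h hh => by rw [hf.add g (hle hg) h (hle hh), map_add])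
    (by
      filter_upwards [hf.nhds] with g hg hg'
      rw [hg (hle hg'), map_zero])
  refine ⟨fun j u hu => sub_eq_zero.1 (sep_EvVec p k fun lam => ?_), fun hA a ha hQ => ?_⟩
  · rw [map_sub, lam_smul_EvVec, sub_eq_zero]
    exact (key lam).1 j u hu
  refine sub_eq_zero.1 (sep_EvVec p k fun lam => ?_)
  have h3 := (key lam).2 (fun Q hQ hj u hu hu' => by rw [hA Q hQ hj u hu (hle hu'), map_zero])
    (algebraMap (𝓞 F) OQ a) (fun e => ha (by
      have e1 : ((a : F) : Qb) = 0 := congrArg (fun z : OQ => (z : Qb)) e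
      exact RingOfIntegers.ext (by simpa using e1))) (hFM (a : F).2) hQ
  have hσ : ∀ j, (c j).σ ^ mm p F ∈ F.fixingSubgroup := fun j => (hC1 _).1
  have hτ : ∀ j, (c j).τ ∈ F.fixingSubgroup := fun j => ((hC3 _ (hc j)).1 (hc j).inert).1
  have e1 : ∀ i, (t i : GQ)⁻¹ ((algebraMap (𝓞 F) OQ a : OQ) : Qb) =
      ((i.1.1⁻¹ (a : F) : F) : Qb) := by
    intro i
    rw [← hres i, rs_val, ← map_inv, res_coe_EvVec]
    rfl
  simp only [e1, hf.conj _ _ (hσ _), hf.conj _ _ (hτ _), hres, Fintype.sum_prod_type,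
    Finset.sum_const, Finset.card_univ, nsmul_eq_mul, ← Finset.mul_sum] at h3
  have h4 := (mul_eq_zero.1 h3).resolve_left hΓ
  simp only [Tp2, map_sub, map_sum, lam_smul_EvVec]
  simpa only [Finset.sum_sub_distrib] using h4

lemma Tp2_zero_FvVec (a : F) (g : GQ) : Tp2 p G Ad a g 0 = 0 := by simp [Tp2]

omit [NumberField F] in
lemma zpow_iff_FvVec (s : G) (δ : Dl G F) :
    δ.1⁻¹ ∈ Subgroup.zpowers (res F s.1) ↔ δ ∈ Subgroup.zpowers (rs G F s) := by
  rw [inv_mem_iff, Subgroup.mem_zpowers_iff, Subgroup.mem_zpowers_iff]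
  refine exists_congr fun n => ?_
  rw [Subtype.ext_iff, Subgroup.coe_zpow, rs_val]

/-- the relation attached to a member of the family -/
lemma Eqv_FvVec.rel (hf : Eqv_FvVec G F Ad f) (hR : RecUStmt p) (hT : TrivStmt p)
    (hC : Cfg2Stmt p) (h2 : 2 < p) (hd : ¬ p ∣ Module.finrank ℚ F) (hdi : ¬ (p : ℤ) ∣ discr F)
    {J : Type} [Fintype J] {c : J → Cfg F} (hc : ∀ j, (c j).Ok2 p G)
    (hinj : Function.Injective fun j => (c j).l)
    (hA : ∀ Q : Ideal OQ, Q.IsMaximal → (∀ j, ∀ g ∈ G, Q ≠ g • (c j).P) → ∀ u ∈ Q.inertia GQ,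
      u ∈ F.fixingSubgroup → f u = 0) (j : J) :
    ((orderOf (res F (c j).σ) * (classNumber F * mm p F) : ℕ) : k) • f ((c j).σ ^ mm p F) =
      ∑ i, Tp2 p G Ad (c j).α ((c i).σ ^ mm p F) (f (c i).τ) := by
  classical
  obtain ⟨hC1, -, hC3⟩ := hC F G h2
  obtain ⟨-, hα, hQ, hδ, -, -⟩ := hC3 _ (hc j)
  rw [(hf.recip hR hT hC h2 hd hdi hc hinj).2 hA (c j).α hα fun Q h1 h3 =>
      ⟨j, (hQ Q h1 h3).imp fun g hg => ⟨hf.le hg.1, hg.2⟩⟩,
    Finset.sum_eq_single j _ (by simp)]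
  · set s : G := ⟨(c j).σ, (hc j).inG⟩ with hs
    have hfix : ∀ δ ∈ Subgroup.zpowers (rs G F s),
        Ad δ (f ((c j).σ ^ mm p F)) = f ((c j).σ ^ mm p F) := by
      rintro δ ⟨n, rfl⟩
      have h5 := hf.conj (s ^ n) _ (hC1 (c j).σ).1
      rw [map_zpow] at h5
      refine h5.symm.trans (congrArg f ?_)
      rw [Subgroup.coe_zpow, mul_inv_eq_iff_eq_mul]
      exact ((Commute.refl (c j).σ).zpow_left n).pow_right _
    have hterm : ∀ δ : Dl G F,
        algebraMap (ZMod p) k (KK p (δ.1⁻¹ ((c j).α : F) : F) (c j).τ) •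
          Ad δ (f ((c j).σ ^ mm p F)) = if δ ∈ Subgroup.zpowers (rs G F s) then
          ((classNumber F * mm p F : ℕ) : k) • f ((c j).σ ^ mm p F) else 0 := by
      intro δ
      rw [hδ]
      by_cases h : δ ∈ Subgroup.zpowers (rs G F s)
      · rw [if_pos h, if_pos ((zpow_iff_FvVec s δ).2 h), map_natCast, hfix δ h]
      · rw [if_neg h, if_neg fun h' => h ((zpow_iff_FvVec s δ).1 h'), map_zero, zero_smul]
    have hcard : (Finset.univ.filter fun δ : Dl G F => δ ∈ Subgroup.zpowers (rs G F s)).card =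
        orderOf (res F (c j).σ) := by
      rw [← Fintype.card_subtype, ← Nat.card_eq_fintype_card, Nat.card_zpowers,
        ← Subgroup.orderOf_coe, rs_val]
    rw [Tp2, Finset.sum_congr rfl fun δ _ => hterm δ, ← Finset.sum_filter, Finset.sum_const,
      hcard, Nat.cast_mul (orderOf _), mul_smul, Nat.cast_smul_eq_nsmul]
  · intro i _ hi
    have h3 := (hC3 _ (hc i)).2.2.2.2.2 _ (hc j) fun e => hi (hinj e).symm
    simp [Tp2, h3]

/-- an everywhere unramified map vanishes -/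
lemma Eqv_FvVec.zero (hf : Eqv_FvVec G F Ad f) (hR : RecUStmt p) (hT : TrivStmt p)
    (hS : StepStmt p) (hC : Cfg2Stmt p) (h2 : 2 < p) (hd : ¬ p ∣ Module.finrank ℚ F)
    (hcl : ¬ p ∣ classNumber F) (hdi : ¬ (p : ℤ) ∣ discr F)
    (hA : ∀ Q : Ideal OQ, Q.IsMaximal → ∀ u ∈ Q.inertia GQ, u ∈ F.fixingSubgroup → f u = 0)
    {h : GQ} (hh : h ∈ F.fixingSubgroup) : f h = 0 := by
  classical
  have hp1 : ¬ p ∣ p - 1 := Nat.not_dvd_of_pos_of_lt (by omega) (by omega)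
  have hmm : ¬ p ∣ mm p F := fun e => (hp.out.dvd_mul.1 e).elim hd hp1
  have hfrob : ∀ l ∉ (discr F).natAbs.divisors, TrivPrime p F l → ∀ P : Ideal OQ, P.IsMaximal →
      (l : OQ) ∈ P → ∀ σ, IsFrob l P σ → f σ = 0 := by
    intro l hE hl P hP hlP σ hσ
    have hld : ¬ (l : ℤ) ∣ discr F := fun e => hE (Nat.mem_divisors.2
      ⟨Int.natCast_dvd.1 e, Int.natAbs_ne_zero.2 (discr_ne_zero F)⟩)
    obtain ⟨hlp, hsp⟩ := (hT F).1 l hl
    have hσH : σ ∈ HH p F := hsp P hP hlP σ (frob_stab_EvRec hP hl.1 hσ)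
    obtain ⟨τ, α, hok⟩ := (hC F G h2).2.1 l hl.1 hlp hld P hP hlP σ (hf.le hσH.1) hσ
    have h3 := hf.rel hR hT hC h2 hd hdi (J := Unit) (c := fun _ => ⟨l, P, σ, τ, α⟩)
      (fun _ => hok) (fun _ _ _ => rfl) (fun Q hQ _ => hA Q hQ) ()
    have h4 : f τ = 0 := hA P hP τ hok.inert (((hC F G h2).2.2 _ hok).1 hok.inert).1
    simp only [h4, Tp2_zero_FvVec, Finset.sum_const_zero, mem_fix_EvVec.1 hσH.1, orderOf_one,
      one_mul] at h3
    have h5 := (smul_eq_zero.1 h3).resolve_left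
      (cast_ne_EvVec k fun e => (hp.out.dvd_mul.1 e).elim hcl hmm)
    rw [hf.pow hσH.1] at h5
    exact tors_EvVec (p := p) k hmm h5
  have hH : ∀ g ∈ HH p F, f g = 0 := by
    intro g hg
    refine sep_EvVec p k fun lam => ?_
    by_contra hne
    have h3 := hS F (ZMod p) (fun g => lam (f g))
      (fun g hg h hh => by rw [hf.add g hg.1 h hh.1, map_add])
      (by
        filter_upwards [hf.nhds] with g hg hg'
        rw [hg hg'.1, map_zero])
      (fun v => ⟨g ^ (v * (lam (f g))⁻¹).val, pow_mem hg _, by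
        rw [hf.pow hg.1, map_nsmul, nsmul_eq_mul, ZMod.natCast_zmod_val,
          inv_mul_cancel_right₀ hne]⟩)
      (fun v => if v = 0 then 0 else 1) (fun t ht v => by simp [ht]) (fun _ => 0)
      (fun _ => le_rfl) (fun _ => zero_le_one) (discr F).natAbs.divisors
      (fun l hE hl P hP hlP σ hσ => by simp [hfrob l hE hl P hP hlP σ hσ])
    have h4 : lowerMeanOn (TrivPrime p F) (fun _ => 0) = 0 := by simp [lowerMeanOn]
    rw [h4] at h3
    have h5 : (0 : ℝ) < ∑ v : ZMod p, (if v = 0 then 0 else 1 : ℝ) :=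
      Finset.sum_pos' (fun v _ => by split_ifs <;> norm_num) ⟨1, Finset.mem_univ _, by simp⟩
    exact absurd h3 (not_le.2 (div_pos h5 (by exact_mod_cast Fintype.card_pos)))
  have h3 := hH (h ^ (p - 1)) (mem_HH_EvVec.2 ⟨mem_fix_EvVec.1 (pow_mem hh _), by
    rw [map_pow]
    exact ZMod.units_pow_card_sub_one_eq_one p _⟩)
  rw [hf.pow hh] at h3
  exact tors_EvVec (p := p) k hp1 h3

/-- the elements acting on a vector through the cyclotomic character -/
noncomputable def eig_FvVec (p : ℕ) [Fact p.Prime] [Algebra (ZMod p) k]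
    (Ad : Representation k (Dl G F) V) (X : V) : Subgroup G where
  carrier := {g | Ad (rs G F g) X = algebraMap (ZMod p) k (cyc p g.1 : (ZMod p)ˣ) • X}
  one_mem' := by simp
  mul_mem' := fun {a b} ha hb => by
    have ha' : Ad (rs G F a) X = _ := ha
    have hb' : Ad (rs G F b) X = _ := hb
    change Ad (rs G F (a * b)) X = _
    rw [map_mul, map_mul, Module.End.mul_apply, hb', map_smul, ha', Subgroup.coe_mul, map_mul,
      Units.val_mul, map_mul, smul_smul, mul_comm]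
  inv_mem' := fun {a} ha => by
    have ha' : Ad (rs G F a) X = _ := ha
    change Ad (rs G F a⁻¹) X = _
    have h1 := congrArg (fun Y => algebraMap (ZMod p) k (cyc p (a⁻¹).1 : (ZMod p)ˣ) •
      Ad (rs G F a⁻¹) Y) ha'
    simp only [map_smul] at h1
    rw [← Module.End.mul_apply, ← map_mul, ← map_mul, inv_mul_cancel, map_one, map_one,
      Module.End.one_apply, smul_smul, ← map_mul, ← Units.val_mul, ← map_mul,
      ← Subgroup.coe_mul, inv_mul_cancel, Subgroup.coe_one, map_one, Units.val_one, map_one,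
      one_smul] at h1
    exact h1.symm

end main

theorem vec2_stmt (p : ℕ) [Fact p.Prime] (hK : KKStmt p) (hW : WildStmt) (hR : RecUStmt p) (hT : TrivStmt p) (hS : StepStmt p) (hC : Cfg2Stmt p) : Vec2Stmt p := by
  intro F _ _ G hG h2 hd hcl hdi k V _ _ _ _ Ad f h1 h3 h4 J _ c hc hinj hun
  have hf : Eqv_FvVec G F Ad f := ⟨hG, h1, h3, h4⟩
  have hA : ∀ Q : Ideal OQ, Q.IsMaximal → (∀ j, ∀ g ∈ G, Q ≠ g • (c j).P) →
      ∀ u ∈ Q.inertia GQ, u ∈ F.fixingSubgroup → f u = 0 := by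
    intro Q hQ hj u hu hu'
    by_cases h : (p : OQ) ∈ Q ∨ Ideal.absNorm (Q.under (𝓞 F)) ≡ 1 [MOD p]
    · exact hun Q u ⟨hQ, hu, hu'⟩ hj h
    · rw [not_or] at h
      exact hf.unram hW hQ h.1 h.2 hu hu'
  have hrec := hf.recip hR hT hC h2 hd hdi hc hinj
  have hI : ∀ j, (c j).P.inertia GQ ≤ HH p F := fun j => ((hC F G h2).2.2 _ (hc j)).1
  refine ⟨hf.rel hR hT hC h2 hd hdi hc hinj hA, fun e => ?_, ?_, fun j g hg => ?_⟩
  · rw [hrec.2 hA e e.ne_zero fun Q hQ h =>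
      absurd (Q.eq_top_of_isUnit_mem h (e.isUnit.map _)) hQ.ne_top]
    refine Finset.sum_eq_zero fun j _ => ?_
    have h5 := ((hC F G h2).2.2 _ (hc j)).2.2.2.2.1 e
    simp [Tp2, h5]
  · rintro ⟨h, hh, hne⟩
    by_contra hcon
    push Not at hcon
    refine hne (hf.zero hR hT hS hC h2 hd hcl hdi (fun Q hQ u hu hu' => ?_) hh)
    by_cases hj : ∃ j, ∃ g ∈ G, Q = g • (c j).P
    · obtain ⟨j, g, hg, rfl⟩ := hj
      have h7 := inert_conj_EvRec g⁻¹ hu
      rw [inv_smul_smul] at h7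
      have h5 := hrec.1 j _ h7
      have h6 := hf.conj ⟨g, hg⟩ _ (hI j h7).1
      rw [h5, hcon j, smul_zero, map_zero] at h6
      simpa [mul_assoc] using h6
    · exact hA Q hQ (fun j g hg h => hj ⟨j, g, hg, h⟩) u hu hu'
  · have hle : Subgroup.zpowers (c j).σ ⊔ HH p F ≤
        (eig_FvVec p Ad (f (c j).τ)).map G.subtype := by
      refine sup_le (Subgroup.zpowers_le.2 ⟨⟨_, (hc j).inG⟩, ?_, rfl⟩) fun h hh =>
        ⟨⟨h, hG hh.1⟩, ?_, rfl⟩
      · have hτ := hI j (hc j).inert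
        have h7 := inert_conj_EvRec (c j).σ (hc j).inert
        rw [frob_stab_EvRec (hc j).max (hc j).prime (hc j).frob] at h7
        have h8 := hK.2.2.2.2.1 ((c j).l : Qb) (c j).σ (c j).τ
          (Nat.cast_ne_zero.mpr (hc j).prime.ne_zero) (by simp) (mem_HH_EvVec.1 hτ).2
        rw [map_natCast, (hc j).gen, mul_one] at h8
        change Ad (rs G F ⟨_, (hc j).inG⟩) _ = _
        rw [← hf.conj _ _ hτ.1]
        exact (hrec.1 j _ h7).trans (by rw [h8])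
      · obtain ⟨e1, e2⟩ := mem_HH_EvVec.1 hh
        have e3 : rs G F ⟨h, hG hh.1⟩ = 1 := Subtype.ext e1
        change Ad (rs G F ⟨h, hG hh.1⟩) _ = algebraMap (ZMod p) k (cyc p h : (ZMod p)ˣ) • _
        rw [e3, e2]
        simp
    obtain ⟨g', hg', e⟩ := hle hg
    obtain rfl : g' = g := Subtype.ext e
    exact hg'

end Pool.Agent.MP_f68ac8_nt.Ev
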