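import Mathlib
import Pool.Agent.MP_f68ac8_nt.NlAllU

namespace Pool.Agent.MP_f68ac8_nt.GaloisOld

open Pool.Agent.MP_f68ac8_nt Filter

theorem result (p : ℕ) [Fact p.Prime] (hp : 2 < p) :
    Tendsto (fun X : ℕ => ({K ∈ CycF p X | GalFM p K.fixingSubgroup}.ncard : ℝ) /
      (CycF p X).ncard) atTop (nhds 1) :=
  Nd.gal_all p hp

end Pool.Agent.MP_f68ac8_nt.GaloisOld
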