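import Mathlib
import Pool.Agent.MP_f68ac8_nt.Crit
import Pool.Agent.MP_f68ac8_nt.Step

namespace Pool.Agent.MP_f68ac8_nt.GenericOld

open Pool.Agent.MP_f68ac8_nt

theorem result (d : ℕ) : ∃ C : ℝ, ∀ (p : ℕ) [Fact p.Prime], p ≠ 2 →
    1 - C / p ≤ setDens p d fun S => S.ncard = d ∧ TameFM p S := by
  obtain ⟨P, hP, h⟩ := exists_poly (ι := Fin d)
  exact dens_of_poly TameFM P hP fun p _ hp m h0 q hq _ =>
    criterion hp hq fun k hk => h0 (h p m _ k hk)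

end Pool.Agent.MP_f68ac8_nt.GenericOld
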