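import Mathlib
import Pool.Agent.MP_f68ac8_nt.GvAlg
import Pool.Agent.MP_f68ac8_nt.FvComb

/-! Combining the finitely many types, Hodge-Tate version. -/

namespace Pool.Agent.MP_f68ac8_nt.Ev

open Matrix Finset

theorem algW_stmt (hT : TypeWStmt) : AlgWStmt := by
  intro n d m D B
  choose C0 hC0 using fun c => hT n d m c B
  refine ⟨(∑ c ∈ range (D + 1), C0 c) * 2 ^ d, ?_⟩
  intro p _ hp k Δ A _ _ _ _ _ _ Ad μ w δ a c hc hH u
  classical
  set C1 := ∑ c ∈ range (D + 1), C0 c with hC1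
  have hpos : 0 < 2 ^ d := by positivity
  have hle : C0 c ≤ C1 :=
    Finset.single_le_sum (f := C0) (fun _ _ => Nat.zero_le _) (mem_range.2 (Nat.lt_succ_of_le hc))
  have hCp : C0 c < p := lt_of_le_of_lt (hle.trans (Nat.le_mul_of_pos_right C1 hpos)) hp
  have hC' := hC0 c p hCp k Δ A Ad μ w δ a hH u
  let bx : (Fin d → Bool) → ℕ → Bool := fun b j => if h : j < d then b ⟨j, h⟩ else false
  have hcard : Fintype.card (Fin d → Bool) = 2 ^ d := by
    rw [Fintype.card_fun, Fintype.card_bool, Fintype.card_fin]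
  choose Safe hS0 hSd hSi using fun τ : Fin d → Bool => hC' (bx τ)
  refine ⟨fun i st => ∀ τ, Safe τ i st, fun st τ => hS0 τ st, ?_, ?_⟩
  · rintro st hsafe ⟨b, X, X', Y, hR⟩
    refine hSd (fun j => b j) st (hsafe _)
      ⟨X, X', Y, ⟨hR.nil, hR.ne, hR.eig, hR.wild, hR.lin, ?_, hR.un⟩⟩
    intro j hj
    simp only [bx, dif_pos hj]
    exact hR.br j hj
  · intro i hi st hsafe
    choose Z hZ1 hZ2 hZ3 using fun τ => hSi τ i hi st (hsafe τ)
    refine ⟨⋃ τ, Z τ, ?_, ?_, ?_⟩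
    · rw [Set.iUnion_inter]
      set F := Fx μ (fun j : Fin i => δ j) (δ i) (a i)
      calc (⋃ τ, Z τ ∩ F).ncard * p ≤ (∑ τ, (Z τ ∩ F).ncard) * p :=
            Nat.mul_le_mul_right _ (Set.ncard_iUnion_le_of_fintype fun τ => Z τ ∩ F)
        _ = ∑ τ, (Z τ ∩ F).ncard * p := Finset.sum_mul _ _ _
        _ ≤ ∑ _τ : Fin d → Bool, C1 * Nat.card F :=
            Finset.sum_le_sum fun τ _ => (hZ1 τ).trans (Nat.mul_le_mul_right _ hle)
        _ = 2 ^ d * (C1 * Nat.card F) := by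
            rw [Finset.sum_const, Finset.card_univ, smul_eq_mul, hcard]
        _ = _ := by ring
    · intro t ht v hv
      obtain ⟨τ, hτ⟩ := Set.mem_iUnion.1 hv
      exact Set.mem_iUnion.2 ⟨τ, hZ2 τ t ht v hτ⟩
    · intro s' hag hF hs' τ
      exact hZ3 τ s' hag hF fun h => hs' (Set.mem_iUnion.2 ⟨τ, h⟩)

end Pool.Agent.MP_f68ac8_nt.Ev
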