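import Mathlib
import Pool.Agent.MP_f68ac8_nt.FvDefs
import Pool.Agent.MP_f68ac8_nt.DefsPH

namespace Pool.Agent.MP_f68ac8_nt

open Filter Topology NumberField Matrix Module

/-- the commutator with `X` -/
def adM {k : Type} [Field k] {n : ℕ} (X : Matrix (Fin n) (Fin n) k) :
    Matrix (Fin n) (Fin n) k →ₗ[k] Matrix (Fin n) (Fin n) k :=
  LinearMap.mulRight k X - LinearMap.mulLeft k X

variable (p : ℕ) [Fact p.Prime] {K : IntermediateField ℚ (AlgebraicClosure ℚ)}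
  (F : IntermediateField ℚ (AlgebraicClosure ℚ)) {n : ℕ}

/-- `ρ` is Hodge-Tate with weights `a i` at the place given by `ι` -/
def HTAt (ι : AlgebraicClosure ℚ →+* ℂ_[p]) (ρ : K.fixingSubgroup → GL (Fin n) ℤ_[p])
    (a : Fin n → ℤ) : Prop :=
  ∃ v : Fin n → Fin n → ℂ_[p], LinearIndependent ℂ_[p] v ∧
    ∀ (i : Fin n) (g : ℂ_[p] ≃+* ℂ_[p]) (h : K.fixingSubgroup), Continuous g →
      (∀ x, g (ι x) = ι (h.1 x)) →
      (ρ h).val.map (fun x : ℤ_[p] => algebraMap ℚ_[p] ℂ_[p] x) *ᵥ (fun k => g (v i k)) =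
        algebraMap ℚ_[p] ℂ_[p] ((cycChar p h : ℤ_[p]) : ℚ_[p]) ^ a i • v i

/-- equivariant continuous additive maps from the Galois group of `F` to trace zero matrices -/
structure Tang (r : K.fixingSubgroup →* GL (Fin n) (ZMod p))
    (f : GQ → Matrix (Fin n) (Fin n) (ZMod p)) : Prop where
  add : ∀ g ∈ F.fixingSubgroup, ∀ h ∈ F.fixingSubgroup, f (g * h) = f g + f h
  conj : ∀ g : K.fixingSubgroup, ∀ h ∈ F.fixingSubgroup,
    f (g * h * g.1⁻¹) = (r g).val * f h * (r g)⁻¹.val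
  nhds : ∀ᶠ g in 𝓝 (1 : GQ), g ∈ F.fixingSubgroup → f g = 0
  tr : ∀ g ∈ F.fixingSubgroup, (f g).trace = 0

/-- no first order deformation unramified outside `p` with inertia bounded by `w` -/
def Rigid (r : K.fixingSubgroup →* GL (Fin n) (ZMod p)) (w : (K →+* ℂ_[p]) → ℕ) : Prop :=
  ∀ f, Tang p F r f → (∀ P g, Iner F P g → (↑p ∉ P → f g = 0) ∧
    ∀ ι : AlgebraicClosure ℚ →+* ℂ_[p], (∀ x, x ∈ P ↔ ‖ι x‖ < 1) →
      finrank (ZMod p) (LinearMap.range (adM (f g))) ≤ w (ι.comp (algebraMap K _))) →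
    ∀ g ∈ F.fixingSubgroup, f g = 0

/-- the numerical condition -/
def Slack [NumberField K] (r : K.fixingSubgroup →* GL (Fin n) (ZMod p))
    (t : ℕ → K.fixingSubgroup) (c : ℕ) : Prop :=
  ∃ φ : InfinitePlace K → (AlgebraicClosure ℚ →+* ℂ),
    (∀ v, InfinitePlace.mk ((φ v).comp (algebraMap K (AlgebraicClosure ℚ))) = v) ∧
    ∀ j X, IsNilpotent X →
      (r (t j)).val * X = PadicInt.toZMod (cycChar p (t j) : ℤ_[p]) • X * (r (t j)).val →
      finrank (ZMod p) ((LinearMap.ker (adM (r (t j)).val)).map (adM X)) + c <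
        ∑ v, finrank (ZMod p) ↥(LinearMap.ker (traceLinearMap _ _ _) ⊓ ConjFix r (φ v))

/-- every Hodge-Tate lift of `r` with the local conditions is scalar on the Galois group of `F` -/
def LiftW [NumberField F] (B : ℕ) (r : K.fixingSubgroup → GL (Fin n) (ZMod p))
    (w : (K →+* ℂ_[p]) → ℕ) (S : Set (Ideal (𝓞 K))) : Prop :=
  ∀ ρ : K.fixingSubgroup →ₜ* GL (Fin n) ℤ_[p],
    (∀ g, (ρ g).val.map PadicInt.toZMod = (r g).val) →
    (∀ P (g : K.fixingSubgroup), Iner F P g → P.under (𝓞 K) ∉ S →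
      Ideal.absNorm (P.under (𝓞 F)) ≡ 1 [MOD p] → IsScal (ρ g)) →
    (∀ ι, ∃ a, HTAt p ι ρ a ∧ (∀ i j, |a i - a j| ≤ B) ∧
      {x : Fin n × Fin n | a x.1 ≠ a x.2}.ncard ≤ w (ι.comp (algebraMap K _))) →
    ScalOn F ρ

end Pool.Agent.MP_f68ac8_nt
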