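import Mathlib
import Pool.Agent.MP_f68ac8_nt.GvAlg
import Pool.Agent.MP_f68ac8_nt.FvGen

/-! The generic system for Hodge-Tate lifts has no solution. -/

namespace Pool.Agent.MP_f68ac8_nt.Ev

open Module Finset Matrix

lemma abs_GvGen {k : Type} [Field k] {n d m c : ℕ} {σ τ : Type}
    (π A Q : ℕ → Mt n k →ₗ[k] Mt n k) (b : σ → Mt n k →ₗ[k] Mt n k)
    (u : τ → Mt n k →ₗ[k] (Fin (c + 1) → k)) (X : ℕ → Mt n k)
    (Φ : ℕ → (Fin (d + m) → Mt n k) →ₗ[k] Mt n k)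
    (Ψ : (Fin (d + m) → Mt n k) →ₗ[k] (Fin (c + 1) → k)) (q : Fin c → Fin (d + m) → Mt n k)
    (hT : ∀ j : Fin (d + m), ∀ N, π j (ad_EvGen (X j) N) = ad_EvGen (X j) N →
      Pi.single j (ad_EvGen (X j) N) ∈ (((tl_EvGen b X d (j + 1)).map (A j)).map (Q j)).map
        (LinearMap.single k (fun _ => Mt n k) j) ⊔ Submodule.span k (Set.range q))
    (rk : tl_EvGen u X d 0 = ⊤)
    (der1 : ∀ i < d, ∀ j < i, ∀ s, ∃ ξ : Fin (d + m) → Mt n k,
      (∀ l : Fin (d + m), π l (ξ l) = ξ l ∧ ∃ N, ξ l = N * X l - X l * N) ∧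
      Φ j ξ = A j (b s (X i)) ∧ (∀ j' < i, j' ≠ j → Φ j' ξ = 0) ∧ Ψ ξ = 0)
    (der2 : ∀ i < d, ∀ s, ∃ ξ : Fin (d + m) → Mt n k,
      (∀ l : Fin (d + m), π l (ξ l) = ξ l ∧ ∃ N, ξ l = N * X l - X l * N) ∧
      (∀ j < i, Φ j ξ = 0) ∧ Ψ ξ = u s (X i)) : False := by
  let W := tl_EvGen b X d
  let P := tl_EvGen u X d
  let T : ℕ → Submodule k (Mt n k) := fun j =>
    LinearMap.eqLocus (π j) LinearMap.id ⊓ LinearMap.range (ad_EvGen (X j))
  let TT : Submodule k (Fin (d + m) → Mt n k) := Submodule.pi Set.univ fun l : Fin (d + m) => T l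
  have hTT : ∀ ξ : Fin (d + m) → Mt n k,
      (∀ l : Fin (d + m), π l (ξ l) = ξ l ∧ ∃ N, ξ l = N * X l - X l * N) → ξ ∈ TT := by
    intro ξ h l _
    obtain ⟨h1, N, h2⟩ := h l
    exact ⟨h1, N, h2.symm⟩
  have hWd : ∀ j, d ≤ j → W j = ⊥ := fun j hj => tl_bot_EvGen b X d j fun i h1 h2 => by omega
  have hPd : P d = ⊥ := tl_bot_EvGen u X d d fun i h1 h2 => by omega
  have c1 := count_EvGen d TT Φ Ψ (fun j i => (W i).map (A j)) P
    (fun j i => Submodule.map_mono (tl_succ_EvGen b X d i)) (tl_succ_EvGen u X d)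
    (fun i hi j hj v hv => by
      have h : W i ≤ ((TT ⊓ (⨅ j' : {j' : ℕ // j' < i ∧ j' ≠ j}, LinearMap.ker (Φ j')) ⊓
          LinearMap.ker Ψ).map (Φ j)).comap (A j) := by
        refine tl_le_EvGen b X d fun i' s h1 h2 => ?_
        obtain ⟨ξ, a1, a2, a3, a4⟩ := der1 i' h2 j (by omega) s
        refine ⟨ξ, ⟨⟨hTT ξ a1, ?_⟩, a4⟩, a2⟩
        exact (Submodule.mem_iInf _).mpr fun j' => a3 j' (by have := j'.2.1; omega) j'.2.2
      obtain ⟨ξ, ⟨⟨a1, a2⟩, a3⟩, a4⟩ := Submodule.map_le_iff_le_comap.mpr h hv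
      exact ⟨ξ, a1, a4, fun j' b1 b2 => (Submodule.mem_iInf _).mp a2 ⟨j', b1, b2⟩, a3⟩)
    (fun i hi v hv => by
      have h : P i ≤ (TT ⊓ ⨅ j' : Fin i, LinearMap.ker (Φ j')).map Ψ := by
        refine tl_le_EvGen u X d fun i' s h1 h2 => ?_
        obtain ⟨ξ, a1, a2, a3⟩ := der2 i' h2 s
        refine ⟨ξ, ⟨hTT ξ a1, ?_⟩, a3⟩
        exact (Submodule.mem_iInf _).mpr fun j' => a2 j' (by have := j'.2; omega)
      obtain ⟨ξ, ⟨a1, a2⟩, a3⟩ := h hv
      exact ⟨ξ, a1, fun j' b1 => (Submodule.mem_iInf _).mp a2 ⟨j', b1⟩, a3⟩)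
    (fun j => by rw [hWd d le_rfl, Submodule.map_bot]) hPd
  have c2 : finrank k (P 0) = c + 1 := by
    rw [show P 0 = ⊤ from rk, finrank_top, Module.finrank_fin_fun]
  let H : ℕ → Submodule k (Mt n k) := fun j => ((W (j + 1)).map (A j)).map (Q j)
  let HH : Submodule k (Fin (d + m) → Mt n k) := Submodule.pi Set.univ fun l : Fin (d + m) => H l
  have c3 : TT ≤ HH ⊔ Submodule.span k (Set.range q) := by
    intro ξ hξ
    rw [← Finset.univ_sum_single ξ]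
    refine Submodule.sum_mem _ fun l _ => ?_
    obtain ⟨h1, N, h2⟩ := hξ l (Set.mem_univ l)
    have h3 := hT l N (by rw [h2]; exact h1)
    rw [h2] at h3
    refine (sup_le_sup_right ?_ _ : _ ⊔ Submodule.span k (Set.range q) ≤ HH ⊔ _) h3
    rintro _ ⟨Z, hZ, rfl⟩ i _
    by_cases hi : i = l
    · subst hi
      rw [LinearMap.coe_single, Pi.single_eq_same]
      exact hZ
    · simp [Pi.single_eq_of_ne hi]
  have c4 := (Submodule.finrank_mono c3).trans (Submodule.finrank_add_le_finrank_add_finrank _ _)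
  have c5 : finrank k (Submodule.span k (Set.range q)) ≤ c :=
    (finrank_range_le_card (R := k) q).trans_eq (Fintype.card_fin c)
  rw [rk_pi_EvGen fun l : Fin (d + m) => H l, ← Finset.sum_range fun j => finrank k (H j), Finset.sum_range_add,
    Finset.sum_eq_zero (s := range m) (fun j _ => by
      have e : H (d + j) = ⊥ := by
        rw [show H (d + j) = ((W (d + j + 1)).map (A (d + j))).map (Q (d + j)) from rfl,
          hWd (d + j + 1) (by omega), Submodule.map_bot, Submodule.map_bot]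
      rw [e, finrank_bot])] at c4
  have c6 : ∑ j ∈ range d, finrank k (H j) ≤ ∑ j ∈ range d, finrank k ((W (j + 1)).map (A j)) :=
    Finset.sum_le_sum fun j _ => Submodule.finrank_map_le _ _
  omega

variable {n m₁ m₂ : ℕ} {Ω : Type} [Field Ω]

/-- a named operator as a linear map -/
def opL_GvGen (y : Bw n → Ω) (κ : ℕ × ℕ × ℕ) : Mt n Ω →ₗ[Ω] Mt n Ω :=
  apL_EvGen fun a c => y (κ, some a, some c)

lemma opL_apply_GvGen (y : Bw n → Ω) (κ : ℕ × ℕ × ℕ) (A : Mt n Ω) :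
    opL_GvGen y κ A = opw y κ A := rfl

/-- a named functional as a linear map -/
def fnL_GvGen (y : Bw n → Ω) (κ : ℕ × ℕ × ℕ) : Mt n Ω →ₗ[Ω] Ω where
  toFun := fnw y κ
  map_add' A B := by simp [fnw, mul_add, Finset.sum_add_distrib]
  map_smul' r A := by simp [fnw, Finset.mul_sum, mul_left_comm]

lemma fnL_apply_GvGen (y : Bw n → Ω) (κ : ℕ × ℕ × ℕ) (A : Mt n Ω) :
    fnL_GvGen y κ A = fnw y κ A := rfl

lemma dm_op_GvGen (D : Derivation ℤ Ω Ω) (y : Bw n → Ω) (h : ∀ b, D (y b) = 0)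
    (κ : ℕ × ℕ × ℕ) (A : Mt n Ω) : dm_EvGen D (opw y κ A) = opw y κ (dm_EvGen D A) := by
  ext a b
  simp only [dm_apply_EvGen, opw, ap, Matrix.of_apply, map_sum, Derivation.leibniz, h,
    smul_eq_mul, mul_zero, add_zero]

lemma dm_fn_GvGen (D : Derivation ℤ Ω Ω) (y : Bw n → Ω) (h : ∀ b, D (y b) = 0)
    (κ : ℕ × ℕ × ℕ) (A : Mt n Ω) : D (fnw y κ A) = fnw y κ (dm_EvGen D A) := by
  simp only [dm_apply_EvGen, fnw, map_sum, Derivation.leibniz, h, smul_eq_mul, mul_zero, add_zero]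

/-- an entry of the system as a linear map -/
def colL_GvGen (d : ℕ) (x : ∀ i, Rn m₁ m₂ i → Ω) (y : ℕ → Bw n → Ω) (j i : ℕ) :
    Mt n Ω →ₗ[Ω] Mt n Ω :=
  if h : j < i ∧ i < d then opL_GvGen (y 0) (1, j, 0) ∘ₗ
    ∑ s : Fin m₁, x i (.inl (⟨j, h.1⟩, s)) • opL_GvGen (y 0) (2, s, 0)
  else opL_GvGen (y (j + 1)) (3, i, 0)

lemma colL_apply_GvGen (d : ℕ) (x : ∀ i, Rn m₁ m₂ i → Ω) (y : ℕ → Bw n → Ω) (j i : ℕ)
    (X : Mt n Ω) : colL_GvGen d x y j i X = colW d x y j i X := by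
  unfold colL_GvGen colW
  split_ifs
  · rw [LinearMap.comp_apply, LinearMap.sum_apply]
    rfl
  · rfl

/-- the linearized bracket relation -/
def phi_GvGen (d m : ℕ) (x : ∀ i, Rn m₁ m₂ i → Ω) (y : ℕ → Bw n → Ω) (X : ℕ → Mt n Ω)
    (j : ℕ) : (Fin (d + m) → Mt n Ω) →ₗ[Ω] Mt n Ω :=
  if h : j < d + m then
    -(ad_EvGen (X j) ∘ₗ (∑ i : Fin (d + m), colL_GvGen d x y j i ∘ₗ LinearMap.proj i) -
      ad_EvGen (∑ i ∈ range (d + m), colW d x y j i (X i)) ∘ₗ LinearMap.proj ⟨j, h⟩ -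
      y (j + 1) (0, none, none) • LinearMap.proj ⟨j, h⟩)
  else 0

/-- the commutator after averaging -/
def aa_GvGen (y : Bw n → Ω) (X : ℕ → Mt n Ω) (j : ℕ) : Mt n Ω →ₗ[Ω] Mt n Ω :=
  ad_EvGen (X j) ∘ₗ opL_GvGen y (1, j, 0)

/-- the functionals of the unit relations -/
def uu_GvGen (c : ℕ) (y : Bw n → Ω) (s : Fin m₂) : Mt n Ω →ₗ[Ω] (Fin (c + 1) → Ω) :=
  LinearMap.pi fun e => fnL_GvGen y (0, s, e)

/-- one term of a unit relation -/
def un_GvGen (d : ℕ) (x : ∀ i, Rn m₁ m₂ i → Ω) (y : ℕ → Bw n → Ω) (e i : ℕ) : Mt n Ω →ₗ[Ω] Ω :=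
  if i < d then ∑ s : Fin m₂, x i (.inr s) • fnL_GvGen (y 0) (0, s, e)
  else fnL_GvGen (y 0) (1, i, e)

lemma un_sum_GvGen (d m : ℕ) (x : ∀ i, Rn m₁ m₂ i → Ω) (y : ℕ → Bw n → Ω) (e : ℕ)
    (ξ : ℕ → Mt n Ω) : ∑ i : Fin (d + m), un_GvGen d x y e i (ξ i) =
      ∑ i ∈ range d, ∑ s : Fin m₂, x i (.inr s) * fnw (y 0) (0, s, e) (ξ i) +
        ∑ i ∈ Ico d (d + m), fnw (y 0) (1, i, e) (ξ i) := by
  rw [← Finset.sum_range fun i => un_GvGen d x y e i (ξ i),
    ← Finset.sum_range_add_sum_Ico _ (Nat.le_add_right d m)]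
  congr 1
  · refine Finset.sum_congr rfl fun i hi => ?_
    rw [un_GvGen, if_pos (Finset.mem_range.mp hi), LinearMap.sum_apply]
    rfl
  · refine Finset.sum_congr rfl fun i hi => ?_
    rw [un_GvGen, if_neg (Finset.mem_Ico.mp hi).1.not_gt]
    rfl

/-- the linearized unit relations -/
def psi_GvGen (d m c : ℕ) (x : ∀ i, Rn m₁ m₂ i → Ω) (y : ℕ → Bw n → Ω) :
    (Fin (d + m) → Mt n Ω) →ₗ[Ω] (Fin (c + 1) → Ω) :=
  LinearMap.pi fun e => -∑ i : Fin (d + m), un_GvGen d x y e i ∘ₗ LinearMap.proj i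

section
variable {d m c B : ℕ} {x : ∀ i, Rn m₁ m₂ i → Ω} {y : ℕ → Bw n → Ω} {w : Wit n m₁ m₂ Ω}

lemma diff_GvGen [CharZero Ω] (ho : OrbStmt) (h : SolX d m c B x y w) (hD : HasDer d x y) {i : ℕ}
    (hi : i < d) (δ : Rn m₁ m₂ i → Ω) : ∃ ξ : Fin (d + m) → Mt n Ω,
      (∀ l : Fin (d + m), opL_GvGen (y 0) (0, l, 0) (ξ l) = ξ l ∧
        ∃ N, ξ l = N * w.X l - w.X l * N) ∧
      (∀ j (hj : j < i), phi_GvGen d m x y w.X j ξ = aa_GvGen (y 0) w.X j
        (∑ s : Fin m₁, δ (.inl (⟨j, hj⟩, s)) • opL_GvGen (y 0) (2, s, 0) (w.X i))) ∧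
      psi_GvGen d m c x y ξ = ∑ s, δ (.inr s) • uu_GvGen c (y 0) s (w.X i) := by
  obtain ⟨D, d1, d2, d3⟩ := hD i hi δ
  have d0 := d1 0 (Nat.zero_le i)
  refine ⟨fun l => dm_EvGen D (w.X l), fun l => ⟨?_, ?_⟩, fun j hj => ?_, ?_⟩
  · change opw (y 0) (0, l, 0) (dm_EvGen D (w.X l)) = dm_EvGen D (w.X l)
    rw [← dm_op_GvGen D _ d0, h.self l l.2]
  · rcases lt_or_ge (l : ℕ) d with hl | hl
    · exact der_nil D ⟨n, h.nil l hl⟩
    · have hl' : (l : ℕ) ∈ Ico d (d + m) := Finset.mem_Ico.mpr ⟨hl, l.2⟩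
      exact ho n B Ω D (w.X l) (h.tr l hl') fun e => ⟨w.V l e, h.dec l hl' e, h.eig l hl' e⟩
  · have hjd : j < d := by omega
    have e1 : dm_EvGen D (∑ l ∈ range (d + m), colW d x y j l (w.X l)) =
        ∑ l : Fin (d + m), colW d x y j l (dm_EvGen D (w.X l)) + opw (y 0) (1, j, 0)
          (∑ s : Fin m₁, δ (.inl (⟨j, hj⟩, s)) • opw (y 0) (2, s, 0) (w.X i)) := by
      have e2 : ∀ l ∈ range (d + m), dm_EvGen D (colW d x y j l (w.X l)) =
          colW d x y j l (dm_EvGen D (w.X l)) + if l = i then opw (y 0) (1, j, 0)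
            (∑ s : Fin m₁, δ (.inl (⟨j, hj⟩, s)) • opw (y 0) (2, s, 0) (w.X i)) else 0 := by
        intro l _
        unfold colW
        by_cases h1 : j < l ∧ l < d
        · rw [dif_pos h1, dif_pos h1, dm_op_GvGen D _ d0, map_sum]
          simp only [dm_smul_EvGen, dm_op_GvGen D _ d0, Finset.sum_add_distrib]
          rw [← opL_apply_GvGen (y 0) (1, j, 0), map_add, add_comm]
          congr 1
          split_ifs with h2
          · subst h2
            simp only [d2]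
            rfl
          · simp only [d3 l h1.2 h2, zero_smul, Finset.sum_const_zero, map_zero]
        · rw [dif_neg h1, dif_neg h1, if_neg (by omega), add_zero,
            dm_op_GvGen D _ (d1 (j + 1) hj)]
      rw [map_sum, Finset.sum_congr rfl e2, Finset.sum_add_distrib, Finset.sum_ite_eq',
        if_pos (Finset.mem_range.mpr (by omega)), Finset.sum_range]
    have e3 := congrArg (dm_EvGen D) (h.br j hjd)
    rw [brk, map_sub, dm_mul_EvGen, dm_mul_EvGen, dm_smul_EvGen, d1 (j + 1) hj, zero_smul,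
      zero_add, e1] at e3
    rw [phi_GvGen, dif_pos (by omega : j < d + m)]
    simp only [LinearMap.neg_apply, LinearMap.sub_apply, LinearMap.comp_apply,
      LinearMap.sum_apply, LinearMap.smul_apply, LinearMap.proj_apply, colL_apply_GvGen,
      ad_apply_EvGen]
    rw [← e3]
    change _ = opw (y 0) (1, j, 0)
        (∑ s : Fin m₁, δ (.inl (⟨j, hj⟩, s)) • opw (y 0) (2, s, 0) (w.X i)) * w.X j -
      w.X j * opw (y 0) (1, j, 0)
        (∑ s : Fin m₁, δ (.inl (⟨j, hj⟩, s)) • opw (y 0) (2, s, 0) (w.X i))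
    noncomm_ring
  · funext e
    have e2 : ∀ l ∈ range d,
        D (∑ s : Fin m₂, x l (.inr s) * fnw (y 0) (0, s, e) (w.X l)) =
          ∑ s : Fin m₂, x l (.inr s) * fnw (y 0) (0, s, e) (dm_EvGen D (w.X l)) +
          if l = i then ∑ s : Fin m₂, δ (.inr s) * fnw (y 0) (0, s, e) (w.X i) else 0 := by
      intro l hl
      rw [map_sum]
      simp only [Derivation.leibniz, dm_fn_GvGen D _ d0, Finset.sum_add_distrib, smul_eq_mul]
      congr 1
      split_ifs with h2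
      · subst h2
        simp only [d2, mul_comm]
      · simp only [d3 l (Finset.mem_range.mp hl) h2, mul_zero, Finset.sum_const_zero]
    have e3 := congrArg D (h.un e (Nat.lt_succ_iff.mp e.2))
    rw [map_add, map_sum, Finset.sum_congr rfl e2, Finset.sum_add_distrib, Finset.sum_ite_eq',
      if_pos (Finset.mem_range.mpr hi), map_zero, map_sum] at e3
    simp only [dm_fn_GvGen D _ d0] at e3
    simp only [psi_GvGen, LinearMap.pi_apply, LinearMap.neg_apply, LinearMap.comp_apply,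
      LinearMap.sum_apply, LinearMap.proj_apply, Finset.sum_apply, Pi.smul_apply, uu_GvGen,
      fnL_apply_GvGen, smul_eq_mul]
    rw [un_sum_GvGen d m x y e fun l => dm_EvGen D (w.X l)]
    linear_combination -e3

lemma cert_GvGen (h : SolX d m c B x y w) (j : Fin (d + m)) (N : Mt n Ω)
    (hN : opL_GvGen (y 0) (0, j, 0) (ad_EvGen (w.X j) N) = ad_EvGen (w.X j) N) :
    Pi.single j (ad_EvGen (w.X j) N) ∈ (((tl_EvGen (fun s : Fin m₁ => opL_GvGen (y 0) (2, s, 0))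
      w.X d (j + 1)).map (aa_GvGen (y 0) w.X j)).map (apL_EvGen (w.Q j 1))).map
        (LinearMap.single Ω (fun _ => Mt n Ω) j) ⊔
      Submodule.span Ω (Set.range fun (a : Fin c) (i : Fin (d + m)) => w.q a i) := by
  have h1 : apL_EvGen (w.Q j 0) (ad_EvGen (w.X j) N) = 0 :=
    mem_single_EvGen (apL_EvGen (w.Q j 0) ∘ₗ ad_EvGen (w.X j)) ⊥ (fun e => h.ann j j.2 e) N
  have h2 := mem_single_EvGen (LinearMap.single Ω (fun _ : Fin (d + m) => Mt n Ω) j ∘ₗ
      (LinearMap.id - apL_EvGen (w.Q j 2) ∘ₗ (LinearMap.id - opL_GvGen (y 0) (0, j, 0)) -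
        apL_EvGen (w.Q j 3) ∘ₗ apL_EvGen (w.Q j 0)))
    ((((tl_EvGen (fun s : Fin m₁ => opL_GvGen (y 0) (2, s, 0))
      w.X d (j + 1)).map (aa_GvGen (y 0) w.X j)).map (apL_EvGen (w.Q j 1))).map
        (LinearMap.single Ω (fun _ => Mt n Ω) j) ⊔
      Submodule.span Ω (Set.range fun (a : Fin c) (i : Fin (d + m)) => w.q a i)) (fun e => by
      refine Submodule.mem_sup.mpr ⟨_, ⟨_, ⟨_, ⟨∑ l ∈ Ico (j + 1 : ℕ) d, ∑ s : Fin m₁,
        w.c j e l s • opw (y 0) (2, s, 0) (w.X l), ?_, rfl⟩, rfl⟩, rfl⟩,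
        ∑ a : Fin c, w.ρ j e a • fun i : Fin (d + m) => w.q a i, ?_, ?_⟩
      · refine Submodule.sum_mem _ fun i hi => Submodule.sum_mem _ fun s _ =>
          Submodule.smul_mem _ _ ?_
        exact tl_mem_EvGen (fun s : Fin m₁ => opL_GvGen (y 0) (2, s, 0)) w.X d
          (Finset.mem_Ico.mp hi).1 (Finset.mem_Ico.mp hi).2 s
      · exact Submodule.sum_mem _ fun a _ =>
          Submodule.smul_mem _ _ (Submodule.subset_span ⟨a, rfl⟩)
      · funext i
        have h3 := h.cert j j.2 e i i.2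
        rw [Finset.sum_range] at h3
        simp only [Pi.add_apply, Finset.sum_apply, Pi.smul_apply, LinearMap.comp_apply,
          LinearMap.coe_single, h3]
        by_cases hi : i = j
        · subst hi
          rw [if_pos rfl, Pi.single_eq_same, Pi.single_eq_same]
          exact (fun a b c d => by abel :
            ∀ a b c d : Mt n Ω, b + (a - b - c - d) = a - c - d) _ _ _ _
        · rw [if_neg fun e => hi (Fin.ext e), Pi.single_eq_of_ne hi, Pi.single_eq_of_ne hi,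
            add_zero]) (ad_EvGen (w.X j) N)
  simpa only [LinearMap.sub_apply, LinearMap.comp_apply, LinearMap.id_apply, hN, h1, sub_self,
    map_zero, sub_zero, LinearMap.coe_single] using h2

lemma rk_GvGen (h : SolX d m c B x y w) :
    tl_EvGen (uu_GvGen (m₂ := m₂) c (y 0)) w.X d 0 = ⊤ := by
  rw [eq_top_iff]
  intro v _
  rw [pi_eq_sum_univ' v]
  refine Submodule.sum_mem _ fun e _ => Submodule.smul_mem _ _ ?_
  have h1 : ∑ i ∈ range d, ∑ s : Fin m₂, w.γ e i s • uu_GvGen c (y 0) s (w.X i) ∈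
      tl_EvGen (uu_GvGen (m₂ := m₂) c (y 0)) w.X d 0 :=
    Submodule.sum_mem _ fun i hi => Submodule.sum_mem _ fun s _ =>
      Submodule.smul_mem _ _ (tl_mem_EvGen _ w.X d (Nat.zero_le i) (Finset.mem_range.mp hi) s)
  convert h1 using 1
  funext e'
  have h2 := h.rk e (Nat.lt_succ_iff.mp e.2) e' (Nat.lt_succ_iff.mp e'.2)
  simp only [Finset.sum_apply, Pi.smul_apply, uu_GvGen, LinearMap.pi_apply, fnL_apply_GvGen,
    smul_eq_mul, h2, Fin.val_inj, Pi.single_apply, eq_comm]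

end

theorem genW_stmt (h : OrbStmt) : GenWStmt := by
  intro n m₁ m₂ d m c B Ω _ _ x y hD ⟨w, hw⟩
  refine abs_GvGen (fun j => opL_GvGen (y 0) (0, j, 0)) (aa_GvGen (y 0) w.X)
    (fun j => apL_EvGen (w.Q j 1)) (fun s : Fin m₁ => opL_GvGen (y 0) (2, s, 0))
    (uu_GvGen c (y 0)) w.X (phi_GvGen d m x y w.X) (psi_GvGen d m c x y) _ (cert_GvGen hw)
    (rk_GvGen hw) (fun i hi j hj s => ?_) fun i hi s => ?_
  · obtain ⟨ξ, a1, a2, a3⟩ := diff_GvGen h hw hD hi (Pi.single (.inl (⟨j, hj⟩, s)) 1)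
    refine ⟨ξ, a1, ?_, fun j' b1 b2 => ?_, ?_⟩
    · rw [a2 j hj]
      simp [Pi.single_apply]
    · rw [a2 j' b1]
      simp [b2]
    · rw [a3]
      simp
  · obtain ⟨ξ, a1, a2, a3⟩ := diff_GvGen h hw hD hi (Pi.single (.inr s) 1)
    refine ⟨ξ, a1, fun j hj => ?_, ?_⟩
    · rw [a2 j hj]
      simp
    · rw [a3]
      simp [Pi.single_apply]

end Pool.Agent.MP_f68ac8_nt.Ev
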