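import Mathlib
import Pool.Agent.MP_f68ac8_nt.HTn

/-! The Sen operator modulo `p` on a lattice in the adjoint representation. -/

namespace Pool.Agent.MP_f68ac8_nt

open Matrix Polynomial PadicInt NumberField

lemma ea_sub_HTadj {p : ℕ} [hp : Fact p.Prime] {Ω : Type} [Field Ω] [CharZero Ω] (a b : ℤ)
    (g : Ω ≃ₐ[ℚ] Ω) : ea p b g * ea p (a - b) g = ea p a g ∧ ea p b g ≠ 0 := by
  let φ : ℤ_[p]ˣ →* ℚ_[p] := (algebraMap ℤ_[p] ℚ_[p]).toMonoidHom.comp ((Units.coeHom _).comp eps)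
  refine ⟨?_, ((Group.isUnit g).map (ea p b)).ne_zero⟩
  change φ (chi p g ^ b) * φ (chi p g ^ (a - b)) = φ (chi p g ^ a)
  rw [← map_mul, ← _root_.zpow_add, add_sub_cancel]

lemma ht'_HTadj {p : ℕ} [hp : Fact p.Prime] {Ω : Type} [Field Ω] [CharZero Ω]
    [IsAlgClosure ℚ Ω] {ι : Ω →+* ℂ_[p]} {n : Type} [Fintype n] {R : Matrix n n ℂ_[p]} {a : ℤ}
    {v : n → ℂ_[p]} {l : ℂ_[p]} {g : GC p}
    (hl' : g • l = algebraMap ℚ_[p] ℂ_[p] (om (chi p (resC ι g)) : ℤ_[p]) * l)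
    (h : R *ᵥ (fun i => g • v i) = algebraMap ℚ_[p] ℂ_[p] (chi p (resC ι g) : ℤ_[p]) ^ a • v) :
    R *ᵥ (fun i => g • (l ^ (-a) • v) i) =
      algebraMap ℚ_[p] ℂ_[p] (ea p a (resC ι g)) • l ^ (-a) • v := by
  let φ : ℤ_[p]ˣ →* ℂ_[p]ˣ :=
    Units.map ((algebraMap ℚ_[p] ℂ_[p]).comp (algebraMap ℤ_[p] ℚ_[p])).toMonoidHom
  have e1 : (fun i => g • (l ^ (-a) • v) i) = (g • l) ^ (-a) • fun i => g • v i := by
    ext i
    rw [Pi.smul_apply, Pi.smul_apply, smul_eq_mul, smul_eq_mul, smul_mul']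
    exact congrArg (· * _) (map_zpow₀ (MulSemiringAction.toRingHom (GC p) ℂ_[p] g) l _)
  rw [e1, mulVec_smul, h, hl', smul_smul, smul_smul, mul_zpow]
  congr 1
  change (φ (om _) : ℂ_[p]) ^ (-a) * _ * (φ _ : ℂ_[p]) ^ a = (φ (eps (chi p _ ^ a)) : ℂ_[p]) * _
  rw [mul_right_comm, ← Units.val_zpow_eq_zpow_val, ← Units.val_zpow_eq_zpow_val, ← Units.val_mul]
  congr 2
  rw [_root_.zpow_neg, inv_mul_eq_iff_eq_mul, map_zpow, map_zpow, ← mul_zpow, ← map_mul, mul_comm,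
    eps_mul_om]

lemma span_HTadj {F L : Type} [Field F] [Field L] [Algebra F L] {n κ : Type} [Fintype n]
    [DecidableEq n] [Fintype κ] [DecidableEq κ] {b : κ → Matrix n n F} (hb : LinearIndependent F b)
    {B B' : Matrix n n L} (h1 : B * B' = 1) :
    Submodule.span L (Set.range fun (j : n × n) (l : κ) =>
      (B' * (b l).map (algebraMap F L) * B) j.2 j.1) = ⊤ := by
  by_contra h
  obtain ⟨f, f0, hf⟩ := Submodule.exists_le_ker_of_lt_top _ (lt_top_iff_ne_top.2 h)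
  obtain ⟨c, hc⟩ : ∃ c : κ → L, ∀ x, f x = ∑ l, x l * c l :=
    ⟨_, fun x => LinearMap.pi_apply_eq_sum_univ f x⟩
  have h2 : B' * (∑ l, c l • (b l).map (algebraMap F L)) * B = 0 := by
    ext j i
    have := hf (Submodule.subset_span ⟨(i, j), rfl⟩)
    rw [LinearMap.mem_ker, hc] at this
    rw [Matrix.mul_sum, Matrix.sum_mul, Matrix.sum_apply, Matrix.zero_apply, ← this]
    exact Finset.sum_congr rfl fun l _ => by
      rw [Matrix.mul_smul, Matrix.smul_mul, Matrix.smul_apply, smul_eq_mul, mul_comm]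
  have h3 : ∑ l, c l • (b l).map (algebraMap F L) = 0 := by
    have := congrArg (fun M => B * M * B') h2
    simpa only [← Matrix.mul_assoc, h1, Matrix.one_mul, Matrix.mul_assoc _ B B', Matrix.mul_one,
      Matrix.mul_zero, Matrix.zero_mul] using this
  have h4 : ∀ l, c l = 0 := fun l => (Module.forall_dual_apply_eq_zero_iff F _).1 fun ψ =>
    Fintype.linearIndependent_iff.1 hb (fun l => ψ (c l)) (by
      ext i j
      have := congrArg ψ (congrFun (congrFun h3 i) j)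
      rw [Matrix.sum_apply, map_sum, Matrix.zero_apply, map_zero] at this
      rw [Matrix.sum_apply, Matrix.zero_apply, ← this]
      exact Finset.sum_congr rfl fun l _ => by
        rw [Matrix.smul_apply, Matrix.smul_apply, map_apply, smul_eq_mul, smul_eq_mul, mul_comm (c l),
          ← Algebra.smul_def, map_smul, smul_eq_mul, mul_comm]) l
  exact f0 (LinearMap.ext fun x => by simp [hc, h4])

lemma conj_HTadj {L : Type} [Field L] {n κ : Type} [Fintype n] [DecidableEq n] [Fintype κ]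
    {B B' R E : Matrix n n L} (h1 : B * B' = 1) (h2 : B' * B = 1) (γ : L →+* L)
    {b : κ → Matrix n n L} {l : κ} (hb : (b l).map γ = b l) (hR : R * B.map γ = B * E)
    {c : κ → L} (hc : R * b l = (∑ k, c k • b k) * R) :
    E * (B' * b l * B).map γ = (∑ k, c k • (B' * b k * B)) * E := by
  have e1 : B.map γ * (B' * b l * B).map γ = b l * B.map γ := by
    rw [← Matrix.map_mul, ← Matrix.mul_assoc, ← Matrix.mul_assoc, h1, Matrix.one_mul,
      Matrix.map_mul, hb]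
  have e2 : ∑ k, c k • (B' * b k * B) = B' * (∑ k, c k • b k) * B := by
    rw [Matrix.mul_sum, Matrix.sum_mul]
    exact Finset.sum_congr rfl fun k _ => by rw [Matrix.mul_smul, Matrix.smul_mul]
  rw [e2, Matrix.mul_assoc _ B E, ← hR, ← Matrix.mul_assoc, Matrix.mul_assoc B' _ R, ← hc,
    Matrix.mul_assoc B' (R * b l), Matrix.mul_assoc R, ← e1, ← Matrix.mul_assoc R, hR, ← Matrix.mul_assoc,
    ← Matrix.mul_assoc, h2, Matrix.one_mul]

theorem ht_adj {p : ℕ} [hp : Fact p.Prime] (h5 : 5 ≤ p) {Ω : Type} [Field Ω] [CharZero Ω]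
    [IsAlgClosure ℚ Ω] (ι : Ω →+* ℂ_[p]) {n : Type} [Fintype n] [DecidableEq n]
    (ρ : (Ω ≃ₐ[ℚ] Ω) →* Matrix n n ℚ_[p]) {K : ℕ} (hK : 2 * K < p) (a : n → ℤ)
    (ha : ∀ i j, |a i - a j| ≤ K) (v : n → n → ℂ_[p]) (hv : LinearIndependent ℂ_[p] v)
    (h : ∀ i (g : GC p), (ρ (resC ι g)).map (algebraMap ℚ_[p] ℂ_[p]) *ᵥ (fun k => g • v i k) =
      algebraMap ℚ_[p] ℂ_[p] (chi p (resC ι g) : ℤ_[p]) ^ a i • v i)
    {κ : Type} [Fintype κ] [DecidableEq κ] (b : κ → Matrix n n ℚ_[p])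
    (hb : LinearIndependent ℚ_[p] b) (A : (Ω ≃ₐ[ℚ] Ω) →* Matrix κ κ ℤ_[p])
    (hA : ∀ g l, ρ g * b l * ρ g⁻¹ = ∑ k, (A g k l : ℚ_[p]) • b k)
    (Θ : (Ω ≃ₐ[ℚ] Ω) → Matrix κ κ ℤ_[p]) (hΘ : ∀ g, A g = 1 + (p : ℤ_[p]) • Θ g)
    {t : Ω ≃ₐ[ℚ] Ω} (ht : t ∈ (primeC ι).inertia (Ω ≃ₐ[ℚ] Ω)) (h1 : psi p t = 1) :
    aeval ((Θ t).map toZMod)
      (∏ a ∈ Finset.Icc (-K : ℤ) K, (X - C a) : ℤ[X]) = 0 := by
  obtain ⟨l, l0, hl⟩ := exists_period ι (p := p) (by omega)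
  let φ := algebraMap ℚ_[p] ℂ_[p]
  let B : Matrix n n ℂ_[p] := (Matrix.of fun i => l ^ (-a i) • v i)ᵀ
  have hB : IsUnit B := (Matrix.isUnit_transpose _).2 (Matrix.linearIndependent_rows_iff_isUnit.1
    (hv.units_smul fun i => Units.mk0 (l ^ (-a i)) (zpow_ne_zero _ l0)))
  obtain ⟨B', b1, b2⟩ := isUnit_iff_exists.1 hB
  refine ht_poly h5 ι A Θ hΘ hK (J := n × n) (fun j => a j.1 - a j.2)
    (fun j => ha _ _) _ (span_HTadj hb b1) (fun j g k => ?_) ht h1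
  have e := conj_HTadj b1 b2 (MulSemiringAction.toRingHom (GC p) ℂ_[p] g)
    (R := (ρ (resC ι g)).map φ) (E := diagonal fun i => φ (ea p (a i) (resC ι g)))
    (b := fun k => (b k).map φ) (l := k) (Matrix.ext fun _ _ => GC.fix g _)
    (Matrix.ext fun i j => by
      rw [mul_diagonal, mul_comm]
      exact congrFun (ht'_HTadj (hl g) (h j g)) i)
    (c := fun m => φ (A (resC ι g) m k)) (by
      have e1 : ρ (resC ι g) * b k = (∑ m, (A (resC ι g) m k : ℚ_[p]) • b m) * ρ (resC ι g) := by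
        rw [← hA, mul_assoc, ← map_mul, inv_mul_cancel, map_one, mul_one]
      rw [← Matrix.map_mul, e1, Matrix.map_mul]
      congr 1
      ext i j
      simp [Matrix.sum_apply])
  have e2 := congrFun (congrFun e j.2) j.1
  obtain ⟨e3, e4⟩ := ea_sub_HTadj (p := p) (a j.1) (a j.2) (resC ι g)
  rw [diagonal_mul, mul_diagonal, Matrix.sum_apply, ← e3, map_mul φ, mul_comm (∑ _, _),
    mul_assoc (φ _)] at e2
  exact mul_left_cancel₀ ((map_ne_zero φ).2 e4) e2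

end Pool.Agent.MP_f68ac8_nt
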