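import Mathlib
import Pool.Agent.MP_f68ac8_nt.GvAux
import Pool.Agent.MP_f68ac8_nt.HTadj

/-! The leading term of a Hodge-Tate representation on inertia. -/

namespace Pool.Agent.MP_f68ac8_nt.Ev

open Matrix Finset
open scoped Kronecker

lemma wild_GvHT {k : Type} [Field k] {n B : ℕ} {X : Mt n k} (htr : X.trace = 0)
    (lam : Fin n × Fin n → ℤ) (hlam : ∀ j, |lam j| ≤ B)
    {U : Matrix (Fin n × Fin n) (Fin n × Fin n) k} (hU : IsUnit U)
    (h : ∀ i, U i ᵥ* (X ⊗ₖ (1 : Mt n k) - (1 : Mt n k) ⊗ₖ Xᵀ) = (-lam i : k) • U i) :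
    Wild B {j | lam j ≠ 0}.ncard X := by
  classical
  obtain ⟨W, h1, h2⟩ := isUnit_iff_exists.1 hU
  set T := X ⊗ₖ (1 : Mt n k) - (1 : Mt n k) ⊗ₖ Xᵀ with hT
  have e1 : U * T = diagonal (fun i => (-lam i : k)) * U := by
    ext i j
    rw [diagonal_mul]
    exact congrFun (h i) j
  have e2 : T * W = W * diagonal (fun i => (-lam i : k)) := by
    calc T * W = W * (U * T) * W := by rw [← Matrix.mul_assoc, h2, Matrix.one_mul]
      _ = _ := by rw [e1, Matrix.mul_assoc, Matrix.mul_assoc, h1, Matrix.mul_one]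
  let E : Fin n × Fin n → Mt n k := fun j => Matrix.of fun a b => W (a, b) j
  have hE : ∀ j, adM X (E j) = (lam j : k) • E j := by
    intro j
    ext a b
    have := congrFun (congrFun e2 (a, b)) j
    rw [mul_diagonal, Matrix.mul_apply, Fintype.sum_prod_type] at this
    simp only [hT, Matrix.sub_apply, kroneckerMap_apply, one_apply, transpose_apply, sub_mul,
      sum_sub_distrib, mul_ite, ite_mul, mul_one, one_mul, mul_zero, zero_mul, sum_ite_eq,
      mem_univ, if_true] at this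
    rw [sum_comm] at this
    simp only [sum_ite_eq, mem_univ, if_true] at this
    simp only [adM, E, LinearMap.sub_apply, LinearMap.mulRight_apply, LinearMap.mulLeft_apply,
      Matrix.sub_apply, Matrix.mul_apply, of_apply, Matrix.smul_apply, smul_eq_mul]
    have e3 : ∑ x, W (a, x) j * X x b = ∑ x, X x b * W (a, x) j :=
      sum_congr rfl fun x _ => mul_comm _ _
    rw [e3]
    linear_combination -this
  have hdec : ∀ Z : Mt n k, ∃ c : Fin n × Fin n → k, Z = ∑ j, c j • E j := by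
    intro Z
    refine ⟨U *ᵥ fun m => Z m.1 m.2, ?_⟩
    ext a b
    have : W *ᵥ (U *ᵥ fun m => Z m.1 m.2) = fun m => Z m.1 m.2 := by
      rw [mulVec_mulVec, h2, one_mulVec]
    have e := congrFun this (a, b)
    rw [Matrix.sum_apply, ← e, mulVec, dotProduct]
    exact sum_congr rfl fun j _ => by simp [E, mul_comm]
  refine ⟨htr, fun Z => ?_, ?_⟩
  · obtain ⟨c, hc⟩ := hdec Z
    refine ⟨fun l => ∑ j ∈ univ.filter fun j => lam j = l, c j • E j, ?_, fun l => ?_⟩
    · rw [sum_fiberwise_of_maps_to fun j _ => mem_Icc.2 (abs_le.1 (hlam j))]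
      exact hc
    · change adM X _ = _
      rw [map_sum, smul_sum]
      refine sum_congr rfl fun j hj => ?_
      rw [map_smul, hE, (mem_filter.1 hj).2, smul_comm]
  · have hle : LinearMap.range (adM X) ≤ Submodule.span k (E '' {j | lam j ≠ 0}) := by
      rintro _ ⟨Z, rfl⟩
      obtain ⟨c, hc⟩ := hdec Z
      rw [hc, map_sum]
      refine Submodule.sum_mem _ fun j _ => ?_
      rw [map_smul, hE]
      by_cases hj : lam j = 0
      · simp [hj]
      · exact Submodule.smul_mem _ _ (Submodule.smul_mem _ _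
          (Submodule.subset_span ⟨j, hj, rfl⟩))
    refine (Submodule.finrank_mono hle).trans ?_
    have hfin : (E '' {j | lam j ≠ 0}).Finite := (Set.toFinite _).image _
    letI := hfin.fintype
    refine (finrank_span_le_card _).trans ?_
    rw [← Set.ncard_eq_toFinset_card']
    exact Set.ncard_image_le

/-- the adjoint representation in the standard basis -/
noncomputable def adj_GvHT {G R : Type} [Group G] [CommRing R] {n : ℕ}
    (ρ : G →* GL (Fin n) R) : G →* Matrix (Fin n × Fin n) (Fin n × Fin n) R where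
  toFun g := (ρ g).val ⊗ₖ ((ρ g)⁻¹.val)ᵀ
  map_one' := by simp
  map_mul' g h := by
    rw [map_mul, _root_.mul_inv_rev, Units.val_mul, Units.val_mul, transpose_mul,
      mul_kronecker_mul]

lemma lev_GvHT {p : ℕ} [Fact p.Prime] {n k : ℕ} (hk : 0 < k) (R : GL (Fin n) ℤ_[p])
    {s : ℤ_[p]} {Z : Mt n ℤ_[p]} (h : R.val = s • (1 + (p : ℤ_[p]) ^ k • Z)) :
    ∃ Θ : Matrix (Fin n × Fin n) (Fin n × Fin n) ℤ_[p],
      R.val ⊗ₖ (R⁻¹.val)ᵀ = 1 + (p : ℤ_[p]) ^ k • Θ ∧ Θ.map PadicInt.toZMod =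
        Z.map PadicInt.toZMod ⊗ₖ (1 : Mt n (ZMod p)) -
          (1 : Mt n (ZMod p)) ⊗ₖ (Z.map PadicInt.toZMod)ᵀ := by
  obtain ⟨T, hT⟩ : ∃ T : Mt n ℤ_[p], T = s • R⁻¹.val := ⟨_, rfl⟩
  have e1 : T = 1 - (p : ℤ_[p]) ^ k • (T * Z) := by
    have : R⁻¹.val * R.val = 1 := R.inv_mul
    rw [h, Matrix.mul_smul, ← Matrix.smul_mul, ← hT, Matrix.mul_add, Matrix.mul_one,
      Matrix.mul_smul] at this
    exact eq_sub_of_add_eq this
  have hp : PadicInt.toZMod ((p : ℤ_[p]) ^ k) = 0 := by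
    rw [map_pow, map_natCast, ZMod.natCast_self, zero_pow hk.ne']
  have e2 : T.map PadicInt.toZMod = 1 := by
    ext i j
    have := congrFun (congrFun e1 i) j
    rw [map_apply, this, Matrix.sub_apply, Matrix.smul_apply, smul_eq_mul, map_sub, map_mul, hp,
      zero_mul, sub_zero, one_apply, one_apply]
    split_ifs <;> simp
  refine ⟨Z ⊗ₖ Tᵀ - (1 : Mt n ℤ_[p]) ⊗ₖ (T * Z)ᵀ, ?_, ?_⟩
  · have e3 : R.val ⊗ₖ (R⁻¹.val)ᵀ = (1 + (p : ℤ_[p]) ^ k • Z) ⊗ₖ Tᵀ := by
      conv_lhs => rw [h]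
      rw [hT, transpose_smul, smul_kronecker, kronecker_smul]
    have e4 : (1 : Mt n ℤ_[p]) ⊗ₖ Tᵀ =
        1 - (p : ℤ_[p]) ^ k • (1 : Mt n ℤ_[p]) ⊗ₖ (T * Z)ᵀ := by
      conv_lhs => rw [e1]
      rw [sub_eq_add_neg, transpose_add, kronecker_add, transpose_one, one_kronecker_one,
        ← neg_smul, transpose_smul, kronecker_smul, neg_smul, sub_eq_add_neg]
    rw [e3, add_kronecker, smul_kronecker, e4, smul_sub]
    abel
  · have e5 : (T * Z).map PadicInt.toZMod = Z.map PadicInt.toZMod := by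
      rw [Matrix.map_mul, e2, Matrix.one_mul]
    ext m l
    have a1 := congrFun (congrFun e2 l.2) m.2
    have a2 := congrFun (congrFun e5 l.2) m.2
    rw [map_apply] at a1 a2
    simp only [map_apply, Matrix.sub_apply, kroneckerMap_apply, transpose_apply, map_sub, map_mul,
      a1, a2]
    simp only [one_apply, apply_ite PadicInt.toZMod, map_one, map_zero, eq_comm (a := l.2)]

theorem htw_stmt (p : ℕ) [Fact p.Prime] (h : HLevStmt p) : HTWStmt p := by
  intro ι n k B R f a v h5 _ hk hB ha hv hR hZ γ hγ hψ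
  obtain ⟨l, l0, hl⟩ := exists_period ι (p := p) (by omega)
  let φ := algebraMap ℚ_[p] ℂ_[p]
  let ψ : ℤ_[p] →+* ℂ_[p] := φ.comp (algebraMap ℤ_[p] ℚ_[p])
  let M : Matrix (Fin n) (Fin n) ℂ_[p] := (Matrix.of fun i => l ^ (-a i) • v i)ᵀ
  have hM : IsUnit M := (Matrix.isUnit_transpose _).2 (Matrix.linearIndependent_rows_iff_isUnit.1
    (hv.units_smul fun i => Units.mk0 (l ^ (-a i)) (zpow_ne_zero _ l0)))
  obtain ⟨M', b1, b2⟩ := isUnit_iff_exists.1 hM
  let w : Fin n × Fin n → Fin n × Fin n → ℂ_[p] := fun j m => M' j.2 m.1 * M m.2 j.1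
  have hw : LinearIndependent ℂ_[p] w := by
    refine Matrix.linearIndependent_rows_iff_isUnit (A := Matrix.of w) |>.2 ?_
    refine (Matrix.isUnit_iff_isUnit_det _).2 (Matrix.isUnit_det_of_right_inverse
      (B := Matrix.of fun m j => M m.1 j.2 * M' j.1 m.2) ?_)
    ext j j'
    have c1 := congrFun (congrFun b2 j.2) j'.2
    have c2 := congrFun (congrFun b2 j'.1) j.1
    rw [Matrix.mul_apply] at c1 c2
    rw [Matrix.mul_apply, Fintype.sum_prod_type]
    have : ∑ x, ∑ y, Matrix.of w j (x, y) *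
        (Matrix.of fun m j : Fin n × Fin n => M m.1 j.2 * M' j.1 m.2) (x, y) j' =
        (∑ x, M' j.2 x * M x j'.2) * ∑ y, M' j'.1 y * M y j.1 := by
      rw [sum_mul_sum]
      exact sum_congr rfl fun x _ => sum_congr rfl fun y _ => by
        simp only [of_apply, w]
        ring
    rw [this, c1, c2, one_apply, one_apply, one_apply]
    by_cases e1 : j.1 = j'.1 <;> by_cases e2 : j.2 = j'.2 <;>
      simp [Prod.ext_iff, e1, e2, eq_comm (a := j'.1)]
  have heq : ∀ i (g : GC p) m, g • w i m = φ (ea p (a i.1 - a i.2) (resC ι g)) *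
      ∑ j, φ (adj_GvHT R g j m) * w i j := by
    intro i g m
    let σ := MulSemiringAction.toRingHom (GC p) ℂ_[p] g
    let E : Matrix (Fin n) (Fin n) ℂ_[p] := diagonal fun i => φ (ea p (a i) (resC ι g))
    have e0 : (R g).val.map ψ * M.map σ = M * E := Matrix.ext fun i j => by
      rw [mul_diagonal, mul_comm]
      exact congrFun (ht'_HTadj (hl g) (hR j g)) i
    have e1 : M.map σ = (R g)⁻¹.val.map ψ * M * E := by
      rw [Matrix.mul_assoc, ← e0, ← Matrix.mul_assoc, ← Matrix.map_mul, Units.inv_mul,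
        Matrix.map_one _ (map_zero _) (map_one _), Matrix.one_mul]
    have e2 : E * M'.map σ = M' * (R g).val.map ψ := by
      have : M.map σ * M'.map σ = 1 := by
        rw [← Matrix.map_mul, b1, Matrix.map_one _ (map_zero _) (map_one _)]
      calc E * M'.map σ = M' * (M * E) * M'.map σ := by
            rw [← Matrix.mul_assoc M', b2, Matrix.one_mul]
        _ = _ := by rw [← e0, Matrix.mul_assoc, Matrix.mul_assoc, this, Matrix.mul_one]
    have c1 := congrFun (congrFun e1 m.2) i.1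
    have c2 := congrFun (congrFun e2 i.2) m.1
    rw [mul_diagonal, map_apply, Matrix.mul_apply] at c1
    rw [diagonal_mul, map_apply, Matrix.mul_apply] at c2
    obtain ⟨e3, -⟩ := ea_sub_HTadj (p := p) (a i.1) (a i.2) (resC ι g)
    have c3 : ∑ j, φ (adj_GvHT R g j m) * w i j =
        (∑ x, M' i.2 x * (R g).val.map ψ x m.1) * ∑ y, (R g)⁻¹.val.map ψ m.2 y * M y i.1 := by
      rw [Fintype.sum_prod_type, sum_mul_sum]
      refine sum_congr rfl fun x _ => sum_congr rfl fun y _ => ?_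
      change ψ ((R g).val x m.1 * (R g)⁻¹.val m.2 y) * (M' i.2 x * M y i.1) = _
      rw [map_mul, map_apply, map_apply]
      ring
    change σ (M' i.2 m.1 * M m.2 i.1) = _
    rw [c3, ← c2, map_mul, c1, ← e3, map_mul]
    ring
  choose s Z _ hs hZf htr using hZ
  choose Θ hΘ hΘ' using fun g => lev_GvHT hk (R g) (hs g)
  have hk1 : k = 1 ∨ ∀ i : Fin n × Fin n, a i.1 - a i.2 = 0 := by
    by_cases hk1 : k = 1
    · exact Or.inl hk1
    refine Or.inr fun i => ?_
    obtain ⟨U, hU, hU'⟩ := h ι (Fin n × Fin n) (adj_GvHT R)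
      (fun g => (p : ℤ_[p]) ^ (k - 1) • Θ g) 1 B (fun i => a i.1 - a i.2) w h5 one_pos
      (fun g => by
        rw [smul_smul, ← pow_add, show 1 + (k - 1) = k by omega]
        exact hΘ g) hB (fun i => ha _ _) (Or.inl rfl) hw heq γ hγ hψ
    have h0 : ((p : ℤ_[p]) ^ (k - 1) • Θ γ).map PadicInt.toZMod = 0 := by
      ext x y
      rw [map_apply, Matrix.smul_apply, smul_eq_mul, map_mul, map_pow, map_natCast,
        ZMod.natCast_self, zero_pow (by omega), zero_mul, Matrix.zero_apply]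
    have h1 := hU' i
    rw [h0, vecMul_zero] at h1
    have hne : U i ≠ 0 := (Matrix.linearIndependent_rows_iff_isUnit.2 hU).ne_zero i
    have h2 : ((a i.1 - a i.2 : ℤ) : ZMod p) = 0 :=
      neg_eq_zero.1 ((smul_eq_zero.1 h1.symm).resolve_right hne)
    have h3 := (ZMod.intCast_zmod_eq_zero_iff_dvd _ p).1 h2
    have h4 := ha i.1 i.2
    exact Int.eq_zero_of_abs_lt_dvd h3 (by omega)
  obtain ⟨U, hU, hU'⟩ := h ι (Fin n × Fin n) (adj_GvHT R) Θ k B (fun i => a i.1 - a i.2) w h5 hk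
    hΘ hB (fun i => ha _ _) hk1 hw heq γ hγ hψ
  have := wild_GvHT (B := B) (htr γ) (fun i => a i.1 - a i.2) (fun i => ha _ _) hU fun i => by
    rw [← hZf, ← hΘ']
    exact hU' i
  simpa only [sub_ne_zero] using this

end Pool.Agent.MP_f68ac8_nt.Ev
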