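import Mathlib
import Pool.Agent.MP_f68ac8_nt.GvAlg
import Pool.Agent.MP_f68ac8_nt.FvCert

/-! The joint certificate and the local tangent space. -/

namespace Pool.Agent.MP_f68ac8_nt.Ev

open Module Finset Matrix

lemma one_GvJoint {k V : Type} [Field k] [AddCommGroup V] [Module k V]
    (π ad A : V →ₗ[k] V) (W T : Submodule k V)
    (h : ∀ Z, π (ad Z) = ad Z → ad Z ∈ W.map A ⊔ T) :
    ∃ (Q₀ Q₂ Q₃ R : V →ₗ[k] V) (P : V →ₗ[k] T), ∀ Z, R Z ∈ W ∧ Q₀ (ad Z) = 0 ∧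
      (P Z : V) = Z - A (R Z) - Q₂ (Z - π Z) - Q₃ (Q₀ Z) := by
  set T' := LinearMap.eqLocus π LinearMap.id ⊓ LinearMap.range ad with hT
  obtain ⟨g0, hg0⟩ := (LinearMap.range ad).subtype.exists_leftInverse_of_injective
    (Submodule.ker_subtype _)
  let Q₀ : V →ₗ[k] V := LinearMap.id - (LinearMap.range ad).subtype ∘ₗ g0
  have hQ0 : ∀ Z, Q₀ (ad Z) = 0 := by
    intro Z
    have := LinearMap.congr_fun hg0 ⟨ad Z, Z, rfl⟩
    simp only [LinearMap.comp_apply, Submodule.subtype_apply, LinearMap.id_apply] at this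
    simp [Q₀, this]
  have hQ0' : ∀ Z, Q₀ Z = 0 → Z ∈ LinearMap.range ad := by
    intro Z hZ
    have h : Z = (g0 Z : V) := by simpa [Q₀, sub_eq_zero] using hZ
    rw [h]
    exact (g0 Z).2
  obtain ⟨ρ, hρ⟩ := T'.subtype.exists_leftInverse_of_injective (Submodule.ker_subtype _)
  let M : W × T →ₗ[k] V := (A ∘ₗ W.subtype).coprod T.subtype
  have hM : T' ≤ LinearMap.range M := by
    rintro _ ⟨h1, Z, rfl⟩
    obtain ⟨_, ⟨w, hw, rfl⟩, t, ht, h2⟩ := Submodule.mem_sup.mp (h Z h1)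
    exact ⟨(⟨w, hw⟩, ⟨t, ht⟩), h2⟩
  obtain ⟨s, hs⟩ := M.rangeRestrict.exists_rightInverse_of_surjective M.range_rangeRestrict
  let s' : V →ₗ[k] W × T := s ∘ₗ Submodule.inclusion hM ∘ₗ ρ
  have hs' : ∀ Z, A ((s' Z).1 : V) + ((s' Z).2 : V) = (ρ Z : V) := fun Z =>
    congrArg Subtype.val (LinearMap.congr_fun hs (Submodule.inclusion hM (ρ Z)))
  let F : V →ₗ[k] V × V := (LinearMap.id - π).prod Q₀
  obtain ⟨σ, hσ⟩ := F.rangeRestrict.exists_rightInverse_of_surjective F.range_rangeRestrict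
  let P : V →ₗ[k] V := LinearMap.id - T'.subtype ∘ₗ ρ
  obtain ⟨G, hG⟩ := LinearMap.exists_extend (P ∘ₗ σ)
  have hP : ∀ Z, F Z = 0 → P Z = 0 := by
    intro Z hZ
    have h1 : Z - π Z = 0 := congrArg Prod.fst hZ
    have h2 : Q₀ Z = 0 := congrArg Prod.snd hZ
    have hZT : Z ∈ T' := ⟨(sub_eq_zero.mp h1).symm, hQ0' Z h2⟩
    have := LinearMap.congr_fun hρ ⟨Z, hZT⟩
    simp only [LinearMap.comp_apply, Submodule.subtype_apply, LinearMap.id_apply] at this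
    simp [P, this]
  have hGF : ∀ Z, G (F Z) = P Z := by
    intro Z
    have h1 := LinearMap.congr_fun hG (F.rangeRestrict Z)
    have h2 := congrArg Subtype.val (LinearMap.congr_fun hσ (F.rangeRestrict Z))
    simp only [LinearMap.comp_apply, Submodule.subtype_apply, LinearMap.id_apply,
      LinearMap.codRestrict_apply, LinearMap.rangeRestrict] at h1 h2
    rw [h1, ← sub_eq_zero, ← map_sub]
    apply hP
    rw [map_sub, sub_eq_zero]
    exact h2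
  refine ⟨Q₀, G ∘ₗ LinearMap.inl k V V, G ∘ₗ LinearMap.inr k V V,
    W.subtype ∘ₗ LinearMap.fst k W T ∘ₗ s', LinearMap.snd k W T ∘ₗ s',
    fun Z => ⟨(s' Z).1.2, hQ0 Z, ?_⟩⟩
  have h3 : (G ∘ₗ LinearMap.inl k V V) (Z - π Z) + (G ∘ₗ LinearMap.inr k V V) (Q₀ Z) = P Z := by
    rw [← hGF, LinearMap.comp_apply, LinearMap.comp_apply, ← map_add]
    congr 1
    simp [F]
  have h4 : P Z = Z - (ρ Z : V) := rfl
  change ((s' Z).2 : V) = Z - A ((s' Z).1 : V) - _ - _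
  rw [sub_sub, h3, h4, ← hs']
  abel

theorem joint_stmt : JointStmt := by
  classical
  intro k V _ _ _ _ N c π ad A W T h hc
  have h1 : ∀ j, ∃ (Q₀ Q₂ Q₃ R : V →ₗ[k] V) (P : V →ₗ[k] T j), j < N → ∀ Z, R Z ∈ W j ∧
      Q₀ (ad j Z) = 0 ∧ (P Z : V) = Z - A j (R Z) - Q₂ (Z - π j Z) - Q₃ (Q₀ Z) := by
    intro j
    by_cases hj : j < N
    · obtain ⟨Q₀, Q₂, Q₃, R, P, hh⟩ := one_GvJoint (π j) (ad j) (A j) (W j) (T j) (h j hj)
      exact ⟨Q₀, Q₂, Q₃, R, P, fun _ => hh⟩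
    · exact ⟨0, 0, 0, 0, 0, fun hj' => absurd hj' hj⟩
  choose Q₀ Q₂ Q₃ R P hh using h1
  have hr : finrank k (∀ i : Fin N, T i) ≤ c := by
    rw [Module.finrank_pi_fintype, Fin.sum_univ_eq_sum_range (fun i => finrank k (T i)) N]
    exact hc
  set r := finrank k (∀ i : Fin N, T i) with hrdef
  let bb : Basis (Fin r) k (∀ i : Fin N, T i) := Module.finBasis k _
  refine ⟨Q₀, Q₂, Q₃, R,
    fun j a => if hj : j < N then if ha : a < r then
      bb.coord ⟨a, ha⟩ ∘ₗ LinearMap.single k (fun i : Fin N => T i) ⟨j, hj⟩ ∘ₗ P j else 0 else 0,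
    fun a i => if hi : i < N then if ha : a < r then (bb ⟨a, ha⟩ ⟨i, hi⟩ : V) else 0 else 0,
    fun j hj Z => ⟨(hh j hj Z).1, (hh j hj Z).2.1, fun i hi => ?_⟩⟩
  simp only [dif_pos hj, dif_pos hi]
  rw [← Finset.sum_subset (Finset.range_mono hr) (fun a _ ha => by
    rw [dif_neg (by simpa using ha), dif_neg (by simpa using ha), smul_zero]),
    ← Fin.sum_univ_eq_sum_range (fun a => (if ha : a < r then
      bb.coord ⟨a, ha⟩ ∘ₗ LinearMap.single k (fun i : Fin N => T i) ⟨j, hj⟩ ∘ₗ P j else 0) Z •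
      (if ha : a < r then (bb ⟨a, ha⟩ ⟨i, hi⟩ : V) else 0)) r]
  simp only [Fin.is_lt, dif_pos, Fin.eta, LinearMap.comp_apply, Basis.coord_apply]
  have h2 := congrArg (fun y : ∀ i : Fin N, T i => (y ⟨i, hi⟩ : V))
    (bb.sum_repr (LinearMap.single k (fun i : Fin N => T i) ⟨j, hj⟩ (P j Z)))
  simp only [Finset.sum_apply, Pi.smul_apply, Submodule.coe_sum, Submodule.coe_smul] at h2
  rw [h2, ← (hh j hj Z).2.2, LinearMap.single_apply]
  split_ifs with hij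
  · subst hij
    rw [Pi.single_eq_same]
  · rw [Pi.single_eq_of_ne (fun h' => hij (congrArg Fin.val h'))]
    rfl

theorem eig_stmt : EigStmt := by
  intro k Δ _ _ _ n Ad hA hN hn δ a ha
  let Wa : Submodule k (Mt n k) := LinearMap.ker (Ad δ - a • LinearMap.id)
  have hWa : ∀ Z, Z ∈ Wa ↔ Ad δ Z = a • Z := by
    intro Z
    simp [Wa, sub_eq_zero]
  obtain ⟨g, hg⟩ := Wa.subtype.exists_leftInverse_of_injective (Submodule.ker_subtype _)
  refine ⟨Wa.subtype ∘ₗ g, fun X hXa => ⟨?_, fun Z hZ => ?_⟩⟩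
  · exact congrArg Subtype.val (LinearMap.congr_fun hg ⟨X, (hWa X).mpr hXa⟩)
  have hZ' : Ad δ (ad_EvGen X Z) = a • ad_EvGen X Z := by
    refine (hWa _).mp ?_
    change adM X Z ∈ Wa
    rw [← hZ]
    exact (g _).2
  have h1 : ad_EvGen X (av Ad δ Z) = ad_EvGen X Z := ad_av_FvCert hA hN δ ha hXa hZ'
  refine ⟨⟨av Ad δ Z, av_fix_FvCert Ad δ Z, h1⟩, Z - (Z.trace / n) • (1 : Mt n k), ?_, ?_⟩
  · rw [Matrix.trace_sub, Matrix.trace_smul, Matrix.trace_one, Fintype.card_fin, smul_eq_mul,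
      div_mul_cancel₀ _ hn, sub_self]
  · change ad_EvGen X Z = ad_EvGen X (av Ad δ _)
    rw [map_sub, map_smul, av_of_fix_FvCert Ad δ hN (hA.one δ), map_sub,
      map_smul, h1, ad_apply_EvGen X 1, one_mul, mul_one, sub_self, smul_zero, sub_zero]

end Pool.Agent.MP_f68ac8_nt.Ev
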