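import Mathlib
import Pool.Agent.MP_f68ac8_nt.GvAux
import Pool.Agent.MP_f68ac8_nt.HTn

namespace Pool.Agent.MP_f68ac8_nt.Ev

open Matrix Polynomial PadicInt NumberField

section
variable {p : ℕ} [hp : Fact p.Prime] (ι : Qb →+* ℂ_[p]) {κ : Type} [Fintype κ] [DecidableEq κ]
  (A : GC p →* Matrix κ κ ℤ_[p])

/-- vectors of weight `a` -/
def AVec_GvLev (a : ℤ) (v : κ → ℂ_[p]) : Prop :=
  ∀ (g : GC p) l, g • v l = algebraMap ℚ_[p] ℂ_[p] (ea p a (resC ι g)) *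
    ∑ n, algebraMap ℚ_[p] ℂ_[p] (A g n l) * v n

variable {ι A}

lemma smul_GvLev {a : ℤ} {v : κ → ℂ_[p]} (h : AVec_GvLev ι A a v) (c : ℚ_[p]) :
    AVec_GvLev ι A a (algebraMap ℚ_[p] ℂ_[p] c • v) := fun g l => by
  simp only [Pi.smul_apply, smul_eq_mul, smul_mul', GC.fix, h g l, Finset.mul_sum]
  exact Finset.sum_congr rfl fun n _ => by ring

lemma sum_GvLev {a : ℤ} {v : κ → κ → ℂ_[p]} (h : ∀ i, AVec_GvLev ι A a (v i)) :
    AVec_GvLev ι A a (∑ i, v i) := fun g l => by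
  simp only [Finset.sum_apply, Finset.smul_sum, h _ g l, Finset.mul_sum]
  exact Finset.sum_comm

lemma zero_GvLev (a : ℤ) : AVec_GvLev ι A a 0 := fun g l => by simp

lemma ea_GvLev {k : ℕ} {a : ℤ} (hka : k = 1 ∨ a = 0) (g : GQ) :
    ∃ y : ℤ_[p], ea p a g = 1 + (p : ℚ_[p]) ^ k * y ∧ toZMod y = a * psi p g := by
  rcases hka with rfl | rfl
  · simpa using ea_spec (p := p) a g
  · exact ⟨0, by simp [ea], by simp⟩

lemma key_GvLev (h5 : 5 ≤ p) {Θ : GC p → Matrix κ κ ℤ_[p]} {k : ℕ} (hk : 0 < k)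
    (hΘ : ∀ g, A g = 1 + (p : ℤ_[p]) ^ k • Θ g) {γ : GC p} (hγ : Inert ℂ_[p] γ)
    (h1 : psi p (resC ι γ) = 1) {a : ℤ} (hka : k = 1 ∨ a = 0) {v : κ → ℂ_[p]}
    (h : AVec_GvLev ι A a v) (hv : ∀ l, ‖v l‖ ≤ 1) :
    (∃ u : κ → ℤ_[p], (∀ l, ‖v l - algebraMap ℚ_[p] ℂ_[p] (u l)‖ < 1) ∧
      (fun l => toZMod (u l)) ᵥ* (Θ γ).map toZMod = (-a : ZMod p) • fun l => toZMod (u l)) ∧
    ((∀ l, ‖v l‖ < 1) → ∀ l, ‖v l‖ ≤ (p : ℝ)⁻¹) := by
  by_cases h0 : v = 0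
  · subst h0
    exact ⟨⟨0, by simp, by ext; simp [vecMul, dotProduct]⟩, by simp⟩
  let φ := algebraMap ℚ_[p] ℂ_[p]
  have hp0 : (0 : ℝ) < (p : ℝ)⁻¹ := inv_pos.mpr (Nat.cast_pos.mpr hp.out.pos)
  have hpk : (0 : ℝ) < (p : ℝ)⁻¹ ^ k := pow_pos hp0 k
  have hp1 : (p : ℝ)⁻¹ ≤ 1 := inv_le_one_of_one_le₀ (Nat.one_le_cast.mpr hp.out.one_le)
  have hle : (p : ℝ)⁻¹ ^ k ≤ (p : ℝ)⁻¹ := pow_le_of_le_one hp0.le hp1 hk.ne'
  have hM : ∀ (g : GC p) (y : ℤ_[p]), ea p a (resC ι g) = 1 + (p : ℚ_[p]) ^ k * y → ∀ i j,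
      ((Matrix.of fun i j => φ (ea p a (resC ι g)) * φ (A g j i)) - 1 : Matrix κ κ ℂ_[p]) i j =
        φ ((p : ℚ_[p]) ^ k * ((y • (1 : Matrix κ κ ℤ_[p]) +
          (1 + (p : ℤ_[p]) ^ k * y) • Θ g) j i : ℤ_[p])) := by
    intro g y hy i j
    rw [Matrix.sub_apply, of_apply, hΘ, hy, ← map_mul]
    by_cases e : i = j
    · subst e
      rw [one_apply_eq, ← map_one φ, ← map_sub]
      congr 1
      simp
      ring
    · rw [one_apply_ne e, sub_zero]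
      congr 1
      simp [one_apply_ne (Ne.symm e)]
      ring
  obtain ⟨u, N, hu, a1, a2, ⟨i, a3⟩, -, a5⟩ := (locC h5).ht2 (n := κ) (s := fun _ => 1)
    (fun _ => one_pos)
    (A := fun g => Matrix.of fun i j => φ (ea p a (resC ι g)) * φ (A g j i))
    (fun g h => by
      ext i j
      simp only [map_mul, of_apply, mul_apply, PadicInt.coe_mul, PadicInt.coe_sum, map_sum,
        Finset.mul_sum]
      exact Finset.sum_congr rfl fun n _ => by ring)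
    (fun g h i j => by simp only [of_apply, smul_mul', φ, GC.fix]) hpk
    (by
      refine le_trans (mul_le_mul_of_nonneg_right hle (pow_pos rt_pos 5).le) ?_
      rw [inv_mul_le_iff₀ (inv_pos.mp hp0), mul_one]
      exact rt_pow_le h5)
    (fun g i j => by
      obtain ⟨y, hy, -⟩ := ea_GvLev (p := p) hka (resC ι g)
      rw [hM _ y hy, mul_one, mul_one, norm_qp, norm_mul, norm_pow, Padic.norm_p]
      exact mul_le_of_le_one_right hpk.le (PadicInt.norm_le_one _)) h0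
    (fun g i => by
      rw [h g i]
      simp only [mulVec, dotProduct, of_apply, Finset.mul_sum, mul_assoc, φ])
  simp only [mul_one, div_one] at a1 a2 a3 a5
  choose b hb using fun l => ast h5 (hu l)
  have hN : ∀ c : ℝ, ‖v i‖ < c → N < c := fun c hc => by
    by_contra hn
    have := lt_sub (hc.trans_le (not_lt.mp hn)) (a1 i)
    rw [sub_sub_cancel, a3] at this
    exact this.false
  have hN1 : N ≤ 1 := le_of_forall_gt fun c hc => hN c ((hv i).trans_lt hc)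
  have hb1 : ∀ l, ‖b l‖ ≤ 1 := fun l => by rw [← norm_qp, hb]; exact (a2 l).trans hN1
  refine ⟨⟨fun l => ⟨b l, hb1 l⟩, fun l => by rw [hb]; exact (a1 l).trans_le hN1, ?_⟩,
    fun hlt l => ?_⟩
  · obtain ⟨y, hy, hy'⟩ := ea_GvLev (p := p) hka (resC ι γ)
    rw [h1, mul_one] at hy'
    ext l
    have e := (a5 γ hγ l).trans_le (mul_le_of_le_one_right hpk.le hN1)
    have e2 : (((Matrix.of fun i j => φ (ea p a (resC ι γ)) * φ (A γ j i)) - 1 :
        Matrix κ κ ℂ_[p]) *ᵥ u) l = φ ((p : ℚ_[p]) ^ k * ((∑ n, (y • (1 : Matrix κ κ ℤ_[p]) +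
          (1 + (p : ℤ_[p]) ^ k * y) • Θ γ) n l * ⟨b n, hb1 n⟩ : ℤ_[p]) : ℚ_[p])) := by
      simp only [mulVec, dotProduct, hM _ y hy, ← hb, PadicInt.coe_sum, PadicInt.coe_mul,
        Finset.mul_sum, map_sum, ← mul_assoc, map_mul φ]
      rfl
    rw [e2, norm_qp, norm_mul, norm_pow, Padic.norm_p, mul_lt_iff_lt_one_right hpk,
      norm_lt_iff] at e
    simp only [map_sum, map_mul, Matrix.add_apply, Matrix.smul_apply, smul_eq_mul, map_add,
      map_pow, map_natCast, ZMod.natCast_self, zero_pow hk.ne', zero_mul, add_zero, one_mul,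
      add_mul, Finset.sum_add_distrib, hy', one_apply, mul_ite, mul_one, Finset.sum_const_zero,
      mul_zero, ite_mul, Finset.sum_ite_eq', Finset.mem_univ, if_true] at e
    simp only [vecMul, dotProduct, map_apply, Pi.smul_apply, smul_eq_mul]
    rw [neg_mul, eq_neg_iff_add_eq_zero, add_comm, ← e]
    congr 1
    exact Finset.sum_congr rfl fun n _ => mul_comm _ _
  · have hN2 : N ≤ (p : ℝ)⁻¹ := by
      rw [← a3, ← hb, norm_qp]
      refine qp_le ?_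
      rw [← norm_qp, hb, a3]
      exact hN 1 (hlt i)
    have := le_add (a1 l).le (a2 l)
    rw [sub_add_cancel] at this
    exact this.trans hN2

lemma step_GvLev (h5 : 5 ≤ p) {Θ : GC p → Matrix κ κ ℤ_[p]} {k : ℕ} (hk : 0 < k)
    (hΘ : ∀ g, A g = 1 + (p : ℤ_[p]) ^ k • Θ g) {γ : GC p} (hγ : Inert ℂ_[p] γ)
    (h1 : psi p (resC ι γ) = 1) {K : ℕ} (hK : 2 * K < p)
    {a : κ → ℤ} (ha : ∀ i, |a i| ≤ K) (hka : k = 1 ∨ ∀ i, a i = 0) {v : Matrix κ κ ℂ_[p]}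
    (h : ∀ i, AVec_GvLev ι A (a i) (v i)) (hv : ∀ i l, ‖v i l‖ ≤ 1) :
    (∃ U : Matrix κ κ (ZMod p), IsUnit U ∧
      ∀ i, U i ᵥ* (Θ γ).map toZMod = (-a i : ZMod p) • U i) ∨
      ∃ v' : Matrix κ κ ℂ_[p], (∀ i, AVec_GvLev ι A (a i) (v' i)) ∧ (∀ i l, ‖v' i l‖ ≤ 1) ∧
        ‖det v'‖ = p * ‖det v‖ := by
  let φ := algebraMap ℚ_[p] ℂ_[p]
  have hka' : ∀ i, k = 1 ∨ a i = 0 := fun i => hka.imp id fun e => e i
  choose u hu hu' using fun i => (key_GvLev h5 hk hΘ hγ h1 (hka' i) (h i) (hv i)).1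
  let U : Matrix κ κ (ZMod p) := Matrix.of fun i l => toZMod (u i l)
  by_cases hU : LinearIndependent (ZMod p) U.row
  · exact Or.inl ⟨U, linearIndependent_rows_iff_isUnit.mp hU, hu'⟩
  right
  obtain ⟨c, hc, i₀, hi₀⟩ := Fintype.not_linearIndependent_iff.mp hU
  let s := Finset.univ.filter fun j => a j ≠ a i₀
  have hs := sep_HTn (u := fun i l => toZMod (u i l)) (μ := fun i => (-a i : ZMod p)) hu' hc s
  set d : κ → ZMod p := fun i => c i * ∏ j ∈ s, (-(a i : ZMod p) - -a j) with hd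
  have d0 : d i₀ ≠ 0 := by
    refine mul_ne_zero hi₀ (Finset.prod_ne_zero_iff.mpr fun j hj e => ?_)
    have e1 : ((a j - a i₀ : ℤ) : ZMod p) = 0 := by
      push_cast
      linear_combination e
    rw [ZMod.intCast_zmod_eq_zero_iff_dvd] at e1
    have e2 := abs_le.mp (ha j)
    have e3 := abs_le.mp (ha i₀)
    have e4 := Int.eq_zero_of_abs_lt_dvd e1 (abs_lt.mpr (by omega))
    exact (Finset.mem_filter.mp hj).2 (by omega)
  let w : κ → ℂ_[p] := ∑ i, ((d i).val : ℂ_[p]) • v i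
  have w1 : AVec_GvLev ι A (a i₀) w := sum_GvLev fun i => by
    by_cases e : a i = a i₀
    · rw [← e, ← map_natCast φ]
      exact smul_GvLev (h i) _
    · have : d i = 0 := mul_eq_zero_of_right _ (Finset.prod_eq_zero (i := i)
        (Finset.mem_filter.mpr ⟨Finset.mem_univ _, e⟩) (sub_self _))
      simpa [this] using zero_GvLev _
  have w2 : ∀ l, ‖w l‖ < 1 := fun l => by
    have e1 : ‖φ ((∑ i, ((d i).val : ℤ_[p]) * u i l : ℤ_[p]) : ℚ_[p])‖ < 1 := by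
      rw [norm_qp, norm_lt_iff]
      simpa [hd] using congrFun hs l
    have e2 : ‖∑ i, ((d i).val : ℂ_[p]) * (v i l - φ (u i l))‖ < 1 :=
      Finset.sum_induction _ (fun x : ℂ_[p] => ‖x‖ < 1) (fun _ _ => lt_add) (by simp)
        fun i _ => le_mul_lt (le_nat _) (hu i l)
    refine lt_of_eq_of_lt (congrArg _ ?_) (lt_add e2 e1)
    simp only [w, Finset.sum_apply, Pi.smul_apply, smul_eq_mul, PadicInt.coe_sum,
      PadicInt.coe_mul, PadicInt.coe_natCast, map_sum, map_mul, map_natCast,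
      ← Finset.sum_add_distrib]
    exact Finset.sum_congr rfl fun i _ => by ring
  have w3 := (key_GvLev h5 hk hΘ hγ h1 (hka' i₀) w1 fun l => (w2 l).le).2 w2
  have hp0 : (0 : ℝ) < p := Nat.cast_pos.mpr hp.out.pos
  have np : ‖φ (p : ℚ_[p])⁻¹‖ = p := by rw [norm_qp, norm_inv, Padic.norm_p, inv_inv]
  refine ⟨v.updateRow i₀ (φ (p : ℚ_[p])⁻¹ • w), fun i => ?_, fun i l => ?_, ?_⟩
  · by_cases e : i = i₀
    · rw [e, updateRow_self]
      exact smul_GvLev w1 _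
    · rw [updateRow_ne e]
      exact h i
  · by_cases e : i = i₀
    · rw [e, updateRow_self, Pi.smul_apply, smul_eq_mul, norm_mul, np, ← le_inv_mul_iff₀ hp0,
        mul_one]
      exact w3 l
    · rw [updateRow_ne e]
      exact hv i l
  · rw [det_updateRow_smul, det_updateRow_sum, norm_mul, np, smul_eq_mul, norm_mul,
      norm_nat_eq_one (locC h5).np1 ((Nat.Prime.coprime_iff_not_dvd hp.out).mpr (by
        rw [← ZMod.natCast_eq_zero_iff]
        simpa using d0)), one_mul]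

end

theorem hlev_stmt (p : ℕ) [Fact p.Prime] : HLevStmt p := by
  intro ι κ _ _ A Θ k B a w h5 hk hΘ hB ha hka hw h γ hγ h1
  have hp : Fact p.Prime := inferInstance
  by_contra hne
  let φ := algebraMap ℚ_[p] ℂ_[p]
  have hp1 : (1 : ℝ) < p := Nat.one_lt_cast.mpr hp.out.one_lt
  let v₀ : Matrix κ κ ℂ_[p] := Matrix.of w
  have d0 : det v₀ ≠ 0 := ((isUnit_iff_isUnit_det _).mp
    (linearIndependent_rows_iff_isUnit.mp hw)).ne_zero
  obtain ⟨m, hm⟩ := pow_unbounded_of_one_lt (∑ i, ∑ l, ‖v₀ i l‖) hp1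
  have np : ‖φ ((p : ℚ_[p]) ^ m)‖ = ((p : ℝ) ^ m)⁻¹ := by
    rw [norm_qp, norm_pow, Padic.norm_p, inv_pow]
  have d1 : 0 < ‖det (φ ((p : ℚ_[p]) ^ m) • v₀)‖ := by
    rw [norm_pos_iff, det_smul]
    refine mul_ne_zero (pow_ne_zero _ (norm_pos_iff.mp ?_)) d0
    rw [np]
    positivity
  have main : ∀ n : ℕ, ∃ v : Matrix κ κ ℂ_[p], (∀ i, AVec_GvLev ι A (a i) (v i)) ∧
      (∀ i l, ‖v i l‖ ≤ 1) ∧ ‖det v‖ = p ^ n * ‖det (φ ((p : ℚ_[p]) ^ m) • v₀)‖ := by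
    intro n
    induction n with
    | zero =>
      refine ⟨φ ((p : ℚ_[p]) ^ m) • v₀, fun i => smul_GvLev (h _) _, fun i l => ?_,
        by rw [pow_zero, one_mul]⟩
      rw [Matrix.smul_apply, smul_eq_mul, norm_mul, np, inv_mul_le_iff₀ (by positivity), mul_one]
      refine le_trans ?_ hm.le
      refine le_trans ?_ (Finset.single_le_sum (f := fun i => ∑ l, ‖v₀ i l‖)
        (fun _ _ => by positivity) (Finset.mem_univ i))
      exact Finset.single_le_sum (f := fun l => ‖v₀ i l‖) (fun _ _ => norm_nonneg _)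
        (Finset.mem_univ l)
    | succ n ih =>
      obtain ⟨v, b1, b2, b3⟩ := ih
      obtain ⟨v', c1, c2, c3⟩ :=
        (step_GvLev h5 hk hΘ hγ h1 hB ha hka b1 b2).resolve_left hne
      exact ⟨v', c1, c2, by rw [c3, b3, pow_succ', mul_assoc]⟩
  obtain ⟨n, hn⟩ := pow_unbounded_of_one_lt ‖det (φ ((p : ℚ_[p]) ^ m) • v₀)‖⁻¹ hp1
  obtain ⟨v, -, b2, b3⟩ := main n
  rw [inv_lt_iff_one_lt_mul₀ d1, ← b3] at hn
  exact hn.not_ge (det_le_HTn b2)

end Pool.Agent.MP_f68ac8_nt.Ev
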