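import Mathlib
import Pool.Agent.MP_f68ac8_nt.GvAlg
import Pool.Agent.MP_f68ac8_nt.FvNat

namespace Pool.Agent.MP_f68ac8_nt.Ev

open Matrix MvPolynomial Finset

section map
variable {n m₁ m₂ : ℕ} {R S : Type} [CommRing R] [CommRing S] (φ : R →+* S)

theorem opw_GvNat (y : Bw n → R) (κ : ℕ × ℕ × ℕ) (X : Mt n R) :
    φ.mapMatrix (opw y κ X) = opw (fun b => φ (y b)) κ (φ.mapMatrix X) := ap_EvNat φ _ X

theorem fnw_GvNat (y : Bw n → R) (κ : ℕ × ℕ × ℕ) (X : Mt n R) :
    φ (fnw y κ X) = fnw (fun b => φ (y b)) κ (φ.mapMatrix X) := by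
  simp only [fnw, map_sum, map_mul, entry_EvNat]

theorem trace_GvNat (X : Mt n R) : φ X.trace = (φ.mapMatrix X).trace := by
  simp only [Matrix.trace, Matrix.diag, map_sum, entry_EvNat]

theorem colW_GvNat (d : ℕ) (x : ∀ i, Rn m₁ m₂ i → R) (y : ℕ → Bw n → R) (j i : ℕ) (X : Mt n R) :
    φ.mapMatrix (colW d x y j i X) =
      colW d (fun i a => φ (x i a)) (fun i b => φ (y i b)) j i (φ.mapMatrix X) := by
  unfold colW
  split_ifs
  · simp only [map_sum, smul_EvNat, opw_GvNat]
  · exact opw_GvNat φ _ _ _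

theorem ite_GvNat {M N : Type} [Zero M] [Zero N] (f : M → N) (hf : f 0 = 0) (P : Prop)
    [Decidable P] (a : M) : f (if P then a else 0) = if P then f a else 0 := by
  split_ifs
  · rfl
  · exact hf

/-- the image of the witnesses -/
def Wit.map_GvNat (w : Wit n m₁ m₂ R) : Wit n m₁ m₂ S where
  X j := φ.mapMatrix (w.X j)
  V j e l := φ.mapMatrix (w.V j e l)
  Q j r a b := φ (w.Q j r a b)
  c j e i s := φ (w.c j e i s)
  ρ j e a := φ (w.ρ j e a)
  q a i := φ.mapMatrix (w.q a i)
  γ e i s := φ (w.γ e i s)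

variable {d m c B : ℕ} {x : ∀ i, Rn m₁ m₂ i → R} {y : ℕ → Bw n → R} {w : Wit n m₁ m₂ R}

theorem SolX.map_GvNat (h : SolX d m c B x y w) :
    SolX d m c B (fun i a => φ (x i a)) (fun i b => φ (y i b)) (w.map_GvNat φ) where
  nil j hj := by
    simpa only [Wit.map_GvNat, map_pow, map_zero] using congrArg φ.mapMatrix (h.nil j hj)
  tr j hj := by
    simpa only [Wit.map_GvNat, trace_GvNat, map_zero] using congrArg φ (h.tr j hj)
  dec j hj e := by
    simpa only [Wit.map_GvNat, map_sum, single_EvNat] using congrArg φ.mapMatrix (h.dec j hj e)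
  eig j hj e l := by
    simpa only [Wit.map_GvNat, brk_FvNat, smul_EvNat, map_intCast] using
      congrArg φ.mapMatrix (h.eig j hj e l)
  self j hj := by
    simpa only [Wit.map_GvNat, opw_GvNat] using congrArg φ.mapMatrix (h.self j hj)
  ann j hj e := by
    simpa only [Wit.map_GvNat, ap_EvNat, brk_FvNat, map_zero, single_EvNat] using
      congrArg φ.mapMatrix (h.ann j hj e)
  cert j hj e i hi := by
    simpa only [Wit.map_GvNat, ite_GvNat φ.mapMatrix (map_zero _), ap_EvNat, opw_GvNat, brk_FvNat,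
      map_sub, map_sum, smul_EvNat, single_EvNat] using congrArg φ.mapMatrix (h.cert j hj e i hi)
  br j hj := by
    simpa only [Wit.map_GvNat, brk_FvNat, map_sum, smul_EvNat, colW_GvNat] using
      congrArg φ.mapMatrix (h.br j hj)
  un e he := by
    simpa only [Wit.map_GvNat, fnw_GvNat, map_sum, map_add, map_mul, map_zero] using
      congrArg φ (h.un e he)
  rk e he e' he' := by
    simpa only [Wit.map_GvNat, ite_GvNat φ (map_zero _), fnw_GvNat, map_sum, map_mul,
      map_one] using congrArg φ (h.rk e he e' he')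

theorem SolX.of_map_GvNat {α : Type} {K : α → Type} [∀ u, CommRing (K u)] (ψ : ∀ u, R →+* K u)
    (hi : ∀ a b : R, (∀ u, ψ u a = ψ u b) → a = b)
    (h : ∀ u, SolX d m c B (fun i a => ψ u (x i a)) (fun i b => ψ u (y i b))
      (w.map_GvNat (ψ u))) : SolX d m c B x y w := by
  have hm : ∀ M N : Mt n R, (∀ u, (ψ u).mapMatrix M = (ψ u).mapMatrix N) → M = N :=
    fun M N hMN => Matrix.ext fun a b => hi _ _ fun u => congrFun (congrFun (hMN u) a) b
  exact
    { nil := fun j hj => hm _ _ fun u => by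
        simpa only [Wit.map_GvNat, map_pow, map_zero] using (h u).nil j hj
      tr := fun j hj => hi _ _ fun u => by
        simpa only [Wit.map_GvNat, trace_GvNat, map_zero] using (h u).tr j hj
      dec := fun j hj e => hm _ _ fun u => by
        simpa only [Wit.map_GvNat, map_sum, single_EvNat] using (h u).dec j hj e
      eig := fun j hj e l => hm _ _ fun u => by
        simpa only [Wit.map_GvNat, brk_FvNat, smul_EvNat, map_intCast] using (h u).eig j hj e l
      self := fun j hj => hm _ _ fun u => by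
        simpa only [Wit.map_GvNat, opw_GvNat] using (h u).self j hj
      ann := fun j hj e => hm _ _ fun u => by
        simpa only [Wit.map_GvNat, ap_EvNat, brk_FvNat, map_zero, single_EvNat] using
          (h u).ann j hj e
      cert := fun j hj e i hi => hm _ _ fun u => by
        simpa only [Wit.map_GvNat, ite_GvNat (ψ u).mapMatrix (map_zero _), ap_EvNat, opw_GvNat,
          brk_FvNat, map_sub, map_sum, smul_EvNat, single_EvNat] using (h u).cert j hj e i hi
      br := fun j hj => hm _ _ fun u => by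
        simpa only [Wit.map_GvNat, brk_FvNat, map_sum, smul_EvNat, colW_GvNat] using
          (h u).br j hj
      un := fun e he => hi _ _ fun u => by
        simpa only [Wit.map_GvNat, fnw_GvNat, map_sum, map_add, map_mul, map_zero] using
          (h u).un e he
      rk := fun e he e' he' => hi _ _ fun u => by
        simpa only [Wit.map_GvNat, ite_GvNat (ψ u) (map_zero _), fnw_GvNat, map_sum, map_mul,
          map_one] using (h u).rk e he e' he' }

end map

section scale
variable {n m₁ m₂ : ℕ} {k : Type} [Field k]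

theorem opw_smul_GvNat (y : Bw n → k) (κ : ℕ × ℕ × ℕ) (a : k) (X : Mt n k) :
    opw y κ (a • X) = a • opw y κ X := ap_smul_FvNat _ a X

theorem fnw_smul_GvNat (y : Bw n → k) (κ : ℕ × ℕ × ℕ) (a : k) (X : Mt n k) :
    fnw y κ (a • X) = a * fnw y κ X := by
  simp only [fnw, Matrix.smul_apply, smul_eq_mul, Finset.mul_sum]
  exact Finset.sum_congr rfl fun _ _ => by ring

/-- rescaled variables of the adversary -/
def gs_GvNat (τ : ℕ → k) (y : ℕ → Bw n → k) (j : ℕ) (b : Bw n) : k :=
  (if b.1.1 = 3 ∧ b.1.2.1 < j then τ b.1.2.1 else 1) * y j b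

theorem gs_eq_GvNat (τ : ℕ → k) (y : ℕ → Bw n → k) (j : ℕ) (h : ∀ i < j, τ i = 1) :
    gs_GvNat τ y j = y j := by
  funext b
  simp only [gs_GvNat]
  split_ifs with hi
  · rw [h _ hi.2, one_mul]
  · rw [one_mul]

theorem gs_congr_GvNat (τ : ℕ → k) {y y' : ℕ → Bw n → k} {j : ℕ} (h : y' j = y j) :
    gs_GvNat τ y' j = gs_GvNat τ y j := by
  funext b
  simp only [gs_GvNat, h]

theorem opw_gs_GvNat (τ : ℕ → k) (y : ℕ → Bw n → k) {i j : ℕ} (h : i < j ∨ τ i = 1)
    (X : Mt n k) : opw (gs_GvNat τ y j) (3, i, 0) X = τ i • opw (y j) (3, i, 0) X := by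
  have h1 : (if i < j then τ i else 1) = τ i := by
    split_ifs with hi
    · rfl
    · exact (h.resolve_left hi).symm
  unfold opw
  rw [← smul_ap_FvNat]
  simp only [gs_GvNat, true_and, h1]

theorem colW_gs_GvNat {d : ℕ} {τ : ℕ → k} (hτ : ∀ i, τ i ≠ 0) (hd : ∀ i, d ≤ i → τ i = 1)
    (x : ∀ i, Rn m₁ m₂ i → k) (y : ℕ → Bw n → k) (j i : ℕ) (X : Mt n k) :
    colW d (fun i => τ i • x i) (gs_GvNat τ y) j i ((τ i)⁻¹ • X) = colW d x y j i X := by
  unfold colW
  split_ifs with h
  · rw [gs_eq_GvNat τ y 0 fun _ h => absurd h (Nat.not_lt_zero _)]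
    congr 1
    refine Finset.sum_congr rfl fun s _ => ?_
    beta_reduce
    rw [opw_smul_GvNat, smul_smul,
      Pi.smul_apply, smul_eq_mul, mul_right_comm, mul_inv_cancel₀ (hτ i), one_mul]
  · have h' : i < j + 1 ∨ τ i = 1 := by
      by_cases hi : i < d
      · exact Or.inl (by omega)
      · exact Or.inr (hd i (by omega))
    rw [opw_gs_GvNat τ y h', opw_smul_GvNat, smul_smul, mul_inv_cancel₀ (hτ i), one_smul]

theorem solG_scale_GvNat {d m c B : ℕ} {τ : ℕ → k} (hτ : ∀ i, τ i ≠ 0)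
    (hd : ∀ i, d ≤ i → τ i = 1) {x : ∀ i, Rn m₁ m₂ i → k} {y : ℕ → Bw n → k}
    (h : SolG n m₁ m₂ d m c B k x y) :
    SolG n m₁ m₂ d m c B k (fun i => τ i • x i) (gs_GvNat τ y) := by
  obtain ⟨w, h⟩ := h
  have h0 : gs_GvNat τ y 0 = y 0 := gs_eq_GvNat τ y 0 fun _ h => absurd h (Nat.not_lt_zero _)
  have hs : ∀ (i : ℕ) (a : k) (M : Mt n k), (τ i * a) • (τ i)⁻¹ • M = a • M := fun i a M => by
    rw [smul_smul, mul_right_comm, mul_inv_cancel₀ (hτ i), one_mul]
  have hs' : ∀ (i : ℕ) (a b : k), τ i * a * ((τ i)⁻¹ * b) = a * b := fun i a b => by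
    have := hτ i
    field_simp
  have hX : ∀ j ∈ Ico d (d + m), (τ j)⁻¹ • w.X j = w.X j := fun j hj => by
    rw [hd j (Finset.mem_Ico.1 hj).1, inv_one, one_smul]
  have h01 : ¬ ((0 : Fin 4) = 1) := by decide
  have h21 : ¬ ((2 : Fin 4) = 1) := by decide
  have h31 : ¬ ((3 : Fin 4) = 1) := by decide
  refine ⟨⟨fun j => (τ j)⁻¹ • w.X j, w.V,
    fun j r u v => if r = 1 then τ j * w.Q j r u v else w.Q j r u v,
    fun j e i s => τ i * w.c j e i s, w.ρ, w.q, fun e i s => τ i * w.γ e i s⟩,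
    fun j hj => ?_, fun j hj => ?_, h.dec, fun j hj e l => ?_, fun j hj => ?_, fun j hj e => ?_,
    fun j hj e i hi => ?_, fun j hj => ?_, fun e he => ?_, fun e he e' he' => ?_⟩
  · simp only
    rw [smul_pow, h.nil j hj, smul_zero]
  · simp only
    rw [hX j hj]
    exact h.tr j hj
  · simp only
    rw [hX j hj]
    exact h.eig j hj e l
  · simp only
    rw [h0, opw_smul_GvNat, h.self j hj]
  · simp only [if_neg h01]
    rw [brk_smul_FvNat, ap_smul_FvNat, h.ann j hj e, smul_zero]
  · simp only [if_neg h01, if_neg h21, if_neg h31, if_true, h0, opw_smul_GvNat, hs]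
    rw [smul_ap_FvNat, brk_smul_FvNat, ap_smul_FvNat, smul_smul, mul_inv_cancel₀ (hτ j), one_smul]
    exact h.cert j hj e i hi
  · simp only [colW_gs_GvNat hτ hd]
    rw [brk_smul_FvNat, h.br j hj, smul_comm]
    simp [gs_GvNat]
  · simp only [h0]
    rw [← h.un e he]
    congr 1
    · simp only [fnw_smul_GvNat, Pi.smul_apply, smul_eq_mul, hs']
    · exact Finset.sum_congr rfl fun i hi => by rw [hX i hi]
  · simp only [h0, fnw_smul_GvNat, hs']
    exact h.rk e he e' he'

theorem lose_scale_GvNat {d m c B D : ℕ} {τ : ℕ → k} (hτ : ∀ i, τ i ≠ 0)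
    (hd : ∀ i, d ≤ i → τ i = 1) (l : ℕ) :
    ∀ (j : ℕ) (x : ∀ i, Rn m₁ m₂ i → k) (y : ℕ → Bw n → k), (∀ i, j ≤ i → τ i = 1) →
      Lose (SolG n m₁ m₂ d m c B k) D l j x y →
      Lose (SolG n m₁ m₂ d m c B k) D l j (fun i => τ i • x i) (gs_GvNat τ y) := by
  induction l with
  | zero => exact fun j x y _ h => solG_scale_GvNat hτ hd h
  | succ l ih =>
    intro j x y hj h Q hQ hD
    obtain ⟨x', y', h1, h2, h3, h4⟩ := h Q hQ hD
    refine ⟨fun i => τ i • x' i, gs_GvNat τ y', fun i hi => congrArg (τ i • ·) (h1 i hi),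
      fun i hi => gs_congr_GvNat τ (h2 i hi), ?_, ih _ _ _ (fun i hi => hj i (by omega)) h4⟩
    beta_reduce
    rwa [hj j le_rfl, one_smul]

end scale

theorem natW_stmt : NatWStmt := by
  intro n m₁ m₂ d m c B
  refine ⟨?_, ?_, ?_⟩
  · rintro R S _ _ φ x y ⟨w, h⟩
    exact ⟨_, h.map_GvNat φ⟩
  · intro α K _ x y h
    choose w h using h
    exact ⟨⟨fun j => Matrix.of fun a b u => (w u).X j a b,
      fun j e l => Matrix.of fun a b u => (w u).V j e l a b,
      fun j r a b u => (w u).Q j r a b, fun j e i s u => (w u).c j e i s,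
      fun j e a u => (w u).ρ j e a, fun a i => Matrix.of fun a' b u => (w u).q a i a' b,
      fun e i s u => (w u).γ e i s⟩,
      SolX.of_map_GvNat (Pi.evalRingHom K) (fun _ _ h => funext h) h⟩
  · intro k _ D i l t hi ht x y h
    have hτ : ∀ j, (if j = i then t else 1) ≠ 0 := fun j => by
      split_ifs
      · exact ht
      · exact one_ne_zero
    refine ⟨_, _, fun j hj => ?_, fun j hj => ?_, ?_,
      lose_scale_GvNat (τ := fun j => if j = i then t else 1) hτ
        (fun j hj => if_neg (by omega)) l (i + 1) x y (fun j hj => if_neg (by omega)) h⟩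
    · simp only [if_neg hj.ne, one_smul]
    · exact gs_eq_GvNat _ y j fun j' hj' => if_neg (by omega)
    · simp only [if_true]

end Pool.Agent.MP_f68ac8_nt.Ev
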