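import Mathlib
import Pool.Agent.MP_f68ac8_nt.GvAlg
import Pool.Agent.MP_f68ac8_nt.EvGen

namespace Pool.Agent.MP_f68ac8_nt.Ev

open Finset Matrix

variable {n : ℕ} {Ω : Type} [Field Ω]

lemma tr_GvOrb (X a u : Mt n Ω) :
    ((a * X - X * a) * u).trace = -(a * (u * X - X * u)).trace := by
  rw [sub_mul, mul_sub, trace_sub, trace_sub, mul_assoc X a u, trace_mul_comm X (a * u),
    neg_sub, mul_assoc, mul_assoc]

lemma ss_GvOrb {X : Mt n Ω}
    (ind : ∀ P : Submodule Ω (Mt n Ω),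
      (∀ (l : ℤ) (v : Mt n Ω), v * X - X * v = (l : Ω) • v → v ∈ P) → ∀ A, A ∈ P)
    {w z : Mt n Ω} {l : Ω} (h1 : w = l • z - (z * X - X * z)) (h2 : w * X - X * w = l • w) :
    w = 0 := by
  refine Matrix.ext_iff_trace_mul_right.2 fun u => ?_
  rw [zero_mul, trace_zero]
  refine ind (LinearMap.ker (traceLinearMap _ Ω Ω ∘ₗ LinearMap.mulLeft Ω w)) (fun μ u hu => ?_) u
  change (w * u).trace = 0
  have e1 := tr_GvOrb X w u
  have e2 := tr_GvOrb X z u
  rw [h2, hu, Matrix.smul_mul, Matrix.mul_smul, trace_smul, trace_smul] at e1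
  rw [hu, Matrix.mul_smul, trace_smul] at e2
  have e3 : (w * u).trace = (l + μ) * (z * u).trace := by
    rw [h1, sub_mul, trace_sub, e2, Matrix.smul_mul, trace_smul, smul_eq_mul, smul_eq_mul]
    ring
  by_cases h : l + μ = 0
  · rw [e3, h, zero_mul]
  · refine (mul_eq_zero.1 ?_).resolve_left h
    rw [smul_eq_mul, smul_eq_mul] at e1
    linear_combination e1

theorem orb_stmt : OrbStmt := by
  intro n B Ω _ _ D X hX hV
  have ind : ∀ P : Submodule Ω (Mt n Ω),
      (∀ (l : ℤ) (v : Mt n Ω), v * X - X * v = (l : Ω) • v → v ∈ P) → ∀ A, A ∈ P := by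
    intro P hP A
    refine mem_single_EvGen LinearMap.id P (fun e => ?_) A
    obtain ⟨V, h1, h2⟩ := hV e
    rw [LinearMap.id_apply, h1]
    exact P.sum_mem fun l _ => hP l _ (h2 l)
  have hD : ∀ l : ℤ, D (l : Ω) = 0 := fun l => D.map_intCast l
  obtain ⟨Y, hY, _, ⟨N, rfl⟩, e⟩ := Submodule.mem_sup.1
    (ind (LinearMap.ker (ad_EvGen X) ⊔ LinearMap.range (ad_EvGen X)) (fun l v hv => by
      by_cases h : (l : Ω) = 0
      · refine Submodule.mem_sup_left ?_
        rw [LinearMap.mem_ker, ad_apply_EvGen, hv, h, zero_smul]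
      · refine Submodule.mem_sup_right ⟨(l : Ω)⁻¹ • v, ?_⟩
        rw [map_smul, ad_apply_EvGen, hv, smul_smul, inv_mul_cancel₀ h, one_smul])
      (dm_EvGen D X))
  rw [LinearMap.mem_ker, ad_apply_EvGen, sub_eq_zero] at hY
  rw [ad_apply_EvGen] at e
  have hc : ∀ v : Mt n Ω, v ∈ LinearMap.ker (ad_EvGen Y) := by
    refine ind _ fun l v hv => ?_
    rw [LinearMap.mem_ker, ad_apply_EvGen]
    have e1 := congrArg (dm_EvGen D) hv
    rw [map_sub, dm_mul_EvGen, dm_mul_EvGen, dm_smul_EvGen, hD, zero_smul, zero_add, ← e] at e1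
    refine ss_GvOrb ind (z := dm_EvGen D v + (v * N - N * v)) (l := l) ?_ ?_
    · rw [smul_add, ← e1, smul_sub, ← Matrix.smul_mul, ← Matrix.mul_smul, ← hv]
      noncomm_ring
    · have e2 : v * Y * X = v * X * Y := by rw [mul_assoc, hY, mul_assoc]
      have e3 : X * (Y * v) = Y * (X * v) := by rw [← mul_assoc, ← hY, mul_assoc]
      rw [smul_sub, ← Matrix.smul_mul, ← Matrix.mul_smul, ← hv, sub_mul (v * Y),
        mul_sub X (v * Y), e2, e3]
      noncomm_ring
  obtain ⟨c, rfl⟩ : Y ∈ Set.range (Matrix.scalar (Fin n)) :=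
    mem_range_scalar_iff_commute_single'.2 fun i j => sub_eq_zero.1 (hc (single i j 1))
  have e2 : (dm_EvGen D X).trace = 0 := by
    rw [← D.map_zero, ← hX]
    simp only [Matrix.trace, Matrix.diag, dm_apply_EvGen, map_sum]
  rw [← e, trace_add, trace_sub, trace_mul_comm N X, sub_self, add_zero, scalar_apply,
    trace_diagonal, Finset.sum_const, Finset.card_univ, Fintype.card_fin, nsmul_eq_mul,
    mul_eq_zero] at e2
  refine ⟨N, ?_⟩
  change dm_EvGen D X = _
  rcases e2 with h | h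
  · obtain rfl : n = 0 := by exact_mod_cast h
    exact Subsingleton.elim _ _
  · rw [← e, h, map_zero, zero_add]

end Pool.Agent.MP_f68ac8_nt.Ev
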