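import Mathlib
import Pool.Agent.MP_f68ac8_nt.GvAux
import Pool.Agent.MP_f68ac8_nt.EvRec
import Pool.Agent.MP_f68ac8_nt.EvR3

/-! The sum of the tame symbols for a character with cyclotomic wild ramification. -/

namespace Pool.Agent.MP_f68ac8_nt.Ev

open NumberField
open Pool.Agent.MP_14ad9d_nt.Full (Pr ord Tm tame Phi NearAt)
open Pool.Agent.MP_14ad9d_nt
open scoped Pointwise Topology

section
variable {E Γ : Type} [Field E] [LinearOrderedCommGroupWithZero Γ] (w : Valuation E Γ) {r : Γ}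

lemma one_GvPhi (hr : r < 1) {x : E} (hx : w (x - 1) ≤ r) : w x = 1 := by
  have h := w.map_one_add_of_lt (hx.trans_lt hr)
  rwa [add_sub_cancel] at h

lemma mul_GvPhi (hr : r < 1) {x y : E} (hx : w (x - 1) ≤ r) (hy : w (y - 1) ≤ r) :
    w (x * y - 1) ≤ r := by
  have e : x * y - 1 = x * (y - 1) + (x - 1) := by ring
  rw [e]
  refine w.map_add_le ?_ hx
  rwa [map_mul, one_GvPhi w hr hx, one_mul]

lemma div_GvPhi (hr : r < 1) {x y : E} (hx : w (x - 1) ≤ r) (hy : w (y - 1) ≤ r) :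
    w (x / y - 1) ≤ r := by
  have h1 := one_GvPhi w hr hy
  have h0 : y ≠ 0 := fun h => by simp [h] at h1
  have e : x / y - 1 = ((x - 1) - (y - 1)) / y := by field_simp; ring
  rw [e, map_div₀, h1, div_one]
  exact w.map_sub_le hx hy

lemma pow_GvPhi (hr : r < 1) {x : E} (hx : w (x - 1) ≤ r) (n : ℕ) : w (x ^ n - 1) ≤ r := by
  induction n with
  | zero => simp
  | succ n ih => rw [pow_succ]; exact mul_GvPhi w hr ih hx

lemma prod_GvPhi (hr : r < 1) {ι : Type} (s : Finset ι) (x : ι → E)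
    (hx : ∀ i ∈ s, w (x i - 1) ≤ r) : w (∏ i ∈ s, x i - 1) ≤ r := by
  classical
  induction s using Finset.induction_on with
  | empty => simp
  | insert a s ha ih =>
    rw [Finset.prod_insert ha]
    exact mul_GvPhi w hr (hx a (Finset.mem_insert_self a s))
      (ih fun i hi => hx i (Finset.mem_insert_of_mem hi))

end

section
variable {E : Type} [Field E] [NumberField E] {p : ℕ} [Fact p.Prime] {ζ : E}

lemma Phi_prod_GvPhi (hl : 2 < p) (hζ : IsPrimitiveRoot ζ p) {α : E} (hα : α ≠ 0) {ι : Type}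
    (s : Finset ι) (b : ι → E) (hb : ∀ i, b i ≠ 0) (n : ι → ℕ) :
    Phi p ζ α (∏ i ∈ s, b i ^ n i) = ∑ i ∈ s, Phi p ζ α (b i) * n i := by
  classical
  induction s using Finset.induction_on with
  | empty =>
    have h := Full.Phi_mul_right hl hζ hα one_ne_zero one_ne_zero
    rw [mul_one] at h
    simpa using h
  | insert a s ha ih =>
    rw [Finset.prod_insert ha, Finset.sum_insert ha,
      Full.Phi_mul_right hl hζ hα (pow_ne_zero _ (hb a))
        (Finset.prod_ne_zero_iff.2 fun i _ => pow_ne_zero _ (hb i)), ih,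
      Full.Phi_swap hl hζ (pow_ne_zero _ (hb a)) hα, Full.R0Aux.Phi_pow_left hl hζ (hb a) hα,
      Full.Phi_swap hl hζ hα (hb a)]
    ring

open Classical in
lemma approx_GvPhi (hζ : IsPrimitiveRoot ζ p) (v : Pr E) :
    ∃ b : E, b ≠ 0 ∧ ∀ w : Pr E, ¬ Tm p w →
      w.valuation E (b / (if w = v then ζ else 1) - 1) ≤ w.valuation E (1 - ζ) ^ p := by
  have z1 : 1 - ζ ≠ 0 := sub_ne_zero.2 (hζ.ne_one (Fact.out : p.Prime).one_lt).symm
  obtain ⟨b, hb, h⟩ := Full.R0Aux.wa' (Full.finite_wild (l := p) (E := E)).toFinset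
    (fun w => if w = v then ζ else 1) fun w => -ord w ((1 - ζ) ^ p)
  refine ⟨b, hb, fun w hw => ?_⟩
  have h1 := h w ((Set.Finite.mem_toFinset _).2 hw)
  have h2 : w.valuation E (if w = v then ζ else 1) = 1 := by
    split_ifs
    · have h : w.valuation E ζ ^ p = 1 := by rw [← map_pow, hζ.pow_eq_one, map_one]
      exact (pow_eq_one_iff_left (Fact.out : p.Prime).ne_zero).1 h
    · exact map_one _
  have h0 : (if w = v then ζ else 1) ≠ 0 := fun h => by simp [h] at h2
  rw [div_sub_one h0, map_div₀, h2, div_one, ← map_pow, Full.val_eq_exp w (pow_ne_zero p z1)]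
  exact h1

end

theorem wphi_stmt (p : ℕ) [Fact p.Prime] (hK : KKStmt p) (hB : LocBStmt p) (h3 : R3Stmt p) :
    WPhiStmt p := by
  classical
  intro M _ _ hM
  have hp : p.Prime := Fact.out
  set ζ : M := ⟨xi p, hM.mem⟩ with hζdef
  have hζ : IsPrimitiveRoot ζ p := prim_EvRec M hM.mem
  have hζ0 : ζ ≠ 0 := hζ.ne_zero hp.ne_zero
  choose b hb0 hb using approx_GvPhi hζ
  refine ⟨fun α v => Phi p ζ α (b v), fun β hβ c hc α hα hord => ?_⟩
  have : Finite {v : Pr M // ¬ Tm p v} := (Full.finite_wild (l := p) (E := M)).to_subtype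
  let : Fintype {v : Pr M // ¬ Tm p v} := Fintype.ofFinite _
  have hβ' : (β : Qb) ≠ 0 := fun h => hβ (Subtype.ext h)
  have hxi : xi p ≠ 0 := fun h => hζ0 (Subtype.ext h)
  have hP0 : ∏ v : {v : Pr M // ¬ Tm p v}, b v ^ (c v).val ≠ 0 :=
    Finset.prod_ne_zero_iff.2 fun i _ => pow_ne_zero _ (hb0 i)
  have hwild : ∀ w : Pr M, ¬ Tm p w →
      ord w (1 - ζ) = 1 ∧ NearAt p ζ p w (β / ζ ^ (c w).val) := by
    intro w hw
    obtain ⟨Q, hQ, hwQ, hu⟩ := hc w hw
    have hpQ : (p : OQ) ∈ Q := by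
      rw [← nat_under_EvRec M, ← hwQ]
      exact not_not.mp hw
    obtain ⟨h1, h2⟩ := hB M hM Q w hQ hpQ hwQ
    have hx0 : β / ζ ^ (c w).val ≠ 0 := div_ne_zero hβ (pow_ne_zero _ hζ0)
    refine ⟨h1, h2 _ _ hx0 (proot_pow p _) fun u huQ huM => ?_⟩
    have hfix := (IntermediateField.mem_fixingSubgroup_iff _ _).mp huM
    have hcy := cyc_fix_EvRec M hM.mem huM
    rw [← hK.2.2.2.2.2.1 _ u (fun h => hx0 (Subtype.ext h)) (hfix _ (Subtype.property _))]
    have e : ((β / ζ ^ (c w).val : M) : Qb) = (β : Qb) * xi p ^ (-((c w).val : ℤ)) := by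
      rw [zpow_neg, zpow_natCast, ← div_eq_mul_inv]
      push_cast
      rfl
    rw [e, hK.2.1 _ _ u hβ' (zpow_ne_zero _ hxi) (hfix _ β.2)
      (by rw [map_zpow₀, hfix _ hM.mem]) hcy, hK.2.2.1 _ _ u hxi (hfix _ hM.mem) hcy,
      hu u huQ huM]
    push_cast
    rw [ZMod.natCast_zmod_val]
    ring
  have h0 := h3 M ζ hM.two hM.deg hζ (fun v hv => (hwild v hv).1) α
    (β / ∏ v : {v : Pr M // ¬ Tm p v}, b v ^ (c v).val) hα (div_ne_zero hβ hP0) hord
    (fun w hw => by
      obtain ⟨δ, hδ0, hδ⟩ := (hwild w hw).2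
      have hr : w.valuation M (1 - ζ) ^ p < 1 :=
        pow_lt_one₀ zero_le (Full.val_one_sub_lt hζ hw) hp.ne_zero
      have h1 := prod_GvPhi (w.valuation M) hr (Finset.univ : Finset {v : Pr M // ¬ Tm p v})
        (fun v => (b v / (if w = v then ζ else 1)) ^ (c v).val)
        fun v _ => pow_GvPhi _ hr (hb v w hw) _
      have e1 : ∏ v : {v : Pr M // ¬ Tm p v}, (if w = v then ζ else 1) ^ (c v).val =
          ζ ^ (c w).val := by
        rw [Finset.prod_eq_single (⟨w, hw⟩ : {v : Pr M // ¬ Tm p v})]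
        · simp
        · intro v _ hv
          rw [if_neg fun h => hv (Subtype.ext h.symm), one_pow]
        · simp
      simp only [div_pow, Finset.prod_div_distrib, e1] at h1
      refine ⟨δ, hδ0, ?_⟩
      have h2 := div_GvPhi _ hr hδ h1
      have e2 : β / ζ ^ (c w).val / δ ^ p /
          ((∏ v : {v : Pr M // ¬ Tm p v}, b v ^ (c v).val) / ζ ^ (c w).val) =
          β / (∏ v : {v : Pr M // ¬ Tm p v}, b v ^ (c v).val) / δ ^ p := by
        have := pow_ne_zero (c w).val hζ0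
        field_simp
      rwa [e2] at h2)
  rw [Full.R0Aux.Phi_div_right hM.two hζ hα hβ hP0, sub_eq_zero,
    Phi_prod_GvPhi hM.two hζ hα _ (fun v : {v : Pr M // ¬ Tm p v} => b v) (fun v => hb0 v)] at h0
  rw [h0, finsum_eq_sum_of_fintype]
  exact Finset.sum_congr rfl fun v _ => by rw [ZMod.natCast_zmod_val]

end Pool.Agent.MP_f68ac8_nt.Ev
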