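import Mathlib
import Pool.Agent.MP_f68ac8_nt.GvAlg
import Pool.Agent.MP_f68ac8_nt.FvRank

namespace Pool.Agent.MP_f68ac8_nt.Ev

open Matrix

/-- A space of linear maps of dimension at least `N` has a dual system of size `N` made of
evaluations. -/
theorem dual_GvRank {k U W : Type} [Field k] [AddCommGroup U] [Module k U] [AddCommGroup W]
    [Module k W] (H : Submodule k (U →ₗ[k] W)) [Module.Finite k H] (N : ℕ) :
    N ≤ Module.finrank k H → ∃ (u : ℕ → U) (l : ℕ → W →ₗ[k] k) (φ : ℕ → U →ₗ[k] W),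
      (∀ e, φ e ∈ H) ∧ ∀ e < N, ∀ e' < N, l e' (φ e (u e')) = if e = e' then 1 else 0 := by
  induction N with
  | zero =>
    intro _
    exact ⟨fun _ => 0, fun _ => 0, fun _ => 0, fun _ => H.zero_mem, fun e he => by omega⟩
  | succ N ih =>
    intro hN
    obtain ⟨u, l, φ, hφ, h⟩ := ih (by omega)
    let ev : H →ₗ[k] (Fin N → k) :=
      LinearMap.pi fun e => l e ∘ₗ LinearMap.applyₗ (u e) ∘ₗ H.subtype
    have hker : LinearMap.ker ev ≠ ⊥ := LinearMap.ker_ne_bot_of_finrank_lt (by simp; omega)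
    obtain ⟨ψ, hψ, hne⟩ := (Submodule.ne_bot_iff _).1 hker
    have hψ' : ∀ e < N, l e (ψ.1 (u e)) = 0 := fun e he => congrFun hψ ⟨e, he⟩
    obtain ⟨u₀, hu₀⟩ : ∃ u₀, ψ.1 u₀ ≠ 0 := by
      by_contra hc
      push Not at hc
      exact hne (Subtype.ext (LinearMap.ext hc))
    obtain ⟨l₁, hl₁⟩ : ∃ l₁ : W →ₗ[k] k, l₁ (ψ.1 u₀) ≠ 0 := by
      by_contra hc
      push Not at hc
      exact hu₀ ((Module.forall_dual_apply_eq_zero_iff k _).1 hc)
    obtain ⟨l₀, hl₀⟩ : ∃ l₀ : W →ₗ[k] k, l₀ (ψ.1 u₀) = 1 :=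
      ⟨(l₁ (ψ.1 u₀))⁻¹ • l₁, by simp [hl₁]⟩
    refine ⟨Function.update u N u₀, Function.update l N l₀,
      fun e => if e = N then ψ.1 else φ e - l₀ (φ e u₀) • ψ.1, fun e => ?_, fun e he e' he' => ?_⟩
    · beta_reduce
      split_ifs
      · exact ψ.2
      · exact H.sub_mem (hφ e) (H.smul_mem _ ψ.2)
    · by_cases h1 : e = N <;> by_cases h2 : e' = N
      · subst h1 h2
        simp [hl₀]
      · subst h1
        simp [Function.update_of_ne h2, hψ' e' (by omega), Ne.symm h2]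
      · subst h2
        simp [h1, hl₀]
      · simp [h1, Function.update_of_ne h2, hψ' e' (by omega), h e (by omega) e' (by omega)]

theorem rankW_stmt : RankWStmt := by
  intro k Δ V A O I _ _ _ _ _ _ _ _ _ _ _ Ad μ D hc hm hD h1 o ho W hW hinv U hU c hcU
  classical
  let σ : Representation k Δ W := Ad.subrepresentation W fun g A hA => hW g A hA
  have hσ : ∀ g (x : W), (σ g x : V) = Ad g x := fun g x => rfl
  have h0 : σ.invariants = ⊥ := by
    rw [eq_bot_iff]
    intro x hx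
    exact Subtype.ext (hinv x x.2 fun δ => by rw [← hσ, hx δ])
  have hd := dim_FvRank σ μ hc h1 h0
  set H := ((rho_EvRank k μ).linHom σ).invariants with hH
  have hWV : Module.finrank k W ≤ Module.finrank k V := Submodule.finrank_le W
  have hup := (upper_FvRank (O := O) σ).trans (Nat.mul_le_mul hD hWV)
  have hlo := lower_FvRank σ hc o ho (fun i => (U i).comap W.subtype)
    fun i X hX δ hδ => Subtype.ext ((hU i).2 X hX δ hδ)
  rw [Finset.sum_congr rfl fun i _ => (Submodule.comapSubtypeEquivOfLe (hU i).1).finrank_eq] at hlo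
  have hle : c + 1 ≤ Module.finrank k H := by
    by_contra hlt
    refine hm (Module.finrank k ((perm_FvRank k Δ O).linHom σ).invariants - Module.finrank k H)
      (by omega) (by omega) ?_
    rw [Nat.cast_sub (by omega), hd, sub_self]
  obtain ⟨u, l, φ, hφ, h⟩ := dual_GvRank H (c + 1) hle
  choose l' hl' using fun e => LinearMap.exists_extend (l e)
  refine ⟨u, l', fun X hX e he => ?_⟩
  have hs : {Y | ∃ (δ : Δ) (i : Unit), Y = Ad δ ((fun _ => X) i)} = Set.range fun γ => Ad γ X := by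
    ext Y
    exact ⟨fun ⟨δ, _, h⟩ => ⟨δ, h.symm⟩, fun ⟨δ, h⟩ => ⟨δ, (), h.symm⟩⟩
  obtain ⟨κ, hκ⟩ := avg_EvRank Ad μ hc (fun _ : Unit => X) (W.subtype ∘ₗ φ e)
    (fun v => hs ▸ hX (φ e v).2) (fun g v => by
      have := LinearMap.congr_fun (hφ e g) v
      exact congrArg Subtype.val this)
  refine ⟨κ (), fun e' he' => ?_⟩
  have h2 := hκ (u e')
  rw [Fintype.sum_unique] at h2
  rw [← h (e := e) (by omega) e' (by omega), ← hl' e']
  exact congrArg (l' e') h2.symm

end Pool.Agent.MP_f68ac8_nt.Ev
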