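import Mathlib
import Pool.Agent.MP_f68ac8_nt.GvAux
import Pool.Agent.MP_f68ac8_nt.FvRec

/-! The reciprocity law in terms of Galois elements, with wild terms. -/

namespace Pool.Agent.MP_f68ac8_nt.Ev

open NumberField
open Pool.Agent.MP_14ad9d_nt.Full (Pr ord Tm tame Phi NearAt)
open scoped Pointwise Topology

theorem recW_stmt (p : ℕ) [Fact p.Prime] (hK : KKStmt p) (hA : LocAStmt p) (hKum : KumStmt p)
    (hW : WildStmt) (hT : LocUStmt p) (hP : WPhiStmt p) : RecWStmt p := by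
  classical
  intro M _ _ hM G hMG m hm ι _ t htG ht Y _ Q s hQs hcov
  have hp : p.Prime := Fact.out
  obtain ⟨L0, hL0⟩ := hP M hM
  have hy : ∀ v : {v : Pr M // ¬ Tm p v}, ∃ y, v.1.asIdeal = (Q y).under (𝓞 M) := by
    intro v
    obtain ⟨R, hR, hvR⟩ := over_EvRec M v.1
    have hpR : (p : OQ) ∈ R := by
      rw [← nat_under_EvRec M, ← hvR]
      exact not_not.mp v.2
    obtain ⟨y, e⟩ := hcov R hR hpR
    exact ⟨y, hvR.trans e⟩
  choose yy hyy using hy
  haveI : Finite {v : Pr M // ¬ Tm p v} :=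
    (Pool.Agent.MP_14ad9d_nt.Full.finite_wild (l := p) (E := M)).to_subtype
  haveI := Fintype.ofFinite {v : Pr M // ¬ Tm p v}
  refine ⟨fun α y => if h : (α : Qb) ∈ M then m * ∑ v with yy v = y, L0 ⟨α, h⟩ v.1 else 0, ?_⟩
  intro J _ l P σ τ hl hj φ hφ hφ1 hφQ hun α hα0 hαM hα
  obtain ⟨β, hβ0, hβ⟩ := hKum M hM.mem φ hφ hφ1
  have hβ0' : (β : Qb) ≠ 0 := fun h => hβ0 (Subtype.ext h)
  have hin : ∀ j, ∀ u ∈ (P j).inertia GQ, u ∈ M.fixingSubgroup := fun j u hu => (hj j).2.2.1 hu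
  -- the element `α` as an integer of `M`
  let a : 𝓞 M := ⟨⟨α, hαM⟩, (isIntegral_algHom_iff (algebraMap M Qb).toIntAlgHom
    (algebraMap M Qb).injective).mp α.isIntegral_coe⟩
  have ha : algebraMap (𝓞 M) OQ a = α := rfl
  have ha0 : a ≠ 0 := fun h => hα0 (by rw [← ha, h, map_zero])
  have ha0' : (a : M) ≠ 0 := by simpa using ha0
  -- behaviour at the other primes
  have hord : ∀ (Q : Ideal OQ) (w : Pr M), Q.IsMaximal → w.asIdeal = Q.under (𝓞 M) →
      (∀ j, ∀ g ∈ G, Q ≠ g • P j) → ord w (a : M) = 0 := by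
    intro Q w hQ hw hQl
    rw [Pool.Agent.MP_14ad9d_nt.Full.ord_eq_zero_iff w ha0, hw, Ideal.mem_comap, ha]
    intro h
    obtain ⟨j, g, hg, e⟩ := hα Q hQ h
    exact hQl j g hg e
  have hfix : ∀ Q : Ideal OQ, Q.IsMaximal → (p : OQ) ∉ Q → (∀ j, ∀ g ∈ G, Q ≠ g • P j) →
      ∀ u ∈ Q.inertia GQ, u ∈ M.fixingSubgroup → u (proot p (β : Qb)) = proot p (β : Qb) := by
    intro Q hQ hpQ hQl u hu huM
    rw [← hK.2.2.2.2.2.1 _ u hβ0' ((IntermediateField.mem_fixingSubgroup_iff _ _).mp huM _ β.2),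
      hβ u huM]
    exact hun Q hQ hpQ hQl u hu huM
  have hwild : ∀ v : Pr M, ¬ Tm p v → ∃ Q : Ideal OQ, Q.IsMaximal ∧
      v.asIdeal = Q.under (𝓞 M) ∧ ∀ j, ∀ g ∈ G, Q ≠ g • P j := by
    intro v hv
    obtain ⟨Q, hQ, hvQ⟩ := over_EvRec M v
    have hpQ : (p : OQ) ∈ Q := by
      rw [← nat_under_EvRec M, ← hvQ]
      exact not_not.mp hv
    exact ⟨Q, hQ, hvQ, fun j g _ e => not_mem_of_coprime hpQ
      ((Nat.coprime_primes hp (hj j).1).mpr (hj j).2.1.symm)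
      (e ▸ smul_nat_EvRec g (hj j).2.2.2.2.1)⟩
  have hPhi : m * Phi p (⟨xi p, hM.mem⟩ : M) (a : M) β =
      ∑ y, (if h : (α : Qb) ∈ M then m * ∑ v with yy v = y, L0 ⟨α, h⟩ v.1 else 0) * φ (s y) := by
    rw [hL0 β hβ0 (fun v => if h : Tm p v then 0 else φ (s (yy ⟨v, h⟩))) (fun v hv => ?_) _ ha0'
      fun v hv => ?_, finsum_eq_sum_of_fintype, ← Finset.sum_fiberwise (g := yy), Finset.mul_sum]
    · refine Finset.sum_congr rfl fun y _ => ?_
      rw [dif_pos hαM, mul_assoc, Finset.sum_mul]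
      congr 1
      refine Finset.sum_congr rfl fun v hv => ?_
      rw [dif_neg v.2, ← (Finset.mem_filter.1 hv).2]
      rfl
    · refine ⟨Q (yy ⟨v, hv⟩), (hQs _).1, hyy ⟨v, hv⟩, fun u hu huM => ?_⟩
      rw [hβ u huM, hφQ _ u hu huM, dif_neg hv, mul_comm]
    · obtain ⟨Q, hQ, hvQ, hQl⟩ := hwild v hv
      rw [hord Q v hQ hvQ hQl]
      exact dvd_zero _
  -- the primes below the translates
  have hV : ∀ x : J × ι, ∃ w : {v : Pr M // Tm p v},
      w.1.asIdeal = (t x.2 • P x.1).under (𝓞 M) := by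
    rintro ⟨j, i⟩
    obtain ⟨a1, a2, a3, a4, a5, -⟩ := hj j
    have := smul_max_EvRec (t i) a4
    obtain ⟨w, hw⟩ := pr_EvRec M this
    refine ⟨⟨w, ?_⟩, hw⟩
    unfold Tm
    rw [hw, nat_under_EvRec M]
    exact not_mem_of_coprime (smul_nat_EvRec (t i) a5) ((Nat.coprime_primes a1 hp).mpr a2)
  choose W hV using hV
  have hVeq : ∀ x y, W x = W y ↔ (t x.2 • P x.1).under (𝓞 M) = (t y.2 • P y.1).under (𝓞 M) :=
    fun x y => by
      rw [← hV, ← hV]
      exact ⟨fun h => by rw [h], fun h => Subtype.ext (IsDedekindDomain.HeightOneSpectrum.ext h)⟩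
  have hk : ∀ j, ∃ k, orderOf (res M (σ j)) * k = m := fun j => by
    obtain ⟨k, hk⟩ := orderOf_dvd_of_pow_eq_one (x := res M (σ j)) (n := m)
      (by rw [← map_pow, ker_FvRec]; exact hm _)
    exact ⟨k, hk.symm⟩
  choose k hk using hk
  have hfib : ∀ y, ∑ x with W x = W y, (k x.1 : ZMod p) = m := by
    rintro ⟨j, i⟩
    obtain ⟨a1, a2, a3, a4, a5, a6, a7, -⟩ := hj j
    obtain ⟨b1, b2, -⟩ := hW.2.2.2 M (l j) (P j) (σ j) a1 a4 a5 a6 a3
    rw [Finset.sum_filter, Fintype.sum_prod_type, Finset.sum_eq_single j _ (by simp),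
      ← Finset.sum_filter]
    · simp only [Finset.sum_const, nsmul_eq_mul]
      rw [fibre_FvRec (res M) G t htG (by simpa only [ker_FvRec] using ht) a7 i _ fun i' => by
        rw [Finset.mem_filter, hVeq, under_FvRec M a4 b1 b2, and_iff_right (Finset.mem_univ _)],
        ← Nat.cast_mul, hk]
    · refine fun j' _ hne => Finset.sum_eq_zero fun i' _ => if_neg fun e => ?_
      obtain ⟨c1, -, -, -, c5, -⟩ := hj j'
      have := smul_max_EvRec (t i) a4
      have h1 : (l j' : OQ) ∈ t i • P j := by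
        rw [← nat_under_EvRec M, ← (hVeq _ _).1 e, nat_under_EvRec M]
        exact smul_nat_EvRec _ c5
      exact not_mem_of_coprime (smul_nat_EvRec (t i) a5)
        ((Nat.coprime_primes a1 c1).mpr (hl.ne hne.symm)) h1
  have hsupp : Function.support (fun v : {v : Pr M // Tm p v} =>
      tame p (⟨xi p, hM.mem⟩ : M) v.1 (a : M) β) ⊆ (Finset.univ.image W : Finset _) := by
    intro v hv
    obtain ⟨Q, hQ, hvQ⟩ := over_EvRec M v.1
    have hpQ : (p : OQ) ∉ Q := by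
      rw [← nat_under_EvRec M, ← hvQ]
      exact v.2
    by_cases hQl : ∀ j, ∀ g ∈ G, Q ≠ g • P j
    · refine (hv ?_).elim
      refine Pool.Agent.MP_14ad9d_nt.Full.tame_unr hM.two (prim_EvRec M hM.mem) v.2 ha0' hβ0
        ?_ (hA M Q v.1 hQ hvQ _ β hβ0 (proot_pow p _) (hfix Q hQ hpQ hQl))
      rw [hord Q v.1 hQ hvQ hQl]
      exact dvd_zero _
    · push Not at hQl
      obtain ⟨j, g, hg, rfl⟩ := hQl
      obtain ⟨i, hi, -⟩ := ht g hg
      rw [Finset.coe_image]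
      refine ⟨(j, i), by simp, Subtype.ext (IsDedekindDomain.HeightOneSpectrum.ext ?_)⟩
      rw [hV, hvQ, ← under_smul_EvRec M (conj_mem_EvRec M (t i) hi), ← mul_smul]
      congr 2
      group
  have key : ∑ x : J × ι, (k x.1 : ZMod p) * tame p (⟨xi p, hM.mem⟩ : M) (W x).1 (a : M) β =
      m * Phi p (⟨xi p, hM.mem⟩ : M) (a : M) β := by
    rw [Phi, finsum_eq_sum_of_support_subset _ hsupp,
      ← Finset.sum_fiberwise_of_maps_to (t := Finset.univ.image W) (g := W)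
      fun x hx => Finset.mem_image_of_mem W hx, Finset.mul_sum]
    refine Finset.sum_congr rfl fun w hw => ?_
    obtain ⟨y, -, rfl⟩ := Finset.mem_image.1 hw
    rw [← hfib y, Finset.sum_mul]
    exact Finset.sum_congr rfl fun x hx => by rw [(Finset.mem_filter.1 hx).2]
  rw [← hPhi, ← key, Fintype.sum_prod_type]
  refine Finset.sum_congr rfl fun j _ => Finset.sum_congr rfl fun i _ => ?_
  obtain ⟨a1, a2, a3, a4, a5, a6, -, a7, a8⟩ := hj j
  rw [term_FvRec hK hW hT M hM.mem hM.two a1 a2 a3 a4 a5 a6 a7 a8 (hm _) (hk j) (t i) _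
    (hV (j, i)) ha0' hβ0, hβ _ (conj_mem_EvRec M _ (hin j _ a7)),
    hβ _ (conj_mem_EvRec M _ (hm _))]
  rfl

end Pool.Agent.MP_f68ac8_nt.Ev
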