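import Mathlib
import Pool.Agent.MP_f68ac8_nt.GvAux
import Pool.Agent.MP_f68ac8_nt.FvSmall
import Pool.Agent.MP_f68ac8_nt.Psi

/-! Tame inertia of lifts over the `p`-adic integers. -/

namespace Pool.Agent.MP_f68ac8_nt.Ev

variable {p : ℕ} [hp : Fact p.Prime]

variable (p) in
/-- the inclusion of the `p`-adic integers into the integers of the algebraic closure -/
noncomputable def j_GvSmall : ℤ_[p] →+* Zbar p :=
  ((algebraMap ℚ_[p] (PadicAlgCl p)).comp PadicInt.Coe.ringHom).codRestrict (Zbar p) fun x =>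
    (Valuation.mem_valuationSubring_iff _ _).mpr (by
      change ‖algebraMap ℚ_[p] (PadicAlgCl p) x‖ ≤ 1
      rw [norm_algebraMap']
      exact x.2)

lemma coe_GvSmall (x : ℤ_[p]) :
    (j_GvSmall p x : PadicAlgCl p) = algebraMap ℚ_[p] (PadicAlgCl p) x := rfl

lemma inj_GvSmall : Function.Injective (j_GvSmall p) := fun x y h => by
  have h1 := congrArg (fun z : Zbar p => (z : PadicAlgCl p)) h
  simp only [coe_GvSmall] at h1
  exact Subtype.ext ((algebraMap ℚ_[p] (PadicAlgCl p)).injective h1)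

lemma cont_GvSmall : Continuous (j_GvSmall p) :=
  Continuous.subtype_mk ((continuous_algebraMap ℚ_[p] (PadicAlgCl p)).comp
    continuous_subtype_val) _

lemma res_GvSmall [CharP (Fbar p) p] (x : ℤ_[p]) :
    IsLocalRing.residue (Zbar p) (j_GvSmall p x) =
      ZMod.castHom (dvd_refl p) (Fbar p) (PadicInt.toZMod x) := by
  have h1 : x - ((PadicInt.toZMod x).val : ℤ_[p]) ∈
      RingHom.ker (PadicInt.toZMod : ℤ_[p] →+* ZMod p) := by
    rw [RingHom.mem_ker, map_sub, map_natCast, ZMod.natCast_zmod_val, sub_self]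
  rw [PadicInt.ker_toZMod, PadicInt.maximalIdeal_eq_span_p, Ideal.mem_span_singleton] at h1
  obtain ⟨y, hy⟩ := h1
  rw [sub_eq_iff_eq_add] at hy
  conv_lhs => rw [hy]
  rw [map_add, map_add, map_mul, map_mul, map_natCast, map_natCast, map_natCast, map_natCast,
    CharP.cast_eq_zero, zero_mul, zero_add, ZMod.castHom_apply, ZMod.natCast_val]

theorem smallW_stmt (p : ℕ) [Fact p.Prime] (hS : SmallStmt p) : SmallWStmt p := by
  intro n F _ _ G hG r ρ hn hr hL P g hI hP
  rcases Nat.eq_zero_or_pos n with rfl | hn0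
  · exact ⟨1, 1, Subsingleton.elim _ _⟩
  have := charP_Fbar (p := p)
  have hnp : n < p := by nlinarith
  set j := j_GvSmall p with hj
  let ψ : ZMod p →+* Fbar p := ZMod.castHom (dvd_refl p) (Fbar p)
  let r' : G →* GL (Fin n) (Fbar p) := (Matrix.GeneralLinearGroup.map ψ).comp r
  have hv : Continuous fun g => (ρ g).val := Units.continuous_val.comp ρ.continuous
  have hi : Continuous fun g => (ρ g)⁻¹.val := Units.continuous_coe_inv.comp ρ.continuous
  let ρ' : G →ₜ* GL (Fin n) (Zbar p) :=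
    { toMonoidHom := (Matrix.GeneralLinearGroup.map j).comp ρ.toMonoidHom
      continuous_toFun := Units.continuous_iff.mpr
        ⟨hv.matrix_map cont_GvSmall, hi.matrix_map cont_GvSmall⟩ }
  have e0 : ∀ g, (ρ' g).val = j.mapMatrix (ρ g).val := fun g => rfl
  have e1 : ∀ g, (r' g).val = ψ.mapMatrix (r g).val := fun g => rfl
  obtain ⟨c, hc⟩ := (hS n F G hG r' ρ' hnp (fun g hg => by
      obtain ⟨c, e⟩ := hr g hg
      exact ⟨ψ c, by rw [e1, e, Four.map_sm, map_one]⟩)
    (fun g => by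
      rw [e0, e1, ← hL g]
      ext a b
      exact res_GvSmall _)
    ⟨⊥, inferInstance, by rw [IntermediateField.finrank_bot]; omega, fun g a b =>
      IntermediateField.algebraMap_mem _ _⟩).2 P g hI hP
  have h1 := (Matrix.isNilpotent_trace_of_isNilpotent hc).eq_zero
  rw [Matrix.trace_sub, Matrix.trace_smul, Matrix.trace_one, Fintype.card_fin, e0,
    RingHom.mapMatrix_apply, ← AddMonoidHom.map_trace, sub_eq_zero, smul_eq_mul] at h1
  have hu : IsUnit (n : ℤ_[p]) := by
    rw [PadicInt.isUnit_iff, PadicInt.norm_natCast_eq_one_iff]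
    exact (Nat.coprime_of_lt_prime hn0.ne' hnp Fact.out)
  obtain ⟨v, hv⟩ := hu.exists_right_inv
  have e2 : c = j ((ρ g).val.trace * v) := by
    rw [map_mul, h1, mul_assoc, ← map_natCast j, ← map_mul, hv, map_one, mul_one]
  obtain ⟨m, hm⟩ := hc
  have hinj : Function.Injective (j.mapMatrix : Matrix (Fin n) (Fin n) ℤ_[p] →+* _) :=
    Matrix.map_injective inj_GvSmall
  refine ⟨(ρ g).val.trace * v, m, hinj ?_⟩
  have e3 : ∀ x : ℤ_[p], j.mapMatrix (x • (1 : Matrix (Fin n) (Fin n) ℤ_[p])) = j x • 1 :=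
    fun x => by
      refine Matrix.ext fun a b => ?_
      by_cases h : a = b <;> simp [h]
  rw [map_pow, map_sub, e3, map_zero, ← e2, ← e0, hm]

end Pool.Agent.MP_f68ac8_nt.Ev
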