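import Mathlib
import Pool.Agent.MP_f68ac8_nt.GvAlg
import Pool.Agent.MP_f68ac8_nt.FvType

namespace Pool.Agent.MP_f68ac8_nt.Ev

open Matrix MvPolynomial Finset

section
variable {k : Type} [Field k] {n : ℕ}

/-- a move of the adversary from a scalar, operators and functionals -/
def mk_GvType (c : k) (T : ℕ × ℕ × ℕ → Mt n k →ₗ[k] Mt n k) (F : ℕ × ℕ × ℕ → Mt n k →ₗ[k] k) :
    Bw n → k
  | (κ, some a, some e) => co_EvType (T κ) a e
  | (κ, none, some e) => F κ (single e.1 e.2 1)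
  | (_, _, none) => c

theorem opw_mk_GvType (c : k) (T : ℕ × ℕ × ℕ → Mt n k →ₗ[k] Mt n k)
    (F : ℕ × ℕ × ℕ → Mt n k →ₗ[k] k) (κ : ℕ × ℕ × ℕ) (X : Mt n k) :
    opw (mk_GvType c T F) κ X = T κ X := ap_co_EvType (T κ) X

theorem fnw_mk_GvType (c : k) (T : ℕ × ℕ × ℕ → Mt n k →ₗ[k] Mt n k)
    (F : ℕ × ℕ × ℕ → Mt n k →ₗ[k] k) (κ : ℕ × ℕ × ℕ) (X : Mt n k) :
    fnw (mk_GvType c T F) κ X = F κ X := by
  conv_rhs => rw [matrix_eq_sum_single X]
  rw [fnw, Fintype.sum_prod_type, map_sum]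
  refine sum_congr rfl fun i _ => ?_
  rw [map_sum]
  refine sum_congr rfl fun j _ => ?_
  have : (single i j (X i j) : Mt n k) = X i j • single i j 1 := by
    rw [smul_single, smul_eq_mul, mul_one]
  rw [this, map_smul, smul_eq_mul, mul_comm]
  rfl

variable {Δ A : Type} [Group Δ] [Fintype Δ] [Fintype A] [DecidableEq A]

/-- the functionals coming from units -/
noncomputable def f3_GvType (Ad : Representation k Δ (Mt n k)) (μ : Δ →* Matrix A A ℤ)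
    (u : ℕ → A → k) (l : ℕ → Mt n k →ₗ[k] k) (c : ℕ) :
    (A → k) →ₗ[k] (Fin (c + 1) → Mt n k →ₗ[k] k) where
  toFun κ e := l e ∘ₗ f1_EvType Ad fun δ => κ ⬝ᵥ ((μ δ⁻¹).map (Int.cast : ℤ → k) *ᵥ u e)
  map_add' κ κ' := by
    funext e
    rw [Pi.add_apply, ← LinearMap.comp_add, ← map_add]
    congr 2
    funext δ
    exact add_dotProduct _ _ _
  map_smul' t κ := by
    funext e
    rw [RingHom.id_apply, Pi.smul_apply, ← LinearMap.comp_smul, ← map_smul]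
    congr 2
    funext δ
    exact smul_dotProduct _ _ _

theorem f3_apply_GvType (Ad : Representation k Δ (Mt n k)) (μ : Δ →* Matrix A A ℤ)
    (u : ℕ → A → k) (l : ℕ → Mt n k →ₗ[k] k) (c : ℕ) (κ : A → k) (e : Fin (c + 1)) (X : Mt n k) :
    f3_GvType Ad μ u l c κ e X =
      l e (∑ δ, (κ ⬝ᵥ ((μ δ⁻¹).map (Int.cast : ℤ → k) *ᵥ u e)) • Ad δ X) :=
  congrArg (l e) (f1_apply_EvType Ad _ X)

end

section
variable {p : ℕ} {k Δ A : Type} [Field k] [Algebra (ZMod p) k] [Group Δ] [Fintype Δ]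
  {n m₁ m₂ : ℕ}

/-- the moves of the adversary attached to a state -/
noncomputable def ys_GvType (Ad : Representation k Δ (Mt n k)) (d : ℕ) (b : ℕ → Bool)
    (T : ℕ × ℕ × ℕ → Mt n k →ₗ[k] Mt n k) (F : ℕ × ℕ × ℕ → Mt n k →ₗ[k] k)
    (s : St p (Ow n k) Δ A) : ℕ → Bw n → k
  | 0 => mk_GvType 0 T F
  | j + 1 => mk_GvType (if b j then (s.c j).1 else 0)
      (fun κ => if κ.2.1 ≤ j then f1_EvType Ad fun δ => algebraMap (ZMod p) k (s.ν j κ.2.1 δ)
        else (s.c j).2 (κ.2.1 - d)) 0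

theorem ys_agree_GvType (Ad : Representation k Δ (Mt n k)) (d : ℕ) (b : ℕ → Bool)
    (T : ℕ × ℕ × ℕ → Mt n k →ₗ[k] Mt n k) (F : ℕ × ℕ × ℕ → Mt n k →ₗ[k] k)
    {s s' : St p (Ow n k) Δ A} {i : ℕ} (h : s.Agree s' i) :
    ∀ j ≤ i, ys_GvType Ad d b T F s' j = ys_GvType Ad d b T F s j := by
  intro j hj
  cases j with
  | zero => rfl
  | succ j =>
    have hj' : j < i := hj
    rw [ys_GvType, ys_GvType, (h j hj').2.1]
    congr 1
    funext κ
    split_ifs with h1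
    · rw [(h j hj').2.2 _ (h1.trans_lt hj')]
    · rfl

variable [Fintype A] [DecidableEq A] {Ad : Representation k Δ (Mt n k)}
  {μ : Δ →* Matrix A A ℤ} {d m c B : ℕ} {w : ℕ → ℕ} {δ : ℕ → Δ} {a : ℕ → ZMod p}
  {u : A → ℕ → Mt n k →ₗ[k] Mt n k} {b : ℕ → Bool} {s : St p (Ow n k) Δ A}

theorem rel_GvType {X X' Y : ℕ → Mt n k} (h : s.RelW Ad μ d m B w δ a u b X X' Y) :
    ∃ X : ℕ → Mt n k, s.RelW Ad μ d m B w δ a u b X (fun x => X (d + x)) Y := by
  obtain ⟨Z, h1, h2⟩ : ∃ Z : ℕ → Mt n k, (∀ j < d, Z j = X j) ∧ (fun x => Z (d + x)) = X' :=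
    ⟨fun j => if j < d then X j else X' (j - d), fun j hj => if_pos hj,
      funext fun x => by simp⟩
  refine ⟨Z, ?_⟩
  rw [h2]
  obtain ⟨j₀, hj₀, hne⟩ := h.ne
  refine ⟨fun j hj => by rw [h1 j hj]; exact h.nil j hj, ⟨j₀, hj₀, by rwa [h1 j₀ hj₀]⟩,
    fun j hj => by rw [h1 j hj]; exact h.eig j hj, h.wild, fun j hj => ?_,
    fun j hj => by rw [h1 j hj]; exact h.br j hj, fun e => ?_⟩
  · rw [h.lin j hj]
    congr 1
    exact sum_congr rfl fun i hi => by rw [h1 i (mem_range.1 hi)]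
  · rw [← h.un e]
    congr 1
    exact sum_congr rfl fun i hi => by rw [h1 i (mem_range.1 hi)]

theorem joint_GvType (h5 : JointStmt) (H : HypW Ad μ d m c w δ a) {π : ℕ → Mt n k →ₗ[k] Mt n k}
    (hπ : ∀ j < d, ∀ X, Ad (δ j) X = algebraMap (ZMod p) k (a j) • X → ∀ Z,
      π j (adM X Z) = adM X Z →
        adM X Z ∈ (LinearMap.eqLocus (Ad (δ j)) LinearMap.id).map (adM X) ∧
          ∃ Z', Z'.trace = 0 ∧ adM X Z = adM X (av Ad (δ j) Z'))
    {X Y : ℕ → Mt n k} (h : s.RelW Ad μ d m B w δ a u b X (fun x => X (d + x)) Y) {t : ℕ}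
    (ht : t < d) (hne : X t ≠ 0) (htr : (X t).trace = 0) (hz : ∀ j, t < j → j < d → X j = 0) :
    ∃ (Q₀ Q₂ Q₃ R : ℕ → Mt n k →ₗ[k] Mt n k) (ρ : ℕ → ℕ → Mt n k →ₗ[k] k)
      (q : ℕ → ℕ → Mt n k), ∀ j < d + m, ∀ Z,
      R j Z ∈ Submodule.span k {Z | ∃ γ i, j + 1 ≤ i ∧ i < d ∧ Z = Ad γ (X i)} ∧
        Q₀ j (adM (X j) Z) = 0 ∧ ∀ i < d + m, ∑ a ∈ range c, ρ j a Z • q a i =
          if i = j then Z - adM (X j) (av Ad (δ j) (R j Z)) - Q₂ j (Z - π j Z) - Q₃ j (Q₀ j Z)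
          else 0 := by
  refine h5 k (Mt n k) (d + m) c π (fun j => adM (X j)) (fun j => adM (X j) ∘ₗ av Ad (δ j))
    (fun j => Submodule.span k {Z | ∃ γ i, j + 1 ≤ i ∧ i < d ∧ Z = Ad γ (X i)})
    (fun j => if j = t then (LinearMap.eqLocus (Ad (δ t)) LinearMap.id).map (adM (X t))
      else if d ≤ j then LinearMap.range (adM (X j)) else ⊥) (fun j _ Z hZ => ?_) ?_
  · rcases lt_trichotomy j t with h1 | rfl | h1
    · obtain ⟨Z', h2, h3⟩ := (hπ j (h1.trans ht) _ (h.eig j (h1.trans ht)) Z hZ).2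
      refine Submodule.mem_sup_left ⟨Z', ?_, h3.symm⟩
      refine Submodule.span_mono ?_ (H.irr _ hne htr h2)
      rintro _ ⟨γ, rfl⟩
      exact ⟨γ, t, h1, ht, rfl⟩
    · refine Submodule.mem_sup_right ?_
      rw [if_pos rfl]
      exact (hπ j ht _ (h.eig j ht) Z hZ).1
    · by_cases h2 : j < d
      · have h3 : adM (X j) Z = 0 := by
          rw [hz j h1 h2]
          simp [adM]
        rw [h3]
        exact Submodule.zero_mem _
      · refine Submodule.mem_sup_right ?_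
        rw [if_neg h1.ne', if_pos (not_lt.1 h2)]
        exact ⟨Z, rfl⟩
  · rw [sum_range_add, sum_eq_single_of_mem t (mem_range.2 ht)]
    · refine le_trans (Nat.add_le_add ?_ (sum_le_sum fun x hx => ?_))
        (H.loss t ht (X t) (h.eig t ht) (h.nil t ht))
      · rw [if_pos rfl]
      · rw [if_neg (by omega), if_pos (Nat.le_add_right d x)]
        exact (h.wild x (mem_range.1 hx)).rk
    · intro j hj h1
      rw [if_neg h1, if_neg (not_le.2 (mem_range.1 hj)), finrank_bot]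

theorem sol_GvType (h5 : JointStmt) (H : HypW Ad μ d m c w δ a) {u₀ : ℕ → A → k}
    {l : ℕ → Mt n k →ₗ[k] k} {T : ℕ × ℕ × ℕ → Mt n k →ₗ[k] Mt n k}
    {F : ℕ × ℕ × ℕ → Mt n k →ₗ[k] k}
    {L₁ : (Δ → k) →ₗ[k] (Fin m₁ → k)} {L₂ : (A → k) →ₗ[k] (Fin m₂ → k)}
    (hπ : ∀ j < d, ∀ X, Ad (δ j) X = algebraMap (ZMod p) k (a j) • X → T (0, j, 0) X = X ∧ ∀ Z,
      T (0, j, 0) (adM X Z) = adM X Z →
        adM X Z ∈ (LinearMap.eqLocus (Ad (δ j)) LinearMap.id).map (adM X) ∧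
          ∃ Z', Z'.trace = 0 ∧ adM X Z = adM X (av Ad (δ j) Z'))
    (hπ' : ∀ j, d ≤ j → ∀ X, T (0, j, 0) X = X)
    (hT : ∀ j, T (1, j, 0) = av Ad (δ j))
    (e₁ : ∀ v Z, f1_EvType Ad v Z = ∑ s : Fin m₁, L₁ v s • T (2, s, 0) Z)
    (e₂ : ∀ v, ∀ e ≤ c, ∀ Z,
      l e (∑ γ, (v ⬝ᵥ ((μ γ⁻¹).map (Int.cast : ℤ → k) *ᵥ u₀ e)) • Ad γ Z) =
        ∑ s : Fin m₂, L₂ v s * F (0, s, e) Z)
    (hF : ∀ x e Z, F (1, d + x, e) Z = l e (∑ a, u₀ e a • u a x Z))
    (hG : ∀ X, LinearMap.ker (traceLinearMap (Fin n) k k) ≤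
      Submodule.span k (Set.range fun γ => Ad γ X) → ∀ e ≤ c, ∃ κ : A → k, ∀ e' ≤ c,
        l e' (∑ γ, (κ ⬝ᵥ ((μ γ⁻¹).map (Int.cast : ℤ → k) *ᵥ u₀ e')) • Ad γ X) =
          if e = e' then 1 else 0)
    {X Y : ℕ → Mt n k} (h : s.RelW Ad μ d m B w δ a u b X (fun x => X (d + x)) Y)
    {v : ∀ i, A ⊕ (Fin i × Δ) → ZMod p}
    (hv₁ : ∀ i < d, ∀ j : Fin i, ∑ γ, algebraMap (ZMod p) k (s.ν j i γ) • Ad γ (X i) =
      av Ad (δ j) (∑ γ, algebraMap (ZMod p) k (v i (.inr (j, γ))) • Ad γ (X i)))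
    (hv₂ : ∀ i < d, ∀ e, ∑ γ, algebraMap (ZMod p) k (∑ e', μ γ⁻¹ e' e * s.κ i e') • Ad γ (X i) =
      ∑ γ, algebraMap (ZMod p) k (∑ e', μ γ⁻¹ e' e * v i (.inl e')) • Ad γ (X i)) :
    SolG n m₁ m₂ d m c B k (xv_FvType L₁ L₂ v) (ys_GvType Ad d b T F s) := by
  classical
  obtain ⟨t, ht, hne, hz⟩ : ∃ t < d, X t ≠ 0 ∧ ∀ j, t < j → j < d → X j = 0 := by
    obtain ⟨j₀, hj₀, hne⟩ := h.ne
    have h1 := Nat.findGreatest_spec (P := fun j => j < d ∧ X j ≠ 0) hj₀.le ⟨hj₀, hne⟩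
    refine ⟨_, h1.1, h1.2, fun j h2 h3 => ?_⟩
    by_contra h4
    exact Nat.findGreatest_is_greatest h2 h3.le ⟨h3, h4⟩
  have htr : (X t).trace = 0 :=
    (Matrix.isNilpotent_trace_of_isNilpotent ⟨n, h.nil t ht⟩).eq_zero
  obtain ⟨Q₀, Q₂, Q₃, R, ρ, q, hQ⟩ := joint_GvType h5 H (π := fun j => T (0, j, 0))
    (fun j hj X hX => (hπ j hj X hX).2) h ht hne htr hz
  choose! cc hc using fun j (e : Ix n) (hj : j < d + m) =>
    span_FvType e₁ X (j + 1) d (hQ j hj (single e.1 e.2 1)).1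
  have hw : ∀ j ∈ Ico d (d + m), Wild B (w (j - d)) (X j) := by
    intro j hj
    have h1 := mem_Ico.1 hj
    have h2 := h.wild (j - d) (by omega)
    rwa [show d + (j - d) = j by omega] at h2
  choose! V hV using fun j (e : Ix n) (hj : j ∈ Ico d (d + m)) => (hw j hj).dec (single e.1 e.2 1)
  choose! κ hκ using hG (X t) (H.irr _ hne htr)
  refine ⟨⟨X, V, fun j => ![co_EvType (Q₀ j), co_EvType LinearMap.id, co_EvType (Q₂ j),
    co_EvType (Q₃ j)], cc, fun j e a => ρ j a (single e.1 e.2 1), q,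
    fun e i => if i = t then L₂ (κ e) else 0⟩, h.nil, fun j hj => (hw j hj).tr,
    fun j hj e => (hV j e hj).1, fun j hj e => (hV j e hj).2, fun j hj => ?_, fun j hj e => ?_,
    fun j hj e i hi => ?_, fun j hj => ?_, fun e he => ?_, fun e he e' he' => ?_⟩
  · rw [ys_GvType, opw_mk_GvType]
    by_cases h1 : j < d
    · exact (hπ j h1 _ (h.eig j h1)).1
    · exact hπ' j (not_lt.1 h1) _
  · exact (ap_co_EvType (Q₀ j) _).trans (hQ j hj _).2.1
  · simp only [ys_GvType, opw_mk_GvType]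
    rw [hT, ← hc j e hj]
    refine ((hQ j hj _).2.2 i hi).trans ?_
    rw [← ap_co_EvType (Q₂ j), ← ap_co_EvType (Q₃ j), ← ap_co_EvType (Q₀ j),
      ← LinearMap.id_apply (R := k) (adM (X j) _), ← ap_co_EvType LinearMap.id]
    rfl
  · have h1 : ∑ i ∈ range (d + m),
        colW d (xv_FvType L₁ L₂ v) (ys_GvType Ad d b T F s) j i (X i) = Y j := by
      rw [h.lin j hj, sum_range_add]
      congr 1
      · refine sum_congr rfl fun i hi => ?_
        have hi' := mem_range.1 hi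
        rw [colW]
        split_ifs with h2
        · simp only [ys_GvType, opw_mk_GvType]
          rw [hT, hv₁ i hi' ⟨j, h2.1⟩, ← f1_apply_EvType, e₁]
          rfl
        · rw [ys_GvType, opw_mk_GvType, if_pos (by simp only; omega), f1_apply_EvType]
      · refine sum_congr rfl fun x _ => ?_
        rw [colW, dif_neg (by omega), ys_GvType, opw_mk_GvType, if_neg (by simp only; omega)]
        simp only [Nat.add_sub_cancel_left]
    change brk (∑ i ∈ range (d + m),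
      colW d (xv_FvType L₁ L₂ v) (ys_GvType Ad d b T F s) j i (X i)) (X j) = _
    rw [h1, brk, h.br j hj]
    rfl
  · simp only [ys_GvType, fnw_mk_GvType]
    have h1 : ∀ i ∈ range d, ∑ t : Fin m₂, xv_FvType L₁ L₂ v i (.inr t) * F (0, t, e) (X i) =
        l e (∑ a, u₀ e a •
          ∑ δ, algebraMap (ZMod p) k (∑ a', μ δ⁻¹ a' a * s.κ i a') • Ad δ (X i)) := by
      intro i hi
      simp only [hv₂ i (mem_range.1 hi)]
      refine (e₂ (fun a => algebraMap (ZMod p) k (v i (.inl a))) e he (X i)).symm.trans ?_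
      congr 1
      simp only [smul_sum, smul_smul]
      rw [sum_comm]
      refine sum_congr rfl fun δ _ => ?_
      rw [← sum_smul]
      congr 1
      simp only [dotProduct, mulVec, map_apply, map_sum, map_mul, map_intCast, mul_sum]
      rw [sum_comm]
      refine sum_congr rfl fun a _ => sum_congr rfl fun a' _ => ?_
      ring
    rw [sum_congr rfl h1, sum_Ico_eq_sum_range, Nat.add_sub_cancel_left]
    simp only [hF]
    rw [← map_sum, ← map_sum, ← map_add, sum_comm, sum_comm (s := range m), ← sum_add_distrib,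
      sum_eq_zero, map_zero]
    intro a _
    rw [← smul_sum, ← smul_sum, ← smul_add, h.un a, smul_zero]
  · simp only [ys_GvType, fnw_mk_GvType]
    rw [sum_eq_single_of_mem t (mem_range.2 ht)]
    · rw [if_pos rfl, ← e₂ _ e' he', hκ e he e' he']
    · intro i _ h1
      simp [h1]

end

theorem typeW_stmt (h1 : GameStmt) (h2 : DerStmt) (h3 : GenWStmt) (h4 : NatWStmt) (h5 : JointStmt)
    (h5' : EigStmt) (h6 : ProjStmt) (h7 : SZStmt) : TypeWStmt := by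
  intro n d m c B
  choose D hD using fun m₁ m₂ : ℕ => h1 (Rn m₁ m₂) (Bw n) d (SolG n m₁ m₂ d m c B)
    (h4 n m₁ m₂ d m c B).1 (h4 n m₁ m₂ d m c B).2.1
    fun Ω _ _ x y h => h3 n m₁ m₂ d m c B Ω x y (h2 _ _ Ω d x y h)
  refine ⟨n + ∑ m₁ ∈ range (n * n * (n * n) + 1), ∑ m₂ ∈ range ((c + 1) * (n * n) + 1),
    D m₁ m₂, ?_⟩
  generalize hC : n + ∑ m₁ ∈ range (n * n * (n * n) + 1),
    ∑ m₂ ∈ range ((c + 1) * (n * n) + 1), D m₁ m₂ = C
  intro p _ hp k Δ A _ _ _ _ _ _ Ad μ w δ a H u b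
  have : CharP k p := charP_of_injective_algebraMap (algebraMap (ZMod p) k).injective p
  have hch : ∀ m : ℕ, 0 < m → m ≤ C → (m : k) ≠ 0 := by
    intro m h0 hm h
    have := Nat.le_of_dvd h0 ((CharP.cast_eq_zero_iff k p m).1 h)
    omega
  have r1 : Module.finrank k (Mt n k) = n * n := by simp [Module.finrank_matrix]
  have r2 : Module.finrank k (Mt n k →ₗ[k] Mt n k) = n * n * (n * n) := by
    rw [Module.finrank_linearMap, r1]
  have r3 : Module.finrank k (Fin (c + 1) → Mt n k →ₗ[k] k) = (c + 1) * (n * n) := by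
    rw [Module.finrank_pi_fintype]
    simp [r1]
  obtain ⟨u₀, l, hG⟩ := H.rank
  have hπ₀ : ∀ j, ∃ π : Mt n k →ₗ[k] Mt n k, n ≠ 0 → ∀ X,
      Ad (δ j) X = algebraMap (ZMod p) k (a j) • X → π X = X ∧ ∀ Z, π (adM X Z) = adM X Z →
        adM X Z ∈ (LinearMap.eqLocus (Ad (δ j)) LinearMap.id).map (adM X) ∧
          ∃ Z', Z'.trace = 0 ∧ adM X Z = adM X (av Ad (δ j) Z') := by
    intro j
    by_cases hn : n = 0
    · exact ⟨0, fun h => absurd hn h⟩
    · obtain ⟨π, hπ⟩ := h5' k Δ n Ad H.ad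
        (fun h => H.card ((CharP.cast_eq_zero_iff k p _).1 h))
        (hch n (Nat.pos_of_ne_zero hn) (by omega)) (δ j) (algebraMap (ZMod p) k (a j))
        ((map_ne_zero _).2 (H.ne j))
      exact ⟨π, fun _ => hπ⟩
  choose π hπ using hπ₀
  choose Pr P1 P2 P3 using fun i => h6 p k Δ (Mt n k) A (Fin i) Ad μ (fun j : Fin i => δ j) (δ i)
    (a i) H.card (H.ne i)
  obtain ⟨m₁, hm₁, b₁, L₁, s₁, hL₁, -⟩ := coord_EvType (f1_EvType Ad)
  obtain ⟨m₂, hm₂, b₂, L₂, s₂, hL₂, -⟩ := coord_EvType (f3_GvType Ad μ u₀ l c)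
  have hDC : D m₁ m₂ ≤ C := by
    have a1 : D m₁ m₂ ≤ ∑ m₂ ∈ range ((c + 1) * (n * n) + 1), D m₁ m₂ :=
      single_le_sum (f := fun m₂ => D m₁ m₂) (fun _ _ => Nat.zero_le _) (mem_range.2 (by omega))
    have a2 := single_le_sum
      (f := fun m₁ => ∑ m₂ ∈ range ((c + 1) * (n * n) + 1), D m₁ m₂)
      (s := range (n * n * (n * n) + 1)) (fun _ _ => Nat.zero_le _) (a := m₁)
      (mem_range.2 (by omega))
    omega
  obtain ⟨T, T0, T0', T1, T2⟩ : ∃ T : ℕ × ℕ × ℕ → Mt n k →ₗ[k] Mt n k,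
      (∀ j < d, T (0, j, 0) = π j) ∧ (∀ j, d ≤ j → ∀ X, T (0, j, 0) X = X) ∧
      (∀ j, T (1, j, 0) = av Ad (δ j)) ∧ ∀ s : Fin m₁, T (2, s, 0) = b₁ s := by
    refine ⟨fun κ => if κ.1 = 0 then (if κ.2.1 < d then π κ.2.1 else LinearMap.id) else
      if κ.1 = 1 then av Ad (δ κ.2.1) else if h : κ.2.1 < m₁ then b₁ ⟨κ.2.1, h⟩ else 0,
      fun j hj => by simp [hj], fun j hj X => by simp [not_lt.2 hj], fun j => by simp,
      fun s => by simp⟩
  obtain ⟨F, F0, F1⟩ : ∃ F : ℕ × ℕ × ℕ → Mt n k →ₗ[k] k,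
      (∀ (s : Fin m₂) (e : Fin (c + 1)), F (0, s, e) = b₂ s e) ∧
      ∀ x e Z, F (1, d + x, e) Z = l e (∑ a, u₀ e a • u a x Z) := by
    refine ⟨fun κ => if κ.1 = 0 then
      (if h : κ.2.1 < m₂ ∧ κ.2.2 < c + 1 then b₂ ⟨κ.2.1, h.1⟩ ⟨κ.2.2, h.2⟩ else 0) else
      l κ.2.2 ∘ₗ ∑ a, u₀ κ.2.2 a • u a (κ.2.1 - d), fun s e => ?_, fun x e Z => ?_⟩
    · beta_reduce
      rw [if_pos rfl, dif_pos ⟨s.2, e.2⟩]
    · beta_reduce
      rw [if_neg one_ne_zero, LinearMap.comp_apply, LinearMap.sum_apply, Nat.add_sub_cancel_left]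
      rfl
  refine ⟨fun i s => ∃ v : ∀ i, A ⊕ (Fin i × Δ) → ZMod p, (∀ j < i, Pr j (v j) = s.rnd j) ∧
    ¬ Lose (SolG n m₁ m₂ d m c B k) (D m₁ m₂) (d - i) i (xv_FvType L₁ L₂ v)
      (ys_GvType Ad d b T F s),
    fun s => ⟨0, fun j hj => absurd hj (Nat.not_lt_zero j),
      hD m₁ m₂ k (fun m h0 hm => hch m h0 (hm.trans hDC)) _ _⟩, ?_, ?_⟩
  · rintro s ⟨v, hv, hs⟩ ⟨X₀, X', Y, hrel₀⟩
    obtain ⟨X, hrel⟩ := rel_GvType hrel₀
    have hn : n ≠ 0 := by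
      intro hn
      obtain ⟨j₀, -, hne⟩ := hrel.ne
      exact hne (Matrix.ext fun i _ => absurd i.2 (by omega))
    refine hs ?_
    rw [Nat.sub_self]
    refine sol_GvType h5 H (u₀ := u₀) (l := l) (fun j hj => by rw [T0 j hj]; exact hπ j hn) T0' T1
      (fun w Z => ?_) (fun w e he Z => ?_) F1 hG hrel (fun i hi j => ?_) fun i hi e => ?_
    · simp only [T2]
      rw [hL₁, LinearMap.sum_apply]
      rfl
    · refine (f3_apply_GvType Ad μ u₀ l c w ⟨e, Nat.lt_succ_of_le he⟩ Z).symm.trans ?_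
      rw [hL₂, Finset.sum_apply, LinearMap.sum_apply]
      refine sum_congr rfl fun s _ => ?_
      rw [show F (0, s, e) = _ from F0 s ⟨e, Nat.lt_succ_of_le he⟩]
      rfl
    · have := (P3 i (v i) (X i) (hrel.eig i hi)).1 j
      rw [hv i hi] at this
      exact this
    · have := (P3 i (v i) (X i) (hrel.eig i hi)).2 e
      rw [hv i hi] at this
      exact this
  · rintro i hi s ⟨v, hv, hs⟩
    have e : d - i = d - (i + 1) + 1 := by omega
    rw [e, Lose] at hs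
    push Not at hs
    obtain ⟨Q, hQ, hdeg, hs⟩ := hs
    refine ⟨{w | ∀ v', Pr i v' = w → ∃ x' y', (∀ j < i, x' j = xv_FvType L₁ L₂ v j) ∧
      (∀ j ≤ i, y' j = ys_GvType Ad d b T F s j) ∧
      x' i = LL_EvType L₁ L₂ i (fun a => algebraMap (ZMod p) k (v' a)) ∧
      Lose (SolG n m₁ m₂ d m c B k) (D m₁ m₂) (d - (i + 1)) (i + 1) x' y'}, ?_, ?_, ?_⟩
    · refine count_FvType (Pr i) _ (P1 i) (P2 i) (fun v' hv' => ?_)
        ((h7 p k _ _ _ (LL_surj_EvType s₁ s₂ i) Q hQ).trans (Nat.mul_le_mul (hdeg.trans hDC) ?_))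
      · obtain ⟨x', y', a1, a2, a3, a4⟩ := hv' v' rfl
        by_contra hn
        exact hs x' y' a1 a2 (by rw [a3]; exact hn) a4
      · rw [Nat.card_fun, Nat.card_zmod, Nat.card_eq_fintype_card]
    · intro t ht w hw v' hv'
      obtain ⟨x', y', a1, a2, a3, a4⟩ := hw (t⁻¹ • v')
        (by rw [map_smul, hv', inv_smul_smul₀ ht])
      obtain ⟨x'', y'', c1, c2, c3, c4⟩ := (h4 n m₁ m₂ d m c B).2.2 k _ i _
        (algebraMap (ZMod p) k t) hi ((map_ne_zero _).2 ht) x' y' a4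
      refine ⟨x'', y'', fun j hj => (c1 j hj).trans (a1 j hj),
        fun j hj => (c2 j hj).trans (a2 j hj), ?_, c4⟩
      rw [c3, a3, ← map_smul]
      congr 1
      funext z
      rw [Pi.smul_apply, Pi.smul_apply, smul_eq_mul, smul_eq_mul, ← map_mul,
        mul_inv_cancel_left₀ ht]
    · intro s' hag _ hn
      obtain ⟨v', hv', hn⟩ := (not_forall.1 hn).imp fun v' h => Classical.not_imp.1 h
      refine ⟨Function.update v i v', fun j hj => ?_, fun hl => hn ⟨_, _, fun j hj => ?_,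
        ys_agree_GvType Ad d b T F hag, ?_, hl⟩⟩
      · rcases (Nat.lt_succ_iff.1 hj).eq_or_lt with rfl | hj
        · rw [Function.update_self, hv']
        · rw [Function.update_of_ne hj.ne, hv j hj, rnd_agree_FvType hag j hj]
      · rw [xv_FvType, xv_FvType, Function.update_of_ne hj.ne]
      · rw [xv_FvType, Function.update_self]

end Pool.Agent.MP_f68ac8_nt.Ev
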