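import Mathlib
import Pool.Agent.MP_f68ac8_nt.GvAux
import Pool.Agent.MP_f68ac8_nt.FvVec

/-! Linear relations between the values of an equivariant additive map, with wild terms. -/

namespace Pool.Agent.MP_f68ac8_nt.Ev

open NumberField
open scoped Pointwise Topology

/-- the Kummer character of the root of unity is invariant under conjugation -/
lemma xi_conj_GvVec {p : ℕ} [Fact p.Prime] (hK : KKStmt p) (t : GQ) {u : GQ}
    (hu : cyc p u = 1) : KK p (xi p) (t * u * t⁻¹) = KK p (xi p) u := by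
  have h0 : xi p ≠ 0 := (xi_spec (Ω := Qb) (p := p)).ne_zero (Fact.out : p.Prime).ne_zero
  have h1 : t⁻¹ (xi p) = xi p ^ (((cyc p t⁻¹ : ZMod p).val : ℕ) : ℤ) := by
    rw [zpow_natCast]
    exact cyc_spec p t⁻¹ (xi_spec (Ω := Qb) (p := p)).pow_eq_one
  have h2 : u (xi p) = xi p := fix_xi hu
  rw [hK.2.2.2.2.1 _ t u h0 (by rw [h1, map_zpow₀, h2]) hu, h1, hK.2.2.1 _ _ u h0 h2 hu,
    Int.cast_natCast, ZMod.natCast_zmod_val, ← mul_assoc, ← Units.val_mul, ← map_mul,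
    mul_inv_cancel, map_one, Units.val_one, one_mul]

lemma conj_HH_GvVec {p : ℕ} [Fact p.Prime] {F : IntermediateField ℚ Qb} [Normal ℚ F] (t : GQ)
    {u : GQ} (hu : u ∈ HH p F) : t * u * t⁻¹ ∈ HH p F := by
  obtain ⟨h1, h2⟩ := mem_HH_EvVec.1 hu
  refine mem_HH_EvVec.2 ⟨?_, ?_⟩
  · rw [map_mul, map_mul, h1, mul_one, map_inv, mul_inv_cancel]
  · rw [map_mul, map_mul, h2, mul_one, map_inv, mul_inv_cancel]

section main
variable {p : ℕ} [hp : Fact p.Prime] {F : IntermediateField ℚ Qb} [NumberField F] [IsGalois ℚ F]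
  {G : Subgroup GQ} {k V : Type} [Field k] [Algebra (ZMod p) k] [AddCommGroup V] [Module k V]
  {Ad : Representation k (Dl G F) V} {f : GQ → V}

/-- the reciprocity law with wild terms -/
lemma recip_GvVec (hK : KKStmt p) (hR : RecWStmt p) (hT : TrivStmt p)
    (hC : Cfg2Stmt p) (hG : F.fixingSubgroup ≤ G) (h2 : 2 < p) (hd : ¬ p ∣ Module.finrank ℚ F)
    (hdi : ¬ (p : ℤ) ∣ discr F) (Ad : Representation k (Dl G F) V) (m : ℕ) (Q : ℕ → Ideal OQ)
    (s : ℕ → GQ) (hQ : ∀ x < m, (Q x).IsMaximal ∧ s x ∈ HH p F)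
    (hcov : ∀ P : Ideal OQ, P.IsMaximal → (p : OQ) ∈ P → ∃ x < m, ∃ g ∈ G, P = g • Q x) :
    ∃ o : 𝓞 F → ℕ → V →ₗ[k] V, ∀ f : GQ → V, Eqv_FvVec G F Ad f →
    (∀ x < m, ∀ u ∈ (Q x).inertia GQ, u ∈ HH p F →
      f u = algebraMap (ZMod p) k (KK p (xi p) u) • f (s x)) →
    ∀ (J : Type) [Fintype J] (c : J → Cfg F), (∀ j, (c j).Ok2 p G) →
    (Function.Injective fun j => (c j).l) →
    (∀ R : Ideal OQ, R.IsMaximal → (p : OQ) ∉ R → (∀ j, ∀ g ∈ G, R ≠ g • (c j).P) →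
      ∀ u ∈ R.inertia GQ, u ∈ F.fixingSubgroup → f u = 0) → ∀ a : 𝓞 F, a ≠ 0 →
      (∀ R : Ideal OQ, R.IsMaximal → algebraMap (𝓞 F) OQ a ∈ R →
        ∃ j, ∃ g ∈ G, R = g • (c j).P) →
      ∑ j, Tp2 p G Ad a (c j).τ (f ((c j).σ ^ mm p F)) =
        ∑ j, Tp2 p G Ad a ((c j).σ ^ mm p F) (f (c j).τ) +
          ∑ x ∈ Finset.range m, o a x (f (s x)) := by
  obtain ⟨-, -, -, M, _, _, -, hFM, hM, hMD⟩ := hT F
  obtain ⟨Γ, _, t, ht, hres, hΓ⟩ := trans_FvVec p F G hG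
  obtain ⟨hC1, -, hC3⟩ := hC F G h2
  have hle : M.fixingSubgroup ≤ F.fixingSubgroup := hM ▸ inf_le_left
  obtain ⟨L, hL⟩ := hR M (hMD h2 hd hdi) G (hle.trans hG) (mm p F)
    (by rw [hM]; exact hC1) _ (fun i => (t i : GQ)) (fun i => (t i).2) (by rw [hM]; exact ht)
    (Fin m × (Dl G F × Γ)) (fun y => (t y.2 : GQ) • Q y.1)
    (fun y => (t y.2 : GQ) * s y.1 * (t y.2 : GQ)⁻¹)
    (fun y => ⟨smul_max_EvRec _ (hQ _ y.1.2).1, by
      rw [hM]; exact conj_HH_GvVec _ (hQ _ y.1.2).2⟩)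
    (by
      intro P hP hpP
      obtain ⟨x, hx, g, hg, rfl⟩ := hcov P hP hpP
      obtain ⟨i, hi, -⟩ := ht g hg
      refine ⟨(⟨x, hx⟩, i), ?_⟩
      have h1 : (t i : GQ) * ((t i : GQ)⁻¹ * g) * (t i : GQ)⁻¹ ∈ M.fixingSubgroup := by
        rw [hM]; exact conj_HH_GvVec _ hi
      rw [← under_smul_EvRec M h1 ((t i : GQ) • Q x), smul_smul]
      congr 2
      group)
  refine ⟨fun a x => if h : x < m then ∑ i : Dl G F × Γ, algebraMap (ZMod p) k
    (-(Fintype.card Γ : ZMod p)⁻¹ * L (algebraMap (𝓞 F) OQ a) (⟨x, h⟩, i)) • Ad i.1 else 0, ?_⟩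
  intro f hf hw J _ c hc hinj hA a ha hS
  refine sub_eq_zero.1 (sep_EvVec p k fun lam => ?_)
  have h3 := hL J (fun j => (c j).l) (fun j => (c j).P) (fun j => (c j).σ) (fun j => (c j).τ) hinj
    (fun j => ⟨(hc j).prime, (hc j).ne, by rw [hM]; exact (hC3 _ (hc j)).1,
      (hc j).max, (hc j).mem, (hc j).frob, (hc j).inG, (hc j).inert, (hc j).gen⟩)
    (fun g => lam (f g))
    (fun g hg h hh => by rw [hf.add g (hle hg) h (hle hh), map_add])
    (by
      filter_upwards [hf.nhds] with g hg hg'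
      rw [hg (hle hg'), map_zero])
    (by
      intro y u hu hu'
      rw [hM] at hu'
      have h7 := inert_conj_EvRec (t y.2 : GQ)⁻¹ hu
      rw [inv_smul_smul] at h7
      have h8 := conj_HH_GvVec (t y.2 : GQ)⁻¹ hu'
      have h5 := hw _ y.1.2 _ h7 h8
      have h6 := hf.conj (t y.2) _ h8.1
      have h9 := xi_conj_GvVec hK (t y.2 : GQ)⁻¹ (mem_HH_EvVec.1 hu').2
      rw [h5, h9, map_smul, ← hf.conj (t y.2) _ (hQ _ y.1.2).2.1] at h6
      rw [← lam_smul_EvVec (k := k), ← h6]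
      congr 2
      group)
    (fun R hR hpR hj u hu hu' => by rw [hA R hR hpR hj u hu (hle hu'), map_zero])
    (algebraMap (𝓞 F) OQ a) (fun e => ha (by
      have e1 : ((a : F) : Qb) = 0 := congrArg (fun z : OQ => (z : Qb)) e
      exact RingOfIntegers.ext (by simpa using e1))) (hFM (a : F).2) hS
  have hσ : ∀ j, (c j).σ ^ mm p F ∈ F.fixingSubgroup := fun j => (hC1 _).1
  have hτ : ∀ j, (c j).τ ∈ F.fixingSubgroup := fun j => ((hC3 _ (hc j)).1 (hc j).inert).1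
  have e1 : ∀ i, (t i : GQ)⁻¹ ((algebraMap (𝓞 F) OQ a : OQ) : Qb) =
      ((i.1.1⁻¹ (a : F) : F) : Qb) := by
    intro i
    rw [← hres i, rs_val, ← map_inv, res_coe_EvVec]
    rfl
  have hs : ∀ x : Fin m, s x ∈ F.fixingSubgroup := fun x => (hQ _ x.2).2.1
  rw [Fintype.sum_prod_type (f := fun y : Fin m × (Dl G F × Γ) => _)] at h3
  simp only [e1, hf.conj _ _ (hσ _), hf.conj _ _ (hτ _), hf.conj _ _ (hs _), hres] at h3
  have h4 : ∀ (w : J → Dl G F → ZMod p), ∑ j, ∑ i : Dl G F × Γ, w j i.1 =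
      (Fintype.card Γ : ZMod p) * ∑ j, ∑ δ, w j δ := by
    intro w
    simp only [Fintype.sum_prod_type, Finset.sum_const, Finset.card_univ, nsmul_eq_mul,
      ← Finset.mul_sum]
  rw [h4 fun j δ => KK p (δ.1⁻¹ (a : F) : F) ((c j).σ ^ mm p F) * lam (Ad δ (f (c j).τ)) -
    KK p (δ.1⁻¹ (a : F) : F) (c j).τ * lam (Ad δ (f ((c j).σ ^ mm p F)))] at h3
  have h5 : lam (∑ x ∈ Finset.range m, (if h : x < m then ∑ i : Dl G F × Γ, algebraMap (ZMod p) k
      (-(Fintype.card Γ : ZMod p)⁻¹ * L (algebraMap (𝓞 F) OQ a) (⟨x, h⟩, i)) • Ad i.1 else 0)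
        (f (s x))) = -(Fintype.card Γ : ZMod p)⁻¹ * ∑ x : Fin m, ∑ i : Dl G F × Γ,
        L (algebraMap (𝓞 F) OQ a) (x, i) * lam (Ad i.1 (f (s x))) := by
    rw [← Fin.sum_univ_eq_sum_range (fun x => (if h : x < m then ∑ i : Dl G F × Γ,
      algebraMap (ZMod p) k (-(Fintype.card Γ : ZMod p)⁻¹ *
        L (algebraMap (𝓞 F) OQ a) (⟨x, h⟩, i)) • Ad i.1 else 0) (f (s x))), map_sum,
      Finset.mul_sum]
    refine Finset.sum_congr rfl fun x _ => ?_
    rw [dif_pos x.2, LinearMap.sum_apply, map_sum, Finset.mul_sum]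
    refine Finset.sum_congr rfl fun i _ => ?_
    rw [LinearMap.smul_apply, lam_smul_EvVec, mul_assoc]
  rw [map_sub, map_add, h5, ← h3, neg_mul, inv_mul_cancel_left₀ hΓ]
  simp only [Tp2, map_sum, lam_smul_EvVec, Finset.sum_sub_distrib]
  ring

/-- the diagonal term of the relation attached to a member of the family -/
lemma rel_GvVec (hf : Eqv_FvVec G F Ad f) (hC : Cfg2Stmt p) (h2 : 2 < p)
    {J : Type} [Fintype J] {c : J → Cfg F} (hc : ∀ j, (c j).Ok2 p G)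
    (hinj : Function.Injective fun j => (c j).l) (j : J) :
    ((orderOf (res F (c j).σ) * (classNumber F * mm p F) : ℕ) : k) • f ((c j).σ ^ mm p F) =
      ∑ i, Tp2 p G Ad (c j).α (c i).τ (f ((c i).σ ^ mm p F)) := by
  classical
  obtain ⟨hC1, -, hC3⟩ := hC F G h2
  obtain ⟨-, hα, hQ, hδ, -, -⟩ := hC3 _ (hc j)
  rw [Finset.sum_eq_single j _ (by simp)]
  · set s : G := ⟨(c j).σ, (hc j).inG⟩ with hs
    have hfix : ∀ δ ∈ Subgroup.zpowers (rs G F s),
        Ad δ (f ((c j).σ ^ mm p F)) = f ((c j).σ ^ mm p F) := by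
      rintro δ ⟨n, rfl⟩
      have h5 := hf.conj (s ^ n) _ (hC1 (c j).σ).1
      rw [map_zpow] at h5
      refine h5.symm.trans (congrArg f ?_)
      rw [Subgroup.coe_zpow, mul_inv_eq_iff_eq_mul]
      exact ((Commute.refl (c j).σ).zpow_left n).pow_right _
    have hterm : ∀ δ : Dl G F,
        algebraMap (ZMod p) k (KK p (δ.1⁻¹ ((c j).α : F) : F) (c j).τ) •
          Ad δ (f ((c j).σ ^ mm p F)) = if δ ∈ Subgroup.zpowers (rs G F s) then
          ((classNumber F * mm p F : ℕ) : k) • f ((c j).σ ^ mm p F) else 0 := by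
      intro δ
      rw [hδ]
      by_cases h : δ ∈ Subgroup.zpowers (rs G F s)
      · rw [if_pos h, if_pos ((zpow_iff_FvVec s δ).2 h), map_natCast, hfix δ h]
      · rw [if_neg h, if_neg fun h' => h ((zpow_iff_FvVec s δ).1 h'), map_zero, zero_smul]
    have hcard : (Finset.univ.filter fun δ : Dl G F => δ ∈ Subgroup.zpowers (rs G F s)).card =
        orderOf (res F (c j).σ) := by
      rw [← Fintype.card_subtype, ← Nat.card_eq_fintype_card, Nat.card_zpowers,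
        ← Subgroup.orderOf_coe, rs_val]
    rw [Tp2, Finset.sum_congr rfl fun δ _ => hterm δ, ← Finset.sum_filter, Finset.sum_const,
      hcard, Nat.cast_mul (orderOf _), mul_smul, Nat.cast_smul_eq_nsmul]
  · intro i _ hi
    have h3 := (hC3 _ (hc i)).2.2.2.2.2 _ (hc j) fun e => hi (hinj e).symm
    simp [Tp2, h3]

end main

theorem vecW_stmt (p : ℕ) [Fact p.Prime] (hK : KKStmt p) (hW : WildStmt) (hR : RecUStmt p) (hR' : RecWStmt p) (hT : TrivStmt p) (hC : Cfg2Stmt p) : VecWStmt p := by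
  intro F _ _ G hG h2 hd hdi k V _ _ _ _ Ad m Q s hQ hcov
  obtain ⟨o, ho⟩ := recip_GvVec hK hR' hT hC hG h2 hd hdi Ad m Q s hQ hcov
  refine ⟨o, fun f h1 h3 h4 hw J _ c hc hinj hun => ?_⟩
  have hf : Eqv_FvVec G F Ad f := ⟨hG, h1, h3, h4⟩
  have hA : ∀ R : Ideal OQ, R.IsMaximal → (p : OQ) ∉ R → (∀ j, ∀ g ∈ G, R ≠ g • (c j).P) →
      ∀ u ∈ R.inertia GQ, u ∈ F.fixingSubgroup → f u = 0 := by
    intro R hR hpR hj u hu hu'
    by_cases h : Ideal.absNorm (R.under (𝓞 F)) ≡ 1 [MOD p]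
    · exact hun R u ⟨hR, hu, hu'⟩ hj h
    · exact hf.unram hW hR hpR h hu hu'
  have hrec := (hf.recip hR hT hC h2 hd hdi hc hinj).1
  have hrec2 := ho f hf hw J c hc hinj hA
  have hI : ∀ j, (c j).P.inertia GQ ≤ HH p F := fun j => ((hC F G h2).2.2 _ (hc j)).1
  refine ⟨fun j => ?_, fun e => ?_, ?_, fun j g hg => ?_⟩
  · obtain ⟨-, hα, hS, -⟩ := (hC F G h2).2.2 _ (hc j)
    rw [rel_GvVec hf hC h2 hc hinj j]
    exact hrec2 (c j).α hα fun R h5 h6 => ⟨j, (hS R h5 h6).imp fun g hg => ⟨hG hg.1, hg.2⟩⟩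
  · rw [← hrec2 e e.ne_zero fun R hR h =>
      absurd (R.eq_top_of_isUnit_mem h (e.isUnit.map _)) hR.ne_top]
    refine Finset.sum_eq_zero fun j _ => ?_
    have h5 := ((hC F G h2).2.2 _ (hc j)).2.2.2.2.1 e
    simp [Tp2, h5]
  · rintro hcon P u ⟨hP, hu, hu'⟩ hpP
    by_cases hj : ∃ j, ∃ g ∈ G, P = g • (c j).P
    · obtain ⟨j, g, hg, rfl⟩ := hj
      have h7 := inert_conj_EvRec g⁻¹ hu
      rw [inv_smul_smul] at h7
      have h5 := hrec j _ h7
      have h6 := hf.conj ⟨g, hg⟩ _ (hI j h7).1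
      rw [h5, hcon j, smul_zero, map_zero] at h6
      simpa [mul_assoc] using h6
    · exact hA P hP hpP (fun j g hg h => hj ⟨j, g, hg, h⟩) u hu hu'
  · have hle : Subgroup.zpowers (c j).σ ⊔ HH p F ≤
        (eig_FvVec p Ad (f (c j).τ)).map G.subtype := by
      refine sup_le (Subgroup.zpowers_le.2 ⟨⟨_, (hc j).inG⟩, ?_, rfl⟩) fun h hh =>
        ⟨⟨h, hG hh.1⟩, ?_, rfl⟩
      · have hτ := hI j (hc j).inert
        have h7 := inert_conj_EvRec (c j).σ (hc j).inert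
        rw [frob_stab_EvRec (hc j).max (hc j).prime (hc j).frob] at h7
        have h8 := hK.2.2.2.2.1 ((c j).l : Qb) (c j).σ (c j).τ
          (Nat.cast_ne_zero.mpr (hc j).prime.ne_zero) (by simp) (mem_HH_EvVec.1 hτ).2
        rw [map_natCast, (hc j).gen, mul_one] at h8
        change Ad (rs G F ⟨_, (hc j).inG⟩) _ = _
        rw [← hf.conj _ _ hτ.1]
        exact (hrec j _ h7).trans (by rw [h8])
      · obtain ⟨e1, e2⟩ := mem_HH_EvVec.1 hh
        have e3 : rs G F ⟨h, hG hh.1⟩ = 1 := Subtype.ext e1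
        change Ad (rs G F ⟨h, hG hh.1⟩) _ = algebraMap (ZMod p) k (cyc p h : (ZMod p)ˣ) • _
        rw [e3, e2]
        simp
    obtain ⟨g', hg', e⟩ := hle hg
    obtain rfl : g' = g := Subtype.ext e
    exact hg'

end Pool.Agent.MP_f68ac8_nt.Ev
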