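import Mathlib
import Pool.Agent.MP_f68ac8_nt.HT2
import Pool.Agent.MP_f68ac8_nt.Count3
import Pool.Agent.MP_f68ac8_nt.DefsHT

/-! The criterion for Hodge-Tate representations. -/

namespace Pool.Agent.MP_f68ac8_nt

open Matrix NumberField
open scoped Topology

lemma par {K : Type} [Field K] {N : M2 K} (hN : N ≠ 0) {u u' : Fin 2 → K} (h : N *ᵥ u = 0)
    (h' : N *ᵥ u' = 0) (h0 : u' ≠ 0) : ∃ c : K, u = c • u' := by
  obtain ⟨i, hi⟩ := Function.ne_iff.mp hN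
  obtain ⟨j, hj⟩ := Function.ne_iff.mp hi
  have e1 := congrFun h i
  have e2 := congrFun h' i
  simp only [mulVec, dotProduct, Fin.sum_univ_two, Pi.zero_apply] at e1 e2
  have e3 : u 0 * u' 1 = u 1 * u' 0 := by
    apply mul_left_cancel₀ hj
    fin_cases j
    · exact show N i 0 * _ = N i 0 * _ by linear_combination u' 1 * e1 - u 1 * e2
    · exact show N i 1 * _ = N i 1 * _ by linear_combination u 0 * e2 - u' 0 * e1
  obtain ⟨k, hk⟩ := Function.ne_iff.mp h0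
  refine ⟨u k / u' k, funext fun l => ?_⟩
  rw [Pi.smul_apply, smul_eq_mul, div_mul_eq_mul_div, eq_div_iff hk]
  fin_cases k <;> fin_cases l
  exacts [rfl, e3.symm, e3, rfl]

lemma ratl_aux {K L : Type} [Field K] [Field L] [CharZero L] (φ : K →+* L) {a b c x y z : K}
    {δ e u v : L} (hd : ∀ d, φ d ≠ δ) (d1 : δ * δ = φ (a ^ 2 + b * c)) (hc : c ≠ 0)
    (hu : u ≠ 0 ∨ v ≠ 0) (e1 : φ x * u + φ y * v = e * u) (e2 : φ z * u + -φ x * v = e * v)
    (e3 : φ c * u + -φ a * v = δ * v) : x * c - z * a = 0 ∧ z * b - y * c = 0 := by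
  have c1 : φ c ≠ 0 := by simpa using hc
  have u1 : v ≠ 0 := by
    rintro rfl
    simp [c1] at e3 hu
    exact hu e3
  rw [map_add, map_mul, map_pow] at d1
  have e4 : 2 * φ (x * c - z * a) * δ =
      φ (2 * z * a ^ 2 + z * b * c - y * c ^ 2 - 2 * x * a * c) := by
    simp only [map_sub, map_add, map_mul, map_pow, map_ofNat]
    apply mul_left_cancel₀ (pow_ne_zero 2 u1)
    linear_combination (φ c ^ 2 * v) * e1 - (φ c ^ 2 * u) * e2
      + (φ z * (φ c * u + (δ + φ a) * v) - 2 * φ x * φ c * v) * e3 + φ z * v ^ 2 * d1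
  have e5 : x * c - z * a = 0 := by
    by_contra e
    refine hd ((2 * z * a ^ 2 + z * b * c - y * c ^ 2 - 2 * x * a * c) / (2 * (x * c - z * a))) ?_
    rw [map_div₀, ← e4, map_mul, map_ofNat, mul_div_cancel_left₀]
    exact mul_ne_zero two_ne_zero ((map_ne_zero φ).mpr e)
  rw [e5, map_zero, mul_zero, zero_mul, eq_comm, map_eq_zero] at e4
  exact ⟨e5, mul_left_cancel₀ hc (by linear_combination e4 + 2 * a * e5)⟩

lemma conj_form {K : Type} [Field K] {a b c : K} (hc : c ≠ 0) {N : M2 K} (h : N 1 1 = -N 0 0)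
    (e1 : N 0 0 * c - N 1 0 * a = 0) (e2 : N 1 0 * b - N 0 1 * c = 0) :
    !![1, -a / c; 0, 1 / c] * N * !![1, a; 0, c] = (N 1 0 / c) • !![0, a ^ 2 + b * c; 1, 0] := by
  ext i j
  fin_cases i <;> fin_cases j <;> simp [mul_apply, vecMul, dotProduct, h] <;> field_simp
  · linear_combination e1
  · linear_combination 2 * a * e1 - c * e2
  · linear_combination -e1

section
variable {K : Type} [Field K] [CharZero K] {G : Type} [Group G] {ρ : G →* M2 K}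

lemma eig_of_nil (h : ∀ g g', BB (ρ g) (ρ g') = 0) :
    ∃ u : Fin 2 → K, u ≠ 0 ∧ ∀ g, ∃ c : K, ρ g *ᵥ u = c • u := by
  by_cases h0 : ∀ g, XX (ρ g) = 0
  · refine ⟨1, one_ne_zero, fun g => ⟨tt (ρ g), ?_⟩⟩
    conv_lhs => rw [← tt_add_XX (ρ g), h0, add_zero, smul_mulVec, one_mulVec]
  push Not at h0
  obtain ⟨g₀, h0⟩ := h0
  obtain ⟨u, hu, e⟩ := (exists_mulVec_eq_zero_iff (M := XX (ρ g₀))).mpr (by
    rw [← mul_self_eq_zero, ← det_mul, XX_sq, h]
    simp)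
  refine ⟨u, hu, fun g => par h0 ?_ e hu⟩
  have : XX (ρ g₀) * ρ g = ρ g * XX (ρ g₀) := by
    rw [XX, sub_mul, mul_sub, commute_of_BB (h _ _) (h _ _) (h _ _), smul_mul_assoc, mul_smul_comm,
      one_mul, mul_one]
  rw [mulVec_mulVec, this, ← mulVec_mulVec, e, mulVec_zero]

omit [CharZero K] in
lemma ratl_rat {L : Type} [Field L] (φ : K →+* L) {N : M2 K} (n0 : N ≠ 0)
    {u : Fin 2 → L} (hu : u ≠ 0) (e2 : N.map φ *ᵥ u = 0)
    (h : ∀ g, ∃ a : L, (ρ g).map φ *ᵥ u = a • u) :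
    ∃ u : Fin 2 → K, u ≠ 0 ∧ ∀ g, ∃ c : K, ρ g *ᵥ u = c • u := by
  obtain ⟨u₀, hu₀, e⟩ := (exists_mulVec_eq_zero_iff (M := N)).mpr (φ.injective (by
    rw [RingHom.map_det, map_zero]
    exact exists_mulVec_eq_zero_iff.mp ⟨u, hu, e2⟩))
  have e1 : ∀ (M : M2 K) (x : Fin 2 → K), M.map φ *ᵥ (φ ∘ x) = φ ∘ (M *ᵥ x) :=
    fun M x => funext fun i => (RingHom.map_mulVec φ _ x i).symm
  obtain ⟨c, hc⟩ := par (N := N.map φ) (fun e => n0 (by
    ext i j
    exact φ.injective (by simpa using congrFun (congrFun e i) j))) (u := φ ∘ u₀)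
    (by rw [e1, e]; ext i; simp) e2 hu
  refine ⟨u₀, hu₀, fun g => par n0 (funext fun i => φ.injective ?_) e hu₀⟩
  obtain ⟨a, ha⟩ := h g
  have := congrFun (e1 N (ρ g *ᵥ u₀)) i
  rw [← e1, hc, mulVec_smul, ha, mulVec_smul, mulVec_smul, e2, smul_zero, smul_zero] at this
  simpa using this.symm

lemma ratl {L : Type} [Field L] [CharZero L] (φ : K →+* L) {t : G} (ht : BB (ρ t) (ρ t) ≠ 0)
    {u : Fin 2 → L} (hu : u ≠ 0) (h : ∀ g, ∃ a : L, (ρ g).map φ *ᵥ u = a • u) :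
    (∃ u : Fin 2 → K, u ≠ 0 ∧ ∀ g, ∃ c : K, ρ g *ᵥ u = c • u) ∨
      ∃ (D : K) (A A' : M2 K), A * A' = 1 ∧ A' * A = 1 ∧ ¬ IsSquare D ∧
        (∀ g, XX (A' * ρ g * A) = XX (A' * ρ g * A) 1 0 • !![0, D; 1, 0]) ∧
        XX (A' * ρ t * A) 1 0 ≠ 0 := by
  have hX : ∀ g, ∃ a : L, (XX (ρ g)).map φ *ᵥ u = a • u := fun g => by
    obtain ⟨a, ha⟩ := h g
    exact ⟨a - tt ((ρ g).map φ), by rw [← XX_map, XX, sub_mulVec, ha, smul_mulVec, one_mulVec,
      sub_smul]⟩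
  obtain ⟨δ, hδ⟩ := hX t
  have hD : BB (ρ t) (ρ t) / 2 = XX (ρ t) 0 0 ^ 2 + XX (ρ t) 0 1 * XX (ρ t) 1 0 := by
    simp only [BB, trace_fin_two, mul_apply, Fin.sum_univ_two, XX_11]
    ring
  have d1 : δ * δ = φ (BB (ρ t) (ρ t) / 2) := by
    have : (XX (ρ t)).map φ *ᵥ ((XX (ρ t)).map φ *ᵥ u) = (δ * δ) • u := by
      rw [hδ, mulVec_smul, hδ, smul_smul]
    rw [mulVec_mulVec, ← XX_map, XX_sq, BB_map, smul_mulVec, one_mulVec] at this
    rw [map_div₀, map_ofNat]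
    exact (smul_left_injective L hu this).symm
  by_cases hd : ∃ d, φ d = δ
  · left
    obtain ⟨d, rfl⟩ := hd
    rw [← map_mul, φ.injective.eq_iff] at d1
    refine ratl_rat φ (N := XX (ρ t) - d • 1) (fun e => ht ?_) hu ?_ h
    · have e1 := congrFun (congrFun e 0) 0
      have e2 := congrFun (congrFun e 1) 1
      simp [XX_11] at e1 e2
      linear_combination (-2) * d1 - d * (e1 + e2)
    · rw [Matrix.map_sub _ (map_sub φ), sub_mulVec, hδ]
      ext i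
      fin_cases i <;> simp [mulVec, dotProduct, one_apply]
  right
  push Not at hd
  have hsq : ¬ IsSquare (BB (ρ t) (ρ t) / 2) := by
    rintro ⟨d, e⟩
    rw [e, map_mul, mul_self_eq_mul_self_iff, ← map_neg] at d1
    exact d1.elim (fun e => hd _ e.symm) fun e => hd _ e.symm
  rw [hD] at hsq d1
  have c0 : XX (ρ t) 1 0 ≠ 0 := fun e => hsq ⟨XX (ρ t) 0 0, by rw [e]; ring⟩
  have e3 := congrFun hδ 1
  have hu' : u 0 ≠ 0 ∨ u 1 ≠ 0 := by
    obtain ⟨i, hi⟩ := Function.ne_iff.mp hu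
    fin_cases i
    exacts [.inl hi, .inr hi]
  simp only [mulVec, dotProduct, Fin.sum_univ_two, map_apply, Pi.smul_apply, smul_eq_mul,
    XX_11, map_neg] at e3
  have k : ∀ g, XX (ρ g) 0 0 * XX (ρ t) 1 0 - XX (ρ g) 1 0 * XX (ρ t) 0 0 = 0 ∧
      XX (ρ g) 1 0 * XX (ρ t) 0 1 - XX (ρ g) 0 1 * XX (ρ t) 1 0 = 0 := fun g => by
    obtain ⟨a, ha⟩ := hX g
    have e1 := congrFun ha 0
    have e2 := congrFun ha 1
    simp only [mulVec, dotProduct, Fin.sum_univ_two, map_apply, Pi.smul_apply, smul_eq_mul,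
      XX_11, map_neg] at e1 e2
    exact ratl_aux φ hd d1 c0 hu' e1 e2 e3
  generalize hb : XX (ρ t) 0 1 = b at k hsq
  generalize ha : XX (ρ t) 0 0 = a at k hsq
  generalize hc : XX (ρ t) 1 0 = c at k hsq c0
  have a1 : !![1, a; 0, c] * !![1, -a / c; 0, 1 / c] = (1 : M2 K) := by
    ext i j
    fin_cases i <;> fin_cases j <;> simp [c0] <;> field_simp <;> ring
  have a2 := mul_eq_one_comm.mp a1
  have f := fun g => (XX_conj a1 a2 (ρ g)).trans (conj_form c0 (XX_11 _) (k g).1 (k g).2)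
  refine ⟨_, _, _, a1, a2, hsq, fun g => ?_, ?_⟩
  · rw [f]
    simp
  · rw [f]
    simpa [hc] using c0

end

end Pool.Agent.MP_f68ac8_nt
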