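import Mathlib
import Pool.Agent.MP_f68ac8_nt.HT3

/-! The criterion for Hodge-Tate representations: the main theorem. -/

namespace Pool.Agent.MP_f68ac8_nt

open Matrix NumberField
open scoped Topology

variable {p : ℕ} [hp : Fact p.Prime]

lemma exists_scale {K : Type} [NormedField K] [IsAlgClosed K] (x : K) :
    ∃ w : K, ‖w‖ ^ 2 = ‖x‖ ∧ (w = p ∨ ‖w‖ ≠ ‖(p : K)‖) := by
  obtain ⟨w, hw⟩ := IsAlgClosed.exists_pow_nat_eq x two_pos
  by_cases h : ‖w‖ = ‖(p : K)‖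
  · exact ⟨p, by rw [← h, ← norm_pow, hw], .inl rfl⟩
  · exact ⟨w, by rw [← norm_pow, hw], .inr h⟩

lemma exists_max {K : Type} [NormedField K] [CharZero K] {G : Type} [Group G] [TopologicalSpace G]
    [CompactSpace G] {ρ : G →* M2 K} (hc : Continuous ρ) :
    ∃ g₀ h₀, ∀ g h, ‖BB (ρ g) (ρ h)‖ ≤ ‖BB (ρ g₀) (ρ h₀)‖ := by
  have hcont : Continuous fun z : G × G => ‖BB (ρ z.1) (ρ z.2)‖ := by
    unfold BB
    have := continuous_XX (K := K)
    fun_prop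
  obtain ⟨⟨g₀, h₀⟩, -, hmax⟩ := isCompact_univ.exists_isMaxOn Set.univ_nonempty hcont.continuousOn
  exact ⟨g₀, h₀, fun g h => hmax (Set.mem_univ (g, h))⟩

lemma BB_lt {K : Type} [NormedField K] [IsUltrametricDist K] [CharZero K] {G : Type} [Group G]
    {ρ : G →* M2 K} (h2 : ‖(2 : K)‖ = 1) (htr : ∀ g, ‖tt (ρ g) - 1‖ < 1) (g h : G) :
    ‖BB (ρ g) (ρ h)‖ < 1 := by
  have e : BB (ρ g) (ρ h) = 2 * ((tt (ρ (g * h)) - 1) - (tt (ρ g) - 1) * tt (ρ h)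
      - (tt (ρ h) - 1)) := by
    rw [BB_eq, map_mul]
    ring
  rw [e]
  exact le_mul_lt h2.le (lt_sub (lt_sub (htr _)
    (lt_mul_le (htr _) (le_of_sub norm_one.le (htr _)))) (htr _))

lemma one_of_scalar {K : Type} [NormedField K] [IsUltrametricDist K] [CharZero K] {G : Type}
    [Group G] {ρ : G →* M2 K} (hK : ‖(p : K)‖ < 1) (htr : ∀ g, ‖tt (ρ g) - 1‖ < 1)
    (hI : ∀ u, ρ u ^ p = 1 → ρ u = 1) {σ u : G} {l : ℕ} (hl : 1 < l)
    (h : ρ σ * ρ u = ρ u ^ l * ρ σ) (h0 : XX (ρ u) = 0) : ρ u = 1 := by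
  have e : ρ σ * ρ u = ρ u * ρ σ := by
    rw [← tt_add_XX (ρ u), h0, add_zero, mul_smul_comm, smul_mul_assoc, one_mul, mul_one]
  have := congrArg (· * ρ σ⁻¹) (e.symm.trans h)
  simp only [mul_assoc, ← map_mul, mul_inv_cancel, map_one, mul_one] at this
  exact eq_one_of_fin hK htr (I := ⊤) (fun u _ => hI u) trivial (by omega)
    (pow_pred_eq_one (by omega) this.symm)

variable {Ω : Type} [Field Ω] [CharZero Ω] [IsAlgClosure ℚ Ω] {ι : Ω →+* ℂ_[p]}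
  {ρ : (Ω ≃ₐ[ℚ] Ω) →* M2 ℚ_[p]} {a b : ℤ} {v w : Fin 2 → ℂ_[p]}

theorem ht_general (h10 : 10 ≤ p) {d : ℕ} {q : Fin d → ℕ} {m : Matrix (Fin d) (Fin d) (ZMod p)}
    (hL : Linked p q m) (hq2 : ∀ i, ¬ q i ≡ 1 [MOD p ^ 2])
    (hsol : ∀ (F : Type) [Field F] [Algebra (ZMod p) F] (e : Bool),
      ¬ Sol2 F m e ((a - b : ℤ) : ZMod p))
    (hc : Continuous ρ) (htr : ∀ g, ‖tt (ρ g) - 1‖ < 1)
    (h2 : ∀ (l : ℕ) (P : Ideal (𝓞 Ω)), l.Prime → l ≡ 1 [MOD p] → (∀ j, q j ≠ l) → P.IsMaximal →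
      (l : 𝓞 Ω) ∈ P → ∀ u ∈ P.inertia (Ω ≃ₐ[ℚ] Ω), ρ u = 1)
    (h : HT' ι ρ a v) (h' : HT' ι ρ b w) (hv : v 0 * w 1 - w 0 * v 1 ≠ 0) :
    ∃ u : Fin 2 → ℚ_[p], u ≠ 0 ∧ ∀ g, ∃ c : ℚ_[p], ρ g *ᵥ u = c • u := by
  have hp2 : p ≠ 2 := by omega
  have hv0 : v ≠ 0 := fun e => by simp [e] at hv
  obtain ⟨g₀, h₀, hmax⟩ := exists_max hc
  by_cases h0 : BB (ρ g₀) (ρ h₀) = 0
  · exact eig_of_nil fun g h => by simpa [h0] using hmax g h
  have hc0 : ∀ j, ∃ c, q j = p * c + 1 ∧ p.Coprime c := fun j => by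
    obtain ⟨c, e⟩ := (Nat.modEq_iff_dvd' (hL.2.1 j).1.one_le).mp (hL.2.1 j).2.symm
    have := (hL.2.1 j).1.one_le
    refine ⟨c, by omega, (Nat.Prime.coprime_iff_not_dvd hp.out).mpr fun e' => hq2 j ?_⟩
    exact ((Nat.modEq_iff_dvd' this).mpr (by rw [e, pow_two]; exact mul_dvd_mul_left _ e')).symm
  choose c hq hcop using hc0
  obtain rfl : q = fun j => p * c j + 1 := funext hq
  obtain ⟨hinj, hq, ψ, hψ, hm⟩ := hL
  haveI : ∀ j, Fact (p * c j + 1).Prime := fun j => ⟨(hq j).1⟩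
  have hqp : ∀ j, p * c j + 1 ≠ p := fun j e => by
    have : p * c j + 1 ≡ 1 [MOD p] := (hq j).2
    rw [e, Nat.ModEq, Nat.mod_self, Nat.mod_eq_of_lt hp.out.one_lt] at this
    exact zero_ne_one this
  choose P hP hqP using fun j => exists_maximal_mem (Ω := Ω) (hq j).1
  choose σ hσ using fun j => exists_frob (P j) (hq j).1 (hqP j)
  have hτ : ∀ j, ∃ τ ∈ (P j).inertia (Ω ≃ₐ[ℚ] Ω), (ψ j (cyc (p * c j + 1) τ)).toAdd = 1 :=
    fun j => by
      obtain ⟨u, hu⟩ := hψ j (Multiplicative.ofAdd 1)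
      obtain ⟨τ, t1, t2⟩ := cyc_inertia_surj (hqP j) u
      exact ⟨τ, t1, by rw [t2, hu]; rfl⟩
  choose τ hτ hτ' using hτ
  haveI := primeC_maximal ι
  obtain ⟨t, ht, h1⟩ := exists_psi_one (p_mem_primeC ι)
  have hp1 : (p : ℝ)⁻¹ < 1 := inv_lt_one_of_one_lt₀ (Nat.one_lt_cast.mpr hp.out.one_lt)
  have hK : ‖(p : ℂ_[p])‖ < 1 := norm_p_cp.trans_lt hp1
  obtain ⟨F, _, ⟨R⟩⟩ := exists_red ℂ_[p]
  haveI := R.charP hK
  letI := ZMod.algebra F p
  let φ := algebraMap ℚ_[p] ℂ_[p]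
  obtain ⟨r, hr⟩ : ∃ r : (Ω ≃ₐ[ℚ] Ω) →* M2 ℂ_[p], ∀ g, r g = (ρ g).map φ :=
    ⟨φ.mapMatrix.toMonoidHom.comp ρ, fun _ => rfl⟩
  have hc' : Continuous r := by
    rw [show (r : _ → _) = _ from funext hr]
    exact hc.matrix_map (continuous_algebraMap _ _)
  have htr' : ∀ g, ‖tt (r g) - 1‖ < 1 := fun g => by
    rw [hr, tt_map, ← map_one φ, ← map_sub, norm_qp]
    exact htr g
  have hT : ∀ g, trace (r g) ∈ (⊥ : IntermediateField ℚ_[p] ℂ_[p]) := fun g =>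
    IntermediateField.mem_bot.mpr ⟨trace (ρ g), by rw [hr]; simp [trace_fin_two, φ]⟩
  have hI : ∀ u, r u ^ p = 1 → r u = 1 := fun u hu => eq_one_of_small ⊥
    (by rw [IntermediateField.finrank_bot]; omega) (hT u) (by rw [← map_mul]; exact hT _) hu
  have hrel := fun j => tame_rel hK hc' htr' (hq j).1 (hqP j) (hqp j) (hσ j) (hτ j)
  have hadd := fun (x : (Ω ≃ₐ[ℚ] Ω) → F) => add_structure2 ι (by omega) _ hinj hqp ψ P hqP τ hτ
    hτ' ht h1 x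
  have H : Hyp2 F r τ σ t c m (fun j g => (ψ j (cyc (p * c j + 1) g)).toAdd) (psi p) :=
    ⟨hc', htr', fun j => nil_of_rel hK hp2 htr' (I := ⊤) (fun u _ => hI u) trivial
      (hq j).1.one_lt (hq j).2 (hrel j), hrel,
      fun x x1 x2 x3 => hadd x x1 x2 fun l Q hl hQ hlQ c1 c2 u hu => x3 u (by
        rw [hr, h2 l Q hl c1 c2 hQ hlQ u hu, Matrix.map_one _ (map_zero _) (map_one _)]), hcop,
      fun i j hij => (hm i j hij _ (cyc_frob (not_mem_of_coprime (hqP i)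
        ((Nat.coprime_primes (hq i).1 (hq j).1).mpr fun e => hij (hinj e))) (hσ i))).trans (by
          rw [val_one (k := c i) (by simp) (by
            rw [Ne, ZMod.natCast_eq_zero_iff]
            exact (Nat.Prime.coprime_iff_not_dvd hp.out).mp (hcop i))]),
      fun i => psi_frob (hqP i) (hσ i)⟩
  have hB : ∀ g h, BB (r g) (r h) = φ (BB (ρ g) (ρ h)) := fun g h => by rw [hr, hr, BB_map]
  have hnil : ∀ i, BB (ρ (τ i)) (ρ (τ i)) = 0 := fun i => by simpa [hB] using H.nil i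
  obtain ⟨W, hW, hk⟩ := exists_scale (p := p) (φ (BB (ρ g₀) (ρ h₀)))
  rw [norm_qp] at hW
  have n2 := norm_two hK hp2
  have n2' := norm_two_qp hp2
  have hB0 := norm_pos_iff.mpr h0
  have hW0 : W ≠ 0 := by
    rintro rfl
    simp [← hW] at hB0
  have hW1 : ‖W‖ < 1 := by
    rw [← sq_lt_one_iff₀ (norm_nonneg _), hW]
    exact BB_lt n2' htr _ _
  have hn : ∀ g h, ‖BB (r g) (r h) / W ^ 2‖ = ‖BB (ρ g) (ρ h)‖ / ‖BB (ρ g₀) (ρ h₀)‖ :=
    fun g h => by rw [norm_div, norm_pow, hW, hB, norm_qp]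
  have hmax' : ∀ g h, ‖BB (r g) (r h) / W ^ 2‖ ≤ 1 := fun g h => by
    rw [hn, div_le_one hB0]
    exact hmax g h
  by_cases hA : ∃ i j, ‖BB (r (τ i)) (r (τ j)) / W ^ 2‖ = 1
  · obtain ⟨i, j, hu⟩ := hA
    have hd := fun hW' => disc_lt h10 htr h hv0 ht (W := ‖W‖) hW' hW1 (by rwa [hW]) (hnil i) (hnil j)
      (by rwa [hn, div_eq_one_iff_eq hB0.ne', ← hW] at hu)
    refine ((H.sol R n2 hK hW0 hW1 hmax' hu hk ((a - b : ℤ) : ZMod p) (fun e => ?_)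
      fun e => ?_).elim fun e he => hsol F e he).elim
    · rw [e, norm_p_cp] at hd hW
      have := disc_level h10 htr h h' hv ht h1 (hW ▸ hmax t t) (hd le_rfl)
      rw [← norm_qp] at this
      rw [e, hB]
      simpa only [map_sub, map_mul, map_div₀, map_pow, map_natCast, map_ofNat] using this
    · rw [norm_p_cp] at e
      rw [hn, div_lt_one hB0, ← hW]
      have he := norm_eq_one_of_sub norm_one (ea_lt (p := p) a t⁻¹)
      have := lt_sub (x := (ea p a t⁻¹ * tt (ρ t) - 1) ^ 2) (by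
        rw [norm_pow]
        exact pow_lt_pow_left₀ ((ea_tt htr a _ _).trans_lt e) (norm_nonneg _) two_ne_zero) (hd e.le)
      rwa [sub_sub_cancel, norm_mul, norm_pow, he, one_pow, one_mul, norm_div, n2', div_one] at this
  push Not at hA
  obtain ⟨e1, u, hu, e2⟩ := H.eigen R n2 hK hW0 hW1 hmax' (g₀ := g₀) (h₀ := h₀)
    (by rw [hn, div_self hB0.ne']) fun i j => lt_of_le_of_ne (hmax' _ _) (hA i j)
  rcases ratl φ (t := t) (by simpa [hB] using e1) hu (by simpa only [hr] using e2) with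
    e | ⟨D, A, A', a1, a2, hD, hX, hX'⟩
  · exact e
  refine (abelian h10 (ρ := conjRep ρ a1 a2) ((continuous_const.mul hc).mul continuous_const)
    (fun g => lt_of_eq_of_lt (by rw [← tt_conj a1 (ρ g)]; rfl) (htr g)) (h.conj a1 a2) (conj_ne a1 hv0)
    ht hD hX hX' R fun x x1 x2 x3 g => ?_).elim
  have k : ∀ g, ρ g = 1 → conjRep ρ a1 a2 g = 1 := fun g hg => by
    change A' * ρ g * A = 1
    rw [hg, mul_one, a2]
  rw [hadd x x1 x2 (fun l Q hl hQ hlQ c1 c2 u hu => x3 u (k _ (h2 l Q hl c1 c2 hQ hlQ u hu))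
    (chi_unram hl hlQ (by
      rintro rfl
      rw [Nat.ModEq, Nat.mod_self, Nat.mod_eq_of_lt hl.one_lt] at c1
      exact zero_ne_one c1) hu)) g, add_eq_left]
  refine Finset.sum_eq_zero fun j _ => ?_
  rw [x3 _ (k _ ?_) (chi_unram (hq j).1 (hqP j) (hqp j) (hτ j)), smul_zero]
  have e3 := hnil j
  rw [← BB_conj a1 a2, BB, hX] at e3
  have e4 : XX (A' * ρ (τ j) * A) 1 0 = 0 := by
    have : D ≠ 0 := fun e => hD (by simp [e])
    generalize XX (A' * ρ (τ j) * A) 1 0 = y at e3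
    simp [trace_fin_two] at e3
    exact pow_eq_zero_iff two_ne_zero |>.mp (mul_left_cancel₀ (mul_ne_zero two_ne_zero this)
      (by linear_combination e3))
  have e5 := hX (τ j)
  rw [e4, zero_smul, XX_conj a1 a2] at e5
  have e6 : XX (ρ (τ j)) = 0 := by
    rw [← one_mul (XX _), ← mul_one (1 * XX _), ← a1, mul_assoc A, ← mul_assoc, mul_assoc A, e5]
    simp
  have := one_of_scalar hK htr' hI (hq j).1.one_lt (hrel j) (by rw [hr, XX_map, e6]; simp)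
  rw [hr] at this
  ext i k
  exact φ.injective (by simpa [one_apply] using congrFun (congrFun this i) k)

end Pool.Agent.MP_f68ac8_nt
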