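import Mathlib
import Pool.Agent.MP_f68ac8_nt.HT4

/-! The criterion for Hodge-Tate representations of the absolute Galois group. -/

namespace Pool.Agent.MP_f68ac8_nt

open Matrix NumberField

theorem ht_criterion {p : ℕ} [hp : Fact p.Prime] (h10 : 10 ≤ p) {d : ℕ}
    {m : Matrix (Fin d) (Fin d) (ZMod p)} {W : Set (ZMod p)}
    (hsol : ∀ k ∈ W, ∀ (F : Type) [Field F] [Algebra (ZMod p) F] (e : Bool), ¬ Sol2 F m e k) :
    Good p (HTFM p W) m := by
  rintro q hL hq2 ρ t1 t2 a b ⟨ι, v, w, hi, hv, hw⟩ hW
  haveI : IsAlgClosure ℚ (AlgebraicClosure ℚ) := AlgebraicClosure.instIsAlgClosure ℚ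
  let r : GQ →* M2 ℚ_[p] := (Units.coeHom _).comp ρ.toMonoidHom
  obtain ⟨l, l0, hl⟩ := exists_period ι (p := p) (by omega)
  have k : ∀ {a v}, HTVec p ι ρ a v → HT' ι r a (l ^ (-a) • v) := fun h => ht'_of hl fun g =>
    h g.1 (resC ι g) (GC.cont g) fun x => (resC_spec ι g x).symm
  refine ht_general h10 hL hq2 (hsol _ hW) (Units.continuous_val.comp ρ.continuous) (fun g => ?_)
    (fun l P hl l1 l2 hP h u hu => ?_) (k hv) (k hw) fun e => ?_
  · have : tt (r g) - 1 = (trace (ρ g).val - 2) / 2 := by
      change trace (ρ g).val / 2 - 1 = _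
      ring
    rw [this, norm_div, norm_two_qp (by omega), div_one]
    exact t1 g
  · exact congrArg Units.val (t2 l hl l1 (fun ⟨j, hj⟩ => l2 j hj) u ⟨P, hP, h, hu⟩)
  · have e' : v 0 * w 1 - w 0 * v 1 = 0 := by
      apply mul_left_cancel₀ (mul_ne_zero (zpow_ne_zero (-a) l0) (zpow_ne_zero (-b) l0))
      simp only [Pi.smul_apply, smul_eq_mul] at e
      linear_combination e
    rw [LinearIndependent.pair_iff] at hi
    have h1 := hi (w 1) (-v 1) (by
      ext i
      fin_cases i
      · simpa using by linear_combination e'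
      · simpa using by ring)
    have h0 := hi (w 0) (-v 0) (by
      ext i
      fin_cases i
      · simpa using by ring
      · simpa using by linear_combination -e')
    exact one_ne_zero (hi 0 1 (by
      ext i
      fin_cases i
      · simpa using h0.1
      · simpa using h1.1)).2

end Pool.Agent.MP_f68ac8_nt
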