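import Mathlib
import Pool.Agent.MP_f68ac8_nt.FvDefs
import Pool.Agent.MP_f68ac8_nt.DefsPH

namespace Pool.Agent.MP_f68ac8_nt

open Filter Topology NumberField Matrix IsLocalRing
open scoped Pointwise MatrixGroups

/-- a prime above `p` with a basis and a weight -/
structure OrdPl (p : ℕ) where
  P : Ideal (𝓞 (AlgebraicClosure ℚ))
  A : GL (Fin 2) (ZMod p)
  w : ℤ

variable {p : ℕ} [Fact p.Prime] {K : IntermediateField ℚ (AlgebraicClosure ℚ)} {m : ℕ}
  (F : IntermediateField ℚ (AlgebraicClosure ℚ)) (r : K.fixingSubgroup →* PGL(2, ZMod p))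
  (o : Fin m → OrdPl p)

/-- a matrix representing `r g` -/
noncomputable def rep (g : K.fixingSubgroup) : GL (Fin 2) (ZMod p) :=
  Function.surjInv ProjGenLinGroup.mk_surjective (r g)

variable (p) in
/-- the order modulo the Galois group of `F` is prime to `p` -/
def Tame (g : GQ) : Prop := ∃ a, ¬ p ∣ a ∧ g ^ a ∈ F.fixingSubgroup

/-- complex places, and real places where complex conjugation lies in the kernel -/
def EvenAt (v : InfinitePlace K) : Prop :=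
  ∃ φ : AlgebraicClosure ℚ →+* ℂ, InfinitePlace.mk (φ.comp (algebraMap K _)) = v ∧
    ∀ c : K.fixingSubgroup, (∀ x, φ (c.1 x) = starRingEnd ℂ (φ x)) → r c = 1

/-- `P` is not conjugate over `K` to an ordinary prime -/
def Away (P : Ideal (𝓞 (AlgebraicClosure ℚ))) : Prop :=
  ∀ i, P.under (𝓞 K) ≠ (o i).P.under (𝓞 K)

/-- no nonzero first order term of level one -/
def NoTang : Prop :=
  ∀ (u : ZMod p) (f : GQ → Matrix (Fin 2) (Fin 2) (ZMod p)),
    (∀ g ∈ F.fixingSubgroup, ∀ h ∈ F.fixingSubgroup, f (g * h) = f g + f h) →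
    (∀ g : K.fixingSubgroup, ∀ h ∈ F.fixingSubgroup,
      f (g * h * g.1⁻¹) = (rep r g).val * f h * (rep r g)⁻¹.val) →
    (∀ᶠ g in 𝓝 (1 : GQ), g ∈ F.fixingSubgroup → f g = 0) →
    (∀ g ∈ F.fixingSubgroup, (f g).trace = 0) →
    (∀ P g, Iner F P g → Away (K := K) o P → f g = 0) →
    (∀ i g, Iner F (o i).P g → ∀ y : ℤ_[p], (cycChar p g : ℤ_[p]) = 1 + p * y →
      ((o i).A⁻¹.val * f g * (o i).A.val) 1 0 = 0 ∧
      ((o i).A⁻¹.val * f g * (o i).A.val) 0 0 = u * (o i).w * PadicInt.toZMod y) →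
    ∀ g ∈ F.fixingSubgroup, f g = 0

/-- the hypotheses on the residual representation -/
structure MixRes [NumberField K] : Prop where
  big : 3 < p
  cut : ∀ g : K.fixingSubgroup,
    g.1 ∈ F.fixingSubgroup ↔ r g = 1 ∧ ∀ x, x ^ p = 1 → g.1 x = x
  mu : ∃ x, x ^ p ^ 2 = 1 ∧ x ∉ F
  cyc : ∃ g, r g = 1 ∧ g.1 ∉ F.fixingSubgroup
  irr : ∀ W : Submodule (ZMod p) (Matrix (Fin 2) (Fin 2) (ZMod p)),
    (∀ g, ∀ Z ∈ W, (rep r g).val * Z * (rep r g)⁻¹.val ∈ W) → (∀ Z ∈ W, Z.trace = 0) →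
    W = ⊥ ∨ ∀ Z, Z.trace = 0 → Z ∈ W
  tame : ∀ (P : Ideal (𝓞 (AlgebraicClosure ℚ))) (g : K.fixingSubgroup), P.IsMaximal →
    g.1 ∈ P.inertia GQ → Tame p F g
  max : ∀ i, (o i).P.IsMaximal ∧ ↑p ∈ (o i).P
  bor : ∀ i (g : K.fixingSubgroup), g.1 • (o i).P = (o i).P →
    Tame p F g ∧ ((o i).A⁻¹ * rep r g * (o i).A).val 1 0 = 0
  dis : ∀ i, ∃ g : K.fixingSubgroup, g.1 • (o i).P = (o i).P ∧
    ((o i).A⁻¹ * rep r g * (o i).A).val 0 0 ≠
      PadicInt.toZMod (cycChar p g : ℤ_[p]) * ((o i).A⁻¹ * rep r g * (o i).A).val 1 1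
  defect : ∑ i, ((o i).P.under (𝓞 K)).ramificationIdx ℤ * ((o i).P.under (𝓞 K)).inertiaDeg ℤ +
    (if p ∣ Nat.card r.range then 3 else 2) ≤
      Nat.card (InfinitePlace K) + 2 * {v | EvenAt r v}.ncard

/-- at some ordinary prime, if there is one, the weight is prime to `p` and the cyclotomic
character modulo `p ^ 2` is ramified -/
def Regular : Prop :=
  m = 0 ∨ ∃ i, ¬ (p : ℤ) ∣ (o i).w ∧ ∃ g, Iner F (o i).P g ∧ ∃ x, x ^ p ^ 2 = 1 ∧ g x ≠ x

variable (p) in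
/-- admissible exponents -/
def Expo (O : Type) [CommRing O] [IsLocalRing O] (a : ℕ) : Prop :=
  0 < a ∧ (p ∣ a → ↑p ∉ maximalIdeal O ^ (p - 1))

/-- the local conditions on a lift: projectively finite inertia away from `S` and the ordinary
primes, and an ordinary filtration of the given weight at the ordinary primes -/
structure MixLoc (S : Set (Ideal (𝓞 K))) {O : Type} [CommRing O] [IsLocalRing O]
    [Algebra ℤ_[p] O] (ρ : K.fixingSubgroup →* GL (Fin 2) O) : Prop where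
  res : ↑p ∈ maximalIdeal O
  cont : ∀ k, ∀ᶠ g in 𝓝 1, ∀ i j, ((ρ g).val - 1) i j ∈ maximalIdeal O ^ k
  fin : ∀ P (g : K.fixingSubgroup), Iner F P g → P.under (𝓞 K) ∉ S → Away (K := K) o P →
    ∃ a, Expo p O a ∧ IsScal (ρ g ^ a)
  ord : ∀ i, ∃ A : GL (Fin 2) O, (∀ s t, A.val s t - ((o i).A.val s t).val ∈ maximalIdeal O) ∧
    ∀ g : K.fixingSubgroup, Iner F (o i).P g → (A⁻¹ * ρ g * A).val 1 0 = 0 ∧
      ∃ a, Expo p O a ∧ (A⁻¹ * ρ g * A).val 0 0 ^ a =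
        (algebraMap ℤ_[p] O (cycChar p g ^ (o i).w : ℤ_[p]ˣ) * (A⁻¹ * ρ g * A).val 1 1) ^ a

/-- every lift of `r` with the local conditions is scalar on the Galois group of `F` -/
def MixLift (S : Set (Ideal (𝓞 K))) : Prop :=
  ∀ (O : Type) [CommRing O] [IsDomain O] [IsDiscreteValuationRing O] [Algebra ℤ_[p] O]
    (ρ : K.fixingSubgroup →* GL (Fin 2) O), MixLoc F o S ρ →
    (∀ g, ∃ c : O, ∀ i j, (ρ g).val i j - c * ((rep r g).val i j).val ∈ maximalIdeal O) →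
    ScalOn F ρ

end Pool.Agent.MP_f68ac8_nt
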