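import Mathlib
import Pool.Agent.MP_f68ac8_nt.QvDefs
import Pool.Agent.MP_f68ac8_nt.GvDefs

namespace Pool.Agent.MP_f68ac8_nt

open Filter Topology NumberField Matrix Module
open scoped Pointwise

variable {p : ℕ} [Fact p.Prime] {K : IntermediateField ℚ (AlgebraicClosure ℚ)}
  (F : IntermediateField ℚ (AlgebraicClosure ℚ)) {n : ℕ}
  (r : K.fixingSubgroup →* GL (Fin n) (ZMod p))

/-- the hypotheses on the residual representation -/
structure TamRes : Prop where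
  big : 2 ≤ n ∧ 2 * n < p
  cut : ∀ g : K.fixingSubgroup,
    g.1 ∈ F.fixingSubgroup ↔ IsScal (r g) ∧ ∀ x, x ^ p = 1 → g.1 x = x
  tame : ∀ g : K.fixingSubgroup, Tame p F g
  irr : AdIrr r
  split : ∀ P : Ideal (𝓞 (AlgebraicClosure ℚ)), P.IsMaximal → ↑p ∈ P → ∀ g : GQ, g • P = P →
    ∃ h : g ∈ K.fixingSubgroup, IsScal (r ⟨g, h⟩)

/-- level raising types -/
def TamTyp (t : K.fixingSubgroup) : Prop :=
  ∃ X, X ≠ 0 ∧ IsNilpotent X ∧ ∀ Z, (r t).val * Z * (r t)⁻¹.val =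
    PadicInt.toZMod (cycChar p t : ℤ_[p]) • Z ↔ ∃ c : ZMod p, Z = c • X

/-- `ρ` is ordinary with weights `b` at the place given by `ι` -/
def OrdAt (ι : AlgebraicClosure ℚ →+* ℂ_[p]) (ρ : K.fixingSubgroup → GL (Fin n) ℤ_[p])
    (b : Fin n → ℤ) : Prop :=
  ∃ A : GL (Fin n) ℤ_[p], ∀ P : Ideal (𝓞 (AlgebraicClosure ℚ)), (∀ x, x ∈ P ↔ ‖ι x‖ < 1) →
    ∀ g : K.fixingSubgroup, g.1 • P = P → (A⁻¹ * ρ g * A).val.BlockTriangular id ∧
      (Iner F P g → ∃ m, 0 < m ∧ ∃ c, ∀ s, (A⁻¹ * ρ g * A).val s s ^ m =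
        c * (cycChar p g ^ b s : ℤ_[p]ˣ) ^ m)

variable (a : (K →+* ℂ_[p]) → Fin n → ZMod p) (o : Set (K →+* ℂ_[p]))

/-- the conditions on a lift -/
structure TamLoc (S : Set (Ideal (𝓞 K))) (ρ : K.fixingSubgroup →ₜ* GL (Fin n) ℤ_[p]) : Prop where
  lift : ∀ g, ∃ c : ZMod p, (ρ g).val.map PadicInt.toZMod = c • (r g).val
  fin : ∀ P (g : K.fixingSubgroup), Iner F P g → ↑p ∉ P → P.under (𝓞 K) ∉ S →
    ∃ m, 0 < m ∧ IsScal (ρ g ^ m)
  ram : ∀ P : Ideal (𝓞 (AlgebraicClosure ℚ)), P.IsMaximal → P.under (𝓞 K) ∈ S →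
    ∃ g : K.fixingSubgroup, g.1 ∈ P.inertia GQ ∧ ¬ IsScal (ρ g)
  wt : ∀ ι : AlgebraicClosure ℚ →+* ℂ_[p], ∃ b : Fin n → ℤ,
    (∀ s, (b s : ZMod p) = a (ι.comp (algebraMap K _)) s) ∧
    (ι.comp (algebraMap K _) ∈ o → OrdAt F ι ρ b) ∧ (ι.comp (algebraMap K _) ∉ o →
      HTAt p ι ρ b ∧ ∀ s t, (b s : ZMod p) = b t → b s = b t)

/-- there is no lift with the local conditions -/
def NoTam (S : Set (Ideal (𝓞 K))) : Prop := ∀ ρ, ¬ TamLoc F r a o S ρ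

/-- the sum of the dimensions of the flag varieties and adjoint orbits -/
noncomputable def tamExp : ℕ :=
  ∑ᶠ τ, {x : Fin n × Fin n | (τ ∈ o → x.2 < x.1) ∧ (τ ∉ o → a τ x.1 ≠ a τ x.2)}.ncard

/-- the sum of the dimensions of the invariants of the complex conjugations -/
noncomputable def tamDef (φ : InfinitePlace K → AlgebraicClosure ℚ →+* ℂ) : ℕ :=
  ∑ᶠ v, finrank (ZMod p) ↥(LinearMap.ker (traceLinearMap _ _ _) ⊓ ConjFix r (φ v))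

end Pool.Agent.MP_f68ac8_nt
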