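import Mathlib
import Pool.Agent.MP_f68ac8_nt.TvDefs

namespace Pool.Agent.MP_f68ac8_nt

open Filter Topology NumberField
open scoped Pointwise

section
variable {K : Type} [Field K] [NumberField K]

/-- the mean of `f` over the set `T` of ideals with weights `N q ^ (-s)` -/
noncomputable def sMean (T : Ideal (𝓞 K) → Prop) (s : ℝ) (f : Ideal (𝓞 K) → ℝ) : ℝ :=
  (∑' q : {q // T q}, f q * (Ideal.absNorm q.1 : ℝ) ^ (-s)) /
    ∑' q : {q // T q}, (Ideal.absNorm q.1 : ℝ) ^ (-s)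

/-- the mean of `f` over tuples of independently chosen `q j` in `T j` with weights
`N (q j) ^ (-s j)` -/
noncomputable def tupMean : (d : ℕ) → (ℕ → Ideal (𝓞 K) → Prop) → (Fin d → ℝ) →
    ((Fin d → Ideal (𝓞 K)) → ℝ) → ℝ
  | 0, _, _, f => f Fin.elim0
  | d + 1, T, s, f => sMean (T 0) (s 0) fun q =>
      tupMean d (fun j => T (j + 1)) (Fin.tail s) fun Q => f (Fin.cons q Q)

/-- the iterated lower limit as the last, then the last but one, ... variable tends to one -/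
noncomputable def iterInf : (d : ℕ) → ((Fin d → ℝ) → ℝ) → ℝ
  | 0, φ => φ Fin.elim0
  | d + 1, φ => liminf (fun s => iterInf d fun L => φ (Fin.cons s L)) (𝓝[>] 1)

open Classical in
/-- the lower density of a set of tuples -/
noncomputable def tupDens (T : ℕ → Ideal (𝓞 K) → Prop) (d : ℕ)
    (A : (Fin d → Ideal (𝓞 K)) → Prop) : ℝ :=
  iterInf d fun s => tupMean d T s fun q => if A q then 1 else 0

end

variable {p : ℕ} [Fact p.Prime] {K : IntermediateField ℚ (AlgebraicClosure ℚ)}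
  (F : IntermediateField ℚ (AlgebraicClosure ℚ)) {n : ℕ}
  (r : K.fixingSubgroup →* GL (Fin n) (ZMod p))

/-- the hypotheses on the residual representation -/
structure UnrRes : Prop where
  big : 2 ≤ n ∧ 2 < p ∧ ¬ p ∣ n
  cut : ∀ g : K.fixingSubgroup,
    g.1 ∈ F.fixingSubgroup ↔ IsScal (r g) ∧ ∀ x, x ^ p = 1 → g.1 x = x
  tame : ∀ g : K.fixingSubgroup, Tame p F g
  irr : AdIrr r
  cyc : ∃ g, IsScal (r g) ∧ g.1 ∉ F.fixingSubgroup
  mu : ∃ x, x ^ p ^ 2 = 1 ∧ x ∉ F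

/-- lifts of exact level `S` with projectively finite inertia at all other primes -/
structure UnrLift (S : Set (Ideal (𝓞 K))) (ρ : K.fixingSubgroup →ₜ* GL (Fin n) ℤ_[p]) :
    Prop where
  lift : ∀ g, ∃ c : ZMod p, (ρ g).val.map PadicInt.toZMod = c • (r g).val
  fin : ∀ P : Ideal (𝓞 (AlgebraicClosure ℚ)), P.IsMaximal → P.under (𝓞 K) ∉ S →
    ∀ g : K.fixingSubgroup, g.1 ∈ P.inertia GQ → ∃ m, 0 < m ∧ IsScal (ρ g ^ m)
  ram : ∀ P : Ideal (𝓞 (AlgebraicClosure ℚ)), P.IsMaximal → P.under (𝓞 K) ∈ S →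
    ∃ g : K.fixingSubgroup, g.1 ∈ P.inertia GQ ∧ ¬ IsScal (ρ g)

end Pool.Agent.MP_f68ac8_nt
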