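import Mathlib
import Pool.Agent.MP_f68ac8_nt.ZvDefs

namespace Pool.Agent.MP_f68ac8_nt

variable (p n : ℕ) [Fact p.Prime]

/-- the continuous characters of order dividing `p` that are ramified exactly at the primes
in `S` -/
def CycCh (S : Set ℕ) : Set (GQ →* Multiplicative (ZMod p)) :=
  {χ | IsOpen (χ.ker : Set GQ) ∧ ∀ l : ℕ, l.Prime → (l ∈ S ↔ ∃ g, InertiaAt l g ∧ χ g ≠ 1)}

/-- every unramified representation of `H` that is trivial modulo `p` is trivial -/
def UnrFM (H : Subgroup GQ) : Prop :=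
  ∀ ρ : H →ₜ* GL (Fin n) ℤ_[p], (∀ g, (ρ g).val.map PadicInt.toZMod = 1) →
    (∀ (l : ℕ) (g : H), l.Prime → InertiaAt l g → ρ g = 1) → ∀ g, ρ g = 1

/-- the proportion of the characters whose kernel has this property -/
noncomputable def share (S : Set ℕ) : ℝ :=
  {χ ∈ CycCh p S | UnrFM p n χ.ker}.ncard / (CycCh p S).ncard

end Pool.Agent.MP_f68ac8_nt
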