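import Mathlib
import Pool.Agent.MP_f68ac8_nt.ZkDefs

namespace Pool.Agent.MP_f68ac8_nt

/-- the cyclic fields of degree `p` whose discriminant has absolute value at most `X` -/
def CycF (p X : ℕ) : Set (IntermediateField ℚ (AlgebraicClosure ℚ)) :=
  {K | ∃ _ : NumberField K, IsGalois ℚ K ∧ Module.finrank ℚ K = p ∧ |NumberField.discr K| ≤ X}

end Pool.Agent.MP_f68ac8_nt
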