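import Mathlib
import Pool.Agent.MP_f68ac8_nt.DefsPH
import Pool.Agent.MP_f68ac8_nt.NkDefs

namespace Pool.Agent.MP_f68ac8_nt

open Matrix

variable (p : ℕ) [Fact p.Prime] {n : ℕ} {H : Subgroup GQ}

/-- `ρ` is Hodge-Tate at all places above `p`, with weights of absolute value at most `w`: for
every embedding `ι` into `ℂ_p` there is a basis of `V ⊗ ℂ_p` (the columns of `B`) on which the
local Galois group (continuous automorphisms `φ` of `ℂ_p` that restrict through `ι` to an element
`h` of `H`) acts through powers of the cyclotomic character. -/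
def HTAll (w : ℕ) (ρ : H → GL (Fin n) ℤ_[p]) : Prop :=
  ∀ ι : AlgebraicClosure ℚ →+* ℂ_[p], ∃ (B : GL (Fin n) ℂ_[p]) (a : Fin n → ℤ),
    (∀ i, |a i| ≤ w) ∧ ∀ (φ : ℂ_[p] ≃+* ℂ_[p]) (h : H), Continuous φ →
      (∀ x, φ (ι x) = ι (h.1 x)) →
      (ρ h).val.map (fun x => algebraMap ℚ_[p] ℂ_[p] x) * B.val.map φ =
        B.val * diagonal fun i => algebraMap ℚ_[p] ℂ_[p] (cycChar p h : ℤ_[p]) ^ a i

/-- `ρ` is a direct sum of Tate twists of characters of order dividing `p - 1` -/
def TateSum (ρ : H → GL (Fin n) ℤ_[p]) : Prop :=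
  ∃ (B : GL (Fin n) ℚ_[p]) (k : Fin n → ℤ) (ε : Fin n → H →* ℚ_[p]),
    (∀ i g, ε i g ^ (p - 1) = 1) ∧ ∀ g : H, (ρ g).val.map (fun x => (x : ℚ_[p])) * B.val =
      B.val * diagonal fun i => ε i g * ((cycChar p g : ℤ_[p]) : ℚ_[p]) ^ k i

/-- every representation of `H` of dimension `n` that is trivial modulo `p`, in which the elements
of the inertia groups at the primes `l ≠ p` have finite order, and that is Hodge-Tate at `p` with
weights of absolute value at most `w`, is a sum of Tate twists of characters of finite order -/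
def TateFM (n w : ℕ) (H : Subgroup GQ) : Prop :=
  ∀ ρ : H →ₜ* GL (Fin n) ℤ_[p], (∀ g, (ρ g).val.map PadicInt.toZMod = 1) →
    (∀ (l : ℕ) (g : H), l.Prime → l ≠ p → InertiaAt l g → IsOfFinOrder (ρ g)) →
    HTAll p w ρ → TateSum p ρ

end Pool.Agent.MP_f68ac8_nt
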