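import Mathlib
import Pool.Agent.MP_f68ac8_nt.DefsPH
import Pool.Agent.MP_f68ac8_nt.NkDefs

namespace Pool.Agent.MP_f68ac8_nt

open Matrix NumberField
open scoped commutatorElement

variable (p : ℕ) [Fact p.Prime] {n : ℕ}

/-- `ρ` is potentially ordinary at `p`: there is a decreasing filtration `F` of `ℚ_p ^ n` such that
an open subgroup of an inertia group at `p` acts on `F i / F (i + 1)` through the `i`-th power of
the cyclotomic character. -/
def PotOrd (ρ : GQ → GL (Fin n) ℤ_[p]) : Prop :=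
  ∃ (P : Ideal (𝓞 (AlgebraicClosure ℚ))) (U : Subgroup GQ)
    (F : ℤ → Submodule ℚ_[p] (Fin n → ℚ_[p])), P.IsMaximal ∧ (p : 𝓞 (AlgebraicClosure ℚ)) ∈ P ∧
    IsOpen (U : Set GQ) ∧ Antitone F ∧ (∃ i, F i = ⊤) ∧ (∃ i, F i = ⊥) ∧
    ∀ g ∈ U, g ∈ P.inertia GQ → ∀ i, ∀ v ∈ F i, (ρ g).val.map (fun x => (x : ℚ_[p])) *ᵥ v -
      ((cycChar p g : ℤ_[p]) : ℚ_[p]) ^ i • v ∈ F (i + 1)

/-- `ρ` is a direct sum of powers of the cyclotomic character on an open subgroup -/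
def PotTate (ρ : GQ → GL (Fin n) ℤ_[p]) : Prop :=
  ∃ (U : Subgroup GQ) (B : GL (Fin n) ℚ_[p]) (k : Fin n → ℤ), IsOpen (U : Set GQ) ∧
    ∀ g ∈ U, (ρ g).val.map (fun x => (x : ℚ_[p])) * B.val =
      B.val * diagonal fun i => ((cycChar p g : ℤ_[p]) : ℚ_[p]) ^ k i

/-- every representation of the absolute Galois group of the rationals that maps `H` onto a
powerful pro-`p` group, in which the elements of the inertia groups at the primes `l ≠ p` have
finite order, and that is potentially ordinary at `p`, is potentially a sum of Tate twists -/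
def OrdFM (H : Subgroup GQ) : Prop :=
  ∀ (n : ℕ) (ρ : GQ →ₜ* GL (Fin n) ℤ_[p]),
    (∀ g ∈ H, ∃ k : ℕ, (ρ g ^ p ^ k).val.map PadicInt.toZMod = 1) →
    (∀ g ∈ H, ∀ h ∈ H,
      ⁅ρ g, ρ h⁆ ∈ (Subgroup.closure ((fun x => ρ x ^ p) '' H)).topologicalClosure) →
    (∀ (l : ℕ) (g : GQ), l.Prime → l ≠ p → InertiaAt l g → IsOfFinOrder (ρ g)) →
    PotOrd p ρ → PotTate p ρ

end Pool.Agent.MP_f68ac8_nt
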