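import Mathlib
import Pool.Agent.MP_f68ac8_nt.HT5

namespace Pool.Agent.MP_f68ac8_nt.HodgeTateOld

open Pool.Agent.MP_f68ac8_nt

theorem result (d : ℕ) : ∃ C : ℝ, ∀ (p : ℕ) [Fact p.Prime], p ≠ 2 → ∀ W : Finset (ZMod p),
    1 - C * (W.card + 1) / p ≤ setDens p d fun S => S.ncard = d ∧ HTFM p W S := by
  obtain ⟨C, h⟩ := dens_of_sol2 d 10
  exact ⟨C, fun p _ hp W => h p hp W _ fun h10 _ hm => ht_criterion h10 hm⟩

end Pool.Agent.MP_f68ac8_nt.HodgeTateOld
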