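import Mathlib
import Pool.Agent.MP_f68ac8_nt.HqAux
import Pool.Agent.MP_f68ac8_nt.NmPf

/-! Central extensions of the cyclotomic tower are abelian. -/

namespace Pool.Agent.MP_f68ac8_nt.Ht

open Ev Pv Sv Zv Zk Nd Matrix NumberField Finset Filter
open scoped Topology BigOperators commutatorElement

theorem cm_HqAb {G A : Type} [Group G] [AddCommGroup A] (l : G → A)
    (hl : ∀ g h, l (g * h) = l g + l h) (g h : G) : l ⁅g, h⁆ = 0 := by
  have h1 : l (⁅g, h⁆ * (h * g)) = l (g * h) := by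
    congr 1
    rw [commutatorElement_def]
    group
  rw [hl, hl h g, hl g h, add_comm (l h)] at h1
  exact add_eq_right.1 h1

theorem x_AbO (p : ℕ) [Fact p.Prime] (hD : Zk.DvStmt p) (hC : Zk.ClStmt p) (hG : Zk.LogStmt p)
    (hE : ElD p) (hL : LinO p) : AbO p := by
  intro hp ι _ _ H hH θ hθ hc
  obtain ⟨-, -, -, g4, -⟩ := hG hp ι
  have l1 : Zk.lg (1 : GZ p ι) = 0 := by
    have := (g4 1 (one_mem _)).2.1 0
    rwa [pow_zero, zero_smul] at this
  have hb : ∀ x ∈ Cg p ι 1, ∀ i j, ‖Zk.lg x i j‖ ≤ 1 := fun x hx i j =>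
    ((hD ι).2.2.1 0 1 _ zero_le_one (((g4 x hx).1 1).1 hx) i j).trans_eq (pow_zero _)
  have hl : ∀ g h : H, el (chi p (g * h).1) = el (chi p g.1) + el (chi p h.1) := fun g h => by
    rw [Subgroup.coe_mul, map_mul, (hE hp).1]
  have hz : ∀ g h x : H, Commute (θ ⁅g, h⁆) (θ x) := fun g h x =>
    hc _ _ (cm_HqAb (fun g : H => el (chi p g.1)) hl g h)
  have hA : ∀ g h, Commute (θ g) (θ h) := by
    intro g h
    by_cases h0 : el (chi p h.1) = 0
    · exact (hc h g h0).symm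
    have hm : ∀ a b : H, θ ⁅a * b, h⁆ = θ ⁅a, h⁆ * θ ⁅b, h⁆ := fun a b => by
      have e : ⁅a * b, h⁆ = a * ⁅b, h⁆ * a⁻¹ * ⁅a, h⁆ := by
        simp only [commutatorElement_def]
        group
      rw [e, map_mul, map_mul, map_mul, ← (hz b h a).eq, mul_assoc (θ ⁅b, h⁆), ← map_mul,
        mul_inv_cancel, map_one, mul_one, (hz b h _).eq]
    have h1 : Zk.lg (θ ⁅g, h⁆) = 0 := by
      ext i j
      obtain ⟨c, hc'⟩ := hL hp H hH (fun a => Zk.lg (θ ⁅a, h⁆) i j)
        (fun a b => by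
          rw [hm, add_NmPf hp hD hC hG (hθ _) (hθ _) (hz a h _), Matrix.add_apply])
        (fun a => hb _ (hθ _) i j)
        (fun a ha => by
          rw [map_commutatorElement, (hc a h ha).commutator_eq, l1, Matrix.zero_apply])
      have h2 := hc' h
      rw [commutatorElement_self, map_one, l1, Matrix.zero_apply] at h2
      have h3 : c = 0 := (mul_eq_zero.1 h2.symm).resolve_left (PadicInt.coe_ne_zero.2 h0)
      rw [hc' g, h3, mul_zero, Matrix.zero_apply]
    have h4 : θ ⁅g, h⁆ = 1 := (hC ι).2.1 _ fun k => ((g4 _ (hθ _)).1 k).2 fun i j => by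
      rw [h1, Matrix.zero_apply, norm_zero]
      positivity
    rw [map_commutatorElement] at h4
    exact commutatorElement_eq_one_iff_commute.1 h4
  refine ⟨hA, fun hy => ?_⟩
  have h5 : ∀ i j, ∃ c : ℚ_[p], ∀ g : H, Zk.lg (θ g) i j = (el (chi p g.1) : ℚ_[p]) * c :=
    fun i j => hL hp H hH (fun a => Zk.lg (θ a) i j)
      (fun a b => by rw [map_mul, add_NmPf hp hD hC hG (hθ _) (hθ _) (hA a b), Matrix.add_apply])
      (fun a => hb _ (hθ _) i j) (fun a ha => by rw [hy a ha, l1, Matrix.zero_apply])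
  choose C hC' using h5
  exact ⟨Matrix.of C, fun g => by
    ext i j
    rw [hC', Matrix.smul_apply, Matrix.of_apply, smul_eq_mul]⟩

end Pool.Agent.MP_f68ac8_nt.Ht
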