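import Mathlib
import Pool.Agent.MP_f68ac8_nt.HqAux
import Pool.Agent.MP_f68ac8_nt.ZoTop
import Pool.Agent.MP_f68ac8_nt.ZmSol

/-! The second layer of a Galois stable quotient that is ramified at `p`. -/

namespace Pool.Agent.MP_f68ac8_nt.Ht

open Ev Pv Sv Zv Zk Nd NumberField Finset Filter
open scoped Topology BigOperators commutatorElement Pointwise

theorem srj_HqAr {p n : ℕ} {P : Type} [Group P] {T : Zk.Fil p P} (h : TS T 3 1 n)
    {K : Subgroup P} (hK : K ⊔ T.F 2 = ⊤) : K = ⊤ := by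
  have cen : ∀ z ∈ T.F 2, ∀ g, Commute g z := fun z hz g =>
    commutatorElement_eq_one_iff_commute.1 (Subgroup.mem_bot.1 (h.bot 3 le_rfl ▸
      h.ns.comm 1 2 le_rfl (by omega) g (h.one ▸ Subgroup.mem_top g) z hz))
  have nrm : (T.F 2).Normal := ⟨fun z hz g => by rwa [(cen z hz g).eq, mul_inv_cancel_right]⟩
  have dec : ∀ g, ∃ k ∈ K, ∃ z ∈ T.F 2, k * z = g := fun g =>
    Subgroup.mem_sup_of_normal_right.1 (hK ▸ Subgroup.mem_top g)
  have h2 : gam (⊤ : Subgroup P) 2 ≤ K := Subgroup.commutator_le.2 fun g _ g' _ => by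
    obtain ⟨k, hk, z, hz, rfl⟩ := dec g
    obtain ⟨k', hk', z', hz', rfl⟩ := dec g'
    have e : ⁅k * z, k' * z'⁆ = ⁅k, k'⁆ := by
      rw [commutatorElement_def, commutatorElement_def, mul_assoc k z, ← (cen z hz (k' * z')).eq,
        mul_inv_rev k z, mul_inv_rev k' z', ← mul_assoc k, mul_assoc _ z, mul_inv_cancel_left,
        ← mul_assoc k, mul_assoc _ z', ← (cen z' hz' k⁻¹).eq]
      group
    rw [e]
    exact mul_mem (mul_mem (mul_mem hk hk') (inv_mem hk)) (inv_mem hk')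
  rw [← hK]
  exact (sup_eq_left.2 ((h.v3 2 (by omega)).trans
    (sup_le h2 ((h.bot 3 le_rfl).le.trans bot_le)))).symm

theorem x_Ar2O (p : ℕ) [Fact p.Prime] (hM : MdStmt p) (hL : DlO p) : Ar2O p := by
  intro h2 O _ ζ hζ r S₁ co₁ c1 τ₀ σ₀ h0 χ hk n1 Δ _ hΔ hrt θ hθ hs hn hI hst
  obtain ⟨Q, _, _, π, χ', θ', q1, q2, q3, q4, q5⟩ := quo_ZoTop χ hθ hn
  have hin : ∀ P : Ideal OQ, P.IsMaximal → (p : OQ) ∉ P → ∀ g ∈ P.inertia GQ, χ g = 1 →
      π g = 1 := fun P hP hp g hg h => q5 g fun b => by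
    have : χ (b * g * b⁻¹) = 1 := by rw [map_mul, map_mul, h, mul_one, map_inv, mul_inv_cancel]
    refine ⟨this, hI _ (smul_max_EvRec b hP) (fun e => hp ?_) _ (inert_conj_EvRec b hg) this⟩
    simpa using smul_nat_EvRec b⁻¹ e
  have hcp : ∀ g, χ (g ^ p) = 1 := fun g => by rw [map_pow, cp_p_ZmSol]
  have hpw : ∀ u, χ u = 1 → ∀ m : ℕ, θ (u ^ m) = θ u ^ m := fun u hu m => by
    induction m with
    | zero => rw [pow_zero, pow_zero, (mem_of_mem_nhds hn).2]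
    | succ m ih => rw [pow_succ, pow_succ, hθ _ _ (by rw [map_pow, hu, one_pow]) hu, ih]
  have hW : Subgroup.normalClosure (insert (π τ₀) {y : Q | y ^ p = 1 ∧ χ' y ≠ 1}) = ⊤ := by
    set W := Subgroup.normalClosure (insert (π τ₀) {y : Q | y ^ p = 1 ∧ χ' y ≠ 1})
    have hk : π.ker ≤ W.comap π := fun x hx =>
      Subgroup.mem_comap.2 ((MonoidHom.mem_ker.1 hx).symm ▸ one_mem W)
    have htop : W.comap π = ⊤ := by
      refine eq_top_of_open _ (mem_of_superset q2 hk) fun P hP x hx => ?_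
      by_cases hp : (p : OQ) ∈ P
      · refine h0.tam _ ⟨inferInstance, mem_of_superset q2 hk, fun g => ⟨3, hk (q5 _ fun b => ?_)⟩⟩
          (Subgroup.subset_normalClosure (Set.mem_insert _ _)) P hP hp x hx
        have e : b * g ^ p ^ 3 * b⁻¹ = ((b * g * b⁻¹) ^ p) ^ (p * p) := by
          rw [← pow_mul, conj_pow]
          congr 3
          ring
        rw [e, map_pow, hcp, one_pow, hpw _ (hcp _), pow_mul]
        exact ⟨rfl, hΔ.exp _⟩
      by_cases h : χ x = 1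
      · exact hk (hin P hP hp x hx h)
      · refine Subgroup.subset_normalClosure (Set.mem_insert_of_mem _ ⟨?_, by rwa [q3]⟩)
        rw [← map_pow]
        exact hin P hP hp _ (pow_mem hx p) (hcp x)
    refine (Subgroup.eq_top_iff' _).2 fun y => ?_
    obtain ⟨g, rfl⟩ := q1 y
    exact (htop ▸ Subgroup.mem_top g : g ∈ W.comap π)
  obtain ⟨y, y1, y2⟩ : ∃ y : Q, y ^ p = 1 ∧ χ' y ≠ 1 := by
    obtain ⟨l, P, σ, τ, hl, hlp, hP, hlP, -, hτ, hχ, -⟩ := hk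
    refine ⟨π τ, ?_, by rwa [q3]⟩
    rw [← map_pow]
    exact hin P hP (not_mem_of_coprime hlP ((Nat.coprime_primes hl Fact.out).2 hlp)) _
      (pow_mem hτ p) (hcp τ)
  obtain ⟨x, x1, x2⟩ : ∃ x : Q, x ^ p = 1 ∧ χ' x = Multiplicative.ofAdd 1 := by
    have h0 : (χ' y).toAdd ≠ 0 := fun e => y2 (Multiplicative.toAdd.injective e)
    refine ⟨y ^ ((χ' y).toAdd⁻¹).val, by rw [← pow_mul, mul_comm, pow_mul, y1, one_pow],
      Multiplicative.toAdd.injective ?_⟩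
    rw [map_pow, toAdd_pow, toAdd_ofAdd, nsmul_eq_mul, ZMod.natCast_zmod_val, inv_mul_cancel₀ h0]
  have hS : Zk.Sm χ' x 2 r := by
    by_contra hS
    obtain ⟨Θ, t1, t2⟩ := hM h2 O ζ hζ 2 r S₁ co₁ c1 (by omega) (by omega) Q χ' x x1 x2 hS
    obtain ⟨n, hT⟩ := c1.ts
    refine n1 ⟨Θ.comp π, mem_of_superset q2 fun g hg => ?_, fun g => (t1 _).trans (q3 g),
      fun P hP hp g hg h => ?_, (MonoidHom.range_eq_top.1 (srj_HqAr hT t2)).comp q1, trivial⟩
    · exact (congrArg Θ (MonoidHom.mem_ker.1 hg)).trans (map_one Θ)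
    · exact (congrArg Θ (hin P hP hp g hg h)).trans (map_one Θ)
  refine hL h2 Q χ' x (π τ₀) x1 x2 hW Δ hΔ θ' (fun a b ha hb => ?_) (fun a => ?_)
    (fun u u1 u2 => ?_) hrt r hS
  · obtain ⟨g, rfl⟩ := q1 a
    obtain ⟨h, rfl⟩ := q1 b
    rw [q3] at ha hb
    rw [← map_mul, q4 _ (by rw [map_mul, ha, hb, mul_one]), q4 g ha, q4 h hb, hθ g h ha hb]
  · obtain ⟨u, u1, u2⟩ := hs a
    exact ⟨π u, (q3 u).trans u1, (q4 u u1).trans u2⟩
  · obtain ⟨s, rfl⟩ := q1 x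
    obtain ⟨g, rfl⟩ := q1 u
    rw [q3] at u1
    rw [q4 g u1] at u2
    rw [← map_inv, ← map_mul, ← map_mul,
      q4 _ (by rw [map_mul, map_mul, u1, mul_one, map_inv, mul_inv_cancel])]
    exact hst s g u1 u2

end Pool.Agent.MP_f68ac8_nt.Ht
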