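import Mathlib
import Pool.Agent.MP_f68ac8_nt.HqAux
import Pool.Agent.MP_f68ac8_nt.NmPf
import Pool.Agent.MP_f68ac8_nt.ZnPad

namespace Pool.Agent.MP_f68ac8_nt.Ht

open Ev Pv Sv Zv Zk Nd Matrix NumberField Finset Filter
open scoped Topology BigOperators commutatorElement

theorem x_CmO (p : ℕ) [Fact p.Prime] (hD : Zk.DvStmt p) (hC : Zk.ClStmt p) (hG : Zk.LogStmt p)
    (hT : Zk.TopStmt p) (hS : SpA p) : CmO p := by
  intro hp ι _ _ H hO θ h1 hc hk hU g hg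
  have l4 := fun g => ((hG hp ι).2.2.2.1 (θ g) (h1 g)).1
  refine (hC ι).2.1 _ fun k => (l4 g k).2 fun i j => ?_
  obtain ⟨a, hA⟩ : ∃ a : H → ℤ_[p], ∀ g, (a g : ℚ_[p]) = Zk.lg (θ g) i j :=
    ⟨fun g => ⟨Zk.lg (θ g) i j, ((l4 g 1).1 (h1 g) i j).trans
      (pow_le_one₀ tpos_ZlNsol.le tlt_ZlNsol.le)⟩, fun _ => rfl⟩
  have hadd : ∀ g h, a (g * h) = a g + a h := fun g h => by
    apply Subtype.ext
    rw [PadicInt.coe_add, hA, hA, hA, map_mul, add_NmPf hp hD hC hG (h1 g) (h1 h) (hc g h),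
      Matrix.add_apply]
  have h0 : a 1 = 0 := by
    have := hadd 1 1
    rw [mul_one] at this
    linear_combination -this
  let ψ : H →* Matrix (Fin 2) (Fin 2) ℤ_[p] :=
    { toFun := fun g => !![1, a g; 0, 1]
      map_one' := by rw [h0, ← Matrix.one_fin_two]
      map_mul' := fun g h => by
        rw [hadd, Matrix.mul_fin_two]
        simp [add_comm] }
  have hm : ∀ k (g : H), θ g ∈ Cg p ι k → ψ.toHomUnits g ∈ Cg p (Fin 2) k := fun k g h => by
    have h := (l4 g k).1 h i j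
    rw [← hA, ← ker_ZlNsol] at h
    rw [cg_ZnPad]
    change (!![1, a g; 0, 1] : Matrix (Fin 2) (Fin 2) ℤ_[p]).map _ = 1
    ext i j
    fin_cases i <;> fin_cases j <;> simp [h]
  have hu : ∀ g, Unp (p := p) (ψ.toHomUnits g) := fun g => ⟨2, by
    change ((!![1, a g; 0, 1] : Matrix (Fin 2) (Fin 2) ℤ_[p]).map _ - 1) ^ 2 = 0
    ext i j
    fin_cases i <;> fin_cases j <;> simp [sq, Matrix.mul_apply, Fin.sum_univ_two]⟩
  have e := hO 2 le_rfl ⟨ψ.toHomUnits, (hT H 2).2.2.2 _ fun k => (hk k).mono (hm k)⟩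
    (fun g => hm 1 g (h1 g)) (fun l g hl hl' hi => ?_) (fun g _ => ⟨1, one_ne_zero, ?_⟩) g hg
  · have e1 : (!![1, a g; 0, 1] : Matrix (Fin 2) (Fin 2) ℤ_[p]) = 1 := congrArg Units.val e
    have e2 : a g = 0 := by simpa using congrFun (congrFun e1 0) 1
    rw [← hA, e2, PadicInt.coe_zero, norm_zero]
    exact (pow_pos tpos_ZlNsol k).le
  · have e1 : ψ.toHomUnits g = 1 := (hC (Fin 2)).2.1 _ fun k => hm k g (by
      rw [hU l g hl hl' hi]
      exact one_mem _)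
    exact e1 ▸ IsOfFinOrder.one
  · rw [pow_one]
    exact ⟨((hS hp (Fin 2)).1 _).2.1 (hu g), fun _ => hu g⟩

end Pool.Agent.MP_f68ac8_nt.Ht
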