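import Mathlib
import Pool.Agent.MP_f68ac8_nt.HqAux
import Pool.Agent.MP_f68ac8_nt.HfSum
import Pool.Agent.MP_f68ac8_nt.HfCls
import Pool.Agent.MP_f68ac8_nt.NjGen
import Pool.Agent.MP_f68ac8_nt.HbRtX

/-! Diagonalisation on an open subgroup. -/

namespace Pool.Agent.MP_f68ac8_nt.Ht

open Ev Pv Sv Zv Zk Nd Matrix NumberField Finset Filter
open scoped Topology BigOperators commutatorElement

theorem opn_HqDg {s : Set GQ} (hs : s ∈ 𝓝 (1 : GQ)) :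
    ∃ V : Subgroup GQ, IsOpen (V : Set GQ) ∧ ∀ g ∈ V, g ∈ s := by
  obtain ⟨L, h1, h2⟩ := (krullTopology_mem_nhds_one_iff ℚ (AlgebraicClosure ℚ) s).1 hs
  exact ⟨L.fixingSubgroup, L.fixingSubgroup_isOpen, fun g hg => h2 hg⟩

theorem x_DgO (p : ℕ) [Fact p.Prime] (hD : Zk.DvStmt p) (hC : Zk.ClStmt p) (hG : Zk.LogStmt p)
    (hT : Zk.TopStmt p) (hE : ElD p) (hX : XpX p) (hU : UpX p) (hP : ProjD) (hR : RtO p) :
    DgO p := by
  intro hp n ρ C ⟨P, U, J, hP1, hP2, hU1, hrel⟩ hlg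
  obtain ⟨e1, -, -, -, e5, -⟩ := hE hp
  obtain ⟨x1, -, x3, -, -, x6, -⟩ := hX hp
  have h1 : ∀ᶠ g in 𝓝 (1 : GQ), ρ g ∈ Cg p (Fin n) 1 := by
    let ρ' : (⊤ : Subgroup GQ) →ₜ* GL (Fin n) ℤ_[p] :=
      ρ.comp ⟨(⊤ : Subgroup GQ).subtype, continuous_subtype_val⟩
    have h2 : Continuous fun g : GQ => (⟨g, Subgroup.mem_top g⟩ : (⊤ : Subgroup GQ)) :=
      continuous_id.subtype_mk _
    exact (h2.tendsto 1).eventually ((hT ⊤ n).2.2.1 ρ' 1)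
  have h2 : ∀ᶠ g in 𝓝 (1 : GQ), chi p g = xp (el (chi p g)) := by
    filter_upwards [cyc_nhds (Ω := AlgebraicClosure ℚ) (p ^ 1)] with g hg
    rw [← x6, (e5 _).2.2.2]
    rw [← pow_one (p : ℤ_[p]), ← Ideal.mem_span_singleton, ← PadicInt.ker_toZModPow,
      RingHom.mem_ker, map_sub, map_one, chi_HdCycB, hg, Units.val_one, sub_self]
  have hW := (h1.and h2).and hlg
  obtain ⟨V, hV, hVW⟩ := opn_HqDg (inter_mem (hU1.mem_nhds U.one_mem) hW)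
  obtain ⟨τ, hτ, hτ1⟩ := exists_psi_one (p := p) hP2
  obtain ⟨m, hm, -, hγ⟩ := V.exists_pow_mem_of_index_ne_zero
    (fi_NjGen (hV.mem_nhds V.one_mem)).index_ne_zero τ
  have hpow : ∀ (u : ℤ_[p]ˣ) (k : ℕ), el (u ^ k) = k * el u := fun u k => by
    induction k with
    | zero => simpa using e1 1 1
    | succ k ih => rw [pow_succ, e1, ih]; push_cast; ring
  obtain ⟨γU, ⟨γ1, γ2⟩, γ3⟩ := hVW _ hγ
  have hγP : τ ^ m ∈ P.inertia GQ := pow_mem hτ m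
  have hs : el (chi p (τ ^ m)) ≠ 0 := by
    rw [map_pow, hpow]
    refine mul_ne_zero (Nat.cast_ne_zero.2 hm.ne') fun e => ?_
    have := (e5 (chi p τ)).1
    rw [e, map_zero] at this
    exact zero_ne_one (this.trans hτ1)
  generalize τ ^ m = γ at *
  generalize hsd : el (chi p γ) = s at *
  obtain ⟨E, hE1, hE2⟩ := hP ℚ_[p] (MQ p (Fin n)) (mq (ρ γ)) J (xq s) (fun a _ b _ hab => by
    have h3 : xp s ^ a = xp s ^ b := Units.ext (PadicInt.ext hab)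
    rw [x3, x3] at h3
    have h4 := congrArg el h3
    rw [(x1 _).2, (x1 _).2] at h4
    exact_mod_cast mul_right_cancel₀ hs h4) (by
      have h3 := hrel γ γU hγP
      rw [γ2] at h3
      simpa only [xq_HbRtX] using h3)
  obtain ⟨k, hk⟩ : ∃ k : ℕ, s ∣ (p : ℤ_[p]) ^ k :=
    ⟨s.valuation, ((PadicInt.unitCoeff hs)⁻¹ : ℤ_[p]ˣ), by
      rw [mul_comm, Units.eq_inv_mul_iff_mul_eq]
      exact (PadicInt.unitCoeff_spec hs).symm⟩
  obtain ⟨V₁, hV₁, hV₁W⟩ := opn_HqDg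
    (inter_mem (cyc_nhds (Ω := AlgebraicClosure ℚ) (p ^ (k + 1))) hW)
  obtain ⟨B, κ, j, hB⟩ := bas_HfSum J E hE1
  refine ⟨V₁, B, κ, hV₁, fun g hg => ?_⟩
  obtain ⟨g0, ⟨g1, g2⟩, g3⟩ := hV₁W g hg
  obtain ⟨t, ht⟩ := hk.trans (dvd_HfCls hE hp k g0)
  obtain ⟨u1, u2⟩ := (hU hp (Fin n) _ γ1).1 t
  have h3 : ρ g = up (ρ γ) t := by
    refine mul_inv_eq_one.1 ((hC (Fin n)).2.1 _ fun r => ((hG hp (Fin n)).2.2.1 _ g1 _ u1 r).2 ?_)
    rw [u2, g3, γ3, ht, PadicInt.coe_mul, mul_comm, mul_smul]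
    intro a b
    have : (t : ℚ_[p]) • (s : ℚ_[p]) • C = t • (s : ℚ_[p]) • C := rfl
    rw [this, sub_self, Matrix.zero_apply, norm_zero]
    positivity
  ext r i
  have h4 := hR hp (Fin n) _ γ1 _ s _ (hE2 _ (hB i).1).1 t
  rw [← h3, ← ht, xq_HbRtX, ← g2] at h4
  have h5 := congrFun (congrFun h4 r) (j i)
  rw [Matrix.mul_apply, Matrix.smul_apply, smul_eq_mul] at h5
  rw [Matrix.mul_diagonal, Matrix.mul_apply, (hB i).2, mul_comm]
  exact Eq.trans (Finset.sum_congr rfl fun b _ => by rw [(hB i).2]; rfl) h5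

end Pool.Agent.MP_f68ac8_nt.Ht
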