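import Mathlib
import Pool.Agent.MP_f68ac8_nt.HqAux

namespace Pool.Agent.MP_f68ac8_nt.Ht

open Ev Pv Sv Zv Zk Nd Matrix NumberField Finset Filter
open scoped Topology BigOperators commutatorElement

theorem add_HqLin {p : ℕ} [Fact p.Prime] (F : ℤ_[p] →+ ℚ_[p]) (h : ∀ t, ‖F t‖ ≤ 1) (t : ℤ_[p]) :
    F t = t * F 1 := by
  have hp : (1 : ℝ) < p := by exact_mod_cast (Fact.out : p.Prime).one_lt
  have hn : ∀ (n : ℕ) (x : ℤ_[p]), F (n * x) = n * F x := fun n x => by
    rw [← nsmul_eq_mul, map_nsmul, nsmul_eq_mul]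
  have key : ∀ k : ℕ, ‖F t - t * F 1‖ ≤ ((p : ℝ)⁻¹) ^ k := by
    intro k
    obtain ⟨x, hx⟩ := Ideal.mem_span_singleton.1 (PadicInt.appr_spec k t)
    have e : t = (t.appr k : ℕ) * 1 + ((p ^ k : ℕ) : ℤ_[p]) * x := by
      push_cast
      rw [← hx]
      ring
    have e' : (t : ℚ_[p]) = (t.appr k : ℕ) + ((p ^ k : ℕ) : ℚ_[p]) * x := by
      have := congrArg ((↑) : ℤ_[p] → ℚ_[p]) e
      simpa using this
    have e2 : F t - t * F 1 = (p : ℚ_[p]) ^ k * (F x - x * F 1) := by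
      have e3 : F t = (t.appr k : ℕ) * F 1 + ((p ^ k : ℕ) : ℚ_[p]) * F x := by
        rw [← hn, ← hn, ← map_add, ← e]
      rw [e3, e']
      push_cast
      ring
    have h1 : ‖F x - x * F 1‖ ≤ 1 := by
      rw [sub_eq_add_neg]
      refine (Padic.nonarchimedean _ _).trans (max_le (h x) ?_)
      rw [norm_neg, norm_mul]
      exact mul_le_one₀ x.2 (norm_nonneg _) (h 1)
    rw [e2, norm_mul, norm_pow, Padic.norm_p]
    exact mul_le_of_le_one_right (by positivity) h1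
  exact sub_eq_zero.1 (norm_le_zero_iff.1 (ge_of_tendsto'
    (tendsto_pow_atTop_nhds_zero_of_lt_one (by positivity) (inv_lt_one_of_one_lt₀ hp)) key))

theorem x_LinO (p : ℕ) [Fact p.Prime] (hE : ElD p) (hT : TopD p) (hB : CycB p) : LinO p := by
  intro hp H hH f hf hb h0
  obtain ⟨e1, -, -, e4, -⟩ := hE hp
  obtain ⟨⟨ι⟩, -, t3⟩ := hT
  have ladd : ∀ g h : GQ, el (chi p (g * h)) = el (chi p g) + el (chi p h) := fun g h => by
    rw [map_mul, e1]
  let l : GQ →* Multiplicative ℤ_[p] :=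
    MonoidHom.mk' (fun g => Multiplicative.ofAdd (el (chi p g))) fun g h =>
      congrArg Multiplicative.ofAdd (ladd g h)
  have lpow : ∀ (g : GQ) (n : ℕ), el (chi p (g ^ n)) = n • el (chi p g) := fun g n =>
    congrArg Multiplicative.toAdd (map_pow l g n)
  have hs : ∀ t : ℤ_[p], ∃ g : GQ, el (chi p g) = t := fun t => by
    obtain ⟨u, -, hu⟩ := e4 t
    obtain ⟨g, -, hg⟩ := (hB hp).1 u
    exact ⟨resC ι g, by rw [← ((t3 ι).2.2 g).2.2.1, hg, hu]⟩
  choose s hs using hs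
  haveI : H.FiniteIndex := ⟨hH⟩
  have he : H.normalCore.index ≠ 0 := Subgroup.FiniteIndex.index_ne_zero
  have hm : ∀ g : GQ, g ^ H.normalCore.index ∈ H := fun g =>
    H.normalCore_le (H.normalCore.pow_index_mem g)
  generalize H.normalCore.index = e at he hm
  have dep : ∀ g h : H, el (chi p g.1) = el (chi p h.1) → f g = f h := fun g h z => by
    have h1 := ladd g.1 (g⁻¹ * h : H).1
    rw [← Subgroup.coe_mul, mul_inv_cancel_left, ← z, left_eq_add] at h1
    have h2 := hf g (g⁻¹ * h)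
    rw [mul_inv_cancel_left, h0 _ h1, add_zero] at h2
    exact h2.symm
  let F : ℤ_[p] →+ ℚ_[p] := AddMonoidHom.mk' (fun t => f ⟨s t ^ e, hm _⟩) fun a b => by
    rw [← hf]
    refine dep _ _ ?_
    rw [Subgroup.coe_mul, ladd, lpow, lpow, lpow, hs, hs, hs, nsmul_add]
  let φ : H →* Multiplicative ℚ_[p] :=
    MonoidHom.mk' (fun g => Multiplicative.ofAdd (f g)) fun g h =>
      congrArg Multiplicative.ofAdd (hf g h)
  refine ⟨F 1 / e, fun g => ?_⟩
  have h1 : f (g ^ e) = e • f g := congrArg Multiplicative.toAdd (map_pow φ g e)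
  have h2 : F (el (chi p g.1)) = f (g ^ e) :=
    dep _ _ (by rw [Subgroup.coe_pow, lpow, lpow, hs])
  have h3 := add_HqLin F (fun t => hb _) (el (chi p g.1))
  have h4 : (e : ℚ_[p]) ≠ 0 := Nat.cast_ne_zero.2 he
  rw [h2, h1, nsmul_eq_mul] at h3
  rw [← mul_div_assoc, ← h3, mul_div_cancel_left₀ _ h4]

end Pool.Agent.MP_f68ac8_nt.Ht
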