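import Mathlib
import Pool.Agent.MP_f68ac8_nt.HqAux
import Pool.Agent.MP_f68ac8_nt.NjGen

namespace Pool.Agent.MP_f68ac8_nt.Ht

open Ev Pv Sv Zv Zk Nd Matrix NumberField Finset Filter
open scoped Topology BigOperators commutatorElement

theorem fil_HqLq {K ι : Type} [Field K] [Fintype ι] [DecidableEq ι] (M : Matrix ι ι K) (c : ℤ → K)
    (F : ℤ → Submodule K (ι → K)) (h : ∀ i, ∀ v ∈ F i, M *ᵥ v - c i • v ∈ F (i + 1)) {a b : ℤ}
    (ha : F a = ⊤) (hab : a ≤ b) (v : ι → K) :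
    Polynomial.aeval M (∏ i ∈ Ico a b, (Polynomial.X - Polynomial.C (c i))) *ᵥ v ∈ F b := by
  induction b, hab using Int.le_induction with
  | base => rw [ha]; trivial
  | succ b hb ih =>
    rw [← insert_Ico_right_eq_Ico_add_one hb, prod_insert right_notMem_Ico, map_mul,
      ← mulVec_mulVec, map_sub, Polynomial.aeval_X, Polynomial.aeval_C, sub_mulVec,
      Algebra.algebraMap_eq_smul_one, smul_mulVec, one_mulVec]
    exact h b _ ih

theorem x_LqO (p : ℕ) [Fact p.Prime] (hS : SpA p) (hE : ElD p) (hD : Zk.DvStmt p) : LqO p := by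
  intro hp n ρ
  refine ⟨?_, ?_⟩
  · rintro ⟨P, U, F, h1, h2, h3, h4, ⟨a, ha⟩, ⟨b, hb⟩, h5⟩
    refine ⟨P, U, Ico (min a b) b, h1, h2, h3, fun g hg hg' => ?_⟩
    refine Matrix.ext_of_mulVec_single fun i => ?_
    have h6 := fil_HqLq (mq (ρ g)) (fun a => ((chi p g : ℤ_[p]) : ℚ_[p]) ^ a) F (h5 g hg hg')
      (eq_top_iff.2 (ha ▸ h4 (min_le_left a b))) (min_le_right a b) (Pi.single i 1)
    rw [hb, Submodule.mem_bot] at h6
    rw [h6, zero_mulVec]
  · rintro ⟨P, U, J, h1, h2, h3, h4⟩ g ⟨Q, q1, q2, q3⟩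
    obtain ⟨s, hs⟩ := exists_conj (P := P) (P' := Q) Fact.out h2 q2
    have hU := fi_NjGen (h3.mem_nhds U.one_mem)
    obtain ⟨m, m0, -, hm⟩ := Subgroup.exists_pow_mem_of_index_ne_zero hU.index_ne_zero
      (s⁻¹ * g * s)
    have h5 := h4 ((s⁻¹ * g * s) ^ (m * (p - 1))) (by rw [pow_mul]; exact U.pow_mem hm _)
      (pow_mem (hs g q3) _)
    have e : ρ g ^ (m * (p - 1)) = ρ s * ρ ((s⁻¹ * g * s) ^ (m * (p - 1))) * (ρ s)⁻¹ := by
      rw [map_pow, ← conj_pow, map_mul, map_mul, map_inv]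
      congr 1
      group
    obtain ⟨-, -, s3, s4, -⟩ := (hS hp (Fin n)).1 (ρ ((s⁻¹ * g * s) ^ (m * (p - 1))))
    refine ⟨m * (p - 1), mul_ne_zero m0.ne' (by omega), ?_, fun h0 => ?_⟩
    · rw [e]
      refine (s4 _).2 (s3.2 ⟨J.val.map fun a =>
        ((chi p ((s⁻¹ * g * s) ^ (m * (p - 1))) : ℤ_[p]) : ℚ_[p]) ^ a, ?_⟩)
      rw [Multiset.map_map]
      exact h5
    · rw [e]
      refine (s4 _).1 ⟨J.card, ?_⟩
      obtain ⟨-, e2, -, -, e5, -⟩ := hE hp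
      have h6 : eps (chi p g) = 1 := by
        refine Units.ext (sub_eq_zero.1 (PadicInt.ext_of_toZModPow.1 fun k => ?_))
        rw [map_zero, ← RingHom.mem_ker, PadicInt.ker_toZModPow, Ideal.mem_span_singleton]
        exact (pow_dvd_pow _ k.le_succ).trans ((e2 _ k).1 (h0 ▸ dvd_zero _))
      have h7 : chi p ((s⁻¹ * g * s) ^ (m * (p - 1))) = 1 := by
        rw [map_pow, map_mul, map_mul, map_inv, mul_right_comm, inv_mul_cancel, one_mul,
          ← eps_mul_om (chi p g), h6, one_mul, pow_mul', (e5 _).2.1, one_pow]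
      simpa [h7] using h5

end Pool.Agent.MP_f68ac8_nt.Ht
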