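import Mathlib
import Pool.Agent.MP_f68ac8_nt.HqAux
import Pool.Agent.MP_f68ac8_nt.HbRtX

namespace Pool.Agent.MP_f68ac8_nt.Ht

open Ev Pv Sv Zv Zk Nd Matrix NumberField Finset Filter
open scoped Topology BigOperators commutatorElement

theorem x_RtO (p : ℕ) [Fact p.Prime] (hD : Zk.DvStmt p) (hG : Zk.LogStmt p) (hE : Zk.ExpStmt p)
    (hX : XpX p) (hU : UpX p) : RtO p := by
  intro hp ι _ _ g hg a s E hr t
  have _ := hG
  by_cases h0 : E = 0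
  · simp [h0]
  obtain ⟨-, d2, d3, -, -, -, d7, d8, -⟩ := hD ι
  obtain ⟨-, -, x3, -, x5, -, x7, -⟩ := hX hp
  obtain ⟨u1, u2, u3, -, u5, -⟩ := hU hp ι g hg
  have hx := (hE hp ι).2.1 (sc_HbRtX E)
  have l1 : Zk.lg g ∈ sc_HbRtX E := (hx g hg).1 ⟨_, hr⟩
  obtain ⟨c, hc⟩ : mq (up g t) ∈ sc_HbRtX E := (hx _ (u1 t).1).2 (by
    rw [(u1 t).2]
    exact (sc_HbRtX E).smul_mem l1 (t : ℚ_[p]))
  have pw : ∀ m : ℕ, mq (g ^ m) * E = xq s a ^ m • E := by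
    intro m
    induction m with
    | zero => rw [pow_zero, (d7 1 1).2.2.2, pow_zero, one_mul, one_smul]
    | succ m ih => rw [pow_succ, (d7 _ _).1, mul_assoc, hr, mul_smul_comm, ih, smul_smul, pow_succ']
  have xm : ∀ m : ℕ, xq s a ^ m =
      (((xp ((a : ℤ_[p]) * (s * (m : ℤ_[p]))) : ℤ_[p]ˣ) : ℤ_[p]) : ℚ_[p]) := fun m => by
    have h1 := x3 ((a : ℤ_[p]) * s) m
    rw [zpow_natCast, Int.cast_natCast, mul_comm (m : ℤ_[p]), mul_assoc] at h1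
    rw [xq, x3, ← h1, Units.val_pow_eq_pow_val, PadicInt.coe_pow]
  rw [hc]
  congr 1
  refine sub_eq_zero.1 (norm_le_zero_iff.1 (ge_of_tendsto' (tendsto_pow_atTop_nhds_zero_of_lt_one
    (r := (p : ℝ)⁻¹) (by positivity)
    (inv_lt_one_of_one_lt₀ (by exact_mod_cast (by omega : 1 < p)))) fun k => ?_))
  obtain ⟨m, hm⟩ := x7 k t
  have a1 : ‖c - xq s a ^ m‖ ≤ (p : ℝ)⁻¹ ^ k := by
    refine nrm_HbRtX (X := (mq (up g (t - m)) - 1) * mq (g ^ m)) h0 ?_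
      (d2 k 0 _ _ (d3 _ _ _ k.le_succ ((d8 _ _).1 (u5 k _ hm))) (d7 _ g).2.1)
    rw [sub_mul, ← (d7 _ _).1, ← u3, ← u2, sub_add_cancel, one_mul, sub_mul, hc, u3, pw, sub_smul]
  have a2 : ‖xq (s * t) a - xq s a ^ m‖ ≤ (p : ℝ)⁻¹ ^ k := by
    rw [xm, xq, x3, ← PadicInt.coe_sub, dvd_HbRtX]
    refine (pow_dvd_pow _ k.le_succ).trans ((x5 k _ _).1 ?_)
    rw [← mul_sub, ← mul_sub]
    exact (hm.mul_left _).mul_left _
  rw [← sub_sub_sub_cancel_right c _ (xq s a ^ m), sub_eq_add_neg]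
  exact (IsUltrametricDist.norm_add_le_max _ _).trans (max_le a1 (by rwa [norm_neg]))

end Pool.Agent.MP_f68ac8_nt.Ht
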