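import Mathlib

/-! Normalised Lie algebras with vanishing trace form in an irreducible representation. -/

namespace Pool.Agent.MP_f68ac8_nt

open Matrix

attribute [local instance 100] LieRing.ofAssociativeRing

lemma zero_of_common_ker_Irr {F : Type} [Field F] {n : Type} [Fintype n] [DecidableEq n]
    {G : Type} [Group G] (ρ : G →* Matrix n n F)
    (hirr : ∀ W : Submodule F (n → F), (∀ g, ∀ w ∈ W, ρ g *ᵥ w ∈ W) → W = ⊥ ∨ W = ⊤)
    (S : Set (Matrix n n F)) (hS : ∀ g, ∀ Y ∈ S, ρ g * Y * ρ g⁻¹ ∈ S)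
    {w : n → F} (hw : w ≠ 0) (hk : ∀ Y ∈ S, Y *ᵥ w = 0) : ∀ Y ∈ S, Y = 0 := by
  let W : Submodule F (n → F) :=
    { carrier := {v | ∀ Y ∈ S, Y *ᵥ v = 0}
      add_mem' := fun {a b} ha hb Y hY => by rw [mulVec_add, ha Y hY, hb Y hY, add_zero]
      zero_mem' := fun Y _ => mulVec_zero Y
      smul_mem' := fun c a ha Y hY => by rw [mulVec_smul, ha Y hY, smul_zero] }
  have hW : ∀ g, ∀ v ∈ W, ρ g *ᵥ v ∈ W := by
    intro g v hv Y hY
    have h1 := hv _ (hS g⁻¹ Y hY)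
    rw [inv_inv] at h1
    have h2 : Y * ρ g = ρ g * (ρ g⁻¹ * Y * ρ g) := by
      rw [← mul_assoc, ← mul_assoc, ← map_mul, mul_inv_cancel, map_one, one_mul]
    rw [mulVec_mulVec, h2, ← mulVec_mulVec, h1, mulVec_zero]
  rcases hirr W hW with h0 | h0
  · exact absurd ((Submodule.eq_bot_iff W).mp h0 w hk) hw
  · intro Y hY
    have h1 : ∀ v, Y *ᵥ v = 0 := fun v => (h0 ▸ Submodule.mem_top : v ∈ W) Y hY
    ext i j
    have h2 := congrFun (h1 (Pi.single j 1)) i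
    simpa using h2

lemma exists_common_ker_Irr {F : Type} [Field F] {n : Type} [Fintype n] [Nonempty n]
    (L : Type) [LieRing L] [LieAlgebra F L] [LieRingModule L (n → F)] [LieModule F L (n → F)]
    [LieModule.IsNilpotent L (n → F)] : ∃ w : n → F, w ≠ 0 ∧ ∀ x : L, ⁅x, w⁆ = 0 := by
  obtain ⟨⟨w, hw⟩, hw0⟩ := @exists_ne _
    (LieModule.nontrivial_max_triv_of_isNilpotent F L (n → F)) 0
  exact ⟨w, fun e => hw0 (Subtype.ext e), hw⟩

lemma nil_of_conj_Irr {F : Type} [Field F] [CharZero F] {n : Type} [Fintype n] [DecidableEq n]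
    {A B X : Matrix n n F} (hBA : B * A = 1) (hAB : A * B = 1) {q : ℕ} (hq : 1 < q)
    (h : A * X * B = (q : F) • X) : IsNilpotent X := by
  by_contra hn
  let f : Module.End F (Matrix n n F) := LinearMap.mulLeft F A ∘ₗ LinearMap.mulRight F B
  have h1 : ∀ k : ℕ, f (X ^ k) = ((q ^ k : ℕ) : F) • X ^ k := by
    intro k
    change A * (X ^ k * B) = _
    induction k with
    | zero => simp [hAB]
    | succ k ih =>
      have e : A * (X ^ (k + 1) * B) = (A * (X ^ k * B)) * (A * X * B) := by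
        calc A * (X ^ (k + 1) * B) = A * (X ^ k * (B * A) * X * B) := by
              rw [hBA, mul_one, pow_succ]
          _ = _ := by simp only [mul_assoc]
      rw [e, ih, h, smul_mul_smul_comm, ← pow_succ, pow_succ q k, Nat.cast_mul]
  refine (f.finite_hasEigenvalue).not_infinite (Set.infinite_of_injective_forall_mem
    (f := fun k : ℕ => ((q ^ k : ℕ) : F))
    (fun a b e => Nat.pow_right_injective hq (Nat.cast_injective e)) fun k => ?_)
  exact Module.End.hasEigenvalue_of_hasEigenvector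
    ⟨Module.End.mem_eigenspace_iff.mpr (h1 k), fun e => hn ⟨k, e⟩⟩

lemma toEnd_sub_Irr {F : Type} [Field F] {n : Type} [Fintype n] [DecidableEq n]
    (L : LieSubalgebra F (Matrix n n F)) (x : L) :
    LieModule.toEnd F L (n → F) x = Matrix.toLin' (x : Matrix n n F) := by
  refine LinearMap.ext fun v => ?_
  rw [Matrix.toLin'_apply]
  rfl

theorem eq_zero_of_irr {F : Type} [Field F] [CharZero F] {n : Type} [Fintype n] [DecidableEq n]
    {G : Type} [Group G] (ρ : G →* Matrix n n F)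
    (hirr : ∀ W : Submodule F (n → F), (∀ g, ∀ w ∈ W, ρ g *ᵥ w ∈ W) → W = ⊥ ∨ W = ⊤)
    (N : Submodule F (Matrix n n F)) (hbr : ∀ X ∈ N, ∀ Y ∈ N, X * Y - Y * X ∈ N)
    (hconj : ∀ g, ∀ X ∈ N, ρ g * X * ρ g⁻¹ ∈ N) (htr : ∀ X ∈ N, ∀ Y ∈ N, trace (X * Y) = 0)
    {X : Matrix n n F} (hX : X ∈ N) {s : G} {q : ℕ} (hq : 1 < q)
    (h : ρ s * X * ρ s⁻¹ = (q : F) • X) : X = 0 := by
  rcases isEmpty_or_nonempty n with hn | hn
  · exact Subsingleton.elim _ _
  have hinv : ∀ g, ρ g⁻¹ * ρ g = 1 := fun g => by rw [← map_mul, inv_mul_cancel, map_one]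
  have hinv' : ∀ g, ρ g * ρ g⁻¹ = 1 := fun g => by rw [← map_mul, mul_inv_cancel, map_one]
  have hmul : ∀ g (Y Z : Matrix n n F),
      ρ g * (Y * Z) * ρ g⁻¹ = (ρ g * Y * ρ g⁻¹) * (ρ g * Z * ρ g⁻¹) := by
    intro g Y Z
    calc ρ g * (Y * Z) * ρ g⁻¹ = ρ g * (Y * (ρ g⁻¹ * ρ g) * Z) * ρ g⁻¹ := by rw [hinv, mul_one]
      _ = _ := by simp only [mul_assoc]
  have hXn : IsNilpotent X := nil_of_conj_Irr (hinv s) (hinv' s) hq h
  let L : LieSubalgebra F (Matrix n n F) :=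
    { N with lie_mem' := fun {x y} hx hy => hbr x hx y hy }
  have hL : LieModule.traceForm F L (n → F) = 0 := by
    ext x y
    rw [LieModule.traceForm_apply_apply, toEnd_sub_Irr, toEnd_sub_Irr, ← Matrix.toLin'_mul,
      Matrix.trace_toLin'_eq]
    exact htr _ x.2 _ y.2
  have := LieModule.isNilpotent_derivedSeries_of_traceForm_eq_zero hL
  obtain ⟨w, hw, hk⟩ := exists_common_ker_Irr (F := F) (n := n) (LieAlgebra.derivedSeries F L 1)
  have hcomm : ∀ Y ∈ N, ∀ Z ∈ N, Commute Y Z := by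
    intro Y hY Z hZ
    refine sub_eq_zero.mp (zero_of_common_ker_Irr ρ hirr
      {M | ∃ Y ∈ N, ∃ Z ∈ N, M = Y * Z - Z * Y} ?_ hw ?_ _ ⟨Y, hY, Z, hZ, rfl⟩)
    · rintro g _ ⟨Y, hY, Z, hZ, rfl⟩
      refine ⟨_, hconj g Y hY, _, hconj g Z hZ, ?_⟩
      rw [mul_sub, sub_mul, hmul, hmul]
    · rintro _ ⟨Y, hY, Z, hZ, rfl⟩
      have hm : ⁅(⟨Y, hY⟩ : L), (⟨Z, hZ⟩ : L)⁆ ∈ LieAlgebra.derivedSeries F L 1 := by
        rw [LieAlgebra.derivedSeries_def, LieAlgebra.derivedSeriesOfIdeal_succ,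
          LieAlgebra.derivedSeriesOfIdeal_zero]
        exact LieSubmodule.lie_mem_lie (LieSubmodule.mem_top _) (LieSubmodule.mem_top _)
      exact hk ⟨_, hm⟩
  let K : LieSubalgebra F (Matrix n n F) :=
    { carrier := {Y | Y ∈ N ∧ IsNilpotent Y}
      add_mem' := fun {a b} ha hb =>
        ⟨N.add_mem ha.1 hb.1, (hcomm a ha.1 b hb.1).isNilpotent_add ha.2 hb.2⟩
      zero_mem' := ⟨N.zero_mem, IsNilpotent.zero⟩
      smul_mem' := fun c a ha => ⟨N.smul_mem c ha.1, ha.2.smul c⟩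
      lie_mem' := fun {a b} ha hb => by
        have e : ⁅a, b⁆ = 0 := sub_eq_zero.mpr (hcomm a ha.1 b hb.1)
        rw [e]
        exact ⟨N.zero_mem, IsNilpotent.zero⟩ }
  have : LieModule.IsNilpotent K (n → F) := by
    rw [LieModule.isNilpotent_iff_forall' (R := F)]
    intro x
    rw [toEnd_sub_Irr]
    exact x.2.2.map (Matrix.toLinAlgEquiv' : Matrix n n F ≃ₐ[F] _)
  obtain ⟨v, hv, hkv⟩ := exists_common_ker_Irr (F := F) (n := n) K
  refine zero_of_common_ker_Irr ρ hirr {Y | Y ∈ N ∧ IsNilpotent Y} ?_ hv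
    (fun Y hY => hkv ⟨Y, hY⟩) X ⟨hX, hXn⟩
  rintro g Y ⟨hY, k, hk⟩
  refine ⟨hconj g Y hY, k, ?_⟩
  have hp : ∀ m : ℕ, (ρ g * Y * ρ g⁻¹) ^ m = ρ g * Y ^ m * ρ g⁻¹ := by
    intro m
    induction m with
    | zero => rw [pow_zero, pow_zero, mul_one, hinv']
    | succ m ih => rw [pow_succ, pow_succ, ih, hmul]
  rw [hp, hk, mul_zero, zero_mul]

end Pool.Agent.MP_f68ac8_nt
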