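import Mathlib
import Pool.Agent.MP_f68ac8_nt.LdAux
import Pool.Agent.MP_f68ac8_nt.OvLead1

namespace Pool.Agent.MP_f68ac8_nt.Sv

open Ev Pv
open Matrix IsLocalRing

section
variable {O k : Type} [CommRing O] [IsDomain O] [IsDiscreteValuationRing O] [Field k]
  {π : O →+* k} {n : ℕ} {H : Type}

lemma schur_LdGam (hπ : Rs π) {T : H → Mt n O}
    (hS : ∀ Y : Mt n k, (∀ h, π.mapMatrix (T h) * Y = Y * π.mapMatrix (T h)) → ∃ c : k, Y = c • 1)
    {τ : O} (h0 : τ ≠ 0) {G : Mt n O} (hG : ∀ h, Dv_OvLead1 τ (T h * G - G * T h)) :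
    ∃ (c : O) (Y : Mt n O), G = c • 1 + τ • Y := by
  obtain ⟨ϖ, hϖ⟩ := IsDiscreteValuationRing.exists_irreducible O
  have hm : ∀ x, π x = 0 ↔ ϖ ∣ x := fun x => by
    rw [hπ.ker, hϖ.maximalIdeal_eq, Ideal.mem_span_singleton]
  have key : ∀ (e : ℕ) (G : Mt n O), (∀ h, Dv_OvLead1 (ϖ ^ e) (T h * G - G * T h)) →
      ∃ (c : O) (Y : Mt n O), G = c • 1 + ϖ ^ e • Y := by
    intro e
    induction e with
    | zero => exact fun G _ => ⟨0, G, by simp⟩
    | succ e ih =>
      intro G hG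
      obtain ⟨c, hc⟩ := hS (π.mapMatrix G) fun h => by
        obtain ⟨W, hW⟩ := hG h
        rw [← map_mul, ← map_mul, ← sub_eq_zero, ← map_sub, hW, map_sm_OvLead1,
          (hm _).2 (dvd_pow_self ϖ e.succ_ne_zero), zero_smul]
      obtain ⟨c, rfl⟩ := hπ.surj c
      have h1 : π.mapMatrix (G - c • 1) = 0 := by
        rw [map_sub, map_sm_OvLead1, map_one, hc, sub_self]
      obtain ⟨G₁, h2⟩ := dv_iff_OvLead1.2 fun a b => (hm _).1 (congrFun (congrFun h1 a) b)
      obtain rfl := sub_eq_iff_eq_add'.1 h2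
      obtain ⟨c₁, Y, rfl⟩ := ih G₁ fun h => (hG h).imp fun W hW =>
        smul_right_injective _ hϖ.ne_zero (by
          simp only [smul_smul, ← pow_succ', ← hW, mul_add, add_mul, Matrix.mul_smul,
            Matrix.smul_mul, mul_one, one_mul, smul_sub]
          abel)
      exact ⟨c + ϖ * c₁, Y, by rw [add_smul, smul_add, smul_smul, smul_smul, pow_succ', add_assoc]⟩
  obtain ⟨e, u, rfl⟩ := IsDiscreteValuationRing.eq_unit_mul_pow_irreducible h0 hϖ
  obtain ⟨c, Y, h⟩ := key e G fun h => (hG h).mono (dvd_mul_left _ _)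
  exact ⟨c, u⁻¹.val • Y, by rw [h, smul_smul, mul_right_comm, Units.mul_inv, one_mul]⟩

lemma main_LdGam (hπ : Rs π) (hn : (n : k) ≠ 0) {A T Z Z' : H → Mt n O} {E G : Mt n O} {τ : O}
    {s s' : H → O} (h0 : τ ≠ 0) (hτ : π τ = 0) (hA : ∀ h, IsUnit (A h)) (hT : ∀ h, IsUnit (T h))
    (hE : IsUnit E) (hG : IsUnit G) (h1 : ∀ h, A h * E * T h * (1 + τ • Z h) = s h • E)
    (h2 : ∀ h, (1 + τ • Z' h) * A h * (E * G) * T h = s' h • (E * G))
    (d1 : ∀ h, (1 + τ • Z h).det = 1) (d2 : ∀ h, (1 + τ • Z' h).det = 1) {g : k}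
    (hg : π.mapMatrix G = g • 1)
    (hS : ∀ Y : Mt n k, (∀ h, π.mapMatrix (T h) * Y = Y * π.mapMatrix (T h)) → ∃ c : k, Y = c • 1)
    (h : H) {a t : k} (ha : π.mapMatrix (A h) = a • 1) (ht : π.mapMatrix (T h) = t • 1) :
    π.mapMatrix (Z' h) * π.mapMatrix E = π.mapMatrix E * π.mapMatrix (Z h) := by
  have n0 : n ≠ 0 := fun h => hn (by rw [h, Nat.cast_zero])
  have : Nonempty (Fin n) := ⟨⟨0, Nat.pos_of_ne_zero n0⟩⟩
  have hu : ∀ {M : Mt n O} {c : k}, IsUnit M → π.mapMatrix M = c • 1 → c ≠ 0 :=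
    fun hM hc h => (hM.map π.mapMatrix).ne_zero (by rw [hc, h, zero_smul])
  have h3 : ∀ h, A h * E * T h * (1 + τ • Z h) * G = (1 + τ • Z' h) * A h * (E * G) * T h := by
    intro h
    have k1 := congrArg det (h1 h)
    have k2 := congrArg det (h2 h)
    have k3 := (isUnit_iff_isUnit_det _).1 hE
    have k4 := (isUnit_iff_isUnit_det _).1 (hE.mul hG)
    rw [det_mul, det_mul, det_mul, d1, det_smul, Fintype.card_fin, mul_one, mul_right_comm,
      k3.mul_left_inj] at k1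
    rw [det_mul, det_mul, det_mul, d2, det_smul, Fintype.card_fin, one_mul, mul_right_comm,
      k4.mul_left_inj] at k2
    have k5 : s' h • (A h * E * T h * (1 + τ • Z h) * G) =
        s h • ((1 + τ • Z' h) * A h * (E * G) * T h) := by
      rw [h1, h2, Matrix.smul_mul, smul_comm]
    have k6 := congrArg π.mapMatrix k5
    simp only [map_sm_OvLead1, map_mul, map_add, map_one, hτ, zero_smul, add_zero, mul_one, one_mul,
      hg, Matrix.mul_smul, Matrix.smul_mul] at k6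
    have k7 := smul_left_injective k (smul_ne_zero (hu hG hg)
      ((((hA h).map π.mapMatrix).mul (hE.map π.mapMatrix)).mul
        ((hT h).map π.mapMatrix)).ne_zero) k6
    have k8 : s' h = s h := root_eq (n := n)
      (by
        by_contra k8
        exact hn (by rw [← map_natCast π, hπ.ker]; exact k8))
      ((isUnit_pow_iff n0).1 (k1 ▸ ((isUnit_iff_isUnit_det _).1 (hA h)).mul
        ((isUnit_iff_isUnit_det _).1 (hT h)))) (k2.symm.trans k1)
      (by rw [← hπ.ker, map_sub, k7, sub_self])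
    rw [h1, h2, k8, Matrix.smul_mul]
  have h4 : ∀ h, A h * E * (T h * G - G * T h) =
      τ • (Z' h * A h * (E * G) * T h - A h * E * T h * Z h * G) := fun h => by
    have k1 := h3 h
    simp only [mul_add, add_mul, mul_sub, smul_sub, Matrix.mul_smul, Matrix.smul_mul, mul_one,
      one_mul, mul_assoc] at k1 ⊢
    linear_combination (norm := abel1) k1
  obtain ⟨c, Y, hY⟩ := schur_LdGam hπ hS h0 (G := G) fun h => by
    obtain ⟨u, hu⟩ := (hA h).mul hE
    have k1 := Dv_OvLead1.mul_left ⟨_, h4 h⟩ u⁻¹.val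
    rwa [← hu, Units.inv_mul_cancel_left] at k1
  have h5 : T h * G - G * T h = τ • (T h * Y - Y * T h) := by
    simp only [hY, mul_add, add_mul, smul_sub, Matrix.mul_smul, Matrix.smul_mul, mul_one, one_mul]
    abel
  have h6 := h4 h
  rw [h5, Matrix.mul_smul] at h6
  have h7 := congrArg π.mapMatrix (smul_right_injective _ h0 h6)
  simp only [map_mul, map_sub, ha, ht, hg, Matrix.mul_smul, Matrix.smul_mul, mul_one, one_mul,
    sub_self, mul_zero] at h7
  rw [smul_comm g t, ← smul_sub, ← smul_sub, ← smul_sub, eq_comm, smul_eq_zero,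
    smul_eq_zero, smul_eq_zero, sub_eq_zero] at h7
  simpa [hu hG hg, hu (hA h) ha, hu (hT h) ht] using h7

end

theorem gam_stmt (p : ℕ) [Fact p.Prime] (h1 : Sym1Stmt) (h2 : Sym2Stmt p) (hB : BaseStmt p) :
    GamStmt p := by
  intro K F _ _ r η γ n hKF hR S O _ _ _ k _ _ π L _ hL h hh
  obtain ⟨-, b2, b3, -, b5, -⟩ := hB K F r η γ n hKF hR
  have := charP_of_injective_algebraMap (algebraMap (ZMod p) k).injective p
  have hc : ∀ m, 0 < m → m ≤ n → (m : k) ≠ 0 := fun m h0 hm e => by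
    have := Nat.le_of_dvd h0 ((CharP.cast_eq_zero_iff k p m).1 e)
    have := hR.big.2
    omega
  have n0 : 0 < n := by have := hR.big.1; omega
  have : Nonempty (Fin n) := ⟨⟨0, n0⟩⟩
  obtain ⟨-, -, -, -, -, -, d1, d2⟩ := h1 k n
  replace d2 := d2 fun m h0 hm => (hc m h0 hm.le).isUnit
  have hsy : ∀ (c : ZMod p) (A : Mt 2 (ZMod p)),
      sy k n (c • A) = algebraMap (ZMod p) k (c ^ (n - 1)) • sy k n A := fun c A => by
    rw [sy, (h1 _ n).2.2.1]
    exact map_sm_OvLead1 _ _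
  have hsc : ∀ g : η.ker, r g = 1 → ∃ c : k, π.mapMatrix (L.ρ g).val = c • 1 := fun g hg => by
    obtain ⟨c, -, e⟩ := hL.res g
    obtain ⟨c', e'⟩ := (b5 1 g).1 hg
    rw [repIn, inv_one, one_mul, mul_one] at e'
    rw [e', hsy, sy, (h1 _ n).1, Matrix.map_one _ (map_zero _) (map_one _), smul_smul] at e
    exact ⟨_, e⟩
  have htr : ∀ M : Mt n O, π.mapMatrix Mᵀ = (π.mapMatrix M)ᵀ := fun M => rfl
  have he : ∀ g, (1 + L.τ • L.Z g) * (L.ρ g).val * L.E.val * (L.ρ (MulAut.conjNormal γ g)).valᵀ =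
      L.s g • L.E.val := fun g => by
    rw [← hL.eq, Matrix.smul_mul, Matrix.smul_mul, Units.inv_mul_cancel_right, mul_assoc,
      ← transpose_mul, Units.mul_inv, transpose_one, mul_one]
  let b : η.ker := ⟨γ * γ, by rw [MonoidHom.mem_ker, map_mul, Int.units_mul_self]⟩
  have hb : ∀ g : η.ker, MulAut.conjNormal γ (MulAut.conjNormal γ g) = b * g * b⁻¹ := fun g =>
    Subtype.ext (by
      simp only [b, MulAut.conjNormal_apply, Subgroup.coe_mul, Subgroup.coe_inv]
      group)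
  obtain ⟨c, c0, hE⟩ := hL.red
  have hE' : π.mapMatrix L.E.valᵀ = (c * (-1) ^ (n - 1)) • Dm k n := by
    rw [htr, RingHom.mapMatrix_apply, hE, transpose_smul, d1, smul_smul]
  have c1 : c * (-1) ^ (n - 1) ≠ 0 := mul_ne_zero c0 (pow_ne_zero _ (by simp))
  have hEG : L.E.valᵀ * (L.E⁻¹.valᵀ * L.E.val * (L.ρ b⁻¹).valᵀ) = L.E.val * (L.ρ b⁻¹).valᵀ := by
    rw [← mul_assoc, ← mul_assoc, ← transpose_mul, Units.inv_mul, transpose_one, one_mul]
  obtain ⟨β, hβ⟩ := hsc b⁻¹ (by simp [b, hR.gam.1])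
  have hu : ∀ A : GL (Fin n) O, IsUnit A.valᵀ := fun A => (isUnit_transpose _).2 A.isUnit
  obtain ⟨k1, k2, -⟩ := (b2 ⟨h, IntermediateField.fixingSubgroup_antitone hKF hh⟩).1 hh
  let h' : η.ker := ⟨_, k1⟩
  obtain ⟨a, ha⟩ := hsc (MulAut.conjNormal γ h') (by
    rw [MulAut.conjNormal_apply, map_mul, map_mul, map_inv, hR.gam.1, k2, inv_one, mul_one, mul_one])
  obtain ⟨t, ht⟩ := hsc h' k2
  have key := main_LdGam (H := η.ker) hL.toRs (hc n n0 le_rfl)
    (A := fun g => (L.ρ (MulAut.conjNormal γ g)).val) (T := fun g => (L.ρ g).valᵀ)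
    (Z := fun g => (L.Z g)ᵀ) (Z' := fun g => L.Z (MulAut.conjNormal γ g)) (E := L.E.valᵀ)
    (G := L.E⁻¹.valᵀ * L.E.val * (L.ρ b⁻¹).valᵀ) (s := L.s)
    (s' := fun g => L.s (MulAut.conjNormal γ g)) hL.ne0 hL.mem (fun g => Units.isUnit _)
    (fun g => hu _) (hu _) (((hu _).mul (Units.isUnit _)).mul (hu _)) (fun g => ?_) (fun g => ?_)
    (fun g => ?_) (fun g => hL.det _) (g := (c * (-1) ^ (n - 1))⁻¹ * (β * c)) ?_
    (fun Y hY => ?_) h' ha (t := t) (by rw [htr, ht, transpose_smul, transpose_one])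
  · rw [hE', Matrix.mul_smul, Matrix.smul_mul] at key
    exact (congrArg (· * Dm k n) (L.z_apply π (MulAut.conjNormal γ h'))).trans
      ((smul_right_injective _ c1 key).trans (congrArg (Dm k n * ·ᵀ) (L.z_apply π h').symm))
  · have k3 := congrArg transpose (he g)
    simp only [transpose_mul, transpose_add, transpose_smul, transpose_one,
      transpose_transpose] at k3
    simpa only [mul_assoc] using k3
  · have k3 := congrArg (· * (L.ρ b⁻¹).valᵀ) (he (MulAut.conjNormal γ g))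
    rw [hb, Matrix.smul_mul, mul_assoc, ← transpose_mul, ← Units.val_mul, ← map_mul, mul_assoc b,
      inv_mul_cancel_left, map_mul, Units.val_mul, transpose_mul] at k3
    rw [hEG, ← k3]
    simp only [mul_assoc]
  · rw [← hL.det g, ← det_transpose, transpose_add, transpose_smul, transpose_one,
      transpose_transpose]
  · have k3 := congrArg π.mapMatrix hEG
    rw [map_mul, hE', map_mul π.mapMatrix L.E.val, htr (L.ρ b⁻¹).val, hβ,
      RingHom.mapMatrix_apply π L.E.val, hE, transpose_smul, transpose_one, Matrix.smul_mul,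
      ← eq_inv_smul_iff₀ c1] at k3
    refine d2.mul_left_cancel (k3.trans ?_)
    simp only [Matrix.mul_smul, mul_one, smul_smul]
  · obtain ⟨e, he⟩ := (h2 k n n0 (by have := hR.big.2; omega)).2.2 Yᵀ fun A hA => by
      obtain ⟨g, e, g1, -, g2⟩ := b3 (GeneralLinearGroup.mkOfDetNeZero A (by simp [hA])) hA
      rw [← Nat.cast_smul_eq_nsmul (ZMod p)] at g2
      have e0 : (e : ZMod p) ≠ 0 := fun e0 => (rep r g).ne_zero (by rw [g2, e0, zero_smul])
      obtain ⟨e', e1, g3⟩ := hL.res ⟨g, g1⟩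
      have k3 := congrArg transpose (hY ⟨g, g1⟩)
      rw [htr, transpose_mul, transpose_mul, transpose_transpose, RingHom.mapMatrix_apply, g3, g2,
        hsy, smul_smul, Matrix.mul_smul, Matrix.smul_mul] at k3
      exact smul_right_injective _ (mul_ne_zero e1 ((map_ne_zero _).2 (pow_ne_zero _ e0))) k3
    exact ⟨e, by rw [← transpose_transpose Y, he, transpose_smul, transpose_one]⟩

end Pool.Agent.MP_f68ac8_nt.Sv
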