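import Mathlib
import Pool.Agent.MP_f68ac8_nt.FvMain
import Pool.Agent.MP_f68ac8_nt.EvKK
import Pool.Agent.MP_f68ac8_nt.EvRam
import Pool.Agent.MP_f68ac8_nt.EvLocAB
import Pool.Agent.MP_f68ac8_nt.EvR3
import Pool.Agent.MP_f68ac8_nt.EvKum
import Pool.Agent.MP_f68ac8_nt.EvTriv
import Pool.Agent.MP_f68ac8_nt.EvStep
import Pool.Agent.MP_f68ac8_nt.EvGame
import Pool.Agent.MP_f68ac8_nt.EvDer
import Pool.Agent.MP_f68ac8_nt.EvSub
import Pool.Agent.MP_f68ac8_nt.EvSZ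
import Pool.Agent.MP_f68ac8_nt.FvWild
import Pool.Agent.MP_f68ac8_nt.FvLocU
import Pool.Agent.MP_f68ac8_nt.FvRec
import Pool.Agent.MP_f68ac8_nt.FvCfg
import Pool.Agent.MP_f68ac8_nt.FvUnit
import Pool.Agent.MP_f68ac8_nt.FvDat
import Pool.Agent.MP_f68ac8_nt.FvVec
import Pool.Agent.MP_f68ac8_nt.FvLead
import Pool.Agent.MP_f68ac8_nt.FvSmall
import Pool.Agent.MP_f68ac8_nt.FvMean
import Pool.Agent.MP_f68ac8_nt.FvCount
import Pool.Agent.MP_f68ac8_nt.FvAvg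
import Pool.Agent.MP_f68ac8_nt.FvStep
import Pool.Agent.MP_f68ac8_nt.FvArch
import Pool.Agent.MP_f68ac8_nt.FvRank
import Pool.Agent.MP_f68ac8_nt.FvProj
import Pool.Agent.MP_f68ac8_nt.FvCert
import Pool.Agent.MP_f68ac8_nt.FvGen
import Pool.Agent.MP_f68ac8_nt.FvNat
import Pool.Agent.MP_f68ac8_nt.FvType
import Pool.Agent.MP_f68ac8_nt.FvComb

namespace Pool.Agent.MP_f68ac8_nt.LiftsOld

open NumberField Pool.Agent.MP_f68ac8_nt Ev

theorem result (n d : ℕ) (K : IntermediateField ℚ (AlgebraicClosure ℚ)) [NumberField K] :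
    ∃ C : ℝ, ∀ (p : ℕ) [Fact p.Prime] (F : IntermediateField ℚ (AlgebraicClosure ℚ))
    [NumberField F] [IsGalois ℚ F], K ≤ F → ¬ p ∣ Module.finrank ℚ F * classNumber F →
    ¬ (p : ℤ) ∣ discr F → ∀ r : K.fixingSubgroup →* GL (Fin n) (Fbar p), ScalOn F r →
    Aniso r → Defect r → ∀ t : ℕ → K.fixingSubgroup,
    (¬ AdIrr r → ∀ j x, x ^ p = 1 → (t j).1 x = x) →
      1 - C / p ≤ idDens (fun j => Typ p K F (t j)) d fun S => S.ncard = d ∧ LiftK p F r S := by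
  refine main2_of (alg2_stmt sub_stmt (type2_stmt game_stmt der_stmt gen2_stmt nat2_stmt
    (cert_stmt sub_stmt) proj_stmt sz_stmt)) unit2_stmt idMean_stmt wild_stmt rank2_stmt arch_stmt
    sub_stmt (fun p _ => ?_) n d K
  have hK := kk_stmt p
  have hA := locA_stmt p ram_stmt
  have hL := locU_stmt p hK hA wild_stmt
  have hT := triv_stmt p
  have hC := cfg2_stmt p wild_stmt hL hT
  exact ⟨step2_stmt p (count_stmt p wild_stmt hT) (avg_stmt p) idMean_stmt, hC,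
    dat2_stmt p hK hT hC, vec2_stmt p hK wild_stmt (recU_stmt p hK hA (locB_stmt p ram_stmt)
      (r3_stmt p) (kum_stmt p hK) wild_stmt hL) hT (step_stmt p hT) hC, lead2_stmt p wild_stmt,
    small_stmt p wild_stmt⟩

end Pool.Agent.MP_f68ac8_nt.LiftsOld
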