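import Mathlib

/-! Algebra of two by two matrices. -/

namespace Pool.Agent.MP_f68ac8_nt

open Matrix

abbrev M2 (K : Type) := Matrix (Fin 2) (Fin 2) K

section
variable {K : Type} [Field K]

lemma trace_of_sq {N : M2 K} (h : N * N = 0) : N 1 1 = - N 0 0 := by
  have h00 := congrFun (congrFun h 0) 0
  have h01 := congrFun (congrFun h 0) 1
  have h10 := congrFun (congrFun h 1) 0
  have h11 := congrFun (congrFun h 1) 1
  simp only [mul_apply, Fin.sum_univ_two, Matrix.zero_apply] at h00 h01 h10 h11
  by_contra hne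
  have hs : N 0 0 + N 1 1 ≠ 0 := fun e => hne (by linear_combination e)
  have e1 : N 0 1 = 0 := by
    apply mul_left_cancel₀ hs
    linear_combination h01
  rw [e1] at h00 h11
  have e2 : N 0 0 = 0 := by simpa using h00
  have e3 : N 1 1 = 0 := by simpa using h11
  exact hs (by rw [e2, e3, add_zero])

lemma anticomm {M N : M2 K} (hM : M 1 1 = - M 0 0) (hN : N 1 1 = - N 0 0) :
    M * N + N * M = trace (M * N) • (1 : M2 K) := by
  ext i j
  fin_cases i <;> fin_cases j <;>
    simp [mul_apply, Fin.sum_univ_two, trace_fin_two, hM, hN] <;> ring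

/-- simultaneous normal form of two nilpotent matrices -/
lemma normal_form {M N : M2 K} (hM : M * M = 0) (hN : N * N = 0) (hu : trace (M * N) ≠ 0) :
    ∃ A A' : M2 K, A * A' = 1 ∧ A' * A = 1 ∧ A' * M * A = !![0, 1; 0, 0] ∧
      A' * N * A = !![0, 0; trace (M * N), 0] := by
  set u := trace (M * N) with hu'
  have hM0 : M ≠ 0 := by
    rintro rfl
    simp at hu'
    exact hu hu'
  obtain ⟨w, hw⟩ : ∃ w, M *ᵥ w ≠ 0 := by
    by_contra h
    push Not at h
    exact hM0 (Matrix.ext_iff_mulVec.mpr fun w => by simp [h w])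
  set v1 := M *ᵥ w with hv1
  set v2 := u⁻¹ • (N *ᵥ v1) with hv2
  have e1 : M *ᵥ v1 = 0 := by rw [hv1, mulVec_mulVec, hM, zero_mulVec]
  have e2 : M *ᵥ v2 = v1 := by
    have := congrArg (· *ᵥ v1) (anticomm (trace_of_sq hM) (trace_of_sq hN))
    simp only [add_mulVec, ← mulVec_mulVec, e1, mulVec_zero, add_zero, smul_mulVec,
      one_mulVec] at this
    rw [hv2, mulVec_smul, this, smul_smul, inv_mul_cancel₀ hu, one_smul]
  have e3 : N *ᵥ v1 = u • v2 := by rw [hv2, smul_smul, mul_inv_cancel₀ hu, one_smul]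
  have e4 : N *ᵥ v2 = 0 := by rw [hv2, mulVec_smul, mulVec_mulVec, hN, zero_mulVec, smul_zero]
  let A : M2 K := !![v1 0, v2 0; v1 1, v2 1]
  have hA : ∀ z : Fin 2 → K, A *ᵥ z = z 0 • v1 + z 1 • v2 := fun z => by
    ext i
    fin_cases i <;> simp [A, mulVec, dotProduct, Fin.sum_univ_two] <;> ring
  have hdet : A.det ≠ 0 := by
    rw [Ne, ← exists_mulVec_eq_zero_iff]
    rintro ⟨z, hz, h⟩
    rw [hA] at h
    have h1 := congrArg (M *ᵥ ·) h
    simp only [mulVec_add, mulVec_smul, e1, e2, smul_zero, zero_add, mulVec_zero,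
      smul_eq_zero, hw, or_false] at h1
    rw [h1, zero_smul, add_zero, smul_eq_zero, or_iff_left hw] at h
    apply hz
    ext i
    fin_cases i
    · exact h
    · exact h1
  have hdet' : IsUnit A.det := isUnit_iff_ne_zero.mpr hdet
  refine ⟨A, A⁻¹, mul_nonsing_inv A hdet', nonsing_inv_mul A hdet', ?_, ?_⟩
  · have : M * A = A * !![0, 1; 0, 0] := by
      rw [Matrix.ext_iff_mulVec]
      intro z
      rw [← mulVec_mulVec, ← mulVec_mulVec, hA, hA, mulVec_add, mulVec_smul, mulVec_smul, e1, e2]
      simp [mulVec, dotProduct, Fin.sum_univ_two]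
    rw [mul_assoc, this, ← mul_assoc, nonsing_inv_mul A hdet', one_mul]
  · have : N * A = A * !![0, 0; u, 0] := by
      rw [Matrix.ext_iff_mulVec]
      intro z
      rw [← mulVec_mulVec, ← mulVec_mulVec, hA, hA, mulVec_add, mulVec_smul, mulVec_smul, e3, e4]
      simp [mulVec, dotProduct, Fin.sum_univ_two, smul_smul, mul_comm]
    rw [mul_assoc, this, ← mul_assoc, nonsing_inv_mul A hdet', one_mul]

variable [CharZero K]

/-- half the trace -/
noncomputable def tt (M : M2 K) : K := trace M / 2

/-- trace-free part -/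
noncomputable def XX (M : M2 K) : M2 K := M - tt M • (1 : M2 K)

/-- trace form -/
noncomputable def BB (M N : M2 K) : K := trace (XX M * XX N)

/-- cubic form -/
noncomputable def TT (M N L : M2 K) : K := trace ((XX M * XX N - XX N * XX M) * XX L)

lemma tt_add_XX (M : M2 K) : tt M • (1 : M2 K) + XX M = M := by simp [XX]

lemma XX_one : XX (1 : M2 K) = 0 := by
  simp [XX, tt]

lemma tt_one : tt (1 : M2 K) = 1 := by
  simp [tt]

lemma XX_11 (M : M2 K) : XX M 1 1 = - XX M 0 0 := by
  simp [XX, tt, trace_fin_two]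
  ring

lemma XX_mul (M N : M2 K) : XX (M * N) = tt M • XX N + tt N • XX M +
    (1 / 2 : K) • (XX M * XX N - XX N * XX M) := by
  ext i j
  fin_cases i <;> fin_cases j <;>
    simp [XX, tt, mul_apply, Fin.sum_univ_two, trace_fin_two] <;> ring

lemma BB_eq (M N : M2 K) : BB M N = 2 * (tt (M * N) - tt M * tt N) := by
  simp [BB, XX, tt, mul_apply, Fin.sum_univ_two, trace_fin_two]
  ring

lemma BB_comm (M N : M2 K) : BB M N = BB N M := trace_mul_comm _ _

lemma BB_mul (M N L : M2 K) : BB (M * N) L = tt M * BB N L + tt N * BB M L + TT M N L / 2 := by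
  simp only [BB, TT, XX_mul, add_mul, smul_mul_assoc, trace_add, trace_smul, smul_eq_mul]
  ring

lemma TT_sq (M N L : M2 K) : TT M N L ^ 2 = -2 * (BB M M * BB N N * BB L L
    + 2 * (BB M N * BB N L * BB M L) - BB M M * BB N L * BB N L - BB N N * BB M L * BB M L
    - BB L L * BB M N * BB M N) := by
  simp only [TT, BB, trace_fin_two, mul_apply, Matrix.sub_apply, Fin.sum_univ_two, XX_11]
  ring

lemma XX_sq (M : M2 K) : XX M * XX M = (BB M M / 2) • (1 : M2 K) := by
  ext i j
  fin_cases i <;> fin_cases j <;>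
    simp [BB, mul_apply, Fin.sum_univ_two, trace_fin_two, XX_11] <;> ring

lemma tt_lin (a b : K) (M : M2 K) : tt (a • (1 : M2 K) + b • XX M) = a := by
  simp [tt, trace_fin_two, XX_11]

lemma XX_lin (a b : K) (M : M2 K) : XX (a • (1 : M2 K) + b • XX M) = b • XX M := by
  rw [XX, tt_lin]
  simp

lemma tt_conj {A A' : M2 K} (h : A * A' = 1) (M : M2 K) : tt (A' * M * A) = tt M := by
  rw [tt, trace_mul_cycle, h, one_mul, tt]

lemma XX_conj {A A' : M2 K} (h : A * A' = 1) (h' : A' * A = 1) (M : M2 K) :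
    XX (A' * M * A) = A' * XX M * A := by
  rw [XX, tt_conj h, XX, mul_sub, sub_mul]
  simp [h']

lemma BB_conj {A A' : M2 K} (h : A * A' = 1) (h' : A' * A = 1) (M N : M2 K) :
    BB (A' * M * A) (A' * N * A) = BB M N := by
  rw [BB, XX_conj h h', XX_conj h h', BB]
  have : A' * XX M * A * (A' * XX N * A) = A' * (XX M * XX N) * A := by
    simp only [mul_assoc]
    rw [← mul_assoc A A', h, one_mul]
  rw [this, trace_mul_cycle, h, one_mul]

lemma lin_mul (a b : K) (M : M2 K) : (a • (1 : M2 K) + b • XX M) * M =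
    (a * tt M + b * (BB M M / 2)) • (1 : M2 K) + (a + b * tt M) • XX M := by
  have : (a • (1 : M2 K) + b • XX M) * M = (a • (1 : M2 K) + b • XX M) * (tt M • 1 + XX M) := by
    rw [tt_add_XX]
  rw [this]
  simp only [add_mul, mul_add, smul_mul_assoc, mul_smul_comm, one_mul, mul_one, XX_sq]
  module

lemma pow_of_nil {M : M2 K} (h : BB M M = 0) (n : ℕ) :
    M ^ (n + 1) = (tt M ^ (n + 1)) • (1 : M2 K) + ((n + 1 : ℕ) * tt M ^ n) • XX M := by
  induction n with
  | zero => simp [tt_add_XX]
  | succ n ih =>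
    rw [pow_succ, ih, lin_mul, h]
    congr 2
    · ring
    · push_cast; ring

/-- commuting when the trace form vanishes -/
lemma commute_of_BB {M N : M2 K} (h1 : BB M M = 0) (h2 : BB N N = 0) (h3 : BB M N = 0) :
    M * N = N * M := by
  have e : XX M * XX N = XX N * XX M := by
    simp only [BB, trace_fin_two, mul_apply, Fin.sum_univ_two, XX_11] at h1 h2 h3
    set a := XX M 0 0
    set b := XX M 0 1
    set c := XX M 1 0
    set a' := XX N 0 0
    set b' := XX N 0 1
    set c' := XX N 1 0
    have k1 : a * a + b * c = 0 := by linear_combination h1 / 2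
    have k2 : a' * a' + b' * c' = 0 := by linear_combination h2 / 2
    have k3 : 2 * (a * a') + b * c' + c * b' = 0 := by linear_combination h3
    have m1 : b * c' - c * b' = 0 := by
      apply pow_eq_zero_iff (two_ne_zero) |>.mp
      linear_combination (b * c' + c * b' - 2 * (a * a')) * k3 - 4 * (b' * c') * k1
        + 4 * (a * a) * k2
    have m2 : a * b' - b * a' = 0 := by
      apply pow_eq_zero_iff (two_ne_zero) |>.mp
      linear_combination (b' * b') * k1 + (b * b) * k2 - (b * b') * k3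
    have m3 : a * c' - c * a' = 0 := by
      apply pow_eq_zero_iff (two_ne_zero) |>.mp
      linear_combination (c' * c') * k1 + (c * c) * k2 - (c * c') * k3
    ext i j
    fin_cases i <;> fin_cases j <;> simp [mul_apply, Fin.sum_univ_two, XX_11]
    · linear_combination m1
    · linear_combination 2 * m2
    · linear_combination (-2) * m3
    · linear_combination (-1) * m1
  rw [← tt_add_XX M, ← tt_add_XX N]
  simp only [add_mul, mul_add, smul_mul_assoc, mul_smul_comm, one_mul, mul_one, e, smul_smul,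
    smul_add, mul_comm (tt M)]
  abel

end

end Pool.Agent.MP_f68ac8_nt
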