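import Mathlib
import Pool.Agent.MP_f68ac8_nt.QvAux
import Pool.Agent.MP_f68ac8_nt.OvMix
import Pool.Agent.MP_f68ac8_nt.OvMixV
import Pool.Agent.MP_f68ac8_nt.OvRec
import Pool.Agent.MP_f68ac8_nt.EvRec
import Pool.Agent.MP_f68ac8_nt.PvMat

/-! The reciprocity law for matrices with mixed local conditions. -/

namespace Pool.Agent.MP_f68ac8_nt.Qv

open Ev Pv
open NumberField Matrix Finset
open Pool.Agent.MP_14ad9d_nt.Full (Pr ord Tm tame Phi NearAt)
open Pool.Agent.MP_14ad9d_nt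
open scoped Pointwise Topology

/-- a sum over a stable finite set vanishes if it vanishes on each orbit -/
lemma orb_QvRec {Γ A T k : Type} [Group Γ] [Fintype Γ] [Group A] [MulAction A T] [Field k]
    (φ : Γ →* A) (W : Finset T) (hW : ∀ g, ∀ w ∈ W, φ g • w ∈ W) (a : T → k)
    (h : ∀ w ∈ W, a w = 0 ∨ ∃ w₀ t, w = φ t • w₀ ∧ ∑ g, a ((φ g)⁻¹ • w₀) = 0 ∧
      (Nat.card {g : Γ // φ g • w₀ = w₀} : k) ≠ 0) : ∑ w ∈ W, a w = 0 := by
  classical
  let : MulAction Γ T := MulAction.compHom T φ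
  have e : ∀ (g : Γ) (w : T), g • w = φ g • w := fun _ _ => rfl
  rw [← Finset.sum_fiberwise_of_maps_to (s := W) (t := W.image fun w =>
    (Quotient.mk (MulAction.orbitRel Γ T) w : MulAction.orbitRel.Quotient Γ T))
    (g := fun w => Quotient.mk (MulAction.orbitRel Γ T) w) fun w hw => mem_image_of_mem _ hw]
  refine sum_eq_zero fun q _ => ?_
  by_cases h0 : ∀ w ∈ W.filter fun w => Quotient.mk (MulAction.orbitRel Γ T) w = q, a w = 0
  · exact sum_eq_zero h0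
  push Not at h0
  obtain ⟨w, hw, ha⟩ := h0
  obtain ⟨hwW, hq⟩ := mem_filter.1 hw
  obtain ⟨w₀, t, rfl, h1, h2⟩ := (h w hwW).resolve_left ha
  have h3 : w₀ ∈ W := by
    have := hW t⁻¹ _ hwW
    rwa [map_inv, inv_smul_smul] at this
  have h4 : Quotient.mk (MulAction.orbitRel Γ T) w₀ = q :=
    (Quotient.sound (MulAction.mem_orbit w₀ t)).symm.trans hq
  rw [← Finset.sum_fiberwise_of_maps_to (s := univ)
    (t := W.filter fun w => Quotient.mk (MulAction.orbitRel Γ T) w = q)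
    (g := fun g : Γ => (φ g)⁻¹ • w₀) fun g _ => mem_filter.2
      ⟨by rw [← map_inv]; exact hW _ _ h3, by
        rw [← map_inv, ← h4]; exact Quotient.sound (MulAction.mem_orbit w₀ g⁻¹)⟩] at h1
  refine (mul_eq_zero.1 ?_).resolve_left h2
  rw [mul_sum, ← h1]
  refine sum_congr rfl fun v hv => ?_
  obtain ⟨s, hs⟩ : v ∈ MulAction.orbit Γ w₀ :=
    Quotient.exact ((mem_filter.1 hv).2.trans h4.symm)
  have hs' : φ s • w₀ = v := hs
  rw [sum_congr rfl fun g hg => congrArg a (mem_filter.1 hg).2, sum_const, nsmul_eq_mul,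
    Nat.card_eq_fintype_card, Fintype.card_subtype]
  congr 2
  refine card_bij (fun g _ => g * s⁻¹) (fun g hg => mem_filter.2 ⟨mem_univ _, ?_⟩)
    (fun g _ g' _ e => mul_right_cancel e) fun g hg => ⟨g * s, mem_filter.2 ⟨mem_univ _, ?_⟩, ?_⟩
  · rw [map_mul, map_inv, _root_.mul_inv_rev, inv_inv, mul_smul,
      inv_smul_eq_iff.2 (mem_filter.1 hg).2.symm, hs']
  · rw [map_mul, mul_smul, hs', ← (mem_filter.1 hg).2, smul_inv_smul]
  · rw [mul_inv_cancel_right]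

section
variable {p : ℕ} [Fact p.Prime] {E : Type} [Field E] [NumberField E] {ζ : E}

lemma val_QvRec (σ : E ≃ₐ[ℚ] E) (w : Pr E) (x : E) :
    w.valuation E (σ x) = (σ⁻¹ • w).valuation E x := by
  have := Full.val_act (σ : E ≃+* E) (σ⁻¹ • w) x
  have e : Full.act (σ : E ≃+* E) (σ⁻¹ • w) = w := smul_inv_smul σ w
  rw [e] at this
  exact this

omit [Fact p.Prime] in
lemma tm_QvRec (σ : E ≃ₐ[ℚ] E) (w : Pr E) : Tm p (σ • w) ↔ Tm p w :=
  Full.tm_act (σ : E ≃+* E) p w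

lemma cl_QvRec (hζ : IsPrimitiveRoot ζ p) (σ : E ≃ₐ[ℚ] E) (w : Pr E) {x : E}
    (h : (σ⁻¹ • w).valuation E (x - 1) < (σ⁻¹ • w).valuation E (1 - ζ) ^ p) :
    w.valuation E (σ x - 1) < w.valuation E (1 - ζ) ^ p := by
  have hp : p.Prime := Fact.out
  have : NeZero p := ⟨hp.ne_zero⟩
  have h1 : IsPrimitiveRoot (σ ζ) p := hζ.map_of_injective σ.injective
  obtain ⟨i, hi, e⟩ := hζ.eq_pow_of_pow_eq_one h1.pow_eq_one
  have h2 : 0 < i := Nat.pos_of_ne_zero fun h0 => h1.ne_one hp.one_lt (by rw [← e, h0, pow_zero])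
  rw [← val_QvRec, ← val_QvRec, map_sub σ, map_sub σ, map_one σ, ← e,
    Full.Sym1Aux.val_one_sub_pow _ hp hζ h2 hi] at h
  exact h

omit [Fact p.Prime] in
lemma un_QvRec {ξ : M2 E} :
    Un p ξ ↔ ∀ i j, ξ i j ≠ 0 ∧ ∀ w : Pr E, ¬ Tm p w → w.valuation E (ξ i j) = 1 :=
  forall₂_congr fun _ _ => and_congr_right fun h => forall₂_congr fun w _ =>
    (Full.Sym1Aux.val_eq_one_iff w h).symm

lemma prod_QvRec (hl : 2 < p) (hζ : IsPrimitiveRoot ζ p) {ι : Type} (S : Finset ι)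
    (y : ι → M2 E) (hy : ∀ a i j, y a i j ≠ 0) {β : M2 E} (hβ : ∀ i j, β i j ≠ 0) :
    PhiM p ζ (Matrix.of fun i j => ∏ a ∈ S, y a i j) β = ∑ a ∈ S, PhiM p ζ (y a) β := by
  simp only [PhiM, of_apply]
  rw [sum_comm (s := S)]
  refine sum_congr rfl fun i _ => ?_
  rw [sum_comm (s := S)]
  exact sum_congr rfl fun j _ => Phi_prod_left_OvMixV hl hζ S _ (fun a => hy a i j) (hβ i j)

end

section
variable {p : ℕ} [Fact p.Prime] {K F : IntermediateField ℚ Qb} [NumberField F] (D : Dq p K)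
  (h : Stab K F)

lemma un_act_QvRec (g : K.fixingSubgroup) {y : M2 F} (hy : Un p y) : Un p (act D h g y) := by
  rw [un_QvRec] at hy ⊢
  refine fun i j => ⟨?_, fun w hw => ?_⟩
  · simp only [act, of_apply]
    exact prod_ne_zero_iff.2 fun k _ => prod_ne_zero_iff.2 fun l _ =>
      pow_ne_zero _ ((map_ne_zero _).2 (hy k l).1)
  simp only [act, of_apply, map_prod, map_pow]
  refine prod_eq_one fun k _ => prod_eq_one fun l _ => ?_
  rw [val_QvRec, (hy k l).2 _ fun h1 => hw ((tm_QvRec _ w).1 h1), one_pow]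

omit [Fact p.Prime] in
lemma un_prod_QvRec {ι : Type} (S : Finset ι) {y : ι → M2 F} (hy : ∀ a, Un p (y a)) :
    Un p (Matrix.of fun i j => ∏ a ∈ S, y a i j) := by
  simp only [un_QvRec] at hy ⊢
  refine fun i j => ⟨prod_ne_zero_iff.2 fun a _ => (hy a i j).1, fun w hw => ?_⟩
  rw [of_apply, map_prod]
  exact prod_eq_one fun a _ => (hy a i j).2 w hw

end

theorem rec_stmt (p : ℕ) [Fact p.Prime] (hK : KKStmt p) (hX : MixStmt p) (hP : LocPStmt p)
    (hH : HensStmt p) (hA : RecAStmt p) (hB : RecBStmt p) (hG : GalStmt p) (hTh : ThStmt p) :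
    RecStmt p := by
  classical
  intro K F _ _ D hD f hf hW β hβ0 hβ ξ hξ hL
  have hp : 2 < p := by have := hD.big; omega
  set ζ : F := ⟨xi p, hD.xi⟩ with hζdef
  have hζ : IsPrimitiveRoot ζ p := prim_EvRec F hD.xi
  obtain ⟨g1, g2, g3, -⟩ := hG K F hD.le hD.stab
  have hne : ∀ y : F, y ≠ 0 → (y : Qb) ≠ 0 := fun y hy h => hy (Subtype.ext h)
  have hfix : ∀ g ∈ F.fixingSubgroup, ∀ y : F, g (y : Qb) = y := fun g hg y =>
    (IntermediateField.mem_fixingSubgroup_iff _ _).mp hg _ y.2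
  have hz : 1 - ζ ≠ 0 := sub_ne_zero.2 (hζ.ne_one (Fact.out : p.Prime).one_lt).symm
  have hc : ∀ w : Pr F, ¬ Tm p w → w.valuation F (1 - ζ) ^ p ≤ 1 := fun w hw =>
    pow_le_one₀ zero_le (Full.val_one_sub_lt hζ hw).le
  have hc0 : ∀ w : Pr F, w.valuation F (1 - ζ) ^ p ≠ 0 := fun w =>
    pow_ne_zero _ ((Valuation.ne_zero_iff _).2 hz)
  have hV := un_QvRec.1 hξ
  obtain ⟨T, hT⟩ : ∃ T : Finset (Pr F), ∀ w, w ∈ T ↔ ¬ Tm p w :=
    ⟨(Full.finite_wild (l := p) (E := F)).toFinset, fun w => Set.Finite.mem_toFinset _⟩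
  have hx : ∀ (v : Pr F) (i j : Fin 2), ∃ x : F, x ≠ 0 ∧ ∀ w : Pr F, ¬ Tm p w →
      w.valuation F x = 1 ∧
      w.valuation F (x / (if w = v then ξ i j else 1) - 1) < w.valuation F (1 - ζ) ^ p := by
    intro v i j
    obtain ⟨x, hx0, hx⟩ := Full.R0Aux.wa' T (fun w => if w = v then ξ i j else 1)
      fun w => WithZero.log (w.valuation F (1 - ζ) ^ p) - 1
    refine ⟨x, hx0, fun w hw => ?_⟩
    have h3 : w.valuation F (if w = v then ξ i j else 1) = 1 := by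
      split_ifs
      · exact (hV i j).2 w hw
      · exact map_one _
    have h4 : (if w = v then ξ i j else 1) ≠ 0 := by
      split_ifs
      · exact (hV i j).1
      · exact one_ne_zero
    have h5 : w.valuation F (x / (if w = v then ξ i j else 1) - 1) <
        w.valuation F (1 - ζ) ^ p := by
      rw [div_sub_one h4, map_div₀, h3, div_one]
      refine (hx w ((hT w).2 hw)).trans_lt ?_
      conv_rhs => rw [← WithZero.exp_log (hc0 w)]
      exact WithZero.exp_lt_exp.2 (by omega)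
    refine ⟨?_, h5⟩
    have h6 := val_one_OvMixV _ (hc w hw) h5
    rwa [map_div₀, h3, div_one] at h6
  choose x hx0 hx using hx
  let y : Pr F → M2 F := fun v => Matrix.of (x v)
  have hy : ∀ v, Un p (y v) := fun v => un_QvRec.2 fun i j => ⟨hx0 v i j, fun w hw =>
    (hx v i j w hw).1⟩
  have h3 : PhiM p ζ ξ β = ∑ v ∈ T, PhiM p ζ (y v) β := by
    rw [← prod_QvRec hp hζ T y hx0 hβ0]
    refine sum_congr rfl fun i _ => sum_congr rfl fun j _ => ?_
    have h4 : ∏ v ∈ T, x v i j ≠ 0 := prod_ne_zero_iff.2 fun v _ => hx0 v i j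
    have h5 := hX F ζ hp hζ ((∏ v ∈ T, x v i j) / ξ i j) (β i j) (div_ne_zero h4 (hV i j).1)
      (hβ0 i j) fun w hw => Or.inl (hH F ζ hp hζ w hw _ (by
        have h6 := cl_prod_OvMixV (w.valuation F) (hc w hw) (hc0 w) T _ fun v _ =>
          (hx v i j w hw).2
        rwa [prod_div_distrib, prod_ite_eq, if_pos ((hT w).2 hw)] at h6))
    rw [Full.R0Aux.Phi_div_left hp hζ h4 (hV i j).1 (hβ0 i j), sub_eq_zero] at h5
    exact h5.symm
  have : (F.fixingSubgroup.subgroupOf K.fixingSubgroup).Normal :=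
    ⟨fun n hn g => hD.nrm g n hn⟩
  have := hD.fin
  let : Fintype (Qt K F) := Fintype.ofFinite _
  let φ : Qt K F →* (F ≃ₐ[ℚ] F) := QuotientGroup.lift _ (rF hD.stab) fun g hg => (g2 g).2 hg
  have hφ : ∀ g : K.fixingSubgroup, φ (QuotientGroup.mk g) = rF hD.stab g := fun _ => rfl
  have hφ' : ∀ q : Qt K F, φ q = rF hD.stab q.out := fun q => by
    rw [← hφ, QuotientGroup.out_eq']
  rw [h3]
  refine orb_QvRec φ T (fun g w hw => (hT _).2 fun h1 => (hT w).1 hw ((tm_QvRec _ w).1 h1)) _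
    fun w hwT => ?_
  have hw := (hT w).1 hwT
  obtain ⟨P, hPm, hwP⟩ := over_EvRec F w
  have hpP : (p : OQ) ∈ P := by
    rw [← nat_under_EvRec F, ← hwP]
    exact not_not.mp hw
  by_cases hAw : Away (K := K) D.o P
  · refine Or.inl (sum_eq_zero fun i _ => sum_eq_zero fun j _ =>
      hX F ζ hp hζ _ _ (hx0 w i j) (hβ0 i j) fun v hv => ?_)
    by_cases hvw : v = w
    · subst hvw
      refine Or.inr ⟨((hy v) i j).2 v hv, ?_⟩
      refine (hP F hD.xi P v hp hPm hpP hwP _ _ (hβ0 i j) (proot_pow p _)).2 fun g hgP hg => ?_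
      rw [← hK.2.2.2.2.2.1 _ g (hne _ (hβ0 i j)) (hfix g hg _), hβ g hg,
        hW.oth P g ⟨hPm, hgP, hg⟩ hpP hAw, Matrix.zero_apply]
    · have h4 := (hx w i j v hv).2
      rw [if_neg hvw, div_one] at h4
      exact Or.inl (hH F ζ hp hζ v hv _ h4)
  obtain ⟨i, hi⟩ : ∃ i, P.under (𝓞 K) = (D.o i).P.under (𝓞 K) := by
    simpa [Away] using hAw
  obtain ⟨t, ht, rfl⟩ := trans_rel_EvRec K (hD.max i).1 hPm hi.symm
  obtain ⟨w₀, hw₀⟩ := pr_EvRec F (hD.max i).1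
  have hw0 : ¬ Tm p w₀ := not_not.2 (by rw [hw₀, nat_under_EvRec]; exact (hD.max i).2)
  refine Or.inr ⟨w₀, QuotientGroup.mk ⟨t, ht⟩, ?_, ?_, ?_⟩
  · exact IsDedekindDomain.HeightOneSpectrum.ext (hwP.trans (g1 ⟨t, ht⟩ _ w₀ hw₀).symm)
  · have hu : ∀ q : Qt K F, Un p (act D hD.stab q.out (y ((φ q)⁻¹ • w₀))) := fun q =>
      un_act_QvRec D _ _ (hy _)
    have hu' : ∀ q : Qt K F, Un p (act D hD.stab q.out ξ) := fun q => un_act_QvRec D _ _ hξ
    rw [sum_congr rfl fun q _ => ((hA K F D hD q.out (y ((φ q)⁻¹ • w₀)) (hx0 _)).2 f hf β hβ0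
      hβ).symm, ← prod_QvRec hp hζ univ _ (fun q s u => (hu q s u).1) hβ0]
    refine hB K F D hD f hf hW β hβ0 hβ i w₀ hw₀ _ _ (un_prod_QvRec univ hu)
      (un_prod_QvRec univ hu') (fun v hv hvw s u => ?_) (fun s u => ?_) fun g hg hgP => ?_
    · simp only [of_apply, act]
      refine cl_prod_OvMixV _ (hc v hv) (hc0 v) _ _ fun q _ => cl_prod_OvMixV _ (hc v hv) (hc0 v)
        _ _ fun k _ => cl_prod_OvMixV _ (hc v hv) (hc0 v) _ _ fun l _ =>
        cl_pow_OvMixV _ (hc v hv) (hc0 v) (cl_QvRec hζ _ v ?_) _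
      have h4 := (hx ((φ q)⁻¹ • w₀) k l ((φ q)⁻¹ • v) fun h1 => hv ((tm_QvRec _ v).1 h1)).2
      rw [if_neg fun e => hvw (MulAction.injective _ e), div_one] at h4
      rw [← hφ']
      exact h4
    · simp only [of_apply, act, ← prod_div_distrib, ← div_pow, ← map_div₀]
      refine cl_prod_OvMixV _ (hc _ hw0) (hc0 _) _ _ fun q _ => cl_prod_OvMixV _ (hc _ hw0) (hc0 _)
        _ _ fun k _ => cl_prod_OvMixV _ (hc _ hw0) (hc0 _) _ _ fun l _ =>
        cl_pow_OvMixV _ (hc _ hw0) (hc0 _) (cl_QvRec hζ _ _ ?_) _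
      have h4 := (hx ((φ q)⁻¹ • w₀) k l ((φ q)⁻¹ • w₀) fun h1 => hw0 ((tm_QvRec _ _).1 h1)).2
      rw [if_pos rfl] at h4
      rw [← hφ']
      exact h4
    · rw [← hL i g hg hgP]
      congr 2
      rw [Th, finsum_eq_sum_of_fintype, ← sum_congr rfl fun q _ =>
        (hA K F D hD q.out ξ fun s u => (hV s u).1).1 g hg]
      ext s u
      have h4 := kk_prod_OvRec hK F hD.xi univ (fun q : Qt K F => act D hD.stab q.out ξ s u)
        (fun q => (hu' q s u).1) (fun _ => 1) hg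
      simp only [pow_one, Nat.cast_one, one_mul] at h4
      rw [Matrix.sum_apply]
      exact h4
  · rw [Ne, ZMod.natCast_eq_zero_iff]
    simp only [hφ']
    exact g3 _ w₀ (hD.max i).1 hw₀ fun g hg => (hD.bor i g hg).1

end Pool.Agent.MP_f68ac8_nt.Qv
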