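import Mathlib
import Pool.Agent.MP_f68ac8_nt.QvAux
import Pool.Agent.MP_f68ac8_nt.OvRec
import Pool.Agent.MP_f68ac8_nt.OvMixV
import Pool.Agent.MP_f68ac8_nt.EvRec

namespace Pool.Agent.MP_f68ac8_nt.Qv

open Ev Pv
open NumberField Finset Pool.Agent.MP_14ad9d_nt
open Pool.Agent.MP_14ad9d_nt.Full (Pr Tm tame Phi)

lemma Phi_act_QvRecA {p : ℕ} [Fact p.Prime] {E : Type} [Field E] [NumberField E] {ζ : E}
    (hζ : IsPrimitiveRoot ζ p) (σ : E ≃+* E) {a : ZMod p} (ha : σ ζ = ζ ^ a.val) {x y : E}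
    (hx : x ≠ 0) (hy : y ≠ 0) : Phi p ζ (σ x) (σ y) = a * Phi p ζ x y := by
  have hσ : IsPrimitiveRoot (σ ζ) p := hζ.map_of_injective σ.injective
  have h1 : ∀ v : Pr E, Tm p v ↔ Tm p (Full.act σ v) := fun v => by
    rw [Tm, Tm, Full.mem_act, map_natCast]
  have h2 : Phi p (σ ζ) (σ x) (σ y) = Phi p ζ x y := by
    rw [Phi, Phi, ← finsum_comp_equiv ((IsDedekindDomain.HeightOneSpectrum.equivOfRingEquiv
      (RingOfIntegers.mapRingEquiv σ)).subtypeEquiv h1)]
    exact finsum_congr fun v => Full.tame_act σ v.1 x y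
  rw [← h2, Phi, Phi, mul_finsum]
  refine finsum_congr fun v => ?_
  have u1 := Full.Sym2Aux.unit_ne v.1 (σ.map_ne_zero_iff.2 hx) (σ.map_ne_zero_iff.2 hy)
  have u2 := Full.Sym2Aux.unit_ord v.1 (σ.map_ne_zero_iff.2 hx) (σ.map_ne_zero_iff.2 hy)
  have h := (Full.chi_spec hσ v.2 u1 u2 _).1 rfl
  rw [tame, tame, Full.chi_spec hζ v.2 u1 u2, ZMod.val_mul,
    ← pow_eq_pow_mod _ hζ.pow_eq_one, pow_mul, ← ha]
  exact h

lemma kum_QvRecA {p : ℕ} [Fact p.Prime] (hK : KKStmt p) (h2 : 2 < p) (F : IntermediateField ℚ Qb)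
    [NumberField F] (hM : xi p ∈ F) {ι : Type} [Fintype ι] (u : ι → F) (hu : ∀ a, u a ≠ 0)
    (c : ι → ZMod p) (h : ∀ g ∈ F.fixingSubgroup, ∑ a, c a * KK p (u a : Qb) g = 0) {x : F}
    (hx : x ≠ 0) : ∑ a, c a * Phi p (⟨xi p, hM⟩ : F) (u a) x = 0 := by
  classical
  have hζ := prim_EvRec F hM
  have h0 : ∏ a, u a ^ (c a).val ≠ 0 := prod_ne_zero_iff.2 fun a _ => pow_ne_zero _ (hu a)
  have h1 : proot p ((∏ a, u a ^ (c a).val : F) : Qb) ∈ F := by
    refine (InfiniteGalois.fixedField_fixingSubgroup F).le ?_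
    rintro ⟨g, hg⟩
    refine (hK.2.2.2.2.2.1 _ g (fun e => h0 (Subtype.ext e))
      ((IntermediateField.mem_fixingSubgroup_iff _ _).1 hg _ (Subtype.property _))).1 ?_
    rw [kk_prod_OvRec hK F hM _ _ hu _ hg]
    simpa only [ZMod.natCast_zmod_val] using h g hg
  have h3 : ∏ a, u a ^ (c a).val = (⟨_, h1⟩ : F) ^ p := Subtype.ext (proot_pow p _).symm
  have h4 := Phi_prod_left_OvMixV h2 hζ univ _ (fun a => pow_ne_zero (c a).val (hu a)) hx
  rw [h3, Full.R0Aux.Phi_ell_left h2 hζ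
    (fun e => h0 (by rw [h3, e, zero_pow (Fact.out : p.Prime).ne_zero])) hx] at h4
  simpa only [Full.R0Aux.Phi_pow_left h2 hζ (hu _) hx, ZMod.natCast_zmod_val] using h4.symm

theorem recA_stmt (p : ℕ) [Fact p.Prime] (hK : KKStmt p) : RecAStmt p := by
  classical
  intro K F _ _ D hB g y hy
  have h2 : 2 < p := by linarith [hB.big]
  have hζ := prim_EvRec F hB.xi
  have hne : ∀ z : F, z ≠ 0 → rF hB.stab g z ≠ 0 := fun z hz => (map_ne_zero _).2 hz
  have hact : ∀ i j, act D hB.stab g y i j = ∏ a : Fin 2 × Fin 2, rF hB.stab g (y a.1 a.2) ^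
      ((rep D.r g).val i a.1 * (rep D.r g)⁻¹.val a.2 j).val := fun i j =>
    (Fintype.prod_prod_type' fun k l => rF hB.stab g (y k l) ^
      ((rep D.r g).val i k * (rep D.r g)⁻¹.val l j).val).symm
  refine ⟨fun h hh => ?_, fun f hf β hβ hk => ?_⟩
  · ext i j
    rw [Matrix.of_apply, hact, kk_prod_OvRec hK F hB.xi _ _
      (fun a : Fin 2 × Fin 2 => hne _ (hy a.1 a.2)) _ hh]
    simp only [ZMod.natCast_zmod_val, Dq.ad, cj, Matrix.mul_apply, Matrix.of_apply, rF_apply,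
      Fintype.sum_prod_type, Fin.sum_univ_two]
    ring
  · have h3 : ∀ k l, ∑ a : Fin 2 × Fin 2, (rep D.r g).val a.1 k * (rep D.r g)⁻¹.val l a.2 *
        Phi p (⟨xi p, hB.xi⟩ : F) (rF hB.stab g (y k l)) (β a.1 a.2) =
        Phi p (⟨xi p, hB.xi⟩ : F) (y k l) (β k l) := fun k l => by
      have h4 := kum_QvRecA hK h2 F hB.xi (ι := Option (Fin 2 × Fin 2))
        (fun o => o.elim (rF hB.stab g (β k l)) fun a => β a.1 a.2)
        (by rintro (_ | a); exacts [hne _ (hβ k l), hβ a.1 a.2])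
        (fun o => o.elim (-(cyc p g.1⁻¹ : ZMod p))
          fun a => (rep D.r g).val a.1 k * (rep D.r g)⁻¹.val l a.2) (fun h hh => ?_)
        (hne _ (hy k l))
      · have h5 := Phi_act_QvRecA hζ (rF hB.stab g).toRingEquiv (a := cyc p g.1)
          (Subtype.ext (cyc_spec p g.1 xi_spec.pow_eq_one)) (hβ k l) (hy k l)
        simp only [Fintype.sum_option, Option.elim] at h4
        rw [show Phi p _ (rF hB.stab g (β k l)) (rF hB.stab g (y k l)) = _ from h5, ← mul_assoc,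
          neg_mul, ← Units.val_mul, ← map_mul, inv_mul_cancel, map_one, Units.val_one] at h4
        rw [Full.Phi_swap h2 hζ (hβ k l) (hy k l)]
        simp only [Full.Phi_swap h2 hζ (hβ _ _) (hne _ (hy k l)), mul_neg, sum_neg_distrib]
        linear_combination -h4
      · have h6 := hB.nrm g⁻¹ h hh
        have h7 := hf.conj g _ h6
        have h8 := hK.2.2.2.2.1 (β k l : Qb) g.1⁻¹ h (fun e => hβ k l (Subtype.ext e))
          ((IntermediateField.mem_fixingSubgroup_iff _ _).1 hh _ (hB.stab g _ (β k l).2))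
          (cyc_fix_EvRec F hB.xi hh)
        rw [show g.1 * ((g⁻¹).1 * h * (g⁻¹).1⁻¹) * g.1⁻¹ = h by simp [mul_assoc]] at h7
        have h9 : (rep D.r g)⁻¹.val * f h * (rep D.r g).val = f ((g⁻¹).1 * h * (g⁻¹).1⁻¹) := by
          rw [h7, Dq.ad, cj, ← mul_assoc, ← mul_assoc, Units.inv_mul, one_mul, mul_assoc,
            Units.inv_mul, mul_one]
        have h10 := (congrFun (congrFun h9 l) k).trans ((hk _ h6 k l).symm.trans h8)
        simp only [Fintype.sum_option, Option.elim, hk h hh, Fintype.sum_prod_type,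
          Fin.sum_univ_two, Matrix.mul_apply, rF_apply, inv_inv] at h10 ⊢
        linear_combination h10
    simp only [PhiM, hact, ← h3, Phi_prod_left_OvMixV h2 hζ _ _
      (fun a : Fin 2 × Fin 2 => pow_ne_zero _ (hne _ (hy a.1 a.2))) (hβ _ _),
      Full.R0Aux.Phi_pow_left h2 hζ (hne _ (hy _ _)) (hβ _ _), ZMod.natCast_zmod_val,
      Fintype.sum_prod_type, Fin.sum_univ_two]
    ring

end Pool.Agent.MP_f68ac8_nt.Qv
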