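import Mathlib
import Pool.Agent.MP_f68ac8_nt.QvAux
import Pool.Agent.MP_f68ac8_nt.OvRec
import Pool.Agent.MP_f68ac8_nt.OvMixV
import Pool.Agent.MP_f68ac8_nt.EvRec

/-! Reciprocity for a matrix supported at one ordinary prime. -/

namespace Pool.Agent.MP_f68ac8_nt.Qv

open Ev Pv

open NumberField Matrix Finset
open Pool.Agent.MP_14ad9d_nt.Full (Pr ord Tm tame Phi NearAt)
open scoped Pointwise Topology

/-- a matrix of trace zero with vanishing first column in a basis -/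
lemma zero_QvRecB {R : Type} [CommRing R] (A : GL (Fin 2) R) {X : M2 R} (hX : X.trace = 0)
    (h1 : (A⁻¹.val * X * A.val) 1 0 = 0) (h0 : (A⁻¹.val * X * A.val) 0 0 = 0) {s t : Fin 2}
    (h : ¬ (s = 1 ∧ t = 0)) : (A⁻¹.val * X * A.val) t s = 0 := by
  have h2 : (A⁻¹.val * X * A.val).trace = 0 := by
    rw [Matrix.trace_mul_cycle, Units.mul_inv, one_mul, hX]
  rw [Matrix.trace_fin_two, h0, zero_add] at h2
  fin_cases s <;> fin_cases t
  · exact h0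
  · exact h1
  · exact (h ⟨rfl, rfl⟩).elim
  · exact h2

theorem recB_stmt (p : ℕ) [Fact p.Prime] (hK : KKStmt p) (hM : MixVStmt p) (hP : LocPStmt p)
    (hH : HensStmt p) : RecBStmt p := by
  classical
  intro K F _ _ D hB f hf hw β hβ0 hβ i w₀ hw₀ y z hy hz h1 h2 h3
  have hp : p.Prime := Fact.out
  have : NeZero p := ⟨hp.ne_zero⟩
  have hp2 : 2 < p := by have := hB.big; omega
  have hζ := prim_EvRec F hB.xi
  have hy0 : ∀ a : Fin 2 × Fin 2, y a.1 a.2 ≠ 0 := fun a => (hy a.1 a.2).1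
  have hz0 : ∀ a : Fin 2 × Fin 2, z a.1 a.2 ≠ 0 := fun a => (hz a.1 a.2).1
  have hne : ∀ y : F, y ≠ 0 → (y : Qb) ≠ 0 := fun y hy h => hy (Subtype.ext h)
  have hfix : ∀ g ∈ F.fixingSubgroup, ∀ y : F, g (y : Qb) = y := fun g hg y =>
    (IntermediateField.mem_fixingSubgroup_iff _ _).mp hg _ y.2
  have key := hM F (⟨xi p, hB.xi⟩ : F) hp2 hζ (Fin 2 × Fin 2) (fun a => y a.1 a.2)
    (fun a => β a.1 a.2) hy0 (fun a => hβ0 a.1 a.2) (fun a => (hy a.1 a.2).2) fun v hv => ?_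
  · rwa [Fintype.sum_prod_type] at key
  by_cases hvw : v = w₀
  swap
  · refine ⟨fun s a => if s = a then 1 else 0, fun s a => if s = a then 1 else 0,
      fun a a' => by simp [eq_comm], fun s => Or.inl ?_⟩
    have e : ∏ a : Fin 2 × Fin 2, y a.1 a.2 ^ (if s = a then 1 else 0) = y s.1 s.2 := by simp
    rw [e]
    exact hH F _ hp2 hζ v hv _ (h1 v hv hvw s.1 s.2)
  subst hvw
  obtain ⟨hPm, hpP⟩ := hB.max i
  set A := (D.o i).A.val with hA
  set B := (D.o i).A⁻¹.val with hBd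
  refine ⟨fun s a => (B s.1 a.1 * A a.2 s.2).val, fun s a => (B s.2 a.2 * A a.1 s.1).val,
    fun a a' => ?_, fun s => ?_⟩
  · simp only [ZMod.natCast_zmod_val]
    exact dual_OvRec A B (Units.mul_inv _) a a'
  by_cases hs : s.1 = 1 ∧ s.2 = 0
  · refine Or.inl fun k => ?_
    have h0 : (∏ a : Fin 2 × Fin 2, z a.1 a.2 ^ (B s.1 a.1 * A a.2 s.2).val) ≠ 0 :=
      Finset.prod_ne_zero_iff.2 fun a _ => pow_ne_zero _ (hz0 a)
    have h4 := (hP F hB.xi _ v hp2 hPm hpP hw₀ _ _ h0 (proot_pow p _)).1 (fun g hg hgP => by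
      rw [← hK.2.2.2.2.2.1 _ g (hne _ h0) (hfix g hg _), kk_prod_OvRec hK F hB.xi _ _ hz0 _ hg]
      simp only [ZMod.natCast_zmod_val]
      rw [hs.1, hs.2]
      exact (conj_OvRec A B (Matrix.of fun s t => KK p (z s t : Qb) g) 1 0).trans (h3 g hg hgP)) k
    have hle : v.valuation F (1 - (⟨xi p, hB.xi⟩ : F)) ≤ 1 :=
      (Pool.Agent.MP_14ad9d_nt.Full.val_one_sub_lt hζ hv).le
    have hc0 : v.valuation F (1 - (⟨xi p, hB.xi⟩ : F)) ^ p ≠ 0 :=
      pow_ne_zero _ ((Valuation.ne_zero_iff _).2 (sub_ne_zero.2 (hζ.ne_one hp.one_lt).symm))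
    have hc := pow_le_one₀ (n := p) zero_le hle
    have h5 := cl_prod_OvMixV (v.valuation F) hc hc0 univ _ fun (a : Fin 2 × Fin 2) _ =>
      cl_pow_OvMixV (v.valuation F) hc hc0 (h2 a.1 a.2) (B s.1 a.1 * A a.2 s.2).val
    have h6 : ∏ a : Fin 2 × Fin 2, y a.1 a.2 ^ (B s.1 a.1 * A a.2 s.2).val =
        (∏ a : Fin 2 × Fin 2, z a.1 a.2 ^ (B s.1 a.1 * A a.2 s.2).val) *
          ∏ a : Fin 2 × Fin 2, (y a.1 a.2 / z a.1 a.2) ^ (B s.1 a.1 * A a.2 s.2).val := by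
      rw [← prod_mul_distrib]
      exact prod_congr rfl fun a _ => by rw [← mul_pow, mul_div_cancel₀ _ (hz0 a)]
    rw [h6]
    exact nearAt_mul_OvMixV hle h4 (hH F _ hp2 hζ v hv _ h5 k)
  · right
    have h0 : (∏ a : Fin 2 × Fin 2, β a.1 a.2 ^ (B s.2 a.2 * A a.1 s.1).val) ≠ 0 :=
      Finset.prod_ne_zero_iff.2 fun a _ => pow_ne_zero _ (hβ0 a.1 a.2)
    refine (hP F hB.xi _ v hp2 hPm hpP hw₀ _ _ h0 (proot_pow p _)).2 fun g hgP hg => ?_
    rw [← hK.2.2.2.2.2.1 _ g (hne _ h0) (hfix g hg _),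
      kk_prod_OvRec hK F hB.xi _ _ (fun a : Fin 2 × Fin 2 => hβ0 a.1 a.2) _ hg]
    simp only [ZMod.natCast_zmod_val, hβ g hg]
    rw [conj2_OvRec]
    obtain ⟨h4, h5⟩ := hw.ord i g ⟨hPm, hgP, hg⟩
    have h6 : (2 : ZMod p) ≠ 0 := fun h =>
      absurd (Nat.le_of_dvd two_pos ((ZMod.natCast_eq_zero_iff 2 p).1 (by simpa using h))) (by omega)
    rw [zero_mul, zero_mul, mul_eq_zero, or_iff_right h6] at h5
    exact zero_QvRecB (D.o i).A (hf.tr g hg) h4 h5 hs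

end Pool.Agent.MP_f68ac8_nt.Qv
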