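import Mathlib
import Pool.Agent.MP_f68ac8_nt.QvAux
import Pool.Agent.MP_f68ac8_nt.PvTyp
import Pool.Agent.MP_f68ac8_nt.PvRam
import Pool.Agent.MP_f68ac8_nt.OvNz
import Pool.Agent.MP_f68ac8_nt.PvNz

/-! The two kinds of types, and nonvanishing of the characters. -/

namespace Pool.Agent.MP_f68ac8_nt.Qv

open Ev Pv
open NumberField Matrix
open scoped Pointwise Topology

section alg
variable {k : Type} [Field k]

lemma cent_QvTyp (h2 : (2 : k) ≠ 0) {H W : Mt 2 k} (t1 : H.trace = 0) (t2 : W.trace = 0)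
    (hh : (H * H).trace = 2) (hc : H * W = W * H) : ∃ c : k, W = c • H := by
  have a0 := congrFun (congrFun hc 0) 0
  have a1 := congrFun (congrFun hc 0) 1
  have a2 := congrFun (congrFun hc 1) 0
  rw [trace_fin_two] at t1 t2 hh
  simp only [Matrix.mul_apply, Fin.sum_univ_two] at a0 a1 a2 hh
  have e1 : H 1 1 = -H 0 0 := by linear_combination t1
  have e2 : W 1 1 = -W 0 0 := by linear_combination t2
  rw [e1] at hh a1 a2
  rw [e2] at a1 a2
  have b0 : H 0 0 * H 0 0 + H 0 1 * H 1 0 = 1 := mul_left_cancel₀ h2 (by linear_combination hh)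
  have b1 : H 0 0 * W 0 1 = H 0 1 * W 0 0 := mul_left_cancel₀ h2 (by linear_combination a1)
  have b2 : H 1 0 * W 0 0 = H 0 0 * W 1 0 := mul_left_cancel₀ h2 (by linear_combination a2)
  have b3 : W 0 0 = (H 0 0 * W 0 0 + H 0 1 * W 1 0) * H 0 0 := by
    linear_combination H 0 1 * b2 - W 0 0 * b0
  refine ⟨H 0 0 * W 0 0 + H 0 1 * W 1 0, ?_⟩
  ext i j
  fin_cases i <;> fin_cases j
  · exact b3
  · change W 0 1 = _ * H 0 1
    linear_combination H 0 0 * b1 - H 0 1 * a0 - W 0 1 * b0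
  · change W 1 0 = _ * H 1 0
    linear_combination -H 0 0 * b2 - W 1 0 * b0
  · change W 1 1 = _ * H 1 1
    rw [e1, e2]
    linear_combination -b3

lemma alg_QvTyp (h2 : (2 : k) ≠ 0) (A : GL (Fin 2) k) {c : k} (hc : c ^ 2 ≠ 1) {Z : Mt 2 k}
    (hZ : Z ≠ 0) (h : A.val * Z * A⁻¹.val = c • Z) : ∃ H : Mt 2 k, H.trace = 0 ∧
      brk H Z = (2 : k) • Z ∧ (H * H).trace = 2 ∧ A.val * H * A⁻¹.val = H ∧
      ∀ W : Mt 2 k, A.val * W * A⁻¹.val = W → W.trace = 0 → ∃ x : k, W = x • H := by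
  have h1 : c - 1 ≠ 0 := fun e => hc (by rw [sub_eq_zero.1 e, one_pow])
  have h3 : c + 1 ≠ 0 := fun e => hc (by rw [eq_neg_of_add_eq_zero_left e]; ring)
  have e : A.val * Z = c • (Z * A.val) := by
    rw [← Matrix.smul_mul, ← h, Matrix.mul_assoc, Units.inv_mul, Matrix.mul_one]
  have t0 : (A.val * Z).trace = 0 := by
    have := congrArg Matrix.trace e
    rw [trace_smul, trace_mul_comm Z, smul_eq_mul] at this
    exact (mul_eq_zero.1
      (by linear_combination -this : (c - 1) * (A.val * Z).trace = 0)).resolve_left h1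
  have pl := pol_PvTyp A.val Z (eig_PvTyp A hc h).1 t0
  set d := A.val.trace / (c + 1) with hd
  have ht : A.val.trace = c * d + d := by rw [hd]; field_simp
  have e2 : Z * A.val = d • Z := by
    apply smul_right_injective _ h3
    simp only
    rw [add_smul, one_smul, ← e, pl, smul_smul, ht]
    congr 1
    ring
  have e3 : A.val * Z = (c * d) • Z := by rw [e, e2, smul_smul]
  have hdet : A.val.det = c * d * d := by
    have := congrArg (· * Z) (ch_PvTyp A.val)
    simp only [Matrix.mul_assoc, e3, Matrix.mul_smul, smul_smul, Matrix.sub_mul, Matrix.smul_mul,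
      Matrix.one_mul] at this
    rw [← sub_smul, ← sub_eq_zero, ← sub_smul, smul_eq_zero] at this
    rw [ht] at this
    linear_combination this.resolve_right hZ
  have hne : A.val.det ≠ 0 := ((Matrix.isUnit_iff_isUnit_det _).1 A.isUnit).ne_zero
  rw [hdet] at hne
  obtain ⟨u, hu⟩ : ∃ u, u * (c * d - d) = 1 := ⟨_, inv_mul_cancel₀ (by
    rw [show c * d - d = (c - 1) * d by ring]
    exact mul_ne_zero h1 (right_ne_zero_of_mul hne))⟩
  clear_value d
  have s1 : (u • ((2 : k) • A.val - A.val.trace • (1 : Mt 2 k))).trace = 0 := by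
    simp only [trace_smul, trace_sub, trace_one, Fintype.card_fin, smul_eq_mul]
    push_cast
    ring
  have s2 : (u • ((2 : k) • A.val - A.val.trace • (1 : Mt 2 k)) *
      u • ((2 : k) • A.val - A.val.trace • (1 : Mt 2 k))).trace = 2 := by
    rw [det_fin_two] at hdet
    rw [trace_fin_two] at ht
    simp [trace_fin_two, Matrix.mul_apply, Fin.sum_univ_two]
    linear_combination 2 * u ^ 2 * (A.val 0 0 + A.val 1 1 + (c * d + d)) * ht -
      8 * u ^ 2 * hdet + 2 * (u * (c * d - d) + 1) * hu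
  refine ⟨_, s1, ?_, s2, ?_, fun W hW tW => cent_QvTyp h2 s1 tW s2 ?_⟩
  · simp only [brk, Matrix.smul_mul, Matrix.mul_smul, Matrix.sub_mul, Matrix.mul_sub,
      Matrix.one_mul, Matrix.mul_one, e2, e3, smul_smul, ← sub_smul]
    congr 1
    linear_combination 2 * hu
  · simp only [Matrix.smul_mul, Matrix.mul_smul, Matrix.sub_mul, Matrix.mul_sub,
      Matrix.mul_one, Units.mul_inv_cancel_right, Units.mul_inv]
  · have e4 : A.val * W = W * A.val := by
      conv_rhs => rw [← hW, Matrix.mul_assoc, Units.inv_mul, Matrix.mul_one]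
    simp only [Matrix.smul_mul, Matrix.mul_smul, Matrix.sub_mul, Matrix.mul_sub,
      Matrix.mul_one, Matrix.one_mul, e4]

end alg

variable {p : ℕ} [Fact p.Prime] {K F : IntermediateField ℚ Qb} [NumberField K] {D : Dq p K}

omit [NumberField K] in
lemma ad_smul_QvTyp (g : K.fixingSubgroup) (c : ZMod p) (A : M2 (ZMod p)) :
    D.ad g (c • A) = c • D.ad g A := by
  simp only [Dq.ad, cj, Matrix.mul_smul, Matrix.smul_mul]

lemma gen_QvTyp (hB : D.Bs F) (c : K.fixingSubgroup →* ZMod p)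
    (hc : ∀ h : K.fixingSubgroup, h.1 ∈ F.fixingSubgroup → c h = 1) {Z : M2 (ZMod p)}
    {s g : K.fixingSubgroup} (hs : D.ad s Z = c s • Z)
    (hg : g.1 ∈ Subgroup.zpowers s.1 ⊔ F.fixingSubgroup) : D.ad g Z = c g • Z := by
  have h0 := (hB.one 1).1 (map_one _)
  let S : Subgroup K.fixingSubgroup :=
    { carrier := {g | D.ad g Z = c g • Z}
      one_mem' := by simp [h0]
      mul_mem' := fun {a b} ha hb => by
        rw [Set.mem_ofPred_eq] at ha hb ⊢
        rw [hB.mul, hb, ad_smul_QvTyp, ha, smul_smul, map_mul, mul_comm]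
      inv_mem' := fun {a} ha => by
        rw [Set.mem_ofPred_eq] at ha ⊢
        have h1 : D.ad a⁻¹ (D.ad a Z) = Z := by rw [← hB.mul, inv_mul_cancel, h0]
        rw [ha, ad_smul_QvTyp] at h1
        rw [← congrArg (c a⁻¹ • ·) h1, smul_smul, ← map_mul, inv_mul_cancel, map_one, one_smul] }
  have hle : Subgroup.zpowers s.1 ⊔ F.fixingSubgroup ≤ S.map K.fixingSubgroup.subtype := by
    refine sup_le ((Subgroup.zpowers_le).2 ⟨s, hs, rfl⟩) fun h hh => ?_
    refine ⟨⟨h, IntermediateField.fixingSubgroup_antitone hB.le hh⟩, ?_, rfl⟩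
    change D.ad _ Z = c _ • Z
    rw [hc _ hh, one_smul, (hB.one _).1 ((hB.ker _).1 hh).1]
  obtain ⟨g', hg', e⟩ := hle hg
  obtain rfl : g' = g := Subtype.ext e
  exact hg'

lemma genc_QvTyp (hB : D.Bs F) {Z : M2 (ZMod p)} {s g : K.fixingSubgroup}
    (hs : D.ad s Z = cb p s • Z) (hg : g.1 ∈ Subgroup.zpowers s.1 ⊔ F.fixingSubgroup) :
    D.ad g Z = cb p g • Z :=
  gen_QvTyp hB (cbH_PvRam p K) (fun h hh => ((hB.ker h).1 hh).2) hs hg

lemma geno_QvTyp (hB : D.Bs F) {Z : M2 (ZMod p)} {s g : K.fixingSubgroup}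
    (hs : D.ad s Z = Z) (hg : g.1 ∈ Subgroup.zpowers s.1 ⊔ F.fixingSubgroup) : D.ad g Z = Z :=
  (gen_QvTyp hB 1 (fun _ _ => rfl) (hs.trans (one_smul _ _).symm) hg).trans (one_smul _ _)

lemma two_QvTyp (hB : D.Bs F) : ((2 : ℕ) : ZMod p) ≠ 0 := fun e => by
  have := Nat.le_of_dvd two_pos ((CharP.cast_eq_zero_iff _ p 2).mp e)
  have := hB.big
  omega

lemma ad_pow_QvTyp (hB : D.Bs F) (t : K.fixingSubgroup) (m : ℕ) (Z : M2 (ZMod p)) :
    D.ad (t ^ m) Z = cj (rep D.r t ^ m) Z := by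
  induction m with
  | zero => rw [pow_zero, (hB.one 1).1 (map_one _)]; simp [cj]
  | succ m ih =>
    rw [pow_succ', hB.mul, ih, pow_succ']
    simp only [Dq.ad, cj, _root_.mul_inv_rev, Units.val_mul, Matrix.mul_assoc]

omit [NumberField K] in
lemma tpow_QvTyp {f : GQ → M2 (ZMod p)} (hf : Tg D F f) {u : GQ} (hu : u ∈ F.fixingSubgroup)
    (m : ℕ) : f (u ^ m) = (m : ZMod p) • f u := by
  induction m with
  | zero =>
    have := hf.add 1 (one_mem _) 1 (one_mem _)
    rw [mul_one, left_eq_add] at this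
    simpa using this
  | succ m ih =>
    rw [pow_succ, hf.add _ (pow_mem hu m) _ hu, ih, Nat.cast_succ, add_smul, one_smul]

theorem typ_stmt (p : ℕ) [Fact p.Prime] (hW : WildStmt) : TypStmt p := by
  have hp : p.Prime := Fact.out
  intro K F _ _ D hB t
  refine ⟨fun ht => ?_, fun ht l P σ hl hlp hP hlP hσ hT f hf s hs g hg => ?_⟩
  · by_cases h : ∀ Z, D.ad t Z = cb p t • Z → Z = 0
    · exact Or.inr h
    push Not at h
    obtain ⟨Z, hZ, hZ0⟩ := h
    obtain ⟨t1, d1⟩ := eig_PvTyp (rep D.r t) ht hZ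
    obtain ⟨H, a1, a2, a3, a4, a5⟩ :=
      alg_QvTyp (by simpa using two_QvTyp hB) (rep D.r t) ht hZ0 hZ
    refine Or.inl ⟨⟨p - 1, fun hd => ?_, (hB.ker (t ^ (p - 1))).2 ⟨(hB.one _).2 fun W => ?_, ?_⟩⟩,
      Z, H, hZ0, t1, a1, a2, a3, fun g hg => ⟨genc_QvTyp hB hZ hg, geno_QvTyp hB a4 hg⟩,
      fun s hs W => ⟨fun hW' => ?_, fun hW' => a5 W (geno_QvTyp hB hW' hs)⟩⟩
    · have := Nat.le_of_dvd (by have := hp.two_le; omega) hd
      have := hp.two_le
      omega
    · have h1 := ord_PvTyp (rep D.r t) ht hZ0 hZ (m := p - 1)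
        fun x hx => ZMod.pow_card_sub_one_eq_one hx
      rw [one_smul] at h1
      rw [ad_pow_QvTyp hB, Units.val_eq_one.1 h1]
      simp [cj]
    · exact (map_pow (cbH_PvRam p K) t _).trans
        (ZMod.pow_card_sub_one_eq_one ((cycChar p t).isUnit.map PadicInt.toZMod).ne_zero)
    · have h2 : (rep D.r t).val * W * (rep D.r t)⁻¹.val = cb p t • W := genc_QvTyp hB hW' hs
      obtain ⟨t2, d2⟩ := eig_PvTyp (rep D.r t) ht h2
      refine line_PvTyp hZ0 t1 t2 d1 d2 (eig_PvTyp (rep D.r t) ht (c := cb p t) ?_).2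
      have h1 : (rep D.r t).val * Z * (rep D.r t)⁻¹.val = cb p t • Z := hZ
      rw [Matrix.mul_add, Matrix.add_mul, h1, h2, smul_add]
  · rw [Ty, hB.hh] at hT
    have hσK : σ ∈ K.fixingSubgroup := by
      have h1 : σ ∈ Subgroup.zpowers t.1 ⊔ F.fixingSubgroup :=
        hT ▸ Subgroup.mem_sup_left (Subgroup.mem_zpowers σ)
      exact (sup_le ((Subgroup.zpowers_le).2 t.2)
        (IntermediateField.fixingSubgroup_antitone hB.le) : _ ≤ K.fixingSubgroup) h1
    have hlp' : ¬ p ∣ l := fun e => hlp ((Nat.prime_dvd_prime_iff_eq hp hl).1 e).symm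
    have hl0 : (l : ZMod p) ≠ 0 := by rwa [Ne, ZMod.natCast_eq_zero_iff]
    have hpP : (p : OQ) ∉ P := fun h => hP.ne_top (by
      have hco : IsCoprime (p : OQ) (l : OQ) :=
        Nat.Coprime.cast ((Nat.Prime.coprime_iff_not_dvd hp).2 hlp')
      obtain ⟨a, b, e⟩ := hco
      exact (Ideal.eq_top_iff_one _).2 (e ▸ P.add_mem (P.mul_mem_left a h) (P.mul_mem_left b hlP)))
    have hcb : cb p σ = l := by rw [cb_eq, cyc_frob hpP hσ]
    have key : ∀ u ∈ P.inertia GQ, u ∈ F.fixingSubgroup → f u = 0 := by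
      intro u hu huF
      have hv : σ * u * σ⁻¹ * (u ^ l ^ 1)⁻¹ ∈ F.fixingSubgroup :=
        mul_mem (hB.nrm ⟨σ, hσK⟩ u huF) (inv_mem (pow_mem huF _))
      obtain ⟨a, ha⟩ := hW.1 l 1 P σ u hl hP hlP (by rwa [pow_one]) hu _ hf.nhds
      have h1 := ha (pow_mem hv _)
      rw [tpow_QvTyp hf hv, Nat.cast_pow, smul_eq_zero] at h1
      have h2 := h1.resolve_left (pow_ne_zero _ hl0)
      have h3 := hf.add _ hv _ (pow_mem huF (l ^ 1))
      rw [inv_mul_cancel_right, h2, zero_add, tpow_QvTyp hf huF, pow_one] at h3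
      have h4 := hf.conj ⟨σ, hσK⟩ u huF
      refine ht _ (genc_QvTyp hB (s := ⟨σ, hσK⟩) ?_ ?_)
      · change _ = cb p σ • f u
        rw [hcb, ← h3]
        exact h4.symm
      · exact hT ▸ Subgroup.mem_sup_left (Subgroup.mem_zpowers t.1)
    have h1 := inert_conj_EvRec s⁻¹ hg.2.1
    rw [inv_smul_smul] at h1
    have h2 : s⁻¹ * g * s⁻¹⁻¹ ∈ F.fixingSubgroup := hB.nrm ⟨s, hs⟩⁻¹ g hg.2.2
    have h3 := hf.conj ⟨s, hs⟩ _ h2
    rw [key _ h1 h2, Dq.ad, cj, mul_zero, zero_mul] at h3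
    rw [← h3]
    congr 1
    group

lemma span_QvTyp (hB : D.Bs F) {Ψ : GQ → M2 (ZMod p)}
    (h1 : ∀ g ∈ F.fixingSubgroup, (Ψ g).trace = 0)
    (h2 : ∀ t : K.fixingSubgroup, ∃ a : ZMod p, a ≠ 0 ∧ ∀ g ∈ F.fixingSubgroup,
      Ψ (t * g * (t : GQ)⁻¹) = a • D.ad t (Ψ g))
    (h3 : ∃ g ∈ F.fixingSubgroup, Ψ g ≠ 0) {X : M2 (ZMod p)} (h4 : X.trace = 0)
    (h5 : ∀ g ∈ F.fixingSubgroup, (Ψ g * X).trace = 0) : X = 0 := by
  have hst : ∀ t, ∀ A ∈ Submodule.span (ZMod p) (Ψ '' F.fixingSubgroup),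
      (rep D.r t).val * A * (rep D.r t)⁻¹.val ∈
        Submodule.span (ZMod p) (Ψ '' F.fixingSubgroup) := by
    intro t A hA
    obtain ⟨a, a0, ha⟩ := h2 t
    induction hA using Submodule.span_induction with
    | mem x hx =>
      obtain ⟨g, hg, rfl⟩ := hx
      have : (rep D.r t).val * Ψ g * (rep D.r t)⁻¹.val = a⁻¹ • Ψ (t * g * (t : GQ)⁻¹) := by
        rw [ha g hg, smul_smul, inv_mul_cancel₀ a0, one_smul]
        rfl
      rw [this]
      exact Submodule.smul_mem _ _ (Submodule.subset_span ⟨_, hB.nrm t g hg, rfl⟩)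
    | zero => simp
    | add x y _ _ hx hy =>
      rw [mul_add, add_mul]
      exact add_mem hx hy
    | smul c x _ hx =>
      rw [mul_smul_comm, smul_mul_assoc]
      exact Submodule.smul_mem _ _ hx
  have htr : ∀ A ∈ Submodule.span (ZMod p) (Ψ '' F.fixingSubgroup),
      A.trace = 0 ∧ (A * X).trace = 0 := by
    intro A hA
    induction hA using Submodule.span_induction with
    | mem x hx =>
      obtain ⟨g, hg, rfl⟩ := hx
      exact ⟨h1 g hg, h5 g hg⟩
    | zero => simp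
    | add x y _ _ hx hy => rw [add_mul, trace_add, trace_add, hx.1, hx.2, hy.1, hy.2]; simp
    | smul c x _ hx => rw [smul_mul_assoc, trace_smul, trace_smul, hx.1, hx.2]; simp
  rcases hB.irr _ hst (fun A hA => (htr A hA).1) with h | h
  · obtain ⟨g, hg, hne⟩ := h3
    have : Ψ g ∈ Submodule.span (ZMod p) (Ψ '' F.fixingSubgroup) :=
      Submodule.subset_span ⟨g, hg, rfl⟩
    rw [h, Submodule.mem_bot] at this
    exact absurd this hne
  · exact orth_OvNz (two_QvTyp hB) h4 fun Z hZ => (htr Z (h Z hZ)).2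

theorem nz_stmt (p : ℕ) [Fact p.Prime] : NzStmt p := by
  intro K F _ _ D hB
  refine ⟨fun Ψ h1 h2 h3 X hX h4 => ?_, fun g₀ hg H hH => ?_⟩
  · by_contra hz
    push Not at hz
    exact hX (span_QvTyp hB h1 (fun t => ⟨cb p t,
      ((cycChar p t).isUnit.map PadicInt.toZMod).ne_zero, h2 t⟩) h3 h4 hz)
  by_contra hz
  push Not at hz
  simp only [sub_eq_zero] at hz
  obtain ⟨x, x1, x2⟩ := hB.mu
  obtain ⟨g, g1, g2⟩ := psi_ne_OvNz hB.xi x1 x2
  have hne : ∃ g ∈ F.fixingSubgroup, g₀ g ≠ 0 := ⟨g, g1, fun e => g2 (by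
    rw [← hz g g1, e, mul_zero, trace_zero])⟩
  have hpsi : ∀ t u : GQ, psi p (t * u * t⁻¹) = psi p u := fun t u => by
    have e1 := psi_add (Ω := Qb) (p := p) (t * u * t⁻¹) t
    have e2 := psi_add (Ω := Qb) (p := p) t u
    rw [inv_mul_cancel_right] at e1
    linear_combination e2 - e1
  have hinv : ∀ t : K.fixingSubgroup, (rep D.r t)⁻¹.val * H * (rep D.r t).val = H := fun t => by
    rw [← sub_eq_zero]
    refine span_QvTyp hB hg.tr (fun s => ⟨1, one_ne_zero, fun u hu => by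
      rw [one_smul, hg.conj s u hu]⟩) hne ?_ fun u hu => ?_
    · rw [trace_sub, trace_mul_cycle, Units.mul_inv, one_mul, sub_self]
    · have e := hz _ (hB.nrm t u hu)
      rw [hpsi, hg.conj t u hu, ← hz u hu, Dq.ad, cj] at e
      rw [mul_sub, trace_sub, trace_mul_comm (g₀ u) H, ← e, trace_mul_comm (g₀ u), sub_eq_zero,
        ← mul_assoc, ← mul_assoc, trace_mul_comm _ (rep D.r t)⁻¹.val, mul_assoc, mul_assoc,
        mul_assoc]
  have hH0 : H = 0 := by
    rcases hB.irr (Submodule.span (ZMod p) {H}) (fun t A hA => by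
      obtain ⟨a, rfl⟩ := Submodule.mem_span_singleton.mp hA
      have : (rep D.r t).val * H * (rep D.r t)⁻¹.val = H := by
        conv_lhs => rw [← hinv t]
        rw [← mul_assoc, ← mul_assoc, Units.mul_inv, one_mul, Units.mul_inv_cancel_right]
      rw [mul_smul_comm, smul_mul_assoc, this]
      exact Submodule.smul_mem _ _ (Submodule.mem_span_singleton_self H)) (fun A hA => by
      obtain ⟨a, rfl⟩ := Submodule.mem_span_singleton.mp hA
      rw [trace_smul, hH, smul_zero]) with h | h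
    · exact Submodule.span_singleton_eq_bot.mp h
    · exact inv_zero hH fun A hA => h A hA
  exact g2 (by rw [← hz g g1, hH0, zero_mul, trace_zero])

end Pool.Agent.MP_f68ac8_nt.Qv
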