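import Mathlib
import Pool.Agent.MP_f68ac8_nt.QwAux
import Pool.Agent.MP_f68ac8_nt.OvLead1
import Pool.Agent.MP_f68ac8_nt.OvLead2

/-! The leading term of a lift, globally and at an ordinary prime. -/

namespace Pool.Agent.MP_f68ac8_nt.Qv

open Ev Pv
open NumberField Matrix Finset IsLocalRing Filter
open scoped Pointwise Topology

lemma val_QwLdA {p : ℕ} [hp : Fact p.Prime] {K : IntermediateField ℚ Qb}
    {ρ : K.fixingSubgroup →* GL (Fin 2) ℤ_[p]} (h : Cont ρ) :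
    Tendsto (fun g => (ρ g).val) (𝓝 1) (𝓝 1) := by
  refine tendsto_pi_nhds.2 fun i => tendsto_pi_nhds.2 fun j => Metric.tendsto_nhds.2 fun ε hε => ?_
  obtain ⟨k, hk⟩ := PadicInt.exists_pow_neg_lt p hε
  filter_upwards [h k] with g hg
  have h1 := hg i j
  rw [PadicInt.maximalIdeal_eq_span_p, Ideal.span_singleton_pow,
    ← PadicInt.norm_le_pow_iff_mem_span_pow] at h1
  rw [dist_eq_norm]
  exact h1.trans_lt hk

lemma cont_QwLdA {p : ℕ} [hp : Fact p.Prime] {K : IntermediateField ℚ Qb}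
    {ρ : K.fixingSubgroup →* GL (Fin 2) ℤ_[p]} (h : Cont ρ) : Continuous ρ := by
  refine continuous_of_continuousAt_one ρ ?_
  rw [ContinuousAt, map_one, Units.isEmbedding_embedProduct.tendsto_nhds_iff]
  refine (val_QwLdA h).prodMk_nhds ((MulOpposite.continuous_op.tendsto _).comp ?_)
  have h1 : Tendsto (fun g : K.fixingSubgroup => g⁻¹) (𝓝 1) (𝓝 1) := by
    simpa using (continuous_inv (G := K.fixingSubgroup)).tendsto 1
  simpa [Function.comp_def] using (val_QwLdA h).comp h1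

lemma conj_QwLdA {O : Type} [CommRing O] {I : Ideal O} (C B : GL (Fin 2) O)
    (h : ∀ i j, (B.val - 1) i j ∈ I) (i j : Fin 2) : ((C * B * C⁻¹).val - 1) i j ∈ I := by
  have e : (C * B * C⁻¹).val - 1 = C.val * (B.val - 1) * C⁻¹.val := by
    rw [mul_sub, sub_mul, mul_one, Units.mul_inv, Units.val_mul, Units.val_mul]
  rw [e, mul_apply]
  refine Ideal.sum_mem _ fun s _ => Ideal.mul_mem_right _ _ ?_
  rw [mul_apply]
  exact Ideal.sum_mem _ fun t _ => Ideal.mul_mem_left _ _ (h t s)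

lemma det_QwLdA {O : Type} [CommRing O] (C B : GL (Fin 2) O) :
    (C * B * C⁻¹).val.det = B.val.det := by
  rw [Units.val_mul, Units.val_mul, det_units_conj]

theorem ldA_stmt (p : ℕ) [Fact p.Prime] : LdAStmt p := by
  intro K O _ _ _ _ _ ρ₀ ρ hm h0 h1 h2 h3 h4
  have : IsLocalHom (algebraMap ℤ_[p] O) := ⟨fun x hx => by
    by_contra hn
    have h5 : x ∈ maximalIdeal ℤ_[p] := hn
    rw [PadicInt.maximalIdeal_eq_span_p, Ideal.mem_span_singleton] at h5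
    obtain ⟨y, rfl⟩ := h5
    rw [map_mul, map_natCast] at hx
    exact hm (isUnit_of_mul_isUnit_left hx)⟩
  obtain ⟨⟨k, _, _, π, hπ⟩, h5⟩ :=
    lead1_stmt p K 2 ⟨⟨ρ₀, cont_QwLdA h0⟩, 0, 0, 0, 1⟩ O
  obtain ⟨C, ϖ, e, Z, hL, h6⟩ := h5 k π hπ ρ h1 h2 h3 h4
  exact ⟨k, _, _, π, C, ϖ, e, Z, hπ, ⟨hL.irr, hL.pos, hL.eq, hL.cont,
    fun g => (det_QwLdA C (ρ g)).trans (h3 g)⟩, h6⟩

lemma eq_QwLdA {O : Type} [CommRing O] (A A₀ N N₀ : GL (Fin 2) O) {q : O} {Y : M2 O}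
    (h : N.val = (1 + q • Y) * N₀.val) :
    (A₀⁻¹ * A).val * (A⁻¹ * N * A).val - (A₀⁻¹ * N₀ * A₀).val * (A₀⁻¹ * A).val =
      q • (A₀⁻¹.val * Y * A₀.val * ((A₀⁻¹ * N₀ * A₀).val * (A₀⁻¹ * A).val)) := by
  simp only [Units.val_mul, mul_assoc, Units.mul_inv_cancel_left, h, add_mul, mul_add, one_mul,
    Matrix.smul_mul, Matrix.mul_smul, add_sub_cancel_left]

lemma map_QwLdA {O k : Type} [CommRing O] [CommRing k] (π : O →+* k) (A B : GL (Fin 2) O) {c : k}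
    (h : B.val.map π = c • 1) : (A⁻¹ * B * A).val.map π = c • 1 := by
  rw [Units.val_mul, Units.val_mul, Matrix.map_mul, Matrix.map_mul, h, Matrix.mul_smul,
    Matrix.smul_mul, mul_one, ← Matrix.map_mul, Units.inv_mul,
    Matrix.map_one _ (map_zero π) (map_one π)]

lemma tri_QwLdA {O : Type} [CommRing O] (A B : GL (Fin 2) O) (h : (A⁻¹ * B * A).val 1 0 = 0) :
    (A⁻¹ * B * A).val 0 0 * (A⁻¹ * B * A).val 1 1 = B.val.det := by
  have := det_QwLdA A⁻¹ B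
  rwa [inv_inv, det_fin_two, h, mul_zero, sub_zero] at this

theorem ldB_stmt : LdBStmt := by
  intro O k _ _ _ _ π hπ h2 q hq hq0 A A₀ M M₀ N N₀ Y Z t c hN a1 a2 a3 hM b1 b2 hc hd b3 b4 s
  have hU : q ∣ (A₀⁻¹ * A).val 1 0 := by
    have h1 := congrFun (congrFun (eq_QwLdA A A₀ N N₀ hN) 1) 0
    rw [Matrix.sub_apply, Matrix.smul_apply, smul_eq_mul, mul_apply, mul_apply, Fin.sum_univ_two,
      Fin.sum_univ_two, a1, a2] at h1
    have hu : IsUnit ((A⁻¹ * N * A).val 0 0 - (A₀⁻¹ * N₀ * A₀).val 1 1) := by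
      by_contra hn
      exact a3 (sub_eq_zero.1 ((map_sub π _ _).symm.trans ((hπ _).2 hn)))
    exact hu.dvd_mul_left.1 ⟨_, by rw [← h1]; ring⟩
  have hcM : M.val.map π = c • 1 := by
    rw [hM, Matrix.map_mul, hc, Matrix.mul_smul, mul_one]
    congr 1
    ext i j
    by_cases e : i = j <;> simp [hq0, one_apply, e]
  have c1 := map_QwLdA π A M hcM
  have c2 := map_QwLdA π A₀ M₀ hc
  have d1 := tri_QwLdA A M b1
  have d2 := tri_QwLdA A₀ M₀ b2
  have hu : IsUnit M₀.val.det := (Matrix.isUnit_iff_isUnit_det _).1 M₀.isUnit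
  have e1 : π ((A⁻¹ * M * A).val 1 1) = c := by simpa using congrFun (congrFun c1 1) 1
  have e2 : π ((A₀⁻¹ * M₀ * A₀).val 1 1) = c := by simpa using congrFun (congrFun c2 1) 1
  have hc0 : c ≠ 0 := e2 ▸ ((isUnit_of_mul_isUnit_right (d2 ▸ hu)).map π).ne_zero
  have ht : t ≠ 0 := by
    rintro rfl
    rw [← d2, b4, zero_mul, zero_mul] at hu
    exact not_isUnit_zero hu
  have e3 : (A⁻¹ * M * A).val 1 1 = (A₀⁻¹ * M₀ * A₀).val 1 1 := by
    have h3 := d1.trans (hd.trans d2.symm)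
    rw [b3, b4, mul_assoc t, mul_assoc t] at h3
    refine (mul_self_eq_mul_self_iff.1 (mul_left_cancel₀ ht h3)).resolve_right fun h4 => ?_
    rw [h4, map_neg, e2] at e1
    exact mul_ne_zero h2 hc0 (by linear_combination -e1)
  have e4 : (A⁻¹ * M * A).val 0 0 = (A₀⁻¹ * M₀ * A₀).val 0 0 := by rw [b3, b4, e3]
  refine main_OvLead2 π (fun i => i.val) q hq hq0
    (fun i => if i = 0 then (A₀⁻¹ * M₀ * A₀).val 0 0 else (A₀⁻¹ * M₀ * A₀).val 1 1) _ _ _ _
    (A₀⁻¹ * A).isUnit (A₀⁻¹ * M₀ * A₀).isUnit (fun i j hij => ?_) (fun i j hij => ?_)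
    (fun i j hij => ?_) (eq_QwLdA A A₀ M M₀ hM) c c1 c2 s 0 (Nat.zero_le _)
  · fin_cases i <;> fin_cases j
    exacts [absurd hij (by simp), absurd hij (by simp), hU, absurd hij (by simp)]
  · fin_cases i <;> fin_cases j
    exacts [e4, absurd hij (by simp), b1, e3]
  · fin_cases i <;> fin_cases j
    exacts [rfl, absurd hij (by simp), b2, rfl]

end Pool.Agent.MP_f68ac8_nt.Qv
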