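import Mathlib
import Pool.Agent.MP_f68ac8_nt.OvAux
import Pool.Agent.MP_f68ac8_nt.GvLead

/-! The first order term of the base point. -/

namespace Pool.Agent.MP_f68ac8_nt.Ev

open Matrix NumberField
open Pool.Agent.MP_f68ac8_nt.Four (map_sm)
open scoped Topology

lemma ex_OvLev0 {p : ℕ} [Fact p.Prime] {n : ℕ} (hN : (Fintype.card (Fin n) : ZMod p) ≠ 0)
    {M : Matrix (Fin n) (Fin n) ℤ_[p]} {c : ZMod p} (hc : c ≠ 0)
    (h : (PadicInt.toZMod (p := p)).mapMatrix M = c • 1) :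
    ∃ X, Ld_EvLead (PadicInt.toZMod (p := p)) (p : ℤ_[p]) M X := by
  have H := vd_GvLead p
  set rd := PadicInt.toZMod (p := p) with hrd
  obtain ⟨ν, hν⟩ := (H.unit (x := Fintype.card (Fin n)) (by rwa [map_natCast])).exists_right_inv
  have e : rd (trace M * ν) = c := by
    have := congrArg rd hν
    rw [map_mul, map_natCast, map_one] at this
    rw [map_mul, tr_EvLead, h, trace_smul, trace_one, smul_eq_mul, mul_assoc, this, mul_one]
  have e1 : rd.mapMatrix (M - (trace M * ν) • 1) = 0 := by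
    rw [map_sub, map_sm, map_one, e, h, sub_self]
  have e2 : ∀ i j, (p : ℤ_[p]) ∣ (M - (trace M * ν) • 1) i j := fun i j => by
    have e3 : rd ((M - (trace M * ν) • 1) i j) = 0 := congrFun (congrFun e1 i) j
    rwa [← RingHom.mem_ker, PadicInt.ker_toZMod, PadicInt.maximalIdeal_eq_span_p,
      Ideal.mem_span_singleton] at e3
  choose Z hZ using e2
  have hs : rd (trace M * ν) ≠ 0 := by rwa [e]
  obtain ⟨v, hv⟩ := (H.unit hs).exists_right_inv
  have e4 : M - (trace M * ν) • 1 = (trace M * ν * p) • (v • Matrix.of Z) := by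
    rw [smul_smul, mul_right_comm, hv, one_mul]
    ext i j
    exact hZ i j
  refine ⟨_, trace M * ν, v • Matrix.of Z, hs, ?_, rfl, ?_⟩
  · rw [smul_add, smul_smul, ← e4, add_sub_cancel]
  · have e5 := congrArg trace e4
    rw [trace_sub, trace_smul, trace_smul, trace_one, smul_eq_mul, mul_assoc, mul_comm ν, hν,
      mul_one, sub_self] at e5
    have e6 := (smul_eq_zero.mp e5.symm).resolve_left
      (mul_ne_zero (H.unit hs).ne_zero (Nat.cast_ne_zero.mpr (Fact.out : p.Prime).ne_zero))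
    rw [← tr_EvLead, e6, map_zero]

theorem lev0_stmt (p : ℕ) [Fact p.Prime] : Lev0Stmt p := by
  intro K F _ _ _ hKF n D hD
  classical
  have hp : p.Prime := Fact.out
  have H := vd_GvLead p
  set rd := PadicInt.toZMod (p := p) with hrd
  have hG : F.fixingSubgroup ≤ K.fixingSubgroup := IntermediateField.fixingSubgroup_antitone hKF
  have p2 : rd p = 0 := by rw [map_natCast, ZMod.natCast_self]
  have p1 : (p : ℤ_[p]) ≠ 0 := Nat.cast_ne_zero.mpr hp.ne_zero
  have hn : ¬ p ∣ n := hD.odd.2.1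
  have hN : (Fintype.card (Fin n) : ZMod p) ≠ 0 := by
    rwa [Fintype.card_fin, Ne, CharP.cast_eq_zero_iff (ZMod p) p]
  have hn0 : 0 < n := Nat.pos_of_ne_zero (by
    rintro rfl
    exact hn (dvd_zero p))
  have : Nonempty (Fin n) := ⟨⟨0, hn0⟩⟩
  let ρ : K.fixingSubgroup →* Matrix (Fin n) (Fin n) ℤ_[p] :=
    (Units.coeHom _).comp D.ρ.toMonoidHom
  have hc : Continuous ρ := Units.continuous_val.comp D.ρ.continuous
  have t1' : ∀ g, rd.mapMatrix (ρ g) = (D.r g).val := fun g => rfl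
  have h0 : ∀ g : K.fixingSubgroup, ∃ X, g.1 ∈ F.fixingSubgroup → Ld_EvLead rd p (ρ g) X :=
    fun g => by
      by_cases hg : g.1 ∈ F.fixingSubgroup
      · obtain ⟨c, e⟩ := hD.scal g hg
        have hc0 : c ≠ 0 := fun h0 => by
          rw [h0, zero_smul] at e
          exact (D.r g).ne_zero e
        obtain ⟨X, hX⟩ := ex_OvLev0 hN hc0 ((t1' g).trans e)
        exact ⟨X, fun _ => hX⟩
      · exact ⟨0, fun h => absurd h hg⟩
  choose X ld using h0
  have hnm : F.fixingSubgroup.Normal := (InfiniteGalois.normal_iff_isGalois F).mpr ‹_›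
  have inv : ∀ g, ρ g * ρ g⁻¹ = 1 := fun g => by rw [← map_mul, mul_inv_cancel, map_one]
  obtain ⟨f, hf⟩ : ∃ f : GQ → Matrix (Fin n) (Fin n) (ZMod p),
      ∀ g : K.fixingSubgroup, f g = X g :=
    ⟨fun g => if h : g ∈ K.fixingSubgroup then X ⟨g, h⟩ else 0, fun g => dif_pos g.2⟩
  refine ⟨f, ⟨fun g hg h hh => ?_, fun g h hh => ?_, ?_, fun g hg => ?_⟩, fun g hg => ?_⟩
  · lift g to K.fixingSubgroup using hG hg
    lift h to K.fixingSubgroup using hG hh
    rw [← Subgroup.coe_mul, hf, hf, hf]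
    exact uniq_EvLead hN p1 p2 (ld _ (mul_mem hg hh))
      (map_mul ρ g h ▸ mul_EvLead p2 (ld g hg) (ld h hh))
  · lift h to K.fixingSubgroup using hG hh
    have e := conj_EvLead (inv g) (ld h hh)
    rw [← map_mul, ← map_mul, t1', t1', map_inv] at e
    rw [← Subgroup.coe_inv, ← Subgroup.coe_mul, ← Subgroup.coe_mul, hf, hf]
    exact uniq_EvLead hN p1 p2 (ld _ (hnm.conj_mem h hh g)) e
  · have e1 := H.nhds hc p1
    rw [nhds_subtype, Filter.eventually_comap] at e1
    refine e1.mono fun g e hg => ?_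
    lift g to K.fixingSubgroup using hG hg
    rw [hf]
    exact uniq_EvLead hN p1 p2 (ld g hg) (e g rfl)
  · lift g to K.fixingSubgroup using hG hg
    obtain ⟨s, Z, -, -, -, ht⟩ := ld g hg
    rwa [hf]
  · obtain ⟨s, Z, g1, g2, g3, -⟩ := ld g hg
    exact ⟨s, Z, g1, g2, by rw [hf, ← g3]; rfl⟩

end Pool.Agent.MP_f68ac8_nt.Ev
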