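import Mathlib
import Pool.Agent.MP_f68ac8_nt.QwAux
import Pool.Agent.MP_f68ac8_nt.OvLev0
import Pool.Agent.MP_f68ac8_nt.QvBs
import Pool.Agent.MP_f68ac8_nt.PvTwo

/-! The first order term of the base point, and twisting to its determinant. -/

namespace Pool.Agent.MP_f68ac8_nt.Qv

open Ev Pv
open Matrix NumberField IsLocalRing
open scoped Topology MatrixGroups

theorem lev0_stmt (p : ℕ) [Fact p.Prime] : Lev0Stmt p := by
  intro K F _ _ D hD ρ₀ hr hc
  classical
  have hp : p.Prime := Fact.out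
  have P1 : ∀ g Z, D.ad g Z = cj (GeneralLinearGroup.map PadicInt.toZMod (ρ₀ g)) Z := by
    intro g Z
    have h1 := (scal_QvBs ((GeneralLinearGroup.map PadicInt.toZMod (ρ₀ g))⁻¹ * rep D.r g)).1 (by
      rw [map_mul, map_inv, mk_QvBs, hr]
      exact inv_mul_cancel _) Z
    unfold Dq.ad
    rw [← mul_inv_cancel_left (GeneralLinearGroup.map PadicInt.toZMod (ρ₀ g)) (rep D.r g),
      cj_mul_PvTwo, h1]
  refine ⟨P1, ?_⟩
  set rd := PadicInt.toZMod (p := p) with hrd
  have hG : F.fixingSubgroup ≤ K.fixingSubgroup := IntermediateField.fixingSubgroup_le hD.le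
  have p2 : rd p = 0 := by rw [map_natCast, ZMod.natCast_self]
  have p1 : (p : ℤ_[p]) ≠ 0 := Nat.cast_ne_zero.mpr hp.ne_zero
  have hN : (Fintype.card (Fin 2) : ZMod p) ≠ 0 := by
    rw [Fintype.card_fin, Ne, CharP.cast_eq_zero_iff (ZMod p) p]
    intro h
    have := Nat.le_of_dvd two_pos h
    have := hD.big
    omega
  let ρ : K.fixingSubgroup →* Matrix (Fin 2) (Fin 2) ℤ_[p] := (Units.coeHom _).comp ρ₀
  have t1' : ∀ g, rd.mapMatrix (ρ g) = (GeneralLinearGroup.map rd (ρ₀ g)).val := fun g => rfl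
  have h0 : ∀ g : K.fixingSubgroup, ∃ X, g.1 ∈ F.fixingSubgroup → Ld_EvLead rd p (ρ g) X :=
    fun g => by
      by_cases hg : g.1 ∈ F.fixingSubgroup
      · obtain ⟨c, e⟩ : IsScal (GeneralLinearGroup.map rd (ρ₀ g)) :=
          cj_scal_PvTwo.2 fun Z => (P1 g Z).symm.trans ((hD.one g).1 ((hD.ker g).1 hg).1 Z)
        have hc0 : c ≠ 0 := fun h0 => by
          rw [h0, zero_smul] at e
          exact (GeneralLinearGroup.map rd (ρ₀ g)).ne_zero e
        obtain ⟨X, hX⟩ := ex_OvLev0 hN hc0 ((t1' g).trans e)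
        exact ⟨X, fun _ => hX⟩
      · exact ⟨0, fun h => absurd h hg⟩
  choose X ld using h0
  have inv : ∀ g, ρ g * ρ g⁻¹ = 1 := fun g => by rw [← map_mul, mul_inv_cancel, map_one]
  obtain ⟨f, hf⟩ : ∃ f : GQ → Matrix (Fin 2) (Fin 2) (ZMod p),
      ∀ g : K.fixingSubgroup, f g = X g :=
    ⟨fun g => if h : g ∈ K.fixingSubgroup then X ⟨g, h⟩ else 0, fun g => dif_pos g.2⟩
  refine ⟨f, ⟨fun g hg h hh => ?_, fun g h hh => ?_, ?_, fun g hg => ?_⟩, fun g hg => ?_⟩
  · lift g to K.fixingSubgroup using hG hg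
    lift h to K.fixingSubgroup using hG hh
    rw [← Subgroup.coe_mul, hf, hf, hf]
    exact uniq_EvLead hN p1 p2 (ld _ (mul_mem hg hh))
      (map_mul ρ g h ▸ mul_EvLead p2 (ld g hg) (ld h hh))
  · lift h to K.fixingSubgroup using hG hh
    have e := conj_EvLead (inv g) (ld h hh)
    rw [← map_mul, ← map_mul, t1', t1', map_inv, map_inv] at e
    rw [← Subgroup.coe_inv, ← Subgroup.coe_mul, ← Subgroup.coe_mul, hf, hf, P1]
    exact uniq_EvLead hN p1 p2 (ld _ (hD.nrm g h hh)) e
  · have e1 := hc 2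
    rw [nhds_subtype, Filter.eventually_comap] at e1
    refine e1.mono fun g e hg => ?_
    lift g to K.fixingSubgroup using hG hg
    rw [hf]
    have e2 : ∀ i j, (p : ℤ_[p]) ^ 2 ∣ (ρ g - 1) i j := fun i j => by
      have e3 := e g rfl i j
      rwa [PadicInt.maximalIdeal_eq_span_p, Ideal.span_singleton_pow,
        Ideal.mem_span_singleton] at e3
    choose W hW using e2
    refine uniq_EvLead hN p1 p2 (ld g hg) ⟨1, (p : ℤ_[p]) • Matrix.of W, by simp, ?_, ?_, ?_⟩
    · rw [one_smul, smul_smul, ← sub_eq_iff_eq_add', ← sq]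
      ext i j
      exact hW i j
    · rw [Four.map_sm, p2, zero_smul]
    · exact trace_zero _ _
  · lift g to K.fixingSubgroup using hG hg
    obtain ⟨s, Z, -, -, -, ht⟩ := ld g hg
    rwa [hf]
  · obtain ⟨s, Z, g1, g2, g3, -⟩ := ld g hg
    exact ⟨s, Z, g1, g2, by rw [hf, ← g3]; rfl⟩

lemma det_QwLev0 {O : Type} [CommRing O] (I : Ideal O) {A B : M2 O}
    (h : ∀ i j, A i j - B i j ∈ I) : A.det - B.det ∈ I := by
  rw [← Ideal.Quotient.eq, RingHom.map_det, RingHom.map_det]
  congr 1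
  ext i j
  exact Ideal.Quotient.eq.2 (h i j)

lemma unit_QwLev0 {O : Type} [CommRing O] [IsLocalRing O] (h2 : IsUnit (2 : O)) {s t : O}
    (hs : s - 1 ∈ maximalIdeal O) (ht : t - 1 ∈ maximalIdeal O) : IsUnit (s + t) := by
  by_contra h
  have h1 : s + t ∈ maximalIdeal O := h
  have h3 : (2 : O) ∈ maximalIdeal O := by
    have := sub_mem (sub_mem h1 hs) ht
    convert this using 1
    ring
  exact h3 h2

lemma sqrt_QwLev0 {O : Type} [CommRing O] [IsLocalRing O] [IsAdicComplete (maximalIdeal O) O]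
    (h2 : IsUnit (2 : O)) {d : O} (hd : d - 1 ∈ maximalIdeal O) :
    ∃ s, s ^ 2 = d ∧ s - 1 ∈ maximalIdeal O := by
  have H := IsAdicComplete.henselianRing O (maximalIdeal O)
  obtain ⟨a, ha, ha1⟩ := H.is_henselian (Polynomial.X ^ 2 - Polynomial.C d)
    (Polynomial.monic_X_pow_sub_C d two_ne_zero) 1 (by
      have := neg_mem hd
      simpa using this) (by
      have := h2.map (Ideal.Quotient.mk (maximalIdeal O))
      simpa [one_add_one_eq_two] using this)
  refine ⟨a, ?_, ha1⟩
  have := ha.eq_zero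
  simpa [sub_eq_zero] using this

theorem twist_stmt (p : ℕ) [Fact p.Prime] : TwistStmt p := by
  intro K O _ _ _ _ _ ρ₀ ρ hp2 hpm hc₀ hc hcong
  have hp : p.Prime := Fact.out
  have h2 : IsUnit (2 : O) := by
    by_contra h
    have h1 : (2 : O) ∈ maximalIdeal O := h
    have hcop : IsCoprime ((2 : ℕ) : O) (p : O) := by
      have := (Nat.isCoprime_iff_coprime.2 ((Nat.coprime_primes Nat.prime_two hp).2 hp2.ne)).map
        (Int.castRingHom O)
      simpa using this
    obtain ⟨a, b, e⟩ := hcop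
    have h3 : (1 : O) ∈ maximalIdeal O := by
      rw [← e]
      exact add_mem (Ideal.mul_mem_left _ _ (by simpa using h1)) (Ideal.mul_mem_left _ _ hpm)
    exact h3 isUnit_one
  let d₀ : K.fixingSubgroup →* O :=
    (algebraMap ℤ_[p] O).toMonoidHom.comp (Matrix.detMonoidHom.comp ((Units.coeHom _).comp ρ₀))
  let d : K.fixingSubgroup →* O := Matrix.detMonoidHom.comp ((Units.coeHom _).comp ρ)
  have hd₀ : ∀ g, d₀ g = algebraMap _ O (ρ₀ g).val.det := fun g => rfl
  have hd : ∀ g, d g = (ρ g).val.det := fun g => rfl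
  have hinv : ∀ g, d g * d g⁻¹ = 1 := fun g => by rw [← map_mul, mul_inv_cancel, map_one]
  have key : ∀ (I : Ideal O) g, d₀ g - d g ∈ I → d₀ g * d g⁻¹ - 1 ∈ I := fun I g h => by
    rw [← hinv g, ← sub_mul]
    exact Ideal.mul_mem_right _ _ h
  have h1 : ∀ g, d₀ g * d g⁻¹ - 1 ∈ maximalIdeal O := fun g => key _ g (by
    rw [hd₀, hd, RingHom.map_det]
    exact det_QwLev0 _ fun i j => by
      have := neg_mem (hcong g i j)
      rw [neg_sub] at this
      exact this)
  choose s hs hs1 using fun g => sqrt_QwLev0 h2 (h1 g)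
  have uq : ∀ x y : O, x ^ 2 = y ^ 2 → x - 1 ∈ maximalIdeal O → y - 1 ∈ maximalIdeal O →
      x = y := fun x y e hx hy => by
    have e1 : (x + y) * (x - y) = 0 := by linear_combination e
    exact sub_eq_zero.1 ((mul_eq_zero.1 e1).resolve_left (unit_QwLev0 h2 hx hy).ne_zero)
  let S : K.fixingSubgroup →* O :=
    { toFun := s
      map_one' := uq _ _ (by rw [hs, inv_one, map_one, map_one]; ring) (hs1 1) (by simp)
      map_mul' := fun g h => uq _ _
        (by rw [mul_pow, hs, hs, hs, _root_.mul_inv_rev, map_mul, map_mul]; ring) (hs1 _) (by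
          have := add_mem (Ideal.mul_mem_right (s h) _ (hs1 g)) (hs1 h)
          convert this using 1
          ring) }
  let R : K.fixingSubgroup →* M2 O :=
    { toFun := fun g => S g • (ρ g).val
      map_one' := by rw [map_one, map_one, one_smul, Units.val_one]
      map_mul' := fun g h => by
        rw [map_mul, map_mul, Units.val_mul, smul_mul_smul_comm] }
  have hR : ∀ g, (R.toHomUnits g).val = s g • (ρ g).val := fun g => rfl
  have hmap : ∀ k, ∀ x ∈ maximalIdeal ℤ_[p] ^ k, algebraMap _ O x ∈ maximalIdeal O ^ k := by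
    intro k x hx
    rw [PadicInt.maximalIdeal_eq_span_p, Ideal.span_singleton_pow,
      Ideal.mem_span_singleton] at hx
    obtain ⟨y, rfl⟩ := hx
    rw [map_mul, map_pow, map_natCast]
    exact Ideal.mul_mem_right _ _ (Ideal.pow_mem_pow hpm k)
  refine ⟨R.toHomUnits, s, hs1, hR, fun k => ?_, fun g => ?_⟩
  · filter_upwards [hc₀ k, hc k] with g e₀ e i j
    have e1 : d₀ g - 1 ∈ maximalIdeal O ^ k := by
      have := hmap k _ (det_QwLev0 _ (B := 1) e₀)
      rwa [map_sub, det_one, map_one] at this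
    have e2 : d g - 1 ∈ maximalIdeal O ^ k := by
      have := det_QwLev0 _ (B := 1) e
      rwa [det_one] at this
    have e3 := key (maximalIdeal O ^ k) g (by
      have := sub_mem e1 e2
      rwa [sub_sub_sub_cancel_right] at this)
    obtain ⟨v, hv⟩ := (unit_QwLev0 h2 (hs1 g) (t := 1) (by simp)).exists_right_inv
    have e4 : s g - 1 ∈ maximalIdeal O ^ k := by
      have := Ideal.mul_mem_right v _ e3
      rw [← hs] at this
      convert this using 1
      linear_combination (-(s g - 1)) * hv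
    have e5 := add_mem (Ideal.mul_mem_right ((ρ g).val i j) _ e4) (e i j)
    convert e5 using 1
    rw [hR, Matrix.sub_apply, Matrix.sub_apply, Matrix.smul_apply, smul_eq_mul]
    ring
  · rw [hR, det_smul, Fintype.card_fin, hs, ← hd, ← hd₀, mul_assoc, mul_comm (d g⁻¹), hinv,
      mul_one]

end Pool.Agent.MP_f68ac8_nt.Qv
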