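import Mathlib
import Pool.Agent.MP_f68ac8_nt.QwAux
import Pool.Agent.MP_f68ac8_nt.OvRed
import Pool.Agent.MP_f68ac8_nt.QvRed
import Pool.Agent.MP_f68ac8_nt.QvBs
import Pool.Agent.MP_f68ac8_nt.PvTwo
import Pool.Agent.MP_f68ac8_nt.EvRec

/-! Reduction of the leading term of a deformation of the base point to the prime field. -/

namespace Pool.Agent.MP_f68ac8_nt.Qv

open Ev Pv
open NumberField Matrix Finset IsLocalRing
open scoped Pointwise Topology

section
variable {p : ℕ} [hp : Fact p.Prime] {k : Type} [Field k] [Algebra (ZMod p) k]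

/-- a cocycle all of whose coordinates are coboundaries is a coboundary -/
lemma cob_QwRed {G : Type} (R : G → GL (Fin 2) (ZMod p)) {z : G → M2 k}
    (h : ∀ lam : k →ₗ[ZMod p] ZMod p, ∃ W, ∀ g, (z g).map lam = W - cj (R g) W) :
    ∃ W : M2 k, ∀ g, z g = W - adk (R g) W := by
  classical
  choose W hW using h
  have h1 : ∀ g g', R g = R g' → z g = z g' := fun g g' e =>
    sep_OvRed (p := p) fun lam => by rw [hW, hW, e]
  have h2 : (Set.range z).Finite := by
    refine (Set.finite_range fun A : GL (Fin 2) (ZMod p) =>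
      if h : ∃ g, R g = A then z h.choose else 0).subset ?_
    rintro _ ⟨g, rfl⟩
    have h3 : ∃ g', R g' = R g := ⟨g, rfl⟩
    exact ⟨R g, (dif_pos h3).trans (h1 _ _ h3.choose_spec)⟩
  let b := Module.Basis.ofVectorSpace (ZMod p) k
  let s := h2.toFinset.biUnion fun M => univ.biUnion fun x : Fin 2 × Fin 2 =>
    (b.repr (M x.1 x.2)).support
  refine ⟨∑ a ∈ s, b a • (W (b.coord a)).map (algebraMap (ZMod p) k), fun g => ?_⟩
  have h4 : z g = ∑ a ∈ s, b a • ((z g).map (b.coord a)).map (algebraMap (ZMod p) k) := by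
    ext i j
    have h5 : (b.repr (z g i j)).support ⊆ s := fun a ha =>
      mem_biUnion.2 ⟨z g, h2.mem_toFinset.2 ⟨g, rfl⟩, mem_biUnion.2 ⟨(i, j), mem_univ _, ha⟩⟩
    conv_lhs => rw [← b.linearCombination_repr (z g i j), Finsupp.linearCombination_apply,
      Finsupp.sum_of_support_subset _ h5 (fun i a => a • b i) fun _ _ => zero_smul _ _]
    simp only [Matrix.sum_apply, Matrix.smul_apply, map_apply, smul_eq_mul,
      Module.Basis.coord_apply]
    exact sum_congr rfl fun _ _ => (Algebra.smul_def _ _).trans (mul_comm _ _)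
  rw [h4, adk, Matrix.mul_sum, Matrix.sum_mul, ← sum_sub_distrib]
  refine sum_congr rfl fun a _ => ?_
  rw [hW, Matrix.map_sub _ (map_sub _), cj, Matrix.map_mul, Matrix.map_mul, smul_sub,
    Matrix.mul_smul, Matrix.smul_mul]

variable {K F : IntermediateField ℚ Qb} [NumberField K] {D : Dq p K}

lemma tg_QwRed (hB : D.Bs F) {z : K.fixingSubgroup → M2 k} (lam : k →ₗ[ZMod p] ZMod p)
    (h1 : ∀ g h, (z (g * h)).map lam = (z g).map lam + D.ad g ((z h).map lam))
    (hn : ∀ᶠ g in 𝓝 1, z g = 0) (ht : ∀ g, (z g).trace = 0) : Tg D F (ext_OvRed z lam) := by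
  have hle : F.fixingSubgroup ≤ K.fixingSubgroup := IntermediateField.fixingSubgroup_le hB.le
  have hF : ∀ g : K.fixingSubgroup, g.1 ∈ F.fixingSubgroup → ∀ X, D.ad g X = X := fun g hg =>
    (hB.one g).1 ((hB.ker g).1 hg).1
  have h2 : (z 1).map lam = 0 := by
    have h3 := h1 1 1
    rw [mul_one, hF 1 (one_mem _)] at h3
    exact left_eq_add.1 h3
  refine ⟨fun g hg h hh => ?_, fun g h hh => ?_, ?_, fun g hg => ?_⟩
  · rw [ext_mk_OvRed z lam (hle hg), ext_mk_OvRed z lam (hle hh), ← hF ⟨g, hle hg⟩ hg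
      ((z ⟨h, hle hh⟩).map lam), ← h1, ← ext_coe_OvRed z lam, Subgroup.coe_mul]
  · have h3 := h1 g g⁻¹
    have h4 : (z (g * ⟨h, hle hh⟩ * g⁻¹)).map lam = D.ad g ((z ⟨h, hle hh⟩).map lam) := by
      rw [mul_inv_cancel, h2, Dq.ad, cj] at h3
      rw [mul_assoc, h1, h1, hF ⟨h, hle hh⟩ hh, Dq.ad, Dq.ad, cj, cj, mul_add, add_mul,
        add_left_comm, ← h3, add_zero]
    rw [ext_mk_OvRed z lam (hle hh), ← h4, ← ext_coe_OvRed z lam, Subgroup.coe_mul,
      Subgroup.coe_mul, Subgroup.coe_inv]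
  · rw [nhds_subtype_eq_comap, Filter.eventually_comap] at hn
    filter_upwards [hn] with g h hg
    rw [ext_mk_OvRed z lam (hle hg), h ⟨g, hle hg⟩ rfl, Matrix.map_zero _ (map_zero lam)]
  · rw [ext_mk_OvRed z lam (hle hg), trace_OvRed, ht, map_zero]

omit [NumberField K] in
lemma brk_QwRed {t : GQ} {X H Z : M2 (ZMod p)} (hR : RamData D F t X H) {d : ZMod p}
    (hd : Z = d • H) : brk Z X = (H * Z).trace • X := by
  have h6 := hR.hx
  rw [brk] at h6
  rw [hd, Matrix.mul_smul, trace_smul, hR.hh, brk, Matrix.mul_smul, Matrix.smul_mul,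
    ← smul_sub, h6, smul_smul, smul_eq_mul]

lemma dist_QwRed {A B B' : GL (Fin 2) (ZMod p)} (h : ∀ Z, cj B Z = cj B' Z)
    (hd : (A⁻¹ * B * A).val 0 0 ≠ (A⁻¹ * B * A).val 1 1) :
    (A⁻¹ * B' * A).val 0 0 ≠ (A⁻¹ * B' * A).val 1 1 := by
  obtain ⟨c, hc⟩ := cj_scal_PvTwo.2 fun Z => show cj (B'⁻¹ * B) Z = Z by
    rw [cj_mul_PvTwo, h, ← cj_mul_PvTwo, inv_mul_cancel, cj, inv_one, Units.val_one, one_mul,
      mul_one]
  have h1 : (A⁻¹ * B * A).val = c • (A⁻¹ * B' * A).val := by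
    rw [← mul_inv_cancel_left B' B, Units.val_mul, Units.val_mul, Units.val_mul, hc, Units.val_mul,
      Units.val_mul, Matrix.mul_smul, Matrix.mul_smul, Matrix.smul_mul, mul_one]
  intro e
  rw [h1, Matrix.smul_apply, Matrix.smul_apply, e] at hd
  exact hd rfl

omit hp [Algebra (ZMod p) k] in
lemma scal_QwRed {O : Type} [CommRing O] [IsDomain O] (π : O →+* k) (h2 : (2 : k) ≠ 0)
    {q u d : O} (hq : q ≠ 0) (hu : u ≠ 0) {Z : M2 O}
    (h : d • (1 : M2 O) = (1 + q • Z) * u • (1 : M2 O)) (ht : (Z.map π).trace = 0) :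
    Z.map π = 0 := by
  have e00 := congrFun (congrFun h 0) 0
  have e01 := congrFun (congrFun h 0) 1
  have e10 := congrFun (congrFun h 1) 0
  have e11 := congrFun (congrFun h 1) 1
  simp [hq, hu] at e00 e01 e10 e11
  have e : Z 0 0 = Z 1 1 :=
    mul_left_cancel₀ (mul_ne_zero hu hq) (by linear_combination e11 - e00)
  rw [trace_fin_two, map_apply, map_apply, e, ← two_mul] at ht
  have e1 := (mul_eq_zero.1 ht).resolve_left h2
  ext i j
  fin_cases i <;> fin_cases j <;> simp [e, e1, e01, e10]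

omit hp [Algebra (ZMod p) k] in
lemma map_QwRed {O O' : Type} [CommRing O] [CommRing O'] (φ : O →+* O') (A B : GL (Fin 2) O)
    (i j : Fin 2) : ((GeneralLinearGroup.map φ A)⁻¹ * GeneralLinearGroup.map φ B *
      GeneralLinearGroup.map φ A).val i j = φ ((A⁻¹ * B * A).val i j) := by
  rw [← map_inv, ← map_mul, ← map_mul]
  rfl

end

theorem red2_stmt (p : ℕ) [Fact p.Prime] (hL : Lev0Stmt p) (hT : TwistStmt p) (hA : LdAStmt p) (hB : LdBStmt) (hC : LdCStmt p) (h2 : SmallStmt' p) (hI : InerStmt p) (hCo : CoStmt p) : Red2Stmt p := by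
  classical
  intro K F _ _ D hD ρ₀ hr hDi hSZ hO₀ g₀ hg₀ J _ _ c X H hc hR hnz S hSA hno
  have hle : F.fixingSubgroup ≤ K.fixingSubgroup := IntermediateField.fixingSubgroup_le hD.le
  have h3 : 3 < p := hD.big
  have hp2 : ¬ p ∣ 2 := fun e => by have := Nat.le_of_dvd two_pos e; omega
  have had := (hL K F D hD ρ₀ hr hO₀.cont).1
  have hpz : (p : ℤ_[p]) ∈ maximalIdeal ℤ_[p] := by
    rw [PadicInt.maximalIdeal_eq_span_p]
    exact Ideal.mem_span_singleton_self _
  unfold RigLift at hno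
  simp only [not_forall] at hno
  obtain ⟨O, _, _, _, _, _, ρ, hLoc, hcong, hpm, hno⟩ := hno
  obtain ⟨ρ', s, hs1, hs2, hc', hdet⟩ := hT K O ρ₀ ρ (by omega) hpm hO₀.cont hLoc.cont hcong
  obtain ⟨k, _, _, π, C, ϖ, e, Z, hπ, hLv, hcoc, hnh, htr, hnc⟩ := hA K O ρ₀ ρ' hpm hO₀.cont hc'
    (fun g i j => by
      convert add_mem (Ideal.mul_mem_right ((ρ g).val i j) _ (hs1 g)) (hcong g i j) using 1
      rw [hs2, Matrix.smul_apply, smul_eq_mul]
      ring) hdet (by
      rintro ⟨C, hC⟩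
      refine hno ⟨C, fun g => ?_⟩
      obtain ⟨u, hu⟩ : IsUnit (s g) := by
        by_contra h
        exact (maximalIdeal.isMaximal O).ne_top ((Ideal.eq_top_iff_one _).2 (by
          simpa using sub_mem ((mem_maximalIdeal _).2 h) (hs1 g)))
      refine ⟨(u⁻¹ : Oˣ), ?_⟩
      rw [Matrix.smul_mul, ← hC g, hs2, Matrix.mul_smul, smul_smul, ← hu, Units.inv_mul,
        one_smul])
  have h20 : (2 : k) ≠ 0 := fun e => hp2 ((CharP.cast_eq_zero_iff (ZMod p) p 2).1
    ((algebraMap (ZMod p) k).injective (by rw [map_natCast, map_zero]; exact_mod_cast e)))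
  have hq : ϖ ^ e ≠ 0 := pow_ne_zero _ hLv.irr.ne_zero
  have hπs : ∀ g, π (s g) = 1 := fun g => by
    have := (hπ.ker _).2 (hs1 g)
    rwa [map_sub, map_one, sub_eq_zero] at this
  have hcj : ∀ g (A : GL (Fin 2) O),
      ((C * A)⁻¹ * ((MulAut.conj C).toMonoidHom.comp ρ') g * (C * A)).val =
        s g • (A⁻¹ * ρ g * A).val := fun g A => by
    have e1 : (C * A)⁻¹ * ((MulAut.conj C).toMonoidHom.comp ρ') g * (C * A) = A⁻¹ * ρ' g * A := by
      simp [mul_assoc]
    rw [e1, Units.val_mul, Units.val_mul, hs2, Units.val_mul, Units.val_mul, Matrix.mul_smul,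
      Matrix.smul_mul]
  have hmod : ∀ g : K.fixingSubgroup, g.1 ∈ F.fixingSubgroup → ∃ d : ℤ_[p],
      (∀ i j, ((ρ₀ g).val - d • (1 : M2 ℤ_[p])) i j ∈ maximalIdeal ℤ_[p]) ∧
      (∀ i j, ((ρ g).val - algebraMap _ O d • (1 : M2 O)) i j ∈ maximalIdeal O) ∧
      ((ρ₀ g).val.map (algebraMap _ O)).map π = π (algebraMap _ O d) • 1 := by
    intro g hg
    obtain ⟨d, Y, -, h4, -⟩ := hg₀.2 g hg
    have h5 : ∀ i j, (ρ₀ g).val i j = (d • (1 : M2 ℤ_[p])) i j + p * (d * Y i j) := fun i j => by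
      rw [h4, smul_add, Matrix.add_apply, Matrix.smul_apply d (_ • Y), Matrix.smul_apply _ Y,
        smul_eq_mul, smul_eq_mul, mul_left_comm]
    have h6 : ∀ i j, algebraMap _ O ((d • (1 : M2 ℤ_[p])) i j) =
        (algebraMap _ O d • (1 : M2 O)) i j := fun i j => by
      by_cases e : i = j <;> simp [e]
    refine ⟨d, fun i j => ?_, fun i j => ?_, ?_⟩
    · rw [Matrix.sub_apply, h5, add_sub_cancel_left]
      exact Ideal.mul_mem_right _ _ hpz
    · convert add_mem (hcong g i j)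
        (Ideal.mul_mem_right (algebraMap _ O (d * Y i j)) _ hpm) using 1
      rw [Matrix.sub_apply, h5, map_add, h6, map_mul, map_natCast]
      ring
    · ext i j
      rw [map_apply, map_apply, h5, map_add, h6, map_add, map_mul _ (p : ℤ_[p]), map_natCast,
        map_mul, (hπ.ker _).2 hpm, zero_mul, add_zero]
      by_cases e : i = j <;> simp [e]
  have hsc : ∀ P (g : K.fixingSubgroup), Iner F P g → Away (K := K) D.o P → IsScal (ρ₀ g) := by
    intro P g hg hA
    obtain ⟨m, hm, h4⟩ := hO₀.fin P g hg (Set.notMem_empty _) hA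
    obtain ⟨d, hd, -⟩ := hmod g hg.2.2
    exact h2 2 _ (ρ₀ g) d m hp2 hpz hd hm.1 h4 hm.2
  have hred : ∀ (A : GL (Fin 2) O) (A' : GL (Fin 2) (ZMod p)),
      (∀ i j, A.val i j - (A'.val i j).val ∈ maximalIdeal O) → GeneralLinearGroup.map π A =
        GeneralLinearGroup.map (algebraMap (ZMod p) k) A' := fun A A' h => by
    ext i j
    have h4 := (hπ.ker _).2 (h i j)
    rw [map_sub, sub_eq_zero, map_natCast, ← map_natCast (algebraMap (ZMod p) k),
      ZMod.natCast_zmod_val] at h4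
    exact h4
  have hred2 : ∀ A : GL (Fin 2) ℤ_[p],
      GeneralLinearGroup.map π (GeneralLinearGroup.map (algebraMap _ O) A) =
        GeneralLinearGroup.map (algebraMap (ZMod p) k)
          (GeneralLinearGroup.map PadicInt.toZMod A) := fun A => by
    ext i j
    exact hπ.comp _
  have hO : ∀ i (g : K.fixingSubgroup), Iner F (D.o i).P g →
      ∀ t, adk (D.o i).A⁻¹ ((Z g).map π) t 0 = 0 := by
    intro i g hg t
    obtain ⟨A, a1, a2⟩ := hLoc.ord i
    obtain ⟨A₀, b1, b2⟩ := hO₀.ord i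
    obtain ⟨g₁, d1, d2⟩ := hDi i
    have hst : g.1 • (D.o i).P = (D.o i).P := Ideal.inertia_le_stabilizer _ hg.2.1
    obtain ⟨d, m1, m2, m3⟩ := hmod g hg.2.2
    have hA₀ : GeneralLinearGroup.map PadicInt.toZMod A₀ = (D.o i).A := by
      ext u v
      have h4 := b1 u v
      rw [← PadicInt.ker_toZMod, RingHom.mem_ker, map_sub, sub_eq_zero, map_natCast,
        ZMod.natCast_zmod_val] at h4
      exact h4
    have hρ : GeneralLinearGroup.map π (ρ g₁) = GeneralLinearGroup.map (algebraMap (ZMod p) k)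
        (GeneralLinearGroup.map PadicInt.toZMod (ρ₀ g₁)) := by
      ext u v
      have h4 := (hπ.ker _).2 (hcong g₁ u v)
      rw [map_sub, sub_eq_zero, hπ.comp] at h4
      exact h4
    have hcb := ((hD.ker g).1 hg.2.2).2
    obtain ⟨m, hm, a3⟩ := (a2 g hst).2 hg
    obtain ⟨m₀, hm₀, b3⟩ := (b2 g hst).2 hg
    have a4 := ord_QvRed h2 h3 hpm (conj_QvRed A _ m2) (a2 g hst).1 hcb _ hm a3
    have b4 := ord_QvRed h2 h3 hpz (conj_QvRed A₀ _ m1) (b2 g hst).1 hcb _ hm₀ b3
    have key := hB O k π hπ.ker h20 (ϖ ^ e) hq (by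
        rw [map_pow, (hπ.ker _).2 ((mem_maximalIdeal _).2 hLv.irr.not_isUnit),
          zero_pow hLv.pos.ne'])
      (C * A) (GeneralLinearGroup.map (algebraMap _ O) A₀) _
      (GeneralLinearGroup.map (algebraMap _ O) (ρ₀ g)) _
      (GeneralLinearGroup.map (algebraMap _ O) (ρ₀ g₁)) (Z g₁) (Z g)
      (algebraMap ℤ_[p] O (cycChar p g ^ (D.o i).w : ℤ_[p]ˣ)) _ (hLv.eq g₁)
      (by rw [hcj, Matrix.smul_apply, (a2 g₁ d1).1, smul_zero])
      (by rw [map_QwRed, (b2 g₁ d1).1, map_zero])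
      (by
        rw [hcj, Matrix.smul_apply, smul_eq_mul, map_mul, hπs, one_mul, ← map_QwRed, ← map_QwRed,
          hred A _ a1, hρ, hred2, hred2, hA₀, map_QwRed, map_QwRed]
        exact fun e => dist_QwRed (had g₁) d2 ((algebraMap (ZMod p) k).injective e))
      (hLv.eq g) (by rw [hcj, Matrix.smul_apply, (a2 g hst).1, smul_zero])
      (by rw [map_QwRed, (b2 g hst).1, map_zero]) m3
      ((hLv.det g).trans (RingHom.map_det _ _))
      (by rw [hcj, Matrix.smul_apply, Matrix.smul_apply, a4, smul_eq_mul, smul_eq_mul,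
        mul_left_comm])
      (by rw [map_QwRed, map_QwRed, b4, map_mul]; rfl) t
    have e1 := hred2 A₀
    rw [hA₀] at e1
    have e2 : ((GeneralLinearGroup.map (algebraMap _ O) A₀)⁻¹).val.map π =
        ((D.o i).A⁻¹).val.map (algebraMap (ZMod p) k) := by
      have e3 := congrArg (fun B => B⁻¹.val) e1
      simp only [← map_inv] at e3
      rw [← map_inv]
      exact e3
    have e4 : (GeneralLinearGroup.map (algebraMap _ O) A₀).val.map π =
        ((D.o i).A).val.map (algebraMap (ZMod p) k) := congrArg Units.val e1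
    rw [← key, ← map_apply (f := π), Matrix.map_mul, Matrix.map_mul, adk, inv_inv, e2, e4]
  have hz0 : ∀ P (g : K.fixingSubgroup), Iner F P g → P.under (𝓞 K) ∉ S →
      Away (K := K) D.o P → (Z g).map π = 0 := by
    intro P g hg hS hA
    obtain ⟨m, hm, h4⟩ := hLoc.fin P g hg hS hA
    obtain ⟨d, -, hd, -⟩ := hmod g hg.2.2
    obtain ⟨d₁, h5⟩ := h2 2 O (ρ g) _ m hp2 hpm hd hm.1 h4 hm.2
    obtain ⟨d₀, h6⟩ := hsc P g hg hA
    have h7 : (ρ₀ g).val.map (algebraMap _ O) = algebraMap _ O d₀ • 1 := by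
      rw [h6]
      ext i j
      by_cases e : i = j <;> simp [e]
    refine scal_QwRed π h20 (d := s g * d₁) (u := algebraMap _ O d₀) hq (fun h0 => ?_) ?_ (htr g)
    · rw [h0, zero_smul] at h7
      exact (GeneralLinearGroup.map (algebraMap _ O) (ρ₀ g)).ne_zero h7
    · rw [← h7, ← hLv.eq g]
      change _ = (C * ρ' g * C⁻¹).val
      rw [Units.val_mul, Units.val_mul, hs2, h5, smul_smul, Matrix.mul_smul, Matrix.smul_mul,
        mul_one, Units.mul_inv]
  obtain ⟨a, b, hab, hrel⟩ := hC K F D hD ρ₀ g₀ hg₀ hO₀.cont O k π hπ _ ϖ e Z hLv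
  obtain ⟨z, hz⟩ : ∃ z : K.fixingSubgroup → M2 k, ∀ g, (Z g).map π = z g := ⟨_, fun _ => rfl⟩
  simp only [hz] at hcoc hnh htr hnc hrel hO hz0
  have hcoc' : ∀ (lam : k →ₗ[ZMod p] ZMod p) g h,
      (z (g * h)).map lam = (z g).map lam + D.ad g ((z h).map lam) := fun lam g h => by
    rw [hcoc, Matrix.map_add _ (map_add lam), adk_QvRed, had]
  have hTg := fun lam => tg_QwRed hD lam (hcoc' lam) hnh htr
  have hu : ∀ (lam : k →ₗ[ZMod p] ZMod p) P g, Iner F P g → Away (K := K) D.o P →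
      (∀ j, ∀ s ∈ K.fixingSubgroup, P ≠ s • (c j).P) → ext_OvRed z lam g = 0 := by
    intro lam P g hg hA hP
    by_cases hS : P.under (𝓞 K) ∈ S
    · refine (hSA P hg.1 hS).resolve_left ?_ _ (hTg lam) 1 (one_mem _) g (by rwa [one_smul])
      rintro ⟨j, s, hs, e⟩
      exact hP j s hs e
    · rw [ext_mk_OvRed z lam (hle hg.2.2), hz0 P ⟨g, hle hg.2.2⟩ hg hS hA,
        Matrix.map_zero _ (map_zero lam)]
  have hbas : ∀ (lam : k →ₗ[ZMod p] ZMod p) i (g : K.fixingSubgroup), Iner F (D.o i).P g → ∀ t,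
      D.bas i ((z g).map lam) t 0 = 0 := fun lam i g hg t => by
    rw [← map_zero lam, ← hO i g hg t, ← map_apply (f := lam), adk_QvRed, cj, inv_inv, Dq.bas]
  have hco := fun j => (hCo K F D hD).2 (c j) (hc j)
  have haw : ∀ P : Ideal OQ, (p : OQ) ∉ P → Away (K := K) D.o P := fun P hN i e => hN (by
    rw [← nat_under_EvRec K, e, nat_under_EvRec K]
    exact (hD.max i).2)
  have hτ : ∀ j, (c j).τ ∈ F.fixingSubgroup := fun j => (hc j).unr (hc j).inert
  have hσ : ∀ j, (c j).σ ^ (c j).m ∈ F.fixingSubgroup := fun j => (hco j).2.1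
  have hin := fun j lam => hI K F D hD (c j) (hc j) _ (hTg lam)
  have hS : ∀ (lam : k →ₗ[ZMod p] ZMod p) u, Sel D F c (0 * u) (ext_OvRed z lam) := fun lam u =>
    ⟨hTg lam, ⟨fun i g hg => by
      rw [ext_mk_OvRed z lam (hle hg.2.2), hbas lam i ⟨g, hle hg.2.2⟩ hg,
        hbas lam i ⟨g, hle hg.2.2⟩ hg]
      simp, fun P g hg hN hA => hu lam P g hg hA fun j s _ e => (hco j).1 (by
        have h4 := smul_nat_EvRec s⁻¹ hN
        rwa [e, inv_smul_smul] at h4)⟩, fun P g hg hN hP => hu lam P g hg (haw P hN) hP⟩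
  have heig := fun j => (hR j).eig ⟨(c j).σ, (hc j).inG⟩
    (Subgroup.mem_sup_left (Subgroup.mem_zpowers _))
  have hx : ∀ j, ∃ x : k, z ⟨(c j).τ, hle (hτ j)⟩ = x • (X j).map (algebraMap (ZMod p) k) :=
    fun j => line_OvRed (hR j).ne fun lam => by
      rw [← ext_mk_OvRed z lam]
      exact (heig j _).1 ((hin j lam).2 ⟨(c j).σ, (hc j).inG⟩ rfl).1
  choose x hx using hx
  have hfx : ∀ (lam : k →ₗ[ZMod p] ZMod p) j, ext_OvRed z lam (c j).τ = lam (x j) • X j :=
    fun lam j => by rw [ext_mk_OvRed z lam (hle (hτ j)), hx, smul_OvRed]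
  have hne : (univ.filter fun j => x j ≠ 0).Nonempty := by
    by_contra h4
    have h5 : ∀ j, x j = 0 := by simpa using h4
    refine hnc (cob_QwRed _ fun lam => ?_)
    simp only [← had]
    refine hSZ _ (hcoc' lam) ?_ (fun g => ?_) (fun P g hg hA => ?_) (hbas lam)
    · filter_upwards [hnh] with g hg
      rw [hg, Matrix.map_zero _ (map_zero lam)]
    · rw [trace_OvRed, htr, map_zero]
    · rw [← ext_coe_OvRed z lam]
      by_cases hP : ∃ j, ∃ s ∈ K.fixingSubgroup, P = s • (c j).P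
      · obtain ⟨j, s, hs, rfl⟩ := hP
        exact (hin j lam).1 (by rw [hfx, h5, map_zero, zero_smul]) s hs g hg
      · exact hu lam P g hg hA fun j s hs e => hP ⟨j, s, hs, e⟩
  have key : ∀ j, x j ≠ 0 → a * ((H j).map (algebraMap (ZMod p) k) *
      z ⟨_, hle (hσ j)⟩).trace +
        b * algebraMap (ZMod p) k (cc g₀ (H j) ((c j).σ ^ (c j).m)) = 0 := by
    intro j hj
    have h4 := hrel (c j).l (c j).m (c j).P ⟨_, hle (hσ j)⟩ ⟨_, hle (hτ j)⟩ (hc j).prime
      (hc j).ne (hc j).mem (hco j).2.2.2.1 (hσ j) (hco j).2.2.2.2.1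
      ⟨(hc j).max, (hc j).inert, hτ j⟩ fun v hv => hsc _ v hv (haw _ (hco j).1)
    have h5 : brk (z ⟨_, hle (hσ j)⟩) ((X j).map (algebraMap (ZMod p) k)) =
        ((H j).map (algebraMap (ZMod p) k) * z ⟨_, hle (hσ j)⟩).trace •
          (X j).map (algebraMap (ZMod p) k) := by
      refine sep_OvRed (p := p) fun lam => ?_
      rw [brk_OvRed, smul_OvRed, ← trace_OvRed, left_OvRed, ← ext_mk_OvRed z lam]
      obtain ⟨d, hd⟩ := (heig j _).2 ((hin j lam).2 ⟨(c j).σ, (hc j).inG⟩ rfl).2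
        ((hTg lam).tr _ (hσ j))
      exact brk_QwRed (hR j) hd
    have h6 : brk (g₀ ((c j).σ ^ (c j).m)) (X j) =
        (H j * g₀ ((c j).σ ^ (c j).m)).trace • X j := by
      obtain ⟨d, hd⟩ := (heig j _).2
        ((hI K F D hD (c j) (hc j) _ hg₀.1).2 ⟨(c j).σ, (hc j).inG⟩ rfl).2 (hg₀.1.tr _ (hσ j))
      exact brk_QwRed (hR j) hd
    have h7 : brk ((g₀ ((c j).σ ^ (c j).m)).map (algebraMap (ZMod p) k))
        ((X j).map (algebraMap (ZMod p) k)) =
        algebraMap (ZMod p) k (H j * g₀ ((c j).σ ^ (c j).m)).trace •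
          (X j).map (algebraMap (ZMod p) k) := by
      rw [brk, ← Matrix.map_mul, ← Matrix.map_mul, ← Matrix.map_sub _ (map_sub _), ← brk, h6]
      ext r s
      simp only [map_apply, Matrix.smul_apply, smul_eq_mul, map_mul]
    have h8 : ∀ M : M2 k, brk M (x j • (X j).map (algebraMap (ZMod p) k)) =
        x j • brk M ((X j).map (algebraMap (ZMod p) k)) := fun M => by
      simp only [brk, Matrix.mul_smul, Matrix.smul_mul, smul_sub]
    rw [hx, h8, h8, h5, h7] at h4
    simp only [smul_smul, ← sub_smul, ← add_smul] at h4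
    have h9 : (X j).map (algebraMap (ZMod p) k) ≠ 0 := fun h => (hR j).ne <| by
      ext r s
      exact (map_eq_zero (algebraMap (ZMod p) k)).1 (congrFun (congrFun h r) s)
    refine mul_left_cancel₀ hj ?_
    rw [mul_zero, ← (smul_eq_zero.1 h4).resolve_right h9, cc, map_sub]
    ring
  have hz0 : x ((univ.filter fun j => x j ≠ 0).max' hne) ≠ 0 :=
    (mem_filter.1 (max'_mem _ hne)).2
  obtain ⟨lam, hlam⟩ : ∃ lam : k →ₗ[ZMod p] ZMod p,
      lam (x ((univ.filter fun j => x j ≠ 0).max' hne)) ≠ 0 := by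
    by_contra h4
    push Not at h4
    exact hz0 ((Module.forall_dual_apply_eq_zero_iff (ZMod p) _).1 h4)
  have ha : a = 1 := hab.resolve_right fun h => by
    have h4 := key _ hz0
    rw [h.1, h.2, zero_mul, zero_add, one_mul, map_eq_zero] at h4
    exact hnz _ h4
  refine ⟨ext_OvRed z lam, fun j => lam (x j), (univ.filter fun j => x j ≠ 0).max' hne,
    univ.filter fun j => j < (univ.filter fun j => x j ≠ 0).max' hne ∧ x j ≠ 0, -lam b, hS lam _,
    hfx lam, hlam, fun j hj => (mem_filter.1 hj).2.1, fun j h4 h5 => ?_, fun j hj => ?_⟩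
  · by_cases h6 : x j = 0
    · simp only [h6, map_zero]
    · exact (h5 (mem_filter.2 ⟨mem_univ _,
        lt_of_le_of_ne (le_max' _ j (mem_filter.2 ⟨mem_univ _, h6⟩)) h4, h6⟩)).elim
  · have h4 := key j (mem_filter.1 hj).2.2
    rw [ha, one_mul, add_eq_zero_iff_eq_neg] at h4
    rw [ext_mk_OvRed z lam (hle (hσ j)), ← left_OvRed, trace_OvRed, h4, map_neg, mul_comm b,
      lam_mul_OvRed]
    ring

end Pool.Agent.MP_f68ac8_nt.Qv
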