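import Mathlib
import Pool.Agent.MP_f68ac8_nt.QvMain
import Pool.Agent.MP_f68ac8_nt.EvKK
import Pool.Agent.MP_f68ac8_nt.EvRam
import Pool.Agent.MP_f68ac8_nt.EvLocAB
import Pool.Agent.MP_f68ac8_nt.EvKum
import Pool.Agent.MP_f68ac8_nt.EvTriv
import Pool.Agent.MP_f68ac8_nt.FvWild
import Pool.Agent.MP_f68ac8_nt.FvMean
import Pool.Agent.MP_f68ac8_nt.OvKey1
import Pool.Agent.MP_f68ac8_nt.OvMu
import Pool.Agent.MP_f68ac8_nt.OvKey2
import Pool.Agent.MP_f68ac8_nt.OvR1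
import Pool.Agent.MP_f68ac8_nt.OvHens
import Pool.Agent.MP_f68ac8_nt.OvMix
import Pool.Agent.MP_f68ac8_nt.OvMixV
import Pool.Agent.MP_f68ac8_nt.OvLocP
import Pool.Agent.MP_f68ac8_nt.OvLocG
import Pool.Agent.MP_f68ac8_nt.OvExt
import Pool.Agent.MP_f68ac8_nt.PvBc
import Pool.Agent.MP_f68ac8_nt.PvEx
import Pool.Agent.MP_f68ac8_nt.PvLat
import Pool.Agent.MP_f68ac8_nt.PvCls
import Pool.Agent.MP_f68ac8_nt.PvCoinv
import Pool.Agent.MP_f68ac8_nt.PvTr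
import Pool.Agent.MP_f68ac8_nt.PvFil
import Pool.Agent.MP_f68ac8_nt.PvSec
import Pool.Agent.MP_f68ac8_nt.PvPerm
import Pool.Agent.MP_f68ac8_nt.PvAlgM
import Pool.Agent.MP_f68ac8_nt.PvGrp
import Pool.Agent.MP_f68ac8_nt.PvMink
import Pool.Agent.MP_f68ac8_nt.PvT
import Pool.Agent.MP_f68ac8_nt.PvSI0
import Pool.Agent.MP_f68ac8_nt.PvSI
import Pool.Agent.MP_f68ac8_nt.PvSmall
import Pool.Agent.MP_f68ac8_nt.QvJ
import Pool.Agent.MP_f68ac8_nt.QvH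
import Pool.Agent.MP_f68ac8_nt.QvPerm2
import Pool.Agent.MP_f68ac8_nt.QvMat1
import Pool.Agent.MP_f68ac8_nt.QvMat
import Pool.Agent.MP_f68ac8_nt.QvTeich
import Pool.Agent.MP_f68ac8_nt.QvEig
import Pool.Agent.MP_f68ac8_nt.QvLocAbs
import Pool.Agent.MP_f68ac8_nt.QvLocC
import Pool.Agent.MP_f68ac8_nt.QvLocV
import Pool.Agent.MP_f68ac8_nt.QvCount
import Pool.Agent.MP_f68ac8_nt.QvStep
import Pool.Agent.MP_f68ac8_nt.QvBs
import Pool.Agent.MP_f68ac8_nt.QvTh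
import Pool.Agent.MP_f68ac8_nt.QvCo
import Pool.Agent.MP_f68ac8_nt.QvIner
import Pool.Agent.MP_f68ac8_nt.QvOrd
import Pool.Agent.MP_f68ac8_nt.QvRecA
import Pool.Agent.MP_f68ac8_nt.QvRecB
import Pool.Agent.MP_f68ac8_nt.QvRec
import Pool.Agent.MP_f68ac8_nt.QvCf
import Pool.Agent.MP_f68ac8_nt.QvSum
import Pool.Agent.MP_f68ac8_nt.QvLoc
import Pool.Agent.MP_f68ac8_nt.QvSet
import Pool.Agent.MP_f68ac8_nt.QvDown
import Pool.Agent.MP_f68ac8_nt.QvDual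
import Pool.Agent.MP_f68ac8_nt.QvTyp
import Pool.Agent.MP_f68ac8_nt.QvLead
import Pool.Agent.MP_f68ac8_nt.QvRed

namespace Pool.Agent.MP_f68ac8_nt.MixedOld

open NumberField Pool.Agent.MP_f68ac8_nt Qv
open scoped MatrixGroups

theorem result (p : ℕ) [Fact p.Prime] (K F : IntermediateField ℚ (AlgebraicClosure ℚ))
    [NumberField K] [NumberField F] (h : K ≤ F) (r : K.fixingSubgroup →* PGL(2, ZMod p))
    (m : ℕ) (o : Fin m → OrdPl p) (hr : MixRes F r o) (hw : Regular F o) (hn : NoTang F r o)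
    (t : ℕ → K.fixingSubgroup)
    (ht : ∀ j, PadicInt.toZMod (cycChar p (t j) : ℤ_[p]) ^ 2 ≠ 1) (d : ℕ) :
    1 - (2 ^ d + d - 1) / p ≤
      idDens (fun j => Typ p K F (t j)) d fun S => S.ncard = d ∧ MixLift F r o S := by
  have hK := Ev.kk_stmt p
  have hW := Ev.wild_stmt
  have hA := Ev.locA_stmt p Ev.ram_stmt
  have hM := Ev.kum_stmt p hK
  have hH := Ev.hens_stmt p
  have h1 := Ev.key1_stmt p
  have h2 := Ev.key2_stmt p (Ev.mu_stmt p)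
  have hX := Ev.mix_stmt p (Ev.r1G_stmt p h1 h2) hH
  have hP := Ev.locP_stmt p Ev.ram_stmt hW hH
  have hV := locV_stmt p hK hW (Ev.triv_stmt p) Ev.ram_stmt hA
  have hN := count_stmt p hW hV
  have hG := gal_stmt p
  have hT := th_stmt p hK
  have hCo := co_stmt p hK hW hV hG
  have hI := iner_stmt p hK hM hV hCo
  have hO := ord_stmt p hK hT hCo hG
  have hRA := recA_stmt p hK
  have hB := Pv.bc_stmt p
  have hE := Pv.ex_stmt p
  have hMat := mat_stmt p (Pv.t_stmt p) (j_stmt p Pv.mink_stmt)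
    (Pv.cls_stmt p hB hE (Pv.lat_stmt p hB hE))
    (h_stmt p (Pv.sI_stmt p (Pv.sI0_stmt p h1 h2))) (Pv.coinv_stmt p hB) (Pv.grp_stmt p)
    (perm2_stmt p) (Pv.alg_stmt p (Pv.tr_stmt p) (Pv.fil_stmt p) (Pv.sec_stmt p) (Pv.perm_stmt p))
    (mat1_stmt p hB)
  exact main8_of (D := ⟨r, m, o⟩) hT hCo hI hO
    (sum_stmt p hK hA hW (Ev.locG_stmt p hK) hCo hG (art_stmt p hW hCo hG hI) hO)
    (cf_stmt p hK hM (rec_stmt p hK hX hP hH hRA
      (recB_stmt p hK (Ev.mixV_stmt p hX hH) hP hH) hG hT))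
    (dual_stmt p hK (set_stmt p hK) hMat
      (loc_stmt p hK (locAbs_stmt p (teich_stmt p) (eig_stmt p)) (locC_stmt p hK) hP hG hT hRA)
      (down_stmt p Ev.ext_stmt) hT hCo hG hV)
    (step_stmt p hN hV Ev.idMean_stmt) (step0_stmt p hN hV Ev.idMean_stmt) (typ_stmt p hW)
    (nz_stmt p) hV Ev.idMean_stmt
    (red_stmt p (lead_stmt p hW) (Pv.small_stmt' p) hI hCo) (bs_stmt p K F _ h hr) hw hn ht d

end Pool.Agent.MP_f68ac8_nt.MixedOld
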