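import Mathlib

/-! Statements used in the analysis of the linking system on three generators with a
Hodge-Tate operator. -/

namespace Pool.Agent.MP_f68ac8_nt.Nahm

open Polynomial Matrix
open scoped LaurentPolynomial Kronecker

/-- a polynomial in `X` read as a polynomial in `T⁻¹` -/
noncomputable def toInv (F : Type) [CommRing F] : F[X] →+* F[T;T⁻¹] :=
  (LaurentPolynomial.invert (R := F)).toRingEquiv.toRingHom.comp toLaurent

/-- the product of `X - a` over the integers `a` with `|a| ≤ K` -/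
noncomputable def gK (K : ℕ) : ℤ[X] := ∏ a ∈ Finset.Icc (-K : ℤ) K, (X - C a)

/-- the degree of a subbundle of a trivial bundle on the projective line -/
def DegStmt (F : Type) [Field F] : Prop :=
  ∀ (n : ℕ) (P Q : Matrix (Fin n) (Fin n) F[X]),
    Q.map (toInv F) * P.map toLaurent = P.map toLaurent →
    P.map toLaurent * Q.map (toInv F) = Q.map (toInv F) →
    ∃ h : ℕ, (h : F) =
      (trace (Q.map (toInv F) * (P.map fun a => X * derivative a).map toLaurent)).coeff 0 ∧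
      (h = 0 → P * P.map (fun a => C (a.coeff 0)) = P.map fun a => C (a.coeff 0))

/-- the normal form of the relations -/
structure Rel {A : Type} [Ring A] (B A0 A1 A2 : A) : Prop where
  r0 : B * A0 - A0 * B = A0
  r1 : B * A1 - A1 * B + (A2 * A0 - A0 * A2) = A1
  r2 : (B - A1) * A2 - A2 * (B - A1) = A2

def AStmt (F : Type) [Field F] : Prop :=
  ∀ (n : ℕ) (B A0 A1 A2 : Matrix (Fin n) (Fin n) F), Rel B A0 A1 A2 →
    ∃ (C0 : Matrix (Fin n) (Fin n) F) (K : ℕ), Commute C0 B ∧ Commute C0 A0 ∧ Commute C0 A1 ∧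
      Commute C0 A2 ∧ aeval ((B - C0).map C + (X : F[X]) • A2.map C) (gK K) = 0

def BStmt (F : Type) [Field F] : Prop :=
  ∀ (n K : ℕ) (B A0 A1 A2 : Matrix (Fin n) (Fin n) F), Rel B A0 A1 A2 →
    aeval (B.map C + (X : F[X]) • A2.map C) (gK K) = 0 →
    ∃ h : ℕ, trace (A0 * A2) = -(h : F) ∧
      (h = 0 → 0 < n → ∃ v : Fin n → F, v ≠ 0 ∧ A0 *ᵥ v = 0 ∧ A1 *ᵥ v = 0 ∧ A2 *ᵥ v = 0)

/-- the linking system with an extra generator -/
def Sys {R A : Type} [CommRing R] [Ring A] [Algebra R A] (m : Matrix (Fin 3) (Fin 3) R) (z : A)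
    (x : Fin 3 → A) : Prop :=
  ∀ i, (z + ∑ j, m i j • x j) * x i - x i * (z + ∑ j, m i j • x j) = x i

def IrrStmt (F : Type) [Field F] : Prop :=
  ∀ m : Matrix (Fin 3) (Fin 3) F, (AlgebraicIndependent ℤ fun s : Fin 3 × Fin 3 => m s.1 s.2) →
    ∀ (n : ℕ) (z : Matrix (Fin n) (Fin n) F) (x : Fin 3 → Matrix (Fin n) (Fin n) F), 0 < n →
      Sys m z x →
      (∀ W : Submodule F (Fin n → F), (∀ w ∈ W, z *ᵥ w ∈ W) → (∀ i, ∀ w ∈ W, x i *ᵥ w ∈ W) →
        W = ⊥ ∨ W = ⊤) →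
      ∀ (γ : F) (K N : ℕ), aeval (z - γ • (1 : Matrix (Fin n) (Fin n) F)) (gK K ^ N) = 0 →
        ∃ v : Fin n → F, v ≠ 0 ∧ ∀ i, x i *ᵥ v = 0

/-- the matrix of `y ↦ z * y - y * z` -/
def adm {R : Type} [CommRing R] {n : ℕ} (z : Matrix (Fin n) (Fin n) R) :
    Matrix (Fin n × Fin n) (Fin n × Fin n) R :=
  z ⊗ₖ (1 : Matrix (Fin n) (Fin n) R) - (1 : Matrix (Fin n) (Fin n) R) ⊗ₖ zᵀ

def WordsStmt (F : Type) [Field F] : Prop :=
  ∀ m : Matrix (Fin 3) (Fin 3) F, (AlgebraicIndependent ℤ fun s : Fin 3 × Fin 3 => m s.1 s.2) →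
    ∀ (n K : ℕ) (z : Matrix (Fin n) (Fin n) F) (x : Fin 3 → Matrix (Fin n) (Fin n) F),
      Sys m z x → aeval (adm z) (gK K) = 0 →
        ∀ w : List (Fin 3), w.length = n → (w.map x).prod = 0

/-- the two-sided ideal generated by the `x i` in the algebra generated by `T` -/
def idl {R A : Type} [CommRing R] [Ring A] [Algebra R A] (T : Set A) (x : Fin 3 → A) :
    Submodule R A :=
  Subalgebra.toSubmodule (Algebra.adjoin R T) * Submodule.span R (Set.range x) *
    Subalgebra.toSubmodule (Algebra.adjoin R T)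

end Pool.Agent.MP_f68ac8_nt.Nahm
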