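import Mathlib
import Pool.Agent.MP_f68ac8_nt.NahmDefs
import Pool.Agent.MP_f68ac8_nt.Der

/-! Splitting off a constant matrix which commutes with everything. -/

namespace Pool.Agent.MP_f68ac8_nt.Nahm

open Polynomial Matrix
open scoped LaurentPolynomial Kronecker

theorem pow_comm_NahmA {A : Type} [Ring A] {H N : A} (h : H * N - N * H = N) (k : ℕ) :
    H * N ^ k = N ^ k * H + (k : A) * N ^ k := by
  induction k with
  | zero => simp
  | succ k ih =>
    have h1 : H * N = N * H + N := sub_eq_iff_eq_add'.1 h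
    rw [pow_succ, ← mul_assoc, ih, add_mul, mul_assoc (N ^ k) H N, h1]
    push_cast
    noncomm_ring

theorem exp_conj_NahmA {A : Type} [Ring A] [Algebra ℚ A] {N : A} (hN : IsNilpotent N) :
    ∃ u : A, IsUnit u ∧ ∀ H : A, H * N - N * H = N → (H - N) * u = u * H := by
  refine ⟨IsNilpotent.exp N, IsNilpotent.isUnit_exp hN, fun H h => ?_⟩
  obtain ⟨m, hm⟩ := hN
  have hm1 : N ^ (m + 1) = 0 := by rw [pow_succ, hm, zero_mul]
  have e1 : N * IsNilpotent.exp N =
      ∑ i ∈ Finset.range (m + 1), (i.factorial : ℚ)⁻¹ • ((i : A) * N ^ i) := by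
    rw [IsNilpotent.exp_eq_sum hm, Finset.sum_range_succ', Finset.mul_sum]
    simp only [Nat.cast_zero, zero_mul, smul_zero, add_zero]
    refine Finset.sum_congr rfl fun i _ => ?_
    have : ((i + 1 : ℕ) : A) * N ^ (i + 1) = ((i + 1 : ℕ) : ℚ) • N ^ (i + 1) := by
      rw [Nat.cast_smul_eq_nsmul, nsmul_eq_mul]
    rw [this, smul_smul, mul_smul_comm, ← pow_succ', Nat.factorial_succ]
    congr 1
    have h1 : (i.factorial : ℚ) ≠ 0 := Nat.cast_ne_zero.2 (Nat.factorial_ne_zero i)
    push_cast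
    field_simp
  rw [sub_mul, e1, IsNilpotent.exp_eq_sum hm1, Finset.mul_sum, Finset.sum_mul,
    ← Finset.sum_sub_distrib]
  refine Finset.sum_congr rfl fun i _ => ?_
  rw [mul_smul_comm, smul_mul_assoc, ← smul_sub, pow_comm_NahmA h, add_sub_cancel_right]

theorem aeval_conj_NahmA {F A : Type} [CommRing F] [Ring A] [Algebra F A] {x y u : A}
    (h : x * u = u * y) (f : F[X]) : aeval x f * u = u * aeval y f := by
  induction f using Polynomial.induction_on with
  | C a => simp [Algebra.commutes]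
  | add p q hp hq => rw [map_add, map_add, add_mul, mul_add, hp, hq]
  | monomial k a ih =>
    rw [pow_succ, ← mul_assoc, map_mul _ _ X, map_mul _ _ X, aeval_X, aeval_X, mul_assoc, h,
      ← mul_assoc, ih, mul_assoc]

theorem exists_w_NahmA (F : Type) [Field F] [CharZero F] :
    ∃ w : F → ℤ, ∀ β, w (β + 1) = w β + 1 := by
  let G := AddSubgroup.zmultiples (1 : F)
  have key : ∀ β : F, ∃ k : ℤ, (k : F) = β - (QuotientAddGroup.mk β : F ⧸ G).out := by
    intro β
    have h1 : (QuotientAddGroup.mk (QuotientAddGroup.mk β : F ⧸ G).out : F ⧸ G) =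
        QuotientAddGroup.mk β := Quotient.out_eq _
    rw [QuotientAddGroup.eq] at h1
    obtain ⟨k, hk⟩ := AddSubgroup.mem_zmultiples_iff.1 h1
    refine ⟨k, ?_⟩
    rw [zsmul_one] at hk
    rw [hk]; ring
  choose w hw using key
  refine ⟨w, fun β => ?_⟩
  have h1 : (QuotientAddGroup.mk (β + 1) : F ⧸ G) = QuotientAddGroup.mk β := by
    symm
    rw [QuotientAddGroup.eq]
    rw [neg_add_cancel_left]
    exact AddSubgroup.mem_zmultiples (1 : F)
  have h2 := hw (β + 1)
  rw [h1] at h2
  have h3 := hw β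
  apply Int.cast_injective (α := F)
  push_cast
  rw [h2, h3]; ring

theorem dvd_of_roots_NahmA {F : Type} [Field F] [IsAlgClosed F] {d φ : F[X]} (hd : d ≠ 0) {m : ℕ}
    (hm : d.natDegree ≤ m) (h : ∀ β, d.IsRoot β → (X - C β) ^ m ∣ φ) : d ∣ φ := by
  classical
  by_cases h0 : φ = 0
  · simp [h0]
  refine (IsAlgClosed.splits d).dvd_of_roots_le_roots hd (Multiset.le_iff_count.2 fun β => ?_)
  by_cases hβ : d.IsRoot β
  · rw [count_roots φ]
    refine le_trans ?_ ((le_rootMultiplicity_iff h0).2 (h β hβ))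
    exact (Multiset.count_le_card _ _).trans ((card_roots' d).trans hm)
  · rw [count_roots d, rootMultiplicity_eq_zero hβ]
    exact Nat.zero_le _

theorem exists_q_NahmA {F : Type} [Field F] [CharZero F] [IsAlgClosed F] {χ : F[X]}
    (hχ : χ ≠ 0) : ∃ (q : F[X]) (K : ℕ), χ ∣ aeval q (gK K) ∧
      ∀ d : F[X], d ∣ χ → d ∣ χ.comp (X + 1) → d ∣ q.comp (X + 1) - q - 1 := by
  classical
  obtain ⟨w, hw⟩ := exists_w_NahmA F
  set m := χ.natDegree
  let s := χ.roots.toFinset
  have hco : Pairwise (Function.onFun IsCoprime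
      fun β : s => Ideal.span {(X - C (β : F)) ^ m}) := by
    intro a b hab
    rw [Function.onFun, Ideal.isCoprime_span_singleton_iff]
    exact (pairwise_coprime_X_sub_C (s := fun β : s => (β : F)) Subtype.val_injective hab).pow
  obtain ⟨q, hq⟩ := Ideal.exists_forall_sub_mem_ideal hco fun β : s => C (w β : F)
  have hq' : ∀ β, χ.IsRoot β → (X - C β) ^ m ∣ q - C (w β : F) := fun β hβ =>
    Ideal.mem_span_singleton.1 (hq ⟨β, Multiset.mem_toFinset.2 ((mem_roots hχ).2 hβ)⟩)
  refine ⟨q, s.sup fun β => (w β).natAbs, ?_, fun d hd hd1 => ?_⟩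
  · refine dvd_of_roots_NahmA hχ le_rfl fun β hβ => (hq' β hβ).trans ?_
    have hle : (w β).natAbs ≤ s.sup fun β => (w β).natAbs :=
      Finset.le_sup (f := fun β => (w β).natAbs) (Multiset.mem_toFinset.2 ((mem_roots hχ).2 hβ))
    rw [gK, map_prod]
    have hmem : w β ∈ Finset.Icc (-((s.sup fun β => (w β).natAbs : ℕ) : ℤ))
        ((s.sup fun β => (w β).natAbs : ℕ) : ℤ) := by
      rw [Finset.mem_Icc]; omega
    refine Dvd.dvd.trans ?_ (Finset.dvd_prod_of_mem _ hmem)
    simp
  · have hd0 : d ≠ 0 := ne_zero_of_dvd_ne_zero hχ hd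
    refine dvd_of_roots_NahmA hd0 (natDegree_le_of_dvd hd hχ) fun β hβ => ?_
    have h1 : χ.IsRoot β := hβ.dvd hd
    have h2 : χ.IsRoot (β + 1) := by
      have := hβ.dvd hd1
      simpa [IsRoot, eval_comp] using this
    have h3 := hq' β h1
    obtain ⟨e, he⟩ := hq' (β + 1) h2
    have h4 : (X - C β) ^ m ∣ q.comp (X + 1) - C (w β : F) - 1 := by
      refine ⟨e.comp (X + 1), ?_⟩
      have := congrArg (fun p : F[X] => p.comp (X + 1)) he
      simp only [sub_comp, C_comp, mul_comp, pow_comp, X_comp, hw] at this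
      rw [show (X : F[X]) + 1 - C (β + 1) = X - C β by rw [map_add, map_one]; ring] at this
      rw [← this]
      push_cast
      rw [map_add, map_one]; ring
    have h5 := dvd_sub h4 h3
    rwa [show q.comp (X + 1) - C (w β : F) - 1 - (q - C (w β : F)) = q.comp (X + 1) - q - 1 by
      ring] at h5

theorem comm_q_NahmA {F A : Type} [Field F] [Ring A] [Algebra F A] {H N : A}
    (h : H * N - N * H = N) {χ q : F[X]} (hχ : aeval H χ = 0)
    (hq : ∀ d : F[X], d ∣ χ → d ∣ χ.comp (X + 1) → d ∣ q.comp (X + 1) - q - 1) :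
    aeval H q * N - N * aeval H q = N := by
  classical
  have h1 : H * N = N * (H + 1) := by rw [mul_add, mul_one]; exact sub_eq_iff_eq_add'.1 h
  have h2 : ∀ f : F[X], aeval H f * N = N * aeval H (f.comp (X + 1)) := by
    intro f
    rw [aeval_comp, map_add, aeval_X, map_one]
    exact aeval_conj_NahmA h1 f
  obtain ⟨e, he⟩ := hq _ (EuclideanDomain.gcd_dvd_left χ (χ.comp (X + 1)))
    (EuclideanDomain.gcd_dvd_right χ (χ.comp (X + 1)))
  rw [EuclideanDomain.gcd_eq_gcd_ab] at he
  have h3 : N * aeval H (q.comp (X + 1) - q - 1) = 0 := by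
    rw [he, map_mul, map_add, map_mul, map_mul, hχ, zero_mul, zero_add, ← mul_assoc, ← mul_assoc,
      ← h2, hχ]
    simp
  rw [map_sub, map_sub, map_one, mul_sub, mul_sub, ← h2, mul_one] at h3
  exact sub_eq_zero.1 h3

theorem const_NahmA {F : Type} [CommRing F] {a b : F[X]} (h : toLaurent a = toInv F b) :
    a = C (a.coeff 0) := by
  have key : ∀ b : F[X], LaurentPolynomial.trunc (toInv F b) = C (b.coeff 0) := by
    intro b
    induction b using Polynomial.induction_on' with
    | add p q hp hq => rw [map_add, map_add, hp, hq, coeff_add, map_add]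
    | monomial k c =>
      have : toInv F (monomial k c) = LaurentPolynomial.C c * LaurentPolynomial.T (-(k : ℤ)) := by
        simp [toInv]
      rw [this, LaurentPolynomial.trunc_C_mul_T]
      rcases k with _ | k
      · simp
      · rw [if_neg (by omega), coeff_monomial, if_neg (by omega), map_zero]
  have h1 : a = C (b.coeff 0) := by rw [← key, ← h, trunc_toLaurent]
  rw [h1, coeff_C_zero]

theorem sep_NahmA {F : Type} [CommRing F] {n : ℕ} {U V W : Matrix (Fin n) (Fin n) F}
    (h : (LaurentPolynomial.T (-1) : F[T;T⁻¹]) • U.map LaurentPolynomial.C +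
      V.map LaurentPolynomial.C + (LaurentPolynomial.T 1 : F[T;T⁻¹]) • W.map LaurentPolynomial.C
      = 0) : U = 0 ∧ V = 0 ∧ W = 0 := by
  have key : ∀ i j, U i j = 0 ∧ V i j = 0 ∧ W i j = 0 := by
    intro i j
    have h1 := congrFun (congrFun h i) j
    simp only [Matrix.add_apply, Matrix.smul_apply, Matrix.map_apply, smul_eq_mul,
      Matrix.zero_apply] at h1
    have h2 : toLaurent (C (U i j) + C (V i j) * X + C (W i j) * X ^ 2) = 0 := by
      have e1 : (LaurentPolynomial.T 1 * LaurentPolynomial.T (-1) : F[T;T⁻¹]) = 1 := by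
        rw [← LaurentPolynomial.T_add]; simp
      simp only [map_add, map_mul, map_pow, toLaurent_C, toLaurent_X]
      linear_combination (LaurentPolynomial.T 1 : F[T;T⁻¹]) * h1 -
        LaurentPolynomial.C (U i j) * e1
    have h3 : C (U i j) + C (V i j) * X + C (W i j) * X ^ 2 = 0 :=
      toLaurent_injective (by rw [h2, map_zero])
    have c0 := congrArg (fun p : F[X] => p.coeff 0) h3
    have c1 := congrArg (fun p : F[X] => p.coeff 1) h3
    have c2 := congrArg (fun p : F[X] => p.coeff 2) h3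
    simp [coeff_X, coeff_C, coeff_X_pow] at c0 c1 c2
    exact ⟨c0, c1, c2⟩
  exact ⟨Matrix.ext fun i j => (key i j).1, Matrix.ext fun i j => (key i j).2.1,
    Matrix.ext fun i j => (key i j).2.2⟩

theorem nil_NahmA {F : Type} [Field F] [CharZero F] {n : ℕ}
    {H N : Matrix (Fin n) (Fin n) F[T;T⁻¹]} (h : H * N - N * H = N) : IsNilpotent N := by
  let K := FractionRing F[T;T⁻¹]
  have hinj : Function.Injective (algebraMap F[T;T⁻¹] K) := IsFractionRing.injective _ _
  have : CharZero K := RingHom.charZero_iff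
    ((algebraMap F[T;T⁻¹] K).comp LaurentPolynomial.C).injective |>.1 inferInstance
  let f : Matrix (Fin n) (Fin n) F[T;T⁻¹] →+* Matrix (Fin n) (Fin n) K :=
    (algebraMap F[T;T⁻¹] K).mapMatrix
  have hf : Function.Injective f := Matrix.map_injective hinj
  have h1 : f H * f N - f N * f H = f N := by rw [← map_mul, ← map_mul, ← map_sub, h]
  obtain ⟨k, hk⟩ := nil_of_br h1
  exact ⟨k, hf (by rw [map_pow, hk, map_zero])⟩

theorem a_stmt (F : Type) [Field F] [CharZero F] [IsAlgClosed F] : AStmt F := by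
  intro n B A0 A1 A2 hR
  let ι : Matrix (Fin n) (Fin n) F →+* Matrix (Fin n) (Fin n) F[T;T⁻¹] :=
    (LaurentPolynomial.C : F →+* F[T;T⁻¹]).mapMatrix
  let t : F[T;T⁻¹] := LaurentPolynomial.T 1
  let t' : F[T;T⁻¹] := LaurentPolynomial.T (-1)
  have htt : t * t' = 1 := by
    simp only [t, t']; rw [← LaurentPolynomial.T_add]; simp
  let H : Matrix (Fin n) (Fin n) F[T;T⁻¹] := ι B + t • ι A2
  let N : Matrix (Fin n) (Fin n) F[T;T⁻¹] := t' • ι A0 + ι A1 + t • ι A2
  have hHN : H * N - N * H = N := by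
    have r0 := congrArg ι hR.r0
    have r1 := congrArg ι hR.r1
    have r2 := congrArg ι hR.r2
    simp only [map_sub, map_mul, map_add] at r0 r1 r2
    have e : H * N - N * H = t' • (ι B * ι A0 - ι A0 * ι B) +
        (ι B * ι A1 - ι A1 * ι B + (t * t') • (ι A2 * ι A0 - ι A0 * ι A2)) +
        t • ((ι B - ι A1) * ι A2 - ι A2 * (ι B - ι A1)) := by
      simp only [H, N, add_mul, mul_add, sub_mul, mul_sub, smul_mul_assoc, mul_smul_comm,
        smul_add, smul_sub, smul_smul]
      module
    rw [e, htt, one_smul, r0, r1, r2]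
  let a0 : F[X] →ₐ[F] F[T;T⁻¹] := toLaurentAlg
  let a1 : F[X] →ₐ[F] F[T;T⁻¹] := (LaurentPolynomial.invert (R := F)).toAlgHom.comp toLaurentAlg
  have ha0 : ∀ p, a0 p = toLaurent p := fun _ => rfl
  have ha1 : ∀ p, a1 p = toInv F p := fun _ => rfl
  let P0 : Matrix (Fin n) (Fin n) F[X] := B.map C + (X : F[X]) • A2.map C
  let P1 : Matrix (Fin n) (Fin n) F[X] := (B - A1).map C - (X : F[X]) • A0.map C
  have hP0 : a0.mapMatrix P0 = H := by
    ext i j : 2
    simp [P0, H, ι, t, ha0]
  have hP1 : a1.mapMatrix P1 = H - N := by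
    ext i j : 2
    simp [P1, H, N, ι, t, t', ha1, toInv]
    ring
  obtain ⟨u, hu, hconj⟩ := exp_conj_NahmA (nil_NahmA hHN)
  obtain ⟨u, rfl⟩ := hu
  have hch : (H - N).charpoly = H.charpoly := by
    have : H - N = u.val * H * u⁻¹.val := by
      rw [← hconj H hHN, mul_assoc, Units.mul_inv, mul_one]
    rw [this, charpoly_mul_comm, ← mul_assoc, Units.inv_mul, one_mul]
  let χ : F[X] := P0.charpoly.map constantCoeff
  have hχm : χ.Monic := P0.charpoly_monic.map _
  have hχP : χ.map C = P0.charpoly := by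
    ext k : 1
    have e0 : H.charpoly = P0.charpoly.map toLaurent := by
      rw [← hP0, ← charpoly_map]; rfl
    have e1 : (H - N).charpoly = P1.charpoly.map (toInv F) := by
      rw [← hP1, ← charpoly_map]; rfl
    have e2 := congrArg (fun p => Polynomial.coeff p k) (e0.symm.trans (hch.symm.trans e1))
    simp only [coeff_map] at e2
    rw [coeff_map, coeff_map, constantCoeff_apply]
    exact (const_NahmA e2).symm
  have hχ0 : aeval P0 χ = 0 := by
    have := P0.aeval_self_charpoly
    rw [← hχP, ← algebraMap_eq, aeval_map_algebraMap] at this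
    exact this
  have hχH : aeval H χ = 0 := by
    rw [← hP0, aeval_algHom_apply, hχ0, map_zero]
  obtain ⟨q, K, hqK, hq⟩ := exists_q_NahmA hχm.ne_zero
  have hS := comm_q_NahmA hHN hχH hq
  have hq1 : aeval (H - N) q = aeval H q - N := by
    have h1 := aeval_conj_NahmA (hconj H hHN) q
    rw [← hconj _ hS] at h1
    exact (Units.mul_left_inj u).1 h1
  have hE : a0.mapMatrix (P0 - aeval P0 q) = a1.mapMatrix (P1 - aeval P1 q) := by
    rw [map_sub, map_sub, ← aeval_algHom_apply, ← aeval_algHom_apply, hP0, hP1, hq1]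
    abel
  let C0 : Matrix (Fin n) (Fin n) F := (P0 - aeval P0 q).map fun a => a.coeff 0
  have hC0 : C0.map C = P0 - aeval P0 q := by
    refine Matrix.ext fun i j => ?_
    have := congrFun (congrFun hE i) j
    exact (const_NahmA this).symm
  have hι : ι C0 = H - aeval H q := by
    rw [← hP0, aeval_algHom_apply, ← map_sub, ← hC0]
    ext i j : 2
    simp [ι, ha0]
  have hcH : ι C0 * H - H * ι C0 = 0 := by
    have := aeval_conj_NahmA (rfl : H * H = H * H) q
    rw [hι, sub_mul, mul_sub, this, sub_self]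
  have hcN : ι C0 * N - N * ι C0 = 0 := by
    rw [hι, sub_mul, mul_sub, sub_sub_sub_comm, hHN, hS, sub_self]
  have s1 := sep_NahmA (U := 0) (V := C0 * B - B * C0) (W := C0 * A2 - A2 * C0) (by
    change t' • ι 0 + ι (C0 * B - B * C0) + t • ι (C0 * A2 - A2 * C0) = 0
    rw [← hcH]
    simp only [H, map_zero, map_sub, map_mul, add_mul, mul_add, smul_mul_assoc, mul_smul_comm,
      smul_sub, smul_zero]
    abel)
  have s2 := sep_NahmA (U := C0 * A0 - A0 * C0) (V := C0 * A1 - A1 * C0)
    (W := C0 * A2 - A2 * C0) (by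
    change t' • ι (C0 * A0 - A0 * C0) + ι (C0 * A1 - A1 * C0) + t • ι (C0 * A2 - A2 * C0) = 0
    rw [← hcN]
    simp only [N, map_sub, map_mul, add_mul, mul_add, smul_mul_assoc, mul_smul_comm, smul_sub]
    abel)
  refine ⟨C0, K, sub_eq_zero.1 s1.2.1, sub_eq_zero.1 s2.1, sub_eq_zero.1 s2.2.1,
    sub_eq_zero.1 s1.2.2, ?_⟩
  have hfin : (B - C0).map C + (X : F[X]) • A2.map C = aeval P0 q := by
    rw [Matrix.map_sub _ (map_sub C), hC0]
    simp only [P0]
    abel
  obtain ⟨e, he⟩ := hqK
  have h5 := aeval_algHom_apply ((aeval P0 : F[X] →ₐ[F] _).toRingHom.toIntAlgHom) q (gK K)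
  rw [hfin]
  refine h5.trans ?_
  change aeval P0 (aeval q (gK K)) = 0
  rw [he, map_mul, hχ0, zero_mul]

end Pool.Agent.MP_f68ac8_nt.Nahm
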