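import Mathlib
import Pool.Agent.MP_f68ac8_nt.NahmDefs
import Pool.Agent.MP_f68ac8_nt.Der

/-! The trace of `A0 * A2` is minus a sum of degrees. -/

namespace Pool.Agent.MP_f68ac8_nt.Nahm
open Polynomial Matrix
open scoped LaurentPolynomial Kronecker

section abs

variable {F : Type} [Field F] [CharZero F] {A : Type} [Ring A] [Algebra F A]

/-- the product of the linear factors with roots in `I` -/
noncomputable def pr_NahmB (F : Type) [Field F] (I : Finset ℤ) : F[X] :=
  ∏ a ∈ I, (X - C (a : F))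

lemma dvd_NahmB (I : Finset ℤ) (f : F[X]) (hf : ∀ a ∈ I, f.eval (a : F) = 0) :
    pr_NahmB F I ∣ f :=
  Finset.prod_dvd_of_coprime
    ((pairwise_coprime_X_sub_C (s := fun a : ℤ => (a : F)) Int.cast_injective).set_pairwise _)
    fun a ha => dvd_iff_isRoot.2 (hf a ha)

omit [CharZero F] in
lemma gK_NahmB [inst : Algebra ℤ A] (s : A) (K : ℕ) :
    aeval s (gK K) = aeval s (pr_NahmB F (Finset.Icc (-K : ℤ) K)) := by
  obtain rfl : inst = Ring.toIntAlgebra A := Subsingleton.elim _ _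
  rw [← aeval_map_algebraMap F s (gK K)]
  congr 1
  simp [gK, pr_NahmB, Polynomial.map_prod]

lemma van_NahmB {I : Finset ℤ} {s : A} (hs : aeval s (pr_NahmB F I) = 0) {f : F[X]}
    (hf : ∀ a ∈ I, f.eval (a : F) = 0) : aeval s f = 0 := by
  obtain ⟨r, rfl⟩ := dvd_NahmB I f hf
  rw [map_mul, hs, zero_mul]

lemma van_eq_NahmB {I : Finset ℤ} {s : A} (hs : aeval s (pr_NahmB F I) = 0) {f g : F[X]}
    (hf : ∀ a ∈ I, f.eval (a : F) = g.eval (a : F)) : aeval s f = aeval s g := by
  rw [← sub_eq_zero, ← map_sub]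
  exact van_NahmB hs fun a ha => by rw [eval_sub, hf a ha, sub_self]

lemma interp_NahmB (I : Finset ℤ) (r : ℤ → F) :
    ∃ f : F[X], ∀ a ∈ I, f.eval (a : F) = r a :=
  ⟨Lagrange.interpolate I (fun a : ℤ => (a : F)) r, fun _ ha =>
    Lagrange.eval_interpolate_at_node r Int.cast_injective.injOn ha⟩

omit [CharZero F] in
lemma shift_NahmB {s N : A} (h : s * N - N * s = N) (f : F[X]) :
    aeval s f * N = N * aeval s (f.comp (X + 1)) := by
  have h1 : s * N = N * (s + 1) := by rw [mul_add, mul_one, ← sub_eq_iff_eq_add']; exact h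
  induction f using Polynomial.induction_on with
  | C a => simp [Algebra.commutes]
  | add p q hp hq => simp [add_mul, mul_add, hp, hq]
  | monomial n a ih =>
    rw [pow_succ, ← mul_assoc, map_mul, aeval_X, mul_assoc, h1, ← mul_assoc, ih, mul_comp _ X,
      map_mul, X_comp, map_add, aeval_X, map_one, mul_assoc]

/-- a derivation is inner on the algebra generated by a semisimple element -/
lemma inner_NahmB {I : Finset ℤ} {s : A} (hs : aeval s (pr_NahmB F I) = 0) (θ : A →ₗ[F] A)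
    (hθ : ∀ x y, θ (x * y) = θ x * y + x * θ y) :
    ∃ b : A, ∀ f : F[X], θ (aeval s f) = b * aeval s f - aeval s f * b := by
  choose e he using fun β : ℤ => interp_NahmB (F := F) I fun γ => if β = γ then 1 else 0
  obtain ⟨p, hp⟩ : ∃ p : ℤ → A, p = fun β => aeval s (e β) := ⟨_, rfl⟩
  have h1 : ∀ f : F[X], aeval s f = ∑ β ∈ I, f.eval (β : F) • p β := by
    intro f
    simp only [hp, ← map_smul, ← map_sum]
    refine van_eq_NahmB hs fun a ha => ?_
    simp [eval_finsetSum, he _ a ha, ha]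
  have h2 : ∀ α β, p α * p β = if α = β then p β else 0 := by
    intro α β
    simp only [hp, ← map_mul]
    split_ifs with hab
    · refine van_eq_NahmB hs fun a ha => ?_
      rw [eval_mul, hab, he _ a ha]
      split_ifs <;> simp
    · refine van_NahmB hs fun a ha => ?_
      rw [eval_mul, he _ a ha, he _ a ha]
      split_ifs with h1 h2
      · exact absurd (h1.trans h2.symm) hab
      all_goals simp
  have h3 : ∑ β ∈ I, p β = 1 := by simpa using (h1 1).symm
  have h4 : ∀ γ ∈ I, θ (p γ) =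
      (∑ β ∈ I, θ (p β) * p β) * p γ - p γ * ∑ β ∈ I, θ (p β) * p β := by
    intro γ hγ
    have e1 : (∑ β ∈ I, θ (p β) * p β) * p γ = θ (p γ) * p γ := by
      simp [Finset.sum_mul, mul_assoc, h2, hγ]
    have e2 : ∀ β, p γ * (θ (p β) * p β) =
        (if γ = β then θ (p β) * p β else 0) - θ (p γ) * p β := by
      intro β
      have e3 : p γ * θ (p β) = θ (p γ * p β) - θ (p γ) * p β := by rw [hθ]; abel
      have e4 : p β * p β = p β := by rw [h2, if_pos rfl]
      rw [← mul_assoc, e3, sub_mul, mul_assoc, e4, h2]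
      split_ifs <;> simp
    rw [e1, Finset.mul_sum, Finset.sum_congr rfl fun β _ => e2 β, Finset.sum_sub_distrib,
      ← Finset.mul_sum, h3]
    simp [hγ]
  refine ⟨∑ β ∈ I, θ (p β) * p β, fun f => ?_⟩
  generalize ∑ β ∈ I, θ (p β) * p β = b at h4
  rw [h1 f, map_sum, Finset.mul_sum, Finset.sum_mul, ← Finset.sum_sub_distrib]
  refine Finset.sum_congr rfl fun γ hγ => ?_
  rw [map_smul, h4 γ hγ, smul_sub, mul_smul_comm, smul_mul_assoc]

variable {K : ℕ} {E : ℤ → F[X]}
  (hE : ∀ j, ∀ β ∈ Finset.Icc (-K : ℤ) (K + 1), (E j).eval (β : F) = if j ≤ β then 1 else 0)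
include hE

omit [CharZero F] in
lemma ev_NahmB (j : ℤ) {β : ℤ} (hβ : β ∈ Finset.Icc (-K : ℤ) K) :
    (E j).eval (β : F) = if j ≤ β then 1 else 0 :=
  hE j β (by rw [Finset.mem_Icc] at hβ ⊢; omega)

lemma sum_NahmB {s : A} (hs : aeval s (pr_NahmB F (Finset.Icc (-K : ℤ) K)) = 0) :
    ∑ j ∈ Finset.Icc (-K : ℤ) K, aeval s (E j) = s + algebraMap F A (K + 1) := by
  rw [← map_sum, van_eq_NahmB hs (g := X + C ((K : F) + 1)) fun β hβ => ?_]
  · rw [map_add, aeval_X, aeval_C]
  rw [eval_finsetSum, Finset.sum_congr rfl fun j _ => ev_NahmB hE j hβ, Finset.sum_boole]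
  rw [Finset.mem_Icc] at hβ
  have : (Finset.Icc (-K : ℤ) K).filter (fun j => j ≤ β) = Finset.Icc (-K : ℤ) β := by
    ext j
    simp only [Finset.mem_filter, Finset.mem_Icc]
    omega
  rw [this, Int.card_Icc, ← Int.cast_natCast, Int.toNat_of_nonneg (by omega)]
  simp
  ring

variable {s N : A} (hs : aeval s (pr_NahmB F (Finset.Icc (-K : ℤ) K)) = 0)
include hs

lemma idem_NahmB (j : ℤ) : (1 - aeval s (E j)) * aeval s (E j) = 0 := by
  have : aeval s ((1 - E j) * E j) = 0 := van_NahmB hs fun β hβ => by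
    rw [eval_mul, eval_sub, eval_one, ev_NahmB hE j hβ]
    split_ifs <;> simp
  simpa using this

lemma top_NahmB : aeval s (E (K + 1)) = 0 := van_NahmB hs fun β hβ => by
  rw [ev_NahmB hE _ hβ, if_neg]
  rw [Finset.mem_Icc] at hβ
  omega

lemma bot_NahmB : aeval s (E (-K)) = 1 := by
  rw [van_eq_NahmB hs (g := 1) fun β hβ => ?_, map_one]
  rw [ev_NahmB hE _ hβ, if_pos (Finset.mem_Icc.1 hβ).1, eval_one]

variable (h : s * N - N * s = N)
include h

lemma raise_NahmB (j : ℤ) : (1 - aeval s (E (j + 1))) * N * aeval s (E j) = 0 := by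
  have h1 := shift_NahmB h (1 - E (j + 1))
  rw [map_sub, map_one] at h1
  rw [h1, mul_assoc, ← map_mul, van_NahmB hs fun β hβ => ?_, mul_zero]
  have h2 := hE (j + 1) (β + 1) (by rw [Finset.mem_Icc] at hβ ⊢; omega)
  rw [eval_mul, eval_comp, eval_add, eval_X, eval_one, eval_sub, eval_one, ev_NahmB hE j hβ]
  push_cast at h2
  rw [h2]
  by_cases hj : j ≤ β
  · rw [if_pos (by omega)]; simp
  · rw [if_neg hj, mul_zero]

lemma key_NahmB (j : ℤ) :
    (1 - aeval s (E (j + 1))) * (s - N - algebraMap F A j) * aeval s (E j) = 0 := by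
  have h1 : aeval s ((1 - E (j + 1)) * (X - C (j : F)) * E j) = 0 := van_NahmB hs fun β hβ => by
    rw [eval_mul, eval_mul, eval_sub, eval_one, ev_NahmB hE j hβ, ev_NahmB hE _ hβ]
    rcases lt_trichotomy j β with hj | hj | hj
    · rw [if_pos (by omega)]; simp
    · simp [hj]
    · rw [if_neg (not_le.2 hj), mul_zero]
  rw [map_mul, map_mul, map_sub, map_sub, map_one, aeval_X, aeval_C] at h1
  rw [sub_right_comm, mul_sub _ _ N, sub_mul, h1, raise_NahmB hE hs h j, sub_zero]

lemma filt_NahmB (a b : ℤ) (hab : a ≤ b) :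
    (1 - aeval s (E b)) * aeval (s - N) (pr_NahmB F (Finset.Ico a b)) * aeval s (E a) = 0 := by
  induction b, hab using Int.leInduction with
  | base => simpa [pr_NahmB] using idem_NahmB hE hs a
  | succ b hab ih =>
    have h1 : pr_NahmB F (Finset.Ico a (b + 1)) = (X - C (b : F)) * pr_NahmB F (Finset.Ico a b) := by
      rw [pr_NahmB, ← Finset.insert_Ico_right_eq_Ico_add_one hab,
        Finset.prod_insert Finset.right_notMem_Ico, pr_NahmB]
    rw [mul_assoc, sub_mul, one_mul, sub_eq_zero] at ih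
    rw [h1, map_mul, map_sub, aeval_X, aeval_C, ← mul_assoc, mul_assoc, ih, ← mul_assoc,
      key_NahmB hE hs h b, zero_mul]

lemma low_NahmB : aeval (s - N) (pr_NahmB F (Finset.Icc (-K : ℤ) K)) = 0 := by
  have h1 := filt_NahmB hE hs h (-K) (K + 1) (by omega)
  have h2 : Finset.Ico (-K : ℤ) (K + 1) = Finset.Icc (-K : ℤ) K := by
    ext j
    simp only [Finset.mem_Ico, Finset.mem_Icc]
    omega
  rwa [top_NahmB hE hs, bot_NahmB hE hs, sub_zero, one_mul, mul_one, h2] at h1

lemma qp_NahmB {j : ℤ} (hj : j ∈ Finset.Icc (-K : ℤ) K) :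
    aeval (s - N) (E j) * aeval s (E j) = aeval s (E j) := by
  rw [Finset.mem_Icc] at hj
  have h1 := filt_NahmB hE hs h j (K + 1) (by omega)
  rw [top_NahmB hE hs, sub_zero, one_mul] at h1
  obtain ⟨r, hr⟩ := dvd_NahmB (Finset.Ico j (K + 1)) (E j - 1) fun β hβ => by
    rw [Finset.mem_Ico] at hβ
    rw [eval_sub, eval_one, hE j β (by rw [Finset.mem_Icc]; omega), if_pos hβ.1, sub_self]
  have h2 : aeval (s - N) (E j - 1) * aeval s (E j) = 0 := by
    rw [hr, mul_comm _ r, map_mul, mul_assoc, h1, mul_zero]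
  rwa [map_sub, map_one, sub_mul, one_mul, sub_eq_zero] at h2

lemma pq_NahmB {j : ℤ} (hj : j ∈ Finset.Icc (-K : ℤ) K) :
    aeval s (E j) * aeval (s - N) (E j) = aeval (s - N) (E j) := by
  rw [Finset.mem_Icc] at hj
  have h1 := filt_NahmB hE hs h (-K) j (by omega)
  rw [bot_NahmB hE hs, mul_one] at h1
  obtain ⟨r, hr⟩ := dvd_NahmB (Finset.Ico (-K : ℤ) j) (E j) fun β hβ => by
    rw [Finset.mem_Ico] at hβ
    rw [hE j β (by rw [Finset.mem_Icc]; omega), if_neg (by omega)]
  have h2 : (1 - aeval s (E j)) * aeval (s - N) (pr_NahmB F (Finset.Ico (-K : ℤ) j) * r) = 0 := by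
    rw [map_mul, ← mul_assoc, h1, zero_mul]
  rw [← hr, sub_mul, one_mul, sub_eq_zero] at h2
  exact h2.symm

end abs

lemma comm_NahmB {L A : Type} [CommRing L] [Ring A] [Algebra L A] {t u : L} (htu : t * u = 1)
    {b a0 a1 a2 : A} (h : Rel b a0 a1 a2) :
    (b + t • a2) * (u • a0 + a1 + t • a2) - (u • a0 + a1 + t • a2) * (b + t • a2) =
      u • a0 + a1 + t • a2 := by
  obtain ⟨r0, r1, r2⟩ := h
  rw [sub_mul, mul_sub] at r2
  simp only [mul_add, add_mul, smul_mul_assoc, mul_smul_comm, smul_smul, smul_add, htu,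
    mul_comm u t, one_smul]
  linear_combination (norm := module) u • r0 + r1 + t • r2

lemma coeff_NahmB {F : Type} [Field F] (a : F) (m k : ℤ) :
    (LaurentPolynomial.C a * LaurentPolynomial.T m : F[T;T⁻¹]).coeff k =
      if m = k then a else 0 := by
  rw [← LaurentPolynomial.single_eq_C_mul_T, AddMonoidAlgebra.coeff_single,
    Finsupp.single_apply]

lemma zero_NahmB {F : Type} [Field F] {n : ℕ} {P : Matrix (Fin n) (Fin n) F[X]}
    (hP : (1 - P) * P = 0) (h0 : P.map (fun a => a.coeff 0) = 0) : P = 0 := by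
  have h1 : (1 - P).det ≠ 0 := by
    intro h
    have h2 := (constantCoeff : F[X] →+* F).map_det (1 - P)
    have h3 : (constantCoeff : F[X] →+* F).mapMatrix P = 0 := h0
    rw [h, map_zero, map_sub, map_one, h3, sub_zero, det_one] at h2
    exact zero_ne_one h2
  have h4 : (1 - P).det • P = 0 := by
    rw [← one_mul P, ← smul_mul_assoc, one_mul, ← adjugate_mul, mul_assoc, hP, mul_zero]
  exact (smul_eq_zero.1 h4).resolve_left h1

theorem b_stmt (F : Type) [Field F] [CharZero F] (h : DegStmt F) : BStmt F := by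
  intro n K B A0 A1 A2 hrel hg
  choose E hE using fun j : ℤ =>
    interp_NahmB (F := F) (Finset.Icc (-K : ℤ) (K + 1)) fun β => if j ≤ β then 1 else 0
  let φ : Matrix (Fin n) (Fin n) F[X] →ₐ[F] Matrix (Fin n) (Fin n) F[T;T⁻¹] :=
    (toLaurentAlg (R := F)).mapMatrix
  let ψ : Matrix (Fin n) (Fin n) F[X] →ₐ[F] Matrix (Fin n) (Fin n) F[T;T⁻¹] :=
    ((LaurentPolynomial.invert (R := F)).toAlgHom.comp toLaurentAlg).mapMatrix
  let c : Matrix (Fin n) (Fin n) F →+* Matrix (Fin n) (Fin n) F[T;T⁻¹] :=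
    (LaurentPolynomial.C : F →+* F[T;T⁻¹]).mapMatrix
  let θ : Matrix (Fin n) (Fin n) F[X] →ₗ[F] Matrix (Fin n) (Fin n) F[X] :=
    ((LinearMap.mulLeft F (X : F[X])).comp derivative).mapMatrix
  have hφ : ∀ M, φ M = M.map toLaurent := fun _ => rfl
  have hψ : ∀ M, ψ M = M.map (toInv F) := fun _ => rfl
  have hθ : ∀ M, θ M = M.map fun a => X * derivative a := fun _ => rfl
  have hc : ∀ M, c M = M.map LaurentPolynomial.C := fun _ => rfl
  have hder : ∀ x y, θ (x * y) = θ x * y + x * θ y := by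
    intro x y
    ext1 i j
    simp only [hθ, map_apply, mul_apply, Matrix.add_apply, derivative_sum, derivative_mul,
      Finset.mul_sum, ← Finset.sum_add_distrib]
    exact Finset.sum_congr rfl fun k _ => by ring
  obtain ⟨S, hS⟩ : ∃ S, S = B.map C + (X : F[X]) • A2.map C := ⟨_, rfl⟩
  obtain ⟨S1, hS1⟩ : ∃ S1, S1 = (B - A1).map C - (X : F[X]) • A0.map C := ⟨_, rfl⟩
  obtain ⟨t, ht⟩ : ∃ t : F[T;T⁻¹], t = LaurentPolynomial.T 1 := ⟨_, rfl⟩
  obtain ⟨u, hu⟩ : ∃ u : F[T;T⁻¹], u = LaurentPolynomial.T (-1) := ⟨_, rfl⟩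
  have htu : t * u = 1 := by rw [ht, hu, ← LaurentPolynomial.T_add]; rfl
  obtain ⟨N, hN⟩ : ∃ N, N = u • c A0 + c A1 + t • c A2 := ⟨_, rfl⟩
  have e1 : φ S = c B + t • c A2 := by
    ext1 i j
    simp [hS, hφ, hc, ht]
  have e2 : ψ S1 = φ S - N := by
    rw [e1, hN]
    ext1 i j
    simp [hS1, hψ, hc, hu, toInv]
    ring
  have e3 : φ (θ S) = t • c A2 := by
    ext1 i j
    simp [hS, hφ, hθ, hc, ht]
  have hrel' : Rel (c B) (c A0) (c A1) (c A2) :=
    ⟨by simpa using congrArg c hrel.r0, by simpa using congrArg c hrel.r1,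
      by simpa using congrArg c hrel.r2⟩
  have hcm : φ S * N - N * φ S = N := by rw [e1, hN]; exact comm_NahmB htu hrel'
  rw [← hS, gK_NahmB (F := F)] at hg
  have hg' : aeval (φ S) (pr_NahmB F (Finset.Icc (-K : ℤ) K)) = 0 := by
    rw [aeval_algHom_apply, hg, map_zero]
  obtain ⟨b, hb⟩ := inner_NahmB hg θ hder
  have hP : ∀ j, (aeval S (E j)).map toLaurent = aeval (φ S) (E j) := fun j =>
    (aeval_algHom_apply φ S (E j)).symm
  have hQ : ∀ j, (aeval S1 (E j)).map (toInv F) = aeval (φ S - N) (E j) := fun j => by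
    rw [← e2, aeval_algHom_apply, hψ]
  have hdeg : ∀ j, ∃ m : ℕ, j ∈ Finset.Icc (-K : ℤ) K →
      (m : F) = (trace ((aeval (φ S - N) (E j) - aeval (φ S) (E j)) * φ b)).coeff 0 ∧
      (m = 0 → aeval S (E j) * (aeval S (E j)).map (fun a => C (a.coeff 0)) =
        (aeval S (E j)).map fun a => C (a.coeff 0)) := by
    intro j
    by_cases hj : j ∈ Finset.Icc (-K : ℤ) K
    swap
    · exact ⟨0, fun h => absurd h hj⟩
    have q1 := qp_NahmB hE hg' hcm hj
    have q2 := pq_NahmB hE hg' hcm hj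
    obtain ⟨m, hm, hm'⟩ := h n (aeval S (E j)) (aeval S1 (E j)) (by rw [hP, hQ, q1])
      (by rw [hP, hQ, q2])
    refine ⟨m, fun _ => ⟨?_, hm'⟩⟩
    rw [hm, hQ, ← hθ, ← hφ, hb, map_sub, map_mul, map_mul, ← aeval_algHom_apply, mul_sub,
      trace_sub, ← mul_assoc, trace_mul_comm, ← mul_assoc, q2, ← mul_assoc, q1, sub_mul, trace_sub]
  choose m hm using hdeg
  refine ⟨∑ j ∈ Finset.Icc (-K : ℤ) K, m j, ?_, fun h0 hn => ?_⟩
  · have e4 : φ b * φ S - φ S * φ b = t • c A2 := by
      have := hb X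
      rw [aeval_X] at this
      rw [← e3, this, map_sub, map_mul, map_mul]
    have e5 : trace (N * φ b) = trace (N * t • c A2) := by
      rw [← e4, mul_sub, trace_sub, ← mul_assoc, trace_mul_comm _ (φ S), ← mul_assoc, ← mul_assoc,
        ← trace_sub, ← sub_mul, hcm]
    have e6 : ∀ M, trace (c M) = LaurentPolynomial.C (trace M) := fun M =>
      (AddMonoidHom.map_trace (LaurentPolynomial.C : F →+* F[T;T⁻¹]) M).symm
    have e7 : (trace (N * t • c A2)).coeff 0 = trace (A0 * A2) := by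
      rw [hN]
      simp only [add_mul, smul_mul_assoc, mul_smul_comm, smul_smul, smul_add, htu, one_smul,
        ← map_mul, trace_add, trace_smul, e6, smul_eq_mul]
      rw [ht, ← LaurentPolynomial.T_add]
      simp [coeff_NahmB]
    rw [Nat.cast_sum, Finset.sum_congr rfl fun j hj => (hm j hj).1, ← Finsupp.finsetSum_apply,
      ← AddMonoidAlgebra.coeff_sum, ← trace_sum, ← Finset.sum_mul, Finset.sum_sub_distrib,
      sum_NahmB hE hg', sum_NahmB hE (low_NahmB hE hg' hcm), ← e7, ← e5]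
    have : φ S - N + algebraMap F _ ((K : F) + 1) - (φ S + algebraMap F _ ((K : F) + 1)) = -N := by
      abel
    rw [this, neg_mul, trace_neg]
    simp
  · have : Nonempty (Fin n) := ⟨⟨0, hn⟩⟩
    obtain ⟨j, hj, hj1, hj2⟩ : ∃ j ∈ Finset.Icc (-K : ℤ) K,
        aeval S (E j) ≠ 0 ∧ aeval S (E (j + 1)) = 0 := by
      by_contra hcon
      push Not at hcon
      have : ∀ j : ℤ, -K ≤ j → j ≤ K + 1 → aeval S (E j) ≠ 0 := by
        intro j hj
        induction j, hj using Int.leInduction with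
        | base => intro _; rw [bot_NahmB hE hg]; exact one_ne_zero
        | succ j hj ih =>
          intro hj'
          exact hcon j (by rw [Finset.mem_Icc]; omega) (ih (by omega))
      exact this (K + 1) (by omega) le_rfl (top_NahmB hE hg)
    have f1 := (hm j hj).2 (Finset.sum_eq_zero_iff.1 h0 j hj)
    have f2 := raise_NahmB hE hg' hcm j
    rw [aeval_algHom_apply, aeval_algHom_apply, hj2, map_zero, sub_zero, one_mul] at f2
    obtain ⟨P0, hP0⟩ : ∃ P0, P0 = (aeval S (E j)).map fun a => a.coeff 0 := ⟨_, rfl⟩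
    have f3 : P0 ≠ 0 := fun h0 => hj1 (zero_NahmB (idem_NahmB hE hg j) (hP0 ▸ h0))
    have f4 : φ ((aeval S (E j)).map fun a => C (a.coeff 0)) = c P0 := by
      ext1 i k
      simp [hφ, hc, hP0]
    have f5 : N * c P0 = 0 := by rw [← f4, ← f1, map_mul, ← mul_assoc, f2, zero_mul]
    rw [hN, add_mul, add_mul, smul_mul_assoc, smul_mul_assoc, ← map_mul, ← map_mul,
      ← map_mul] at f5
    have f6 : ∀ (r : ℤ) i k, (if -1 = r then (A0 * P0) i k else 0) +
        (if r = 0 then (A1 * P0) i k else 0) + (if 1 = r then (A2 * P0) i k else 0) = 0 := by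
      intro r i k
      have := congrArg (fun M : Matrix (Fin n) (Fin n) F[T;T⁻¹] => (M i k).coeff r) f5
      generalize A0 * P0 = Y0, A1 * P0 = Y1, A2 * P0 = Y2 at this ⊢
      simpa [hc, ht, hu, coeff_NahmB] using this
    obtain ⟨i, k, hik⟩ : ∃ i k, P0 i k ≠ 0 := by
      by_contra hcon
      push Not at hcon
      exact f3 (Matrix.ext hcon)
    refine ⟨fun i => P0 i k, fun h0 => hik (congrFun h0 i), ?_, ?_, ?_⟩
    · ext i
      simpa [mul_apply, mulVec, dotProduct] using f6 (-1) i k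
    · ext i
      simpa [mul_apply, mulVec, dotProduct] using f6 0 i k
    · ext i
      simpa [mul_apply, mulVec, dotProduct] using f6 1 i k

end Pool.Agent.MP_f68ac8_nt.Nahm
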