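import Mathlib
import Pool.Agent.MP_f68ac8_nt.NahmDefs

namespace Pool.Agent.MP_f68ac8_nt.Nahm

open Polynomial Matrix
open scoped LaurentPolynomial Kronecker

theorem reindex_NahmDeg {A : Type} [AddCommMonoid A] (f : ℤ → A) (g h : ℕ → ℤ) (M N : ℕ)
    (hg : Function.Injective g) (hh : Function.Injective h)
    (hfg : ∀ m, f m ≠ 0 → ∃ i, i < M ∧ g i = m) (hfh : ∀ m, f m ≠ 0 → ∃ i, i < N ∧ h i = m) :
    ∑ i ∈ Finset.range M, f (g i) = ∑ i ∈ Finset.range N, f (h i) := by
  classical
  have e1 : ∀ (g : ℕ → ℤ) (M : ℕ), Function.Injective g →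
      (∀ m, f m ≠ 0 → ∃ i, i < M ∧ g i = m) →
      ∑ i ∈ Finset.range M, f (g i) = ∑ᶠ m, f m := by
    intro g M hg hfg
    rw [finsum_eq_sum_of_support_subset f (s := (Finset.range M).image g)]
    · rw [Finset.sum_image (fun a _ b _ hab => hg hab)]
    · intro m hm
      obtain ⟨i, hi, rfl⟩ := hfg m hm
      simp only [Finset.coe_image, Finset.coe_range, Set.mem_image, Set.mem_Iio]
      exact ⟨i, hi, rfl⟩
  rw [e1 g M hg hfg, e1 h N hh hfh]

section abstract

variable {A : Type} [Ring A] (M : ℕ) (p q : ℤ → A)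

/-- block Hankel matrix -/
def hank_NahmDeg (p : ℤ → A) : Matrix (Fin M) (Fin M) A :=
  Matrix.of fun j l => p ((j : ℕ) + (l : ℕ) + 1)

/-- lower block Toeplitz matrix -/
def toeL_NahmDeg (p : ℤ → A) : Matrix (Fin M) (Fin M) A :=
  Matrix.of fun j l => p ((j : ℕ) - (l : ℕ))

/-- upper block Toeplitz matrix -/
def toeU_NahmDeg (p : ℤ → A) : Matrix (Fin M) (Fin M) A :=
  Matrix.of fun j l => p ((l : ℕ) - (j : ℕ))

theorem id1_NahmDeg (_hp0 : ∀ k < 0, p k = 0) (hq0 : ∀ k < 0, q k = 0)
    (hqM : ∀ k : ℤ, (M : ℤ) ≤ k → q k = 0)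
    (hAB : ∀ d : ℤ, ∑ i ∈ Finset.range M, p (d + i) * q i = q (-d)) :
    hank_NahmDeg M p * hank_NahmDeg M q + toeL_NahmDeg M p * toeU_NahmDeg M q =
      toeU_NahmDeg M q := by
  ext j j'
  simp only [hank_NahmDeg, toeL_NahmDeg, toeU_NahmDeg, Matrix.add_apply, Matrix.mul_apply,
    Matrix.of_apply]
  have hj := j.2
  have hj' := j'.2
  set f : ℤ → A := fun m => p ((j : ℕ) - m) * q ((j' : ℕ) - m) with hf
  have hsupp : ∀ m, f m ≠ 0 → m ≤ (j' : ℕ) ∧ ((j' : ℕ) : ℤ) - M < m := by
    intro m hm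
    constructor
    · by_contra hc
      exact hm (by simp only [hf]; rw [hq0 _ (by omega), mul_zero])
    · by_contra hc
      exact hm (by simp only [hf]; rw [hqM _ (by omega), mul_zero])
  have h1 : ∑ l : Fin M, p ((j : ℕ) + (l : ℕ) + 1) * q ((l : ℕ) + (j' : ℕ) + 1) =
      ∑ i ∈ Finset.range M, (fun m => if m < 0 then f m else 0) (((j' : ℕ) : ℤ) - (i : ℕ)) := by
    rw [← reindex_NahmDeg (fun m => if m < 0 then f m else 0) (fun l => -(l : ℤ) - 1) _ M M]
    · rw [Finset.sum_range]
      refine Finset.sum_congr rfl fun l _ => ?_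
      rw [if_pos (by omega)]
      simp only [hf]
      congr 2 <;> ring
    · intro a b hab; simp only at hab; omega
    · intro a b hab; simp only at hab; omega
    · intro m hm
      have hm0 : m < 0 := by
        by_contra hc; exact hm (if_neg hc)
      rw [if_pos hm0] at hm
      obtain ⟨h1, h2⟩ := hsupp m hm
      exact ⟨(-m - 1).toNat, by omega, by omega⟩
    · intro m hm
      have hm0 : m < 0 := by
        by_contra hc; exact hm (if_neg hc)
      rw [if_pos hm0] at hm
      obtain ⟨h1, h2⟩ := hsupp m hm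
      exact ⟨(((j' : ℕ) : ℤ) - m).toNat, by omega, by omega⟩
  have h2 : ∑ l : Fin M, p ((j : ℕ) - (l : ℕ)) * q ((j' : ℕ) - (l : ℕ)) =
      ∑ i ∈ Finset.range M, (fun m => if m < 0 then 0 else f m) (((j' : ℕ) : ℤ) - (i : ℕ)) := by
    rw [← reindex_NahmDeg (fun m => if m < 0 then 0 else f m) (fun l => (l : ℤ)) _ M M]
    · rw [Finset.sum_range]
      refine Finset.sum_congr rfl fun l _ => ?_
      rw [if_neg (by omega)]
    · intro a b hab; simp only at hab; omega
    · intro a b hab; simp only at hab; omega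
    · intro m hm
      have hm0 : ¬ m < 0 := by
        intro hc; exact hm (if_pos hc)
      rw [if_neg hm0] at hm
      obtain ⟨h1, h2⟩ := hsupp m hm
      exact ⟨m.toNat, by omega, by omega⟩
    · intro m hm
      have hm0 : ¬ m < 0 := by
        intro hc; exact hm (if_pos hc)
      rw [if_neg hm0] at hm
      obtain ⟨h1, h2⟩ := hsupp m hm
      exact ⟨(((j' : ℕ) : ℤ) - m).toNat, by omega, by omega⟩
  rw [h1, h2, ← Finset.sum_add_distrib]
  have h3 := hAB (((j : ℕ) : ℤ) - (j' : ℕ))
  rw [neg_sub] at h3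
  rw [← h3]
  refine Finset.sum_congr rfl fun i _ => ?_
  have : f (((j' : ℕ) : ℤ) - (i : ℕ)) = p (((j : ℕ) : ℤ) - (j' : ℕ) + i) * q i := by
    simp only [hf]
    congr 2 <;> ring
  rw [← this]
  beta_reduce
  split_ifs <;> simp

theorem id2_NahmDeg (hq0 : ∀ k < 0, q k = 0)
    (hpM : ∀ k : ℤ, (M : ℤ) ≤ k → p k = 0)
    (hBA : ∀ d : ℤ, ∑ i ∈ Finset.range M, q i * p (d + i) = p d) :
    toeU_NahmDeg M q * hank_NahmDeg M p = hank_NahmDeg M p := by
  ext j l
  simp only [hank_NahmDeg, toeU_NahmDeg, Matrix.mul_apply, Matrix.of_apply]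
  have hj := j.2
  have hl := l.2
  set f : ℤ → A := fun m => q (m - (j : ℕ)) * p (m + (l : ℕ) + 1) with hf
  have hsupp : ∀ m, f m ≠ 0 → ((j : ℕ) : ℤ) ≤ m ∧ m + (l : ℕ) + 1 < M := by
    intro m hm
    constructor
    · by_contra hc
      exact hm (by simp only [hf]; rw [hq0 _ (by omega), zero_mul])
    · by_contra hc
      exact hm (by simp only [hf]; rw [hpM _ (by omega), mul_zero])
  rw [← hBA (((j : ℕ) : ℤ) + (l : ℕ) + 1)]
  have h1 := reindex_NahmDeg f (fun l => (l : ℤ)) (fun i => (i : ℤ) + (j : ℕ)) M M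
    (by intro a b hab; simp only at hab; omega) (by intro a b hab; simp only at hab; omega)
    (by
      intro m hm
      obtain ⟨h1, h2⟩ := hsupp m hm
      exact ⟨m.toNat, by omega, by omega⟩)
    (by
      intro m hm
      obtain ⟨h1, h2⟩ := hsupp m hm
      exact ⟨(m - (j : ℕ)).toNat, by omega, by omega⟩)
  rw [Finset.sum_range] at h1
  refine h1.trans (Finset.sum_congr rfl fun i _ => ?_)
  simp only [hf]
  congr 2 <;> ring

theorem id3_NahmDeg (hp0 : ∀ k < 0, p k = 0)
    (hqM : ∀ k : ℤ, (M : ℤ) ≤ k → q k = 0)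
    (hBA : ∀ d : ℤ, ∑ i ∈ Finset.range M, q i * p (d + i) = p d) :
    hank_NahmDeg M q * toeL_NahmDeg M p = 0 := by
  ext l j
  simp only [hank_NahmDeg, toeL_NahmDeg, Matrix.mul_apply, Matrix.of_apply, Matrix.zero_apply]
  have hj := j.2
  have hl := l.2
  set f : ℤ → A := fun m => q ((l : ℕ) + m + 1) * p (m - (j : ℕ)) with hf
  have hsupp : ∀ m, f m ≠ 0 → ((j : ℕ) : ℤ) ≤ m ∧ (l : ℕ) + m + 1 < M := by
    intro m hm
    constructor
    · by_contra hc
      exact hm (by simp only [hf]; rw [hp0 _ (by omega), mul_zero])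
    · by_contra hc
      exact hm (by simp only [hf]; rw [hqM _ (by omega), zero_mul])
  rw [← hp0 (-((l : ℕ) : ℤ) - 1 - (j : ℕ)) (by omega), ← hBA]
  have h1 := reindex_NahmDeg f (fun l => (l : ℤ)) (fun i => (i : ℤ) - (l : ℕ) - 1) M M
    (by intro a b hab; simp only at hab; omega) (by intro a b hab; simp only at hab; omega)
    (by
      intro m hm
      obtain ⟨h1, h2⟩ := hsupp m hm
      exact ⟨m.toNat, by omega, by omega⟩)
    (by
      intro m hm
      obtain ⟨h1, h2⟩ := hsupp m hm
      exact ⟨(m + (l : ℕ) + 1).toNat, by omega, by omega⟩)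
  rw [Finset.sum_range] at h1
  refine h1.trans (Finset.sum_congr rfl fun i _ => ?_)
  simp only [hf]
  congr 2 <;> ring

theorem abstract_NahmDeg (hp0 : ∀ k < 0, p k = 0) (hq0 : ∀ k < 0, q k = 0)
    (hpM : ∀ k : ℤ, (M : ℤ) ≤ k → p k = 0) (hqM : ∀ k : ℤ, (M : ℤ) ≤ k → q k = 0)
    (hAB : ∀ d : ℤ, ∑ i ∈ Finset.range M, p (d + i) * q i = q (-d))
    (hBA : ∀ d : ℤ, ∑ i ∈ Finset.range M, q i * p (d + i) = p d) :
    IsIdempotentElem (hank_NahmDeg M q * hank_NahmDeg M p) ∧
      (hank_NahmDeg M q * hank_NahmDeg M p = 0 →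
        toeL_NahmDeg M p * hank_NahmDeg M p = hank_NahmDeg M p) := by
  have h1 := id1_NahmDeg M p q hp0 hq0 hqM hAB
  have h2 := id2_NahmDeg M p q hq0 hpM hBA
  have h3 := id3_NahmDeg M p q hp0 hqM hBA
  set HP := hank_NahmDeg M p
  set HQ := hank_NahmDeg M q
  set TP := toeL_NahmDeg M p
  set TQ := toeU_NahmDeg M q
  have h4 : HP * HQ * HP = HP - TP * HP := by
    rw [eq_sub_of_add_eq h1, sub_mul, mul_assoc, h2]
  constructor
  · unfold IsIdempotentElem
    calc HQ * HP * (HQ * HP) = HQ * (HP * HQ * HP) := by simp only [mul_assoc]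
      _ = HQ * HP := by rw [h4, mul_sub, ← mul_assoc, h3, zero_mul, sub_zero]
  · intro h0
    rw [mul_assoc, h0, mul_zero] at h4
    exact (sub_eq_zero.mp h4.symm).symm

end abstract

theorem double_sum_NahmDeg {F : Type} [Ring F] (M : ℕ) (g : ℕ → F) (hg : ∀ k, M ≤ k → g k = 0) :
    ∑ l ∈ Finset.range M, ∑ j ∈ Finset.range M, g (l + j + 1) =
      ∑ k ∈ Finset.range M, (k : F) * g k := by
  have h1 : ∀ l ∈ Finset.range M, ∑ j ∈ Finset.range M, g (l + j + 1) =
      ∑ k ∈ Finset.range M, if l < k then g k else 0 := by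
    intro l _
    have := reindex_NahmDeg (fun m : ℤ => if (l : ℤ) < m then g m.toNat else 0)
      (fun j => (l : ℤ) + j + 1) (fun k => (k : ℤ)) M M
      (by intro a b hab; simp only at hab; omega) (by intro a b hab; simp only at hab; omega)
      (by
        intro m hm
        have hm0 : (l : ℤ) < m := by
          by_contra hc; exact hm (if_neg hc)
        rw [if_pos hm0] at hm
        have : m.toNat < M := by
          by_contra hc; exact hm (hg _ (by omega))
        exact ⟨(m - l - 1).toNat, by omega, by omega⟩)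
      (by
        intro m hm
        have hm0 : (l : ℤ) < m := by
          by_contra hc; exact hm (if_neg hc)
        rw [if_pos hm0] at hm
        have : m.toNat < M := by
          by_contra hc; exact hm (hg _ (by omega))
        exact ⟨m.toNat, by omega, by omega⟩)
    refine (Finset.sum_congr rfl fun j _ => ?_).trans
      (this.trans (Finset.sum_congr rfl fun k _ => ?_))
    · rw [if_pos (by omega)]
      congr 1
    · simp
  rw [Finset.sum_congr rfl h1, Finset.sum_comm]
  refine Finset.sum_congr rfl fun k hk => ?_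
  rw [← Finset.sum_filter, Finset.sum_const, nsmul_eq_mul]
  congr 2
  have : (Finset.range M).filter (fun l => l < k) = Finset.range k := by
    ext l
    simp only [Finset.mem_filter, Finset.mem_range] at hk ⊢
    omega
  rw [this, Finset.card_range]

theorem idem_trace_NahmDeg {F : Type} [Field F] {ι : Type} [Fintype ι] [DecidableEq ι]
    (R : Matrix ι ι F) (hR : IsIdempotentElem R) :
    ∃ h : ℕ, (h : F) = trace R ∧ (h = 0 → R = 0) := by
  have hE : IsIdempotentElem (Matrix.toLin' R) := by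
    unfold IsIdempotentElem
    rw [Module.End.mul_eq_comp, ← Matrix.toLin'_mul, hR.eq]
  refine ⟨Module.finrank F (LinearMap.range (Matrix.toLin' R)), ?_, ?_⟩
  · have hP := LinearMap.IsIdempotentElem.isProj_range _ hE
    rw [← hP.trace, Matrix.trace_toLin'_eq]
  · intro h
    rw [Submodule.finrank_eq_zero, LinearMap.range_eq_bot] at h
    exact Matrix.toLin'.map_eq_zero_iff.mp h

theorem coeff_inv_mul_NahmDeg {F : Type} [CommRing F] (b : F[X]) (M : ℕ) (hb : b.natDegree < M)
    (f : F[T;T⁻¹]) (d : ℤ) :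
    (toInv F b * f).coeff d = ∑ i ∈ Finset.range M, b.coeff i * f.coeff (d + i) := by
  conv_lhs => rw [b.as_sum_range' M hb]
  rw [map_sum, Finset.sum_mul, AddMonoidAlgebra.coeff_sum, Finsupp.finsetSum_apply]
  refine Finset.sum_congr rfl fun i _ => ?_
  have : toInv F (monomial i (b.coeff i)) = AddMonoidAlgebra.single (-(i : ℤ)) (b.coeff i) := by
    simp [toInv, LaurentPolynomial.single_eq_C_mul_T]
  rw [this, AddMonoidAlgebra.coeff_single_mul_apply]
  congr 2
  ring

theorem coeff_toLaurent_nat_NahmDeg {F : Type} [CommRing F] (a : F[X]) (k : ℕ) :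
    (toLaurent a).coeff (k : ℤ) = a.coeff k := by
  rw [LaurentPolynomial.coeff_toLaurent]
  exact Finsupp.mapDomain_apply (Nat.castEmbedding (R := ℤ)).injective _ k

theorem coeff_toLaurent_neg_NahmDeg {F : Type} [CommRing F] (a : F[X]) (k : ℤ) (hk : k < 0) :
    (toLaurent a).coeff k = 0 := by
  rw [LaurentPolynomial.coeff_toLaurent]
  refine Finsupp.mapDomain_of_notMem_range _ _ ?_
  rintro ⟨m, hm⟩
  simp only [Nat.castEmbedding_apply] at hm
  omega

theorem deg_stmt (F : Type) [Field F] : DegStmt F := by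
  intro n P Q hQP hPQ
  obtain ⟨M, hMP, hMQ⟩ : ∃ M : ℕ, (∀ i j, (P i j).natDegree < M + 1) ∧
      ∀ i j, (Q i j).natDegree < M + 1 := by
    refine ⟨Finset.univ.sup (fun s : Fin n × Fin n => max (P s.1 s.2).natDegree
      (Q s.1 s.2).natDegree), fun i j => ?_, fun i j => ?_⟩
    · exact Nat.lt_succ_of_le ((le_max_left _ _).trans (Finset.le_sup
        (f := fun s : Fin n × Fin n => max (P s.1 s.2).natDegree (Q s.1 s.2).natDegree)
        (Finset.mem_univ (i, j))))
    · exact Nat.lt_succ_of_le ((le_max_right _ _).trans (Finset.le_sup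
        (f := fun s : Fin n × Fin n => max (P s.1 s.2).natDegree (Q s.1 s.2).natDegree)
        (Finset.mem_univ (i, j))))
  set p : ℤ → Matrix (Fin n) (Fin n) F := fun k => P.map fun a => (toLaurent a).coeff k with hp
  set q : ℤ → Matrix (Fin n) (Fin n) F := fun k => Q.map fun a => (toLaurent a).coeff k with hq
  have hp0 : ∀ k < 0, p k = 0 := by
    intro k hk; ext i j
    exact coeff_toLaurent_neg_NahmDeg _ k hk
  have hq0 : ∀ k < 0, q k = 0 := by
    intro k hk; ext i j
    exact coeff_toLaurent_neg_NahmDeg _ k hk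
  have hpn : ∀ (k : ℕ) i j, p k i j = (P i j).coeff k := fun k i j =>
    coeff_toLaurent_nat_NahmDeg _ k
  have hqn : ∀ (k : ℕ) i j, q k i j = (Q i j).coeff k := fun k i j =>
    coeff_toLaurent_nat_NahmDeg _ k
  have hpM : ∀ k : ℤ, ((M + 1 : ℕ) : ℤ) ≤ k → p k = 0 := by
    intro k hk; ext i j
    obtain ⟨m, rfl⟩ := Int.eq_ofNat_of_zero_le (by omega : 0 ≤ k)
    rw [hpn]
    exact coeff_eq_zero_of_natDegree_lt ((hMP i j).trans_le (by omega))
  have hqM : ∀ k : ℤ, ((M + 1 : ℕ) : ℤ) ≤ k → q k = 0 := by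
    intro k hk; ext i j
    obtain ⟨m, rfl⟩ := Int.eq_ofNat_of_zero_le (by omega : 0 ≤ k)
    rw [hqn]
    exact coeff_eq_zero_of_natDegree_lt ((hMQ i j).trans_le (by omega))
  have hBA : ∀ d : ℤ, ∑ i ∈ Finset.range (M + 1), q i * p (d + i) = p d := by
    intro d; ext i j
    have h := congrArg (fun f : F[T;T⁻¹] => f.coeff d) (congrFun (congrFun hQP i) j)
    simp only [Matrix.mul_apply, Matrix.map_apply, AddMonoidAlgebra.coeff_sum,
      Finsupp.finsetSum_apply] at h
    rw [Finset.sum_congr rfl fun k _ => coeff_inv_mul_NahmDeg _ _ (hMQ i k) _ d,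
      Finset.sum_comm] at h
    rw [Matrix.sum_apply]
    refine Eq.trans (Finset.sum_congr rfl fun k _ => ?_) h
    rw [Matrix.mul_apply]
    refine Finset.sum_congr rfl fun l _ => ?_
    rw [hqn]; rfl
  have hAB : ∀ d : ℤ, ∑ i ∈ Finset.range (M + 1), p (d + i) * q i = q (-d) := by
    intro d; ext i j
    have h := congrArg (fun f : F[T;T⁻¹] => f.coeff d) (congrFun (congrFun hPQ i) j)
    simp only [Matrix.mul_apply, Matrix.map_apply, AddMonoidAlgebra.coeff_sum,
      Finsupp.finsetSum_apply] at h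
    rw [Finset.sum_congr rfl fun k _ => (congrArg (fun f : F[T;T⁻¹] => f.coeff d)
      (mul_comm _ _)).trans (coeff_inv_mul_NahmDeg _ _ (hMQ k j) _ d),
      Finset.sum_comm] at h
    rw [Matrix.sum_apply]
    have h' : (toInv F (Q i j)).coeff d = q (-d) i j := by
      simp [toInv, hq, -LaurentPolynomial.coeff_toLaurent]
    refine Eq.trans (Finset.sum_congr rfl fun k _ => ?_) (h.trans h')
    rw [Matrix.mul_apply]
    refine Finset.sum_congr rfl fun l _ => ?_
    rw [hqn, mul_comm]; rfl
  obtain ⟨hid, hzero⟩ := abstract_NahmDeg (M + 1) p q hp0 hq0 hpM hqM hAB hBA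
  have hid' := hid.map (Matrix.compRingEquiv (Fin (M + 1)) (Fin n) F)
  obtain ⟨h, hh, hh0⟩ := idem_trace_NahmDeg _ hid'
  refine ⟨h, ?_, fun h0 => ?_⟩
  · rw [hh]
    have e1 : trace (Matrix.compRingEquiv (Fin (M + 1)) (Fin n) F
        (hank_NahmDeg (M + 1) q * hank_NahmDeg (M + 1) p)) =
        ∑ l ∈ Finset.range (M + 1), ∑ j ∈ Finset.range (M + 1),
          trace (q ((l + j + 1 : ℕ) : ℤ) * p ((l + j + 1 : ℕ) : ℤ)) := by
      rw [Matrix.trace, Fintype.sum_prod_type, Finset.sum_range]
      refine Finset.sum_congr rfl fun l _ => ?_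
      rw [Finset.sum_range, ← Matrix.trace_sum, Matrix.trace]
      refine Finset.sum_congr rfl fun a _ => ?_
      simp only [Matrix.diag_apply, Matrix.compRingEquiv_apply, Matrix.comp_apply]
      rw [Matrix.mul_apply]
      refine congrFun (congrFun (Finset.sum_congr rfl fun j _ => ?_) a) a
      simp only [hank_NahmDeg, Matrix.of_apply]
      congr 2 <;> push_cast <;> ring
    rw [e1, double_sum_NahmDeg (M + 1) (fun k => trace (q (k : ℤ) * p (k : ℤ)))
      (fun k hk => by rw [hpM _ (by omega), mul_zero, trace_zero])]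
    simp only [Matrix.trace, Matrix.diag_apply, Matrix.mul_apply, Matrix.map_apply,
      AddMonoidAlgebra.coeff_sum, Finsupp.finsetSum_apply]
    rw [Finset.sum_congr rfl fun a _ => Finset.sum_congr rfl fun b _ =>
      coeff_inv_mul_NahmDeg _ _ (hMQ a b) _ 0]
    simp only [Finset.mul_sum]
    rw [Finset.sum_comm]
    refine Finset.sum_congr rfl fun a _ => ?_
    rw [Finset.sum_comm]
    refine Finset.sum_congr rfl fun b _ => Finset.sum_congr rfl fun k _ => ?_
    rw [zero_add, coeff_toLaurent_nat_NahmDeg, hpn, hqn]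
    rcases k with _ | k
    · simp
    · rw [coeff_X_mul, coeff_derivative]
      push_cast
      ring
  · have h1 := hh0 h0
    rw [map_eq_zero_iff _ (Matrix.compRingEquiv (Fin (M + 1)) (Fin n) F).injective] at h1
    have h2 := hzero h1
    have hPP : P * P = P := by
      have h3 : P.map toLaurent * P.map toLaurent = P.map toLaurent := by
        calc P.map toLaurent * P.map toLaurent
            = P.map toLaurent * (Q.map (toInv F) * P.map toLaurent) := by rw [hQP]
          _ = P.map toLaurent := by rw [← mul_assoc, hPQ, hQP]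
      rw [← Matrix.map_mul] at h3
      exact Matrix.map_injective toLaurent_injective h3
    have hAA : ∀ d : ℕ, ∑ i ∈ Finset.range (d + 1), p ((d : ℤ) - i) * p i = p d := by
      intro d; ext i j
      rw [hpn, ← congrFun (congrFun hPP i) j, Matrix.mul_apply, finsetSum_coeff,
        Matrix.sum_apply]
      simp only [Matrix.mul_apply]
      rw [Finset.sum_comm]
      refine Finset.sum_congr rfl fun k _ => ?_
      rw [mul_comm, coeff_mul, Finset.Nat.sum_antidiagonal_eq_sum_range_succ_mk]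
      refine Finset.sum_congr rfl fun l hl => ?_
      rw [Finset.mem_range] at hl
      rw [hpn, ← Nat.cast_sub (by omega), hpn, mul_comm]
    have h4 : ∀ d : ℕ, p ((d : ℤ) + 1) * p 0 = 0 := by
      intro d
      by_cases hd : d < M + 1
      · have h5 := congrFun (congrFun h2 ⟨d, hd⟩) 0
        simp only [hank_NahmDeg, toeL_NahmDeg, Matrix.mul_apply, Matrix.of_apply, Fin.val_zero,
          Nat.cast_zero, add_zero] at h5
        rw [← Finset.sum_range (fun l => p ((d : ℤ) - (l : ℕ)) * p ((l : ℕ) + 1))] at h5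
        have h6 := hAA (d + 1)
        rw [Finset.sum_range_succ'] at h6
        have h7 : ∑ l ∈ Finset.range (M + 1), p ((d : ℤ) - (l : ℕ)) * p ((l : ℕ) + 1) =
            ∑ k ∈ Finset.range (d + 1), p (((d + 1 : ℕ) : ℤ) - (k + 1 : ℕ)) * p (k + 1 : ℕ) := by
          symm
          refine Finset.sum_subset_zero_on_sdiff (Finset.range_subset_range.mpr (by omega)) ?_ ?_
          · intro l hl
            simp only [Finset.mem_sdiff, Finset.mem_range] at hl
            rw [hp0 _ (by omega), zero_mul]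
          · intro l _
            congr 2 <;> push_cast <;> ring
        rw [← h7, h5] at h6
        push_cast at h6
        simpa using h6
      · rw [hpM _ (by omega), zero_mul]
    have h8 : p 0 * p 0 = p 0 := by simpa using hAA 0
    ext i j k
    rw [Matrix.mul_apply, finsetSum_coeff]
    simp only [Matrix.map_apply, coeff_mul_C]
    rcases k with _ | k
    · have := congrFun (congrFun h8 i) j
      rw [Matrix.mul_apply] at this
      have hp0' : ∀ i j, p 0 i j = (P i j).coeff 0 := hpn 0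
      simpa [hp0'] using this
    · have := congrFun (congrFun (h4 k) i) j
      rw [Matrix.mul_apply] at this
      have hp0' : ∀ i j, p 0 i j = (P i j).coeff 0 := hpn 0
      have hp1' : ∀ i j, p ((k : ℤ) + 1) i j = (P i j).coeff (k + 1) := fun i j => by
        rw [← hpn]; push_cast; rfl
      simpa [hp0', hp1'] using this

end Pool.Agent.MP_f68ac8_nt.Nahm
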