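import Mathlib
import Pool.Agent.MP_f68ac8_nt.NahmDefs

/-! Nilpotence of the ideal generated by the three generators. -/

namespace Pool.Agent.MP_f68ac8_nt.Nahm

open Polynomial Matrix
open scoped LaurentPolynomial Kronecker

section
variable {O A : Type} [CommRing O] [Ring A] [Algebra O A] {T : Set A} {x : Fin 3 → A}

theorem le_NahmG {Q : Submodule O A} (h1 : ∀ i, x i ∈ Q)
    (h2 : ∀ r ∈ Algebra.adjoin O T, ∀ q ∈ Q, r * q ∈ Q)
    (h3 : ∀ r ∈ Algebra.adjoin O T, ∀ q ∈ Q, q * r ∈ Q) : (idl T x : Submodule O A) ≤ Q := by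
  have hX : Submodule.span O (Set.range x) ≤ Q :=
    Submodule.span_le.2 (by rintro _ ⟨i, rfl⟩; exact h1 i)
  have h4 : Subalgebra.toSubmodule (Algebra.adjoin O T) * Submodule.span O (Set.range x) ≤ Q :=
    Submodule.mul_le.2 fun r hr q hq => h2 r hr q (hX hq)
  exact Submodule.mul_le.2 fun q hq r hr => h3 r hr q (h4 hq)

theorem mem_NahmG (i : Fin 3) : x i ∈ (idl T x : Submodule O A) := by
  have := Submodule.mul_mem_mul (Submodule.mul_mem_mul
    (show (1 : A) ∈ Subalgebra.toSubmodule (Algebra.adjoin O T) from one_mem (Algebra.adjoin O T))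
    (Submodule.subset_span (R := O) (Set.mem_range_self (f := x) i)))
    (show (1 : A) ∈ Subalgebra.toSubmodule (Algebra.adjoin O T) from one_mem (Algebra.adjoin O T))
  rwa [one_mul, mul_one] at this

theorem RR_NahmG : Subalgebra.toSubmodule (Algebra.adjoin O T) *
    Subalgebra.toSubmodule (Algebra.adjoin O T) ≤ Subalgebra.toSubmodule (Algebra.adjoin O T) :=
  Submodule.mul_le.2 fun _ ha _ hb => mul_mem (s := Algebra.adjoin O T) ha hb

theorem RI_NahmG : Subalgebra.toSubmodule (Algebra.adjoin O T) * idl T x ≤ idl T x := by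
  rw [idl, ← mul_assoc, ← mul_assoc]
  exact mul_le_mul' (mul_le_mul' RR_NahmG le_rfl) le_rfl

theorem IR_NahmG : idl T x * Subalgebra.toSubmodule (Algebra.adjoin O T) ≤ idl T x := by
  rw [idl, mul_assoc]
  exact mul_le_mul' le_rfl RR_NahmG

theorem IleR_NahmG (hx : ∀ i, x i ∈ T) :
    idl T x ≤ Subalgebra.toSubmodule (Algebra.adjoin O T) :=
  le_NahmG (fun i => Algebra.subset_adjoin (hx i))
    (fun _ hr _ hq => mul_mem (s := Algebra.adjoin O T) hr hq)
    (fun _ hr _ hq => mul_mem (s := Algebra.adjoin O T) hq hr)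

/-- the inner derivation -/
def del_NahmG (O : Type) {A : Type} [CommRing O] [Ring A] [Algebra O A] (z : A) :
    Module.End O A := LinearMap.mulLeft O z - LinearMap.mulRight O z

theorem del_apply_NahmG (z y : A) : del_NahmG O z y = z * y - y * z := rfl

theorem del_mul_NahmG (z a b : A) :
    del_NahmG O z (a * b) = del_NahmG O z a * b + a * del_NahmG O z b := by
  simp only [del_apply_NahmG]; noncomm_ring

theorem sup_mul_NahmG (P : Ideal O) {a b c d e : Submodule O A} (h1 : a * c ≤ d)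
    (h2 : b * c ≤ e) : (a ⊔ P • b) * c ≤ d ⊔ P • e := by
  rw [Submodule.sup_mul, smul_mul_assoc]
  exact sup_le_sup h1 (Submodule.smul_mono le_rfl h2)

theorem mul_sup_NahmG (P : Ideal O) {a b c d e : Submodule O A} (h1 : c * a ≤ d)
    (h2 : c * b ≤ e) : c * (a ⊔ P • b) ≤ d ⊔ P • e := by
  rw [Submodule.mul_sup, mul_smul_comm]
  exact sup_le_sup h1 (Submodule.smul_mono le_rfl h2)

variable {z : A} {π : O} {P : Ideal O}

theorem one_NahmG (hP : π ∈ P) (hz : z ∈ T)
    (hT : ∀ y ∈ T, ∃ (a : O) (c : Fin 3 → O), ∃ r ∈ Algebra.adjoin O T,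
      y = a • z + ∑ j, c j • x j + π • r) {r : A} (hr : r ∈ Algebra.adjoin O T) :
    del_NahmG O z r ∈ idl T x ⊔ P • Subalgebra.toSubmodule (Algebra.adjoin O T) := by
  have hz' : z ∈ Algebra.adjoin O T := Algebra.subset_adjoin hz
  induction hr using Algebra.adjoin_induction with
  | mem y hy =>
    obtain ⟨a, c, r, hr, rfl⟩ := hT y hy
    rw [map_add, map_add, map_smul, map_smul, map_sum, del_apply_NahmG z z, sub_self, smul_zero,
      zero_add]
    refine Submodule.add_mem_sup (Submodule.sum_mem _ fun j _ => ?_)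
      (Submodule.smul_mem_smul hP (Subalgebra.sub_mem _ (mul_mem hz' hr) (mul_mem hr hz')))
    rw [map_smul]
    exact Submodule.smul_mem _ _ (sub_mem (RI_NahmG (Submodule.mul_mem_mul hz' (mem_NahmG j)))
      (IR_NahmG (Submodule.mul_mem_mul (mem_NahmG j) hz')))
  | algebraMap a => rw [del_apply_NahmG, Algebra.commutes, sub_self]; exact zero_mem _
  | add a b _ _ ha hb => rw [map_add]; exact add_mem ha hb
  | mul a b ha' hb' ha hb =>
    rw [del_mul_NahmG]
    exact add_mem (sup_mul_NahmG P IR_NahmG RR_NahmG (Submodule.mul_mem_mul ha hb'))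
      (mul_sup_NahmG P RI_NahmG RR_NahmG (Submodule.mul_mem_mul ha' hb))

theorem two_NahmG (hP : π ∈ P) (hz : z ∈ T)
    (hT : ∀ y ∈ T, ∃ (a : O) (c : Fin 3 → O), ∃ r ∈ Algebra.adjoin O T,
      y = a • z + ∑ j, c j • x j + π • r)
    (hr : ∀ i, ∃ c : Fin 3 → O, ∃ r ∈ Algebra.adjoin O T, ∃ r' ∈ Algebra.adjoin O T,
      z * x i - x i * z = x i + ∑ j, c j • (x j * x i - x i * x j) + π • (r * x i + x i * r'))
    {y : A} (hy : y ∈ (idl T x : Submodule O A)) :
    del_NahmG O z y - y ∈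
      ((idl T x : Submodule O A) * idl T x ⊔ P • (idl T x : Submodule O A) : Submodule O A) := by
  have hRII : Subalgebra.toSubmodule (Algebra.adjoin O T) * (idl T x * idl T x) ≤
      idl T x * idl T x := by
    rw [← mul_assoc]; exact mul_le_mul' RI_NahmG le_rfl
  have hIIR : idl T x * idl T x * Subalgebra.toSubmodule (Algebra.adjoin O T) ≤
      idl T x * idl T x := by
    rw [mul_assoc]; exact mul_le_mul' le_rfl IR_NahmG
  have key : (idl T x : Submodule O A) ≤ idl T x ⊓
      ((idl T x : Submodule O A) * idl T x ⊔ P • (idl T x : Submodule O A)).comap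
        (del_NahmG O z - 1) := by
    refine le_NahmG (fun i => ⟨mem_NahmG i, ?_⟩) (fun r hr q hq => ⟨?_, ?_⟩)
      (fun r hr q hq => ⟨?_, ?_⟩)
    · obtain ⟨c, r, hr, r', hr', h⟩ := hr i
      change (z * x i - x i * z) - x i ∈
        ((idl T x : Submodule O A) * idl T x ⊔ P • (idl T x : Submodule O A) : Submodule O A)
      rw [h, add_assoc, add_sub_cancel_left]
      exact Submodule.add_mem_sup (Submodule.sum_mem _ fun j _ => Submodule.smul_mem _ _
        (sub_mem (Submodule.mul_mem_mul (mem_NahmG j) (mem_NahmG i))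
          (Submodule.mul_mem_mul (mem_NahmG i) (mem_NahmG j))))
        (Submodule.smul_mem_smul hP (add_mem (RI_NahmG (Submodule.mul_mem_mul hr (mem_NahmG i)))
          (IR_NahmG (Submodule.mul_mem_mul (mem_NahmG i) hr'))))
    · exact RI_NahmG (Submodule.mul_mem_mul hr hq.1)
    · change del_NahmG O z (r * q) - r * q ∈
        ((idl T x : Submodule O A) * idl T x ⊔ P • (idl T x : Submodule O A) : Submodule O A)
      rw [del_mul_NahmG, add_sub_assoc, ← mul_sub]
      exact add_mem (sup_mul_NahmG P le_rfl RI_NahmG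
        (Submodule.mul_mem_mul (one_NahmG hP hz hT hr) hq.1))
        (mul_sup_NahmG P hRII RI_NahmG (Submodule.mul_mem_mul hr hq.2))
    · exact IR_NahmG (Submodule.mul_mem_mul hq.1 hr)
    · change del_NahmG O z (q * r) - q * r ∈
        ((idl T x : Submodule O A) * idl T x ⊔ P • (idl T x : Submodule O A) : Submodule O A)
      rw [del_mul_NahmG, add_sub_right_comm, ← sub_mul]
      exact add_mem (sup_mul_NahmG P hIIR IR_NahmG (Submodule.mul_mem_mul hq.2 hr))
        (mul_sup_NahmG P le_rfl IR_NahmG (Submodule.mul_mem_mul hq.1 (one_NahmG hP hz hT hr)))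
  exact (key hy).2

theorem pow_NahmG {I : Submodule O A} (h : ∀ y ∈ I, del_NahmG O z y - y ∈ I * I ⊔ P • I) (k : ℕ) :
    ∀ y ∈ I ^ k, del_NahmG O z y - (k : O) • y ∈ I ^ (k + 1) ⊔ P • I ^ k := by
  induction k with
  | zero =>
    intro y hy
    rw [pow_zero, Submodule.mem_one] at hy
    obtain ⟨a, rfl⟩ := hy
    rw [del_apply_NahmG, Algebra.commutes, sub_self, Nat.cast_zero, zero_smul, sub_self]
    exact zero_mem _
  | succ k ih =>
    intro y hy
    rw [pow_succ] at hy
    refine Submodule.mul_induction_on hy (fun a ha b hb => ?_) (fun a b ha hb => ?_)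
    · have e : del_NahmG O z (a * b) - ((k + 1 : ℕ) : O) • (a * b) =
          (del_NahmG O z a - (k : O) • a) * b + a * (del_NahmG O z b - b) := by
        rw [del_mul_NahmG, Nat.cast_succ, add_smul, one_smul, sub_mul, mul_sub, smul_mul_assoc]
        abel
      rw [e]
      refine add_mem (sup_mul_NahmG P (pow_succ I (k + 1)).ge (pow_succ I k).ge
        (Submodule.mul_mem_mul (ih a ha) hb))
        (mul_sup_NahmG P ?_ (pow_succ I k).ge (Submodule.mul_mem_mul ha (h b hb)))
      rw [pow_succ, pow_succ, mul_assoc]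
    · rw [map_add, smul_add, add_sub_add_comm]; exact add_mem ha hb

theorem poly_NahmG {δ : Module.End O A} {J : Submodule O A} (hJ : ∀ y ∈ J, δ y ∈ J) {c : ℤ}
    {y : A} (hy : δ y - (c : O) • y ∈ J) (f : ℤ[X]) :
    aeval δ f y - ((f.eval c : ℤ) : O) • y ∈ J := by
  have h1 : ∀ n : ℕ, (δ ^ n) y - (c : O) ^ n • y ∈ J := fun n => by
    induction n with
    | zero => simp
    | succ n ih =>
      have e : (δ ^ (n + 1)) y - (c : O) ^ (n + 1) • y =
          δ ((δ ^ n) y - (c : O) ^ n • y) + (c : O) ^ n • (δ y - (c : O) • y) := by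
        rw [pow_succ', Module.End.mul_apply, map_sub, map_smul, smul_sub, smul_smul, pow_succ]
        abel
      rw [e]; exact add_mem (hJ _ ih) (J.smul_mem _ hy)
  induction f using Polynomial.induction_on' with
  | add f g hf hg =>
    rw [map_add, eval_add, Int.cast_add, add_smul, LinearMap.add_apply, add_sub_add_comm]
    exact add_mem hf hg
  | monomial n a =>
    have := J.smul_mem (a : O) (h1 n)
    rw [smul_sub, smul_smul] at this
    rw [aeval_monomial, eval_monomial, eq_intCast, Module.End.mul_apply, Module.End.intCast_apply,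
      ← Int.cast_smul_eq_zsmul O, Int.cast_mul, Int.cast_pow]
    exact this

/-- the flag spanned by the words -/
def flag_NahmG (P : Ideal O) (x : Fin 3 → A) : ℕ → Submodule O A
  | 0 => ⊤
  | j + 1 => (⨆ i, (flag_NahmG P x j).map (LinearMap.mulLeft O (x i))) ⊔ P • ⊤

theorem flag_x_NahmG {j : ℕ} (i : Fin 3) {g : A} (hg : g ∈ flag_NahmG P x j) :
    x i * g ∈ flag_NahmG P x (j + 1) :=
  Submodule.mem_sup_left (Submodule.mem_iSup_of_mem i ⟨g, hg, rfl⟩)

theorem flag_P_NahmG (j : ℕ) : P • ⊤ ≤ flag_NahmG P x j := by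
  cases j with
  | zero => exact le_top
  | succ j => exact le_sup_right

theorem mulP_NahmG (a : A) {g : A} (hg : g ∈ P • (⊤ : Submodule O A)) :
    a * g ∈ P • (⊤ : Submodule O A) := by
  have : (⊤ : Submodule O A) * (P • ⊤) ≤ P • ⊤ := by
    rw [mul_smul_comm]; exact Submodule.smul_mono le_rfl le_top
  exact this (Submodule.mul_mem_mul trivial hg)

theorem Pmul_NahmG (a : A) {g : A} (hg : g ∈ P • (⊤ : Submodule O A)) :
    g * a ∈ P • (⊤ : Submodule O A) := by
  have : (P • ⊤) * (⊤ : Submodule O A) ≤ P • ⊤ := by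
    rw [smul_mul_assoc]; exact Submodule.smul_mono le_rfl le_top
  exact this (Submodule.mul_mem_mul hg trivial)

theorem flag_le_NahmG {j : ℕ} {a : A} {Q : Submodule O A} (hQ : P • ⊤ ≤ Q)
    (h : ∀ i, ∀ g ∈ flag_NahmG P x j, a * (x i * g) ∈ Q) :
    ∀ g ∈ flag_NahmG P x (j + 1), a * g ∈ Q := by
  have : flag_NahmG P x (j + 1) ≤ Q.comap (LinearMap.mulLeft O a) :=
    sup_le (iSup_le fun i => by rintro _ ⟨g, hg, rfl⟩; exact h i g hg)
      fun g hg => hQ (mulP_NahmG a hg)
  exact fun g hg => this hg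

theorem flag_anti_NahmG (j : ℕ) : ∀ g ∈ flag_NahmG P x (j + 1), g ∈ flag_NahmG P x j := by
  induction j with
  | zero => exact fun _ _ => trivial
  | succ j ih =>
    have := flag_le_NahmG (x := x) (j := j + 1) (a := 1) (flag_P_NahmG (P := P) (x := x) (j + 1))
      fun i g hg => by rw [one_mul]; exact flag_x_NahmG i (ih g hg)
    simpa only [one_mul] using this

theorem flag_z_NahmG (hP : π ∈ P)
    (hr : ∀ i, ∃ c : Fin 3 → O, ∃ r ∈ Algebra.adjoin O T, ∃ r' ∈ Algebra.adjoin O T,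
      z * x i - x i * z = x i + ∑ j, c j • (x j * x i - x i * x j) + π • (r * x i + x i * r'))
    (j : ℕ) : ∀ g ∈ flag_NahmG P x j, z * g ∈ flag_NahmG P x j := by
  induction j with
  | zero => exact fun _ _ => trivial
  | succ j ih =>
    refine flag_le_NahmG (flag_P_NahmG _) fun i g hg => ?_
    obtain ⟨c, r, -, r', -, h⟩ := hr i
    have e : z * (x i * g) = x i * (z * g) + (z * x i - x i * z) * g := by noncomm_ring
    rw [e, h, add_mul, add_mul, Finset.sum_mul, smul_mul_assoc]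
    refine add_mem (flag_x_NahmG i (ih g hg)) (add_mem (add_mem (flag_x_NahmG i hg)
      (Submodule.sum_mem _ fun l _ => ?_)) (flag_P_NahmG _ (Submodule.smul_mem_smul hP trivial)))
    rw [smul_mul_assoc, sub_mul, mul_assoc, mul_assoc]
    exact Submodule.smul_mem _ _ (sub_mem
      (flag_x_NahmG l (flag_anti_NahmG j _ (flag_x_NahmG i hg)))
      (flag_x_NahmG i (flag_anti_NahmG j _ (flag_x_NahmG l hg))))

theorem flag_R_NahmG (hP : π ∈ P)
    (hT : ∀ y ∈ T, ∃ (a : O) (c : Fin 3 → O), ∃ r ∈ Algebra.adjoin O T,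
      y = a • z + ∑ j, c j • x j + π • r)
    (hr : ∀ i, ∃ c : Fin 3 → O, ∃ r ∈ Algebra.adjoin O T, ∃ r' ∈ Algebra.adjoin O T,
      z * x i - x i * z = x i + ∑ j, c j • (x j * x i - x i * x j) + π • (r * x i + x i * r'))
    (j : ℕ) {r : A} (h : r ∈ Algebra.adjoin O T) :
    ∀ g ∈ flag_NahmG P x j, r * g ∈ flag_NahmG P x j := by
  induction h using Algebra.adjoin_induction with
  | mem y hy =>
    obtain ⟨a, c, r, -, rfl⟩ := hT y hy
    intro g hg
    rw [add_mul, add_mul, smul_mul_assoc, smul_mul_assoc, Finset.sum_mul]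
    refine add_mem (add_mem (Submodule.smul_mem _ _ (flag_z_NahmG hP hr j g hg))
      (Submodule.sum_mem _ fun l _ => ?_)) (flag_P_NahmG _ (Submodule.smul_mem_smul hP trivial))
    rw [smul_mul_assoc]
    exact Submodule.smul_mem _ _ (flag_anti_NahmG j _ (flag_x_NahmG l hg))
  | algebraMap a => intro g hg; rw [← Algebra.smul_def]; exact Submodule.smul_mem _ _ hg
  | add a b _ _ ha hb => intro g hg; rw [add_mul]; exact add_mem (ha g hg) (hb g hg)
  | mul a b _ _ ha hb => intro g hg; rw [mul_assoc]; exact ha _ (hb g hg)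

theorem four_NahmG (hP : π ∈ P)
    (hT : ∀ y ∈ T, ∃ (a : O) (c : Fin 3 → O), ∃ r ∈ Algebra.adjoin O T,
      y = a • z + ∑ j, c j • x j + π • r)
    (hr : ∀ i, ∃ c : Fin 3 → O, ∃ r ∈ Algebra.adjoin O T, ∃ r' ∈ Algebra.adjoin O T,
      z * x i - x i * z = x i + ∑ j, c j • (x j * x i - x i * x j) + π • (r * x i + x i * r'))
    {n : ℕ} (hw : ∀ w : List (Fin 3), w.length = n → (w.map x).prod ∈ P • (⊤ : Submodule O A)) :
    (idl T x : Submodule O A) ^ n ≤ P • ⊤ := by
  have h1 : ∀ j, (idl T x : Submodule O A) * flag_NahmG P x j ≤ flag_NahmG P x (j + 1) := by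
    intro j
    have : (idl T x : Submodule O A) ≤ ⨅ g : flag_NahmG P x j,
        (flag_NahmG P x (j + 1)).comap (LinearMap.mulRight O g.1) := by
      refine le_NahmG (fun i => ?_) (fun r h q hq => ?_) (fun r h q hq => ?_)
      · exact (Submodule.mem_iInf _).2 fun g => flag_x_NahmG i g.2
      · refine (Submodule.mem_iInf _).2 fun g => ?_
        change r * q * g ∈ flag_NahmG P x (j + 1)
        rw [mul_assoc]
        exact flag_R_NahmG hP hT hr _ h _ ((Submodule.mem_iInf _).1 hq g)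
      · refine (Submodule.mem_iInf _).2 fun g => ?_
        change q * r * g ∈ flag_NahmG P x (j + 1)
        rw [mul_assoc]
        exact (Submodule.mem_iInf _).1 hq ⟨r * g, flag_R_NahmG hP hT hr _ h _ g.2⟩
    exact Submodule.mul_le.2 fun a ha g hg => (Submodule.mem_iInf _).1 (this ha) ⟨g, hg⟩
  have h2 : ∀ j, (idl T x : Submodule O A) ^ j ≤ flag_NahmG P x j := fun j => by
    induction j with
    | zero => exact le_top
    | succ j ih => rw [pow_succ']; exact (mul_le_mul' le_rfl ih).trans (h1 j)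
  have h3 : ∀ j, ∀ w : List (Fin 3), w.length + j = n → ∀ g ∈ flag_NahmG P x j,
      (w.map x).prod * g ∈ P • (⊤ : Submodule O A) := fun j => by
    induction j with
    | zero => exact fun w h g _ => Pmul_NahmG g (hw w h)
    | succ j ih =>
      refine fun w h => flag_le_NahmG le_rfl fun i g hg => ?_
      have := ih (w ++ [i]) (by simp; omega) g hg
      simpa [mul_assoc] using this
  intro y hy
  simpa using h3 n [] (by simp) y (h2 n hy)

theorem krull_NahmG [IsNoetherianRing O] [IsLocalRing O] [Module.Finite O A] (hP : P ≠ ⊤)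
    {J : Submodule O A} {y : A} (h : ∀ N : ℕ, y ∈ J ⊔ P ^ N • (⊤ : Submodule O A)) : y ∈ J := by
  rw [← Submodule.Quotient.mk_eq_zero, ← Submodule.mem_bot O,
    ← Ideal.iInf_pow_smul_eq_bot_of_isLocalRing (M := A ⧸ J) P hP, Submodule.mem_iInf]
  intro N
  have : J ⊔ P ^ N • (⊤ : Submodule O A) ≤ (P ^ N • (⊤ : Submodule O (A ⧸ J))).comap J.mkQ := by
    refine sup_le (fun a ha => ?_) ?_
    · rw [Submodule.mem_comap, Submodule.mkQ_apply, (Submodule.Quotient.mk_eq_zero J).2 ha]
      exact zero_mem _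
    · rw [← Submodule.map_le_iff_le_comap, Submodule.map_smul'']
      exact Submodule.smul_mono le_rfl le_top
  exact this (h N)

theorem main_NahmG [IsNoetherianRing O] [IsLocalRing O] [Module.Finite O A] (hP : P ≠ ⊤)
    {I : Submodule O A} (hII : I * I ≤ I) (h : ∀ y ∈ I, del_NahmG O z y - y ∈ I * I ⊔ P • I)
    {n k : ℕ} (hn : I ^ n ≤ P • ⊤) {f : ℤ[X]} (hu : IsUnit ((f.eval ((k + 1 : ℕ) : ℤ) : ℤ) : O))
    (hf : ∀ y, aeval (del_NahmG O z) f y ∈ P • (⊤ : Submodule O A)) : I ^ (k + 1) = ⊥ := by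
  have hjac : P ≤ Ideal.jacobson ⊥ := by
    rw [IsLocalRing.jacobson_eq_maximalIdeal ⊥ bot_ne_top]
    exact IsLocalRing.le_maximalIdeal hP
  have hdec : ∀ j, I ^ (j + 1 + 1) ≤ I ^ (j + 1) := fun j => by
    rw [pow_succ, pow_succ, mul_assoc]; exact mul_le_mul' le_rfl hII
  have hpres : ∀ j, ∀ y ∈ I ^ (j + 1), del_NahmG O z y ∈ I ^ (j + 1) := fun j y hy => by
    have h1 := (sup_le (hdec j) Submodule.smul_le_right) (pow_NahmG h (j + 1) y hy)
    simpa using add_mem h1 (Submodule.smul_mem _ ((j + 1 : ℕ) : O) hy)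
  have hJ : ∀ y ∈ I ^ (k + 1 + 1) ⊔ P • I ^ (k + 1),
      del_NahmG O z y ∈ I ^ (k + 1 + 1) ⊔ P • I ^ (k + 1) := by
    have : (I ^ (k + 1 + 1) ⊔ P • I ^ (k + 1)).map (del_NahmG O z) ≤
        I ^ (k + 1 + 1) ⊔ P • I ^ (k + 1) := by
      rw [Submodule.map_sup, Submodule.map_smul'']
      exact sup_le_sup (Submodule.map_le_iff_le_comap.2 (hpres _))
        (Submodule.smul_mono le_rfl (Submodule.map_le_iff_le_comap.2 (hpres _)))
    exact fun y hy => this ⟨y, hy, rfl⟩
  have hD : ∀ N : ℕ, ∀ y, (aeval (del_NahmG O z) f ^ N) y ∈ P ^ N • (⊤ : Submodule O A) := by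
    intro N
    induction N with
    | zero => simp
    | succ N ih =>
      intro y
      have : (P ^ N • (⊤ : Submodule O A)).map (aeval (del_NahmG O z) f) ≤ P ^ (N + 1) • ⊤ := by
        rw [Submodule.map_smul'', pow_succ, mul_smul]
        exact Submodule.smul_mono le_rfl (by rintro _ ⟨a, -, rfl⟩; exact hf a)
      rw [pow_succ' (aeval (del_NahmG O z) f), Module.End.mul_apply]
      exact this ⟨_, ih y, rfl⟩
  have h1 : I ^ (k + 1) ≤ I ^ (k + 1 + 1) ⊔ P • I ^ (k + 1) := fun y hy => by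
    refine krull_NahmG hP fun N => ?_
    have h2 := poly_NahmG hJ (c := ((k + 1 : ℕ) : ℤ))
      (by rw [Int.cast_natCast]; exact pow_NahmG h (k + 1) y hy) (f ^ N)
    rw [map_pow, eval_pow, Int.cast_pow] at h2
    have h3 := sub_mem (Submodule.mem_sup_right (S := I ^ (k + 1 + 1) ⊔ P • I ^ (k + 1)) (hD N y))
      (Submodule.mem_sup_left h2)
    rw [sub_sub_cancel] at h3
    exact (Submodule.smul_mem_iff_of_isUnit _ (hu.pow N)).1 h3
  have h2 : I ^ (k + 1) ≤ I ^ (k + 1 + 1) :=
    Submodule.le_of_le_smul_of_le_jacobson_bot (IsNoetherian.noetherian _) hjac h1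
  have h3 : ∀ j, I ^ (k + 1) ≤ I ^ j * I ^ (k + 1) := fun j => by
    induction j with
    | zero => rw [pow_zero, one_mul]
    | succ j ih =>
      refine ih.trans ((mul_le_mul' le_rfl h2).trans_eq ?_)
      rw [← pow_add, ← pow_add]; congr 1; ring
  have h4 : ⊤ * I ^ (k + 1) ≤ P • (⊤ * I ^ (k + 1)) := by
    refine (mul_le_mul' le_rfl ((h3 n).trans (mul_le_mul' hn le_rfl))).trans ?_
    rw [smul_mul_assoc, mul_smul_comm, ← mul_assoc]
    exact Submodule.smul_mono le_rfl (mul_le_mul' le_top le_rfl)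
  have h5 := Submodule.eq_bot_of_le_smul_of_le_jacobson_bot P _ (IsNoetherian.noetherian _) h4 hjac
  refine le_bot_iff.1 fun y hy => ?_
  rw [← h5, ← one_mul y]
  exact Submodule.mul_mem_mul trivial hy

end

theorem red_NahmG {p : ℕ} [Fact p.Prime] {n : ℕ} {y : Matrix (Fin n) (Fin n) ℤ_[p]}
    (h : ∀ i j, PadicInt.toZMod (y i j) = 0) :
    y ∈ Ideal.span {(p : ℤ_[p])} • (⊤ : Submodule ℤ_[p] (Matrix (Fin n) (Fin n) ℤ_[p])) := by
  have : ∀ i j, ∃ a, a * (p : ℤ_[p]) = y i j := fun i j => by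
    rw [← Ideal.mem_span_singleton', ← PadicInt.maximalIdeal_eq_span_p, ← PadicInt.ker_toZMod]
    exact h i j
  choose a ha using this
  have e : y = (p : ℤ_[p]) • Matrix.of a := by
    ext i j; rw [Matrix.smul_apply, smul_eq_mul, mul_comm, ← ha]; rfl
  rw [e]
  exact Submodule.smul_mem_smul (Ideal.mem_span_singleton_self _) trivial

theorem adm_NahmG {O F : Type} [CommRing O] [CommRing F] (φ : O →+* F) {n : ℕ}
    (z y : Matrix (Fin n) (Fin n) O) :
    (fun s : Fin n × Fin n => φ (del_NahmG O z y s.1 s.2)) =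
      adm (z.map φ) *ᵥ fun s => φ (y s.1 s.2) := by
  funext s
  simp [del_apply_NahmG, adm, Matrix.mulVec, dotProduct, Matrix.mul_apply, Fintype.sum_prod_type,
    Matrix.one_apply, mul_sub, Finset.sum_sub_distrib, mul_comm, Finset.sum_ite_irrel]

theorem aev_NahmG {O F : Type} [CommRing O] [CommRing F] (φ : O →+* F) {n : ℕ}
    (z y : Matrix (Fin n) (Fin n) O) (f : ℤ[X]) :
    (fun s : Fin n × Fin n => φ (aeval (del_NahmG O z) f y s.1 s.2)) =
      aeval (adm (z.map φ)) f *ᵥ fun s => φ (y s.1 s.2) := by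
  have h1 : ∀ m : ℕ, (fun s : Fin n × Fin n => φ ((del_NahmG O z ^ m) y s.1 s.2)) =
      adm (z.map φ) ^ m *ᵥ fun s => φ (y s.1 s.2) := fun m => by
    induction m with
    | zero => simp
    | succ m ih => rw [pow_succ', pow_succ', Module.End.mul_apply, adm_NahmG, ih, mulVec_mulVec]
  induction f using Polynomial.induction_on' with
  | add f g hf hg =>
    rw [map_add, map_add, add_mulVec, ← hf, ← hg]
    funext s; simp
  | monomial m a =>
    rw [aeval_monomial, aeval_monomial, eq_intCast, eq_intCast, Module.End.mul_apply,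
      Module.End.intCast_apply, ← zsmul_eq_mul, smul_mulVec, ← h1]
    funext s; simp

theorem unit_NahmG {p : ℕ} [Fact p.Prime] {K : ℕ} (hK : 2 * K + 1 < p) :
    IsUnit ((((gK K).eval ((K + 1 : ℕ) : ℤ) : ℤ)) : ℤ_[p]) := by
  rw [gK, eval_prod, Int.cast_prod]
  refine IsUnit.prod_iff.2 fun a ha => ?_
  rw [Finset.mem_Icc] at ha
  rw [eval_sub, eval_X, eval_C, PadicInt.isUnit_iff]
  refine le_antisymm (PadicInt.norm_le_one _) (not_lt.1 fun h => ?_)
  have := Int.le_of_dvd (by omega) ((PadicInt.norm_int_lt_one_iff_dvd _).1 h)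
  omega

theorem idl_pow {p : ℕ} [Fact p.Prime] {n K : ℕ} (hK : 2 * K + 1 < p)
    (T : Set (Matrix (Fin n) (Fin n) ℤ_[p])) (z : Matrix (Fin n) (Fin n) ℤ_[p])
    (x : Fin 3 → Matrix (Fin n) (Fin n) ℤ_[p]) (hz : z ∈ T) (hx : ∀ i, x i ∈ T)
    (hT : ∀ y ∈ T, ∃ (a : ℤ_[p]) (c : Fin 3 → ℤ_[p]), ∃ r ∈ Algebra.adjoin ℤ_[p] T,
      y = a • z + ∑ j, c j • x j + (p : ℤ_[p]) • r)
    (hr : ∀ i, ∃ c : Fin 3 → ℤ_[p], ∃ r ∈ Algebra.adjoin ℤ_[p] T, ∃ r' ∈ Algebra.adjoin ℤ_[p] T,
      z * x i - x i * z = x i + ∑ j, c j • (x j * x i - x i * x j) +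
        (p : ℤ_[p]) • (r * x i + x i * r'))
    (hw : ∀ w : List (Fin 3), w.length = n →
      (w.map fun i => (x i).map PadicInt.toZMod).prod = 0)
    (hf : aeval (adm (z.map PadicInt.toZMod)) (gK K) = 0) :
    (idl T x : Submodule ℤ_[p] _) ^ (K + 1) = ⊥ := by
  have hP : (p : ℤ_[p]) ∈ Ideal.span {(p : ℤ_[p])} := Ideal.mem_span_singleton_self _
  refine main_NahmG (z := z) (P := Ideal.span {(p : ℤ_[p])}) (n := n) ?_
    ((mul_le_mul' le_rfl (IleR_NahmG hx)).trans IR_NahmG)
    (fun y hy => two_NahmG hP hz hT hr hy) (four_NahmG hP hT hr fun w h => red_NahmG ?_)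
    (unit_NahmG hK) fun y => red_NahmG fun i j => ?_
  · rw [← PadicInt.maximalIdeal_eq_span_p]
    exact (IsLocalRing.maximalIdeal.isMaximal _).ne_top
  · have h1 := map_list_prod (PadicInt.toZMod (p := p)).mapMatrix (w.map x)
    rw [List.map_map] at h1
    exact fun i j => congrFun (congrFun (h1.trans (hw w h)) i) j
  · have := congrFun (aev_NahmG PadicInt.toZMod z y (gK K)) (i, j)
    rwa [hf, zero_mulVec] at this

end Pool.Agent.MP_f68ac8_nt.Nahm
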