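import Mathlib
import Pool.Agent.MP_f68ac8_nt.NahmDefs

namespace Pool.Agent.MP_f68ac8_nt.Nahm

open Polynomial Matrix
open scoped LaurentPolynomial Kronecker

section
variable {F : Type} [Field F] {n : ℕ}

theorem pow_zero_NahmI {a : F} {N : ℕ} (h : a ^ N = 0) : a = 0 :=
  eq_zero_of_pow_eq_zero h

theorem int_spec_NahmI (y : Matrix (Fin n) (Fin n) F) (K N : ℕ)
    (h : aeval y (gK K ^ N) = 0) (t : F) (ht : t ∈ spectrum F y) : ∃ a : ℤ, t = a := by
  have h1 : aeval y ((gK K ^ N).map (algebraMap ℤ F)) = 0 := by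
    rw [aeval_map_algebraMap]; exact h
  have h2 := spectrum.subset_polynomial_aeval y ((gK K ^ N).map (algebraMap ℤ F)) ⟨t, ht, rfl⟩
  rw [h1] at h2
  have h3 : eval t ((gK K ^ N).map (algebraMap ℤ F)) = 0 := by
    by_contra hne
    rw [spectrum.mem_iff] at h2
    apply h2
    rw [sub_zero]
    exact (IsUnit.mk0 _ hne).map (algebraMap F (Matrix (Fin n) (Fin n) F))
  rw [Polynomial.map_pow, eval_pow] at h3
  have h4 := pow_zero_NahmI h3
  rw [gK, Polynomial.map_prod, eval_prod, Finset.prod_eq_zero_iff] at h4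
  obtain ⟨a, -, ha⟩ := h4
  refine ⟨a, ?_⟩
  simpa [sub_eq_zero] using ha

theorem trace_int_NahmI [IsAlgClosed F] (y : Matrix (Fin n) (Fin n) F)
    (h : ∀ t ∈ spectrum F y, ∃ a : ℤ, t = a) : ∃ k : ℤ, trace y = k := by
  rw [Matrix.trace_eq_sum_roots_charpoly]
  have h1 : y.charpoly.roots.sum ∈ (Int.castRingHom F).range := by
    apply Subring.multiset_sum_mem
    intro t ht
    have h2 : t ∈ spectrum F y := by
      rw [Matrix.mem_spectrum_iff_isRoot_charpoly]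
      exact isRoot_of_mem_roots ht
    obtain ⟨a, ha⟩ := h t h2
    exact ⟨a, ha.symm⟩
  obtain ⟨k, hk⟩ := h1
  exact ⟨k, hk.symm⟩

theorem sq_spec_NahmI [IsAlgClosed F] (y : Matrix (Fin n) (Fin n) F)
    (h : ∀ t ∈ spectrum F y, ∃ a : ℤ, t = a) : ∀ t ∈ spectrum F (y * y), ∃ a : ℤ, t = a := by
  intro t ht
  rw [← sq, spectrum.map_pow_of_pos y (by norm_num : 0 < 2)] at ht
  obtain ⟨s, hs, rfl⟩ := ht
  obtain ⟨a, rfl⟩ := h s hs
  exact ⟨a ^ 2, by push_cast; rfl⟩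

theorem schur_NahmI [IsAlgClosed F] (hn : 0 < n) (z : Matrix (Fin n) (Fin n) F)
    (x : Fin 3 → Matrix (Fin n) (Fin n) F)
    (hirr : ∀ W : Submodule F (Fin n → F), (∀ w ∈ W, z *ᵥ w ∈ W) → (∀ i, ∀ w ∈ W, x i *ᵥ w ∈ W) →
        W = ⊥ ∨ W = ⊤)
    (C0 : Matrix (Fin n) (Fin n) F) (hz : Commute C0 z) (hx : ∀ i, Commute C0 (x i)) :
    ∃ c : F, C0 = c • (1 : Matrix (Fin n) (Fin n) F) := by
  have : Nonempty (Fin n) := ⟨⟨0, hn⟩⟩
  obtain ⟨c, hc⟩ := spectrum.nonempty_of_isAlgClosed_of_finiteDimensional F C0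
  refine ⟨c, ?_⟩
  set D : Matrix (Fin n) (Fin n) F := algebraMap F _ c - C0 with hD
  have hdet : D.det = 0 := by
    rw [spectrum.mem_iff, Matrix.isUnit_iff_isUnit_det, isUnit_iff_ne_zero, not_not] at hc
    exact hc
  obtain ⟨v, hv0, hv⟩ := Matrix.exists_mulVec_eq_zero_iff.2 hdet
  have key : ∀ y : Matrix (Fin n) (Fin n) F, Commute C0 y →
      ∀ w ∈ LinearMap.ker (Matrix.toLin' D), y *ᵥ w ∈ LinearMap.ker (Matrix.toLin' D) := by
    intro y hy w hw
    rw [LinearMap.mem_ker, Matrix.toLin'_apply] at hw ⊢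
    have hc' : D * y = y * D := by
      rw [hD, sub_mul, mul_sub, hy.eq, Algebra.commutes]
    rw [Matrix.mulVec_mulVec, hc', ← Matrix.mulVec_mulVec, hw, Matrix.mulVec_zero]
  rcases hirr _ (key z hz) (fun i => key _ (hx i)) with h | h
  · exfalso
    apply hv0
    have : v ∈ LinearMap.ker (Matrix.toLin' D) := by
      rw [LinearMap.mem_ker, Matrix.toLin'_apply]; exact hv
    rw [h] at this
    exact (Submodule.mem_bot F).1 this
  · rw [LinearMap.ker_eq_top] at h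
    have h0 : D = 0 := by
      apply Matrix.toLin'.injective
      rw [h, map_zero]
    rw [hD, sub_eq_zero, Algebra.algebraMap_eq_smul_one] at h0
    exact h0.symm

theorem at_zero_NahmI (B A : Matrix (Fin n) (Fin n) F) (p : ℤ[X])
    (h : aeval (B.map C + (X : F[X]) • A.map C) p = 0) : aeval B p = 0 := by
  let f : Matrix (Fin n) (Fin n) F[X] →+* Matrix (Fin n) (Fin n) F :=
    (evalRingHom (0 : F)).mapMatrix
  have h1 : f (B.map C + (X : F[X]) • A.map C) = B := by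
    ext i j
    simp [f]
  have h2 := aeval_algHom_apply f.toIntAlgHom (B.map C + (X : F[X]) • A.map C) p
  rw [h, map_zero] at h2
  rw [← h2]
  exact congrArg (fun y => aeval y p) h1.symm

/-- traces in the normal form -/
theorem traces_NahmI [CharZero F] (B A0 A1 A2 : Matrix (Fin n) (Fin n) F) (h : Rel B A0 A1 A2)
    (u0 u1 u2 : F) :
    trace (B - u0 • A0 - u1 • A1 - u2 • A2) = trace B ∧
    trace ((B - u0 • A0 - u1 • A1 - u2 • A2) * (B - u0 • A0 - u1 • A1 - u2 • A2)) =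
      trace (B * B) + 2 * trace (A0 * A2) * (u1 - u1 ^ 2 + u0 * u2) := by
  obtain ⟨r0, r1, r2⟩ := h
  have cyc : ∀ P Q R : Matrix (Fin n) (Fin n) F, trace (P * (Q * R)) = trace (Q * (R * P)) := by
    intro P Q R
    rw [trace_mul_comm, mul_assoc]
  have t0 : trace A0 = 0 := by
    rw [← r0, trace_sub, trace_mul_comm, sub_self]
  have t1 : trace A1 = 0 := by
    rw [← r1, trace_add, trace_sub, trace_sub, trace_mul_comm B, trace_mul_comm A2, sub_self,
      sub_self, add_zero]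
  have t2 : trace A2 = 0 := by
    rw [← r2, trace_sub, trace_mul_comm, sub_self]
  have e0 : ∀ P : Matrix (Fin n) (Fin n) F,
      trace (P * A0) = trace (P * (B * A0)) - trace (P * (A0 * B)) := by
    intro P
    rw [← trace_sub, ← mul_sub, r0]
  have e1 : ∀ P : Matrix (Fin n) (Fin n) F,
      trace (P * A1) = trace (P * (B * A1)) - trace (P * (A1 * B)) +
        (trace (P * (A2 * A0)) - trace (P * (A0 * A2))) := by
    intro P
    rw [← trace_sub, ← trace_sub, ← trace_add, ← mul_sub, ← mul_sub, ← mul_add, r1]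
  have e2 : ∀ P : Matrix (Fin n) (Fin n) F,
      trace (P * A2) = trace (P * (B * A2)) - trace (P * (A1 * A2)) -
        (trace (P * (A2 * B)) - trace (P * (A2 * A1))) := by
    intro P
    rw [← trace_sub, ← trace_sub, ← trace_sub, ← mul_sub, ← mul_sub, ← mul_sub, ← sub_mul,
      ← mul_sub, r2]
  have sB0 : trace (B * A0) = 0 := by
    linear_combination e0 B + cyc B B A0
  have s00 : trace (A0 * A0) = 0 := by
    linear_combination e0 A0 - cyc A0 A0 B
  have s22 : trace (A2 * A2) = 0 := by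
    linear_combination e2 A2 - cyc A2 A2 B + cyc A2 A2 A1
  have s01 : trace (A0 * A1) = 0 := by
    linear_combination (1 / 2 : F) * (e1 A0 + e0 A1 - cyc A1 A0 B - cyc A0 A1 B - cyc A0 A0 A2 -
      trace_mul_comm A1 A0)
  have s12 : trace (A1 * A2) = 0 := by
    linear_combination (1 / 2 : F) * (e1 A2 + e2 A1 - cyc A1 A2 B - cyc A2 A1 B + cyc A2 A2 A0 -
      cyc A1 A1 A2 - trace_mul_comm A2 A1)
  have s11 : trace (A1 * A1) = -2 * trace (A0 * A2) := by
    linear_combination e1 A1 + e2 A0 + e0 A2 - cyc A1 A1 B - cyc A0 A1 A2 - cyc A1 A0 A2 -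
      cyc A2 A0 B - cyc A0 A2 B - trace_mul_comm A2 A0
  have sB1 : trace (B * A1) = -trace (A0 * A2) := by
    linear_combination e1 B + e0 A2 + cyc B B A1 + cyc B A2 A0 + cyc A2 B A0 -
      trace_mul_comm A2 A0
  have sB2 : trace (B * A2) = 0 := by
    linear_combination e2 B - e2 A1 + cyc B B A2 - cyc B A1 A2 - cyc A1 B A2 + cyc A1 A1 A2 + s12
  constructor
  · simp only [trace_sub, trace_smul, t0, t1, t2, smul_zero, sub_zero]
  · simp only [mul_sub, sub_mul, smul_mul_assoc, mul_smul_comm, trace_sub, trace_smul,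
      smul_eq_mul]
    rw [trace_mul_comm A0 B, trace_mul_comm A1 B, trace_mul_comm A2 B, trace_mul_comm A1 A0,
      trace_mul_comm A2 A0, trace_mul_comm A2 A1, sB0, sB1, sB2, s00, s01, s11, s12, s22]
    ring

end

theorem irr_stmt (F : Type) [Field F] [CharZero F] [IsAlgClosed F] (hA : AStmt F) (hB : BStmt F) :
    IrrStmt F := by
  intro m hm n z x hn hS hirr γ K N hγ
  rw [algebraicIndependent_iff] at hm
  have hα : m 2 0 - m 1 0 ≠ 0 := by
    intro h
    have h1 := hm (MvPolynomial.X (2, 0) - MvPolynomial.X (1, 0)) (by simpa using h)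
    have h2 := congrArg (MvPolynomial.eval fun s : Fin 3 × Fin 3 => if s = (2, 0) then 1 else 0) h1
    simp at h2
  have hβ : m 0 1 - m 2 1 ≠ 0 := by
    intro h
    have h1 := hm (MvPolynomial.X (0, 1) - MvPolynomial.X (2, 1)) (by simpa using h)
    have h2 := congrArg (MvPolynomial.eval fun s : Fin 3 × Fin 3 => if s = (0, 1) then 1 else 0) h1
    simp at h2
  have hδ : m 1 2 - m 0 2 ≠ 0 := by
    intro h
    have h1 := hm (MvPolynomial.X (1, 2) - MvPolynomial.X (0, 2)) (by simpa using h)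
    have h2 := congrArg (MvPolynomial.eval fun s : Fin 3 × Fin 3 => if s = (1, 2) then 1 else 0) h1
    simp at h2
  have S0 := hS 0
  have S1 := hS 1
  have S2 := hS 2
  simp only [Fin.sum_univ_three] at S0 S1 S2
  obtain ⟨A0, hA0⟩ : ∃ A0, A0 = (m 2 0 - m 1 0) • x 0 := ⟨_, rfl⟩
  obtain ⟨A2, hA2⟩ : ∃ A2, A2 = (m 1 2 - m 0 2) • x 2 := ⟨_, rfl⟩
  obtain ⟨A1, hA1⟩ : ∃ A1, A1 = (m 0 1 - m 2 1) • x 1 - (m 2 0 - m 1 0) • x 0 -
      (m 1 2 - m 0 2) • x 2 := ⟨_, rfl⟩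
  obtain ⟨B, hB'⟩ : ∃ B, B = z + m 1 0 • x 0 + m 0 1 • x 1 + m 0 2 • x 2 := ⟨_, rfl⟩
  have hrel : ∀ c : F, Rel (B - c • (1 : Matrix (Fin n) (Fin n) F)) A0 A1 A2 := by
    intro c
    simp only [mul_add, add_mul, smul_mul_assoc, mul_smul_comm] at S0 S1 S2
    refine ⟨?_, ?_, ?_⟩
    · rw [hB', hA0]
      simp only [mul_add, add_mul, mul_sub, sub_mul, smul_mul_assoc, mul_smul_comm, mul_one,
        one_mul]
      linear_combination (norm := module) (m 2 0 - m 1 0) • S0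
    · rw [hB', hA0, hA1, hA2]
      simp only [mul_add, add_mul, mul_sub, sub_mul, smul_mul_assoc, mul_smul_comm, mul_one,
        one_mul]
      linear_combination (norm := module) (m 0 1 - m 2 1) • S1 - (m 2 0 - m 1 0) • S0 -
        (m 1 2 - m 0 2) • S2
    · rw [hB', hA1, hA2]
      simp only [mul_add, add_mul, mul_sub, sub_mul, smul_mul_assoc, mul_smul_comm, mul_one,
        one_mul]
      linear_combination (norm := module) (m 1 2 - m 0 2) • S2
  have hx0 : x 0 = (m 2 0 - m 1 0)⁻¹ • A0 := by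
    rw [hA0, smul_smul, inv_mul_cancel₀ hα, one_smul]
  have hx2 : x 2 = (m 1 2 - m 0 2)⁻¹ • A2 := by
    rw [hA2, smul_smul, inv_mul_cancel₀ hδ, one_smul]
  have hx1 : x 1 = (m 0 1 - m 2 1)⁻¹ • (A0 + A1 + A2) := by
    have : A0 + A1 + A2 = (m 0 1 - m 2 1) • x 1 := by
      rw [hA0, hA1, hA2]; abel
    rw [this, smul_smul, inv_mul_cancel₀ hβ, one_smul]
  have hz : z = B - m 1 0 • x 0 - m 0 1 • x 1 - m 0 2 • x 2 := by
    rw [hB']; abel
  have hrel0 : Rel B A0 A1 A2 := by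
    simpa using hrel 0
  obtain ⟨C0, K', cB, c0, c1, c2, hK'⟩ := hA n B A0 A1 A2 hrel0
  have cx : ∀ i, Commute C0 (x i) := by
    intro i
    fin_cases i
    · show Commute C0 (x 0)
      rw [hx0]; exact c0.smul_right _
    · show Commute C0 (x 1)
      rw [hx1]; exact ((c0.add_right c1).add_right c2).smul_right _
    · show Commute C0 (x 2)
      rw [hx2]; exact c2.smul_right _
  have cz : Commute C0 z := by
    rw [hz]
    exact ((cB.sub_right ((cx 0).smul_right _)).sub_right ((cx 1).smul_right _)).sub_right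
      ((cx 2).smul_right _)
  obtain ⟨c, hc⟩ := schur_NahmI hn z x hirr C0 cz cx
  rw [hc] at hK'
  obtain ⟨h, hh, hv⟩ := hB n K' _ A0 A1 A2 (hrel c) hK'
  have h0 : h = 0 := by
    by_contra hne
    have i1 := int_spec_NahmI (B - c • (1 : Matrix (Fin n) (Fin n) F)) K' 1
      (by rw [pow_one]; exact at_zero_NahmI _ _ _ hK')
    have i2 := int_spec_NahmI _ K N hγ
    obtain ⟨k1, hk1⟩ := trace_int_NahmI _ i2
    obtain ⟨k2, hk2⟩ := trace_int_NahmI _ (sq_spec_NahmI _ i2)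
    obtain ⟨k3, hk3⟩ := trace_int_NahmI _ i1
    obtain ⟨k4, hk4⟩ := trace_int_NahmI _ (sq_spec_NahmI _ i1)
    obtain ⟨T1, T2⟩ := traces_NahmI _ A0 A1 A2 (hrel c)
      (m 1 0 * (m 2 0 - m 1 0)⁻¹ + m 0 1 * (m 0 1 - m 2 1)⁻¹) (m 0 1 * (m 0 1 - m 2 1)⁻¹)
      (m 0 2 * (m 1 2 - m 0 2)⁻¹ + m 0 1 * (m 0 1 - m 2 1)⁻¹)
    obtain ⟨y, hy⟩ : ∃ y, y = z - γ • (1 : Matrix (Fin n) (Fin n) F) := ⟨_, rfl⟩
    have hzz : B - c • (1 : Matrix (Fin n) (Fin n) F) -
        (m 1 0 * (m 2 0 - m 1 0)⁻¹ + m 0 1 * (m 0 1 - m 2 1)⁻¹) • A0 -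
        (m 0 1 * (m 0 1 - m 2 1)⁻¹) • A1 -
        (m 0 2 * (m 1 2 - m 0 2)⁻¹ + m 0 1 * (m 0 1 - m 2 1)⁻¹) • A2 =
        y + (γ - c) • (1 : Matrix (Fin n) (Fin n) F) := by
      rw [hy, hz, hx0, hx1, hx2]
      module
    rw [← hy] at hk1 hk2
    rw [hzz] at T1 T2
    rw [hk3] at T1
    rw [hk4, hh] at T2
    simp only [mul_add, add_mul, smul_mul_assoc, mul_smul_comm, mul_one, one_mul, trace_add,
      trace_smul, trace_one, Fintype.card_fin, smul_eq_mul, hk1, hk2] at T1 T2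
    have hk : 2 * (n : F) * h * (m 0 1 * m 1 2 * m 2 0 - m 0 2 * m 2 1 * m 1 0) =
        ((n * k4 - n * k2 - 2 * (k3 - k1) * k1 - (k3 - k1) ^ 2 : ℤ) : F) *
          ((m 2 0 - m 1 0) * (m 0 1 - m 2 1) * (m 1 2 - m 0 2)) := by
      have hκ : (m 0 1 * m 1 2 * m 2 0 - m 0 2 * m 2 1 * m 1 0) =
          (m 0 1 * (m 0 1 - m 2 1)⁻¹ - (m 0 1 * (m 0 1 - m 2 1)⁻¹) ^ 2 +
            (m 1 0 * (m 2 0 - m 1 0)⁻¹ + m 0 1 * (m 0 1 - m 2 1)⁻¹) *
            (m 0 2 * (m 1 2 - m 0 2)⁻¹ + m 0 1 * (m 0 1 - m 2 1)⁻¹)) *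
          ((m 2 0 - m 1 0) * (m 0 1 - m 2 1) * (m 1 2 - m 0 2)) := by
        field_simp
        ring
      rw [hκ, ← mul_assoc]
      congr 1
      push_cast
      have hk3' : (k3 : F) = k1 + (γ - c) * n := T1.symm
      rw [hk3']
      linear_combination (n : F) * T2
    obtain ⟨k, hkk⟩ : ∃ k : ℤ, k = n * k4 - n * k2 - 2 * (k3 - k1) * k1 - (k3 - k1) ^ 2 := ⟨_, rfl⟩
    rw [← hkk] at hk
    have h1 := hm (MvPolynomial.C (2 * (n : ℤ) * h) *
        (MvPolynomial.X (0, 1) * MvPolynomial.X (1, 2) * MvPolynomial.X (2, 0) -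
          MvPolynomial.X (0, 2) * MvPolynomial.X (2, 1) * MvPolynomial.X (1, 0)) -
        MvPolynomial.C k * ((MvPolynomial.X (2, 0) - MvPolynomial.X (1, 0)) *
          (MvPolynomial.X (0, 1) - MvPolynomial.X (2, 1)) *
          (MvPolynomial.X (1, 2) - MvPolynomial.X (0, 2)))) (by
        simp only [map_sub, map_mul, MvPolynomial.aeval_X, eq_intCast, map_intCast,
          Int.cast_natCast, Int.cast_ofNat, map_natCast, map_ofNat]
        rw [hk, sub_self])
    have h2 := congrArg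
      (MvPolynomial.eval fun s : Fin 3 × Fin 3 => if s = (0, 2) then (0 : ℤ) else 1) h1
    simp at h2
    omega
  obtain ⟨v, hv0, v0, v1, v2⟩ := hv h0 hn
  refine ⟨v, hv0, fun i => ?_⟩
  fin_cases i
  · show x 0 *ᵥ v = 0
    rw [hx0, Matrix.smul_mulVec, v0, smul_zero]
  · show x 1 *ᵥ v = 0
    rw [hx1, Matrix.smul_mulVec, Matrix.add_mulVec, Matrix.add_mulVec, v0, v1, v2]
    simp
  · show x 2 *ᵥ v = 0
    rw [hx2, Matrix.smul_mulVec, v2, smul_zero]

end Pool.Agent.MP_f68ac8_nt.Nahm
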