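import Mathlib
import Pool.Agent.MP_f68ac8_nt.NahmDefs

namespace Pool.Agent.MP_f68ac8_nt.Nahm
open Polynomial Matrix
open scoped LaurentPolynomial Kronecker

theorem adj_mul_le_NahmS {R A : Type} [CommRing R] [Ring A] [Algebra R A] (T : Set A) :
    Subalgebra.toSubmodule (Algebra.adjoin R T) * Subalgebra.toSubmodule (Algebra.adjoin R T) ≤
      Subalgebra.toSubmodule (Algebra.adjoin R T) := by
  refine Submodule.mul_le.2 fun a ha b hb => ?_
  exact (Algebra.adjoin R T).mul_mem ha hb

theorem idl_le_NahmS {R A : Type} [CommRing R] [Ring A] [Algebra R A] (T : Set A)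
    (x : Fin 3 → A) (hx : ∀ i, x i ∈ T) :
    (idl T x : Submodule R A) ≤ Subalgebra.toSubmodule (Algebra.adjoin R T) := by
  have h1 : Submodule.span R (Set.range x) ≤ Subalgebra.toSubmodule (Algebra.adjoin R T) := by
    refine Submodule.span_le.2 ?_
    rintro _ ⟨i, rfl⟩
    exact Algebra.subset_adjoin (hx i)
  unfold idl
  refine Submodule.mul_le.2 fun a ha b hb => ?_
  have ha' : a ∈ Subalgebra.toSubmodule (Algebra.adjoin R T) := by
    refine (Submodule.mul_le.2 fun c hc d hd => ?_ :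
      Subalgebra.toSubmodule (Algebra.adjoin R T) * Submodule.span R (Set.range x) ≤
        Subalgebra.toSubmodule (Algebra.adjoin R T)) ha
    exact (Algebra.adjoin R T).mul_mem hc (h1 hd)
  exact (Algebra.adjoin R T).mul_mem ha' hb

theorem idl_mul_mem_NahmS {R A : Type} [CommRing R] [Ring A] [Algebra R A] (T : Set A)
    (x : Fin 3 → A) {y t : A} (hy : y ∈ (idl T x : Submodule R A)) (ht : t ∈ T) :
    y * t ∈ (idl T x : Submodule R A) := by
  have h1 : (idl T x : Submodule R A) * Subalgebra.toSubmodule (Algebra.adjoin R T) ≤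
      (idl T x : Submodule R A) := by
    unfold idl
    rw [mul_assoc]
    exact mul_le_mul_right (adj_mul_le_NahmS T) _
  exact h1 (Submodule.mul_mem_mul hy (Algebra.subset_adjoin ht))

theorem idl_pow_le_NahmS {R A : Type} [CommRing R] [Ring A] [Algebra R A] (T : Set A)
    (x : Fin 3 → A) (hx : ∀ i, x i ∈ T) (j : ℕ) :
    (idl T x : Submodule R A) ^ j ≤ Subalgebra.toSubmodule (Algebra.adjoin R T) := by
  induction j with
  | zero =>
    rw [pow_zero]
    exact Submodule.one_le.2 (Algebra.adjoin R T).one_mem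
  | succ j ih =>
    rw [pow_succ]
    refine Submodule.mul_le.2 fun a ha b hb => ?_
    exact (Algebra.adjoin R T).mul_mem (ih ha) (idl_le_NahmS T x hx hb)

theorem mem_idl_NahmS {R A : Type} [CommRing R] [Ring A] [Algebra R A] (T : Set A)
    (x : Fin 3 → A) (i : Fin 3) : x i ∈ (idl T x : Submodule R A) := by
  have h : (1 : A) * x i * 1 ∈ (idl T x : Submodule R A) := by
    unfold idl
    refine Submodule.mul_mem_mul (Submodule.mul_mem_mul ?_ ?_) ?_
    · exact (Algebra.adjoin R T).one_mem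
    · exact Submodule.subset_span ⟨i, rfl⟩
    · exact (Algebra.adjoin R T).one_mem
  simpa using h

theorem eq_zero_of_idl {p : ℕ} [Fact p.Prime] {n k : ℕ}
    (T : Set (Matrix (Fin n) (Fin n) ℤ_[p])) (x : Fin 3 → Matrix (Fin n) (Fin n) ℤ_[p])
    (hx : ∀ i, x i ∈ T) (h : (idl T x : Submodule ℤ_[p] _) ^ k = ⊥)
    (hs : ∀ W : Submodule ℚ_[p] (Fin n → ℚ_[p]),
      (∀ y ∈ T, ∀ w ∈ W, y.map (algebraMap ℤ_[p] ℚ_[p]) *ᵥ w ∈ W) →
      ∃ W' : Submodule ℚ_[p] (Fin n → ℚ_[p]), IsCompl W W' ∧
        ∀ y ∈ T, ∀ w ∈ W', y.map (algebraMap ℤ_[p] ℚ_[p]) *ᵥ w ∈ W') (i : Fin 3) :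
    x i = 0 := by
  set f := algebraMap ℤ_[p] ℚ_[p] with hf
  have hmul : ∀ (a b : Matrix (Fin n) (Fin n) ℤ_[p]) (v : Fin n → ℚ_[p]),
      (a * b).map f *ᵥ v = a.map f *ᵥ (b.map f *ᵥ v) := by
    intro a b v
    rw [Matrix.map_mul, Matrix.mulVec_mulVec]
  let V0 : Submodule ℚ_[p] (Fin n → ℚ_[p]) :=
    { carrier := {v | ∀ y ∈ (idl T x : Submodule ℤ_[p] _), y.map f *ᵥ v = 0}
      add_mem' := by
        intro a b ha hb y hy
        rw [Matrix.mulVec_add, ha y hy, hb y hy, add_zero]
      zero_mem' := by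
        intro y _
        exact Matrix.mulVec_zero _
      smul_mem' := by
        intro c a ha y hy
        rw [Matrix.mulVec_smul, ha y hy, smul_zero] }
  have hV0 : ∀ v, v ∈ V0 ↔ ∀ y ∈ (idl T x : Submodule ℤ_[p] _), y.map f *ᵥ v = 0 :=
    fun v => Iff.rfl
  obtain ⟨W, hc, hW⟩ := hs V0 (by
    intro t ht w hw
    rw [hV0] at hw ⊢
    intro y hy
    rw [← hmul]
    exact hw _ (idl_mul_mem_NahmS T x hy ht))
  have hadj : ∀ y ∈ Algebra.adjoin ℤ_[p] T, ∀ w ∈ W, y.map f *ᵥ w ∈ W := by
    intro y hy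
    induction hy using Algebra.adjoin_induction with
    | mem y hy => exact hW y hy
    | algebraMap r =>
      intro w hw
      have e : (algebraMap ℤ_[p] (Matrix (Fin n) (Fin n) ℤ_[p]) r).map f = f r • (1 : Matrix _ _ _) := by
        ext a b
        by_cases hab : a = b
        · subst hab
          simp [Matrix.algebraMap_eq_diagonal]
        · simp [Matrix.algebraMap_eq_diagonal, hab]
      rw [e, Matrix.smul_mulVec, Matrix.one_mulVec]
      exact W.smul_mem _ hw
    | add a b _ _ ha hb =>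
      intro w hw
      rw [Matrix.map_add _ (map_add f), Matrix.add_mulVec]
      exact W.add_mem (ha w hw) (hb w hw)
    | mul a b _ _ ha hb =>
      intro w hw
      rw [hmul]
      exact ha _ (hb w hw)
  have key : ∀ j : ℕ, ∀ w ∈ W,
      (∀ y ∈ (idl T x : Submodule ℤ_[p] _) ^ j, y.map f *ᵥ w = 0) → w = 0 := by
    intro j
    induction j with
    | zero =>
      intro w _ hw
      have := hw 1 (by rw [pow_zero]; exact Submodule.one_le.1 le_rfl)
      simpa using this
    | succ j ih =>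
      intro w hwW hw
      refine ih w hwW fun y hy => ?_
      have h1 : y.map f *ᵥ w ∈ W := hadj y (idl_pow_le_NahmS T x hx j hy) w hwW
      have h2 : y.map f *ᵥ w ∈ V0 := by
        rw [hV0]
        intro u hu
        rw [← hmul]
        refine hw _ ?_
        rw [pow_succ']
        exact Submodule.mul_mem_mul hu hy
      exact (Submodule.disjoint_def.1 hc.disjoint) _ h2 h1
  have hWbot : W = ⊥ := by
    refine (Submodule.eq_bot_iff W).2 fun w hw => key k w hw fun y hy => ?_
    rw [h, Submodule.mem_bot] at hy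
    subst hy
    simp
  have hVtop : V0 = ⊤ := by
    have := hc.sup_eq_top
    rwa [hWbot, sup_bot_eq] at this
  have hz : (x i).map f = 0 := by
    ext a b
    have hv : (Pi.single b 1 : Fin n → ℚ_[p]) ∈ V0 := by rw [hVtop]; trivial
    have := congrFun ((hV0 _).1 hv _ (mem_idl_NahmS T x i)) a
    simpa using this
  ext a b
  have := congrFun (congrFun hz a) b
  rw [Matrix.map_apply, Matrix.zero_apply] at this
  rw [Matrix.zero_apply]
  exact (IsFractionRing.injective ℤ_[p] ℚ_[p]) (by rw [map_zero]; exact this)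

end Pool.Agent.MP_f68ac8_nt.Nahm
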