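import Mathlib
import Pool.Agent.MP_f68ac8_nt.NahmDefs
import Pool.Agent.MP_f68ac8_nt.Sys2

namespace Pool.Agent.MP_f68ac8_nt.Nahm

open Polynomial Matrix
open scoped LaurentPolynomial Kronecker

section
variable {R S : Type} [CommRing R] [CommRing S] (φ : R →+* S) {n : ℕ}

lemma map_lc_NahmT (c : Fin 3 → R) (x : Fin 3 → Matrix (Fin n) (Fin n) R) :
    φ.mapMatrix (∑ j, c j • x j) = ∑ j, φ (c j) • φ.mapMatrix (x j) := by
  rw [map_sum]
  refine Finset.sum_congr rfl fun j _ => ?_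
  ext a b
  simp

lemma sys_map_NahmT {m : Matrix (Fin 3) (Fin 3) R} {z : Matrix (Fin n) (Fin n) R}
    {x : Fin 3 → Matrix (Fin n) (Fin n) R} (h : Sys m z x) :
    Sys (m.map φ) (φ.mapMatrix z) fun i => φ.mapMatrix (x i) := fun i => by
  have := congrArg φ.mapMatrix (h i)
  rwa [map_sub, map_mul, map_mul, map_add, map_lc_NahmT] at this

lemma adm_map_NahmT (z : Matrix (Fin n) (Fin n) R) :
    adm (φ.mapMatrix z) = φ.mapMatrix (adm z) := by
  ext ⟨a, b⟩ ⟨c, d⟩
  simp [adm, Matrix.one_apply, apply_ite φ]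

lemma aeval_map_NahmT (z : Matrix (Fin n) (Fin n) R) (g : ℤ[X]) :
    aeval (adm (φ.mapMatrix z)) g = φ.mapMatrix (aeval (adm z) g) := by
  rw [adm_map_NahmT]
  exact aeval_algHom_apply (φ.mapMatrix (m := Fin n × Fin n)).toIntAlgHom (adm z) g

lemma word_map_NahmT (x : Fin 3 → Matrix (Fin n) (Fin n) R) (w : List (Fin 3)) :
    (w.map fun i => φ.mapMatrix (x i)).prod = φ.mapMatrix (w.map x).prod := by
  rw [map_list_prod, List.map_map]
  rfl

end

lemma words_NahmT (h : ∀ (F : Type) [Field F] [CharZero F] [IsAlgClosed F], WordsStmt F)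
    {F : Type} [Field F] {m : Matrix (Fin 3) (Fin 3) F}
    (hm : AlgebraicIndependent ℤ fun s : Fin 3 × Fin 3 => m s.1 s.2) {n K : ℕ}
    {z : Matrix (Fin n) (Fin n) F} {x : Fin 3 → Matrix (Fin n) (Fin n) F} (h1 : Sys m z x)
    (h2 : aeval (adm z) (gK K) = 0) (w : List (Fin 3)) (hw : w.length = n) :
    (w.map x).prod = 0 := by
  have : CharZero F := (RingHom.charZero_iff hm.algebraMap_injective).1 inferInstance
  let φ := algebraMap F (AlgebraicClosure F)
  have h3 := h (AlgebraicClosure F) (m.map φ) (hm.map' (f := φ.toIntAlgHom) φ.injective) n K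
    (φ.mapMatrix z) (fun i => φ.mapMatrix (x i)) (sys_map_NahmT φ h1)
    (by rw [aeval_map_NahmT, h2, map_zero]) w hw
  rw [word_map_NahmT] at h3
  ext a b
  exact φ.injective ((congrFun (congrFun h3 a) b).trans (map_zero φ).symm)

theorem exists_poly5 (h : ∀ (F : Type) [Field F] [CharZero F] [IsAlgClosed F], WordsStmt F)
    (n K : ℕ) : ∃ P : MvPolynomial (Fin 3 × Fin 3) ℤ, P ≠ 0 ∧
      ∀ (p : ℕ) [Fact p.Prime] (m : Matrix (Fin 3) (Fin 3) (ZMod p))
        (z : Matrix (Fin n) (Fin n) (ZMod p)) (x : Fin 3 → Matrix (Fin n) (Fin n) (ZMod p)),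
        MvPolynomial.aeval (fun s : Fin 3 × Fin 3 => m s.1 s.2) P ≠ 0 → Sys m z x →
        aeval (adm z) (gK K) = 0 → ∀ w : List (Fin 3), w.length = n → (w.map x).prod = 0 := by
  have : ∀ t : (Fin n → Fin 3) × Fin n × Fin n, ∃ P : MvPolynomial (Fin 3 × Fin 3) ℤ, P ≠ 0 ∧
      ∀ (p : ℕ) (m : Matrix (Fin 3) (Fin 3) (ZMod p)) (z : Matrix (Fin n) (Fin n) (ZMod p))
        (x : Fin 3 → Matrix (Fin n) (Fin n) (ZMod p)), Sys m z x → aeval (adm z) (gK K) = 0 →
        IsUnit (((List.ofFn t.1).map x).prod t.2.1 t.2.2) →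
        MvPolynomial.aeval (fun s : Fin 3 × Fin 3 => m s.1 s.2) P = 0 := by
    intro t
    let β := Σ p : ℕ, {u : Matrix (Fin 3) (Fin 3) (ZMod p) × Matrix (Fin n) (Fin n) (ZMod p) ×
        (Fin 3 → Matrix (Fin n) (Fin n) (ZMod p)) //
      Sys u.1 u.2.1 u.2.2 ∧ aeval (adm u.2.1) (gK K) = 0 ∧
        IsUnit (((List.ofFn t.1).map u.2.2).prod t.2.1 t.2.2)}
    let M : Matrix (Fin 3) (Fin 3) (∀ c : β, ZMod c.1) := Matrix.of fun i j c => c.2.1.1 i j
    let Z : Matrix (Fin n) (Fin n) (∀ c : β, ZMod c.1) := Matrix.of fun r s c => c.2.1.2.1 r s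
    let Y : Fin 3 → Matrix (Fin n) (Fin n) (∀ c : β, ZMod c.1) :=
      fun i => Matrix.of fun r s c => c.2.1.2.2 i r s
    have h0 : Sys M Z Y := fun i => by
      ext r s c
      have h3 := congrFun (congrFun (c.2.2.1 i) r) s
      simpa [M, Z, Y, Matrix.mul_apply, Matrix.sum_apply] using h3
    have h0' : aeval (adm Z) (gK K) = 0 := by
      ext r s c
      have h3 := aeval_map_NahmT (Pi.evalRingHom (fun c : β => ZMod c.1) c) Z (gK K)
      exact (congrFun (congrFun h3 r) s).symm.trans (congrFun (congrFun c.2.2.2.1 r) s)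
    have h0'' : IsUnit (((List.ofFn t.1).map Y).prod t.2.1 t.2.2) := by
      refine Pi.isUnit_iff.2 fun c => ?_
      have h3 := word_map_NahmT (Pi.evalRingHom (fun c : β => ZMod c.1) c) Y (List.ofFn t.1)
      have h4 : ((List.ofFn t.1).map Y).prod t.2.1 t.2.2 c =
          ((List.ofFn t.1).map c.2.1.2.2).prod t.2.1 t.2.2 :=
        (congrFun (congrFun h3 t.2.1) t.2.2).symm
      rw [h4]
      exact c.2.2.2.2
    obtain ⟨P, h1, h2⟩ := exists_poly_gen (fun c : β => ZMod c.1)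
      (fun (s : Fin 3 × Fin 3) => M s.1 s.2) fun F _ f hf => by
        have h3 := words_NahmT h (m := M.map f) hf (sys_map_NahmT f h0)
          (K := K) ((aeval_map_NahmT f Z (gK K)).trans ((congrArg f.mapMatrix h0').trans (map_zero _)))
          (List.ofFn t.1) List.length_ofFn
        rw [word_map_NahmT] at h3
        exact (h0''.map f).ne_zero (congrFun (congrFun h3 t.2.1) t.2.2)
    exact ⟨P, h1, fun p m z x a b c => h2 ⟨p, ⟨m, z, x⟩, a, b, c⟩⟩
  choose P h1 h2 using this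
  refine ⟨∏ t, P t, Finset.prod_ne_zero_iff.mpr fun t _ => h1 t, ?_⟩
  intro p _ m z x h' a b w hw
  subst hw
  ext r s
  by_contra hn
  rw [map_prod] at h'
  refine h' (Finset.prod_eq_zero (Finset.mem_univ (w.get, r, s)) (h2 (w.get, r, s) p m z x a b ?_))
  rw [List.ofFn_get]
  exact isUnit_iff_ne_zero.2 hn

end Pool.Agent.MP_f68ac8_nt.Nahm
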