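import Mathlib
import Pool.Agent.MP_f68ac8_nt.NahmDefs

namespace Pool.Agent.MP_f68ac8_nt.Nahm

open Polynomial Matrix
open scoped LaurentPolynomial Kronecker

/-- evaluation of an integer polynomial -/
noncomputable def ev_NahmW {A : Type} [Ring A] (a : A) (p : ℤ[X]) : A :=
  p.eval₂ (Int.castRingHom A) a

lemma evEq_NahmW {A : Type} [Ring A] [Algebra ℤ A] (a : A) (p : ℤ[X]) :
    aeval a p = ev_NahmW a p := by
  rw [aeval_def, RingHom.eq_intCast' (algebraMap ℤ A)]
  rfl

section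

variable {F V W : Type} [Field F] [AddCommGroup V] [Module F V] [AddCommGroup W] [Module F W]

/-- `φ` intertwines `f` and `g` -/
def Iw_NahmW (φ : V →ₗ[F] W) (f : Module.End F V) (g : Module.End F W) : Prop :=
  ∀ v, φ (f v) = g (φ v)

variable {φ : V →ₗ[F] W} {f f' : Module.End F V} {g g' : Module.End F W}

lemma aeval_NahmW (h : Iw_NahmW φ f g) (p : ℤ[X]) :
    Iw_NahmW φ (ev_NahmW f p) (ev_NahmW g p) := by
  rw [← evEq_NahmW, ← evEq_NahmW]
  induction p using Polynomial.induction_on with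
  | C a => intro v; simp
  | add p q hp hq => intro v; simp [hp v, hq v]
  | monomial n a ih =>
    intro v
    rw [pow_succ, ← mul_assoc, map_mul, map_mul (aeval g), aeval_X, aeval_X, Module.End.mul_apply,
      Module.End.mul_apply, ih, h]

lemma shift_NahmW (h : Iw_NahmW φ f g) (γ : F) : Iw_NahmW φ (f - γ • 1) (g - γ • 1) := by
  intro v
  simp [h v]

lemma prod_NahmW {x : Fin 3 → Module.End F V} {y : Fin 3 → Module.End F W}
    (h : ∀ i, Iw_NahmW φ (x i) (y i)) (w : List (Fin 3)) :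
    Iw_NahmW φ (w.map x).prod (w.map y).prod := by
  induction w with
  | nil => intro v; simp
  | cons i w ih =>
    intro v
    rw [List.map_cons, List.map_cons, List.prod_cons, List.prod_cons, Module.End.mul_apply,
      Module.End.mul_apply, h i, ih]

lemma sys_NahmW (m : Matrix (Fin 3) (Fin 3) F) {x : Fin 3 → Module.End F V}
    {y : Fin 3 → Module.End F W} (h : Iw_NahmW φ f g) (hx : ∀ i, Iw_NahmW φ (x i) (y i))
    (i : Fin 3) : Iw_NahmW φ ((f + ∑ j, m i j • x j) * x i - x i * (f + ∑ j, m i j • x j))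
      ((g + ∑ j, m i j • y j) * y i - y i * (g + ∑ j, m i j • y j)) := by
  have h1 : Iw_NahmW φ (f + ∑ j, m i j • x j) (g + ∑ j, m i j • y j) := by
    intro v
    simp only [LinearMap.add_apply, LinearMap.sum_apply, LinearMap.smul_apply, map_add, map_sum,
      map_smul, h v, fun j => hx j v]
  intro v
  rw [LinearMap.sub_apply, LinearMap.sub_apply, map_sub, Module.End.mul_apply, Module.End.mul_apply,
    Module.End.mul_apply, Module.End.mul_apply, h1, hx i, hx i, h1]

lemma inj_NahmW (hφ : Function.Injective φ) (h : Iw_NahmW φ f g) (h' : Iw_NahmW φ f' g) :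
    f = f' :=
  LinearMap.ext fun v => hφ ((h v).trans (h' v).symm)

lemma surj_NahmW (hφ : Function.Surjective φ) (h : Iw_NahmW φ f g) (h' : Iw_NahmW φ f g') :
    g = g' :=
  LinearMap.ext fun w => by
    obtain ⟨v, rfl⟩ := hφ w
    exact (h v).symm.trans (h' v)

lemma sysI_NahmW {m : Matrix (Fin 3) (Fin 3) F} {x : Fin 3 → Module.End F V}
    {y : Fin 3 → Module.End F W} (hφ : Function.Injective φ) (h : Iw_NahmW φ f g)
    (hx : ∀ i, Iw_NahmW φ (x i) (y i)) (hs : Sys m g y) : Sys m f x :=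
  fun i => inj_NahmW hφ (sys_NahmW m h hx i) (by rw [hs i]; exact hx i)

lemma lift_NahmW (hφ : Function.Injective φ) (hg : ∀ v, g (φ v) ∈ LinearMap.range φ) :
    ∃ f, Iw_NahmW φ f g := by
  refine ⟨(LinearEquiv.ofInjective φ hφ).symm.toLinearMap ∘ₗ
    (g ∘ₗ φ).codRestrict (LinearMap.range φ) hg, fun v => ?_⟩
  exact congrArg Subtype.val ((LinearEquiv.ofInjective φ hφ).apply_symm_apply ⟨g (φ v), hg v⟩)

end

section

variable {F A B : Type} [Field F] [Ring A] [Ring B] [Algebra F A] [Algebra F B] (e : A ≃ₐ[F] B)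

lemma sysE_NahmW {m : Matrix (Fin 3) (Fin 3) F} {z : A} {x : Fin 3 → A} :
    Sys m (e z) (fun i => e (x i)) ↔ Sys m z x := by
  refine forall_congr' fun i => ?_
  rw [← e.injective.eq_iff]
  simp only [map_sub, map_mul, map_add, map_sum, map_smul]

lemma aevalE_NahmW (z : A) (p : ℤ[X]) : ev_NahmW (e z) p = e (ev_NahmW z p) := by
  rw [← evEq_NahmW, ← evEq_NahmW]
  exact aeval_algHom_apply (e : A →+* B).toIntAlgHom z p

end

variable {F : Type} [Field F]

/-- matrices as endomorphisms -/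
noncomputable def lin_NahmW (ι : Type) [Fintype ι] [DecidableEq ι] :
    Matrix ι ι F ≃ₐ[F] Module.End F (ι → F) := Matrix.toLinAlgEquiv'

lemma lin_apply_NahmW {ι : Type} [Fintype ι] [DecidableEq ι] (M : Matrix ι ι F) (v : ι → F) :
    lin_NahmW ι M v = M *ᵥ v := Matrix.toLinAlgEquiv'_apply M v

lemma vec_NahmW (h : IrrStmt F) {m : Matrix (Fin 3) (Fin 3) F}
    (hm : AlgebraicIndependent ℤ fun s : Fin 3 × Fin 3 => m s.1 s.2) {V : Type} [AddCommGroup V]
    [Module F V] [FiniteDimensional F V] [Nontrivial V] {z : Module.End F V}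
    {x : Fin 3 → Module.End F V} (hs : Sys m z x) {γ : F} {K : ℕ}
    (hg : ev_NahmW (z - γ • 1) (gK K) = 0) : ∃ v : V, v ≠ 0 ∧ ∀ i, x i v = 0 := by
  obtain ⟨W, ⟨h0, h1, h2⟩, hmin⟩ := (wellFounded_lt (α := Submodule F V)).has_min
    {W | W ≠ ⊥ ∧ (∀ w ∈ W, z w ∈ W) ∧ ∀ i, ∀ w ∈ W, x i w ∈ W}
    ⟨⊤, top_ne_bot, fun _ _ => trivial, fun _ _ _ => trivial⟩
  obtain ⟨n, φ, hφ, hr⟩ : ∃ (n : ℕ) (φ : (Fin n → F) →ₗ[F] V), Function.Injective φ ∧
      LinearMap.range φ = W := by
    refine ⟨_, W.subtype ∘ₗ (Module.finBasis F W).equivFun.symm.toLinearMap,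
      W.injective_subtype.comp (Module.finBasis F W).equivFun.symm.injective, ?_⟩
    rw [LinearMap.range_comp, LinearEquiv.range, Submodule.map_top, Submodule.range_subtype]
  have hn : 0 < n := Nat.pos_of_ne_zero fun q => h0 (by
    subst q
    rw [← hr, Subsingleton.elim φ 0, LinearMap.range_zero])
  have hl : ∀ g : Module.End F V, (∀ w ∈ W, g w ∈ W) →
      ∃ M, Iw_NahmW φ (lin_NahmW _ M) g := fun g q => by
    obtain ⟨f, hf⟩ := lift_NahmW (g := g) hφ fun v => by
      rw [hr]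
      exact q _ (hr.le (LinearMap.mem_range_self φ v))
    exact ⟨(lin_NahmW _).symm f, by rwa [AlgEquiv.apply_symm_apply]⟩
  obtain ⟨Z, hZ⟩ := hl z h1
  choose Y hY using fun i => hl (x i) (h2 i)
  have a0 := sysI_NahmW hφ hZ hY hs
  have a1 : Sys m Z Y := fun i => (lin_NahmW _).injective (by
    rw [map_sub, map_mul, map_mul, map_add, map_sum]
    simp only [map_smul]
    exact a0 i)
  have a2 : ∀ U : Submodule F (Fin n → F), (∀ w ∈ U, Z *ᵥ w ∈ U) → (∀ i, ∀ w ∈ U, Y i *ᵥ w ∈ U) →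
      U = ⊥ ∨ U = ⊤ := fun U u1 u2 => by
    refine or_iff_not_imp_left.2 fun u0 => Submodule.map_injective_of_injective hφ ?_
    rw [Submodule.map_top, hr]
    refine eq_of_le_of_not_lt (LinearMap.map_le_range.trans hr.le) (hmin _ ⟨?_, ?_, ?_⟩)
    · exact fun q => u0 (Submodule.map_injective_of_injective hφ (by rw [q, Submodule.map_bot]))
    · rintro _ ⟨u, hu, rfl⟩
      exact ⟨_, u1 u hu, by rw [← hZ u, lin_apply_NahmW]⟩
    · rintro i _ ⟨u, hu, rfl⟩
      exact ⟨_, u2 i u hu, by rw [← hY i u, lin_apply_NahmW]⟩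
  have a3 : ev_NahmW (Z - γ • (1 : Matrix (Fin n) (Fin n) F)) (gK K ^ 1) = 0 := by
    apply (lin_NahmW _).injective
    rw [pow_one, ← aevalE_NahmW, map_sub, map_smul, map_one, map_zero]
    exact inj_NahmW hφ (aeval_NahmW (shift_NahmW hZ γ) _) (by rw [hg]; exact fun _ => map_zero _)
  obtain ⟨v, v0, hv⟩ := h m hm n Z Y hn a1 a2 γ K 1 ((evEq_NahmW _ _).trans a3)
  refine ⟨φ v, fun q => v0 (hφ (q.trans (map_zero φ).symm)), fun i => ?_⟩
  rw [← hY i, lin_apply_NahmW, hv i, map_zero]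

lemma ind_NahmW (h : IrrStmt F) {m : Matrix (Fin 3) (Fin 3) F}
    (hm : AlgebraicIndependent ℤ fun s : Fin 3 × Fin 3 => m s.1 s.2) (γ : F) (K d : ℕ) :
    ∀ (V : Type) [AddCommGroup V] [Module F V] [FiniteDimensional F V] (z : Module.End F V)
      (x : Fin 3 → Module.End F V), Module.finrank F V ≤ d → Sys m z x →
      ev_NahmW (z - γ • 1) (gK K) = 0 → ∀ w : List (Fin 3), w.length = d → (w.map x).prod = 0 := by
  induction d with
  | zero =>
    intro V _ _ _ z x hd _ _ w _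
    have : Subsingleton V := Module.finrank_zero_iff.1 (Nat.le_zero.1 hd)
    exact Subsingleton.elim _ _
  | succ d ih =>
    intro V _ _ _ z x hd hs hg w hw
    rcases subsingleton_or_nontrivial V with _ | _
    · exact Subsingleton.elim _ _
    obtain ⟨v, v0, hv⟩ := vec_NahmW h hm hs hg
    let U : Submodule F V := ⨅ i, LinearMap.ker (x i)
    have hU : ∀ u, u ∈ U ↔ ∀ i, x i u = 0 := fun u => by
      simp only [U, Submodule.mem_iInf, LinearMap.mem_ker]
    have hx : ∀ i, U ≤ U.comap (x i) := fun i u hu => by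
      rw [Submodule.mem_comap, (hU u).1 hu i]
      exact U.zero_mem
    have hz : U ≤ U.comap z := fun u hu => (hU _).2 fun i => by
      have h1 := LinearMap.congr_fun (hs i) u
      simpa [(hU u).1 hu] using h1
    have h1 : 0 < Module.finrank F U := Nat.pos_of_ne_zero fun q =>
      v0 ((Submodule.eq_bot_iff U).1 (Submodule.finrank_eq_zero.1 q) v ((hU v).2 hv))
    have h2 := U.finrank_quotient_add_finrank
    have hZ : Iw_NahmW U.mkQ z (U.mapQ U z hz) := fun _ => rfl
    have hY : ∀ i, Iw_NahmW U.mkQ (x i) (U.mapQ U (x i) (hx i)) := fun _ _ => rfl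
    obtain ⟨i, w, rfl⟩ := List.exists_cons_of_length_eq_add_one hw
    have h3 := ih (V ⧸ U) _ _ (by omega)
      (fun i => surj_NahmW U.mkQ_surjective (sys_NahmW m hZ hY i) (by rw [hs i]; exact hY i))
      (surj_NahmW U.mkQ_surjective (aeval_NahmW (shift_NahmW hZ γ) _)
        (by rw [hg]; exact fun _ => map_zero _)) w (by simpa using hw)
    refine LinearMap.ext fun u => ?_
    have h4 := prod_NahmW hY w u
    rw [h3, LinearMap.zero_apply, Submodule.mkQ_apply, Submodule.Quotient.mk_eq_zero] at h4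
    rw [List.map_cons, List.prod_cons, Module.End.mul_apply, (hU _).1 h4 i, LinearMap.zero_apply]

lemma gam_NahmW [IsAlgClosed F] {n K : ℕ} [NeZero n] {z : Matrix (Fin n) (Fin n) F}
    (h : ev_NahmW (adm z) (gK K) = 0) :
    ∃ γ : F, ev_NahmW (lin_NahmW _ z - γ • 1) (gK K) = 0 := by
  obtain ⟨γ, hγ⟩ := Module.End.exists_eigenvalue (Matrix.toLin' zᵀ)
  obtain ⟨w, hw⟩ := hγ.exists_hasEigenvector
  have h1 : zᵀ *ᵥ w = γ • w := hw.apply_eq_smul
  obtain ⟨j, hj⟩ := Function.ne_iff.1 hw.2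
  let φ : (Fin n → F) →ₗ[F] (Fin n × Fin n → F) :=
    LinearMap.pi fun s => w s.2 • LinearMap.proj s.1
  have hφ : ∀ v s, φ v s = w s.2 * v s.1 := fun _ _ => rfl
  have h2 : Iw_NahmW φ (lin_NahmW _ z - γ • 1) (lin_NahmW _ (adm z)) := by
    intro v
    funext ⟨a, b⟩
    have h3 := congrFun h1 b
    simp only [mulVec, dotProduct, transpose_apply, Pi.smul_apply, smul_eq_mul] at h3
    simp only [hφ, lin_apply_NahmW, adm, LinearMap.sub_apply, LinearMap.smul_apply,
      Module.End.one_apply, Pi.sub_apply, Pi.smul_apply, smul_eq_mul, mulVec, dotProduct,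
      Matrix.sub_apply, kroneckerMap_apply, transpose_apply, Fintype.sum_prod_type, sub_mul,
      Finset.sum_sub_distrib, one_apply, mul_ite, ite_mul, mul_one, one_mul, mul_zero, zero_mul,
      Finset.sum_ite_eq, Finset.mem_univ, if_true, Finset.sum_ite_irrel, Finset.sum_const_zero]
    rw [mul_sub, Finset.mul_sum, ← mul_assoc, mul_comm (w b) γ, ← h3, Finset.sum_mul]
    congr 1 <;> exact Finset.sum_congr rfl fun _ _ => by ring
  refine ⟨γ, inj_NahmW (fun v v' q => funext fun a => ?_) (aeval_NahmW h2 _) ?_⟩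
  · exact mul_left_cancel₀ hj (congrFun q (a, j))
  · rw [aevalE_NahmW, h, map_zero]
    exact fun _ => map_zero _

theorem words_stmt (F : Type) [Field F] [CharZero F] [IsAlgClosed F] (h : IrrStmt F) :
    WordsStmt F := by
  intro m hm n K z x hs hg w hw
  rcases Nat.eq_zero_or_pos n with rfl | hn
  · exact Subsingleton.elim _ _
  have : NeZero n := ⟨hn.ne'⟩
  rw [evEq_NahmW] at hg
  obtain ⟨γ, hγ⟩ := gam_NahmW hg
  have h1 := ind_NahmW h hm γ K n (Fin n → F) _ _ (by simp)
    ((sysE_NahmW (lin_NahmW _)).2 hs) hγ w hw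
  apply (lin_NahmW _).injective
  rw [map_list_prod, List.map_map, map_zero]
  exact h1

end Pool.Agent.MP_f68ac8_nt.Nahm
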