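import Mathlib
import Pool.Agent.MP_f68ac8_nt.NlAllU

namespace Pool.Agent.MP_f68ac8_nt.NatUnif

open Pool.Agent.MP_f68ac8_nt Filter

theorem result (p : ℕ) [Fact p.Prime] (hp : 2 < p) (ε : ℝ) (hε : 0 < ε) : ∀ᶠ X : ℕ in atTop,
    1 - 1 / (p ^ 2 * (p ^ 2 - 1) * (p ^ 2 - p)) - ε ≤
      ({K ∈ CycF p X | PotFM p p K.fixingSubgroup}.ncard : ℝ) / (CycF p X).ncard :=
  Nd.pot_all p hp ε hε

end Pool.Agent.MP_f68ac8_nt.NatUnif
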