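import Mathlib
import Pool.Agent.MP_f68ac8_nt.NkDefs

namespace Pool.Agent.MP_f68ac8_nt

open scoped commutatorElement

variable (p : ℕ) [Fact p.Prime]

/-- every representation of `H` with powerful pro-`p` image, in which the elements of the inertia
groups have finite order, has finite image -/
def PotFM (e : ℕ) (H : Subgroup GQ) : Prop :=
  ∀ (n : ℕ) (ρ : H →ₜ* GL (Fin n) ℤ_[p]),
    (∀ g, ∃ k : ℕ, (ρ g ^ p ^ k).val.map PadicInt.toZMod = 1) →
    (∀ g h, ⁅ρ g, ρ h⁆ ∈ (Subgroup.closure (Set.range fun x => ρ x ^ e)).topologicalClosure) →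
    (∀ (l : ℕ) (g : H), l.Prime → InertiaAt l g → IsOfFinOrder (ρ g)) → (Set.range ρ).Finite

/-- every representation of `H` of dimension `n` that is trivial modulo `2 p`, and in which the
elements of the inertia groups have finite order, is trivial -/
def CongFM (n : ℕ) (H : Subgroup GQ) : Prop :=
  ∀ ρ : H →ₜ* GL (Fin n) ℤ_[p], (∀ g i j, (2 * p : ℤ_[p]) ∣ ((ρ g).val - 1) i j) →
    (∀ (l : ℕ) (g : H), l.Prime → InertiaAt l g → IsOfFinOrder (ρ g)) → ∀ g, ρ g = 1

/-- every representation of the absolute Galois group of the rationals that maps `H` onto a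
powerful pro-`p` group, and in which the elements of the inertia groups have finite order, has
finite image -/
def GalFM (H : Subgroup GQ) : Prop :=
  ∀ (n : ℕ) (ρ : GQ →ₜ* GL (Fin n) ℤ_[p]),
    (∀ g ∈ H, ∃ k : ℕ, (ρ g ^ p ^ k).val.map PadicInt.toZMod = 1) →
    (∀ g ∈ H, ∀ h ∈ H,
      ⁅ρ g, ρ h⁆ ∈ (Subgroup.closure ((fun x => ρ x ^ p) '' H)).topologicalClosure) →
    (∀ (l : ℕ) (g : GQ), l.Prime → InertiaAt l g → IsOfFinOrder (ρ g)) → (Set.range ρ).Finite

end Pool.Agent.MP_f68ac8_nt
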