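import Mathlib
import Pool.Agent.MP_f68ac8_nt.PtAux
import Pool.Agent.MP_14ad9d_nt.Full.FI2
import Pool.Agent.MP_14ad9d_nt.Full.Sym2

/-! Transport of the local symbols by the normaliser of the Kummer group. -/

namespace Pool.Agent.MP_f68ac8_nt.Pt

open Ev Pv
open NumberField
open Pool.Agent.MP_14ad9d_nt.Full (Pr act)
open Pool.Agent.MP_14ad9d_nt.Full.FIAux (un)

theorem lift_PtEqv {L F : Type} [Field L] [Field F] [Algebra L F] (g : F ≃+* F)
    (h1 : ∀ x, g (algebraMap L F x) ∈ Set.range (algebraMap L F))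
    (h2 : ∀ x, g.symm (algebraMap L F x) ∈ Set.range (algebraMap L F)) :
    ∃ g' : L ≃+* L, (∀ x, algebraMap L F (g' x) = g (algebraMap L F x)) ∧
      ∀ x, algebraMap L F (g'.symm x) = g.symm (algebraMap L F x) := by
  choose a ha using h1
  choose b hb using h2
  have hi := (algebraMap L F).injective
  exact ⟨{ toFun := a
           invFun := b
           left_inv := fun x => hi (by rw [hb, ha, g.symm_apply_apply])
           right_inv := fun x => hi (by rw [ha, hb, g.apply_symm_apply])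
           map_mul' := fun x y => hi (by rw [ha, map_mul, map_mul, map_mul, ha, ha])
           map_add' := fun x y => hi (by rw [ha, map_add, map_add, map_add, ha, ha]) }, ha, hb⟩

theorem pow_PtEqv {p : ℕ} {L : Type} [Field L] (f : L → ZMod p)
    (hf : ∀ y y', y ≠ 0 → y' ≠ 0 → f (y * y') = f y + f y') (y : L) (hy : y ≠ 0) (n : ℕ) :
    f (y ^ n) = n * f y := by
  induction n with
  | zero =>
    have h := hf 1 1 one_ne_zero one_ne_zero
    rw [one_mul, left_eq_add] at h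
    rw [pow_zero, h, Nat.cast_zero, zero_mul]
  | succ n ih =>
    rw [pow_succ, hf _ _ (pow_ne_zero _ hy) hy, ih, Nat.cast_succ, add_mul, one_mul]

theorem eqv_stmt (p : ℕ) [Fact p.Prime] (hN : NPStmt p) (hS : SymStmt p) (hP : SplitStmt p) :
    EqvStmt p := by
  intro K L F _ _ _ _ _ _ _ _ _ _ ζ β θ σ hK g k hg
  have hp : p.Prime := Fact.out
  have : NeZero p := ⟨hp.ne_zero⟩
  obtain ⟨hz, ho, -⟩ := hP L F ζ β θ σ hK
  obtain ⟨hS1, hS2, -, -, hS5⟩ := hS L ζ hK.two hK.prim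
  have hi := (algebraMap L F).injective
  have hfix (x : F) (hx : σ x = x) : x ∈ Set.range (algebraMap L F) :=
    (IsGalois.mem_range_algebraMap_iff_fixed x).2 fun τ =>
      (Subgroup.zpowers_le.2 (show σ ∈ MulAction.stabilizer (F ≃ₐ[L] F) x from hx) :) (hz τ)
  have hk : k.Coprime (orderOf σ) := by
    rw [ho, Nat.coprime_comm, hp.coprime_iff_not_dvd, ← ho, orderOf_dvd_iff_pow_eq_one]
    intro h
    have h1 : σ = 1 := by
      ext x
      apply g.injective
      rw [hg, h]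
      rfl
    rw [h1, orderOf_one] at ho
    exact hp.one_lt.ne ho
  obtain ⟨j, hj⟩ := exists_pow_eq_self_of_coprime hk
  obtain ⟨g', hg1, hg2⟩ := lift_PtEqv (L := L) (g : F ≃+* F)
    (fun x => hfix _ (by
      have h1 : σ ^ k ∈ MulAction.stabilizer (F ≃ₐ[L] F) (g (algebraMap L F x)) := by
        show (σ ^ k) (g (algebraMap L F x)) = _
        rw [← hg, σ.commutes]
      have h2 := pow_mem h1 j
      rw [hj] at h2
      exact h2))
    (fun x => hfix _ (g.injective (by
      show g (σ (g.symm (algebraMap L F x))) = g (g.symm (algebraMap L F x))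
      rw [hg, g.apply_symm_apply, AlgEquiv.commutes])))
  have hg1' (x : L) : algebraMap L F (g' x) = g (algebraMap L F x) := hg1 x
  refine ⟨g', hg1', fun u => ?_, fun v x hx => ?_⟩
  · ext a
    change (RingOfIntegers.mapRingEquiv (g : F ≃+* F)).symm (algebraMap (𝓞 L) (𝓞 F) a) ∈
      u.asIdeal ↔ algebraMap (𝓞 L) (𝓞 F) ((RingOfIntegers.mapRingEquiv g').symm a) ∈ u.asIdeal
    have : (RingOfIntegers.mapRingEquiv (g : F ≃+* F)).symm (algebraMap (𝓞 L) (𝓞 F) a) =
        algebraMap (𝓞 L) (𝓞 F) ((RingOfIntegers.mapRingEquiv g').symm a) := by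
      ext
      exact (hg2 (a : L)).symm
    rw [this]
  have hzp := hK.prim.map_of_injective hi
  obtain ⟨c, -, hc⟩ := hK.prim.eq_pow_of_pow_eq_one (ξ := g' ζ)
    (by rw [← map_pow, hK.prim.pow_eq_one, map_one])
  have hθ : θ ≠ 0 := fun h => hK.ne (hi (by rw [← hK.pow, h, zero_pow hp.ne_zero, map_zero]))
  have hgθ : g θ ≠ 0 := (map_ne_zero g).2 hθ
  have hgp : g θ ^ p = algebraMap L F (g' β) := by rw [← map_pow, hK.pow, hg1']
  obtain ⟨m, -, hm⟩ := hzp.eq_pow_of_pow_eq_one (ξ := σ (g θ) / g θ) (by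
    rw [div_pow, ← map_pow, hgp, σ.commutes, ← hgp, div_self (pow_ne_zero _ hgθ)])
  rw [eq_div_iff hgθ] at hm
  have hpow (n : ℕ) : (σ ^ n) (g θ) = algebraMap L F ζ ^ (m * n) * g θ := by
    induction n with
    | zero => simp
    | succ n ih =>
      rw [pow_succ', AlgEquiv.mul_apply, ih, map_mul, map_pow, σ.commutes, ← hm]
      ring
  have hmk : (m : ZMod p) * k = c := by
    have h1 : algebraMap L F ζ ^ (m * k) = algebraMap L F ζ ^ c := by
      apply mul_right_cancel₀ hgθ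
      rw [← hpow, ← hg, hK.act, map_mul, ← hg1', ← hc, map_pow]
    rw [(hzp.isOfFinOrder hp.ne_zero).pow_eq_pow_iff_modEq, ← hzp.eq_orderOf,
      ← ZMod.natCast_eq_natCast_iff, Nat.cast_mul] at h1
    exact h1
  have hm0 : (m : ZMod p) ≠ 0 := by
    intro h
    rw [h, zero_mul, eq_comm, ZMod.natCast_eq_zero_iff, ← hK.prim.pow_eq_one_iff_dvd, hc,
      map_eq_one_iff g' g'.injective] at hmk
    exact hK.prim.ne_one hp.one_lt hmk
  obtain ⟨b, hb⟩ := hfix (g θ / θ ^ m) (by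
    have h0 : algebraMap L F ζ ≠ 0 := hzp.ne_zero hp.ne_zero
    rw [map_div₀, map_pow, hK.act, ← hm, mul_pow, mul_div_mul_left _ _ (pow_ne_zero _ h0)])
  have hb0 : b ≠ 0 := by
    rintro rfl
    rw [map_zero, eq_comm] at hb
    exact div_ne_zero hgθ (pow_ne_zero _ hθ) hb
  have hβ : g' β = b ^ p * β ^ m := hi (by
    rw [← hgp, map_mul, map_pow, map_pow, hb, ← hK.pow, ← pow_mul, mul_comm p m, pow_mul,
      ← mul_pow, div_mul_cancel₀ _ (pow_ne_zero _ hθ)])
  have hx' : g' x ≠ 0 := (map_ne_zero g').2 hx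
  have hadd (y y' : L) (hy : y ≠ 0) (hy' : y' ≠ 0) : sym p ζ (act g' v) (g' x) (y * y') =
      sym p ζ (act g' v) (g' x) y + sym p ζ (act g' v) (g' x) y' := by
    rw [hS2 _ _ _ (mul_ne_zero hy hy') hx', hS1 _ _ _ _ hy hy' hx', hS2 _ _ _ hy hx',
      hS2 _ _ _ hy' hx', neg_add]
  have h5 := hS5 g' c hc.symm v x β hx hK.ne
  rw [hβ, hadd _ _ (pow_ne_zero _ hb0) (pow_ne_zero _ hK.ne), pow_PtEqv _ hadd _ hb0,
    pow_PtEqv _ hadd _ hK.ne, ZMod.natCast_self, zero_mul, zero_add, ← hmk, mul_assoc] at h5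
  exact mul_left_cancel₀ hm0 h5

end Pool.Agent.MP_f68ac8_nt.Pt
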