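import Mathlib
import Pool.Agent.MP_f68ac8_nt.SyAux

namespace Pool.Agent.MP_f68ac8_nt.Sv

open Ev Pv Matrix

section
variable {k : Type} [Field k] {n : ℕ}

/-- the standard flag -/
def V_SySym2 (m : ℕ) (v : Fin n → k) : Prop := ∀ j : Fin n, m ≤ j → v j = 0

lemma zero_SySym2 {v : Fin n → k} : V_SySym2 0 v ↔ v = 0 :=
  ⟨fun h => funext fun j => h j (Nat.zero_le _), fun h _ _ => h ▸ rfl⟩

lemma single_SySym2 (j : Fin n) : V_SySym2 (j + 1) (Pi.single j (1 : k)) := fun i hi =>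
  Pi.single_eq_of_ne (fun h => by subst h; omega) _

lemma line_SySym2 (hn : 0 < n) {v : Fin n → k} (h : V_SySym2 1 v) :
    v = v ⟨0, hn⟩ • Pi.single ⟨0, hn⟩ 1 := by
  funext j
  by_cases hj : j = ⟨0, hn⟩
  · simp [hj]
  · rw [Pi.smul_apply, Pi.single_eq_of_ne hj, smul_zero]
    exact h j (Nat.pos_of_ne_zero fun h0 => hj (Fin.ext h0))

variable {N : Mt n k} (hN : ∀ i j, j ≤ i → N i j = 0)
include hN

lemma ent_SySym2 {v : Fin n → k} {i j : Fin n} (hij : (i : ℕ) + 1 = j) (hv : V_SySym2 (j + 1) v) :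
    (N *ᵥ v) i = N i j * v j := by
  change ∑ s, N i s * v s = _
  refine Finset.sum_eq_single j (fun s _ hs => ?_) fun h => absurd (Finset.mem_univ j) h
  by_cases h : s ≤ i
  · rw [hN i s h, zero_mul]
  · have h1 : (s : ℕ) ≠ j := fun e => hs (Fin.ext e)
    rw [Fin.le_def] at h
    rw [hv s (by omega), mul_zero]

lemma down_SySym2 {m : ℕ} {v : Fin n → k} (hv : V_SySym2 (m + 1) v) : V_SySym2 m (N *ᵥ v) := by
  intro i hi
  change ∑ s, N i s * v s = _
  refine Finset.sum_eq_zero fun s _ => ?_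
  by_cases h : s ≤ i
  · rw [hN i s h, zero_mul]
  · rw [Fin.le_def] at h
    rw [hv s (by omega), mul_zero]

lemma pow_SySym2 (m r : ℕ) : ∀ v : Fin n → k, V_SySym2 (m + r) v → V_SySym2 m (N ^ r *ᵥ v) := by
  induction r with
  | zero => intro v hv; rwa [pow_zero, one_mulVec]
  | succ r ih =>
    intro v hv
    rw [pow_succ, ← mulVec_mulVec]
    exact ih _ (down_SySym2 hN hv)

lemma nil_SySym2 : N ^ n = 0 := by
  refine Matrix.ext_iff_mulVec.2 fun v => ?_
  rw [zero_mulVec]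
  exact zero_SySym2.1 (pow_SySym2 hN 0 n v fun j hj => absurd j.2 (by omega))

lemma sup_SySym2 (h : N ^ (n - 1) ≠ 0) (i j : Fin n) (hij : (i : ℕ) + 1 = j) : N i j ≠ 0 := by
  refine fun h0 => h (Matrix.ext_iff_mulVec.2 fun v => ?_)
  have h1 := pow_SySym2 hN (j + 1) (n - 1 - j) v fun s hs => absurd s.2 (by omega)
  have h2 : V_SySym2 (0 + i) (N *ᵥ (N ^ (n - 1 - j) *ᵥ v)) := fun s hs => by
    by_cases e : s = i
    · rw [e, ent_SySym2 hN hij h1, h0, zero_mul]
    · have e1 : (s : ℕ) ≠ i := fun e1 => e (Fin.ext e1)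
      exact down_SySym2 hN h1 s (by omega)
  have h3 := zero_SySym2.1 (pow_SySym2 hN 0 i _ h2)
  rw [mulVec_mulVec, mulVec_mulVec, ← pow_succ, ← pow_add,
    show (i : ℕ) + 1 + (n - 1 - j) = n - 1 by omega] at h3
  rw [h3, zero_mulVec]

variable (hS : ∀ i j : Fin n, (i : ℕ) + 1 = j → N i j ≠ 0)
include hS

lemma up_SySym2 {m : ℕ} {v : Fin n → k} (hv : V_SySym2 m (N *ᵥ v)) : V_SySym2 (m + 1) v := by
  have key : ∀ r, V_SySym2 (m + 1 + (n - r)) v := fun r => by
    induction r with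
    | zero => exact fun j hj => absurd j.2 (by omega)
    | succ r ih =>
      intro j hj
      by_cases h : m + 1 + (n - r) ≤ j
      · exact ih j h
      · have h1 := ent_SySym2 hN (v := v) (i := ⟨j - 1, by omega⟩) (j := j)
          (by simp only; omega) fun s hs => ih s (by omega)
        rw [hv _ (by simp only; omega)] at h1
        exact (mul_eq_zero.1 h1.symm).resolve_left (hS _ _ (by simp only; omega))
  simpa using key n

lemma ker_SySym2 (r : ℕ) : ∀ v : Fin n → k, N ^ r *ᵥ v = 0 → V_SySym2 r v := by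
  induction r with
  | zero => intro v hv; rwa [pow_zero, one_mulVec, ← zero_SySym2] at hv
  | succ r ih =>
    intro v hv
    rw [pow_succ, ← mulVec_mulVec] at hv
    exact up_SySym2 hN hS (ih _ hv)

end

section
variable {k : Type} [Field k] {n : ℕ}

lemma diag_SySym2 {U : Mt n k} (hU : U.BlockTriangular id) (r : ℕ) (i : Fin n) :
    (U ^ r) i i = U i i ^ r := by
  induction r with
  | zero => simp
  | succ r ih =>
    rw [pow_succ, pow_succ, mul_apply, Finset.sum_eq_single i (fun s _ hs => ?_)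
      fun h => absurd (Finset.mem_univ i) h, ih]
    rcases lt_or_gt_of_ne hs with h | h
    · rw [hU.pow r h, zero_mul]
    · rw [hU h, mul_zero]

lemma strict_SySym2 {U : Mt n k} (hU : U.BlockTriangular id) {r : ℕ} (h : U ^ r = 0) (i j : Fin n)
    (hij : j ≤ i) : U i j = 0 := by
  rcases hij.lt_or_eq with h1 | rfl
  · exact hU h1
  · exact eq_zero_of_pow_eq_zero ((diag_SySym2 hU r j).symm.trans (by rw [h]; rfl))

lemma tri_SySym2 {U : Mt n k} (hU : U.BlockTriangular id) (c : k) :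
    (U - c • 1).BlockTriangular id := fun i j hij => by
  rw [Matrix.sub_apply, hU hij, Matrix.smul_apply, one_apply_ne (i := i) (j := j) (ne_of_gt hij),
    smul_zero, sub_zero]

end

theorem flag_stmt : FlagStmt := by
  rintro k _ n T M ⟨c, h1, h2⟩ hT hM i j hij
  have hN := strict_SySym2 (tri_SySym2 hT c) h1
  have e : M⁻¹.val * T * M.val - c • 1 = M⁻¹.val * (T - c • 1) * M.val := by
    rw [mul_sub, sub_mul, mul_smul_comm, mul_one, smul_mul_assoc, Units.inv_mul]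
  have hN' := strict_SySym2 (tri_SySym2 hM c) (r := n) (by
    rw [e, Units.conj_pow', h1, mul_zero, zero_mul])
  have h3 := zero_SySym2.1 (pow_SySym2 hN' 0 (j + 1) _ (by rw [zero_add]; exact single_SySym2 j))
  have h4 : (T - c • 1) ^ ((j : ℕ) + 1) *ᵥ (M.val *ᵥ Pi.single j 1) = 0 := by
    have h5 := congrArg (M.val *ᵥ ·) h3
    simp only [mulVec_mulVec, mulVec_zero] at h5
    rwa [e, Units.conj_pow', ← mul_assoc, ← mul_assoc, Units.mul_inv, one_mul,
      ← mulVec_mulVec] at h5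
  have h6 := ker_SySym2 hN (sup_SySym2 hN h2) _ _ h4 i hij
  rwa [mulVec_single_one] at h6

section
variable {p : ℕ} [Fact p.Prime] {k : Type} [Field k] [Algebra (ZMod p) k] {n : ℕ}

lemma cast_SySym2 {m : ℕ} (h : ¬ p ∣ m) : (m : k) ≠ 0 := by
  rw [← map_natCast (algebraMap (ZMod p) k), map_ne_zero, Ne, ZMod.natCast_eq_zero_iff]
  exact h

lemma reg_SySym2 (h : Sym1Stmt) (hp : n ≤ p) (A : Mt 2 (ZMod p)) (h1 : A 1 0 = 0)
    (h2 : A 0 0 = A 1 1) (h3 : A 0 0 ≠ 0) (h4 : A 0 1 ≠ 0) : ∃ c : k,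
    (∀ i j, j ≤ i → (sy k n A - c • 1 : Mt n k) i j = 0) ∧
      ∀ i j : Fin n, (i : ℕ) + 1 = j → (sy k n A - c • 1 : Mt n k) i j ≠ 0 := by
  obtain ⟨e1, e2, e3, -⟩ := (h (ZMod p) n).2.2.2.2.1 A h1
  refine ⟨algebraMap (ZMod p) k (A 0 0 ^ (n - 1)), fun i j hij => ?_, fun i j hij => ?_⟩
  · rw [Matrix.sub_apply, Matrix.smul_apply, sy, map_apply]
    rcases hij.lt_or_eq with h5 | rfl
    · rw [e1 h5, one_apply_ne (ne_of_gt h5), map_zero, smul_zero, sub_zero]
    · rw [e2, ← h2, ← pow_add, Nat.sub_add_cancel (by omega), one_apply_eq, smul_eq_mul, mul_one,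
        sub_self]
  · have h5 : i ≠ j := fun e => by subst e; omega
    rw [Matrix.sub_apply, Matrix.smul_apply, sy, map_apply, e3 i j hij, one_apply_ne h5, smul_zero,
      sub_zero, map_ne_zero, ← h2]
    refine mul_ne_zero ?_ (mul_ne_zero (mul_ne_zero (pow_ne_zero _ h3) h4) (pow_ne_zero _ h3))
    exact cast_SySym2 (p := p) fun e => absurd (Nat.le_of_dvd (by omega) e) (by omega)

lemma col_SySym2 (hn : 0 < n) (t : ZMod p) (i : Fin n) : sy k n !![1, 0; t, 1] i ⟨0, hn⟩ =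
    algebraMap (ZMod p) k t ^ (i : ℕ) * ((n - 1).choose i : k) := by
  have e : ((Polynomial.C 1 + Polynomial.C t * Polynomial.X) ^ (n - 1)).coeff i =
      ((n - 1).choose i : ZMod p) * t ^ (i : ℕ) := by
    rw [← Polynomial.coeff_one_add_X_pow, ← Polynomial.comp_C_mul_X_coeff]
    simp
  rw [sy, map_apply, symP, of_apply]
  simp only [of_apply, cons_val', cons_val_zero, cons_val_one, cons_val_fin_one, Nat.sub_zero,
    pow_zero, mul_one]
  rw [e, map_mul, map_pow, map_natCast, mul_comm]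

lemma irr_SySym2 (h : Sym1Stmt) (hn : 0 < n) (hp : n ≤ p) (W : Submodule k (Fin n → k))
    (hW : ∀ A : Mt 2 (ZMod p), A.det = 1 → ∀ v ∈ W, sy k n A *ᵥ v ∈ W) : W = ⊥ ∨ W = ⊤ := by
  classical
  refine or_iff_not_imp_left.2 fun h0 => ?_
  obtain ⟨w, hw, hw0⟩ := Submodule.exists_mem_ne_zero_of_ne_bot h0
  obtain ⟨c, hN, hS⟩ := reg_SySym2 (k := k) h hp !![1, 1; 0, 1] rfl rfl (by simp) (by simp)
  have h1 : ∀ r, (sy k n !![1, 1; 0, 1] - c • 1) ^ r *ᵥ w ∈ W := fun r => by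
    induction r with
    | zero => rwa [pow_zero, one_mulVec]
    | succ r ih =>
      rw [pow_succ', ← mulVec_mulVec, sub_mulVec, smul_mulVec, one_mulVec]
      exact W.sub_mem (hW _ (by simp) _ ih) (W.smul_mem _ ih)
  obtain ⟨r, h2, h3⟩ := Nat.exists_not_and_succ_of_not_zero_of_exists
    (p := fun r => (sy k n !![1, 1; 0, 1] - c • 1) ^ r *ᵥ w = 0) (by simpa using hw0)
    ⟨n, by rw [nil_SySym2 hN, zero_mulVec]⟩
  rw [pow_succ', ← mulVec_mulVec] at h3
  have h4 := line_SySym2 hn (up_SySym2 hN hS (zero_SySym2.2 h3))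
  have h5 : Pi.single ⟨0, hn⟩ 1 ∈ W := by
    refine (W.smul_mem_iff fun e => h2 ?_).1 (h4 ▸ h1 r)
    rw [h4, e, zero_smul]
  by_contra h6
  obtain ⟨f, hf0, hf⟩ := W.exists_le_ker_of_lt_top (lt_top_iff_ne_top.2 h6)
  have h7 : Function.Injective fun j : Fin n => algebraMap (ZMod p) k (j : ℕ) := fun i j e => by
    have e1 := (ZMod.natCast_eq_natCast_iff' _ _ _).1 ((algebraMap (ZMod p) k).injective e)
    rw [Nat.mod_eq_of_lt (by omega), Nat.mod_eq_of_lt (by omega)] at e1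
    exact Fin.ext e1
  have h8 := eq_zero_of_forall_index_sum_pow_mul_eq_zero
    (v := fun i : Fin n => ((n - 1).choose i : k) * f (Pi.single i 1)) h7 fun j => by
      have e := hf (hW !![1, 0; ((j : ℕ) : ZMod p), 1] (by simp) _ h5)
      rw [LinearMap.mem_ker, mulVec_single_one, pi_eq_sum_univ' (col _ _), map_sum] at e
      simpa only [map_smul, col_apply, col_SySym2, smul_eq_mul, mul_assoc] using e
  refine hf0 ((Pi.basisFun k (Fin n)).ext fun i => ?_)
  rw [Pi.basisFun_apply]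
  refine (mul_eq_zero.1 (congrFun h8 i)).resolve_left (cast_SySym2 (p := p) fun e => ?_)
  have e1 := Nat.choose_mul_factorial_mul_factorial (show (i : ℕ) ≤ n - 1 by omega)
  have e2 := (Fact.out : p.Prime).dvd_factorial.1 (e1 ▸ (e.mul_right _).mul_right _)
  omega

end

theorem sym2_stmt (p : ℕ) [Fact p.Prime] (h : Sym1Stmt) : Sym2Stmt p := by
  intro k _ _ n hn hp
  refine ⟨fun A h1 h2 h3 h4 => ?_, irr_SySym2 h hn hp, fun Y hY => ?_⟩
  · obtain ⟨c, hN, hS⟩ := reg_SySym2 (k := k) h hp A h1 h2 h3 h4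
    refine ⟨⟨c, nil_SySym2 hN, fun e => ?_⟩, fun d v hv j hj => ?_⟩
    · have h5 := ker_SySym2 hN hS (n - 1) (Pi.single ⟨n - 1, by omega⟩ 1)
        (by rw [e, zero_mulVec]) ⟨n - 1, by omega⟩ le_rfl
      simp at h5
    · have h5 : (sy k n A - c • 1) *ᵥ v = (d - c) • v := by
        rw [sub_mulVec, smul_mulVec, one_mulVec, hv, sub_smul]
      have h6 : ∀ r, (sy k n A - c • 1) ^ r *ᵥ v = (d - c) ^ r • v := fun r => by
        induction r with
        | zero => simp
        | succ r ih => rw [pow_succ, ← mulVec_mulVec, h5, mulVec_smul, ih, smul_smul, pow_succ']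
      have h7 := h6 n
      rw [nil_SySym2 hN, zero_mulVec] at h7
      rcases smul_eq_zero.1 h7.symm with h8 | rfl
      · rw [eq_zero_of_pow_eq_zero h8, zero_smul] at h5
        exact up_SySym2 hN hS (zero_SySym2.2 h5) j (by omega)
      · rfl
  · obtain ⟨c, hN, hS⟩ := reg_SySym2 (k := k) h hp !![1, 1; 0, 1] rfl rfl (by simp) (by simp)
    have h1 := zero_SySym2.1 (down_SySym2 hN (single_SySym2 ⟨0, hn⟩))
    have h2 : (sy (p := p) k n !![1, 1; 0, 1] - c • 1) *ᵥ (Y *ᵥ Pi.single ⟨0, hn⟩ 1) = 0 := by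
      rw [mulVec_mulVec, sub_mul, ← hY _ (by simp), smul_mul_assoc, one_mul, ← mul_one Y,
        ← mul_smul_comm, mul_one, ← mul_sub, ← mulVec_mulVec, h1, mulVec_zero]
    have h3 := line_SySym2 hn (up_SySym2 hN hS (zero_SySym2.2 h2))
    generalize (Y *ᵥ Pi.single ⟨0, hn⟩ 1) ⟨0, hn⟩ = d at h3
    have hm : ∀ v, v ∈ LinearMap.ker (Y - d • 1).mulVecLin ↔ Y *ᵥ v = d • v := fun v => by
      rw [LinearMap.mem_ker, mulVecLin_apply, sub_mulVec, smul_mulVec, one_mulVec, sub_eq_zero]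
    rcases irr_SySym2 h hn hp (LinearMap.ker (Y - d • 1).mulVecLin) (fun A hA v hv => by
      rw [hm] at hv ⊢
      rw [mulVec_mulVec, hY A hA, ← mulVec_mulVec, hv, mulVec_smul]) with h4 | h4
    · have h5 := (hm _).2 h3
      rw [h4, Submodule.mem_bot] at h5
      simpa using congrFun h5 ⟨0, hn⟩
    · refine ⟨d, Matrix.ext_iff_mulVec.2 fun v => ?_⟩
      rw [smul_mulVec, one_mulVec, ← hm, h4]
      trivial

end Pool.Agent.MP_f68ac8_nt.Sv
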