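import Mathlib
import Pool.Agent.MP_f68ac8_nt.BvMain
import Pool.Agent.MP_f68ac8_nt.EvKK
import Pool.Agent.MP_f68ac8_nt.EvRam
import Pool.Agent.MP_f68ac8_nt.EvLocAB
import Pool.Agent.MP_f68ac8_nt.EvKum
import Pool.Agent.MP_f68ac8_nt.EvTriv
import Pool.Agent.MP_f68ac8_nt.FvWild
import Pool.Agent.MP_f68ac8_nt.FvMean
import Pool.Agent.MP_f68ac8_nt.OvKey1
import Pool.Agent.MP_f68ac8_nt.OvMu
import Pool.Agent.MP_f68ac8_nt.OvKey2
import Pool.Agent.MP_f68ac8_nt.OvR1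
import Pool.Agent.MP_f68ac8_nt.OvHens
import Pool.Agent.MP_f68ac8_nt.OvLocP
import Pool.Agent.MP_f68ac8_nt.OvLocG
import Pool.Agent.MP_f68ac8_nt.OvExt
import Pool.Agent.MP_f68ac8_nt.PvBc
import Pool.Agent.MP_f68ac8_nt.PvEx
import Pool.Agent.MP_f68ac8_nt.PvLat
import Pool.Agent.MP_f68ac8_nt.PvCls
import Pool.Agent.MP_f68ac8_nt.PvTr
import Pool.Agent.MP_f68ac8_nt.PvMink
import Pool.Agent.MP_f68ac8_nt.PvSmall
import Pool.Agent.MP_f68ac8_nt.QvPerm2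
import Pool.Agent.MP_f68ac8_nt.QvTeich
import Pool.Agent.MP_f68ac8_nt.QvEig
import Pool.Agent.MP_f68ac8_nt.QvLocAbs
import Pool.Agent.MP_f68ac8_nt.QvLocC
import Pool.Agent.MP_f68ac8_nt.QvLocV
import Pool.Agent.MP_f68ac8_nt.QvCount
import Pool.Agent.MP_f68ac8_nt.QvBs
import Pool.Agent.MP_f68ac8_nt.PtNP
import Pool.Agent.MP_f68ac8_nt.PtSym
import Pool.Agent.MP_f68ac8_nt.PtIdx
import Pool.Agent.MP_f68ac8_nt.PtSUnit
import Pool.Agent.MP_f68ac8_nt.PtVU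
import Pool.Agent.MP_f68ac8_nt.PtPT
import Pool.Agent.MP_f68ac8_nt.PtSplit
import Pool.Agent.MP_f68ac8_nt.PtNorm
import Pool.Agent.MP_f68ac8_nt.PtAuxP
import Pool.Agent.MP_f68ac8_nt.PtH1
import Pool.Agent.MP_f68ac8_nt.PtEqv
import Pool.Agent.MP_f68ac8_nt.PtLam
import Pool.Agent.MP_f68ac8_nt.PtHW
import Pool.Agent.MP_f68ac8_nt.SvTh
import Pool.Agent.MP_f68ac8_nt.SvSum
import Pool.Agent.MP_f68ac8_nt.SvCf
import Pool.Agent.MP_f68ac8_nt.SvFin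
import Pool.Agent.MP_f68ac8_nt.SvStep
import Pool.Agent.MP_f68ac8_nt.AlEx
import Pool.Agent.MP_f68ac8_nt.AlPerm
import Pool.Agent.MP_f68ac8_nt.AlBrA
import Pool.Agent.MP_f68ac8_nt.AlBrB
import Pool.Agent.MP_f68ac8_nt.AlSec
import Pool.Agent.MP_f68ac8_nt.AlAlg
import Pool.Agent.MP_f68ac8_nt.AlRank
import Pool.Agent.MP_f68ac8_nt.AlRankW
import Pool.Agent.MP_f68ac8_nt.SySym1
import Pool.Agent.MP_f68ac8_nt.SySym2
import Pool.Agent.MP_f68ac8_nt.SyFilt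
import Pool.Agent.MP_f68ac8_nt.SyH1
import Pool.Agent.MP_f68ac8_nt.SySt
import Pool.Agent.MP_f68ac8_nt.LcEf
import Pool.Agent.MP_f68ac8_nt.LcHom
import Pool.Agent.MP_f68ac8_nt.LcOne
import Pool.Agent.MP_f68ac8_nt.LcSet
import Pool.Agent.MP_f68ac8_nt.LcBase
import Pool.Agent.MP_f68ac8_nt.LcMb
import Pool.Agent.MP_f68ac8_nt.LcFil
import Pool.Agent.MP_f68ac8_nt.LcGrp
import Pool.Agent.MP_f68ac8_nt.UvSum
import Pool.Agent.MP_f68ac8_nt.UvFin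
import Pool.Agent.MP_f68ac8_nt.UvMat
import Pool.Agent.MP_f68ac8_nt.UvDual
import Pool.Agent.MP_f68ac8_nt.UvAlg
import Pool.Agent.MP_f68ac8_nt.BvOne
import Pool.Agent.MP_f68ac8_nt.BvBas
import Pool.Agent.MP_f68ac8_nt.BvPv
import Pool.Agent.MP_f68ac8_nt.BvOrd
import Pool.Agent.MP_f68ac8_nt.BvSt
import Pool.Agent.MP_f68ac8_nt.BvPack
import Pool.Agent.MP_f68ac8_nt.BvArch

namespace Pool.Agent.MP_f68ac8_nt.NoOrdinaryOld

open NumberField Pool.Agent.MP_f68ac8_nt Sv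
open scoped MatrixGroups

theorem result (p : ℕ) [Fact p.Prime] (K F : IntermediateField ℚ (AlgebraicClosure ℚ))
    [NumberField K] [NumberField F] (h : K ≤ F) (r : K.fixingSubgroup →* PGL(2, ZMod p)) (n : ℕ)
    (hr : PolRes F r 1 1 n) (w : Ideal (𝓞 (AlgebraicClosure ℚ)) → Fin n → ZMod p) :
    ∃ C : ℝ, ∀ t : ℕ → K.fixingSubgroup, (∀ j, PolTyp r 1 n (t j)) → ∀ d : ℕ,
      1 - (n - 1) * p ^ 2 / ((p - 2) * p ^ evDef r) - C * (2 / p) ^ d ≤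
        idDens (fun j => Typ p K F (t j)) d fun S => S.ncard = d ∧ NoLift F r n w S := by
  have hK := Ev.kk_stmt p
  have hW := Ev.wild_stmt
  have hA := Ev.locA_stmt p Ev.ram_stmt
  have hM := Ev.kum_stmt p hK
  have hH := Ev.hens_stmt p
  have hR := Ev.r1G_stmt p (Ev.key1_stmt p) (Ev.key2_stmt p (Ev.mu_stmt p))
  have hP := Ev.locP_stmt p Ev.ram_stmt hW hH
  have hV := Qv.locV_stmt p hK hW (Ev.triv_stmt p) Ev.ram_stmt hA
  have hG := Qv.gal_stmt p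
  have tN := Pt.np_stmt p
  have tE := Pt.ef_stmt p
  have tS := Pt.sym_stmt p tN hR hH
  have tV := Pt.vu_stmt p
  have tP := Pt.split_stmt p tN
  have tT := Pt.pt_stmt p tN tS tE (Pt.idx_stmt p tN tE) (Pt.sUnit_stmt p) tV
  have tW := Pt.hw_stmt p tN tS (Pt.tow_stmt p)
    (Pt.lam_stmt p tN tS tP (Pt.eqv_stmt p tN tS tP) (Pt.norm_stmt p tN tS tP))
    (Pt.aux_stmt p tN tS tV tT tP) tT (Pt.h1_stmt p tV) tP
  have hB := Pv.bc_stmt p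
  have hC := Pv.cls_stmt p hB (Pv.ex_stmt p) (Pv.lat_stmt p hB (Pv.ex_stmt p))
  have hE := exEg_stmt p
  have hF := filW_stmt p hE
  have hJ := j_stmt p Pv.mink_stmt
  have s1 := sym1_stmt
  have s2 := sym2_stmt p s1
  have hb := base_stmt p s1
  have hS := locS_stmt p hb
  have hU := locUr_stmt p hW
  have hm := mb_stmt p s1 s2 hb hS hU (locTame_stmt p)
  have hCo := co_stmt p hK hW hV hG
  have hs := Pv.small_stmt' p
  have h3 := pvB_stmt p s1 s2 hb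
  exact nol_of ⟨th_stmt p hK, hCo, iner_stmt p hK hM hV hCo, nz_stmt p, nz3_stmt p (nz_stmt p),
      sum2_stmt p hK hA hW (Ev.locG_stmt p hK) hCo hG (ord_stmt p hK hCo hG),
      fin0_stmt p hK hM hA tV, stepM_stmt p (Qv.count_stmt p hW hV) hV Ev.idMean_stmt, hV,
      Ev.idMean_stmt, cf_stmt p hK hM hP hR⟩ hb
    (locDim_stmt p hb hm (locFil_stmt p s1 hb hS hU (locOne_stmt p (locHom_stmt p hK hM
      (Qv.locAbs_stmt p (Qv.teich_stmt p) (Qv.eig_stmt p)) (Qv.locC_stmt p hK) hP hG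
      (efEq_stmt p Ev.ram_stmt hW tE))) tE) tE)
    (dualG_stmt p hK (set_stmt p hK) (matG_stmt p hJ (Qv.perm2_stmt p) (mat1_stmt p hB))
      (down2_stmt p Ev.ext_stmt) hV hG)
    (algP_stmt p hb hS (grpP_stmt p s1 s2 hb) tW hJ hC
      (rankW_stmt p hB hC (rankA_stmt p hB) (rankB_stmt p))
      (algW_stmt p (ten_stmt p) (brA_stmt p hE hF (permW_stmt p hE)) (brB_stmt p hF)
        (secW_stmt p) (trW_stmt p (Pv.tr_stmt p))))
    (typP_stmt p s1 hb) (oneB_stmt p s1 hb) (basB_stmt p s1 hb hs) h3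
    (neB_stmt p s1 s2 hb hS (h1s_stmt p) h3) (ordB_stmt p s1 s2 flag_stmt hb hS hs)
    (stB_stmt p hW s1 hb hCo (stC_stmt p st1_stmt)) (projB_stmt p s1)
    (packB_stmt p s1 (filt_stmt p s1) hb hm) (archB_stmt p s1 hb) h hr w

end Pool.Agent.MP_f68ac8_nt.NoOrdinaryOld
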