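import Pool.Agent.MP_f68ac8_nt.NqAux

/-! The statements on generic matrices are in the file imported here. -/
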