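import Mathlib

namespace Pool.Agent.MP_f68ac8_nt.Nd

open Finset

/-- the colours -/
abbrev Om4 : Type := (ZMod 2 × ZMod 2) × (ZMod 2 × ZMod 2)

/-- the pairing of two colours -/
def f4 (a b : Om4) : ZMod 2 := a.2.1 * (a.1.1 + b.1.1) + a.2.2 * (a.1.2 + b.1.2)

/-- distinct unlinked colours -/
def R4 (a b : Om4) : Prop := a ≠ b ∧ f4 a b = f4 b a

instance (a b : Om4) : Decidable (R4 a b) := by
  unfold R4
  infer_instance

set_option synthInstance.maxSize 4096 in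
set_option maxRecDepth 100000 in
theorem five_NrClq : ∀ a b, R4 a b → ∀ c, R4 a c → R4 b c → ∀ d, R4 a d → R4 b d → R4 c d →
    ∀ e, R4 a e → R4 b e → R4 c e → ¬ R4 d e := by
  decide +kernel

/-- the shape of the maximal unlinked sets -/
def P4 (U : List Om4) : Prop :=
  ((∀ x ∈ U, ∀ x' ∈ U, x.1.1 = x'.1.1) ∨ (∀ x ∈ U, ∀ x' ∈ U, x.1.2 = x'.1.2) ∨
    (∀ x ∈ U, ∀ x' ∈ U, x.1.1 + x.1.2 = x'.1.1 + x'.1.2) ∨ ∀ p, ∃ x ∈ U, x.1 = p) ∧
  ((∀ x ∈ U, x.1.1 = x.1.2) → (∀ x ∈ U, ∀ x' ∈ U, x.1.1 = x'.1.1) ∨ ∀ h, ∃ x ∈ U, ∃ x' ∈ U,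
    x.1 = (h, h) ∧ x'.1 = (h, h) ∧ x'.2 = x.2 + (1, 1)) ∧
  ((∀ x ∈ U, x.1 = 0) → ∃ x ∈ U, ∃ x' ∈ U, x.2.1 = 1 ∧ x'.2.1 = 0)

set_option synthInstance.maxSize 4096 in
instance (U : List Om4) : Decidable (P4 U) := by
  unfold P4
  infer_instance

set_option synthInstance.maxSize 4096 in
set_option maxRecDepth 100000 in
theorem four_NrClq : ∀ a b, R4 a b → ∀ c, R4 a c → R4 b c → ∀ d, R4 a d → R4 b d → R4 c d →
    P4 [a, b, c, d] := by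
  decide +kernel

theorem list_NrClq (U : Finset Om4) (h : ∀ a ∈ U, ∀ b ∈ U, f4 a b = f4 b a) (h4 : 4 ≤ U.card) :
    ∃ L : List Om4, P4 L ∧ L.length = 4 ∧ ∀ x, x ∈ U ↔ x ∈ L := by
  obtain ⟨a, ha, b, hb, c, hc, d, hd, h1, h2, h3, h5, h6, h7⟩ := three_lt_card.1 h4
  have r : ∀ {x y}, x ∈ U → y ∈ U → x ≠ y → R4 x y := fun hx hy e => ⟨e, h _ hx _ hy⟩
  refine ⟨[a, b, c, d], four_NrClq a b (r ha hb h1) c (r ha hc h2) (r hb hc h5) d (r ha hd h3)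
    (r hb hd h6) (r hc hd h7), rfl, fun x => ⟨fun hx => ?_, fun hx => ?_⟩⟩
  · by_contra h8
    simp only [List.mem_cons, List.not_mem_nil, or_false, not_or] at h8
    exact five_NrClq a b (r ha hb h1) c (r ha hc h2) (r hb hc h5) d (r ha hd h3) (r hb hd h6)
      (r hc hd h7) x (r ha hx (Ne.symm h8.1)) (r hb hx (Ne.symm h8.2.1))
      (r hc hx (Ne.symm h8.2.2.1)) (r hd hx (Ne.symm h8.2.2.2))
  · simp only [List.mem_cons, List.not_mem_nil, or_false] at hx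
    rcases hx with rfl | rfl | rfl | rfl <;> assumption

theorem card_NrClq (U : Finset Om4) (h : ∀ a ∈ U, ∀ b ∈ U, f4 a b = f4 b a) : U.card ≤ 4 := by
  by_contra h4
  obtain ⟨L, -, h1, h2⟩ := list_NrClq U h (by omega)
  have h3 : U ⊆ L.toFinset := fun x hx => List.mem_toFinset.2 ((h2 x).1 hx)
  have := (card_le_card h3).trans L.toFinset_card_le
  omega

end Pool.Agent.MP_f68ac8_nt.Nd
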