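import Mathlib
import Pool.Agent.MP_f68ac8_nt.ZkAux

/-! Affine maps of a module over the Gaussian integers. -/

namespace Pool.Agent.MP_f68ac8_nt.Nt

open Zk
open scoped commutatorElement

/-- a module over the Gaussian integers with the kernels of the powers of `J - 1` -/
structure Md (V : Type) [AddCommGroup V] where
  J : V ≃ₗ[ℤ] V
  W : ℕ → AddSubgroup V
  N : ℕ
  sq : ∀ u, J (J u) = -u
  zero : W 0 = ⊥
  succ : ∀ n u, u ∈ W (n + 1) ↔ J u - u ∈ W n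
  two : ∀ u ∈ W 1, ∀ v ∈ W 1, u ≠ 0 → v ≠ 0 → u = v
  ex : ∀ n < N, ∃ u ∈ W (n + 1), u ∉ W n

/-- affine maps -/
@[ext] structure Af (V : Type) [AddCommGroup V] where
  t : V
  a : V ≃ₗ[ℤ] V

variable {V : Type} [AddCommGroup V]

instance : Group (Af V) where
  mul g h := ⟨g.t + g.a h.t, g.a * h.a⟩
  one := ⟨0, 1⟩
  inv g := ⟨-g.a⁻¹ g.t, g.a⁻¹⟩
  mul_assoc g h k := Af.ext (by
    change g.t + g.a h.t + g.a (h.a k.t) = g.t + g.a (h.t + h.a k.t)
    rw [map_add, add_assoc]) (mul_assoc _ _ _)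
  one_mul g := Af.ext (zero_add _) (one_mul _)
  mul_one g := Af.ext (by
    change g.t + g.a 0 = g.t
    rw [map_zero, add_zero]) (mul_one _)
  inv_mul_cancel g := Af.ext (neg_add_cancel _) (inv_mul_cancel _)

@[simp] theorem mul_t (g h : Af V) : (g * h).t = g.t + g.a h.t := rfl
@[simp] theorem mul_a (g h : Af V) : (g * h).a = g.a * h.a := rfl
@[simp] theorem one_t : (1 : Af V).t = 0 := rfl
@[simp] theorem one_a : (1 : Af V).a = 1 := rfl
@[simp] theorem inv_t (g : Af V) : g⁻¹.t = -g.a⁻¹ g.t := rfl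
@[simp] theorem inv_a (g : Af V) : g⁻¹.a = g.a⁻¹ := rfl

instance [Finite V] : Finite (Af V) :=
  have : Finite (V ≃ₗ[ℤ] V) := Finite.of_injective _ DFunLike.coe_injective
  Finite.of_injective (fun g : Af V => (g.t, g.a)) fun _ _ h =>
    Af.ext (congrArg Prod.fst h) (congrArg Prod.snd h)

/-- the value at a point -/
def Af.ap (g : Af V) (y : V) : V := g.t + g.a y

theorem ap_mul (g h : Af V) (y : V) : (g * h).ap y = g.ap (h.ap y) := by
  simp [Af.ap, add_assoc]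

theorem ap_one (y : V) : (1 : Af V).ap y = y := by simp [Af.ap]

theorem ap_add (g : Af V) (y z : V) : g.ap (y + z) = g.ap y + g.a z := by
  simp [Af.ap, add_assoc]

theorem a_inv (a : V ≃ₗ[ℤ] V) (y : V) : a (a⁻¹ y) = y := a.apply_symm_apply y

theorem inv_a' (a : V ≃ₗ[ℤ] V) (y : V) : a⁻¹ (a y) = y := a.symm_apply_apply y

namespace Md
variable (M : Md V)

theorem J_mem : ∀ (n : ℕ) {u : V}, u ∈ M.W n → M.J u ∈ M.W n
  | 0, u, h => by
    rw [M.zero, AddSubgroup.mem_bot] at h ⊢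
    rw [h, map_zero]
  | n + 1, u, h => by
    rw [M.succ] at h ⊢
    rw [← map_sub]
    exact J_mem n h

theorem mono {n k : ℕ} (h : n ≤ k) : M.W n ≤ M.W k :=
  monotone_nat_of_le_succ (fun n _ hu => (M.succ n _).2 (sub_mem (M.J_mem n hu) hu)) h

theorem idx : ∀ (n : ℕ) {u v : V}, u ∈ M.W (n + 1) → v ∈ M.W (n + 1) → u ∉ M.W n → v ∉ M.W n →
    u - v ∈ M.W n
  | 0, u, v, hu, hv, h1, h2 => by
    rw [M.zero, AddSubgroup.mem_bot] at h1 h2 ⊢
    rw [M.two u hu v hv h1 h2, sub_self]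
  | n + 1, u, v, hu, hv, h1, h2 => by
    rw [M.succ] at hu hv h1 h2 ⊢
    have := idx n hu hv h1 h2
    rwa [map_sub, sub_sub_sub_comm]

theorem two_mem (n : ℕ) (u : V) : u + u ∈ M.W n ↔ u ∈ M.W (n + 2) := by
  rw [M.succ, M.succ, map_sub, M.sq]
  have h : -u - M.J u - (M.J u - u) = -M.J (u + u) := by
    rw [map_add]
    abel
  rw [h, neg_mem_iff]
  refine ⟨M.J_mem n, fun h1 => ?_⟩
  have := M.J_mem n h1
  rwa [M.sq, neg_mem_iff] at this

theorem om_mem {n : ℕ} {u : V} (h : u ∈ M.W n) : M.J u - u ∈ M.W (n - 1) := by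
  rcases n with _ | n
  · exact sub_mem (M.J_mem 0 h) h
  · exact (M.succ n u).1 h

open Classical in
/-- the digit of level `n` -/
noncomputable def dg (n : ℕ) (u : V) : ZMod 2 := if u ∈ M.W n then 0 else 1

variable {M}

theorem dg_zero {n : ℕ} {u : V} : M.dg n u = 0 ↔ u ∈ M.W n := by
  unfold dg
  split_ifs with h <;> simp [h]

theorem dg_one {n : ℕ} {u : V} : M.dg n u = 1 ↔ u ∉ M.W n := by
  unfold dg
  split_ifs with h <;> simp [h]

theorem dg_iff {n k : ℕ} {u v : V} (h : u ∈ M.W n ↔ v ∈ M.W k) : M.dg n u = M.dg k v := by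
  by_cases h1 : v ∈ M.W k
  · rw [dg_zero.2 h1, dg_zero.2 (h.2 h1)]
  · rw [dg_one.2 h1, dg_one.2 (mt h.1 h1)]

theorem dg_congr {n : ℕ} {u v : V} (h : u - v ∈ M.W n) : M.dg n u = M.dg n v :=
  dg_iff ⟨fun h1 => by simpa using sub_mem h1 h, fun h1 => by simpa using add_mem h h1⟩

theorem dg_add {n : ℕ} {u v : V} (hu : u ∈ M.W (n + 1)) (hv : v ∈ M.W (n + 1)) :
    M.dg n (u + v) = M.dg n u + M.dg n v := by
  by_cases h1 : u ∈ M.W n
  · rw [dg_zero.2 h1, zero_add]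
    exact dg_congr (by simpa using h1)
  by_cases h2 : v ∈ M.W n
  · rw [dg_zero.2 h2, add_zero]
    exact dg_congr (by simpa using h2)
  rw [dg_one.2 h1, dg_one.2 h2, dg_zero.2]
  · rfl
  · simpa using M.idx n hu (neg_mem hv) h1 (by simpa using h2)

theorem dg_neg (n : ℕ) (u : V) : M.dg n (-u) = M.dg n u := dg_iff neg_mem_iff

theorem dg_om (n : ℕ) (u : V) : M.dg n (M.J u - u) = M.dg (n + 1) u :=
  dg_iff (M.succ n u).symm

variable (M)

/-- linear maps that lower the level by `k` modulo the identity -/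
def Lw (k : ℕ) (a : V ≃ₗ[ℤ] V) : Prop := ∀ n, ∀ u ∈ M.W n, a u - u ∈ M.W (n - k)

variable {M}

theorem Lw.mem {k : ℕ} {a : V ≃ₗ[ℤ] V} (h : M.Lw k a) {n : ℕ} {u : V} (hu : u ∈ M.W n) :
    a u ∈ M.W n := by
  simpa using add_mem (M.mono (Nat.sub_le n k) (h n u hu)) hu

theorem Lw.mem_of {k : ℕ} {a : V ≃ₗ[ℤ] V} (h : M.Lw k a) (hk : 1 ≤ k) {j : ℕ} :
    ∀ (n : ℕ) {u : V}, u ∈ M.W (j + n) → a u ∈ M.W j → u ∈ M.W j
  | 0, _, hu, _ => hu
  | n + 1, u, hu, h1 => h.mem_of hk n (by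
    simpa using sub_mem (M.mono (Nat.le_add_right j n) h1)
      (M.mono (show j + (n + 1) - k ≤ j + n by omega) (h _ u hu))) h1

theorem Lw.anti {k l : ℕ} {a : V ≃ₗ[ℤ] V} (h : M.Lw l a) (hk : k ≤ l) : M.Lw k a :=
  fun n u hu => M.mono (by omega) (h n u hu)

theorem Lw.mul {k : ℕ} {a b : V ≃ₗ[ℤ] V} (ha : M.Lw k a) (hb : M.Lw k b) : M.Lw k (a * b) :=
  fun n u hu => by
    have := add_mem (ha n _ (hb.mem hu)) (hb n u hu)
    simpa using this

theorem lw_one (k : ℕ) : M.Lw k 1 := fun n u _ => by simp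

theorem lw_J : M.Lw 1 M.J := fun _ _ h => M.om_mem h

theorem Lw.pow {k : ℕ} {a : V ≃ₗ[ℤ] V} (ha : M.Lw k a) : ∀ n : ℕ, M.Lw k (a ^ n)
  | 0 => by simpa using lw_one k
  | n + 1 => by simpa [pow_succ] using (ha.pow n).mul ha

theorem Lw.inv [Finite V] {k : ℕ} {a : V ≃ₗ[ℤ] V} (ha : M.Lw k a) : M.Lw k a⁻¹ := by
  have : Finite (V ≃ₗ[ℤ] V) := Finite.of_injective _ DFunLike.coe_injective
  have h := orderOf_pos a
  have h1 : a⁻¹ = a ^ (orderOf a - 1) := by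
    rw [inv_eq_iff_mul_eq_one, ← pow_succ', Nat.sub_add_cancel h, pow_orderOf_eq_one]
  rw [h1]
  exact ha.pow _

theorem Lw.dg {a : V ≃ₗ[ℤ] V} (ha : M.Lw 1 a) {n : ℕ} {u : V} (hu : u ∈ M.W (n + 1)) :
    M.dg n (a u) = M.dg n u := dg_congr (ha _ u hu)

variable (M) [Finite V] (m : ℕ)

/-- the filtration of the group of affine maps -/
def Fl (k : ℕ) : Subgroup (Af V) where
  carrier := {g | g.t ∈ M.W (m + 1 - k) ∧ M.Lw k g.a}
  one_mem' := ⟨zero_mem _, lw_one k⟩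
  mul_mem' := fun hg hh => ⟨add_mem hg.1 (hg.2.mem hh.1), hg.2.mul hh.2⟩
  inv_mem' := fun hg => ⟨neg_mem (hg.2.inv.mem hg.1), hg.2.inv⟩

/-- the group -/
abbrev PP : Type := M.Fl m 1

noncomputable instance : Fintype (M.PP m) := Fintype.ofFinite _

/-- its filtration -/
def FF (k : ℕ) : Subgroup (M.PP m) := (M.Fl m k).subgroupOf (M.Fl m 1)

theorem ff_one : M.FF m 1 = ⊤ := Subgroup.subgroupOf_self _

theorem ns_ff : NS (M.FF m) := by
  refine ⟨fun i j _ hij g hg => ⟨M.mono (by omega) hg.1, hg.2.anti hij⟩,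
    fun i j hi hj g hg h hh => ?_⟩
  obtain ⟨⟨s, a⟩, _⟩ := g
  obtain ⟨⟨t, b⟩, _⟩ := h
  obtain ⟨hs, ha⟩ : s ∈ M.W (m + 1 - i) ∧ M.Lw i a := hg
  obtain ⟨ht, hb⟩ : t ∈ M.W (m + 1 - j) ∧ M.Lw j b := hh
  refine ⟨?_, fun n u hu => ?_⟩
  · change s + a t + (a * b) (-a⁻¹ s) + (a * b * a⁻¹) (-b⁻¹ t) ∈ _
    have h1 := ha.mem (hb _ _ (ha.inv.mem hs))
    have h2 := ha.mem (hb.mem (ha.inv _ _ (hb.inv.mem ht)))
    have h3 := neg_mem (add_mem (M.mono (show m + 1 - i - j ≤ m + 1 - (i + j) by omega) h1)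
      (M.mono (show m + 1 - j - i ≤ m + 1 - (i + j) by omega) h2))
    convert h3 using 1
    simp only [LinearEquiv.mul_apply, map_neg, map_sub, a_inv]
    abel
  · change (a * b * a⁻¹ * b⁻¹) u - u ∈ _
    have h0 := ha.inv.mem (hb.inv.mem hu)
    have h3 := sub_mem (M.mono (show n - j - i ≤ n - (i + j) by omega) (ha _ _ (hb _ _ h0)))
      (M.mono (show n - i - j ≤ n - (i + j) by omega) (hb _ _ (ha _ _ h0)))
    convert h3 using 1
    simp only [LinearEquiv.mul_apply, map_sub, a_inv]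
    abel

end Md

end Pool.Agent.MP_f68ac8_nt.Nt
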