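import Mathlib
import Pool.Agent.MP_f68ac8_nt.NpAux
import Pool.Agent.MP_f68ac8_nt.NtMod

/-! Equations for centres of rotations. -/

namespace Pool.Agent.MP_f68ac8_nt.Nt

open Zq Zk Nd Finset
open scoped BigOperators commutatorElement

variable {V : Type} [AddCommGroup V]

namespace Md
variable (M : Md V)

open Classical in
/-- the action on two consecutive layers -/
noncomputable def del (n : ℕ) (a : V ≃ₗ[ℤ] V) : ZMod 2 :=
  if ∀ u ∈ M.W (n + 1), a u - u ∈ M.W (n - 1) then 0 else 1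

variable [Finite V] {m : ℕ}

/-- the rotation about a point -/
def rot (v : M.W (m + 1)) : M.PP m :=
  ⟨⟨v - M.J v, M.J⟩, by simpa using neg_mem (M.om_mem v.2), lw_J⟩

end Md

/-- the parameters -/
structure Pm (M : Md V) [Finite V] (m e : ℕ) where
  x : Fin e → M.PP m
  φ : Fin e
  c : Fin e
  f : V
  o : V
  α : ZMod 2
  a : ZMod 2
  g : ZMod 2 × ZMod 2

namespace Pm
variable {M : Md V} [Finite V] {m e : ℕ} (p : Pm M m e) {d : ℕ}

/-- the values of the letters -/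
def xv (v : Fin d → M.W (m + 1)) : Fin (d + e) → M.PP m := Fin.append (fun j => M.rot (v j)) p.x

/-- the leading digits -/
noncomputable def uv (v : Fin d → M.W (m + 1)) (j : Fin d) : ZMod 2 := M.dg m (v j)

/-- the tame block -/
def rho (r : Mx (d + e)) : Mx d := fun i j => r (Fin.castAdd e i) (Fin.castAdd e j)

/-- the row of the Frobenius element at two -/
def kp (r : Mx (d + e)) (j : Fin d) : ZMod 2 := r (Fin.natAdd d p.φ) (Fin.castAdd e j)

/-- the conditions on the matrix -/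
structure Ar (Sm Lg : Finset (Fin d)) (B : ℕ) (r : Mx (d + e)) : Prop where
  gen : GenQ Sm Lg B m (rho r) (p.kp r)
  rcp : Rcp (rho r)
  cr : ∀ j, r (Fin.natAdd d p.c) (Fin.castAdd e j) = rho r j j
  dt : ∀ n, 1 ≤ n → n ≤ m → ∀ j, ∑ b, r (Fin.castAdd e j) (Fin.natAdd d b) * M.del n (p.x b).1.a =
    (p.α + n) * rho r j j + p.a * p.kp r j
  dc : ∀ n, 1 ≤ n → n ≤ m →
    ∑ b, r (Fin.natAdd d p.c) (Fin.natAdd d b) * M.del n (p.x b).1.a = p.α + n
  top : ∀ j, ∑ b, r (Fin.castAdd e j) (Fin.natAdd d b) * M.dg (m - 1) (p.x b).1.t =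
    p.g.1 * rho r j j + p.g.2 * p.kp r j

/-- true solutions -/
structure Tr (v : Fin d → M.W (m + 1)) (Z : Fin (d + e) → M.PP m) : Prop where
  nc : ¬ Cst (uv v)
  tame : ∀ i, (Z (Fin.castAdd e i)).1.ap (v i) - v i ∈ M.W 2
  fr : (Z (Fin.natAdd d p.φ)).1.t = p.f
  fo : (Z (Fin.natAdd d p.φ)).1.ap p.o = p.o
  cc : Z (Fin.natAdd d p.c) * Z (Fin.natAdd d p.c) = 1

/-- the equations for the leading digits -/
def Top (r : Mx (d + e)) (v : Fin d → M.W (m + 1)) : Prop :=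
  KQ (rho r) (p.kp r) (p.α + m, p.a) p.g (uv v) ∧ ¬ Cst (uv v)

variable (i₀ : Fin d) (n : ℕ)

/-- the equations of level `n` -/
def Lev (v : Fin d → M.W (m + 1)) (Z : Fin (d + e) → M.PP m) : Prop :=
  (∀ i, i ≠ i₀ → (Z (Fin.castAdd e i)).1.ap (v i) - v i ∈ M.W n) ∧
    (Z (Fin.natAdd d p.φ)).1.t - p.f ∈ M.W n ∧
    (Z (Fin.natAdd d p.c) * Z (Fin.natAdd d p.c)).1.t ∈ M.W (n - 1)

/-- the parity of the matrix -/
def par (r : Mx (d + e)) : ZMod 2 := ∑ j, rho r j j + p.α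

/-- the obstructions -/
noncomputable def ob (π : ZMod 2) (v : Fin d → M.W (m + 1)) (Z : Fin (d + e) → M.PP m) :
    Option (Fin d) → ZMod 2
  | some i => if i = i₀ then M.dg (n - 1) ((Z (Fin.natAdd d p.φ)).1.t - p.f)
      else M.dg (n - 1) ((Z (Fin.castAdd e i)).1.ap (v i) - v i)
  | none => (π + n + 1) * M.dg (n - 2) (Z (Fin.natAdd d p.c) * Z (Fin.natAdd d p.c)).1.t

/-- the tame part of a dual vector -/
def zt (z : Option (Fin d) → ZMod 2) (i : Fin d) : ZMod 2 := if i = i₀ then 0 else z (some i)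

/-- the left kernel -/
def LK (r : Mx (d + e)) (z : Option (Fin d) → ZMod 2) : Prop :=
  KQ (rho r) (p.kp r) (p.α + n + 1, p.a)
    (∑ i, zt i₀ z i * rho r i i + z none * (p.par r + n + 1), z (some i₀)) (zt i₀ z)

variable {Λ : Type} (y : Lr (d + e) Λ → FreeGroup (Lr (d + e) Λ)) (q : Fin (d + e) → Λ)

/-- the values of the words -/
noncomputable abbrev Y (v : Fin d → M.W (m + 1)) : Fin (d + e) → M.PP m :=
  Yw (U := fun _ => Λ) y q (p.xv v)

/-- solutions of level `n` -/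
def Sol : Set (Fin d → M.W (m + 1)) :=
  {v | p.Top (rr (U := fun _ => Λ) y q 2) v ∧ p.Lev i₀ n v (p.Y y q v)}

end Pm

/-- the deterministic inequality -/
def CoreQ : Prop :=
  ∀ (V : Type) [AddCommGroup V] [Finite V] (M : Md V) (m e h : ℕ), 2 * h + 7 ≤ m → m < M.N →
    ∃ c : ℝ, ∀ (p : Pm M m e) (B : ℕ), p.o ∈ M.W (m + 3) → (∀ b, (p.x b).1.ap p.o = p.o) →
    ∀ (d : ℕ) (Sm Lg : Finset (Fin d)), Disjoint Sm Lg →
      ∃ (I : Type) (_ : Fintype I) (T : I → Trm (M.PP m) (d + e)),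
        (Fintype.card I : ℝ) ≤ c ^ (d + 1) ∧ (∀ i, (T i).Ok (M.FF m) m (upq e Sm) (upq e Lg)) ∧
        ∀ (Λ : Type) (y : Lr (d + e) Λ → FreeGroup (Lr (d + e) Λ)) (q : Fin (d + e) → Λ),
          0 ≤ (B : ℝ) / 2 ^ h + ∑ i, (T i).val y q ∧
          (p.Ar Sm Lg B (rr (U := fun _ => Λ) y q 2) → (∃ v, p.Tr v (p.Y y q v)) →
            1 ≤ (B : ℝ) / 2 ^ h + ∑ i, (T i).val y q)

end Pool.Agent.MP_f68ac8_nt.Nt
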