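import Mathlib
import Pool.Agent.MP_f68ac8_nt.OvAux
import Pool.Agent.MP_f68ac8_nt.FvRec
import Pool.Agent.MP_f68ac8_nt.FvLocU

/-! Existence of the Artin function. -/

namespace Pool.Agent.MP_f68ac8_nt.Ev

open NumberField Matrix
open Pool.Agent.MP_14ad9d_nt.Full (Pr)
open scoped Pointwise

lemma absNorm_smul_OvArt {F : Type} [Field F] [NumberField F] (δ : F ≃ₐ[ℚ] F)
    (I : Ideal (𝓞 F)) : Ideal.absNorm (δ • I) = Ideal.absNorm I := by
  rw [Ideal.absNorm_apply, Ideal.absNorm_apply, Submodule.cardQuot_apply, Submodule.cardQuot_apply]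
  exact (Nat.card_congr (Ideal.quotientEquiv I (δ • I)
    (MulSemiringAction.toRingEquiv _ (𝓞 F) δ) rfl).toEquiv).symm

section
variable {p : ℕ} [Fact p.Prime] {K F : IntermediateField ℚ Qb} {n : ℕ}

lemma conj_OvArt {r : K.fixingSubgroup →* GL (Fin n) (ZMod p)} {f : GQ → Mt n (ZMod p)}
    (hf : Tang p F r f) {h x : GQ} (hh : h ∈ F.fixingSubgroup) (hx : x ∈ F.fixingSubgroup) :
    f (h * x * h⁻¹) = f x := by
  have e1 := hf.add _ (mul_mem (mul_mem hh hx) (inv_mem hh)) h hh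
  rw [inv_mul_cancel_right, hf.add h hh x hx, add_comm] at e1
  exact (add_right_cancel e1).symm

/-- the chosen Frobenius elements -/
def Fr_OvArt (D : Dat p K n) (F : IntermediateField ℚ Qb) [NumberField F] [Normal ℚ F]
    {J : Type} (c : J → Co) (P : Ideal OQ) (s : GQ) : Prop :=
  P.IsMaximal ∧ (D.N : OQ) ∉ P ∧ s ∈ F.fixingSubgroup ∧
    ((∃ j, ∃ g ∈ K.fixingSubgroup, P = g • (c j).P ∧ s = g * (c j).σ ^ (c j).m F * g⁻¹) ∨
      ((∀ j, ∀ t ∈ K.fixingSubgroup, P ≠ t • (c j).P) ∧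
        IsFrob (Ideal.absNorm (P.under (𝓞 F))) P s))

lemma nat_smul_OvArt (g : GQ) {P : Ideal OQ} {l : ℕ} : (l : OQ) ∈ g • P ↔ (l : OQ) ∈ P := by
  refine ⟨fun h => ?_, smul_nat_EvRec g⟩
  simpa using smul_nat_EvRec g⁻¹ h

lemma fr_conj_OvArt [NumberField F] [IsGalois ℚ F] {D : Dat p K n} {J : Type} {c : J → Co}
    (hE : ∀ (g : GQ) (P : Ideal OQ), (g • P).under (𝓞 F) = res F g • P.under (𝓞 F))
    {P : Ideal OQ} {s g : GQ} (hg : g ∈ K.fixingSubgroup) (h : Fr_OvArt D F c P s) :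
    Fr_OvArt D F c (g • P) (g * s * g⁻¹) := by
  obtain ⟨h1, h2, h3, h4⟩ := h
  refine ⟨smul_max_EvRec g h1, fun h => h2 ((nat_smul_OvArt g).1 h), conj_mem_EvRec F g h3, ?_⟩
  rcases h4 with ⟨j, t, ht, rfl, rfl⟩ | ⟨h4, h5⟩
  · exact Or.inl ⟨j, g * t, mul_mem hg ht, (mul_smul _ _ _).symm, by group⟩
  · refine Or.inr ⟨fun j t ht e => h4 j (g⁻¹ * t) (mul_mem (inv_mem hg) ht) ?_, ?_⟩
    · rw [mul_smul, ← e, inv_smul_smul]
    · rw [hE, absNorm_smul_OvArt]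
      exact frob_conj_EvRec g h5

end

theorem art_stmt (p : ℕ) [Fact p.Prime] (hW : WildStmt) (hC : CoresStmt p) (hCo : CoStmt p)
    (hE : EqvStmt p) (hI : InerOStmt p) : ArtStmt p := by
  intro K F _ _ _ hKF n D hB J c hc hinj f hf
  obtain ⟨e1, -, e3⟩ := hE K F n D
  have hle : F.fixingSubgroup ≤ K.fixingSubgroup := IntermediateField.fixingSubgroup_antitone hKF
  have hco := fun j => (hCo K F hKF n D hB).2 (c j) (hc j)
  haveI : F.fixingSubgroup.Normal := ⟨fun h hh g => conj_mem_EvRec F g hh⟩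
  have aux : ∀ j, ∀ g ∈ K.fixingSubgroup,
      Fr_OvArt D F c (g • (c j).P) (g * (c j).σ ^ (c j).m F * g⁻¹) := fun j g hg =>
    ⟨smul_max_EvRec g (hc j).max, fun h => (hco j).2.1 ((nat_smul_OvArt g).1 h),
      conj_mem_EvRec F g (hco j).2.2.1, Or.inl ⟨j, g, hg, rfl, rfl⟩⟩
  have ex : ∀ P : Ideal OQ, P.IsMaximal → (D.N : OQ) ∉ P → ∃ s, Fr_OvArt D F c P s := by
    intro P hP hN
    by_cases h : ∃ j, ∃ g ∈ K.fixingSubgroup, P = g • (c j).P
    · obtain ⟨j, g, hg, rfl⟩ := h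
      exact ⟨_, aux j g hg⟩
    · obtain ⟨l, e, s, -, -, -, h1, h2, h3⟩ := hW.2.1 F P hP
      exact ⟨s, hP, hN, h2, Or.inr ⟨fun j t ht e => h ⟨j, t, ht, e⟩, h1 ▸ h3⟩⟩
  have un : ∀ P s s', Fr_OvArt D F c P s → Fr_OvArt D F c P s' → f s = f s' := by
    rintro P s s' ⟨hP, hN, hs, h⟩ ⟨-, -, hs', h'⟩
    rcases h with ⟨j, g, hg, a1, a2⟩ | ⟨a1, a2⟩
    · rcases h' with ⟨j', g', hg', b1, b2⟩ | ⟨b1, -⟩
      · have hj : j = j' := by
          apply hinj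
          by_contra hne
          haveI := hP
          refine not_mem_of_coprime (P := P) (a1 ▸ smul_nat_EvRec g (hc j).mem)
            ((Nat.coprime_primes (hc j).prime (hc j').prime).2 hne) ?_
          exact b1 ▸ smul_nat_EvRec g' (hc j').mem
        subst hj
        have hu : (g'⁻¹ * g) • (c j).P = (c j).P := by
          rw [mul_smul, ← a1, b1, inv_smul_smul]
        obtain ⟨y, ⟨k, rfl⟩, z, hz, e⟩ := Subgroup.mem_sup_of_normal_right.1
          (((hco j).2.2.2.2.2.2.2.2.1 (g'⁻¹ * g)).1 (by rw [hu]))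
        have hm := conj_mem_EvRec F g' (conj_mem_EvRec F ((c j).σ ^ k) hz)
        rw [← conj_OvArt hf.tang hm hs', a2, b2]
        have eg : g = g' * ((c j).σ ^ k * z) := by
          have e' : (c j).σ ^ k * z = g'⁻¹ * g := e
          rw [e', mul_inv_cancel_left]
        rw [eg]
        congr 1
        group
      · exact absurd a1 (b1 j g hg)
    · rcases h' with ⟨j', g', hg', b1, -⟩ | ⟨-, b2⟩
      · exact absurd b1 (a1 j' g' hg')
      · have hm : s * s'⁻¹ ∈ F.fixingSubgroup := mul_mem hs (inv_mem hs')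
        have := hf.tang.add _ hm _ hs'
        rwa [inv_mul_cancel_right, hf.unr P _ ⟨hP, frob_inert_FvLocU a2 b2, hm⟩ hN a1,
          zero_add] at this
  have un' : ∀ P P' s s', P.under (𝓞 F) = P'.under (𝓞 F) → Fr_OvArt D F c P s →
      Fr_OvArt D F c P' s' → f s = f s' := by
    intro P P' s s' e h h'
    obtain ⟨g, hg, rfl⟩ := trans_rel_EvRec F h.1 h'.1 e
    rw [← un _ _ _ (fr_conj_OvArt e3 (hle hg) h) h', conj_OvArt hf.tang hg h.2.2.1]
  have exh : ∀ w : Pr F, ∃ Y : Mt n (ZMod p), Y.trace = 0 ∧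
      ((D.N : 𝓞 F) ∈ w.asIdeal → Y = 0) ∧
      ∀ P s, w.asIdeal = P.under (𝓞 F) → Fr_OvArt D F c P s → Y = f s := by
    intro w
    by_cases hN : (D.N : 𝓞 F) ∈ w.asIdeal
    · refine ⟨0, trace_zero _ _, fun _ => rfl, fun P s e h => absurd ?_ h.2.1⟩
      exact (nat_under_EvRec F).1 (e ▸ hN)
    · obtain ⟨P, hP, e⟩ := over_EvRec F w
      obtain ⟨s, hs⟩ := ex P hP fun h => hN (e ▸ (nat_under_EvRec F).2 h)
      exact ⟨f s, hf.tang.tr s hs.2.2.1, fun h => absurd h hN,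
        fun P' s' e' h' => un' P P' s s' (e.symm.trans e') hs h'⟩
  choose h h1 h2 h3 using exh
  obtain ⟨φ, k1, -, k3⟩ := e1 h h1 h2 (by
    intro g w w' e
    obtain ⟨P, hP, eP⟩ := over_EvRec F w
    rw [eP, ← e3] at e
    by_cases hN : (D.N : OQ) ∈ P
    · rw [h2 w (eP ▸ (nat_under_EvRec F).2 hN),
        h2 w' (e ▸ (nat_under_EvRec F).2 (smul_nat_EvRec g.1 hN))]
      simp [Dat.ad]
    · obtain ⟨s, hs⟩ := ex P hP hN
      rw [h3 w P s eP hs, h3 w' _ _ e (fr_conj_OvArt e3 g.2 hs)]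
      exact hf.tang.conj g s hs.2.2.1)
  have key : ∀ P s, Fr_OvArt D F c P s → φ (P.under (𝓞 F)) = f s := by
    intro P s hs
    obtain ⟨w, hw⟩ := pr_EvRec F hs.1
    rw [← hw, k3, h3 w P s hw hs]
  exact ⟨φ, k1, fun j g hg => key _ _ (aux j g hg),
    fun P hP hN ho s hs hfr => key P s ⟨hP, hN, hs, Or.inr ⟨ho, hfr⟩⟩⟩

end Pool.Agent.MP_f68ac8_nt.Ev
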