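import Mathlib
import Pool.Agent.MP_f68ac8_nt.OvAux
import Pool.Agent.MP_f68ac8_nt.FvRec

/-! The data at an auxiliary prime. -/

namespace Pool.Agent.MP_f68ac8_nt.Ev

open NumberField
open Pool.Agent.MP_14ad9d_nt.Full (Pr ord Tm tame Phi NearAt)
open scoped Pointwise Topology

lemma out_OvCo {Γ : Type} [Group Γ] (G H : Subgroup Γ) {g : Γ} (hg : g ∈ G)
    (x : G ⧸ H.subgroupOf G) :
    ((x.out : G) : Γ)⁻¹ * g ∈ H ↔ x = QuotientGroup.mk (⟨g, hg⟩ : G) := by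
  conv_rhs => rw [← QuotientGroup.out_eq' x, QuotientGroup.eq, Subgroup.mem_subgroupOf]
  rfl

lemma orbit_OvCo (F : IntermediateField ℚ Qb) [NumberField F] [IsGalois ℚ F] (G : Subgroup GQ)
    {ι : Type} [Finite ι] (t : ι → GQ) (htG : ∀ i, t i ∈ G)
    (ht : ∀ g ∈ G, ∃! i, (t i)⁻¹ * g ∈ F.fixingSubgroup) {P : Ideal OQ} (hP : P.IsMaximal)
    {σ : GQ} (hσ : σ ∈ G) (h1 : σ • P = P)
    (h2 : MulAction.stabilizer GQ P ≤ Subgroup.zpowers σ ⊔ F.fixingSubgroup)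
    {V : Type} [AddCommGroup V] (a : Pr F → V) (b : GQ → V)
    (h : ∀ g ∈ G, ∀ w : Pr F, w.asIdeal = (g • P).under (𝓞 F) → b g = a w) :
    ∑ᶠ x : ι, b (t x) =
      orderOf (res F σ) • ∑ᶠ w ∈ {w : Pr F | ∃ g ∈ G, w.asIdeal = (g • P).under (𝓞 F)}, a w := by
  classical
  have := Fintype.ofFinite ι
  choose W hW using fun x : ι => pr_EvRec F (smul_max_EvRec (t x) hP)
  have hs : {w : Pr F | ∃ g ∈ G, w.asIdeal = (g • P).under (𝓞 F)} =
      (Finset.univ.image W : Finset _) := by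
    ext w
    rw [Finset.coe_image, Finset.coe_univ, Set.image_univ]
    constructor
    · rintro ⟨g, hg, e⟩
      obtain ⟨x, hx, -⟩ := ht g hg
      refine ⟨x, IsDedekindDomain.HeightOneSpectrum.ext ?_⟩
      rw [hW, e, ← under_smul_EvRec F (conj_mem_EvRec F (t x) hx), ← mul_smul]
      congr 2
      group
    · rintro ⟨x, rfl⟩
      exact ⟨_, htG x, hW x⟩
  rw [hs, finsum_mem_coe_finset, finsum_eq_sum_of_fintype,
    Finset.sum_congr rfl fun x _ => h _ (htG x) _ (hW x), Finset.sum_comp a W, Finset.smul_sum]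
  refine Finset.sum_congr rfl fun w hw => ?_
  obtain ⟨y, -, rfl⟩ := Finset.mem_image.1 hw
  rw [fibre_FvRec (res F) G t htG (by simpa only [ker_FvRec] using ht) hσ y _ fun x => ?_]
  rw [Finset.mem_filter, and_iff_right (Finset.mem_univ _), ← under_FvRec F hP h1 h2, ← hW, ← hW]
  exact ⟨fun e => by rw [e], IsDedekindDomain.HeightOneSpectrum.ext⟩

theorem co_stmt (p : ℕ) [Fact p.Prime] (hK : KKStmt p) (hW : WildStmt) (hU : LocUStmt p)
    (hT : TrivStmt p) (hC : CoresStmt p) (hE : EqvStmt p) : CoStmt p := by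
  intro K F _ _ _ hKF n D hB
  have hp : p.Prime := Fact.out
  obtain ⟨⟨hM, -, hfin, -⟩, -⟩ := hC K F hKF n D hB
  have hne : ∀ l : ℕ, ¬ l ∣ D.N → l ≠ p := fun l hl e => hl (e ▸ hB.odd.2.2.1)
  refine ⟨fun l P hl hN hd hP hlP => ?_, fun c hc => ?_⟩
  · obtain ⟨w, hw⟩ := pr_EvRec F hP
    exact (hU F hM l hB.odd.1 hl (hne l hN) P w hP hlP hw ((hT F).2.1 l hl hd P hP hlP)).2.1
  have hP := hc.max
  have hs := (hT F).2.1 c.l hc.prime hc.unr c.P hP hc.mem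
  have hm : c.σ ^ c.m F ∈ F.fixingSubgroup := by
    rw [← ker_FvRec, map_pow]
    exact pow_orderOf_eq_one _
  obtain ⟨b1, b2, b3⟩ := hW.2.2.2 F c.l c.P c.σ hc.prime hP hc.mem hc.frob hs
  have hfr := hW.2.2.1 c.l (c.m F) c.P c.σ hc.prime.pos hc.frob
  have hpP : (p : OQ) ∉ c.P :=
    not_mem_of_coprime hc.mem ((Nat.coprime_primes hc.prime hp).2 (hne _ hc.lev))
  refine ⟨hs, not_mem_of_coprime hc.mem (hc.prime.coprime_iff_not_dvd.2 hc.lev), hm, b1, b3, ?_,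
    hfr, (cb_eq _).trans (cyc_frob hpP hc.frob), fun g => ?_, fun g w hw y hy => ?_,
    fun V _ _ a b h => ?_⟩
  · have h1 := cyc_frob hpP hfr
    rw [cyc_fix_EvRec F hM hm, Units.val_one] at h1
    rw [← ZMod.natCast_eq_natCast_iff, Nat.cast_one, h1]
  · have h1 := under_FvRec F hP b1 b2 g 1
    rw [one_smul, inv_one, one_mul] at h1
    have h2 : (res F).ker = F.fixingSubgroup := Subgroup.ext fun u => ker_FvRec F
    rw [h1, ← MonoidHom.map_zpowers, ← Subgroup.mem_comap, Subgroup.comap_map_eq, h2]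
  · obtain ⟨-, -, h1, -⟩ := hU F hM c.l hB.odd.1 hc.prime (hne _ hc.lev) (g • c.P) w
      (smul_max_EvRec g hP) (smul_nat_EvRec g hc.mem) hw (inert_FvRec F g hs)
    have e1 := hK.2.2.2.2.1 (c.l : Qb) g c.τ (Nat.cast_ne_zero.mpr hc.prime.ne_zero) (by simp)
      (cyc_fix_EvRec F hM (hs hc.inert))
    rw [map_natCast, hc.gen, mul_one] at e1
    rw [h1 _ (inert_conj_EvRec g hc.inert) y hy, e1, cb_eq, mul_comm]
  · rw [Nat.cast_smul_eq_nsmul]
    refine orbit_OvCo F K.fixingSubgroup _ (fun x => (Quotient.out x).2) (fun g hg => ?_) hP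
      hc.inG b1 b2 a b h
    exact ⟨_, (out_OvCo _ _ hg _).2 rfl, fun x hx => (out_OvCo _ _ hg x).1 hx⟩

end Pool.Agent.MP_f68ac8_nt.Ev
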