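import Mathlib
import Pool.Agent.MP_f68ac8_nt.OvAux
import Pool.Agent.MP_f68ac8_nt.FvRec

/-! Kummer maps and corestriction. -/

namespace Pool.Agent.MP_f68ac8_nt.Ev

open NumberField Matrix
open scoped Pointwise Topology

section
variable {p : ℕ} [hp : Fact p.Prime] {K : IntermediateField ℚ Qb} {n : ℕ} (D : Dat p K n)

lemma ad_mul_OvCores (g h : K.fixingSubgroup) (X : Mt n (ZMod p)) :
    D.ad (g * h) X = D.ad g (D.ad h X) := by
  simp only [Dat.ad, map_mul, _root_.mul_inv_rev, Units.val_mul, Matrix.mul_assoc]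

lemma ad_add_OvCores (g : K.fixingSubgroup) (X Y : Mt n (ZMod p)) :
    D.ad g (X + Y) = D.ad g X + D.ad g Y := by
  simp only [Dat.ad, Matrix.mul_add, Matrix.add_mul]

lemma ad_smul_OvCores (g : K.fixingSubgroup) (a : ZMod p) (X : Mt n (ZMod p)) :
    D.ad g (a • X) = a • D.ad g X := by
  simp only [Dat.ad, Matrix.mul_smul, Matrix.smul_mul]

lemma ad_zero_OvCores (g : K.fixingSubgroup) : D.ad g 0 = 0 := by
  simp only [Dat.ad, Matrix.mul_zero, Matrix.zero_mul]

lemma ad_sum_OvCores (g : K.fixingSubgroup) {ι : Type} (s : Finset ι) (X : ι → Mt n (ZMod p)) :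
    D.ad g (∑ i ∈ s, X i) = ∑ i ∈ s, D.ad g (X i) := by
  simp only [Dat.ad, Matrix.mul_sum, Matrix.sum_mul]

lemma ad_trace_OvCores (g : K.fixingSubgroup) (X : Mt n (ZMod p)) :
    (D.ad g X).trace = X.trace := by
  rw [Dat.ad, Matrix.trace_mul_cycle, ← Units.val_mul, inv_mul_cancel, Units.val_one,
    Matrix.one_mul]

lemma cb_mul_OvCores (g h : GQ) : cb p (g * h) = cb p g * cb p h := by
  rw [cb_eq, cb_eq, cb_eq, map_mul, Units.val_mul]

/-- one summand of the corestriction -/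
noncomputable def tm_OvCores (κ : GQ → Mt n (ZMod p)) (c : K.fixingSubgroup) (g : GQ) :
    Mt n (ZMod p) :=
  cb p (c⁻¹ : K.fixingSubgroup) • D.ad c⁻¹ (κ (c * g * (c : GQ)⁻¹))

lemma tm_mul_OvCores (κ : GQ → Mt n (ZMod p)) (c t : K.fixingSubgroup) (g : GQ) :
    tm_OvCores D κ c (t * g * (t : GQ)⁻¹) = cb p t • D.ad t (tm_OvCores D κ (c * t) g) := by
  unfold tm_OvCores
  rw [ad_smul_OvCores, ← ad_mul_OvCores, smul_smul, ← cb_mul_OvCores]
  have e1 : (t : GQ) * ((c * t)⁻¹ : K.fixingSubgroup) = (c⁻¹ : K.fixingSubgroup) := by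
    simp only [Subgroup.coe_inv, Subgroup.coe_mul]
    group
  have e2 : t * (c * t)⁻¹ = c⁻¹ := by group
  have e3 : (c : GQ) * (t * g * (t : GQ)⁻¹) * (c : GQ)⁻¹ =
      (c * t : K.fixingSubgroup) * g * ((c * t : K.fixingSubgroup) : GQ)⁻¹ := by
    simp only [Subgroup.coe_mul]
    group
  rw [e1, e2, e3]

lemma cores_eq_OvCores (F : IntermediateField ℚ Qb) (κ : GQ → Mt n (ZMod p)) (g : GQ)
    [Fintype (K.fixingSubgroup ⧸ F.fixingSubgroup.subgroupOf K.fixingSubgroup)] :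
    D.cores F κ g = ∑ x : K.fixingSubgroup ⧸ F.fixingSubgroup.subgroupOf K.fixingSubgroup,
      tm_OvCores D κ x.out g := by
  rw [← finsum_eq_sum_of_fintype]
  rfl

end

theorem cores_stmt (p : ℕ) [Fact p.Prime] (hK : KKStmt p) : CoresStmt p := by
  intro K F _ _ _ _ n D hD
  have hp : p.Prime := Fact.out
  have hxi : xi p ∈ F := hD.mu.1 _ (xi_spec (Ω := Qb) (p := p)).pow_eq_one
  have hcy : ∀ g ∈ F.fixingSubgroup, cyc p g = 1 := fun g hg => cyc_fix_EvRec F hxi hg
  have hker : F.fixingSubgroup = (res F).ker := by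
    ext g
    rw [MonoidHom.mem_ker, ker_FvRec]
  have hfi : F.fixingSubgroup.FiniteIndex := by
    rw [hker]
    exact Subgroup.finiteIndex_ker _
  have hno : F.fixingSubgroup.Normal := by
    rw [hker]
    infer_instance
  have hfin : Finite (K.fixingSubgroup ⧸ F.fixingSubgroup.subgroupOf K.fixingSubgroup) :=
    Subgroup.finite_quotient_of_finiteIndex
  have hfix : ∀ g : K.fixingSubgroup, g.1 ∈ F.fixingSubgroup →
      cb p g = 1 ∧ ∀ X, D.ad g X = X := by
    intro g hg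
    refine ⟨by rw [cb_eq, hcy _ hg, Units.val_one], fun X => ?_⟩
    obtain ⟨c, hc⟩ := hD.scal g hg
    have e : (D.r g).val * X = X * (D.r g).val := by
      rw [hc, Matrix.smul_mul, Matrix.mul_smul, Matrix.one_mul, Matrix.mul_one]
    rw [Dat.ad, e, Matrix.mul_assoc, ← Units.val_mul, mul_inv_cancel, Units.val_one,
      Matrix.mul_one]
  refine ⟨⟨hxi, ?_, hfin, ad_mul_OvCores D, hfix⟩, fun ξ κ hG => ?_⟩
  · exact inf_eq_left.2 fun g hg => hcy g hg
  have hne : ∀ i j, ξ i j ≠ 0 := by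
    intro i j h0
    have h1 := hG.cop i j
    rw [h0, isCoprime_zero_left] at h1
    obtain ⟨k, hk⟩ := hD.odd.2.2.1
    rw [hk, Nat.cast_mul] at h1
    have h2 : IsUnit ((p : ℤ) : 𝓞 F) := by exact_mod_cast isUnit_of_mul_isUnit_left h1
    have h3 : IsUnit (p : ℤ) := by
      have := (isUnit_map_iff (algebraMap ℤ (𝓞 F)) (p : ℤ)).1 (by simpa using h2)
      exact this
    rw [Int.isUnit_iff_natAbs_eq, Int.natAbs_natCast] at h3
    exact hp.ne_one h3
  have hne' : ∀ i j, ((ξ i j : F) : Qb) ≠ 0 := by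
    intro i j h0
    apply hne i j
    exact RingOfIntegers.ext (Subtype.ext h0)
  have hkk : ∀ g ∈ F.fixingSubgroup, ∀ i j, κ g i j = KK p ((ξ i j : F) : Qb) g := by
    intro g hg i j
    have h0 : proot p ((ξ i j : F) : Qb) ≠ 0 := by
      intro h
      have := proot_pow p ((ξ i j : F) : Qb)
      rw [h, zero_pow hp.ne_zero] at this
      exact hne' i j this.symm
    exact (kap_eq h0 (hG.kum g hg i j _ (proot_pow p _))).symm
  have hadd : ∀ g ∈ F.fixingSubgroup, ∀ h ∈ F.fixingSubgroup, κ (g * h) = κ g + κ h := by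
    intro g hg h hh
    ext i j
    rw [Matrix.add_apply, hkk _ (mul_mem hg hh), hkk _ hg, hkk _ hh]
    exact hK.2.2.2.1 _ g h (hne' i j)
      ((IntermediateField.mem_fixingSubgroup_iff _ _).mp hg _ (ξ i j : F).2)
      ((IntermediateField.mem_fixingSubgroup_iff _ _).mp hh _ (ξ i j : F).2) (hcy g hg)
  have hconj : ∀ g ∈ F.fixingSubgroup, ∀ h ∈ F.fixingSubgroup, κ (h * g * h⁻¹) = κ g := by
    intro g hg h hh
    have e1 := hadd _ (mul_mem (mul_mem hh hg) (inv_mem hh)) _ hh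
    rw [inv_mul_cancel_right, hadd _ hh _ hg, add_comm] at e1
    exact (add_right_cancel e1).symm
  have hind : ∀ (c : K.fixingSubgroup)
      (x : K.fixingSubgroup ⧸ F.fixingSubgroup.subgroupOf K.fixingSubgroup),
      x = QuotientGroup.mk c → ∀ g ∈ F.fixingSubgroup,
      tm_OvCores D κ x.out g = tm_OvCores D κ c g := by
    intro c x hx g hg
    obtain ⟨h, hh⟩ := QuotientGroup.mk_out_eq_mul
      (F.fixingSubgroup.subgroupOf K.fixingSubgroup) c
    have hm : (h.1 : GQ) ∈ F.fixingSubgroup := h.2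
    have hm' : ((h.1⁻¹ : K.fixingSubgroup) : GQ) ∈ F.fixingSubgroup := inv_mem hm
    rw [hx, hh]
    unfold tm_OvCores
    have e1 : ((c * h.1 : K.fixingSubgroup) : GQ) * g * ((c * h.1 : K.fixingSubgroup) : GQ)⁻¹ =
        ((c : GQ) * h.1 * (c : GQ)⁻¹) * (c * g * (c : GQ)⁻¹) * ((c : GQ) * h.1 * (c : GQ)⁻¹)⁻¹ := by
      simp only [Subgroup.coe_mul]
      group
    rw [e1, hconj _ (conj_mem_EvRec F _ hg) _ (conj_mem_EvRec F _ hm), _root_.mul_inv_rev,
      ad_mul_OvCores, (hfix _ hm').2, Subgroup.coe_mul, cb_mul_OvCores, (hfix _ hm').1, one_mul]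
  have := Fintype.ofFinite (K.fixingSubgroup ⧸ F.fixingSubgroup.subgroupOf K.fixingSubgroup)
  refine ⟨hne, hkk, hind, ?_, ?_, ?_, ?_⟩
  · intro g hg h hh
    rw [cores_eq_OvCores, cores_eq_OvCores, cores_eq_OvCores, ← Finset.sum_add_distrib]
    refine Finset.sum_congr rfl fun x _ => ?_
    unfold tm_OvCores
    have e1 : (x.out : GQ) * (g * h) * (x.out : GQ)⁻¹ =
        (x.out * g * (x.out : GQ)⁻¹) * (x.out * h * (x.out : GQ)⁻¹) := by group
    rw [e1, hadd _ (conj_mem_EvRec F _ hg) _ (conj_mem_EvRec F _ hh), ad_add_OvCores, smul_add]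
  · have h1 : ∀ (x : K.fixingSubgroup ⧸ F.fixingSubgroup.subgroupOf K.fixingSubgroup) (i j : Fin n),
        ∀ᶠ g in 𝓝 (1 : GQ), KK p ((ξ i j : F) : Qb) (x.out * g * (x.out : GQ)⁻¹) = 0 := by
      intro x i j
      have hc : Continuous fun g : GQ => (x.out : GQ) * g * (x.out : GQ)⁻¹ := by fun_prop
      have ht := hc.tendsto 1
      simp only [mul_one, mul_inv_cancel] at ht
      exact ht.eventually (hK.2.2.2.2.2.2.1 _ (hne' i j))
    have h2 := Filter.eventually_all.2 fun x => Filter.eventually_all.2 fun i =>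
      Filter.eventually_all.2 fun j => h1 x i j
    refine h2.mono fun g hg hgF => ?_
    rw [cores_eq_OvCores]
    refine Finset.sum_eq_zero fun x _ => ?_
    have e : κ (x.out * g * (x.out : GQ)⁻¹) = 0 := by
      ext i j
      rw [hkk _ (conj_mem_EvRec F _ hgF), hg x i j, Matrix.zero_apply]
    unfold tm_OvCores
    rw [e, ad_zero_OvCores, smul_zero]
  · intro g hg
    rw [cores_eq_OvCores, Matrix.trace_sum]
    refine Finset.sum_eq_zero fun x _ => ?_
    unfold tm_OvCores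
    rw [Matrix.trace_smul, ad_trace_OvCores, hG.tr _ (conj_mem_EvRec F _ hg), smul_zero]
  · intro t g hg
    rw [cores_eq_OvCores, cores_eq_OvCores, ad_sum_OvCores, Finset.smul_sum]
    refine Fintype.sum_equiv (Equiv.mulRight (QuotientGroup.mk t)) _ _ fun x => ?_
    rw [tm_mul_OvCores, hind (x.out * t) _ _ g hg]
    rw [Equiv.coe_mulRight, QuotientGroup.mk_mul, QuotientGroup.out_eq']

end Pool.Agent.MP_f68ac8_nt.Ev
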