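import Mathlib
import Pool.Agent.MP_f68ac8_nt.OvAux
import Pool.Agent.MP_f68ac8_nt.FvMain

/-! Assembly of the rigidity theorem for ordinary lifts. -/

namespace Pool.Agent.MP_f68ac8_nt.Ev

open NumberField Matrix Finset
open scoped Topology Pointwise

lemma exists_kill {k ι κ : Type} [Field k] [Fintype κ] (S : Finset ι)
    (h : Fintype.card κ < S.card) (v : κ → ι → k) :
    ∃ μ : ι → k, (∃ a ∈ S, μ a ≠ 0) ∧ ∀ b, ∑ a ∈ S, μ a * v b a = 0 := by
  classical
  obtain ⟨m, h1, h2⟩ := (Submodule.ne_bot_iff _).mp (LinearMap.ker_ne_bot_of_finrank_lt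
    (f := Matrix.mulVecLin (Matrix.of fun (b : κ) (a : S) => v b a)) (by simpa using h))
  refine ⟨fun a => if h : a ∈ S then m ⟨a, h⟩ else 0, ?_, fun b => ?_⟩
  · obtain ⟨a, ha⟩ := Function.ne_iff.mp h2
    exact ⟨a, a.2, by simpa using ha⟩
  · rw [← Finset.sum_coe_sort S]
    refine Eq.trans ?_ (congrFun h1 b)
    simp [mulVec, dotProduct, mul_comm]

variable {p : ℕ} [hp : Fact p.Prime] {K : IntermediateField ℚ Qb} {n : ℕ}

variable (p n) in
/-- the fixed data of the argument -/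
structure Sys (F : IntermediateField ℚ Qb) where
  s : ℕ
  ξ : Fin (s + 2) ⊕ Ideal (𝓞 F) × Mt n (ZMod p) → Matrix (Fin n) (Fin n) (𝓞 F)
  κ : Fin (s + 2) ⊕ Ideal (𝓞 F) × Mt n (ZMod p) → GQ → Mt n (ZMod p)
  α : Ideal (𝓞 F) × Mt n (ZMod p) → Fin s → ZMod p
  y : Fin s → (Ideal (𝓞 F) → Mt n (ZMod p)) → ZMod p
  g₀ : GQ → Mt n (ZMod p)
  X : ℕ → Mt n (ZMod p)
  H : ℕ → Mt n (ZMod p)
  Y : ℕ → Mt n (ZMod p)

variable {F : IntermediateField ℚ Qb} [NumberField F] [IsGalois ℚ F]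

namespace Sys

variable (S : Sys p n F) (D : Dat p K n)

/-- the properties of the fixed data -/
structure Ok (t : ℕ → K.fixingSubgroup) : Prop where
  good : ∀ a, D.Good F (xi p) (S.ξ a) (S.κ a)
  left : ∀ a φ, D.Eqv F φ → Dat.pair φ (S.ξ (.inl a)) = 0
  right : ∀ x φ, D.Eqv F φ →
    Dat.pair φ (S.ξ (.inr x)) = (φ x.1 * x.2).trace - ∑ b, S.α x b * S.y b φ
  ind : LinearIndependent (ZMod p) fun a (g : F.fixingSubgroup) => D.cores F (S.κ (.inl a)) g
  lev : Lev0 D F S.g₀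
  ram : ∀ j, RamData D F (t j) (S.X j) (S.H j) (S.Y j)

/-- the index of a chosen prime -/
noncomputable def ix (c : ℕ → Co) (i : ℕ) : Ideal (𝓞 F) × Mt n (ZMod p) :=
  ((c i).P.under (𝓞 F), S.H i)

/-- the characters -/
noncomputable def th (c : ℕ → Co) (T : Finset ℕ) (μ : Fin (S.s + 2) ⊕ ℕ → ZMod p) (g : GQ) :
    Mt n (ZMod p) :=
  ∑ a ∈ univ.disjSum T, μ a • D.cores F (S.κ (a.map id (S.ix c))) g

/-- the level raising character -/
noncomputable def cc (j : ℕ) (g : GQ) : ZMod p := (S.H j * S.g₀ g).trace - psi p g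

/-- the linear conditions on the coefficients -/
structure Kill (c : ℕ → Co) (T : Finset ℕ) (μ : Fin (S.s + 2) ⊕ ℕ → ZMod p) : Prop where
  col : ∀ j ∈ T, (S.th D c T μ ((c j).σ ^ (c j).m F) * S.X j).trace = 0
  lev : ∑ i ∈ T, μ (.inr i) * S.cc i ((c i).σ ^ (c i).m F) = 0
  cls : ∀ b, ∑ i ∈ T, μ (.inr i) * S.α (S.ix c i) b = 0

/-- valid configurations -/
structure Valid (t : ℕ → K.fixingSubgroup) (c : ℕ → Co) (i : ℕ) : Prop where
  ok : ∀ j < i, (c j).Ok D F
  ty : ∀ j < i, Ty p F (t j) (c j).σ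
  inj : ∀ j < i, ∀ j' < i, (c j).l = (c j').l → j = j'
  cc : ∀ j < i, S.cc j ((c j).σ ^ (c j).m F) ≠ 0
  safe : ∀ j < i, ∀ T ⊆ range j, ∃ μ, S.Kill D c T μ ∧
    (S.th D c T μ ((c j).σ ^ (c j).m F) * S.X j).trace ≠ 0

variable {S D}

omit [NumberField F] [IsGalois ℚ F] in
lemma th_congr {c c' : ℕ → Co} {T : Finset ℕ} (h : ∀ j ∈ T, c' j = c j) (μ) :
    S.th D c' T μ = S.th D c T μ := by
  ext1 g
  simp only [th, sum_disjSum, Sum.map_inl, Sum.map_inr, ix]
  congr 1
  exact sum_congr rfl fun j hj => by rw [h j hj]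

omit [NumberField F] in
lemma Kill.congr {c c' : ℕ → Co} {T : Finset ℕ} (h : ∀ j ∈ T, c' j = c j) {μ}
    (hk : S.Kill D c T μ) : S.Kill D c' T μ := by
  refine ⟨fun j hj => ?_, ?_, fun b => ?_⟩
  · rw [th_congr h, h j hj]
    exact hk.col j hj
  · rw [← hk.lev]
    exact sum_congr rfl fun j hj => by rw [h j hj]
  · rw [← hk.cls b]
    exact sum_congr rfl fun j hj => by rw [ix, ix, h j hj]

end Sys

omit [NumberField F] [IsGalois ℚ F] in
lemma RamData.ty {D : Dat p K n} {t σ : GQ} {X H Y : Mt n (ZMod p)} (h : RamData D F t X H Y)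
    (e : HH p F = F.fixingSubgroup) (hty : Ty p F t σ) : RamData D F σ X H Y := by
  rw [Ty, e] at hty
  refine ⟨h.ne, h.trX, h.trH, h.trY, h.pair, fun g hg => h.fix g (hty ▸ hg), fun s hs =>
    h.eig s ?_⟩
  have : Subgroup.zpowers σ ⊔ F.fixingSubgroup ≤ Subgroup.zpowers s.1 ⊔ F.fixingSubgroup :=
    sup_le (Subgroup.zpowers_le.mpr hs) le_sup_right
  exact this (hty ▸ Subgroup.mem_sup_left (Subgroup.mem_zpowers t))

variable [NumberField K] {D : Dat p K n} {S : Sys p n F} {t : ℕ → K.fixingSubgroup}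

theorem lift_of_valid (hC : CoresStmt p) (hR : RedStmt p) (hA : ArtStmt p) (hS : SumOStmt p)
    (hKF : K ≤ F) (hD : D.Base F) (hO : S.Ok D t) {c : ℕ → Co} {d : ℕ} (h : S.Valid D t c d) :
    D.Lift ((fun j => (c j).P.under (𝓞 K)) '' Set.Iio d) := by
  by_contra hn
  have e := (hC K F hKF n D hD).1.2.1
  have inj : Function.Injective fun j : Fin d => (c j).l := fun j j' e =>
    Fin.ext (h.inj _ j.2 _ j'.2 e)
  obtain ⟨f, x, z, T, u, f1, f2, f3, f4, f5, f6⟩ := hR K F hKF n D hD _ hO.lev d (fun j => c j)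
    (fun j => S.X j) (fun j => S.H j) (fun j => S.Y j) (fun j => h.ok j j.2)
    (fun j => (hO.ram j).ty e (h.ty j j.2)) (fun j => h.cc j j.2) (by
      convert hn using 2
      ext I
      exact ⟨fun ⟨j, e⟩ => ⟨j, j.2, e⟩, fun ⟨j, hj, e⟩ => ⟨⟨j, hj⟩, e⟩⟩)
  obtain ⟨φ, hφ⟩ := hA K F hKF n D hD _ _ (fun j : Fin d => h.ok j j.2) inj f f1
  obtain ⟨μ, m1, m2⟩ := h.safe z z.2 (T.map Fin.valEmbedding) fun j hj => by
    obtain ⟨i, hi, rfl⟩ := mem_map.mp hj
    exact mem_range.mpr (f4 i hi)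
  have key := fun a => hS K F hKF n D hD _ _ (fun j : Fin d => h.ok j j.2) inj f f1 φ hφ _ _
    (hO.good (Sum.map id (S.ix c) a))
  have e1 : ∑ a ∈ univ.disjSum (T.map Fin.valEmbedding),
      μ a * Dat.pair φ (S.ξ (Sum.map id (S.ix c) a)) = 0 := by
    have e2 : ∀ i ∈ T.map Fin.valEmbedding, Dat.pair φ (S.ξ (.inr (S.ix c i))) =
        u * S.cc i ((c i).σ ^ (c i).m F) - ∑ b, S.α (S.ix c i) b * S.y b φ := fun i hi => by
      obtain ⟨j, hj, rfl⟩ := mem_map.mp hi
      have := hφ.aux j 1 (one_mem _)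
      rw [one_smul, one_mul, inv_one, mul_one] at this
      rw [hO.right _ _ hφ.eqv, trace_mul_comm]
      exact congrArg (· - _) ((congrArg (fun Z => (S.H j * Z).trace) this).trans (f6 j hj))
    simp only [sum_disjSum, Sum.map_inl, Sum.map_inr, id, hO.left _ _ hφ.eqv, mul_zero,
      sum_const_zero, zero_add]
    rw [sum_congr rfl fun i hi => by rw [e2 i hi, mul_sub, mul_left_comm, mul_sum], sum_sub_distrib,
      ← mul_sum, m1.lev, sum_comm]
    simp only [← mul_assoc, ← sum_mul, m1.cls, zero_mul, mul_zero, sum_const_zero, sub_zero]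
  simp only [← key, mul_sum, f2] at e1
  rw [sum_comm, sum_eq_single z (fun j _ hj => ?_) (by simp)] at e1
  · refine mul_ne_zero (mul_ne_zero (inv_ne_zero (mt (ZMod.natCast_eq_zero_iff _ _).1
      (h.ok z z.2).ord)) f3) m2 (Eq.trans ?_ e1)
    simp only [Sys.th, sum_mul, trace_sum, mul_sum, smul_mul_assoc, mul_smul_comm, trace_smul,
      smul_eq_mul]
    exact sum_congr rfl fun a _ => by ring
  · by_cases hT : j ∈ T
    · have := congrArg (((c j).m F : ZMod p)⁻¹ * x j * ·) (m1.col j (mem_map_of_mem _ hT))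
      simp only [Sys.th, sum_mul, trace_sum, mul_sum, smul_mul_assoc, trace_smul, smul_eq_mul,
        mul_zero] at this
      rw [← this]
      exact sum_congr rfl fun a _ => by
        rw [mul_smul_comm, trace_smul, smul_eq_mul]
        ring
    · simp [f5 j hj hT]

theorem exists_mu (hC : CoresStmt p) (hCo : CoStmt p) (hOr : OrdOStmt p) (hKF : K ≤ F)
    (hD : D.Base F) (hO : S.Ok D t) {c : ℕ → Co} {i : ℕ} (h : S.Valid D t c i) {T : Finset ℕ}
    (hT : T ⊆ range i) : ∃ μ, S.Kill D c T μ ∧ ∃ g ∈ F.fixingSubgroup, S.th D c T μ g ≠ 0 := by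
  have e := (hC K F hKF n D hD).1.2.1
  obtain ⟨μ, ⟨a, ha, m0⟩, m1⟩ := exists_kill (κ := T ⊕ Option (Fin S.s))
    ((univ : Finset (Fin (S.s + 2))).disjSum T) (by simp; omega)
    (Sum.elim (fun j a => (D.cores F (S.κ (a.map id (S.ix c))) ((c j).σ ^ (c j).m F) *
      S.X j).trace) fun b => Sum.elim 0 fun i => b.elim (S.cc i ((c i).σ ^ (c i).m F))
        (S.α (S.ix c i)))
  have hk : S.Kill D c T μ := ⟨fun j hj => by
    simpa only [Sys.th, sum_mul, trace_sum, smul_mul_assoc, trace_smul, smul_eq_mul,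
      Sum.elim_inl] using m1 (.inl ⟨j, hj⟩),
    by simpa [sum_disjSum] using m1 (.inr none),
    fun b => by simpa [sum_disjSum] using m1 (.inr (some b))⟩
  refine ⟨μ, hk, ?_⟩
  by_contra hz
  push Not at hz
  have lt : ∀ j ∈ T, j < i := fun j hj => mem_range.mp (hT hj)
  have z1 : ∀ j ∈ T, μ (.inr j) = 0 := fun j hj => by
    have h0 := h.ok j (lt j hj)
    have r := (hO.ram j).ty e (h.ty j (lt j hj))
    obtain ⟨φ, f1, f2, f3, f4⟩ := hOr K F hKF n D hD _ h0 _ r.trY fun g hg =>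
      (r.fix g (hg ▸ Subgroup.mem_sup_left (Subgroup.mem_zpowers _))).2.2
    have e1 := congrArg (fun Z => (Z * S.Y j).trace)
      (hz _ (((hCo K F hKF n D hD).2 _ h0).1 h0.inert))
    simp only [Sys.th, sum_mul, trace_sum, smul_mul_assoc, trace_smul, smul_eq_mul,
      f4 _ _ (hO.good _), zero_mul, trace_zero, mul_left_comm (μ _), ← mul_sum] at e1
    replace e1 := (mul_eq_zero.mp e1).resolve_left (mt (ZMod.natCast_eq_zero_iff _ _).1 h0.ord)
    simp only [sum_disjSum, Sum.map_inl, Sum.map_inr, id, hO.left _ _ f1, hO.right _ _ f1,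
      mul_zero, sum_const_zero, zero_add, mul_sub, sum_sub_distrib, mul_sum,
      ← mul_assoc (μ _)] at e1
    rw [sum_comm (s := T)] at e1
    simp only [← sum_mul, hk.cls, zero_mul, sum_const_zero, sub_zero] at e1
    rw [sum_eq_single_of_mem j hj fun j' hj' hne => ?_] at e1
    · refine (mul_eq_zero.mp e1).resolve_right ?_
      rw [Sys.ix, f2]
      exact r.pair
    · have h1 := h.ok j' (lt j' hj')
      have := h1.max
      rw [Sys.ix, f3 _ h1.max (not_mem_of_coprime h1.mem ((Nat.coprime_primes h1.prime h0.prime).2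
        fun e => hne (h.inj _ (lt _ hj') _ (lt _ hj) e))), zero_mul, trace_zero, mul_zero]
  rcases a with a | a
  · refine m0 (Fintype.linearIndependent_iff.mp hO.ind (fun a => μ (.inl a)) ?_ a)
    ext1 g
    have := hz g g.2
    rw [Sys.th, sum_disjSum, sum_eq_zero (s := T) fun j hj => by rw [z1 j hj, zero_smul],
      add_zero] at this
    simpa using this
  · exact m0 (z1 a (by simpa using ha))

theorem dens_indO (hC : CoresStmt p) (hCo : CoStmt p) (hOr : OrdOStmt p) (hS : StepOStmt p)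
    (hN : NzStmt p) (hm : IdMeanStmt) (hKF : K ≤ F) (hD : D.Base F) {d : ℕ}
    (ht : ∀ j, D.Ram F (t j)) (hO : S.Ok D fun j => t (d - 1 - j))
    (B : Set (Ideal (𝓞 K)) → Prop) (hB : ∀ c, S.Valid D (fun j => t (d - 1 - j)) c d →
      B ((fun j => (c j).P.under (𝓞 K)) '' Set.Iio d)) (l : ℕ) :
    ∀ i c, i + l = d → S.Valid D (fun j => t (d - 1 - j)) c i →
      1 - (2 ^ d - 2 ^ i + l) / (p : ℝ) ≤ idDens (fun j => Typ p K F (t j)) l
        fun A => B (A ∪ (fun j => (c j).P.under (𝓞 K)) '' Set.Iio i) := by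
  classical
  induction l with
  | zero =>
    rintro i c rfl h1
    simp [idDens, show B ((fun j => (c j).P.under (𝓞 K)) '' Set.Iio i) from hB c h1]
  | succ l ih =>
    intro i c hi h1
    have hl : d - 1 - i = l := by omega
    obtain ⟨⟨-, e, -, c4, c5⟩, c6⟩ := hC K F hKF n D hD
    obtain ⟨⟨m, m1, m2⟩, -⟩ := ht l
    choose μ k1 k2 using fun T : (range i).powerset =>
      exists_mu hC hCo hOr hKF hD hO h1 (mem_powerset.mp T.2)
    have r := hO.ram i
    simp only [hl] at r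
    have rt := r.fix (t l) (Subgroup.mem_sup_left (Subgroup.mem_zpowers _))
    have ad1 : ∀ A B : Mt n (ZMod p), (D.ad (t l) A * D.ad (t l) B).trace = (A * B).trace :=
      fun A B => by
        simp only [Dat.ad, mul_assoc, Units.inv_mul_cancel_left]
        rw [trace_mul_comm, mul_assoc, mul_assoc, Units.inv_mul, mul_one]
    have cj : ∀ (T : (range i).powerset) g, g ∈ F.fixingSubgroup → ∀ u : K.fixingSubgroup,
        S.th D c T (μ T) (u * g * (u : GQ)⁻¹) = cb p u • D.ad u (S.th D c T (μ T) g) :=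
      fun T g hg u => by
        simp only [Sys.th, (c6 _ _ (hO.good _)).2.2.2.2.2.2 u g hg, Dat.ad, mul_sum, sum_mul,
          smul_sum, mul_smul_comm, smul_mul_assoc, smul_comm (cb p u)]
    let θ : Option (range i).powerset → GQ → ZMod p := fun T g =>
      T.elim (S.cc i g) fun T => (S.th D c T (μ T) g * S.X i).trace
    have add : ∀ T, ∀ g ∈ F.fixingSubgroup, ∀ h ∈ F.fixingSubgroup, θ T (g * h) = θ T g + θ T h := by
      rintro (_ | T) g hg h hh
      · simp only [θ, Option.elim, Sys.cc, hO.lev.1.add g hg h hh, psi_add g h, mul_add, trace_add]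
        ring
      · simp only [θ, Option.elim, Sys.th, (c6 _ _ (hO.good _)).2.2.2.1 g hg h hh, smul_add,
          sum_add_distrib, add_mul, trace_add]
    have p0 : (0 : ℝ) < p := Nat.cast_pos.mpr hp.out.pos
    refine le_trans (le_of_eq ?_) (hS K F hKF e _ (t l).2 m m1 m2 _ θ add ?_ ?_ ?_
      (1 - (2 ^ d - 2 ^ (i + 1) + l) / (p : ℝ)) ?_ _
      (fun _ => ((hm K).1 _ _ _).1) (fun _ => ((hm K).1 _ _ _).2)
      ((range i).image (fun j => (c j).l) ∪ (D.N.divisors ∪ (discr F).natAbs.divisors))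
      fun q hq q1 P q2 q3 σ q4 q5 q6 => ?_)
    · simp only [Fintype.card_option, Fintype.card_coe, card_powerset, card_range]
      push_cast
      ring
    · rintro (_ | T)
      · filter_upwards [hO.lev.1.nhds, psi_nhds (p := p)] with g h1 h2 hg
        simp only [θ, Option.elim, Sys.cc, h1 hg, show psi p g = 0 from h2, mul_zero, trace_zero,
          sub_zero]
      · filter_upwards [(Filter.eventually_all_finset (univ.disjSum T.1)).2 fun a _ =>
          (c6 _ _ (hO.good (a.map id (S.ix c)))).2.2.2.2.1] with g h1 hg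
        simp only [θ, Option.elim, Sys.th]
        rw [sum_eq_zero fun a ha => by rw [h1 a ha hg, smul_zero], zero_mul, trace_zero]
    · rintro (_ | T) g hg
      · simp only [θ, Option.elim, Sys.cc, hO.lev.1.conj (t l) g hg]
        congr 1
        · rw [← ad1 (S.H i) (S.g₀ g), rt.2.1]
          rfl
        · rw [psi, psi, map_mul, map_mul, map_inv, mul_inv_cancel_comm]
      · simp only [θ, Option.elim, cj T g hg]
        rw [← ad1 (S.th D c T (μ T) g) (S.X i), rt.1, smul_mul_assoc, mul_smul_comm]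
    · rintro (_ | T)
      · exact (hN K F hKF n D hD).2 _ hO.lev.1 _ r.trH
      · exact (hN K F hKF n D hD).1 _ (fun g hg => by
          simp only [Sys.th, trace_sum, trace_smul, (c6 _ _ (hO.good _)).2.2.2.2.2.1 g hg,
            smul_zero, sum_const_zero]) (fun u g hg => cj T g hg u) (k2 T) _ r.ne r.trX
    · have : (2 : ℝ) ^ (i + 1) ≤ 2 ^ d := pow_le_pow_right₀ one_le_two (by omega)
      rw [sub_le_self_iff]
      exact div_nonneg (add_nonneg (sub_nonneg.mpr this) (Nat.cast_nonneg _)) p0.le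
    rw [mem_union, mem_union, not_or, not_or] at hq
    have hσ : σ ∈ Subgroup.zpowers (t l).1 ⊔ HH p F :=
      q5 ▸ Subgroup.mem_sup_left (Subgroup.mem_zpowers _)
    have n1 : ¬ q ∣ D.N := fun hd => hq.2.1 (Nat.mem_divisors.2 ⟨hd, hD.odd.2.2.2⟩)
    have n2 : ¬ (q : ℤ) ∣ discr F := fun hd => hq.2.2 (Nat.mem_divisors.2
      ⟨Int.natCast_dvd.1 hd, Int.natAbs_ne_zero.2 (discr_ne_zero F)⟩)
    obtain ⟨τ, t1, t2⟩ := (hCo K F hKF n D hD).1 q P q1 n1 n2 q2 q3
    have dv : orderOf (res F σ) ∣ m := by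
      obtain ⟨a, ha⟩ : res F σ ∈ Subgroup.zpowers (res F (t l).1) :=
        q5.res_eq ▸ Subgroup.mem_zpowers _
      rw [orderOf_dvd_iff_pow_eq_one, ← ha, ← zpow_natCast, zpow_comm, zpow_natCast, ← map_pow,
        (res_eq_one F).mpr fun x hx => m2 ⟨x, hx⟩, _root_.one_zpow]
    have hok : Co.Ok ⟨q, P, σ, τ⟩ D F := ⟨q1, n1, n2, q2, q3, q4,
      sup_le (Subgroup.zpowers_le.mpr (t l).2)
        (inf_le_left.trans (IntermediateField.fixingSubgroup_le hKF)) hσ, t1, t2,
      fun h => m1 (h.trans dv)⟩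
    have q7 : ∀ T, θ T (σ ^ orderOf (res F σ)) ≠ 0 := fun T h => q6 T (by
      obtain ⟨k, hk⟩ := dv
      have h0 : σ ^ orderOf (res F σ) ∈ F.fixingSubgroup := ((hCo K F hKF n D hD).2 _ hok).2.2.1
      rw [hk, pow_mul]
      generalize σ ^ orderOf (res F σ) = g at h h0
      clear hk
      induction k with
      | zero => simpa using add T 1 (one_mem _) 1 (one_mem _)
      | succ k ih => rw [pow_succ, add T _ (pow_mem h0 k) _ h0, h, add_zero, ih])
    let c' := Function.update c i ⟨q, P, σ, τ⟩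
    have e1 : ∀ j < i, c' j = c j := fun j hj => Function.update_of_ne hj.ne _ _
    have e2 : c' i = ⟨q, P, σ, τ⟩ := Function.update_self _ _ _
    have e3 : ∀ j < i, (c j).l ≠ q := fun j hj e =>
      hq.1 (mem_image.mpr ⟨j, mem_range.mpr hj, e⟩)
    have e4 : (fun j => (c' j).P.under (𝓞 K)) '' Set.Iio (i + 1) =
        insert (P.under (𝓞 K)) ((fun j => (c j).P.under (𝓞 K)) '' Set.Iio i) := by
      rw [show Set.Iio (i + 1) = insert i (Set.Iio i) by ext; simp [Nat.lt_succ_iff_lt_or_eq, or_comm],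
        Set.image_insert_eq, e2, Set.image_congr fun j hj => by rw [e1 j hj]]
    have e5 : ∀ (A : ℕ → Co → Prop), (∀ j < i, A j (c j)) → A i ⟨q, P, σ, τ⟩ →
        ∀ j < i + 1, A j (c' j) := fun A a1 a2 j hj => by
      rcases Nat.lt_succ_iff_lt_or_eq.mp hj with h | rfl
      · rw [e1 j h]
        exact a1 j h
      · rwa [e2]
    have := ih (i + 1) c' (by omega) ⟨e5 (fun _ x => x.Ok D F) h1.ok hok,
      e5 (fun j x => Ty p F (t (d - 1 - j)) x.σ) h1.ty (by simpa only [hl] using q5),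
      fun j hj j' hj' e => ?_, e5 (fun j x => S.cc j (x.σ ^ x.m F) ≠ 0) h1.cc (q7 none),
      fun j hj T hT => ?_⟩
    · simpa [e4, Set.insert_union, Set.union_insert] using this
    · rcases Nat.lt_succ_iff_lt_or_eq.mp hj with h | rfl <;>
        rcases Nat.lt_succ_iff_lt_or_eq.mp hj' with h' | rfl
      · rw [e1 j h, e1 j' h'] at e
        exact h1.inj j h j' h' e
      · rw [e1 j h, e2] at e
        exact absurd e (e3 j h)
      · rw [e1 j' h', e2] at e
        exact absurd e.symm (e3 j' h')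
      · rfl
    · have e6 : ∀ x ∈ T, c' x = c x := fun x hx => e1 x (by have := mem_range.mp (hT hx); omega)
      simp only [Sys.th_congr e6]
      rcases Nat.lt_succ_iff_lt_or_eq.mp hj with h | rfl
      · obtain ⟨ν, a1, a2⟩ := h1.safe j h T hT
        exact ⟨ν, a1.congr e6, by rwa [e1 j h]⟩
      · exact ⟨_, (k1 ⟨T, mem_powerset.mpr hT⟩).congr e6, by
          rw [e2]
          exact q7 (some ⟨T, mem_powerset.mpr hT⟩)⟩

theorem main5_of (hC : CoresStmt p) (hCo : CoStmt p) (hOr : OrdOStmt p) (hS : StepOStmt p)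
    (hN : NzStmt p) (hm : IdMeanStmt) (hR : RedStmt p) (hA : ArtStmt p) (hSu : SumOStmt p)
    (hDu : DualOStmt p) (hRa : RamAlgStmt p) (hL : Lev0Stmt p) (hKF : K ≤ F) (hD : D.Base F)
    (ht : ∀ j, D.Ram F (t j)) (d : ℕ) :
    1 - (2 ^ d + d - 1) / p ≤
      idDens (fun j => Typ p K F (t j)) d fun S => S.ncard = d ∧ D.Lift S := by
  obtain ⟨s, s1, κ, s2, s3⟩ := hD.defect (xi p) xi_spec
  choose ξ s4 s5 using s2
  obtain ⟨y, hy⟩ := hDu K F n D _ xi_spec hD.odd.2.2.1 hD.mu.1 s s1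
  choose ξ' κ' α y1 y2 using hy
  obtain ⟨g₀, hg⟩ := hL K F hKF n D hD
  choose X H Y hr using fun j => hRa K F hKF n D hD _ (ht (d - 1 - j))
  have hO : Sys.Ok ⟨s, Sum.elim ξ fun x => ξ' x.1 x.2, Sum.elim κ fun x => κ' x.1 x.2,
      fun x => α x.1 x.2, y, g₀, X, H, Y⟩ D fun j => t (d - 1 - j) :=
    ⟨fun a => by
      rcases a with a | a
      exacts [s4 a, y1 _ _], s5, fun x => y2 _ _, s3, hg, hr⟩
  have := dens_indO hC hCo hOr hS hN hm hKF hD ht hO (fun S => S.ncard = d ∧ D.Lift S)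
    (fun c c1 => ⟨?_, lift_of_valid hC hR hA hSu hKF hD hO c1⟩) d 0
    (fun _ => ⟨0, ⊥, 1, 1⟩) (zero_add d) ⟨by simp, by simp, by simp, by simp, by simp⟩
  · simp only [Set.Iio_zero_eq_empty, Set.image_empty, Set.union_empty, pow_zero] at this
    refine le_trans (le_of_eq ?_) this
    ring
  · rw [Set.InjOn.ncard_image (s := Set.Iio d) fun j hj j' hj' e => c1.inj j hj j' hj' ?_,
      Set.ncard_Iio_nat]
    have h0 := c1.ok j hj
    have h1 := c1.ok j' hj'
    by_contra hne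
    haveI := h0.max
    refine not_mem_of_coprime h0.mem ((Nat.coprime_primes h0.prime h1.prime).2 hne) ?_
    rw [← nat_under_EvRec K, show (c j).P.under (𝓞 K) = _ from e, nat_under_EvRec K]
    exact h1.mem

end Pool.Agent.MP_f68ac8_nt.Ev
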