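import Mathlib
import Pool.Agent.MP_f68ac8_nt.OvAux
import Pool.Agent.MP_f68ac8_nt.FvRec

/-! The ramification of corestricted Kummer maps. -/

namespace Pool.Agent.MP_f68ac8_nt.Ev

open NumberField Matrix
open Pool.Agent.MP_14ad9d_nt.Full (Pr ord)
open scoped Pointwise Topology

section
variable {p : ℕ} [Fact p.Prime] {K : IntermediateField ℚ Qb} {n : ℕ} (D : Dat p K n)

lemma tr_OvOrd (g : K.fixingSubgroup) (Y : Mt n (ZMod p)) : (D.ad g Y).trace = Y.trace :=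
  Matrix.trace_units_conj (D.r g) Y

lemma zero_OvOrd (g : K.fixingSubgroup) : D.ad g 0 = 0 := by
  rw [Dat.ad, Matrix.mul_zero, Matrix.zero_mul]

lemma adj_OvOrd (g : K.fixingSubgroup) (a : ZMod p) (X Y : Mt n (ZMod p)) :
    (D.ad g⁻¹ (a • X) * Y).trace = a * (X * D.ad g Y).trace := by
  rw [Dat.ad, Dat.ad, map_inv, inv_inv, Matrix.mul_smul, Matrix.smul_mul, Matrix.smul_mul,
    Matrix.trace_smul, smul_eq_mul, Matrix.mul_assoc, Matrix.mul_assoc, Matrix.trace_mul_comm,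
    Matrix.mul_assoc]

lemma cb_OvOrd (g : GQ) : cb p g⁻¹ * cb p g = 1 := by
  rw [cb_eq, cb_eq, ← Units.val_mul, ← map_mul, inv_mul_cancel, map_one, Units.val_one]

lemma fix_OvOrd {F : IntermediateField ℚ Qb} (hKF : K ≤ F)
    (hm : ∀ g h : K.fixingSubgroup, ∀ X, D.ad (g * h) X = D.ad g (D.ad h X))
    (hF : ∀ g : K.fixingSubgroup, g.1 ∈ F.fixingSubgroup → ∀ X, D.ad g X = X) {σ : GQ}
    (hσ : σ ∈ K.fixingSubgroup) {Y : Mt n (ZMod p)}
    (hY : ∀ g : K.fixingSubgroup, g.1 = σ → D.ad g Y = Y) (g : K.fixingSubgroup)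
    (hg : g.1 ∈ Subgroup.zpowers σ ⊔ F.fixingSubgroup) : D.ad g Y = Y := by
  let S : Subgroup K.fixingSubgroup :=
    { carrier := {g | D.ad g Y = Y}
      one_mem' := hF 1 (one_mem _) Y
      mul_mem' := fun {a b} ha hb => (hm a b Y).trans ((congrArg _ hb).trans ha)
      inv_mem' := fun {a} ha => by
        have h1 := hm a⁻¹ a Y
        rw [inv_mul_cancel, hF 1 (one_mem _), show D.ad a Y = Y from ha] at h1
        exact h1.symm }
  have h : Subgroup.zpowers σ ⊔ F.fixingSubgroup ≤ S.map K.fixingSubgroup.subtype :=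
    sup_le (Subgroup.zpowers_le.2 ⟨⟨σ, hσ⟩, hY _ rfl, rfl⟩) fun u hu =>
      ⟨⟨u, IntermediateField.fixingSubgroup_antitone hKF hu⟩, hF _ hu Y, rfl⟩
  obtain ⟨a, ha, e⟩ := h hg
  rwa [← Subtype.ext e]

end

theorem ordO_stmt (p : ℕ) [Fact p.Prime] (hC : CoresStmt p) (hCo : CoStmt p) (hE : EqvStmt p) :
    OrdOStmt p := by
  intro K F _ _ _ hKF n D hB c hc Y hY0 hY
  obtain ⟨⟨-, -, hfin, hm, hF⟩, hG⟩ := hC K F hKF n D hB
  obtain ⟨hin, hN, -, -, -, -, -, -, hiff, hKK, hsum⟩ := (hCo K F hKF n D hB).2 c hc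
  obtain ⟨hE1, hE2, hE3⟩ := hE K F n D
  have hfix := fix_OvOrd D hKF hm (fun g hg => (hF g hg).2) hc.inG hY
  have hun : ∀ a b : GQ, ((a * b) • c.P).under (𝓞 F) = res F a • (b • c.P).under (𝓞 F) :=
    fun a b => by rw [mul_smul, hE3]
  obtain ⟨h, h1, h0⟩ : ∃ h : Pr F → Mt n (ZMod p),
      (∀ (g : K.fixingSubgroup) (w : Pr F), w.asIdeal = (g.1 • c.P).under (𝓞 F) →
        h w = D.ad g Y) ∧
      ∀ w : Pr F, (¬ ∃ g : K.fixingSubgroup, w.asIdeal = (g.1 • c.P).under (𝓞 F)) →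
        h w = 0 := by
    classical
    refine ⟨fun w => if H : ∃ g : K.fixingSubgroup, w.asIdeal = (g.1 • c.P).under (𝓞 F) then
      D.ad H.choose Y else 0, fun g w hw => ?_, fun w hw => dif_neg hw⟩
    have H : ∃ g : K.fixingSubgroup, w.asIdeal = (g.1 • c.P).under (𝓞 F) := ⟨g, hw⟩
    refine (dif_pos H).trans ?_
    have h2 := hfix (g⁻¹ * H.choose) ((hiff _).1 (by
      rw [Subgroup.coe_mul, hun, ← H.choose_spec, hw, ← hun, Subgroup.coe_inv, inv_mul_cancel,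
        one_smul]))
    rw [← mul_inv_cancel_left g H.choose, hm, h2]
  obtain ⟨φ, hφ, -, hφh⟩ := hE1 h
    (fun w => by
      by_cases H : ∃ g : K.fixingSubgroup, w.asIdeal = (g.1 • c.P).under (𝓞 F)
      · obtain ⟨g, hg⟩ := H
        rw [h1 g w hg, tr_OvOrd, hY0]
      · rw [h0 w H, Matrix.trace_zero])
    (fun w hw => h0 w fun ⟨g, hg⟩ => hN (by
      rw [hg, nat_under_EvRec] at hw
      have h2 := smul_nat_EvRec g.1⁻¹ hw
      rwa [inv_smul_smul] at h2))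
    (fun g w w' hw => by
      by_cases H : ∃ g : K.fixingSubgroup, w.asIdeal = (g.1 • c.P).under (𝓞 F)
      · obtain ⟨a, ha⟩ := H
        rw [h1 a w ha, ← hm]
        exact h1 _ w' (by rw [Subgroup.coe_mul, hun, hw, ha])
      · rw [h0 w H, zero_OvOrd]
        refine h0 w' fun ⟨a, ha⟩ => H ⟨g⁻¹ * a, ?_⟩
        rw [Subgroup.coe_mul, hun, ← ha, hw, Subgroup.coe_inv, map_inv, inv_smul_smul])
  refine ⟨φ, hφ, ?_, fun P hP hl => ?_, fun ξ κ hg => ?_⟩
  · obtain ⟨w, hw⟩ := pr_EvRec F hc.max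
    rw [← hw, hφh, h1 1 w (by rw [hw, Subgroup.coe_one, one_smul])]
    exact (hF 1 (one_mem _)).2 Y
  · obtain ⟨w, hw⟩ := pr_EvRec F hP
    rw [← hw, hφh]
    refine h0 w fun ⟨g, hg⟩ => hl ?_
    rw [← nat_under_EvRec F, ← hw, hg, nat_under_EvRec]
    exact smul_nat_EvRec _ hc.mem
  · classical
    obtain ⟨hξ, hκ, -⟩ := hG ξ κ hg
    have h2 := hsum (ZMod p) (fun w => (ordM p w ξ * φ w.asIdeal).trace)
      (fun g => if H : g ∈ K.fixingSubgroup then
        ((cb p g⁻¹ • D.ad (⟨g, H⟩ : K.fixingSubgroup)⁻¹ (κ (g * c.τ * g⁻¹))) * Y).trace else 0)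
      fun g H w hw => by
        have h3 : κ (g * c.τ * g⁻¹) = cb p g • ordM p w ξ := by
          ext i j
          rw [hκ _ (conj_mem_EvRec F g (hin hc.inert)),
            hKK g w hw _ fun e => hξ i j (RingOfIntegers.ext e)]
          rfl
        rw [dif_pos H, h3, Matrix.smul_mul, Matrix.trace_smul, adj_OvOrd, smul_eq_mul,
          ← mul_assoc, cb_OvOrd, one_mul, hφh, h1 ⟨g, H⟩ w hw]
    have h4 : ∑ᶠ w ∈ {w : Pr F | ∃ g ∈ K.fixingSubgroup, w.asIdeal = (g • c.P).under (𝓞 F)},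
        (ordM p w ξ * φ w.asIdeal).trace = Dat.pair φ ξ := by
      rw [(hE2 φ ξ hφ hξ).2, finsum_mem_def]
      refine finsum_congr fun w => Set.indicator_apply_eq_self.2 fun hw => ?_
      rw [hφh, h0 w fun ⟨g, hg⟩ => hw ⟨g.1, g.2, hg⟩, Matrix.mul_zero, Matrix.trace_zero]
    rw [h4, smul_eq_mul] at h2
    rw [← h2]
    refine (((Matrix.traceAddMonoidHom (Fin n) (ZMod p)).comp
      (AddMonoidHom.mulRight Y)).map_finsum (Set.toFinite _)).trans
        (finsum_congr fun x => ?_)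
    rw [dif_pos x.out.2]
    rfl

end Pool.Agent.MP_f68ac8_nt.Ev
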