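import Mathlib
import Pool.Agent.MP_f68ac8_nt.OvAux
import Pool.Agent.MP_f68ac8_nt.FvRec

/-! The linear relations coming from the reciprocity law for matrices. -/

namespace Pool.Agent.MP_f68ac8_nt.Ev

open NumberField Matrix
open Pool.Agent.MP_14ad9d_nt.Full (Pr ord Tm tame Phi NearAt)
open scoped Pointwise Topology

lemma stab_OvSum {P : Ideal OQ} (hP : P.IsMaximal) {q : ℕ} (hq : 0 < q) {σ : GQ}
    (h : IsFrob q P σ) : σ • P = P := by
  ext x
  rw [Ideal.mem_pointwise_smul_iff_inv_smul_mem]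
  refine ⟨fun hx => ?_, fun hx => h.inv_mem hx⟩
  have := P.add_mem (h (σ⁻¹ • x)) (P.pow_mem_of_mem hx q hq)
  simpa using this

lemma glob_OvSum {A J V : Type} [Fintype J] [AddCommMonoid V] (a : A → V)
    (ha : (Function.support a).Finite) (O : J → Set A)
    (hd : ∀ i j w, w ∈ O i → w ∈ O j → i = j) (h0 : ∀ w, (∀ j, w ∉ O j) → a w = 0) :
    ∑ j, ∑ᶠ w ∈ O j, a w = ∑ᶠ w, a w := by
  simp only [finsum_mem_def]
  rw [← finsum_sum_comm Finset.univ (fun w j => (O j).indicator a w) fun j _ =>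
    ha.subset fun w hw h => hw (Set.indicator_apply_eq_zero.2 fun _ => h)]
  refine finsum_congr fun w => ?_
  by_cases h : ∀ j, w ∉ O j
  · rw [h0 w h]
    exact Finset.sum_eq_zero fun j _ => Set.indicator_of_notMem (h j) _
  · push Not at h
    obtain ⟨j, hj⟩ := h
    rw [Finset.sum_eq_single j (fun i _ hi => Set.indicator_of_notMem
      (fun hw => hi (hd i j w hw hj)) _) (by simp), Set.indicator_of_mem hj]

lemma trace_OvSum {n : ℕ} {R : Type} [CommRing R] (X Y : Matrix (Fin n) (Fin n) R) :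
    (X * Y).trace = ∑ i, ∑ j, X i j * Y j i := by
  simp only [Matrix.trace, Matrix.diag_apply, Matrix.mul_apply]

section
variable {p : ℕ} [Fact p.Prime]

open Classical in
/-- the sum of the tame symbols at one prime -/
noncomputable def tsum_OvSum {F : Type} [Field F] [NumberField F] {n : ℕ} (p : ℕ) (ζ : F)
    (x y : Fin n → Fin n → F) (w : Pr F) : ZMod p :=
  ∑ i, ∑ j, if Tm p w then tame p ζ w (x i j) (y i j) else 0

lemma phi_OvSum {F : Type} [Field F] [NumberField F] {n : ℕ} {ζ : F} (h2 : 2 < p)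
    (hζ : IsPrimitiveRoot ζ p) (x y : Fin n → Fin n → F) :
    (Function.support (tsum_OvSum p ζ x y)).Finite ∧
      ∑ᶠ w, tsum_OvSum p ζ x y w = ∑ i, ∑ j, Phi p ζ (x i j) (y i j) := by
  classical
  have h1 : ∀ a b : F, (Function.support fun w : Pr F =>
      if Tm p w then tame p ζ w a b else 0).Finite := fun a b => by
    refine ((Pool.Agent.MP_14ad9d_nt.Full.tame_finite h2 hζ a b).image Subtype.val).subset
      fun w hw => ?_
    by_cases t : Tm p w
    · exact ⟨⟨w, t⟩, by simpa [t] using hw, rfl⟩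
    · simp [t] at hw
  have h3 : ∀ i, (Function.support fun w : Pr F =>
      ∑ j, if Tm p w then tame p ζ w (x i j) (y i j) else 0).Finite := fun i =>
    (Set.finite_iUnion fun j => h1 (x i j) (y i j)).subset fun w hw => by
      obtain ⟨j, -, hj⟩ := Finset.exists_ne_zero_of_sum_ne_zero hw
      exact Set.mem_iUnion.2 ⟨j, hj⟩
  constructor
  · refine (Set.finite_iUnion h3).subset fun w hw => ?_
    obtain ⟨i, -, hi⟩ := Finset.exists_ne_zero_of_sum_ne_zero hw
    exact Set.mem_iUnion.2 ⟨i, hi⟩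
  · unfold tsum_OvSum
    rw [finsum_sum_comm _ _ fun i _ => h3 i]
    refine Finset.sum_congr rfl fun i _ => ?_
    rw [finsum_sum_comm _ _ fun j _ => h1 _ _]
    refine Finset.sum_congr rfl fun j _ => ?_
    rw [Phi, finsum_subtype_eq_finsum_cond (f := fun v => tame p ζ v (x i j) (y i j)) (Tm p)]
    exact finsum_congr fun v => finsum_eq_if.symm

lemma cb_OvSum (g : GQ) : cb p g⁻¹ * cb p g = 1 := by
  rw [cb_eq, cb_eq, ← Units.val_mul, ← map_mul, inv_mul_cancel, map_one, Units.val_one]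

lemma ad_OvSum {K : IntermediateField ℚ Qb} {n : ℕ} (D : Dat p K n) (g : K.fixingSubgroup)
    (X Y : Mt n (ZMod p)) : (D.ad g⁻¹ X * Y).trace = (X * D.ad g Y).trace := by
  simp only [Dat.ad, map_inv, inv_inv]
  rw [Matrix.mul_assoc, Matrix.mul_assoc, Matrix.trace_mul_comm]
  simp only [Matrix.mul_assoc]

end

theorem sumO_stmt (p : ℕ) [Fact p.Prime] (hK : KKStmt p) (hKum : KumStmt p) (hA : LocAStmt p)
    (hW : WildStmt) (hR : RecOStmt p) (hG : LocGStmt p) (hC : CoresStmt p) (hCo : CoStmt p)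
    (hE : EqvStmt p) : SumOStmt p := by
  classical
  intro K F _ _ _ hKF n D hB J _ c hc hinj f hf φ hφ ξ κ hgood
  obtain ⟨⟨hM, -, hfin, -, -⟩, hcor⟩ := hC K F hKF n D hB
  obtain ⟨hξ0, hκ, -⟩ := hcor ξ κ hgood
  obtain ⟨h2, -, hpN, -⟩ := hB.odd
  have hβ' : ∀ i j : Fin n, ∃ β : F, β ≠ 0 ∧ ∀ g ∈ F.fixingSubgroup, KK p β g = f g j i :=
    fun i j => hKum F hM (fun g => f g j i)
      (fun g hg h hh => by rw [hf.tang.add g hg h hh, Matrix.add_apply])
      (hf.tang.nhds.mono fun g hg hgF => by rw [hg hgF, Matrix.zero_apply])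
  choose β hβ0 hβ using hβ'
  have hPhi := hR K F hKF n D hB hM f hf.wild ξ κ hgood β hβ0 fun g hg i j => hβ i j g hg
  obtain ⟨ht1, ht2⟩ := phi_OvSum h2 (prim_EvRec F hM) (fun i j => (ξ i j : F)) β
  obtain ⟨he1, he2⟩ := (hE K F n D).2.1 φ ξ hφ.eqv hξ0
  set t := tsum_OvSum p (⟨xi p, hM⟩ : F) (fun i j => (ξ i j : F)) β with ht
  have he3 : (Function.support fun w : Pr F => (ordM p w ξ * φ w.asIdeal).trace).Finite :=
    he1.subset fun w hw h0 => hw (by simp only [h0, Matrix.zero_mul, Matrix.trace_zero])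
  let a : Pr F → ZMod p := fun w => t w + (ordM p w ξ * φ w.asIdeal).trace
  have ha1 : (Function.support a).Finite :=
    (ht1.union he3).subset (Function.support_add _ _)
  have ha2 : ∑ᶠ w, a w = Dat.pair φ ξ := by
    rw [he2, finsum_add_distrib ht1 he3, ht2, hPhi, zero_add]
  have hpN' : ∀ P : Ideal OQ, (p : OQ) ∈ P → (D.N : OQ) ∈ P := fun P h => by
    obtain ⟨e, he⟩ := hpN
    rw [he, Nat.cast_mul]
    exact P.mul_mem_right _ h
  -- the local formula at tame primes
  have hloc : ∀ (P : Ideal OQ) (w : Pr F), P.IsMaximal → (p : OQ) ∉ P →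
      w.asIdeal = P.under (𝓞 F) → ∀ s ∈ F.fixingSubgroup,
      IsFrob (Ideal.absNorm w.asIdeal) P s →
      t w = ∑ i, ∑ j, (ord w (β i j) : ZMod p) * κ s i j - (ordM p w ξ * f s).trace := by
    intro P w hP hpP hw s hs hfr
    have htm : Tm p w := by
      unfold Tm
      rwa [hw, nat_under_EvRec F]
    rw [trace_OvSum, ← Finset.sum_sub_distrib, ht, tsum_OvSum]
    refine Finset.sum_congr rfl fun i _ => ?_
    rw [← Finset.sum_sub_distrib]
    refine Finset.sum_congr rfl fun j _ => ?_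
    rw [if_pos htm, hG F hM P w h2 hP hpP hw s hs hfr _ _ (by simpa using hξ0 i j) (hβ0 i j),
      hκ s hs, hβ i j s hs]
    rfl
  let O : J → Set (Pr F) := fun j =>
    {w | ∃ g ∈ K.fixingSubgroup, w.asIdeal = (g • (c j).P).under (𝓞 F)}
  have hd : ∀ i j w, w ∈ O i → w ∈ O j → i = j := by
    rintro i j w ⟨g, -, e⟩ ⟨g', -, e'⟩
    by_contra hne
    have := smul_max_EvRec g (hc i).max
    have h1 : ((c j).l : OQ) ∈ g • (c i).P := by
      rw [← nat_under_EvRec F, ← e, e', nat_under_EvRec F]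
      exact smul_nat_EvRec _ (hc j).mem
    exact not_mem_of_coprime (smul_nat_EvRec g (hc i).mem)
      ((Nat.coprime_primes (hc i).prime (hc j).prime).mpr (hinj.ne hne)) h1
  have h0 : ∀ w, (∀ j, w ∉ O j) → a w = 0 := by
    intro w hw
    obtain ⟨P, hP, hwP⟩ := over_EvRec F w
    obtain ⟨l, e, s, hl, -, -, hn, hs, hfr⟩ := hW.2.1 F P hP
    have hfr' : IsFrob (Ideal.absNorm w.asIdeal) P s := by rwa [hwP, hn]
    by_cases hN : (D.N : OQ) ∈ P
    · have hNw : (D.N : 𝓞 F) ∈ w.asIdeal := by rwa [hwP, nat_under_EvRec F]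
      have h1 : φ w.asIdeal = 0 := hφ.eqv.lev _ w.isPrime hNw
      change t w + (ordM p w ξ * φ w.asIdeal).trace = 0
      rw [h1, Matrix.mul_zero, Matrix.trace_zero, add_zero]
      by_cases hpP : (p : OQ) ∈ P
      · have htm : ¬ Tm p w := by
          unfold Tm
          rwa [hwP, nat_under_EvRec F, not_not]
        simp only [ht, tsum_OvSum, if_neg htm, Finset.sum_const_zero]
      · have h3 : κ s = 0 :=
          (hgood.loc s hs P hP (stab_OvSum hP (pow_pos hl.pos e) hfr)).2 hpP hN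
        have h4 : ordM p w ξ = 0 := by
          ext i j
          have h5 : ξ i j ∉ w.asIdeal := fun h => by
            obtain ⟨u, v, huv⟩ := hgood.cop i j
            refine w.isPrime.ne_top ((Ideal.eq_top_iff_one _).2 ?_)
            rw [← huv]
            exact add_mem (Ideal.mul_mem_left _ _ h) (Ideal.mul_mem_left _ _ hNw)
          rw [ordM, Matrix.of_apply,
            (Pool.Agent.MP_14ad9d_nt.Full.ord_eq_zero_iff w (hξ0 i j)).2 h5]
          simp
        rw [hloc P w hP hpP hwP s hs hfr', h3, h4]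
        simp
    · have hne : ∀ j, ∀ g ∈ K.fixingSubgroup, P ≠ g • (c j).P := fun j g hg e =>
        hw j ⟨g, hg, by rw [hwP, e]⟩
      have h1 : φ w.asIdeal = f s := by
        rw [hwP]
        exact hφ.oth P hP hN hne s hs (by rwa [hn])
      change t w + (ordM p w ξ * φ w.asIdeal).trace = 0
      rw [h1, hloc P w hP (fun h => hN (hpN' P h)) hwP s hs hfr', sub_add_cancel]
      refine Finset.sum_eq_zero fun i _ => Finset.sum_eq_zero fun j _ => ?_
      have h3 : (p : ℤ) ∣ ord w (β i j) := by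
        refine hA F P w hP hwP _ _ (hβ0 i j) (proot_pow p _) fun u hu huF => ?_
        rw [← hK.2.2.2.2.2.1 _ u (fun h => hβ0 i j (Subtype.ext h))
          ((IntermediateField.mem_fixingSubgroup_iff _ _).mp huF _ (β i j).2), hβ i j u huF,
          hf.unr P u ⟨hP, hu, huF⟩ hN hne, Matrix.zero_apply]
      rw [(ZMod.intCast_zmod_eq_zero_iff_dvd _ p).2 h3, zero_mul]
  rw [← ha2, ← glob_OvSum a ha1 O hd h0]
  refine Finset.sum_congr rfl fun j _ => ?_
  obtain ⟨c1, c2, c3, -, -, -, c7, -, -, c10, c11⟩ := (hCo K F hKF n D hB).2 (c j) (hc j)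
  have hτF : (c j).τ ∈ F.fixingSubgroup := c1 (hc j).inert
  let b : GQ → ZMod p := fun g => if h : g ∈ K.fixingSubgroup then
    ((cb p g⁻¹ • D.ad (⟨g, h⟩ : K.fixingSubgroup)⁻¹ (κ (g * (c j).σ ^ (c j).m F * g⁻¹))) *
      f (c j).τ).trace else 0
  have hb : ∀ g ∈ K.fixingSubgroup, ∀ w : Pr F, w.asIdeal = (g • (c j).P).under (𝓞 F) →
      b g = a w := by
    intro g hg w hw
    have hP' := smul_max_EvRec g (hc j).max
    have hN : (D.N : OQ) ∉ g • (c j).P := fun h => c2 (by
      have := smul_nat_EvRec g⁻¹ h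
      rwa [inv_smul_smul] at this)
    obtain ⟨-, -, hn⟩ := hW.2.2.2 F (c j).l (g • (c j).P) _ (hc j).prime hP'
      (smul_nat_EvRec g (hc j).mem) (frob_conj_EvRec g (hc j).frob) (inert_FvRec F g c1)
    have ho : orderOf (res F (g * (c j).σ * g⁻¹)) = (c j).m F := by
      rw [map_mul, map_mul, map_inv]
      exact (MulAut.conj (res F g)).orderOf_eq _
    have hs := conj_mem_EvRec F g c3
    have h1 := hloc _ w hP' (fun h => hN (hpN' _ h)) hw _ hs (by
      rw [hw, hn, ho]
      exact frob_conj_EvRec g c7)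
    change _ = t w + (ordM p w ξ * φ w.asIdeal).trace
    rw [h1, hw, hφ.aux j g hg, sub_add_cancel]
    simp only [b, dif_pos hg]
    have h3 : D.ad ⟨g, hg⟩ (f (c j).τ) = f (g * (c j).τ * g⁻¹) :=
      (hf.tang.conj ⟨g, hg⟩ _ hτF).symm
    rw [Matrix.smul_mul, Matrix.trace_smul, ad_OvSum, h3, trace_OvSum, smul_eq_mul,
      Finset.mul_sum]
    refine Finset.sum_congr rfl fun i _ => ?_
    rw [Finset.mul_sum]
    refine Finset.sum_congr rfl fun k _ => ?_
    rw [← hβ i k _ (conj_mem_EvRec F g hτF), c10 g w hw _ (hβ0 i k)]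
    linear_combination (κ (g * (c j).σ ^ (c j).m F * g⁻¹) i k * (ord w (β i k) : ZMod p)) *
      cb_OvSum (p := p) g
  have h5 := c11 (ZMod p) a b hb
  have hm : ((c j).m F : ZMod p) ≠ 0 := fun h =>
    (hc j).ord ((ZMod.natCast_eq_zero_iff _ p).1 h)
  have h6 : (D.cores F κ ((c j).σ ^ (c j).m F) * f (c j).τ).trace =
      ∑ᶠ x : K.fixingSubgroup ⧸ F.fixingSubgroup.subgroupOf K.fixingSubgroup, b x.out := by
    have := Fintype.ofFinite (K.fixingSubgroup ⧸ F.fixingSubgroup.subgroupOf K.fixingSubgroup)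
    rw [Dat.cores, finsum_eq_sum_of_fintype, finsum_eq_sum_of_fintype, Finset.sum_mul,
      Matrix.trace_sum]
    refine Finset.sum_congr rfl fun x _ => ?_
    simp only [b, dif_pos x.out.2]
    rfl
  rw [h6, h5, smul_eq_mul, inv_mul_cancel_left₀ hm]

end Pool.Agent.MP_f68ac8_nt.Ev
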