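import Mathlib
import Pool.Agent.MP_f68ac8_nt.OvMain
import Pool.Agent.MP_f68ac8_nt.EvKK
import Pool.Agent.MP_f68ac8_nt.EvRam
import Pool.Agent.MP_f68ac8_nt.EvLocAB
import Pool.Agent.MP_f68ac8_nt.EvKum
import Pool.Agent.MP_f68ac8_nt.EvTriv
import Pool.Agent.MP_f68ac8_nt.FvWild
import Pool.Agent.MP_f68ac8_nt.FvLocU
import Pool.Agent.MP_f68ac8_nt.FvMean
import Pool.Agent.MP_f68ac8_nt.FvCount
import Pool.Agent.MP_f68ac8_nt.OvKey1
import Pool.Agent.MP_f68ac8_nt.OvMu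
import Pool.Agent.MP_f68ac8_nt.OvKey2
import Pool.Agent.MP_f68ac8_nt.OvR1
import Pool.Agent.MP_f68ac8_nt.OvHens
import Pool.Agent.MP_f68ac8_nt.OvMix
import Pool.Agent.MP_f68ac8_nt.OvMixV
import Pool.Agent.MP_f68ac8_nt.OvLocP
import Pool.Agent.MP_f68ac8_nt.OvLocG
import Pool.Agent.MP_f68ac8_nt.OvExt
import Pool.Agent.MP_f68ac8_nt.OvEqv
import Pool.Agent.MP_f68ac8_nt.OvCores
import Pool.Agent.MP_f68ac8_nt.OvCo
import Pool.Agent.MP_f68ac8_nt.OvRec
import Pool.Agent.MP_f68ac8_nt.OvIner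
import Pool.Agent.MP_f68ac8_nt.OvArt
import Pool.Agent.MP_f68ac8_nt.OvSum
import Pool.Agent.MP_f68ac8_nt.OvOrd
import Pool.Agent.MP_f68ac8_nt.OvDual
import Pool.Agent.MP_f68ac8_nt.OvStep
import Pool.Agent.MP_f68ac8_nt.OvRam
import Pool.Agent.MP_f68ac8_nt.OvNz
import Pool.Agent.MP_f68ac8_nt.OvLev0
import Pool.Agent.MP_f68ac8_nt.OvLead1
import Pool.Agent.MP_f68ac8_nt.OvLead2
import Pool.Agent.MP_f68ac8_nt.OvLead3
import Pool.Agent.MP_f68ac8_nt.OvRed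

namespace Pool.Agent.MP_f68ac8_nt.OrdRigidOld

open NumberField Pool.Agent.MP_f68ac8_nt Ev

theorem result (p : ℕ) [Fact p.Prime] (K F : IntermediateField ℚ (AlgebraicClosure ℚ))
    [NumberField K] [NumberField F] [IsGalois ℚ F] (h : K ≤ F) (n : ℕ) (D : Dat p K n)
    (hD : D.Base F) (t : ℕ → K.fixingSubgroup) (ht : ∀ j, D.Ram F (t j)) (d : ℕ) :
    1 - (2 ^ d + d - 1) / p ≤
      idDens (fun j => Typ p K F (t j)) d fun S => S.ncard = d ∧ D.Lift S := by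
  have hK := kk_stmt p
  have hA := locA_stmt p ram_stmt
  have hU := locU_stmt p hK hA wild_stmt
  have hT := triv_stmt p
  have hM := kum_stmt p hK
  have hH := hens_stmt p
  have hC := cores_stmt p hK
  have hE := eqv_stmt p ext_stmt
  have hCo := co_stmt p hK wild_stmt hU hT hC hE
  have hI := inerO_stmt p hK hM hU hC hCo
  exact main5_of hC hCo (ordO_stmt p hC hCo hE)
    (stepO_stmt p (count_stmt p wild_stmt hT) idMean_stmt) (nz_stmt p hC) idMean_stmt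
    (red_stmt p (lead1_stmt p) (lead2_stmt' p) (lead3_stmt p wild_stmt) hI hC hCo)
    (art_stmt p wild_stmt hC hCo hE hI)
    (sumO_stmt p hK hM hA wild_stmt (recO_stmt p hK (mixV_stmt p (mix_stmt p
      (r1G_stmt p (key1_stmt p) (key2_stmt p (mu_stmt p))) hH) hH)
      (locP_stmt p ram_stmt wild_stmt hH) hC) (locG_stmt p hK) hC hCo hE)
    (dualO_stmt p) (ramAlg_stmt p hC) (lev0_stmt p) h hD ht d

end Pool.Agent.MP_f68ac8_nt.OrdRigidOld
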