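import Mathlib
import Pool.Agent.MP_f68ac8_nt.OvAux
import Pool.Agent.MP_f68ac8_nt.FvRec

/-! Values of ordinary tangent vectors on inertia groups. -/

namespace Pool.Agent.MP_f68ac8_nt.Ev

open NumberField
open Pool.Agent.MP_14ad9d_nt.Full (Pr ord)
open scoped Pointwise Topology

lemma key_OvIner {p : ℕ} [Fact p.Prime] (hKum : KumStmt p) (hU : LocUStmt p)
    {K F : IntermediateField ℚ Qb} [NumberField F] [IsGalois ℚ F] {n : ℕ}
    {r : K.fixingSubgroup →* GL (Fin n) (ZMod p)} {f : GQ → Mt n (ZMod p)} (hf : Tang p F r f)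
    (hM : xi p ∈ F) (h2 : 2 < p) {l : ℕ} (hl : l.Prime) (hlp : l ≠ p) {P : Ideal OQ}
    (hP : P.IsMaximal) (hlP : (l : OQ) ∈ P) (hs : P.inertia GQ ≤ F.fixingSubgroup) {τ : GQ}
    (hτ : τ ∈ P.inertia GQ) (hgen : KK p l τ = 1) {u : GQ} (hu : u ∈ P.inertia GQ) :
    f u = KK p l u • f τ := by
  ext a b
  obtain ⟨β, hβ, h⟩ := hKum F hM (fun g => f g a b)
    (fun g hg h hh => by rw [hf.add g hg h hh]; rfl)
    (hf.nhds.mono fun g hg hgF => by rw [hg hgF]; rfl)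
  obtain ⟨w, hw⟩ := pr_EvRec F hP
  obtain ⟨-, -, h3, -⟩ := hU F hM l h2 hl hlp P w hP hlP hw hs
  have e1 := h3 u hu β hβ
  have e2 := h3 τ hτ β hβ
  rw [h u (hs hu)] at e1
  rw [h τ (hs hτ), hgen, mul_one] at e2
  rw [Matrix.smul_apply, smul_eq_mul, e1, e2, mul_comm]

theorem inerO_stmt (p : ℕ) [Fact p.Prime] (hK : KKStmt p) (hKum : KumStmt p) (hU : LocUStmt p)
    (hC : CoresStmt p) (hCo : CoStmt p) : InerOStmt p := by
  intro K F _ _ _ hKF n D hB J c hc f hf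
  have hM : xi p ∈ F := (hC K F hKF n D hB).1.1
  have h2 : 2 < p := hB.odd.1
  have hlp : ∀ j, (c j).l ≠ p := fun j e => (hc j).lev (e ▸ hB.odd.2.2.1)
  have hs : ∀ j, (c j).P.inertia GQ ≤ F.fixingSubgroup := fun j =>
    ((hCo K F hKF n D hB).2 (c j) (hc j)).1
  have key : ∀ j, ∀ u ∈ (c j).P.inertia GQ, f u = KK p (c j).l u • f (c j).τ := fun j u hu =>
    key_OvIner hKum hU hf.tang hM h2 (hc j).prime (hlp j) (hc j).max (hc j).mem (hs j)
      (hc j).inert (hc j).gen hu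
  refine ⟨fun h0 P g hg hN => ?_, fun j s hsσ => ?_⟩
  · by_cases h : ∀ j, ∀ s ∈ K.fixingSubgroup, P ≠ s • (c j).P
    · exact hf.unr P g hg hN h
    · push Not at h
      obtain ⟨j, s, hsK, rfl⟩ := h
      have h1 := inert_conj_EvRec s⁻¹ hg.2.1
      rw [inv_smul_smul] at h1
      have h3 := hf.tang.conj ⟨s, hsK⟩ _ (hs j h1)
      rw [key j _ h1, h0 j, smul_zero, mul_zero, zero_mul] at h3
      rw [← h3]
      congr 1
      group
  · obtain ⟨-, -, hm, hst, -⟩ := (hCo K F hKF n D hB).2 (c j) (hc j)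
    have hτ := (hc j).inert
    constructor
    · have h1 := inert_conj_EvRec (c j).σ hτ
      rw [hst] at h1
      have h3 := hf.tang.conj s _ (hs j hτ)
      have hl0 : ((c j).l : Qb) ≠ 0 := Nat.cast_ne_zero.2 (hc j).prime.ne_zero
      have h4 := hK.2.2.2.2.1 ((c j).l : Qb) (c j).σ (c j).τ hl0 (by simp)
        (cyc_fix_EvRec F hM (hs j hτ))
      rw [map_natCast, (hc j).gen, mul_one] at h4
      rw [hsσ, key j _ h1, h4] at h3
      rw [cb_eq, hsσ, h3]
      rfl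
    · have h3 := hf.tang.conj s _ hm
      have e : (s : GQ) * (c j).σ ^ (c j).m F * (s : GQ)⁻¹ = (c j).σ ^ (c j).m F := by
        rw [hsσ]
        group
      rw [e] at h3
      exact h3.symm

end Pool.Agent.MP_f68ac8_nt.Ev
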