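import Mathlib
import Pool.Agent.MP_f68ac8_nt.Core5
import Pool.Agent.MP_f68ac8_nt.HTadj
import Pool.Agent.MP_f68ac8_nt.Irr
import Pool.Agent.MP_f68ac8_nt.Step
import Pool.Agent.MP_f68ac8_nt.DefsPH

/-! The criterion for Hodge-Tate representations with a powerful image. -/

namespace Pool.Agent.MP_f68ac8_nt

open Filter Matrix PadicInt Polynomial NumberField
open scoped Topology commutatorElement

variable {p : ℕ} [hp : Fact p.Prime]

lemma tendsto_pk {y : ℚ_[p]} (hp2 : p ≠ 2) (h : ‖y - 1‖ ≤ (p : ℝ)⁻¹) :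
    Tendsto (fun k => y ^ p ^ k) atTop (𝓝 1) := by
  obtain ⟨X, hX⟩ := exists_log hp2 h le_rfl
  have q0 := pinv_pos (p := p)
  have h1 := tendsto_pow_atTop_nhds_zero_of_lt_one q0.le pinv_lt
  have h2 := tendsto_pow_atTop_nhds_zero_of_norm_lt_one (Padic.norm_p_lt_one (p := p))
  have := (squeeze_zero_norm hX (by simpa using (h1.const_mul _).pow 2)).add
    ((h2.smul_const X).const_add 1)
  simpa using this

variable {Ω : Type} [Field Ω] [CharZero Ω] [IsAlgClosure ℚ Ω]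

omit [IsAlgClosure ℚ Ω] in
lemma ea_pow_ne (hp2 : p ≠ 2) {t : Ω ≃ₐ[ℚ] Ω} (h1 : psi p t = 1) (k : ℕ) :
    ea p 1 t ^ p ^ k ≠ 1 := fun e => by
  obtain ⟨y, a, b⟩ := ea_spec (p := p) 1 t
  obtain ⟨z, hz⟩ := pow_pk hp2 y k
  have : (1 + p • y) ^ p ^ k = 1 := Subtype.ext (by simpa [a] using e)
  rw [hz, add_assoc, add_eq_left, pow_succ p (k + 1), mul_smul, ← smul_add,
    smul_eq_zero_iff_right (pow_ne_zero _ hp.out.ne_zero)] at this
  simpa [b, h1] using congrArg toZMod this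

theorem exists_hyp3 (h5 : 5 ≤ p) (ι : Ω →+* ℂ_[p]) {d : ℕ} {q : Fin d → ℕ}
    {m : Matrix (Fin d) (Fin d) (ZMod p)} (hL : Linked p q m) (hq2 : ∀ i, ¬ q i ≡ 1 [MOD p ^ 2])
    {A : Type} [NormedRing A] [IsUltrametricDist A] [NormOneClass A]
    {ρ : (Ω ≃ₐ[ℚ] Ω) →* A} (hc : Continuous ρ)
    (hp' : ∀ g, Tendsto (fun k => ρ g ^ p ^ k) atTop (𝓝 1))
    (h2 : ∀ (l : ℕ) (P : Ideal (𝓞 Ω)), l.Prime → l ≡ 1 [MOD p] → (∀ j, q j ≠ l) → P.IsMaximal →
      (l : 𝓞 Ω) ∈ P → ∀ u ∈ P.inertia (Ω ≃ₐ[ℚ] Ω), ρ u = 1) :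
    ∃ τ σ t c χ, t ∈ (primeC ι).inertia (Ω ≃ₐ[ℚ] Ω) ∧
      Hyp3 ρ (ea p 1) (chi p).ker τ σ t c m χ (psi p) := by
  have hp2 : p ≠ 2 := by omega
  have hc0 : ∀ j, ∃ c, q j = p * c + 1 ∧ (c : ZMod p) ≠ 0 := fun j => by
    obtain ⟨c, e⟩ := (Nat.modEq_iff_dvd' (hL.2.1 j).1.one_le).mp (hL.2.1 j).2.symm
    have := (hL.2.1 j).1.one_le
    refine ⟨c, by omega, fun e' => hq2 j ?_⟩
    rw [ZMod.natCast_eq_zero_iff] at e'
    exact ((Nat.modEq_iff_dvd' this).mpr (by rw [e, pow_two]; exact mul_dvd_mul_left _ e')).symm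
  choose c hq hcop using hc0
  obtain rfl : q = fun j => p * c j + 1 := funext hq
  obtain ⟨hinj, hq, ψ, hψ, hm⟩ := hL
  haveI : ∀ j, Fact (p * c j + 1).Prime := fun j => ⟨(hq j).1⟩
  have hne : ∀ l, l ≡ 1 [MOD p] → l ≠ p := fun l c1 e => by
    rw [e, Nat.ModEq, Nat.mod_self, Nat.mod_eq_of_lt hp.out.one_lt] at c1
    exact zero_ne_one c1
  have hqp : ∀ j, p * c j + 1 ≠ p := fun j => hne _ (hq j).2
  choose P hP hqP using fun j => exists_maximal_mem (Ω := Ω) (hq j).1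
  choose σ hσ using fun j => exists_frob (P j) (hq j).1 (hqP j)
  have hτ : ∀ j, ∃ τ ∈ (P j).inertia (Ω ≃ₐ[ℚ] Ω), (ψ j (cyc (p * c j + 1) τ)).toAdd = 1 :=
    fun j => by
      obtain ⟨u, hu⟩ := hψ j (Multiplicative.ofAdd 1)
      obtain ⟨τ, t1, t2⟩ := cyc_inertia_surj (hqP j) u
      exact ⟨τ, t1, by rw [t2, hu]; rfl⟩
  choose τ hτ hτ' using hτ
  haveI := primeC_maximal ι
  obtain ⟨t, ht, h1⟩ := exists_psi_one (p_mem_primeC ι)
  have eH : ∀ g : Ω ≃ₐ[ℚ] Ω, chi p g = 1 → ea p 1 g = 1 := fun g hg => by simp [ea, hg]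
  refine ⟨τ, σ, t, c, fun j g => (ψ j (cyc (p * c j + 1) g)).toAdd, ht, hc, hp', ea_cont 1,
    fun g => tendsto_pk hp2 (ea_le 1 g), eH, ea_pow_ne hp2 h1,
    fun j => chi_unram (hq j).1 (hqP j) (hqp j) (hτ j), fun i => ?_,
    fun V _ _ x x1 x2 x3 => add_structure2 ι h5 _ hinj hqp ψ P hqP τ hτ hτ' ht h1 x x1 x2
      fun l Q hl hQ hlQ c1 c2 u hu => x3 u (h2 l Q hl c1 c2 hQ hlQ u hu)
        (eH u (chi_unram hl hlQ (hne l c1) hu)), hcop,
    fun i j hij => (hm i j hij _ (cyc_frob (not_mem_of_coprime (hqP i)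
      ((Nat.coprime_primes (hq i).1 (hq j).1).mpr fun e => hij (hinj e))) (hσ i))).trans (by
        rw [val_one (k := c i) (by simp) (hcop i)]), fun i => psi_frob (hqP i) (hσ i), h1⟩
  have : ρ (σ i * τ i * (σ i)⁻¹ * (τ i ^ (p * c i + 1))⁻¹) = 1 := by
    by_contra hn
    obtain ⟨K, _, k1, k2, k3, -⟩ := exists_K hc hp' (norm_pos_iff.mpr (sub_ne_zero.mpr hn))
    obtain ⟨a, ha⟩ := wild_rel (hq i).1 (hqP i) (hσ i) (hτ i) (k1.mem_nhds K.one_mem)
    obtain ⟨k, hk⟩ := k2 (σ i * τ i * (σ i)⁻¹ * (τ i ^ (p * c i + 1))⁻¹)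
    exact (k3 _ ((QuotientGroup.eq_one_iff _).mp (eq_one_of_pow_of_coprime (Nat.Coprime.pow k a
      ((Nat.coprime_primes hp.out (hq i).1).mpr (hqp i).symm))
      ((QuotientGroup.eq_one_iff _).mpr hk) ((QuotientGroup.eq_one_iff _).mpr ha)))).false
  rw [← inv_mul_cancel_right (σ i * τ i * (σ i)⁻¹) (τ i ^ (p * c i + 1)), map_mul, this, one_mul]

/-- matrices with the supremum norm -/
@[reducible] noncomputable def supRing (n : ℕ) : NormedRing (Matrix (Fin n) (Fin n) ℚ_[p]) :=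
  { Matrix.normedAddCommGroup, (inferInstance : Ring (Matrix (Fin n) (Fin n) ℚ_[p])) with
    norm_mul_le := fun a b => by
      letI := Matrix.normedAddCommGroup (m := Fin n) (n := Fin n) (α := ℚ_[p])
      refine (norm_le_iff (by positivity)).mpr fun i j => ?_
      rw [mul_apply]
      exact IsUltrametricDist.norm_sum_le_of_forall_le_of_nonneg (by positivity) fun k _ =>
        ule_mul (norm_entry_le_entrywise_sup_norm a) (norm_entry_le_entrywise_sup_norm b) }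

theorem ph_criterion {K : ℕ} (h5 : 5 ≤ p) (hK : 2 * K < p) {d : ℕ}
    {m : Matrix (Fin d) (Fin d) (ZMod p)} (hsys : ∀ r t x c z b s, ¬ Sys3 (κ := Fin r)
      (∏ a ∈ Finset.Icc (-K : ℤ) K, (X - C a) : ℤ[X]) m t x c z b s) : Good p (PowHT p K) m := by
  rintro q hL hq2 n ρ hirr hpro hpow hun a ⟨ι, v, hv, hw⟩ ha
  haveI : IsAlgClosure ℚ (AlgebraicClosure ℚ) := AlgebraicClosure.instIsAlgClosure ℚ
  rcases n.eq_zero_or_pos with rfl | hn
  · exact Set.toFinite _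
  haveI : Nonempty (Fin n) := ⟨⟨0, hn⟩⟩
  let r : GQ →* Matrix (Fin n) (Fin n) ℚ_[p] := (Units.coeHom _).comp ρ.toMonoidHom
  letI := supRing (p := p) n
  haveI : IsUltrametricDist (Matrix (Fin n) (Fin n) ℚ_[p]) :=
    inferInstanceAs (IsUltrametricDist (Fin n → Fin n → ℚ_[p]))
  haveI : NormOneClass (Matrix (Fin n) (Fin n) ℚ_[p]) := ⟨by
    rw [← diagonal_one]
    exact (norm_diagonal _).trans (by simp)⟩
  letI : NormedAlgebra ℚ_[p] (Matrix (Fin n) (Fin n) ℚ_[p]) :=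
    { (inferInstance : Algebra ℚ_[p] (Matrix (Fin n) (Fin n) ℚ_[p])) with
      norm_smul_le := Matrix.normedSpace.norm_smul_le }
  obtain ⟨τ, σ, t, c, χ, ht, Y⟩ := exists_hyp3 h5 ι hL hq2 (ρ := r)
    (Units.continuous_val.comp ρ.continuous)
    (fun g => ((Units.continuous_val.tendsto 1).comp (hpro g)).congr fun k =>
      Units.val_pow_eq_pow_val _ _)
    fun l P hl l1 l2 hP h u hu =>
      congrArg Units.val (hun l hl l1 (fun ⟨j, hj⟩ => l2 j hj) u ⟨P, hP, h, hu⟩)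
  refine Set.Finite.of_finite_image ?_ Units.val_injective.injOn
  rw [Set.image_image]
  refine Y.finite (by omega) (fun x y δ hδ => ?_) (traceLinearMap _ _ _) trace_mul_comm hsys
    (fun s b hb 𝒜 h1 Θ h2 => ht_adj h5 ι r hK a ha v hv (fun i g => hw i g.1 (resC ι g)
      (GC.cont g) fun x => (resC_spec ι g x).symm) b hb 𝒜 h1 Θ h2 ht Y.psit)
    fun N n1 n2 n3 X hX s q hq h => eq_zero_of_irr r hirr N n1 n2 n3 hX hq h
  obtain ⟨u, h1, h2⟩ := mem_closure_iff_nhds.mp (hpow x y x.2 y.2) _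
    (Units.continuous_val.continuousAt.preimage_mem_nhds (Metric.ball_mem_nhds _ hδ))
  have : Subgroup.closure ((fun z => ρ z ^ p) '' {z | cycChar p z = 1}) ≤
      (Subgroup.closure (Set.range fun z : (chi (Ω := AlgebraicClosure ℚ) p).ker => z ^ p)).map
        (ρ.toMonoidHom.comp (Subgroup.subtype _)) := (Subgroup.closure_le _).mpr (by
    rintro _ ⟨z, hz, rfl⟩
    exact ⟨⟨z, hz⟩ ^ p, Subgroup.subset_closure ⟨_, rfl⟩, map_pow _ _ _⟩)
  obtain ⟨g, g1, rfl⟩ := this h2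
  exact ⟨g, g1, by rw [← dist_eq_norm, dist_comm]; exact h1⟩

lemma sep_prod (K : ℕ) : ((∏ a ∈ Finset.Icc (-K : ℤ) K, (X - C a) : ℤ[X]).map
    (algebraMap ℤ ℚ)).Separable := by
  simp only [Polynomial.map_prod, Polynomial.map_sub, map_X, map_C]
  exact separable_prod_X_sub_C_iff'.mpr fun x _ y _ h => Int.cast_injective h

end Pool.Agent.MP_f68ac8_nt
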