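import Mathlib
import Pool.Agent.MP_f68ac8_nt.SyAux

/-! The filtration of the adjoint representation of a symmetric power. -/

namespace Pool.Agent.MP_f68ac8_nt.Sv

open Ev Pv Polynomial Matrix Finset

section
variable {k L L' : Type} [Field k] [CommRing L] [Algebra k L] [CommRing L'] [Algebra k L']
  {r r' s : ℕ}

/-- the value of a bilinear form -/
noncomputable def bf_SyFilt (f g : Fin r → L) : Mt r k →ₗ[k] L where
  toFun Q := ∑ a, ∑ b, Q a b • (f a * g b)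
  map_add' _ _ := by simp only [Matrix.add_apply, add_smul, sum_add_distrib]
  map_smul' _ _ := by
    simp only [Matrix.smul_apply, smul_eq_mul, mul_smul, RingHom.id_apply, smul_sum]

/-- the polynomial of a matrix -/
noncomputable def ev_SyFilt (x y : L) : Mt r k →ₗ[k] L :=
  bf_SyFilt (fun a => x ^ (a : ℕ)) fun b => y ^ (b : ℕ)

theorem bf_eq_SyFilt (f g : Fin r → L) (Q : Mt r k) :
    bf_SyFilt f g Q = ∑ a, ∑ b, Q a b • (f a * g b) := rfl

theorem ev_eq_SyFilt (x y : L) (Q : Mt r k) :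
    ev_SyFilt x y Q = ∑ a, ∑ b, Q a b • (x ^ (a : ℕ) * y ^ (b : ℕ)) := rfl

theorem bf_tr_SyFilt (f g : Fin r → L) (Q : Mt r k) : bf_SyFilt f g Qᵀ = bf_SyFilt g f Q := by
  rw [bf_eq_SyFilt, bf_eq_SyFilt, sum_comm]
  simp only [transpose_apply, mul_comm]

theorem bf_mul_SyFilt (f g : Fin r → L) (M Q : Mt r k) :
    bf_SyFilt f g (M * Q) = bf_SyFilt (fun a => ∑ i, M i a • f i) g Q := by
  simp only [bf_eq_SyFilt, Matrix.mul_apply, sum_smul, sum_mul, smul_sum]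
  rw [sum_comm, sum_comm (f := fun a b => ∑ i, Q a b • (M i a • f i * g b))]
  refine sum_congr rfl fun b _ => sum_comm.trans (sum_congr rfl fun a _ => sum_congr rfl fun i _ => ?_)
  rw [smul_mul_assoc, smul_smul, mul_comm]

theorem ev_map_SyFilt (ψ : L →ₐ[k] L') (x y : L) (Q : Mt r k) :
    ψ (ev_SyFilt x y Q) = ev_SyFilt (ψ x) (ψ y) Q := by
  simp only [ev_eq_SyFilt, map_sum, map_smul, map_mul, map_pow]

/-- the polynomial of `Q` is that of `Q₁` times a power of `Y - X` -/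
def Rel_SyFilt (s : ℕ) (Q : Mt r k) (Q₁ : Mt r' k) : Prop :=
  (ev_SyFilt (C X) X Q : k[X][X]) = (X - C X) ^ s * ev_SyFilt (C X : k[X][X]) X Q₁

theorem rel_SyFilt {Q : Mt r k} {Q₁ : Mt r' k} (h : Rel_SyFilt s Q Q₁) (x y : L) :
    ev_SyFilt x y Q = (y - x) ^ s * ev_SyFilt x y Q₁ := by
  have := congrArg (aevalAeval x y) h
  rwa [map_mul, map_pow, map_sub, ev_map_SyFilt, ev_map_SyFilt, aevalAeval_X, aevalAeval_Y] at this

theorem coeff_SyFilt (Q : Mt r k) (a b : ℕ) :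
    ((ev_SyFilt (C X) X Q : k[X][X]).coeff b).coeff a =
      ∑ a' : Fin r, ∑ b' : Fin r, if a = a' ∧ b = b' then Q a' b' else 0 := by
  simp only [ev_eq_SyFilt, finsetSum_coeff, coeff_smul, ← C_pow, coeff_C_mul, coeff_X_pow]
  refine sum_congr rfl fun a' _ => sum_congr rfl fun b' _ => ?_
  by_cases h1 : a = a' <;> by_cases h2 : b = b' <;> simp [h1, h2, coeff_X_pow]

theorem coeff_in_SyFilt (Q : Mt r k) (a b : Fin r) :
    ((ev_SyFilt (C X) X Q : k[X][X]).coeff b).coeff a = Q a b := by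
  simp [coeff_SyFilt, Fin.val_inj, ite_and]

theorem coeff_out_SyFilt (Q : Mt r k) {a b : ℕ} (h : r ≤ a ∨ r ≤ b) :
    ((ev_SyFilt (C X) X Q : k[X][X]).coeff b).coeff a = 0 := by
  rw [coeff_SyFilt]
  exact sum_eq_zero fun a' _ => sum_eq_zero fun b' _ => if_neg (by omega)

theorem div_SyFilt (Q : Mt (r + 1) k) (h : (ev_SyFilt X X Q : k[X]) = 0) :
    ∃ Q₁ : Mt r k, Rel_SyFilt 1 Q Q₁ := by
  obtain ⟨g, hg⟩ : (X - C X : k[X][X]) ∣ ev_SyFilt (C X) X Q := dvd_iff_isRoot.2 (by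
    rw [IsRoot, ← h]
    simp [ev_eq_SyFilt, eval_finsetSum])
  have h0 : ∀ a b, ((ev_SyFilt (C X) X Q : k[X][X]).coeff b).coeff a =
      ((X * g).coeff b).coeff a - (X * g.coeff b).coeff a := fun a b => by
    rw [hg, sub_mul, coeff_sub, coeff_C_mul, coeff_sub]
  have h1 : ∀ b a, r ≤ a → (g.coeff b).coeff a = 0 := by
    intro b
    induction b with
    | zero =>
      intro a ha
      have := h0 (a + 1) 0
      rw [coeff_out_SyFilt _ (Or.inl (by omega)), coeff_X_mul_zero, coeff_X_mul] at this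
      simpa using this
    | succ b ih =>
      intro a ha
      have := h0 (a + 1) (b + 1)
      rw [coeff_out_SyFilt _ (Or.inl (by omega)), coeff_X_mul, coeff_X_mul, ih _ (by omega)] at this
      simpa using this
  have h2 : ∀ a b, r ≤ b → (g.coeff b).coeff a = 0 := by
    intro a
    induction a with
    | zero =>
      intro b hb
      have := h0 0 (b + 1)
      rw [coeff_out_SyFilt _ (Or.inr (by omega)), coeff_X_mul_zero, coeff_X_mul, sub_zero] at this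
      exact this.symm
    | succ a ih =>
      intro b hb
      have := h0 (a + 1) (b + 1)
      rw [coeff_out_SyFilt _ (Or.inr (by omega)), coeff_X_mul, coeff_X_mul, ih _ (by omega),
        sub_zero] at this
      exact this.symm
  refine ⟨Matrix.of fun a b => (g.coeff b).coeff a, ?_⟩
  rw [Rel_SyFilt, hg, pow_one]
  congr 1
  ext b a
  by_cases hab : r ≤ a ∨ r ≤ b
  · rw [coeff_out_SyFilt _ hab, hab.elim (h1 b a) (h2 a b)]
  · exact (coeff_in_SyFilt (Matrix.of fun a b : Fin r => (g.coeff b).coeff a) ⟨a, by omega⟩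
      ⟨b, by omega⟩).symm

theorem tay_SyFilt (Q : Mt r k) (t : ℕ) : (ev_SyFilt (C X) (X + C X) Q : k[X][X]).coeff t =
    ∑ a, ∑ b, Q a b • (X ^ (a : ℕ) * (X ^ ((b : ℕ) - t) * ((b : ℕ).choose t : k[X]))) := by
  simp only [ev_eq_SyFilt, finsetSum_coeff, coeff_smul, ← C_pow, coeff_C_mul, coeff_X_add_C_pow]

theorem pi_SyFilt {Q : Mt r k} {Q₁ : Mt r' k} (h : Rel_SyFilt s Q Q₁) :
    (ev_SyFilt (C X) (X + C X) Q : k[X][X]).coeff s = ev_SyFilt X X Q₁ := by
  rw [rel_SyFilt h, add_sub_cancel_right, coeff_X_pow_mul', if_pos le_rfl, Nat.sub_self,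
    tay_SyFilt, ev_eq_SyFilt]
  simp

theorem tri_SyFilt (Q : Mt r k) (t j : ℕ) (h : ∀ a b : Fin r, (a : ℕ) + b = j + t → Q a b = 0) :
    ((ev_SyFilt (C X) (X + C X) Q : k[X][X]).coeff t).coeff j = 0 := by
  simp only [tay_SyFilt, finsetSum_coeff, coeff_smul]
  refine sum_eq_zero fun a _ => sum_eq_zero fun b _ => ?_
  by_cases h1 : (b : ℕ) < t
  · simp [Nat.choose_eq_zero_of_lt h1]
  by_cases h2 : (a : ℕ) + b = j + t
  · rw [h a b h2, zero_smul]
  rw [← mul_assoc, ← pow_add, ← C_eq_natCast, coeff_mul_C, coeff_X_pow, if_neg (by omega), zero_mul,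
    smul_zero]

theorem sym_SyFilt (A : Mt 2 k) (Q : Mt (r + 1) k) (x y : L) :
    ev_SyFilt x y (symP (r + 1) A * Q * (symP (r + 1) A)ᵀ) = bf_SyFilt
      (fun a => aeval x (C (A 0 0) + C (A 1 0) * X) ^ (r - a) *
        aeval x (C (A 0 1) + C (A 1 1) * X) ^ (a : ℕ))
      (fun a => aeval y (C (A 0 0) + C (A 1 0) * X) ^ (r - a) *
        aeval y (C (A 0 1) + C (A 1 1) * X) ^ (a : ℕ)) Q := by
  have h : ∀ z : L, (fun a => ∑ i, symP (r + 1) A i a • z ^ (i : ℕ)) = fun a : Fin (r + 1) =>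
      aeval z (C (A 0 0) + C (A 1 0) * X) ^ (r - a) *
        aeval z (C (A 0 1) + C (A 1 1) * X) ^ (a : ℕ) := fun z => funext fun a => by
    have hd : ∀ c d : k, (C c + C d * X).natDegree ≤ 1 := fun c d => by compute_degree
    rw [← map_pow, ← map_pow, ← map_mul, aeval_eq_sum_range' (n := r + 1), sum_range]
    · rfl
    · have h1 := natDegree_pow_le_of_le (r - a) (hd (A 0 0) (A 1 0))
      have h2 := natDegree_pow_le_of_le a (hd (A 0 1) (A 1 1))
      have := natDegree_mul_le_of_le h1 h2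
      omega
  rw [ev_SyFilt, mul_assoc, bf_mul_SyFilt, h, ← bf_tr_SyFilt, transpose_mul, transpose_transpose,
    bf_mul_SyFilt, h, bf_tr_SyFilt]

theorem hom_SyFilt {F : Type} [Field F] [Algebra k F] (Q : Mt (r + 1) k) {u u' : F} (v v' : F)
    (h : u ≠ 0) (h' : u' ≠ 0) :
    bf_SyFilt (fun a => u ^ (r - a) * v ^ (a : ℕ)) (fun a => u' ^ (r - a) * v' ^ (a : ℕ)) Q =
      (u * u') ^ r * ev_SyFilt (v / u) (v' / u') Q := by
  simp only [bf_eq_SyFilt, ev_eq_SyFilt, mul_sum]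
  refine sum_congr rfl fun a _ => sum_congr rfl fun b _ => ?_
  rw [mul_smul_comm, pow_sub₀ _ h (Nat.lt_succ_iff.1 a.2), pow_sub₀ _ h' (Nat.lt_succ_iff.1 b.2)]
  congr 1
  ring

theorem act_SyFilt (A : Mt 2 k) (hA : A.det ≠ 0) {Q : Mt (s + r + 1) k} {Q₁ : Mt (r + 1) k}
    (h : Rel_SyFilt s Q Q₁) : Rel_SyFilt s (symP _ A * Q * (symP _ A)ᵀ)
      (A.det ^ s • (symP _ A * Q₁ * (symP _ A)ᵀ)) := by
  let ι := IsScalarTower.toAlgHom k k[X][X] (FractionRing k[X][X])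
  have hι : Function.Injective ι := IsFractionRing.injective _ _
  have h0 : (C (A 0 0) + C (A 1 0) * X : k[X]) ≠ 0 := fun e => hA (by
    have e0 := congrArg (coeff · 0) e
    have e1 := congrArg (coeff · 1) e
    simp at e0 e1
    simp [det_fin_two, e0, e1])
  have hx : aeval (ι (C X)) (C (A 0 0) + C (A 1 0) * X) ≠ 0 := by
    rw [aeval_algHom_apply, map_ne_zero_iff _ hι, ← C_ne_zero (R := k[X])] at *
    simpa using h0
  have hy : aeval (ι X) (C (A 0 0) + C (A 1 0) * X) ≠ 0 := by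
    rw [aeval_algHom_apply, map_ne_zero_iff _ hι, aeval_X_left_eq_map]
    exact Polynomial.map_ne_zero h0
  apply hι
  rw [map_mul ι, map_pow, map_sub, ev_map_SyFilt, ev_map_SyFilt, map_smul, sym_SyFilt, sym_SyFilt,
    hom_SyFilt _ _ _ hx hy, hom_SyFilt _ _ _ hx hy, rel_SyFilt h, Algebra.smul_def, map_pow,
    ← mul_assoc, ← mul_assoc, ← mul_assoc, pow_add, mul_right_comm (_ ^ s), ← mul_pow, ← mul_pow]
  congr 3
  generalize ι (C X) = x at hx ⊢
  generalize ι X = y at hy ⊢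
  simp only [det_fin_two, map_add, map_mul, map_sub, aeval_C, aeval_X] at hx hy ⊢
  field_simp
  ring

theorem diag_SyFilt (A : Mt 2 k) (Q : Mt (r + 1) k) (j : Fin (2 * r + 1)) :
    (ev_SyFilt X X (symP _ A * Q * (symP _ A)ᵀ) : k[X]).coeff j =
      (symP (2 * r + 1) A *ᵥ fun l => (ev_SyFilt X X Q : k[X]).coeff l) j := by
  rw [sym_SyFilt]
  simp only [aeval_X_left_apply, bf_eq_SyFilt, ev_eq_SyFilt, finsetSum_coeff,
    coeff_smul, mulVec, dotProduct, mul_sum, ← pow_add, coeff_X_pow]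
  refine Eq.trans (sum_congr rfl fun a _ => ?_) sum_comm
  refine Eq.trans (sum_congr rfl fun b _ => ?_) sum_comm
  rw [sum_eq_single (⟨a + b, by omega⟩ : Fin (2 * r + 1))
    (fun l _ hl => by rw [if_neg fun e => hl (Fin.ext e), smul_zero, mul_zero]) (by simp),
    if_pos rfl, smul_eq_mul, smul_eq_mul, mul_one, mul_comm, symP, of_apply,
    mul_mul_mul_comm, ← pow_add, ← pow_add]
  congr 4
  change _ = 2 * r + 1 - 1 - (a + b)
  omega

theorem dm_SyFilt : (ev_SyFilt (C X) X (Dm k (r + 1)) : k[X][X]) = (X - C X) ^ r := by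
  rw [ev_eq_SyFilt, sub_eq_neg_add, add_pow, sum_range]
  refine sum_congr rfl fun a _ => ?_
  rw [sum_eq_single a.rev (fun b _ hb => by
    rw [Dm, of_apply, if_neg fun e => hb (Fin.ext (by rw [Fin.val_rev]; omega)), zero_smul])
    (by simp), Dm, of_apply, if_pos (by rw [Fin.val_rev]; omega), Fin.val_rev, Algebra.smul_def,
    neg_pow (C X : k[X][X]), Nat.add_sub_cancel, Nat.add_sub_add_right]
  simp only [map_mul, map_pow, map_neg, map_one, map_natCast]
  ring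

theorem low_SyFilt {Z : Mt (r + 1) k} {a b c : Fin (r + 1)} (hc : (c : ℕ) + b = r) (h : Z a c = 0) :
    (Z * Dm k (r + 1)) a b = 0 := by
  rw [Matrix.mul_apply]
  refine sum_eq_zero fun d _ => ?_
  by_cases e : d = c
  · rw [e, h, zero_mul]
  · rw [Dm, of_apply, if_neg fun e' => e (Fin.ext (by omega)), mul_zero]

end

theorem filt_stmt (p : ℕ) [Fact p.Prime] (h : Sym1Stmt) : FiltStmt p := by
  rintro (_ | m) h0 hn
  · omega
  obtain ⟨s1, s2, -, -, -, s6, s7, s8⟩ := h (ZMod p) (m + 1)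
  have hD := s8 fun t h1 h2 => Ne.isUnit ((ZMod.natCast_eq_zero_iff t p).not.2
    (Nat.not_dvd_of_pos_of_lt h1 (by omega)))
  rw [Nat.add_sub_cancel] at s6 s7 ⊢
  let q : Mt (m + 1) (ZMod p) →ₗ[ZMod p] Mt (m + 1) (ZMod p) :=
    LinearMap.mulRight (ZMod p) (Dm (ZMod p) (m + 1))
  let W : ℕ → Submodule (ZMod p) (Mt (m + 1) (ZMod p)) := fun i =>
    (LinearMap.range ((LinearMap.mulLeft (ZMod p) ((X - C X : (ZMod p)[X][X]) ^ (m - i))).comp
      (ev_SyFilt (r := i + 1) (C X : (ZMod p)[X][X]) X))).comap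
        ((ev_SyFilt (C X : (ZMod p)[X][X]) X).comp q)
  let π : ∀ i : ℕ, Mt (m + 1) (ZMod p) →ₗ[ZMod p] Vc p (2 * i + 1) := fun i =>
    LinearMap.pi fun j => (lcoeff (ZMod p) j).comp (((lcoeff (ZMod p)[X] (m - i)).restrictScalars
      (ZMod p)).comp ((ev_SyFilt (C X : (ZMod p)[X][X]) (X + C X)).comp q))
  have hW : ∀ i Z, Z ∈ W i ↔ ∃ Q₁ : Mt (i + 1) (ZMod p),
      Rel_SyFilt (m - i) (Z * Dm (ZMod p) (m + 1)) Q₁ := fun i Z =>
    exists_congr fun _ => eq_comm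
  have hπ : ∀ i Z j, π i Z j = ((ev_SyFilt (C X) (X + C X) (Z * Dm (ZMod p) (m + 1)) :
      (ZMod p)[X][X]).coeff (m - i)).coeff j := fun _ _ _ => rfl
  refine ⟨W, π, eq_top_iff.2 fun Z _ => (hW m Z).2 ⟨Z * Dm (ZMod p) (m + 1), ?_⟩,
    fun i hi Z hZ hz => ?_,
    fun Z hZ => ?_, fun i hi Z hZ => ?_⟩
  · rw [Rel_SyFilt, Nat.sub_self, pow_zero, one_mul]
  · obtain ⟨Q₁, h1⟩ := (hW _ Z).1 hZ
    obtain ⟨Q₂, h2⟩ := div_SyFilt Q₁ (by
      ext j
      by_cases hj : j < 2 * (i + 1) + 1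
      · have := congrFun hz ⟨j, hj⟩
        rwa [hπ, pi_SyFilt h1] at this
      · simp only [ev_eq_SyFilt, finsetSum_coeff, coeff_smul, ← pow_add, coeff_X_pow]
        exact sum_eq_zero fun a _ => sum_eq_zero fun b _ => by rw [if_neg (by omega), smul_zero])
    refine (hW i Z).2 ⟨Q₂, ?_⟩
    unfold Rel_SyFilt at h1 h2 ⊢
    rw [h1, h2, ← mul_assoc, ← pow_add, show m - (i + 1) + 1 = m - i by omega]
  · obtain ⟨Q₁, h1⟩ := (hW _ Z).1 hZ
    refine ⟨Q₁ 0 0, hD.mul_right_cancel ?_⟩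
    ext a b
    rw [← coeff_in_SyFilt (Z * _), h1, smul_mul_assoc, one_mul, ← coeff_in_SyFilt (_ • _), map_smul,
      dm_SyFilt, ev_eq_SyFilt]
    simp
  obtain ⟨Q₁, h1⟩ := (hW _ Z).1 hZ
  refine ⟨fun A => ?_, fun Z' hZ' => ?_, fun ht => ⟨fun j hj => ?_, fun hd j hj => ?_⟩⟩
  · have hA : A.val.det ≠ 0 := (isUnits_det_units A).ne_zero
    have e1 : symP (m + 1) A.val * Z * symP (m + 1) A⁻¹.val * Dm (ZMod p) (m + 1) =
        A.val.det⁻¹ ^ m • (symP (m + 1) A.val * (Z * Dm (ZMod p) (m + 1)) *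
          (symP (m + 1) A.val)ᵀ) := by
      have e := congrArg (symP (m + 1) A⁻¹.val * ·) (s6 A.val)
      simp only [← mul_assoc, ← s2, Units.inv_mul, s1, one_mul, mul_smul_comm] at e
      simp only [mul_assoc, e, mul_smul_comm, smul_smul, ← mul_pow, inv_mul_cancel₀ hA, one_pow,
        one_smul]
    have e2 : Rel_SyFilt (m - i) (symP (m + 1) A.val * Z * symP (m + 1) A⁻¹.val *
        Dm (ZMod p) (m + 1)) (A.val.det⁻¹ ^ i • (symP _ A.val * Q₁ * (symP _ A.val)ᵀ)) := by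
      obtain ⟨t, rfl⟩ : ∃ t, m = t + i := ⟨m - i, by omega⟩
      rw [Nat.add_sub_cancel] at h1 ⊢
      have := act_SyFilt A.val hA h1
      unfold Rel_SyFilt at this ⊢
      rw [e1, map_smul, this, ← mul_smul_comm, ← map_smul, smul_smul, pow_add, mul_right_comm,
        ← mul_pow, inv_mul_cancel₀ hA, one_pow, one_mul]
    refine ⟨(hW i _).2 ⟨_, e2⟩, funext fun j => ?_⟩
    rw [hπ, pi_SyFilt e2, map_smul, coeff_smul, diag_SyFilt, Pi.smul_apply]
    congr 3
    exact funext fun l => by rw [hπ, pi_SyFilt h1]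
  · have e1 : Z' * Dm (ZMod p) (m + 1) = (-1 : ZMod p) ^ m • (Z * Dm (ZMod p) (m + 1))ᵀ := by
      rw [hZ', transpose_mul, s7, smul_mul_assoc, smul_smul, ← mul_pow]
      simp
    have e2 : Rel_SyFilt (m - i) (Z' * Dm (ZMod p) (m + 1)) ((-1 : ZMod p) ^ i • Q₁ᵀ) := by
      obtain ⟨t, rfl⟩ : ∃ t, m = t + i := ⟨m - i, by omega⟩
      rw [Nat.add_sub_cancel] at h1 ⊢
      have := rel_SyFilt h1 (X : (ZMod p)[X][X]) (C X)
      unfold Rel_SyFilt
      unfold ev_SyFilt at this ⊢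
      rw [e1, map_smul, map_smul, bf_tr_SyFilt, bf_tr_SyFilt _ _ Q₁, this, Algebra.smul_def,
        Algebra.smul_def, map_pow, map_pow, map_neg, map_one, ← neg_sub X (C X : (ZMod p)[X][X]),
        neg_pow (X - C X : (ZMod p)[X][X]), pow_add, ← mul_assoc, ← mul_assoc, mul_right_comm _ _ ((-1) ^ t), ← mul_pow]
      simp only [mul_neg, mul_one, neg_neg, one_pow, one_mul]
      ring
    funext j
    rw [hπ, pi_SyFilt e2, Pi.smul_apply, hπ, pi_SyFilt h1, map_smul, coeff_smul, ev_SyFilt,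
      bf_tr_SyFilt]
  · exact tri_SyFilt _ _ _ fun a b hab => low_SyFilt (c := b.rev) (by rw [Fin.val_rev]; omega)
      (ht (show b.rev < a from Fin.lt_def.2 (by rw [Fin.val_rev]; omega)))
  · exact tri_SyFilt _ _ _ fun a b hab => low_SyFilt (c := a) (by omega) (hd a)

end Pool.Agent.MP_f68ac8_nt.Sv
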