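import Mathlib
import Pool.Agent.MP_f68ac8_nt.DefsPow
import Pool.Agent.MP_f68ac8_nt.Cyc
import Pool.Agent.MP_f68ac8_nt.Pow
import Pool.Agent.MP_f68ac8_nt.Sys2

/-! Powerful quotients are finite when the spanning linking system has no solution. -/

namespace Pool.Agent.MP_f68ac8_nt

open Subgroup NumberField
open scoped commutatorElement Topology

variable {p : ℕ} [hp : Fact p.Prime] [hp2 : Fact (p ≠ 2)] {ι : Type} [Fintype ι] [DecidableEq ι]

theorem pow_bound {Γ G : Type} [Group Γ] [Group G] [Finite G] (h : IsPGroup p G)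
    (hG : ∀ x y : G, ⁅x, y⁆ ∈ closure (Set.range fun z : G => z ^ p))
    (ρ : Γ →* G) (hρ : Function.Surjective ρ) (τ σ : ι → Γ) (c : ι → ℕ)
    (hc : ∀ i, (c i : ZMod p) ≠ 0)
    (hrel : ∀ i, ρ (σ i) * ρ (τ i) * (ρ (σ i))⁻¹ = ρ (τ i) ^ (c i * p + 1))
    (J : Subgroup G) {m : Matrix ι ι (ZMod p)} (χ : ι → Γ → ZMod p)
    (hχ : ∀ i j, i ≠ j → χ j (σ i) = c i * m i j)
    (hstr : ∀ (A : Type) [AddCommGroup A] [Module (ZMod p) A] (f : G → A),
      (∀ x y, f (x * y) = f x + f y) → (∀ x ∈ J, f x = 0) →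
        ∀ g, f (ρ g) = ∑ j, χ j g • f (ρ (τ j)))
    (hsol : ¬ ∃ t X a w, Sys2 m t X a w) :
    Nat.card G ≤ (Nat.card J * p ^ Fintype.card ι) ^ (Nat.card J + 2 + p ^ Fintype.card ι) := by
  set d := Fintype.card ι
  set a := Nat.card J
  have h1 : ∀ K : Subgroup G, PS p G 1 ≤ K → J ≤ K → K.index ≤ p ^ d := by
    intro K k1 k2
    haveI : K.Normal := Normal.of_commutator_le G
      (commutator_le.mpr fun x _ y _ => k1 (comm_mem_PS (n := 0) trivial y))
    obtain ⟨A, _, _, f, f1, f2, f3, f4⟩ := exists_add K k1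
    rw [← f4]
    refine (Nat.card_le_card_of_surjective (fun v : ι → ZMod p => ∑ j, v j • f (ρ (τ j)))
      fun u => ?_).trans_eq (by simp [d])
    obtain ⟨g, rfl⟩ := (f1.comp hρ) u
    exact ⟨_, (hstr A f f2 (fun x hx => (f3 x).mpr (k2 hx)) g).symm⟩
  have h2 : ∀ n, a ≤ n → J ≤ (th p G n).ker := by
    intro n hn u hu
    obtain ⟨k, hk⟩ := IsPGroup.iff_orderOf.mp h u
    have e1 : p ^ k ≤ a := hk ▸ Nat.le_of_dvd Nat.card_pos (J.orderOf_dvd_natCard hu)
    have e2 := Nat.lt_pow_self (n := k) hp.out.one_lt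
    rw [MonoidHom.mem_ker, th_apply, orderOf_dvd_iff_pow_eq_one.mp
      (hk ▸ pow_dvd_pow p (by omega)), map_one]
  have h3 : ∃ j, a + 2 ≤ j ∧ j ≤ a + 2 + p ^ d ∧ (th p G (j + 1)).ker ≤ (th p G j).ker := by
    by_contra hn
    push Not at hn
    have : ∀ t, t ≤ p ^ d → (th p G (a + 2 + t)).ker.index + t ≤ p ^ d := by
      intro t ht
      induction t with
      | zero => exact h1 _ (PS_one_le _) (h2 _ (by omega))
      | succ t ih =>
        have : (th p G (a + 2 + t + 1)).ker.index < (th p G (a + 2 + t)).ker.index :=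
          index_strictAnti (lt_of_le_not_ge (ker_th_mono (Nat.le_succ _))
          (hn (a + 2 + t) (by omega) (by omega)))
        have := ih (by omega)
        change (th p G (a + 2 + t + 1)).ker.index + (t + 1) ≤ _
        omega
    have := this _ le_rfl
    have := (th p G (a + 2 + p ^ d)).ker.index_ne_zero_of_finite
    omega
  obtain ⟨j, j1, j2, j3⟩ := h3
  obtain ⟨A, _, _, f, f1, f2, f3, -⟩ := exists_add (th p G j).ker (PS_one_le j)
  obtain ⟨b, b1, b2, b3⟩ := exists_lie hG (by omega) j3 f1 f2 f3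
  have h4 := hstr A f f2 fun x hx => (f3 x).mpr (h2 j (by omega) hx)
  have h5 : ∀ i, f (ρ (τ i)) = 0 := by
    by_contra hn
    push Not at hn
    refine hsol (sys2_of_lie b b2 (fun u => ?_) hn fun i => ?_)
    · obtain ⟨g, rfl⟩ := (f1.comp hρ) u
      exact ⟨_, (h4 g).symm⟩
    have e0 : f 1 = 0 := by simpa using f2 1 1
    have e1 : ∀ (x : G) (n : ℕ), f (x ^ n) = (n : ZMod p) • f x := fun x n => by
      induction n with
      | zero => simp [e0]
      | succ n ih => rw [pow_succ, f2, ih, Nat.cast_succ, add_smul, one_smul]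
    have e2 := b3 (ρ (σ i)) (ρ (τ i)) (ρ (τ i) ^ c i) (by
      rw [commutatorElement_def, hrel, pow_succ, mul_inv_cancel_right, pow_mul])
    rw [e1, h4] at e2
    refine smul_right_injective A (hc i) (Eq.trans ?_ e2)
    simp only [map_sum, map_smul, LinearMap.sum_apply, LinearMap.smul_apply, Finset.smul_sum]
    refine Finset.sum_congr rfl fun k _ => ?_
    by_cases e : i = k
    · rw [← e, b1, smul_zero, smul_zero, smul_zero]
    · rw [hχ i k e, mul_smul]
  have h6 : PS p G j ≤ PS p G (j + 1) := fun x hx => by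
    obtain ⟨y, hy⟩ := map_PS_le hG j (mem_map_of_mem _ hx)
    obtain ⟨g, rfl⟩ := hρ y
    rw [← mq_eq_one, ← hy, ← MonoidHom.mem_ker, ← f3, h4]
    simp [h5]
  have h7 := index_PS_le hG j
  rw [PS_eq_bot h h6, index_bot] at h7
  have h8 : (PS p G 1).index ≤ a * p ^ d := by
    rw [← relIndex_mul_index (le_sup_left : PS p G 1 ≤ PS p G 1 ⊔ J), relIndex_sup_left]
    exact Nat.mul_le_mul (Nat.le_of_dvd Nat.card_pos (relIndex_dvd_card _ _))
      (h1 _ le_sup_left le_sup_right)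
  exact h7.trans ((Nat.pow_le_pow_left h8 j).trans (Nat.pow_le_pow_right
    (Nat.mul_pos Nat.card_pos (pow_pos hp.out.pos d)) j2))

omit hp hp2 in
lemma finite_of_bound {U : Type} [Group U] [TopologicalSpace U] [IsTopologicalGroup U]
    [CompactSpace U] [T2Space U] [TotallyDisconnectedSpace U] (B : ℕ)
    (h : ∀ N : OpenNormalSubgroup U, Nat.card (U ⧸ N.toSubgroup) ≤ B) : Finite U := by
  classical
  by_contra hn
  haveI := not_finite_iff_infinite.mp hn
  obtain ⟨s, hs⟩ := Infinite.exists_subset_card_eq U (B + 1)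
  let t : Finset U := ((s ×ˢ s).image fun z => z.1⁻¹ * z.2).erase 1
  obtain ⟨N, hN⟩ := ProfiniteGrp.exist_openNormalSubgroup_sub_open_nhds_of_one
    t.finite_toSet.isClosed.isOpen_compl (by simp [t])
  haveI : Finite (U ⧸ N.toSubgroup) := quotient_finite_of_isOpen _ N.isOpen
  have := Nat.card_le_card_of_injective (fun x : s => (x : U ⧸ N.toSubgroup)) fun x y e => by
    by_contra hne
    refine hN (QuotientGroup.eq.mp e) (Finset.mem_erase.mpr ⟨fun e' => hne ?_, ?_⟩)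
    · exact Subtype.ext (inv_mul_eq_one.mp e')
    · exact Finset.mem_image_of_mem _ (Finset.mk_mem_product x.2 y.2)
  have := h N
  simp only [Nat.card_eq_fintype_card, Fintype.card_coe] at *
  omega

theorem pow_general {Ω : Type} [Field Ω] [CharZero Ω] [IsAlgClosure ℚ Ω] {d : ℕ}
    {q : Fin d → ℕ} {m : Matrix (Fin d) (Fin d) (ZMod p)} (hL : Linked p q m)
    (hq2 : ∀ i, ¬ q i ≡ 1 [MOD p ^ 2]) (hsol : ¬ ∃ t X a w, Sys2 m t X a w)
    {U : Type} [Group U] [TopologicalSpace U] [IsTopologicalGroup U] (hU : PowerfulProP p U)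
    (ρ : (Ω ≃ₐ[ℚ] Ω) →* U) (hc : Continuous ρ) (hρ : Function.Surjective ρ)
    (h1 : ∀ P : Ideal (𝓞 Ω), P.IsMaximal → (p : 𝓞 Ω) ∈ P → (ρ '' P.inertia (Ω ≃ₐ[ℚ] Ω)).Finite)
    (h2 : ∀ (l : ℕ) (P : Ideal (𝓞 Ω)), l.Prime → l ≡ 1 [MOD p] → (∀ j, q j ≠ l) → P.IsMaximal →
      (l : 𝓞 Ω) ∈ P → ∀ u ∈ P.inertia (Ω ≃ₐ[ℚ] Ω), ρ u = 1) : Finite U := by
  obtain ⟨hinj, hq, ψ, hψ, hm⟩ := hL
  obtain ⟨_, _, _, u1, u2⟩ := hU
  haveI : ∀ j, Fact (q j).Prime := fun j => ⟨(hq j).1⟩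
  have hqp : ∀ j, q j ≠ p := fun j e => by
    have := (hq j).2
    rw [e, Nat.ModEq, Nat.mod_self, Nat.mod_eq_of_lt hp.out.one_lt] at this
    exact zero_ne_one this
  choose P hP hqP using fun j => exists_maximal_mem (Ω := Ω) (hq j).1
  choose σ hσ using fun j => exists_frob (P j) (hq j).1 (hqP j)
  have hτ : ∀ j, ∃ τ ∈ (P j).inertia (Ω ≃ₐ[ℚ] Ω), (ψ j (cyc (q j) τ)).toAdd = 1 := fun j => by
    obtain ⟨u, hu⟩ := hψ j (Multiplicative.ofAdd 1)
    obtain ⟨τ, t1, t2⟩ := cyc_inertia_surj (hqP j) u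
    exact ⟨τ, t1, by rw [t2, hu]; rfl⟩
  choose τ hτ hτ' using hτ
  have hc' : ∀ i, ∃ c : ℕ, q i = c * p + 1 ∧ (c : ZMod p) ≠ 0 ∧
      (q i - 1) / p ^ padicValNat p (q i - 1) = c := fun i => by
    have e0 := (hq i).1.one_lt
    obtain ⟨c, e⟩ := (Nat.modEq_iff_dvd' e0.le).mp (hq i).2.symm
    have e1 : ¬ p ∣ c := fun ⟨k, hk⟩ => hq2 i ((Nat.modEq_iff_dvd' e0.le).mpr
      ⟨k, by rw [e, hk]; ring⟩).symm
    refine ⟨c, by rw [mul_comm]; omega, by rwa [Ne, ZMod.natCast_eq_zero_iff], ?_⟩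
    rw [e, padicValNat.mul hp.out.ne_zero (by rintro rfl; simp at e1), padicValNat_self,
      padicValNat.eq_zero_of_not_dvd e1, pow_one, Nat.mul_div_cancel_left _ hp.out.pos]
  choose c c1 c2 c3 using hc'
  obtain ⟨P₀, _, hP₀⟩ := exists_maximal_mem (Ω := Ω) hp.out
  let J₀ := (P₀.inertia (Ω ≃ₐ[ℚ] Ω)).map ρ
  haveI : Finite J₀ := h1 P₀ ‹_› hP₀
  refine finite_of_bound ((Nat.card J₀ * p ^ d) ^ (Nat.card J₀ + 2 + p ^ d)) fun N => ?_
  haveI : Finite (U ⧸ N.toSubgroup) := quotient_finite_of_isOpen _ N.isOpen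
  let π := QuotientGroup.mk' N.toSubgroup
  have hπ := QuotientGroup.mk'_surjective N.toSubgroup
  have hn : {g | π.comp ρ g = 1} ∈ 𝓝 1 := by
    refine Filter.mem_of_superset (hc.continuousAt.preimage_mem_nhds
      (N.isOpen.mem_nhds (by simp))) fun g hg => (QuotientGroup.eq_one_iff _).mpr hg
  have hJ : Nat.card (J₀.map π) ≤ Nat.card J₀ :=
    Nat.le_of_dvd Nat.card_pos (card_map_dvd _ _)
  refine (pow_bound (u1 N) (fun x y => ?_) (π.comp ρ) (hπ.comp hρ) τ σ c c2 (fun i => ?_)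
    (J₀.map π) (fun j g => (ψ j (cyc (q j) g)).toAdd) (fun i j hij => ?_)
    (fun A _ _ f f1 f2 g => ?_) hsol).trans ?_
  · obtain ⟨x, rfl⟩ := hπ x
    obtain ⟨y, rfl⟩ := hπ y
    rw [← map_commutatorElement]
    refine (topologicalClosure_minimal _ 
      (t := (Subgroup.closure (Set.range fun z => z ^ p)).comap π)
      ((closure_le _).mpr ?_) (Subgroup.isClosed_of_isOpen _
        (Subgroup.isOpen_mono (H₁ := N.toSubgroup) (fun z hz => ?_) N.isOpen))) (u2 x y)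
    · rintro _ ⟨z, rfl⟩
      exact Subgroup.subset_closure ⟨π z, (map_pow π z p).symm⟩
    · rw [mem_comap, show π z = 1 from (QuotientGroup.eq_one_iff z).mpr hz]
      exact one_mem _
  · obtain ⟨a, ha⟩ := wild_rel (hq i).1 (hqP i) (hσ i) (hτ i) hn
    obtain ⟨k, hk⟩ := u1 N (π.comp ρ (σ i * τ i * (σ i)⁻¹ * (τ i ^ q i)⁻¹))
    have := eq_one_of_pow_of_coprime (Nat.Coprime.pow k a
      ((Nat.coprime_primes hp.out (hq i).1).mpr (hqp i).symm)) hk (by rw [← map_pow]; exact ha)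
    rw [← c1, ← mul_inv_eq_one, ← this]
    simp only [map_mul, map_inv, map_pow]
  · rw [← c3]
    exact hm i j hij _ (cyc_frob (not_mem_of_coprime (hqP i)
      ((Nat.coprime_primes (hq i).1 (hq j).1).mpr fun e => hij (hinj e))) (hσ i))
  · have e0 : f 1 = 0 := by simpa using f1 1 1
    refine add_structure q hinj hqp ψ P hqP τ hτ hτ' (fun g => f (π.comp ρ g))
      (fun g h => by rw [map_mul, f1]) (Filter.mem_of_superset hn fun g hg => ?_)
      (fun l Q hl hQ hlQ hcase u hu => ?_) g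
    · change f _ = 0
      rw [hg, e0]
    rcases hcase with rfl | ⟨k1, k2⟩
    · obtain ⟨a, ha⟩ := exists_conj hl hP₀ hlQ
      have := f2 _ (mem_map_of_mem π (mem_map_of_mem ρ (ha u hu)))
      rw [map_mul, map_mul, map_mul, map_mul, f1, f1, add_right_comm, ← f1, ← map_mul, ← map_mul,
        inv_mul_cancel, map_one, map_one, e0, zero_add] at this
      exact this
    · rw [MonoidHom.comp_apply, h2 l Q hl k1 k2 hQ hlQ u hu, map_one, e0]
  · rw [Fintype.card_fin]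
    exact (Nat.pow_le_pow_left (Nat.mul_le_mul_right _ hJ) _).trans (Nat.pow_le_pow_right
      (Nat.mul_pos Nat.card_pos (pow_pos hp.out.pos d)) (by omega))

theorem pow_criterion {d : ℕ} {q : Fin d → ℕ} {m : Matrix (Fin d) (Fin d) (ZMod p)}
    (hL : Linked p q m) (hq2 : ∀ i, ¬ q i ≡ 1 [MOD p ^ 2])
    (hsol : ¬ ∃ t X a w, Sys2 m t X a w) : PowFM p (Set.range q) := by
  intro U _ _ _ hU ρ hρ t1 t2
  haveI : IsAlgClosure ℚ (AlgebraicClosure ℚ) := AlgebraicClosure.instIsAlgClosure ℚ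
  exact pow_general hL hq2 hsol hU ρ.toMonoidHom ρ.continuous hρ t1
    fun l P hl l1 l2 hP h u hu => t2 l hl l1 (fun ⟨j, hj⟩ => l2 j hj) u ⟨P, hP, h, hu⟩

end Pool.Agent.MP_f68ac8_nt
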