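import Mathlib
import Pool.Agent.MP_f68ac8_nt.PH

namespace Pool.Agent.MP_f68ac8_nt.PowerfulHTOld

open Pool.Agent.MP_f68ac8_nt

theorem result (d K : ℕ) : ∃ C : ℝ, ∀ (p : ℕ) [Fact p.Prime], p ≠ 2 →
    1 - C / p ≤ setDens p d fun S => S.ncard = d ∧ PowHT p K S := by
  obtain ⟨P, hP, h⟩ := exists_poly3 (Fin d) (sep_prod K)
  refine dens_of_poly (fun p _ => PowHT p K) (((2 * K + 4).factorial : ℕ) * P)
    (mul_ne_zero (Nat.cast_ne_zero.mpr (Nat.factorial_ne_zero _)) hP) fun p hp _ m h0 => ?_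
  rw [map_mul, map_natCast, mul_ne_zero_iff, Ne, ZMod.natCast_eq_zero_iff,
    hp.out.dvd_factorial] at h0
  exact ph_criterion (by omega) (by omega) fun r t x c z b s hS => h0.2 (h p r m t x c z b s hS)

end Pool.Agent.MP_f68ac8_nt.PowerfulHTOld
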