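import Mathlib
import Pool.Agent.MP_f68ac8_nt.PowCrit
import Pool.Agent.MP_f68ac8_nt.Step

namespace Pool.Agent.MP_f68ac8_nt.PowerfulOld

open Pool.Agent.MP_f68ac8_nt

theorem result (d : ℕ) : ∃ C : ℝ, ∀ (p : ℕ) [Fact p.Prime], p ≠ 2 →
    1 - C / p ≤ setDens p d fun S => S.ncard = d ∧ PowFM p S := by
  obtain ⟨P, hP, h⟩ := exists_poly2 (ι := Fin d)
  refine dens_of_poly (fun p _ => PowFM p) P hP fun p _ hp m h0 q hq hq2 => ?_
  haveI := Fact.mk hp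
  exact pow_criterion hq hq2 fun ⟨t, X, a, w, hk⟩ => h0 (h p m t X a w hk)

end Pool.Agent.MP_f68ac8_nt.PowerfulOld
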