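import Mathlib
import Pool.Agent.MP_f68ac8_nt.PvAux
import Pool.Agent.MP_f68ac8_nt.EvRec

/-! The reciprocity law for matrices. -/

namespace Pool.Agent.MP_f68ac8_nt.Pv

open Ev

open NumberField Matrix Finset
open Pool.Agent.MP_14ad9d_nt.Full (Pr ord Tm tame Phi NearAt)
open scoped Pointwise Topology

theorem recO_stmt (p : ℕ) [Fact p.Prime] (hK : KKStmt p) (hM : MixStmt p) (hP : LocPStmt p)
    (hC : CoresStmt p) : RecOStmt p := by
  classical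
  intro K F _ _ _ hKF n D hD hxi f hf ξ κ hG β hβ0 hβ
  have hp : p.Prime := Fact.out
  have : NeZero p := ⟨hp.ne_zero⟩
  obtain ⟨hξ0, hκ, -⟩ := (hC K F hKF n D hD).2 ξ κ hG
  have h2 : 2 < p := hD.odd.1
  have hξ0' : ∀ i j, (ξ i j : F) ≠ 0 := fun i j => by simpa using hξ0 i j
  have hne : ∀ y : F, y ≠ 0 → (y : Qb) ≠ 0 := fun y hy h => hy (Subtype.ext h)
  have hfix : ∀ g ∈ F.fixingSubgroup, ∀ y : F, g (y : Qb) = y := fun g hg y =>
    (IntermediateField.mem_fixingSubgroup_iff _ _).mp hg _ y.2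
  refine Finset.sum_eq_zero fun i _ => Finset.sum_eq_zero fun j _ => ?_
  refine hM F (⟨xi p, hxi⟩ : F) h2 (prim_EvRec F hxi) _ _ (hξ0' i j) (hβ0 i j)
    fun v hv => Or.inr ⟨?_, ?_⟩
  · rw [Pool.Agent.MP_14ad9d_nt.Full.ord_eq_zero_iff v (hξ0 i j)]
    intro h
    have hpv : (p : 𝓞 F) ∈ v.asIdeal := not_not.mp hv
    obtain ⟨k, hk⟩ := hD.odd.2.2.1
    have hN : (D.N : 𝓞 F) ∈ v.asIdeal := by
      rw [hk, Nat.cast_mul]
      exact Ideal.mul_mem_right _ _ hpv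
    obtain ⟨u, w, e⟩ := hG.cop i j
    refine v.isPrime.ne_top ((Ideal.eq_top_iff_one _).2 ?_)
    rw [← e]
    exact Ideal.add_mem _ (Ideal.mul_mem_left _ _ h) (Ideal.mul_mem_left _ _ hN)
  · obtain ⟨P, hPm, hvP⟩ := over_EvRec F v
    have hpP : (p : OQ) ∈ P := by
      rw [← nat_under_EvRec F, ← hvP]
      exact not_not.mp hv
    refine (hP F hxi P v h2 hPm hpP hvP _ _ (hβ0 i j) (proot_pow p _)).2 fun g hgP hg => ?_
    rw [← hK.2.2.2.2.2.1 _ g (hne _ (hβ0 i j)) (hfix g hg _), hβ g hg,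
      hf P g ⟨hPm, hgP, hg⟩ hpP, Matrix.zero_apply]

end Pool.Agent.MP_f68ac8_nt.Pv
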