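import Mathlib
import Pool.Agent.MP_f68ac8_nt.NgAll

namespace Pool.Agent.MP_f68ac8_nt.QuadraticNat

open Pool.Agent.MP_f68ac8_nt Filter

theorem result : Tendsto (fun X : ℕ => ({m : ℤ | |m| ≤ X ∧ Squarefree m ∧
    ∃ a : AlgebraicClosure ℚ, a ^ 2 = m ∧ ¬ PowFM (MulAction.stabilizer GQ a)}.ncard : ℝ) / X)
    atTop (nhds 0) :=
  Nd.quad_all

end Pool.Agent.MP_f68ac8_nt.QuadraticNat
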