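import Mathlib
import Pool.Agent.MP_f68ac8_nt.ZmAux
import Pool.Agent.MP_f68ac8_nt.ZbMean
import Pool.Agent.MP_f68ac8_nt.ZbIt

/-! Rules for the lower densities of sets of tuples. -/

namespace Pool.Agent.MP_f68ac8_nt.Zk

open Ev Pv Sv Zv
open scoped commutatorElement
open NumberField Filter
open scoped Topology BigOperators

section
variable {K : Type} [Field K] [NumberField K]

lemma four_ZmTup {T : Ideal (𝓞 K) → Prop} {s : ℝ} {f g h k : Ideal (𝓞 K) → ℝ}
    (hf : Unit01 f) (hg : Unit01 g) (hh : Unit01 h) (hk : Unit01 k)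
    (H : ∀ q, T q → f q + g q ≤ h q + k q) :
    sMean T s f + sMean T s g ≤ sMean T s h + sMean T s k := by
  unfold sMean
  by_cases h0 : Summable fun q : {q // T q} => (Ideal.absNorm q.1 : ℝ) ^ (-s)
  · rw [← add_div, ← add_div, ← (summ_ZbMean hf h0).tsum_add (summ_ZbMean hg h0),
      ← (summ_ZbMean hh h0).tsum_add (summ_ZbMean hk h0)]
    refine div_le_div_of_nonneg_right (((summ_ZbMean hf h0).add (summ_ZbMean hg h0)).tsum_le_tsum
      (fun l => ?_) ((summ_ZbMean hh h0).add (summ_ZbMean hk h0)))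
      (tsum_nonneg fun l => by positivity)
    rw [← add_mul, ← add_mul]
    exact mul_le_mul_of_nonneg_right (H l l.2) (by positivity)
  · rw [tsum_eq_zero_of_not_summable h0]
    simp only [div_zero, le_refl]

lemma tfour_ZmTup (d : ℕ) : ∀ (T : ℕ → Ideal (𝓞 K) → Prop) s f g h k,
    Unit01 f → Unit01 g → Unit01 h → Unit01 k →
    (∀ q : Fin d → Ideal (𝓞 K), (∀ j : Fin d, T j (q j)) → f q + g q ≤ h q + k q) →
    tupMean d T s f + tupMean d T s g ≤ tupMean d T s h + tupMean d T s k := by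
  induction d with
  | zero => exact fun _ _ f g h k _ _ _ _ H => H _ fun j => j.elim0
  | succ d ih =>
    intro T s f g h k hf hg hh hk H
    exact four_ZmTup (fun q => tup_ZbMean d _ _ _ fun Q => hf _)
      (fun q => tup_ZbMean d _ _ _ fun Q => hg _) (fun q => tup_ZbMean d _ _ _ fun Q => hh _)
      (fun q => tup_ZbMean d _ _ _ fun Q => hk _)
      fun q hq => ih _ _ _ _ _ _ (fun Q => hf _) (fun Q => hg _) (fun Q => hh _) (fun Q => hk _)
        fun Q hQ => H _ fun j => Fin.cases hq (fun i => hQ i) j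

lemma ev_ZmTup (d : ℕ) : ∀ (φ : (Fin d → ℝ) → ℝ) a, Unit01 φ → a < iterInf d φ →
    ∀ᶠ s in itF d, a < φ s := by
  induction d with
  | zero =>
    intro φ a _ h
    refine Eventually.of_forall fun s => ?_
    rw [Subsingleton.elim s Fin.elim0]
    exact h
  | succ d ih =>
    intro φ a hφ h
    rw [ev_ZbIt]
    have h1 : ∀ᶠ s in 𝓝[>] (1 : ℝ), a < iterInf d fun L => φ (Fin.cons s L) :=
      eventually_lt_of_lt_liminf h (isBoundedUnder_of_eventually_ge
        (Eventually.of_forall fun s => (mem_ZbIt d _ fun L => hφ _).1))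
    exact h1.mono fun s hs => ih _ a (fun L => hφ _) hs

open Classical in
lemma ind_ZmTup {α : Type} (A : α → Prop) : Unit01 fun q => if A q then (1 : ℝ) else 0 :=
  fun q => by dsimp only; split_ifs <;> norm_num

lemma mono_ZmTup (d : ℕ) (T : ℕ → Ideal (𝓞 K) → Prop) (A B : (Fin d → Ideal (𝓞 K)) → Prop)
    (H : ∀ q, (∀ j : Fin d, T j (q j)) → A q → B q) : tupDens T d A ≤ tupDens T d B := by
  refine le_of_forall_lt_imp_le_of_dense fun a ha => ?_
  refine it_stmt.2.1 d _ a (fun s => tup_ZbMean d T s _ (ind_ZmTup B)) ?_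
  filter_upwards [ev_ZmTup d _ a (fun s => tup_ZbMean d T s _ (ind_ZmTup A)) ha] with s hs
  have h := tfour_ZmTup d T s _ _ _ _ (ind_ZmTup A) (ind_ZmTup A) (ind_ZmTup B) (ind_ZmTup A)
    fun q hq => by
      have h1 := H q hq
      by_cases h2 : A q
      · simp only [if_pos h2, if_pos (h1 h2), le_refl]
      · simp only [if_neg h2]
        split_ifs <;> norm_num
  linarith

lemma two_ZmTup (d : ℕ) (T : ℕ → Ideal (𝓞 K) → Prop) (A B C : (Fin d → Ideal (𝓞 K)) → Prop)
    (H : ∀ q, A q → B q → C q) : tupDens T d A + tupDens T d B - 1 ≤ tupDens T d C := by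
  refine le_of_forall_pos_le_add fun ε hε => ?_
  have h0 : tupDens T d A - ε / 2 + (tupDens T d B - ε / 2) - 1 ≤ tupDens T d C := by
    refine it_stmt.2.1 d _ _ (fun s => tup_ZbMean d T s _ (ind_ZmTup C)) ?_
    filter_upwards [ev_ZmTup d _ (tupDens T d A - ε / 2)
        (fun s => tup_ZbMean d T s _ (ind_ZmTup A)) (sub_lt_self _ (half_pos hε)),
      ev_ZmTup d _ (tupDens T d B - ε / 2)
        (fun s => tup_ZbMean d T s _ (ind_ZmTup B)) (sub_lt_self _ (half_pos hε))] with s h1 h2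
    have h3 : Unit01 fun _ : Fin d → Ideal (𝓞 K) => (1 : ℝ) := fun _ => ⟨zero_le_one, le_rfl⟩
    have h4 := (tup_ZbMean d T s _ h3).2
    have h := tfour_ZmTup d T s _ _ _ _ (ind_ZmTup A) (ind_ZmTup B) (ind_ZmTup C) h3
      fun q _ => by
        by_cases h5 : A q
        · by_cases h6 : B q
          · simp only [if_pos h5, if_pos h6, if_pos (H q h5 h6), le_refl]
          · simp only [if_pos h5, if_neg h6]
            split_ifs <;> norm_num
        · simp only [if_neg h5]
          split_ifs <;> norm_num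
    linarith
  linarith

lemma fin_ZmTup (d : ℕ) (T : ℕ → Ideal (𝓞 K) → Prop) {J : Type}
    (A : J → (Fin d → Ideal (𝓞 K)) → Prop) (e : J → ℝ) (h : ∀ j, 1 - e j ≤ tupDens T d (A j))
    (S : Finset J) (hS : S.Nonempty) :
    1 - ∑ j ∈ S, e j ≤ tupDens T d fun q => ∀ j ∈ S, A j q := by
  induction hS using Finset.Nonempty.cons_induction with
  | singleton a =>
    rw [Finset.sum_singleton]
    exact (h a).trans (mono_ZmTup d T _ _ fun q _ hq j hj => Finset.mem_singleton.1 hj ▸ hq)
  | cons a S ha _ ih =>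
    rw [Finset.sum_cons]
    have h1 := two_ZmTup d T (A a) (fun q => ∀ j ∈ S, A j q)
      (fun q => ∀ j ∈ Finset.cons a S ha, A j q) fun q h2 h3 j hj =>
        (Finset.mem_cons.1 hj).elim (fun h4 => h4 ▸ h2) (h3 j)
    linarith [h a]

variable {K' : Type} [Field K'] [NumberField K'] (φ : Ideal (𝓞 K') ≃ Ideal (𝓞 K))
  (hφ : ∀ q, Ideal.absNorm (φ q) = Ideal.absNorm q)

include hφ in
lemma eqv_ZmTup (T : Ideal (𝓞 K) → Prop) (s : ℝ) (f : Ideal (𝓞 K) → ℝ) :
    sMean (fun q => T (φ q)) s (fun q => f (φ q)) = sMean T s f := by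
  unfold sMean
  rw [← (φ.subtypeEquiv (p := fun q => T (φ q)) (q := T) fun _ => Iff.rfl).tsum_eq,
    ← (φ.subtypeEquiv (p := fun q => T (φ q)) (q := T) fun _ => Iff.rfl).tsum_eq]
  simp only [Equiv.subtypeEquiv_apply, hφ]

include hφ in
lemma teqv_ZmTup (d : ℕ) : ∀ (T : ℕ → Ideal (𝓞 K) → Prop) s (f : (Fin d → Ideal (𝓞 K)) → ℝ),
    tupMean d (fun j q => T j (φ q)) s (fun q => f fun j => φ (q j)) = tupMean d T s f := by
  induction d with
  | zero => exact fun _ _ f => congrArg f (Subsingleton.elim _ _)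
  | succ d ih =>
    intro T s f
    refine Eq.trans ?_ (eqv_ZmTup φ hφ (T 0) (s 0) fun q =>
      tupMean d (fun j => T (j + 1)) (Fin.tail s) fun Q => f (Fin.cons q Q))
    refine congrArg (sMean (fun q => T 0 (φ q)) (s 0)) (funext fun q => ?_)
    refine Eq.trans ?_ (ih (fun j => T (j + 1)) (Fin.tail s) fun Q => f (Fin.cons (φ q) Q))
    refine congrArg (tupMean d _ _) (funext fun Q => congrArg f (funext fun j => ?_))
    exact Fin.cases rfl (fun i => rfl) j

end

theorem tup_stmt : TupStmt := by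
  intro K _ _ d T
  refine ⟨mono_ZmTup d T, fun J _ _ A e h => ?_, fun K' _ _ φ hφ A => ?_⟩
  · exact (fin_ZmTup d T A e h Finset.univ Finset.univ_nonempty).trans
      (mono_ZmTup d T _ _ fun q _ hq j => hq j (Finset.mem_univ j))
  · unfold tupDens
    refine congrArg (iterInf d) (funext fun s => ?_)
    exact teqv_ZmTup φ hφ d T s fun q => @ite ℝ (A q) (Classical.propDecidable _) 1 0

end Pool.Agent.MP_f68ac8_nt.Zk
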