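import Mathlib
import Pool.Agent.MP_f68ac8_nt.ZoAux
import Pool.Agent.MP_f68ac8_nt.ZmTup
import Pool.Agent.MP_f68ac8_nt.ZcGlue

/-! Rules for the lower means over tuples. -/

namespace Pool.Agent.MP_f68ac8_nt.Zk

open Ev Pv Sv Zv
open scoped commutatorElement
open NumberField Filter
open scoped Topology BigOperators

section
variable {K : Type} [Field K] [NumberField K]

lemma slin_ZoAvg {I : Type} [Fintype I] (a : I → ℝ) {T : Ideal (𝓞 K) → Prop} {s : ℝ}
    {f : I → Ideal (𝓞 K) → ℝ} (hf : ∀ i, Unit01 (f i)) (H : ∀ q, T q → 0 ≤ ∑ i, a i * f i q) :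
    0 ≤ ∑ i, a i * sMean T s (f i) := by
  unfold sMean
  by_cases h0 : Summable fun q : {q // T q} => (Ideal.absNorm q.1 : ℝ) ^ (-s)
  · simp only [← mul_div_assoc, ← tsum_mul_left]
    rw [← Finset.sum_div, ← Summable.tsum_finsetSum
      fun i _ => (summ_ZbMean (hf i) h0).mul_left (a i)]
    refine div_nonneg (tsum_nonneg fun q => ?_) (tsum_nonneg fun l => by positivity)
    simp only [← mul_assoc]
    rw [← Finset.sum_mul]
    exact mul_nonneg (H q q.2) (by positivity)
  · rw [tsum_eq_zero_of_not_summable h0]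
    simp only [div_zero, mul_zero, Finset.sum_const_zero, le_refl]

lemma lin_ZoAvg {I : Type} [Fintype I] (a : I → ℝ) (d : ℕ) :
    ∀ (T : ℕ → Ideal (𝓞 K) → Prop) s (f : I → (Fin d → Ideal (𝓞 K)) → ℝ), (∀ i, Unit01 (f i)) →
    (∀ q : Fin d → Ideal (𝓞 K), (∀ j : Fin d, T j (q j)) → 0 ≤ ∑ i, a i * f i q) →
    0 ≤ ∑ i, a i * tupMean d T s (f i) := by
  induction d with
  | zero => exact fun _ _ f _ H => H _ fun j => j.elim0
  | succ d ih =>
    intro T s f hf H
    exact slin_ZoAvg a (fun i q => tup_ZbMean d _ _ _ fun Q => hf i _) fun q hq =>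
      ih _ _ _ (fun i Q => hf i _) fun Q hQ => H _ fun j => Fin.cases hq (fun i => hQ i) j

lemma one_ZoAvg {α : Type} : Unit01 fun _ : α => (1 : ℝ) := fun _ => ⟨zero_le_one, le_rfl⟩

variable {d : ℕ} {T : ℕ → Ideal (𝓞 K) → Prop} {f g h : (Fin d → Ideal (𝓞 K)) → ℝ}

lemma ev_ZoAvg (hf : Unit01 f) {a δ : ℝ} (h : a ≤ tupAvg T d f) (hδ : 0 < δ) :
    ∀ᶠ s in itF d, a - δ < tupMean d T s f :=
  ev_ZmTup d _ _ (fun s => tup_ZbMean d T s _ hf) ((sub_lt_self _ hδ).trans_le h)

lemma le_ZoAvg (hf : Unit01 f) {a : ℝ} (M : ℝ) (hM : 0 < M)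
    (h : ∀ δ, 0 < δ → ∀ᶠ s in itF d, a - M * δ ≤ tupMean d T s f) : a ≤ tupAvg T d f := by
  refine le_of_forall_pos_le_add fun ε hε => sub_le_iff_le_add.1 ?_
  have := it_stmt.2.1 d _ _ (fun s => tup_ZbMean d T s _ hf) (h (ε / M) (div_pos hε hM))
  rwa [mul_div_cancel₀ _ hM.ne'] at this

end

theorem avg_stmt : AvgStmt := by
  intro K _ _ d T
  refine ⟨fun f g c hf hg hc H => ?_, fun f g h hf hg hh H => ?_, fun f hf => ?_,
    fun I _ A v β f hf hv h1 hA H => ?_, fun K' _ _ φ hφ f => ?_⟩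
  · refine sub_le_iff_le_add.1 (le_ZoAvg hg 1 one_pos fun δ hδ => ?_)
    filter_upwards [ev_ZoAvg hf (le_refl (tupAvg T d f)) hδ] with s hs
    have h2 := lin_ZoAvg ![-1, 1, c] d T s ![f, g, fun _ => 1]
      (fun i => by fin_cases i <;> [exact hf; exact hg; exact one_ZoAvg]) fun q hq => by
        have := H q hq
        simp only [Fin.sum_univ_three, Matrix.cons_val]
        linarith
    simp only [Fin.sum_univ_three, Matrix.cons_val] at h2
    have h3 := mul_le_mul_of_nonneg_left (tup_ZbMean d T s _ one_ZoAvg).2 hc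
    linarith
  · refine sub_le_iff_le_add'.1 (le_ZoAvg hh 2 two_pos fun δ hδ => ?_)
    filter_upwards [ev_ZoAvg hf (le_refl (tupAvg T d f)) hδ,
      ev_ZoAvg hg (le_refl (tupAvg T d g)) hδ] with s h1 h2
    have h3 := tfour_ZmTup d T s _ _ _ _ hf hg one_ZoAvg hh H
    have h4 := (tup_ZbMean d T s _ one_ZoAvg).2
    linarith
  · refine le_ZoAvg hf 1 one_pos fun δ hδ => ?_
    exact (Zv.mean_stmt K d T).2.2.2 f _ hf (by linarith)
  · have hf' : Unit01 fun q => 1 - f q := fun q => ⟨sub_nonneg.2 (hf q).2, sub_le_self _ (hf q).1⟩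
    have hv' : 0 ≤ ∑ i, v i := Finset.sum_nonneg fun i _ => hv i
    refine le_ZoAvg hf' (1 + ∑ i, v i) (by linarith) fun δ hδ => ?_
    filter_upwards [ev_ZoAvg one_ZoAvg h1 hδ,
      eventually_all.2 fun i => ev_ZoAvg (ind_ZmTup (A i)) (hA i) hδ] with s h2 h3
    have h4 := lin_ZoAvg (I := Option (Option I))
      (fun o => o.elim 1 fun o => o.elim (∑ i, v i - 1) fun i => -v i) d T s
      (fun o => o.elim (fun q => 1 - f q) fun o => o.elim (fun _ => 1)
        fun i q => @ite ℝ (A i q) (Classical.propDecidable _) 1 0)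
      (by
        rintro (_ | _ | i)
        exacts [hf', one_ZoAvg, ind_ZmTup (A i)]) fun q hq => by
        obtain ⟨S, h5, h6⟩ := H q hq
        simp only [Fintype.sum_option, Option.elim]
        have h7 : ∑ i ∈ S, v i ≤ ∑ i, (v i + -v i * @ite ℝ (A i q) (Classical.propDecidable _) 1 0) :=
          (Finset.sum_congr rfl fun i hi => by rw [if_neg (h5 i hi), mul_zero, add_zero]).le.trans
            (Finset.sum_le_sum_of_subset_of_nonneg (Finset.subset_univ S) fun i _ _ => by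
              have := hv i
              split_ifs <;> linarith)
        rw [Finset.sum_add_distrib] at h7
        linarith
    simp only [Fintype.sum_option, Option.elim] at h4
    have h5 := mul_le_mul_of_nonneg_left (tup_ZbMean d T s _ one_ZoAvg).2 hv'
    have h6 : ∑ i, -v i * tupMean d T s
        (fun q => @ite ℝ (A i q) (Classical.propDecidable _) 1 0) ≤
        ∑ i, (v i * β i + v i * δ - v i) := Finset.sum_le_sum fun i _ => by
      have := mul_le_mul_of_nonneg_left (h3 i).le (hv i)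
      linarith
    rw [Finset.sum_sub_distrib, Finset.sum_add_distrib, ← Finset.sum_mul] at h6
    linarith
  · exact congrArg (iterInf d) (funext fun s => teqv_ZmTup φ hφ d T s f)

theorem iidF_stmt (p : ℕ) [Fact p.Prime] (hA : AvgStmt) (hP : PrimStmt p) (hI : IidStmt p)
    (hQ : PotStmt p) : IidFStmt p := by
  classical
  intro K F _ _ hB hK hc d
  have ht : ∀ j : ℕ, Tame p F ((fun _ => (1 : GK K)) j) := fun _ =>
    ⟨1, (Fact.out : p.Prime).not_dvd_one, by simp⟩
  obtain ⟨-, -, a3, a4, -⟩ := hA K d fun _ => Typ p K F 1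
  have key : ∀ (g : (Fin d → Fin d → ZMod p) → ℝ) (B : (Fin d → Ideal (𝓞 K)) → Prop),
      (∀ r, 0 ≤ g r) → (∀ r r', RowEq r r' → g r = g r') →
      (∀ r (u : Fin d → (ZMod p)ˣ), g (fun i j => r i j * u j) = g r) →
      (∀ q, Function.Injective q →
        ¬ 1 ≤ g (fun i j => lk p (Ideal.absNorm (q i)) (Ideal.absNorm (q j))) → B q) →
      1 - 𝔼 r, g r ≤ tupDens (fun _ => Typ p K F 1) d B := fun g B h1 h2 h3 h4 => by
    refine (((hQ K F hB _ ht d).1 _ _ (hI K F hB hK hc d g h1 h2 h3)).trans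
      (a3 _ (ind_ZmTup _))).trans (mono_ZmTup d _ _ B ?_)
    rintro q - ⟨c, c1, c2, c3⟩
    refine h4 q (inj_ZcGlue c1 c2) ?_
    have e : ∀ j : Fin d, Ideal.absNorm (q j) = (c j).l := fun j =>
      c2 j ▸ ((hP K F hB hK hc).2.2.2.2 (c j) (c1.1 j j.2).1).2.1
    simpa only [e] using c3
  have h0 : ∀ B : (Fin d → Ideal (𝓞 K)) → Prop, (∀ q, Function.Injective q → B q) →
      1 ≤ tupDens (fun _ => Typ p K F 1) d B := fun B hB => by
    simpa using key (fun _ => 0) B (fun _ => le_rfl) (fun _ _ _ => rfl) (fun _ _ => rfl)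
      fun q hq _ => hB q hq
  refine ⟨h0 _ fun _ h => h, fun f hf h1 h2 => ?_⟩
  have h3 := a4 (Finset.univ.image f)
    (fun i q => f (fun i j => lk p (Ideal.absNorm (q i)) (Ideal.absNorm (q j))) ≠ i)
    (fun i => i) (fun i => 𝔼 r, if f r = i then 1 else 0)
    (fun q => f fun i j => lk p (Ideal.absNorm (q i)) (Ideal.absNorm (q j))) (fun q => hf _)
    (fun i => by
      obtain ⟨r, -, hr⟩ := Finset.mem_image.1 i.2
      exact hr ▸ (hf r).1)
    (by simpa only [tupDens, tupAvg, if_true] using h0 (fun _ => True) fun _ _ => trivial)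
    (fun i => key _ _ (fun r => by split_ifs <;> norm_num) (fun r r' e => by rw [h1 r r' e])
      (fun r u => by rw [h2 r u]) fun q _ h e => h (by rw [if_pos e]))
    fun q _ => ⟨{⟨_, Finset.mem_image_of_mem f (Finset.mem_univ _)⟩},
      fun i hi => by rw [Finset.mem_singleton.1 hi]; exact fun h => h rfl,
      by rw [Finset.sum_singleton]⟩
  refine le_trans (le_of_eq (congrArg (1 - ·) ?_)) h3
  simp only [Finset.mul_expect]
  rw [← Finset.expect_sum_comm]
  refine Finset.expect_congr rfl fun r _ => ?_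
  rw [Finset.sum_eq_single ⟨f r, Finset.mem_image_of_mem f (Finset.mem_univ r)⟩
    (fun i _ hi => by rw [if_neg fun e => hi (Subtype.ext e.symm), mul_zero])
    fun h => absurd (Finset.mem_univ _) h, if_pos rfl, mul_one]

end Pool.Agent.MP_f68ac8_nt.Zk
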