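import Mathlib
import Pool.Agent.MP_f68ac8_nt.ZsAux
import Pool.Agent.MP_f68ac8_nt.ZsCore
import Pool.Agent.MP_f68ac8_nt.ZbCheb

/-! Equidistribution of generators of decomposition groups. -/

namespace Pool.Agent.MP_f68ac8_nt.Zq

open Ev Pv Sv Zv Zk
open Qv (conj_QvStep nrm_QvStep le_QvStep)
open NumberField Filter Pool.Agent.MP_d64882_nt
open scoped Topology Pointwise BigOperators

open Classical in
lemma dens_ZsCheb {p : ℕ} [Fact p.Prime] (hC : Qv.CountStmt p) (hV : Qv.LocVStmt p)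
    (hM : IdMeanStmt) {K F : IntermediateField ℚ Qb} [NumberField K] [NumberField F]
    (hB : Fb p K F) {t : GQ} (ht : t ∈ K.fixingSubgroup) (L : IntermediateField ℚ Qb)
    [NumberField L] [IsGalois ℚ L] (hker : (res L).ker ≤ HH p F) (w : (L ≃ₐ[ℚ] L) → ℝ)
    (hw : ∀ x y, Subgroup.zpowers x = Subgroup.zpowers y → Subgroup.zpowers x ⊔
      (HH p F).map (res L) = Subgroup.zpowers (res L t) ⊔ (HH p F).map (res L) → w y = w x) {α : ℝ}
    (hα : (∑ x, if Subgroup.zpowers x ⊔ (HH p F).map (res L) =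
        Subgroup.zpowers (res L t) ⊔ (HH p F).map (res L) then w x else 0) =
      α * ∑ x, if Subgroup.zpowers x ⊔ (HH p F).map (res L) =
        Subgroup.zpowers (res L t) ⊔ (HH p F).map (res L) then (1 : ℝ) else 0)
    {f : Ideal (𝓞 K) → ℝ} (f0 : ∀ q, 0 ≤ f q) (f1 : ∀ q, f q ≤ 1) (E : Finset ℕ)
    (h : ∀ l ∉ E, l.Prime → ∀ P : Ideal OQ, P.IsMaximal → (l : OQ) ∈ P → ∀ σ, IsFrob l P σ →
      Ty p F t σ → w (res L σ) ≤ f (P.under (𝓞 K))) : α ≤ idMean (Typ p K F t) f := by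
  obtain ⟨E', hE'⟩ := (hV F).1
  choose sc hsc using AlgEquiv.restrictNormalHom_surjective (F := ℚ) (K₁ := L) Qb
  have hsc' : ∀ x, res L (sc x) = x := hsc
  have hfix : L.fixingSubgroup ≤ HH p F := fun g hg =>
    hker ((res_eq_one L).2 ((IntermediateField.mem_fixingSubgroup_iff _ _).1 hg))
  obtain ⟨N, hN0, hN⟩ := hC K F hB.le hB.stab hB.xi t ht L (le_QvStep (hB.hh ▸ hfix)) sc hsc'
  choose P hP hlP using fun (l : ℕ) (hl : l.Prime) => exists_maximal_mem (Ω := Qb) hl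
  choose σ hσ using fun (l : ℕ) (hl : l.Prime) =>
    @exists_frob _ _ _ _ (P l hl) (hP l hl) _ hl (hlP l hl)
  set H := (HH p F).map (res L)
  have main : ∀ u : (L ≃ₐ[ℚ] L) → ℝ, (∀ x y, Subgroup.zpowers x = Subgroup.zpowers y →
      Subgroup.zpowers x ⊔ H = Subgroup.zpowers (res L t) ⊔ H → u y = u x) →
      Dens (fun l => (N : ℝ)⁻¹ * if h : l.Prime then ∑ g : L ≃ₐ[ℚ] L,
        if Ty p F t ((sc g)⁻¹ * σ l h * sc g) then u (res L ((sc g)⁻¹ * σ l h * sc g)) else 0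
        else 0)
        ((N : ℝ)⁻¹ * ∑ x : L ≃ₐ[ℚ] L,
          if Subgroup.zpowers x ⊔ H = Subgroup.zpowers (res L t) ⊔ H then u x else 0) := by
    intro u hu
    have e1 : ∀ l hl, (P l hl).under ℤ = Ideal.span {(l : ℤ)} := fun l hl =>
      under_int_eq (hP := hP l hl) hl (hlP l hl)
    have h1 := (frob_dens (fun l hl => (P l hl).under (𝓞 L))
      (fun l hl => ⟨(hP l hl).isPrime.under _, ⟨by rw [Ideal.under_under, e1]⟩⟩)
      (fun l hl => res L (σ l hl)) (fun l hl x => ?_)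
      (fun x => if Subgroup.zpowers x ⊔ H = Subgroup.zpowers (res L t) ⊔ H then u x else 0)
      fun x y hxy => ?_).mul (N : ℝ)⁻¹
    · refine h1.congr ∅ fun l _ => ?_
      congr 1
      by_cases hl : l.Prime
      · rw [dif_pos hl, dif_pos hl]
        refine Finset.sum_congr rfl fun g _ => ?_
        have e2 : g⁻¹ * res L (σ l hl) * g = res L ((sc g)⁻¹ * σ l hl * sc g) := by
          rw [map_mul, map_mul, map_inv, hsc']
        rw [e2]
        exact if_congr (ty_FvStep p F L hker t _) rfl rfl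
      · rw [dif_neg hl, dif_neg hl]
    · rw [Ideal.under_under, e1, Int.card_ideal_quot]
      rw [Ideal.mem_comap, map_sub, map_pow]
      exact (res_smul L _ x).symm ▸ hσ l hl _
    · rw [← hxy]
      split_ifs with hx
      exacts [(hu x y hxy hx).symm, rfl]
  have c0 : (N : ℝ) ≠ 0 := Nat.cast_ne_zero.mpr hN0.ne'
  have c2 : (∑ x : L ≃ₐ[ℚ] L,
      if Subgroup.zpowers x ⊔ H = Subgroup.zpowers (res L t) ⊔ H then (1 : ℝ) else 0) ≠ 0 := by
    refine (Finset.sum_pos' (fun x _ => ?_) ⟨res L t, Finset.mem_univ _, ?_⟩).ne'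
    · split_ifs
      exacts [zero_le_one, le_rfl]
    · rw [if_pos rfl]
      exact one_pos
  refine le_trans (le_of_eq ?_) ((hM K).2 (Typ p K F t) f ?_ f0 f1 _ _ _ _ (E ∪ E') (main w hw)
    (main (fun _ => 1) fun _ _ _ _ => rfl)
    (mul_ne_zero (inv_ne_zero c0) c2) (fun l hl => ?_) fun l hlE hl => ?_)
  · rw [mul_div_mul_left _ _ (inv_ne_zero c0), eq_div_iff c2, hα]
  · rintro q ⟨Q, hQ, rfl, -⟩
    exact Ideal.isMaximal_comap_of_isIntegral_of_isMaximal Q
  · rw [dif_neg hl, dif_neg hl, mul_zero]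
    exact ⟨rfl, rfl⟩
  · rw [Finset.mem_union, not_or] at hlE
    have h1 := hN l (P l hl) (σ l hl) hl (hE' l hlE.2 hl) (hP l hl) (hlP l hl) (hσ l hl)
    rw [dif_pos hl, dif_pos hl, inv_mul_le_iff₀ (by positivity), inv_mul_eq_iff_eq_mul₀ c0,
      ← h1 f, ← h1 fun _ => 1]
    refine ⟨Finset.sum_le_sum fun g _ => ?_, rfl⟩
    split_ifs with hty
    · have h2 := frob_conj_EvRec (sc g)⁻¹ (hσ l hl)
      rw [inv_inv] at h2
      exact h l hlE.1 hl _ (smul_max_EvRec _ (hP l hl)) (smul_nat_EvRec _ (hlP l hl)) _ h2 hty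
    · exact le_rfl

theorem cheb_stmt (p : ℕ) [Fact p.Prime] (H : Core p) (hC : Qv.CountStmt p) : ChebStmt p := by
  classical
  intro K F _ _ hB t htame N e φ _ hNn hNF he hpow hb hinv hconj hSh η hη hη2
  obtain ⟨u, hu, huN⟩ := (mem_nhds_subtype _ _ _).1 hNn
  obtain ⟨L, _, _, hs⟩ := exists_level (Ω := Qb) (s := u ∩ K.fixingSubgroup)
    (inter_mem hu ((IntermediateField.fixingSubgroup_isOpen K).mem_nhds K.fixingSubgroup.one_mem))
  have : NumberField L := {}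
  have : IsGalois ℚ L := {}
  obtain ⟨E, hE⟩ := (H.locV L).1
  obtain ⟨m, hm, htm⟩ := htame
  choose sc hsc using AlgEquiv.restrictNormalHom_surjective (F := ℚ) (K₁ := L) Qb
  have hsc' : ∀ x, res L (sc x) = x := hsc
  have hFK := IntermediateField.fixingSubgroup_le hB.le
  have hker : (res L).ker ≤ HH p F := fun g hg => hB.hh ▸ hNF ⟨g, (hs g hg).2⟩ (huN (hs g hg).1)
  have key : ∀ g : GK K, φ (toK K (sc (res L g.1))) = φ g := fun g => by
    obtain ⟨k1, k2⟩ := hs (sc (res L g.1) * g.1⁻¹) (by rw [map_mul, map_inv, hsc', mul_inv_cancel])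
    have k3 : sc (res L g.1) ∈ K.fixingSubgroup := (Subgroup.mul_mem_cancel_right _ (inv_mem g.2)).1 k2
    rw [← hinv ⟨_, k2⟩ (huN k1) g]
    congr 1
    exact Subtype.ext (by rw [toK_val k3]; simp)
  have keyp : ∀ (g : GK K) (a : ℕ), φ (toK K (sc (res L g.1 ^ a))) = φ (g ^ a) := fun g a => by
    rw [← map_pow]
    exact key (g ^ a)
  have hT : ∀ x, Subgroup.zpowers x ⊔ (HH p F).map (res L) =
      Subgroup.zpowers (res L t.1) ⊔ (HH p F).map (res L) → ∃ g : GK K, res L g.1 = x ∧ Ty p F t g :=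
    fun x hx => by
      have h1 := (ty_FvStep p F L hker t (sc x)).1 (by rw [hsc']; exact hx)
      exact ⟨⟨sc x, (pow_ty hB h1 htm).1⟩, hsc' x, h1⟩
  have hper : ∀ x, Subgroup.zpowers x ⊔ (HH p F).map (res L) =
      Subgroup.zpowers (res L t.1) ⊔ (HH p F).map (res L) → ∀ a a', a ≡ a' [MOD e] →
      φ (toK K (sc (x ^ a))) = φ (toK K (sc (x ^ a'))) := fun x hx a a' h => by
    obtain ⟨g, rfl, -⟩ := hT x hx
    have h1 : ∀ b, φ (g ^ b) = φ (g ^ (b % e)) := fun b => by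
      conv_lhs => rw [← Nat.div_add_mod b e, pow_add, pow_mul]
      exact hinv _ (pow_mem (hpow g) _) _
    rw [keyp, keyp, h1 a, h1 a', h]
  have hz := zero_ZbCheb (φ := fun x => φ (toK K (sc x))) he ((HH p F).map (res L))
    (Subgroup.le_normalizer_map (res L) ⟨t.1, hB.hh ▸ nrm_QvStep hB.stab t.2, rfl⟩) hper
    fun x hx => by
      obtain ⟨g, rfl, hg⟩ := hT x hx
      obtain ⟨g₀, h0, ε, hε, h⟩ := hSh g hg
      refine ⟨res L g₀.1, ⟨g₀.1, hB.hh ▸ h0, rfl⟩, ε, hε, ?_⟩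
      rintro _ ⟨k, hk, rfl⟩
      have hk' : k ∈ F.fixingSubgroup := hB.hh ▸ hk
      have e1 := key (g₀ * (g * ⟨k, hFK hk'⟩))
      have e2 := key (g * ⟨k, hFK hk'⟩)
      simp only [Subgroup.coe_mul, map_mul] at e1 e2
      rw [e1, e2]
      exact h ⟨k, hFK hk'⟩ hk'
  have dir : ∀ c : ℂ, ‖c‖ = 1 → ∀ᶠ s in 𝓝[>] (1 : ℝ),
      ∀ (U : Finset (Ideal (𝓞 K))) (x : Ideal (𝓞 K) → Co),
        (∀ q ∈ U, Typ p K F t q ∧ CoAt p F t q (x q)) → 1 - η ≤ mass (Typ p K F t) s U →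
        -(5 / 2 * η) ≤ (c * ∑ q : U, wt s U q • 𝔼 a : Exn e, φ (toK K (x q).σ ^ (a.1 : ℕ))).re := by
    intro c hc
    let ψ : GK K → ℝ := fun g => (c * 𝔼 a : Exn e, φ (g ^ (a.1 : ℕ))).re
    have hψ : ∀ g, |ψ g| ≤ 1 := fun g => (Complex.abs_re_le_norm _).trans (by
      rw [norm_mul, hc, one_mul]
      exact norm_ZbCheb fun a => hb _)
    let S : Ideal (𝓞 K) → Set ℝ := fun q => {r | ∃ x, CoAt p F t q x ∧ r = (1 + ψ (toK K x.σ)) / 2}
    have S0 : ∀ q, ∀ r ∈ S q, 0 ≤ r := by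
      rintro q _ ⟨x, -, rfl⟩
      linarith [(abs_le.1 (hψ (toK K x.σ))).1]
    have f0 : ∀ q, 0 ≤ sInf (S q) := fun q => Real.sInf_nonneg (S0 q)
    have fle : ∀ q x, CoAt p F t q x → sInf (S q) ≤ (1 + ψ (toK K x.σ)) / 2 := fun q x hx =>
      csInf_le ⟨0, S0 q⟩ ⟨x, hx, rfl⟩
    have f1 : ∀ q, sInf (S q) ≤ 1 := fun q => by
      rcases (S q).eq_empty_or_nonempty with h | ⟨_, x, hx, rfl⟩
      · rw [h, Real.sInf_empty]
        exact zero_le_one
      · linarith [fle q x hx, (abs_le.1 (hψ (toK K x.σ))).2]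
    have hd := dens_ZsCheb hC H.locV H.mean hB t.2 L hker
      (fun x => (1 + (c * 𝔼 a : Exn e, φ (toK K (sc (x ^ (a.1 : ℕ))))).re) / 2)
      (fun x y hxy hx => by rw [gen_ZbCheb (φ := fun x => φ (toK K (sc x))) he hxy (hper x hx)])
      (α := 1 / 2) ?_ f0 f1 (insert p E) fun l hl hp P hP hlP σ hσ hty => ?_
    · filter_upwards [an_ZbCheb f0 f1 hd hη hη2] with s h U x hU hm
      refine (h U (fun q => ψ (toK K (x q).σ)) (fun q hq => ⟨(hU q hq).1, fle q _ (hU q hq).2⟩)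
        hm).trans (le_of_eq ?_)
      rw [Finset.mul_sum, Complex.re_sum]
      refine Finset.sum_congr rfl fun q _ => ?_
      rw [mul_smul_comm, Complex.smul_re, smul_eq_mul]
    · have h1 := congrArg (fun z => (c * z).re / 2) hz
      simp only [mul_zero, Complex.zero_re, zero_div] at h1
      rw [Finset.mul_sum, Complex.re_sum, Finset.sum_div] at h1
      refine Eq.trans ?_ ((congrArg (_ + ·) h1).trans (add_zero _))
      rw [Finset.mul_sum, ← Finset.sum_add_distrib]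
      refine Finset.sum_congr rfl fun x _ => ?_
      split_ifs
      · ring
      · simp
    · rw [Finset.mem_insert, not_or] at hl
      have hLN : ∀ g : GQ, g ∈ L.fixingSubgroup → res L g = 1 := fun g hg =>
        (res_eq_one L).2 ((IntermediateField.mem_fixingSubgroup_iff _ _).1 hg)
      obtain ⟨s1, s2⟩ := pow_ty hB hty htm
      obtain ⟨τ, k, hok⟩ := (H.co K F hB).1 l P σ hp hl.1 hP hlP
        (fun g hg => hB.hh ▸ hker (hLN g (hE l hl.2 hp P hP hlP hg))) hσ s1 ⟨m, hm, s2⟩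
      refine le_csInf ⟨_, _, ⟨hok, hty, rfl⟩, rfl⟩ ?_
      rintro _ ⟨x, ⟨x1, -, x3⟩, rfl⟩
      obtain ⟨g, hg, hgP⟩ := trans_rel_EvRec K hP x1.max x3.symm
      have hlx : (l : OQ) ∈ x.P := hgP ▸ smul_nat_EvRec g hlP
      have el : x.l = l := by
        have h1 := (under_int_eq (hP := x1.max) x1.prime x1.mem).symm.trans
          (under_int_eq (hP := x1.max) hp hlx)
        rw [Ideal.span_singleton_eq_span_singleton, Int.associated_iff_natAbs] at h1
        simpa using h1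
      have h2 := frob_conj_EvRec g hσ
      rw [← hgP] at h2
      have h3 : x.σ * (g * σ * g⁻¹)⁻¹ ∈ x.P.inertia GQ := fun y => by
        have := x.P.sub_mem (el ▸ x1.frob ((g * σ * g⁻¹)⁻¹ • y)) (h2 ((g * σ * g⁻¹)⁻¹ • y))
        rw [smul_inv_smul, sub_sub_sub_cancel_right, ← mul_smul] at this
        exact this
      have h4 : res L x.σ = res L (g * σ * g⁻¹) := by
        have := hLN _ (hE l hl.2 hp x.P x1.max hlx h3)
        rwa [map_mul, map_inv, mul_inv_eq_one] at this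
      have h5 : ∀ a : ℕ, φ (toK K (sc (res L σ ^ a))) = φ (toK K x.σ ^ a) := fun a => by
        have e1 := keyp (toK K x.σ) a
        have e2 := keyp ⟨σ, s1⟩ a
        have e3 := keyp (⟨g, hg⟩ * ⟨σ, s1⟩ * ⟨g, hg⟩⁻¹) a
        rw [toK_val x1.inG, h4] at e1
        rw [conj_pow, hconj] at e3
        simp only [Subgroup.coe_mul, Subgroup.coe_inv] at e2 e3
        rw [e2, ← e1, e3]
      simp only [ψ, h5, le_refl]
  filter_upwards [dir 1 norm_one, dir (-1) (by simp), dir Complex.I Complex.norm_I,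
    dir (-Complex.I) (by simp)] with s h1 h2 h3 h4 U x hU hm
  have a1 := h1 U x hU hm
  have a2 := h2 U x hU hm
  have a3 := h3 U x hU hm
  have a4 := h4 U x hU hm
  generalize (∑ q : U, wt s U q • 𝔼 a : Exn e, φ (toK K (x q).σ ^ (a.1 : ℕ))) = z at *
  simp only [one_mul, neg_mul, Complex.neg_re, Complex.I_mul_re, neg_neg] at a1 a2 a3 a4
  refine (pow_le_pow_iff_left₀ (norm_nonneg _) (by positivity) two_ne_zero).1 ?_
  rw [Complex.sq_norm, Complex.normSq_apply]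
  nlinarith

end Pool.Agent.MP_f68ac8_nt.Zq
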