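import Mathlib
import Pool.Agent.MP_f68ac8_nt.ZsAux
import Pool.Agent.MP_f68ac8_nt.ZmEqP
import Pool.Agent.MP_f68ac8_nt.ZmEqa

/-! Equidistribution. -/

namespace Pool.Agent.MP_f68ac8_nt.Zq

open Ev Pv Sv Zv Zk
open NumberField Filter
open scoped commutatorElement Topology BigOperators

theorem eqP_stmt (p : ℕ) [Fact p.Prime] (hP : PrimStmt p) (hG : GenPStmt p) (hC : ChebStmt p) (hF : FcStmt) (hI : FincStmt) : EqPStmt p := by
  intro K F _ _ hB hK hc₀ H _ _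
  obtain ⟨-, hP2, -⟩ := hP K F hB hK hc₀
  obtain ⟨hG1, -, hG3, -⟩ := hG K F hB hK hc₀
  have hp : p.Prime := Fact.out
  have g1 : (GF K F).Normal := ⟨fun h hh g => hB.nrm g h.1 hh⟩
  have g2 : (GF K F : Set (GK K)) ∈ 𝓝 1 :=
    (continuous_subtype_val.continuousAt (x := (1 : GK K))).preimage_mem_nhds
      (F.fixingSubgroup_isOpen.mem_nhds (one_mem _))
  have a1 : 0 < Nat.card H := Nat.card_pos
  have a2 : 0 < p - 1 := Nat.sub_pos_of_lt hp.one_lt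
  obtain ⟨e, e1, e2, e3, e4⟩ : ∃ e, 1 < e ∧ p ∣ e ∧ Nat.card H ∣ e ∧
      ∀ g : GK K, g ^ e ∈ GF K F := by
    refine ⟨p * (Nat.card H * (p - 1)),
      lt_of_lt_of_le hp.one_lt (Nat.le_mul_of_pos_right _ (by positivity)), dvd_mul_right _ _,
      (dvd_mul_right _ _).mul_left _, fun g => ?_⟩
    rw [← mul_assoc, pow_mul]
    exact hP2 _
  refine ⟨e, e1, e2, fun η₀ hη₀ => ?_⟩
  obtain ⟨η, hη, hη2, hη3⟩ : ∃ η : ℝ, 0 < η ∧ η ≤ 1 / 2 ∧ 4 * η ≤ η₀ :=
    ⟨min (η₀ / 4) (1 / 2), by positivity, min_le_right _ _, by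
      linarith [min_le_left (η₀ / 4) (1 / 2)]⟩
  refine ⟨η, hη, fun Q hQ hc t ht => ?_⟩
  choose c hc1 hc2 using hc
  have hr : (Set.range fun j : Q => pr K (c j.1 j.2)) = Q := by
    ext q
    constructor
    · rintro ⟨j, rfl⟩
      simp only [hc2]
      exact j.2
    · intro hq
      exact ⟨⟨q, hq⟩, hc2 q hq⟩
  have : Finite Q := hQ.to_subtype
  have hfin := (hI (GK K) H {N | AdmP p Q N} (Set.range fun j : Q => toK K (c j.1 j.2).τ)
    (Set.finite_range _) (fun N h N' h' => (hG1 Q).2 N N' h h')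
    (fun N h => hG3 Q (fun j => c j.1 j.2) (fun j => hc1 j.1 j.2) N (by rw [hr]; exact h))).1
  have key : ∀ C : Subgroup (GK K × H),
      (∃ N, AdmP p Q N ∧ ∀ g ∈ N, (g, 1) ∈ C) → ∀ κ : H → ZMod p,
      ∀ᶠ s in 𝓝[>] (1 : ℝ), (∀ g, ∃ h, (g, h) ∈ C) → Shf (C.map (MonoidHom.snd _ _)) κ →
        ∀ (U : Finset (Ideal (𝓞 K))) (x : Ideal (𝓞 K) → Co),
          (∀ q ∈ U, Typ p K F t q ∧ CoAt p F t q (x q)) → 1 - η ≤ mass (Typ p K F t) s U →
          ‖∑ q : U, wt s U q • 𝔼 a : Exn e, FC C (fun _ => ())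
            (fun h _ => Av (C.map (MonoidHom.snd _ _)) κ h)
              (toK K (x q).σ ^ (a.1 : ℕ))‖ ≤ 4 * η := by
    rintro C ⟨N, hNa, hNC⟩ κ
    by_cases hs : ∀ g, ∃ h, (g, h) ∈ C
    swap
    · exact Eventually.of_forall fun s h => absurd h hs
    by_cases hSh : Shf (C.map (MonoidHom.snd _ _)) κ
    swap
    · exact Eventually.of_forall fun s _ h => absurd h hSh
    obtain ⟨f1, f2, -⟩ := hF (GK K) H Unit C 1 (fun _ _ => 0) hs (fun _ _ => by simp)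
      fun _ _ _ => rfl
    obtain ⟨f3, f4, f5, f6⟩ := facts_ZmEqP C κ hs _ rfl
    obtain ⟨g₁, z, ε, hε, hz, f7⟩ := f6 hSh
    have := hC K F hB t ht (C.comap (MonoidHom.inl (GK K) H) ⊓ GF K F) e _
      inferInstance ?_ ?_ (lt_trans zero_lt_one e1) ?_ f3 (fun n hn => f4 n hn.1) f5 ?_ η hη hη2
    · exact this.mono fun s h _ _ => h
    · filter_upwards [hNa.nhds, g2] with g h1 h3
      exact ⟨hNC g h1, h3⟩
    · intro g hg
      exact hg.2
    · intro g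
      refine ⟨?_, e4 g⟩
      obtain ⟨k, hk⟩ := e3
      have := C.pow_mem (f2 g) k
      rw [Prod.pow_mk, one_pow, ← pow_mul, ← hk] at this
      exact this
    · obtain ⟨k, hk⟩ := hNa.pg g₁
      have h1 : (g₁ * (g₁ ^ p ^ k)⁻¹, z) ∈ C := by
        have := C.mul_mem hz (C.inv_mem (hNC _ hk))
        simpa using this
      have h2 : g₁ * (g₁ ^ p ^ k)⁻¹ ∈ GF K F := by
        obtain ⟨m, hm⟩ := Nat.sub_one_dvd_pow_sub_one p k
        have h3 : p ^ k = m * (p - 1) + 1 := by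
          have : 0 < p ^ k := pow_pos hp.pos k
          rw [mul_comm, ← hm]
          omega
        rw [h3, pow_succ, mul_inv_rev, mul_inv_cancel_left, pow_mul]
        exact inv_mem (hP2 _)
      exact fun g _ => ⟨g₁ * (g₁ ^ p ^ k)⁻¹, h2, ε, hε, fun h _ => f7 _ h1 _⟩
  have key2 := (hfin.eventually_all (l := 𝓝[>] (1 : ℝ))).2 fun C hC' =>
    eventually_all.2 (key C hC'.1)
  filter_upwards [key2] with s hs U x hU hm C hC1 hC2 κ hSh
  exact (hs C ⟨hC1, fun g _ => hC2 g⟩ κ hC2 hSh U x hU hm).trans hη3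

open Finset in
theorem eqa_stmt (p : ℕ) [Fact p.Prime] (hG : GenPStmt p) : EqaStmt p := by
  classical
  intro K F _ _ hFb hK hF P _ _ hP d U _ x N hA e 𝓡 _ _ s hs wd hwd n hn w η hEq t W κ hW hSh
  obtain ⟨-, g2, -, -⟩ := hG K F hFb hK hF
  obtain ⟨V, hV⟩ : ∃ V : Finset (Fin d) → (Σ j, U j) → P, V = fun ω l => W ω l ^ n l := ⟨_, rfl⟩
  have hN := hA.adm.nrm
  have hr : (corr_ZcEqa (lwp K x) (piV V) N hN).map (MonoidHom.snd _ _) = (piV W).range := by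
    rw [← range_ZmEqa hP W hn, ← hV]
    ext h
    constructor
    · rintro ⟨z, ⟨v, h1, -⟩, rfl⟩
      exact ⟨v, h1⟩
    · rintro ⟨v, rfl⟩
      exact ⟨(lwp K x v, piV V v), ⟨v, rfl, by simp⟩, rfl⟩
  have hC : ∀ g, ∃ h, (g, h) ∈ corr_ZcEqa (lwp K x) (piV V) N hN := fun g =>
    let ⟨v, hv⟩ := hA.gen g
    ⟨_, v, rfl, hv⟩
  have f1 : ((corr_ZcEqa (lwp K x) (piV V) N hN).comap (MonoidHom.inl _ _)).Normal := by
    refine ⟨fun g hg k => ?_⟩
    obtain ⟨h, hh⟩ := hC k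
    have := Subgroup.mul_mem _ (Subgroup.mul_mem _ hh (Subgroup.mem_comap.1 hg))
      (Subgroup.inv_mem _ hh)
    simpa [Subgroup.mem_comap] using this
  have hle : N ≤ (corr_ZcEqa (lwp K x) (piV V) N hN).comap (MonoidHom.inl _ _) := fun g hg =>
    ⟨1, map_one _, by simpa using hg⟩
  have a2 := mem_of_superset hA.adm.nhds hle
  have a3 : ∀ g : GK K, ∃ k, g ^ p ^ k ∈
      (corr_ZcEqa (lwp K x) (piV V) N hN).comap (MonoidHom.inl _ _) := fun g =>
    (hA.adm.pg g).imp fun _ h => hle h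
  have adm : AdmP p (Prior K x t)
      ((corr_ZcEqa (lwp K x) (piV V) N hN).comap (MonoidHom.inl _ _)) := by
    refine ⟨f1, a2, a3, fun Q g h1 h2 h3 => ?_⟩
    by_cases h4 : Q.under (𝓞 K) ∈ Set.range fun y => pr K (x y)
    · obtain ⟨y, hy⟩ := h4
      refine g2 (x y) (hA.co y).1 _ f1 a2 a3 ⟨FreeGroup.of y, ?_, ?_⟩ Q g h1 h2 hy.symm
      · funext ω
        rw [piV_ZcEqa, FreeGroup.lift_apply_of, hV]
        exact (congrArg (· ^ n y) (hW ω y (not_lt.1 fun e => h3 ⟨y, e, hy⟩))).trans (one_pow _)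
      · rw [lwp, FreeGroup.lift_apply_of]
        simp
    · exact hle (hA.adm.unr Q g h1 h2 h4)
  have key := hEq t _ ⟨_, adm, fun g hg => hg⟩ hC κ (hr ▸ hSh)
  rw [hr] at key
  refine le_of_eq_of_le ?_ key
  congr 1
  refine Finset.sum_congr rfl fun u _ => ?_
  congr 1
  rw [← univ_product_univ, expect_product]
  refine expect_congr rfl fun a _ => ?_
  have h1 := hs.2 (Finset (Fin d)) V fun h => Av (piV W).range κ (piV V (wd ⟨t, u⟩ a) * h)
  simp only [sb_ZmEqa, ← hV]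
  simp only [map_mul]
  exact h1.trans (avg_ZcEqa (lwp K x) (piV V) N hN (hwd ⟨t, u⟩ a) fun h => Av (piV W).range κ h)

end Pool.Agent.MP_f68ac8_nt.Zq
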