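import Mathlib
import Pool.Agent.MP_f68ac8_nt.ZsAux
import Pool.Agent.MP_f68ac8_nt.ZmFin

namespace Pool.Agent.MP_f68ac8_nt.Zq
open Ev Pv Sv Zv Zk
open scoped commutatorElement
open scoped BigOperators

open Classical in
/-- the exponent sum of a letter -/
noncomputable def ex_ZsFin {Λ : Type} (u : Λ) : FreeGroup Λ →* Multiplicative (ZMod 2) :=
  FreeGroup.lift fun l => if l = u then Multiplicative.ofAdd (1 : ZMod 2) else 1

theorem exf_ZsFin {Λ : Type} (u : Λ) (w : FreeGroup Λ) (c : ZMod 2) :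
    (ex_ZsFin u (w * FreeGroup.of u ^ (c - (ex_ZsFin u w).toAdd).val)).toAdd = c := by
  rw [map_mul, map_pow, toAdd_mul, toAdd_pow]
  have h : ex_ZsFin u (FreeGroup.of u) = Multiplicative.ofAdd (1 : ZMod 2) := by
    rw [ex_ZsFin, FreeGroup.lift_apply_of, if_pos rfl]
  rw [h, toAdd_ofAdd, nsmul_eq_mul, mul_one, ZMod.natCast_zmod_val, add_sub_cancel]

theorem rr_ZsFin {d : ℕ} {U : Fin d → Type} (y : (Σ j, U j) → FreeGroup (Σ j, U j))
    (q : ∀ j, U j) (i : Fin d) :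
    rr y q 2 i i = (ex_ZsFin ⟨i, q i⟩ (y ⟨i, q i⟩)).toAdd := by
  rw [rr, ex_ZsFin]
  refine congrArg (fun f : (Σ j, U j) → Multiplicative (ZMod 2) =>
    (FreeGroup.lift f (y ⟨i, q i⟩)).toAdd) (funext fun l => ?_)
  split_ifs <;> rfl

theorem sb_ZsFin {Λ : Type} (w : FreeGroup Λ) : sb (fun _ => 1) w = w := by
  have h : sb (fun _ : Λ => 1) = MonoidHom.id _ := FreeGroup.ext_hom _ _ fun a => by
    rw [sb, FreeGroup.lift_apply_of, pow_one, MonoidHom.id_apply]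
  rw [h, MonoidHom.id_apply]

theorem eq_ZsFin {P : Type} [Group P] [Fintype P] {d : ℕ} {U : Fin d → Type}
    [∀ j, Fintype (U j)] (w : ∀ j, U j → ℝ) {Y : Type} [Fintype Y]
    (y : (Σ j, U j) → Y → FreeGroup (Σ j, U j)) (k : (Σ j, U j) → Y → ℕ) (η : ℝ)
    (h : Zk.EQ 2 P w y η) : Zk.EQ 2 P w (fun u a => y u a * FreeGroup.of u ^ k u a) η := by
  intro t W κ hW hS
  have h1 : ∀ (u : U t) (a : Y), piV W (y ⟨t, u⟩ a * FreeGroup.of ⟨t, u⟩ ^ k ⟨t, u⟩ a) =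
      piV W (y ⟨t, u⟩ a) := fun u a => by
    have h2 : piV W (FreeGroup.of (⟨t, u⟩ : Σ j, U j)) = 1 := by
      rw [piV, FreeGroup.lift_apply_of]
      funext ω
      exact hW ω _ le_rfl
    rw [map_mul, map_pow, h2, one_pow, mul_one]
  simp only [h1]
  exact h t W κ hW hS

theorem fin_stmt (hM : MultiStmt) (hU : UnifStmt) (hG : GenPStmt 2) (hE : EqaStmt 2)
    (hS : SolStmt) (hD : GdStmt 2) : FinStmt := by
  intro K F _ _ hB hK hF P _ _ T D La L l n B hPk hTE d ε hε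
  obtain ⟨η, hη, hmul⟩ := hM P T D La L l n hPk hTE B d ε hε
  refine ⟨η, hη, fun e he hpe U _ x w hP hw hx hinj hEq => ?_⟩
  have hpg : ∀ g : P, ∃ k, g ^ 2 ^ k = 1 := (hD P T L l n hPk.ts).1
  obtain ⟨N, hAm, hN1, hN2⟩ := (hG K F hB hK hF).2.2.2 (Σ j, U j) x hx hinj P
  obtain ⟨𝓡, _, _, s, hs1, hs2⟩ := hU (Σ j, U j) P (N.comap (lwp K x))
  choose wd hwd using fun (y : Σ j, U j) (a : Exn e) => hAm.gen (toK K (x y).σ ^ (a.1 : ℕ))
  have hsol := hS K F hB hK hF P T hpg d U x N hAm hN1 hN2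
  have hEQ := hE K F hB hK hF P hpg d U x N hAm e 𝓡 s ⟨hs1, hs2⟩ wd hwd (fun _ => 1)
    (fun _ => by norm_num) w η hEq
  simp only [sb_ZsFin] at hEQ
  have : Nonempty (Exn e) := ⟨⟨⟨1, he⟩, Nat.coprime_one_left _⟩⟩
  refine le_trans (le_of_eq ?_) (hmul U w (Exn e × 𝓡) _ hP hw
    (eq_ZsFin w _ (fun u a => (eps (x u).l - (ex_ZsFin u (wd u a.1 * s a.2)).toAdd).val) η hEQ)
    (fun q => GoodQ T D La L l B (lk2 fun j => (x ⟨j, q j⟩).l) ∧
      Adz T (chi fun j => (x ⟨j, q j⟩).l)) ?_)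
  · congr 1
    funext q
    split_ifs <;> rfl
  · rintro q ⟨h1, h2⟩ a'
    obtain ⟨h3, h4⟩ := hsol (fun u => wd u (a' u).1 * s (a' u).2 * FreeGroup.of u ^
      (eps (x u).l - (ex_ZsFin u (wd u (a' u).1 * s (a' u).2)).toAdd).val) (fun u => ⟨(a' u).1.1,
      (eps (x u).l - (ex_ZsFin u (wd u (a' u).1 * s (a' u).2)).toAdd).val,
      (Nat.Prime.coprime_iff_not_dvd Nat.prime_two).1
        ((a' u).1.2.coprime_dvd_right hpe).symm, by
        have h5 : (lwp K x (wd u (a' u).1 * s (a' u).2))⁻¹ * toK K (x u).σ ^ ((a' u).1.1 : ℕ) ∈ N := by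
          rw [map_mul, mul_inv_rev, mul_assoc]
          exact N.mul_mem (N.inv_mem (hs1 _)) (hwd _ _)
        have h6 : lwp K x (FreeGroup.of u) = toK K (x u).τ := by
          rw [lwp, FreeGroup.lift_apply_of]
        have h7 := hAm.adm.nrm.conj_mem' _ h5 (toK K (x u).τ ^
          (eps (x u).l - (ex_ZsFin u (wd u (a' u).1 * s (a' u).2)).toAdd).val)
        rw [map_mul, map_pow, h6, mul_inv_rev]
        simpa only [mul_assoc] using h7⟩) q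
    have h8 : rr (fun u => wd u (a' u).1 * s (a' u).2 * FreeGroup.of u ^
        (eps (x u).l - (ex_ZsFin u (wd u (a' u).1 * s (a' u).2)).toAdd).val) q 2 =
        lk2 fun j => (x ⟨j, q j⟩).l := by
      funext i j
      by_cases hij : i = j
      · subst hij
        rw [rr_ZsFin, exf_ZsFin, lk2, if_pos rfl]
      · rw [h3 i j hij, lk2, if_neg hij]
    obtain ⟨z, z1, z2, z3, z4⟩ := h4 h2
    refine ⟨h8 ▸ h1, z, z1, z2, z3, ?_⟩
    have h9 : dg (lk2 fun j => (x ⟨j, q j⟩).l) = fun j => eps (x ⟨j, q j⟩).l := by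
      funext i
      rw [dg, lk2, if_pos rfl]
    rw [h8, h9]
    exact z4 D hPk.gd hPk.ts.one

theorem pt_stmt (hP : PrimStmt 2) (hG : GoodStmt) (hI : IidStmt) (hQ : PotStmt 2)
    (hL : GlueStmt 2) (hE : EqPStmt 2) (hF : FinStmt) : PtStmt := by
  classical
  intro K F _ _ hB hK hc l n ε hε
  obtain ⟨B, hB'⟩ := hG l n (ε / 2) (by positivity)
  obtain ⟨L, hL2, hL1, hL3⟩ := level_ZmFin 2 l B (ε / 4 / (n + 1)) (by positivity)
  have hL4 : (n : ℝ) * B ^ l / 2 ^ (L - 2 - l) ≤ ε / 4 := by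
    rw [mul_div_assoc]
    refine (mul_le_mul_of_nonneg_left hL3 (Nat.cast_nonneg n)).trans ?_
    rw [← mul_div_assoc, div_le_iff₀ (by positivity)]
    nlinarith
  refine ⟨L, hL2, fun S hTE => ?_⟩
  obtain ⟨D, La, hPk, d₀, hd₀⟩ := hB' S.P S.T L hTE.toTS hL1
  refine ⟨d₀, fun d hd => ?_⟩
  obtain ⟨η, hη, hfin⟩ := hF K F hB hK hc S.P S.T D La L l n B hPk hTE d (ε / 4)
    (by positivity)
  obtain ⟨e, he1, hpe, hEv⟩ := hE K F hB hK hc (Finset (Fin d) → S.P)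
  have ht : ∀ j : ℕ, Tame 2 F ((fun _ => (1 : GK K)) j) := fun _ =>
    ⟨1, Nat.prime_two.not_dvd_one, by simp⟩
  obtain ⟨φ, hφ⟩ : ∃ φ : Mx d → ℝ, ∀ r, φ r = if GoodQ S.T D La L l B r then 0 else 1 :=
    ⟨_, fun _ => rfl⟩
  have hφ0 : ∀ r, 0 ≤ φ r := fun r => by
    rw [hφ]
    split_ifs <;> norm_num
  have hpot := hI K F hB hK hc d φ hφ0
  have hβ : 𝔼 r : Mx d, φ (red r) ≤ ε / 2 := by
    simp only [hφ]
    exact hd₀ d hd
  have hid := hQ K F hB _ ht d _ _ hpot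
  have key := hL K F hB d _ ht _ (hEv η hη)
    (fun q => ∃ c, Val 2 F (fun _ => (1 : GK K)) d c ∧
      (∀ j : Fin d, (c j).P.under (NumberField.RingOfIntegers K) = q j) ∧
      ¬ 1 ≤ φ (lk2 fun i : Fin d => (c i).l))
    (fun q => ¬ ((∀ j, P1 2 (Ideal.absNorm (q j))) ∧
      ¬ Adz S.T (chi fun j => Ideal.absNorm (q j))))
    (ε / 2) (ε / 2) η hη (fun q ⟨c, c1, c2, _⟩ => inj_ZcGlue c1 c2)
    (le_trans (by linarith) hid) ?_
  · simp only [not_not] at key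
    exact le_trans (by linarith) key
  intro V _ x wt hw1 hw2 hx hinj hEq
  refine le_trans ?_ ((hfin e he1 hpe V x wt hw1 hw2 hx hinj hEq).trans (by linarith))
  simp only [Ex, smul_eq_mul]
  refine Finset.sum_le_sum fun q _ => mul_le_mul_of_nonneg_left ?_
    (Finset.prod_nonneg fun j _ => hw1.1 j _)
  by_cases h : (∃ c, Val 2 F (fun _ => (1 : GK K)) d c ∧
      (∀ j : Fin d, (c j).P.under (NumberField.RingOfIntegers K) = pr K (x ⟨j, q j⟩)) ∧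
      ¬ 1 ≤ φ (lk2 fun i : Fin d => (c i).l)) ∧
      ¬ ((∀ j, P1 2 (Ideal.absNorm (pr K (x ⟨j, q j⟩)))) ∧
      ¬ Adz S.T (chi fun j => Ideal.absNorm (pr K (x ⟨j, q j⟩))))
  swap
  · rw [if_neg h]
    split_ifs <;> norm_num
  rw [if_pos h]
  obtain ⟨⟨c, c1, c2, c3⟩, c4⟩ := h
  have hn : ∀ j, Ideal.absNorm (pr K (x ⟨j, q j⟩)) = (x ⟨j, q j⟩).l := fun j =>
    ((hP K F hB hK hc).2.2.2.2 _ (hx ⟨j, q j⟩).1).2.1
  have hl : ∀ j : Fin d, (c j).l = (x ⟨j, q j⟩).l := fun j => by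
    rw [← hn]
    exact ((hP K F hB hK hc).2.2.2.2 _ (c1.1 j j.2).1).2.1.symm.trans
      (congrArg Ideal.absNorm (c2 j))
  have hp1 : ∀ j, P1 2 (x ⟨j, q j⟩).l := fun j =>
    (((hP K F hB hK hc).2.2.2.2 _ (hx ⟨j, q j⟩).1).2.2 (hx ⟨j, q j⟩).2).1
  simp only [hl, hn] at c3 c4
  rw [if_pos]
  refine ⟨?_, ?_⟩
  · by_contra b
    rw [hφ, if_neg b] at c3
    exact c3 le_rfl
  · by_contra b
    exact c4 ⟨hp1, b⟩

end Pool.Agent.MP_f68ac8_nt.Zq
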