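import Mathlib
import Pool.Agent.MP_f68ac8_nt.ZsAux
import Pool.Agent.MP_f68ac8_nt.ZmMain

namespace Pool.Agent.MP_f68ac8_nt.Zq

open Ev Pv Sv Zv Zk
open scoped commutatorElement
open NumberField

theorem pow_ZsMain {ε : ℝ} (hε : 0 < ε) : ∃ r : ℕ, 1 ≤ r ∧ 16 / 2 ^ r ≤ ε := by
  obtain ⟨r, hr⟩ := pow_unbounded_of_one_lt (16 / ε) (one_lt_two (α := ℝ))
  refine ⟨r + 1, Nat.le_add_left 1 r, ?_⟩
  rw [div_lt_iff₀ hε] at hr
  rw [div_le_iff₀ (by positivity), pow_succ]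
  linarith

theorem chi_ZsMain {d : ℕ} (hd : 1 ≤ d) {l : Fin d → ℕ} (hP : ∀ j, P1 2 (l j))
    (h : CycCh 2 (Set.range l) = {chi l}) : IsOpen ((chi l).ker : Set GQ) ∧ ∃ g, chi l g ≠ 1 := by
  have hmem : chi l ∈ CycCh 2 (Set.range l) := h ▸ Set.mem_singleton _
  obtain ⟨g, -, hg⟩ := (hmem.2 _ (hP ⟨0, hd⟩).1).1 (Set.mem_range_self _)
  exact ⟨hmem.1, g, hg⟩

theorem four_stmt (hT : TupStmt) (hP : PrimStmt 2) (hC : ChStmt) (hQ : PtStmt) (hK : RkStmt)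
    (hB : MbStmt) (hI : IndStmt) (hS : ClsStmt) (hF : FamStmt) : FourStmt := by
  intro K F _ _ hFb hK' hcyc n ε hε
  obtain ⟨R, ϖ, hR, hR1, hInd⟩ := hI n
  obtain ⟨-, -, hP3, hP4, -⟩ := hP K F hFb hK' hcyc
  obtain ⟨-, -, hC3⟩ := hC K F hFb hK' hcyc
  have hQ' : ∀ (l n : ℕ) (e : ℝ), ∃ L, 2 ≤ L ∧ (0 < e → ∀ S : Sy 2, TE S.T L l n →
      ∃ d₀, ∀ d, d₀ ≤ d → 1 - e ≤ tupDens (fun _ => Typ 2 K F 1) d (NoA S)) := by
    intro l n e
    by_cases he : 0 < e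
    · obtain ⟨L, h1, h3⟩ := hQ K F hFb hK' hcyc l n e he
      exact ⟨L, h1, fun _ => h3⟩
    · exact ⟨2, le_rfl, fun h => absurd h he⟩
  choose Lf hL2 hLf using hQ'
  obtain ⟨J, iJ, S, l, m, e, hSe, hsum, hcov⟩ := hF _ R ϖ hR hR1 Lf hL2 (ε / 2) (half_pos hε)
  obtain ⟨r, hr1, hr⟩ := pow_ZsMain (half_pos hε)
  obtain ⟨S₀, co, hS₀, -⟩ := hB 3 r (by omega) hr1
  choose d₁ hd₁ using fun j => hLf (l j) (m j) (e j) (hSe j).1 (S j) (hSe j).2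
  refine ⟨1 + ∑ j, d₁ j, fun d hd => ?_⟩
  have hj : ∀ j, d₁ j ≤ d := fun j =>
    (Finset.single_le_sum (fun i _ => Nat.zero_le (d₁ i)) (Finset.mem_univ j)).trans (by omega)
  have key := (hT K d fun _ => Typ 2 K F 1).2.1 (Option J) (fun o q => NoA (o.elim S₀ S) q)
    (fun o => o.elim (16 / 2 ^ r) e) (by
      rintro (_ | j)
      · exact hK K F hFb hK' hcyc r S₀ co hS₀ d
      · exact hd₁ j d (hj j))
  rw [Fintype.sum_option] at key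
  refine le_trans ?_ (key.trans ((hT K d _).1 _ _ fun q hq h => ?_))
  · simp only [Option.elim_none, Option.elim_some]
    linarith
  obtain ⟨hinj, hP1, -⟩ := h none
  have hmax : ∀ j, (q j).IsMaximal := fun j => (hP4 rfl _).1 (hq j)
  have hl : Function.Injective fun j => Ideal.absNorm (q j) := by
    intro i j hij
    obtain ⟨P, hPm, hPi⟩ := exists_maximal_mem (Ω := Qb) (hP1 i).1
    refine hinj ((((hP3 _ (hmax i)).2 P hPm).2 hPi).symm.trans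
      (((hP3 _ (hmax j)).2 P hPm).2 ?_))
    have hij' : Ideal.absNorm (q i) = Ideal.absNorm (q j) := hij
    rwa [← hij']
  refine ⟨hl, hP1, by_contra fun ha => ?_⟩
  obtain ⟨c1, c2⟩ := chi_ZsMain (by omega) hP1 (hC3 d _ hl hP1).2.1
  obtain ⟨Θ, hΘ, hΘR⟩ := hInd _ c1 c2 ha
  obtain ⟨hcls, hadz⟩ := hS _ R ϖ _ Θ hR hΘ hΘR
  obtain ⟨j, hj⟩ := hcov _ hΘR hcls
  exact (h (some j)).2.2 (hadz _ hj)

theorem main_stmt (hT : TupStmt) (hB : BaseStmt 2) (hP : PrimStmt 2) (hC : ChStmt) (hK : RkStmt)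
    (hM : MbStmt) (hA : ArStmt) (hF : FourStmt) : MainStmt := by
  intro n ε hε
  obtain ⟨K, F, iK, iF, hFb, hK', hcyc, φ, hφ⟩ := hB
  obtain ⟨-, -, -, hP4, -⟩ := hP K F hFb hK' hcyc
  obtain ⟨-, -, hC3⟩ := hC K F hFb hK' hcyc
  have h3 : 0 < ε / 3 := by positivity
  obtain ⟨r, hr1, hr⟩ := pow_ZsMain h3
  obtain ⟨S, co, hS, -⟩ := hM 3 r (by omega) hr1
  obtain ⟨d₀, hd₀⟩ := hF K F hFb hK' hcyc n _ h3
  obtain ⟨d₁, hd₁⟩ := hF K F hFb hK' hcyc (r + 2) _ h3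
  refine ⟨1 + d₀ + d₁, fun d hd => ?_⟩
  have key := (hT K d fun _ => Typ 2 K F 1).2.1 (Option Bool)
    (fun o q => o.elim (NoA S q) fun b => (Function.Injective fun j => Ideal.absNorm (q j)) ∧
      (∀ j, P1 2 (Ideal.absNorm (q j))) ∧
      FourFM (cond b n (r + 2)) (chi fun j => Ideal.absNorm (q j)).ker)
    (fun _ => ε / 3) (by
      rintro (_ | _ | _)
      · exact le_trans (by linarith) (hK K F hFb hK' hcyc r S co hS d)
      · exact hd₁ d (by omega)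
      · exact hd₀ d (by omega))
  rw [Fintype.sum_option, Fintype.sum_bool] at key
  rw [← (hT ℚ d _).2.2 K φ fun q => (hφ q).1]
  have eT : (fun (_ : ℕ) (q : Ideal (𝓞 K)) => (φ q).IsMaximal) = fun _ => Typ 2 K F 1 := by
    funext _ q
    rw [(hφ q).2, hP4 rfl q]
  rw [eT]
  refine le_trans (by linarith) (key.trans ((hT K d _).1 _ _ fun q _ h => ?_))
  obtain ⟨hinj, hP1, hadz⟩ := h none
  refine ⟨φ.injective.comp hinj, ?_⟩
  simp only [fun q => (hφ q).1]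
  have hc := (hC3 d _ (h (some true)).1 hP1).2.1
  obtain ⟨c1, c2⟩ := chi_ZsMain (by omega) hP1 hc
  exact ⟨_, hc, hA r S co hS _ c1 c2 (h (some false)).2.2 hadz, (h (some true)).2.2⟩

end Pool.Agent.MP_f68ac8_nt.Zq
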