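import Mathlib
import Pool.Agent.MP_f68ac8_nt.ZsAux
import Pool.Agent.MP_f68ac8_nt.ZsCore
import Pool.Agent.MP_f68ac8_nt.ZbPot
import Pool.Agent.MP_f68ac8_nt.ZbSel

/-! Potentials and finite sets of primes. -/

namespace Pool.Agent.MP_f68ac8_nt.Zq

open Ev Pv Sv Zv Zk
open NumberField

section
open Finset

section
variable {p : ℕ} [hp : Fact p.Prime] {K F : IntermediateField ℚ Qb}

lemma per_ZsPot (hB : Fb p K F) (t : GK K) :
    ∃ m : ℕ, ∀ k : ℕ, t.1 ^ k ∈ F.fixingSubgroup ↔ m ∣ k := by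
  have hn : (F.fixingSubgroup.subgroupOf K.fixingSubgroup).Normal :=
    ⟨fun x hx g => hB.nrm g x hx⟩
  refine ⟨orderOf (QuotientGroup.mk' (F.fixingSubgroup.subgroupOf K.fixingSubgroup) t),
    fun k => ?_⟩
  rw [orderOf_dvd_iff_pow_eq_one, ← map_pow, QuotientGroup.mk'_apply, QuotientGroup.eq_one_iff]
  rfl

variable [NumberField K] [NumberField F]

theorem ind_ZsPot (H : Core p) (hM : MeanStmt) (hB : Fb p K F) {t : ℕ → GK K}
    (ht : ∀ j, Tame p F (t j)) {d : ℕ} {A : (ℕ → Co) → Prop} {Φ : ℕ → (ℕ → Co) → ℝ}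
    (h0 : ∀ c, Val p F t d c → 0 ≤ Φ d c) (h1 : ∀ c, Val p F t d c → A c → 1 ≤ Φ d c)
    (hs : ∀ a < d, ∀ c, Val p F t a c → Stp p F t a c (Φ (a + 1)) (Φ a c)) (l : ℕ) :
    ∀ (a : ℕ) (c : ℕ → Co) (T : ℕ → Ideal (𝓞 K) → Prop) (f : (Fin l → Ideal (𝓞 K)) → ℝ),
      a + l = d → Val p F t a c → (∀ j, T j = Typ p K F (t (a + j))) → Unit01 f →
      (∀ c', (∀ j < a, c' j = c j) → Val p F t d c' → ¬ A c' →
        1 ≤ f fun j => (c' (a + j)).P.under (𝓞 K)) → 1 - Φ a c ≤ idT l T f := by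
  classical
  induction l with
  | zero =>
    rintro a c T f rfl hv - hf h
    change 1 - Φ a c ≤ f Fin.elim0
    by_cases hA : A c
    · exact (sub_nonpos.2 (h1 c hv hA)).trans (hf _).1
    · exact (sub_le_self _ (h0 c hv)).trans ((h c (fun _ _ => rfl) hv hA).trans_eq
        (congrArg f (funext fun j => j.elim0)))
  | succ l ih =>
    intro a c T f ha hv hT hf h
    obtain ⟨E₀, hE₀⟩ := (H.locV F).1
    obtain ⟨m, hm⟩ := per_ZsPot hB (t a)
    have m1 : ¬ p ∣ m := by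
      obtain ⟨k, k1, k2⟩ := ht a
      exact fun e => k1 (e.trans ((hm k).1 k2))
    have m2 := (hm m).2 dvd_rfl
    obtain ⟨u, μ, E, ⟨J, _, B, _, θ, w, w1, w2, w3⟩, hμ, hu⟩ := hs a (by omega) c hv
    have hb := fun q => (hM K l fun j => T (j + 1)).2.1 (fun Q => f (Fin.cons q Q))
      fun Q => hf _
    rw [idT, hT 0]
    refine le_trans ?_ (H.step K F hB.le hB.stab hB.xi _ (t a).2 m m1 m2 J B θ w
      (fun i => (w1 i).add) (fun i => (w1 i).nhds) (fun i => (w1 i).conj) (fun i => (w1 i).ind)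
      1 _ (fun q => (hb q).1) (fun q => (hb q).2)
      ((range a).image (fun j => (c j).l) ∪ E ∪ insert p E₀)
      fun q hq q1 P q2 q3 σ q4 q5 => ?_)
    · rw [← w3]
      exact sub_le_sub_left hμ _
    rw [mem_union, mem_union, mem_insert, not_or, not_or, not_or] at hq
    obtain ⟨s1, s2⟩ := pow_ty hB q5 m2
    obtain ⟨τ, m', hok⟩ := (H.co K F hB).1 q P σ q1 hq.2.1 q2 q3 (hE₀ q hq.2.2 q1 P q2 q3) q4 s1
      ⟨m, m1, s2⟩
    obtain rfl : m' = m := Nat.dvd_antisymm ((hok.per m).1 s2) ((hm m').1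
      (pow_ty hB (t := ⟨σ, s1⟩) (Eq.symm q5) ((hok.per m').2 dvd_rfl)).2)
    have hx : New p F t a c ⟨q, P, σ, τ, m'⟩ :=
      ⟨hok, q5, fun j hj e => hq.1.1 (mem_image.2 ⟨j, mem_range.2 hj, e.symm⟩)⟩
    rw [← w2]
    refine (sub_le_sub_left (hu _ hx hq.1.2) _).trans (ih (a + 1) _ _ _ (by omega)
      (val_ZbPot hv hx) (fun j => by rw [hT, add_assoc, add_comm 1 j]) (fun Q => hf _)
      fun c' e hv' hA => ?_)
    refine (h c' (fun j hj => (e j (by omega)).trans (Function.update_of_ne hj.ne _ _))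
      hv' hA).trans_eq (congrArg f (funext fun j => ?_))
    refine Fin.cases ?_ (fun j => ?_) j
    · rw [Fin.cons_zero, Fin.val_zero, add_zero, e a (by omega), Function.update_self]
    · rw [Fin.cons_succ, Fin.val_succ, add_assoc, add_comm 1]

end

theorem pot_stmt (p : ℕ) [Fact p.Prime] (H : Core p) (hM : MeanStmt) : PotStmt p := by
  classical
  rintro K F _ _ hB t ht d A β ⟨Φ, hβ, h0, h1, hs⟩
  refine (sub_le_sub_left (hβ default) 1).trans (ind_ZsPot H hM hB ht h0 h1 hs d 0 default _ _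
    (zero_add d) ⟨fun _ h => absurd h (Nat.not_lt_zero _), fun _ h => absurd h
      (Nat.not_lt_zero _)⟩ (fun j => by rw [zero_add]) (fun q => ?_) fun c _ hv hA => ?_)
  · split_ifs <;> simp
  · rw [if_pos ⟨c, hv, fun j => by simp only [zero_add], hA⟩]

end

open Filter
open scoped Topology

section
variable {p : ℕ} [hp : Fact p.Prime] {K F : IntermediateField ℚ Qb} [NumberField K]
  [NumberField F]

lemma one_ZsPot (H : Core p) (hB : Fb p K F) {t : GK K} (ht : Tame p F t)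
    (Q : Finset (Ideal (𝓞 K))) :
    1 ≤ idMean (Typ p K F t) (ind_ZbSel (fun q => ∃ x, CoAt p F t q x) Q) := by
  classical
  obtain ⟨E₀, hE₀⟩ := (H.locV F).1
  obtain ⟨m, m1, m2⟩ := ht
  have := H.step K F hB.le hB.stab hB.xi _ t.2 m m1 m2 Empty (fun _ => Empty)
    (fun i => i.elim) (fun i => i.elim) (fun i => i.elim) (fun i => i.elim) (fun i => i.elim)
    (fun i => i.elim) 1 (ind_ZbSel (fun q => ∃ x, CoAt p F t q x) Q)
    (fun q => (ind_mem_ZbSel Q q).1) (fun q => (ind_mem_ZbSel Q q).2)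
    ((Q.biUnion fun q => (Ideal.absNorm q).primeFactors) ∪ insert p E₀)
    fun l hl q1 P q2 q3 σ q4 q5 => by
      rw [Finset.mem_union, Finset.mem_insert, not_or, not_or] at hl
      obtain ⟨s1, s2⟩ := pow_ty hB q5 m2
      obtain ⟨τ, m', hok⟩ := (H.co K F hB).1 l P σ q1 hl.2.1 q2 q3 (hE₀ l hl.2.2 q1 P q2 q3) q4
        s1 ⟨m, m1, s2⟩
      have hQ : P.under (𝓞 K) ∉ Q := fun hQ => hl.1 (Finset.mem_biUnion.2 ⟨_, hQ,
        Nat.mem_primeFactors.2 ⟨q1, by
          by_contra hd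
          exact not_mem_of_coprime q3 ((Nat.Prime.coprime_iff_not_dvd q1).2 hd)
            ((nat_under_EvRec K).1 (Ideal.absNorm_mem _)), norm_ZbSel q2⟩⟩)
      rw [ind_ZbSel, if_pos ⟨hQ, ⟨l, P, σ, τ, m'⟩, hok, q5, rfl⟩]
      simp
  simpa using this

end

theorem sel_stmt (p : ℕ) [Fact p.Prime] (H : Core p) : SelStmt p := by
  intro K F _ _ hB t ht η hη Q
  have hT : ∀ q, Typ p K F t q → Ideal.absNorm q ≠ 0 := by
    rintro q ⟨P, hP, rfl, -⟩
    exact norm_ZbSel hP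
  filter_upwards [fin_ZbSel hT (one_ZsPot H hB ht) (lt_min hη one_half_pos) (min_le_right _ _) Q]
    with s ⟨U, h1, h2⟩
  exact ⟨U, fun q hq => ⟨(h1 q hq).1, (h1 q hq).2.1, (h1 q hq).2.2.1,
    (h1 q hq).2.2.2.trans (min_le_left _ _)⟩, (sub_le_sub_left (min_le_left _ _) 1).trans h2⟩

end Pool.Agent.MP_f68ac8_nt.Zq
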