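import Mathlib
import Pool.Agent.MP_f68ac8_nt.ZsAux
import Pool.Agent.MP_f68ac8_nt.ZcGlue
import Pool.Agent.MP_f68ac8_nt.ZfIdt
import Pool.Agent.MP_f68ac8_nt.ZmTup

namespace Pool.Agent.MP_f68ac8_nt.Zq
open Ev Pv Sv Zv Zk
open scoped commutatorElement
open scoped BigOperators

theorem kp_ZsRk {d : ℕ} {r r' : Mx d} (h : ∀ i j, i ≠ j → r i j = r' i j) : Kp r = Kp r' := by
  ext a
  refine forall_congr' fun i => ?_
  rw [Finset.sum_congr rfl fun j _ => ?_]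
  by_cases hij : i = j
  · rw [hij, sub_self, mul_zero, mul_zero]
  · rw [h i j hij]

theorem rk_stmt (hP : PrimStmt 2) (hI : IidStmt) (hQ : PotStmt 2) (hG : GenPStmt 2)
    (hS : SolStmt) (hK : KpStmt) (hL : KlStmt) (hD : GdStmt 2) (hA : AvgStmt) : RkStmt := by
  intro K F _ _ hB hKb hc r₀ S co hCd d
  have ht : ∀ j : ℕ, Tame 2 F ((fun _ => (1 : GK K)) j) := fun _ =>
    ⟨1, (Fact.out : Nat.Prime 2).not_dvd_one, by simp⟩
  have hpos : (0 : ℝ) < 2 ^ r₀ := by positivity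
  have hpot := hI K F hB hKb hc d (fun r => ((Kp r).ncard : ℝ) / 2 ^ r₀)
    (fun r => div_nonneg (Nat.cast_nonneg _) hpos.le)
  have hβ : 𝔼 r : Mx d, ((Kp (red r)).ncard : ℝ) / 2 ^ r₀ ≤ 16 / 2 ^ r₀ := by
    rw [← Finset.expect_div]
    exact div_le_div_of_nonneg_right (hK d) hpos.le
  have hid := hQ K F hB _ ht d _ _ hpot
  refine le_trans (by linarith) (hid.trans (le_trans ?_
    ((hA K d fun _ => Typ 2 K F 1).2.2.1 _ (ind_ZmTup (NoA S)))))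
  refine Ze.tmono_ZfIdt d _ _ _ (ind_ZmTup _) (ind_ZmTup _) fun q => ?_
  by_cases h : ∃ c, Val 2 F (fun _ => (1 : GK K)) d c ∧
      (∀ j : Fin d, (c j).P.under (NumberField.RingOfIntegers K) = q j) ∧
      ¬ 1 ≤ ((Kp (lk2 fun i : Fin d => (c i).l)).ncard : ℝ) / 2 ^ r₀
  swap
  · rw [if_neg h]
    exact (ind_ZmTup (NoA S) q).1
  rw [if_pos h]
  refine (if_pos ?_).ge
  obtain ⟨c, c1, c2, c3⟩ := h
  have h5 := (hP K F hB hKb hc).2.2.2.2
  have hn : ∀ j : Fin d, Ideal.absNorm (q j) = (c j).l := fun j =>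
    (congrArg Ideal.absNorm (c2 j)).symm.trans (h5 _ (c1.1 j j.2).1).2.1
  have hinj := inj_ZcGlue c1 c2
  refine ⟨hinj, fun j => ?_, fun hAd => c3 ?_⟩
  · rw [hn]
    exact ((h5 _ (c1.1 j j.2).1).2.2 (c1.1 j j.2).2).1
  obtain ⟨n, hTS⟩ := hCd.ts
  obtain ⟨N, hAm, hN1, hN2⟩ := (hG K F hB hKb hc).2.2.2 (Σ _ : Fin d, Unit) (fun y => c y.1)
    (fun y => c1.1 y.1 y.1.2) (fun y y' e => by
      have e' : y.1 = y'.1 := hinj ((c2 y.1).symm.trans (e.trans (c2 y'.1)))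
      exact Sigma.ext e' HEq.rfl) S.P
  choose y hy using fun u : Σ _ : Fin d, Unit => hAm.gen (toK K (c u.1).σ)
  obtain ⟨s1, s2⟩ := hS K F hB hKb hc S.P S.T (hD S.P S.T 3 1 n hTS).1 d (fun _ => Unit)
    (fun y => c y.1) N hAm hN1 hN2 y (fun u => ⟨1, 0, by norm_num, by
      rw [pow_one, pow_zero, mul_one]
      exact hy u⟩) fun _ => ()
  simp only [hn] at hAd
  obtain ⟨z, z1, z2, z3, -⟩ := s2 hAd
  have h6 := hL r₀ S co hCd d (fun _ => Unit) y (fun _ => ()) z z1 z2 z3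
  rw [kp_ZsRk (r' := lk2 fun i : Fin d => (c i).l) fun i j hij => by
    rw [s1 i j hij, lk2, if_neg hij]] at h6
  rw [one_le_div hpos]
  exact_mod_cast h6

end Pool.Agent.MP_f68ac8_nt.Zq
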