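import Mathlib
import Pool.Agent.MP_f68ac8_nt.EvKK
import Pool.Agent.MP_f68ac8_nt.EvKum
import Pool.Agent.MP_f68ac8_nt.EvLocAB
import Pool.Agent.MP_f68ac8_nt.EvRam
import Pool.Agent.MP_f68ac8_nt.EvTriv
import Pool.Agent.MP_f68ac8_nt.FvMean
import Pool.Agent.MP_f68ac8_nt.FvWild
import Pool.Agent.MP_f68ac8_nt.QvCount
import Pool.Agent.MP_f68ac8_nt.QvLocV
import Pool.Agent.MP_f68ac8_nt.SvStep
import Pool.Agent.MP_f68ac8_nt.ZbIt
import Pool.Agent.MP_f68ac8_nt.ZbMean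
import Pool.Agent.MP_f68ac8_nt.ZmMn
import Pool.Agent.MP_f68ac8_nt.ZmTup
import Pool.Agent.MP_f68ac8_nt.ZoAvg
import Pool.Agent.MP_f68ac8_nt.ZoTop
import Pool.Agent.MP_f68ac8_nt.ZrAll
import Pool.Agent.MP_f68ac8_nt.ZsAr
import Pool.Agent.MP_f68ac8_nt.ZsBase
import Pool.Agent.MP_f68ac8_nt.ZsCh
import Pool.Agent.MP_f68ac8_nt.ZsCheb
import Pool.Agent.MP_f68ac8_nt.ZsCore
import Pool.Agent.MP_f68ac8_nt.ZsEq
import Pool.Agent.MP_f68ac8_nt.ZsFin
import Pool.Agent.MP_f68ac8_nt.ZsIid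
import Pool.Agent.MP_f68ac8_nt.ZsInd
import Pool.Agent.MP_f68ac8_nt.ZsMain
import Pool.Agent.MP_f68ac8_nt.ZsPot
import Pool.Agent.MP_f68ac8_nt.ZsQr
import Pool.Agent.MP_f68ac8_nt.ZsRestr
import Pool.Agent.MP_f68ac8_nt.ZsRk
import Pool.Agent.MP_f68ac8_nt.ZsSol

/-! The theorem on quadratic fields. -/

namespace Pool.Agent.MP_f68ac8_nt.Zq

open Ev Zv Zk

theorem core_all (p : ℕ) [Fact p.Prime] : Core p := by
  have hK := kk_stmt p
  have hA := locA_stmt p ram_stmt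
  have hV := Qv.locV_stmt p hK wild_stmt (triv_stmt p) ram_stmt hA
  have hL := loc_stmt p hK ram_stmt hA
  exact ⟨co_stmt p wild_stmt hL, Sv.stepM_stmt p (Qv.count_stmt p wild_stmt hV) hV idMean_stmt,
    hV, hL, idMean_stmt⟩

theorem main_all : MainStmt := by
  have H := core_all 2
  have hP := prim_stmt 2 H
  have hR := restr_stmt 2 H
  have hG := genP_stmt 2 hP hR finc_stmt
  have hQ := pot_stmt 2 H mean_stmt
  have hc := ch_stmt hP hR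
  have hi := iid_stmt hP hc qr_stmt (mn_stmt 2)
  have hs := sol_stmt hP hc qr_stmt hR
  have hk := rk_stmt hP hi hQ hG hs (kp_stmt rd_stmt) kl_stmt (gd_stmt 2) Zk.avg_stmt
  have hE := eqP_stmt 2 hP hG (cheb_stmt 2 H (Qv.count_stmt 2 wild_stmt H.locV)) fc_stmt finc_stmt
  exact main_stmt tup_stmt (base_stmt 2) hP hc hk mb_stmt
    (ar_stmt (top_stmt 2 (dv_stmt 2) (cl_all 2)) fam_all.2 md_stmt) (four_stmt tup_stmt hP hc
      (pt_stmt hP good_all hi hQ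
        (glue_stmt 2 mean_stmt it_stmt (Zv.trunc_stmt mean_stmt) (sel_stmt 2 H)) hE
        (fin_stmt multi_all unif_stmt hG (eqa_stmt 2 hG) hs (gd_stmt 2)))
      hk mb_stmt ind_stmt (cls_stmt (cl_all 2)) fam_all.1)

end Pool.Agent.MP_f68ac8_nt.Zq
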