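import Mathlib
import Pool.Agent.MP_f68ac8_nt.ZsAll

/-! Powerful quotients. -/

namespace Pool.Agent.MP_f68ac8_nt.Zq

theorem pow_all (ε : ℝ) (hε : 0 < ε) :
    ∃ d₀, ∀ d, d₀ ≤ d → 1 - ε ≤
      tupDens (K := ℚ) (fun _ q => q.IsMaximal) d fun q => Function.Injective q ∧
        ∃ χ, CycCh 2 (Set.range fun j => Ideal.absNorm (q j)) = {χ} ∧ PowFM χ.ker := by
  obtain ⟨d₀, h⟩ := main_all 0 ε hε
  exact ⟨d₀, fun d hd => (h d hd).trans ((Zk.tup_stmt ℚ d _).1 _ _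
    fun _ _ ⟨h1, χ, h2, h3, _⟩ => ⟨h1, χ, h2, h3⟩)⟩

end Pool.Agent.MP_f68ac8_nt.Zq
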