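import Mathlib
import Pool.Agent.MP_f68ac8_nt.ZsPow

namespace Pool.Agent.MP_f68ac8_nt.QuadraticOld

open Pool.Agent.MP_f68ac8_nt

theorem result (ε : ℝ) (hε : 0 < ε) :
    ∃ d₀, ∀ d, d₀ ≤ d → 1 - ε ≤
      tupDens (K := ℚ) (fun _ q => q.IsMaximal) d fun q => Function.Injective q ∧
        ∃ χ, CycCh 2 (Set.range fun j => Ideal.absNorm (q j)) = {χ} ∧ PowFM χ.ker :=
  Zq.pow_all ε hε

end Pool.Agent.MP_f68ac8_nt.QuadraticOld
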