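import Mathlib
import Pool.Agent.MP_f68ac8_nt.QvAux
import Pool.Agent.MP_f68ac8_nt.PvH

namespace Pool.Agent.MP_f68ac8_nt.Qv

open Ev Pv
open NumberField Module
open Pool.Agent.MP_14ad9d_nt.Full (Pr ord ord_mul ord_inv ord_zpow ord_one ord_finite ord_over)
open Pool.Agent.MP_14ad9d_nt.Full.FIAux
open Pool.Agent.MP_14ad9d_nt.Full.R0Aux (push_down)

theorem h_stmt (p : ℕ) [Fact p.Prime] (h : SIStmt p) : HStmt p := by
  intro K E _ _ _ _ _ T hp hT hU s hs a b ha hb
  let ι : Additive (UT (T : Set (Pr E))) →+ Additive Eˣ :=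
    MonoidHom.toAdditive (UT (T : Set (Pr E))).subtype
  have hι : Function.Injective ι := fun u v e =>
    Additive.toMul.injective (Subtype.ext (Additive.ofMul.injective e))
  have h90 : ∀ a : Additive (UT (T : Set (Pr E))), ∑ i ∈ Finset.range p, uRep T (s ^ i) a = 0 →
      ∃ x : E, x ≠ 0 ∧ uv (ι a) = s x / x := fun a ha => by
    obtain ⟨x, hx⟩ := hilbert hs (ι a) (by
      rw [← map_zero ι, ← ha, map_sum]
      exact Finset.sum_congr rfl fun i _ => sA_iter s i _)
    exact ⟨uv x, uv_ne x, by rw [hx, uv_sub, uv_sA]⟩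
  obtain ⟨x₁, hx₁, e₁⟩ := h90 a ha
  obtain ⟨x₂, hx₂, e₂⟩ := h90 b hb
  let H := Subgroup.zpowers s
  let e := IntermediateField.subgroupEquivAlgEquiv H
  have : IsGalois (IntermediateField.fixedField H) E := IsGalois.of_fixed_field E H
  have hd : finrank (IntermediateField.fixedField H) E = p := by
    rw [IntermediateField.finrank_fixedField_eq_card, Nat.card_zpowers, hs]
  obtain ⟨x, y, c, c0, hc, hxy, h1⟩ := core_PvH (K := IntermediateField.fixedField H)
    (T := (T : Set (Pr E))) h hp hd (σ := e ⟨s, Subgroup.mem_zpowers s⟩) (fun τ => by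
      obtain ⟨⟨_, n, rfl⟩, rfl⟩ := e.surjective τ
      exact ⟨n, (map_zpow e _ n).symm⟩) (fun g w hw => by
      obtain ⟨g, rfl⟩ := e.surjective g
      exact T.smul_mem g.1 hw) hT.gen (fun w => by
      have := w.isMaximal
      rw [card_e_EvRam, Subgroup.card_eq_one, eq_bot_iff]
      intro g hg
      obtain ⟨g, rfl⟩ := e.surjective g
      have h2 : g.1 ^ p = 1 := by
        obtain ⟨n, hn⟩ := g.2
        rw [← hn, ← hs]
        beta_reduce
        rw [← zpow_natCast, ← zpow_mul, mul_comm, zpow_mul, zpow_natCast, pow_orderOf_eq_one,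
          one_zpow]
      have h3 : g = 1 := Subtype.ext (hU w g.1 (fun x => hg x) h2)
      rw [h3, map_one]
      exact one_mem _) hx₁ hx₂
    (fun w hw => by
      have h2 : ord w (uv (ι a)) = 0 := (Additive.toMul a).2 w hw
      rwa [e₁] at h2)
    (fun w hw => by
      have h2 : ord w (uv (ι b)) = 0 := (Additive.toMul b).2 w hw
      rwa [e₂] at h2)
  refine ⟨x, y, Additive.ofMul ⟨Units.mk0 c c0, hc⟩, hxy, hι (uv_inj ?_)⟩
  have h2 : ∀ (n : ℤ) (u : Additive Eˣ), uv (n • u) = uv u ^ n := fun n u => by simp [uv]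
  rw [map_add, map_zsmul, map_zsmul, uv_add, h2, h2, e₁, e₂, map_sub, uv_sub]
  exact h1

end Pool.Agent.MP_f68ac8_nt.Qv
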