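import Mathlib
import Pool.Agent.MP_f68ac8_nt.WvDefs

namespace Pool.Agent.MP_f68ac8_nt

open NumberField

/-- `x` acts by the scalar `κ` on the characters modulo powers of `p` of the Galois group of `L`
that are unramified outside `S` -/
def ScalAct (p : ℕ) [Fact p.Prime] (F L : IntermediateField ℚ (AlgebraicClosure ℚ))
    (S : Set (Ideal (𝓞 F))) (x : GQ) (κ : ℤ_[p]) : Prop :=
  ∀ (m : ℕ) (χ : GQ → ZMod (p ^ m)), UnrCh (p ^ m) F L S χ → ∀ g ∈ L.fixingSubgroup,
    χ (x * g * x⁻¹) = PadicInt.toZModPow m κ * χ g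

end Pool.Agent.MP_f68ac8_nt
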