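import Mathlib
import Pool.Agent.MP_f68ac8_nt.XvDefs

/-! Traces along the augmentation filtration. -/

namespace Pool.Agent.MP_f68ac8_nt.Sv

variable (p : ℕ) [hp : Fact p.Prime]

/-- a valuation estimate -/
def PadStmt : Prop :=
  ∀ (κ y : ℤ_[p]) (a c : ℕ), ¬ (p : ℤ_[p]) ^ (a + 1) ∣ κ ^ orderOf (PadicInt.toZMod κ) - 1 →
    a * c < orderOf (PadicInt.toZMod κ) →
    (∀ t : ℕ, (p : ℤ_[p]) ^ t ∣ (∏ l ∈ Finset.Ico 1 (c * t), (κ ^ l - 1)) * y) → y = 0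

/-- characters separate points -/
def SepStmt : Prop :=
  ∀ (m : ℕ) (Q : Type) [AddCommGroup Q] [Module ℤ_[p] Q], (∀ y : Q, (p : ℤ_[p]) ^ m • y = 0) →
    ∀ y : Q, (∀ φ : Q →+ ZMod (p ^ m),
      (∀ (κ : ℤ_[p]) (z : Q), φ (κ • z) = PadicInt.toZModPow m κ * φ z) → φ y = 0) → y = 0

/-- an invariant functional vanishes on the augmentation ideal -/
def TrStmt : Prop :=
  ∀ (R G : Type) [Ring R] [Algebra ℤ_[p] R] [Group G] (T : R →ₐ[ℤ_[p]] R) (σ : G →* R)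
    (α : G →* G) (τ : R →ₗ[ℤ_[p]] ℤ_[p]) (κ : ℤ_[p]) (a c : ℕ),
    ¬ (p : ℤ_[p]) ^ (a + 1) ∣ κ ^ orderOf (PadicInt.toZMod κ) - 1 →
    a * c < orderOf (PadicInt.toZMod κ) → (∀ g, σ (α g) = T (σ g)) → (∀ g, τ (T (σ g)) = τ (σ g)) →
    (∀ g : Fin c → G, ∃ r : R, (List.ofFn fun i => σ (g i) - 1).prod = (p : ℤ_[p]) • r) →
    (∀ (m : ℕ) (χ : G → ZMod (p ^ m)), (∀ g h, χ (g * h) = χ g + χ h) →
      (∀ g, (∃ r : R, σ g - 1 = (p : ℤ_[p]) ^ m • r) → χ g = 0) →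
      ∀ g, χ (α g) = PadicInt.toZModPow m κ * χ g) →
    ∀ g, τ (σ g) = τ 1

/-- constant trace forces unipotence -/
def KolStmt : Prop :=
  ∀ (M n : ℕ) (G : Type) [Group G] (σ : ℕ → G →* Matrix (Fin n) (Fin n) ℤ_[p]), 0 < M →
    (∀ g, ∑ i ∈ Finset.range M, (σ i g).trace =
      ∑ _i ∈ Finset.range M, (1 : Matrix (Fin n) (Fin n) ℤ_[p]).trace) →
    ∀ g : Fin n → G, (List.ofFn fun j => σ 0 (g j) - 1).prod = 0

end Pool.Agent.MP_f68ac8_nt.Sv
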