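import Mathlib
import Pool.Agent.MP_f68ac8_nt.XvAux

namespace Pool.Agent.MP_f68ac8_nt.Sv

open Polynomial

/-- Fitting idempotent inside a multiplicatively closed subspace -/
theorem fit_XvKol {K A : Type*} [Field K] [Ring A] [Algebra K A] [Module.Finite K A]
    (N : Submodule K A) (hN : ∀ x ∈ N, ∀ y ∈ N, x * y ∈ N) (v : A) (hv : v ∈ N) :
    ∃ e ∈ N, IsIdempotentElem e ∧ ∃ k : ℕ, v ^ k = v ^ k * e := by
  have hpow : ∀ j : ℕ, v ^ (j + 1) ∈ N := by
    intro j
    induction j with
    | zero => simpa using hv
    | succ j ih => rw [pow_succ]; exact hN _ ih _ hv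
  have hmul : ∀ f : K[X], aeval v (f * X) ∈ N := by
    intro f
    induction f using Polynomial.induction_on' with
    | add f g hf hg => rw [add_mul, map_add]; exact N.add_mem hf hg
    | monomial j c =>
      rw [map_mul, aeval_monomial, aeval_X, mul_assoc, ← pow_succ, ← Algebra.smul_def]
      exact N.smul_mem _ (hpow j)
  have hint : IsIntegral K v := IsIntegral.of_finite K v
  have hne : minpoly K v ≠ 0 := minpoly.ne_zero hint
  obtain ⟨q, hq, hnd⟩ := exists_eq_pow_rootMultiplicity_mul_and_not_dvd (minpoly K v) hne 0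
  set k := rootMultiplicity 0 (minpoly K v) with hk
  simp only [map_zero, sub_zero] at hq hnd
  have hcop : IsCoprime (X ^ (k + 1) : K[X]) q :=
    IsCoprime.pow_left ((Irreducible.coprime_iff_not_dvd irreducible_X).2 hnd)
  obtain ⟨a, b, hab⟩ := hcop
  have h0 : aeval v (X ^ (k + 1) * q) = 0 := by
    have : (X ^ (k + 1) * q : K[X]) = X * minpoly K v := by
      conv_rhs => rw [hq]
      ring
    rw [this, map_mul, minpoly.aeval, mul_zero]
  have hz : ∀ f : K[X], aeval v (f * (X ^ (k + 1) * q)) = 0 := by
    intro f; rw [map_mul, h0, mul_zero]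
  refine ⟨aeval v (a * X ^ (k + 1)), ?_, ?_, k + 1, ?_⟩
  · have : (a * X ^ (k + 1) : K[X]) = (a * X ^ k) * X := by ring
    rw [this]; exact hmul _
  · unfold IsIdempotentElem
    rw [← map_mul]
    have : (a * X ^ (k + 1) * (a * X ^ (k + 1)) : K[X]) =
        a * X ^ (k + 1) * (a * X ^ (k + 1) + b * q) - (a * b) * (X ^ (k + 1) * q) := by ring
    rw [this, hab, mul_one, map_sub, hz, sub_zero]
  · have h1 : v ^ (k + 1) = aeval v (X ^ (k + 1) : K[X]) := by simp
    rw [h1, ← map_mul]
    have : (X ^ (k + 1) * (a * X ^ (k + 1)) : K[X]) =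
        X ^ (k + 1) * (a * X ^ (k + 1) + b * q) - b * (X ^ (k + 1) * q) := by ring
    rw [this, hab, mul_one, map_sub, hz, sub_zero]

/-- idempotent families with total trace zero vanish -/
theorem idem_XvKol {K V ι : Type*} [Field K] [CharZero K] [AddCommGroup V] [Module K V]
    [FiniteDimensional K V] [Fintype ι] (e : ι → Module.End K V) (he : IsIdempotentElem e)
    (h : ∑ i, LinearMap.trace K V (e i) = 0) : e = 0 := by
  have hi : ∀ i, IsIdempotentElem (e i) := fun i => congrFun he i
  have ht : ∀ i, LinearMap.trace K V (e i) = (Module.finrank K (LinearMap.range (e i)) : K) :=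
    fun i => (LinearMap.IsIdempotentElem.isProj_range _ (hi i)).trace
  simp only [ht] at h
  rw [← Nat.cast_sum, Nat.cast_eq_zero, Finset.sum_eq_zero_iff] at h
  funext i
  have := h i (Finset.mem_univ i)
  rw [Submodule.finrank_eq_zero, LinearMap.range_eq_bot] at this
  exact this

/-- products of `finrank` many members of a closed space of nilpotent maps vanish -/
theorem eng_XvKol {K V : Type*} [Field K] [AddCommGroup V] [Module K V]
    [FiniteDimensional K V] (N : Submodule K (Module.End K V))
    (hN : ∀ x ∈ N, ∀ y ∈ N, x * y ∈ N) (hn : ∀ x ∈ N, IsNilpotent x)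
    (l : List (Module.End K V)) (hl : ∀ x ∈ l, x ∈ N) (hlen : Module.finrank K V ≤ l.length) :
    l.prod = 0 := by
  letI : LieRing (Module.End K V) := LieRing.ofAssociativeRing
  let L : LieSubalgebra K (Module.End K V) :=
    { N with
      lie_mem' := by
        intro x y hx hy
        rw [Ring.lie_def]
        exact N.sub_mem (hN _ hx _ hy) (hN _ hy _ hx) }
  have hnil : LieModule.IsNilpotent L V := by
    rw [LieModule.isNilpotent_iff_forall' (R := K)]
    intro x
    have : LieModule.toEnd K L V x = (x : Module.End K V) := by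
      ext m; simp
    rw [this]; exact hn _ x.2
  obtain ⟨k0, hk0⟩ := LieModule.IsNilpotent.nilpotent K L V
  set C := LieModule.lowerCentralSeries K L V with hC
  have hsucc : ∀ j, C (j + 1) = ⁅(⊤ : LieIdeal K L), C j⁆ := fun j =>
    LieModule.lowerCentralSeries_succ K L V j
  have hanti : Antitone C := LieModule.antitone_lowerCentralSeries K L V
  have hstab : ∀ j, C (j + 1) = C j → C j = ⊥ := by
    intro j hj
    have : ∀ i, C (j + i) = C j := by
      intro i
      induction i with
      | zero => rfl
      | succ i ih => rw [← add_assoc, hsucc, ih, ← hsucc, hj]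
    rw [eq_bot_iff, ← hk0, ← this k0]
    exact hanti (by omega)
  have hdim : ∀ j, C j = ⊥ ∨ Module.finrank K (C j).toSubmodule + j ≤ Module.finrank K V := by
    intro j
    induction j with
    | zero => right; simpa using Submodule.finrank_le _
    | succ j ih =>
      by_cases hb : C j = ⊥
      · left; rw [eq_bot_iff, ← hb]; exact hanti (by omega)
      · right
        have h1 := ih.resolve_left hb
        have hlt : (C (j + 1)).toSubmodule < (C j).toSubmodule := by
          refine lt_of_le_of_ne (hanti (Nat.le_succ j)) ?_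
          intro h
          exact hb (hstab j (LieSubmodule.toSubmodule_injective h))
        have := Submodule.finrank_lt_finrank_of_lt hlt
        omega
  have hbot : C l.length = ⊥ := by
    rcases hdim l.length with h | h
    · exact h
    · have h0 : Module.finrank K (C l.length).toSubmodule = 0 := by omega
      rw [Submodule.finrank_eq_zero] at h0
      exact LieSubmodule.toSubmodule_injective (by simpa using h0)
  have hmem : ∀ l : List (Module.End K V), (∀ x ∈ l, x ∈ N) → ∀ m, l.prod m ∈ C l.length := by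
    intro l
    induction l with
    | nil => intro _ m; simp [hC]
    | cons x l ih =>
      intro h m
      rw [List.prod_cons, List.length_cons, hsucc, Module.End.mul_apply]
      have hx : x ∈ L := h x (by simp)
      have := LieSubmodule.lie_mem_lie (I := (⊤ : LieIdeal K L)) (x := ⟨x, hx⟩)
        (LieSubmodule.mem_top _) (ih (fun y hy => h y (by simp [hy])) m)
      simpa using this
  ext m
  have := hmem l hl m
  rw [hbot] at this
  simpa using this

/-- the statement over a field -/
theorem fld_XvKol {K V ι G : Type*} [Field K] [CharZero K] [AddCommGroup V] [Module K V]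
    [FiniteDimensional K V] [Fintype ι] [Monoid G] (ρ : ι → G →* Module.End K V)
    (h : ∀ g, ∑ i, LinearMap.trace K V (ρ i g) = ∑ _i : ι, LinearMap.trace K V 1) (i0 : ι)
    (l : List G) (hlen : Module.finrank K V ≤ l.length) :
    (l.map fun g => ρ i0 g - 1).prod = 0 := by
  let u : G → (ι → Module.End K V) := fun g i => ρ i g - 1
  let N : Submodule K (ι → Module.End K V) := Submodule.span K (Set.range u)
  have hu : ∀ g, u g ∈ N := fun g => Submodule.subset_span ⟨g, rfl⟩
  have huu : ∀ g g', u g * u g' = u (g * g') - u g - u g' := by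
    intro g g'
    funext i
    simp only [u, Pi.mul_apply, Pi.sub_apply, map_mul]
    noncomm_ring
  have hN : ∀ x ∈ N, ∀ y ∈ N, x * y ∈ N := by
    intro x hx y hy
    induction hx using Submodule.span_induction with
    | mem x hx =>
      obtain ⟨g, rfl⟩ := hx
      induction hy using Submodule.span_induction with
      | mem y hy =>
        obtain ⟨g', rfl⟩ := hy
        rw [huu]; exact N.sub_mem (N.sub_mem (hu _) (hu _)) (hu _)
      | zero => simp
      | add a b _ _ ha hb => rw [mul_add]; exact N.add_mem ha hb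
      | smul c a _ ha => rw [mul_smul_comm]; exact N.smul_mem _ ha
    | zero => simp
    | add a b _ _ ha hb => rw [add_mul]; exact N.add_mem ha hb
    | smul c a _ ha => rw [smul_mul_assoc]; exact N.smul_mem _ ha
  have hτ : ∀ x ∈ N, ∑ i, LinearMap.trace K V (x i) = 0 := by
    intro x hx
    induction hx using Submodule.span_induction with
    | mem x hx =>
      obtain ⟨g, rfl⟩ := hx
      simp only [u, map_sub, Finset.sum_sub_distrib]
      rw [h g, sub_self]
    | zero => simp
    | add a b _ _ ha hb => simp only [Pi.add_apply, map_add, Finset.sum_add_distrib, ha, hb, add_zero]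
    | smul c a _ ha =>
      simp only [Pi.smul_apply, map_smul, ← Finset.smul_sum, ha, smul_zero]
  have hnil : ∀ x ∈ N, IsNilpotent x := by
    intro x hx
    obtain ⟨e, he, hid, k, hk⟩ := fit_XvKol N hN x hx
    have := idem_XvKol e hid (hτ e he)
    exact ⟨k, by rw [hk, this, mul_zero]⟩
  let π : (ι → Module.End K V) →ₗ[K] Module.End K V := LinearMap.proj i0
  refine eng_XvKol (N.map π) ?_ ?_ _ ?_ (by simpa using hlen)
  · rintro _ ⟨x, hx, rfl⟩ _ ⟨y, hy, rfl⟩
    exact ⟨x * y, hN x hx y hy, rfl⟩
  · rintro _ ⟨x, hx, rfl⟩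
    obtain ⟨k, hk⟩ := hnil x hx
    exact ⟨k, by simpa [π] using congrFun hk i0⟩
  · intro x hx
    obtain ⟨g, _, rfl⟩ := List.mem_map.1 hx
    exact ⟨u g, hu g, rfl⟩

theorem kol_stmt (p : ℕ) [Fact p.Prime] : KolStmt p := by
  intro M n G _ σ hM h g
  let f : Matrix (Fin n) (Fin n) ℤ_[p] →+* Matrix (Fin n) (Fin n) ℚ_[p] :=
    (algebraMap ℤ_[p] ℚ_[p]).mapMatrix
  let φ : Matrix (Fin n) (Fin n) ℤ_[p] →+* Module.End ℚ_[p] (Fin n → ℚ_[p]) :=
    ((Matrix.toLinAlgEquiv' (R := ℚ_[p]) (n := Fin n)).toRingEquiv.toRingHom).comp f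
  have hinj : Function.Injective φ := by
    refine (Matrix.toLinAlgEquiv' (R := ℚ_[p]) (n := Fin n)).injective.comp ?_
    exact Matrix.map_injective (IsFractionRing.injective ℤ_[p] ℚ_[p])
  have htr : ∀ A, LinearMap.trace ℚ_[p] _ (φ A) = algebraMap ℤ_[p] ℚ_[p] A.trace := by
    intro A
    have : φ A = Matrix.toLin' (A.map (algebraMap ℤ_[p] ℚ_[p])) := rfl
    rw [this, Matrix.trace_toLin'_eq]
    simp [Matrix.trace]
  let ρ : Fin M → G →* Module.End ℚ_[p] (Fin n → ℚ_[p]) := fun i => φ.toMonoidHom.comp (σ i)
  have hρ : ∀ g, ∑ i, LinearMap.trace ℚ_[p] _ (ρ i g) =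
      ∑ _i : Fin M, LinearMap.trace ℚ_[p] (Fin n → ℚ_[p]) 1 := by
    intro g
    have h1 : ∀ i : Fin M, ρ i g = φ (σ i g) := fun i => rfl
    simp only [h1, htr]
    rw [← map_one φ, htr, ← map_sum, ← map_sum, ← Finset.sum_range (fun i => (σ i g).trace),
      h g, Finset.sum_range]
  have := fld_XvKol ρ hρ ⟨0, hM⟩ (List.ofFn g) (by simp)
  apply hinj
  rw [map_zero, map_list_prod, ← this, List.map_ofFn, List.map_ofFn]
  congr 2
  funext j
  simp [ρ]

end Pool.Agent.MP_f68ac8_nt.Sv
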