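import Mathlib
import Pool.Agent.MP_f68ac8_nt.XvAux

namespace Pool.Agent.MP_f68ac8_nt.Sv

/-- the embedding of `ZMod N` in the rational circle -/
noncomputable def emb_XvSep (N : ℕ) [NeZero N] : ZMod N →+ AddCircle (1 : ℚ) :=
  ZMod.lift N ⟨AddMonoidHom.mk' (fun j : ℤ => (((j : ℚ) / N : ℚ) : AddCircle (1 : ℚ)))
      (fun a b => by push_cast; rw [add_div, AddCircle.coe_add]), by
    have hN : (N : ℚ) ≠ 0 := by exact_mod_cast NeZero.ne N
    simp only [AddMonoidHom.mk'_apply, Int.cast_natCast, div_self hN]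
    exact AddCircle.coe_period 1⟩

lemma emb_int_XvSep (N : ℕ) [NeZero N] (j : ℤ) :
    emb_XvSep N (j : ZMod N) = (((j : ℚ) / N : ℚ) : AddCircle (1 : ℚ)) := by
  simp [emb_XvSep]

lemma emb_inj_XvSep (N : ℕ) [NeZero N] : Function.Injective (emb_XvSep N) := by
  rw [injective_iff_map_eq_zero]
  intro a ha
  obtain ⟨j, rfl⟩ := ZMod.intCast_surjective a
  rw [emb_int_XvSep, AddCircle.coe_eq_zero_iff] at ha
  obtain ⟨n, hn⟩ := ha
  have hN : (N : ℚ) ≠ 0 := by exact_mod_cast NeZero.ne N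
  rw [zsmul_eq_mul, mul_one, eq_div_iff hN] at hn
  have h2 : j = n * N := by exact_mod_cast hn.symm
  rw [h2]; simp

lemma emb_range_XvSep (N : ℕ) [NeZero N] (x : AddCircle (1 : ℚ)) (hx : N • x = 0) :
    x ∈ (emb_XvSep N).range := by
  induction x using QuotientAddGroup.induction_on with
  | H r =>
    have h1 : ((N • r : ℚ) : AddCircle (1 : ℚ)) = 0 := by
      rw [AddCircle.coe_nsmul]; exact hx
    rw [AddCircle.coe_eq_zero_iff] at h1
    obtain ⟨n, hn⟩ := h1
    have hN : (N : ℚ) ≠ 0 := by exact_mod_cast NeZero.ne N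
    refine ⟨(n : ZMod N), ?_⟩
    rw [emb_int_XvSep]
    congr 1
    rw [zsmul_eq_mul, mul_one, nsmul_eq_mul] at hn
    rw [hn]; field_simp

theorem sep_stmt (p : ℕ) [Fact p.Prime] : SepStmt p := by
  intro m Q _ _ hQ y hy
  by_contra hne
  have hp : p.Prime := Fact.out
  have : NeZero (p ^ m) := ⟨pow_ne_zero _ hp.ne_zero⟩
  obtain ⟨ψ, hψ⟩ := CharacterModule.exists_character_apply_ne_zero_of_ne_zero hne
  have hN : ∀ z : Q, (p ^ m) • z = 0 := fun z => by
    have := hQ z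
    rwa [← Nat.cast_pow, Nat.cast_smul_eq_nsmul] at this
  let ψ' : Q →+ AddCircle (1 : ℚ) := ψ
  have hr : ∀ z : Q, ψ' z ∈ (emb_XvSep (p ^ m)).range := fun z =>
    emb_range_XvSep _ _ (by rw [← map_nsmul, hN, map_zero])
  let e := AddMonoidHom.ofInjective (emb_inj_XvSep (p ^ m))
  let φ : Q →+ ZMod (p ^ m) := e.symm.toAddMonoidHom.comp (ψ'.codRestrict _ hr)
  have hφ : ∀ z, emb_XvSep (p ^ m) (φ z) = ψ' z := fun z => by
    have : (e (φ z) : AddCircle (1 : ℚ)) = ψ' z := by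
      simp [φ]
    rw [← this]; rfl
  have h0 : φ y = 0 := by
    refine hy φ fun κ z => ?_
    obtain ⟨w, hw⟩ := Ideal.mem_span_singleton'.1 (PadicInt.appr_spec m κ)
    have hk : κ = (κ.appr m : ℤ_[p]) + w * (p : ℤ_[p]) ^ m := by rw [hw]; ring
    have h1 : κ • z = κ.appr m • z := by
      conv_lhs => rw [hk]
      rw [add_smul, mul_smul, hQ, smul_zero, add_zero, Nat.cast_smul_eq_nsmul]
    have h2 : PadicInt.toZModPow m κ = (κ.appr m : ZMod (p ^ m)) := by
      conv_lhs => rw [hk]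
      have h3 : PadicInt.toZModPow m ((p : ℤ_[p]) ^ m) = 0 := by
        rw [← Nat.cast_pow, map_natCast, ZMod.natCast_self]
      rw [map_add, map_mul, h3, mul_zero, add_zero, map_natCast]
    rw [h1, h2, map_nsmul, nsmul_eq_mul]
  apply hψ
  have := hφ y
  rw [h0, map_zero] at this
  exact this.symm

end Pool.Agent.MP_f68ac8_nt.Sv
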