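import Mathlib
import Pool.Agent.MP_f68ac8_nt.WvDefs

namespace Pool.Agent.MP_f68ac8_nt

open NumberField Polynomial

variable (p : ℕ) [Fact p.Prime]

/-- no product of at least two and at most `d` roots of `P` is a root of `P` -/
def RootFree (P : (ZMod p)[X]) (d : ℕ) : Prop :=
  ∀ l : List (AlgebraicClosure (ZMod p)), (∀ z ∈ l, aeval z P = 0) → 2 ≤ l.length →
    l.length ≤ d → aeval l.prod P ≠ 0

variable (F L : IntermediateField ℚ (AlgebraicClosure ℚ)) (S : Set (Ideal (𝓞 F))) (x : GQ)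

/-- `P(x)` kills the characters modulo `p` of the Galois group of `L` that are unramified
outside `S` -/
def PolyAct (P : (ZMod p)[X]) : Prop :=
  ∀ χ : GQ → ZMod p, UnrCh p F L S χ → ∀ g ∈ L.fixingSubgroup,
    (P.sum fun i a => a * χ (x ^ i * g * (x ^ i)⁻¹)) = 0

/-- `p ^ b * (x - κ)` kills the characters modulo powers of `p` of the Galois group of `L` that
are unramified outside `S` -/
def TwistAct (κ : ℤ_[p]) (b : ℕ) : Prop :=
  ∀ (m : ℕ) (χ : GQ → ZMod (p ^ m)), UnrCh (p ^ m) F L S χ → ∀ g ∈ L.fixingSubgroup,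
    (p : ZMod (p ^ m)) ^ b * (χ (x * g * x⁻¹) - PadicInt.toZModPow m κ * χ g) = 0

/-- the powers `κ ^ l` are not `1` modulo `p` for `0 < l < d`, and not `1` modulo `p ^ (a + 1)`
for `l` prime to `p` -/
def FarOne (κ : ℤ_[p]) (a d : ℕ) : Prop :=
  (∀ l, 0 < l → l < d → ¬ (p : ℤ_[p]) ∣ κ ^ l - 1) ∧
    ∀ l, ¬ p ∣ l → ¬ (p : ℤ_[p]) ^ (a + 1) ∣ κ ^ l - 1

end Pool.Agent.MP_f68ac8_nt
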