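import Mathlib
import Pool.Agent.MP_f68ac8_nt.YvDefs
import Pool.Agent.MP_f68ac8_nt.XvAux

/-! Traces along the augmentation filtration, several eigenvalues. -/

namespace Pool.Agent.MP_f68ac8_nt.Sv

open Polynomial

variable (p : ℕ) [hp : Fact p.Prime]

/-- a valuation estimate -/
def Pad2Stmt : Prop :=
  ∀ (κ y : ℤ_[p]) (a b c d : ℕ), FarOne p κ a d → c * (a + b) < d →
    (∀ t : ℕ, (p : ℤ_[p]) ^ t ∣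
      (p : ℤ_[p]) ^ (b * (c * t / d + 1)) * (∏ l ∈ Finset.Ico 1 (c * t), (κ ^ l - 1)) * y) → y = 0

/-- `P(T)` is invertible on the graded pieces of the powers of `D` -/
def RootStmt : Prop :=
  ∀ (R : Type) [Ring R] [Algebra ℤ_[p] R] (T : R →ₐ[ℤ_[p]] R) (D E : Submodule ℤ_[p] R)
    (P : ℤ_[p][X]) (d : ℕ), RootFree p (P.map PadicInt.toZMod) d →
    (∀ r : R, ∀ v ∈ E, r * v ∈ E ∧ v * r ∈ E) → (∀ v ∈ D, T v ∈ D) → (∀ v ∈ E, T v ∈ E) →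
    (∀ v ∈ D, aeval T.toLinearMap P v ∈ D ^ 2 ⊔ D.map ((p : ℤ_[p]) • LinearMap.id) ⊔ E) →
    ∀ l, 2 ≤ l → l ≤ d → ∃ s : ℤ_[p][X], ∀ v ∈ D ^ l, aeval T.toLinearMap (s * P) v - v ∈
      D ^ (l + 1) ⊔ (D ^ l).map ((p : ℤ_[p]) • LinearMap.id) ⊔ E

/-- a complement of `D ^ 2` modulo `D ^ (d + 1)` -/
def SplitStmt : Prop :=
  ∀ (R : Type) [Ring R] [Algebra ℤ_[p] R] (T : R →ₐ[ℤ_[p]] R) (D E : Submodule ℤ_[p] R)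
    (P Y : ℤ_[p][X]) (d m : ℕ), RootFree p (P.map PadicInt.toZMod) d →
    (∀ r : R, ∀ v ∈ E, r * v ∈ E ∧ v * r ∈ E) → (∀ r : R, (p : ℤ_[p]) ^ m • r ∈ E) →
    D ^ 2 ≤ D → (∀ v ∈ D, T v ∈ D) → (∀ v ∈ E, T v ∈ E) →
    (∀ v ∈ D, aeval T.toLinearMap P v ∈ D ^ 2 ⊔ D.map ((p : ℤ_[p]) • LinearMap.id) ⊔ E) →
    (∀ v ∈ D, aeval T.toLinearMap Y v ∈ D ^ 2 ⊔ E) →
    ∃ B : Submodule ℤ_[p] R, B ≤ D ∧ D ≤ B ⊔ D ^ 2 ⊔ E ∧ (∀ v ∈ B, T v ∈ B) ∧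
      ∀ v ∈ B, aeval T.toLinearMap Y v ∈ D ^ (d + 1) ⊔ E

/-- an invariant functional vanishes on the augmentation ideal -/
def Tr2Stmt : Prop :=
  ∀ (R G : Type) [Ring R] [Algebra ℤ_[p] R] [Group G] (T : R →ₐ[ℤ_[p]] R) (σ : G →* R)
    (α : G →* G) (τ : R →ₗ[ℤ_[p]] ℤ_[p]) (P : (ZMod p)[X]) (κ : ℤ_[p]) (a b c d : ℕ),
    RootFree p P d → FarOne p κ a d → c * (a + b) < d →
    (∀ g, σ (α g) = T (σ g)) → (∀ g, τ (T (σ g)) = τ (σ g)) →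
    (∀ g : Fin c → G, ∃ r : R, (List.ofFn fun i => σ (g i) - 1).prod = (p : ℤ_[p]) • r) →
    (∀ χ : G → ZMod p, (∀ g h, χ (g * h) = χ g + χ h) →
      (∀ m : ℕ, (∀ g, (∃ r : R, σ g - 1 = (p : ℤ_[p]) ^ m • r) → χ g = 0) →
      ∀ g, (P.sum fun i a => a * χ (α^[i] g)) = 0)) →
    (∀ (m : ℕ) (χ : G → ZMod (p ^ m)), (∀ g h, χ (g * h) = χ g + χ h) →
      (∀ g, (∃ r : R, σ g - 1 = (p : ℤ_[p]) ^ m • r) → χ g = 0) →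
      ∀ g, (p : ZMod (p ^ m)) ^ b * (χ (α g) - PadicInt.toZModPow m κ * χ g) = 0) →
    ∀ g, τ (σ g) = τ 1

end Pool.Agent.MP_f68ac8_nt.Sv
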