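import Mathlib
import Pool.Agent.MP_f68ac8_nt.YvAux
import Pool.Agent.MP_f68ac8_nt.WvMain

/-! Scalar action on the abelianisation forces unipotence. -/

namespace Pool.Agent.MP_f68ac8_nt.Sv

open Ev NumberField Matrix Filter
open scoped Topology Pointwise

variable {p : ℕ} [hp : Fact p.Prime]

lemma dvd_YvMain {n : ℕ} (m : ℕ) (f : ℕ → Matrix (Fin n) (Fin n) ℤ_[p])
    (h : ∀ i s t, (p : ℤ_[p]) ^ m ∣ f i s t) : ∃ r, f = (p : ℤ_[p]) ^ m • r := by
  choose r hr using h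
  exact ⟨fun i => Matrix.of (r i), funext fun i => Matrix.ext fun s t => hr i s t⟩

theorem unip_of (hT : Tr2Stmt p) (hK : KolStmt p) {F K L : IntermediateField ℚ Qb} [NumberField K]
    (h : K ≤ L) (hN : ∀ g ∈ F.fixingSubgroup, ∀ y ∈ L, g y ∈ L) {S : Set (Ideal (𝓞 F))} {x : GQ}
    (hx : x ∈ F.fixingSubgroup) {P : Polynomial (ZMod p)} {κ : ℤ_[p]} {a b c d n : ℕ}
    (hr : RootFree p P d) (hP : PolyAct p F L S x P) (ha : FarOne p κ a d)
    (hκ : TwistAct p F L S x κ b) (hc : c * (a + b) < d)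
    (ρ : K.fixingSubgroup →ₜ* GL (Fin n) ℤ_[p])
    (h1 : ResNil p c fun g : L.fixingSubgroup => ρ ⟨g, IntermediateField.fixingSubgroup_le h g.2⟩)
    (h2 : ∀ g : K.fixingSubgroup, g.1 ∈ L.fixingSubgroup → InerOut F S g → ρ g = 1)
    (g : Fin n → L.fixingSubgroup) :
    (List.ofFn fun i =>
      (ρ ⟨g i, IntermediateField.fixingSubgroup_le h (g i).2⟩).val - 1).prod = 0 := by
  classical
  have hle := IntermediateField.fixingSubgroup_le h
  have cj : ∀ y ∈ F.fixingSubgroup, ∀ g ∈ L.fixingSubgroup, y * g * y⁻¹ ∈ L.fixingSubgroup :=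
    fun y hy g hg => by
      rw [IntermediateField.mem_fixingSubgroup_iff] at hg ⊢
      intro z hz
      have := hg _ (hN _ (inv_mem hy) z hz)
      simp only [AlgEquiv.mul_apply, this]
      simp
  let β : ℕ → L.fixingSubgroup →* L.fixingSubgroup := fun i =>
    MonoidHom.mk' (fun g => ⟨x ^ i * g * (x ^ i)⁻¹, cj _ (pow_mem hx i) _ g.2⟩)
      fun g h => Subtype.ext (by simp only [Subgroup.coe_mul]; group)
  let ρ₀ : L.fixingSubgroup →* GL (Fin n) ℤ_[p] := ρ.toMonoidHom.comp (Subgroup.inclusion hle)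
  let σ : ℕ → L.fixingSubgroup →* Matrix (Fin n) (Fin n) ℤ_[p] := fun i =>
    (Units.coeHom _).comp (ρ₀.comp (β i))
  haveI : Finite (GQ ⧸ K.fixingSubgroup) :=
    Subgroup.quotient_finite_of_isOpen _ (IntermediateField.fixingSubgroup_isOpen K)
  haveI : K.fixingSubgroup.FiniteIndex := Subgroup.finiteIndex_of_finite_quotient
  obtain ⟨M, hM, -, hxM⟩ := K.fixingSubgroup.exists_pow_mem_of_index_ne_zero
    Subgroup.FiniteIndex.index_ne_zero x
  have per : ∀ i g, σ (i + M) g = (ρ ⟨_, hxM⟩).val * σ i g * (ρ ⟨_, hxM⟩)⁻¹.val := fun i g => by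
    change (ρ _).val = (ρ _).val * (ρ _).val * _
    rw [← map_inv, ← Units.val_mul, ← Units.val_mul, ← map_mul, ← map_mul]
    congr 2
    ext1
    change x ^ (i + M) * g * (x ^ (i + M))⁻¹ = x ^ M * (x ^ i * g * (x ^ i)⁻¹) * (x ^ M)⁻¹
    group
  let T : (ℕ → Matrix (Fin n) (Fin n) ℤ_[p]) →ₐ[ℤ_[p]] (ℕ → Matrix (Fin n) (Fin n) ℤ_[p]) :=
    AlgHom.pi fun i => Pi.evalAlgHom _ _ (i + 1)
  let τ : (ℕ → Matrix (Fin n) (Fin n) ℤ_[p]) →ₗ[ℤ_[p]] ℤ_[p] :=
    ∑ i ∈ Finset.range M, (Matrix.traceLinearMap _ _ _).comp (LinearMap.proj i)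
  have tv : ∀ f, τ f = ∑ i ∈ Finset.range M, (f i).trace := fun f => by
    simp [τ, LinearMap.sum_apply]
  have unr : ∀ (N m : ℕ) (χ : L.fixingSubgroup → ZMod N), (∀ g h, χ (g * h) = χ g + χ h) →
      (∀ g, (∃ r, MonoidHom.pi σ g - 1 = (p : ℤ_[p]) ^ m • r) → χ g = 0) →
      ∃ χ' : GQ → ZMod N, UnrCh N F L S χ' ∧ ∀ g : L.fixingSubgroup, χ' g.1 = χ g := by
    intro N m χ b1 b2
    let χ' : GQ → ZMod N := fun g => if h : g ∈ L.fixingSubgroup then χ ⟨g, h⟩ else 0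
    have c1 : ∀ g : L.fixingSubgroup, χ' g.1 = χ g := fun g => dif_pos g.2
    refine ⟨χ', ⟨fun g hg h hh => ?_, ?_, fun g hg hi => ?_⟩, c1⟩
    · exact (c1 (⟨g, hg⟩ * ⟨h, hh⟩)).trans ((b1 _ _).trans (by rw [← c1, ← c1]))
    · have d1 : {u : K.fixingSubgroup | ∀ s t, (p : ℤ_[p]) ^ m ∣ ((ρ u).val - 1) s t} ∈ 𝓝 1 := by
        have d2 : Continuous fun u : K.fixingSubgroup => (ρ u).val - 1 :=
          (Units.continuous_val.comp ρ.continuous).sub continuous_const
        refine eventually_all.2 fun s => eventually_all.2 fun t => ?_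
        have d3 : {z : ℤ_[p] | (p : ℤ_[p]) ^ m ∣ z} ∈ 𝓝 0 := by
          filter_upwards [Metric.closedBall_mem_nhds (0 : ℤ_[p])
            (zpow_pos (Nat.cast_pos.2 hp.out.pos : (0 : ℝ) < p) (-m))] with z hz
          rw [mem_closedBall_zero_iff, PadicInt.norm_le_pow_iff_mem_span_pow,
            Ideal.mem_span_singleton] at hz
          exact hz
        exact (d2.matrix_elem s t).continuousAt.preimage_mem_nhds (x := 1)
          (by rwa [map_one, Units.val_one, sub_self])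
      obtain ⟨s, s1, s2⟩ := (mem_nhds_subtype _ _ _).1 d1
      have d3 : ∀ i ∈ Set.Iio M, ∀ᶠ g in 𝓝 (1 : GQ), x ^ i * g * (x ^ i)⁻¹ ∈ s := fun i _ =>
        ((continuous_const.mul continuous_id).mul continuous_const).continuousAt.preimage_mem_nhds
          (by simpa using s1)
      filter_upwards [(eventually_all_finite (Set.finite_Iio M)).2 d3] with g d4 hg
      refine (c1 ⟨g, hg⟩).trans (b2 _ (dvd_YvMain m _ fun i => ?_))
      change ∀ s t, _ ∣ (σ i ⟨g, hg⟩ - 1) s t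
      induction i using Nat.strong_induction_on with
      | _ i ih =>
        by_cases hi : i < M
        · exact s2 (a := ⟨_, hle (β i ⟨g, hg⟩).2⟩) (d4 i hi)
        obtain ⟨j, rfl⟩ : ∃ j, i = j + M := ⟨i - M, by omega⟩
        intro s t
        have e : σ (j + M) ⟨g, hg⟩ - 1 =
            (ρ ⟨_, hxM⟩).val * (σ j ⟨g, hg⟩ - 1) * (ρ ⟨_, hxM⟩)⁻¹.val := by
          rw [per, mul_sub, sub_mul, mul_one, Units.mul_inv]
        rw [e]
        simp only [Matrix.mul_apply]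
        exact Finset.dvd_sum fun _ _ => Dvd.dvd.mul_right
          (Finset.dvd_sum fun _ _ => Dvd.dvd.mul_left (ih j (by omega) _ _) _) _
    · refine (c1 ⟨g, hg⟩).trans (b2 _ ⟨0, funext fun i => ?_⟩)
      have := h2 ⟨_, hle (β i ⟨g, hg⟩).2⟩ (β i ⟨g, hg⟩).2 (InerOut.conj hi (pow_mem hx i))
      change (ρ ⟨_, hle (β i ⟨g, hg⟩).2⟩).val - 1 = _
      rw [this, smul_zero, Units.val_one, sub_self]
      rfl
  have key := hT _ _ T (MonoidHom.pi σ) (β 1) τ P κ a b c d hr ha hc (fun g => funext fun i => ?_)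
    (fun g => ?_) (fun g => ?_) (fun χ b1 m b2 g => ?_) fun m χ b1 b2 g => ?_
  · have := hK M n _ σ hM (fun g => (tv _).symm.trans ((key g).trans (tv _))) g
    simp only [σ, β, ρ₀, MonoidHom.comp_apply, MonoidHom.mk'_apply, pow_zero, one_mul, inv_one,
      mul_one] at this
    exact this
  · refine congrArg (fun u => (ρ₀ u).val) (Subtype.ext ?_)
    change x ^ i * (x ^ 1 * g * (x ^ 1)⁻¹) * (x ^ i)⁻¹ = x ^ (i + 1) * g * (x ^ (i + 1))⁻¹
    group
  · rw [tv, tv]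
    change ∑ i ∈ Finset.range M, (σ (i + 1) g).trace = ∑ i ∈ Finset.range M, (σ i g).trace
    have e1 := Finset.sum_range_succ' (fun i => (σ i g).trace) M
    have e2 : (σ M g).trace = (σ 0 g).trace := by
      rw [← zero_add M, per, Matrix.trace_mul_cycle, Units.inv_mul, one_mul]
    rw [Finset.sum_range_succ, e2] at e1
    exact (add_right_cancel e1).symm
  · rw [← pow_one (p : ℤ_[p])]
    refine dvd_YvMain 1 _ fun i s t => ?_
    have e1 := congrFun (congrFun (h1 fun j => β i (g j)) s) t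
    rw [Matrix.map_apply, Matrix.zero_apply, ← RingHom.mem_ker, PadicInt.ker_toZMod,
      PadicInt.maximalIdeal_eq_span_p, Ideal.mem_span_singleton] at e1
    rw [pow_one, Pi.list_prod_apply, List.map_ofFn]
    exact e1
  · obtain ⟨χ', c0, c1⟩ := unr _ m χ b1 b2
    have e : ∀ i (g : L.fixingSubgroup), ((β 1)^[i] g).1 = x ^ i * g * (x ^ i)⁻¹ := fun i => by
      induction i with
      | zero => simp
      | succ i ih =>
        intro g
        rw [Function.iterate_succ_apply, ih]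
        change x ^ i * (x ^ 1 * g * (x ^ 1)⁻¹) * (x ^ i)⁻¹ = _
        group
    simpa only [← c1, e] using hP χ' c0 _ g.2
  · obtain ⟨χ', c0, c1⟩ := unr _ m χ b1 b2
    rw [← c1, ← c1]
    change _ * (χ' (x ^ 1 * g * (x ^ 1)⁻¹) - _) = _
    rw [pow_one]
    exact hκ m χ' c0 _ g.2

end Pool.Agent.MP_f68ac8_nt.Sv
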