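import Mathlib
import Pool.Agent.MP_f68ac8_nt.XvAux

namespace Pool.Agent.MP_f68ac8_nt.Sv

theorem dvd_iff_XvPad (p : ℕ) [Fact p.Prime] (x : ℤ_[p]) :
    (p : ℤ_[p]) ∣ x ↔ PadicInt.toZMod x = 0 := by
  rw [← RingHom.mem_ker, PadicInt.ker_toZMod, PadicInt.maximalIdeal_eq_span_p,
    Ideal.mem_span_singleton]

theorem lte_XvPad (p : ℕ) [hp : Fact p.Prime] (hodd : Odd p) (w : ℤ_[p]) (a : ℕ)
    (h1 : (p : ℤ_[p]) ∣ w - 1) (h2 : ¬ (p : ℤ_[p]) ^ (a + 1) ∣ w - 1) (j : ℕ) (hj : j ≠ 0) :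
    emultiplicity (p : ℤ_[p]) (w ^ j - 1) ≤ ((a + padicValNat p j : ℕ) : ℕ∞) := by
  have hpr : Prime (p : ℤ_[p]) := PadicInt.prime_p
  have hw : ¬ (p : ℤ_[p]) ∣ w := by
    intro h
    have : (p : ℤ_[p]) ∣ 1 := by
      have := dvd_sub h h1
      simpa using this
    exact hpr.not_dvd_one this
  obtain ⟨k, m, hm, rfl⟩ := Nat.exists_eq_pow_mul_and_not_dvd hj p hp.out.ne_one
  have hm0 : m ≠ 0 := by rintro rfl; exact hm (dvd_zero _)
  have hv : padicValNat p (p ^ k * m) = k := by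
    rw [padicValNat.mul (pow_ne_zero _ hp.out.ne_zero) hm0, padicValNat.prime_pow,
      padicValNat.eq_zero_of_not_dvd hm, add_zero]
  have hm' : ¬ (p : ℤ_[p]) ∣ (m : ℤ_[p]) := by
    rw [dvd_iff_XvPad, map_natCast, ZMod.natCast_eq_zero_iff]
    exact hm
  have e1 : emultiplicity (p : ℤ_[p]) (w ^ p ^ k - 1 ^ p ^ k) =
      emultiplicity (p : ℤ_[p]) (w - 1) + k :=
    emultiplicity_pow_prime_pow_sub_pow_prime_pow hpr hodd h1 hw k
  have h1' : (p : ℤ_[p]) ∣ w ^ p ^ k - 1 := by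
    have := (sub_dvd_pow_sub_pow w 1 (p ^ k))
    rw [one_pow] at this
    exact h1.trans this
  have hw' : ¬ (p : ℤ_[p]) ∣ w ^ p ^ k := fun h => hw (hpr.dvd_of_dvd_pow h)
  have e2 : emultiplicity (p : ℤ_[p]) ((w ^ p ^ k) ^ m - 1 ^ m) =
      emultiplicity (p : ℤ_[p]) (w ^ p ^ k - 1) :=
    emultiplicity_pow_sub_pow_of_prime hpr h1' hw' hm'
  rw [one_pow] at e1 e2
  rw [pow_mul, e2, e1, hv]
  have e3 : emultiplicity (p : ℤ_[p]) (w - 1) < ((a + 1 : ℕ) : ℕ∞) :=
    emultiplicity_lt_iff_not_dvd.2 h2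
  have e4 : emultiplicity (p : ℤ_[p]) (w - 1) ≤ (a : ℕ∞) := by
    rw [Nat.cast_add, Nat.cast_one] at e3
    exact Order.le_of_lt_add_one e3
  rw [Nat.cast_add]
  exact add_le_add e4 le_rfl

theorem prod_XvPad (p : ℕ) [hp : Fact p.Prime] (hodd : Odd p) (κ : ℤ_[p]) (a f : ℕ)
    (hf : f = orderOf (PadicInt.toZMod κ)) (hf0 : 0 < f)
    (h2 : ¬ (p : ℤ_[p]) ^ (a + 1) ∣ κ ^ f - 1) (N : ℕ) :
    emultiplicity (p : ℤ_[p]) (∏ l ∈ Finset.Ico 1 (N + 1), (κ ^ l - 1)) ≤
      ((a * (N / f) + padicValNat p (N / f).factorial : ℕ) : ℕ∞) := by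
  have hpr : Prime (p : ℤ_[p]) := PadicInt.prime_p
  have h1 : (p : ℤ_[p]) ∣ κ ^ f - 1 := by
    rw [dvd_iff_XvPad, map_sub, map_pow, map_one, hf, pow_orderOf_eq_one, sub_self]
  induction N with
  | zero =>
    have : emultiplicity (p : ℤ_[p]) 1 = 0 := emultiplicity_eq_zero.2 hpr.not_dvd_one
    simp [this]
  | succ N ih =>
    rw [Finset.prod_Ico_succ_top (by omega), emultiplicity_mul hpr]
    by_cases hd : f ∣ N + 1
    · have hj : (N + 1) / f = N / f + 1 := by
        rw [Nat.succ_div]; simp [hd]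
      have hN : N + 1 = f * (N / f + 1) := by
        rw [← hj]; exact (Nat.mul_div_cancel' hd).symm
      have e := lte_XvPad p hodd (κ ^ f) a h1 h2 (N / f + 1) (Nat.succ_ne_zero _)
      rw [← pow_mul, ← hN] at e
      rw [hj, Nat.factorial_succ,
        padicValNat.mul (Nat.add_one_ne_zero _) (Nat.factorial_ne_zero _)]
      refine (add_le_add ih e).trans ?_
      rw [← Nat.cast_add]
      exact Nat.cast_le.2 (by rw [mul_add]; omega)
    · have hj : (N + 1) / f = N / f := by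
        rw [Nat.succ_div]; simp [hd]
      have e : emultiplicity (p : ℤ_[p]) (κ ^ (N + 1) - 1) = 0 := by
        refine emultiplicity_eq_zero.2 ?_
        rw [dvd_iff_XvPad, map_sub, map_pow, map_one, sub_eq_zero]
        intro h
        exact hd (hf ▸ orderOf_dvd_of_pow_eq_one h)
      rw [hj, e, add_zero]
      exact ih

theorem pad_stmt (p : ℕ) [Fact p.Prime] : PadStmt p := by
  intro κ y a c h2 hac h
  have hp : p.Prime := Fact.out
  have hpr : Prime (p : ℤ_[p]) := PadicInt.prime_p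
  by_contra hy
  obtain ⟨v, hv⟩ : ∃ v : ℕ, emultiplicity (p : ℤ_[p]) y = v := by
    have hfin : FiniteMultiplicity (p : ℤ_[p]) y :=
      FiniteMultiplicity.of_prime_left hpr hy
    exact ⟨_, hfin.emultiplicity_eq_multiplicity⟩
  rcases Nat.eq_zero_or_pos c with rfl | hc
  · have h1 := h (v + 1)
    simp only [zero_mul, Finset.Ico_eq_empty_of_le (Nat.zero_le 1), Finset.prod_empty,
      one_mul] at h1
    have h3 := le_emultiplicity_of_pow_dvd h1
    rw [hv] at h3
    have := Nat.cast_le.1 h3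
    omega
  · obtain ⟨f, hf⟩ : ∃ f, f = orderOf (PadicInt.toZMod κ) := ⟨_, rfl⟩
    rw [← hf] at h2 hac
    have hf0 : 0 < f := by omega
    have hu : (PadicInt.toZMod κ) ^ f = 1 := by rw [hf]; exact pow_orderOf_eq_one _
    have h1 : (p : ℤ_[p]) ∣ κ ^ f - 1 := by
      rw [dvd_iff_XvPad, map_sub, map_pow, map_one, hu, sub_self]
    have ha : 1 ≤ a := by
      rcases Nat.eq_zero_or_pos a with rfl | ha
      · exact absurd (by simpa using h1) h2
      · exact ha
    have hu0 : PadicInt.toZMod κ ≠ 0 := by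
      intro h0
      rw [h0, zero_pow hf0.ne'] at hu
      exact zero_ne_one hu
    have hfp : f ≤ p - 1 := by
      have h2' := hp.two_le
      refine Nat.le_of_dvd (by omega) ?_
      rw [hf]
      exact orderOf_dvd_of_pow_eq_one (ZMod.pow_card_sub_one_eq_one hu0)
    have hcc : c ≤ a * c := Nat.le_mul_of_pos_left c ha
    have hodd : Odd p := hp.odd_of_ne_two (by omega)
    obtain ⟨r, hr⟩ : ∃ r, r = p - 1 := ⟨_, rfl⟩
    rw [← hr] at hfp
    have hr0 : 0 < r := by omega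
    obtain ⟨s, hs⟩ : ∃ s, s = v + 1 := ⟨_, rfl⟩
    have hpos : 0 < c * (f * r * s) := by
      have : 0 < s := by omega
      positivity
    obtain ⟨N, hN⟩ : ∃ N, c * (f * r * s) = N + 1 := ⟨c * (f * r * s) - 1, by omega⟩
    have h3 := le_emultiplicity_of_pow_dvd (h (f * r * s))
    rw [emultiplicity_mul hpr, hv, hN] at h3
    have h4 := h3.trans (add_le_add (prod_XvPad p hodd κ a f hf hf0 h2 N) le_rfl)
    rw [← Nat.cast_add] at h4
    have h5 := Nat.cast_le.1 h4
    obtain ⟨J, hJ⟩ : ∃ J, J = N / f := ⟨_, rfl⟩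
    rw [← hJ] at h5
    have hJ0 : J ≤ c * r * s := by
      rw [hJ]
      apply Nat.div_le_of_le_mul
      have : f * (c * r * s) = c * (f * r * s) := by ring
      omega
    have h6 : r * padicValNat p J.factorial ≤ J := by
      rw [hr, sub_one_mul_padicValNat_factorial]
      exact Nat.sub_le _ _
    have h7 : padicValNat p J.factorial ≤ c * s := by
      refine Nat.le_of_mul_le_mul_left ?_ hr0
      have : r * (c * s) = c * r * s := by ring
      omega
    have h8 : a * J ≤ a * c * (r * s) := by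
      have := Nat.mul_le_mul_left a hJ0
      have e : a * (c * r * s) = a * c * (r * s) := by ring
      omega
    have h9 : (a * c + 1) * (r * s) ≤ f * r * s := by
      rw [mul_assoc f]
      exact Nat.mul_le_mul_right _ hac
    have h10 : (c + 1) * s ≤ r * s := Nat.mul_le_mul_right _ (by omega)
    have e1 : (a * c + 1) * (r * s) = a * c * (r * s) + r * s := by ring
    have e2 : (c + 1) * s = c * s + s := by ring
    omega

end Pool.Agent.MP_f68ac8_nt.Sv
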