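import Mathlib
import Pool.Agent.MP_f68ac8_nt.YvAux
import Pool.Agent.MP_f68ac8_nt.XvPad

namespace Pool.Agent.MP_f68ac8_nt.Sv

theorem pw_YvPad (p : ℕ) [Fact p.Prime] (n : ℕ) :
    emultiplicity (p : ℤ_[p]) ((p : ℤ_[p]) ^ n) = n :=
  emultiplicity_pow_self_of_prime PadicInt.prime_p n

theorem unit_YvPad (p : ℕ) [Fact p.Prime] (κ : ℤ_[p]) (hκ : PadicInt.toZMod κ = 0) (N : ℕ) :
    emultiplicity (p : ℤ_[p]) (∏ l ∈ Finset.Ico 1 N, (κ ^ l - 1)) = 0 := by
  have hpr : Prime (p : ℤ_[p]) := PadicInt.prime_p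
  refine emultiplicity_eq_zero.2 fun h => ?_
  obtain ⟨l, hl, h1⟩ := (Prime.dvd_finsetProd_iff hpr _).1 h
  have hl0 : l ≠ 0 := by
    have := (Finset.mem_Ico.1 hl).1
    omega
  rw [dvd_iff_XvPad, map_sub, map_pow, map_one, hκ, zero_pow hl0, zero_sub, neg_eq_zero] at h1
  exact one_ne_zero h1

theorem pad2_stmt (p : ℕ) [Fact p.Prime] : Pad2Stmt p := by
  intro κ y a b c d hfar hac h
  have hp : p.Prime := Fact.out
  have hpr : Prime (p : ℤ_[p]) := PadicInt.prime_p
  by_contra hy
  obtain ⟨v, hv⟩ : ∃ v : ℕ, emultiplicity (p : ℤ_[p]) y = v := by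
    have hfin : FiniteMultiplicity (p : ℤ_[p]) y :=
      FiniteMultiplicity.of_prime_left hpr hy
    exact ⟨_, hfin.emultiplicity_eq_multiplicity⟩
  have hd : 0 < d := by omega
  have key : ∀ t e : ℕ,
      emultiplicity (p : ℤ_[p]) (∏ l ∈ Finset.Ico 1 (c * (d * t)), (κ ^ l - 1)) ≤ (e : ℕ∞) →
      d * t ≤ b * (c * t + 1) + e + v := by
    intro t e he
    have h3 := le_emultiplicity_of_pow_dvd (h (d * t))
    have e1 : c * (d * t) / d = c * t := by
      rw [show c * (d * t) = d * (c * t) by ring]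
      exact Nat.mul_div_cancel_left _ hd
    rw [emultiplicity_mul hpr, emultiplicity_mul hpr, hv, pw_YvPad, e1] at h3
    have h4 := h3.trans (add_le_add (add_le_add le_rfl he) le_rfl)
    rw [← Nat.cast_add, ← Nat.cast_add] at h4
    exact Nat.cast_le.1 h4
  obtain ⟨s, hs⟩ : ∃ s, s = b + v + 1 := ⟨_, rfl⟩
  by_cases hκ : PadicInt.toZMod κ = 0 ∨ c = 0
  · have h1 := key s 0 (by
      rcases hκ with hκ | rfl
      · rw [unit_YvPad p κ hκ]
        exact le_rfl
      · have : emultiplicity (p : ℤ_[p]) 1 = 0 := emultiplicity_eq_zero.2 hpr.not_dvd_one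
        simp [this])
    have h2 : (c * (a + b) + 1) * s ≤ d * s := Nat.mul_le_mul_right _ hac
    have e1 : (c * (a + b) + 1) * s = c * a * s + c * b * s + s := by ring
    have e2 : b * (c * s + 1) = c * b * s + b := by ring
    omega
  · push Not at hκ
    obtain ⟨hu0, hc0⟩ := hκ
    have hc : 0 < c := Nat.pos_of_ne_zero hc0
    obtain ⟨f, hf⟩ : ∃ f, f = orderOf (PadicInt.toZMod κ) := ⟨_, rfl⟩
    have h2' := hp.two_le
    have hfd : f ∣ p - 1 := by
      rw [hf]
      exact orderOf_dvd_of_pow_eq_one (ZMod.pow_card_sub_one_eq_one hu0)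
    have hf0 : 0 < f := Nat.pos_of_dvd_of_pos hfd (by omega)
    have hfp : f ≤ p - 1 := Nat.le_of_dvd (by omega) hfd
    have hu : (PadicInt.toZMod κ) ^ f = 1 := by rw [hf]; exact pow_orderOf_eq_one _
    have h1 : (p : ℤ_[p]) ∣ κ ^ f - 1 := by
      rw [dvd_iff_XvPad, map_sub, map_pow, map_one, hu, sub_self]
    have hdf : d ≤ f := not_lt.1 fun hlt => hfar.1 f hf0 hlt h1
    have h2 : ¬ (p : ℤ_[p]) ^ (a + 1) ∣ κ ^ f - 1 := hfar.2 f fun hh => by
      have := Nat.le_of_dvd hf0 hh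
      omega
    have ha : 1 ≤ a := by
      rcases Nat.eq_zero_or_pos a with rfl | ha
      · exact absurd (by simpa using h1) h2
      · exact ha
    have hcc : c ≤ c * (a + b) := Nat.le_mul_of_pos_right c (by omega)
    have hodd : Odd p := hp.odd_of_ne_two (by omega)
    obtain ⟨r, hr⟩ : ∃ r, r = p - 1 := ⟨_, rfl⟩
    rw [← hr] at hfp
    have hr0 : 0 < r := by omega
    have hpos : 0 < c * (d * (r * s)) := by
      have : 0 < s := by omega
      positivity
    obtain ⟨N, hN⟩ : ∃ N, c * (d * (r * s)) = N + 1 := ⟨c * (d * (r * s)) - 1, by omega⟩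
    have h5 := key (r * s) _ (by rw [hN]; exact prod_XvPad p hodd κ a f hf hf0 h2 N)
    obtain ⟨J, hJ⟩ : ∃ J, J = N / f := ⟨_, rfl⟩
    rw [← hJ] at h5
    have hJ0 : J ≤ c * r * s := by
      rw [hJ]
      apply Nat.div_le_of_le_mul
      have e : d * (c * r * s) = c * (d * (r * s)) := by ring
      have := Nat.mul_le_mul_right (c * r * s) hdf
      omega
    have h6 : r * padicValNat p J.factorial ≤ J := by
      rw [hr, sub_one_mul_padicValNat_factorial]
      exact Nat.sub_le _ _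
    have h7 : padicValNat p J.factorial ≤ c * s := by
      refine Nat.le_of_mul_le_mul_left ?_ hr0
      have : r * (c * s) = c * r * s := by ring
      omega
    have h8 : a * J ≤ c * a * (r * s) := by
      have := Nat.mul_le_mul_left a hJ0
      have e : a * (c * r * s) = c * a * (r * s) := by ring
      omega
    have h9 : (c * (a + b) + 1) * (r * s) ≤ d * (r * s) := Nat.mul_le_mul_right _ hac
    have h10 : (c + 1) * s ≤ r * s := Nat.mul_le_mul_right _ (by omega)
    have e1 : (c * (a + b) + 1) * (r * s) = c * a * (r * s) + c * b * (r * s) + r * s := by ring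
    have e2 : (c + 1) * s = c * s + s := by ring
    have e3 : b * (c * (r * s) + 1) = c * b * (r * s) + b := by ring
    omega

end Pool.Agent.MP_f68ac8_nt.Sv
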