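import Mathlib
import Pool.Agent.MP_f68ac8_nt.YvAux

namespace Pool.Agent.MP_f68ac8_nt.Sv

open Polynomial

theorem int_YvRoot {k C : Type} [Field k] [CommRing C] [Algebra k C] [Algebra.IsIntegral k C]
    {l : ℕ} (a : Fin l → C) (P : k[X]) (ha : ∀ i, aeval (a i) P = 0)
    (hP : ∀ x : Fin l → AlgebraicClosure k, (∀ i, aeval (x i) P = 0) → aeval (∏ i, x i) P ≠ 0) :
    ∃ s : k[X], aeval (∏ i, a i) (s * P) = 1 := by
  have hu : IsUnit (aeval (∏ i, a i) P) := by
    by_contra hn
    obtain ⟨m, hm, hle⟩ := Ideal.exists_le_maximal (Ideal.span {aeval (∏ i, a i) P})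
      (fun h => hn (Ideal.span_singleton_eq_top.1 h))
    let _ : Field (C ⧸ m) := Ideal.Quotient.field m
    have : Algebra.IsIntegral k (C ⧸ m) :=
      Algebra.IsIntegral.of_surjective (Ideal.Quotient.mkₐ k m) (Ideal.Quotient.mkₐ_surjective k m)
    let f : C →ₐ[k] AlgebraicClosure k :=
      (IsAlgClosed.lift (R := k) (S := C ⧸ m) (M := AlgebraicClosure k)).comp
        (Ideal.Quotient.mkₐ k m)
    refine hP (fun i => f (a i)) (fun i => ?_) ?_
    · rw [aeval_algHom_apply, ha, map_zero]
    · rw [← map_prod, aeval_algHom_apply]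
      have h0 : Ideal.Quotient.mkₐ k m (aeval (∏ i, a i) P) = 0 :=
        Ideal.Quotient.eq_zero_iff_mem.2 (hle (Ideal.mem_span_singleton_self _))
      simp only [f, AlgHom.comp_apply, h0, map_zero]
  let A : Subalgebra k C := (aeval (R := k) (∏ i, a i)).range
  have : Algebra.IsIntegral A C := Algebra.IsIntegral.tower_top k
  have hloc : IsLocalHom (algebraMap A C) :=
    (algebraMap_isIntegral_iff.2 this).isLocalHom Subtype.val_injective
  have hu' : IsUnit (⟨aeval (∏ i, a i) P, P, rfl⟩ : A) := hloc.map_nonunit _ hu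
  obtain ⟨⟨_, s, rfl⟩, hs⟩ := hu'.exists_left_inv
  exact ⟨s, by rw [map_mul]; exact congrArg Subtype.val hs⟩

theorem fld_YvRoot {k C : Type} [Field k] [CommRing C] [Algebra k C]
    {l : ℕ} (a : Fin l → C) (P : k[X]) (ha : ∀ i, aeval (a i) P = 0)
    (hP : ∀ x : Fin l → AlgebraicClosure k, (∀ i, aeval (x i) P = 0) → aeval (∏ i, x i) P ≠ 0) :
    ∃ s : k[X], aeval (∏ i, a i) (s * P) = 1 := by
  have h0 : P ≠ 0 := by
    rintro rfl
    exact hP (fun _ => 0) (fun _ => map_zero _) (map_zero _)
  have hi : ∀ i, IsIntegral k (a i) := fun i => IsAlgebraic.isIntegral ⟨P, h0, ha i⟩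
  obtain ⟨s, hs⟩ := int_YvRoot (k := k) (C := integralClosure k C) (fun i => ⟨a i, hi i⟩) P
    (fun i => Subtype.ext ((aeval_subalgebra_coe P _ _).trans (ha i))) hP
  refine ⟨s, ?_⟩
  have := congrArg (integralClosure k C).val hs
  rwa [← aeval_algHom_apply, map_prod, map_one] at this

variable (p : ℕ) [hp : Fact p.Prime]

theorem pad_YvRoot {C : Type} [CommRing C] [Algebra ℤ_[p] C] (h0 : algebraMap ℤ_[p] C p = 0)
    {l d : ℕ} (h2 : 2 ≤ l) (hd : l ≤ d) (a : Fin l → C) (P : ℤ_[p][X])
    (hP : RootFree p (P.map PadicInt.toZMod) d) (ha : ∀ i, aeval (a i) P = 0) :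
    ∃ s : ℤ_[p][X], aeval (∏ i, a i) (s * P) = 1 := by
  have hs : Function.Surjective (PadicInt.toZMod (p := p)) := ZMod.ringHom_surjective _
  have hk : RingHom.ker (PadicInt.toZMod (p := p)) ≤ RingHom.ker (algebraMap ℤ_[p] C) := by
    rw [PadicInt.ker_toZMod, PadicInt.maximalIdeal_eq_span_p, Ideal.span_le,
      Set.singleton_subset_iff]
    exact h0
  let ψ : ZMod p →+* C := RingHom.liftOfSurjective _ hs ⟨algebraMap ℤ_[p] C, hk⟩
  have hψ : ψ.comp PadicInt.toZMod = algebraMap ℤ_[p] C :=
    RingHom.liftOfRightInverse_comp _ _ _ _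
  let _ : Algebra (ZMod p) C := ψ.toAlgebra
  have key : ∀ (c : C) (h : ℤ_[p][X]), aeval c (h.map PadicInt.toZMod) = aeval c h := fun c h => by
    rw [aeval_def, aeval_def, eval₂_map, ← hψ]
    rfl
  obtain ⟨s, hs'⟩ := fld_YvRoot a (P.map PadicInt.toZMod) (fun i => by rw [key, ha])
    fun x hx => by
      have := hP (List.ofFn x) (by simpa [List.mem_ofFn] using hx) (by simpa using h2)
        (by simpa using hd)
      rwa [List.prod_ofFn] at this
  obtain ⟨s, rfl⟩ := Polynomial.map_surjective _ hs s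
  exact ⟨s, by rw [← key, Polynomial.map_mul, hs']⟩

open scoped IsMulCommutative in
theorem op_YvRoot {W : Type} [AddCommGroup W] [Module ℤ_[p] W] {l d : ℕ} (h2 : 2 ≤ l) (hd : l ≤ d)
    (τ : Fin l → Module.End ℤ_[p] W) (hc : ∀ i j, τ i * τ j = τ j * τ i) (μ : W)
    (h0 : (p : ℤ_[p]) • μ = 0) (P : ℤ_[p][X]) (hP : RootFree p (P.map PadicInt.toZMod) d)
    (ha : ∀ i, aeval (τ i) P μ = 0) :
    ∃ s : ℤ_[p][X], aeval (List.ofFn τ).prod (s * P) μ = μ := by
  let S : Subalgebra ℤ_[p] (Module.End ℤ_[p] W) := Algebra.adjoin ℤ_[p] (Set.range τ)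
  have : IsMulCommutative S := Algebra.isMulCommutative_adjoin ℤ_[p] (by
    rintro _ ⟨i, rfl⟩ _ ⟨j, rfl⟩
    exact hc i j)
  let a : Fin l → S := fun i => ⟨τ i, Algebra.subset_adjoin ⟨i, rfl⟩⟩
  let I : Ideal S :=
    { carrier := {x | (x : Module.End ℤ_[p] W) μ = 0}
      zero_mem' := rfl
      add_mem' := fun {x y} (hx : (x : Module.End ℤ_[p] W) μ = 0)
          (hy : (y : Module.End ℤ_[p] W) μ = 0) => by
        show (x : Module.End ℤ_[p] W) μ + (y : Module.End ℤ_[p] W) μ = 0
        rw [hx, hy, add_zero]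
      smul_mem' := fun c x (hx : (x : Module.End ℤ_[p] W) μ = 0) => by
        show (c : Module.End ℤ_[p] W) ((x : Module.End ℤ_[p] W) μ) = 0
        rw [hx, map_zero] }
  obtain ⟨s, hs⟩ := pad_YvRoot p (C := S ⧸ I) (Ideal.Quotient.eq_zero_iff_mem.2 h0) h2 hd
    (fun i => Ideal.Quotient.mkₐ ℤ_[p] I (a i)) P hP fun i => by
      rw [aeval_algHom_apply]
      refine Ideal.Quotient.eq_zero_iff_mem.2 ?_
      show (aeval (a i) P : S).val μ = 0
      rw [aeval_subalgebra_coe]
      exact ha i
  refine ⟨s, ?_⟩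
  rw [← map_prod, aeval_algHom_apply, ← map_one (Ideal.Quotient.mkₐ ℤ_[p] I)] at hs
  have h1 : (aeval (∏ i, a i) (s * P) - 1 : S).val μ = 0 := Ideal.Quotient.eq.1 hs
  have h3 : (∏ i, a i : S).val = (List.ofFn τ).prod := by
    rw [← List.prod_ofFn]
    show S.val (List.ofFn a).prod = _
    rw [map_list_prod, List.map_ofFn]
    rfl
  rw [AddSubgroupClass.coe_sub, aeval_subalgebra_coe, h3] at h1
  exact sub_eq_zero.1 h1

theorem ev_YvRoot {Λ Y R M : Type} [CommRing Λ] [AddCommGroup R] [Module Λ R] [AddCommGroup M]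
    [Module Λ M] (g : Y → Y) (μ : Y → M) (y : Y) (F : R →ₗ[Λ] M) (T : Module.End Λ R) (v : R)
    (h : ∀ n : ℕ, μ (g^[n] y) = F ((T ^ n) v)) (q : Λ[X]) :
    aeval (R := Λ) (A := Module.End Λ (Y → M)) (LinearMap.funLeft Λ M g) q μ y =
      F (aeval T q v) := by
  have h1 : ∀ (n : ℕ) (μ : Y → M),
      ((LinearMap.funLeft Λ M g : Module.End Λ (Y → M)) ^ n) μ y = μ (g^[n] y) := fun n => by
    induction n with
    | zero => exact fun _ => rfl
    | succ n ih =>
      intro μ
      rw [pow_succ, Module.End.mul_apply, ih, Function.iterate_succ_apply']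
      rfl
  induction q using Polynomial.induction_on' with
  | add q r hq hr => simp only [map_add, LinearMap.add_apply, Pi.add_apply, hq, hr]
  | monomial n c =>
    simp only [aeval_monomial, Module.End.mul_apply, Module.algebraMap_end_apply, Pi.smul_apply,
      h1, h, map_smul]

theorem list_YvRoot {Λ R : Type} [CommRing Λ] [Ring R] [Algebra Λ R] (D : Submodule Λ R)
    (L : List R) (h : ∀ x ∈ L, x ∈ D) : L.prod ∈ D ^ L.length := by
  induction L with
  | nil =>
    rw [List.prod_nil, List.length_nil, pow_zero]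
    exact Submodule.one_le.1 le_rfl
  | cons x L ih =>
    rw [List.prod_cons, List.length_cons, pow_succ']
    exact Submodule.mul_mem_mul (h x (by simp)) (ih fun y hy => h y (by simp [hy]))

theorem upd_YvRoot {Λ R : Type} [CommRing Λ] [Ring R] [Algebra Λ R] (D : Submodule Λ R) {l : ℕ}
    (x : Fin l → R) (hx : ∀ i, x i ∈ D) (i : Fin l) :
    ∃ (m n : ℕ) (a b : R), m + 1 + n = l ∧ a ∈ D ^ m ∧ b ∈ D ^ n ∧
      ∀ y, (List.ofFn (Function.update x i y)).prod = a * y * b := by
  have hm : ∀ z ∈ List.ofFn x, z ∈ D := fun z hz => by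
    obtain ⟨j, rfl⟩ := List.mem_ofFn.1 hz
    exact hx j
  refine ⟨_, _, _, _, ?_,
    list_YvRoot D ((List.ofFn x).take i) fun z hz => hm z (List.mem_of_mem_take hz),
    list_YvRoot D ((List.ofFn x).drop (i + 1)) fun z hz => hm z (List.mem_of_mem_drop hz),
    fun y => ?_⟩
  · have := i.2
    simp only [List.length_take, List.length_drop, List.length_ofFn]
    omega
  · have h1 : List.ofFn (Function.update x i y) = (List.ofFn x).set i y := by
      refine List.ext_getElem (by simp) fun n h1 h2 => ?_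
      simp only [List.getElem_ofFn, List.getElem_set, Function.update_apply, Fin.ext_iff]
      simp only [eq_comm]
    rw [h1, List.prod_set, if_pos (by simp)]

theorem all_YvRoot {Λ Z M : Type} [CommRing Λ] [AddCommGroup M] [Module Λ M] {l : ℕ} (t : Z → Z)
    (L : List (Fin l)) (hL : L.Nodup) :
    (L.map fun i => (LinearMap.funLeft Λ M (fun x : Fin l → Z => Function.update x i (t (x i))) :
      Module.End Λ ((Fin l → Z) → M))).prod =
      LinearMap.funLeft Λ M fun x j => if j ∈ L then t (x j) else x j := by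
  induction L with
  | nil =>
    ext μ x
    simp
  | cons i L ih =>
    rw [List.nodup_cons] at hL
    rw [List.map_cons, List.prod_cons, ih hL.2]
    refine LinearMap.ext fun μ => funext fun x => congrArg μ (funext fun j => ?_)
    by_cases hj : j = i
    · subst hj
      simp [hL.1]
    · simp [hj]

theorem root_stmt (p : ℕ) [Fact p.Prime] : RootStmt p := by
  intro R _ _ T D E P d hP hE hD _ hT l h2 hd
  set N : Submodule ℤ_[p] R := D ^ (l + 1) ⊔ (D ^ l).map ((p : ℤ_[p]) • LinearMap.id) ⊔ E with hN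
  let t : D → D := fun v => ⟨T v, hD v v.2⟩
  have ht : ∀ (n : ℕ) (v : D), (t^[n] v : R) = (T.toLinearMap ^ n) v := fun n => by
    induction n with
    | zero => exact fun _ => rfl
    | succ n ih =>
      intro v
      rw [Function.iterate_succ_apply, ih, pow_succ]
      rfl
  let μ : (Fin l → D) → R ⧸ N := fun x => N.mkQ (List.ofFn fun i => (x i : R)).prod
  have hmem : ∀ x : Fin l → D, (List.ofFn fun i => (x i : R)).prod ∈ D ^ l := fun x => by
    have := list_YvRoot D (List.ofFn fun i => (x i : R)) fun z hz => by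
      obtain ⟨j, rfl⟩ := List.mem_ofFn.1 hz
      exact (x j).2
    rwa [List.length_ofFn] at this
  obtain ⟨s, hs⟩ := op_YvRoot p h2 hd
    (fun i => LinearMap.funLeft ℤ_[p] (R ⧸ N) fun x : Fin l → D => Function.update x i (t (x i)))
    (fun i j => by
      refine LinearMap.ext fun f => funext fun x => congrArg f ?_
      by_cases hij : i = j
      · rw [hij]
      · simp only [Function.update_of_ne hij, Function.update_of_ne (Ne.symm hij)]
        exact Function.update_comm hij _ _ _) μ
    (by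
      funext x
      show (p : ℤ_[p]) • N.mkQ _ = 0
      rw [← map_smul]
      exact (Submodule.Quotient.mk_eq_zero N).2
        (Submodule.mem_sup_left (Submodule.mem_sup_right ⟨_, hmem x, rfl⟩))) P hP
    (fun i => by
      funext x
      obtain ⟨m, n, a, b, hl, ha, hb, hy⟩ := upd_YvRoot D (fun j => (x j : R)) (fun j => (x j).2) i
      let F : R →ₗ[ℤ_[p]] R := LinearMap.mulRight ℤ_[p] b ∘ₗ LinearMap.mulLeft ℤ_[p] a
      have hF : ∀ y, F y = a * y * b := fun _ => rfl
      rw [ev_YvRoot _ μ x (N.mkQ ∘ₗ F) T.toLinearMap (x i) ?_ P]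
      · refine (Submodule.Quotient.mk_eq_zero N).2 ?_
        have hle : D ^ 2 ⊔ D.map ((p : ℤ_[p]) • LinearMap.id) ⊔ E ≤ N.comap F := by
          refine sup_le (sup_le (fun y hy => ?_) ?_) fun y hy => ?_
          · refine Submodule.mem_sup_left (Submodule.mem_sup_left ?_)
            rw [hF, show l + 1 = m + 2 + n by omega, pow_add, pow_add]
            exact Submodule.mul_mem_mul (Submodule.mul_mem_mul ha hy) hb
          · rintro _ ⟨y, hy, rfl⟩
            refine Submodule.mem_sup_left (Submodule.mem_sup_right ⟨F y, ?_, ?_⟩)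
            · rw [hF, ← hl, pow_add, pow_succ]
              exact Submodule.mul_mem_mul (Submodule.mul_mem_mul ha hy) hb
            · simp only [LinearMap.smul_apply, LinearMap.id_apply, map_smul]
          · exact Submodule.mem_sup_right (hE b _ (hE a y hy).1).2
        exact hle (hT _ (x i).2)
      · intro k
        have h1 : (fun x : Fin l → D => Function.update x i (t (x i)))^[k] x =
            Function.update x i (t^[k] (x i)) := by
          induction k with
          | zero => simp
          | succ k ih => simp [Function.iterate_succ_apply', ih]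
        rw [h1, LinearMap.comp_apply, hF, ← hy, ← ht]
        refine congrArg (fun f : Fin l → R => N.mkQ (List.ofFn f).prod) (funext fun j => ?_)
        exact Function.apply_update (fun _ (v : D) => (v : R)) x i _ j)
  rw [List.ofFn_eq_map, all_YvRoot t _ (List.nodup_finRange l)] at hs
  refine ⟨s, fun v hv => ?_⟩
  have hle : D ^ l ≤ N.comap (aeval T.toLinearMap (s * P) - LinearMap.id) := by
    rw [Submodule.pow_eq_span_pow_set, Submodule.span_le]
    intro w hw
    obtain ⟨x, rfl⟩ := Set.mem_pow.1 hw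
    have h1 := congrFun hs x
    rw [ev_YvRoot _ μ x N.mkQ T.toLinearMap (List.ofFn fun i => (x i : R)).prod ?_ (s * P)] at h1
    · exact (Submodule.Quotient.eq N).1 h1
    · intro k
      simp only [List.mem_finRange, if_true]
      refine congrArg N.mkQ ?_
      induction k with
      | zero => rfl
      | succ k ih =>
        rw [Function.iterate_succ_apply', pow_succ', Module.End.mul_apply, ← ih,
          AlgHom.toLinearMap_apply, map_list_prod, List.map_ofFn]
        rfl
  exact hle hv

end Pool.Agent.MP_f68ac8_nt.Sv
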