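import Mathlib
import Pool.Agent.MP_f68ac8_nt.YvAux

namespace Pool.Agent.MP_f68ac8_nt.Sv

open Polynomial

section

variable {Λ M : Type} [CommRing Λ] [AddCommGroup M] [Module Λ M] {f : M →ₗ[Λ] M}

theorem stab_YvSplit {N : Submodule Λ M} (hN : ∀ v ∈ N, f v ∈ N) (h : Λ[X]) :
    ∀ v ∈ N, aeval f h v ∈ N := by
  induction h using Polynomial.induction_on with
  | C a =>
    intro v hv
    simpa using N.smul_mem a hv
  | add g h hg hh =>
    intro v hv
    rw [map_add, LinearMap.add_apply]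
    exact N.add_mem (hg v hv) (hh v hv)
  | monomial n a ih =>
    intro v hv
    rw [pow_succ, ← mul_assoc, map_mul, Module.End.mul_apply, aeval_X]
    exact ih _ (hN v hv)

theorem sup_YvSplit {g : M →ₗ[Λ] M} {N E N' : Submodule Λ M} (hN : ∀ v ∈ N, g v ∈ N')
    (hE : ∀ v ∈ E, g v ∈ N') : ∀ v ∈ N ⊔ E, g v ∈ N' := by
  intro v hv
  obtain ⟨x, hx, y, hy, rfl⟩ := Submodule.mem_sup.1 hv
  rw [map_add]
  exact N'.add_mem (hN x hx) (hE y hy)

theorem iter_YvSplit {A C : Submodule Λ M} (hC : ∀ v ∈ C, f v ∈ C) {c : Λ} {h : Λ[X]}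
    (hh : ∀ v ∈ A, aeval f h v ∈ C ⊔ A.map (c • LinearMap.id)) (j : ℕ) :
    ∀ v ∈ A, ∃ x ∈ C, ∃ a ∈ A, aeval f (h ^ j) v = x + c ^ j • a := by
  induction j with
  | zero =>
    intro v hv
    exact ⟨0, C.zero_mem, v, hv, by simp⟩
  | succ j ih =>
    intro v hv
    obtain ⟨x, hx, a, ha, e⟩ := ih v hv
    obtain ⟨y, hy, _, ⟨b, hb, rfl⟩, e'⟩ := Submodule.mem_sup.1 (hh a ha)
    refine ⟨aeval f h x + c ^ j • y, C.add_mem (stab_YvSplit hC h x hx) (C.smul_mem _ hy),
      b, hb, ?_⟩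
    rw [pow_succ', map_mul, Module.End.mul_apply, e, map_add, map_smul, ← e', smul_add, pow_succ,
      mul_smul, add_assoc]
    rfl

theorem pow_YvSplit {A C E : Submodule Λ M} (hC : ∀ v ∈ C, f v ∈ C) (hE : ∀ v ∈ E, f v ∈ E)
    {c : Λ} {h : Λ[X]} {m : ℕ} (hm : ∀ r : M, c ^ m • r ∈ E)
    (hh : ∀ v ∈ A, aeval f h v ∈ C ⊔ A.map (c • LinearMap.id) ⊔ E) :
    ∀ v ∈ A, aeval f (h ^ m) v ∈ C ⊔ E := by
  intro v hv
  obtain ⟨x, hx, a, -, e⟩ := iter_YvSplit (C := C ⊔ E)
    (sup_YvSplit (fun v hv => Submodule.mem_sup_left (hC v hv))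
      fun v hv => Submodule.mem_sup_right (hE v hv))
    (fun v hv => by
      rw [sup_right_comm]
      exact hh v hv) m v hv
  rw [e]
  exact Submodule.add_mem _ hx (Submodule.mem_sup_right (hm a))

end

theorem split_stmt (p : ℕ) [Fact p.Prime] (hR : RootStmt p) : SplitStmt p := by
  intro R _ _ T D E P Y d m hP hE hm hD2 hD hTE hPD hY
  have hDl : ∀ l : ℕ, ∀ v ∈ D ^ l, T.toLinearMap v ∈ D ^ l := by
    intro l v hv
    have h1 : D.map T.toLinearMap ≤ D := by
      rintro _ ⟨x, hx, rfl⟩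
      exact hD x hx
    have h2 : (D ^ l).map T.toLinearMap ≤ D ^ l := by
      rw [Submodule.map_pow]
      exact pow_le_pow_left' h1 l
    exact h2 ⟨v, hv, rfl⟩
  have hTE' : ∀ v ∈ E, T.toLinearMap v ∈ E := hTE
  have hD' : ∀ v ∈ D, T.toLinearMap v ∈ D := hD
  have hS : ∀ l : ℕ, ∀ v ∈ D ^ l ⊔ E, T.toLinearMap v ∈ D ^ l ⊔ E := fun l =>
    sup_YvSplit (fun v hv => Submodule.mem_sup_left (hDl l v hv))
      fun v hv => Submodule.mem_sup_right (hTE' v hv)
  have hU : ∀ e, e ≤ d → ∃ U : ℤ_[p][X], P ∣ 1 - U ∧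
      ∀ v ∈ D ^ 2 ⊔ E, aeval T.toLinearMap U v ∈ D ^ (e + 1) ⊔ E := by
    intro e
    induction e with
    | zero =>
      intro _
      refine ⟨1, by simp, fun v hv => ?_⟩
      rw [map_one, zero_add, pow_one]
      exact sup_le_sup_right hD2 E hv
    | succ e ih =>
      intro he
      rcases Nat.eq_zero_or_pos e with rfl | he0
      · exact ⟨1, by simp, fun v hv => by simpa using hv⟩
      obtain ⟨U, hU1, hU2⟩ := ih (by omega)
      obtain ⟨s, hs⟩ := hR R T D E P d hP hE hD hTE hPD (e + 1) (by omega) he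
      have h1 := pow_YvSplit (A := D ^ (e + 1)) (h := 1 - s * P) (hDl (e + 1 + 1)) hTE' hm
        fun v hv => by
          have := Submodule.neg_mem _ (hs v hv)
          rwa [neg_sub, ← Module.End.one_apply (R := ℤ_[p]) v, Module.End.one_apply v,
            show v - aeval T.toLinearMap (s * P) v = aeval T.toLinearMap (1 - s * P) v by
              rw [map_sub, map_one]
              rfl] at this
      refine ⟨(1 - s * P) ^ m * U, ?_, fun v hv => ?_⟩
      · have h2 : P ∣ 1 - (1 - s * P) ^ m := by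
          have := sub_dvd_pow_sub_pow 1 (1 - s * P) m
          rw [one_pow, sub_sub_cancel] at this
          exact (dvd_mul_left P s).trans this
        have e1 : 1 - (1 - s * P) ^ m * U =
            (1 - (1 - s * P) ^ m) + (1 - s * P) ^ m * (1 - U) := by ring
        rw [e1]
        exact dvd_add h2 (hU1.mul_left _)
      · rw [map_mul, Module.End.mul_apply]
        exact sup_YvSplit h1 (fun w hw => Submodule.mem_sup_right (stab_YvSplit hTE' _ w hw)) _
          (hU2 v hv)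
  obtain ⟨U, hU1, hU2⟩ := hU d le_rfl
  obtain ⟨q, hq⟩ := pow_dvd_pow_of_dvd hU1 m
  obtain ⟨q', hq'⟩ := sub_dvd_pow_sub_pow 1 (1 - U) m
  rw [one_pow, sub_sub_cancel] at hq'
  have hPm := pow_YvSplit (hDl 2) hTE' hm hPD
  refine ⟨D.map (aeval T.toLinearMap (1 - (1 - U) ^ m)), ?_, fun v hv => ?_, ?_, ?_⟩
  · rintro _ ⟨v, hv, rfl⟩
    exact stab_YvSplit hD' _ v hv
  · have e : v = aeval T.toLinearMap (1 - (1 - U) ^ m) v + aeval T.toLinearMap ((1 - U) ^ m) v := by
      rw [← LinearMap.add_apply, ← map_add, sub_add_cancel, map_one]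
      rfl
    rw [e, sup_assoc]
    refine Submodule.add_mem_sup ⟨v, hv, rfl⟩ ?_
    rw [hq, mul_comm, map_mul, Module.End.mul_apply]
    exact stab_YvSplit (hS 2) q _ (hPm v hv)
  · rintro _ ⟨v, hv, rfl⟩
    refine ⟨T v, hD v hv, ?_⟩
    have e := congrArg (fun h : ℤ_[p][X] => aeval T.toLinearMap h v)
      (mul_comm (1 - (1 - U) ^ m) X)
    simpa only [map_mul, Module.End.mul_apply, aeval_X, AlgHom.toLinearMap_apply] using e
  · rintro _ ⟨v, hv, rfl⟩
    rw [← Module.End.mul_apply, ← map_mul, hq', show Y * (U * q') = q' * U * Y by ring, map_mul,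
      map_mul, Module.End.mul_apply, Module.End.mul_apply]
    exact stab_YvSplit (hS (d + 1)) q' _ (hU2 _ (hY v hv))

end Pool.Agent.MP_f68ac8_nt.Sv
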