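import Mathlib
import Pool.Agent.MP_f68ac8_nt.XvAux

/-! An invariant functional vanishes on the augmentation ideal. -/

namespace Pool.Agent.MP_f68ac8_nt.Sv

section aux

variable {A : Type} [CommRing A] {R G : Type} [Ring R] [Algebra A R] [Group G]

/-- the span of the elements `σ g - 1` -/
def aug_XvTr (A : Type) [CommRing A] {R G : Type} [Ring R] [Algebra A R] [Group G]
    (σ : G →* R) : Submodule A R :=
  Submodule.span A (Set.range fun g => σ g - 1)

/-- the multiples of a scalar -/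
def mult_XvTr (R : Type) [Ring R] [Algebra A R] (π : A) : Submodule A R :=
  LinearMap.range (π • (LinearMap.id : R →ₗ[A] R))

theorem mem_mult_XvTr (π : A) (x : R) : x ∈ mult_XvTr R π ↔ ∃ r : R, x = π • r := by
  unfold mult_XvTr
  constructor
  · rintro ⟨r, hr⟩
    exact ⟨r, by simpa using hr.symm⟩
  · rintro ⟨r, hr⟩
    exact ⟨r, by simpa using hr.symm⟩

theorem mult_mul_left_XvTr (π : A) (y : R) {x : R} (hx : x ∈ mult_XvTr R π) :
    y * x ∈ mult_XvTr R π := by
  obtain ⟨r, rfl⟩ := (mem_mult_XvTr π x).1 hx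
  exact (mem_mult_XvTr π _).2 ⟨y * r, by rw [mul_smul_comm]⟩

theorem mult_mul_right_XvTr (π : A) (y : R) {x : R} (hx : x ∈ mult_XvTr R π) :
    x * y ∈ mult_XvTr R π := by
  obtain ⟨r, rfl⟩ := (mem_mult_XvTr π x).1 hx
  exact (mem_mult_XvTr π _).2 ⟨r * y, by rw [smul_mul_assoc]⟩

theorem gen_mem_XvTr (σ : G →* R) (g : G) : σ g - 1 ∈ aug_XvTr A σ :=
  Submodule.subset_span ⟨g, rfl⟩

theorem span_mul_XvTr (σ : G →* R) {x y : R} (hx : x ∈ Submodule.span A (Set.range σ))
    (hy : y ∈ Submodule.span A (Set.range σ)) : x * y ∈ Submodule.span A (Set.range σ) := by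
  have h : Submodule.span A (Set.range σ) * Submodule.span A (Set.range σ) ≤
      Submodule.span A (Set.range σ) := by
    rw [Submodule.span_mul_span]
    apply Submodule.span_mono
    rintro _ ⟨_, ⟨g, rfl⟩, _, ⟨h, rfl⟩, rfl⟩
    exact ⟨g * h, map_mul σ g h⟩
  exact h (Submodule.mul_mem_mul hx hy)

theorem one_mem_span_XvTr (σ : G →* R) : (1 : R) ∈ Submodule.span A (Set.range σ) :=
  Submodule.subset_span ⟨1, map_one σ⟩

theorem pow_le_span_XvTr (σ : G →* R) (l : ℕ) :
    aug_XvTr A σ ^ l ≤ Submodule.span A (Set.range σ) := by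
  have h1 : aug_XvTr A σ ≤ Submodule.span A (Set.range σ) := by
    unfold aug_XvTr
    rw [Submodule.span_le]
    rintro _ ⟨g, rfl⟩
    exact Submodule.sub_mem _ (Submodule.subset_span ⟨g, rfl⟩) (one_mem_span_XvTr σ)
  induction l with
  | zero =>
    rw [pow_zero, Submodule.one_le]
    exact one_mem_span_XvTr σ
  | succ l ih =>
    rw [pow_succ, Submodule.mul_le]
    intro x hx y hy
    exact span_mul_XvTr σ (ih hx) (h1 hy)

theorem tau_T_XvTr (T : R →ₐ[A] R) (σ : G →* R) (τ : R →ₗ[A] A)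
    (h : ∀ g, τ (T (σ g)) = τ (σ g)) {v : R} (hv : v ∈ Submodule.span A (Set.range σ)) :
    τ (T v) = τ v := by
  induction hv using Submodule.span_induction with
  | mem x hx => obtain ⟨g, rfl⟩ := hx; exact h g
  | zero => simp
  | add x y _ _ hx hy => rw [map_add, map_add, map_add, hx, hy]
  | smul a x _ hx => rw [map_smul, map_smul, map_smul, hx]

theorem T_aug_XvTr (T : R →ₐ[A] R) (σ : G →* R) (α : G →* G) (h : ∀ g, σ (α g) = T (σ g))
    {v : R} (hv : v ∈ aug_XvTr A σ) : T v ∈ aug_XvTr A σ := by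
  unfold aug_XvTr at hv
  induction hv using Submodule.span_induction with
  | mem x hx =>
    obtain ⟨g, rfl⟩ := hx
    show T (σ g - 1) ∈ _
    rw [map_sub, map_one, ← h]
    exact gen_mem_XvTr σ _
  | zero => simp
  | add x y _ _ hx hy => rw [map_add]; exact Submodule.add_mem _ hx hy
  | smul a x _ hx => rw [map_smul]; exact Submodule.smul_mem _ _ hx

theorem step_XvTr (T : R →ₐ[A] R) (D : Submodule A R) (π κ : A) (hT : ∀ v ∈ D, T v ∈ D)
    (h2 : ∀ v ∈ D, T v - κ • v ∈ D ^ 2 ⊔ mult_XvTr R π) (l : ℕ) :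
    ∀ v ∈ D ^ (l + 1), T v - κ ^ (l + 1) • v ∈ D ^ (l + 2) ⊔ mult_XvTr R π := by
  induction l with
  | zero =>
    intro v hv
    rw [zero_add, pow_one] at hv
    simpa using h2 v hv
  | succ l ih =>
    intro v hv
    rw [pow_succ] at hv
    refine Submodule.mul_induction_on hv ?_ ?_
    · intro x hx y hy
      obtain ⟨a, ha, e, he, hae⟩ := Submodule.mem_sup.1 (ih x hx)
      obtain ⟨b, hb, f, hf, hbf⟩ := Submodule.mem_sup.1 (h2 y hy)
      have key : T (x * y) - κ ^ (l + 1 + 1) • (x * y) =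
          (a * T y + κ ^ (l + 1) • (x * b)) + (e * T y + κ ^ (l + 1) • (x * f)) := by
        have e1 : T x = κ ^ (l + 1) • x + (a + e) := by rw [hae]; abel
        have e2 : T y = κ • y + (b + f) := by rw [hbf]; abel
        have e3 : T (x * y) = κ ^ (l + 1) • (x * T y) + (a * T y + e * T y) := by
          rw [map_mul, e1, add_mul, add_mul, smul_mul_assoc]
        have e4 : x * T y = κ • (x * y) + (x * b + x * f) := by
          rw [e2, mul_add, mul_add, mul_smul_comm]
        rw [e3, e4, smul_add, smul_add, smul_smul, ← pow_succ]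
        abel
      rw [key]
      refine Submodule.add_mem_sup (Submodule.add_mem _ ?_ (Submodule.smul_mem _ _ ?_))
        (Submodule.add_mem _ (mult_mul_right_XvTr π _ he)
          (Submodule.smul_mem _ _ (mult_mul_left_XvTr π _ hf)))
      · rw [show l + 1 + 2 = (l + 2) + 1 from rfl, pow_succ]
        exact Submodule.mul_mem_mul ha (hT y hy)
      · rw [pow_add]
        exact Submodule.mul_mem_mul hx hb
    · intro x y hx hy
      have : T (x + y) - κ ^ (l + 1 + 1) • (x + y) =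
          (T x - κ ^ (l + 1 + 1) • x) + (T y - κ ^ (l + 1 + 1) • y) := by
        rw [map_add, smul_add]; abel
      rw [this]
      exact Submodule.add_mem _ hx hy

theorem chain_XvTr (T : R →ₐ[A] R) (τ : R →ₗ[A] A) (D : Submodule A R) (π κ : A)
    (hT : ∀ v ∈ D, T v ∈ D) (h2 : ∀ v ∈ D, T v - κ • v ∈ D ^ 2 ⊔ mult_XvTr R π)
    (hτ : ∀ (l : ℕ), ∀ v ∈ D ^ l, τ (T v) = τ v) {v : R} (hv : v ∈ D) (N : ℕ) :
    ∃ w ∈ D ^ (N + 1), π ∣ (∏ l ∈ Finset.Ico 1 (N + 1), (κ ^ l - 1)) * τ v - τ w := by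
  induction N with
  | zero => exact ⟨v, by simpa using hv, by simp⟩
  | succ N ih =>
    obtain ⟨w, hw, hdiv⟩ := ih
    obtain ⟨a, ha, e, he, hae⟩ := Submodule.mem_sup.1 (step_XvTr T D π κ hT h2 N w hw)
    refine ⟨-a, Submodule.neg_mem _ ha, ?_⟩
    obtain ⟨r, rfl⟩ := (mem_mult_XvTr π e).1 he
    have h1 : τ a + π * τ r = τ w - κ ^ (N + 1) * τ w := by
      have := congrArg τ hae
      rw [map_add, map_sub, map_smul, map_smul, hτ _ w hw, smul_eq_mul, smul_eq_mul] at this
      exact this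
    rw [Finset.prod_Ico_succ_top (by omega : 1 ≤ N + 1), map_neg]
    obtain ⟨s, hs⟩ := hdiv
    refine ⟨(κ ^ (N + 1) - 1) * s - τ r, ?_⟩
    linear_combination (κ ^ (N + 1) - 1) * hs + h1

theorem pow_le_mult_XvTr (σ : G →* R) (π : A) (c : ℕ)
    (h : ∀ g : Fin c → G, ∃ r : R, (List.ofFn fun i => σ (g i) - 1).prod = π • r) :
    aug_XvTr A σ ^ c ≤ mult_XvTr R π := by
  unfold aug_XvTr
  rw [Submodule.span_pow, Submodule.span_le]
  intro x hx
  obtain ⟨f, hf⟩ := Set.mem_pow.1 hx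
  have hg : ∀ i, ∃ g : G, σ g - 1 = (f i : R) := fun i => (f i).2
  choose g hg using hg
  obtain ⟨r, hr⟩ := h g
  refine (mem_mult_XvTr π x).2 ⟨r, ?_⟩
  rw [← hr, ← hf]
  congr 2
  funext i
  exact (hg i).symm

theorem pow_mul_le_mult_XvTr (D : Submodule A R) (π : A) (c : ℕ) (h : D ^ c ≤ mult_XvTr R π)
    (t : ℕ) : D ^ (c * t) ≤ mult_XvTr R (π ^ t) := by
  induction t with
  | zero =>
    intro x _
    exact (mem_mult_XvTr _ x).2 ⟨x, by simp⟩
  | succ t ih =>
    rw [Nat.mul_succ, pow_add, Submodule.mul_le]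
    intro x hx y hy
    obtain ⟨r, rfl⟩ := (mem_mult_XvTr _ x).1 (ih hx)
    obtain ⟨s, rfl⟩ := (mem_mult_XvTr _ y).1 (h hy)
    exact (mem_mult_XvTr _ _).2 ⟨r * s, by rw [smul_mul_smul_comm, pow_succ]⟩

end aux

theorem tr_stmtX (p : ℕ) [Fact p.Prime] (hP : PadStmt p) (hS : SepStmt p) : TrStmt p := by
  intro R G _ _ _ T σ α τ κ a c h1 h2 hα hτ hc hχ g
  have hT : ∀ v ∈ aug_XvTr ℤ_[p] σ, T v ∈ aug_XvTr ℤ_[p] σ := fun v hv => T_aug_XvTr T σ α hα hv
  have hτ' : ∀ (l : ℕ), ∀ v ∈ aug_XvTr ℤ_[p] σ ^ l, τ (T v) = τ v :=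
    fun l v hv => tau_T_XvTr T σ τ hτ (pow_le_span_XvTr σ l hv)
  have hbase : ∀ m : ℕ, ∀ v ∈ aug_XvTr ℤ_[p] σ,
      T v - κ • v ∈ aug_XvTr ℤ_[p] σ ^ 2 ⊔ mult_XvTr R ((p : ℤ_[p]) ^ m) := by
    intro m
    set J : Submodule ℤ_[p] R := aug_XvTr ℤ_[p] σ ^ 2 ⊔ mult_XvTr R ((p : ℤ_[p]) ^ m) with hJ
    have hgen : ∀ g : G, T (σ g - 1) - κ • (σ g - 1) ∈ J := by
      intro g
      rw [← Submodule.Quotient.mk_eq_zero, ← Submodule.mkQ_apply]
      refine hS m (R ⧸ J) ?_ _ ?_
      · intro y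
        obtain ⟨r, rfl⟩ := J.mkQ_surjective y
        rw [← map_smul, Submodule.mkQ_apply, Submodule.Quotient.mk_eq_zero]
        exact Submodule.mem_sup_right ((mem_mult_XvTr _ _).2 ⟨r, rfl⟩)
      · intro φ hφ
        have hadd : ∀ g h : G, φ (J.mkQ (σ (g * h) - 1)) =
            φ (J.mkQ (σ g - 1)) + φ (J.mkQ (σ h - 1)) := by
          intro g h
          have hm : (σ g - 1) * (σ h - 1) ∈ J := by
            apply Submodule.mem_sup_left
            rw [pow_two]
            exact Submodule.mul_mem_mul (gen_mem_XvTr σ g) (gen_mem_XvTr σ h)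
          have h0 : J.mkQ ((σ g - 1) * (σ h - 1)) = 0 := by
            rw [Submodule.mkQ_apply, Submodule.Quotient.mk_eq_zero]; exact hm
          have e : σ (g * h) - 1 = (σ g - 1) * (σ h - 1) + ((σ g - 1) + (σ h - 1)) := by
            rw [map_mul]; noncomm_ring
          rw [e, map_add, h0, zero_add, map_add, map_add]
        have hz : ∀ g : G, (∃ r : R, σ g - 1 = (p : ℤ_[p]) ^ m • r) →
            φ (J.mkQ (σ g - 1)) = 0 := by
          intro g hg
          have h0 : J.mkQ (σ g - 1) = 0 := by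
            rw [Submodule.mkQ_apply, Submodule.Quotient.mk_eq_zero]
            exact Submodule.mem_sup_right ((mem_mult_XvTr _ _).2 hg)
          rw [h0, map_zero]
        have key := hχ m (fun g => φ (J.mkQ (σ g - 1))) hadd hz g
        have e : T (σ g - 1) = σ (α g) - 1 := by rw [map_sub, map_one, hα]
        rw [e, map_sub, map_smul, map_sub φ, hφ]
        exact sub_eq_zero.2 key
    intro v hv
    unfold aug_XvTr at hv
    induction hv using Submodule.span_induction with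
    | mem x hx => obtain ⟨g, rfl⟩ := hx; exact hgen g
    | zero => simp
    | add x y _ _ hx hy =>
      have : T (x + y) - κ • (x + y) = (T x - κ • x) + (T y - κ • y) := by
        rw [map_add, smul_add]; abel
      rw [this]
      exact Submodule.add_mem _ hx hy
    | smul b x _ hx =>
      have : T (b • x) - κ • (b • x) = b • (T x - κ • x) := by
        rw [map_smul, smul_sub, smul_comm κ b]
      rw [this]
      exact Submodule.smul_mem _ _ hx
  have hpow := pow_mul_le_mult_XvTr _ _ c (pow_le_mult_XvTr σ (p : ℤ_[p]) c hc)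
  have hdiv : ∀ (t : ℕ) (w : R), w ∈ mult_XvTr R ((p : ℤ_[p]) ^ t) → (p : ℤ_[p]) ^ t ∣ τ w := by
    intro t w hw
    obtain ⟨r, rfl⟩ := (mem_mult_XvTr _ w).1 hw
    rw [map_smul, smul_eq_mul]
    exact Dvd.intro _ rfl
  have h0 : τ (σ g - 1) = 0 := by
    refine hP κ _ a c h1 h2 ?_
    intro t
    rcases Nat.eq_zero_or_pos (c * t) with h | h
    · have h3 := hpow t
      rw [h, pow_zero, Submodule.one_le] at h3
      have h4 := mult_mul_left_XvTr _ (σ g - 1) h3
      rw [mul_one] at h4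
      exact Dvd.dvd.mul_left (hdiv t _ h4) _
    · obtain ⟨N, hN⟩ : ∃ N, c * t = N + 1 := ⟨c * t - 1, by omega⟩
      obtain ⟨w, hw, hd⟩ := chain_XvTr T τ _ _ κ hT (hbase t) hτ' (gen_mem_XvTr σ g) N
      rw [← hN] at hw hd
      have h5 := hdiv t w (hpow t hw)
      have := dvd_add hd h5
      simpa using this
  rw [map_sub] at h0
  exact sub_eq_zero.1 h0

end Pool.Agent.MP_f68ac8_nt.Sv
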