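import Mathlib
import Pool.Agent.MP_f68ac8_nt.YvAux
import Pool.Agent.MP_f68ac8_nt.WvRaise
import Pool.Agent.MP_f68ac8_nt.XvTr

/-! An invariant functional vanishes on the augmentation ideal, several eigenvalues. -/

namespace Pool.Agent.MP_f68ac8_nt.Sv

open Polynomial

section aux

variable {A : Type} [CommRing A] {R G : Type} [Ring R] [Algebra A R] [Group G]

theorem pow_mono_YvTr {B D : Submodule A R} (h : B ≤ D) (l : ℕ) : B ^ l ≤ D ^ l := by
  induction l with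
  | zero => rw [pow_zero, pow_zero]
  | succ l ih =>
    rw [pow_succ, pow_succ, Submodule.mul_le]
    exact fun x hx y hy => Submodule.mul_mem_mul (ih hx) (h hy)

theorem split_YvTr {B D E : Submodule A R} (hE : ∀ r : R, ∀ v ∈ E, r * v ∈ E ∧ v * r ∈ E)
    (h1 : B ≤ D) (h2 : D ≤ B ⊔ D ^ 2 ⊔ E) (l : ℕ) :
    D ^ (l + 1) ≤ B ^ (l + 1) ⊔ D ^ (l + 2) ⊔ E := by
  induction l with
  | zero => simpa using h2
  | succ l ih =>
    rw [pow_succ D (l + 1), Submodule.mul_le]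
    intro x hx y hy
    obtain ⟨x12, hx12, x3, hx3, rfl⟩ := Submodule.mem_sup.1 (ih hx)
    obtain ⟨x1, hx1, x2, hx2, rfl⟩ := Submodule.mem_sup.1 hx12
    obtain ⟨y12, hy12, y3, hy3, e⟩ := Submodule.mem_sup.1 (h2 hy)
    obtain ⟨y1, hy1, y2, hy2, rfl⟩ := Submodule.mem_sup.1 hy12
    have key : (x1 + x2 + x3) * y = (x1 * y1 + (x1 * y2 + x2 * y)) + (x1 * y3 + x3 * y) := by
      rw [add_mul, add_mul]
      nth_rewrite 1 [← e]
      rw [mul_add, mul_add]
      abel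
    rw [key]
    refine Submodule.add_mem_sup (Submodule.add_mem_sup ?_ (Submodule.add_mem _ ?_ ?_))
      (Submodule.add_mem _ (hE _ _ hy3).1 (hE _ _ hx3).2)
    · rw [pow_succ]
      exact Submodule.mul_mem_mul hx1 hy1
    · rw [pow_add]
      exact Submodule.mul_mem_mul (pow_mono_YvTr h1 _ hx1) hy2
    · rw [show l + 1 + 2 = (l + 2) + 1 from rfl, pow_succ]
      exact Submodule.mul_mem_mul hx2 hy

theorem step_YvTr (T : R →ₐ[A] R) {B D E : Submodule A R} (π κ : A) (d : ℕ)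
    (hE : ∀ r : R, ∀ v ∈ E, r * v ∈ E ∧ v * r ∈ E) (h1 : B ≤ D) (hT : ∀ v ∈ D, T v ∈ D)
    (h2 : ∀ v ∈ B, π • (T v - κ • v) ∈ D ^ (d + 1) ⊔ E) (l : ℕ) :
    ∀ v ∈ B ^ (l + 1), π • (T v - κ ^ (l + 1) • v) ∈ D ^ (l + 1 + d) ⊔ E := by
  induction l with
  | zero =>
    intro v hv
    rw [zero_add, pow_one] at hv
    rw [zero_add, pow_one, add_comm 1 d]
    exact h2 v hv
  | succ l ih =>
    intro v hv
    rw [pow_succ] at hv
    refine Submodule.mul_induction_on hv ?_ ?_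
    · intro x hx y hy
      obtain ⟨a, ha, e, he, hae⟩ := Submodule.mem_sup.1 (ih x hx)
      obtain ⟨b, hb, f, hf, hbf⟩ := Submodule.mem_sup.1 (h2 y hy)
      have key : π • (T (x * y) - κ ^ (l + 1 + 1) • (x * y)) =
          (a * T y + κ ^ (l + 1) • (x * b)) + (e * T y + κ ^ (l + 1) • (x * f)) := by
        have e1 : π • (T (x * y) - κ ^ (l + 1 + 1) • (x * y)) =
            (π • (T x - κ ^ (l + 1) • x)) * T y + κ ^ (l + 1) • (x * (π • (T y - κ • y))) := by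
          simp only [map_mul, smul_sub, sub_mul, mul_sub, smul_mul_assoc, mul_smul_comm, smul_smul,
            pow_succ]
          module
        rw [e1, ← hae, ← hbf, add_mul, mul_add, smul_add]
        abel
      rw [key]
      refine Submodule.add_mem_sup (Submodule.add_mem _ ?_ (Submodule.smul_mem _ _ ?_))
        (Submodule.add_mem _ (hE _ _ he).2 (Submodule.smul_mem _ _ (hE _ _ hf).1))
      · rw [show l + 1 + 1 + d = (l + 1 + d) + 1 by omega, pow_succ]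
        exact Submodule.mul_mem_mul ha (hT y (h1 hy))
      · rw [show l + 1 + 1 + d = (l + 1) + (d + 1) by omega, pow_add]
        exact Submodule.mul_mem_mul (pow_mono_YvTr h1 _ hx) hb
    · intro x y hx hy
      have : π • (T (x + y) - κ ^ (l + 1 + 1) • (x + y)) =
          π • (T x - κ ^ (l + 1 + 1) • x) + π • (T y - κ ^ (l + 1 + 1) • y) := by
        rw [map_add]
        module
      rw [this]
      exact Submodule.add_mem _ hx hy

theorem down_YvTr (X : ℕ → Set A) (q π κ : A) (N d : ℕ) (hd : 0 < d)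
    (hN : ∀ l, N ≤ l → ∀ v ∈ X l, q ∣ v)
    (hs : ∀ l, 1 ≤ l → ∀ v ∈ X l, ∃ w : A, ∃ v' ∈ X (l + 1), ∃ a ∈ X (l + d),
      q ∣ v - w - v' ∧ q ∣ π * (κ ^ l - 1) * w + a) (n : ℕ) :
    ∀ l, 1 ≤ l → N - l ≤ n → ∀ v ∈ X l,
      q ∣ π ^ ((N - l) / d + 1) * (∏ k ∈ Finset.Ico l N, (κ ^ k - 1)) * v := by
  induction n with
  | zero => exact fun l _ h v hv => (hN l (by omega) v hv).mul_left _
  | succ n ih =>
    intro l hl h v hv
    rcases le_or_gt N l with hlN | hlN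
    · exact (hN l hlN v hv).mul_left _
    obtain ⟨w, v', hv', a, ha, e1, e2⟩ := hs l hl v hv
    have i1 := ih (l + 1) (by omega) (by omega) v' hv'
    have d1 : π ^ ((N - (l + 1)) / d + 1) * (∏ k ∈ Finset.Ico (l + 1) N, (κ ^ k - 1)) ∣
        π ^ ((N - l) / d + 1) * (∏ k ∈ Finset.Ico l N, (κ ^ k - 1)) :=
      mul_dvd_mul (pow_dvd_pow _ (Nat.succ_le_succ (Nat.div_le_div_right (by omega))))
        (Finset.prod_dvd_prod_of_subset _ _ _ (Finset.Ico_subset_Ico (by omega) le_rfl))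
    have j1 := i1.trans (mul_dvd_mul_right d1 v')
    have j2 : q ∣ (π ^ ((N - l) / d) * (∏ k ∈ Finset.Ico (l + 1) N, (κ ^ k - 1))) * a := by
      rcases le_or_gt N (l + d) with h3 | h3
      · exact (hN _ h3 a ha).mul_left _
      refine (ih (l + d) (by omega) (by omega) a ha).trans (mul_dvd_mul_right (mul_dvd_mul ?_
        (Finset.prod_dvd_prod_of_subset _ _ _ (Finset.Ico_subset_Ico (by omega) le_rfl))) a)
      rw [show N - l = N - (l + d) + d by omega, Nat.add_div_right _ hd]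
    have j3 := e2.mul_left (π ^ ((N - l) / d) * (∏ k ∈ Finset.Ico (l + 1) N, (κ ^ k - 1)))
    have j4 := e1.mul_left (π ^ ((N - l) / d + 1) * (∏ k ∈ Finset.Ico l N, (κ ^ k - 1)))
    have := dvd_add (dvd_add j4 j1) (dvd_sub j3 j2)
    convert this using 1
    rw [Finset.prod_eq_prod_Ico_succ_bot hlN, pow_succ]
    ring

theorem sq_le_YvTr (σ : G →* R) : aug_XvTr A σ ^ 2 ≤ aug_XvTr A σ := by
  rw [pow_two]
  unfold aug_XvTr
  rw [Submodule.span_mul_span, Submodule.span_le]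
  rintro _ ⟨_, ⟨g, rfl⟩, _, ⟨h, rfl⟩, rfl⟩
  have e : (σ g - 1) * (σ h - 1) = (σ (g * h) - 1) - (σ g - 1) - (σ h - 1) := by
    rw [map_mul]; noncomm_ring
  show (σ g - 1) * (σ h - 1) ∈ aug_XvTr A σ
  rw [e]
  exact Submodule.sub_mem _ (Submodule.sub_mem _ (gen_mem_XvTr σ _) (gen_mem_XvTr σ _))
    (gen_mem_XvTr σ _)

theorem iter_YvTr (T : R →ₐ[A] R) (σ : G →* R) (α : G →* G) (h : ∀ g, σ (α g) = T (σ g))
    (i : ℕ) (g : G) : (T.toLinearMap ^ i) (σ g - 1) = σ (α^[i] g) - 1 := by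
  induction i with
  | zero => rfl
  | succ i ih =>
    rw [pow_succ', Module.End.mul_apply, ih, Function.iterate_succ_apply', h,
      AlgHom.toLinearMap_apply, map_sub, map_one]

theorem aevalY_YvTr (T : R →ₐ[A] R) (π κ : A) (v : R) :
    aeval T.toLinearMap (C π * (X - C κ)) v = π • (T v - κ • v) := by
  rw [map_mul, map_sub, aeval_C, aeval_C, aeval_X, Module.End.mul_apply,
    Module.algebraMap_end_apply, LinearMap.sub_apply, Module.algebraMap_end_apply,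
    AlgHom.toLinearMap_apply]

end aux

section padic

variable {p : ℕ} [hp : Fact p.Prime] {R G : Type} [Ring R] [Algebra ℤ_[p] R] [Group G]

theorem sep_YvTr {M : Type} [AddCommGroup M] [Module ℤ_[p] M] (Y : Submodule ℤ_[p] M)
    (h : ∀ x : M, (p : ℤ_[p]) • x ∈ Y) (y : M)
    (hl : ∀ l : M →+ ZMod p, (∀ (κ : ℤ_[p]) (z : M), l (κ • z) = PadicInt.toZMod κ * l z) →
      (∀ a ∈ Y, l a = 0) → l y = 0) : y ∈ Y := by
  have hq : ∀ x : M, Y.mkQ x = 0 ↔ x ∈ Y := fun x => Submodule.Quotient.mk_eq_zero _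
  refine (hq y).1 (dual_WvRaise (p := p) (fun x => ?_) fun φ => ?_)
  · obtain ⟨x, rfl⟩ := Y.mkQ_surjective x
    rw [← map_nsmul, ← Nat.cast_smul_eq_nsmul ℤ_[p]]
    exact (hq _).2 (h x)
  refine hl (φ.comp Y.mkQ.toAddMonoidHom) (fun κ z => ?_) fun a ha => ?_
  · have h1 := PadicInt.toZMod_spec κ
    rw [PadicInt.maximalIdeal_eq_span_p, Ideal.mem_span_singleton, ZMod.cast_eq_val] at h1
    obtain ⟨s, hs⟩ := h1
    have e : κ • z = (PadicInt.toZMod κ).val • z + (p : ℤ_[p]) • (s • z) := by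
      rw [smul_smul, ← hs, ← Nat.cast_smul_eq_nsmul ℤ_[p], ← add_smul, add_sub_cancel]
    show φ (Y.mkQ (κ • z)) = _ * φ (Y.mkQ z)
    rw [e, map_add, (hq _).2 (h _), add_zero, map_nsmul, map_nsmul, nsmul_eq_mul,
      ZMod.natCast_zmod_val]
  · show φ (Y.mkQ a) = 0
    rw [(hq a).2 ha, map_zero]

theorem one_YvTr (T : R →ₐ[ℤ_[p]] R) (σ : G →* R) (α : G →* G) (P : ℤ_[p][X]) (m : ℕ)
    (hα : ∀ g, σ (α g) = T (σ g))
    (hχ : ∀ χ : G → ZMod p, (∀ g h, χ (g * h) = χ g + χ h) →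
      (∀ g, (∃ r : R, σ g - 1 = (p : ℤ_[p]) ^ m • r) → χ g = 0) →
      ∀ g, ((P.map PadicInt.toZMod).sum fun i a => a * χ (α^[i] g)) = 0) :
    ∀ v ∈ aug_XvTr ℤ_[p] σ, aeval T.toLinearMap P v ∈ aug_XvTr ℤ_[p] σ ^ 2 ⊔
      (aug_XvTr ℤ_[p] σ).map ((p : ℤ_[p]) • LinearMap.id) ⊔ mult_XvTr R ((p : ℤ_[p]) ^ m) := by
  set D := aug_XvTr ℤ_[p] σ with hD
  set J := D ^ 2 ⊔ D.map ((p : ℤ_[p]) • LinearMap.id) ⊔ mult_XvTr R ((p : ℤ_[p]) ^ m) with hJ
  suffices h : D ≤ J.comap (aeval T.toLinearMap P) from fun v hv => h hv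
  refine Submodule.span_le.2 ?_
  rintro _ ⟨g, rfl⟩
  let u : G → D := fun g => ⟨σ g - 1, gen_mem_XvTr σ g⟩
  have e : aeval T.toLinearMap P (σ g - 1) =
      D.subtype (∑ i ∈ Finset.range (P.natDegree + 1), P.coeff i • u (α^[i] g)) := by
    rw [aeval_eq_sum_range, LinearMap.sum_apply, map_sum]
    refine Finset.sum_congr rfl fun i _ => ?_
    rw [LinearMap.smul_apply, iter_YvTr T σ α hα, map_smul]
    rfl
  show aeval T.toLinearMap P (σ g - 1) ∈ J
  rw [e]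
  refine sep_YvTr (p := p) (J.comap D.subtype) (fun x => ?_) _ fun l hl hl' => ?_
  · exact Submodule.mem_sup_left (Submodule.mem_sup_right ⟨x.1, x.2, rfl⟩)
  have hadd : ∀ g h : G, l (u (g * h)) = l (u g) + l (u h) := by
    intro g h
    have h0 := hl' (u (g * h) - (u g + u h)) (Submodule.mem_sup_left (Submodule.mem_sup_left (by
      have e : D.subtype (u (g * h) - (u g + u h)) = (σ g - 1) * (σ h - 1) := by
        show σ (g * h) - 1 - (σ g - 1 + (σ h - 1)) = _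
        rw [map_mul]; noncomm_ring
      rw [e, pow_two]
      exact Submodule.mul_mem_mul (gen_mem_XvTr σ g) (gen_mem_XvTr σ h))))
    rwa [map_sub, map_add, sub_eq_zero] at h0
  have key := hχ (fun g => l (u g)) hadd
    (fun g hg => hl' _ (Submodule.mem_sup_right ((mem_mult_XvTr _ _).2 hg))) g
  rw [sum_over_range' _ (fun _ => zero_mul _) (P.natDegree + 1)
    (Nat.lt_succ_of_le natDegree_map_le)] at key
  rw [map_sum, ← key]
  exact Finset.sum_congr rfl fun i _ => by rw [hl, coeff_map]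

theorem two_YvTr (hS : SepStmt p) (T : R →ₐ[ℤ_[p]] R) (σ : G →* R) (α : G →* G) (κ : ℤ_[p])
    (b m : ℕ) (hα : ∀ g, σ (α g) = T (σ g))
    (hχ : ∀ χ : G → ZMod (p ^ m), (∀ g h, χ (g * h) = χ g + χ h) →
      (∀ g, (∃ r : R, σ g - 1 = (p : ℤ_[p]) ^ m • r) → χ g = 0) →
      ∀ g, (p : ZMod (p ^ m)) ^ b * (χ (α g) - PadicInt.toZModPow m κ * χ g) = 0) :
    ∀ v ∈ aug_XvTr ℤ_[p] σ, aeval T.toLinearMap (C ((p : ℤ_[p]) ^ b) * (X - C κ)) v ∈
      aug_XvTr ℤ_[p] σ ^ 2 ⊔ mult_XvTr R ((p : ℤ_[p]) ^ m) := by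
  set D := aug_XvTr ℤ_[p] σ with hD
  set J := D ^ 2 ⊔ mult_XvTr R ((p : ℤ_[p]) ^ m) with hJ
  suffices h : D ≤ J.comap (aeval T.toLinearMap (C ((p : ℤ_[p]) ^ b) * (X - C κ))) from
    fun v hv => h hv
  refine Submodule.span_le.2 ?_
  rintro _ ⟨g, rfl⟩
  show aeval T.toLinearMap (C ((p : ℤ_[p]) ^ b) * (X - C κ)) (σ g - 1) ∈ J
  have hq : ∀ x : R, J.mkQ x = 0 ↔ x ∈ J := fun x => Submodule.Quotient.mk_eq_zero _
  rw [aevalY_YvTr, ← hq]
  refine hS m (R ⧸ J) ?_ _ fun φ hφ => ?_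
  · intro y
    obtain ⟨r, rfl⟩ := J.mkQ_surjective y
    rw [← map_smul, hq]
    exact Submodule.mem_sup_right ((mem_mult_XvTr _ _).2 ⟨r, rfl⟩)
  have hadd : ∀ g h : G, φ (J.mkQ (σ (g * h) - 1)) =
      φ (J.mkQ (σ g - 1)) + φ (J.mkQ (σ h - 1)) := by
    intro g h
    have h0 : J.mkQ ((σ g - 1) * (σ h - 1)) = 0 := by
      rw [hq]
      apply Submodule.mem_sup_left
      rw [pow_two]
      exact Submodule.mul_mem_mul (gen_mem_XvTr σ g) (gen_mem_XvTr σ h)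
    have e : σ (g * h) - 1 = (σ g - 1) * (σ h - 1) + ((σ g - 1) + (σ h - 1)) := by
      rw [map_mul]; noncomm_ring
    rw [e, map_add, h0, zero_add, map_add, map_add]
  have key := hχ (fun g => φ (J.mkQ (σ g - 1))) hadd (fun g hg => by
    show φ (J.mkQ (σ g - 1)) = 0
    rw [(hq _).2 (Submodule.mem_sup_right ((mem_mult_XvTr _ _).2 hg)), map_zero]) g
  have e : T (σ g - 1) = σ (α g) - 1 := by rw [map_sub, map_one, hα]
  rw [e, map_smul, hφ, map_sub, map_smul, map_sub φ, hφ, map_pow, map_natCast]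
  exact key

end padic

theorem tr2_stmt (p : ℕ) [Fact p.Prime] (hP : Pad2Stmt p) (hS : SepStmt p) (hB : SplitStmt p) :
    Tr2Stmt p := by
  intro R G _ _ _ T σ α τ P κ a b c d hR hF hd hα hτ hc hχ1 hχ2 g
  obtain ⟨P0, rfl⟩ := Polynomial.map_surjective (PadicInt.toZMod (p := p))
    (ZMod.ringHom_surjective _) P
  set D := aug_XvTr ℤ_[p] σ with hD
  have hT : ∀ v ∈ D, T v ∈ D := fun v hv => T_aug_XvTr T σ α hα hv
  have hτ' : ∀ (l : ℕ), ∀ v ∈ D ^ l, τ (T v) = τ v :=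
    fun l v hv => tau_T_XvTr T σ τ hτ (pow_le_span_XvTr σ l hv)
  have hpow := pow_mul_le_mult_XvTr _ _ c (pow_le_mult_XvTr σ (p : ℤ_[p]) c hc)
  have h0 : τ (σ g - 1) = 0 := by
    refine hP κ _ a b c d hF hd fun t => ?_
    set E := mult_XvTr R ((p : ℤ_[p]) ^ t) with hE
    have hdiv : ∀ w ∈ E, (p : ℤ_[p]) ^ t ∣ τ w := by
      intro w hw
      obtain ⟨r, rfl⟩ := (mem_mult_XvTr _ w).1 hw
      rw [map_smul, smul_eq_mul]
      exact Dvd.intro _ rfl
    have hid : ∀ r : R, ∀ v ∈ E, r * v ∈ E ∧ v * r ∈ E := fun r v hv =>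
      ⟨mult_mul_left_XvTr _ r hv, mult_mul_right_XvTr _ r hv⟩
    obtain ⟨B, b1, b2, -, b4⟩ := hB R T D E P0 (C ((p : ℤ_[p]) ^ b) * (X - C κ)) d t hR hid
      (fun r => (mem_mult_XvTr _ _).2 ⟨r, rfl⟩) (sq_le_YvTr σ) hT
      (fun v hv => by
        obtain ⟨r, rfl⟩ := (mem_mult_XvTr _ v).1 hv
        exact (mem_mult_XvTr _ _).2 ⟨T r, map_smul T _ _⟩)
      (one_YvTr T σ α P0 t hα fun χ h1 h2 => hχ1 χ h1 t h2) (two_YvTr hS T σ α κ b t hα (hχ2 t))
    simp only [aevalY_YvTr] at b4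
    have key := down_YvTr (fun l => τ '' (D ^ l : Submodule ℤ_[p] R)) ((p : ℤ_[p]) ^ t)
      ((p : ℤ_[p]) ^ b) κ (c * t) d (by omega) ?_ ?_ _ 1 le_rfl le_rfl (τ (σ g - 1))
      ⟨σ g - 1, by rw [pow_one]; exact gen_mem_XvTr σ g, rfl⟩
    · refine key.trans (mul_dvd_mul_right (mul_dvd_mul_right ?_ _) _)
      rw [pow_mul]
      exact pow_dvd_pow _ (Nat.succ_le_succ (Nat.div_le_div_right (Nat.sub_le _ _)))
    · rintro l hl _ ⟨v, hv, rfl⟩
      obtain ⟨k, rfl⟩ := Nat.exists_eq_add_of_le hl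
      refine hdiv v ?_
      have : D ^ (c * t + k) ≤ E := by
        rw [pow_add, Submodule.mul_le]
        exact fun x hx y _ => (hid y x (hpow t hx)).2
      exact this hv
    · rintro l hl _ ⟨v, hv, rfl⟩
      obtain ⟨l, rfl⟩ := Nat.exists_eq_add_of_le' hl
      obtain ⟨v12, h12, e, he, rfl⟩ := Submodule.mem_sup.1 (split_YvTr hid b1 b2 l hv)
      obtain ⟨w, hw, v', hv', rfl⟩ := Submodule.mem_sup.1 h12
      obtain ⟨x, hx, f, hf, ef⟩ := Submodule.mem_sup.1 (step_YvTr T _ κ d hid b1 hT b4 l w hw)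
      refine ⟨τ w, τ v', ⟨v', hv', rfl⟩, τ x, ⟨x, hx, rfl⟩, ?_, ?_⟩
      · convert hdiv e he using 1
        rw [map_add, map_add]
        ring
      · have := congrArg τ ef
        rw [map_add, map_smul, map_sub, map_smul, hτ' _ w (pow_mono_YvTr b1 _ hw), smul_eq_mul,
          smul_eq_mul] at this
        convert (hdiv f hf).neg_right using 1
        linear_combination this
  rw [map_sub] at h0
  exact sub_eq_zero.1 h0

end Pool.Agent.MP_f68ac8_nt.Sv
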