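import Mathlib
import Pool.Agent.MP_f68ac8_nt.YvMain
import Pool.Agent.MP_f68ac8_nt.YvPad
import Pool.Agent.MP_f68ac8_nt.YvRoot
import Pool.Agent.MP_f68ac8_nt.YvSplit
import Pool.Agent.MP_f68ac8_nt.YvTr
import Pool.Agent.MP_f68ac8_nt.XvSep
import Pool.Agent.MP_f68ac8_nt.XvKol

namespace Pool.Agent.MP_f68ac8_nt.SumFreeOld

open NumberField Pool.Agent.MP_f68ac8_nt Sv

theorem result (p : ℕ) [Fact p.Prime] (F K L : IntermediateField ℚ (AlgebraicClosure ℚ))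
    [NumberField K] (h : K ≤ L) (hN : ∀ g ∈ F.fixingSubgroup, ∀ y ∈ L, g y ∈ L)
    (S : Set (Ideal (𝓞 F))) (x : GQ) (hx : x ∈ F.fixingSubgroup) (P : Polynomial (ZMod p))
    (κ : ℤ_[p]) (a b c d n : ℕ) (hr : RootFree p P d) (hP : PolyAct p F L S x P)
    (ha : FarOne p κ a d) (hκ : TwistAct p F L S x κ b) (hc : c * (a + b) < d)
    (ρ : K.fixingSubgroup →ₜ* GL (Fin n) ℤ_[p])
    (h1 : ResNil p c fun g : L.fixingSubgroup => ρ ⟨g, IntermediateField.fixingSubgroup_le h g.2⟩)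
    (h2 : ∀ g : K.fixingSubgroup, g.1 ∈ L.fixingSubgroup → InerOut F S g → ρ g = 1)
    (g : Fin n → L.fixingSubgroup) :
    (List.ofFn fun i =>
      (ρ ⟨g i, IntermediateField.fixingSubgroup_le h (g i).2⟩).val - 1).prod = 0 :=
  unip_of (tr2_stmt p (pad2_stmt p) (sep_stmt p) (split_stmt p (root_stmt p))) (kol_stmt p) h hN hx
    hr hP ha hκ hc ρ h1 h2 g

end Pool.Agent.MP_f68ac8_nt.SumFreeOld
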