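import Mathlib
import Pool.Agent.MP_f68ac8_nt.Mat
import Pool.Agent.MP_f68ac8_nt.DefsSol

/-! The linking system over commutative rings. -/

namespace Pool.Agent.MP_f68ac8_nt

open Matrix

variable {ι : Type} [Fintype ι]

/-- the linking system over a commutative ring -/
structure Sys {R : Type} [CommRing R] (m : Matrix ι ι R) (z e : ι → Bool) (i₀ j₀ : ι)
    (x : ι → M2 R) (w : R) : Prop where
  sq : ∀ i, x i * x i = 0
  tr : w * trace (x i₀ * x j₀) = 1
  van : ∀ i, z i → x i = 0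
  br : ∀ i, (∑ j, m i j • x j) * x i - x i * (∑ j, m i j • x j) = if e i then x i else 0

variable {R : Type} [CommRing R] {m : Matrix ι ι R} {z e : ι → Bool} {i₀ j₀ : ι}
  {x : ι → M2 R} {w : R}

lemma map_br {S : Type} [CommRing S] (φ : R →+* S) (i : ι) :
    φ.mapMatrix ((∑ j, m i j • x j) * x i - x i * (∑ j, m i j • x j)) =
      (∑ j, m.map φ i j • φ.mapMatrix (x j)) * φ.mapMatrix (x i) -
        φ.mapMatrix (x i) * (∑ j, m.map φ i j • φ.mapMatrix (x j)) := by
  have : ∀ j, φ.mapMatrix (m i j • x j) = m.map φ i j • φ.mapMatrix (x j) := fun j => by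
    ext a b
    simp
  simp only [map_sub, map_mul, map_sum, this]

lemma map_tr {S : Type} [CommRing S] (φ : R →+* S) :
    φ (w * trace (x i₀ * x j₀)) = φ w * trace (φ.mapMatrix (x i₀) * φ.mapMatrix (x j₀)) := by
  rw [map_mul, ← map_mul φ.mapMatrix, AddMonoidHom.map_trace]
  rfl

lemma Sys.map (h : Sys m z e i₀ j₀ x w) {S : Type} [CommRing S] (φ : R →+* S) :
    Sys (m.map φ) z e i₀ j₀ (fun i => φ.mapMatrix (x i)) (φ w) where
  sq i := by rw [← map_mul, h.sq, map_zero]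
  tr := by rw [← map_tr, h.tr, map_one]
  van i hi := by rw [h.van i hi, map_zero]
  br i := by
    rw [← map_br, h.br]
    split_ifs <;> simp

lemma Sys.of_map {α : Type} {S : α → Type} [∀ a, CommRing (S a)] (φ : ∀ a, R →+* S a)
    (hφ : ∀ r r', (∀ a, φ a r = φ a r') → r = r')
    (h : ∀ a, Sys (m.map (φ a)) z e i₀ j₀ (fun i => (φ a).mapMatrix (x i)) (φ a w)) :
    Sys m z e i₀ j₀ x w := by
  have hM : ∀ M N : M2 R, (∀ a, (φ a).mapMatrix M = (φ a).mapMatrix N) → M = N := by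
    intro M N H
    ext i j
    exact hφ _ _ fun a => congrFun (congrFun (H a) i) j
  refine ⟨fun i => hM _ _ fun a => ?_, hφ _ _ fun a => ?_, fun i hi => hM _ _ fun a => ?_,
    fun i => hM _ _ fun a => ?_⟩
  · rw [map_mul, (h a).sq, map_zero]
  · rw [map_tr, (h a).tr, map_one]
  · rw [(h a).van i hi, map_zero]
  · rw [map_br, (h a).br]
    split_ifs <;> simp

variable {p : ℕ}

lemma sol_iff {F : Type} [Field F] [Algebra (ZMod p) F] {m : Matrix ι ι (ZMod p)} {v : ι → ℕ}
    {k : ℕ} : Sol F m v k ↔ ∃ i₀ j₀ x w, Sys (m.map (algebraMap (ZMod p) F))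
      (fun i => decide (v i < k)) (fun i => decide (v i = k)) i₀ j₀ x w := by
  constructor
  · rintro ⟨x, h1, ⟨i, j, h2⟩, h3, h4⟩
    exact ⟨i, j, x, _, h1, inv_mul_cancel₀ h2, by simpa using h3, by simpa using h4⟩
  · rintro ⟨i, j, x, w, h⟩
    exact ⟨x, h.sq, ⟨i, j, right_ne_zero_of_mul_eq_one h.tr⟩, by simpa using h.van,
      by simpa using h.br⟩

lemma Sol.transfer [Fact p.Prime] {F : Type} [Field F] [Algebra (ZMod p) F]
    {m : Matrix ι ι (ZMod p)} {v : ι → ℕ} {k : ℕ} (h : Sol F m v k) :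
    Sol (AlgebraicClosure (ZMod p)) m v k := by
  classical
  rw [sol_iff] at h ⊢
  obtain ⟨i₀, j₀, x, w, h⟩ := h
  let s : Finset F := insert w (Finset.univ.image fun t : ι × Fin 2 × Fin 2 => x t.1 t.2.1 t.2.2)
  let A := Algebra.adjoin (ZMod p) (s : Set F)
  haveI : Algebra.FiniteType (ZMod p) A := (Subalgebra.fg_iff_finiteType _).mp ⟨s, rfl⟩
  obtain ⟨M, hM⟩ := Ideal.exists_maximal A
  letI := Ideal.Quotient.field M
  haveI : Module.Finite (ZMod p) (A ⧸ M) := finite_of_finite_type_of_isJacobsonRing _ _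
  let φ : A →ₐ[ZMod p] AlgebraicClosure (ZMod p) :=
    (IsAlgClosed.lift : A ⧸ M →ₐ[ZMod p] _).comp (Ideal.Quotient.mkₐ _ M)
  let x' : ι → M2 A := fun i => Matrix.of fun a b => ⟨x i a b, Algebra.subset_adjoin (by
    simp only [s, Finset.coe_insert, Finset.coe_image]
    exact Or.inr ⟨(i, a, b), by simp, rfl⟩)⟩
  let w' : A := ⟨w, Algebra.subset_adjoin (by simp [s])⟩
  have h' := Sys.of_map (α := Unit) (m := m.map (algebraMap (ZMod p) A)) (x := x') (w := w')
    (fun _ => A.val.toRingHom) (fun r r' H => Subtype.ext (H ())) (fun _ => h)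
  have h'' := h'.map φ.toRingHom
  have e : (m.map (algebraMap (ZMod p) A)).map φ.toRingHom = m.map (algebraMap (ZMod p) _) := by
    ext i j
    exact φ.commutes _
  rw [e] at h''
  exact ⟨i₀, j₀, _, _, h''⟩

end Pool.Agent.MP_f68ac8_nt
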