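import Mathlib
import Pool.Agent.MP_f68ac8_nt.Core4
import Pool.Agent.MP_f68ac8_nt.FourD
import Pool.Agent.MP_f68ac8_nt.NahmDefs

/-! Congruence representations: the integral linking relations. -/

namespace Pool.Agent.MP_f68ac8_nt

open Filter Matrix PadicInt Polynomial
open scoped Topology Pointwise

variable {p : ℕ} [hp : Fact p.Prime]

lemma exact_rel {O A : Type} [CommRing O] [IsDomain O] [Ring A] [Algebra O A]
    [Module.IsTorsionFree O A] (hp2 : p ≠ 2) (h0 : (p : O) ≠ 0) {c : ℕ} {s t : A}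
    (h : (1 + (p : O) • s) * (1 + (p : O) • t) =
      (1 + (p : O) • t) ^ (p * c + 1) * (1 + (p : O) • s)) :
    ∃ r, s * t - t * s = (c : O) • t + (p : O) • (t * r) := by
  obtain ⟨R, e⟩ := Four.binom3 ((p : O) • t) (p * c + 1)
  obtain ⟨k, hk⟩ : p ∣ (p * c + 1).choose 2 := by
    refine (Nat.Coprime.dvd_mul_right (k := p) (n := 2)
      (hp.out.odd_of_ne_two hp2).coprime_two_right).mp ?_
    rw [Nat.choose_two_right, Nat.div_mul_cancel (Nat.even_mul_pred_self _).two_dvd]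
    exact ⟨(p * c + 1) * c, by simp; ring⟩
  refine ⟨(c : O) • s + ((k : O) • t + t * t * R) * (1 + (p : O) • s), ?_⟩
  refine smul_right_injective _ (mul_ne_zero h0 h0) ?_
  rw [e, hk, ← Nat.cast_smul_eq_nsmul O, ← Nat.cast_smul_eq_nsmul O] at h
  simp only [mul_add, add_mul, smul_mul_assoc, mul_smul_comm, one_mul, mul_one, mul_assoc] at h ⊢
  push_cast at h
  linear_combination (norm := module) h

variable {A : Type} [NormedRing A] [IsUltrametricDist A] [NormOneClass A] [NormedAlgebra ℚ_[p] A]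
  {G : Type} [Group G] {ρ : G →* A} [TopologicalSpace G] {ι : Type} [Fintype ι]
  {e : G →* ℚ_[p]} {H : Subgroup G} {τ σ : ι → G} {t : G} {c : ι → ℕ}
  {m : Matrix ι ι (ZMod p)} {χ : ι → G → ZMod p} {ψ : G → ZMod p}
  [CompactSpace G] [IsTopologicalGroup G]

omit [NormedAlgebra ℚ_[p] A] in
theorem Hyp3.ker (Y : Hyp3 ρ e H τ σ t c m χ ψ) [hH : H.Normal] (h : ∀ j, ρ (τ j) = 1) {y : G}
    (hy : y ∈ H) : ρ y = 1 := by
  by_contra hne
  obtain ⟨K, _, k1, k2, k3, δ, k4, k5⟩ := exists_K Y.cont Y.pro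
    (norm_pos_iff.mpr (sub_ne_zero.mpr hne))
  obtain ⟨a, ha⟩ := exists_unif_pow k1 k2
  obtain ⟨K', _, l1, l2, l3, δ', l4, l5⟩ := exists_K Y.econt Y.epro
    (norm_pos_iff.mpr (sub_ne_zero.mpr (Y.et a)))
  have hK : ∀ g, ρ g = 1 → g ∈ K := fun g hg => by simpa using k5 1 g (by simpa [hg] using k4)
  have hK' : ∀ g, e g = 1 → g ∈ K' := fun g hg => by simpa using l5 1 g (by simpa [hg] using l4)
  have top := Y.gen (K := K ⊓ K') (Q := (ρ.ker ⊓ H) ⊔ (K ⊓ K' ⊔ Subgroup.zpowers t))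
    (k1.inter l1) (fun g => by
      obtain ⟨k, hk⟩ := l2 g
      refine ⟨a + k, ?_, ?_⟩
      · rw [pow_add, pow_mul]
        exact pow_mem (ha g) _
      · rw [pow_add, mul_comm, pow_mul]
        exact pow_mem hk _) (fun g a b => ⟨hK g a, hK' g b⟩) (le_sup_of_le_right le_sup_left)
    (fun j => Subgroup.mem_sup_left ⟨h j, Y.mem j⟩)
    (Subgroup.mem_sup_right (Subgroup.mem_sup_right (Subgroup.mem_zpowers t)))
    (Y.psit ▸ one_ne_zero)
  obtain ⟨n, hn, z, hz, rfl⟩ := Subgroup.mem_sup_of_normal_left.mp (top.ge (Subgroup.mem_top y))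
  have hz' := (mul_mem_cancel_left (show n ∈ H from hn.2)).mp hy
  obtain ⟨k, hk, _, ⟨i, rfl⟩, rfl⟩ := Subgroup.mem_sup_of_normal_left.mp hz
  refine (k3 _ (mul_mem (hK _ hn.1) (mul_mem hk.1 ?_))).false
  have h1 := (mul_mem_cancel_left (show k ∈ K' from hk.2)).mp (hK' _ (Y.eH _ hz'))
  obtain ⟨f, hf⟩ := (IsPGroup.iff_orderOf.mp (isPGroup_of l2)) (t : G ⧸ K')
  have h2 : p ^ a ∣ p ^ f := pow_dvd_pow p (le_of_not_gt fun h => by
    have : t ^ p ^ a ∈ K' := (QuotientGroup.eq_one_iff _).mp (by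
      rw [QuotientGroup.mk_pow, ← orderOf_dvd_iff_pow_eq_one, hf]
      exact pow_dvd_pow p h.le)
    simpa using l3 _ this)
  have h3 : ((p ^ f : ℕ) : ℤ) ∣ i := by
    rw [← hf, orderOf_dvd_iff_zpow_eq_one, ← QuotientGroup.mk_zpow, QuotientGroup.eq_one_iff]
    exact h1
  obtain ⟨j, rfl⟩ := (Int.natCast_dvd_natCast.mpr h2).trans h3
  dsimp only
  rw [_root_.zpow_mul, zpow_natCast]
  exact zpow_mem (ha t) j

variable {M : Type} [Ring M] [Algebra ℤ_[p] M] [Module.Finite ℤ_[p] M]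
  [Module.IsTorsionFree ℤ_[p] M] {φ : M →+* A} {Θ : G → M}

lemma pz_ne : (p : ℤ_[p]) ≠ 0 := Nat.cast_ne_zero.mpr hp.out.ne_zero

omit [IsUltrametricDist A] [NormOneClass A] [NormedAlgebra ℚ_[p] A] [TopologicalSpace G]
  [CompactSpace G] [IsTopologicalGroup G] [Module.Finite ℤ_[p] M] in
lemma theta_mul (hφ : Function.Injective φ) (hΘ : ∀ g, ρ g = φ (1 + (p : ℤ_[p]) • Θ g)) (g h : G) :
    Θ (g * h) = Θ g + Θ h + (p : ℤ_[p]) • (Θ g * Θ h) := by
  have := map_mul ρ g h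
  rw [hΘ, hΘ, hΘ, ← map_mul] at this
  refine smul_right_injective _ (pz_ne (p := p)) ?_
  have := hφ this
  simp only [mul_add, add_mul, smul_mul_assoc, mul_smul_comm, one_mul, mul_one] at this
  linear_combination (norm := module) this

omit [IsUltrametricDist A] [NormOneClass A] [NormedAlgebra ℚ_[p] A] [TopologicalSpace G]
  [CompactSpace G] [IsTopologicalGroup G] [Module.Finite ℤ_[p] M] in
lemma theta_zero (hφ : Function.Injective φ) (hΘ : ∀ g, ρ g = φ (1 + (p : ℤ_[p]) • Θ g)) {g : G}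
    (h : ρ g = 1) : Θ g = 0 := by
  rw [hΘ, ← map_one φ] at h
  exact (smul_eq_zero_iff_right pz_ne).mp (add_eq_left.mp (hφ h))

omit [IsUltrametricDist A] [NormOneClass A] [NormedAlgebra ℚ_[p] A] [CompactSpace G]
  [IsTopologicalGroup G] in
theorem Hyp3.theta (Y : Hyp3 ρ e H τ σ t c m χ ψ) (hφ : Function.Injective φ)
    (hΘ : ∀ g, ρ g = φ (1 + (p : ℤ_[p]) • Θ g))
    (hl : ∀ N : ℕ, ∀ᶠ g in 𝓝 1, ∃ y, Θ g = (p : ℤ_[p]) ^ N • y) (g : G) :
    ∃ r ∈ Algebra.adjoin ℤ_[p] (Set.range Θ), Θ g = ((ψ g).val : ℤ_[p]) • Θ t +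
      ∑ j, ((χ j g).val : ℤ_[p]) • Θ (τ j) + (p : ℤ_[p]) • r := by
  set R := Algebra.adjoin ℤ_[p] (Set.range Θ)
  have hR : ∀ g, Θ g ∈ R := fun g => Algebra.subset_adjoin ⟨g, rfl⟩
  let U : Submodule ℤ_[p] R := (p : ℤ_[p]) • ⊤
  have hU : ∀ r : R, r ∈ U ↔ ∃ y : R, (p : ℤ_[p]) • y = r := fun r => by
    simp [U, Submodule.mem_smul_pointwise_iff_exists]
  letI : Module (ZMod p) (R ⧸ U) := AddCommGroup.zmodModule fun x => by
    obtain ⟨y, rfl⟩ := U.mkQ_surjective x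
    rw [← map_nsmul, Submodule.mkQ_apply, Submodule.Quotient.mk_eq_zero, hU]
    exact ⟨y, Nat.cast_smul_eq_nsmul _ _ _⟩
  obtain ⟨k, hk⟩ := (Ideal.span {(p : ℤ_[p])}).exists_pow_inf_eq_pow_smul
    (Subalgebra.toSubmodule R)
  have h1 := Y.add (R ⧸ U) (fun g => U.mkQ ⟨Θ g, hR g⟩) (fun g h => by
    rw [← map_add, ← sub_eq_zero, ← map_sub, Submodule.mkQ_apply, Submodule.Quotient.mk_eq_zero, hU]
    exact ⟨⟨Θ g, hR g⟩ * ⟨Θ h, hR h⟩, Subtype.ext (by simp [theta_mul hφ hΘ])⟩) (by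
      filter_upwards [hl (k + 1)] with g ⟨y, hy⟩
      have h2 : Θ g ∈ Ideal.span {(p : ℤ_[p])} • Subalgebra.toSubmodule R := by
        have := (hk (k + 1) (Nat.le_succ k)).le (x := Θ g) ⟨by
          rw [hy, Ideal.span_singleton_pow]
          exact Submodule.smul_mem_smul (Ideal.mem_span_singleton_self _) trivial, hR g⟩
        rw [Nat.add_sub_cancel_left, pow_one] at this
        exact Submodule.smul_mono le_rfl inf_le_right this
      rw [Submodule.ideal_span_singleton_smul, Submodule.mem_smul_pointwise_iff_exists] at h2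
      obtain ⟨r, r1, r2⟩ := h2
      rw [Submodule.mkQ_apply, Submodule.Quotient.mk_eq_zero, hU]
      exact ⟨⟨r, r1⟩, Subtype.ext r2⟩)
    (fun g a _ => by
      rw [show (⟨Θ g, hR g⟩ : R) = 0 from Subtype.ext (theta_zero hφ hΘ a), map_zero]) g
  have h2 : ∀ (a : ZMod p) (x : R), a • U.mkQ x = U.mkQ ((a.val : ℤ_[p]) • x) := fun a x => by
    rw [Nat.cast_smul_eq_nsmul, map_nsmul, ← Nat.cast_smul_eq_nsmul (ZMod p),
      ZMod.natCast_zmod_val]
  simp only [h2] at h1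
  rw [← map_sum, ← map_add, ← sub_eq_zero, ← map_sub, Submodule.mkQ_apply,
    Submodule.Quotient.mk_eq_zero, hU] at h1
  obtain ⟨r, hr⟩ := h1
  refine ⟨r, r.2, eq_add_of_sub_eq' ?_⟩
  simpa using (congrArg Subtype.val hr).symm

omit [IsUltrametricDist A] [NormOneClass A] [NormedAlgebra ℚ_[p] A] [CompactSpace G]
  [IsTopologicalGroup G] in
theorem Hyp3.rel' (Y : Hyp3 ρ e H τ σ t c m χ ψ) (hp2 : p ≠ 2) (hφ : Function.Injective φ)
    (hΘ : ∀ g, ρ g = φ (1 + (p : ℤ_[p]) • Θ g))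
    (hl : ∀ N : ℕ, ∀ᶠ g in 𝓝 1, ∃ y, Θ g = (p : ℤ_[p]) ^ N • y) (i : ι) :
    ∃ a : ι → ℤ_[p], (∀ j, i ≠ j → toZMod (a j) = -m i j) ∧
      ∃ r ∈ Algebra.adjoin ℤ_[p] (Set.range Θ), ∃ r' ∈ Algebra.adjoin ℤ_[p] (Set.range Θ),
        Θ t * Θ (τ i) - Θ (τ i) * Θ t = Θ (τ i) + ∑ j, a j • (Θ (τ j) * Θ (τ i) -
          Θ (τ i) * Θ (τ j)) + (p : ℤ_[p]) • (r * Θ (τ i) + Θ (τ i) * r') := by
  obtain ⟨r, r1, r2⟩ := Y.theta hφ hΘ hl (σ i)
  set R := Algebra.adjoin ℤ_[p] (Set.range Θ)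
  have hR : ∀ g, Θ g ∈ R := fun g => Algebra.subset_adjoin ⟨g, rfl⟩
  obtain ⟨s, hs⟩ := exact_rel (O := ℤ_[p]) (A := R) hp2 pz_ne (c := c i) (s := ⟨_, hR (σ i)⟩)
    (t := ⟨_, hR (τ i)⟩) (Subtype.ext (hφ (by
      have := congrArg (· * ρ (σ i)) (Y.rel i)
      simp only [← map_mul, inv_mul_cancel_right] at this
      rw [map_mul, map_mul, map_pow, hΘ, hΘ] at this
      simpa using this)))
  have hs' := congrArg Subtype.val hs
  have h1 : toZMod (((ψ (σ i)).val : ℤ_[p])) = c i := by simp [Y.linkp]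
  obtain ⟨u, hu⟩ : IsUnit (((ψ (σ i)).val : ℤ_[p])) := by
    rw [← IsLocalRing.notMem_maximalIdeal, ← ker_toZMod, RingHom.mem_ker, h1]
    exact Y.cne i
  obtain ⟨b, hb⟩ : (p : ℤ_[p]) ∣ c i - u := by
    rw [← Ideal.mem_span_singleton, ← maximalIdeal_eq_span_p, ← ker_toZMod, RingHom.mem_ker, hu,
      map_sub, h1, map_natCast, sub_self]
  refine ⟨fun j => -(u⁻¹ : ℤ_[p]ˣ) * ((χ j (σ i)).val : ℤ_[p]), fun j hj => ?_,
    -((u⁻¹ : ℤ_[p]ˣ) : ℤ_[p]) • r, R.smul_mem r1 _,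
    ((u⁻¹ : ℤ_[p]ˣ) : ℤ_[p]) • (r + s + b • 1),
    R.smul_mem (add_mem (add_mem r1 s.2) (R.smul_mem R.one_mem _)) _, ?_⟩
  · refine mul_left_cancel₀ (Y.cne i) ?_
    rw [mul_neg, ← Y.link i j hj, ← h1, ← map_mul, ← hu]
    simp
  · refine smul_right_injective _ u.ne_zero ?_
    simp only [MulMemClass.coe_mul, AddSubgroupClass.coe_sub, AddMemClass.coe_add,
      SetLike.val_smul] at hs'
    rw [r2, ← hu, eq_add_of_sub_eq hb] at hs'
    simp only [smul_add, Finset.smul_sum, smul_smul, neg_mul, mul_neg, Units.mul_inv_cancel_left,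
      smul_mul_assoc, mul_smul_comm, mul_left_comm (u : ℤ_[p]) p, Units.mul_inv, mul_one,
      mul_add, add_mul, Finset.sum_mul, Finset.mul_sum, smul_sub, neg_smul, smul_neg,
      Finset.sum_sub_distrib, Finset.sum_neg_distrib, mul_assoc, mul_left_comm (p : ℤ_[p])] at hs' ⊢
    linear_combination (norm := module) hs'

end Pool.Agent.MP_f68ac8_nt
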