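import Mathlib
import Pool.Agent.MP_f68ac8_nt.PH
import Pool.Agent.MP_f68ac8_nt.TH1
import Pool.Agent.MP_f68ac8_nt.DefsTH
import Pool.Agent.MP_f68ac8_nt.NahmG
import Pool.Agent.MP_f68ac8_nt.NahmS

/-! The criterion for Hodge-Tate representations congruent to one. -/

namespace Pool.Agent.MP_f68ac8_nt

open Filter Matrix PadicInt Polynomial NumberField Nahm
open scoped Topology Kronecker

variable {p : ℕ} [hp : Fact p.Prime]

lemma exists_div {x : ℚ_[p]} {N : ℕ} (h : ‖x‖ ≤ (p : ℝ)⁻¹ ^ N) :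
    ∃ y : ℤ_[p], x = (p : ℚ_[p]) ^ N * y := by
  have h0 : (p : ℚ_[p]) ^ N ≠ 0 := pow_ne_zero _ p_ne
  refine ⟨⟨((p : ℚ_[p]) ^ N)⁻¹ * x, ?_⟩, by simp [h0]⟩
  rw [norm_mul, norm_inv, norm_pow, Padic.norm_p]
  exact (inv_mul_le_one₀ (pow_pos pinv_pos _)).mpr h

/-- conjugation on matrices, in the basis of matrix units -/
noncomputable def adHom {G R n : Type} [Group G] [CommRing R] [Fintype n] [DecidableEq n]
    (r : G →* Matrix n n R) : G →* Matrix (n × n) (n × n) R where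
  toFun g := r g ⊗ₖ (r g⁻¹)ᵀ
  map_one' := by simp
  map_mul' g h := by rw [_root_.mul_inv_rev, map_mul, map_mul, transpose_mul, mul_kronecker_mul]

theorem th_criterion {n K : ℕ} (h5 : 5 ≤ p) (hK : 2 * K + 1 < p)
    {m : Matrix (Fin 3) (Fin 3) (ZMod p)}
    (hsys : ∀ (z : Matrix (Fin n) (Fin n) (ZMod p)) (x : Fin 3 → Matrix (Fin n) (Fin n) (ZMod p)),
      Nahm.Sys m z x → aeval (adm z) (gK K) = 0 →
        ∀ w : List (Fin 3), w.length = n → (w.map x).prod = 0) : Good p (CongHT p n K) m := by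
  rintro q hL hq2 ρ hss hc hun a ⟨ι, v, hv, hw⟩ ha g hg
  haveI : IsAlgClosure ℚ (AlgebraicClosure ℚ) := AlgebraicClosure.instIsAlgClosure ℚ
  have hp2 : p ≠ 2 := by omega
  rcases n.eq_zero_or_pos with rfl | hn
  · exact Subsingleton.elim _ _
  haveI : Nonempty (Fin n) := ⟨⟨0, hn⟩⟩
  let r : GQ →* Matrix (Fin n) (Fin n) ℚ_[p] := (Units.coeHom _).comp ρ.toMonoidHom
  letI := supRing (p := p) n
  haveI : IsUltrametricDist (Matrix (Fin n) (Fin n) ℚ_[p]) :=
    inferInstanceAs (IsUltrametricDist (Fin n → Fin n → ℚ_[p]))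
  haveI : NormOneClass (Matrix (Fin n) (Fin n) ℚ_[p]) := ⟨by
    rw [← diagonal_one]
    exact (norm_diagonal _).trans (by simp)⟩
  letI : NormedAlgebra ℚ_[p] (Matrix (Fin n) (Fin n) ℚ_[p]) :=
    { (inferInstance : Algebra ℚ_[p] (Matrix (Fin n) (Fin n) ℚ_[p])) with
      norm_smul_le := Matrix.normedSpace.norm_smul_le }
  have q0 := pinv_pos (p := p)
  have rc : Continuous r := Units.continuous_val.comp ρ.continuous
  obtain ⟨τ, σ, t, c, χ, ht, Y⟩ := exists_hyp3 h5 ι hL hq2 (ρ := r) rc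
    (fun g => by
      obtain ⟨X, hX⟩ := @exists_log p _ _ _ _ _ _ (FiniteDimensional.complete ℚ_[p] _) hp2 (r g) _ 
        ((norm_le_iff q0.le).mpr (hc g)) le_rfl
      have h1 := tendsto_pow_atTop_nhds_zero_of_lt_one q0.le pinv_lt
      have h2 := tendsto_pow_atTop_nhds_zero_of_norm_lt_one (Padic.norm_p_lt_one (p := p))
      have := (squeeze_zero_norm hX (by simpa using (h1.const_mul _).pow 2)).add
        ((h2.smul_const X).const_add 1)
      simpa using this)
    fun l P hl l1 l2 hP h u hu =>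
      congrArg Units.val (hun l hl l1 (fun ⟨j, hj⟩ => l2 j hj) u ⟨P, hP, h, hu⟩)
  let φ := (algebraMap ℤ_[p] ℚ_[p]).mapMatrix (m := Fin n)
  have hφ : Function.Injective φ := fun x y h => Matrix.ext fun i j =>
    Subtype.ext (congrFun (congrFun h i) j)
  choose θ hθ using fun g i j => exists_div (N := 1) ((hc g i j).trans_eq (pow_one _).symm)
  let Θ : GQ → Matrix (Fin n) (Fin n) ℤ_[p] := fun g => of (θ g)
  have hΘ : ∀ g, r g = φ (1 + (p : ℤ_[p]) • Θ g) := fun g => by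
    rw [map_add, map_one]
    refine eq_add_of_sub_eq' (Matrix.ext fun i j => (hθ g i j).trans ?_)
    simp [φ, Θ]
  have hl : ∀ N : ℕ, ∀ᶠ g in 𝓝 1, ∃ y, Θ g = (p : ℤ_[p]) ^ N • y := fun N => by
    filter_upwards [rc.continuousAt.eventually (Metric.ball_mem_nhds _ (pow_pos q0 (N + 1)))]
      with g hg
    rw [map_one, dist_eq_norm] at hg
    choose y hy using fun i j =>
      exists_div ((norm_entry_le_entrywise_sup_norm (r g - 1) (i := i) (j := j)).trans hg.le)
    refine ⟨of y, Matrix.ext fun i j => Subtype.ext (mul_left_cancel₀ (p_ne (p := p)) ?_)⟩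
    have := (hθ g i j).symm.trans (hy i j)
    rw [pow_one, pow_succ', mul_assoc] at this
    simpa [Θ] using this
  let r₀ : GQ →* Matrix (Fin n) (Fin n) ℤ_[p] :=
    { toFun := fun g => 1 + (p : ℤ_[p]) • Θ g
      map_one' := hφ (by rw [← hΘ, map_one, map_one])
      map_mul' := fun g h => hφ (by rw [map_mul φ, ← hΘ, ← hΘ, ← hΘ, map_mul]) }
  have hf := ht_adj h5 ι r (K := K) (by omega) a ha v hv (fun i g => hw i g.1 (resC ι g)
      (GC.cont g) fun x => (resC_spec ι g x).symm) (fun s : Fin n × Fin n => single s.1 s.2 1)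
    (by
      convert (stdBasis ℚ_[p] (Fin n) (Fin n)).linearIndependent using 1
      exact funext fun s => (stdBasis_eq_single _ _ _).symm) (adHom r₀) (fun g l => by
      ext i j
      rw [hΘ, hΘ]
      change (φ (r₀ g) * single l.1 l.2 1 * φ (r₀ g⁻¹) : Matrix _ _ ℚ_[p]) i j = _
      simp [adHom, φ, Matrix.sum_apply, mul_apply, single_apply, ite_and, Fintype.sum_prod_type])
    (fun g => Θ g ⊗ₖ 1 + 1 ⊗ₖ (Θ g⁻¹)ᵀ + (p : ℤ_[p]) • Θ g ⊗ₖ (Θ g⁻¹)ᵀ) (fun g => by
      change (1 + (p : ℤ_[p]) • Θ g) ⊗ₖ (1 + (p : ℤ_[p]) • Θ g⁻¹)ᵀ = _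
      simp only [transpose_add, transpose_smul, transpose_one, add_kronecker, kronecker_add,
        smul_kronecker, kronecker_smul, one_kronecker_one, smul_add]
      abel) ht Y.psit
  have hf' : aeval (adm ((Θ t).map toZMod)) (gK K) = 0 := by
    have h1 : Θ t⁻¹ = -Θ t - (p : ℤ_[p]) • (Θ t * Θ t⁻¹) := by
      have := theta_mul hφ hΘ t t⁻¹
      rw [mul_inv_cancel, theta_zero hφ hΘ (map_one r)] at this
      linear_combination (norm := module) -this
    refine Eq.trans (congrArg (fun y => aeval y (gK K)) ?_) hf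
    ext ⟨i, j⟩ ⟨k, l⟩
    rw [map_apply, Matrix.add_apply, Matrix.add_apply, h1]
    simp only [adm, one_apply, Matrix.sub_apply, kroneckerMap_apply, transpose_apply,
      Matrix.smul_apply, Matrix.neg_apply, map_apply]
    split_ifs <;> simp [sub_eq_add_neg]
  choose b b1 b2 using Y.rel' hp2 hφ hΘ hl
  have h0 := idl_pow hK (Set.range Θ) (Θ t) (fun i => Θ (τ i)) ⟨t, rfl⟩ (fun i => ⟨_, rfl⟩)
    (by
      rintro _ ⟨g, rfl⟩
      exact ⟨_, _, Y.theta hφ hΘ hl g⟩) (fun i => ⟨b i, b2 i⟩)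
    (hsys ((Θ t).map toZMod) _ (fun i => by
      obtain ⟨s, -, s', -, h⟩ := b2 i
      have h1 := congrArg (toZMod (p := p)).mapMatrix h
      simp only [map_sub, map_add, map_mul, map_sum, Four.map_sm, map_natCast,
        ZMod.natCast_self, zero_smul, add_zero] at h1
      simp only [RingHom.mapMatrix_apply] at h1
      rw [add_mul, mul_add, add_sub_add_comm, h1, add_assoc, add_eq_left, Finset.sum_mul,
        Finset.mul_sum, ← Finset.sum_sub_distrib, ← Finset.sum_add_distrib]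
      refine Finset.sum_eq_zero fun j _ => ?_
      by_cases hij : i = j
      · subst hij
        simp
      · rw [b1 i j hij, smul_mul_assoc, mul_smul_comm, ← smul_sub, neg_smul, neg_add_cancel]) hf')
    hf'
  have h1 := eq_zero_of_idl (Set.range Θ) (fun i => Θ (τ i)) (fun i => ⟨_, rfl⟩) h0 fun W hW => by
    have e : ∀ g w, (ρ g).val *ᵥ w = w + (p : ℚ_[p]) • φ (Θ g) *ᵥ w := fun g w => by
      change r g *ᵥ w = _
      rw [hΘ, map_add, map_one, add_mulVec, one_mulVec, Four.map_sm, map_natCast, smul_mulVec]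
    obtain ⟨W', w1, w2⟩ := hss W fun g w hw => e g w ▸ add_mem hw (W.smul_mem _ (hW _ ⟨g, rfl⟩ w hw))
    refine ⟨W', w1, ?_⟩
    rintro _ ⟨g, rfl⟩ w hw
    have := w2 g w hw
    rw [e, add_mem_cancel_left hw, W'.smul_mem_iff p_ne] at this
    exact this
  exact Units.ext (Y.ker (fun j => by rw [hΘ, h1, smul_zero, add_zero, map_one]) hg)

end Pool.Agent.MP_f68ac8_nt
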