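import Mathlib
import Pool.Agent.MP_f68ac8_nt.TvAux
import Pool.Agent.MP_f68ac8_nt.EvSZ

namespace Pool.Agent.MP_f68ac8_nt.Sv

open Ev Pv

section count

variable {k : Type} [Field k] [Fintype k] {n : ℕ} {N : Set (Fin n × Fin n)}

theorem mul_pat_TvCount {k : Type} [Field k]
    (h2 : ∀ s t, (s, t) ∈ N → ∀ r, (s, r) ∈ N ∨ (r, t) ∈ N)
    {M M' : Matrix (Fin n) (Fin n) k} (hM : ∀ x ∈ N, M x.1 x.2 = 0)
    (hM' : ∀ x ∈ N, M' x.1 x.2 = 0) : ∀ x ∈ N, (M * M') x.1 x.2 = 0 := by
  intro x hx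
  rw [Matrix.mul_apply]
  refine Finset.sum_eq_zero fun r _ => ?_
  rcases h2 x.1 x.2 hx r with h | h
  · rw [hM _ h, zero_mul]
  · rw [hM' _ h, mul_zero]

/-- the invertible matrices with a zero pattern -/
def patG_TvCount (k : Type) [Field k] [Fintype k] (h1 : ∀ s, (s, s) ∉ N)
    (h2 : ∀ s t, (s, t) ∈ N → ∀ r, (s, r) ∈ N ∨ (r, t) ∈ N) : Subgroup (GL (Fin n) k) where
  carrier := {b | ∀ x ∈ N, b.val x.1 x.2 = 0}
  mul_mem' ha hb := mul_pat_TvCount h2 ha hb
  one_mem' x hx := Matrix.one_apply_ne fun h => h1 x.1 (by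
    have e : x = (x.1, x.1) := Prod.ext rfl h.symm
    rwa [e] at hx)
  inv_mem' {b} hb := by
    have hp : ∀ m : ℕ, ∀ x ∈ N, (b ^ m).val x.1 x.2 = 0 := by
      intro m
      induction m with
      | zero =>
        intro x hx
        exact Matrix.one_apply_ne fun h => h1 x.1 (by
          have e : x = (x.1, x.1) := Prod.ext rfl h.symm
          rwa [e] at hx)
      | succ m ih =>
        rw [pow_succ]
        exact mul_pat_TvCount h2 ih hb
    have h3 : b⁻¹ = b ^ (orderOf b - 1) := by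
      rw [inv_eq_iff_mul_eq_one, ← pow_succ', Nat.sub_add_cancel (orderOf_pos b),
        pow_orderOf_eq_one]
    rw [h3]
    exact hp _

open Classical in
theorem sing_TvCount (h1 : ∀ s, (s, s) ∉ N) :
    (Finset.univ.filter fun M : Matrix (Fin n) (Fin n) k =>
        (∀ x ∈ N, M x.1 x.2 = 0) ∧ M.det = 0).card * Fintype.card k ≤
      (Finset.univ.filter fun M : Matrix (Fin n) (Fin n) k => ∀ x ∈ N, M x.1 x.2 = 0).card * n := by
  refine Finset.card_mul_le_card_mul (fun S M => ∃ t : k, S = Matrix.scalar _ t - M) ?_ ?_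
  · intro S hS
    obtain ⟨hS, hS'⟩ := (Finset.mem_filter.1 hS).2
    have hn : Nonempty (Fin n) := by
      by_contra h
      rw [not_nonempty_iff] at h
      rw [Matrix.det_isEmpty] at hS'
      exact one_ne_zero hS'
    refine Finset.card_le_card_of_injOn (fun t : k => Matrix.scalar _ t - S) ?_ ?_
    · intro t _
      refine Finset.mem_coe.2 ((Finset.mem_bipartiteAbove _).2 ⟨Finset.mem_filter.2
        ⟨Finset.mem_univ _, fun x hx => ?_⟩, t, (sub_sub_cancel _ _).symm⟩)
      have h3 : x.1 ≠ x.2 := fun h => h1 x.1 (by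
        have e : x = (x.1, x.1) := Prod.ext rfl h.symm
        rwa [e] at hx)
      beta_reduce
      rw [Matrix.sub_apply, hS x hx, Matrix.scalar_apply, Matrix.diagonal_apply_ne _ h3, sub_zero]
    · intro t _ t' _ h
      exact Matrix.scalar_inj.1 (sub_left_injective h)
  · intro M _
    calc _ ≤ (M.charpoly.roots.toFinset.image fun t : k => Matrix.scalar _ t - M).card := by
          refine Finset.card_le_card fun S hS => ?_
          obtain ⟨hS, t, rfl⟩ := (Finset.mem_bipartiteBelow _).1 hS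
          refine Finset.mem_image.2 ⟨t, ?_, rfl⟩
          rw [Multiset.mem_toFinset, Polynomial.mem_roots M.charpoly_monic.ne_zero,
            Polynomial.IsRoot, Matrix.eval_charpoly]
          exact (Finset.mem_filter.1 hS).2.2
      _ ≤ M.charpoly.roots.toFinset.card := Finset.card_image_le
      _ ≤ M.charpoly.natDegree := (Multiset.toFinset_card_le _).trans (Polynomial.card_roots' _)
      _ = n := by rw [Matrix.charpoly_natDegree_eq_dim, Fintype.card_fin]

open Classical in
theorem mat_TvCount : Fintype.card (Matrix (Fin n) (Fin n) k) ≤ Fintype.card k ^ N.ncard *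
    (Finset.univ.filter fun M : Matrix (Fin n) (Fin n) k => ∀ x ∈ N, M x.1 x.2 = 0).card := by
  let φ : Matrix (Fin n) (Fin n) k →+ (N → k) :=
    { toFun := fun M x => M x.1.1 x.1.2
      map_zero' := rfl
      map_add' := fun _ _ => rfl }
  have h1 := φ.ker.card_eq_card_quotient_mul_card_addSubgroup
  have h2 : Nat.card (Matrix (Fin n) (Fin n) k ⧸ φ.ker) ≤ Fintype.card k ^ N.ncard := by
    have h3 := Nat.card_le_card_of_injective _ (QuotientAddGroup.kerLift_injective φ)
    rwa [Nat.card_fun, Nat.card_eq_fintype_card (α := k), Nat.card_coe_set_eq] at h3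
  have h3 : Nat.card φ.ker = (Finset.univ.filter
      fun M : Matrix (Fin n) (Fin n) k => ∀ x ∈ N, M x.1 x.2 = 0).card := by
    rw [← Fintype.card_subtype, ← Nat.card_eq_fintype_card]
    refine Nat.card_congr (Equiv.subtypeEquivRight fun M => ?_)
    rw [AddMonoidHom.mem_ker, funext_iff]
    exact ⟨fun h x hx => h ⟨x, hx⟩, fun h x => h x.1 x.2⟩
  rw [← Nat.card_eq_fintype_card, h1, h3]
  exact Nat.mul_le_mul_right _ h2

theorem quot_TvCount (h1 : ∀ s, (s, s) ∉ N)
    (h2 : ∀ s t, (s, t) ∈ N → ∀ r, (s, r) ∈ N ∨ (r, t) ∈ N) (hn : 2 * n < Fintype.card k) :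
    Nat.card (GL (Fin n) k ⧸ patG_TvCount k h1 h2) ≤ 2 * Fintype.card k ^ N.ncard := by
  classical
  have hs := sing_TvCount (k := k) h1
  have hm := mat_TvCount (k := k) (N := N)
  set V := Finset.univ.filter fun M : Matrix (Fin n) (Fin n) k => ∀ x ∈ N, M x.1 x.2 = 0 with hV
  set S := Finset.univ.filter fun M : Matrix (Fin n) (Fin n) k =>
    (∀ x ∈ N, M x.1 x.2 = 0) ∧ M.det = 0 with hS
  have h3 : 2 * S.card ≤ V.card := by
    refine Nat.le_of_mul_le_mul_right ?_ (Fintype.card_pos (α := k))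
    calc 2 * S.card * Fintype.card k = 2 * (S.card * Fintype.card k) := by ring
      _ ≤ 2 * (V.card * n) := Nat.mul_le_mul_left _ hs
      _ = V.card * (2 * n) := by ring
      _ ≤ V.card * Fintype.card k := Nat.mul_le_mul_left _ hn.le
  have h4 : V.card ≤ S.card + Nat.card (patG_TvCount k h1 h2) := by
    have h5 : V ⊆ S ∪ Finset.univ.image fun b : patG_TvCount k h1 h2 => b.1.val := by
      intro M hM
      have hM' := (Finset.mem_filter.1 hM).2
      rw [Finset.mem_union]
      by_cases hd : M.det = 0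
      · exact Or.inl (Finset.mem_filter.2 ⟨Finset.mem_univ _, hM', hd⟩)
      · exact Or.inr (Finset.mem_image.2
          ⟨⟨Matrix.GeneralLinearGroup.mkOfDetNeZero M hd, hM'⟩, Finset.mem_univ _, rfl⟩)
    refine (Finset.card_le_card h5).trans ((Finset.card_union_le _ _).trans ?_)
    refine Nat.add_le_add_left (Finset.card_image_le.trans ?_) _
    rw [Finset.card_univ, Nat.card_eq_fintype_card]
  have h5 := (patG_TvCount k h1 h2).card_eq_card_quotient_mul_card_subgroup
  have h6 : Nat.card (GL (Fin n) k) ≤ Fintype.card (Matrix (Fin n) (Fin n) k) := by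
    rw [← Nat.card_eq_fintype_card]
    exact Nat.card_le_card_of_injective _ Units.val_injective
  refine Nat.le_of_mul_le_mul_right ?_ (Nat.card_pos (α := patG_TvCount k h1 h2))
  calc _ = Nat.card (GL (Fin n) k) := h5.symm
    _ ≤ Fintype.card k ^ N.ncard * V.card := h6.trans hm
    _ ≤ Fintype.card k ^ N.ncard * (2 * Nat.card (patG_TvCount k h1 h2)) :=
        Nat.mul_le_mul_left _ (by omega)
    _ = _ := by ring

theorem diag_TvCount {k : Type} [Field k] {M M' : Matrix (Fin n) (Fin n) k}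
    (hM : M.BlockTriangular id) (hM' : M'.BlockTriangular id) (s : Fin n) :
    (M * M') s s = M s s * M' s s := by
  rw [Matrix.mul_apply]
  refine Finset.sum_eq_single s (fun r _ hr => ?_) fun h => absurd (Finset.mem_univ s) h
  rcases lt_or_gt_of_ne hr with h | h
  · rw [hM h, zero_mul]
  · rw [hM' h, mul_zero]

end count

theorem countT_stmt (p : ℕ) [Fact p.Prime] : CountTStmt p := by
  intro n o a hn
  classical
  set N := {x : Fin n × Fin n | (o → x.2 < x.1) ∧ (¬ o → a x.1 ≠ a x.2)} with hN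
  have h1 : ∀ s, (s, s) ∉ N := fun s h => h.2 (fun ho => lt_irrefl _ (h.1 ho)) rfl
  have h2 : ∀ s t, (s, t) ∈ N → ∀ r, (s, r) ∈ N ∨ (r, t) ∈ N := by
    intro s t h r
    by_cases ho : o
    · rcases lt_or_ge r s with h' | h'
      · exact Or.inl ⟨fun _ => h', fun h'' => absurd ho h''⟩
      · exact Or.inr ⟨fun _ => lt_of_lt_of_le (h.1 ho) h', fun h'' => absurd ho h''⟩
    · by_cases h' : a s = a r
      · exact Or.inr ⟨fun h'' => absurd h'' ho, fun _ h'' => h.2 ho (h'.trans h'')⟩
      · exact Or.inl ⟨fun h'' => absurd h'' ho, fun _ => h'⟩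
  have hq := quot_TvCount (k := ZMod p) h1 h2 (by rwa [ZMod.card])
  rw [ZMod.card] at hq
  let _ : Fintype (GL (Fin n) (ZMod p) ⧸ patG_TvCount (ZMod p) h1 h2) := Fintype.ofFinite _
  refine ⟨Finset.univ.image fun q : GL (Fin n) (ZMod p) ⧸ patG_TvCount (ZMod p) h1 h2 => q.out,
    Finset.card_image_le.trans ?_, ?_⟩
  · rwa [Finset.card_univ, ← Nat.card_eq_fintype_card]
  intro F P A z u hA
  obtain ⟨b, hb⟩ := QuotientGroup.mk_out_eq_mul (patG_TvCount (ZMod p) h1 h2) A
  refine ⟨A * b.1, Finset.mem_image.2 ⟨_, Finset.mem_univ _, hb⟩, fun g hg hP => ?_⟩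
  have hc : cj (A * b.1)⁻¹ (z g) = b.1⁻¹.val * cj A⁻¹ (z g) * b.1.val := by
    simp only [cj, mul_inv_rev, inv_inv, Units.val_mul, Matrix.mul_assoc]
  obtain ⟨h3, h4⟩ := hA g hg hP
  have hb1 : ∀ x ∈ N, b.1.val x.1 x.2 = 0 := b.2
  have hb2 : ∀ x ∈ N, b.1⁻¹.val x.1 x.2 = 0 := inv_mem b.2
  rw [hc]
  by_cases ho : o
  · have t1 : b.1.val.BlockTriangular id := fun s t h =>
      hb1 (s, t) ⟨fun _ => h, fun h' => absurd ho h'⟩
    have t2 : b.1⁻¹.val.BlockTriangular id := fun s t h =>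
      hb2 (s, t) ⟨fun _ => h, fun h' => absurd ho h'⟩
    have t3 := (t2.mul (h3 ho)).mul t1
    refine ⟨fun _ => t3, fun hI s t hst => ?_⟩
    rcases (hst ho).eq_or_lt with rfl | hlt
    · have h5 := diag_TvCount t2 t1 t
      rw [Units.inv_mul, Matrix.one_apply_eq] at h5
      rw [diag_TvCount (t2.mul (h3 ho)) t1, diag_TvCount t2 (h3 ho), mul_right_comm, ← h5, one_mul]
      exact h4 hI t t hst
    · rw [if_neg hlt.ne']
      exact t3 hlt
  · refine ⟨fun h => absurd h ho, fun hI s t _ => ?_⟩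
    have h5 : cj A⁻¹ (z g) =
        Matrix.diagonal fun s => u * psi p g * (a s - (∑ x, a x) / n) := by
      ext s t
      rw [h4 hI s t fun h => absurd h ho, Matrix.diagonal_apply]
    have h6 : cj A⁻¹ (z g) * b.1.val = b.1.val * cj A⁻¹ (z g) := by
      rw [h5]
      ext s t
      rw [Matrix.diagonal_mul, Matrix.mul_diagonal]
      by_cases h : a s = a t
      · rw [h, mul_comm]
      · rw [hb1 (s, t) ⟨fun h' => absurd h' ho, fun _ => h⟩, mul_zero, zero_mul]
    rw [Matrix.mul_assoc, h6, ← Matrix.mul_assoc, Units.inv_mul, Matrix.one_mul]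
    exact h4 hI s t fun h => absurd h ho

end Pool.Agent.MP_f68ac8_nt.Sv
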