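import Mathlib
import Pool.Agent.MP_f68ac8_nt.TvAux
import Pool.Agent.MP_f68ac8_nt.GvLev
import Pool.Agent.MP_f68ac8_nt.GvHT

namespace Pool.Agent.MP_f68ac8_nt.Sv

open Ev Pv
open Matrix PadicInt NumberField
open scoped Pointwise Topology MatrixGroups

section
variable {p : ℕ} [hp : Fact p.Prime] {ι : Qb →+* ℂ_[p]} {κ : Type} [Fintype κ] [DecidableEq κ]
  {A : GC p →* Matrix κ κ ℤ_[p]}

lemma step_TvHT (h5 : 5 ≤ p) {Θ : GC p → Matrix κ κ ℤ_[p]} {k : ℕ} (hk : 0 < k)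
    (hΘ : ∀ g, A g = 1 + (p : ℤ_[p]) ^ k • Θ g) {γ : GC p} (hγ : Inert ℂ_[p] γ)
    (h1 : psi p (resC ι γ) = 1)
    {a : κ → ℤ} (ha : ∀ i j, (a i : ZMod p) = a j → a i = a j) (hka : k = 1 ∨ ∀ i, a i = 0) {v : Matrix κ κ ℂ_[p]}
    (h : ∀ i, AVec_GvLev ι A (a i) (v i)) (hv : ∀ i l, ‖v i l‖ ≤ 1) :
    (∃ U : Matrix κ κ (ZMod p), IsUnit U ∧
      ∀ i, U i ᵥ* (Θ γ).map toZMod = (-a i : ZMod p) • U i) ∨
      ∃ v' : Matrix κ κ ℂ_[p], (∀ i, AVec_GvLev ι A (a i) (v' i)) ∧ (∀ i l, ‖v' i l‖ ≤ 1) ∧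
        ‖det v'‖ = p * ‖det v‖ := by
  let φ := algebraMap ℚ_[p] ℂ_[p]
  have hka' : ∀ i, k = 1 ∨ a i = 0 := fun i => hka.imp id fun e => e i
  choose u hu hu' using fun i => (key_GvLev h5 hk hΘ hγ h1 (hka' i) (h i) (hv i)).1
  let U : Matrix κ κ (ZMod p) := Matrix.of fun i l => toZMod (u i l)
  by_cases hU : LinearIndependent (ZMod p) U.row
  · exact Or.inl ⟨U, linearIndependent_rows_iff_isUnit.mp hU, hu'⟩
  right
  obtain ⟨c, hc, i₀, hi₀⟩ := Fintype.not_linearIndependent_iff.mp hU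
  let s := Finset.univ.filter fun j => a j ≠ a i₀
  have hs := sep_HTn (u := fun i l => toZMod (u i l)) (μ := fun i => (-a i : ZMod p)) hu' hc s
  set d : κ → ZMod p := fun i => c i * ∏ j ∈ s, (-(a i : ZMod p) - -a j) with hd
  have d0 : d i₀ ≠ 0 := by
    refine mul_ne_zero hi₀ (Finset.prod_ne_zero_iff.mpr fun j hj e => ?_)
    exact (Finset.mem_filter.mp hj).2 (ha _ _ (by linear_combination e))
  let w : κ → ℂ_[p] := ∑ i, ((d i).val : ℂ_[p]) • v i
  have w1 : AVec_GvLev ι A (a i₀) w := sum_GvLev fun i => by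
    by_cases e : a i = a i₀
    · rw [← e, ← map_natCast φ]
      exact smul_GvLev (h i) _
    · have : d i = 0 := mul_eq_zero_of_right _ (Finset.prod_eq_zero (i := i)
        (Finset.mem_filter.mpr ⟨Finset.mem_univ _, e⟩) (sub_self _))
      simpa [this] using zero_GvLev _
  have w2 : ∀ l, ‖w l‖ < 1 := fun l => by
    have e1 : ‖φ ((∑ i, ((d i).val : ℤ_[p]) * u i l : ℤ_[p]) : ℚ_[p])‖ < 1 := by
      rw [norm_qp, norm_lt_iff]
      simpa [hd] using congrFun hs l
    have e2 : ‖∑ i, ((d i).val : ℂ_[p]) * (v i l - φ (u i l))‖ < 1 :=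
      Finset.sum_induction _ (fun x : ℂ_[p] => ‖x‖ < 1) (fun _ _ => lt_add) (by simp)
        fun i _ => le_mul_lt (le_nat _) (hu i l)
    refine lt_of_eq_of_lt (congrArg _ ?_) (lt_add e2 e1)
    simp only [w, Finset.sum_apply, Pi.smul_apply, smul_eq_mul, PadicInt.coe_sum,
      PadicInt.coe_mul, PadicInt.coe_natCast, map_sum, map_mul, map_natCast,
      ← Finset.sum_add_distrib]
    exact Finset.sum_congr rfl fun i _ => by ring
  have w3 := (key_GvLev h5 hk hΘ hγ h1 (hka' i₀) w1 fun l => (w2 l).le).2 w2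
  have hp0 : (0 : ℝ) < p := Nat.cast_pos.mpr hp.out.pos
  have np : ‖φ (p : ℚ_[p])⁻¹‖ = p := by rw [norm_qp, norm_inv, Padic.norm_p, inv_inv]
  refine ⟨v.updateRow i₀ (φ (p : ℚ_[p])⁻¹ • w), fun i => ?_, fun i l => ?_, ?_⟩
  · by_cases e : i = i₀
    · rw [e, updateRow_self]
      exact smul_GvLev w1 _
    · rw [updateRow_ne e]
      exact h i
  · by_cases e : i = i₀
    · rw [e, updateRow_self, Pi.smul_apply, smul_eq_mul, norm_mul, np, ← le_inv_mul_iff₀ hp0,
        mul_one]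
      exact w3 l
    · rw [updateRow_ne e]
      exact hv i l
  · rw [det_updateRow_smul, det_updateRow_sum, norm_mul, np, smul_eq_mul, norm_mul,
      norm_nat_eq_one (locC h5).np1 ((Nat.Prime.coprime_iff_not_dvd hp.out).mpr (by
        rw [← ZMod.natCast_eq_zero_iff]
        simpa using d0)), one_mul]

end

theorem hLev2_stmt (p : ℕ) [Fact p.Prime] : HLev2Stmt p := by
  intro ι κ _ _ A Θ a w h5 hΘ ha hw h γ hγ h1
  have hp : Fact p.Prime := inferInstance
  by_contra hne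
  let φ := algebraMap ℚ_[p] ℂ_[p]
  have hp1 : (1 : ℝ) < p := Nat.one_lt_cast.mpr hp.out.one_lt
  let v₀ : Matrix κ κ ℂ_[p] := Matrix.of w
  have d0 : det v₀ ≠ 0 := ((isUnit_iff_isUnit_det _).mp
    (linearIndependent_rows_iff_isUnit.mp hw)).ne_zero
  obtain ⟨m, hm⟩ := pow_unbounded_of_one_lt (∑ i, ∑ l, ‖v₀ i l‖) hp1
  have np : ‖φ ((p : ℚ_[p]) ^ m)‖ = ((p : ℝ) ^ m)⁻¹ := by
    rw [norm_qp, norm_pow, Padic.norm_p, inv_pow]
  have d1 : 0 < ‖det (φ ((p : ℚ_[p]) ^ m) • v₀)‖ := by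
    rw [norm_pos_iff, det_smul]
    refine mul_ne_zero (pow_ne_zero _ (norm_pos_iff.mp ?_)) d0
    rw [np]
    positivity
  have main : ∀ n : ℕ, ∃ v : Matrix κ κ ℂ_[p], (∀ i, AVec_GvLev ι A (a i) (v i)) ∧
      (∀ i l, ‖v i l‖ ≤ 1) ∧ ‖det v‖ = p ^ n * ‖det (φ ((p : ℚ_[p]) ^ m) • v₀)‖ := by
    intro n
    induction n with
    | zero =>
      refine ⟨φ ((p : ℚ_[p]) ^ m) • v₀, fun i => smul_GvLev (h _) _, fun i l => ?_,
        by rw [pow_zero, one_mul]⟩
      rw [Matrix.smul_apply, smul_eq_mul, norm_mul, np, inv_mul_le_iff₀ (by positivity), mul_one]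
      refine le_trans ?_ hm.le
      refine le_trans ?_ (Finset.single_le_sum (f := fun i => ∑ l, ‖v₀ i l‖)
        (fun _ _ => by positivity) (Finset.mem_univ i))
      exact Finset.single_le_sum (f := fun l => ‖v₀ i l‖) (fun _ _ => norm_nonneg _)
        (Finset.mem_univ l)
    | succ n ih =>
      obtain ⟨v, b1, b2, b3⟩ := ih
      obtain ⟨v', c1, c2, c3⟩ :=
        (step_TvHT h5 one_pos (fun g => by rw [pow_one, hΘ]) hγ h1 ha (Or.inl rfl) b1
          b2).resolve_left hne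
      exact ⟨v', c1, c2, by rw [c3, b3, pow_succ', mul_assoc]⟩
  obtain ⟨n, hn⟩ := pow_unbounded_of_one_lt ‖det (φ ((p : ℚ_[p]) ^ m) • v₀)‖⁻¹ hp1
  obtain ⟨v, -, b2, b3⟩ := main n
  rw [inv_lt_iff_one_lt_mul₀ d1, ← b3] at hn
  exact hn.not_ge (det_le_HTn b2)

lemma fix_TvHT {p : ℕ} [Fact p.Prime] (ι : Qb →+* ℂ_[p]) (g : GC p) :
    resC ι g • primeC ι = primeC ι := by
  ext x
  rw [Ideal.mem_pointwise_smul_iff_inv_smul_mem, mem_primeC, mem_primeC, coe_smul_int, ← map_inv,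
    resC_spec]
  exact (congrArg (· < 1) ((g⁻¹).2 _)).to_iff

lemma lift_TvHT {p : ℕ} [Fact p.Prime] {n : ℕ} {M : Mt n ℤ_[p]} (h : M.map toZMod = 1) :
    ∃ Θ : Mt n ℤ_[p], M = 1 + (p : ℤ_[p]) • Θ := by
  have : ∀ i j, ∃ y : ℤ_[p], (M - 1) i j = p * y := fun i j => by
    have e : (M - 1) i j ∈ RingHom.ker (toZMod : ℤ_[p] →+* ZMod p) := by
      rw [RingHom.mem_ker, Matrix.sub_apply, map_sub, ← map_apply (f := toZMod), h, one_apply,
        one_apply]
      split_ifs <;> simp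
    rwa [ker_toZMod, maximalIdeal_eq_span_p, Ideal.mem_span_singleton] at e
  choose y hy using this
  exact ⟨Matrix.of y, eq_add_of_sub_eq' (Matrix.ext hy)⟩

lemma alg_TvHT {p : ℕ} [hp : Fact p.Prime] {n : ℕ} (o : Fin n) {Θ Z : Mt n ℤ_[p]} {s w : ℤ_[p]}
    (hw : w ≠ 0) (h : (1 + (p : ℤ_[p]) • Θ)ᵀ * (s • (1 + (p : ℤ_[p]) • Z)) = w • 1) :
    ∃ y : ZMod p, Z.map toZMod = y • 1 - (Θ.map toZMod)ᵀ := by
  have hs : s ≠ 0 := by
    rintro rfl
    have := congrFun (congrFun h o) o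
    simp [hw.symm] at this
  set T : Mt n ℤ_[p] := Θᵀ + Z + (p : ℤ_[p]) • (Θᵀ * Z) with hT
  have e1 : (p * s) • T = (w - s) • (1 : Mt n ℤ_[p]) := by
    rw [sub_smul, ← h, hT]
    simp only [transpose_add, transpose_one, transpose_smul, Matrix.mul_smul, Matrix.add_mul,
      Matrix.mul_add, Matrix.one_mul, Matrix.mul_one, Matrix.smul_mul, smul_add, smul_smul]
    module
  have e2 : T = T o o • (1 : Mt n ℤ_[p]) := by
    have e3 := congrFun (congrFun e1 o) o
    simp only [Matrix.smul_apply, one_apply_eq, smul_eq_mul, mul_one] at e3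
    rw [← e3, mul_smul (p * s)] at e1
    exact smul_right_injective _ (mul_ne_zero (Nat.cast_ne_zero.2 hp.out.ne_zero) hs) e1
  refine ⟨toZMod (T o o), ?_⟩
  ext i j
  have e4 := congrArg toZMod (congrFun (congrFun e2 i) j)
  rw [hT] at e4
  simp only [Matrix.add_apply, Matrix.smul_apply, smul_eq_mul, map_add, map_mul, map_natCast,
    ZMod.natCast_self, zero_mul, add_zero, transpose_apply, one_apply, apply_ite toZMod, map_one,
    map_zero] at e4
  simp only [hT, Matrix.add_apply, Matrix.smul_apply, smul_eq_mul, map_add, map_mul, map_natCast,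
    ZMod.natCast_self, zero_mul, add_zero, transpose_apply, one_apply, map_apply, Matrix.sub_apply]
  linear_combination e4

theorem hTT_stmt (p : ℕ) [Fact p.Prime] (hB : BaseTStmt p) (hK : KwTStmt p) (hP : PerStmt p)
    (hL : HLev2Stmt p) : HTTStmt p := by
  intro K F _ _ n r hKF hR ρ z hlift hlev hbas ι b ⟨v, v1, v2⟩ hb
  obtain ⟨hn2, hnp⟩ := hR.big
  obtain ⟨γ, g1, g2, g3, g4⟩ := hK K F n r hKF hR ι
  choose hmem hscal using fun g : GC p =>
    hR.split _ (primeC_maximal ι) (p_mem_primeC ι) _ (fix_TvHT ι g)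
  let R : GC p →* GL (Fin n) ℤ_[p] := ρ.toMonoidHom.comp ((resC ι).codRestrict _ hmem)
  let o : Fin n := ⟨0, by omega⟩
  have hlam : ∀ g, (R g).val.map toZMod = toZMod ((R g).val o o) • (1 : Mt n (ZMod p)) := by
    intro g
    obtain ⟨c, hc⟩ := hlift ⟨_, hmem g⟩
    obtain ⟨c', hc'⟩ := hscal g
    rw [hc', smul_smul] at hc
    have e : toZMod ((R g).val o o) = c * c' :=
      (congrFun (congrFun hc o) o).trans (by simp)
    rw [e]
    exact hc
  let lam : GC p →* ZMod p :=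
    { toFun := fun g => toZMod ((R g).val o o)
      map_one' := by simp
      map_mul' := fun g h => by
        have e := hlam (g * h)
        rw [map_mul, Units.val_mul, Matrix.map_mul, hlam, hlam, ← Units.val_mul, ← map_mul] at e
        simpa [mul_comm] using (congrFun (congrFun e o) o).symm }
  let ω : GC p →* ℤ_[p]ˣ := (tm.comp lam).toHomUnits
  have hω : ∀ g, toZMod (ω g : ℤ_[p]) = lam g := fun g => toZMod_tm _
  obtain ⟨l, l0, hl⟩ := exists_period ι (p := p) (by omega)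
  obtain ⟨l', l0', hl'⟩ := hP ι ω (by
    have hc : Continuous fun h : K.fixingSubgroup => ‖(ρ h).val o o - 1‖ :=
      (((Units.continuous_val.comp ρ.continuous).matrix_elem o o).sub continuous_const).norm
    have hs : {h : K.fixingSubgroup | ‖(ρ h).val o o - 1‖ < 1} ∈ 𝓝 1 :=
      (isOpen_lt hc continuous_const).mem_nhds (by simp)
    obtain ⟨s, s1, s2⟩ := (mem_nhds_subtype _ _ _).1 hs
    refine ⟨s, s1, fun g hg => Units.ext ?_⟩
    have e : ‖(R g).val o o - 1‖ < 1 := s2 (show (⟨_, hmem g⟩ : K.fixingSubgroup) ∈ _ from hg)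
    have e' : (R g).val o o - 1 ∈ RingHom.ker (toZMod : ℤ_[p] →+* ZMod p) := by
      rw [ker_toZMod, IsLocalRing.mem_maximalIdeal, mem_nonunits]
      exact e
    rw [RingHom.mem_ker, map_sub, map_one, sub_eq_zero] at e'
    change tm (toZMod ((R g).val o o)) = 1
    rw [e', map_one])
  let A : GC p →* Mt n ℤ_[p] :=
    { toFun := fun g => (ω g : ℤ_[p]) • ((R g)⁻¹.val)ᵀ
      map_one' := by simp
      map_mul' := fun g h => by
        rw [map_mul, map_mul, _root_.mul_inv_rev, Units.val_mul, Units.val_mul, transpose_mul,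
          smul_mul_smul_comm] }
  have hA : ∀ g, A g = (ω g : ℤ_[p]) • ((R g)⁻¹.val)ᵀ := fun _ => rfl
  choose Θ hΘ using fun g => lift_TvHT (M := A g) (by
    ext i j
    have e := congrFun (congrFun (hlam g⁻¹) j) i
    have e1 : lam g * lam g⁻¹ = 1 := by rw [← map_mul, mul_inv_cancel, map_one]
    rw [map_apply, map_inv] at e
    rw [map_apply, hA, Matrix.smul_apply, transpose_apply, smul_eq_mul, map_mul, hω, e, ← map_inv,
      Matrix.smul_apply, smul_eq_mul, ← mul_assoc]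
    erw [e1]
    rw [one_mul, one_apply, one_apply]
    simp only [eq_comm])
  let φ := algebraMap ℚ_[p] ℂ_[p]
  let ψ : ℤ_[p] →+* ℂ_[p] := φ.comp (algebraMap ℤ_[p] ℚ_[p])
  obtain ⟨U, hU, hU'⟩ := hL ι (Fin n) A Θ b (fun i => (l' * l ^ (-b i)) • v i) (by omega) hΘ hb
    (v1.units_smul fun i => Units.mk0 (l' * l ^ (-b i)) (mul_ne_zero l0' (zpow_ne_zero _ l0)))
    (fun i g m => by
      have e0 : (R g).val.map ψ *ᵥ (fun k => g • (l ^ (-b i) • v i) k) =
          φ (ea p (b i) (resC ι g)) • l ^ (-b i) • v i := ht'_HTadj (hl g)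
        (v2 i g.1 ⟨_, hmem g⟩ (GC.cont g) fun x => (resC_spec ι g x).symm)
      have e1 := congrArg ((R g)⁻¹.val.map ψ *ᵥ ·) e0
      simp only [mulVec_mulVec] at e1
      rw [← Matrix.map_mul, Units.inv_mul, Matrix.map_one _ (map_zero _) (map_one _), one_mulVec,
        mulVec_smul] at e1
      have e2 := congrFun e1 m
      rw [mul_smul, Pi.smul_apply, smul_eq_mul, smul_mul', hl', e2, Pi.smul_apply, smul_eq_mul]
      simp only [mulVec, dotProduct, Finset.mul_sum, hA, Matrix.smul_apply, transpose_apply,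
        smul_eq_mul, PadicInt.coe_mul, map_mul, Pi.smul_apply, map_apply]
      refine Finset.sum_congr rfl fun j _ => ?_
      change _ = _ * (_ * ψ _ * _)
      ring) γ g1 g3
  obtain ⟨s, Z, z1, z2, z3⟩ := hlev ⟨_, hmem γ⟩ g2.2.2
  obtain ⟨y, hy⟩ := alg_TvHT o (Θ := Θ γ) (Z := Z) (s := s) (ω γ).ne_zero (by
    rw [← hΘ, ← z1, hA, transpose_smul, transpose_transpose, Matrix.smul_mul]
    exact congrArg _ (R γ).inv_mul)
  obtain ⟨V, hV⟩ := (Matrix.isUnit_transpose U).2 hU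
  have e1 : z (resC ι γ) * V.val = V.val * diagonal fun i => (b i : ZMod p) + y := by
    rw [← z2, hy, hV, Matrix.sub_mul, ← transpose_mul]
    ext i j
    have e := congrFun (hU' j) i
    rw [mul_diagonal, Matrix.sub_apply, Matrix.smul_mul, Matrix.one_mul, transpose_apply,
      Matrix.smul_apply, transpose_apply, Matrix.mul_apply]
    simp only [vecMul, dotProduct, Pi.smul_apply, smul_eq_mul] at e
    rw [e, smul_eq_mul]
    ring
  have e2 : cj V⁻¹ (z (resC ι γ)) = diagonal fun i => (b i : ZMod p) + y := by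
    rw [cj, inv_inv, Matrix.mul_assoc, e1, ← Matrix.mul_assoc, V.inv_mul, Matrix.one_mul]
  have hn0 : (n : ZMod p) ≠ 0 := by
    rw [Ne, ZMod.natCast_eq_zero_iff]
    exact Nat.not_dvd_of_pos_of_lt (by omega) (by omega)
  have e3 : y = -((∑ x, (b x : ZMod p)) / n) := by
    have e := congrArg trace e2
    rw [cj, inv_inv, trace_mul_cycle, V.mul_inv, Matrix.one_mul, z3, trace_diagonal,
      Finset.sum_add_distrib, Finset.sum_const, Finset.card_univ, Fintype.card_fin,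
      nsmul_eq_mul] at e
    field_simp
    linear_combination -e
  refine ⟨V, fun g hg _ => ⟨False.elim, fun hi s t _ => ?_⟩⟩
  rw [g4 z hbas g ⟨primeC_maximal ι, hi, hg⟩, cj, Matrix.mul_smul, Matrix.smul_mul, ← cj, e2,
    Matrix.smul_apply, diagonal_apply, e3]
  split_ifs <;> simp [sub_eq_add_neg]

end Pool.Agent.MP_f68ac8_nt.Sv
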