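import Mathlib
import Pool.Agent.MP_f68ac8_nt.TvAux
import Pool.Agent.MP_f68ac8_nt.GvKW

/-! The local theorem of Kronecker and Weber, and periods of characters of finite order. -/

namespace Pool.Agent.MP_f68ac8_nt.Sv

open Ev Pv NumberField
open scoped Topology Pointwise

lemma transfer_TvKw {G V : Type} [Group G] [AddCommGroup V] (H : Subgroup G) [hH : H.Normal]
    [H.FiniteIndex] (f : G → V) (hf : ∀ g ∈ H, ∀ h ∈ H, f (g * h) = f g + f h)
    (hc : ∀ g : G, ∀ h ∈ H, f (g * h * g⁻¹) = f h) :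
    ∃ T : G → V, (∀ g h, T (g * h) = T g + T h) ∧ ∀ h ∈ H, T h = H.index • f h := by
  have : Fintype (G ⧸ H) := Fintype.ofFinite _
  have hm : ∀ (g : G) (x : G ⧸ H), (g • x).out⁻¹ * (g * x.out) ∈ H := fun g x => by
    rw [← QuotientGroup.eq, QuotientGroup.out_eq']
    conv_lhs => rw [← QuotientGroup.out_eq' x]
    rfl
  refine ⟨fun g => ∑ x : G ⧸ H, f ((g • x).out⁻¹ * (g * x.out)), fun g h => ?_, fun h hh => ?_⟩
  · beta_reduce
    rw [← Equiv.sum_comp (MulAction.toPerm h) fun x : G ⧸ H => f ((g • x).out⁻¹ * (g * x.out)),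
      ← Finset.sum_add_distrib]
    refine Finset.sum_congr rfl fun x _ => ?_
    rw [MulAction.toPerm_apply, ← hf _ (hm g _) _ (hm h _), mul_smul]
    congr 1
    group
  · have hx : ∀ x : G ⧸ H, h • x = x := fun x => by
      induction x using QuotientGroup.induction_on with
      | H y =>
        change ((h * y : G) : G ⧸ H) = y
        rw [QuotientGroup.eq]
        simpa [mul_assoc] using hH.conj_mem' _ (inv_mem hh) y
    have : ∀ x : G ⧸ H, f ((h • x).out⁻¹ * (h * x.out)) = f h := fun x => by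
      rw [hx, ← hc x.out⁻¹ h hh, inv_inv, mul_assoc]
    simp only [this, Finset.sum_const, Finset.card_univ]
    rw [Subgroup.index, Nat.card_eq_fintype_card]

variable {p : ℕ} [hp : Fact p.Prime]

lemma sep_TvKw (ι : Qb →+* ℂ_[p]) {θ : GC p → ZMod p} (hθ : AddCh θ) {s : Set GQ}
    (hs : s ∈ 𝓝 (1 : GQ)) (h : ∀ g, resC ι g ∈ s → θ g = 0) : Sep ℂ_[p] θ := by
  intro γ hγ
  obtain ⟨L, _, _, hL⟩ := exists_level hs
  let N : Subgroup (GC p) := (MonoidHom.mk' (fun g => Multiplicative.ofAdd (θ g))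
    fun g h => by rw [hθ, ofAdd_add]).ker
  let H : Subgroup GQ := N.map (resC ι) ⊔ (res L).ker
  have hH : (H : Set GQ) ∈ 𝓝 (1 : GQ) := by
    filter_upwards [(IntermediateField.fixingSubgroup_isOpen L).mem_nhds
      (one_mem L.fixingSubgroup)] with g e
    refine Subgroup.mem_sup_right ((res_eq_one L).2 ?_)
    exact (IntermediateField.mem_fixingSubgroup_iff _ _).1 e
  have hfix := InfiniteGalois.fixingSubgroup_fixedField
    ⟨H, H.isClosed_of_isOpen (H.isOpen_of_mem_nhds hH)⟩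
  by_contra hn
  push Not at hn
  have h1 : resC ι γ ∈ (IntermediateField.fixedField H).fixingSubgroup := by
    rw [IntermediateField.mem_fixingSubgroup_iff]
    intro x hx
    apply ι.injective
    rw [resC_spec]
    refine hn _ fun g hg => ?_
    rw [← resC_spec]
    exact congrArg ι (hx ⟨_, Subgroup.mem_sup_left ⟨g, hg, rfl⟩⟩)
  obtain ⟨_, ⟨k, hk, rfl⟩, u, hu, e⟩ := Subgroup.mem_sup_of_normal_right.1 (hfix.le h1)
  have h2 : θ (k⁻¹ * γ) = 0 := by
    refine h _ (hL _ ?_)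
    rw [map_mul, map_inv, ← e, inv_mul_cancel_left]
    exact hu
  have hk' : θ k = 0 := hk
  rw [hθ, hθ.inv, hk', neg_zero, zero_add] at h2
  exact hγ h2

lemma fix_prime_TvKw (ι : Qb →+* ℂ_[p]) (g : GC p) : resC ι g • primeC ι = primeC ι := by
  ext x
  rw [Ideal.mem_pointwise_smul_iff_inv_smul_mem, mem_primeC, mem_primeC, coe_smul_int,
    ← map_inv, resC_spec]
  exact iff_of_eq (congrArg (· < 1) ((g⁻¹).2 _))

lemma cj_scal_TvKw {n : ℕ} {A : GL (Fin n) (ZMod p)} (h : IsScal A) (Z : Mt n (ZMod p)) :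
    cj A Z = Z := by
  obtain ⟨c, hc⟩ := h
  have : A.val * Z = Z * A.val := by simp [hc]
  rw [cj, this, mul_assoc, Units.mul_inv, mul_one]

theorem kwT_stmt (p : ℕ) [Fact p.Prime] (hB : BaseTStmt p) : KwTStmt p := by
  intro K F _ _ n r hKF hR ι
  have h5 : 5 ≤ p := by have := hR.big; omega
  have := primeC_maximal ι
  obtain ⟨-, ⟨N, -, hN, hN', -⟩, -⟩ := hB K F n r hKF hR
  have hsp := fun g : GC p => hR.split (primeC ι) inferInstance (p_mem_primeC ι) (resC ι g)
    (fix_prime_TvKw ι g)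
  let H : Subgroup (GC p) := ((cyc p).comp (resC ι)).ker
  have hH : ∀ g : GC p, g ∈ H ↔ resC ι g ∈ F.fixingSubgroup := fun g => by
    obtain ⟨h1, h2⟩ := hsp g
    rw [hN' ⟨_, h1⟩, hN, cb_eq, and_iff_right h2, Units.val_eq_one]
    rfl
  have hdvd : H.index ∣ p - 1 := by
    rw [Subgroup.index_ker, ← ZMod.card_units p, ← Nat.card_eq_fintype_card]
    exact Subgroup.card_subgroup_dvd_card _
  have hi0 : H.index ≠ 0 := fun e => by
    rw [e, zero_dvd_iff] at hdvd
    omega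
  have : H.FiniteIndex := ⟨hi0⟩
  have hi : (H.index : ZMod p) ≠ 0 := by
    rw [Ne, ZMod.natCast_eq_zero_iff]
    intro e
    have := Nat.le_of_dvd (by omega) (e.trans hdvd)
    omega
  obtain ⟨τ, t1, t2⟩ := exists_psi_one (p_mem_primeC ι)
  obtain ⟨γ₀, a1, a2⟩ := exists_inert ι (pow_mem t1 ((p - 1) * (p - 1)))
  have h1 : psi p (resC ι γ₀) = 1 := by
    rw [a2, AddCh.pow psi_add, t2, Nat.cast_mul, Nat.cast_sub (by omega)]
    simp
  have h2 : γ₀ ∈ H := by
    change cyc p (resC ι γ₀) = 1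
    rw [a2, map_pow, pow_mul, ZMod.units_pow_card_sub_one_eq_one]
  refine ⟨γ₀, a1, ⟨inferInstance, a2 ▸ pow_mem t1 _, (hH _).1 h2⟩, h1, fun z hz u hu => ?_⟩
  obtain ⟨γ, a3, rfl⟩ := exists_inert ι hu.2.1
  ext i j
  obtain ⟨T, T1, T2⟩ := transfer_TvKw H (fun g => z (resC ι g) i j)
    (fun g hg h hh => by
      simp only [map_mul, hz.add _ ((hH g).1 hg) _ ((hH h).1 hh), Matrix.add_apply])
    (fun g h hh => by
      obtain ⟨e1, e2⟩ := hsp g
      have := hz.conj ⟨_, e1⟩ _ ((hH h).1 hh)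
      rw [cj_scal_TvKw e2] at this
      simp only [map_mul, map_inv, this])
  have T3 : ∀ g ∈ H, (H.index : ZMod p)⁻¹ * T g = z (resC ι g) i j := fun g hg => by
    rw [T2 g hg, nsmul_eq_mul, inv_mul_cancel_left₀ hi]
  have := (locC h5).prop (θ := fun g => (H.index : ZMod p)⁻¹ * T g)
    (ψ := fun g => psi p (resC ι g)) (fun g h => by simp only [T1, mul_add])
    (fun g h => by simp only [map_mul, psi_add _])
    a1 h1 (sep_res ι psi_add psi_nhds) (fun k => sep_TvKw ι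
      (fun g h => by simp only [T1, map_mul, psi_add _]; ring)
      (s := {g | g ∈ F.fixingSubgroup ∧ z g = 0 ∧ psi p g = 0}) (by
        filter_upwards [hz.nhds, psi_nhds (Ω := Qb) (p := p),
          (IntermediateField.fixingSubgroup_isOpen F).mem_nhds (one_mem F.fixingSubgroup)]
          with g e1 e2 e3
        exact ⟨e3, e1 e3, e2⟩) fun g hg => by
        simp only [T3 g ((hH g).2 hg.1), hg.2.1, hg.2.2, Matrix.zero_apply, mul_zero, sub_self]) a3
  simp only [T3 _ h2, T3 _ ((hH γ).2 hu.2.2)] at this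
  rw [this, Matrix.smul_apply, smul_eq_mul, mul_comm]

theorem per_stmt (p : ℕ) [Fact p.Prime] : PerStmt p := by
  rintro ι ω ⟨s, hs, hω⟩
  obtain ⟨L, _, _, hL⟩ := exists_level hs
  let π : GC p →* (L ≃ₐ[ℚ] L) := (res L).comp (resC ι)
  have hπ : ∀ g h, π g = π h → ω g = ω h := fun g h e => by
    have : ω (g⁻¹ * h) = 1 := hω _ (hL _ (by
      change π (g⁻¹ * h) = 1
      rw [map_mul, map_inv, e, inv_mul_cancel]))
    rwa [map_mul, map_inv, inv_mul_eq_one] at this
  have hact : ∀ (g : GC p) (y : L), ι (π g y : L) = g • ι y := fun g y => by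
    rw [← resC_spec]
    exact congrArg ι (AlgEquiv.restrictNormal_commutes (resC ι g) L y)
  have : Fintype π.range := Fintype.ofFinite _
  choose t ht using fun σ : π.range => σ.2
  let c : ℤ_[p]ˣ →* ℂ_[p] := ((algebraMap ℚ_[p] ℂ_[p]).comp
    (algebraMap ℤ_[p] ℚ_[p])).toMonoidHom.comp (Units.coeHom ℤ_[p])
  have hc : ∀ u, c u = algebraMap ℚ_[p] ℂ_[p] (u : ℤ_[p]) := fun _ => rfl
  let χ : π.range → (L →* ℂ_[p]) := fun σ =>
    ((ι.comp (algebraMap L Qb)).comp σ.1.toRingEquiv.toRingHom).toMonoidHom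
  have hχ : ∀ σ x, χ σ x = ι (σ.1 x : L) := fun _ _ => rfl
  have hinj : Function.Injective χ := fun σ σ' e => Subtype.ext (AlgEquiv.ext fun x =>
    Subtype.ext (ι.injective (by rw [← hχ, ← hχ, e])))
  have hli := (linearIndependent_monoidHom L ℂ_[p]).comp χ hinj
  obtain ⟨x, hx⟩ : ∃ x : L, ∑ σ : π.range, c (ω (t σ))⁻¹ * ι (σ.1 x : L) ≠ 0 := by
    by_contra hn
    push Not at hn
    have := Fintype.linearIndependent_iff.1 hli (fun σ => c (ω (t σ))⁻¹)
      (funext fun x => by simpa [hχ] using hn x) 1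
    exact ((Group.isUnit _).map c).ne_zero this
  refine ⟨_, hx, fun g => ?_⟩
  let a : π.range := ⟨π g, MonoidHom.mem_range.2 ⟨g, rfl⟩⟩
  rw [Finset.smul_sum, Finset.mul_sum]
  refine Fintype.sum_equiv (Equiv.mulLeft a) _ _ fun σ => ?_
  have e1 : ω (t (Equiv.mulLeft a σ)) = ω g * ω (t σ) := by
    rw [← map_mul]
    refine hπ _ _ ?_
    rw [ht, map_mul, ht]
    rfl
  rw [e1, smul_mul', hc, GC.fix, ← hact, ← hc, ← hc, ← mul_assoc, ← map_mul c, mul_inv,
    mul_inv_cancel_left]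
  rfl

end Pool.Agent.MP_f68ac8_nt.Sv
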