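import Mathlib
import Pool.Agent.MP_f68ac8_nt.EvKK
import Pool.Agent.MP_f68ac8_nt.EvRam
import Pool.Agent.MP_f68ac8_nt.EvLocAB
import Pool.Agent.MP_f68ac8_nt.EvKum
import Pool.Agent.MP_f68ac8_nt.EvTriv
import Pool.Agent.MP_f68ac8_nt.FvWild
import Pool.Agent.MP_f68ac8_nt.FvMean
import Pool.Agent.MP_f68ac8_nt.OvKey1
import Pool.Agent.MP_f68ac8_nt.OvMu
import Pool.Agent.MP_f68ac8_nt.OvKey2
import Pool.Agent.MP_f68ac8_nt.OvR1
import Pool.Agent.MP_f68ac8_nt.OvHens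
import Pool.Agent.MP_f68ac8_nt.OvLocP
import Pool.Agent.MP_f68ac8_nt.OvLocG
import Pool.Agent.MP_f68ac8_nt.OvExt
import Pool.Agent.MP_f68ac8_nt.PvBc
import Pool.Agent.MP_f68ac8_nt.PvEx
import Pool.Agent.MP_f68ac8_nt.PvLat
import Pool.Agent.MP_f68ac8_nt.PvCls
import Pool.Agent.MP_f68ac8_nt.PvMink
import Pool.Agent.MP_f68ac8_nt.PvSmall
import Pool.Agent.MP_f68ac8_nt.QvPerm2
import Pool.Agent.MP_f68ac8_nt.QvLocV
import Pool.Agent.MP_f68ac8_nt.QvCount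
import Pool.Agent.MP_f68ac8_nt.QvBs
import Pool.Agent.MP_f68ac8_nt.PtVU
import Pool.Agent.MP_f68ac8_nt.SvTh
import Pool.Agent.MP_f68ac8_nt.SvSum
import Pool.Agent.MP_f68ac8_nt.SvCf
import Pool.Agent.MP_f68ac8_nt.SvFin
import Pool.Agent.MP_f68ac8_nt.SvStep
import Pool.Agent.MP_f68ac8_nt.LcEf
import Pool.Agent.MP_f68ac8_nt.LcSet
import Pool.Agent.MP_f68ac8_nt.UvSum
import Pool.Agent.MP_f68ac8_nt.UvFin
import Pool.Agent.MP_f68ac8_nt.UvMat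
import Pool.Agent.MP_f68ac8_nt.UvDual
import Pool.Agent.MP_f68ac8_nt.UvAlg
import Pool.Agent.MP_f68ac8_nt.TvMain
import Pool.Agent.MP_f68ac8_nt.TvBase
import Pool.Agent.MP_f68ac8_nt.TvTyp
import Pool.Agent.MP_f68ac8_nt.TvKw
import Pool.Agent.MP_f68ac8_nt.TvLead
import Pool.Agent.MP_f68ac8_nt.TvSt
import Pool.Agent.MP_f68ac8_nt.TvHT
import Pool.Agent.MP_f68ac8_nt.TvCount
import Pool.Agent.MP_f68ac8_nt.AlRank
import Pool.Agent.MP_f68ac8_nt.AlAlg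

namespace Pool.Agent.MP_f68ac8_nt.TameHTOld

open NumberField Pool.Agent.MP_f68ac8_nt Sv

theorem result (p : ℕ) [Fact p.Prime] (K F : IntermediateField ℚ (AlgebraicClosure ℚ))
    [NumberField K] [NumberField F] (h : K ≤ F) (n : ℕ)
    (r : K.fixingSubgroup →* GL (Fin n) (ZMod p)) (hr : TamRes F r)
    (a : (K →+* ℂ_[p]) → Fin n → ZMod p) (o : Set (K →+* ℂ_[p]))
    (φ : InfinitePlace K → AlgebraicClosure ℚ →+* ℂ)
    (hφ : ∀ v, InfinitePlace.mk ((φ v).comp (algebraMap K (AlgebraicClosure ℚ))) = v) :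
    ∃ C : ℝ, ∀ t : ℕ → K.fixingSubgroup, (∀ j, TamTyp r (t j)) → ∀ d : ℕ,
      1 - 2 ^ Module.finrank ℚ K * p ^ (tamExp a o + 2) / ((p - 2) * p ^ tamDef r φ) -
        C * (2 / p) ^ d ≤
        idDens (fun j => Typ p K F (t j)) d fun S => S.ncard = d ∧ NoTam F r a o S := by
  have hK := Ev.kk_stmt p
  have hW := Ev.wild_stmt
  have hA := Ev.locA_stmt p Ev.ram_stmt
  have hM := Ev.kum_stmt p hK
  have hH := Ev.hens_stmt p
  have hR := Ev.r1G_stmt p (Ev.key1_stmt p) (Ev.key2_stmt p (Ev.mu_stmt p))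
  have hP := Ev.locP_stmt p Ev.ram_stmt hW hH
  have hV := Qv.locV_stmt p hK hW (Ev.triv_stmt p) Ev.ram_stmt hA
  have hG := Qv.gal_stmt p
  have hB := Pv.bc_stmt p
  have hC := Pv.cls_stmt p hB (Pv.ex_stmt p) (Pv.lat_stmt p hB (Pv.ex_stmt p))
  have hJ := j_stmt p Pv.mink_stmt
  have hCo := co_stmt p hK hW hV hG
  have hs := Pv.small_stmt' p
  have hb := baseT_stmt p
  have hk := kwT_stmt p hb
  exact notam_of ⟨th_stmt p hK, hCo, iner_stmt p hK hM hV hCo, nz_stmt p, nz3_stmt p (nz_stmt p),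
      sum2_stmt p hK hA hW (Ev.locG_stmt p hK) hCo hG (ord_stmt p hK hCo hG),
      fin0_stmt p hK hM hA (Pt.vu_stmt p),
      stepM_stmt p (Qv.count_stmt p hW hV) hV Ev.idMean_stmt, hV,
      Ev.idMean_stmt, cf_stmt p hK hM hP hR⟩ hb (typT_stmt p hb) (embT_stmt p)
    (locT_stmt p hb hk (locUr_stmt p hW)) (archT_stmt p hb)
    (leadT_stmt p hb hs (stT_stmt p hW hb hCo)) (ordT_stmt p hb hs)
    (hTT_stmt p hb hk (per_stmt p) (hLev2_stmt p)) (countT_stmt p)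
    (dualG_stmt p hK (set_stmt p hK) (matG_stmt p hJ (Qv.perm2_stmt p) (mat1_stmt p hB))
      (down2_stmt p Ev.ext_stmt) hV hG) (algT_stmt p hJ hC) h hr a o φ hφ

end Pool.Agent.MP_f68ac8_nt.TameHTOld
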