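import Mathlib
import Pool.Agent.MP_f68ac8_nt.TH2
import Pool.Agent.MP_f68ac8_nt.NahmDeg
import Pool.Agent.MP_f68ac8_nt.NahmA
import Pool.Agent.MP_f68ac8_nt.NahmB
import Pool.Agent.MP_f68ac8_nt.NahmI
import Pool.Agent.MP_f68ac8_nt.NahmW
import Pool.Agent.MP_f68ac8_nt.NahmT

namespace Pool.Agent.MP_f68ac8_nt.ThreeOld

open Pool.Agent.MP_f68ac8_nt Nahm

theorem result (n K : ℕ) : ∃ C : ℝ, ∀ (p : ℕ) [Fact p.Prime], p ≠ 2 →
    1 - C / p ≤ setDens p 3 fun S => S.ncard = 3 ∧ CongHT p n K S := by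
  obtain ⟨P, hP, h⟩ := exists_poly5 (fun F _ _ _ =>
    words_stmt F (irr_stmt F (a_stmt F) (b_stmt F (deg_stmt F)))) n K
  refine dens_of_poly (fun p _ => CongHT p n K) (((2 * K + 4).factorial : ℕ) * P)
    (mul_ne_zero (Nat.cast_ne_zero.mpr (Nat.factorial_ne_zero _)) hP) fun p hp _ m h0 => ?_
  rw [map_mul, map_natCast, mul_ne_zero_iff, Ne, ZMod.natCast_eq_zero_iff,
    hp.out.dvd_factorial] at h0
  exact th_criterion (by omega) (by omega) fun z x => h p m z x h0.2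

end Pool.Agent.MP_f68ac8_nt.ThreeOld
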