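import Mathlib
import Pool.Agent.MP_f68ac8_nt.ZoAux
import Pool.Agent.MP_f68ac8_nt.ZmTup
import Pool.Agent.MP_f68ac8_nt.ZfIdt
import Pool.Agent.MP_f68ac8_nt.ZmFin

namespace Pool.Agent.MP_f68ac8_nt.Zk
open Ev Pv Sv Zv
open scoped commutatorElement
open NumberField Filter
open scoped Topology BigOperators

section
variable {d : ℕ} {U : Fin d → Type} [∀ j, Fintype (U j)] {w : ∀ j, U j → ℝ}

lemma exm_ZoGlue (hw : Prob w) (c : ℝ) {F G : (∀ j, U j) → ℝ} (h : ∀ q, c * F q ≤ G q) :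
    c * Ex w F ≤ Ex w G := by
  simp only [Ex, smul_eq_mul]
  rw [Finset.mul_sum]
  refine Finset.sum_le_sum fun q _ => ?_
  rw [mul_left_comm]
  exact mul_le_mul_of_nonneg_left (h q) (Finset.prod_nonneg fun j _ => hw.1 j _)

lemma exs_ZoGlue (hw : Prob w) (F : (∀ j, U j) → ℝ) :
    Ex w (fun q => 1 - F q) = 1 - Ex w F := by
  have h : ∑ q : ∀ j, U j, ∏ j, w j (q j) = 1 := by
    rw [← Fintype.piFinset_univ, ← Finset.prod_univ_sum]
    exact Finset.prod_eq_one fun j _ => hw.2 j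
  simp only [Ex, smul_eq_mul, mul_sub, mul_one]
  rw [Finset.sum_sub_distrib, h]

end

lemma sub_ZoGlue {α : Type} {f : α → ℝ} (hf : Unit01 f) : Unit01 fun a => 1 - f a :=
  fun a => ⟨sub_nonneg.2 (hf a).2, sub_le_self _ (hf a).1⟩

lemma ite_ZoGlue {α : Type} {f : α → ℝ} (hf : Unit01 f) (A : α → Prop) [∀ a, Decidable (A a)] :
    Unit01 fun a => if A a then f a else 0 := fun a => by
  dsimp only
  split_ifs
  exacts [hf a, ⟨le_rfl, zero_le_one⟩]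

theorem glue2_stmt (p : ℕ) [Fact p.Prime] (hM : MeanStmt) (hI : ItStmt) (hT : Zv.TruncStmt)
    (hS : SelStmt p) : Glue2Stmt p := by
  classical
  intro K F _ _ hB d t ht E ⟨η₁, hη₁, hE⟩ g h M β ε η hη hM0 hg hh hinj hH hfin
  refine le_of_forall_pos_le_add fun δ₀ hδ₀ => ?_
  obtain ⟨δ, hδ, hδ'⟩ : ∃ δ : ℝ, 0 < δ ∧ δ + M * δ = δ₀ :=
    ⟨δ₀ / (1 + M), by positivity, by field_simp⟩
  obtain ⟨η', h0, h1, h1', h2, h3⟩ :
      ∃ η' : ℝ, 0 < η' ∧ η' ≤ η ∧ η' ≤ η₁ ∧ d * η' ≤ δ / 2 ∧ η' ≤ 1 / 2 := by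
    refine ⟨min (min η η₁) (min (δ / (2 * (d + 1))) (1 / 2)), by positivity,
      (min_le_left _ _).trans (min_le_left _ _), (min_le_left _ _).trans (min_le_right _ _), ?_,
      (min_le_right _ _).trans (min_le_right _ _)⟩
    refine (mul_le_mul_of_nonneg_left ((min_le_right _ _).trans (min_le_left _ _))
      (Nat.cast_nonneg d)).trans ?_
    rw [← mul_div_assoc, div_le_div_iff₀ (by positivity) (by positivity)]
    nlinarith
  obtain ⟨m1, -, m3, -⟩ := hM K d fun j => Typ p K F (t j)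
  obtain ⟨xc, hxc⟩ : ∃ xc : ℕ → Ideal (𝓞 K) → Co, ∀ j q, (∃ x, CoAt p F (t j) q x) →
      CoAt p F (t j) q (xc j q) :=
    ⟨fun j q => Classical.epsilon (CoAt p F (t j) q), fun j q => Classical.epsilon_spec⟩
  let R : ℕ → Finset (Ideal (𝓞 K)) → ℝ → Finset (Ideal (𝓞 K)) → Prop := fun j Q s u =>
    (∀ q ∈ u, q ∉ Q ∧ Typ p K F (t j) q ∧ (∃ x, CoAt p F (t j) q x) ∧ wt s u q ≤ η') ∧
      1 - η' ≤ mass (Typ p K F (t j)) s u ∧
      ((∀ q ∈ (Q : Set (Ideal (𝓞 K))), ∃ c : Co, c.Ok p K F ∧ pr K c = q) →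
        E Q (t j) u (fun q => wt s u q) fun q => toK K (xc j q).σ)
  have hR : ∀ j Q, ∀ᶠ s in 𝓝[>] (1 : ℝ), ∃ u, R j Q s u := fun j Q => by
    by_cases hQ : ∀ q ∈ (Q : Set (Ideal (𝓞 K))), ∃ c : Co, c.Ok p K F ∧ pr K c = q
    · filter_upwards [hS K F hB (t j) (ht j) η' h0 Q,
        hE Q Q.finite_toSet hQ (t j) (ht j)] with s a b
      obtain ⟨u, a1, a2⟩ := a
      exact ⟨u, a1, a2, fun _ => b u (xc j)
        (fun q hq => ⟨(a1 q hq).2.1, hxc j q (a1 q hq).2.2.1⟩) (by linarith)⟩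
    · filter_upwards [hS K F hB (t j) (ht j) η' h0 Q] with s a
      obtain ⟨u, a1, a2⟩ := a
      exact ⟨u, a1, a2, fun h => absurd h hQ⟩
  have e3 := hI.2.2 (Finset (Ideal (𝓞 K))) d (fun j U s u => R j ((Finset.range j).biUnion U) s u)
    fun j U => (hR j ((Finset.range j).biUnion U)).mono fun s ⟨u, hu⟩ => ⟨u, fun U' hU => by
      rwa [Finset.biUnion_congr rfl fun i hi => hU i (Finset.mem_range.1 hi)]⟩
  have e2 := ev_ZmTup d _ (1 - β - δ / 2) (fun s => m1 s _ (sub_ZoGlue hh))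
    (lt_of_lt_of_le (by linarith) hH)
  have e4 := ev_ZmTup d _ (1 - δ / 2) (fun s => m1 s _ (ind_ZmTup _))
    (lt_of_lt_of_le (by linarith) hinj)
  rw [← sub_le_iff_le_add]
  refine hI.2.1 d _ _ (fun s => m1 s _ (@ite_ZoGlue _ _ (sub_ZoGlue hg) _ (_))) ?_
  filter_upwards [hI.1 d, e2, e3, e4] with s a1 a2 a3 a6
  obtain ⟨U, hU⟩ := a3
  obtain ⟨t1, t2⟩ := hT K d (fun j => Typ p K F (t j)) s U η' a1 (by linarith)
    fun j => ⟨fun q hq => ((hU j).1 q hq).2.1, (hU j).2.1⟩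
  have hco : ∀ y : Σ j : Fin d, U j, CoAt p F (t y.1) y.2 (xc y.1 y.2) := fun y =>
    hxc _ _ ((hU y.1).1 _ y.2.2).2.2.1
  have hpr : ∀ y : Σ j : Fin d, U j, pr K (xc y.1 y.2) = y.2 := fun y => (hco y).2.2
  have hlt : ∀ (i j : Fin d) q, i < j → q ∈ U i → q ∉ U j := fun i j q hij b1 b2 =>
    ((hU j).1 q b2).1 (Finset.mem_biUnion.2 ⟨i, Finset.mem_range.2 hij, b1⟩)
  have hpri : ∀ j : Fin d, Prior K (fun y : Σ j : Fin d, U j => xc y.1 y.2) j =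
      ((Finset.range j).biUnion U : Finset _) := fun j => by
    ext q
    simp only [Prior, hpr, Set.mem_ofPred_eq, Finset.mem_coe, Finset.mem_biUnion, Finset.mem_range]
    exact ⟨fun ⟨y, b1, b2⟩ => ⟨y.1, b1, b2 ▸ y.2.2⟩,
      fun ⟨i, b1, b2⟩ => ⟨⟨⟨i, b1.trans j.2⟩, q, b2⟩, b1, rfl⟩⟩
  have key := hfin (fun j => U j) (fun y => xc y.1 y.2) (fun j q => wt (s j) (U j) q)
    ⟨fun j u => wt_ZcGlue _ _ _, t1⟩
    (fun j u => ((hU j).1 _ u.2).2.2.2.trans h1)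
    (fun y => ⟨(hco y).1, (hco y).2.1⟩) (by
      rintro ⟨i, u, hu⟩ ⟨j, u', hu'⟩ e
      simp only [hpr ⟨i, u, hu⟩, hpr ⟨j, u', hu'⟩] at e
      subst e
      obtain rfl : i = j := by
        rcases lt_trichotomy i j with h | h | h
        exacts [absurd hu' (hlt _ _ _ h hu), h, absurd hu (hlt _ _ _ h hu')]
      rfl) fun j => by
      rw [hpri]
      refine (hU j).2.2 fun q hq => ?_
      rw [← hpri] at hq
      obtain ⟨y, -, rfl⟩ := hq
      exact ⟨_, (hco y).1, rfl⟩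
  have hpr' : ∀ (j : Fin d) (u : U j), pr K (xc j u) = u := fun j u => hpr ⟨j, u⟩
  simp only [hpr'] at key
  have hP : Prob fun (j : Fin d) (q : U j) => wt (s j) (U j) q := ⟨fun j u => wt_ZcGlue _ _ _, t1⟩
  have a4 : _ ≤ d * η' + Ex (fun (j : Fin d) (q : U j) => wt (s j) (U j) q)
    fun q => g fun j => q j := t2 g hg
  have a7 : _ ≤ d * η' + Ex (fun (j : Fin d) (q : U j) => wt (s j) (U j) q)
    fun q => 1 - h fun j => q j := t2 _ (sub_ZoGlue hh)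
  rw [exs_ZoGlue hP] at a7
  refine le_trans ?_ (sub_le_iff_le_add.2 (m3 s _ _ g a1 (ind_ZmTup Function.Injective)
    (@ite_ZoGlue _ _ (sub_ZoGlue hg) _ (_)) hg fun q => ?_))
  · have a8 := mul_le_mul_of_nonneg_left (show Ex (fun (j : Fin d) (q : U j) => wt (s j) (U j) q)
      (fun q => h fun j => q j) ≤ β + δ by linarith) hM0
    linarith
  · by_cases b1 : Function.Injective q
    · rw [if_pos b1, if_pos b1, sub_add_cancel]
    · rw [if_neg b1, if_neg b1, zero_add]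
      exact (hg q).1

theorem fin2_stmt (p : ℕ) [Fact p.Prime] (hM : Multi2Stmt p) (hU : UnifStmt) (hG : GenPStmt p)
    (hE : Zk.EqaStmt p) (hS : SolStmt p) (hD : GdStmt p) : Fin2Stmt p := by
  intro K F _ _ hB hK hF P _ _ T D La L l n B hPk P' _ _ T' hp' d i κ M hM0 hli hiL hinv hκ hN
    ε hε
  obtain ⟨η, hη, hmul⟩ := hM P T D La L l n hPk B d i ε hli hiL hε
  refine ⟨η, hη, fun e he hpe U _ x w hP hw hx hinj hEq a => ?_⟩
  have hpg : ∀ g : P, ∃ k, g ^ p ^ k = 1 := (hD P T L l n hPk.ts).1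
  obtain ⟨N, hAm, hN1, hN2⟩ := (hG K F hB hK hF).2.2.2 (Σ j, U j) x hx hinj P'
  obtain ⟨𝓡, _, _, s, hs1, hs2⟩ := hU (Σ j, U j) P (N.comap (lwp K x))
  choose wd hwd using fun (y : Σ j, U j) (a : Exn e) => hAm.gen (toK K (x y).σ ^ (a.1 : ℕ))
  obtain ⟨m, hm, hsol⟩ := hS K F hB hK hF P' T' hp' d U x N hAm hN1 hN2 a
  have hEQ := hE K F hB hK hF P hpg d U x N hAm e 𝓡 s ⟨hs1, hs2⟩ wd hwd m hm w η hEq
  have : Nonempty (Exn e) := ⟨⟨⟨1, he⟩, Nat.coprime_one_left _⟩⟩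
  have hs := fun (a' : (Σ j, U j) → Exn e × 𝓡) q =>
    hsol (fun u => wd u (a' u).1 * s (a' u).2) (fun u => ⟨(a' u).1.1,
      (Nat.Prime.coprime_iff_not_dvd Fact.out).1 ((a' u).1.2.coprime_dvd_right hpe).symm, by
        rw [map_mul, mul_inv_rev, mul_assoc]
        exact N.mul_mem (N.inv_mem (hs1 _)) (hwd _ _)⟩) q
  have h0 : ∀ (y : (Σ j, U j) → FreeGroup (Σ j, U j)) q k, 0 ≤ Nn (P := P) y q T k :=
    fun y q k => by unfold Nn; positivity
  rw [le_div_iff₀ hM0, mul_comm]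
  refine le_trans (Finset.le_expect (@Finset.univ_nonempty _ (_) _) fun a' _ => exm_ZoGlue hP M fun q => ?_)
    ((hmul U w (Exn e × 𝓡) _ hP hw hEQ).trans (add_le_add_left
      (Finset.expect_le (@Finset.univ_nonempty _ (_) _) fun a' _ =>
        (one_mul _).symm.trans_le (exm_ZoGlue hP 1 fun q => ?_)) ε))
  · obtain ⟨h3, h4⟩ := hs a' q
    by_cases h1 : Good T D La L l B (lkA (fun j => (x ⟨j, q j⟩).l) a) ∧
        Adz T' (chA (fun j => (x ⟨j, q j⟩).l) a)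
    · obtain ⟨z, z1, z2, z3⟩ := h4 h1.2
      rw [if_pos h1, if_pos (hinv _ _ h3 h1.1), mul_one]
      exact (hN U _ q).2 z z1 z2 z3
    · rw [if_neg h1, mul_zero]
      split_ifs
      exacts [h0 _ _ _, le_rfl]
  · rw [one_mul, hκ _ _ (hs a' q).1]
    refine le_trans ?_ (hN U _ q).1
    split_ifs
    exacts [le_rfl, h0 _ _ _]

end Pool.Agent.MP_f68ac8_nt.Zk
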