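import Mathlib
import Pool.Agent.MP_f68ac8_nt.ZoAux
import Pool.Agent.MP_f68ac8_nt.ZmMain
namespace Pool.Agent.MP_f68ac8_nt.Zk
open Ev Pv Sv Zv
open scoped commutatorElement
open NumberField
open scoped BigOperators

open Classical in
lemma share_ZoMain {A B : Type} [Fintype A] (f : A → B) (hf : Function.Injective f)
    (U : B → Prop) : ({χ ∈ Set.range f | U χ}.ncard : ℝ) / (Set.range f).ncard =
      𝔼 a, (if U (f a) then 1 else 0 : ℝ) := by
  have e1 : {χ ∈ Set.range f | U χ} = f '' (Finset.univ.filter fun a => U (f a) : Finset A) := by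
    ext χ
    simp only [Set.mem_ofPred_eq, Set.mem_range, Finset.coe_filter, Finset.mem_univ, true_and,
      Set.mem_image]
    exact ⟨fun ⟨⟨a, ha⟩, hU⟩ => ⟨a, ha ▸ hU, ha⟩, fun ⟨a, hU, ha⟩ => ⟨⟨a, ha⟩, ha ▸ hU⟩⟩
  rw [e1, Set.ncard_image_of_injective _ hf, Set.ncard_coe_finset, Set.ncard_range_of_injective hf,
    Nat.card_eq_fintype_card, Fintype.expect_eq_sum_div_card, Finset.card_filter, Nat.cast_sum]
  congr 1
  refine Finset.sum_congr rfl fun a _ => ?_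
  split_ifs <;> simp

lemma unit_ZoMain {B : Type} (s : Set B) (U : B → Prop) :
    0 ≤ ({χ ∈ s | U χ}.ncard : ℝ) / s.ncard ∧ ({χ ∈ s | U χ}.ncard : ℝ) / s.ncard ≤ 1 := by
  refine ⟨by positivity, ?_⟩
  by_cases hs : s.Finite
  · refine div_le_one_of_le₀ ?_ (Nat.cast_nonneg _)
    exact_mod_cast Set.ncard_le_ncard (Set.sep_subset _ _) hs
  · rw [Set.Infinite.ncard hs]
    simp

open Classical in
lemma mean_ZoMain {A : Type} [Fintype A] [Nonempty A] (V : A → Prop) :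
    0 ≤ 𝔼 a, (if V a then 1 else 0 : ℝ) ∧ 𝔼 a, (if V a then 1 else 0 : ℝ) ≤ 1 :=
  ⟨Finset.expect_nonneg fun a _ => by split_ifs <;> norm_num,
    Finset.expect_le Finset.univ_nonempty fun a _ => by split_ifs <;> norm_num⟩

open Classical in
lemma three_ZoMain {A : Type} [Fintype A] (U W V₁ V₂ : A → Prop)
    (h : ∀ a, U a → ¬ V₁ a → ¬ V₂ a → W a) :
    𝔼 a, (if U a then 1 else 0 : ℝ) ≤ 𝔼 a, (if W a then 1 else 0 : ℝ) +
      𝔼 a, (if V₁ a then 1 else 0 : ℝ) + 𝔼 a, (if V₂ a then 1 else 0 : ℝ) := by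
  rw [← Finset.expect_add_distrib, ← Finset.expect_add_distrib]
  refine Finset.expect_le_expect fun a _ => ?_
  have := h a
  split_ifs <;> first | (norm_num; done) | (exfalso; tauto)

lemma ite_ZoMain {P : Prop} (i i' : Decidable P) (a b : ℝ) : @ite ℝ P i a b = @ite ℝ P i' a b := by
  rw [Subsingleton.elim i i']

lemma orb1_ZoMain (p : ℕ) [hp : Fact p.Prime] {e : ℝ} (he : 0 < e) :
    ∃ r, 1 ≤ r ∧ 1 / (orb p 1 r : ℝ) ≤ e := by
  have h1 : (1 : ℝ) < p := by exact_mod_cast hp.out.one_lt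
  obtain ⟨n, hn⟩ := pow_unbounded_of_one_lt (1 / e) h1
  refine ⟨n + 1, by omega, ?_⟩
  have h2 : p ^ n ≤ orb p 1 (n + 1) := by
    unfold orb
    have h3 : 0 < Nat.card (GL (Fin (n + 1)) (ZMod p)) := Nat.card_pos
    exact (Nat.pow_le_pow_right hp.out.pos (by omega)).trans (Nat.le_mul_of_pos_left _ h3)
  have h4 : (p : ℝ) ^ n ≤ orb p 1 (n + 1) := by exact_mod_cast h2
  have h5 : 0 < 1 / e := by positivity
  rw [div_le_iff₀ (by linarith), ← div_le_iff₀' he]
  linarith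

lemma orb2_ZoMain (p : ℕ) [hp : Fact p.Prime] (h2 : 2 < p) :
    1 / (orb p (p - 2) 2 : ℝ) ≤ 2 / (p : ℝ) ^ (6 * p - 12) := by
  have h3 : p ^ (6 * p - 12) ≤ 2 * orb p (p - 2) 2 := by
    unfold orb
    rw [Matrix.card_GL_field, ZMod.card, Fin.prod_univ_two]
    have e1 : 6 * p - 12 = 4 + (2 * 2 * (p - 2 - 1) + 2 * (p - 2)) := by omega
    rw [e1, pow_add, ← mul_assoc]
    refine Nat.mul_le_mul_right _ ?_
    simp only [Fin.val_zero, Fin.val_one, pow_zero, pow_one]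
    obtain ⟨m, rfl⟩ : ∃ m, p = m + 3 := ⟨p - 3, by omega⟩
    have e2 : (m + 3) ^ 2 - 1 = m ^ 2 + 6 * m + 8 := by
      rw [Nat.sub_eq_iff_eq_add (by nlinarith)]; ring
    have e3 : (m + 3) ^ 2 - (m + 3) = m ^ 2 + 5 * m + 6 := by
      rw [Nat.sub_eq_iff_eq_add (by nlinarith)]; ring
    rw [e2, e3]
    have : 2 * ((m ^ 2 + 6 * m + 8) * (m ^ 2 + 5 * m + 6)) =
        (m + 3) ^ 4 + (m ^ 4 + 10 * m ^ 3 + 34 * m ^ 2 + 44 * m + 15) := by ring
    omega
  have h4 : (p : ℝ) ^ (6 * p - 12) ≤ 2 * orb p (p - 2) 2 := by exact_mod_cast h3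
  have h5 : (0 : ℝ) < (p : ℝ) ^ (6 * p - 12) := pow_pos (by exact_mod_cast hp.out.pos) _
  rw [div_le_div_iff₀ (by linarith) h5]
  linarith

theorem main2_stmt (p : ℕ) [Fact p.Prime] (hA : AvgStmt) (hB : BaseStmt p) (hP : PrimStmt p)
    (hC : ChStmt p) (hQ : Pt2Stmt p) (hR : ArStmt p) (hM : Zk.MainStmt p) (hY : CycStmt p)
    (hb : MbStmt p) : Main2Stmt p := by
  classical
  intro h2 ε hε
  have he : 0 < ε / 5 := by positivity
  obtain ⟨K, F, iK, iF, hFb, hK, hcyc, φ, hφ⟩ := hB h2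
  obtain ⟨-, -, hP3, hP4, -⟩ := hP K F hFb hK hcyc
  obtain ⟨-, -, hC3⟩ := hC K F hFb hK hcyc
  obtain ⟨O, iO, ζ, hζ⟩ := hY
  obtain ⟨r, hr, horb1⟩ := orb1_ZoMain p he
  have horb2 := orb2_ZoMain p h2
  obtain ⟨S₁, co₁, hS₁⟩ := hb h2 O ζ hζ 3 r (by omega) hr
  obtain ⟨S₂, co₂, hS₂⟩ := hb h2 O ζ hζ p 2 (by omega) (by omega)
  obtain ⟨N, hN⟩ := hR h2 O ζ hζ r S₁ co₁ S₂ co₂ hS₁ hS₂
  obtain ⟨d₀, hd₀⟩ := hM h2 N (ε / 5) he
  obtain ⟨d₁, hd₁⟩ := hQ K F hFb hK hcyc O ζ hζ 1 r S₁ co₁ le_rfl hr hS₁ (ε / 5) he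
  have hS₂' : Cd ζ (p - 2 + 2) 2 S₂ co₂ := by
    rw [Nat.sub_add_cancel h2.le]; exact hS₂
  obtain ⟨d₂, hd₂⟩ := hQ K F hFb hK hcyc O ζ hζ (p - 2) 2 S₂ co₂ (by omega) (by omega) hS₂'
    (ε / 5) he
  refine ⟨1 + d₀ + d₁ + d₂, fun d hd => ?_⟩
  have eT : (fun (_ : ℕ) (q : Ideal (𝓞 K)) =>
      (φ q).IsMaximal ∧ Ideal.absNorm (φ q) ≡ 1 [MOD p]) = fun _ => Typ p K F 1 := by
    funext _ q
    rw [(hφ q).1, (hφ q).2, hP4 q]
  have tr : ∀ f : (Fin d → Ideal (𝓞 ℚ)) → ℝ,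
      tupAvg (K := ℚ) (fun _ q => q.IsMaximal ∧ Ideal.absNorm q ≡ 1 [MOD p]) d f =
        tupAvg (fun _ => Typ p K F 1) d fun q => f fun j => φ (q j) := fun f => by
    rw [← (hA ℚ d _).2.2.2.2 K φ (fun q => (hφ q).1) f, eT]
  have hi : ∀ q : Fin d → Ideal (𝓞 K),
      (Function.Injective fun j => φ (q j)) ↔ Function.Injective q := fun q =>
    φ.injective.of_comp_iff q
  have k0 : 1 - ε / 5 ≤ tupAvg (K := ℚ)
      (fun _ q => q.IsMaximal ∧ Ideal.absNorm q ≡ 1 [MOD p]) d fun q =>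
      @ite _ (Function.Injective q ∧
        1 - ε / 5 ≤ share p N (Set.range fun j => Ideal.absNorm (q j))) (Classical.propDecidable _)
        1 0 := hd₀ d (by omega)
  have k1 := hd₁ d (by omega)
  have k2 := hd₂ d (by omega)
  rw [tr] at k0 ⊢
  obtain ⟨A1, A2, -⟩ := hA K d fun _ => Typ p K F 1
  let sh : (Fin d → Ideal (𝓞 K)) → ℝ := fun q => share p N (Set.range fun j => Ideal.absNorm (q j))
  let b : Sy p → (Fin d → Ideal (𝓞 K)) → ℝ := fun S q => 𝔼 a : Fin d → (ZMod p)ˣ,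
    (@ite _ (Adz S.T (chA (fun j => Ideal.absNorm (q j)) a)) (Classical.propDecidable _) 1 0 : ℝ)
  have hsh : ∀ q, 0 ≤ sh q ∧ sh q ≤ 1 := fun q => unit_ZoMain _ _
  have hbb : ∀ S q, 0 ≤ b S q ∧ b S q ≤ 1 := fun S q => mean_ZoMain _
  have hu : Unit01 sh := hsh
  have hg : ∀ S, Unit01 fun q => @ite _ (Function.Injective q) (Classical.propDecidable _)
      (1 - b S q) 0 := fun S q => by
    have := hbb S q
    dsimp only
    split_ifs <;> constructor <;> linarith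
  have hm : Unit01 fun q => max (sh q - b S₁ q) 0 := fun q =>
    ⟨le_max_right _ _, max_le (by linarith [(hsh q).2, (hbb S₁ q).1]) zero_le_one⟩
  have s1 := k0.trans (A1 _ sh (ε / 5) (fun q => by dsimp only; split_ifs <;> norm_num) hu he.le
    fun q _ => by
      dsimp only
      split_ifs with h
      · have := h.2
        simp only [fun q => (hφ q).1] at this
        change 1 - ε / 5 ≤ sh q at this
        linarith
      · linarith [(hsh q).1])
  have s2 := A2 sh _ _ hu (hg S₁) hm fun q _ => by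
    have h1 := le_max_left (sh q - b S₁ q) 0
    have h3 := le_max_right (sh q - b S₁ q) 0
    have h4 := hsh q
    split_ifs <;> linarith
  have s3 := A2 _ _ (fun q => @ite _ (Function.Injective fun j => φ (q j))
      (Classical.propDecidable _) (shareU p (Set.range fun j => Ideal.absNorm (φ (q j)))) 0)
      hm (hg S₂) (fun q => by
        dsimp only
        split_ifs
        · exact unit_ZoMain _ _
        · norm_num) fun q hq => by
    by_cases hinj : Function.Injective q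
    swap
    · rw [if_neg hinj, if_neg fun h => hinj ((hi q).1 h)]
      linarith [(hm q).2]
    rw [if_pos hinj, if_pos ((hi q).2 hinj)]
    simp only [fun q => (hφ q).1]
    have hmax : ∀ j, (q j).IsMaximal := fun j => ((hP4 _).1 (hq j)).1
    have hP1 : ∀ j, P1 p (Ideal.absNorm (q j)) := fun j =>
      ⟨(hP3 _ (hmax j)).1, ((hP4 _).1 (hq j)).2⟩
    have hl : Function.Injective fun j => Ideal.absNorm (q j) := by
      intro i j hij
      obtain ⟨P, hPm, hPi⟩ := exists_maximal_mem (Ω := Qb) (hP1 i).1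
      refine hinj ((((hP3 _ (hmax i)).2 P hPm).2 hPi).symm.trans
        (((hP3 _ (hmax j)).2 P hPm).2 ?_))
      have hij' : Ideal.absNorm (q i) = Ideal.absNorm (q j) := hij
      rwa [← hij']
    obtain ⟨-, hrange, hchA⟩ := hC3 d _ hl hP1
    have h0 : 0 ≤ shareU p (Set.range fun j => Ideal.absNorm (q j)) := (unit_ZoMain _ _).1
    have h1 : sh q ≤ shareU p (Set.range fun j => Ideal.absNorm (q j)) + b S₁ q + b S₂ q := by
      change share p N _ ≤ _
      unfold share shareU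
      rw [hrange, share_ZoMain _ hchA fun χ => UnrFM p N χ.ker,
        share_ZoMain _ hchA fun χ => UnifFM p χ.ker]
      refine three_ZoMain _ _ _ _ fun a ha h3 h4 => ?_
      have hmem : chA (fun j => Ideal.absNorm (q j)) a ∈
          CycCh p (Set.range fun j => Ideal.absNorm (q j)) := hrange ▸ Set.mem_range_self a
      obtain ⟨g, -, hg⟩ := (hmem.2 _ (hP1 ⟨0, by omega⟩).1).1 (Set.mem_range_self _)
      exact hN _ hmem.1 ⟨g, hg⟩ ha h3 h4
    have h3 := (hbb S₂ q).1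
    have h4 : max (sh q - b S₁ q) 0 ≤
        shareU p (Set.range fun j => Ideal.absNorm (q j)) + b S₂ q :=
      max_le (by linarith) (by linarith)
    linarith
  have k1' : 1 - 1 / (orb p 1 r : ℝ) - ε / 5 ≤ tupAvg (fun _ => Typ p K F 1) d fun q =>
    @ite _ (Function.Injective q) (Classical.propDecidable _) (1 - b S₁ q) 0 :=
    k1.trans (le_of_eq (congrArg _ (funext fun q => ite_ZoMain _ _ _ _)))
  have k2' : 1 - 1 / (orb p (p - 2) 2 : ℝ) - ε / 5 ≤ tupAvg (fun _ => Typ p K F 1) d fun q =>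
    @ite _ (Function.Injective q) (Classical.propDecidable _) (1 - b S₂ q) 0 :=
    k2.trans (le_of_eq (congrArg _ (funext fun q => ite_ZoMain _ _ _ _)))
  refine le_trans ?_ (le_of_eq (congrArg _ (funext fun q =>
    ite_ZoMain (Classical.propDecidable _) _ _ _)))
  dsimp only
  linarith

end Pool.Agent.MP_f68ac8_nt.Zk
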