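import Mathlib
import Pool.Agent.MP_f68ac8_nt.ZmAll
import Pool.Agent.MP_f68ac8_nt.ZnCor
import Pool.Agent.MP_f68ac8_nt.ZnDl1
import Pool.Agent.MP_f68ac8_nt.ZnDl2
import Pool.Agent.MP_f68ac8_nt.ZnKap
import Pool.Agent.MP_f68ac8_nt.ZnLam
import Pool.Agent.MP_f68ac8_nt.ZnLat
import Pool.Agent.MP_f68ac8_nt.ZnMb
import Pool.Agent.MP_f68ac8_nt.ZnMd
import Pool.Agent.MP_f68ac8_nt.ZnPad
import Pool.Agent.MP_f68ac8_nt.ZnPair1
import Pool.Agent.MP_f68ac8_nt.ZnPair2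
import Pool.Agent.MP_f68ac8_nt.ZnPow
import Pool.Agent.MP_f68ac8_nt.ZnRank
import Pool.Agent.MP_f68ac8_nt.ZnRed
import Pool.Agent.MP_f68ac8_nt.ZnRkA
import Pool.Agent.MP_f68ac8_nt.ZnRkB
import Pool.Agent.MP_f68ac8_nt.ZnUni
import Pool.Agent.MP_f68ac8_nt.ZnUpw
import Pool.Agent.MP_f68ac8_nt.ZoAr
import Pool.Agent.MP_f68ac8_nt.ZoAvg
import Pool.Agent.MP_f68ac8_nt.ZoGlue
import Pool.Agent.MP_f68ac8_nt.ZoMain
import Pool.Agent.MP_f68ac8_nt.ZoPt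
import Pool.Agent.MP_f68ac8_nt.ZoTop

/-! The theorem on uniform quotients of all dimensions. -/

namespace Pool.Agent.MP_f68ac8_nt.Zk

variable (p : ℕ) [Fact p.Prime]

theorem dl_all : DlStmt p := fun hp Q _ _ χ x h1 h2 h3 Δ _ h4 θ h5 h6 r h7 h8 => by
  obtain ⟨a, b⟩ := dl1_stmt p hp Q χ x h1 h2 h3 Δ h4 θ h5 h6 r h7 h8
  exact dl2_stmt p hp Q χ x h1 h2 h3 Δ h4 θ h5 h6 _ (Nat.mul_pos (by omega) a) b

theorem uni_all : UniStmt p ∧ CorStmt p := by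
  have hD := dv_stmt p
  have hC := cl_all p
  have hG := log_stmt p hD hC
  have hE := exp_stmt p hD hC hG
  have hI := lie_stmt p hD hC hG hE
  have hU := upw_stmt p
  have hP := pad_stmt p hD hC
  exact ⟨uni_stmt p (pow_stmt p) hU hD hC hG hE hI, cor_stmt p hD hC hG hU
    (lam_stmt p hU hD hC hG) (lat_stmt p hU hD hC hG) hP
    (red_stmt p hD hC hG hE hI (quo_stmt p hD) (kil_stmt p hD hC hG hE) hP
      (solv_stmt p hD hC hG hE hI (nil_stmt p) hP) (rank_stmt p rkA_stmt rkB_stmt))⟩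

theorem multi2_all : Multi2Stmt p := by
  have hS := span_stmt p lcs_stmt
  have hL := low_stmt p (gd_stmt p) (der_stmt p)
  exact multi2_stmt p hL (rec_stmt p (gd_stmt p) (der_stmt p) hL)
    (err_stmt p (Zv.box_stmt Zv.gcs_stmt) Zv.mom_stmt Zv.unif_stmt hS (lc_stmt p corn_stmt)
      (shift_stmt p hS))

theorem pt2_all : Pt2Stmt p :=
  pt2_stmt p (prim_all p) (good_all p) (iidF_stmt p avg_stmt (prim_all p) (iid_all p) (pot_all p))
    (glue2_stmt p Zv.mean_stmt Zv.it_stmt (Zv.trunc_stmt Zv.mean_stmt)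
      (Zv.sel_stmt p (core_all p))) (eqP_all p)
    (fin2_stmt p (multi2_all p) Zv.unif_stmt (genP_all p) (eqa_all p) (sol_all p) (gd_stmt p))
    (mb_stmt p) (kap_stmt p) (pair1_stmt p) (pair2_stmt p (gd_stmt p) (der_stmt p)) (gd_stmt p)

theorem ar_all : ArStmt p :=
  ar_stmt p (top_stmt p (dv_stmt p) (cl_all p)) (ar2_stmt p (md_stmt p) (dl_all p)) (uni_all p).1
    (upw_stmt p) (uni_all p).2

theorem main2_all : Main2Stmt p :=
  main2_stmt p avg_stmt (base_stmt p) (prim_all p) (ch_all p) (pt2_all p) (ar_all p) (main_all p)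
    (cyc_stmt p) (mb_stmt p)

end Pool.Agent.MP_f68ac8_nt.Zk
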