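import Mathlib
import Pool.Agent.MP_f68ac8_nt.ZoAll

namespace Pool.Agent.MP_f68ac8_nt.UniformOld

open Pool.Agent.MP_f68ac8_nt

open Classical in
theorem result (p : ℕ) [Fact p.Prime] (hp : 2 < p) (ε : ℝ) (hε : 0 < ε) :
    ∃ d₀, ∀ d, d₀ ≤ d → 1 - 2 / (p : ℝ) ^ (6 * p - 12) - ε ≤
      tupAvg (K := ℚ) (fun _ q => q.IsMaximal ∧ Ideal.absNorm q ≡ 1 [MOD p]) d fun q =>
        if Function.Injective q then shareU p (Set.range fun j => Ideal.absNorm (q j)) else 0 :=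
  Zk.main2_all p hp ε hε

end Pool.Agent.MP_f68ac8_nt.UniformOld
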