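import Mathlib
import Pool.Agent.MP_f68ac8_nt.GvMain
import Pool.Agent.MP_f68ac8_nt.EvKK
import Pool.Agent.MP_f68ac8_nt.EvRam
import Pool.Agent.MP_f68ac8_nt.EvLocAB
import Pool.Agent.MP_f68ac8_nt.EvR3
import Pool.Agent.MP_f68ac8_nt.EvKum
import Pool.Agent.MP_f68ac8_nt.EvTriv
import Pool.Agent.MP_f68ac8_nt.EvGame
import Pool.Agent.MP_f68ac8_nt.EvDer
import Pool.Agent.MP_f68ac8_nt.EvSZ
import Pool.Agent.MP_f68ac8_nt.FvWild
import Pool.Agent.MP_f68ac8_nt.FvLocU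
import Pool.Agent.MP_f68ac8_nt.FvRec
import Pool.Agent.MP_f68ac8_nt.FvCfg
import Pool.Agent.MP_f68ac8_nt.FvUnit
import Pool.Agent.MP_f68ac8_nt.FvDat
import Pool.Agent.MP_f68ac8_nt.FvSmall
import Pool.Agent.MP_f68ac8_nt.FvMean
import Pool.Agent.MP_f68ac8_nt.FvCount
import Pool.Agent.MP_f68ac8_nt.FvAvg
import Pool.Agent.MP_f68ac8_nt.FvStep
import Pool.Agent.MP_f68ac8_nt.FvArch
import Pool.Agent.MP_f68ac8_nt.FvProj
import Pool.Agent.MP_f68ac8_nt.GvPhi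
import Pool.Agent.MP_f68ac8_nt.GvRec
import Pool.Agent.MP_f68ac8_nt.GvVec
import Pool.Agent.MP_f68ac8_nt.GvKW
import Pool.Agent.MP_f68ac8_nt.GvEmb
import Pool.Agent.MP_f68ac8_nt.GvLev
import Pool.Agent.MP_f68ac8_nt.GvHT
import Pool.Agent.MP_f68ac8_nt.GvLead
import Pool.Agent.MP_f68ac8_nt.GvSmall
import Pool.Agent.MP_f68ac8_nt.GvOrb
import Pool.Agent.MP_f68ac8_nt.GvGen
import Pool.Agent.MP_f68ac8_nt.GvNat
import Pool.Agent.MP_f68ac8_nt.GvJoint
import Pool.Agent.MP_f68ac8_nt.GvRank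
import Pool.Agent.MP_f68ac8_nt.GvType
import Pool.Agent.MP_f68ac8_nt.GvComb

namespace Pool.Agent.MP_f68ac8_nt.WeightOld

open NumberField Pool.Agent.MP_f68ac8_nt Ev

theorem result (n d B : ℕ) (K : IntermediateField ℚ (AlgebraicClosure ℚ)) [NumberField K] :
    ∃ C : ℝ, ∀ (p : ℕ) [Fact p.Prime] (F : IntermediateField ℚ (AlgebraicClosure ℚ))
    [NumberField F] [IsGalois ℚ F], K ≤ F → Nonempty (F →+* ℚ_[p]) →
    ¬ p ∣ Module.finrank ℚ F * classNumber F → ¬ (p : ℤ) ∣ discr F →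
    ∀ r : K.fixingSubgroup →* GL (Fin n) (ZMod p), ScalOn F r → AdIrr r →
    ∀ w, Rigid p F r w → ∀ t, Slack p r t (∑ τ, w τ) →
      1 - C / p ≤ idDens (fun j => Typ p K F (t j)) d fun S => S.ncard = d ∧ LiftW p F B r w S := by
  refine main3_of (algW_stmt (typeW_stmt game_stmt der_stmt (genW_stmt orb_stmt) natW_stmt
    joint_stmt eig_stmt proj_stmt sz_stmt)) unit2_stmt idMean_stmt wild_stmt rankW_stmt arch_stmt
    irr_stmt (fun p _ => ?_) n d B K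
  have hK := kk_stmt p
  have hA := locA_stmt p ram_stmt
  have hB := locB_stmt p ram_stmt
  have hL := locU_stmt p hK hA wild_stmt
  have hT := triv_stmt p
  have hC := cfg2_stmt p wild_stmt hL hT
  have hM := kum_stmt p hK
  exact ⟨step2_stmt p (count_stmt p wild_stmt hT) (avg_stmt p) idMean_stmt, hC,
    dat2_stmt p hK hT hC, vecW_stmt p hK wild_stmt
      (recU_stmt p hK hA hB (r3_stmt p) hM wild_stmt hL)
      (recW_stmt p hK hA hM wild_stmt hL (wphi_stmt p hK hB (r3_stmt p))) hT hC,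
    leadW_stmt p wild_stmt, smallW_stmt p (small_stmt p wild_stmt), kw_stmt p hK,
    htw_stmt p (hlev_stmt p), emb_stmt p⟩

end Pool.Agent.MP_f68ac8_nt.WeightOld
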