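import Mathlib
import Pool.Agent.MP_f68ac8_nt.ZcAux
import Pool.Agent.MP_f68ac8_nt.TvMain

/-! The hypotheses on the adjoint module with classes unramified above `p`. -/

namespace Pool.Agent.MP_f68ac8_nt.Zv
open Ev Pv Sv
open NumberField Matrix Finset Module

theorem hy_stmt (p : ℕ) [Fact p.Prime] (H : Core p) (hB : BaseZStmt p) (hT : TypZStmt p)
    (hR : ArchZStmt p) (hL : LocZStmt p) (hG : DualGStmt p) (hA : AlgTStmt p) : HyStmt p := by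
  intro K F _ _ n r h hr hb
  obtain ⟨-, hi, -, ⟨N, hN, n1, n2, g₀, n3, n4⟩, hψ, ⟨m, e, s, hs⟩, hM⟩ := hB K F n r h hr
  obtain ⟨Y, hY⟩ := (hT K F n r h hr).2 m e s hs
  obtain ⟨m1, m2, m3, m4⟩ := hM m e s hs fun f => Adm0 F f
  have z0 : Adm0 F (0 : GQ → Vc p m) := fun _ _ _ _ => rfl
  have l0 : ∀ (c : ZMod p) (f f' : GQ → Vc p m), Adm0 F f → Adm0 F f' → Adm0 F (c • f + f') :=
    fun c f f' h1 h2 P g a b => by
      rw [Pi.add_apply, Pi.smul_apply, h1 P g a b, h2 P g a b, smul_zero, add_zero]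
  have hMb : Mb (TM r e s fun f => Adm0 F f) F :=
    ⟨m1, m4, ⟨g₀, m2 _ ((n1 _).1 n3), n4⟩, z0, l0, fun _ h => h.elim, fun _ h => h.elim⟩
  obtain ⟨J, _, Q, V, hP, hD⟩ := hL K F hb hi _ m1 fun _ h => h
  obtain ⟨cf, hcf⟩ := H.cf K F _ hb hMb _ hD
  obtain ⟨⟨φ, hφ⟩, hφ'⟩ := hR K F n r h hr
  obtain ⟨v0, hv⟩ := hφ' φ
  obtain ⟨U, v1, v2⟩ := hv m e s hs hφ fun f => Adm0 F f
  refine ⟨m, e, s, Y, _, cf, hs, hY, ⟨H, ⟨hMb, m3, z0, fun c f _ f' _ => l0 c f f', fun _ h => h,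
    fun g _ h _ => psi_add g h,
    Filter.mem_of_superset (psi_nhds (Ω := Qb) (p := p)) fun _ h _ => h, fun g h _ => ?_,
    fun _ _ _ => hψ, fun _ h => h.elim⟩, hcf, ?_, hψ⟩, fun t ht => ?_⟩
  · change psi p (g.1 * h * g.1⁻¹) = psi p h
    rw [psi_add, psi_add, psi_add.inv]
    ring
  · refine (hG K F _ hb m1 (fun _ h => h.elim) N n2
      ⟨g₀, n3, fun e => n4 ((n2 _).1 e).2⟩ (fun g hg => m2 g ((n1 g).1 hg))
      (hA K F _ hb hMb m3 hr.tame N fun g hg => ((n2 g).1 hg).1) φ U v1 J Q V hP).mono ?_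
    rw [add_comm]
    exact Nat.add_le_add_right (v0.trans v2) _
  · choose X hX using fun j => (hY (t j) (ht j)).2.1
    exact ⟨X, fun j => ⟨hr.tame (t j), fun σ hσ => hX j _ σ hσ⟩⟩

end Pool.Agent.MP_f68ac8_nt.Zv
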