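import Mathlib
import Pool.Agent.MP_f68ac8_nt.ZcAux

/-! Almost no level carries a lift. -/

namespace Pool.Agent.MP_f68ac8_nt.Zv

open NumberField Ev Pv Sv

theorem mainZ_stmt (p : ℕ) [hp : Fact p.Prime] (hB : BaseZStmt p) (hH : HyStmt p)
    (hG : GenStmt p) (hX : ChiStmt p) (hL : L1Stmt p) (hF : FinZStmt p) (hE : GlueStmt p) :
    MainZStmt p := by
  classical
  intro K F _ _ n r h hr ε hε
  have hb := (hB K F n r h hr).1
  obtain ⟨m, e, s, Y, N, cf, h1, h2, h3, h4⟩ := hH K F n r h hr hb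
  obtain ⟨B, _, β, hβ⟩ := hG K F hb ∅ fun _ h => h.elim
  obtain ⟨w, hw⟩ := hL K F _ (Mu0 F r e s Y) hb N cf h3 (ε / 3) (by positivity)
  have p1 : (1 : ℝ) < p := by exact_mod_cast hp.out.one_lt
  obtain ⟨M, hM⟩ := pow_unbounded_of_one_lt (p ^ w / (ε / 3) + 1 : ℝ) p1
  have hM1 : 1 ≤ M := Nat.one_le_iff_ne_zero.2 fun h0 => by
    have : (0 : ℝ) < p ^ w / (ε / 3) := by positivity
    rw [h0, pow_zero] at hM
    linarith
  have hM2 : (p : ℝ) ^ w / p ^ M ≤ ε / 3 := by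
    rw [div_le_iff₀ (by positivity), mul_comm, ← div_le_iff₀ (by positivity)]
    linarith
  obtain ⟨r₀, d₀, h5, h6⟩ := hw M
  refine ⟨d₀, fun t ht d hd => ?_⟩
  obtain ⟨X, hX'⟩ := h4 t ht
  obtain ⟨η, hη, h7⟩ := hF K F n r h hr m e s Y hb N cf h1 h2 h3 B β hβ M d r₀ w hM1
    (h5.trans hd) (ε / 3) (by positivity)
  obtain ⟨ee, hee⟩ := (hX K F hb M).2.2.2.2.2 n d
  have key := hE K F hb ∅ B β hβ M n d t (fun j => hr.tame _) _
    (fun q => ∃ ρ, UnrLift r (Set.range q) ρ) (ε / 3) (p ^ w / p ^ M + ε / 3) η ee hη hee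
    (h6 X t hX' d hd) fun U _ x wt a1 a2 a3 a4 a5 => by
      simpa only [not_not] using h7 ee hee X t ht hX' U x wt a1 a2 a3 a4 a5
  simp only [not_exists] at key
  linarith

end Pool.Agent.MP_f68ac8_nt.Zv
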