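import Mathlib
import Pool.Agent.MP_f68ac8_nt.ZhAux
import Pool.Agent.MP_f68ac8_nt.ZcBase
import Pool.Agent.MP_f68ac8_nt.BvMain

namespace Pool.Agent.MP_f68ac8_nt.Ze

open Ev Pv Sv Zv
open NumberField Matrix
open scoped Pointwise MatrixGroups

section
variable {p : ℕ} [hp : Fact p.Prime]

lemma of_mk_ZhPol {x y : GL (Fin 2) (ZMod p)}
    (h : ProjGenLinGroup.mk x = ProjGenLinGroup.mk y) : ∃ c : ZMod p, c ≠ 0 ∧ x.val = c • y.val := by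
  obtain ⟨u, hu⟩ := ProjGenLinGroup.mk_eq_mk_iff.1 h.symm
  refine ⟨u, u.ne_zero, ?_⟩
  rw [← hu, Units.val_mul, GeneralLinearGroup.coe_scalar, scalar_apply, ← smul_one_eq_diagonal,
    Matrix.mul_smul, Matrix.mul_one]

lemma mk_of_ZhPol {x y : GL (Fin 2) (ZMod p)} {c : ZMod p} (h : x.val = c • y.val) :
    ProjGenLinGroup.mk x = ProjGenLinGroup.mk y := by
  have hc : c ≠ 0 := by
    rintro rfl
    exact x.ne_zero (by rw [h, zero_smul])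
  refine (ProjGenLinGroup.mk_eq_mk_iff.2 ⟨Units.mk0 c hc, Units.ext ?_⟩).symm
  rw [Units.val_mul, GeneralLinearGroup.coe_scalar, scalar_apply, ← smul_one_eq_diagonal,
    Matrix.mul_smul, Matrix.mul_one, h, Units.val_mk0]

variable {K F : IntermediateField ℚ Qb} {r : GK K →* GL (Fin 2) (ZMod p)} {m : ℕ}
  {o : Fin m → OrdD p 2}

lemma one_ZhPol (g : GK K) : pg r g = 1 ↔ IsScal (r g) := by
  refine ⟨fun h => ?_, fun ⟨c, h⟩ => mk_of_ZhPol (y := 1) h⟩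
  obtain ⟨c, -, hc⟩ := of_mk_ZhPol (x := r g) (y := 1) h
  exact ⟨c, hc⟩

lemma rep_ZhPol (g : GK K) : ∃ c : ZMod p, c ≠ 0 ∧ (rep (pg r) g).val = c • (r g).val ∧
    ∀ A, repIn (pg r) A g = c • rI r A g := by
  obtain ⟨c, h1, h2⟩ := of_mk_ZhPol (x := rep (pg r) g) (y := r g)
    (Function.surjInv_eq ProjGenLinGroup.mk_surjective _)
  refine ⟨c, h1, h2, fun A => ?_⟩
  unfold repIn rI
  rw [Units.val_mul, Units.val_mul, h2, Matrix.mul_smul, Matrix.smul_mul]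
  rfl

lemma cbc_ZhPol (s g : GK K) : cb p (s * g * s⁻¹ : GK K) = cb p g := by
  rw [cb_eq, cb_eq, Subgroup.coe_mul, Subgroup.coe_mul, Subgroup.coe_inv, map_mul, map_mul,
    map_inv, mul_inv_cancel_comm]

lemma nrm_ZhPol (hle : K ≤ F) (hM : BigRes F r o) (g : GK K) :
    ∀ h ∈ F.fixingSubgroup, g.1 * h * g.1⁻¹ ∈ F.fixingSubgroup := by
  have hFK : F.fixingSubgroup ≤ K.fixingSubgroup := IntermediateField.fixingSubgroup_le hle
  have hcut : ∀ g : K.fixingSubgroup,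
      g.1 ∈ F.fixingSubgroup ↔ g ∈ scal_TvBase r ∧ cb p g = 1 := fun g => by
    rw [hM.cut]
    refine and_congr_right fun _ => ⟨fun h => ?_, fun h x hx => ?_⟩
    · rw [cb_eq, cyc_of_xi (h _ (xi_spec (Ω := Qb) (p := p)).pow_eq_one), Units.val_one]
    · have h2 := cyc_spec p g.1 hx
      rw [← cb_eq, h, ZMod.val_one, pow_one] at h2
      exact h2
  intro h hh
  obtain ⟨h1, h2⟩ := (hcut ⟨h, hFK hh⟩).1 hh
  have h4 := (hcut (g * ⟨h, hFK hh⟩ * g⁻¹)).2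
  rw [cbc_ZhPol, Subgroup.coe_mul, Subgroup.coe_mul, Subgroup.coe_inv] at h4
  exact h4 ⟨(normal_TvBase r).conj_mem _ h1 g, h2⟩

lemma wild_ZhPol (hle : K ≤ F) (hM : BigRes F r o) {P : Ideal OQ} (h : WildAt p K F P)
    (g : GK K) : WildAt p K F (g.1 • P) := by
  obtain ⟨u, hu, hT⟩ := h
  refine ⟨g * u * g⁻¹, inert_conj_EvRec g.1 hu, fun ⟨a, ha, h1⟩ => hT ⟨a, ha, ?_⟩⟩
  have h2 := nrm_ZhPol hle hM g⁻¹ _ h1
  have h3 : (g⁻¹).1 * (g * u * g⁻¹).1 ^ a * (g⁻¹).1⁻¹ = u.1 ^ a := by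
    change g.1⁻¹ * (g.1 * u.1 * g.1⁻¹) ^ a * g.1⁻¹⁻¹ = u.1 ^ a
    rw [conj_pow]
    group
  rwa [h3] at h2

lemma conj_ZhPol (s g : GK K) (A : GL (Fin 2) (ZMod p)) :
    rI r (r s * A) (s * g * s⁻¹) = rI r A g := by
  unfold rI
  congr 1
  rw [map_mul, map_mul, map_inv]
  group

lemma fix_ZhPol (s g : GK K) (P : Ideal OQ) :
    (s * g * s⁻¹).1 • s.1 • P = s.1 • P ↔ g.1 • P = P := by
  rw [Subgroup.coe_mul, Subgroup.coe_mul, Subgroup.coe_inv, mul_smul, mul_smul, inv_smul_smul,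
    smul_left_cancel_iff]

lemma loc_ZhPol [NumberField K] (hM : BigRes F r o) {P : Ideal OQ} (hP : P.IsMaximal)
    (hW : WildAt p K F P) : ∃ A, (∀ g : GK K, g.1 • P = P → rI r A g 1 0 = 0) ∧
      (∃ g : GK K, g.1 • P = P ∧ rI r A g 0 0 ^ 2 ≠ rI r A g 1 1 ^ 2) ∧
      ((p : OQ) ∈ P → ∃ g : GK K, g.1 • P = P ∧ rI r A g 0 0 ≠ cb p g * rI r A g 1 1) := by
  by_cases h : (p : OQ) ∈ P
  · obtain ⟨i, hi⟩ := hM.all P hP h
    obtain ⟨s, hs, rfl⟩ := trans_rel_EvRec K (hM.max i).1 hP hi.symm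
    obtain ⟨t1, g, t2, t3⟩ := hM.tri i
    obtain ⟨g', d1, d2⟩ := hM.dis i
    let s' : GK K := ⟨s, hs⟩
    refine ⟨r s' * (o i).A, fun y hy => ?_, ⟨s' * g * s'⁻¹, (fix_ZhPol s' g _).2 t2, ?_⟩,
      fun _ => ⟨s' * g' * s'⁻¹, (fix_ZhPol s' g' _).2 d1, ?_⟩⟩
    · have e : y = s' * (s'⁻¹ * y * s') * s'⁻¹ := by group
      rw [e] at hy ⊢
      rw [conj_ZhPol]
      exact t1 _ ((fix_ZhPol s' _ _).1 hy)
    · rw [conj_ZhPol]
      exact t3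
    · rw [conj_ZhPol, cbc_ZhPol]
      exact d2
  · obtain ⟨A, h1, h2⟩ := hM.bad P hP h hW
    exact ⟨A, h1, h2, fun e => absurd e h⟩

end

theorem pol_stmt (p : ℕ) [Fact p.Prime] : PolStmt p := by
  intro K F _ _ r m o hle hM
  refine ⟨⟨⟨le_rfl, hM.big⟩, fun g => ?_, ⟨map_one _, fun _ => Or.inl rfl⟩, ?_, fun A hA => ?_,
    fun P h1 h2 => ?_, fun P h1 h2 => ?_, fun _ c _ h => ?_⟩, one_ZhPol, rep_ZhPol⟩
  · rw [hM.cut, one_ZhPol]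
    exact ⟨fun h => ⟨rfl, h⟩, fun h => h.2⟩
  · obtain ⟨g, h1, h2⟩ := hM.cyc
    exact ⟨g, rfl, (one_ZhPol g).2 h1, h2⟩
  · obtain ⟨g, c, h⟩ := hM.img A hA
    exact ⟨g, mk_of_ZhPol h⟩
  · obtain ⟨i, hi⟩ := hM.all P h1 h2
    obtain ⟨s, hs, rfl⟩ := trans_rel_EvRec K (hM.max i).1 h1 hi.symm
    exact wild_ZhPol hle hM (hM.max i).2.2 ⟨s, hs⟩
  · obtain ⟨A, a1, ⟨g, a2, a3⟩, a4⟩ := loc_ZhPol hM h1 h2
    refine ⟨A, fun y hy => ?_, ⟨g, a2, rfl, fun j j0 j2 => ?_⟩, fun h j j0 j2 => ?_⟩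
    · obtain ⟨c, -, -, hc⟩ := rep_ZhPol (r := r) y
      rw [hc, Matrix.smul_apply, a1 y hy, smul_zero]
    · obtain ⟨c, c0, -, hc⟩ := rep_ZhPol (r := r) g
      rw [hc, Matrix.smul_apply, Matrix.smul_apply, smul_eq_mul, smul_eq_mul, mul_pow, mul_pow]
      intro e
      have e1 := mul_left_cancel₀ (pow_ne_zero j c0) e
      apply a3
      interval_cases j
      · rw [pow_one, pow_one] at e1
        rw [e1]
      · exact e1
    · obtain ⟨y, b1, b2⟩ := a4 h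
      obtain ⟨c, c0, -, hc⟩ := rep_ZhPol (r := r) y
      obtain rfl : j = 1 := by omega
      refine ⟨y, b1, rfl, fun e => b2 (mul_left_cancel₀ c0 ?_)⟩
      rw [hc, Matrix.smul_apply, Matrix.smul_apply, smul_eq_mul, smul_eq_mul, pow_one,
        pow_one] at e
      rw [e]
      ring
  · exact absurd h (by decide : (1 : ℤˣ) ≠ -1)

theorem locB_stmt (p : ℕ) [Fact p.Prime] (hP : PolStmt p) (hB : Sv.BaseStmt p)
    (hS : LocSStmt p) : LocBStmt p := by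
  intro K F _ _ r m o hle hM
  obtain ⟨h1, h2, h3⟩ := hP K F r m o hle hM
  obtain ⟨b1, b2, -⟩ := hB K F (pg r) 1 1 2 hle h1
  have hq : ∀ A g, repIn (pg r) A g 0 0 / repIn (pg r) A g 1 1 = rI r A g 0 0 / rI r A g 1 1 := by
    intro A g
    obtain ⟨c, c0, -, hc⟩ := h3 g
    rw [hc, Matrix.smul_apply, Matrix.smul_apply, smul_eq_mul, smul_eq_mul, mul_div_mul_left _ _ c0]
  refine ⟨b1, fun g => ?_, fun P p1 p2 A hA => ?_⟩
  · rw [b2, h2]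
    exact ⟨fun h => h.2, fun h => ⟨rfl, h⟩⟩
  obtain ⟨D', κ, u, l1, l2, l3, l4, l5⟩ := hS K F (pg r) 1 1 2 hle h1 P p1 p2 A fun g hg => by
    obtain ⟨c, -, -, hc⟩ := h3 g
    rw [hc, Matrix.smul_apply, hA g hg, smul_zero]
  simp only [hq] at l2 l5
  refine ⟨D', κ, u, l1, l2, fun g hg => ?_, fun g hg => ?_, l5⟩
  · obtain ⟨c, c0, -, hc⟩ := h3 g
    obtain ⟨-, e1, e2⟩ := l3 g hg
    simp only [hc, Matrix.smul_apply, smul_eq_mul] at e1 e2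
    refine ⟨mul_left_cancel₀ c0 e1, mul_left_cancel₀ c0 ?_⟩
    rw [e2]
    ring
  · obtain ⟨c, c0, -, hc⟩ := h3 g
    obtain ⟨e1, e2⟩ := l4 g hg
    simp only [hc, Matrix.smul_apply, smul_eq_mul] at e1 e2
    exact ⟨right_ne_zero_of_mul e1, right_ne_zero_of_mul e2⟩

end Pool.Agent.MP_f68ac8_nt.Ze
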