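import Mathlib
import Pool.Agent.MP_f68ac8_nt.ZoAux
import Pool.Agent.MP_f68ac8_nt.ZmFin

namespace Pool.Agent.MP_f68ac8_nt.Zk
open Ev Pv Sv Zv
open scoped commutatorElement
open scoped BigOperators

theorem lin_ZoPt {d : ℕ} {U : Fin d → Type} [∀ j, Fintype (U j)] (w : ∀ j, U j → ℝ)
    (f g : (∀ j, U j) → ℝ) (c : ℝ) : (Ex w fun q => f q - c * g q) = Ex w f - c * Ex w g := by
  simp only [Ex, smul_eq_mul, mul_sub, Finset.sum_sub_distrib, Finset.mul_sum, mul_left_comm c]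

theorem mono_ZoPt {d : ℕ} {U : Fin d → Type} [∀ j, Fintype (U j)] {w : ∀ j, U j → ℝ}
    (hw : ∀ j u, 0 ≤ w j u) {f g : (∀ j, U j) → ℝ} (h : ∀ q, f q ≤ g q) : Ex w f ≤ Ex w g :=
  Finset.sum_le_sum fun q _ =>
    mul_le_mul_of_nonneg_left (h q) (Finset.prod_nonneg fun j _ => hw j _)

theorem pt2_stmt (p : ℕ) [Fact p.Prime] (hP : PrimStmt p) (hG : Zk.GoodStmt p) (hI : IidFStmt p) (hL : Glue2Stmt p) (hE : EqPStmt p) (hF : Fin2Stmt p) (hB : MbStmt p) (hK : KapStmt p) (h1 : Pair1Stmt p) (h2 : Pair2Stmt p) (hD : GdStmt p) : Pt2Stmt p := by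
  classical
  intro K F _ _ hb hk hc O _ ζ hζ i r S co hi hr hCd ε hε
  obtain ⟨S₁, co₁, hCd₁⟩ := hB hb.two O ζ hζ (i + p + 2) r (by omega) hr
  obtain ⟨n, hTS⟩ := hCd₁.ts
  obtain ⟨n', hTS'⟩ := hCd.ts
  obtain ⟨B, hB'⟩ := hG 1 n (ε / 2) (half_pos hε)
  obtain ⟨D, La, hPk, hinv, d₀, hd₀⟩ := hB' S₁.P S₁.T _ hTS (by omega)
  refine ⟨d₀, fun d hd => ?_⟩
  have hp0 : 0 < p := (Fact.out : p.Prime).pos
  have hM1 : (1 : ℝ) ≤ orb p i r :=
    Nat.one_le_cast.2 (Nat.mul_pos Nat.card_pos (pow_pos hp0 _))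
  have hM0 : (0 : ℝ) < orb p i r := one_pos.trans_le hM1
  obtain ⟨η, hη, hfin⟩ := hF K F hb hk hc S₁.P S₁.T D La _ 1 n B hPk S.P S.T
    (hD S.P S.T _ 1 n' hTS').1 d i (fun R => (Kap r R).ncard) (orb p i r) hM0 hi (by omega)
    (hinv d) (fun R R' h => by rw [(hK r d).2 R R' h])
    (fun U y q => ⟨h1 hb.two O ζ hζ _ r S₁ co₁ hCd₁ (by omega) d U y q,
      h2 hb.two O ζ hζ _ i r S₁ co₁ S co hCd₁ hCd hi (by omega) d U y q⟩) (ε / 2) (half_pos hε)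
  generalize (orb p i r : ℝ) = M at hM1 hM0 hfin ⊢
  obtain ⟨e, he1, hpe, hEv⟩ := hE K F hb hk hc (Finset (Fin d) → S₁.P)
  have ht : ∀ j : ℕ, Tame p F ((fun _ => (1 : GK K)) j) := fun _ =>
    ⟨1, (Fact.out : p.Prime).not_dvd_one, by simp⟩
  obtain ⟨φ, hφ⟩ : ∃ φ : (Fin d → Fin d → ZMod p) → ℝ, ∀ R, φ R =
      (if Good S₁.T D La (i + p + 2) 1 B R then 0 else 1) + M⁻¹ * (Kap r R).ncard :=
    ⟨_, fun _ => rfl⟩
  obtain ⟨M₀, hM, hφ0⟩ : ∃ M₀ : ℝ, 0 < M₀ ∧ ∀ R, 0 ≤ φ R ∧ φ R ≤ M₀ := by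
    refine ⟨1 + Nat.card (Fin d → Fin r → ZMod p), by positivity, fun R => ?_⟩
    rw [hφ]
    refine ⟨add_nonneg (by split_ifs <;> norm_num) (by positivity),
      add_le_add (by split_ifs <;> norm_num) ((mul_le_of_le_one_left (Nat.cast_nonneg _)
        (inv_le_one_of_one_le₀ hM1)).trans (Nat.cast_le.2 (Set.ncard_le_card _)))⟩
  have hU : Unit01 fun R : Fin d → Fin d → ZMod p =>
      M₀⁻¹ * 𝔼 a : Fin d → (ZMod p)ˣ, φ fun i j => R i j * a j := fun R =>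
    ⟨mul_nonneg (inv_nonneg.2 hM.le) (Finset.expect_nonneg fun a _ => (hφ0 _).1),
      (inv_mul_le_iff₀ hM).2 ((Finset.expect_le Finset.univ_nonempty
        fun a _ => (hφ0 _).2).trans_eq (mul_one _).symm)⟩
  obtain ⟨hinj, hpot⟩ := hI K F hb hk hc d
  replace hpot := hpot _ hU
    (fun R R' h => congrArg _ (Finset.expect_congr rfl fun a _ => by
      obtain ⟨k1, k2⟩ := row_ZmFin h fun j => a j
      rw [hφ, hφ, (hK r d).2 _ _ k1, if_congr ⟨hinv d _ _ k1, hinv d _ _ k2⟩ rfl rfl]))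
    (fun R u => congrArg _ (col_ZmFin φ R u))
  have hβ : M₀ * 𝔼 R : Fin d → Fin d → ZMod p,
      (M₀⁻¹ * 𝔼 a : Fin d → (ZMod p)ˣ, φ fun i j => R i j * a j) ≤ ε / 2 + 1 / M := by
    rw [← Finset.mul_expect, avg_ZmFin, mul_inv_cancel_left₀ hM.ne']
    simp only [hφ]
    rw [Finset.expect_add_distrib, ← Finset.mul_expect, one_div]
    exact add_le_add (hd₀ d hd) (mul_le_of_le_one_right (inv_nonneg.2 hM0.le) (hK r d).1)
  refine le_trans (by linarith) (hL K F hb d _ ht _ (hEv η hη)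
    (fun q => 𝔼 a : Fin d → (ZMod p)ˣ,
      (if Adz S.T (chA (fun j => Ideal.absNorm (q j)) a) then 1 else 0 : ℝ))
    (fun q => M₀⁻¹ * 𝔼 a : Fin d → (ZMod p)ˣ,
      φ fun i j => lk p (Ideal.absNorm (q i)) (Ideal.absNorm (q j)) * a j)
    M₀ _ (ε / 2) η hη hM.le
    (fun q => ⟨Finset.expect_nonneg fun a _ => by split_ifs <;> norm_num,
      Finset.expect_le Finset.univ_nonempty fun a _ => by split_ifs <;> norm_num⟩)
    (fun q => hU _) hinj hpot ?_)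
  intro V _ x wt hw1 hw2 hx hinj' hEq
  have hn : ∀ y, Ideal.absNorm (pr K (x y)) = (x y).l := fun y =>
    ((hP K F hb hk hc).2.2.2.2 _ (hx y).1).2.1
  simp only [hn]
  rw [← sub_le_iff_le_add', ← lin_ZoPt, ← one_mul (ε / 2)]
  refine ex_ZmFin wt hw1.1 _ (fun (a : Fin d → (ZMod p)ˣ) q =>
    (if Adz S.T (chA (fun j => (x ⟨j, q j⟩).l) a) then 1 else 0 : ℝ) -
      φ (lkA (fun j => (x ⟨j, q j⟩).l) a)) 1 _ zero_le_one (fun q => ?_) fun a => ?_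
  · rw [mul_inv_cancel_left₀ hM.ne', one_mul, Finset.expect_sub_distrib]
    rfl
  · have k1 := hfin e he1 hpe V x wt hw1 hw2 hx hinj' hEq a
    rw [add_div, ← sub_le_iff_le_add', div_eq_inv_mul, ← lin_ZoPt] at k1
    refine (mono_ZoPt hw1.1 fun q => ?_).trans (k1.trans (div_le_self (half_pos hε).le hM1))
    rw [hφ]
    by_cases b1 : Good S₁.T D La (i + p + 2) 1 B (lkA (fun j => (x ⟨j, q j⟩).l) a) <;>
      by_cases b2 : Adz S.T (chA (fun j => (x ⟨j, q j⟩).l) a) <;> simp [b1, b2]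

end Pool.Agent.MP_f68ac8_nt.Zk
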