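import Mathlib
import Pool.Agent.MP_f68ac8_nt.ZsAux
import Pool.Agent.MP_f68ac8_nt.ZmMn
namespace Pool.Agent.MP_f68ac8_nt.Zq
open Ev Pv Sv Zv Zk
open scoped commutatorElement
open Finset
open scoped BigOperators

section
variable {d : ℕ}

/-- the known part of the lower triangle -/
noncomputable def mg_ZsIid (a : ℕ) (c : ℕ → Co) (r : Mx d) : Mx d := fun i j =>
  if i.1 < a ∧ j.1 ≤ i.1 then (if i = j then eps (c i).l else lk 2 (c i).l (c j).l) else r i j

/-- overwrite the new row -/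
def ow_ZsIid (a : ℕ) (v : Option (Fin a) → ZMod 2) (r : Mx d) : Mx d := fun i j =>
  if h : i.1 = a ∧ j.1 < a then v (some ⟨j, h.2⟩)
  else if i.1 = a ∧ j.1 = a then v none else r i j

theorem mean_ZsIid {a : ℕ} (ha : a < d) (g : Mx d → ℝ) :
    𝔼 v, 𝔼 r, g (ow_ZsIid a v r) = 𝔼 r, g r := by
  refine swap_ZmMn (ow_ZsIid a) (fun r o => o.elim (r ⟨a, ha⟩ ⟨a, ha⟩)
    fun j => r ⟨a, ha⟩ ⟨j, j.2.trans ha⟩) (fun v r => ?_) (fun v r => ?_) g
  · funext b
    rcases b with _ | j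
    · simp [ow_ZsIid]
    · simp [ow_ZsIid]
  · funext i j
    by_cases h : i.1 = a ∧ j.1 < a
    · obtain ⟨rfl, h⟩ := h
      simp [ow_ZsIid, h]
    · by_cases h' : i.1 = a ∧ j.1 = a
      · obtain ⟨rfl, h'⟩ := h'
        obtain rfl : j = i := Fin.ext h'
        simp [ow_ZsIid]
      · simp only [ow_ZsIid, dif_neg h, if_neg h']

theorem new_ZsIid (a : ℕ) (c : ℕ → Co) (x : Co) (r : Mx d) :
    mg_ZsIid (a + 1) (Function.update c a x) r = mg_ZsIid a c (ow_ZsIid a
      (fun o => o.elim (eps x.l) fun j => lk 2 x.l (c j).l) r) := by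
  funext i j
  simp only [mg_ZsIid, ow_ZsIid, Option.elim_some, Option.elim_none]
  by_cases k1 : i.1 < a ∧ j.1 ≤ i.1
  · rw [if_pos k1, if_pos (by omega), Function.update_of_ne k1.1.ne,
      Function.update_of_ne (by omega)]
  · rw [if_neg k1]
    by_cases k2 : i.1 = a ∧ j.1 < a
    · rw [dif_pos k2, if_pos (by omega), if_neg (fun e => by rw [e] at k2; omega),
        Function.update_of_ne k2.2.ne, k2.1, Function.update_self]
    · rw [dif_neg k2]
      by_cases k3 : i.1 = a ∧ j.1 = a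
      · rw [if_pos k3, if_pos (by omega), if_pos (Fin.ext (by omega)), k3.1,
          Function.update_self]
      · rw [if_neg k3, if_neg (by omega)]

theorem fin_ZsIid (hQ : QrStmt) (c : ℕ → Co) (h1 : ∀ i : Fin d, P1 2 (c i).l)
    (h2 : ∀ i j : Fin d, (c i).l = (c j).l → i = j) (r : Mx d) :
    red (mg_ZsIid d c r) = lk2 fun i : Fin d => (c i).l := by
  funext i j
  simp only [red, mg_ZsIid, lk2, Fin.is_lt, true_and, le_refl, if_true]
  by_cases k : j ≤ i
  · rw [if_pos k, if_pos (Fin.le_def.1 k)]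
  · have k' : i < j := not_le.1 k
    rw [if_neg k, if_pos (Fin.le_def.1 k'.le), if_neg k'.ne', if_neg k'.ne,
      hQ.1 _ _ (h1 i) (h1 j) fun e => k'.ne (h2 i j e)]

end

theorem iid_stmt (hP : PrimStmt 2) (hC : ChStmt) (hQ : QrStmt) (hM : MnStmt 2) : IidStmt := by
  intro K F _ _ hB hK hF d f h0
  obtain ⟨-, -, -, -, hP⟩ := hP K F hB hK hF
  obtain ⟨-, hC2, hC3⟩ := hC K F hB hK hF
  refine ⟨fun a c => 𝔼 r, f (red (mg_ZsIid a c r)), fun c => ?_, fun c _ => ?_, fun c hv hc => ?_,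
    fun a ha c hv => ?_⟩
  · refine le_of_eq (expect_congr rfl fun r _ => congrArg f (congrArg red ?_))
    funext i j
    simp [mg_ZsIid]
  · exact expect_nonneg fun r _ => h0 _
  · have := fin_ZsIid (d := d) hQ c (fun j => ((hP _ (hv.1 j j.2).1).2.2 (hv.1 j j.2).2).1)
      fun i j h => Fin.ext (hv.2 i i.2 j j.2 h)
    simpa only [this, Fintype.expect_const] using hc
  · have hl : ∀ j : Fin a, P1 2 (c j).l := fun j =>
      ((hP _ (hv.1 j j.2).1).2.2 (hv.1 j j.2).2).1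
    have hI := (hC3 a (fun j => (c j).l) (fun i j h => Fin.ext (hv.2 i i.2 j j.2 h)) hl).2.2
    have h1 : ∀ s : ZMod 2, s ≠ 0 → s = 1 := by decide
    refine ⟨_, _, ∅, hM F 1 _ _ hI (fun v => 𝔼 r, f (red (mg_ZsIid a c (ow_ZsIid a v r))))
      fun s hs v => by rw [h1 s hs, one_smul],
      (mean_ZsIid ha fun r => f (red (mg_ZsIid a c r))).le, fun x hx _ => le_of_eq ?_⟩
    obtain ⟨k1, k2⟩ := (hP x hx.1).2.2 hx.2.1
    obtain ⟨-, k3, k4⟩ := hC2 x hx.1 k1
    rw [k2, pow_one]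
    refine expect_congr rfl fun r _ => ?_
    rw [new_ZsIid]
    congr 4
    funext o
    rcases o with _ | j
    · exact k3.symm
    · exact ((k4 _ (hl j) (hx.2.2 j j.2).symm).1).symm

end Pool.Agent.MP_f68ac8_nt.Zq
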