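import Mathlib
import Pool.Agent.MP_f68ac8_nt.ZvDefs

namespace Pool.Agent.MP_f68ac8_nt

open Filter Topology NumberField IsLocalRing
open scoped Pointwise

/-- a prime above `p` with a basis and characters, which are imposed if `fix` holds -/
structure OrdD (p n : ℕ) [Fact p.Prime] where
  P : Ideal (𝓞 (AlgebraicClosure ℚ))
  A : GL (Fin n) (ZMod p)
  fix : Prop
  lam : Fin n → GQ → ℤ_[p]ˣ

variable {p : ℕ} [Fact p.Prime] {K : IntermediateField ℚ (AlgebraicClosure ℚ)}
  (F : IntermediateField ℚ (AlgebraicClosure ℚ)) {n m : ℕ}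
  (r : K.fixingSubgroup →* GL (Fin n) (ZMod p)) (o : Fin m → OrdD p n)

/-- the residual representation in the basis attached to an ordinary prime -/
noncomputable def inB (i : Fin m) (g : K.fixingSubgroup) : Matrix (Fin n) (Fin n) (ZMod p) :=
  ((o i).A⁻¹ * r g * (o i).A).val

/-- the hypotheses on the residual representation -/
structure OrdRes : Prop extends UnrRes F r where
  max : ∀ i, (o i).P.IsMaximal ∧ ↑p ∈ (o i).P
  inj : Function.Injective fun i => (o i).P.under (𝓞 K)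
  tri : ∀ i (g : K.fixingSubgroup), g.1 • (o i).P = (o i).P → (inB r o i g).BlockTriangular id
  dis : ∀ i s t, s < t →
    (∃ g : K.fixingSubgroup, g.1 • (o i).P = (o i).P ∧ inB r o i g s s ≠ inB r o i g t t) ∧
    ∃ g : K.fixingSubgroup, g.1 • (o i).P = (o i).P ∧
      inB r o i g s s ≠ PadicInt.toZMod (cycChar p g : ℤ_[p]) * inB r o i g t t
  free : ∀ i, ¬ (o i).fix → ∃ g : K.fixingSubgroup, g.1 • (o i).P = (o i).P ∧
    PadicInt.toZMod (cycChar p g : ℤ_[p]) ≠ 1

open Classical in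
variable (K) in
/-- the local degrees times the dimensions of the unipotent radical or the Borel subgroup -/
noncomputable def ordExp : ℕ :=
  ∑ i, ((o i).P.under (𝓞 K)).ramificationIdx ℤ * ((o i).P.under (𝓞 K)).inertiaDeg ℤ *
    (n.choose 2 + if (o i).fix then 0 else n - 1)

/-- lifts of exact level `S` that are ordinary at the given primes and have projectively finite
inertia at all other primes -/
structure OrdLift (S : Set (Ideal (𝓞 K))) {O : Type} [CommRing O] [IsLocalRing O]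
    [Algebra ℤ_[p] O] (ρ : K.fixingSubgroup →* GL (Fin n) O) : Prop where
  res : ↑p ∈ maximalIdeal O
  cont : ∀ k, ∀ᶠ g in 𝓝 1, ∀ i j, ((ρ g).val - 1) i j ∈ maximalIdeal O ^ k
  lift : ∀ g, ∃ c : O, ∀ i j, (ρ g).val i j - c * ((r g).val i j).val ∈ maximalIdeal O
  fin : ∀ P (g : K.fixingSubgroup), Iner F P g → P.under (𝓞 K) ∉ S →
    (∀ i, P.under (𝓞 K) ≠ (o i).P.under (𝓞 K)) → ∃ a, Expo p O a ∧ IsScal (ρ g ^ a)
  inf : ∀ P : Ideal (𝓞 (AlgebraicClosure ℚ)), P.IsMaximal → P.under (𝓞 K) ∈ S →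
    ∃ g : K.fixingSubgroup, g.1 ∈ P.inertia GQ ∧ ∀ a, 0 < a → ¬ IsScal (ρ g ^ a)
  ord : ∀ i, ∃ A : GL (Fin n) O, (∀ s t, A.val s t - ((o i).A.val s t).val ∈ maximalIdeal O) ∧
    ∀ g : K.fixingSubgroup, g.1 • (o i).P = (o i).P → (A⁻¹ * ρ g * A).val.BlockTriangular id ∧
      ((o i).fix → Iner F (o i).P g → ∃ a, Expo p O a ∧ ∃ c, ∀ s,
        (A⁻¹ * ρ g * A).val s s ^ a = c * algebraMap ℤ_[p] O ((o i).lam s g) ^ a)

/-- there is no lift to the integers of a finite extension of the `p`-adic numbers -/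
def NoOrd (S : Set (Ideal (𝓞 K))) : Prop :=
  ∀ (O : Type) [CommRing O] [IsDomain O] [IsDiscreteValuationRing O] [CharZero O]
    [Finite (ResidueField O)] [Algebra ℤ_[p] O] (ρ : K.fixingSubgroup →* GL (Fin n) O),
    ¬ OrdLift F r o S ρ

end Pool.Agent.MP_f68ac8_nt
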